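import Pool.Agent.Lib.MP_39d40e_nt.Bd0

/-! The smoothed counting function is bounded and Lipschitz on the logarithmic scale. -/

namespace Pool.Agent.Lib.MP_39d40e_nt

open Finset

namespace Bd

namespace Lx

theorem ceil_le {Y : ℝ} (hY : 1 ≤ Y) : ((⌈2 * Y⌉ : ℤ) : ℝ) ≤ 3 * Y := by
  have := Int.ceil_lt_add_one (2 * Y)
  linarith

theorem card_le {Y : ℝ} (hY : 1 ≤ Y) : ((Icc (-⌈2 * Y⌉) ⌈2 * Y⌉).card : ℝ) ≤ 7 * Y := by
  have h0 : 0 ≤ ⌈2 * Y⌉ := Int.ceil_nonneg (by linarith)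
  have h1 : (((Icc (-⌈2 * Y⌉) ⌈2 * Y⌉).card : ℤ)) = ⌈2 * Y⌉ + 1 - -⌈2 * Y⌉ :=
    Int.card_Icc_of_le _ _ (by omega)
  have h2 : ((Icc (-⌈2 * Y⌉) ⌈2 * Y⌉).card : ℝ) = (⌈2 * Y⌉ : ℤ) + 1 - -((⌈2 * Y⌉ : ℤ) : ℝ) := by
    exact_mod_cast h1
  have := ceil_le hY
  rw [h2]
  linarith

theorem sum_le {Y c : ℝ} (hY : 1 ≤ Y) (hc : 0 ≤ c) (f : ℤ → ℝ)
    (hf : ∀ u ∈ Icc (-⌈2 * Y⌉) ⌈2 * Y⌉, |f u| ≤ c) :
    |∑ u ∈ Icc (-⌈2 * Y⌉) ⌈2 * Y⌉, f u| ≤ 7 * Y * c := by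
  refine (abs_sum_le_sum_abs _ _).trans ?_
  refine (sum_le_card_nsmul _ _ c hf).trans ?_
  rw [nsmul_eq_mul]
  exact mul_le_mul_of_nonneg_right (card_le hY) hc

theorem bound {h : ℝ → ℝ} {a L : ℝ} (K : Ker h a L) {φ : ℤ → ℝ} (hφ : ∀ u, |φ u| ≤ 1) {Y : ℝ}
    (hY : 1 ≤ Y) : |F h φ Y| ≤ 7 := by
  have hY0 : 0 < Y := by linarith
  unfold F
  rw [abs_div, abs_of_pos hY0, div_le_iff₀ hY0]
  have := sum_le hY zero_le_one (fun u => φ u * h (|(u : ℝ)| / Y)) fun u _ => by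
    rw [abs_mul, abs_of_nonneg (K.nonneg _)]
    exact mul_le_one₀ (hφ u) (K.nonneg _) (K.le_one _)
  linarith

theorem extend {h : ℝ → ℝ} {a L : ℝ} (K : Ker h a L) (φ : ℤ → ℝ) {Y Z : ℝ} (hY : 0 < Y)
    (hZ : Y ≤ Z) : F h φ Y = ∑ u ∈ Icc (-⌈2 * Z⌉) ⌈2 * Z⌉, φ u * (h (|(u : ℝ)| / Y) / Y) := by
  have hc : ⌈2 * Y⌉ ≤ ⌈2 * Z⌉ := Int.ceil_mono (by linarith)
  unfold F
  rw [sum_div]
  simp only [mul_div_assoc]
  refine sum_subset (Icc_subset_Icc (by omega) hc) fun u _ hu => ?_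
  have h1 : ⌈2 * Y⌉ ≤ |u| := by
    rw [mem_Icc] at hu
    rcases abs_cases u with h | h <;> omega
  have h2 : 2 * Y ≤ |(u : ℝ)| := by
    have h3 : ((⌈2 * Y⌉ : ℤ) : ℝ) ≤ ((|u| : ℤ) : ℝ) := by exact_mod_cast h1
    rw [Int.cast_abs] at h3
    exact (Int.le_ceil _).trans h3
  rw [K.high _ ((le_div_iff₀ hY).2 h2), zero_div, mul_zero]

theorem term {p q x Y r L : ℝ} (hY : 0 < Y) (h1 : 1 ≤ r) (h3 : r ≤ 3) (hL : 0 ≤ L)
    (hx0 : 0 ≤ x) (hx : x ≤ 3 * (r * Y)) (hq0 : 0 ≤ q) (hq : q ≤ 1)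
    (hpq : |p - q| ≤ L * |x / Y - x / (r * Y)|) :
    |p / Y - q / (r * Y)| ≤ (r - 1) * (9 * L + 1) / (r * Y) := by
  have hr : 0 < r := by linarith
  have hrY : 0 < r * Y := mul_pos hr hY
  have e1 : x / Y - x / (r * Y) = x / (r * Y) * (r - 1) := by field_simp
  have e2 : p / Y - q / (r * Y) = (r * (p - q) + (r - 1) * q) / (r * Y) := by
    field_simp
    ring
  have b1 : x / (r * Y) ≤ 3 := (div_le_iff₀ hrY).2 hx
  have b0 : 0 ≤ x / (r * Y) := div_nonneg hx0 hrY.le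
  have hr1 : 0 ≤ r - 1 := by linarith
  have b2 : |p - q| ≤ L * (3 * (r - 1)) := by
    refine hpq.trans (mul_le_mul_of_nonneg_left ?_ hL)
    rw [e1, abs_of_nonneg (mul_nonneg b0 hr1)]
    exact mul_le_mul_of_nonneg_right b1 hr1
  rw [e2, abs_div, abs_of_pos hrY]
  refine div_le_div_of_nonneg_right ?_ hrY.le
  refine (abs_add_le _ _).trans ?_
  rw [abs_mul, abs_of_pos hr, abs_of_nonneg (mul_nonneg hr1 hq0)]
  have b3 : r * |p - q| ≤ 3 * (L * (3 * (r - 1))) :=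
    mul_le_mul h3 b2 (abs_nonneg _) (by norm_num)
  have b4 : (r - 1) * q ≤ (r - 1) * 1 := mul_le_mul_of_nonneg_left hq hr1
  linarith

theorem near {h : ℝ → ℝ} {a L : ℝ} (K : Ker h a L) {φ : ℤ → ℝ} (hφ : ∀ u, |φ u| ≤ 1) {Y r : ℝ}
    (hY : 1 ≤ Y) (h1 : 1 ≤ r) (h3 : r ≤ 3) :
    |F h φ Y - F h φ (r * Y)| ≤ 7 * ((r - 1) * (9 * L + 1)) := by
  have hY0 : 0 < Y := by linarith
  have hle : Y ≤ r * Y := le_mul_of_one_le_left hY0.le h1
  have hZ : 1 ≤ r * Y := hY.trans hle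
  have hZ0 : 0 < r * Y := by linarith
  have hL := K.L_nonneg
  have hc : 0 ≤ (r - 1) * (9 * L + 1) / (r * Y) :=
    div_nonneg (mul_nonneg (by linarith) (by linarith)) hZ0.le
  rw [extend K φ hY0 hle, extend K φ hZ0 le_rfl, ← sum_sub_distrib]
  refine (sum_le hZ hc _ fun u hu => ?_).trans (le_of_eq ?_)
  · rw [← mul_sub, abs_mul]
    have hu1 : |u| ≤ ⌈2 * (r * Y)⌉ := abs_le.2 (mem_Icc.1 hu)
    have hu2 : |(u : ℝ)| ≤ 3 * (r * Y) := by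
      have h4 : ((|u| : ℤ) : ℝ) ≤ ((⌈2 * (r * Y)⌉ : ℤ) : ℝ) := by exact_mod_cast hu1
      rw [Int.cast_abs] at h4
      exact h4.trans (ceil_le hZ)
    have := term hY0 h1 h3 hL (abs_nonneg (u : ℝ)) hu2 (K.nonneg _) (K.le_one _) (K.lip _ _)
    exact (mul_le_of_le_one_left (abs_nonneg _) (hφ u)).trans this
  · field_simp

theorem step {h : ℝ → ℝ} {a L : ℝ} (K : Ker h a L) {φ : ℤ → ℝ} (hφ : ∀ u, |φ u| ≤ 1) {s s' : ℝ}
    (h0 : 0 ≤ s) (h1 : s ≤ s') :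
    |F h φ (Real.exp s) - F h φ (Real.exp s')| ≤ 21 * (9 * L + 1) * (s' - s) := by
  have hL := K.L_nonneg
  have hY : 1 ≤ Real.exp s := Real.one_le_exp h0
  by_cases hd : s' - s ≤ 1
  · have e : Real.exp s' = Real.exp (s' - s) * Real.exp s := by
      rw [← Real.exp_add]
      congr 1
      ring
    have r1 : 1 ≤ Real.exp (s' - s) := Real.one_le_exp (by linarith)
    have r3 : Real.exp (s' - s) ≤ 3 :=
      (Real.exp_le_exp.2 hd).trans (Real.exp_one_lt_d9.le.trans (by norm_num))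
    have r4 : Real.exp (s' - s) - 1 ≤ 3 * (s' - s) := by
      have a1 := Real.add_one_le_exp (-(s' - s))
      have a2 : Real.exp (s' - s) * Real.exp (-(s' - s)) = 1 := by
        rw [← Real.exp_add, add_neg_cancel, Real.exp_zero]
      have a3 := mul_le_mul_of_nonneg_left a1 (Real.exp_pos (s' - s)).le
      have a4 := mul_le_mul_of_nonneg_right r3 (sub_nonneg.2 h1)
      linarith
    rw [e]
    refine (near K hφ hY r1 r3).trans ?_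
    have := mul_le_mul_of_nonneg_right r4 (show 0 ≤ 9 * L + 1 by linarith)
    linarith
  · have b1 := bound K hφ hY
    have b2 := bound K hφ (Real.one_le_exp (h0.trans h1))
    have b3 := abs_sub (F h φ (Real.exp s)) (F h φ (Real.exp s'))
    have b4 : 21 * (9 * L + 1) * 1 ≤ 21 * (9 * L + 1) * (s' - s) :=
      mul_le_mul_of_nonneg_left (not_le.1 hd).le (by linarith)
    linarith

end Lx

theorem lip_st : LipSt := by
  intro h a L K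
  have hL := K.L_nonneg
  have hc : 0 ≤ 21 * (9 * L + 1) := by linarith
  refine ⟨7, 21 * (9 * L + 1), hc, fun φ hφ => ⟨fun t => ?_, fun t t' => ?_⟩⟩
  · exact Lx.bound K hφ (Real.one_le_exp (le_max_right _ _))
  · have hm := abs_max_sub_max_le_abs t t' 0
    refine le_trans ?_ (mul_le_mul_of_nonneg_left hm hc)
    rcases le_total (max t 0) (max t' 0) with h1 | h1
    · rw [abs_sub_comm (max t 0), abs_of_nonneg (sub_nonneg.2 h1)]
      exact Lx.step K hφ (le_max_right _ _) h1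
    · rw [abs_sub_comm (F h φ _), abs_of_nonneg (sub_nonneg.2 h1)]
      exact Lx.step K hφ (le_max_right _ _) h1

end Bd

end Pool.Agent.Lib.MP_39d40e_nt
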