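import Pool.Agent.Lib.MP_39d40e_nt.St0

/-! Normal law of entry times: the two Poisson equations of the forward chain. -/

namespace Pool.Agent.Lib.MP_39d40e_nt.St

open Finset Filter Topology

namespace Cx

variable {S E : Type} [Fintype S] [Fintype E] [DecidableEq S] [DecidableEq E] {X : Sys S E}

omit [DecidableEq E] in
theorem mean_fwd (f : E → ℝ) :
    X.mean f = ∑ s, X.π s * ∑ e with X.src e = s, 1 / (X.D e : ℝ) * f e := by
  unfold Sys.mean
  rw [← sum_fiberwise_of_maps_to (s := univ) (t := univ) (g := X.src) (by simp)]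
  refine sum_congr rfl fun s _ => ?_
  rw [mul_sum]
  refine sum_congr rfl fun e he => ?_
  rw [(mem_filter.1 he).2]; ring

omit [DecidableEq E] in
theorem poisson (hI : X.Irred) (f : E → ℝ) : ∃ g : S → ℝ, ∀ s,
    ∑ e with X.src e = s, 1 / (X.D e : ℝ) * (f e + g (X.tgt e)) = g s + X.mean f := by
  let T : (S → ℝ) →ₗ[ℝ] (S → ℝ) :=
    { toFun := fun h s => h s - ∑ e with X.src e = s, 1 / (X.D e : ℝ) * h (X.tgt e)
        + ∑ t, X.π t * h t
      map_add' := fun h h' => by
        funext s; simp only [Pi.add_apply, mul_add, sum_add_distrib]; ring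
      map_smul' := fun a h => by
        funext s
        simp only [Pi.smul_apply, smul_eq_mul, RingHom.id_apply, mul_add, mul_sub, mul_sum]
        congr 1
        · congr 1; exact sum_congr rfl fun _ _ => by ring
        · exact sum_congr rfl fun _ _ => by ring }
  have pair : ∀ h : S → ℝ, ∑ s, X.π s * T h s = ∑ t, X.π t * h t := by
    intro h
    have h1 := X.mean_tgt h
    rw [mean_fwd] at h1
    change ∑ s, X.π s * (h s - ∑ e with X.src e = s, 1 / (X.D e : ℝ) * h (X.tgt e)
      + ∑ t, X.π t * h t) = _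
    simp only [mul_add, mul_sub, sum_add_distrib, sum_sub_distrib]
    rw [h1, ← sum_mul, X.π_sum]; ring
  have dp : ∀ e, 0 < 1 / (X.D e : ℝ) := fun e => one_div_pos.2 (by exact_mod_cast X.D_pos e)
  have inj : Function.Injective T := by
    rw [← LinearMap.ker_eq_bot, LinearMap.ker_eq_bot']
    intro h hh
    have h0 : ∑ t, X.π t * h t = 0 := by rw [← pair, hh]; simp
    have h1 : ∀ s, h s = ∑ e with X.src e = s, 1 / (X.D e : ℝ) * h (X.tgt e) := by
      intro s
      have : h s - ∑ e with X.src e = s, 1 / (X.D e : ℝ) * h (X.tgt e)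
        + ∑ t, X.π t * h t = 0 := congrFun hh s
      linarith
    have hne : (univ : Finset S).Nonempty := by
      by_contra hn
      have := X.π_sum
      rw [not_nonempty_iff_eq_empty.1 hn] at this
      simp at this
    obtain ⟨s0, -, hs0⟩ := exists_max_image univ h hne
    have h2 : ∀ e, h (X.src e) = h s0 → h (X.tgt e) = h s0 := by
      intro e he
      have a1 : ∑ e' with X.src e' = X.src e, 1 / (X.D e' : ℝ) * (h s0 - h (X.tgt e')) = 0 := by
        simp only [mul_sub, sum_sub_distrib]
        rw [← sum_mul, X.out_sum, ← h1, he]; ring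
      have a2 := (sum_eq_zero_iff_of_nonneg fun e' _ => mul_nonneg (dp e').le
        (sub_nonneg.2 (hs0 _ (mem_univ _)))).1 a1 e (by simp)
      rcases mul_eq_zero.1 a2 with a | a
      · exact absurd a (dp e).ne'
      · linarith
    have h3 : ∀ t, h t = h s0 := by
      intro t
      have := hI s0 t
      induction this with
      | refl => rfl
      | tail _ huv ih =>
        obtain ⟨e, rfl, rfl⟩ := huv
        exact h2 e ih
    have h4 : h s0 = 0 := by
      simp only [h3] at h0
      rw [← sum_mul, X.π_sum] at h0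
      linarith [h3 s0]
    funext t; rw [h3, h4]; rfl
  obtain ⟨h, hh⟩ := (LinearMap.injective_iff_surjective.1 inj)
    (fun s => ∑ e with X.src e = s, 1 / (X.D e : ℝ) * f e - X.mean f)
  have h0 : ∑ t, X.π t * h t = 0 := by
    rw [← pair, hh]
    simp only [mul_sub, sum_sub_distrib]
    rw [← mean_fwd, ← sum_mul, X.π_sum]; ring
  refine ⟨h, fun s => ?_⟩
  have : h s - ∑ e with X.src e = s, 1 / (X.D e : ℝ) * h (X.tgt e) + ∑ t, X.π t * h t
      = ∑ e with X.src e = s, 1 / (X.D e : ℝ) * f e - X.mean f := congrFun hh s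
  simp only [mul_add, sum_add_distrib]
  linarith

theorem log_rr {g : S → ℝ} {β : ℝ} (hz : ∀ e, X.lg e + g (X.tgt e) - g (X.src e) + β = 0) :
    ∀ (l : List E) (s : S), l ∈ X.Paths l.length s →
      Real.log (X.rr l) = g (X.endp s l) - g s - β * l.length := by
  intro l
  induction l with
  | nil => intro s _; simp [Sys.rr]
  | cons e l ih =>
    intro s hl
    obtain ⟨rfl, hl'⟩ := X.cons_mem_Paths.1 hl
    have b1 : (X.b e : ℝ) ≠ 0 := by exact_mod_cast X.b_ne e
    have d1 : (0 : ℝ) < X.D e := by exact_mod_cast X.D_pos e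
    have e1 : X.rr (e :: l) = |(X.b e : ℝ)| / X.D e * X.rr l := by
      simp only [Sys.rr, Sys.bP_cons, Sys.DP_cons]
      push_cast
      rw [abs_mul, div_mul_div_comm]
    rw [e1, Real.log_mul (by positivity) (X.rr_pos l).ne', ih _ hl', Sys.endp_cons]
    have := hz e
    unfold Sys.lg at this
    push_cast [List.length_cons]
    linarith

end Cx

open Cx in
theorem const_st : ConstSt := by
  intro S E _ _ _ _ X hI hN s0 l hl hl1 β hβ
  have β0 : 0 < β := by
    have : X.mean X.lg < 0 := hN
    linarith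
  obtain ⟨g, hg⟩ := poisson hI X.lg
  set ξ : E → ℝ := fun e => X.lg e + g (X.tgt e) - g (X.src e) + β with hξ
  have hm : 0 < X.mean fun e => ξ e ^ 2 := by
    by_cases hz : ∀ e, ξ e = 0
    · have h1 := log_rr hz l s0 hl.1
      rw [hl.2] at h1
      have h2 := Real.log_pos hl1
      have h3 : 0 ≤ β * l.length := by positivity
      linarith
    · push Not at hz
      obtain ⟨e, he⟩ := hz
      exact X.mean_pos (fun _ => sq_nonneg _) (e₀ := e) (by positivity)
  set c : ℝ := (X.mean fun e => ξ e ^ 2) / (2 * β ^ 3) with hc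
  obtain ⟨u, hu⟩ := poisson hI fun e => -(c * X.lg e) - ξ e ^ 2 / (2 * β ^ 2)
  have h0 : (X.mean fun e => -(c * X.lg e) - ξ e ^ 2 / (2 * β ^ 2)) = 0 := by
    have : (X.mean fun e => -(c * X.lg e) - ξ e ^ 2 / (2 * β ^ 2)) =
        c * -X.mean X.lg - (X.mean fun e => ξ e ^ 2) / (2 * β ^ 2) := by
      unfold Sys.mean
      rw [mul_neg, mul_sum, sum_div, ← sum_neg_distrib, ← sum_sub_distrib]
      exact sum_congr rfl fun e _ => by ring
    rw [this, ← hβ, hc]
    field_simp
    ring
  refine ⟨g, u, c, by positivity, fun s => by rw [hg, hβ]; ring, fun s => ?_⟩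
  rw [← add_zero (u s), ← h0, ← hu]
  exact sum_congr rfl fun e _ => by simp only [hξ]; ring

end Pool.Agent.Lib.MP_39d40e_nt.St
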