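import Pool.Agent.Lib.MP_39d40e_nt.StE
import Pool.Agent.Lib.MP_39d40e_nt.StC
import Pool.Agent.Lib.MP_39d40e_nt.BdL

/-! Descent below a level in logarithmic time with every logarithmic saving: statements. -/

namespace Pool.Agent.Lib.MP_39d40e_nt

open Finset Filter Topology

namespace Sys

variable {S E : Type} [Fintype S] [Fintype E] [DecidableEq S] [DecidableEq E] (X : Sys S E)

/-- the orbit stays above `y` up to time `j` -/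
def Up (y : ℝ) (j : ℤ) (x : S × ℤ) : Prop :=
  ∀ i : ℕ, (i : ℤ) ≤ j → y < |(((X.step^[i] x).2 : ℤ) : ℝ)|

open Classical in
/-- indicator of `Up` -/
noncomputable def up (y : ℝ) (j : ℤ) (x : S × ℤ) : ℝ := if X.Up y j x then 1 else 0

/-- independence of residue classes, uniformly in the family and in its radius -/
def Eq2 (A : ℕ) (γ : ℝ) : Prop := ∀ (h : ℝ → ℝ) (a L : ℝ), Bd.Ker h a L → ∃ C t0 : ℝ,
  ∀ (χ : ℤ → S × ℤ → ℝ) (nx : ℤ → ℤ) (R : ℝ), X.Fam χ nx R →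
  ∀ (k : ℤ) (s : S) (g : ℤ → ℝ), (∀ x, g (x + X.B0) = g x) → ∑ x ∈ range X.B0, g x = 0 →
    (∀ x, |g x| ≤ 1) → ∀ t, t0 ≤ t → |R| ≤ Real.exp ((1 - γ) * t) →
      |Bd.F h (fun u => χ k (s, u) * g u) (Real.exp t)| ≤ C / t ^ A

/-- the approximate harmonic equation, uniformly in the family and in its radius -/
def Harm2 (A : ℕ) (γ : ℝ) : Prop := ∀ (h : ℝ → ℝ) (a L : ℝ), Bd.Ker h a L → ∃ C t0 : ℝ,
  ∀ (χ : ℤ → S × ℤ → ℝ) (nx : ℤ → ℤ) (R : ℝ), X.Fam χ nx R →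
  ∀ (k : ℤ) (s : S) (t : ℝ), t0 ≤ t → |R| ≤ Real.exp ((1 - γ) * t) →
    |X.π s * Bd.F h (fun u => χ k (s, u)) (Real.exp t) - ∑ e with X.src e = s,
      X.π (X.src e) / X.D e * Bd.F h (fun u => χ (nx k) (X.tgt e, u))
        (Real.exp (t + Real.log (|(X.b e : ℝ)| / X.D e)))| ≤ C / t ^ A

open Classical in
/-- the counting conclusion for large levels -/
def Concl2 (A : ℕ) : Prop := ∃ K y0 : ℝ, 0 ≤ K ∧ ∀ y : ℝ, 2 ≤ y → y0 ≤ y → ∀ (s : S) (N : ℕ),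
  (((Icc (-(N : ℤ)) N).filter fun u => ∀ n : ℕ, (n : ℝ) ≤ K * Real.log N →
    y < |(((X.step^[n] (s, u)).2 : ℤ) : ℝ)|).card : ℝ) ≤ K * N / Real.log y ^ A

end Sys

namespace Ab

/-- EQ, uniform in the radius -/
def EqSt : Prop := ∀ (S E : Type) [Fintype S] [Fintype E] [DecidableEq S] [DecidableEq E]
  (X : Sys S E), X.Mix → ∀ (A : ℕ) (γ : ℝ), 0 < γ → γ ≤ 1 / 2 → X.Eq2 A γ

/-- H, uniform in the radius -/
def HarmSt : Prop := ∀ (S E : Type) [Fintype S] [Fintype E] [DecidableEq S] [DecidableEq E]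
  (X : Sys S E), X.Irred → X.Neg → ∀ (s0 : S) (g : List E), X.Pa s0 g s0 → 1 < X.rr g →
  ∀ (A : ℕ) (γ : ℝ), 0 < γ → γ ≤ 1 / 2 → X.Harm2 A γ

/-- residue counting just above the level -/
def BaseSt : Prop := ∀ (S E : Type) [Fintype S] [Fintype E] [DecidableEq S] [DecidableEq E]
  (X : Sys S E), X.Irred → X.Neg → ∃ γ c κ C T0 : ℝ, 0 < γ ∧ γ ≤ 1 ∧ 0 < c ∧ 0 ≤ κ ∧ 0 ≤ C ∧
  ∀ T : ℝ, T0 ≤ T → ∀ j : ℤ, κ * T ≤ j → ∀ (s : S) (N : ℕ), Real.log N ≤ (1 + γ) * T →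
    ∑ u ∈ Icc (-(N : ℤ)) N, X.up (Real.exp T) j (s, u) ≤ C * N * Real.exp (-(c * T))

/-- the barrier argument -/
def BarSt : Prop := ∀ (S E : Type) [Fintype S] [Fintype E] [DecidableEq S]
  (src tgt : E → S) (p σ : E → ℝ) (g : S → ℝ) (β : ℝ), 0 < β → (∀ e, 0 ≤ p e) →
  (∀ s, ∑ e with src e = s, p e = 1) →
  (∀ s, ∑ e with src e = s, p e * (σ e + g (tgt e)) = g s - β) →
  ∀ (A : ℕ) (C : ℝ), ∃ κ K t2 : ℝ, 0 < κ ∧ 0 ≤ K ∧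
  ∀ (t1 η : ℝ) (j0 : ℤ) (u : ℤ → S → ℝ → ℝ), t2 ≤ t1 → 0 ≤ η →
  (∀ j s t, 0 ≤ t → u j s t ≤ 7) → (∀ j s t, j0 ≤ j → 0 ≤ t → t ≤ t1 → u j s t ≤ η) →
  (∀ j s t, t1 ≤ t →
    u j s t ≤ ∑ e with src e = s, p e * u (j - 1) (tgt e) (t + σ e) + C / t ^ (A + 2)) →
  ∀ j s t, j0 ≤ j → t1 ≤ t → u j s t ≤ K * Real.exp (t - κ * (j - j0)) + η + K / t1 ^ A

/-- dyadic summation -/
def DyadSt : Prop := ∃ (h : ℝ → ℝ) (a L : ℝ), Bd.Ker h a L ∧ ∀ (φ : ℤ → ℝ) (N : ℕ) (η : ℝ),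
  0 ≤ η → (∀ u, 0 ≤ φ u) → (∀ u, |u| ≤ 1 → φ u = 0) →
  (∀ t, 0 ≤ t → t ≤ Real.log N → Bd.F h φ (Real.exp t) ≤ η) →
  ∑ u ∈ Icc (-(N : ℤ)) N, φ u ≤ 2 * η * N

/-- systems with an expanding cycle -/
def ExpSt : Prop := ∀ (S E : Type) [Fintype S] [Fintype E] [DecidableEq S] [DecidableEq E]
  (X : Sys S E), X.Irred → X.Neg → ∀ (s0 : S) (g : List E), X.Pa s0 g s0 → 1 < X.rr g →
  ∀ A : ℕ, X.Concl2 A

/-- all systems -/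
def SysSt : Prop := ∀ (S E : Type) [Fintype S] [Fintype E] [DecidableEq S] [DecidableEq E]
  (X : Sys S E), X.Irred → X.Neg → ∀ A : ℕ, X.Concl2 A

/-- the theorem for Leigh's chain -/
def LeighSt : Prop := ∀ (L : LData) [NeZero L.d],
  ∏ i : ZMod L.d, |(L.m i : ℝ) / L.d| ^ (∑ s ∈ L.C with (s.1 : ZMod L.d) = i, L.ρ s) < 1 →
  ∀ A : ℕ, ∃ K : ℝ, ∀ y : ℝ, 2 ≤ y → ∀ N : ℕ,
    (Set.ncard {x : ℤ | |x| ≤ N ∧ (∃ s ∈ L.C, x ≡ s.1 [ZMOD (L.d * s.2 : ℕ)]) ∧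
      ∀ n : ℕ, (n : ℝ) ≤ K * Real.log N → y < |(((T L.d L.m L.r)^[n] x : ℤ) : ℝ)|} : ℝ)
      ≤ K * N / Real.log y ^ A

end Ab

end Pool.Agent.Lib.MP_39d40e_nt
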