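import Pool.Agent.Lib.MP_39d40e_nt.Ab0

/-! The barrier argument. -/

namespace Pool.Agent.Lib.MP_39d40e_nt.Ab

open Finset

theorem bar_tan {x y : ℝ} (hx : 0 < x) (hy : 0 < y) (m : ℕ) :
    1 / x ^ m - m * (y - x) / x ^ (m + 1) ≤ 1 / y ^ m := by
  have h1 : 1 + (m : ℝ) * (x / y - 1) ≤ (x / y) ^ m :=
    one_add_mul_sub_le_pow (by have := div_pos hx hy; linarith) m
  have h2 : 1 - y / x ≤ x / y - 1 := by
    have e : x / y - 1 - (1 - y / x) = (x - y) ^ 2 / (x * y) := by field_simp
    have : 0 ≤ (x - y) ^ 2 / (x * y) := by positivity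
    linarith
  have h3 : 1 + (m : ℝ) * (1 - y / x) ≤ (x / y) ^ m :=
    le_trans (by linarith [mul_le_mul_of_nonneg_left h2 (Nat.cast_nonneg m : (0 : ℝ) ≤ m)]) h1
  have hxm : 0 < x ^ m := pow_pos hx m
  have e1 : 1 / x ^ m - m * (y - x) / x ^ (m + 1) = (1 + (m : ℝ) * (1 - y / x)) / x ^ m := by
    field_simp; ring
  have e2 : 1 / y ^ m = (x / y) ^ m / x ^ m := by
    rw [div_pow]; field_simp
  rw [e1, e2]
  exact div_le_div_of_nonneg_right h3 hxm.le

theorem bar_exp {z : ℝ} (hz : |z| ≤ 1) : Real.exp z ≤ 1 + z + z ^ 2 := by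
  have := Real.abs_exp_sub_one_sub_id_le hz
  linarith [(abs_le.1 this).2]

theorem bar_bound {α : Type} [Fintype α] (f : α → ℝ) : ∃ M : ℝ, 0 ≤ M ∧ ∀ a, |f a| ≤ M :=
  ⟨∑ a, |f a|, sum_nonneg fun _ _ => abs_nonneg _, fun a =>
    single_le_sum (f := fun a => |f a|) (fun _ _ => abs_nonneg _) (mem_univ a)⟩

theorem bar_st : BarSt := by
  intro S E _ _ _ src tgt p σ g β hβ hp hout hg A C
  obtain ⟨M, hM0, hM⟩ := bar_bound σ
  obtain ⟨G, hG0, hG⟩ := bar_bound g
  obtain ⟨D, hD⟩ : ∃ D : ℝ, D = M + 2 * G + 1 := ⟨_, rfl⟩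
  have D1 : 1 ≤ D := by linarith
  obtain ⟨lam, l0, l1, l2⟩ : ∃ lam : ℝ, 0 < lam ∧ lam * D ≤ 1 ∧ lam * D ^ 2 ≤ β / 2 := by
    refine ⟨min (1 / D) (β / (2 * D ^ 2)), lt_min (by positivity) (by positivity), ?_, ?_⟩
    · calc _ ≤ 1 / D * D := mul_le_mul_of_nonneg_right (min_le_left _ _) (by linarith)
        _ = 1 := by field_simp
    · calc _ ≤ β / (2 * D ^ 2) * D ^ 2 :=
            mul_le_mul_of_nonneg_right (min_le_right _ _) (by positivity)
        _ = β / 2 := by field_simp
  have l3 : lam ≤ 1 := by nlinarith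
  obtain ⟨κ, hκ⟩ : ∃ κ : ℝ, κ = lam * β / 2 := ⟨_, rfl⟩
  have κ0 : 0 < κ := by rw [hκ]; positivity
  obtain ⟨K, hK⟩ : ∃ K : ℝ, K = |C| * 2 ^ (A + 2) / β := ⟨_, rfl⟩
  have K0 : 0 ≤ K := by rw [hK]; positivity
  refine ⟨κ, 7 * Real.exp (2 * G) + K * 2 ^ A, 2 * (M + G) + 2, κ0, by positivity, ?_⟩
  intro t1 η j0 u ht1 hη h7 h0 hH
  obtain ⟨τ, hτ⟩ : ∃ τ : ℝ, τ = t1 - M - G := ⟨_, rfl⟩
  have τ1 : 1 ≤ τ := by linarith
  have hx : ∀ s t, t1 - M ≤ t → τ ≤ t + g s := fun s t h => by
    linarith [(abs_le.1 (hG s)).1]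
  have hpos : ∀ s t, t1 - M ≤ t → K / (t + g s) ^ (A + 1) ≤ K / τ ^ (A + 1) := fun s t h =>
    div_le_div_of_nonneg_left K0 (by positivity) (pow_le_pow_left₀ (by linarith) (hx s t h) _)
  have key : ∀ n : ℕ, ∀ s t, t1 - M ≤ t → u (j0 + n) s t ≤
      7 * Real.exp (lam * (t + g s + G) - κ * n) + η + K / τ ^ (A + 1) -
        K / (t + g s) ^ (A + 1) := by
    intro n
    induction n with
    | zero =>
      intro s t h
      refine le_trans (h7 _ s t (by linarith)) ?_
      simp only [Nat.cast_zero, mul_zero, sub_zero]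
      have a2 : 1 ≤ Real.exp (lam * (t + g s + G)) :=
        Real.one_le_exp (mul_nonneg l0.le (by linarith [hx s t h]))
      linarith [hpos s t h]
    | succ n ih =>
      intro s t h
      rcases le_total t t1 with h2 | h2
      · have a1 := h0 (j0 + (n + 1 : ℕ)) s t (by omega) (by linarith) h2
        have a2 := Real.exp_pos (lam * (t + g s + G) - κ * (n + 1 : ℕ))
        linarith [hpos s t h]
      · have a1 := hH (j0 + (n + 1 : ℕ)) s t h2
        have e0 : j0 + ((n + 1 : ℕ) : ℤ) - 1 = j0 + n := by push_cast; ring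
        rw [e0] at a1
        have x0 : 0 < t + g s := by linarith [hx s t h]
        have t0 : 0 < t := by linarith
        obtain ⟨Z, hZ⟩ : ∃ Z : ℝ, Z = 7 * Real.exp (lam * (t + g s + G) - κ * n) := ⟨_, rfl⟩
        have Z0 : 0 < Z := by rw [hZ]; positivity
        obtain ⟨c1, hc1⟩ : ∃ c : ℝ, c = Z * lam + K * ((A + 1 : ℕ) : ℝ) / (t + g s) ^ (A + 1 + 1) :=
          ⟨_, rfl⟩
        obtain ⟨c0, hc0⟩ : ∃ c : ℝ, c = Z * (1 + lam * β / 2) + η + K / τ ^ (A + 1) -
          K / (t + g s) ^ (A + 1) - c1 * g s := ⟨_, rfl⟩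
        have a2 : ∑ e with src e = s, p e * u (j0 + n) (tgt e) (t + σ e) ≤
            ∑ e with src e = s, (c0 * p e + c1 * (p e * (σ e + g (tgt e)))) := by
          refine sum_le_sum fun e _ => ?_
          have hte : t1 - M ≤ t + σ e := by linarith [(abs_le.1 (hM e)).1]
          have y0 : 0 < t + σ e + g (tgt e) := by linarith [hx (tgt e) (t + σ e) hte]
          have b1 := ih (tgt e) (t + σ e) hte
          obtain ⟨δ, hδ⟩ : ∃ δ : ℝ, δ = σ e + g (tgt e) - g s := ⟨_, rfl⟩
          have hδD : |δ| ≤ D := by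
            rw [abs_le]
            constructor <;>
              linarith [(abs_le.1 (hM e)).1, (abs_le.1 (hM e)).2, (abs_le.1 (hG s)).1,
                (abs_le.1 (hG s)).2, (abs_le.1 (hG (tgt e))).1, (abs_le.1 (hG (tgt e))).2]
          have b2 : |lam * δ| ≤ 1 := by
            rw [abs_mul, abs_of_pos l0]
            exact (mul_le_mul_of_nonneg_left hδD l0.le).trans l1
          have b3 : (lam * δ) ^ 2 ≤ lam * β / 2 := by
            have q1 : δ ^ 2 ≤ D ^ 2 := by
              rw [← sq_abs δ]; exact pow_le_pow_left₀ (abs_nonneg _) hδD 2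
            have q2 := mul_le_mul_of_nonneg_left q1 l0.le
            have q3 := mul_le_mul_of_nonneg_left (q2.trans l2) l0.le
            nlinarith
          have b4 : 7 * Real.exp (lam * (t + σ e + g (tgt e) + G) - κ * n) =
              Z * Real.exp (lam * δ) := by
            rw [hZ, mul_assoc, ← Real.exp_add]
            congr 2
            rw [hδ]; ring
          have b5 : Z * Real.exp (lam * δ) ≤ Z * (1 + lam * δ + lam * β / 2) :=
            mul_le_mul_of_nonneg_left ((bar_exp b2).trans (by linarith)) Z0.le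
          have b6 := mul_le_mul_of_nonneg_left (bar_tan x0 y0 (A + 1)) K0
          have b7 : u (j0 + n) (tgt e) (t + σ e) ≤ c0 + c1 * (σ e + g (tgt e)) := by
            have e1 : c0 + c1 * (σ e + g (tgt e)) = Z * (1 + lam * δ + lam * β / 2) + η +
                K / τ ^ (A + 1) - K * (1 / (t + g s) ^ (A + 1) - ((A + 1 : ℕ) : ℝ) *
                  (t + σ e + g (tgt e) - (t + g s)) / (t + g s) ^ (A + 1 + 1)) := by
              rw [hc0, hc1, hδ]; ring
            rw [e1]
            rw [b4] at b1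
            rw [mul_one_div] at b6
            linarith
          have := mul_le_mul_of_nonneg_left b7 (hp e)
          linarith
        rw [sum_add_distrib, ← mul_sum, ← mul_sum, hout, hg] at a2
        have a3 : C / t ^ (A + 2) ≤ K * ((A + 1 : ℕ) : ℝ) / (t + g s) ^ (A + 1 + 1) * β := by
          have h4 : (t + g s) ^ (A + 2) ≤ (2 * t) ^ (A + 2) :=
            pow_le_pow_left₀ x0.le (by linarith [(abs_le.1 (hG s)).2]) _
          have e1 : K / (t + g s) ^ (A + 2) * β = |C| * 2 ^ (A + 2) / (t + g s) ^ (A + 2) := by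
            rw [hK]; field_simp
          have e2 : |C| / t ^ (A + 2) = |C| * 2 ^ (A + 2) / (2 * t) ^ (A + 2) := by
            rw [mul_pow]; field_simp
          have h5 : |C| / t ^ (A + 2) ≤ K / (t + g s) ^ (A + 2) * β := by
            rw [e1, e2]
            exact div_le_div_of_nonneg_left (by positivity) (by positivity) h4
          have h6 : C / t ^ (A + 2) ≤ |C| / t ^ (A + 2) :=
            div_le_div_of_nonneg_right (le_abs_self C) (by positivity)
          have h8 : K / (t + g s) ^ (A + 2) ≤ K * ((A + 1 : ℕ) : ℝ) / (t + g s) ^ (A + 1 + 1) := by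
            refine div_le_div_of_nonneg_right ?_ (by positivity)
            have : (1 : ℝ) ≤ ((A + 1 : ℕ) : ℝ) := by exact_mod_cast Nat.succ_le_succ (Nat.zero_le A)
            nlinarith
          exact h6.trans (h5.trans (mul_le_mul_of_nonneg_right h8 hβ.le))
        have a4 : Z * (1 - κ) ≤ 7 * Real.exp (lam * (t + g s + G) - κ * (n + 1 : ℕ)) := by
          have e3 : 7 * Real.exp (lam * (t + g s + G) - κ * (n + 1 : ℕ)) = Z * Real.exp (-κ) := by
            rw [hZ, mul_assoc, ← Real.exp_add]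
            congr 2
            push_cast; ring
          rw [e3]
          exact mul_le_mul_of_nonneg_left (by linarith [Real.add_one_le_exp (-κ)]) Z0.le
        have a5 : c0 * 1 + c1 * (g s - β) = Z * (1 - κ) + η + K / τ ^ (A + 1) -
            K / (t + g s) ^ (A + 1) - K * ((A + 1 : ℕ) : ℝ) / (t + g s) ^ (A + 1 + 1) * β := by
          rw [hc0, hc1, hκ]; ring
        linarith
  intro j s t hj ht
  obtain ⟨n, rfl⟩ : ∃ n : ℕ, j = j0 + n := ⟨(j - j0).toNat, by omega⟩
  have h := key n s t (by linarith)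
  have x0 : 0 < t + g s := by linarith [hx s t (by linarith)]
  have t10 : 0 < t1 := by linarith
  have a1 : Real.exp (lam * (t + g s + G) - κ * n) ≤
      Real.exp (2 * G) * Real.exp (t - κ * (((j0 + n : ℤ) : ℝ) - j0)) := by
    rw [← Real.exp_add]
    refine Real.exp_le_exp.2 ?_
    have b1 : lam * (t + g s + G) ≤ 1 * (t + g s + G) :=
      mul_le_mul_of_nonneg_right l3 (by linarith)
    push_cast
    linarith [(abs_le.1 (hG s)).2]
  have a2 : K / τ ^ (A + 1) ≤ K * 2 ^ A / t1 ^ A := by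
    have b1 : K / τ ^ (A + 1) ≤ K / (t1 / 2) ^ A := by
      refine div_le_div_of_nonneg_left K0 (by positivity) ?_
      exact (pow_le_pow_left₀ (by positivity) (by linarith) A).trans
        (pow_le_pow_right₀ τ1 (Nat.le_succ A))
    refine b1.trans (le_of_eq ?_)
    rw [div_pow]; field_simp
  have a3 : 0 ≤ K / (t + g s) ^ (A + 1) := by positivity
  have a4 : 0 ≤ K * 2 ^ A * Real.exp (t - κ * (((j0 + n : ℤ) : ℝ) - j0)) := by positivity
  have a5 : 0 ≤ 7 * Real.exp (2 * G) / t1 ^ A := by positivity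
  rw [add_mul, add_div]
  linarith

end Pool.Agent.Lib.MP_39d40e_nt.Ab
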