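import Pool.Agent.Lib.MP_39d40e_nt.Ab0

/-! Descent below a level: residue counting just above the level. -/

namespace Pool.Agent.Lib.MP_39d40e_nt.Ab

open Finset

namespace Basex

open Classical in
theorem cnt_le (B C G D N : ℤ) (hD : 0 < D) (hG : D ∣ G * B - 1) (Bad : ℤ → Prop) :
    #{u ∈ Icc (-N) N | D ∣ B * u + C ∧ Bad ((B * u + C) / D)}
      ≤ #{n ∈ Icc (-(N / D) - 1) (N / D) | Bad ((B * (-G * C % D) + C) / D + B * n)} := by
  set x := -G * C % D with hx
  have x0 : 0 ≤ x := Int.emod_nonneg _ hD.ne'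
  have x1 : x < D := Int.emod_lt_of_pos _ hD
  obtain ⟨v, hv⟩ := hG
  have x2 : D * (-G * C / D) + x = -G * C := Int.mul_ediv_add_emod _ _
  have x3 : B * x + C = D * (-v * C - B * (-G * C / D)) := by
    linear_combination B * x2 - C * hv
  have key : ∀ u, D ∣ B * u + C → u = x + D * ((u - x) / D) := by
    rintro u ⟨z, hz⟩
    rw [Int.mul_ediv_cancel' ⟨G * z - G * (-v * C - B * (-G * C / D)) - v * (u - x), by
      linear_combination G * hz - G * x3 - (u - x) * hv⟩]
    ring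
  refine card_le_card_of_injOn (fun u => (u - x) / D) (fun u hu => ?_) fun u hu u' hu' h => ?_
  · simp only [coe_filter, mem_Icc, Set.mem_ofPred_eq] at hu ⊢
    obtain ⟨⟨h1, h2⟩, h3, h4⟩ := hu
    have k := key u h3
    set n := (u - x) / D
    refine ⟨⟨?_, Int.le_ediv_of_mul_le hD (by nlinarith)⟩, ?_⟩
    · have : -n - 1 ≤ N / D := Int.le_ediv_of_mul_le hD (by nlinarith)
      omega
    · have e : B * u + C = D * ((-v * C - B * (-G * C / D)) + B * n) := by
        rw [k]; linear_combination x3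
      rw [e, Int.mul_ediv_cancel_left _ hD.ne'] at h4
      rwa [x3, Int.mul_ediv_cancel_left _ hD.ne']
  · simp only [coe_filter, Set.mem_ofPred_eq] at hu hu' h
    rw [key u hu.2.1, key u' hu'.2.1, h]

theorem card_I (D N : ℕ) (hD : 0 < D) (h : D ≤ N) :
    (D : ℝ) * #(Icc (-((N : ℤ) / D) - 1) (N / D)) ≤ 4 * N := by
  have h1 : 1 ≤ N / D := Nat.div_pos h hD
  have h2 : D * (N / D) ≤ N := Nat.mul_div_le N D
  have h3 : #(Icc (-((N : ℤ) / D) - 1) (N / D)) = 2 * (N / D) + 2 := by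
    rw [Int.card_Icc, ← Int.natCast_div]; omega
  rw [h3]
  have : D * (2 * (N / D) + 2) ≤ 4 * N := by nlinarith
  exact_mod_cast this

variable {S E : Type*} [Fintype S] [Fintype E] [DecidableEq S] [DecidableEq E] {X : Sys S E}

open Classical in
noncomputable def cnt (X : Sys S E) (N : ℕ) (Bad : ℤ → Prop) (l : List E) : ℝ :=
  #{u ∈ Icc (-(N : ℤ)) N | (X.DP l : ℤ) ∣ X.bP l * u + X.cP l ∧
    Bad ((X.bP l * u + X.cP l) / X.DP l)}

omit [DecidableEq E] in
theorem exists_inv (l : List E) {Q j : ℕ} (hQ : Q ∣ X.d ^ j) :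
    ∃ G : ℤ, ((X.DP l * Q : ℕ) : ℤ) ∣ G * X.bP l - 1 := by
  have h1 : IsCoprime (X.bP l) ((X.DP l * Q : ℕ) : ℤ) := by
    push_cast
    exact (X.bP_cop_DP l l).mul_right (((X.bP_cop l).pow_right (n := j)).of_isCoprime_of_dvd_right
      (by exact_mod_cast hQ))
  obtain ⟨x, y, h⟩ := h1
  exact ⟨x, -y, by linear_combination h⟩

omit [DecidableEq E] in
theorem cnt_triv (N : ℕ) (Bad : ℤ → Prop) (l : List E) (h : X.DP l ≤ N) :
    X.DP l * cnt X N Bad l ≤ 4 * N := by
  classical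
  obtain ⟨G, hG⟩ := exists_inv (X := X) l (one_dvd (X.d ^ 0))
  rw [mul_one] at hG
  refine le_trans ?_ (card_I _ N (X.DP_pos l) h)
  have := (cnt_le (X.bP l) (X.cP l) G (X.DP l) N (by exact_mod_cast X.DP_pos l) hG Bad).trans
    (card_filter_le _ _)
  exact mul_le_mul_of_nonneg_left (by unfold cnt; exact_mod_cast this) (Nat.cast_nonneg _)

noncomputable def Cp (X : Sys S E) : ℝ := ∑ s, 1 / X.π s

omit [DecidableEq E] in
theorem Cp_nonneg : 0 ≤ Cp X := sum_nonneg fun s _ => by have := X.π_pos s; positivity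

open Classical in
theorem count_Ex (n N : ℕ) (s0 : S) (A : S → List E → ℤ → Prop) :
    (#{u ∈ Icc (-(N : ℤ)) N | X.DP (X.orb n (s0, u)) ≤ N ∧
      A (X.step^[n] (s0, u)).1 (X.orb n (s0, u)) (X.step^[n] (s0, u)).2} : ℝ)
      ≤ Cp X * ∑ s, X.Ex n s fun l => if X.DP l ≤ N then X.DP l * cnt X N (A s l) l else 0 := by
  have h1 : {u ∈ Icc (-(N : ℤ)) N | X.DP (X.orb n (s0, u)) ≤ N ∧
      A (X.step^[n] (s0, u)).1 (X.orb n (s0, u)) (X.step^[n] (s0, u)).2}
      ⊆ univ.biUnion fun s => {l ∈ X.Paths n s | X.DP l ≤ N}.biUnion fun l =>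
        {u ∈ Icc (-(N : ℤ)) N | (X.DP l : ℤ) ∣ X.bP l * u + X.cP l ∧
          A s l ((X.bP l * u + X.cP l) / X.DP l)} := by
    intro u hu
    obtain ⟨h1, h2, h3⟩ := mem_filter.1 hu
    have h4 := X.orb_mul n (s0, u)
    refine mem_biUnion.2 ⟨_, mem_univ _, mem_biUnion.2 ⟨_, mem_filter.2 ⟨X.orb_mem n _, h2⟩,
      mem_filter.2 ⟨h1, Dvd.intro _ h4, ?_⟩⟩⟩
    rwa [← h4, Int.mul_ediv_cancel_left _ (by exact_mod_cast (X.DP_pos _).ne')]
  have h2 := (card_le_card h1).trans (card_biUnion_le.trans (sum_le_sum fun s _ => card_biUnion_le))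
  refine le_trans (by unfold cnt; exact_mod_cast h2 : _ ≤ ∑ s, ∑ l ∈ X.Paths n s with X.DP l ≤ N,
    cnt X N (A s l) l) ?_
  rw [mul_sum]
  refine sum_le_sum fun s _ => ?_
  rw [sum_filter, Sys.Ex, mul_sum]
  refine sum_le_sum fun l hl => ?_
  split_ifs with h
  · have c0 : 0 ≤ cnt X N (A s l) l := Nat.cast_nonneg _
    have p1 := X.π_pos s
    have p2 := X.π_pos (X.endp s l)
    have p3 : X.π s ≤ 1 := X.π_sum ▸ single_le_sum (fun t _ => (X.π_pos t).le) (mem_univ s)
    have p4 : 1 / X.π (X.endp s l) ≤ Cp X := single_le_sum (f := fun s => 1 / X.π s)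
      (fun t _ => by have := X.π_pos t; positivity) (mem_univ _)
    have d0 : (0 : ℝ) < X.DP l := by exact_mod_cast X.DP_pos l
    rw [X.wt_eq hl, show Cp X * (X.π (X.endp s l) / (X.DP l * X.π s) * (X.DP l * cnt X N (A s l) l))
      = Cp X * X.π (X.endp s l) / X.π s * cnt X N (A s l) l by field_simp]
    refine le_mul_of_one_le_left c0 ?_
    rw [div_le_iff₀ p2] at p4
    rw [le_div_iff₀ p1]; linarith
  · simp

open Classical in
theorem terras (n N : ℕ) (s0 : S) (P : List E → Prop) {p : ℝ} (hp : ∀ s, X.Pr n s P ≤ p) :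
    (#{u ∈ Icc (-(N : ℤ)) N | X.DP (X.orb n (s0, u)) ≤ N ∧ P (X.orb n (s0, u))} : ℝ)
      ≤ Cp X * Fintype.card S * 4 * N * p := by
  refine (count_Ex n N s0 fun _ l _ => P l).trans ?_
  have : ∀ s, X.Ex n s (fun l => if X.DP l ≤ N then X.DP l * cnt X N (fun _ => P l) l else 0)
      ≤ 4 * N * p := by
    intro s
    refine le_trans ?_ (mul_le_mul_of_nonneg_left (hp s) (by positivity))
    rw [Sys.Pr, ← Sys.Ex_const_mul]
    refine X.Ex_mono fun l _ => ?_
    split_ifs with h1 h2 h2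
    · simpa using cnt_triv N _ l h1
    · simp [cnt, h2]
    · positivity
    · simp
  refine (mul_le_mul_of_nonneg_left (sum_le_sum fun s _ => this s) Cp_nonneg).trans (le_of_eq ?_)
  simp; ring

end Basex

open Basex in
theorem base_st : BaseSt := by
  classical
  intro S E _ _ _ _ X hI hN
  set μ := X.mean (fun e => Real.log (|(X.b e : ℝ)| / X.D e)) with hμ
  have μ0 : 0 < -μ := neg_pos.2 hN
  obtain ⟨C, c, C1, c0, ht⟩ := X.tail_lin
    (hI.poisson fun e => Real.log (|(X.b e : ℝ)| / X.D e)) (ε := -μ / 2) (by linarith)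
  have hsum : ∀ l : List E, (l.map fun e => Real.log (|(X.b e : ℝ)| / X.D e)).sum
      = Real.log (X.rr l) := fun l => Sys.Addi.sum_map X Sys.addi_log l
  simp only [hsum, ← hμ] at ht
  have d1 : (1 : ℝ) ≤ X.d := by exact_mod_cast X.d_pos
  have l0 : 0 ≤ Real.log X.d := Real.log_nonneg d1
  set κ := 1 / (4 * (Real.log X.d + 1)) with hκ
  have κ0 : 0 < κ := by positivity
  have κ1 : κ * (Real.log X.d + 1) = 1 / 4 := by rw [hκ]; field_simp
  clear_value κ
  have cp := Cp_nonneg (X := X)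
  refine ⟨min 1 (κ * -μ / 4), c * κ, κ, Cp X * Fintype.card S * 4 * (C * Real.exp c),
    max (4 * X.cmx) ((1 + -μ / 2) * 4 / (κ * -μ)), lt_min one_pos (by positivity),
    min_le_left _ _, by positivity, κ0.le, by positivity, fun T hT j hj s N hNT => ?_⟩
  have T1 : 4 * X.cmx ≤ T := (le_max_left _ _).trans hT
  have T2 : (1 + -μ / 2) * 4 ≤ T * (κ * -μ) :=
    (div_le_iff₀ (by positivity)).1 ((le_max_right _ _).trans hT)
  have cm := X.cmx_nonneg
  have T0 : 0 ≤ T := by linarith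
  set n := ⌊κ * T⌋₊ with hn
  have n1 : (n : ℝ) ≤ κ * T := Nat.floor_le (by positivity)
  have n2 : κ * T - 1 ≤ n := by have := Nat.lt_floor_add_one (κ * T); linarith
  set W := Real.exp (T / 4) with hW
  have W1 : T / 4 + 1 ≤ W := Real.add_one_le_exp _
  have W4 : Real.exp T = W ^ 4 := by
    rw [hW, ← Real.exp_nat_mul]; congr 1; push_cast; ring
  have k1 : κ * T * Real.log X.d + κ * T = T / 4 := by linear_combination T * κ1
  have k2 : 0 ≤ κ * T * Real.log X.d := by positivity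
  have k3 : 0 ≤ κ * T := by positivity
  have w1 : (X.d : ℝ) ^ n ≤ W := by
    rw [← Real.exp_log (show (0 : ℝ) < X.d by linarith), ← Real.exp_nat_mul]
    refine Real.exp_le_exp.2 ?_
    have := mul_le_mul_of_nonneg_right n1 l0
    linarith
  have w2 : (n : ℝ) ≤ W := by linarith
  have w3 : X.cmx ≤ W := by linarith
  have w4 : 1 ≤ W := by linarith
  have w5 : W ≤ W ^ 4 := le_self_pow₀ w4 (by norm_num)
  have w6 : (n : ℝ) * X.cmx * (X.d : ℝ) ^ n ≤ W ^ 4 := by
    calc (n : ℝ) * X.cmx * (X.d : ℝ) ^ n ≤ W * W * W := by gcongr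
      _ = W ^ 3 := by ring
      _ ≤ W ^ 4 := pow_le_pow_right₀ w4 (by norm_num)
  have sub : (Icc (-(N : ℤ)) N).filter (fun u => X.Up (Real.exp T) j (s, u))
      ⊆ (Icc (-(N : ℤ)) N).filter (fun u => X.DP (X.orb n (s, u)) ≤ N ∧
        n * (μ + -μ / 2) ≤ Real.log (X.rr (X.orb n (s, u)))) := by
    intro u hu
    obtain ⟨u1, u2⟩ := mem_filter.1 hu
    have j1 : (n : ℤ) ≤ j := by
      have : ((n : ℤ) : ℝ) ≤ j := by push_cast; linarith
      exact_mod_cast this
    have a0 : Real.exp T < |(u : ℝ)| := u2 0 (le_trans (by exact_mod_cast Nat.zero_le n) j1)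
    have a1 := u2 n j1
    have a2 : |(u : ℝ)| ≤ N := by exact_mod_cast abs_le.2 (mem_Icc.1 u1)
    have b1 := X.DP_le_pow (X.orb n (s, u))
    have b2 := X.abs_cP_le (X.orb n (s, u))
    rw [X.length_of_mem_Paths (X.orb_mem n (s, u))] at b1 b2
    have b3 := X.orb_mul n (s, u)
    have r0 := X.rr_pos (X.orb n (s, u))
    set l := X.orb n (s, u)
    set z := (X.step^[n] (s, u)).2
    have N0 : (0 : ℝ) < N := by linarith [Real.exp_pos T]
    refine mem_filter.2 ⟨u1, ?_, ?_⟩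
    · have : (X.DP l : ℝ) ≤ N := by linarith
      exact_mod_cast this
    have hD : (0 : ℝ) < X.DP l := by exact_mod_cast X.DP_pos l
    have b4 : (X.DP l : ℝ) * z = X.bP l * u + X.cP l := by exact_mod_cast b3
    have b5 : X.DP l * |(z : ℝ)| ≤ |(X.bP l : ℝ)| * (2 * N) := by
      rw [← abs_of_pos hD, ← abs_mul, b4]
      refine (abs_add_le _ _).trans ?_
      rw [abs_mul]
      have c1 := mul_le_mul_of_nonneg_left a2 (abs_nonneg (X.bP l : ℝ))
      have c2 := mul_le_mul_of_nonneg_left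
        (show (n : ℝ) * X.cmx * (X.d : ℝ) ^ n ≤ N by linarith) (abs_nonneg (X.bP l : ℝ))
      linarith
    have b6 : Real.exp T ≤ X.rr l * (2 * N) := by
      refine a1.le.trans ?_
      rw [Sys.rr, div_mul_eq_mul_div, le_div_iff₀ hD]; linarith
    have b7 := Real.log_le_log (Real.exp_pos T) b6
    rw [Real.log_exp, Real.log_mul r0.ne' (by positivity),
      Real.log_mul two_ne_zero N0.ne'] at b7
    have b8 := Real.log_le_sub_one_of_pos (show (0 : ℝ) < 2 by norm_num)
    have b9 : min 1 (κ * -μ / 4) * T ≤ κ * -μ / 4 * T :=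
      mul_le_mul_of_nonneg_right (min_le_right _ _) T0
    have b10 := mul_le_mul_of_nonneg_right n2 μ0.le
    linarith
  have e1 : ∑ u ∈ Icc (-(N : ℤ)) N, X.up (Real.exp T) j (s, u)
      = (((Icc (-(N : ℤ)) N).filter (fun u => X.Up (Real.exp T) j (s, u))).card : ℝ) := by
    rw [card_filter]; push_cast; rfl
  have e2 := terras (X := X) n N s (fun l => n * (μ + -μ / 2) ≤ Real.log (X.rr l))
    (fun s => (ht n s).1)
  have e3 : Real.exp (-(c * n)) ≤ Real.exp c * Real.exp (-(c * κ * T)) := by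
    rw [← Real.exp_add]
    refine Real.exp_le_exp.2 ?_
    have := mul_le_mul_of_nonneg_left n2 c0.le
    linarith
  rw [e1]
  refine le_trans (Nat.cast_le.2 (card_le_card sub)) (le_trans (le_trans (le_of_eq ?_) e2) ?_)
  · congr
  calc Cp X * Fintype.card S * 4 * N * (C * Real.exp (-(c * n)))
      ≤ Cp X * Fintype.card S * 4 * N * (C * (Real.exp c * Real.exp (-(c * κ * T)))) := by gcongr
    _ = _ := by ring

end Pool.Agent.Lib.MP_39d40e_nt.Ab
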