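import Pool.Agent.Lib.MP_39d40e_nt.Ab0

/-! Dyadic summation of smoothed counts. -/

namespace Pool.Agent.Lib.MP_39d40e_nt.Ab

open Finset Filter Topology
open Bd (Ker F)

namespace Dyadx

/-- trapezoid kernel -/
noncomputable def ker (e x : ℝ) : ℝ := max 0 (min 1 (min ((x - e) / e) ((1 + e - x) / e)))

theorem ker_ok {e : ℝ} (h0 : 0 < e) (h1 : e ≤ 1) : Ker (ker e) e (1 / e) where
  a_pos := h0
  L_nonneg := by positivity
  nonneg x := le_max_left _ _
  le_one x := max_le zero_le_one (min_le_left _ _)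
  low x hx := max_eq_left ((min_le_right _ _).trans ((min_le_left _ _).trans
    (div_nonpos_of_nonpos_of_nonneg (by linarith) h0.le)))
  high x hx := max_eq_left ((min_le_right _ _).trans ((min_le_right _ _).trans
    (div_nonpos_of_nonpos_of_nonneg (by linarith) h0.le)))
  lip x y := by
    have h2 : 0 ≤ 1 / e * |x - y| := by positivity
    refine (abs_max_sub_max_le_max _ _ _ _).trans (max_le (by simpa using h2) ?_)
    refine (abs_min_sub_min_le_max _ _ _ _).trans (max_le (by simpa using h2) ?_)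
    refine (abs_min_sub_min_le_max _ _ _ _).trans (max_le (le_of_eq ?_) (le_of_eq ?_))
    · rw [← sub_div, abs_div, abs_of_pos h0, sub_sub_sub_cancel_right]; ring
    · rw [← sub_div, abs_div, abs_of_pos h0, sub_sub_sub_cancel_left, abs_sub_comm]; ring

theorem ker_one {e x : ℝ} (h0 : 0 < e) (h1 : 2 * e ≤ x) (h2 : x ≤ 1) : ker e x = 1 := by
  rw [ker, min_eq_left (le_min ((one_le_div h0).2 (by linarith)) ((one_le_div h0).2 (by linarith))),
    max_eq_right zero_le_one]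

/-- the count up to a real bound -/
noncomputable def cnt (φ : ℤ → ℝ) (N : ℕ) (Y : ℝ) : ℝ :=
  ∑ u ∈ Icc (-(N : ℤ)) N, if |(u : ℝ)| ≤ Y then φ u else 0

theorem cnt_small {φ : ℤ → ℝ} (h1 : ∀ u, |u| ≤ 1 → φ u = 0) (N : ℕ) {Y : ℝ} (hY : Y ≤ 1) :
    cnt φ N Y = 0 := by
  refine sum_eq_zero fun u _ => ?_
  split_ifs with h
  · refine h1 u ?_
    have : |(u : ℝ)| ≤ 1 := h.trans hY
    exact_mod_cast this
  · rfl

theorem cnt_step {φ : ℤ → ℝ} (h0 : ∀ u, 0 ≤ φ u) (N : ℕ) {Y : ℝ} (hY : 0 < Y) :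
    cnt φ N Y ≤ cnt φ N (Y / 2) + Y * F (ker (1 / 4)) φ Y := by
  have K := ker_ok (e := 1 / 4) (by norm_num) (by norm_num)
  have e1 : Y * F (ker (1 / 4)) φ Y =
      ∑ u ∈ Icc (-⌈2 * Y⌉) ⌈2 * Y⌉, φ u * ker (1 / 4) (|(u : ℝ)| / Y) := by
    rw [F]; field_simp
  have e2 : ∑ u ∈ (Icc (-(N : ℤ)) N).filter (fun u : ℤ => |(u : ℝ)| ≤ Y),
      φ u * ker (1 / 4) (|(u : ℝ)| / Y) ≤
      ∑ u ∈ Icc (-⌈2 * Y⌉) ⌈2 * Y⌉, φ u * ker (1 / 4) (|(u : ℝ)| / Y) := by
    refine sum_le_sum_of_subset_of_nonneg (fun u hu => ?_)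
      fun u _ _ => mul_nonneg (h0 u) (K.nonneg _)
    have h2 := (mem_filter.1 hu).2
    have h3 : |(u : ℝ)| ≤ ((⌈2 * Y⌉ : ℤ) : ℝ) := by linarith [Int.le_ceil (2 * Y)]
    have h4 : |u| ≤ ⌈2 * Y⌉ := by exact_mod_cast h3
    exact mem_Icc.2 (abs_le.1 h4)
  rw [e1]
  refine le_trans ?_ (add_le_add le_rfl e2)
  rw [sum_filter, cnt, cnt, ← sum_add_distrib]
  refine sum_le_sum fun u _ => ?_
  have a1 := mul_nonneg (h0 u) (K.nonneg (|(u : ℝ)| / Y))
  by_cases h2 : |(u : ℝ)| ≤ Y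
  · rw [if_pos h2, if_pos h2]
    by_cases h3 : |(u : ℝ)| ≤ Y / 2
    · rw [if_pos h3]; linarith
    · rw [if_neg h3, ker_one (by norm_num) ((le_div_iff₀ hY).2 (by linarith [not_le.1 h3]))
        ((div_le_one hY).2 h2)]
      simp
  · rw [if_neg h2, if_neg h2, if_neg fun h3 => h2 (by linarith)]
    simp

end Dyadx

open Dyadx in
theorem dyad_st : DyadSt := by
  refine ⟨ker (1 / 4), 1 / 4, 1 / (1 / 4), ker_ok (by norm_num) (by norm_num), ?_⟩
  intro φ N η hη h0 h1 hF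
  have key : ∀ k : ℕ, ∀ Y : ℝ, 0 ≤ Y → Y ≤ N → Y ≤ 2 ^ k → cnt φ N Y ≤ 2 * η * Y := by
    intro k
    induction k with
    | zero =>
      intro Y y0 _ y2
      rw [cnt_small h1 N (by simpa using y2)]
      positivity
    | succ k ih =>
      intro Y y0 y1 y2
      by_cases hY : Y ≤ 1
      · rw [cnt_small h1 N hY]; positivity
      · have hY1 : 1 < Y := not_le.1 hY
        have hY0 : 0 < Y := by linarith
        have a1 := ih (Y / 2) (by linarith) (by linarith) (by rw [pow_succ] at y2; linarith)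
        have a2 := hF (Real.log Y) (Real.log_nonneg hY1.le) (Real.log_le_log hY0 y1)
        rw [Real.exp_log hY0] at a2
        have a3 := cnt_step h0 N hY0
        have a4 := mul_le_mul_of_nonneg_left a2 y0
        linarith
  have hN : (N : ℝ) ≤ 2 ^ N := by exact_mod_cast (Nat.lt_two_pow_self (n := N)).le
  have := key N N (Nat.cast_nonneg N) le_rfl hN
  refine le_trans (le_of_eq ?_) this
  refine sum_congr rfl fun u hu => ?_
  have h4 : |u| ≤ (N : ℤ) := abs_le.2 (mem_Icc.1 hu)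
  have h5 : |(u : ℝ)| ≤ N := by exact_mod_cast h4
  rw [if_pos h5]

end Pool.Agent.Lib.MP_39d40e_nt.Ab
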