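import Pool.Agent.Lib.MP_39d40e_nt.Ab0

/-! Descent below a level: systems with an expanding cycle. -/

namespace Pool.Agent.Lib.MP_39d40e_nt.Ab

open Finset Filter Topology Bd

namespace Ex

variable {S E : Type} [Fintype S] [Fintype E] [DecidableEq S] [DecidableEq E] (X : Sys S E)

omit [DecidableEq E] in
theorem up_nonneg (y : ℝ) (j : ℤ) (x : S × ℤ) : 0 ≤ X.up y j x := by
  unfold Sys.up; split_ifs <;> norm_num

omit [DecidableEq E] in
theorem up_le (y : ℝ) (j : ℤ) (x : S × ℤ) : X.up y j x ≤ 1 := by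
  unfold Sys.up; split_ifs <;> norm_num

omit [DecidableEq E] in
theorem fam (y : ℝ) : X.Fam (X.up y) (fun j => j - 1) y := by
  refine ⟨up_nonneg X y, up_le X y, fun k x hx => ?_⟩
  have : X.Up y (k - 1) (X.step x) ↔ X.Up y k x := by
    constructor
    · intro h i hi
      rcases i with _ | i
      · exact hx
      · rw [Function.iterate_succ_apply]
        exact h i (by push_cast at hi; omega)
    · intro h i hi
      rw [← Function.iterate_succ_apply]
      exact h (i + 1) (by push_cast; omega)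
  show X.up y (k - 1) (X.step x) = X.up y k x
  unfold Sys.up
  by_cases hc : X.Up y k x
  · rw [if_pos hc, if_pos (this.2 hc)]
  · rw [if_neg hc, if_neg fun h => hc (this.1 h)]

theorem F_le {h : ℝ → ℝ} {a L : ℝ} (hk : Ker h a L) {φ : ℤ → ℝ} (h0 : ∀ u, 0 ≤ φ u) {Y : ℝ}
    (hY : 1 ≤ Y) : ∃ N : ℕ, (N : ℝ) ≤ 3 * Y ∧ 0 < N ∧
      F h φ Y ≤ (∑ u ∈ Icc (-(N : ℤ)) N, φ u) / Y := by
  have h1 : 0 < ⌈2 * Y⌉ := Int.ceil_pos.2 (by linarith)
  obtain ⟨N, hN⟩ := Int.eq_ofNat_of_zero_le h1.le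
  have h2 := Lx.ceil_le hY
  rw [hN] at h1 h2
  refine ⟨N, by exact_mod_cast h2, by exact_mod_cast h1, ?_⟩
  rw [F, hN]
  exact div_le_div_of_nonneg_right (sum_le_sum fun u _ =>
    mul_le_of_le_one_right (h0 u) (hk.le_one _)) (by linarith)

theorem exp_le (A : ℕ) {c : ℝ} (hc : 0 < c) : ∃ K : ℝ, 0 ≤ K ∧ ∀ T : ℝ, 0 < T →
    Real.exp (-(c * T)) ≤ K / T ^ A := by
  refine ⟨A.factorial / c ^ A, by positivity, fun T hT => ?_⟩
  have h := Real.pow_div_factorial_le_exp (c * T) (by positivity) A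
  rw [Real.exp_neg, div_div, ← mul_pow, ← inv_div]
  exact inv_anti₀ (by positivity) h

end Ex

theorem exp_st (h1 : HarmSt) (h2 : BaseSt) (h3 : BarSt) (h4 : DyadSt) : ExpSt := by
  classical
  intro S E _ _ _ _ X hI hN s0 l hl hl1 A
  obtain ⟨g, -, -, -, p1, -⟩ := St.const_st S E X hI hN s0 l hl hl1 _ rfl
  have β0 : 0 < -X.mean X.lg := neg_pos.2 hN
  obtain ⟨γ, c, κ, C, T0, γ0, γ1, c0, κ0, C0, hB⟩ := h2 S E X hI hN
  obtain ⟨h, a, L, hk, hD⟩ := h4
  obtain ⟨CH, t0, hH⟩ := h1 S E X hI hN s0 l hl hl1 (A + 2) (γ / (2 + γ)) (by positivity)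
    (by rw [div_le_iff₀ (by linarith)]; linarith) h a L hk
  obtain ⟨κ', K, t2, κ1, K0, hbar⟩ := h3 S E X.src X.tgt (fun e => 1 / (X.D e : ℝ)) X.lg g _ β0
    (fun e => by positivity) X.out_sum p1 A (|CH| * ∑ s, (X.π s)⁻¹)
  obtain ⟨K1, K10, hK1⟩ := Ex.exp_le A c0
  obtain ⟨K2, K20, hK2⟩ := Ex.exp_le A one_pos
  set K3 := 2 * (K * K2 + 3 * C * K1 + K) with hK3
  have K30 : 0 ≤ K3 := by positivity
  have κ2 : 0 ≤ 2 / κ' := by positivity
  refine ⟨K3 + (κ + 2 / κ' + 2), Real.exp (|T0| + |t0| + |t2| + 4 / γ + 1), by positivity,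
    fun y y2 y0 s N => ?_⟩
  set T := Real.log y with hT
  have hy : Real.exp T = y := Real.exp_log (by linarith)
  have T1 : |T0| + |t0| + |t2| + 4 / γ + 1 ≤ T := by
    rwa [← hy, Real.exp_le_exp] at y0
  have g4 : 0 ≤ 4 / γ := by positivity
  have q0 := abs_nonneg T0
  have q1 := abs_nonneg t0
  have q2 := abs_nonneg t2
  have T2 : 1 ≤ T := by linarith
  have T3 : 4 ≤ γ * T := by
    have : 4 / γ ≤ T := by linarith
    rwa [div_le_iff₀ γ0, mul_comm] at this
  have TA : 0 < T ^ A := by positivity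
  rcases lt_or_ge (N : ℝ) y with hNy | hNy
  · rw [filter_eq_empty_iff.2, card_empty, Nat.cast_zero]
    · positivity
    · intro u hu hb
      have a1 := hb 0 (by
        have := Real.log_natCast_nonneg N
        rw [Nat.cast_zero]; positivity)
      have a2 : |u| ≤ (N : ℤ) := abs_le.2 (mem_Icc.1 hu)
      have a3 : |(u : ℝ)| ≤ N := by exact_mod_cast a2
      simp only [Function.iterate_zero, id] at a1
      linarith
  have N1 : T ≤ Real.log N := Real.log_le_log (by linarith) hNy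
  set t1 := (1 + γ / 2) * T with ht1
  have t1T : T ≤ t1 := by rw [ht1]; linarith
  set η := 3 * C * Real.exp (-(c * T)) with hη
  have η0 : 0 ≤ η := by positivity
  set j0 := ⌈κ * T⌉ with hj0
  have base : ∀ (j : ℤ) (s : S) (t : ℝ), j0 ≤ j → 0 ≤ t → t ≤ t1 →
      F h (fun u => X.up y j (s, u)) (Real.exp t) ≤ η := by
    intro j s t hj b0 b1
    have hY := Real.one_le_exp b0
    obtain ⟨M, m1, m2, m3⟩ := Ex.F_le hk (fun u => Ex.up_nonneg X y j (s, u)) hY
    have m4 : Real.log M ≤ (1 + γ) * T := by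
      have a1 := Real.log_le_log (by exact_mod_cast m2) m1
      rw [Real.log_mul (by norm_num) (by positivity), Real.log_exp] at a1
      have a2 := Real.log_le_sub_one_of_pos (show (0 : ℝ) < 3 by norm_num)
      linarith
    have m5 := hB T (by linarith [le_abs_self T0]) j
      ((Int.le_ceil _).trans (by exact_mod_cast hj)) s M m4
    rw [hy] at m5
    refine m3.trans ?_
    rw [div_le_iff₀ (by linarith)]
    have := mul_le_mul_of_nonneg_right (mul_le_mul_of_nonneg_left m1 C0)
      (Real.exp_pos (-(c * T))).le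
    rw [hη]; linarith
  have bar := hbar t1 η j0 (fun j s t => F h (fun u => X.up y j (s, u)) (Real.exp t))
    (by linarith [le_abs_self t2]) η0
    (fun j s t ht => (le_abs_self _).trans (Lx.bound hk (fun u => by
      rw [abs_of_nonneg (Ex.up_nonneg X y j _)]; exact Ex.up_le X y j _) (Real.one_le_exp ht)))
    base (fun j s t ht => by
      have a0 : |y| ≤ Real.exp ((1 - γ / (2 + γ)) * t) := by
        rw [abs_of_pos (by linarith), ← hy, Real.exp_le_exp]
        have e : 1 - γ / (2 + γ) = 2 / (2 + γ) := by field_simp; ring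
        rw [e, div_mul_eq_mul_div, le_div_iff₀ (by linarith)]
        linarith
      have a1 := hH _ _ y (Ex.fam X y) j s t (by linarith [le_abs_self t0]) a0
      have a2 := X.π_pos s
      have a3 : (X.π s)⁻¹ ≤ ∑ s, (X.π s)⁻¹ := single_le_sum (f := fun s => (X.π s)⁻¹)
        (fun s _ => (inv_pos.2 (X.π_pos s)).le) (mem_univ s)
      have a4 : ∑ e with X.src e = s, X.π (X.src e) / X.D e *
          F h (fun u => X.up y (j - 1) (X.tgt e, u))
            (Real.exp (t + Real.log (|(X.b e : ℝ)| / X.D e))) =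
          X.π s * ∑ e with X.src e = s, 1 / (X.D e : ℝ) *
            F h (fun u => X.up y (j - 1) (X.tgt e, u)) (Real.exp (t + X.lg e)) := by
        rw [mul_sum]
        exact sum_congr rfl fun e he => by rw [(mem_filter.1 he).2, Sys.lg]; ring
      rw [a4, ← mul_sub, abs_mul, abs_of_pos a2, ← le_inv_mul_iff₀ a2, ← mul_div_assoc,
        mul_comm] at a1
      have a5 := div_le_div_of_nonneg_right (mul_le_mul (le_abs_self CH) a3 (by positivity)
        (abs_nonneg CH)) (pow_pos (by linarith : 0 < t) (A + 2)).le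
      linarith [(abs_le.1 a1).2])
  set j := ⌊(κ + 2 / κ' + 2) * Real.log N⌋ with hj
  have j1 : (κ + 2 / κ' + 2) * Real.log N < j + 1 := Int.lt_floor_add_one _
  have j2 : (j0 : ℝ) < κ * T + 1 := Int.ceil_lt_add_one _
  have j3 : 2 / κ' * Real.log N ≤ j - j0 := by
    have := mul_le_mul_of_nonneg_left N1 κ0
    linarith
  have j4 : j0 ≤ j := by
    have : (j0 : ℝ) ≤ j := by linarith [mul_nonneg κ2 (Real.log_natCast_nonneg N)]
    exact_mod_cast this
  have j5 : 2 * Real.log N ≤ κ' * (j - j0) := by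
    rwa [div_mul_eq_mul_div, div_le_iff₀ κ1, mul_comm _ κ'] at j3
  have e1 : η ≤ 3 * C * K1 / T ^ A := by
    rw [hη, mul_div_assoc]
    exact mul_le_mul_of_nonneg_left (hK1 T (by linarith)) (by positivity)
  have all : ∀ t, 0 ≤ t → t ≤ Real.log N →
      F h (fun u => X.up y j (s, u)) (Real.exp t) ≤ K3 / 2 / T ^ A := by
    intro t b0 b1
    have e2 : K3 / 2 / T ^ A = K * (K2 / T ^ A) + 3 * C * K1 / T ^ A + K / T ^ A := by
      rw [hK3]; ring
    have e3 : 0 ≤ K * (K2 / T ^ A) := by positivity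
    have e4 : 0 ≤ K / T ^ A := by positivity
    rcases le_total t t1 with b2 | b2
    · linarith [base j s t j4 b0 b2]
    · have a1 := bar j s t j4 b2
      have a2 : Real.exp (t - κ' * (j - j0)) ≤ K2 / T ^ A :=
        (Real.exp_le_exp.2 (by linarith)).trans (hK2 T (by linarith))
      have a3 : K / t1 ^ A ≤ K / T ^ A :=
        div_le_div_of_nonneg_left K0 TA (pow_le_pow_left₀ (by linarith) t1T A)
      have a4 := mul_le_mul_of_nonneg_left a2 K0
      linarith
  have jn : 0 ≤ j := Int.floor_nonneg.2 (mul_nonneg (by positivity) (Real.log_natCast_nonneg N))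
  have fin := hD (fun u => X.up y j (s, u)) N _ (by positivity)
    (fun u => Ex.up_nonneg X y j _) (fun u hu => if_neg fun hb => by
      have a1 := hb 0 (by simpa using jn)
      have a2 : |(u : ℝ)| ≤ 1 := by exact_mod_cast hu
      simp only [Function.iterate_zero, id] at a1
      linarith) all
  have cnt : (((Icc (-(N : ℤ)) N).filter fun u => ∀ n : ℕ,
      (n : ℝ) ≤ (K3 + (κ + 2 / κ' + 2)) * Real.log N →
      y < |(((X.step^[n] (s, u)).2 : ℤ) : ℝ)|).card : ℝ) ≤
      ∑ u ∈ Icc (-(N : ℤ)) N, X.up y j (s, u) := by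
    rw [card_filter]
    push_cast
    refine sum_le_sum fun u _ => ?_
    split_ifs with hb
    · refine (if_pos fun i hi => hb i ?_).ge
      have a1 : (i : ℝ) ≤ j := by exact_mod_cast hi
      have a2 : (j : ℝ) ≤ (κ + 2 / κ' + 2) * Real.log N := Int.floor_le _
      have a3 := mul_nonneg K30 (Real.log_natCast_nonneg N)
      linarith
    · exact Ex.up_nonneg X y j _
  refine le_trans (le_of_eq ?_) (cnt.trans (fin.trans ?_))
  · congr
  · have e5 : 2 * (K3 / 2 / T ^ A) * N = K3 * N / T ^ A := by ring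
    rw [e5]
    gcongr
    linarith

end Pool.Agent.Lib.MP_39d40e_nt.Ab
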