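import Pool.Agent.Lib.MP_39d40e_nt.StE

/-! The approximate harmonic equation with every exponent, uniformly in the exceptional window. -/

namespace Pool.Agent.Lib.MP_39d40e_nt

open Finset Filter Topology

namespace Sys

variable {S E : Type} [Fintype S] [Fintype E] [DecidableEq S] [DecidableEq E] (X : Sys S E)

/-- independence of residue classes, uniformly in the family and in the window -/
def EqP (A : ℕ) (γ : ℝ) : Prop := ∀ (h : ℝ → ℝ) (a L : ℝ), Bd.Ker h a L → ∃ C t0 : ℝ,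
  ∀ (ι : Type) (χ : ι → S × ℤ → ℝ) (nx : ι → ι) (R : ℝ), X.Fam χ nx R →
  ∀ (k : ι) (s : S) (g : ℤ → ℝ), (∀ x, g (x + X.B0) = g x) → ∑ x ∈ range X.B0, g x = 0 →
    (∀ x, |g x| ≤ 1) → ∀ t, t0 ≤ t → |R| ≤ Real.exp ((1 - γ) * t) →
      |Bd.F h (fun u => χ k (s, u) * g u) (Real.exp t)| ≤ C / t ^ A

/-- the approximate harmonic equation, uniformly in the family and in the window -/
def HarmP (A : ℕ) (γ : ℝ) : Prop :=
  ∀ (h : ℝ → ℝ) (a L : ℝ), Bd.Ker h a L → ∃ C t0 : ℝ,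
  ∀ (ι : Type) (χ : ι → S × ℤ → ℝ) (nx : ι → ι) (R : ℝ), X.Fam χ nx R →
  ∀ (k : ι) (s : S) (t : ℝ), t0 ≤ t → |R| ≤ Real.exp ((1 - γ) * t) →
    |X.π s * Bd.F h (fun u => χ k (s, u)) (Real.exp t) - ∑ e with X.src e = s,
      X.π (X.src e) / X.D e * Bd.F h (fun u => χ (nx k) (X.tgt e, u))
        (Real.exp (t + Real.log (|(X.b e : ℝ)| / X.D e)))| ≤ C / t ^ A

end Sys

namespace St

open Bd

variable {S E : Type} [Fintype S] [Fintype E] [DecidableEq S] [DecidableEq E] (X : Sys S E)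

open Ef in
theorem eqP (hM : X.Mix) (A : ℕ) {γ : ℝ} (γ0 : 0 < γ) (γ1 : γ ≤ 1) : X.EqP A γ := by
  intro h a L hk
  obtain ⟨C, hC⟩ := hM (A + 1)
  have B1 : (1 : ℝ) ≤ X.B0 := by exact_mod_cast X.B0_pos
  have d1 : (1 : ℝ) ≤ X.d := by exact_mod_cast X.d_pos
  have cm0 := X.cmx_nonneg
  have L0 := hk.L_nonneg
  have a0 := hk.a_pos
  set Γ := Real.log (2 * X.B0 * X.d) with hΓ
  have Γ0 : 0 < Γ := Real.log_pos (by nlinarith)
  set c := γ / (10 * Γ) with hc
  have c0 : 0 < c := by positivity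
  have ev : ∀ᶠ t : ℝ in atTop, 5 ≤ t ∧ 2 / c ≤ t ∧
      max (X.cmx) (2 / a) ≤ Real.exp (γ * t / 10) :=
    (eventually_ge_atTop _).and ((eventually_ge_atTop _).and
      ((Real.tendsto_exp_atTop.comp ((tendsto_id.const_mul_atTop γ0).atTop_div_const
        (by norm_num))).eventually (eventually_ge_atTop _)))
  obtain ⟨t0, ht0⟩ := eventually_atTop.1 ev
  set K := 16 * |C| * (2 / c) ^ (A + 1)
    + 8 * X.B0 * L * (X.B0 + X.cmx) * (2 ^ A * A.factorial) with hK
  have K0 : 0 ≤ K := by positivity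
  refine ⟨K * ∑ s, 1 / X.π s, t0, fun ι χ nx R ⟨h0, h1, hR⟩ k s g g1 g2 g3 t ht hRt => ?_⟩
  obtain ⟨t1, t2, t3⟩ := ht0 t ht
  have tp : 0 < t := by linarith
  set n := ⌊c * t⌋₊ with hn
  have ct : 2 ≤ c * t := by rwa [div_le_iff₀ c0, mul_comm] at t2
  have n1 : (n : ℝ) ≤ c * t := Nat.floor_le (by linarith)
  have n2 : c * t / 2 ≤ n := by have := Nat.lt_floor_add_one (c * t); linarith
  have n3 : 1 ≤ n := by
    have : (1 : ℝ) ≤ n := by linarith
    exact_mod_cast this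
  set W := Real.exp (γ * t / 10) with hW
  have W1 : 1 ≤ W := Real.one_le_exp (by positivity)
  have W0 : 0 < W := by linarith
  set V := Real.exp (t / 10) with hV
  have WV : W ≤ V := Real.exp_le_exp.2 (by nlinarith)
  have V1 : 1 ≤ V := W1.trans WV
  have V0 : 0 < V := by linarith
  have YW : Real.exp t = V ^ 10 := by
    rw [hV, ← Real.exp_nat_mul]; congr 1; push_cast; ring
  have w0 : (2 * X.B0 * X.d : ℝ) ^ n ≤ W := by
    rw [← Real.exp_log (show (0 : ℝ) < 2 * X.B0 * X.d by positivity), ← Real.exp_nat_mul]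
    refine Real.exp_le_exp.2 ?_
    calc n * Γ ≤ c * t * Γ := by gcongr
      _ = γ * t / 10 := by rw [hc]; field_simp
  have w1 : (X.B0 : ℝ) ^ n ≤ W := le_trans (pow_le_pow_left₀ (by linarith) (by nlinarith) n) w0
  have w2 : (X.d : ℝ) ^ n ≤ W := le_trans (pow_le_pow_left₀ (by linarith) (by nlinarith) n) w0
  have w3 : (n : ℝ) ≤ W := by
    have : (n : ℝ) ≤ 2 ^ n := by exact_mod_cast Nat.lt_two_pow_self.le
    exact this.trans (le_trans (pow_le_pow_left₀ (by norm_num) (by nlinarith) n) w0)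
  have u1 : X.cmx ≤ W := (le_max_left _ _).trans t3
  have u2 : 2 ≤ W * a := by
    have := (le_max_right _ _).trans t3
    rwa [div_le_iff₀ a0] at this
  have c2 : W * X.cmx * W * W ≤ Real.exp t := by
    rw [YW]
    calc W * X.cmx * W * W ≤ V * V * V * V := by gcongr; exact u1.trans WV
      _ = V ^ 4 := by ring
      _ ≤ _ := pow_le_pow_right₀ V1 (by norm_num)
  have c3 : W * |R| * W ≤ Real.exp t := by
    calc W * |R| * W ≤ W * Real.exp ((1 - γ) * t) * W := by gcongr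
      _ = Real.exp (γ * t / 10 + (1 - γ) * t + γ * t / 10) := by rw [Real.exp_add, Real.exp_add]
      _ ≤ _ := Real.exp_le_exp.2 (by nlinarith)
  have c1 : W * |R| + W * X.cmx * W ≤ a * Real.exp t := by
    refine le_of_mul_le_mul_right ?_ W0
    have := mul_le_mul_of_nonneg_right u2 (Real.exp_pos t).le
    linarith
  have c2 : W * X.cmx * W ≤ Real.exp t :=
    (le_mul_of_one_le_right (by positivity) W1).trans c2
  set J := ⌊3 * W * Real.exp t⌋₊ + 1 with hJ
  have J1 : 3 * W * Real.exp t < J := by rw [hJ]; push_cast; exact Nat.lt_floor_add_one _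
  have J2 : (J : ℝ) ≤ 4 * V ^ 11 := by
    have b1 := Nat.floor_le (show 0 ≤ 3 * W * Real.exp t by positivity)
    have b2 : 1 ≤ V ^ 11 := one_le_pow₀ V1
    have b3 : 3 * W * Real.exp t ≤ 3 * V ^ 11 := by
      rw [YW]
      calc 3 * W * V ^ 10 ≤ 3 * V * V ^ 10 := by gcongr
        _ = _ := by ring
    rw [hJ]; push_cast; linarith
  have J0 : (0 : ℝ) < J := lt_of_le_of_lt (by positivity) J1
  have J3 : 1 + Real.log J ≤ 2 * t := by
    have b1 := Real.log_le_log J0 J2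
    rw [Real.log_mul (by norm_num) (by positivity), Real.log_pow, hV, Real.log_exp] at b1
    have b2 := Real.log_le_sub_one_of_pos (show (0 : ℝ) < 4 by norm_num)
    push_cast at b1
    linarith
  have np : (0 : ℝ) < n := by linarith
  have core := eq_core X hk h0 h1 hR k (n := n) (μ := |C| / (n : ℝ) ^ (A + 1)) (by positivity)
    (fun s g g1 g2 g3 => (hC n n3 s g g1 g2 g3).trans (by gcongr; exact le_abs_self C))
    (Real.exp_pos t) w1 w2 w3 c1 c2 J1 s g g1 g2 g3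
  have m1 : 8 * (|C| / (n : ℝ) ^ (A + 1)) * (1 + Real.log J)
      ≤ 16 * |C| * (2 / c) ^ (A + 1) / t ^ A := by
    calc 8 * (|C| / (n : ℝ) ^ (A + 1)) * (1 + Real.log J)
        ≤ 8 * (|C| / (n : ℝ) ^ (A + 1)) * (2 * t) := by gcongr
      _ ≤ 8 * (|C| / (c * t / 2) ^ (A + 1)) * (2 * t) := by gcongr
      _ = _ := by rw [div_pow, div_pow, mul_pow, pow_succ t]; field_simp; ring
  have m2 : 2 * J * (X.B0 * W) * (W * (L * ((W * (X.B0 * W) + W * X.cmx * W) / Real.exp t))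
      / Real.exp t) ≤ 8 * X.B0 * L * (X.B0 + X.cmx) * (2 ^ A * A.factorial) / t ^ A := by
    have f0 : (0 : ℝ) < A.factorial := by exact_mod_cast A.factorial_pos
    have b1 : (t / 2) ^ A / A.factorial ≤ V ^ 5 := by
      have e : V ^ 5 = Real.exp (t / 2) := by
        rw [hV, ← Real.exp_nat_mul]; congr 1; push_cast; ring
      rw [e]
      exact Real.pow_div_factorial_le_exp (t / 2) (by linarith) A
    calc _ ≤ 2 * (4 * V ^ 11) * (X.B0 * V)
          * (V * (L * ((V * (X.B0 * V) + V * X.cmx * V) / Real.exp t)) / Real.exp t) := by gcongr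
      _ = 8 * X.B0 * L * (X.B0 + X.cmx) / V ^ 5 := by rw [YW]; field_simp; ring
      _ ≤ 8 * X.B0 * L * (X.B0 + X.cmx) / ((t / 2) ^ A / A.factorial) := by gcongr
      _ = _ := by rw [div_pow]; field_simp
  have m3 : X.π s * |F h (fun u => χ k (s, u) * g u) (Real.exp t)| ≤ K / t ^ A := by
    rw [hK, add_div]; linarith
  have π0 := X.π_pos s
  have m4 : 1 / X.π s ≤ ∑ s, 1 / X.π s :=
    single_le_sum (f := fun s => 1 / X.π s) (fun s _ => (one_div_pos.2 (X.π_pos s)).le)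
      (mem_univ s)
  calc _ ≤ K / t ^ A * (1 / X.π s) := by
        rw [mul_one_div, le_div_iff₀ π0, mul_comm]; exact m3
    _ ≤ K / t ^ A * ∑ s, 1 / X.π s := by gcongr
    _ = _ := by ring

open Hf in
theorem harmP (hI : X.Irred) (hN : X.Neg) {s0 : S} {g : List E} (hg : X.Pa s0 g s0)
    (hg1 : 1 < X.rr g) (A : ℕ) {γ : ℝ} (γ0 : 0 < γ) (γ1 : γ ≤ 1) : X.HarmP A γ := by
  intro h a Lp hk
  obtain ⟨L, hG⟩ := X.exists_good hI hN s0 g hg hg1
  have hL : 1 ≤ L := by
    rcases Nat.eq_zero_or_pos L with rfl | h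
    · have := hG.two_le ⟨(s0, []), X.mem_PF.2 (by simp)⟩
      exact absurd this (by simp [Sys.pow])
    · exact h
  obtain ⟨C0, t0, hC⟩ := eqP (X.pow L) hG.mix A (γ := γ / 2) (by linarith) (by linarith) h a Lp hk
  set W : ℝ := max ((X.d : ℝ) ^ L) L with hW
  have W1 : 1 ≤ W := le_trans (by exact_mod_cast hL) (le_max_right _ _)
  have cm0 := X.cmx_nonneg
  set Q : ℝ := W + W * X.cmx * W with hQ
  have Q1 : 1 ≤ Q := by
    have : 0 ≤ W * X.cmx * W := by positivity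
    linarith
  have Q2 : 0 ≤ Real.log Q := Real.log_nonneg Q1
  have hB : ∀ e, X.b e ∣ (((X.pow L).B0 : ℕ) : ℤ) := fun e => by
    obtain ⟨n, rfl⟩ : ∃ n, L = n + 1 := ⟨L - 1, by omega⟩
    obtain ⟨l, hl⟩ := Sys.exists_path (X := X) n (X.src e)
    have h2 := (X.pow (n + 1)).b_dvd_B0
      ⟨(X.tgt e, e :: l), X.mem_PF.2 (X.cons_mem_Paths.2 ⟨rfl, hl⟩)⟩
    refine Dvd.dvd.trans ?_ h2
    show X.b e ∣ X.bP (e :: l)
    rw [Sys.bP_cons]
    exact Dvd.intro _ rfl
  set K : ℝ := ∑ e, (2 * |(X.b e : ℝ)| + |(X.c e : ℝ)|) with hK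
  have hKe : ∀ e, 2 * |(X.b e : ℝ)| + |(X.c e : ℝ)| ≤ K := fun e =>
    single_le_sum (f := fun e => 2 * |(X.b e : ℝ)| + |(X.c e : ℝ)|) (fun _ _ => by positivity)
      (mem_univ e)
  have hK0 : 0 ≤ K := sum_nonneg fun _ _ => by positivity
  set M : ℝ := ∑ e, |Real.log (|(X.b e : ℝ)| / X.D e)| with hM
  have hMe : ∀ e, |Real.log (|(X.b e : ℝ)| / X.D e)| ≤ M := fun e =>
    single_le_sum (f := fun e => |Real.log (|(X.b e : ℝ)| / X.D e)|) (fun _ _ => abs_nonneg _)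
      (mem_univ e)
  have hM0 : 0 ≤ M := sum_nonneg fun _ _ => abs_nonneg _
  have ha := hk.a_pos
  have hLp := hk.L_nonneg
  refine ⟨∑ e, ((2 * K + 3) * (Lp * |(X.c e : ℝ)|) * A.factorial
      + |(X.b e : ℝ)| / X.D e * (2 ^ A * |C0|)),
    |t0| + 2 * M + (2 * (Real.log Q + M) + 1 / a) / γ + 1, fun ι χ nx R hF k s t ht hRt => ?_⟩
  have hF2 : (X.pow L).Fam χ (nx^[L]) (W * |R| + W * X.cmx * W) :=
    ⟨hF.1, hF.2.1, fun k x hx => by
      rw [X.pow_step]
      exact (Ef.inv_iter X hF.2.2 k (le_max_left _ _) (le_max_right _ _) x hx L le_rfl).2⟩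
  obtain ⟨h0, h1, hR⟩ := hF
  have hχ : ∀ k x, |χ k x| ≤ 1 := fun k x => by rw [abs_of_nonneg (h0 k x)]; exact h1 k x
  have q1 := abs_nonneg t0
  have q2 : 0 ≤ (2 * (Real.log Q + M) + 1 / a) / γ := by positivity
  have q3 : 2 * (Real.log Q + M) + 1 / a ≤ t * γ := by
    rw [← div_le_iff₀ γ0]; linarith
  have q4 : 0 < 1 / a := by positivity
  have ht1 : 1 ≤ t := by linarith
  set Y := Real.exp t with hYd
  have hY1 : t + 1 ≤ Y := Real.add_one_le_exp t
  have hY : 0 < Y := by linarith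
  have hY2 : t ^ A / A.factorial ≤ Y := Real.pow_div_factorial_le_exp t (by linarith) A
  have hRa : |R| ≤ a * Y := by
    have m1 : 1 / a ≤ Real.exp (t * γ) := by linarith [Real.add_one_le_exp (t * γ)]
    rw [div_le_iff₀ ha] at m1
    have m2 : Y = Real.exp ((1 - γ) * t) * Real.exp (t * γ) := by
      rw [← Real.exp_add, hYd]; congr 1; ring
    have m3 := mul_le_mul_of_nonneg_left m1 (Real.exp_pos ((1 - γ) * t)).le
    rw [m2]
    linarith
  have hR2 : ∀ σ : ℝ, -M ≤ σ →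
      abs (W * |R| + W * X.cmx * W) ≤ Real.exp ((1 - γ / 2) * (t + σ)) := by
    intro σ hσ
    have m1 : 1 ≤ Real.exp ((1 - γ) * t) := Real.one_le_exp (by nlinarith)
    have m2 : W * |R| + W * X.cmx * W ≤ Q * Real.exp ((1 - γ) * t) := by
      have m3 := mul_le_mul_of_nonneg_left hRt (show 0 ≤ W by linarith)
      have m4 := mul_le_mul_of_nonneg_left m1 (show 0 ≤ W * X.cmx * W by positivity)
      rw [hQ]; linarith
    rw [abs_of_nonneg (by positivity)]
    refine m2.trans ?_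
    rw [← Real.exp_log (show 0 < Q by linarith), ← Real.exp_add]
    refine Real.exp_le_exp.2 ?_
    have m5 := mul_le_mul_of_nonneg_left hσ (show 0 ≤ 1 - γ / 2 by linarith)
    have m6 : 0 ≤ γ * M := by positivity
    nlinarith
  set V : Finset ℤ := Icc (-⌈K * Y⌉) ⌈K * Y⌉ with hVd
  have hV : ∀ z : ℤ, |(z : ℝ)| ≤ K * Y → z ∈ V := fun z hz => by
    have h1 := Int.le_ceil (K * Y)
    have h2 : ((|z| : ℤ) : ℝ) ≤ (⌈K * Y⌉ : ℤ) := by push_cast; linarith
    have h3 : |z| ≤ ⌈K * Y⌉ := by exact_mod_cast h2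
    exact mem_Icc.2 (abs_le.1 h3)
  have hVc : (V.card : ℝ) ≤ (2 * K + 3) * Y := by
    have k0 : 0 ≤ K * Y := by positivity
    have k1 : 0 ≤ ⌈K * Y⌉ := Int.ceil_nonneg k0
    have k2 : (V.card : ℤ) = ⌈K * Y⌉ + 1 - -⌈K * Y⌉ := Int.card_Icc_of_le _ _ (by omega)
    have k3 : (V.card : ℝ) = (⌈K * Y⌉ : ℤ) + 1 - -((⌈K * Y⌉ : ℤ) : ℝ) := by exact_mod_cast k2
    have k4 := Int.ceil_lt_add_one (K * Y)
    nlinarith
  have push := push2 X (χ k) (χ (nx k)) 1 (fun s'' u => if s'' = s then h (|(u : ℝ)| / Y) / Y else 0)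
    (Icc (-⌈2 * Y⌉) ⌈2 * Y⌉) V (by
      intro s' u hu
      have k1 : h (|(u : ℝ)| / Y) ≠ 0 := by
        intro e
        apply hu
        simp [e]
      have k2 : |(u : ℝ)| < 2 * Y := by
        by_contra e
        exact k1 (hk.high _ (by rw [le_div_iff₀ hY]; linarith))
      have k3 : a * Y < |(u : ℝ)| := by
        by_contra e
        exact k1 (hk.low _ (by rw [div_le_iff₀ hY]; linarith))
      refine ⟨?_, ?_, ?_⟩
      · have h1 := Int.le_ceil (2 * Y)
        have h2 : ((|u| : ℤ) : ℝ) ≤ (⌈2 * Y⌉ : ℤ) := by push_cast; linarith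
        have h3 : |u| ≤ ⌈2 * Y⌉ := by exact_mod_cast h2
        exact mem_Icc.2 (abs_le.1 h3)
      · refine hV _ ?_
        rw [Function.iterate_one]
        have m1 : (X.D (X.lab (s', u)) : ℝ) * ((X.step (s', u)).2 : ℝ) =
            X.b (X.lab (s', u)) * u + X.c (X.lab (s', u)) := by exact_mod_cast X.step_mul (s', u)
        have m2 : (1 : ℝ) ≤ X.D (X.lab (s', u)) := by exact_mod_cast X.D_pos _
        have m3 := hKe (X.lab (s', u))
        have m4 : (X.D (X.lab (s', u)) : ℝ) * |((X.step (s', u)).2 : ℝ)| ≤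
            |(X.b (X.lab (s', u)) : ℝ)| * |(u : ℝ)| + |(X.c (X.lab (s', u)) : ℝ)| := by
          rw [← abs_mul, ← abs_of_nonneg (show (0 : ℝ) ≤ X.D (X.lab (s', u)) by linarith),
            ← abs_mul, m1]
          exact abs_add_le _ _
        have m5 := abs_nonneg ((X.step (s', u)).2 : ℝ)
        have m6 := abs_nonneg (X.b (X.lab (s', u)) : ℝ)
        have m7 := abs_nonneg (X.c (X.lab (s', u)) : ℝ)
        have m8 := mul_le_mul_of_nonneg_left k2.le m6
        have m9 := mul_le_mul_of_nonneg_right m3 hY.le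
        have m10 := mul_le_mul_of_nonneg_left (show 1 ≤ Y by linarith) m7
        have m11 := mul_le_mul_of_nonneg_right m2 m5
        linarith
      · rw [Function.iterate_one]
        refine hR k _ ?_
        have m2 := le_abs_self R
        show R < |(u : ℝ)|
        linarith)
  rw [one_step X (χ (nx k)) (fun u => h (|(u : ℝ)| / Y) / Y) V s] at push
  have hleft : ∑ s', X.π s' * ∑ u ∈ Icc (-⌈2 * Y⌉) ⌈2 * Y⌉, χ k (s', u) *
      (if s' = s then h (|(u : ℝ)| / Y) / Y else 0) = X.π s * F h (fun u => χ k (s, u)) Y := by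
    rw [sum_eq_single s (fun s' _ e => by simp [e]) (by simp)]
    simp only [if_true, F, sum_div, mul_div_assoc]
  rw [← hleft, push, ← sum_sub_distrib]
  have hπ0 := X.π_pos s
  have hπ1 : X.π s ≤ 1 := by
    rw [← X.π_sum]
    exact single_le_sum (fun s _ => (X.π_pos s).le) (mem_univ s)
  refine (abs_sum_le_sum_abs _ _).trans ?_
  rw [sum_div]
  refine le_trans (sum_le_sum fun e he => ?_)
    (sum_le_sum_of_subset_of_nonneg (filter_subset _ _) fun e _ _ => by positivity)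
  have hb1 : (1 : ℝ) ≤ |(X.b e : ℝ)| := by exact_mod_cast Int.one_le_abs (X.b_ne e)
  have hD1 : (1 : ℝ) ≤ X.D e := by exact_mod_cast X.D_pos e
  have hr : 0 < |(X.b e : ℝ)| / X.D e := by positivity
  have hexp : Real.exp (t + Real.log (|(X.b e : ℝ)| / X.D e)) = Y * (|(X.b e : ℝ)| / X.D e) := by
    rw [Real.exp_add, Real.exp_log hr]
  have e1 := edge hk (X.b_ne e) (X.c e) (X.D_pos e) (fun z => χ (nx k) (X.tgt e, z)) (fun z => hχ _ _) hY V
    (fun z hz => hV z (by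
      have m1 : |(X.b e : ℝ)| / X.D e ≤ |(X.b e : ℝ)| := div_le_self (by linarith) hD1
      have m2 := mul_le_mul_of_nonneg_left m1 hY.le
      have m3 := mul_le_mul_of_nonneg_right (hKe e) hY.le
      have m4 : 0 ≤ |(X.c e : ℝ)| * Y := by positivity
      linarith))
  have l1 := abs_le.1 (hMe e)
  have e2 := hC ι χ _ _ hF2 (nx k) (X.tgt e) (gg (X.b e) (X.c e) (X.D e)) (gg_per _ _ _ (hB e))
    (gg_sum (X.b_ne e) _ _ _ (hB e) (X.cop_D' e e)) (gg_abs (X.b_ne e) _ _)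
    (t + Real.log (|(X.b e : ℝ)| / X.D e)) (by linarith [le_abs_self t0]) (hR2 _ l1.1)
  have e3 : C0 / (t + Real.log (|(X.b e : ℝ)| / X.D e)) ^ A ≤ 2 ^ A * |C0| / t ^ A := by
    have m1 : t / 2 ≤ t + Real.log (|(X.b e : ℝ)| / X.D e) := by linarith
    have m2 : 0 < t / 2 := by linarith
    have m3 : 0 < t + Real.log (|(X.b e : ℝ)| / X.D e) := by linarith
    calc C0 / (t + Real.log (|(X.b e : ℝ)| / X.D e)) ^ A
        ≤ |C0| / (t + Real.log (|(X.b e : ℝ)| / X.D e)) ^ A := by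
          gcongr
          exact le_abs_self _
      _ ≤ |C0| / (t / 2) ^ A := by gcongr
      _ = 2 ^ A * |C0| / t ^ A := by rw [div_pow]; field_simp
  have e4 : (V.card : ℝ) * (Lp * |(X.c e : ℝ)| / Y ^ 2) ≤
      (2 * K + 3) * (Lp * |(X.c e : ℝ)|) * A.factorial / t ^ A := by
    have m1 : (0 : ℝ) < A.factorial := by exact_mod_cast A.factorial_pos
    calc (V.card : ℝ) * (Lp * |(X.c e : ℝ)| / Y ^ 2)
        ≤ (2 * K + 3) * Y * (Lp * |(X.c e : ℝ)| / Y ^ 2) := by gcongr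
      _ = (2 * K + 3) * (Lp * |(X.c e : ℝ)|) / Y := by field_simp
      _ ≤ (2 * K + 3) * (Lp * |(X.c e : ℝ)|) / (t ^ A / A.factorial) := by gcongr
      _ = _ := by field_simp
  rw [hexp] at e2
  rw [hexp, (mem_filter.1 he).2]
  have e5 := mul_le_mul_of_nonneg_left (e2.trans e3) hr.le
  generalize F h (fun u => χ (nx k) (X.tgt e, u) * gg (X.b e) (X.c e) (X.D e) u)
    (Y * (|(X.b e : ℝ)| / X.D e)) = f2 at e1 e5
  generalize F h (fun u => χ (nx k) (X.tgt e, u)) (Y * (|(X.b e : ℝ)| / X.D e)) = f1 at e1 ⊢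
  generalize (∑ z ∈ V, χ (nx k) (X.tgt e, z) * (if X.b e ∣ X.D e * z - X.c e then
    h (|(((X.D e * z - X.c e) / X.b e : ℤ) : ℝ)| / Y) / Y else 0)) = A at e1 ⊢
  have e6 : X.π s * A - X.π s / X.D e * f1 = X.π s *
      ((A - 1 / X.D e * f1 - |(X.b e : ℝ)| / X.D e * f2) + |(X.b e : ℝ)| / X.D e * f2) := by
    ring
  rw [e6, abs_mul, abs_of_pos hπ0]
  refine (mul_le_of_le_one_left (abs_nonneg _) hπ1).trans ((abs_add_le _ _).trans ?_)
  rw [abs_mul, abs_of_pos hr, add_div, mul_div_assoc (|(X.b e : ℝ)| / X.D e)]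
  exact add_le_add (e1.trans e4) e5

end St

end Pool.Agent.Lib.MP_39d40e_nt
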