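import Pool.Agent.Lib.MP_39d40e_nt.Ab0
import Pool.Agent.Lib.MP_39d40e_nt.AbH

/-! The uniform harmonic equation in the form used by the assembly. -/

namespace Pool.Agent.Lib.MP_39d40e_nt.Ab

theorem harm_st : HarmSt := by
  intro S E _ _ _ _ X hI hN s0 g hg hg1 A γ γ0 γ1 h a L hk
  obtain ⟨C, t0, H⟩ := St.harmP X hI hN hg hg1 A γ0 (by linarith) h a L hk
  exact ⟨C, t0, fun χ nx R hF k s t ht hR => H ℤ χ nx R hF k s t ht hR⟩

end Pool.Agent.Lib.MP_39d40e_nt.Ab
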