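import Pool.Agent.Lib.MP_39d40e_nt.Ab0

/-! Descent below a level in logarithmic time: real exponents. -/

namespace Pool.Agent.Lib.MP_39d40e_nt.Ab

open Finset

theorem real_exp (h : LeighSt) (L : LData) [NeZero L.d]
    (hΛ : ∏ i : ZMod L.d,
      |(L.m i : ℝ) / L.d| ^ (∑ s ∈ L.C with (s.1 : ZMod L.d) = i, L.ρ s) < 1) (A : ℝ) :
    ∃ K : ℝ, ∀ y : ℝ, 2 ≤ y → ∀ N : ℕ,
      (Set.ncard {x : ℤ | |x| ≤ N ∧ (∃ s ∈ L.C, x ≡ s.1 [ZMOD (L.d * s.2 : ℕ)]) ∧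
        ∀ n : ℕ, (n : ℝ) ≤ K * Real.log N → y < |(((T L.d L.m L.r)^[n] x : ℤ) : ℝ)|} : ℝ)
        ≤ K * N / Real.log y ^ A := by
  obtain ⟨K, hK⟩ := h L hΛ ⌈A⌉₊
  have l2 : 0 < Real.log 2 := Real.log_pos (by norm_num)
  have hA : A - (⌈A⌉₊ : ℝ) ≤ 0 := sub_nonpos.2 (Nat.le_ceil A)
  set c := Real.log 2 ^ (A - (⌈A⌉₊ : ℝ)) with hc
  have c0 : 0 < c := Real.rpow_pos_of_pos l2 _
  have k1 : K ≤ |K| * (1 + c) := by nlinarith [le_abs_self K, abs_nonneg K]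
  refine ⟨|K| * (1 + c), fun y hy N => le_trans ?_ ((hK y hy N).trans ?_)⟩
  · refine Nat.cast_le.2 (Set.ncard_le_ncard (fun x hx => ⟨hx.1, hx.2.1, fun n hn =>
      hx.2.2 n (hn.trans (mul_le_mul_of_nonneg_right k1 (Real.log_natCast_nonneg N)))⟩) ?_)
    exact (Set.finite_Icc (-(N : ℤ)) N).subset fun x hx => abs_le.1 hx.1
  · have ly : Real.log 2 ≤ Real.log y := Real.log_le_log (by norm_num) hy
    have l0 : 0 < Real.log y := l2.trans_le ly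
    have a1 : Real.log y ^ (A - (⌈A⌉₊ : ℝ)) ≤ c := Real.rpow_le_rpow_of_nonpos l2 ly hA
    rw [Real.rpow_sub l0, Real.rpow_natCast, div_le_iff₀ (by positivity)] at a1
    have a2 : 0 < Real.log y ^ A := Real.rpow_pos_of_pos l0 _
    have a3 : 0 < Real.log y ^ ⌈A⌉₊ := by positivity
    rw [div_le_div_iff₀ a3 a2]
    have a4 : K * N * Real.log y ^ A ≤ |K| * N * Real.log y ^ A := by
      gcongr; exact le_abs_self K
    have a5 : |K| * N * Real.log y ^ A ≤ |K| * N * (c * Real.log y ^ ⌈A⌉₊) := by gcongr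
    have a6 : 0 ≤ |K| * N * Real.log y ^ ⌈A⌉₊ := by positivity
    linarith

end Pool.Agent.Lib.MP_39d40e_nt.Ab
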