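import Pool.Agent.Lib.MP_39d40e_nt.AbHarm
import Pool.Agent.Lib.MP_39d40e_nt.AbBase
import Pool.Agent.Lib.MP_39d40e_nt.AbBar
import Pool.Agent.Lib.MP_39d40e_nt.AbDyad
import Pool.Agent.Lib.MP_39d40e_nt.AbExp
import Pool.Agent.Lib.MP_39d40e_nt.AbSys
import Pool.Agent.Lib.MP_39d40e_nt.AbLeigh

/-! Descent below a level in logarithmic time: assembly. -/

namespace Pool.Agent.Lib.MP_39d40e_nt.Ab

theorem leigh : LeighSt := leigh_st (sys_st (exp_st harm_st base_st bar_st dyad_st))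

end Pool.Agent.Lib.MP_39d40e_nt.Ab
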