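import Pool.Agent.Lib.MP_39d40e_nt.Typ

namespace Pool.Agent.Lib.MP_39d40e_nt

open Finset

namespace Sys

variable {S E : Type*} [Fintype S] [Fintype E] [DecidableEq S] [DecidableEq E] (X : Sys S E)

/-- `p`-adic valuation of the divisor of a path -/
def vP (p : ℕ) (l : List E) : ℕ := (X.DP l).factorization p

/-- ratio of the longest prefix whose `p`-adic consumption is at most `r`, if the budget `r` is
exceeded -/
def exr (p : ℕ) : ℕ → List E → Option ℚ
  | _, [] => none
  | r, e :: l => if r < X.vP p [e] then some 1 else (exr p (r - X.vP p [e]) l).map (X.rP [e] * ·)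

variable {X}

omit [DecidableEq E] in
theorem vP_append (p : ℕ) (o i : List E) : X.vP p (o ++ i) = X.vP p o + X.vP p i := by
  simp [vP, DP_append, Nat.factorization_mul (X.DP_pos o).ne' (X.DP_pos i).ne']

omit [DecidableEq E] in
theorem vP_le (p : ℕ) (l : List E) : X.vP p l ≤ l.length * X.d := by
  induction l with
  | nil => simp [vP]
  | cons e l ih =>
    have h1 := vP_append (X := X) p [e] l
    have h2 : X.vP p [e] ≤ X.d := by
      simp only [vP, DP_cons, DP_nil, mul_one]
      exact (Nat.factorization_lt p (X.D_pos e).ne').le.trans (Nat.le_of_dvd X.d_pos (X.D_dvd e))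
    simp only [List.singleton_append] at h1
    rw [h1, List.length_cons]; nlinarith

omit [DecidableEq E] in
theorem exr_append (p : ℕ) (o i : List E) : ∀ r, X.vP p o ≤ r →
    X.exr p r (o ++ i) = (X.exr p (r - X.vP p o) i).map (X.rP o * ·) := by
  induction o with
  | nil => intro r _; simp [vP]
  | cons e o ih =>
    intro r hr
    have h1 := vP_append (X := X) p [e] o
    have h2 := rP_append X [e] o
    simp only [List.singleton_append] at h1 h2
    rw [List.cons_append, exr, if_neg (by omega), ih _ (by omega), h1, h2, Option.map_map,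
      Nat.sub_sub]
    congr 1; ext x; simp [mul_assoc]

omit [DecidableEq E] in
theorem exr_prefix (p : ℕ) (o i : List E) : ∀ r w, X.exr p r o = some w →
    X.exr p r (o ++ i) = some w := by
  induction o with
  | nil => intro r w h; simp [exr] at h
  | cons e o ih =>
    intro r w h
    rw [List.cons_append, exr]
    rw [exr] at h
    split_ifs at h ⊢ with hc
    · exact h
    · obtain ⟨w', hw', rfl⟩ := Option.map_eq_some_iff.1 h
      rw [ih _ _ hw']; rfl

omit [DecidableEq E] in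
theorem exr_exit (p : ℕ) (o : List E) (e : E) (m : List E) {r : ℕ} (h1 : X.vP p o ≤ r)
    (h2 : r < X.vP p o + X.vP p [e]) : X.exr p r (o ++ e :: m) = some (X.rP o) := by
  rw [exr_append p o _ r h1, exr, if_pos (by omega)]; simp

variable (X) in
/-- probability that the exit ratio falls into `A` -/
noncomputable def psi (p : ℕ) (A : Set ℚ) (h : ℕ) (s : S) (r : ℕ) (W : ℚ) : ℝ :=
  X.Pr h s fun l => ∃ w, X.exr p r l = some w ∧ W * w ∈ A

theorem psi_mono (p : ℕ) (A : Set ℚ) (h k : ℕ) (s : S) (r : ℕ) (W : ℚ) :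
    X.psi p A h s r W ≤ X.psi p A (h + k) s r W := by
  rw [psi, ← X.Pr_take h k]
  refine X.Pr_mono ?_
  rintro l - ⟨w, hw, hA⟩
  exact ⟨w, by simpa using exr_prefix p _ (l.drop h) r w hw, hA⟩

theorem psi_step (p : ℕ) (A : Set ℚ) {Y : ℝ} {r₁ : ℕ} (h : ℕ)
    (hY : ∀ s r W, r₁ ≤ r → X.psi p A h s r W ≤ Y) {s : S} {G : List E}
    (hG : G ∈ X.Paths G.length s) {r : ℕ} (hr : r₁ + G.length * X.d ≤ r) (W : ℚ) :
    X.wt G * (Y - X.psi p A h (X.endp s G) (r - X.vP p G) (W * X.rP G)) ≤
      Y - X.psi p A h s r W := by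
  classical
  have h1 := psi_mono (X := X) p A h G.length s r W
  have h2 : X.psi p A (h + G.length) s r W = X.Ex G.length s fun o =>
      X.psi p A h (X.endp s o) (r - X.vP p o) (W * X.rP o) := by
    rw [add_comm, psi, Pr, Ex_append]
    refine X.Ex_congr fun o ho => ?_
    have hv : X.vP p o ≤ r := by
      have := vP_le (X := X) p o
      rw [X.length_of_mem_Paths ho] at this; omega
    rw [psi, Pr]
    refine X.Ex_congr fun i _ => ?_
    rw [exr_append p o i r hv]
    congr 1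
    simp only [Option.map_eq_some_iff, mul_assoc, eq_iff_iff]
    constructor
    · rintro ⟨w, ⟨a, ha, rfl⟩, hA⟩; exact ⟨a, ha, hA⟩
    · rintro ⟨a, ha, hA⟩; exact ⟨_, ⟨a, ha, rfl⟩, hA⟩
  have h3 : Y - X.psi p A (h + G.length) s r W = ∑ o ∈ X.Paths G.length s,
      X.wt o * (Y - X.psi p A h (X.endp s o) (r - X.vP p o) (W * X.rP o)) := by
    rw [h2, ← X.Ex_const G.length s Y, ← Ex_sub]; simp only [Ex_const]; rfl
  refine le_trans ?_ (by linarith : Y - X.psi p A (h + G.length) s r W ≤ _)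
  rw [h3]
  refine Finset.single_le_sum (f := fun o =>
    X.wt o * (Y - X.psi p A h (X.endp s o) (r - X.vP p o) (W * X.rP o))) (fun o ho => ?_) hG
  refine mul_nonneg (X.wt_pos o).le (sub_nonneg.2 (hY _ _ _ ?_))
  have := vP_le (X := X) p o
  rw [X.length_of_mem_Paths ho] at this; omega

theorem sum_ite_le_one {ι : Type*} (I : Finset ι) (P : ι → Prop) {inst : ∀ i, Decidable (P i)}
    (h : ∀ i ∈ I, ∀ j ∈ I, P i → P j → i = j) : ∑ i ∈ I, (if P i then (1 : ℝ) else 0) ≤ 1 := by
  rw [Finset.sum_boole]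
  have : #{i ∈ I | P i} ≤ 1 := by
    rw [Finset.card_le_one]
    intro i hi i' hi'
    exact h _ (mem_filter.1 hi).1 _ (mem_filter.1 hi').1 (mem_filter.1 hi).2 (mem_filter.1 hi').2
  exact_mod_cast this

theorem psi_sparse (p : ℕ) {A : Set ℚ} {γ : ℚ} {J u : ℕ}
    (hA : ∀ (W : ℚ) (i i' : ℕ), i < i' → i' < J → W * γ ^ (i * u) ∈ A → W * γ ^ (i' * u) ∉ A)
    (h : ℕ) (s : S) (r : ℕ) (W : ℚ) :
    ∑ i ∈ range J, X.psi p A h s r (W * γ ^ (i * u)) ≤ 1 := by
  classical
  simp only [psi, Pr]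
  rw [← Ex_sum]
  refine X.Ex_le_const fun l _ => ?_
  refine sum_ite_le_one _ _ ?_
  rintro i hi i' hi' ⟨w, hw, h1⟩ ⟨w', hw', h2⟩
  obtain rfl : w = w' := Option.some.inj (hw.symm.trans hw')
  rw [mul_right_comm] at h1 h2
  rcases lt_trichotomy i i' with h | h | h
  · exact absurd h2 (hA _ _ _ h (mem_range.1 hi') h1)
  · exact h
  · exact absurd h1 (hA _ _ _ h (mem_range.1 hi) h2)

/-- anti-concentration of the exit ratio -/
theorem anti {p : ℕ} {γ : ℚ} (hsw : ∀ s, ∃ G G' : List E,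
      G ∈ X.Paths G.length s ∧ G' ∈ X.Paths G'.length s ∧ X.endp s G = X.endp s G' ∧
      (X.DP G).factorization p = (X.DP G').factorization p ∧ X.rP G = γ * X.rP G')
    {J : ℕ} (hJ : 0 < J) (u : ℕ) {δ : ℝ} (hδ : 0 < δ) : ∃ r₀ : ℕ, ∀ A : Set ℚ,
      (∀ (W : ℚ) (i i' : ℕ), i < i' → i' < J → W * γ ^ (i * u) ∈ A → W * γ ^ (i' * u) ∉ A) →
      ∀ h s r W, r₀ ≤ r → X.psi p A h s r W ≤ 1 / J + δ := by
  choose G G' hG hG' hend hv hr using hsw
  set Λ : ℕ := ∑ s, ((G s).length + (G' s).length) * X.d with hΛ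
  have hΛ1 : ∀ s, (G s).length * X.d ≤ Λ ∧ (G' s).length * X.d ≤ Λ := by
    intro s
    have := Finset.single_le_sum (f := fun s => ((G s).length + (G' s).length) * X.d)
      (fun _ _ => Nat.zero_le _) (mem_univ s)
    rw [add_mul] at this
    constructor <;> omega
  set ε : ℝ := ∏ s, X.wt (G s) * X.wt (G' s) with hε
  have hwt : ∀ {n s l}, l ∈ X.Paths n s → X.wt l ≤ 1 := by
    intro n s l hl
    have := Finset.single_le_sum (f := fun l => X.wt l * 1)
      (fun l _ => by simpa using (X.wt_pos l).le) hl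
    have h2 := X.Ex_const n s 1
    rw [Ex] at h2
    simpa [h2] using this.trans_eq h2
  have hε0 : 0 < ε := Finset.prod_pos fun s _ => mul_pos (X.wt_pos _) (X.wt_pos _)
  have hε1 : ∀ s, ε ≤ X.wt (G s) ∧ ε ≤ X.wt (G' s) := by
    intro s
    have h1 : ε ≤ X.wt (G s) * X.wt (G' s) := by
      rw [hε, ← Finset.mul_prod_erase _ _ (mem_univ s)]
      refine mul_le_of_le_one_right (mul_pos (X.wt_pos _) (X.wt_pos _)).le ?_
      exact Finset.prod_le_one (fun t _ => (mul_pos (X.wt_pos _) (X.wt_pos _)).le) fun t _ =>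
        mul_le_one₀ (hwt (hG t)) (X.wt_pos _).le (hwt (hG' t))
    exact ⟨h1.trans (mul_le_of_le_one_right (X.wt_pos _).le (hwt (hG' s))),
      h1.trans (mul_le_of_le_one_left (X.wt_pos _).le (hwt (hG s)))⟩
  have hε2 : ε ≤ 1 := Finset.prod_le_one (fun t _ => (mul_pos (X.wt_pos _) (X.wt_pos _)).le)
    fun t _ => mul_le_one₀ (hwt (hG t)) (X.wt_pos _).le (hwt (hG' t))
  have inner : ∀ (A : Set ℚ) (Y : ℝ) (r₁ h : ℕ), (∀ s r W, r₁ ≤ r → X.psi p A h s r W ≤ Y) →
      ∀ (n : ℕ) (s : S), ∃ (s' : S) (v : ℕ) (W' : ℚ), v ≤ n * Λ ∧ ∀ i ≤ n, ∀ r W, r₁ + n * Λ ≤ r →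
        ε ^ n * (Y - X.psi p A h s' (r - v) (W * W' * γ ^ i)) ≤ Y - X.psi p A h s r W := by
    intro A Y r₁ h hY n
    induction n with
    | zero =>
      intro s
      refine ⟨s, 0, 1, Nat.zero_le _, fun i hi r W _ => ?_⟩
      obtain rfl : i = 0 := by omega
      simp
    | succ n ih =>
      intro s
      obtain ⟨s', v, W', hvn, hI⟩ := ih (X.endp s (G s))
      have hvG : X.vP p (G s) ≤ Λ := (vP_le p _).trans (hΛ1 s).1
      have hvG' : X.vP p (G' s) = X.vP p (G s) := (hv s).symm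
      refine ⟨s', X.vP p (G s) + v, X.rP (G' s) * W', by rw [add_mul]; omega, ?_⟩
      intro i hi r W hrr
      rw [add_mul, one_mul] at hrr
      have hL := hΛ1 s
      have key : ∀ (g : List E) (j : ℕ), g ∈ X.Paths g.length s → ε ≤ X.wt g → j ≤ n →
          g.length * X.d ≤ Λ → X.endp s g = X.endp s (G s) → X.vP p g = X.vP p (G s) →
          ε ^ (n + 1) * (Y - X.psi p A h s' (r - (X.vP p (G s) + v)) (W * X.rP g * W' * γ ^ j)) ≤
            Y - X.psi p A h s r W := by
        intro g j hg hεg hj hl he hvg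
        have h1 := psi_step p A h hY hg (r := r) (by omega) W
        have h2 := hI j hj (r - X.vP p (G s)) (W * X.rP g) (by omega)
        rw [he, hvg] at h1
        rw [Nat.sub_sub] at h2
        have h3 : 0 ≤ Y - X.psi p A h (X.endp s (G s)) (r - X.vP p (G s)) (W * X.rP g) :=
          sub_nonneg.2 (hY _ _ _ (by omega))
        calc _ = ε * (ε ^ n * (Y - X.psi p A h s' (r - (X.vP p (G s) + v))
              (W * X.rP g * W' * γ ^ j))) := by ring
          _ ≤ ε * _ := mul_le_mul_of_nonneg_left h2 hε0.le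
          _ ≤ X.wt g * _ := mul_le_mul_of_nonneg_right hεg h3
          _ ≤ _ := h1
      rcases Nat.eq_zero_or_pos i with rfl | hi0
      · have := key (G' s) 0 (hG' s) (hε1 s).2 (Nat.zero_le _) hL.2 (hend s).symm hvG'
        simpa only [mul_assoc] using this
      · obtain ⟨j, rfl⟩ : ∃ j, i = j + 1 := ⟨i - 1, by omega⟩
        have := key (G s) j (hG s) (hε1 s).1 (by omega) hL.1 rfl rfl
        rw [hr s] at this
        have h4 : W * (γ * X.rP (G' s)) * W' * γ ^ j = W * (X.rP (G' s) * W') * γ ^ (j + 1) := by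
          ring
        rwa [h4] at this
  set n := J * u with hn
  set θ : ℝ := 1 - ε ^ n with hθ
  have hθ0 : 0 ≤ θ := sub_nonneg.2 (pow_le_one₀ hε0.le hε2)
  have hθ1 : θ < 1 := sub_lt_self _ (pow_pos hε0 _)
  obtain ⟨k, hk⟩ := exists_pow_lt_of_lt_one hδ hθ1
  refine ⟨k * (n * Λ), fun A hA h s r W hr => ?_⟩
  have hJ' : (0 : ℝ) < J := by exact_mod_cast hJ
  have main : ∀ k : ℕ, ∀ s r W, k * (n * Λ) ≤ r → X.psi p A h s r W ≤ 1 / J + θ ^ k := by
    intro k
    induction k with
    | zero =>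
      intro s r W _
      have := X.Pr_le_one h s fun l => ∃ w, X.exr p r l = some w ∧ W * w ∈ A
      have h2 : (0 : ℝ) < 1 / J := by positivity
      rw [pow_zero, psi]; linarith
    | succ k ih =>
      intro s r W hr
      obtain ⟨s', v, W', -, hI⟩ := inner A _ _ h ih n s
      have h1 : ∑ i ∈ range J, ε ^ n * (1 / J + θ ^ k -
          X.psi p A h s' (r - v) (W * W' * γ ^ (i * u))) ≤
          ∑ i ∈ range J, (1 / J + θ ^ k - X.psi p A h s r W) :=
        Finset.sum_le_sum fun i hi => hI (i * u)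
          (Nat.mul_le_mul_right _ (mem_range.1 hi).le) r W (by rw [add_mul] at hr; omega)
      rw [← Finset.mul_sum, Finset.sum_sub_distrib] at h1
      simp only [Finset.sum_const, card_range, nsmul_eq_mul] at h1
      have h2 := psi_sparse (X := X) p hA h s' (r - v) (W * W')
      have h3 : (J : ℝ) * (1 / J) = 1 := by field_simp
      have h4 : ε ^ n * (J * θ ^ k) ≤ J * (1 / J + θ ^ k - X.psi p A h s r W) := by
        refine le_trans (mul_le_mul_of_nonneg_left ?_ (pow_pos hε0 n).le) h1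
        rw [mul_add, h3]; linarith
      have h5 : ε ^ n * θ ^ k ≤ 1 / J + θ ^ k - X.psi p A h s r W := by
        refine le_of_mul_le_mul_left ?_ hJ'
        linarith
      rw [pow_succ, hθ]; rw [hθ] at h5; linarith
  linarith [main k s r W hr]

end Sys

end Pool.Agent.Lib.MP_39d40e_nt
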