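import Mathlib

/-! Density of invariant sets, part A: approximately harmonic functions of a Markov additive walk
converge. -/

namespace Pool.Agent.Lib.MP_39d40e_nt.Bd

open Finset Filter Topology MeasureTheory

variable {S E : Type*} [Fintype S] [Fintype E] [DecidableEq S]

theorem fib (g : E → S) (w : E → ℝ) (π : S → ℝ) (h : ∀ s, ∑ e with g e = s, w e = π s)
    (F : S → ℝ) : ∑ e, w e * F (g e) = ∑ s, π s * F s := by
  rw [← sum_fiberwise_of_maps_to (s := univ) (t := univ) (g := g) (by simp)]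
  refine sum_congr rfl fun s _ => ?_
  rw [← h s, sum_mul]
  exact sum_congr rfl fun e he => by rw [(mem_filter.1 he).2]

theorem flux (src tgt : E → S) (w σ : E → ℝ) (π : S → ℝ)
    (ho : ∀ s, ∑ e with src e = s, w e = π s) (hi : ∀ s, ∑ e with tgt e = s, w e = π s)
    (F : S → ℝ → ℝ) (hF : ∀ s, Continuous (F s)) (t T : ℝ) :
    ∫ y in t..T, ∑ e, w e * (F (src e) y - F (tgt e) (y + σ e))
      = (∑ e, w e * ∫ y in t..(t + σ e), F (tgt e) y)
        - ∑ e, w e * ∫ y in T..(T + σ e), F (tgt e) y := by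
  have h1 : ∀ y, ∑ e, w e * (F (src e) y - F (tgt e) (y + σ e))
      = ∑ e, w e * (F (tgt e) y - F (tgt e) (y + σ e)) := by
    intro y
    simp only [mul_sub, sum_sub_distrib]
    rw [fib src w π ho (fun s => F s y), fib tgt w π hi (fun s => F s y)]
  simp only [h1]
  have hc : ∀ e, Continuous fun y => F (tgt e) (y + σ e) := fun e =>
    (hF _).comp (continuous_id.add continuous_const)
  have hc2 : ∀ e, Continuous fun y => w e * (F (tgt e) y - F (tgt e) (y + σ e)) := fun e =>
    continuous_const.mul ((hF _).sub (hc e))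
  rw [intervalIntegral.integral_finsetSum (fun e _ => (hc2 e).intervalIntegrable _ _),
    ← sum_sub_distrib]
  refine sum_congr rfl fun e _ => ?_
  rw [intervalIntegral.integral_const_mul, intervalIntegral.integral_sub
    ((hF _).intervalIntegrable _ _) ((hc e).intervalIntegrable _ _),
    intervalIntegral.integral_comp_add_right (F (tgt e)), ← mul_sub]
  congr 1
  have a1 := intervalIntegral.integral_add_adjacent_intervals (μ := volume)
    ((hF (tgt e)).intervalIntegrable t (t + σ e)) ((hF (tgt e)).intervalIntegrable _ (T + σ e))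
  have a2 := intervalIntegral.integral_add_adjacent_intervals (μ := volume)
    ((hF (tgt e)).intervalIntegrable t T) ((hF (tgt e)).intervalIntegrable _ (T + σ e))
  linarith

theorem conv (G : ℝ → ℝ) (hG : Continuous G) (C t0 : ℝ) (ht : 0 < t0)
    (h : ∀ y, t0 ≤ y → |G y| ≤ C / y ^ 2) :
    ∃ a, Tendsto (fun T => ∫ y in t0..T, G y) atTop (𝓝 a) := by
  have h1 : IntegrableOn (fun y : ℝ => C * y ^ (-2 : ℝ)) (Set.Ioi t0) :=
    (integrableOn_Ioi_rpow_of_lt (by norm_num) ht).const_mul C
  have h2 : IntegrableOn G (Set.Ioi t0) := by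
    refine Integrable.mono' h1 hG.aestronglyMeasurable ?_
    refine (ae_restrict_iff' measurableSet_Ioi).2 (Eventually.of_forall fun y hy => ?_)
    have hy' : t0 < y := hy
    rw [Real.norm_eq_abs, Real.rpow_neg (by linarith), ← div_eq_mul_inv]
    have := h y hy'.le
    rwa [show (2 : ℝ) = ((2 : ℕ) : ℝ) by norm_num, Real.rpow_natCast]
  exact ⟨_, intervalIntegral_tendsto_integral_Ioi t0 h2 tendsto_id⟩

theorem barb (V D : ℝ → ℝ) (hV : Continuous V) {w L t0 B : ℝ} (hw : 0 < w) (hL0 : 0 ≤ L)
    (h : ∀ y, w * D y ^ 2 ≤ V y) (hL : ∀ y y', |D y - D y'| ≤ L * |y - y'|)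
    (hB : ∀ᶠ T in atTop, ∫ y in t0..T, V y ≤ B) : Tendsto D atTop (𝓝 0) := by
  have hV0 : ∀ y, 0 ≤ V y := fun y => le_trans (by positivity) (h y)
  set P : ℝ → ℝ := fun T => ∫ y in t0..T, V y with hP
  have hd : ∀ a b, P b - P a = ∫ y in a..b, V y := fun a b =>
    intervalIntegral.integral_interval_sub_left (hV.intervalIntegrable _ _)
      (hV.intervalIntegrable _ _)
  have hm : Monotone P := fun a b hab => by
    have := hd a b
    have h2 := intervalIntegral.integral_nonneg (μ := volume) hab fun y _ => hV0 y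
    linarith
  have hb : BddAbove (Set.range P) := by
    obtain ⟨T0, hT0⟩ := eventually_atTop.1 hB
    refine ⟨B, ?_⟩
    rintro _ ⟨T, rfl⟩
    exact (hm (le_max_left T T0)).trans (hT0 _ (le_max_right _ _))
  have hc := tendsto_atTop_ciSup hm hb
  rw [Metric.tendsto_nhds]
  intro ε hε
  set η := ε / (2 * (L + 1)) with hη
  have hη0 : 0 < η := by positivity
  have h3 : Tendsto (fun T => P (T + η) - P T) atTop (𝓝 0) := by
    have := (hc.comp (tendsto_atTop_add_const_right _ η tendsto_id)).sub hc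
    simpa using this
  have h4 := h3.eventually (gt_mem_nhds (show (0 : ℝ) < η * (w * (ε / 2) ^ 2) by positivity))
  filter_upwards [h4] with T hT
  rw [Real.dist_eq, sub_zero]
  by_contra hn
  push Not at hn
  rw [hd] at hT
  have h5 : ∫ _ in T..(T + η), w * (ε / 2) ^ 2 ≤ ∫ y in T..(T + η), V y := by
    refine intervalIntegral.integral_mono_on (by linarith) (by simp) (hV.intervalIntegrable _ _)
      fun y hy => le_trans (mul_le_mul_of_nonneg_left ?_ hw.le) (h y)
    have a1 := hL T y
    have a2 : |T - y| ≤ η := abs_le.2 ⟨by linarith [hy.2], by linarith [hy.1]⟩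
    have a3 : L * |T - y| ≤ ε / 2 := by
      calc L * |T - y| ≤ (L + 1) * η := by gcongr; linarith
        _ = ε / 2 := by rw [hη]; field_simp
    have a4 := abs_sub_abs_le_abs_sub (D T) (D y)
    rw [← sq_abs (D y)]
    gcongr
    linarith
  simp only [intervalIntegral.integral_const, add_sub_cancel_left, smul_eq_mul] at h5
  linarith

/-- asymptotic equality of translates -/
def R (f : S → ℝ → ℝ) (s s' : S) (τ : ℝ) : Prop :=
  Tendsto (fun t => f s' (t + τ) - f s t) atTop (𝓝 0)

omit [Fintype S] [DecidableEq S] in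
theorem R.refl (f : S → ℝ → ℝ) (s : S) : R f s s 0 := by
  simp [R]

omit [Fintype S] [DecidableEq S] in
theorem R.trans {f : S → ℝ → ℝ} {s s' s'' : S} {τ τ' : ℝ} (h : R f s s' τ) (h' : R f s' s'' τ') :
    R f s s'' (τ + τ') := by
  have := (h'.comp (tendsto_atTop_add_const_right _ τ tendsto_id)).add h
  simpa [R, add_assoc] using this

omit [Fintype S] [DecidableEq S] in
theorem R.symm {f : S → ℝ → ℝ} {s s' : S} {τ : ℝ} (h : R f s s' τ) : R f s' s (-τ) := by
  have := (h.comp (tendsto_atTop_add_const_right _ (-τ) tendsto_id)).neg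
  simpa [R] using this

omit [Fintype S] [DecidableEq S] in
theorem all_rel {f : S → ℝ → ℝ} {L : ℝ} (hL0 : 0 ≤ L) (s : S)
    (hL : ∀ y y', |f s y - f s y'| ≤ L * |y - y'|) {a b : ℝ} (ha : R f s s a) (hb : R f s s b)
    (hirr : ∀ (γ : ℝ) (i j : ℤ), i • γ = a → j • γ = b → False) (τ : ℝ) : R f s s τ := by
  let G : AddSubgroup ℝ :=
    { carrier := {τ | R f s s τ}
      zero_mem' := R.refl f s
      add_mem' := fun h h' => R.trans h h'
      neg_mem' := fun h => R.symm h }
  rcases G.dense_or_cyclic with hd | ⟨γ, hγ⟩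
  · rw [R, Metric.tendsto_nhds]
    intro ε hε
    obtain ⟨τ', h1, h2⟩ := hd.exists_dist_lt τ (show 0 < ε / (2 * (L + 1)) by positivity)
    have h3 : R f s s τ' := h1
    filter_upwards [Metric.tendsto_nhds.1 h3 (ε / 2) (by positivity)] with t ht
    rw [Real.dist_eq, sub_zero] at ht ⊢
    have a1 := hL (t + τ) (t + τ')
    rw [add_sub_add_left_eq_sub] at a1
    rw [Real.dist_eq] at h2
    have a3 : L * |τ - τ'| ≤ ε / 2 := by
      calc L * |τ - τ'| ≤ (L + 1) * (ε / (2 * (L + 1))) := by gcongr; linarith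
        _ = ε / 2 := by field_simp
    have a4 := abs_add_le (f s (t + τ) - f s (t + τ')) (f s (t + τ') - f s t)
    rw [sub_add_sub_cancel] at a4
    linarith
  · have h1 : a ∈ G := ha
    have h2 : b ∈ G := hb
    rw [hγ, AddSubgroup.mem_closure_singleton] at h1 h2
    obtain ⟨i, hi⟩ := h1
    obtain ⟨j, hj⟩ := h2
    exact (hirr γ i j hi hj).elim

theorem cont_of_lip {g : ℝ → ℝ} {L : ℝ} (hL0 : 0 ≤ L) (h : ∀ y y', |g y - g y'| ≤ L * |y - y'|) :
    Continuous g :=
  (LipschitzWith.of_dist_le_mul (K := ⟨L, hL0⟩) fun y y' => by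
    rw [Real.dist_eq, Real.dist_eq]; exact h y y').continuous

section

variable (src tgt : E → S) (w σ : E → ℝ) (π : S → ℝ) (hw : ∀ e, 0 < w e)
  (ho : ∀ s, ∑ e with src e = s, w e = π s) (hi : ∀ s, ∑ e with tgt e = s, w e = π s)
  (f : S → ℝ → ℝ) {M L C t0 : ℝ} (hL0 : 0 ≤ L) (hM : ∀ s y, |f s y| ≤ M)
  (hL : ∀ s y y', |f s y - f s y'| ≤ L * |y - y'|) (ht : 0 < t0)
  (hH : ∀ s y, t0 ≤ y →
    |π s * f s y - ∑ e with src e = s, w e * f (tgt e) (y + σ e)| ≤ C / y ^ 2)

include ho in
theorem err_sum (a : S → ℝ) (y : ℝ) :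
    ∑ e, w e * (a (src e) * (f (src e) y - f (tgt e) (y + σ e)))
      = ∑ s, a s * (π s * f s y - ∑ e with src e = s, w e * f (tgt e) (y + σ e)) := by
  rw [← sum_fiberwise_of_maps_to (s := univ) (t := univ) (g := src) (by simp)]
  refine sum_congr rfl fun s _ => ?_
  rw [← ho s, sum_mul, ← sum_sub_distrib, mul_sum]
  exact sum_congr rfl fun e he => by rw [(mem_filter.1 he).2]; ring

include ho hH in
theorem err_le (a : S → ℝ) {K : ℝ} (ha : ∀ s, |a s| ≤ K) (y : ℝ) (hy : t0 ≤ y) :
    |∑ e, w e * (a (src e) * (f (src e) y - f (tgt e) (y + σ e)))|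
      ≤ Fintype.card S * K * C / y ^ 2 := by
  rw [err_sum src tgt w σ π ho f a y]
  refine (abs_sum_le_sum_abs _ _).trans ?_
  calc _ ≤ ∑ _s : S, K * (C / y ^ 2) := sum_le_sum fun s _ => by
        rw [abs_mul]
        exact mul_le_mul (ha s) (hH s y hy) (abs_nonneg _) ((abs_nonneg _).trans (ha s))
    _ = _ := by simp; ring

include hw ho hi hL0 hM hL ht hH in
theorem edge_rel (e : E) : R f (src e) (tgt e) (σ e) := by
  have hc : ∀ s, Continuous (f s) := fun s => cont_of_lip hL0 (hL s)
  have hc' : ∀ e, Continuous fun y => f (tgt e) (y + σ e) := fun e =>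
    (hc _).comp (continuous_id.add continuous_const)
  let G : ℝ → ℝ := fun y => ∑ e, w e * (f (src e) y * (f (src e) y - f (tgt e) (y + σ e)))
  let H : ℝ → ℝ := fun y => ∑ e, w e * (f (src e) y ^ 2 - f (tgt e) (y + σ e) ^ 2)
  let V : ℝ → ℝ := fun y => ∑ e, w e * (f (tgt e) (y + σ e) - f (src e) y) ^ 2
  have hG : Continuous G := continuous_finsetSum _ fun e _ =>
    continuous_const.mul ((hc _).mul ((hc _).sub (hc' e)))
  have hHc : Continuous H := continuous_finsetSum _ fun e _ =>
    continuous_const.mul (((hc _).pow 2).sub ((hc' e).pow 2))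
  have hV : Continuous V := continuous_finsetSum _ fun e _ =>
    continuous_const.mul (((hc' e).sub (hc _)).pow 2)
  have hVG : ∀ y, V y = 2 * G y - H y := fun y => by
    simp only [V, G, H, mul_sum, ← sum_sub_distrib]
    exact sum_congr rfl fun e _ => by ring
  obtain ⟨a, ha⟩ := conv G hG _ t0 ht fun y hy =>
    err_le src tgt w σ π ho f hH (fun s => f s y) (fun s => hM s y) y hy
  have hI : ∀ T, |∑ e, w e * ∫ y in T..(T + σ e), f (tgt e) y ^ 2|
      ≤ ∑ e, w e * (M ^ 2 * |σ e|) := fun T => by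
    refine (abs_sum_le_sum_abs _ _).trans (sum_le_sum fun e _ => ?_)
    rw [abs_mul, abs_of_pos (hw e)]
    refine mul_le_mul_of_nonneg_left ?_ (hw e).le
    have := intervalIntegral.norm_integral_le_of_norm_le_const (a := T) (b := T + σ e)
      (f := fun y => f (tgt e) y ^ 2) (C := M ^ 2) fun y _ => by
        rw [Real.norm_eq_abs, abs_pow]
        exact pow_le_pow_left₀ (abs_nonneg _) (hM _ _) 2
    simpa using this
  refine barb V _ hV (hw e) (show 0 ≤ 2 * L by positivity) (t0 := t0)
    (B := 2 * (a + 1) + 2 * ∑ e, w e * (M ^ 2 * |σ e|)) (fun y => ?_) (fun y y' => ?_) ?_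
  · exact single_le_sum (f := fun e => w e * (f (tgt e) (y + σ e) - f (src e) y) ^ 2)
      (fun e _ => mul_nonneg (hw e).le (sq_nonneg _)) (mem_univ e)
  · have a1 := hL (tgt e) (y + σ e) (y' + σ e)
    have a2 := hL (src e) y y'
    rw [add_sub_add_right_eq_sub] at a1
    have a3 := abs_sub (f (tgt e) (y + σ e) - f (tgt e) (y' + σ e)) (f (src e) y - f (src e) y')
    rw [show ∀ p q r s : ℝ, p - q - (r - s) = p - r - (q - s) from fun p q r s => by ring] at a3
    linarith
  · filter_upwards [ha.eventually (gt_mem_nhds (lt_add_one a))] with T hT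
    simp only [hVG]
    have hG2 : Continuous fun y => 2 * G y := continuous_const.mul hG
    rw [intervalIntegral.integral_sub (hG2.intervalIntegrable _ _)
      (hHc.intervalIntegrable _ _), intervalIntegral.integral_const_mul]
    have a1 := flux src tgt w σ π ho hi (fun s y => f s y ^ 2) (fun s => (hc s).pow 2) t0 T
    have a2 := abs_le.1 (hI t0)
    have a3 := abs_le.1 (hI T)
    simp only [H]
    rw [a1]
    linarith [a2.1, a3.2]

include ho hi hL0 hM hL ht hH in
theorem limit (hβ : ∑ e, w e * σ e ≠ 0) (hall : ∀ s s' τ, R f s s' τ) :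
    ∃ δ, ∀ s, Tendsto (f s) atTop (𝓝 δ) := by
  have hc : ∀ s, Continuous (f s) := fun s => cont_of_lip hL0 (hL s)
  have hc' : ∀ s (t : ℝ), Continuous fun y => f s (t + y) := fun s t =>
    (hc _).comp (continuous_const.add continuous_id)
  let G : ℝ → ℝ := fun y => ∑ e, w e * (f (src e) y - f (tgt e) (y + σ e))
  have hG : Continuous G := continuous_finsetSum _ fun e _ =>
    continuous_const.mul ((hc _).sub ((hc _).comp (continuous_id.add continuous_const)))
  obtain ⟨a, ha⟩ := conv G hG (Fintype.card S * 1 * C) t0 ht fun y hy => by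
    simpa [G] using err_le src tgt w σ π ho f hH (fun _ => 1) (K := 1) (by simp) y hy
  let I : ℝ → ℝ := fun T => ∑ e, w e * ∫ y in T..(T + σ e), f (tgt e) y
  have hI : Tendsto I atTop (𝓝 (I t0 - a)) := by
    refine (tendsto_const_nhds.sub ha).congr fun T => ?_
    have := flux src tgt w σ π ho hi f hc t0 T
    simp only [G, I]
    rw [this]; ring
  refine ⟨(I t0 - a) / ∑ e, w e * σ e, fun s => ?_⟩
  have h1 : ∀ e, Tendsto (fun T => ∫ y in (0 : ℝ)..σ e, (f (tgt e) (T + y) - f s T)) atTop
      (𝓝 0) := fun e => by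
    have := intervalIntegral.tendsto_integral_filter_of_dominated_convergence (μ := volume)
      (a := 0) (b := σ e) (l := atTop) (F := fun T y => f (tgt e) (T + y) - f s T)
      (f := fun _ => 0) (fun _ => 2 * M)
      (Eventually.of_forall fun T => ((hc' _ T).sub continuous_const).aestronglyMeasurable)
      (Eventually.of_forall fun T => Eventually.of_forall fun y _ => by
        have := abs_sub (f (tgt e) (T + y)) (f s T)
        rw [Real.norm_eq_abs]
        linarith [hM (tgt e) (T + y), hM s T])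
      (by simp) (Eventually.of_forall fun y _ => hall s (tgt e) y)
    simpa using this
  have h2 : Tendsto (fun T => ∑ e, w e * ∫ y in (0 : ℝ)..σ e, (f (tgt e) (T + y) - f s T)) atTop
      (𝓝 (∑ e, w e * 0)) := tendsto_finsetSum _ fun e _ => (h1 e).const_mul _
  simp only [mul_zero, sum_const_zero] at h2
  have h3 := (hI.sub h2).div_const (∑ e, w e * σ e)
  rw [sub_zero] at h3
  refine h3.congr fun T => ?_
  rw [div_eq_iff hβ]
  simp only [I, ← sum_sub_distrib, mul_sum]
  refine sum_congr rfl fun e _ => ?_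
  rw [intervalIntegral.integral_sub ((hc' _ T).intervalIntegrable _ _) (by simp),
    intervalIntegral.integral_comp_add_left (f (tgt e))]
  simp
  ring

end

end Pool.Agent.Lib.MP_39d40e_nt.Bd
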