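import Pool.Agent.Lib.MP_39d40e_nt.PdE
import Pool.Agent.Lib.MP_39d40e_nt.BdA

/-! Density of invariant sets: definitions and the statements of the parts. -/

namespace Pool.Agent.Lib.MP_39d40e_nt

open Finset Filter Topology

namespace Bd

/-- admissible kernels -/
structure Ker (h : ℝ → ℝ) (a L : ℝ) : Prop where
  a_pos : 0 < a
  L_nonneg : 0 ≤ L
  nonneg : ∀ x, 0 ≤ h x
  le_one : ∀ x, h x ≤ 1
  low : ∀ x, x ≤ a → h x = 0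
  high : ∀ x, 2 ≤ x → h x = 0
  lip : ∀ x y, |h x - h y| ≤ L * |x - y|

/-- smoothed counting function at scale `Y` -/
noncomputable def F (h : ℝ → ℝ) (φ : ℤ → ℝ) (Y : ℝ) : ℝ :=
  (∑ u ∈ Icc (-⌈2 * Y⌉) ⌈2 * Y⌉, φ u * h (|(u : ℝ)| / Y)) / Y

/-- T1: bounded and Lipschitz on the logarithmic scale -/
def LipSt : Prop := ∀ (h : ℝ → ℝ) (a L : ℝ), Ker h a L → ∃ M L' : ℝ, 0 ≤ L' ∧
  ∀ φ : ℤ → ℝ, (∀ u, |φ u| ≤ 1) → (∀ t, |F h φ (Real.exp (max t 0))| ≤ M) ∧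
    ∀ t t', |F h φ (Real.exp (max t 0)) - F h φ (Real.exp (max t' 0))| ≤ L' * |t - t'|

/-- T2: from smoothed counts to natural density -/
def TauSt : Prop := ∀ (S : Type) (χ : S → ℤ → ℝ), (∀ s u, 0 ≤ χ s u) → (∀ s u, χ s u ≤ 1) →
  (∀ (h : ℝ → ℝ) (a L : ℝ), Ker h a L →
    ∃ δ : ℝ, ∀ s, Tendsto (fun t => F h (χ s) (Real.exp t)) atTop (𝓝 δ)) →
  ∃ δ : ℝ, ∀ s, Tendsto (fun N : ℕ => (∑ u ∈ Icc (-(N : ℤ)) N, χ s u) / (2 * N)) atTop (𝓝 δ)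

end Bd

namespace Sys

variable {S E : Type} [Fintype S] [Fintype E] [DecidableEq S] [DecidableEq E] (X : Sys S E)

/-- invariant away from a bounded set -/
def Inv (χ : S × ℤ → ℝ) : Prop := ∃ R : ℝ, ∀ x : S × ℤ, R < |(x.2 : ℝ)| → χ (X.step x) = χ x

/-- independence of residue classes -/
def Eq0 (χ : S × ℤ → ℝ) : Prop := ∀ (h : ℝ → ℝ) (a L : ℝ), Bd.Ker h a L → ∃ C t0 : ℝ,
  ∀ (s : S) (g : ℤ → ℝ), (∀ x, g (x + X.B0) = g x) → ∑ x ∈ range X.B0, g x = 0 →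
    (∀ x, |g x| ≤ 1) → ∀ t, t0 ≤ t →
      |Bd.F h (fun u => χ (s, u) * g u) (Real.exp t)| ≤ C / t ^ 2

/-- the approximate harmonic equation -/
def Harm (χ : S × ℤ → ℝ) : Prop := ∀ (h : ℝ → ℝ) (a L : ℝ), Bd.Ker h a L → ∃ C t0 : ℝ,
  ∀ (s : S) (t : ℝ), t0 ≤ t →
    |X.π s * Bd.F h (fun u => χ (s, u)) (Real.exp t) - ∑ e with X.src e = s,
      X.π (X.src e) / X.D e * Bd.F h (fun u => χ (X.tgt e, u))
        (Real.exp (t + Real.log (|(X.b e : ℝ)| / X.D e)))| ≤ C / t ^ 2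

/-- the conclusion -/
def Dens (χ : S × ℤ → ℝ) : Prop :=
  ∃ δ : ℝ, ∀ s, Tendsto (fun N : ℕ => (∑ u ∈ Icc (-(N : ℤ)) N, χ (s, u)) / (2 * N)) atTop (𝓝 δ)

end Sys

namespace Bd

/-- G: from the harmonic equation to the density -/
def GrpSt : Prop := ∀ (S E : Type) [Fintype S] [Fintype E] [DecidableEq S] [DecidableEq E]
  (X : Sys S E), X.Irred → X.Neg → ∀ (s0 : S) (g : List E), X.Pa s0 g s0 → 1 < X.rr g →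
  ∀ χ : S × ℤ → ℝ, (∀ x, 0 ≤ χ x) → (∀ x, χ x ≤ 1) → X.Harm χ → Sys.Dens χ

/-- the theorem for systems -/
def MainSt : Prop := ∀ (S E : Type) [Fintype S] [Fintype E] [DecidableEq S] [DecidableEq E]
  (X : Sys S E), X.Irred → X.Neg → ∀ (s0 : S) (g : List E), X.Pa s0 g s0 → 1 < X.rr g →
  ∀ χ : S × ℤ → ℝ, (∀ x, 0 ≤ χ x) → (∀ x, χ x ≤ 1) → X.Inv χ → Sys.Dens χ

/-- the theorem for Leigh's chain -/
def LeighSt : Prop := ∀ (L : LData) [NeZero L.d],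
  ∏ i : ZMod L.d, |(L.m i : ℝ) / L.d| ^ (∑ s ∈ L.C with (s.1 : ZMod L.d) = i, L.ρ s) < 1 →
  ∀ (n : ℕ) (σ : ℕ → ℕ × ℕ), σ 0 ∈ L.C → σ n = σ 0 →
  (∀ t < n, 0 < P L.d L.m L.r L.a (σ t) (σ (t + 1))) →
  (L.d : ℤ) ^ n < ∏ t ∈ range n, |L.m (σ t).1| → ∀ A : Set ℤ,
  {x : ℤ | (∃ s ∈ L.C, x ≡ s.1 [ZMOD (L.d * s.2 : ℕ)]) ∧
    ¬ (x ∈ A ↔ T L.d L.m L.r x ∈ A)}.Finite →
  ∃ δ : ℝ, ∀ s ∈ L.C, Tendsto (fun N : ℕ =>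
    (Set.ncard {x : ℤ | |x| ≤ N ∧ x ≡ s.1 [ZMOD (L.d * s.2 : ℕ)] ∧ x ∈ A} : ℝ) /
      (Set.ncard {x : ℤ | |x| ≤ N ∧ x ≡ s.1 [ZMOD (L.d * s.2 : ℕ)]} : ℝ)) atTop (𝓝 δ)

end Bd

end Pool.Agent.Lib.MP_39d40e_nt
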