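import Pool.Agent.Lib.MP_39d40e_nt.Bd0

/-! Density of invariant sets: statements of the arithmetic parts. -/

namespace Pool.Agent.Lib.MP_39d40e_nt.Bd

open Finset Filter Topology

/-- exact push forward by `n` steps -/
def PushSt : Prop := ∀ (S E : Type) [Fintype S] [Fintype E] [DecidableEq S] [DecidableEq E]
  (X : Sys S E) (χ : S × ℤ → ℝ) (n : ℕ) (G : S → ℤ → ℝ) (U V : Finset ℤ),
  (∀ s u, G s u ≠ 0 → u ∈ U ∧ (X.step^[n] (s, u)).2 ∈ V ∧ χ (X.step^[n] (s, u)) = χ (s, u)) →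
  ∑ s, X.π s * ∑ u ∈ U, χ (s, u) * G s u
    = ∑ s, X.π s * ∑ z ∈ V, χ (s, z) * X.Ex n s fun l => X.pull l z (G (X.endp s l)) / X.rr l

/-- H: one step, using the independence of residue classes for a power of the system -/
def HarmSt : Prop := ∀ (S E : Type) [Fintype S] [Fintype E] [DecidableEq S] [DecidableEq E]
  (X : Sys S E) (χ : S × ℤ → ℝ), (∀ x, 0 ≤ χ x) → (∀ x, χ x ≤ 1) → X.Inv χ →
  ∀ L : ℕ, 1 ≤ L → (X.pow L).Eq0 χ → X.Harm χ

/-- EQ -/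
def EqSt : Prop := ∀ (S E : Type) [Fintype S] [Fintype E] [DecidableEq S] [DecidableEq E]
  (X : Sys S E) (χ : S × ℤ → ℝ), (∀ x, 0 ≤ χ x) → (∀ x, χ x ≤ 1) → X.Inv χ → X.Mix → X.Eq0 χ

end Pool.Agent.Lib.MP_39d40e_nt.Bd
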