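import Pool.Agent.Lib.MP_39d40e_nt.Bd0

/-! Natural density of invariant sets: transfer from the system to the classes of the chain. -/

namespace Pool.Agent.Lib.MP_39d40e_nt

open Finset Filter Topology

namespace Bd

theorem bd_fin (N : ℕ) (B : Set ℤ) : {u : ℤ | |u| ≤ N ∧ u ∈ B}.Finite :=
  (Set.finite_Icc (-(N : ℤ)) N).subset fun _ hx => abs_le.1 hx.1

theorem bd_cls (M j : ℕ) (hj : j < M) (B : Set ℤ) (δ : ℝ)
    (h : Tendsto (fun N : ℕ => (Set.ncard {u : ℤ | |u| ≤ N ∧ u ∈ B} : ℝ) / (2 * N)) atTop (𝓝 δ)) :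
    Tendsto (fun N : ℕ => (Set.ncard {u : ℤ | |(j : ℤ) + M * u| ≤ N ∧ u ∈ B} : ℝ) / (2 * N / M))
      atTop (𝓝 δ) := by
  have hM : 0 < M := by omega
  have hM' : (0 : ℝ) < M := by exact_mod_cast hM
  set c : ℕ → ℕ := fun N => Set.ncard {u : ℤ | |u| ≤ N ∧ u ∈ B} with hc
  set w : ℕ → ℕ := fun N => Set.ncard {u : ℤ | |(j : ℤ) + M * u| ≤ N ∧ u ∈ B} with hw
  have key : ∀ N : ℕ, w N ≤ c (N / M) + 1 ∧ c (N / M) ≤ w N + 1 := by
    intro N
    have q1 : (M : ℤ) * (N / M : ℕ) ≤ N := by exact_mod_cast Nat.mul_div_le N M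
    have q2 : (N : ℤ) < M * ((N / M : ℕ) + 1) := by
      exact_mod_cast Nat.lt_mul_div_succ N hM
    have j1 : (j : ℤ) < M := by exact_mod_cast hj
    have j0 : (0 : ℤ) ≤ j := Int.natCast_nonneg _
    have M0 : (0 : ℤ) < M := by exact_mod_cast hM
    generalize N / M = q at q1 q2
    have s1 : {u : ℤ | |(j : ℤ) + M * u| ≤ N ∧ u ∈ B}
        ⊆ insert (-(q : ℤ) - 1) {u : ℤ | |u| ≤ q ∧ u ∈ B} := by
      rintro u ⟨h1, h2⟩
      rw [abs_le] at h1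
      by_cases hu : u = -(q : ℤ) - 1
      · exact Or.inl hu
      · refine Or.inr ⟨abs_le.2 ⟨?_, ?_⟩, h2⟩
        · by_contra hn
          have : u ≤ -(q : ℤ) - 2 := by omega
          nlinarith [mul_le_mul_of_nonneg_left this M0.le]
        · by_contra hn
          have : (q : ℤ) + 1 ≤ u := by omega
          nlinarith [mul_le_mul_of_nonneg_left this M0.le]
    have s2 : {u : ℤ | |u| ≤ q ∧ u ∈ B}
        ⊆ insert (q : ℤ) {u : ℤ | |(j : ℤ) + M * u| ≤ N ∧ u ∈ B} := by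
      rintro u ⟨h1, h2⟩
      rw [abs_le] at h1
      by_cases hu : u = q
      · exact Or.inl hu
      · refine Or.inr ⟨abs_le.2 ⟨?_, ?_⟩, h2⟩
        · nlinarith [mul_le_mul_of_nonneg_left h1.1 M0.le]
        · have : u ≤ (q : ℤ) - 1 := by omega
          nlinarith [mul_le_mul_of_nonneg_left this M0.le]
    have f1 := (bd_fin q B).insert (-(q : ℤ) - 1)
    exact ⟨(Set.ncard_le_ncard s1 f1).trans (Set.ncard_insert_le _ _),
      (Set.ncard_le_ncard s2 ((f1.subset s1).insert _)).trans (Set.ncard_insert_le _ _)⟩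
  have tq : Tendsto (fun N : ℕ => N / M) atTop atTop := Nat.tendsto_div_const_atTop hM.ne'
  have t0 : Tendsto (fun N : ℕ => (M : ℝ) / N) atTop (𝓝 0) :=
    tendsto_const_div_atTop_nhds_zero_nat _
  have t1 : Tendsto (fun N : ℕ => ((N / M : ℕ) : ℝ) * M / N) atTop (𝓝 1) := by
    have lo : Tendsto (fun N : ℕ => 1 - (M : ℝ) / N) atTop (𝓝 1) := by
      simpa using t0.const_sub 1
    refine tendsto_of_tendsto_of_tendsto_of_le_of_le' lo tendsto_const_nhds ?_ ?_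
    · filter_upwards [eventually_gt_atTop 0] with N hN
      have N0 : (0 : ℝ) < N := by exact_mod_cast hN
      have q2 : (N : ℝ) < M * ((N / M : ℕ) + 1) := by exact_mod_cast Nat.lt_mul_div_succ N hM
      rw [le_div_iff₀ N0, sub_mul, div_mul_cancel₀ _ N0.ne']; linarith
    · filter_upwards [eventually_gt_atTop 0] with N hN
      have N0 : (0 : ℝ) < N := by exact_mod_cast hN
      have q1 : (M : ℝ) * (N / M : ℕ) ≤ N := by exact_mod_cast Nat.mul_div_le N M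
      rw [div_le_one N0]; linarith
  have t2 := (h.comp tq).mul t1
  rw [mul_one] at t2
  have t3 : Tendsto (fun N : ℕ => (c (N / M) : ℝ) / (2 * N / M)) atTop (𝓝 δ) := by
    refine t2.congr' ?_
    filter_upwards [tq.eventually (eventually_gt_atTop 0), eventually_gt_atTop 0] with N hq hN
    have N0 : (0 : ℝ) < N := by exact_mod_cast hN
    have q0 : (0 : ℝ) < (N / M : ℕ) := by exact_mod_cast hq
    simp only [Function.comp, hc]
    field_simp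
  have lo : Tendsto (fun N : ℕ => (c (N / M) : ℝ) / (2 * N / M) - (M : ℝ) / N) atTop (𝓝 δ) := by
    simpa using t3.sub t0
  have hi : Tendsto (fun N : ℕ => (c (N / M) : ℝ) / (2 * N / M) + (M : ℝ) / N) atTop (𝓝 δ) := by
    simpa using t3.add t0
  have e : ∀ N : ℕ, 0 < N → 0 < 2 * (N : ℝ) / M ∧ (M : ℝ) / N = 2 / (2 * N / M) := by
    intro N hN
    have N0 : (0 : ℝ) < N := by exact_mod_cast hN
    exact ⟨by positivity, by field_simp⟩
  refine tendsto_of_tendsto_of_tendsto_of_le_of_le' lo hi ?_ ?_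
  · filter_upwards [eventually_gt_atTop 0] with N hN
    have k : (c (N / M) : ℝ) ≤ w N + 1 := by exact_mod_cast (key N).2
    rw [(e N hN).2, ← sub_div]
    exact div_le_div_of_nonneg_right (by linarith) (e N hN).1.le
  · filter_upwards [eventually_gt_atTop 0] with N hN
    have k : (w N : ℝ) ≤ c (N / M) + 1 := by exact_mod_cast (key N).1
    rw [(e N hN).2, ← add_div]
    exact div_le_div_of_nonneg_right (by linarith) (e N hN).1.le

theorem bd_univ :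
    Tendsto (fun N : ℕ => (Set.ncard {u : ℤ | |u| ≤ N ∧ u ∈ (Set.univ : Set ℤ)} : ℝ) / (2 * N))
      atTop (𝓝 1) := by
  have t0 : Tendsto (fun N : ℕ => 1 + (1 / 2 : ℝ) / N) atTop (𝓝 1) := by
    simpa using (tendsto_const_div_atTop_nhds_zero_nat (1 / 2 : ℝ)).const_add 1
  refine t0.congr' ?_
  filter_upwards [eventually_gt_atTop 0] with N hN
  have N0 : (0 : ℝ) < N := by exact_mod_cast hN
  have e : {u : ℤ | |u| ≤ N ∧ u ∈ (Set.univ : Set ℤ)} = ↑(Icc (-(N : ℤ)) N) := by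
    ext u; simp [abs_le]
  have e2 : (Icc (-(N : ℤ)) N).card = 2 * N + 1 := by rw [Int.card_Icc]; omega
  rw [e, Set.ncard_coe_finset, e2]
  push_cast; field_simp

theorem bd_img (M j N : ℕ) (hM : 0 < M) (A : Set ℤ) :
    Set.ncard {x : ℤ | |x| ≤ N ∧ x ≡ j [ZMOD M] ∧ x ∈ A}
      = Set.ncard {u : ℤ | |(j : ℤ) + M * u| ≤ N ∧ u ∈ {u : ℤ | (j : ℤ) + M * u ∈ A}} := by
  have inj : Function.Injective fun u : ℤ => (j : ℤ) + M * u := fun u v h =>
    mul_left_cancel₀ (by exact_mod_cast hM.ne' : (M : ℤ) ≠ 0) (add_left_cancel h)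
  refine Eq.trans (congrArg Set.ncard ?_) (Set.ncard_image_of_injective _ inj)
  refine Set.ext fun x => ⟨fun hx => ?_, fun hx => ?_⟩
  · obtain ⟨h1, h2, h3⟩ := hx
    obtain ⟨u, hu⟩ := h2.symm.dvd
    have : x = j + M * u := by linarith
    subst this
    exact ⟨u, ⟨h1, h3⟩, rfl⟩
  · obtain ⟨u, ⟨h1, h2⟩, rfl⟩ := hx
    exact ⟨h1, (Int.modEq_iff_dvd.2 ⟨u, by ring⟩).symm, h2⟩

theorem bd_ratio (M j : ℕ) (hj : j < M) (A : Set ℤ) (δ : ℝ)
    (h : Tendsto (fun N : ℕ =>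
      (Set.ncard {u : ℤ | |u| ≤ N ∧ u ∈ {u : ℤ | (j : ℤ) + M * u ∈ A}} : ℝ) / (2 * N)) atTop (𝓝 δ)) :
    Tendsto (fun N : ℕ => (Set.ncard {x : ℤ | |x| ≤ N ∧ x ≡ j [ZMOD M] ∧ x ∈ A} : ℝ)
      / (Set.ncard {x : ℤ | |x| ≤ N ∧ x ≡ j [ZMOD M]} : ℝ)) atTop (𝓝 δ) := by
  have hM : 0 < M := by omega
  have hM' : (0 : ℝ) < M := by exact_mod_cast hM
  have t1 := bd_cls M j hj _ δ h
  have t2 := bd_cls M j hj _ 1 bd_univ
  have t3 := t1.div t2 one_ne_zero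
  rw [div_one] at t3
  refine t3.congr' ?_
  filter_upwards [eventually_gt_atTop 0] with N hN
  have N0 : (0 : ℝ) < N := by exact_mod_cast hN
  have e1 := bd_img M j N hM A
  have e2 := bd_img M j N hM Set.univ
  simp only [Set.mem_univ, and_true, Set.ofPred_true] at e2
  simp only [Pi.div_apply, Set.mem_univ, and_true]
  rw [e1, e2, div_div_div_cancel_right₀ (by positivity)]
  rfl

open Classical in
theorem bd_sum (N : ℕ) (B : Set ℤ) :
    ∑ u ∈ Icc (-(N : ℤ)) N, (if u ∈ B then (1 : ℝ) else 0)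
      = (Set.ncard {u : ℤ | |u| ≤ N ∧ u ∈ B} : ℝ) := by
  have e : {u : ℤ | |u| ≤ N ∧ u ∈ B} = ↑((Icc (-(N : ℤ)) N).filter fun u => u ∈ B) := by
    ext u; simp [abs_le]
  rw [e, Set.ncard_coe_finset, card_filter]
  push_cast; rfl

end Bd

namespace LData

variable (L : LData)

theorem rr_edge (e : L.Ed) :
    L.sys.rr [e] * (L.d * (e.1.2.1.2 : ℕ)) = |(L.m e.1.1.1.1 : ℝ)| * (e.1.1.1.2 : ℕ) := by
  have k3 : (0 : ℝ) < L.sys.D e := by exact_mod_cast L.sys.D_pos' e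
  have k4 : ((e.1.1.1.2 : ℕ) : ℝ) * L.a e.1.1.1.1 * L.sys.D e = L.d * (e.1.2.1.2 : ℕ) := by
    exact_mod_cast L.KD e.2
  have e1 : L.sys.rr [e] = |(L.b e.1.1.1.1 : ℝ)| / L.sys.D e := by
    simp only [Sys.rr, Sys.bP_cons, Sys.DP_cons, Sys.bP_nil, Sys.DP_nil, mul_one]; rfl
  rw [e1, ← k4, L.hfac]; push_cast
  rw [abs_mul, Nat.abs_cast]
  field_simp

theorem walk_rr (σ : ℕ → ℕ × ℕ) (h0 : σ 0 ∈ L.C) (n : ℕ)
    (h : ∀ t < n, 0 < P L.d L.m L.r L.a (σ t) (σ (t + 1))) :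
    ∃ (hn : σ n ∈ L.C) (u : List L.Ed), L.sys.Pa ⟨σ n, hn⟩ u ⟨σ 0, h0⟩ ∧
      L.sys.rr u * ((L.d : ℝ) ^ n * (σ n).2) = |((∏ t ∈ range n, L.m (σ t).1 : ℤ) : ℝ)| * (σ 0).2 := by
  induction n with
  | zero => exact ⟨h0, [], Sys.Pa.nil _, by simp [Sys.rr]⟩
  | succ n ih =>
    obtain ⟨hn, u, a1, a2⟩ := ih fun t ht => h t (by omega)
    have b1 := h n (by omega)
    have hn' := L.closed _ hn _ b1
    let e : L.Ed := ⟨(⟨σ n, hn⟩, ⟨σ (n + 1), hn'⟩), (L.P_pos _ _).1 b1⟩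
    refine ⟨hn', [e] ++ u, (Sys.Pa.single (X := L.sys) e).append a1, ?_⟩
    have b2 : L.sys.rr [e] * (L.d * ((σ (n + 1)).2 : ℕ)) = |(L.m (σ n).1 : ℝ)| * ((σ n).2 : ℕ) :=
      L.rr_edge e
    rw [Sys.rr_append, prod_range_succ]
    push_cast at a2 ⊢
    rw [abs_mul]
    linear_combination (L.sys.rr u * (L.d : ℝ) ^ n) * b2 + |(L.m (σ n).1 : ℝ)| * a2

theorem exists_cycle (n : ℕ) (σ : ℕ → ℕ × ℕ) (h0 : σ 0 ∈ L.C) (hσn : σ n = σ 0)
    (h : ∀ t < n, 0 < P L.d L.m L.r L.a (σ t) (σ (t + 1)))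
    (hexp : (L.d : ℤ) ^ n < ∏ t ∈ range n, |L.m (σ t).1|) :
    ∃ s0 g, L.sys.Pa s0 g s0 ∧ 1 < L.sys.rr g := by
  obtain ⟨hn, u, a1, a2⟩ := L.walk_rr σ h0 n h
  have e : (⟨σ n, hn⟩ : L.St) = ⟨σ 0, h0⟩ := Subtype.ext hσn
  rw [e] at a1
  refine ⟨_, u, a1, ?_⟩
  rw [hσn] at a2
  have k0 : (0 : ℝ) < ((σ 0).2 : ℕ) := by exact_mod_cast L.k_pos h0
  have d0 : (0 : ℝ) < (L.d : ℝ) ^ n := pow_pos (by exact_mod_cast L.d_pos) _
  rw [← abs_prod] at hexp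
  have h1 : (L.d : ℝ) ^ n < |((∏ t ∈ range n, L.m (σ t).1 : ℤ) : ℝ)| := by exact_mod_cast hexp
  by_contra hc
  have h2 := mul_le_mul_of_nonneg_right (not_lt.1 hc) (mul_pos d0 k0).le
  nlinarith [mul_lt_mul_of_pos_right h1 k0]

theorem fin_exc (A : Set ℤ)
    (hA : {x : ℤ | (∃ s ∈ L.C, x ≡ s.1 [ZMOD (L.d * s.2 : ℕ)]) ∧
      ¬ (x ∈ A ↔ T L.d L.m L.r x ∈ A)}.Finite) :
    {x : L.St × ℤ | ¬ (L.val x ∈ A ↔ L.val (L.sys.step x) ∈ A)}.Finite := by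
  refine Set.Finite.of_finite_fibers L.val (hA.subset ?_) ?_
  · rintro _ ⟨x, hx, rfl⟩
    refine ⟨⟨x.1.1, x.1.2, (Int.modEq_iff_dvd.2 ⟨x.2, ?_⟩).symm⟩, ?_⟩
    · unfold val; push_cast; ring
    · rw [← L.val_step]; exact hx
  · intro y _
    refine Set.Finite.of_finite_image (f := Prod.fst) (Set.toFinite _) ?_
    rintro ⟨s, u⟩ ⟨-, h1⟩ ⟨s', u'⟩ ⟨-, h2⟩ h3
    simp only at h3
    subst h3
    have h4 : L.val (s, u) = L.val (s, u') := h1.trans h2.symm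
    have h5 : (L.d : ℤ) * s.1.2 ≠ 0 := by
      exact_mod_cast (Nat.mul_pos L.d_pos (L.k_pos s.2)).ne'
    unfold val at h4
    have h6 : u = u' := mul_left_cancel₀ h5 (add_left_cancel h4)
    rw [h6]

end LData

namespace Bd

theorem leigh_st (h : MainSt) : LeighSt := by
  classical
  intro L _ hΛ n σ h0 hσn hσ hexp A hA
  obtain ⟨s0, g, hg, hg1⟩ := L.exists_cycle n σ h0 hσn hσ hexp
  obtain ⟨R, hR⟩ := ((L.fin_exc A hA).image fun x => |(x.2 : ℝ)|).bddAbove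
  obtain ⟨δ, hδ⟩ := h _ _ L.sys L.irred (L.drift hΛ) s0 g hg hg1
    (fun x => if L.val x ∈ A then 1 else 0) (fun x => by split_ifs <;> norm_num)
    (fun x => by split_ifs <;> norm_num) ⟨R, fun x hx => by
      have : L.val x ∈ A ↔ L.val (L.sys.step x) ∈ A := by
        by_contra hn
        exact absurd (hR ⟨x, hn, rfl⟩) (not_le.2 hx)
      simp only [this]⟩
  refine ⟨δ, fun s hs => bd_ratio _ _ (L.hC s hs) A δ ((hδ ⟨s, hs⟩).congr fun N => ?_)⟩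
  rw [← bd_sum]
  congr 1

end Bd

end Pool.Agent.Lib.MP_39d40e_nt
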