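import Pool.Agent.Lib.MP_39d40e_nt.BdP

/-! Density of invariant sets: independence of residue classes. -/

namespace Pool.Agent.Lib.MP_39d40e_nt.Bd

open Finset Filter Topology

noncomputable def blkV (J Q : ℕ) : Finset ℤ :=
  (Ico (-(J : ℤ)) J ×ˢ range Q).image fun p => p.1 * Q + p.2

theorem mem_blkV {J Q : ℕ} (hQ : 0 < Q) {z : ℤ} (hz : |z| < J) : z ∈ blkV J Q := by
  have hQ' : (0 : ℤ) < Q := by exact_mod_cast hQ
  have h1 := Int.emod_nonneg z hQ'.ne'
  have h2 := Int.emod_lt_of_pos z hQ'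
  have h3 := Int.emod_add_mul_ediv z Q
  obtain ⟨h4, h5⟩ := abs_lt.1 hz
  refine mem_image.2 ⟨(z / Q, (z % Q).toNat), mem_product.2 ⟨mem_Ico.2 ⟨?_, ?_⟩,
    mem_range.2 (by simp only; omega)⟩, ?_⟩
  · simp only
    rw [Int.le_ediv_iff_mul_le hQ']; nlinarith
  · simp only
    rw [Int.ediv_lt_iff_lt_mul hQ']; nlinarith
  · simp only [Int.toNat_of_nonneg h1]; linarith

theorem sum_blkV (J Q : ℕ) (f : ℤ → ℝ) :
    ∑ z ∈ blkV J Q, f z = ∑ j ∈ Ico (-(J : ℤ)) J, ∑ x ∈ range Q, f (j * Q + x) := by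
  rw [blkV, sum_image, sum_product]
  rintro ⟨j, x⟩ h ⟨j', x'⟩ h' e
  have a := mem_range.1 (mem_product.1 (mem_coe.1 h)).2
  have a' := mem_range.1 (mem_product.1 (mem_coe.1 h')).2
  simp only at a a' e
  have b : (x : ℤ) < Q := by exact_mod_cast a
  have b' : (x' : ℤ) < Q := by exact_mod_cast a'
  have c : j = j' := by
    rcases lt_trichotomy j j' with c | c | c
    · nlinarith [Int.natCast_nonneg x', Int.natCast_nonneg x]
    · exact c
    · nlinarith [Int.natCast_nonneg x', Int.natCast_nonneg x]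
  subst c
  have : (x : ℤ) = x' := by linarith
  exact Prod.ext rfl (by exact_mod_cast this)

theorem half_pos (j : ℤ) : (0 : ℝ) < |(j : ℝ) + 1 / 2| := by
  refine abs_pos.2 fun h => ?_
  have : (2 * j + 1 : ℤ) = 0 := by
    have : (2 * j + 1 : ℝ) = 0 := by linarith
    exact_mod_cast this
  omega

theorem harm_le (J : ℕ) :
    ∑ j ∈ Ico (-(J : ℤ)) J, 1 / |(j : ℝ) + 1 / 2| ≤ 4 * (1 + Real.log J) := by
  have h : ∑ j ∈ Ico (-(J : ℤ)) J, 1 / |(j : ℝ) + 1 / 2| ≤ 4 * (harmonic J : ℝ) := by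
    induction J with
    | zero => simp
    | succ J ih =>
      have e : Ico (-((J + 1 : ℕ) : ℤ)) ((J + 1 : ℕ) : ℤ)
          = insert (-(J : ℤ) - 1) (insert (J : ℤ) (Ico (-(J : ℤ)) J)) := by
        ext z; simp only [mem_Ico, mem_insert]; push_cast; omega
      rw [e, sum_insert (by simp only [mem_Ico, mem_insert]; omega), sum_insert (by simp),
        harmonic_succ]
      have hJ : (0 : ℝ) ≤ J := Nat.cast_nonneg J
      have a1 : |((-(J : ℤ) - 1 : ℤ) : ℝ) + 1 / 2| = J + 1 / 2 := by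
        push_cast; rw [abs_of_neg (by linarith)]; ring
      have a2 : |(((J : ℤ)) : ℝ) + 1 / 2| = J + 1 / 2 := by
        push_cast; rw [abs_of_pos (by linarith)]
      have a3 : 1 / ((J : ℝ) + 1 / 2) ≤ 2 * ((J : ℝ) + 1)⁻¹ := by
        rw [← div_eq_mul_inv, div_le_div_iff₀ (by linarith) (by linarith)]; linarith
      rw [a1, a2]; push_cast at ih ⊢; linarith
  have := harmonic_le_one_add_log J
  linarith

variable {S E : Type} [Fintype S] [Fintype E] [DecidableEq S] [DecidableEq E] (X : Sys S E)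

theorem cP_le {n j : ℕ} (hj : j ≤ n) {s : S} {l : List E} (hl : l ∈ X.Paths j s) {W : ℝ}
    (h2 : (X.d : ℝ) ^ n ≤ W) (h3 : (n : ℝ) ≤ W) :
    |(X.cP l : ℝ)| ≤ |(X.bP l : ℝ)| * (W * X.cmx * W) ∧ (X.DP l : ℝ) ≤ W := by
  have hd : (1 : ℝ) ≤ X.d := by exact_mod_cast X.d_pos
  have a1 := X.abs_cP_le l
  have a2 := X.DP_le_pow l
  rw [X.length_of_mem_Paths hl] at a1 a2
  have a3 : (X.d : ℝ) ^ j ≤ W := (pow_le_pow_right₀ hd hj).trans h2
  have a4 : (j : ℝ) ≤ W := le_trans (by exact_mod_cast hj) h3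
  have a5 := X.cmx_nonneg
  have a6 : (0 : ℝ) ≤ W := le_trans (Nat.cast_nonneg _) h3
  exact ⟨a1.trans (by gcongr), a2.trans a3⟩

theorem bP_le {n : ℕ} {s : S} {l : List E} (hl : l ∈ X.Paths n s) :
    |(X.bP l : ℝ)| ≤ (X.B0 : ℝ) ^ n := by
  have := Nat.le_of_dvd (pow_pos X.B0_pos _) (X.natAbs_bP_dvd l)
  rw [X.length_of_mem_Paths hl] at this
  have h : (((X.bP l).natAbs : ℕ) : ℝ) ≤ ((X.B0 ^ n : ℕ) : ℝ) := by exact_mod_cast this
  rw [Nat.cast_natAbs] at h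
  push_cast at h
  exact h

theorem inv_iter {χ : S × ℤ → ℝ} {R : ℝ} (hR : ∀ x : S × ℤ, R < |(x.2 : ℝ)| → χ (X.step x) = χ x)
    {n : ℕ} {W : ℝ} (h2 : (X.d : ℝ) ^ n ≤ W) (h3 : (n : ℝ) ≤ W) (x : S × ℤ)
    (hx : W * |R| + W * X.cmx * W < |(x.2 : ℝ)|) :
    ∀ j ≤ n, |R| < |((X.step^[j] x).2 : ℝ)| ∧ χ (X.step^[j] x) = χ x := by
  have far : ∀ j ≤ n, |R| < |((X.step^[j] x).2 : ℝ)| := by
    intro j hj
    obtain ⟨a1, a2⟩ := cP_le X hj (X.orb_mem j x) h2 h3
    have k3 := X.orb_mul j x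
    set l := X.orb j x
    set z := (X.step^[j] x).2
    have hD : (0 : ℝ) < X.DP l := by exact_mod_cast X.DP_pos l
    have hb := X.one_le_abs_bP l
    have k3' : (X.DP l : ℝ) * z = X.bP l * x.2 + X.cP l := by exact_mod_cast k3
    have u2 : |(X.bP l : ℝ)| * |(x.2 : ℝ)| - |(X.cP l : ℝ)| ≤ X.DP l * |(z : ℝ)| := by
      rw [← abs_of_pos hD, ← abs_mul (X.DP l : ℝ), k3']
      have := abs_sub ((X.bP l : ℝ) * x.2 + X.cP l) (X.cP l)
      rw [add_sub_cancel_right, abs_mul] at this; linarith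
    have a6 : (0 : ℝ) ≤ W := le_trans (Nat.cast_nonneg _) h3
    have a7 : 0 ≤ W * |R| := by positivity
    have u3 : W * |R| < X.DP l * |(z : ℝ)| := by nlinarith
    have u4 : X.DP l * |R| ≤ W * |R| := by gcongr
    exact lt_of_mul_lt_mul_left (u4.trans_lt u3) hD.le
  intro j hj
  refine ⟨far j hj, ?_⟩
  induction j with
  | zero => rfl
  | succ j ih =>
    rw [Function.iterate_succ_apply', hR _ ((le_abs_self R).trans_lt (far j (by omega))),
      ih (by omega)]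

theorem iter_near {n : ℕ} {W : ℝ} (h1 : (X.B0 : ℝ) ^ n ≤ W) (h2 : (X.d : ℝ) ^ n ≤ W)
    (h3 : (n : ℝ) ≤ W) (x : S × ℤ) :
    |((X.step^[n] x).2 : ℝ)| ≤ W * (|(x.2 : ℝ)| + W * X.cmx * W) := by
  obtain ⟨a1, -⟩ := cP_le X le_rfl (X.orb_mem n x) h2 h3
  have a2 := (bP_le X (X.orb_mem n x)).trans h1
  have k3 := X.orb_mul n x
  set l := X.orb n x
  set z := (X.step^[n] x).2
  have hD : (1 : ℝ) ≤ X.DP l := by exact_mod_cast X.DP_pos l
  have k3' : (X.DP l : ℝ) * z = X.bP l * x.2 + X.cP l := by exact_mod_cast k3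
  have u1 : X.DP l * |(z : ℝ)| ≤ |(X.bP l : ℝ)| * |(x.2 : ℝ)| + |(X.cP l : ℝ)| := by
    rw [← abs_of_pos (lt_of_lt_of_le one_pos hD), ← abs_mul, k3', ← abs_mul]
    exact abs_add_le _ _
  have a6 : (0 : ℝ) ≤ W := le_trans (Nat.cast_nonneg _) h3
  have a5 := X.cmx_nonneg
  calc |(z : ℝ)| ≤ X.DP l * |(z : ℝ)| := le_mul_of_one_le_left (abs_nonneg _) hD
    _ ≤ |(X.bP l : ℝ)| * (|(x.2 : ℝ)| + W * X.cmx * W) := by linarith
    _ ≤ _ := by gcongr

theorem eq_core {h : ℝ → ℝ} {a L : ℝ} (hk : Ker h a L) {χ : S × ℤ → ℝ} (h0 : ∀ x, 0 ≤ χ x)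
    (h1 : ∀ x, χ x ≤ 1) {R : ℝ} (hR : ∀ x : S × ℤ, R < |(x.2 : ℝ)| → χ (X.step x) = χ x)
    {n : ℕ} {μ : ℝ} (hμ : 0 ≤ μ)
    (hM : ∀ (s : S) (g : S → ℤ → ℕ → ℤ → ℝ),
      (∀ t M D, Function.Periodic (g t M D) (X.B0 : ℤ)) →
      (∀ t M D, ∑ x ∈ range X.B0, g t M D x = 0) → (∀ t M D x, |g t M D x| ≤ 1) →
      ∑ z ∈ range (X.B0 ^ (n + 1)),
        |X.Ex n s fun l => X.pull l z (g (X.endp s l) (X.bP l) (X.DP l))|
          ≤ μ * (X.B0 : ℝ) ^ (n + 1))
    {Y W : ℝ} (hY : 0 < Y) (w1 : (X.B0 : ℝ) ^ n ≤ W) (w2 : (X.d : ℝ) ^ n ≤ W) (w3 : (n : ℝ) ≤ W)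
    (c1 : W * |R| + W * X.cmx * W ≤ a * Y) (c2 : W * X.cmx * W ≤ Y) {J : ℕ} (hJ : 3 * W * Y < J)
    (s : S) (g : ℤ → ℝ) (g1 : ∀ x, g (x + X.B0) = g x) (g2 : ∑ x ∈ range X.B0, g x = 0)
    (g3 : ∀ x, |g x| ≤ 1) :
    X.π s * |F h (fun u => χ (s, u) * g u) Y| ≤ 8 * μ * (1 + Real.log J)
      + 2 * J * (X.B0 * W) * (W * (L * ((W * (X.B0 * W) + W * X.cmx * W) / Y)) / Y) := by
  classical
  set Q := X.B0 ^ (n + 1) with hQ
  have Q0 : 0 < Q := pow_pos X.B0_pos _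
  have Q1 : (0 : ℝ) < Q := by exact_mod_cast Q0
  have B1 : (0 : ℝ) < X.B0 := by exact_mod_cast X.B0_pos
  have W0 : (0 : ℝ) ≤ W := le_trans (Nat.cast_nonneg _) w3
  have Q2 : (Q : ℝ) ≤ X.B0 * W := by
    rw [hQ]; push_cast; rw [pow_succ']; gcongr
  have cm0 := X.cmx_nonneg
  have L0 := hk.L_nonneg
  let G : S → ℤ → ℝ := fun t u => if t = s then g u * h (|(u : ℝ)| / Y) / Y else 0
  have hp := push_st S E X χ n G (Icc (-⌈2 * Y⌉) ⌈2 * Y⌉) (blkV J Q) (by
    intro t u hu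
    have a1 : h (|(u : ℝ)| / Y) ≠ 0 := fun e => hu (by simp [G, e])
    have a2 : a * Y < |(u : ℝ)| := by
      rw [← lt_div_iff₀ hY]; exact not_le.1 fun e => a1 (hk.low _ e)
    have a3 : |(u : ℝ)| < 2 * Y := by
      rw [← div_lt_iff₀ hY]; exact not_le.1 fun e => a1 (hk.high _ e)
    refine ⟨mem_Icc.2 (abs_le.1 ?_), mem_blkV Q0 ?_,
      (inv_iter X hR w2 w3 (t, u) (c1.trans_lt a2) n le_rfl).2⟩
    · have : |(u : ℝ)| ≤ (⌈2 * Y⌉ : ℤ) := a3.le.trans (Int.le_ceil _)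
      exact_mod_cast this
    · have b1 := iter_near X w1 w2 w3 (t, u)
      have : |((X.step^[n] (t, u)).2 : ℝ)| < J :=
        lt_of_le_of_lt (b1.trans (by simp only; nlinarith)) hJ
      exact_mod_cast this)
  have e1 : ∑ t, X.π t * ∑ u ∈ Icc (-⌈2 * Y⌉) ⌈2 * Y⌉, χ (t, u) * G t u
      = X.π s * F h (fun u => χ (s, u) * g u) Y := by
    rw [sum_eq_single s (fun t _ ht => by simp [G, ht]) (by simp), F, sum_div]
    congr 1
    exact sum_congr rfl fun u _ => by simp only [G, if_true]; ring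
  rw [← abs_of_pos (X.π_pos s), ← abs_mul, ← e1, hp]
  set ε := W * (L * ((W * (X.B0 * W) + W * X.cmx * W) / Y)) / Y with hε
  let γ : ℤ → S → ℤ → ℕ → ℤ → ℝ := fun j t M D u => if t = s then
    g u * ((|(j : ℝ) + 1 / 2| * Q / (|(M : ℝ)| / D * Y)) / 2
      * h (|(j : ℝ) + 1 / 2| * Q / (|(M : ℝ)| / D * Y))) else 0
  have key : ∀ (t : S) (j : ℤ) (x : ℕ), x < Q →
      |X.Ex n t fun l => X.pull l (j * Q + x) (G (X.endp t l)) / X.rr l|
        ≤ 2 / (|(j : ℝ) + 1 / 2| * Q)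
          * |X.Ex n t fun l => X.pull l x (γ j (X.endp t l) (X.bP l) (X.DP l))| + ε := by
    intro t j x hx
    have ζ0 : 0 < |(j : ℝ) + 1 / 2| * Q := mul_pos (half_pos j) Q1
    have per : ∀ l ∈ X.Paths n t, X.pull l x (γ j (X.endp t l) (X.bP l) (X.DP l))
        = X.pull l (j * Q + x) (γ j (X.endp t l) (X.bP l) (X.DP l)) := by
      intro l hl
      rw [add_comm]
      refine (per_int_mul (fun z => X.pull l z (γ j (X.endp t l) (X.bP l) (X.DP l))) Q
        (fun z => ?_) j x).symm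
      have := X.pull_per l 1 (g := γ j (X.endp t l) (X.bP l) (X.DP l))
        (fun y => by simp only [γ, pow_one, g1]) z
      rwa [X.length_of_mem_Paths hl] at this
    rw [X.Ex_congr per, ← abs_of_pos (div_pos two_pos ζ0), ← abs_mul, ← X.Ex_const_mul]
    refine le_trans ?_ (add_le_add_right (b := |X.Ex n t fun l =>
      X.pull l (j * Q + x) (G (X.endp t l)) / X.rr l - 2 / (|(j : ℝ) + 1 / 2| * Q)
        * X.pull l (j * Q + x) (γ j (X.endp t l) (X.bP l) (X.DP l))|) ?_ _)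
    · rw [X.Ex_sub]
      exact (abs_sub_abs_le_abs_sub _ _ |> sub_le_iff_le_add'.1)
    refine (X.abs_Ex_le _ _ _).trans (X.Ex_le_const fun l hl => ?_)
    have ε0 : 0 ≤ ε := by positivity
    obtain ⟨a1, a2⟩ := cP_le X le_rfl hl w2 w3
    have hD : (0 : ℝ) < X.DP l := by exact_mod_cast X.DP_pos l
    have hb := X.one_le_abs_bP l
    unfold Sys.pull
    split_ifs with hd
    swap
    · simpa using ε0
    obtain ⟨y, hy⟩ := hd
    rw [hy, Int.mul_ediv_cancel_left _ (X.bP_ne l)]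
    simp only [G, γ]
    split_ifs with ht
    swap
    · simpa using ε0
    set ζ := |(j : ℝ) + 1 / 2| * Q with hζ
    set B := |(X.bP l : ℝ)| with hB
    have B0 : 0 < B := by linarith
    have e2 : B * (g y * h (|(y : ℝ)| / Y) / Y) / X.rr l
        - 2 / ζ * (B * (g y * (ζ / (B / X.DP l * Y) / 2 * h (ζ / (B / X.DP l * Y)))))
        = X.DP l * (g y * (h (|(y : ℝ)| / Y) - h (ζ / (B / X.DP l * Y)))) / Y := by
      unfold Sys.rr; rw [← hB]; field_simp
    have hy' : (X.DP l : ℝ) * (j * Q + x) - X.cP l = X.bP l * y := by exact_mod_cast hy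
    have x1 : (x : ℝ) ≤ Q := by exact_mod_cast hx.le
    have x0 : (0 : ℝ) ≤ x := Nat.cast_nonneg x
    have e3 : abs (B * |(y : ℝ)| - X.DP l * ζ) ≤ W * (X.B0 * W) + B * (W * X.cmx * W) := by
      have b1 : B * |(y : ℝ)| = |(X.DP l : ℝ) * (j * Q + x) - X.cP l| := by rw [hy', abs_mul]
      have b2 : X.DP l * ζ = |(X.DP l : ℝ) * (((j : ℝ) + 1 / 2) * Q)| := by
        rw [abs_mul, abs_mul, abs_of_pos hD, abs_of_pos Q1]
      rw [b1, b2]
      refine (abs_abs_sub_abs_le_abs_sub _ _).trans ?_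
      have b3 : (X.DP l : ℝ) * (j * Q + x) - X.cP l - X.DP l * (((j : ℝ) + 1 / 2) * Q)
          = X.DP l * (x - Q / 2) - X.cP l := by ring
      rw [b3]
      refine (abs_sub _ _).trans (add_le_add ?_ a1)
      rw [abs_mul, abs_of_pos hD]
      have b4 : |(x : ℝ) - Q / 2| ≤ X.B0 * W := abs_le.2 ⟨by linarith, by linarith⟩
      gcongr
    have e4 : abs (|(y : ℝ)| / Y - ζ / (B / X.DP l * Y))
        ≤ (W * (X.B0 * W) + W * X.cmx * W) / Y := by
      have b1 : |(y : ℝ)| / Y - ζ / (B / X.DP l * Y) = (B * |(y : ℝ)| - X.DP l * ζ) / B / Y := by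
        field_simp
      rw [b1, abs_div, abs_div, abs_of_pos hY, abs_of_pos B0]
      refine div_le_div_of_nonneg_right ?_ hY.le
      rw [div_le_iff₀ B0]
      have : 0 ≤ W * (X.B0 * W) := by positivity
      nlinarith
    have e5 := (hk.lip (|(y : ℝ)| / Y) (ζ / (B / X.DP l * Y))).trans
      (mul_le_mul_of_nonneg_left e4 L0)
    rw [e2, abs_div, abs_mul, abs_mul, abs_of_pos hY, abs_of_pos hD, hε]
    refine div_le_div_of_nonneg_right (mul_le_mul a2 ?_ (by positivity) W0) hY.le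
    exact (mul_le_of_le_one_left (abs_nonneg _) (g3 y)).trans e5
  have blk : ∀ (t : S) (j : ℤ), ∑ x ∈ range Q,
      |X.Ex n t fun l => X.pull l (j * Q + x) (G (X.endp t l)) / X.rr l|
        ≤ 2 * μ * (1 / |(j : ℝ) + 1 / 2|) + X.B0 * W * ε := by
    intro t j
    have ε0 : 0 ≤ ε := by positivity
    have hj := half_pos j
    have m1 := hM t (γ j) (fun t' M D y => by simp only [γ, g1])
      (fun t' M D => by
        simp only [γ]; split_ifs
        · rw [← sum_mul, g2, zero_mul]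
        · simp)
      (fun t' M D y => by
        simp only [γ]; split_ifs
        · set v := |(j : ℝ) + 1 / 2| * Q / (|(M : ℝ)| / D * Y)
          have v0 : 0 ≤ v := by positivity
          have v1 := hk.nonneg v
          have v2 : v / 2 * h v ≤ 1 := by
            rcases le_total 2 v with c | c
            · rw [hk.high v c]; simp
            · nlinarith [hk.le_one v]
          rw [abs_mul, abs_of_nonneg (a := v / 2 * h v) (by positivity)]
          exact mul_le_one₀ (g3 y) (by positivity) v2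
        · simp)
    refine (sum_le_sum fun x hx => key t j x (mem_range.1 hx)).trans ?_
    rw [sum_add_distrib, ← mul_sum, sum_const, card_range, nsmul_eq_mul]
    refine add_le_add ?_ (by gcongr)
    refine (mul_le_mul_of_nonneg_left m1 (by positivity)).trans (le_of_eq ?_)
    have : (X.B0 : ℝ) ^ (n + 1) = Q := by rw [hQ]; push_cast; rfl
    rw [this]; field_simp
  refine (abs_sum_le_sum_abs _ _).trans ?_
  simp only [abs_mul, abs_of_pos (X.π_pos _)]
  refine X.sum_π_le fun t => (abs_sum_le_sum_abs _ _).trans ?_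
  refine (sum_le_sum (g := fun z : ℤ =>
    |X.Ex n t fun l => X.pull l z (G (X.endp t l)) / X.rr l|) fun z _ => ?_).trans ?_
  · rw [abs_mul, abs_of_nonneg (h0 _)]
    exact mul_le_of_le_one_left (abs_nonneg _) (h1 _)
  rw [sum_blkV]
  refine (sum_le_sum fun j _ => blk t j).trans ?_
  rw [sum_add_distrib, ← mul_sum, sum_const, Int.card_Ico, nsmul_eq_mul]
  refine add_le_add ?_ (le_of_eq ?_)
  · have := mul_le_mul_of_nonneg_left (harm_le J) (show 0 ≤ 2 * μ by positivity)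
    linarith
  · have : ((J : ℤ) - -(J : ℤ)).toNat = 2 * J := by omega
    rw [this]; push_cast; ring

theorem eq_st : EqSt := by
  intro S E _ _ _ _ X χ h0 h1 ⟨R, hR⟩ hM h a L hk
  obtain ⟨C, hC⟩ := hM 3
  have B1 : (1 : ℝ) ≤ X.B0 := by exact_mod_cast X.B0_pos
  have d1 : (1 : ℝ) ≤ X.d := by exact_mod_cast X.d_pos
  have cm0 := X.cmx_nonneg
  have L0 := hk.L_nonneg
  have a0 := hk.a_pos
  set Γ := Real.log (2 * X.B0 * X.d) with hΓ
  have Γ0 : 0 < Γ := Real.log_pos (by nlinarith)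
  set c := 1 / (10 * Γ) with hc
  have c0 : 0 < c := by positivity
  have ev : ∀ᶠ t : ℝ in atTop, 5 ≤ t ∧ 2 / c ≤ t ∧
      max (X.cmx) ((|R| + X.cmx) / a) ≤ Real.exp (t / 10) :=
    (eventually_ge_atTop _).and ((eventually_ge_atTop _).and
      ((Real.tendsto_exp_atTop.comp (tendsto_id.atTop_div_const (by norm_num))).eventually
        (eventually_ge_atTop _)))
  obtain ⟨t0, ht0⟩ := eventually_atTop.1 ev
  set K := 128 * |C| / c ^ 3 + 64 * X.B0 * L * (X.B0 + X.cmx) with hK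
  have K0 : 0 ≤ K := by positivity
  refine ⟨K * ∑ s, 1 / X.π s, t0, fun s g g1 g2 g3 t ht => ?_⟩
  obtain ⟨t1, t2, t3⟩ := ht0 t ht
  have tp : 0 < t := by linarith
  set n := ⌊c * t⌋₊ with hn
  have ct : 2 ≤ c * t := by rwa [div_le_iff₀ c0, mul_comm] at t2
  have n1 : (n : ℝ) ≤ c * t := Nat.floor_le (by linarith)
  have n2 : c * t / 2 ≤ n := by have := Nat.lt_floor_add_one (c * t); linarith
  have n3 : 1 ≤ n := by
    have : (1 : ℝ) ≤ n := by linarith
    exact_mod_cast this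
  set W := Real.exp (t / 10) with hW
  have W1 : 1 ≤ W := Real.one_le_exp (by linarith)
  have W0 : 0 < W := by linarith
  have YW : Real.exp t = W ^ 10 := by
    rw [hW, ← Real.exp_nat_mul]; congr 1; push_cast; ring
  have w0 : (2 * X.B0 * X.d : ℝ) ^ n ≤ W := by
    rw [← Real.exp_log (show (0 : ℝ) < 2 * X.B0 * X.d by positivity), ← Real.exp_nat_mul]
    refine Real.exp_le_exp.2 ?_
    calc n * Γ ≤ c * t * Γ := by gcongr
      _ = t / 10 := by rw [hc]; field_simp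
  have w1 : (X.B0 : ℝ) ^ n ≤ W := le_trans (pow_le_pow_left₀ (by linarith) (by nlinarith) n) w0
  have w2 : (X.d : ℝ) ^ n ≤ W := le_trans (pow_le_pow_left₀ (by linarith) (by nlinarith) n) w0
  have w3 : (n : ℝ) ≤ W := by
    have : (n : ℝ) ≤ 2 ^ n := by exact_mod_cast Nat.lt_two_pow_self.le
    exact this.trans (le_trans (pow_le_pow_left₀ (by norm_num) (by nlinarith) n) w0)
  have p1 : W ^ 3 ≤ W ^ 10 := pow_le_pow_right₀ W1 (by norm_num)
  have u1 : X.cmx ≤ W := (le_max_left _ _).trans t3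
  have u2 : |R| + X.cmx ≤ W * a := by
    have := (le_max_right _ _).trans t3
    rwa [div_le_iff₀ a0] at this
  have c1 : W * |R| + W * X.cmx * W ≤ a * Real.exp t := by
    rw [YW]
    calc W * |R| + W * X.cmx * W ≤ W * W * (|R| + X.cmx) := by
          nlinarith [mul_nonneg (mul_nonneg W0.le (abs_nonneg R)) (sub_nonneg.2 W1)]
      _ ≤ W * W * (W * a) := by gcongr
      _ = a * W ^ 3 := by ring
      _ ≤ _ := by gcongr
  have c2 : W * X.cmx * W ≤ Real.exp t := by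
    rw [YW]
    calc W * X.cmx * W ≤ W * W * W := by gcongr
      _ = W ^ 3 := by ring
      _ ≤ _ := p1
  set J := ⌊3 * W * Real.exp t⌋₊ + 1 with hJ
  have J1 : 3 * W * Real.exp t < J := by rw [hJ]; push_cast; exact Nat.lt_floor_add_one _
  have J2 : (J : ℝ) ≤ 4 * W ^ 11 := by
    have b1 := Nat.floor_le (show 0 ≤ 3 * W * Real.exp t by positivity)
    have b2 : 1 ≤ W ^ 11 := one_le_pow₀ W1
    have b3 : 3 * W * Real.exp t = 3 * W ^ 11 := by rw [YW]; ring
    rw [hJ]; push_cast; linarith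
  have J0 : (0 : ℝ) < J := lt_of_le_of_lt (by positivity) J1
  have J3 : 1 + Real.log J ≤ 2 * t := by
    have b1 := Real.log_le_log J0 J2
    rw [Real.log_mul (by norm_num) (by positivity), Real.log_pow, hW, Real.log_exp] at b1
    have b2 := Real.log_le_sub_one_of_pos (show (0 : ℝ) < 4 by norm_num)
    push_cast at b1
    linarith
  have np : (0 : ℝ) < n := by linarith
  have core := eq_core X hk h0 h1 hR (n := n) (μ := |C| / (n : ℝ) ^ 3) (by positivity)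
    (fun s g g1 g2 g3 => (hC n n3 s g g1 g2 g3).trans (by gcongr; exact le_abs_self C))
    (Real.exp_pos t) w1 w2 w3 c1 c2 J1 s g g1 g2 g3
  have m1 : 8 * (|C| / (n : ℝ) ^ 3) * (1 + Real.log J) ≤ 128 * |C| / c ^ 3 / t ^ 2 := by
    calc 8 * (|C| / (n : ℝ) ^ 3) * (1 + Real.log J)
        ≤ 8 * (|C| / (n : ℝ) ^ 3) * (2 * t) := by gcongr
      _ ≤ 8 * (|C| / (c * t / 2) ^ 3) * (2 * t) := by gcongr
      _ = _ := by field_simp; ring
  have m2 : 2 * J * (X.B0 * W) * (W * (L * ((W * (X.B0 * W) + W * X.cmx * W) / Real.exp t))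
      / Real.exp t) ≤ 64 * X.B0 * L * (X.B0 + X.cmx) / t ^ 2 := by
    have b1 : t ^ 2 / 8 ≤ W ^ 5 := by
      have := Real.pow_div_factorial_le_exp (t / 2) (by linarith) 2
      have e : W ^ 5 = Real.exp (t / 2) := by
        rw [hW, ← Real.exp_nat_mul]; congr 1; push_cast; ring
      rw [e]; norm_num [Nat.factorial] at this; linarith
    calc _ ≤ 2 * (4 * W ^ 11) * (X.B0 * W)
          * (W * (L * ((W * (X.B0 * W) + W * X.cmx * W) / Real.exp t)) / Real.exp t) := by gcongr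
      _ = 8 * X.B0 * L * (X.B0 + X.cmx) / W ^ 5 := by rw [YW]; field_simp; ring
      _ ≤ 8 * X.B0 * L * (X.B0 + X.cmx) / (t ^ 2 / 8) := by gcongr
      _ = _ := by field_simp; ring
  have m3 : X.π s * |F h (fun u => χ (s, u) * g u) (Real.exp t)| ≤ K / t ^ 2 := by
    rw [hK, add_div]; linarith
  have π0 := X.π_pos s
  have m4 : 1 / X.π s ≤ ∑ s, 1 / X.π s :=
    single_le_sum (f := fun s => 1 / X.π s) (fun s _ => (one_div_pos.2 (X.π_pos s)).le)
      (mem_univ s)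
  calc _ ≤ K / t ^ 2 * (1 / X.π s) := by
        rw [mul_one_div, le_div_iff₀ π0, mul_comm]; exact m3
    _ ≤ K / t ^ 2 * ∑ s, 1 / X.π s := by gcongr
    _ = _ := by ring

theorem main_of (hH : HarmSt) (hG : GrpSt) : MainSt := by
  intro S E _ _ _ _ X hI hN s0 g hg hg1 χ h0 h1 hχ
  classical
  obtain ⟨L, hL⟩ := X.exists_good hI hN s0 g hg hg1
  have L1 : 1 ≤ L := by
    rcases Nat.eq_zero_or_pos L with rfl | h
    · have := hL.two_le ⟨(s0, []), X.mem_PF.2 (by simp)⟩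
      exact absurd this (by simp [Sys.pow])
    · exact h
  refine hG S E X hI hN s0 g hg hg1 χ h0 h1 (hH S E X χ h0 h1 hχ L L1
    (eq_st _ _ (X.pow L) χ h0 h1 ?_ hL.mix))
  obtain ⟨R, hR⟩ := hχ
  refine ⟨max ((X.d : ℝ) ^ L) L * |R| + max ((X.d : ℝ) ^ L) L * X.cmx * max ((X.d : ℝ) ^ L) L,
    fun x hx => ?_⟩
  rw [X.pow_step]
  exact (inv_iter X hR (le_max_left _ _) (le_max_right _ _) x hx L le_rfl).2

end Pool.Agent.Lib.MP_39d40e_nt.Bd
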