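import Pool.Agent.Lib.MP_39d40e_nt.Bd0

/-! Density of invariant sets: from the harmonic equation to the density. -/

namespace Pool.Agent.Lib.MP_39d40e_nt.Bd

open Finset Filter Topology

section

variable {S E : Type} [Fintype S] [Fintype E] [DecidableEq S] [DecidableEq E] {X : Sys S E}

theorem path_rel {f : S → ℝ → ℝ}
    (he : ∀ e, R f (X.src e) (X.tgt e) (Real.log (|(X.b e : ℝ)| / X.D e))) :
    ∀ (l : List E) (s t : S), X.Pa s l t → R f t s (Real.log (X.rr l)) := by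
  intro l
  induction l with
  | nil =>
    rintro s t ⟨-, rfl⟩
    simpa [Sys.rr, Sys.endp] using R.refl f s
  | cons e l ih =>
    rintro s t ⟨h1, h2⟩
    obtain ⟨rfl, h3⟩ := X.cons_mem_Paths.1 h1
    have h4 := (ih (X.src e) t ⟨h3, h2⟩).trans (he e)
    have h5 : X.rr [e] = |(X.b e : ℝ)| / X.D e := by simp [Sys.rr]
    have h6 : X.rr (e :: l) = X.rr [e] * X.rr l := X.rr_append [e] l
    rw [h6, Real.log_mul (X.rr_pos _).ne' (X.rr_pos _).ne', add_comm, h5]
    exact h4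

omit [DecidableEq E] in
theorem incomm {g g' : List E} (hg : 1 < X.rr g) (hg' : X.rr g' < 1) (γ : ℝ) (i j : ℤ)
    (hi : i • γ = Real.log (X.rr g)) (hj : j • γ = Real.log (X.rr g')) : False := by
  have ha : 0 < Real.log (X.rr g) := Real.log_pos hg
  have hb : Real.log (X.rr g') < 0 := Real.log_neg (X.rr_pos _) hg'
  rw [zsmul_eq_mul] at hi hj
  have hj0 : j ≠ 0 := by
    rintro rfl
    simp only [Int.cast_zero, zero_mul] at hj
    linarith
  obtain ⟨p, hp⟩ : ∃ p, j.natAbs = p + 1 := ⟨j.natAbs - 1, by omega⟩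
  have e1 : ((p + 1 : ℕ) : ℝ) * Real.log (X.rr g) + (i.natAbs : ℝ) * Real.log (X.rr g') = 0 := by
    have a1 : Real.log (X.rr g) = |(i : ℝ)| * |γ| := by rw [← abs_mul, hi, abs_of_pos ha]
    have a2 : Real.log (X.rr g') = -(|(j : ℝ)| * |γ|) := by
      rw [← abs_mul, hj, abs_of_neg hb, neg_neg]
    rw [← hp, a1, a2, Nat.cast_natAbs, Nat.cast_natAbs, Int.cast_abs, Int.cast_abs]
    ring
  have e2 : X.rr (Sys.rep g (p + 1) ++ Sys.rep g' i.natAbs) = 1 := by
    have h0 := X.rr_pos (Sys.rep g (p + 1) ++ Sys.rep g' i.natAbs)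
    refine Real.eq_one_of_pos_of_log_eq_zero h0 ?_
    rw [X.rr_append, Sys.rr_rep, Sys.rr_rep, Real.log_mul (pow_pos (X.rr_pos _) _).ne'
      (pow_pos (X.rr_pos _) _).ne', Real.log_pow, Real.log_pow]
    exact e1
  generalize hl : Sys.rep g (p + 1) ++ Sys.rep g' i.natAbs = l at e2
  have e3 : X.bP g ∣ X.bP l := by
    rw [← hl, Sys.rep, X.bP_append, X.bP_append, mul_assoc]
    exact dvd_mul_right _ _
  have d0 : (0 : ℝ) < X.DP l := by exact_mod_cast X.DP_pos l
  have e4 : |X.bP l| = (X.DP l : ℤ) := by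
    rw [Sys.rr, div_eq_one_iff_eq d0.ne'] at e2
    exact_mod_cast e2
  have e5 : IsUnit (X.bP g) :=
    (X.bP_cop_DP g l).isUnit_of_dvd (by rw [← e4]; exact (dvd_abs _ _).2 e3)
  have e6 : |(X.bP g : ℝ)| = 1 := by
    rcases Int.isUnit_iff.1 e5 with h | h <;> simp [h]
  have d1 : (1 : ℝ) ≤ X.DP g := by exact_mod_cast X.DP_pos g
  rw [Sys.rr, e6, lt_div_iff₀ (by linarith)] at hg
  linarith

end

theorem grp_st (h1 : LipSt) (h2 : TauSt) : GrpSt := by
  intro S E _ _ _ _ X hI hN s0 g hg hg1 χ c0 c1 hH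
  refine h2 S (fun s u => χ (s, u)) (fun _ _ => c0 _) (fun _ _ => c1 _) fun h a L hk => ?_
  obtain ⟨M, L', hL0, hl⟩ := h1 h a L hk
  obtain ⟨C, t0, hC⟩ := hH h a L hk
  let σ : E → ℝ := fun e => Real.log (|(X.b e : ℝ)| / X.D e)
  let w : E → ℝ := fun e => X.π (X.src e) / X.D e
  let f : S → ℝ → ℝ := fun s t => F h (fun u => χ (s, u)) (Real.exp (max t 0))
  have hφ : ∀ s u, |χ (s, u)| ≤ 1 := fun s u => by rw [abs_of_nonneg (c0 _)]; exact c1 _
  have hM : ∀ s y, |f s y| ≤ M := fun s => (hl _ (hφ s)).1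
  have hL : ∀ s y y', |f s y - f s y'| ≤ L' * |y - y'| := fun s => (hl _ (hφ s)).2
  have hw : ∀ e, 0 < w e := fun e => by
    have : (0 : ℝ) < X.D e := by exact_mod_cast Nat.pos_of_dvd_of_pos (X.D_dvd e) X.d_pos
    exact div_pos (X.π_pos _) this
  have ho : ∀ s, ∑ e with X.src e = s, w e = X.π s := fun s => by
    rw [← mul_one (X.π s), ← X.out_sum s, mul_sum]
    exact sum_congr rfl fun e he => by simp only [w, (mem_filter.1 he).2]; ring
  have s0' : 0 ≤ ∑ e, |σ e| := sum_nonneg fun _ _ => abs_nonneg _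
  have ht : 0 < max t0 1 + ∑ e, |σ e| := by linarith [le_max_right t0 1]
  have hHf : ∀ s y, max t0 1 + ∑ e, |σ e| ≤ y →
      |X.π s * f s y - ∑ e with X.src e = s, w e * f (X.tgt e) (y + σ e)| ≤ C / y ^ 2 := by
    intro s y hy
    have a1 : ∀ e, max (y + σ e) 0 = y + σ e := fun e => by
      have := single_le_sum (f := fun e => |σ e|) (fun _ _ => abs_nonneg _) (mem_univ e)
      exact max_eq_left (by linarith [neg_abs_le (σ e), le_max_right t0 1])
    have a2 : max y 0 = y := max_eq_left (by linarith)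
    simp only [f, a1, a2]
    exact hC s y (by linarith [le_max_left t0 1])
  have he := edge_rel X.src X.tgt w σ X.π hw ho X.stat f hL0 hM hL ht hHf
  obtain ⟨g', hg', hg2⟩ := Sys.exists_neg_cycle hI hN s0
  have hall0 := all_rel hL0 s0 (hL s0) (path_rel he _ _ _ hg) (path_rel he _ _ _ hg')
    (incomm hg1 hg2)
  have hall : ∀ s s' τ, R f s s' τ := fun s s' τ => by
    obtain ⟨l, hl⟩ := hI.conn s0 s
    obtain ⟨l', hl'⟩ := hI.conn s' s0
    have := ((path_rel he _ _ _ hl).trans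
      (hall0 (τ - Real.log (X.rr l) - Real.log (X.rr l')))).trans (path_rel he _ _ _ hl')
    convert this using 1
    ring
  obtain ⟨δ, hδ⟩ := limit X.src X.tgt w σ X.π ho X.stat f hL0 hM hL ht hHf (ne_of_lt hN) hall
  refine ⟨δ, fun s => (hδ s).congr' ?_⟩
  filter_upwards [eventually_ge_atTop (0 : ℝ)] with t ht
  simp only [f, max_eq_left ht]

end Pool.Agent.Lib.MP_39d40e_nt.Bd
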