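import Pool.Agent.Lib.MP_39d40e_nt.BdE

/-! Density of invariant sets: the approximate harmonic equation. -/

namespace Pool.Agent.Lib.MP_39d40e_nt.Bd

open Finset Filter Topology

theorem F_ext {h : ℝ → ℝ} {a L : ℝ} (hk : Ker h a L) (φ : ℤ → ℝ) {Y : ℝ} (hY : 0 < Y)
    (V : Finset ℤ) (hV : ∀ z : ℤ, |(z : ℝ)| < 2 * Y → z ∈ V) :
    F h φ Y = ∑ z ∈ V, φ z * (h (|(z : ℝ)| / Y) / Y) := by
  classical
  have z0 : ∀ z : ℤ, φ z * (h (|(z : ℝ)| / Y) / Y) ≠ 0 → |(z : ℝ)| < 2 * Y := fun z hz => by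
    rw [← div_lt_iff₀ hY]
    exact not_le.1 fun e => hz (by simp [hk.high _ e])
  rw [F, sum_div]
  simp only [mul_div_assoc]
  refine sum_congr_of_eq_on_inter (fun z _ hz => ?_) (fun z _ hz => ?_) fun _ _ _ => rfl
  · by_contra e; exact hz (hV z (z0 z e))
  · by_contra e
    refine hz (mem_Icc.2 (abs_le.1 ?_))
    have : |(z : ℝ)| ≤ (⌈2 * Y⌉ : ℤ) := (z0 z e).le.trans (Int.le_ceil _)
    exact_mod_cast this

variable {S E : Type} [Fintype S] [Fintype E] [DecidableEq S] [DecidableEq E] (X : Sys S E)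

theorem b_dvd_pow {L : ℕ} (hL : 1 ≤ L) (e : E) : X.b e ∣ ((X.pow L).B0 : ℤ) := by
  obtain ⟨k, rfl⟩ : ∃ k, L = k + 1 := ⟨L - 1, by omega⟩
  obtain ⟨l, hl⟩ := Sys.exists_path (X := X) k (X.src e)
  have := (X.pow (k + 1)).b_dvd_B0
    ⟨(X.tgt e, e :: l), X.mem_PF.2 (X.cons_mem_Paths.2 ⟨rfl, hl⟩)⟩
  exact (Dvd.intro _ (X.bP_cons e l).symm).trans this

theorem harm_st (hp : PushSt) : HarmSt := by
  intro S E _ _ _ _ X χ h0 h1 ⟨R, hR⟩ L hL hE h a Lh hk
  classical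
  obtain ⟨C, t0, hC⟩ := hE h a Lh hk
  have B1 : (1 : ℝ) ≤ X.B0 := by exact_mod_cast X.B0_pos
  have d1 : (1 : ℝ) ≤ X.d := by exact_mod_cast X.d_pos
  have cm0 := X.cmx_nonneg
  have L0 := hk.L_nonneg
  have a0 := hk.a_pos
  set W : ℝ := X.B0 * X.d with hW
  have w1 : (X.B0 : ℝ) ^ 1 ≤ W := by rw [pow_one]; nlinarith
  have w2 : (X.d : ℝ) ^ 1 ≤ W := by rw [pow_one]; nlinarith
  have W1 : 1 ≤ W := by nlinarith
  have w3 : ((1 : ℕ) : ℝ) ≤ W := by exact_mod_cast W1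
  set σ : E → ℝ := fun e => Real.log (|(X.b e : ℝ)| / X.D e) with hσ
  set Z := ∑ e, |σ e| with hZ
  have Z1 : ∀ e, |σ e| ≤ Z := fun e =>
    single_le_sum (f := fun e => |σ e|) (fun _ _ => abs_nonneg _) (mem_univ e)
  have ev : ∀ᶠ t : ℝ in atTop, 1 ≤ t ∧ t0 + Z ≤ t ∧ 2 * Z ≤ t ∧
      max ((W * |R| + W * X.cmx * W) / a) (W * X.cmx * W) ≤ Real.exp t :=
    (eventually_ge_atTop _).and ((eventually_ge_atTop _).and ((eventually_ge_atTop _).and
      (Real.tendsto_exp_atTop.eventually (eventually_ge_atTop _))))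
  obtain ⟨t1, ht1⟩ := eventually_atTop.1 ev
  set K := W * (4 * |C|) + 18 * W * (W * (Lh * (W * X.cmx * W))) with hK
  refine ⟨∑ e, X.π (X.src e) / X.D e * K, t1, fun s t ht => ?_⟩
  obtain ⟨p1, p2, p3, p4⟩ := ht1 t ht
  set Y := Real.exp t with hY'
  have hY : 0 < Y := Real.exp_pos t
  have Y1 : 1 ≤ Y := Real.one_le_exp (by linarith)
  have c1 : W * |R| + W * X.cmx * W ≤ a * Y := by
    have := (le_max_left _ _).trans p4
    rwa [div_le_iff₀ a0, mul_comm Y] at this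
  have c2 : W * X.cmx * W ≤ Y := (le_max_right _ _).trans p4
  let V : Finset ℤ := Icc (-⌈3 * W * Y⌉) ⌈3 * W * Y⌉
  have hV : ∀ z : ℤ, |(z : ℝ)| ≤ 3 * W * Y → z ∈ V := fun z hz => by
    refine mem_Icc.2 (abs_le.1 ?_)
    have : |(z : ℝ)| ≤ (⌈3 * W * Y⌉ : ℤ) := hz.trans (Int.le_ceil _)
    exact_mod_cast this
  have cV : (#V : ℝ) ≤ 9 * W * Y := by
    have b0 : 0 ≤ ⌈3 * W * Y⌉ := Int.ceil_nonneg (by positivity)
    have b1 : (#V : ℤ) = 2 * ⌈3 * W * Y⌉ + 1 := by simp only [V, Int.card_Icc]; omega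
    have b2 : (#V : ℝ) = 2 * (⌈3 * W * Y⌉ : ℤ) + 1 := by exact_mod_cast b1
    have b3 := Int.ceil_lt_add_one (3 * W * Y)
    nlinarith
  let G : S → ℤ → ℝ := fun t u => if t = s then h (|(u : ℝ)| / Y) / Y else 0
  have hp' := hp S E X χ 1 G V V (by
    intro t u hu
    have a1 : h (|(u : ℝ)| / Y) ≠ 0 := fun e => hu (by simp [G, e])
    have a2 : a * Y < |(u : ℝ)| := by
      rw [← lt_div_iff₀ hY]; exact not_le.1 fun e => a1 (hk.low _ e)
    have a3 : |(u : ℝ)| < 2 * Y := by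
      rw [← div_lt_iff₀ hY]; exact not_le.1 fun e => a1 (hk.high _ e)
    exact ⟨hV _ (by nlinarith), hV _ ((iter_near X w1 w2 w3 (t, u)).trans (by simp only; nlinarith)),
      (inv_iter X hR w2 w3 (t, u) (c1.trans_lt a2) 1 le_rfl).2⟩)
  have e1 : ∑ t, X.π t * ∑ u ∈ V, χ (t, u) * G t u = X.π s * F h (fun u => χ (s, u)) Y := by
    rw [sum_eq_single s (fun t _ ht => by simp [G, ht]) (by simp),
      F_ext hk _ hY V fun z hz => hV z (by nlinarith)]
    simp only [G, if_true]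
  have e2 : (∑ s', X.π s' * ∑ z ∈ V, χ (s', z) *
      X.Ex 1 s' fun l => X.pull l z (G (X.endp s' l)) / X.rr l)
      = ∑ e with X.src e = s, X.π (X.src e) / X.D e * ∑ z ∈ V, χ (X.tgt e, z) *
        (X.pull [e] z (fun u => h (|(u : ℝ)| / Y) / Y) / X.rr [e]) := by
    rw [sum_filter, ← sum_fiberwise_of_maps_to (s := univ) (t := univ) (g := X.tgt) (by simp)]
    refine sum_congr rfl fun s' _ => ?_
    simp only [Sys.Ex_succ, mul_sum]
    rw [sum_comm]
    refine sum_congr rfl fun e he => ?_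
    have he' : X.tgt e = s' := X.mem_into.1 he
    subst he'
    have π0 := (X.π_pos (X.tgt e)).ne'
    split_ifs with hs
    · refine sum_congr rfl fun z _ => ?_
      simp only [Sys.Ex, Sys.Paths, sum_singleton, Sys.wt_nil, one_mul, Sys.endp, G, hs, if_true,
        Sys.q]
      field_simp
    · refine sum_eq_zero fun z _ => ?_
      simp [Sys.Ex, Sys.Paths, Sys.endp, G, hs, Sys.pull]
  rw [← e1, hp', e2, ← sum_sub_distrib, sum_div]
  have K0 : 0 ≤ K := by positivity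
  have wpos : ∀ e, 0 ≤ X.π (X.src e) / X.D e := fun e =>
    div_nonneg (X.π_pos _).le (Nat.cast_nonneg _)
  refine (abs_sum_le_sum_abs _ _).trans (le_trans (sum_le_sum fun e _ => ?_)
    (sum_le_sum_of_subset_of_nonneg (filter_subset _ _) fun e _ _ =>
      div_nonneg (mul_nonneg (wpos e) K0) (sq_nonneg t)))
  rw [← mul_sub, abs_mul, abs_of_nonneg (wpos e), mul_div_assoc]
  refine mul_le_mul_of_nonneg_left ?_ (wpos e)
  have hl : [e] ∈ X.Paths 1 (X.tgt e) := (Sys.Pa.single (X := X) e).1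
  obtain ⟨a1, a2⟩ := cP_le X le_rfl hl w2 w3
  have a3 := (bP_le X hl).trans w1
  have hb := X.one_le_abs_bP [e]
  have hD : (0 : ℝ) < X.DP [e] := by exact_mod_cast X.DP_pos [e]
  have hD1 : (1 : ℝ) ≤ X.DP [e] := by exact_mod_cast X.DP_pos [e]
  have r0 := X.rr_pos [e]
  have r1 : X.rr [e] ≤ W := by
    unfold Sys.rr; rw [div_le_iff₀ hD]; nlinarith
  have r2 : Real.exp (t + σ e) = X.rr [e] * Y := by
    have : |(X.b e : ℝ)| / X.D e = X.rr [e] := by simp [Sys.rr]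
    rw [Real.exp_add, hσ]; simp only; rw [this, Real.exp_log r0, mul_comm]
  set B := |(X.bP [e] : ℝ)| with hB
  have B0 : 0 < B := by linarith
  let g : ℤ → ℝ := fun z => (X.pull [e] z (fun _ => 1) - 1) / B
  have dv : X.bP [e] ∣ ((X.pow L).B0 : ℤ) := by simpa using b_dvd_pow X hL e
  have m1 := hC (X.tgt e) g (fun z => by
      simp only [g, Sys.pull]
      have : (X.bP [e] ∣ X.DP [e] * (z + (X.pow L).B0) - X.cP [e])
          ↔ X.bP [e] ∣ X.DP [e] * z - X.cP [e] := by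
        rw [show (X.DP [e] : ℤ) * (z + (X.pow L).B0) - X.cP [e]
          = X.DP [e] * z - X.cP [e] + X.DP [e] * (X.pow L).B0 by ring]
        exact Int.dvd_add_left (dv.mul_left _)
      simp only [this])
    (by
      have := sum_pull (fun _ => 1) 1 one_pos (fun _ => rfl) (X.bP [e]) (X.bP_ne _) (X.DP [e])
        (X.cP [e]) (by simpa using (X.bP_cop_DP [e] [e]).symm) (X.pow L).B0
        (by rw [mul_one]; exact Int.natCast_dvd_natCast.1 (Int.natAbs_dvd.2 dv))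
      simp only [g, Sys.pull]
      rw [← sum_div, sum_sub_distrib, this]; simp)
    (fun z => by
      simp only [g, Sys.pull]
      rw [abs_div, abs_of_pos B0, div_le_one B0]
      split_ifs
      · rw [mul_one, ← hB, abs_of_nonneg (by linarith)]; linarith
      · simpa using hb)
    (t + σ e) (by linarith [(abs_le.1 (Z1 e)).1])
  rw [r2] at m1 ⊢
  have rY : 0 < X.rr [e] * Y := mul_pos r0 hY
  have hV2 : ∀ z : ℤ, |(z : ℝ)| < 2 * (X.rr [e] * Y) → z ∈ V := fun z hz => hV z (by nlinarith)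
  set ε := W * (Lh * (W * X.cmx * W / Y)) / Y with hε
  have ε0 : 0 ≤ ε := by positivity
  have key : ∀ z : ℤ, |X.pull [e] z (fun u => h (|(u : ℝ)| / Y) / Y) / X.rr [e]
      - X.pull [e] z (fun _ => 1) * (h (|(z : ℝ)| / (X.rr [e] * Y)) / (X.rr [e] * Y))| ≤ ε := by
    intro z
    unfold Sys.pull
    split_ifs with hd
    swap
    · simpa using ε0
    obtain ⟨y, hy⟩ := hd
    rw [hy, Int.mul_ediv_cancel_left _ (X.bP_ne _), ← hB]
    have e3 : B * (h (|(y : ℝ)| / Y) / Y) / X.rr [e]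
        - B * 1 * (h (|(z : ℝ)| / (X.rr [e] * Y)) / (X.rr [e] * Y))
        = X.DP [e] * (h (|(y : ℝ)| / Y) - h (|(z : ℝ)| / (X.rr [e] * Y))) / Y := by
      generalize h (|(z : ℝ)| / (X.rr [e] * Y)) = v
      unfold Sys.rr; rw [← hB]; field_simp
    have hy' : (X.DP [e] : ℝ) * z - X.cP [e] = X.bP [e] * y := by exact_mod_cast hy
    have e4 : abs (B * |(y : ℝ)| - X.DP [e] * |(z : ℝ)|) ≤ B * (W * X.cmx * W) := by
      rw [hB, ← abs_mul, ← hy', ← abs_of_pos hD, ← abs_mul, abs_of_pos hD]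
      refine (abs_abs_sub_abs_le_abs_sub _ _).trans ?_
      rw [sub_sub_cancel_left, abs_neg]; exact a1
    have e5 : abs (|(y : ℝ)| / Y - |(z : ℝ)| / (X.rr [e] * Y)) ≤ W * X.cmx * W / Y := by
      have b1 : |(y : ℝ)| / Y - |(z : ℝ)| / (X.rr [e] * Y)
          = (B * |(y : ℝ)| - X.DP [e] * |(z : ℝ)|) / B / Y := by
        unfold Sys.rr; rw [← hB]; field_simp
      rw [b1, abs_div, abs_div, abs_of_pos hY, abs_of_pos B0]
      refine div_le_div_of_nonneg_right ?_ hY.le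
      rw [div_le_iff₀ B0]; linarith
    rw [e3, abs_div, abs_mul, abs_of_pos hY, abs_of_pos hD, hε]
    exact div_le_div_of_nonneg_right (mul_le_mul a2 ((hk.lip _ _).trans
      (mul_le_mul_of_nonneg_left e5 L0)) (abs_nonneg _) (by linarith)) hY.le
  have split : ∑ z ∈ V, χ (X.tgt e, z) * (X.pull [e] z (fun u => h (|(u : ℝ)| / Y) / Y) / X.rr [e])
      - F h (fun u => χ (X.tgt e, u)) (X.rr [e] * Y)
      = B * F h (fun u => χ (X.tgt e, u) * g u) (X.rr [e] * Y)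
        + ∑ z ∈ V, χ (X.tgt e, z) * (X.pull [e] z (fun u => h (|(u : ℝ)| / Y) / Y) / X.rr [e]
      - X.pull [e] z (fun _ => 1) * (h (|(z : ℝ)| / (X.rr [e] * Y)) / (X.rr [e] * Y))) := by
    rw [F_ext hk _ rY V hV2, F_ext hk _ rY V hV2, mul_sum, ← sum_sub_distrib, ← sum_add_distrib]
    refine sum_congr rfl fun z _ => ?_
    simp only [g]
    generalize h (|(z : ℝ)| / (X.rr [e] * Y)) / (X.rr [e] * Y) = v
    field_simp; ring
  rw [split]
  have tp : 0 < t := by linarith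
  have n1 : |B * F h (fun u => χ (X.tgt e, u) * g u) (X.rr [e] * Y)| ≤ W * (4 * |C|) / t ^ 2 := by
    have b1 : t / 2 ≤ t + σ e := by linarith [(abs_le.1 (Z1 e)).1]
    rw [abs_mul, abs_of_pos B0, mul_div_assoc]
    refine mul_le_mul a3 (m1.trans ?_) (abs_nonneg _) (by linarith)
    calc C / (t + σ e) ^ 2 ≤ |C| / (t + σ e) ^ 2 := by gcongr; exact le_abs_self C
      _ ≤ |C| / (t / 2) ^ 2 := by gcongr
      _ = _ := by field_simp; ring
  have n2 : |∑ z ∈ V, χ (X.tgt e, z) * (X.pull [e] z (fun u => h (|(u : ℝ)| / Y) / Y) / X.rr [e]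
      - X.pull [e] z (fun _ => 1) * (h (|(z : ℝ)| / (X.rr [e] * Y)) / (X.rr [e] * Y)))|
      ≤ 18 * W * (W * (Lh * (W * X.cmx * W))) / t ^ 2 := by
    refine (abs_sum_le_sum_abs _ _).trans ((sum_le_sum (g := fun _ => ε) fun z _ => ?_).trans ?_)
    · rw [abs_mul, abs_of_nonneg (h0 _)]
      exact (mul_le_of_le_one_left (abs_nonneg _) (h1 _)).trans (key z)
    have b1 : t ^ 2 / 2 ≤ Y := by
      have := Real.pow_div_factorial_le_exp t tp.le 2
      norm_num [Nat.factorial] at this; exact this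
    rw [sum_const, nsmul_eq_mul]
    calc (#V : ℝ) * ε ≤ 9 * W * Y * ε := by gcongr
      _ = 9 * W * (W * (Lh * (W * X.cmx * W))) / Y := by rw [hε]; field_simp
      _ ≤ 9 * W * (W * (Lh * (W * X.cmx * W))) / (t ^ 2 / 2) := by gcongr
      _ = _ := by field_simp; ring
  rw [hK, add_div]
  exact (abs_add_le _ _).trans (add_le_add n1 n2)

end Pool.Agent.Lib.MP_39d40e_nt.Bd
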