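import Pool.Agent.Lib.MP_39d40e_nt.Bd1

/-! Density of invariant sets: the exact push forward. -/

namespace Pool.Agent.Lib.MP_39d40e_nt.Bd

open Finset Filter Topology

theorem push_st : PushSt := by
  intro S E _ _ _ _ X χ n G U V hG
  classical
  let F : S × ℤ → ℝ := fun x => X.π x.1 * (χ x * G x.1 x.2)
  let H : (Σ _ : S, Σ _ : List E, ℤ) → ℝ := fun t => X.π t.1 * (χ (t.1, t.2.2) * (X.wt t.2.1 *
    (X.pull t.2.1 t.2.2 (G (X.endp t.1 t.2.1)) / X.rr t.2.1)))
  let TT : Finset (Σ _ : S, Σ _ : List E, ℤ) :=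
    univ.sigma fun s => (X.Paths n s).sigma fun _ => V
  have e1 : ∑ s, X.π s * ∑ u ∈ U, χ (s, u) * G s u = ∑ x ∈ univ ×ˢ U, F x := by
    rw [sum_product]; simp only [F, mul_sum]
  have e2 : (∑ s, X.π s * ∑ z ∈ V, χ (s, z) *
      X.Ex n s fun l => X.pull l z (G (X.endp s l)) / X.rr l) = ∑ t ∈ TT, H t := by
    simp only [TT, sum_sigma, H, Sys.Ex, mul_sum]
    exact sum_congr rfl fun s _ => sum_comm
  rw [e1, e2]
  refine sum_bij_ne_zero
    (fun x _ _ => (⟨(X.step^[n] x).1, X.orb n x, (X.step^[n] x).2⟩ : Σ _ : S, Σ _ : List E, ℤ))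
    (fun x _ hx => ?_) (fun x _ _ x' _ _ hx => ?_) (fun t ht h0 => ?_) (fun x _ hx => ?_)
  · have := hG x.1 x.2 (right_ne_zero_of_mul (right_ne_zero_of_mul hx))
    simp only [TT, mem_sigma, mem_univ, true_and]
    exact ⟨X.orb_mem n x, this.2.1⟩
  · simp only [Sigma.mk.injEq, heq_eq_eq] at hx
    obtain ⟨h1, h2, h3⟩ := hx
    have k1 := X.orb_endp n x
    have k2 := X.orb_endp n x'
    have k3 := X.orb_mul n x
    have k4 := X.orb_mul n x'
    rw [h1, h2] at k1
    rw [h2, h3] at k3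
    refine Prod.ext (k1.symm.trans k2) ?_
    exact mul_left_cancel₀ (X.bP_ne (X.orb n x')) (by linarith)
  · obtain ⟨s, l, z⟩ := t
    simp only [TT, mem_sigma, mem_univ, true_and] at ht
    have a1 : χ (s, z) ≠ 0 := left_ne_zero_of_mul (right_ne_zero_of_mul h0)
    have a2 : X.pull l z (G (X.endp s l)) ≠ 0 := fun h => h0 (by simp [H, h])
    unfold Sys.pull at a2
    split_ifs at a2 with hd
    swap
    · exact absurd rfl a2
    obtain ⟨y, hy⟩ := hd
    rw [hy, Int.mul_ediv_cancel_left _ (X.bP_ne l)] at a2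
    have a3 := right_ne_zero_of_mul a2
    have a4 := X.step_pred ht.1 hy.symm
    have a5 := hG _ _ a3
    have a6 := (X.path_unique (u := y) ht.1 (X.orb_mem n (X.endp s l, y))
      (X.orb_endp n (X.endp s l, y)).symm ⟨z, by linarith⟩
      (Dvd.intro _ (X.orb_mul n (X.endp s l, y)))).1
    refine ⟨(X.endp s l, y), mem_product.2 ⟨mem_univ _, a5.1⟩, ?_, ?_⟩
    · refine mul_ne_zero (X.π_pos _).ne' (mul_ne_zero ?_ a3)
      rw [← a5.2.2, a4]; exact a1
    · rw [a4, ← a6]
  · have a5 := hG x.1 x.2 (right_ne_zero_of_mul (right_ne_zero_of_mul hx))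
    have hm := X.orb_mem n x
    have k3 := X.orb_mul n x
    have k1 := X.orb_endp n x
    have hwt := X.wt_eq hm
    simp only [F, H]
    have a6 : χ ((X.step^[n] x).1, (X.step^[n] x).2) = χ x := a5.2.2
    rw [a6]
    set l := X.orb n x
    set z := (X.step^[n] x).2
    set s' := (X.step^[n] x).1
    have e3 : X.pull l z (G (X.endp s' l)) = |(X.bP l : ℝ)| * G x.1 x.2 := by
      have : (X.DP l : ℤ) * z - X.cP l = X.bP l * x.2 := by linarith
      unfold Sys.pull
      rw [this, if_pos (Dvd.intro _ rfl), Int.mul_ediv_cancel_left _ (X.bP_ne l), k1]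
    have hD : (0 : ℝ) < X.DP l := by exact_mod_cast X.DP_pos l
    have hb := X.one_le_abs_bP l
    have p2 := X.π_pos s'
    rw [e3, hwt, k1]
    unfold Sys.rr
    field_simp

end Pool.Agent.Lib.MP_39d40e_nt.Bd
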