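import Pool.Agent.Lib.MP_39d40e_nt.Bd0

/-! Density of invariant sets: from smoothed counts to natural density. -/

namespace Pool.Agent.Lib.MP_39d40e_nt.Bd

open Finset Filter Topology

noncomputable def kern (e x : ℝ) : ℝ := max 0 (min 1 (min ((x - e) / e) ((1 + e - x) / e)))

theorem kern_ker {e : ℝ} (h0 : 0 < e) (h1 : e ≤ 1) : Ker (kern e) e (1 / e) where
  a_pos := h0
  L_nonneg := by positivity
  nonneg x := le_max_left _ _
  le_one x := max_le zero_le_one (min_le_left _ _)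
  low x hx := max_eq_left ((min_le_right _ _).trans ((min_le_left _ _).trans
    (div_nonpos_of_nonpos_of_nonneg (by linarith) h0.le)))
  high x hx := max_eq_left ((min_le_right _ _).trans ((min_le_right _ _).trans
    (div_nonpos_of_nonpos_of_nonneg (by linarith) h0.le)))
  lip x y := by
    have a1 : |(x - e) / e - (y - e) / e| = 1 / e * |x - y| := by
      rw [← sub_div, abs_div, abs_of_pos h0, sub_sub_sub_cancel_right]; ring
    have a2 : |(1 + e - x) / e - (1 + e - y) / e| = 1 / e * |x - y| := by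
      rw [← sub_div, abs_div, abs_of_pos h0, sub_sub_sub_cancel_left, abs_sub_comm]; ring
    have p : 0 ≤ 1 / e * |x - y| := by positivity
    refine (abs_max_sub_max_le_max _ _ _ _).trans (max_le (by simpa using p) ?_)
    refine (abs_min_sub_min_le_max _ _ _ _).trans (max_le (by simpa using p) ?_)
    exact (abs_min_sub_min_le_max _ _ _ _).trans (max_le a1.le a2.le)

theorem kern_one {e x : ℝ} (h0 : 0 < e) (h1 : 2 * e ≤ x) (h2 : x ≤ 1) : kern e x = 1 := by
  unfold kern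
  rw [min_eq_left (le_min ((le_div_iff₀ h0).2 (by linarith)) ((le_div_iff₀ h0).2 (by linarith))),
    max_eq_right zero_le_one]

theorem kern_zero {e x : ℝ} (h0 : 0 < e) (h1 : 1 + e ≤ x) : kern e x = 0 :=
  max_eq_left ((min_le_right _ _).trans ((min_le_right _ _).trans
    (div_nonpos_of_nonpos_of_nonneg (by linarith) h0.le)))

theorem squeeze (φ : ℤ → ℝ) (h0 : ∀ u, 0 ≤ φ u) (h1 : ∀ u, φ u ≤ 1) {e : ℝ} (e0 : 0 < e)
    (e1 : e ≤ 1) (N : ℕ) (hN : 0 < N) :
    |F (kern e) φ N / 2 - (∑ u ∈ Icc (-(N : ℤ)) N, φ u) / (2 * N)| ≤ 3 * e + 3 / N := by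
  classical
  have N0 : (0 : ℝ) < N := by exact_mod_cast hN
  have hk := kern_ker e0 e1
  have c : ⌈2 * (N : ℝ)⌉ = 2 * (N : ℤ) := by
    rw [← Int.ceil_intCast (R := ℝ) (2 * (N : ℤ))]; push_cast; rfl
  set A : ℤ := ⌈2 * e * N⌉ with hA
  set B : ℤ := ⌈e * N⌉ with hB
  have A1 : 2 * e * N ≤ A := Int.le_ceil _
  have A2 : (A : ℝ) < 2 * e * N + 1 := Int.ceil_lt_add_one _
  have B1 : e * N ≤ B := Int.le_ceil _
  have B2 : (B : ℝ) < e * N + 1 := Int.ceil_lt_add_one _
  have A0 : 0 ≤ A := Int.ceil_nonneg (by positivity)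
  have B0 : 0 ≤ B := Int.ceil_nonneg (by positivity)
  let Z : Finset ℤ := Icc (-A) A ∪ (Ioc (N : ℤ) (N + B) ∪ Ico (-(N + B) : ℤ) (-N))
  have e2 : ∑ u ∈ Icc (-(N : ℤ)) N, φ u
      = ∑ u ∈ Icc (-(2 * N : ℤ)) (2 * N), φ u * (if u ∈ Icc (-(N : ℤ)) N then 1 else 0) := by
    simp only [mul_ite, mul_one, mul_zero]
    rw [← sum_filter]
    congr 1
    ext u; simp only [mem_filter, mem_Icc]; omega
  have e3 : F (kern e) φ N / 2 - (∑ u ∈ Icc (-(N : ℤ)) N, φ u) / (2 * N)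
      = (∑ u ∈ Icc (-(2 * N : ℤ)) (2 * N), φ u * (kern e (|(u : ℝ)| / N)
        - if u ∈ Icc (-(N : ℤ)) N then 1 else 0)) / (2 * N) := by
    rw [e2, F, c]; simp only [mul_sub, sum_sub_distrib]; field_simp
  have e4 : ∀ u : ℤ, |φ u * (kern e (|(u : ℝ)| / N) - if u ∈ Icc (-(N : ℤ)) N then 1 else 0)|
      ≤ if u ∈ Z then 1 else 0 := by
    intro u
    have k0 := hk.nonneg (|(u : ℝ)| / N)
    have k1 := hk.le_one (|(u : ℝ)| / N)
    rw [abs_mul, abs_of_nonneg (h0 u)]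
    split_ifs with a1 a2 a2
    · exact mul_le_one₀ (h1 u) (abs_nonneg _) (abs_le.2 ⟨by linarith, by linarith⟩)
    · simp only [Z, mem_union, mem_Icc, mem_Ioc, mem_Ico] at a1 a2
      have b1 : (A : ℝ) ≤ |(u : ℝ)| := by
        have : A ≤ |u| := by rcases abs_cases u with h | h <;> omega
        exact_mod_cast this
      have b2 : |(u : ℝ)| ≤ N := by exact_mod_cast abs_le.2 a1
      rw [kern_one e0 ((le_div_iff₀ N0).2 (by linarith)) ((div_le_one N0).2 b2)]; simp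
    · exact mul_le_one₀ (h1 u) (abs_nonneg _) (abs_le.2 ⟨by linarith, by linarith⟩)
    · simp only [Z, mem_union, mem_Icc, mem_Ioc, mem_Ico] at a1 a2
      have b1 : (N : ℝ) + B ≤ |(u : ℝ)| := by
        have : (N : ℤ) + B ≤ |u| := by rcases abs_cases u with h | h <;> omega
        exact_mod_cast this
      rw [kern_zero e0 ((le_div_iff₀ N0).2 (by linarith))]; simp
  have e5 : (#Z : ℝ) ≤ 2 * A + 1 + (B + B) := by
    have : (#Z : ℤ) ≤ 2 * A + 1 + (B + B) := by
      have z1 := card_union_le (Icc (-A) A) (Ioc (N : ℤ) (N + B) ∪ Ico (-(N + B) : ℤ) (-N))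
      have z2 := card_union_le (Ioc (N : ℤ) (N + B)) (Ico (-(N + B) : ℤ) (-N))
      rw [Int.card_Icc] at z1
      rw [Int.card_Ioc, Int.card_Ico] at z2
      simp only [Z]; omega
    exact_mod_cast this
  rw [e3, abs_div, abs_of_pos (show (0 : ℝ) < 2 * N by positivity), div_le_iff₀ (by positivity)]
  refine (abs_sum_le_sum_abs _ _).trans ((sum_le_sum fun u _ => e4 u).trans ?_)
  rw [← sum_filter, sum_const, nsmul_eq_mul, mul_one]
  have e6 : (#(filter (fun u => u ∈ Z) (Icc (-(2 * N : ℤ)) (2 * N))) : ℝ) ≤ #Z := by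
    exact_mod_cast card_le_card fun u hu => (mem_filter.1 hu).2
  have e7 : (3 * e + 3 / N) * (2 * N) = 6 * e * N + 6 := by field_simp; ring
  rw [e7]; linarith

theorem tau_st : TauSt := by
  intro S χ h0 h1 H
  let c : S → ℕ → ℝ := fun s N => (∑ u ∈ Icc (-(N : ℤ)) N, χ s u) / (2 * N)
  have key : ∀ ε > 0, ∃ δ : ℝ, ∀ s, ∀ᶠ N in atTop, |c s N - δ| < ε := by
    intro ε hε
    set e := min 1 (ε / 9) with he
    have e0 : 0 < e := lt_min one_pos (by positivity)
    obtain ⟨δ, hδ⟩ := H _ _ _ (kern_ker e0 (min_le_left _ _))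
    refine ⟨δ / 2, fun s => ?_⟩
    have t1 := ((hδ s).comp (Real.tendsto_log_atTop.comp tendsto_natCast_atTop_atTop))
    have t2 := (tendsto_const_div_atTop_nhds_zero_nat (3 : ℝ)).eventually
      (gt_mem_nhds (show (0 : ℝ) < ε / 3 by positivity))
    filter_upwards [Metric.tendsto_nhds.1 t1 (ε / 3) (by positivity), t2, eventually_gt_atTop 0]
      with N a1 a2 a3
    have N0 : (0 : ℝ) < N := by exact_mod_cast a3
    simp only [Function.comp, Real.exp_log N0, Real.dist_eq] at a1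
    have a4 := abs_le.1 (squeeze (χ s) (h0 s) (h1 s) e0 (min_le_left _ _) N a3)
    have a5 : e ≤ ε / 9 := min_le_right _ _
    have a6 := abs_lt.1 a1
    simp only [c]
    exact abs_lt.2 ⟨by linarith [a4.2, a6.1], by linarith [a4.1, a6.2]⟩
  rcases isEmpty_or_nonempty S with hS | ⟨⟨s0⟩⟩
  · exact ⟨0, fun s => hS.elim s⟩
  have cau : CauchySeq (c s0) := by
    refine Metric.cauchySeq_iff.2 fun ε hε => ?_
    obtain ⟨δ, hδ⟩ := key (ε / 2) (by positivity)
    obtain ⟨N, hN⟩ := eventually_atTop.1 (hδ s0)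
    refine ⟨N, fun m hm n hn => ?_⟩
    have a1 := abs_lt.1 (hN m hm)
    have a2 := abs_lt.1 (hN n hn)
    rw [Real.dist_eq]
    exact abs_lt.2 ⟨by linarith [a1.1, a2.2], by linarith [a1.2, a2.1]⟩
  obtain ⟨δ, hδ⟩ := cauchySeq_tendsto_of_complete cau
  refine ⟨δ, fun s => Metric.tendsto_nhds.2 fun ε hε => ?_⟩
  obtain ⟨δ', hδ'⟩ := key (ε / 3) (by positivity)
  filter_upwards [hδ' s, hδ' s0, Metric.tendsto_nhds.1 hδ (ε / 3) (by positivity)] with N a1 a2 a3
  rw [Real.dist_eq] at a3 ⊢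
  have b1 := abs_lt.1 a1
  have b2 := abs_lt.1 a2
  have b3 := abs_lt.1 a3
  exact abs_lt.2 ⟨by linarith [b1.1, b2.2, b3.1], by linarith [b1.2, b2.1, b3.2]⟩

end Pool.Agent.Lib.MP_39d40e_nt.Bd
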