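import Pool.Agent.Lib.MP_39d40e_nt.BdE
import Pool.Agent.Lib.MP_39d40e_nt.BdL
import Pool.Agent.Lib.MP_39d40e_nt.BdT
import Pool.Agent.Lib.MP_39d40e_nt.BdG
import Pool.Agent.Lib.MP_39d40e_nt.BdH
import Pool.Agent.Lib.MP_39d40e_nt.BdD

/-! Density of invariant sets: assembly. -/

namespace Pool.Agent.Lib.MP_39d40e_nt.Bd

theorem main_st : MainSt := main_of (harm_st push_st) (grp_st lip_st tau_st)

theorem leigh_all : LeighSt := leigh_st main_st

end Pool.Agent.Lib.MP_39d40e_nt.Bd
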