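import Pool.Agent.Lib.MP_39d40e_nt.Anti

namespace Pool.Agent.Lib.MP_39d40e_nt

open Finset

namespace Sys

variable {S E : Type*} [Fintype S] [Fintype E] [DecidableEq S] (X : Sys S E)

/-- inverse of the divisor of a path modulo `Q` -/
def iD (Q : ℕ) (l : List E) : ZMod Q := (X.DP l : ZMod Q)⁻¹

/-- action of a path on frequencies -/
def act {Q : ℕ} (l : List E) (a : ZMod Q) : ZMod Q := (X.bP l : ZMod Q) * X.iD Q l * a

def kap : ℕ := X.d + X.B0

/-- frequencies close to zero -/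
def Black {Q : ℕ} (a : ZMod Q) : Prop := ∃ y : ℤ, (y : ZMod Q) = a ∧ (X.kap : ℤ) * |y| < Q

open Classical in
/-- number of visits to `P` along a path -/
noncomputable def cnt {Q : ℕ} (P : ZMod Q → Prop) : ZMod Q → List E → ℕ
  | _, [] => 0
  | a, e :: l => (if P a then 1 else 0) + cnt P (X.act [e] a) l

/-- small numbers that, after leaving their run, enter a run with a high power of `p` -/
def Bad (Q j v p : ℕ) (y : ℤ) : Prop :=
  (X.kap : ℤ) * |y| < Q ∧ ∃ (e : E) (m : List E), m.length = j ∧ ¬ (X.D e : ℤ) ∣ y ∧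
    ∃ y' : ℤ, (X.kap : ℤ) * |y'| < Q ∧ (y' : ZMod Q) = X.act (e :: m) (y : ZMod Q) ∧
      (p : ℤ) ^ v ∣ y'

variable {X} {Q : ℕ}

theorem DP_mul_iD (hQ : X.d.Coprime Q) (l : List E) : (X.DP l : ZMod Q) * X.iD Q l = 1 :=
  ZMod.coe_mul_inv_eq_one _ (Nat.Coprime.coprime_dvd_left (X.DP_dvd l) (hQ.pow_left _))

theorem iD_append (hQ : X.d.Coprime Q) (o i : List E) :
    X.iD Q (o ++ i) = X.iD Q o * X.iD Q i := by
  have h1 := DP_mul_iD hQ o
  have h2 := DP_mul_iD hQ i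
  have h3 := DP_mul_iD hQ (o ++ i)
  rw [DP_append, Nat.cast_mul] at h3
  linear_combination (X.iD Q o * X.iD Q i) * h3 -
    X.iD Q (o ++ i) * (X.DP i * X.iD Q i) * h1 - X.iD Q (o ++ i) * h2

@[simp] theorem act_nil (a : ZMod Q) : X.act [] a = a := by simp [act, iD]

theorem act_append (hQ : X.d.Coprime Q) (o i : List E) (a : ZMod Q) :
    X.act (o ++ i) a = X.act i (X.act o a) := by
  simp only [act, iD_append hQ, bP_append]; push_cast; ring

theorem act_cons (hQ : X.d.Coprime Q) (e : E) (l : List E) (a : ZMod Q) :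
    X.act (e :: l) a = X.act l (X.act [e] a) := act_append hQ [e] l a

theorem act_mul (l : List E) (x a : ZMod Q) : X.act l (x * a) = x * X.act l a := by
  simp only [act]; ring

theorem DP_mul_act (hQ : X.d.Coprime Q) (l : List E) (a : ZMod Q) :
    (X.DP l : ZMod Q) * X.act l a = X.bP l * a := by
  have := DP_mul_iD hQ l
  simp only [act]; linear_combination (X.bP l * a) * this

theorem eq_act (hQ : X.d.Coprime Q) {l : List E} {a x : ZMod Q}
    (h : (X.DP l : ZMod Q) * x = X.bP l * a) : x = X.act l a := by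
  have := DP_mul_iD hQ l
  simp only [act]; linear_combination X.iD Q l * h - x * this

theorem cnt_append (hQ : X.d.Coprime Q) (P : ZMod Q → Prop) (o i : List E) :
    ∀ a, X.cnt P a (o ++ i) = X.cnt P a o + X.cnt P (X.act o a) i := by
  induction o with
  | nil => intro a; simp [cnt]
  | cons e o ih => intro a; simp only [List.cons_append, cnt, ih, act_cons hQ e o, add_assoc]

theorem abs_b_le (e : E) : |X.b e| ≤ X.B0 :=
  Int.le_of_dvd (by exact_mod_cast X.B0_pos) ((abs_dvd _ _).2 (X.b_dvd_B0 e))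

theorem abs_bP_le (l : List E) : |X.bP l| ≤ (X.B0 : ℤ) ^ l.length :=
  Int.le_of_dvd (by have := X.B0_pos; positivity) ((abs_dvd _ _).2 (X.bP_dvd l))

theorem DP_le (l : List E) : X.DP l ≤ X.d ^ l.length :=
  Nat.le_of_dvd (pow_pos X.d_pos _) (X.DP_dvd l)

theorem black_step (hQ : X.d.Coprime Q) {a : ZMod Q} {y : ℤ} (hy : (y : ZMod Q) = a)
    (hb : (X.kap : ℤ) * |y| < Q) (e : E) {y' : ℤ} (hy' : (y' : ZMod Q) = X.act [e] a)
    (hb' : (X.kap : ℤ) * |y'| < Q) : X.D e * y' = X.b e * y := by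
  have h1 := DP_mul_act hQ [e] a
  rw [← hy', ← hy] at h1
  simp only [DP_cons, DP_nil, mul_one, bP_cons, bP_nil] at h1
  have h2 : (Q : ℤ) ∣ X.D e * y' - X.b e * y := by
    rw [← ZMod.intCast_zmod_eq_zero_iff_dvd]; push_cast; rw [h1, sub_self]
  refine sub_eq_zero.1 (Int.eq_zero_of_abs_lt_dvd h2 ?_)
  have h3 : |X.D e * y' - X.b e * y| ≤ X.d * |y'| + X.B0 * |y| := by
    refine (abs_sub _ _).trans (add_le_add ?_ ?_)
    · rw [abs_mul, Nat.abs_cast]
      exact mul_le_mul_of_nonneg_right (by exact_mod_cast Nat.le_of_dvd X.d_pos (X.D_dvd e))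
        (abs_nonneg _)
    · rw [abs_mul]; exact mul_le_mul_of_nonneg_right (abs_b_le e) (abs_nonneg _)
  simp only [kap, Nat.cast_add] at hb hb'
  have h4 : (0 : ℤ) ≤ X.d := Nat.cast_nonneg _
  have h5 : (0 : ℤ) ≤ X.B0 := Nat.cast_nonneg _
  rcases le_total |y| |y'| with h | h <;> nlinarith

theorem black_run (hQ : X.d.Coprime Q) (l : List E) : ∀ {a : ZMod Q} {y : ℤ}, (y : ZMod Q) = a →
    (X.kap : ℤ) * |y| < Q → X.cnt (fun a => ¬ X.Black a) a l = 0 → X.Black (X.act l a) →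
    (X.DP l : ℤ) ∣ y := by
  induction l with
  | nil => intros; simp
  | cons e l ih =>
    intro a y hy hb hc hB
    rw [cnt] at hc
    have hc' : X.cnt (fun a => ¬ X.Black a) (X.act [e] a) l = 0 := by omega
    rw [act_cons hQ] at hB
    have hB' : X.Black (X.act [e] a) := by
      cases l with
      | nil => simpa using hB
      | cons e' l =>
        rw [cnt] at hc'
        by_contra hn
        rw [if_pos hn] at hc'; omega
    obtain ⟨y', hy', hb'⟩ := hB'
    have h1 := black_step hQ hy hb e hy' hb'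
    obtain ⟨t, ht⟩ := ih hy' hb' hc' hB
    have h2 : (X.DP (e :: l) : ℤ) ∣ X.b e * y :=
      ⟨t, by rw [← h1, ht, DP_cons]; push_cast; ring⟩
    have hc : IsCoprime (X.DP (e :: l) : ℤ) (X.b e) := by
      simpa using (X.bP_cop_DP [e] (e :: l)).symm
    exact hc.dvd_of_dvd_mul_left h2

theorem black_run' (hQ : X.d.Coprime Q) (l : List E) (e : E) {a : ZMod Q}
    (hc : X.cnt (fun a => ¬ X.Black a) a (l ++ [e]) = 0) :
    ∃ y : ℤ, (y : ZMod Q) = a ∧ (X.kap : ℤ) * |y| < Q ∧ (X.DP l : ℤ) ∣ y := by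
  have hB : X.Black a := by
    by_contra hn
    cases l with
    | nil => simp [cnt, hn] at hc
    | cons e' l => simp [cnt, hn] at hc
  obtain ⟨y, hy, hb⟩ := hB
  rw [cnt_append hQ] at hc
  refine ⟨y, hy, hb, black_run hQ l hy hb (by omega) ?_⟩
  by_contra hn
  simp [cnt, hn] at hc

theorem bad_eq (hQ : X.d.Coprime Q) {j v p : ℕ} {y : ℤ} (h : X.Bad Q j v p y) :
    ∃ M c : ℤ, M ≠ 0 ∧ c ≠ 0 ∧ |M| ≤ (X.kap : ℤ) ^ (j + 1) ∧ |c| ≤ (X.kap : ℤ) ^ (j + 1) ∧
      (p : ℤ) ^ v ∣ M * y + c * Q := by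
  obtain ⟨hb, e, m, hm, hnd, y', hb', hy', hp⟩ := h
  have h1 := DP_mul_act hQ (e :: m) (y : ZMod Q)
  rw [← hy'] at h1
  have h2 : (Q : ℤ) ∣ X.DP (e :: m) * y' - X.bP (e :: m) * y := by
    rw [← ZMod.intCast_zmod_eq_zero_iff_dvd]; push_cast; rw [h1, sub_self]
  obtain ⟨c, hc⟩ := h2
  have hlen : (e :: m).length = j + 1 := by simp [hm]
  have hM := abs_bP_le (X := X) (e :: m)
  have hD : (X.DP (e :: m) : ℤ) ≤ (X.d : ℤ) ^ (j + 1) := by
    have := DP_le (X := X) (e :: m)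
    rw [hlen] at this; exact_mod_cast this
  rw [hlen] at hM
  have h4 : (0 : ℤ) < X.d := by exact_mod_cast X.d_pos
  have h5 : (0 : ℤ) < X.B0 := by exact_mod_cast X.B0_pos
  have hk : (X.d : ℤ) ^ (j + 1) + (X.B0 : ℤ) ^ (j + 1) ≤ (X.kap : ℤ) ^ (j + 1) := by
    simp only [kap, Nat.cast_add]
    exact pow_add_pow_le h4.le h5.le (Nat.succ_ne_zero j)
  have hk1 : (1 : ℤ) ≤ X.kap := by simp only [kap, Nat.cast_add]; omega
  refine ⟨X.bP (e :: m), c, X.bP_ne _, ?_, by linarith [pow_pos h4 (j + 1)], ?_, ?_⟩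
  · rintro rfl
    apply hnd
    have h3 : (X.D e : ℤ) ∣ X.bP (e :: m) * y :=
      ⟨X.DP m * y', by rw [DP_cons] at hc; push_cast at hc; linear_combination -hc⟩
    have hc : IsCoprime (X.D e : ℤ) (X.bP (e :: m)) := by
      simpa using (X.bP_cop_DP (e :: m) [e]).symm
    exact hc.dvd_of_dvd_mul_left h3
  · have hy1 : |y| < Q := by nlinarith [abs_nonneg y]
    have hy2 : |y'| < Q := by nlinarith [abs_nonneg y']
    have hQ0 : (0 : ℤ) < Q := (abs_nonneg _).trans_lt hy1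
    have h6 : Q * |c| ≤ (X.d : ℤ) ^ (j + 1) * Q + (X.B0 : ℤ) ^ (j + 1) * Q := by
      have : (Q : ℤ) * |c| = |X.DP (e :: m) * y' - X.bP (e :: m) * y| := by
        rw [hc, abs_mul, Nat.abs_cast]
      rw [this]
      refine (abs_sub _ _).trans (add_le_add ?_ ?_)
      · rw [abs_mul, Nat.abs_cast]
        exact mul_le_mul hD hy2.le (abs_nonneg _) (by positivity)
      · rw [abs_mul]; exact mul_le_mul hM hy1.le (abs_nonneg _) (by positivity)
    refine le_trans (le_of_mul_le_mul_left ?_ hQ0) hk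
    linarith
  · have : X.bP (e :: m) * y + c * Q = X.DP (e :: m) * y' := by linear_combination -hc
    rw [this]; exact hp.mul_left _

/-- separation of bad points along a geometric progression -/
theorem bad_sep (hQ : X.d.Coprime Q) {j v p : ℕ} (hp : p.Prime) (hpd : p ∣ X.d) {γ : ℚ}
    (hγ : |γ| ≠ 1) (hγ0 : γ ≠ 0) {k : ℕ} (hk1 : (X.kap ^ (j + 1)) ^ 2 < 2 ^ k)
    (hk2 : 2 * (X.kap ^ (j + 1)) ^ 3 * (γ.num.natAbs + γ.den) ^ k < 2 ^ v) {y y' : ℤ}
    (h : X.Bad Q j v p y) (h' : X.Bad Q j v p y') (hyy : (y' : ℚ) = y * γ ^ k) : False := by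
  obtain ⟨M, c, hM0, hc0, hM, hc, hd⟩ := bad_eq hQ h
  obtain ⟨M', c', hM0', hc0', hM', hc', hd'⟩ := bad_eq hQ h'
  set K : ℤ := (X.kap : ℤ) ^ (j + 1) with hK
  set n := γ.num with hn
  set m : ℤ := (γ.den : ℤ) with hm
  have hm0 : 0 < m := by rw [hm]; exact_mod_cast γ.den_pos
  have hn0 : n ≠ 0 := Rat.num_ne_zero.2 hγ0
  have hrel : y' * m ^ k = y * n ^ k := by
    have h1 : γ * (m : ℚ) = n := by rw [hm, hn]; exact_mod_cast Rat.mul_den_eq_num γ
    have : (y' : ℚ) * (m : ℚ) ^ k = y * (n : ℚ) ^ k := by rw [hyy, ← h1, mul_pow]; ring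
    exact_mod_cast this
  have hcop : IsCoprime n m := by
    rw [hn, hm, Int.isCoprime_iff_gcd_eq_one]
    exact γ.reduced
  set Z : ℤ := M' * c * n ^ k - M * c' * m ^ k with hZ
  have h1 : (p : ℤ) ^ v ∣ y * Z := by
    have : y * Z = (M' * y' + c' * Q) * (m ^ k * c) - (M * y + c * Q) * (c' * m ^ k) := by
      rw [hZ]; linear_combination (-M' * c) * hrel
    rw [this]; exact dvd_sub (hd'.mul_right _) (hd.mul_right _)
  have h2 : (p : ℤ) ^ v ∣ Q * (c * Z) := by
    have : Q * (c * Z) = (M * y + c * Q) * Z - M * (y * Z) := by ring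
    rw [this]; exact dvd_sub (hd.mul_right _) (h1.mul_left _)
  have hpQ : IsCoprime ((p : ℤ) ^ v) Q :=
    (Nat.isCoprime_iff_coprime.2 (Nat.Coprime.coprime_dvd_left hpd hQ)).pow_left
  have h3 := hpQ.dvd_of_dvd_mul_left h2
  have hK0 : 0 ≤ K := by positivity
  by_cases hZ0 : Z = 0
  · have h4 : M' * c * n ^ k = M * c' * m ^ k := sub_eq_zero.1 hZ0
    have hck : IsCoprime (n ^ k) (m ^ k) := hcop.pow
    have h5 : n ^ k ∣ M * c' := hck.dvd_of_dvd_mul_right ⟨M' * c, by rw [← h4]; ring⟩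
    have h6 : m ^ k ∣ M' * c := hck.symm.dvd_of_dvd_mul_right ⟨M * c', by rw [h4]; ring⟩
    have h7 : |n| ^ k ≤ K ^ 2 := by
      have := Int.le_of_dvd (abs_pos.2 (mul_ne_zero hM0 hc0')) ((abs_dvd_abs _ _).2 h5)
      rw [abs_pow, abs_mul] at this
      nlinarith [mul_le_mul hM hc' (abs_nonneg _) hK0]
    have h8 : m ^ k ≤ K ^ 2 := by
      have := Int.le_of_dvd (abs_pos.2 (mul_ne_zero hM0' hc0)) ((dvd_abs _ _).2 h6)
      rw [abs_mul] at this
      nlinarith [mul_le_mul hM' hc (abs_nonneg _) hK0]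
    have h9 : K ^ 2 < 2 ^ k := by rw [hK]; exact_mod_cast hk1
    have h10 : |n| < 2 := lt_of_pow_lt_pow_left₀ k (by norm_num) (h7.trans_lt h9)
    have h11 : m < 2 := lt_of_pow_lt_pow_left₀ k (by norm_num) (h8.trans_lt h9)
    have h12 : |n| = 1 := by have := abs_pos.2 hn0; omega
    have h13 : m = 1 := by omega
    apply hγ
    have : γ = n / m := by rw [hn, hm]; exact_mod_cast (Rat.num_div_den γ).symm
    rw [this, h13]; push_cast; rw [div_one]; exact_mod_cast h12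
  · have h4 := Int.le_of_dvd (abs_pos.2 (mul_ne_zero hc0 hZ0)) ((dvd_abs _ _).2 h3)
    set T : ℤ := (|n| + m) ^ k with hT
    have hT1 : |n| ^ k ≤ T := pow_le_pow_left₀ (abs_nonneg _) (by linarith) k
    have hT2 : m ^ k ≤ T := pow_le_pow_left₀ hm0.le (by linarith [abs_nonneg n]) k
    have h5 : |Z| ≤ K * K * T + K * K * T := by
      refine (abs_sub _ _).trans (add_le_add ?_ ?_)
      · rw [abs_mul, abs_mul, abs_pow]
        exact mul_le_mul (mul_le_mul hM' hc (abs_nonneg _) hK0) hT1 (by positivity)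
          (by positivity)
      · rw [abs_mul, abs_mul, abs_pow, abs_of_pos hm0]
        exact mul_le_mul (mul_le_mul hM hc' (abs_nonneg _) hK0) hT2 (by positivity)
          (by positivity)
    have h6 : |c * Z| ≤ 2 * K ^ 3 * T := by
      rw [abs_mul]
      have := mul_le_mul hc h5 (abs_nonneg _) hK0
      linarith
    have h7 : 2 * K ^ 3 * T < 2 ^ v := by
      have : ((2 * (X.kap ^ (j + 1)) ^ 3 * (γ.num.natAbs + γ.den) ^ k : ℕ) : ℤ) < (2 ^ v : ℕ) := by
        exact_mod_cast hk2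
      push_cast at this
      exact this
    have h8 : (2 : ℤ) ^ v ≤ (p : ℤ) ^ v :=
      pow_le_pow_left₀ (by norm_num) (by exact_mod_cast hp.two_le) v
    linarith

end Sys

end Pool.Agent.Lib.MP_39d40e_nt
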