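import Pool.Agent.Lib.MP_39d40e_nt.Sys

namespace Pool.Agent.Lib.MP_39d40e_nt

open Finset

namespace Sys

variable {S E : Type*} [Fintype S] [Fintype E] [DecidableEq S] [DecidableEq E] (X : Sys S E)

omit [DecidableEq E] in
theorem D_pos (e : E) : 0 < X.D e := Nat.pos_of_dvd_of_pos (X.D_dvd e) X.d_pos

omit [DecidableEq E] in
theorem q_pos (e : E) : 0 < X.q e := by
  have := X.π_pos (X.src e)
  have := X.π_pos (X.tgt e)
  have : (0 : ℝ) < X.D e := by exact_mod_cast X.D_pos e
  unfold q; positivity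

omit [DecidableEq E] in
@[simp] theorem mem_into {s : S} {e : E} : e ∈ X.into s ↔ X.tgt e = s := by simp [into]

omit [DecidableEq E] in
theorem sum_q (s : S) : ∑ e ∈ X.into s, X.q e = 1 := by
  have h := X.stat s
  have hp := X.π_pos s
  have : ∑ e ∈ X.into s, X.q e = (∑ e with X.tgt e = s, X.π (X.src e) / X.D e) / X.π s := by
    rw [Finset.sum_div]
    refine Finset.sum_congr rfl fun e he => ?_
    have : X.tgt e = s := by simpa using he
    rw [q, this, div_div]
  rw [this, h, div_self hp.ne']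

@[simp] theorem Paths_zero (s : S) : X.Paths 0 s = {[]} := rfl

theorem mem_Paths_succ {n : ℕ} {s : S} {l : List E} :
    l ∈ X.Paths (n + 1) s ↔ ∃ e l', l = e :: l' ∧ X.tgt e = s ∧ l' ∈ X.Paths n (X.src e) := by
  simp only [Paths, mem_biUnion, mem_image, mem_into]
  constructor
  · rintro ⟨e, he, l', hl', rfl⟩
    exact ⟨e, l', rfl, he, hl'⟩
  · rintro ⟨e, l', rfl, he, hl'⟩
    exact ⟨e, he, l', hl', rfl⟩

theorem cons_mem_Paths {n : ℕ} {s : S} {e : E} {l : List E} :
    e :: l ∈ X.Paths (n + 1) s ↔ X.tgt e = s ∧ l ∈ X.Paths n (X.src e) := by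
  rw [mem_Paths_succ]
  constructor
  · rintro ⟨e', l', h, he, hl⟩
    obtain ⟨rfl, rfl⟩ := List.cons.inj h
    exact ⟨he, hl⟩
  · rintro ⟨he, hl⟩
    exact ⟨e, l, rfl, he, hl⟩

theorem length_of_mem_Paths {n : ℕ} : ∀ {s : S} {l : List E}, l ∈ X.Paths n s → l.length = n := by
  induction n with
  | zero => intro s l h; simp at h; simp [h]
  | succ n ih =>
    intro s l h
    obtain ⟨e, l', rfl, -, hl⟩ := X.mem_Paths_succ.1 h
    simp [ih hl]

theorem sum_Paths_succ {M : Type*} [AddCommMonoid M] (n : ℕ) (s : S) (F : List E → M) :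
    ∑ l ∈ X.Paths (n + 1) s, F l = ∑ e ∈ X.into s, ∑ l ∈ X.Paths n (X.src e), F (e :: l) := by
  rw [Paths, Finset.sum_biUnion]
  · refine Finset.sum_congr rfl fun e _ => ?_
    rw [Finset.sum_image]
    intro a _ b _ h
    exact (List.cons.inj h).2
  · intro e _ e' _ hne
    simp only [Function.onFun, Finset.disjoint_left, mem_image]
    rintro l ⟨a, -, rfl⟩ ⟨b, -, h⟩
    exact hne (List.cons.inj h).1.symm

omit [DecidableEq E] in
@[simp] theorem endp_nil (s : S) : X.endp s [] = s := rfl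
omit [DecidableEq E] in
@[simp] theorem endp_cons (s : S) (e : E) (l : List E) : X.endp s (e :: l) = X.endp (X.src e) l := rfl
omit [DecidableEq E] in
theorem endp_append (o i : List E) : ∀ s, X.endp s (o ++ i) = X.endp (X.endp s o) i := by
  induction o with
  | nil => intro s; rfl
  | cons e o ih => intro s; simp [ih]

omit [DecidableEq E] in
@[simp] theorem wt_nil : X.wt [] = 1 := rfl
omit [DecidableEq E] in
@[simp] theorem wt_cons (e : E) (l : List E) : X.wt (e :: l) = X.q e * X.wt l := by simp [wt]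
omit [DecidableEq E] in
theorem wt_append (o i : List E) : X.wt (o ++ i) = X.wt o * X.wt i := by simp [wt]
omit [DecidableEq E] in
@[simp] theorem bP_nil : X.bP [] = 1 := rfl
omit [DecidableEq E] in
@[simp] theorem bP_cons (e : E) (l : List E) : X.bP (e :: l) = X.b e * X.bP l := by simp [bP]
omit [DecidableEq E] in
theorem bP_append (o i : List E) : X.bP (o ++ i) = X.bP o * X.bP i := by simp [bP]
omit [DecidableEq E] in
@[simp] theorem DP_nil : X.DP [] = 1 := rfl
omit [DecidableEq E] in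
@[simp] theorem DP_cons (e : E) (l : List E) : X.DP (e :: l) = X.D e * X.DP l := by simp [DP]
omit [DecidableEq E] in
theorem DP_append (o i : List E) : X.DP (o ++ i) = X.DP o * X.DP i := by simp [DP]
omit [DecidableEq E] in
@[simp] theorem cP_nil : X.cP [] = 0 := rfl
omit [DecidableEq E] in
@[simp] theorem cP_cons (e : E) (l : List E) :
    X.cP (e :: l) = X.b e * X.cP l + X.c e * X.DP l := rfl
omit [DecidableEq E] in
theorem cP_append (o i : List E) :
    X.cP (o ++ i) = X.bP o * X.cP i + X.cP o * X.DP i := by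
  induction o with
  | nil => simp
  | cons e o ih => simp [ih, DP_append]; ring
omit [DecidableEq E] in
@[simp] theorem rP_nil : X.rP [] = 1 := by simp [rP]
omit [DecidableEq E] in
theorem rP_append (o i : List E) : X.rP (o ++ i) = X.rP o * X.rP i := by
  simp [rP, bP_append, DP_append, div_mul_div_comm]

omit [DecidableEq E] in
theorem wt_pos (l : List E) : 0 < X.wt l := by
  induction l with
  | nil => simp
  | cons e l ih => rw [wt_cons]; exact mul_pos (X.q_pos e) ih

omit [DecidableEq E] in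
theorem bP_ne (l : List E) : X.bP l ≠ 0 := by
  induction l with
  | nil => simp
  | cons e l ih => rw [bP_cons]; exact mul_ne_zero (X.b_ne e) ih

omit [DecidableEq E] in
theorem DP_pos (l : List E) : 0 < X.DP l := by
  induction l with
  | nil => simp
  | cons e l ih => rw [DP_cons]; exact Nat.mul_pos (X.D_pos e) ih

omit [DecidableEq E] in
theorem DP_dvd (l : List E) : X.DP l ∣ X.d ^ l.length := by
  induction l with
  | nil => simp
  | cons e l ih => rw [DP_cons, List.length_cons, pow_succ']; exact Nat.mul_dvd_mul (X.D_dvd e) ih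

omit [DecidableEq E] in
theorem bP_cop (l : List E) : IsCoprime (X.bP l) (X.d : ℤ) := by
  induction l with
  | nil => simpa using isCoprime_one_left
  | cons e l ih => rw [bP_cons]; exact (X.cop e).mul_left ih

omit [DecidableEq E] in
theorem bP_cop_DP (l l' : List E) : IsCoprime (X.bP l) (X.DP l' : ℤ) := by
  have h : IsCoprime (X.bP l) ((X.d : ℤ) ^ l'.length) := (X.bP_cop l).pow_right
  exact h.of_isCoprime_of_dvd_right (by exact_mod_cast X.DP_dvd l')

omit [DecidableEq E] in
theorem B0_pos : 0 < X.B0 :=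
  Finset.prod_pos fun e _ => Int.natAbs_pos.2 (X.b_ne e)

omit [DecidableEq E] in
theorem b_dvd_B0 (e : E) : X.b e ∣ (X.B0 : ℤ) := by
  rw [← Int.natAbs_dvd]
  exact_mod_cast Finset.dvd_prod_of_mem (fun e => (X.b e).natAbs) (mem_univ e)

omit [DecidableEq E] in
theorem bP_dvd (l : List E) : X.bP l ∣ (X.B0 : ℤ) ^ l.length := by
  induction l with
  | nil => simp
  | cons e l ih => rw [bP_cons, List.length_cons, pow_succ']; exact mul_dvd_mul (X.b_dvd_B0 e) ih

omit [DecidableEq E] in
theorem B0_cop : IsCoprime (X.B0 : ℤ) (X.d : ℤ) := by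
  rw [B0]; push_cast
  refine IsCoprime.prod_left fun e _ => ?_
  rcases abs_choice (X.b e) with h | h <;> rw [h]
  · exact X.cop e
  · exact (X.cop e).neg_left

theorem append_mem_Paths {m n : ℕ} : ∀ {s : S} {o i : List E}, o ∈ X.Paths m s →
    i ∈ X.Paths n (X.endp s o) → o ++ i ∈ X.Paths (m + n) s := by
  induction m with
  | zero => intro s o i ho hi; simp at ho; subst ho; simpa using hi
  | succ m ih =>
    intro s o i ho hi
    obtain ⟨e, o', rfl, he, ho'⟩ := X.mem_Paths_succ.1 ho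
    rw [Nat.add_right_comm, List.cons_append, cons_mem_Paths]
    exact ⟨he, ih ho' hi⟩

theorem sum_Paths_add {M : Type*} [AddCommMonoid M] (m n : ℕ) : ∀ (s : S) (F : List E → M),
    ∑ l ∈ X.Paths (m + n) s, F l =
      ∑ o ∈ X.Paths m s, ∑ i ∈ X.Paths n (X.endp s o), F (o ++ i) := by
  induction m with
  | zero => intro s F; simp
  | succ m ih =>
    intro s F
    rw [Nat.add_right_comm, sum_Paths_succ, sum_Paths_succ]
    refine Finset.sum_congr rfl fun e _ => ?_
    rw [ih]; simp

theorem wt_eq {n : ℕ} : ∀ {s : S} {l : List E}, l ∈ X.Paths n s →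
    X.wt l = X.π (X.endp s l) / (X.DP l * X.π s) := by
  induction n with
  | zero => intro s l h; simp at h; subst h; simp [(X.π_pos s).ne']
  | succ n ih =>
    intro s l h
    obtain ⟨e, l', rfl, he, hl⟩ := X.mem_Paths_succ.1 h
    have h1 := (X.π_pos (X.src e)).ne'
    have h2 := (X.π_pos s).ne'
    have h3 : (X.D e : ℝ) ≠ 0 := by exact_mod_cast (X.D_pos e).ne'
    have h4 : (X.DP l' : ℝ) ≠ 0 := by exact_mod_cast (X.DP_pos l').ne'
    rw [wt_cons, ih hl, q, he, DP_cons, endp_cons]; push_cast; field_simp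

/-- two backward paths of the same length with the same starting state that are both followed by
the integer `u` coincide -/
theorem path_unique {n : ℕ} : ∀ {s s' : S} {l l' : List E} {u : ℤ}, l ∈ X.Paths n s →
    l' ∈ X.Paths n s' → X.endp s l = X.endp s' l' → (X.DP l : ℤ) ∣ X.bP l * u + X.cP l →
    (X.DP l' : ℤ) ∣ X.bP l' * u + X.cP l' → l = l' ∧ s = s' := by
  induction n with
  | zero =>
    intro s s' l l' u h h' he _ _
    simp at h h'; subst h h'; exact ⟨rfl, he⟩
  | succ n ih =>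
    intro s s' l l' u h h' he hd hd'
    obtain ⟨e, l, rfl, hte, hl⟩ := X.mem_Paths_succ.1 h
    obtain ⟨e', l', rfl, hte', hl'⟩ := X.mem_Paths_succ.1 h'
    have key : ∀ (e : E) (l : List E), (X.DP (e :: l) : ℤ) ∣ X.bP (e :: l) * u + X.cP (e :: l) →
        ∃ v : ℤ, X.bP l * u + X.cP l = X.DP l * v ∧ (X.D e : ℤ) ∣ X.b e * v + X.c e := by
      intro e l hd
      rw [DP_cons, bP_cons, cP_cons] at hd
      push_cast at hd
      have h1 : (X.DP l : ℤ) ∣ X.b e * (X.bP l * u + X.cP l) := by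
        have := (Dvd.intro_left _ rfl : (X.DP l : ℤ) ∣ X.D e * X.DP l).trans hd
        have h2 : X.b e * (X.bP l * u + X.cP l) =
          X.b e * X.bP l * u + (X.b e * X.cP l + X.c e * X.DP l) - X.c e * X.DP l := by ring
        rw [h2]; exact dvd_sub this (Dvd.intro_left _ rfl)
      have hc : IsCoprime (X.DP l : ℤ) (X.b e) := by
        simpa using (X.bP_cop_DP [e] l).symm
      obtain ⟨v, hv⟩ := hc.dvd_of_dvd_mul_left h1
      refine ⟨v, hv, ?_⟩
      have h3 : X.b e * X.bP l * u + (X.b e * X.cP l + X.c e * X.DP l) =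
          (X.b e * v + X.c e) * X.DP l := by linear_combination X.b e * hv
      rw [h3] at hd
      exact Int.dvd_of_mul_dvd_mul_right (by exact_mod_cast (X.DP_pos l).ne') hd
    obtain ⟨v, hv, hdv⟩ := key e l hd
    obtain ⟨v', hv', hdv'⟩ := key e' l' hd'
    obtain ⟨rfl, hs⟩ := ih hl hl' he ⟨v, hv⟩ ⟨v', hv'⟩
    have hvv : v = v' := by
      have : (X.DP l : ℤ) ≠ 0 := by exact_mod_cast (X.DP_pos l).ne'
      exact mul_left_cancel₀ this (hv.symm.trans hv')
    subst hvv
    have hee : e = e' := (X.exu (X.src e) v).unique ⟨rfl, hdv⟩ ⟨hs.symm, hdv'⟩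
    subst hee
    exact ⟨rfl, hte.symm.trans hte'⟩

/-- same length, same start, same multiplier and divisor: the offset determines the path -/
theorem path_eq_of_cP {n : ℕ} {s : S} {l l' : List E} (h : l ∈ X.Paths n s)
    (h' : l' ∈ X.Paths n s) (he : X.endp s l = X.endp s l') (hb : X.bP l = X.bP l')
    (hD : X.DP l = X.DP l') (hc : X.cP l = X.cP l') : l = l' := by
  obtain ⟨x, y, hxy⟩ := X.bP_cop_DP l l
  have hd : (X.DP l : ℤ) ∣ X.bP l * (-x * X.cP l) + X.cP l :=
    ⟨y * X.cP l, by linear_combination (-X.cP l) * hxy⟩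
  exact (X.path_unique h h' he hd (by rw [← hb, ← hD, ← hc]; exact hd)).1

@[simp] theorem Ex_zero (s : S) (f : List E → ℝ) : X.Ex 0 s f = f [] := by simp [Ex]

theorem Ex_succ (n : ℕ) (s : S) (f : List E → ℝ) :
    X.Ex (n + 1) s f = ∑ e ∈ X.into s, X.q e * X.Ex n (X.src e) fun l => f (e :: l) := by
  simp only [Ex, sum_Paths_succ, Finset.mul_sum, wt_cons, mul_assoc]

theorem Ex_append (m n : ℕ) (s : S) (f : List E → ℝ) :
    X.Ex (m + n) s f = X.Ex m s fun o => X.Ex n (X.endp s o) fun i => f (o ++ i) := by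
  simp only [Ex, sum_Paths_add, Finset.mul_sum, wt_append, mul_assoc]

theorem Ex_mono {n : ℕ} {s : S} {f g : List E → ℝ} (h : ∀ l ∈ X.Paths n s, f l ≤ g l) :
    X.Ex n s f ≤ X.Ex n s g :=
  Finset.sum_le_sum fun l hl => mul_le_mul_of_nonneg_left (h l hl) (X.wt_pos l).le

theorem Ex_congr {n : ℕ} {s : S} {f g : List E → ℝ} (h : ∀ l ∈ X.Paths n s, f l = g l) :
    X.Ex n s f = X.Ex n s g :=
  Finset.sum_congr rfl fun l hl => by rw [h l hl]

theorem Ex_add (n : ℕ) (s : S) (f g : List E → ℝ) :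
    X.Ex n s (fun l => f l + g l) = X.Ex n s f + X.Ex n s g := by
  simp only [Ex, mul_add, Finset.sum_add_distrib]

theorem Ex_sub (n : ℕ) (s : S) (f g : List E → ℝ) :
    X.Ex n s (fun l => f l - g l) = X.Ex n s f - X.Ex n s g := by
  simp only [Ex, mul_sub, Finset.sum_sub_distrib]

theorem Ex_const_mul (n : ℕ) (s : S) (a : ℝ) (f : List E → ℝ) :
    X.Ex n s (fun l => a * f l) = a * X.Ex n s f := by
  simp only [Ex, Finset.mul_sum]
  exact Finset.sum_congr rfl fun l _ => by ring

theorem Ex_mul_const (n : ℕ) (s : S) (a : ℝ) (f : List E → ℝ) :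
    X.Ex n s (fun l => f l * a) = X.Ex n s f * a := by
  simp only [Ex, Finset.sum_mul, mul_assoc]

theorem Ex_sum {ι : Type*} (n : ℕ) (s : S) (I : Finset ι) (f : ι → List E → ℝ) :
    X.Ex n s (fun l => ∑ i ∈ I, f i l) = ∑ i ∈ I, X.Ex n s (f i) := by
  simp only [Ex, Finset.mul_sum]
  exact Finset.sum_comm

theorem Ex_const (n : ℕ) : ∀ (s : S) (a : ℝ), X.Ex n s (fun _ => a) = a := by
  induction n with
  | zero => intro s a; simp
  | succ n ih => intro s a; simp only [Ex_succ, ih, ← Finset.sum_mul, sum_q, one_mul]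

theorem Ex_nonneg {n : ℕ} {s : S} {f : List E → ℝ} (h : ∀ l ∈ X.Paths n s, 0 ≤ f l) :
    0 ≤ X.Ex n s f := by
  simpa [Ex_const] using X.Ex_mono (f := fun _ => 0) h

theorem Ex_le_const {n : ℕ} {s : S} {f : List E → ℝ} {a : ℝ} (h : ∀ l ∈ X.Paths n s, f l ≤ a) :
    X.Ex n s f ≤ a := by
  simpa [Ex_const] using X.Ex_mono (g := fun _ => a) h

theorem abs_Ex_le (n : ℕ) (s : S) (f : List E → ℝ) : |X.Ex n s f| ≤ X.Ex n s fun l => |f l| := by
  refine (Finset.abs_sum_le_sum_abs _ _).trans (le_of_eq ?_)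
  exact Finset.sum_congr rfl fun l _ => by rw [abs_mul, abs_of_pos (X.wt_pos l)]

/-- a function of the first `m` edges only -/
theorem Ex_take (m n : ℕ) (s : S) (f : List E → ℝ) :
    X.Ex (m + n) s (fun l => f (l.take m)) = X.Ex m s f := by
  rw [Ex_append]
  refine X.Ex_congr fun o ho => ?_
  have := X.length_of_mem_Paths ho
  simp only [List.take_left' this, Ex_const]

open Classical in
/-- probability of an event -/
noncomputable def Pr (n : ℕ) (s : S) (P : List E → Prop) : ℝ :=
  X.Ex n s fun l => if P l then 1 else 0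

theorem Pr_nonneg (n : ℕ) (s : S) (P : List E → Prop) : 0 ≤ X.Pr n s P :=
  X.Ex_nonneg fun l _ => by split_ifs <;> norm_num

theorem Pr_le_one (n : ℕ) (s : S) (P : List E → Prop) : X.Pr n s P ≤ 1 :=
  X.Ex_le_const fun l _ => by split_ifs <;> norm_num

theorem Pr_le_Ex {n : ℕ} {s : S} {P : List E → Prop} {f : List E → ℝ}
    (h0 : ∀ l ∈ X.Paths n s, 0 ≤ f l) (h1 : ∀ l ∈ X.Paths n s, P l → 1 ≤ f l) :
    X.Pr n s P ≤ X.Ex n s f :=
  X.Ex_mono fun l hl => by
    split_ifs with h
    · exact h1 l hl h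
    · exact h0 l hl

theorem Pr_mono {n : ℕ} {s : S} {P P' : List E → Prop} (h : ∀ l ∈ X.Paths n s, P l → P' l) :
    X.Pr n s P ≤ X.Pr n s P' :=
  X.Pr_le_Ex (fun l _ => by split_ifs <;> norm_num) fun l hl hP => by rw [if_pos (h l hl hP)]

theorem Pr_or (n : ℕ) (s : S) (P P' : List E → Prop) :
    X.Pr n s (fun l => P l ∨ P' l) ≤ X.Pr n s P + X.Pr n s P' := by
  rw [Pr, Pr, Pr, ← Ex_add]
  refine X.Ex_mono fun l _ => ?_
  by_cases h : P l <;> by_cases h' : P' l <;> simp [h, h']

theorem Pr_exists {ι : Type*} (n : ℕ) (s : S) (I : Finset ι) (P : ι → List E → Prop) :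
    X.Pr n s (fun l => ∃ i ∈ I, P i l) ≤ ∑ i ∈ I, X.Pr n s (P i) := by
  classical
  simp only [Pr]
  rw [← Ex_sum]
  refine X.Ex_mono fun l _ => ?_
  split_ifs with h
  · obtain ⟨i, hi, hP⟩ := h
    refine le_trans ?_ (Finset.single_le_sum (f := fun i => if P i l then (1 : ℝ) else 0)
      (fun j _ => by split_ifs <;> norm_num) hi)
    simp [hP]
  · exact Finset.sum_nonneg fun j _ => by split_ifs <;> norm_num

theorem Pr_take (m n : ℕ) (s : S) (P : List E → Prop) :
    X.Pr (m + n) s (fun l => P (l.take m)) = X.Pr m s P := by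
  classical
  unfold Pr
  exact X.Ex_take m n s fun l => if P l then 1 else 0

theorem Pr_take' {m n : ℕ} (h : m ≤ n) (s : S) (P : List E → Prop) :
    X.Pr n s (fun l => P (l.take m)) = X.Pr m s P := by
  obtain ⟨k, rfl⟩ := Nat.exists_eq_add_of_le h
  exact X.Pr_take m k s P

theorem exp_le_quad {x K : ℝ} (h : |x| ≤ K) : Real.exp x ≤ 1 + x + Real.exp K * x ^ 2 := by
  have h1 := Complex.norm_exp_sub_sum_le_norm_mul_exp (x : ℂ) 2
  have h2 : Complex.exp x - ∑ m ∈ range 2, (x : ℂ) ^ m / (m.factorial : ℂ) =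
      ((Real.exp x - 1 - x : ℝ) : ℂ) := by
    simp [Finset.sum_range_succ]; ring
  rw [h2, Complex.norm_real, Complex.norm_real, Real.norm_eq_abs, Real.norm_eq_abs, sq_abs] at h1
  have h3 : Real.exp |x| ≤ Real.exp K := Real.exp_le_exp.2 h
  have h4 := le_abs_self (Real.exp x - 1 - x)
  nlinarith [sq_nonneg x]

/-- exponential moment bound for additive functionals -/
theorem mgf {f : E → ℝ} (hf : X.Poisson f) : ∃ C : ℝ, 1 ≤ C ∧ ∀ t : ℝ, |t| ≤ 1 → ∀ (n : ℕ) (s : S),
    X.Ex n s (fun l => Real.exp (t * ((l.map f).sum - n * X.mean f))) ≤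
      C * Real.exp (C * t ^ 2 * n) := by
  obtain ⟨h, hh⟩ := hf
  set μ := X.mean f
  set ξ : E → ℝ := fun e => f e + h (X.src e) - h (X.tgt e) - μ with hξ
  set K : ℝ := ∑ e, |ξ e| with hK
  have hK0 : ∀ e, |ξ e| ≤ K := fun e =>
    Finset.single_le_sum (f := fun e => |ξ e|) (fun _ _ => abs_nonneg _) (mem_univ e)
  set H : ℝ := ∑ s, |h s| with hH
  have hH0 : ∀ s, |h s| ≤ H := fun s =>
    Finset.single_le_sum (f := fun s => |h s|) (fun _ _ => abs_nonneg _) (mem_univ s)
  have hKn : 0 ≤ K := Finset.sum_nonneg fun _ _ => abs_nonneg _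
  have hHn : 0 ≤ H := Finset.sum_nonneg fun _ _ => abs_nonneg _
  set C₁ : ℝ := Real.exp K * K ^ 2 with hC₁
  have hC₁n : 0 ≤ C₁ := by positivity
  have step : ∀ t : ℝ, |t| ≤ 1 → ∀ s, ∑ e ∈ X.into s, X.q e * Real.exp (t * ξ e) ≤
      Real.exp (C₁ * t ^ 2) := by
    intro t ht s
    have h0 : ∑ e ∈ X.into s, X.q e * ξ e = 0 := by
      have : ∑ e ∈ X.into s, X.q e * ξ e =
          ∑ e ∈ X.into s, (X.q e * (f e + h (X.src e)) - X.q e * (h s + μ)) := by
        refine Finset.sum_congr rfl fun e he => ?_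
        rw [hξ]; simp only; rw [X.mem_into.1 he]; ring
      rw [this, Finset.sum_sub_distrib, hh s, ← Finset.sum_mul, sum_q]; ring
    calc ∑ e ∈ X.into s, X.q e * Real.exp (t * ξ e)
        ≤ ∑ e ∈ X.into s, (X.q e * (1 + C₁ * t ^ 2) + t * (X.q e * ξ e)) := by
          refine Finset.sum_le_sum fun e _ => ?_
          have h1 : |t * ξ e| ≤ K := by
            rw [abs_mul]; nlinarith [hK0 e, abs_nonneg t, abs_nonneg (ξ e)]
          have h2 := exp_le_quad h1
          have h3 : (ξ e) ^ 2 ≤ K ^ 2 := by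
            rw [← sq_abs]; exact pow_le_pow_left₀ (abs_nonneg _) (hK0 e) 2
          have h4 : Real.exp K * (t * ξ e) ^ 2 ≤ C₁ * t ^ 2 := by
            rw [hC₁, mul_pow, mul_assoc]
            refine mul_le_mul_of_nonneg_left ?_ (Real.exp_pos K).le
            nlinarith [sq_nonneg t]
          have := X.q_pos e
          nlinarith
      _ = 1 + C₁ * t ^ 2 := by
          rw [Finset.sum_add_distrib, ← Finset.mul_sum, h0, ← Finset.sum_mul, sum_q]; ring
      _ ≤ _ := by linarith [Real.add_one_le_exp (C₁ * t ^ 2)]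
  have main : ∀ t : ℝ, |t| ≤ 1 → ∀ (n : ℕ) (s : S), X.Ex n s (fun l =>
      Real.exp (t * ((l.map f).sum - n * μ + h (X.endp s l) - h s))) ≤
        Real.exp (C₁ * t ^ 2 * n) := by
    intro t ht n
    induction n with
    | zero => intro s; simp
    | succ n ih =>
      intro s
      rw [Ex_succ]
      calc _ ≤ ∑ e ∈ X.into s, X.q e * Real.exp (t * ξ e) * Real.exp (C₁ * t ^ 2 * n) := by
            refine Finset.sum_le_sum fun e he => ?_
            rw [mul_assoc]
            refine mul_le_mul_of_nonneg_left ?_ (X.q_pos e).le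
            refine le_trans (le_of_eq ?_)
              (mul_le_mul_of_nonneg_left (ih (X.src e)) (Real.exp_pos _).le)
            rw [← Ex_const_mul]
            refine X.Ex_congr fun l _ => ?_
            rw [← Real.exp_add, hξ]
            simp only [List.map_cons, List.sum_cons, endp_cons, X.mem_into.1 he]
            congr 1; push_cast; ring
        _ ≤ Real.exp (C₁ * t ^ 2) * Real.exp (C₁ * t ^ 2 * n) := by
            rw [← Finset.sum_mul]
            exact mul_le_mul_of_nonneg_right (step t ht s) (Real.exp_pos _).le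
        _ = _ := by rw [← Real.exp_add]; congr 1; push_cast; ring
  refine ⟨Real.exp (2 * H) + C₁, by linarith [Real.add_one_le_exp (2 * H)], fun t ht n s => ?_⟩
  calc _ ≤ X.Ex n s (fun l => Real.exp (2 * H) *
        Real.exp (t * ((l.map f).sum - n * μ + h (X.endp s l) - h s))) := by
        refine X.Ex_mono fun l _ => ?_
        rw [← Real.exp_add, Real.exp_le_exp]
        have h1 : |t * (h (X.endp s l) - h s)| ≤ 2 * H := by
          rw [abs_mul]
          have := abs_sub (h (X.endp s l)) (h s)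
          nlinarith [hH0 (X.endp s l), hH0 s, abs_nonneg t, abs_nonneg (h (X.endp s l) - h s)]
        nlinarith [neg_abs_le (t * (h (X.endp s l) - h s))]
    _ ≤ Real.exp (2 * H) * Real.exp (C₁ * t ^ 2 * n) := by
        rw [Ex_const_mul]
        exact mul_le_mul_of_nonneg_left (main t ht n s) (Real.exp_pos _).le
    _ ≤ _ := by
        refine mul_le_mul (by linarith) (Real.exp_le_exp.2 ?_) (Real.exp_pos _).le
          (by positivity)
        have := Real.exp_pos (2 * H)
        have : 0 ≤ t ^ 2 * n := by positivity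
        nlinarith

/-- two-sided tail bound, all deviations -/
theorem tail {f : E → ℝ} (hf : X.Poisson f) : ∃ C : ℝ, 1 ≤ C ∧ ∀ t : ℝ, 0 ≤ t → t ≤ 1 →
    ∀ (n : ℕ) (s : S) (x : ℝ),
      X.Pr n s (fun l => x ≤ (l.map f).sum - n * X.mean f) ≤ C * Real.exp (C * t ^ 2 * n - t * x) ∧
      X.Pr n s (fun l => (l.map f).sum - n * X.mean f ≤ -x) ≤
        C * Real.exp (C * t ^ 2 * n - t * x) := by
  obtain ⟨C, hC, h⟩ := X.mgf hf
  refine ⟨C, hC, fun t h0 h1 n s x => ⟨?_, ?_⟩⟩
  · calc _ ≤ X.Ex n s (fun l => Real.exp (t * ((l.map f).sum - n * X.mean f)) *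
          Real.exp (-(t * x))) := by
          refine X.Pr_le_Ex (fun l _ => by positivity) fun l _ hl => ?_
          rw [← Real.exp_add]; exact Real.one_le_exp (by nlinarith)
      _ ≤ _ := by
          rw [Ex_mul_const, sub_eq_add_neg (C * _ * _), Real.exp_add, ← mul_assoc]
          exact mul_le_mul_of_nonneg_right (h t (by rwa [abs_of_nonneg h0]) n s)
            (Real.exp_pos _).le
  · calc _ ≤ X.Ex n s (fun l => Real.exp (-t * ((l.map f).sum - n * X.mean f)) *
          Real.exp (-(t * x))) := by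
          refine X.Pr_le_Ex (fun l _ => by positivity) fun l _ hl => ?_
          rw [← Real.exp_add]; exact Real.one_le_exp (by nlinarith)
      _ ≤ _ := by
          rw [Ex_mul_const, sub_eq_add_neg (C * _ * _), Real.exp_add, ← mul_assoc]
          have := h (-t) (by rwa [abs_neg, abs_of_nonneg h0]) n s
          rw [neg_sq] at this
          exact mul_le_mul_of_nonneg_right this (Real.exp_pos _).le

/-- linear deviations are exponentially unlikely -/
theorem tail_lin {f : E → ℝ} (hf : X.Poisson f) {ε : ℝ} (hε : 0 < ε) :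
    ∃ C c : ℝ, 1 ≤ C ∧ 0 < c ∧ ∀ (n : ℕ) (s : S),
      X.Pr n s (fun l => n * (X.mean f + ε) ≤ (l.map f).sum) ≤ C * Real.exp (-(c * n)) ∧
      X.Pr n s (fun l => (l.map f).sum ≤ n * (X.mean f - ε)) ≤ C * Real.exp (-(c * n)) := by
  obtain ⟨C, hC, h⟩ := X.tail hf
  set t : ℝ := min 1 (ε / (2 * C)) with ht
  have ht0 : 0 < t := lt_min one_pos (by positivity)
  have ht1 : t ≤ 1 := min_le_left _ _
  have ht2 : C * t ≤ ε / 2 := by
    have : t ≤ ε / (2 * C) := min_le_right _ _
    rw [le_div_iff₀ (by positivity)] at this; linarith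
  refine ⟨C, t * ε / 2, hC, by positivity, fun n s => ?_⟩
  obtain ⟨h1, h2⟩ := h t ht0.le ht1 n s (n * ε)
  have hb : C * Real.exp (C * t ^ 2 * n - t * (n * ε)) ≤ C * Real.exp (-(t * ε / 2 * n)) := by
    refine mul_le_mul_of_nonneg_left (Real.exp_le_exp.2 ?_) (by linarith)
    have : 0 ≤ t * n := by positivity
    nlinarith
  exact ⟨le_trans (X.Pr_mono fun l _ hl => by linarith) (h1.trans hb),
    le_trans (X.Pr_mono fun l _ hl => by linarith) (h2.trans hb)⟩

omit [DecidableEq E] in
theorem Addi.sum_map {φ : ℤ → ℕ → ℝ} (hφ : Addi φ) (l : List E) :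
    (l.map fun e => φ (X.b e) (X.D e)).sum = φ (X.bP l) (X.DP l) := by
  induction l with
  | nil =>
    have := hφ 1 1 1 1 one_ne_zero one_ne_zero one_ne_zero one_ne_zero
    simp at this; simp [this]
  | cons e l ih =>
    rw [List.map_cons, List.sum_cons, ih, bP_cons, DP_cons,
      hφ _ _ _ _ (X.b_ne e) (X.bP_ne l) (X.D_pos e).ne' (X.DP_pos l).ne']

end Sys

end Pool.Agent.Lib.MP_39d40e_nt
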