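import Pool.Agent.Lib.MP_39d40e_nt.White

namespace Pool.Agent.Lib.MP_39d40e_nt

open Finset

theorem dvd_pow_of_primes {g B j : ℕ} (hg : g ≠ 0) (hB : B ≠ 0)
    (h : ∀ p : ℕ, p.Prime → p ∣ g → p ∣ B) (hj : g ≤ j) : g ∣ B ^ j := by
  rw [← Nat.factorization_le_iff_dvd hg (pow_ne_zero _ hB)]
  intro p
  by_cases hp : g.factorization p = 0
  · simp [hp]
  · have h1 : p ∈ g.primeFactors := by
      rw [← Nat.support_factorization]; exact Finsupp.mem_support_iff.2 hp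
    have h2 := (Nat.prime_of_mem_primeFactors h1).factorization_pos_of_dvd hB
      (h p (Nat.prime_of_mem_primeFactors h1) (Nat.dvd_of_mem_primeFactors h1))
    have h3 := Nat.factorization_lt p hg
    simp only [Nat.factorization_pow, Finsupp.smul_apply, smul_eq_mul]
    nlinarith

theorem poly_exp_bdd (A : ℕ) {c : ℝ} (hc : 0 < c) :
    ∃ C : ℝ, 0 ≤ C ∧ ∀ m : ℕ, ((m : ℝ) + 1) ^ A * Real.exp (-(c * m)) ≤ C := by
  refine ⟨A.factorial * Real.exp c / c ^ A, by positivity, fun m => ?_⟩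
  have h := Real.pow_div_factorial_le_exp (c * (m + 1)) (by positivity) A
  rw [div_le_iff₀ (by positivity), mul_pow, mul_add, mul_one, Real.exp_add] at h
  rw [le_div_iff₀ (by positivity), Real.exp_neg]
  have h0 := Real.exp_pos (c * m)
  calc _ = (c ^ A * ((m : ℝ) + 1) ^ A) * (Real.exp (c * m))⁻¹ := by ring
    _ ≤ (Real.exp (c * m) * Real.exp c * A.factorial) * (Real.exp (c * m))⁻¹ :=
        mul_le_mul_of_nonneg_right h (by positivity)
    _ = _ := by field_simp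

namespace Sys

variable {S E : Type*} [Fintype S] [Fintype E] [DecidableEq S] [DecidableEq E] {X : Sys S E}
  {Q : ℕ}

variable (X) in
/-- accumulated gain along a path -/
def Wt (w : E → ZMod Q → ℝ) : ZMod Q → List E → ℝ
  | _, [] => 1
  | a, e :: l => w e a * Wt w (X.act [e] a) l

omit [DecidableEq E] in
theorem Wt_mem {w : E → ZMod Q → ℝ} (h0 : ∀ e a, 0 ≤ w e a) (h1 : ∀ e a, w e a ≤ 1) (l : List E) :
    ∀ a, 0 ≤ X.Wt w a l ∧ X.Wt w a l ≤ 1 := by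
  induction l with
  | nil => intro a; simp [Wt]
  | cons e l ih =>
    intro a
    exact ⟨mul_nonneg (h0 _ _) (ih _).1, mul_le_one₀ (h1 _ _) (ih _).1 (ih _).2⟩

theorem iter_le (hQ : X.d.Coprime Q) {w : E → ZMod Q → ℝ} (h0 : ∀ e a, 0 ≤ w e a)
    {F : S → ZMod Q → ℝ}
    (hF : ∀ s a, F s a ≤ ∑ e ∈ X.into s, X.q e * (w e a * F (X.src e) (X.act [e] a))) (H : ℕ) :
    ∀ s a, F s a ≤ X.Ex H s fun l => X.Wt w a l * F (X.endp s l) (X.act l a) := by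
  induction H with
  | zero => intro s a; simp [Wt]
  | succ H ih =>
    intro s a
    rw [Ex_succ]
    refine (hF s a).trans (Finset.sum_le_sum fun e _ => ?_)
    refine mul_le_mul_of_nonneg_left ?_ (X.q_pos e).le
    refine (mul_le_mul_of_nonneg_left (ih _ _) (h0 e a)).trans (le_of_eq ?_)
    rw [← Ex_const_mul]
    exact X.Ex_congr fun l _ => by rw [Wt, endp_cons, act_cons hQ e l, mul_assoc]

theorem super_le {w : E → ZMod Q → ℝ} (h0 : ∀ e a, 0 ≤ w e a) (h1 : ∀ e a, w e a ≤ 1)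
    {G : ZMod Q → Prop} {θ : ℝ} (hθ : 0 < θ)
    (hG : ∀ s a, G a → ∑ e ∈ X.into s, X.q e * w e a ≤ θ) (H : ℕ) :
    ∀ s a, X.Ex H s (fun l => X.Wt w a l * θ⁻¹ ^ X.cnt G a l) ≤ 1 := by
  classical
  induction H with
  | zero => intro s a; simp [Wt, cnt]
  | succ H ih =>
    intro s a
    rw [Ex_succ]
    calc _ ≤ ∑ e ∈ X.into s, X.q e * w e a * θ⁻¹ ^ (if G a then 1 else 0) := by
          refine Finset.sum_le_sum fun e _ => ?_
          rw [mul_assoc]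
          refine mul_le_mul_of_nonneg_left ?_ (X.q_pos e).le
          have := mul_le_mul_of_nonneg_left (ih (X.src e) (X.act [e] a))
            (mul_nonneg (h0 e a) (by positivity : 0 ≤ θ⁻¹ ^ (if G a then 1 else 0)))
          rw [mul_one, ← Ex_const_mul] at this
          refine le_trans (le_of_eq (X.Ex_congr fun l _ => ?_)) this
          rw [Wt, cnt, pow_add]; ring
      _ ≤ 1 := by
          rw [← Finset.sum_mul]
          split_ifs with hg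
          · rw [pow_one, mul_inv_le_iff₀ hθ, one_mul]; exact hG s a hg
          · rw [pow_zero, mul_one, ← X.sum_q s]
            exact Finset.sum_le_sum fun e _ => mul_le_of_le_one_right (X.q_pos e).le (h1 e a)

omit [DecidableEq E] in
theorem cnt_le (hQ : X.d.Coprime Q) (Δ x : ZMod Q) (l : List E) : ∀ a, x * X.act l a ≠ 0 →
    X.cnt (fun a => ¬ X.Black a) (Δ * a) l ≤
      X.cnt (fun a => ¬ X.Black (Δ * a) ∧ x * a ≠ 0) a l := by
  induction l with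
  | nil => intro a _; simp [cnt]
  | cons e l ih =>
    intro a ha
    have h1 : x * a ≠ 0 := by
      intro h; apply ha; rw [← act_mul, h]; simp [act]
    rw [act_cons hQ] at ha
    have := ih _ ha
    rw [cnt, cnt, act_mul]
    by_cases hb : X.Black (Δ * a) <;> simp [hb, h1, this]

theorem decay (h : X.Good) {B : ℕ} {ρ₁ ρ₂ : ℝ} (hB : B ≠ 0) (hρ₁ : 0 < ρ₁) (hρ : ρ₁ < ρ₂)
    (hup : X.Small fun n l => ∃ j : ℕ, ρ₁ * n ≤ j ∧ ¬ X.bP l ∣ (B : ℤ) ^ j)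
    (hdn : X.Small fun n l => ∃ j : ℕ, (j : ℝ) ≤ ρ₂ * n ∧ X.DP l ≤ B ^ j)
    (j₀ : ℕ) {θ : ℝ} (hθ : 0 < θ) (hθ1 : θ < 1) (A : ℕ) : ∃ C : ℝ, 0 ≤ C ∧
    ∀ (Q : ℕ) [NeZero Q], X.d.Coprime Q → (∃ N, (B : ZMod Q) ^ N = 0) → ∀ Δ : ZMod Q,
    (∀ a : ZMod Q, Δ * a = 0 → (B : ZMod Q) ^ j₀ * a = 0) →
    ∀ (F : S → ZMod Q → ℝ) (w : E → ZMod Q → ℝ), (∀ s a, 0 ≤ F s a) → (∀ s a, F s a ≤ 1) →
    (∀ e a, 0 ≤ w e a) → (∀ e a, w e a ≤ 1) →
    (∀ s a, F s a ≤ ∑ e ∈ X.into s, X.q e * (w e a * F (X.src e) (X.act [e] a))) →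
    (∀ s a, ¬ X.Black (Δ * a) ∧ (B : ZMod Q) ^ j₀ * a ≠ 0 → ∑ e ∈ X.into s, X.q e * w e a ≤ θ) →
    ∀ (s : S) (a : ZMod Q) (m : ℕ), (B : ZMod Q) ^ m * a ≠ 0 → F s a ≤ C / ((m : ℝ) + 1) ^ A := by
  classical
  have hρ₂ : 0 < ρ₂ := hρ₁.trans hρ
  set ν : ℝ := (1 - ρ₁ / ρ₂) / 2 with hν
  have hν0 : 0 < ν := by
    have : ρ₁ / ρ₂ < 1 := (div_lt_one hρ₂).2 hρ
    rw [hν]; linarith
  have hν1 : ν ≤ 1 := by
    have : 0 < ρ₁ / ρ₂ := by positivity
    rw [hν]; linarith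
  obtain ⟨R, hR⟩ := exists_pow_lt_of_lt_one (by positivity : 0 < ν ^ A / 4) hθ1
  have hη : 0 < ν ^ A / (12 * (R + 1)) := by positivity
  obtain ⟨T, hT⟩ := white h R hη
  obtain ⟨n₀, hn₀⟩ := hdn.eventually hη
  obtain ⟨C₁, c₁, hC₁, hc₁, hup⟩ := hup
  obtain ⟨C₂, hC₂, hpe⟩ := poly_exp_bdd A (div_pos hc₁ hρ₂)
  obtain ⟨m₀, hm₀⟩ := exists_nat_ge ((ρ₁ * (1 + T) + j₀ + 3) / ν + ρ₂ * n₀)
  refine ⟨((m₀ : ℝ) + 1) ^ A + 2 * (C₁ * C₂), by positivity, ?_⟩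
  intro Q _ hQ ⟨N, hN⟩ Δ hΔ F w hF0 hF1 hw0 hw1 hrec hgain s a m hm
  have hex : ∀ a : ZMod Q, ∃ n, (B : ZMod Q) ^ n * a = 0 := fun a => ⟨N, by rw [hN, zero_mul]⟩
  set lev : ZMod Q → ℕ := fun a => Nat.find (hex a) with hlev
  have hlev0 : ∀ a, (B : ZMod Q) ^ lev a * a = 0 := fun a => Nat.find_spec (hex a)
  have hlev1 : ∀ a n, lev a ≤ n → (B : ZMod Q) ^ n * a = 0 := by
    intro a n hn
    obtain ⟨k, rfl⟩ := Nat.exists_eq_add_of_le hn
    rw [pow_add, mul_right_comm, hlev0, zero_mul]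
  have hlev2 : ∀ a n, n < lev a → (B : ZMod Q) ^ n * a ≠ 0 := fun a n hn => Nat.find_min (hex a) hn
  have hlev3 : ∀ a (l : List E) (j : ℕ), X.bP l ∣ (B : ℤ) ^ j → lev a ≤ lev (X.act l a) + j := by
    rintro a l j ⟨t, ht⟩
    refine Nat.find_min' (hex a) ?_
    have h1 := hlev0 (X.act l a)
    have h2 := DP_mul_act hQ l a
    have h3 : (B : ZMod Q) ^ j = X.bP l * t := by exact_mod_cast congrArg (Int.cast : ℤ → ZMod Q) ht
    rw [pow_add, h3]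
    linear_combination (t * X.DP l) * h1 - (t * (B : ZMod Q) ^ lev (X.act l a)) * h2
  have : Nonempty (S × ZMod Q) := ⟨(s, a)⟩
  obtain ⟨⟨s₁, a₁⟩, hmax⟩ := Finite.exists_max fun x : S × ZMod Q =>
    ((lev x.2 : ℝ) + 1) ^ A * F x.1 x.2
  set V := ((lev a₁ : ℝ) + 1) ^ A * F s₁ a₁ with hV
  have hV0 : 0 ≤ V := mul_nonneg (by positivity) (hF0 _ _)
  have hFV : ∀ s a (x : ℝ), 0 < x → x ≤ (lev a : ℝ) + 1 → F s a ≤ V / x ^ A := by
    intro s a x hx hxl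
    rw [le_div_iff₀ (by positivity), mul_comm]
    exact le_trans (mul_le_mul_of_nonneg_right (pow_le_pow_left₀ hx.le hxl A) (hF0 _ _))
      (hmax (s, a))
  suffices hVb : V ≤ ((m₀ : ℝ) + 1) ^ A + 2 * (C₁ * C₂) by
    have hml : m < lev a := by
      by_contra hc; exact hm (hlev1 a m (by omega))
    refine (hFV s a (m + 1) (by positivity) (by exact_mod_cast (by omega : m + 1 ≤ lev a + 1))).trans
      (div_le_div_of_nonneg_right hVb (by positivity))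
  set M := lev a₁ with hM
  rcases le_or_gt M m₀ with hMm | hMm
  · have : V ≤ ((m₀ : ℝ) + 1) ^ A :=
      (mul_le_of_le_one_right (by positivity) (hF1 _ _)).trans
        (pow_le_pow_left₀ (by positivity) (by exact_mod_cast Nat.succ_le_succ hMm) A)
    have : 0 ≤ C₁ * C₂ := by positivity
    linarith
  have hMm' : (m₀ : ℝ) ≤ M := by exact_mod_cast hMm.le
  set H₀ := ⌈M / ρ₂⌉₊ with hH₀
  set H := H₀ + T with hH
  set j₁ := ⌈ρ₁ * H⌉₊ with hj₁
  have hH1 : M / ρ₂ ≤ H₀ := Nat.le_ceil _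
  have hH2 : (H₀ : ℝ) ≤ M / ρ₂ + 1 := (Nat.ceil_lt_add_one (by positivity)).le
  have hq0 : 0 ≤ (ρ₁ * (1 + T) + j₀ + 3) / ν := by positivity
  have hn₀H : n₀ ≤ H₀ := by
    have : (n₀ : ℝ) ≤ M / ρ₂ := by rw [le_div_iff₀ hρ₂]; linarith
    exact_mod_cast this.trans hH1
  have hj1 : (j₁ : ℝ) ≤ ρ₁ * (M / ρ₂ + 1 + T) + 1 := by
    have := (Nat.ceil_lt_add_one (by positivity : 0 ≤ ρ₁ * H)).le
    refine this.trans (add_le_add (mul_le_mul_of_nonneg_left ?_ hρ₁.le) le_rfl)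
    rw [hH]; push_cast; linarith
  have hkey : ρ₁ * (1 + T) + j₀ + 3 ≤ ν * M := by
    have : (ρ₁ * (1 + T) + j₀ + 3) / ν ≤ M := by
      linarith [mul_nonneg hρ₂.le (Nat.cast_nonneg n₀ : (0 : ℝ) ≤ n₀)]
    rwa [div_le_iff₀ hν0, mul_comm (M : ℝ)] at this
  have hj2 : (j₁ : ℝ) + j₀ + 2 + ν * M ≤ M := by
    have : ρ₁ * (M / ρ₂) = M - 2 * (ν * M) := by rw [hν]; field_simp; ring
    have h2 : ρ₁ * (M / ρ₂ + 1 + T) = ρ₁ * (M / ρ₂) + ρ₁ * (1 + T) := by ring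
    linarith
  have hH3 : (M : ℝ) ≤ ρ₂ * H₀ := by rwa [div_le_iff₀ hρ₂, mul_comm] at hH1
  have hwh := hT Q (B ^ M) H₀ hQ (pow_pos (Nat.pos_of_ne_zero hB) _) (fun s =>
    le_trans (X.Pr_mono fun l _ hl => ⟨M, hH3, hl⟩) (hn₀ H₀ hn₀H s)) H le_rfl s₁ (Δ * a₁) (by
        push_cast; rw [mul_left_comm, hlev0, mul_zero])
  have hsup := super_le hw0 hw1 hθ hgain H s₁ a₁
  have hx0 : 0 < ν * (M + 1) := by positivity
  have hmain : F s₁ a₁ ≤ C₁ * Real.exp (-(c₁ * H)) +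
      V / (ν * (M + 1)) ^ A * (θ ^ R * 1 + 3 * R * (ν ^ A / (12 * (R + 1)))) := by
    refine (iter_le hQ hw0 hrec H s₁ a₁).trans ?_
    refine le_trans ?_ (add_le_add (hup H s₁) (mul_le_mul_of_nonneg_left (add_le_add
      (mul_le_mul_of_nonneg_left hsup (by positivity)) hwh) (by positivity)))
    rw [Pr, Pr, ← Ex_const_mul, ← Ex_add, ← Ex_const_mul, ← Ex_add]
    refine X.Ex_mono fun l _ => ?_
    obtain ⟨hW0, hW1⟩ := Wt_mem (X := X) hw0 hw1 l a₁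
    have hnn : 0 ≤ θ ^ R * (X.Wt w a₁ l * θ⁻¹ ^
        X.cnt (fun a => ¬ X.Black (Δ * a) ∧ (B : ZMod Q) ^ j₀ * a ≠ 0) a₁ l) := by positivity
    by_cases hg : X.bP l ∣ (B : ℤ) ^ j₁
    · have h3 := hlev3 a₁ l j₁ hg
      have h4 : (M : ℝ) ≤ lev (X.act l a₁) + j₁ := by exact_mod_cast h3
      have h5 : j₀ < lev (X.act l a₁) := by
        have : (j₀ : ℝ) < lev (X.act l a₁) := by
          linarith [mul_nonneg hν0.le (Nat.cast_nonneg M : (0 : ℝ) ≤ M)]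
        exact_mod_cast this
      have h6 := hlev2 _ _ h5
      have h7 := hFV (X.endp s₁ l) (X.act l a₁) _ hx0 (by
        have : (0 : ℝ) ≤ j₀ := Nat.cast_nonneg _
        rw [mul_add, mul_one]; linarith)
      have h8 : X.Wt w a₁ l ≤ θ ^ R * (X.Wt w a₁ l * θ⁻¹ ^
          X.cnt (fun a => ¬ X.Black (Δ * a) ∧ (B : ZMod Q) ^ j₀ * a ≠ 0) a₁ l) +
          (if X.cnt (fun a => ¬ X.Black a) (Δ * a₁) l < R ∧ X.act l (Δ * a₁) ≠ 0
            then 1 else 0) := by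
        split_ifs with hc
        · linarith
        · rw [add_zero]
          have h9 : R ≤ X.cnt (fun a => ¬ X.Black a) (Δ * a₁) l := by
            by_contra hlt
            exact hc ⟨by omega, fun h0 => h6 (hΔ _ (by rwa [act_mul] at h0))⟩
          obtain ⟨k, hk⟩ := Nat.exists_eq_add_of_le (h9.trans (cnt_le hQ Δ _ l a₁ h6))
          rw [hk, pow_add, mul_left_comm, ← mul_assoc (θ ^ R), ← mul_pow, mul_inv_cancel₀ hθ.ne',
            one_pow, one_mul]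
          exact le_mul_of_one_le_right hW0 (one_le_pow₀ ((one_le_inv₀ hθ).2 hθ1.le))
      refine le_trans ?_ (le_add_of_nonneg_left (by split_ifs <;> norm_num))
      calc _ ≤ X.Wt w a₁ l * (V / (ν * (M + 1)) ^ A) := mul_le_mul_of_nonneg_left h7 hW0
        _ = V / (ν * (M + 1)) ^ A * X.Wt w a₁ l := mul_comm _ _
        _ ≤ _ := by
          refine mul_le_mul_of_nonneg_left (h8.trans (le_of_eq ?_)) (by positivity)
          congr
    · rw [if_pos ⟨j₁, Nat.le_ceil _, hg⟩]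
      refine (mul_le_one₀ hW1 (hF0 _ _) (hF1 _ _)).trans (le_add_of_nonneg_right ?_)
      refine mul_nonneg (by positivity) (add_nonneg hnn (by split_ifs <;> norm_num))
  have h1 : θ ^ R * 1 + 3 * R * (ν ^ A / (12 * (R + 1))) ≤ ν ^ A / 2 := by
    have : 3 * R * (ν ^ A / (12 * (R + 1))) ≤ ν ^ A / 4 := by
      rw [← mul_div_assoc, div_le_div_iff₀ (by positivity) (by norm_num)]
      have h5 : 3 * R * ν ^ A * 4 + 12 * ν ^ A = ν ^ A * (12 * (R + 1)) := by ring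
      linarith [pow_pos hν0 A]
    linarith
  have h2 : ((M : ℝ) + 1) ^ A * (V / (ν * (M + 1)) ^ A * (ν ^ A / 2)) = V / 2 := by
    rw [mul_pow]; field_simp
  have h3 : ((M : ℝ) + 1) ^ A * (C₁ * Real.exp (-(c₁ * H))) ≤ C₁ * C₂ := by
    rw [mul_left_comm]
    refine mul_le_mul_of_nonneg_left (le_trans ?_ (hpe M)) hC₁
    refine mul_le_mul_of_nonneg_left (Real.exp_le_exp.2 (neg_le_neg ?_)) (by positivity)
    rw [div_mul_eq_mul_div, mul_div_assoc]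
    refine mul_le_mul_of_nonneg_left (hH1.trans ?_) hc₁.le
    rw [hH]; push_cast; linarith [(Nat.cast_nonneg T : (0 : ℝ) ≤ T)]
  have h4 : V ≤ C₁ * C₂ + V / 2 := by
    calc V ≤ ((M : ℝ) + 1) ^ A * (C₁ * Real.exp (-(c₁ * H)) +
          V / (ν * (M + 1)) ^ A * (ν ^ A / 2)) :=
          mul_le_mul_of_nonneg_left (hmain.trans (add_le_add le_rfl
            (mul_le_mul_of_nonneg_left h1 (by positivity)))) (by positivity)
      _ ≤ _ := by rw [mul_add, h2]; linarith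
  have : (0 : ℝ) ≤ ((m₀ : ℝ) + 1) ^ A := by positivity
  linarith

end Sys

end Pool.Agent.Lib.MP_39d40e_nt
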