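import Mathlib

namespace Pool.Agent.Lib.MP_39d40e_nt

/-- the generalized Collatz map `T x = (m_i x - r_i) / d` for `x ≡ i (mod d)` -/
def T (d : ℕ) (m r : ZMod d → ℤ) (x : ℤ) : ℤ := (m x * x - r x) / d

/-- Leigh's transition probability from the class `B(j, d k)`, coded as `s = (j, k)`, to the class
`B(j', d k')`, coded as `s' = (j', k')`; `a i` is the factor `d_i` of `m_i` -/
noncomputable def P (d : ℕ) (m r : ZMod d → ℤ) (a : ZMod d → ℕ) (s s' : ℕ × ℕ) : ℝ :=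
  if s'.1 < d * s'.2 ∧ s'.2 = s.2 * a s.1 / Nat.gcd (s.2 * a s.1) d ∧
      T d m r s.1 ≡ s'.1 [ZMOD (s.2 * a s.1 : ℕ)]
  then (Nat.gcd (s.2 * a s.1) d : ℝ) / d else 0

end Pool.Agent.Lib.MP_39d40e_nt
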