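import Mathlib

/-! Sums of periodic functions over blocks, progressions and logarithmic windows. -/

namespace Pool.Agent.Lib.MP_39d40e_nt

open Finset

theorem blk (F : ℤ → ℝ) (Q : ℕ) (hF : ∀ z, F (z + Q) = F z) (A : ℤ) :
    ∑ z ∈ Ico A (A + Q), F z = ∑ z ∈ range Q, F z := by
  have step : ∀ A : ℤ, ∑ z ∈ Ico (A + 1) (A + 1 + Q), F z = ∑ z ∈ Ico A (A + Q), F z := by
    intro A
    have h1 : Ico A (A + 1 + Q) = insert A (Ico (A + 1) (A + 1 + Q)) := by
      ext z; simp only [mem_Ico, mem_insert]; omega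
    have h2 : Ico A (A + 1 + Q) = insert (A + Q) (Ico A (A + Q)) := by
      ext z; simp only [mem_Ico, mem_insert]; omega
    have e1 : ∑ z ∈ Ico A (A + 1 + Q), F z = F A + ∑ z ∈ Ico (A + 1) (A + 1 + Q), F z := by
      rw [h1, sum_insert (by simp)]
    have e2 : ∑ z ∈ Ico A (A + 1 + Q), F z = F (A + Q) + ∑ z ∈ Ico A (A + Q), F z := by
      rw [h2, sum_insert (by simp)]
    rw [hF] at e2; linarith
  have zero : ∑ z ∈ Ico (0 : ℤ) (0 + Q), F z = ∑ z ∈ range Q, F z := by
    symm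
    apply sum_bij (fun (z : ℕ) _ => (z : ℤ))
    · intro a ha; simp only [mem_range] at ha; simp only [mem_Ico]; omega
    · intro a _ b _ h; exact_mod_cast h
    · intro b hb; simp only [mem_Ico] at hb
      exact ⟨b.toNat, by simp only [mem_range]; omega, by omega⟩
    · intro a _; rfl
  induction A using Int.induction_on with
  | zero => exact zero
  | succ n ih => rw [step, ih]
  | pred n ih => rw [← step, ← ih]; congr 2 <;> ring

theorem per_nat_mul (F : ℤ → ℝ) (Q : ℕ) (hF : ∀ z, F (z + Q) = F z) (k : ℕ) (z : ℤ) :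
    F (z + k * Q) = F z := by
  induction k with
  | zero => simp
  | succ k ih => rw [← ih, ← hF (z + k * Q)]; congr 1; push_cast; ring

theorem per_int_mul (F : ℤ → ℝ) (Q : ℕ) (hF : ∀ z, F (z + Q) = F z) (k : ℤ) (z : ℤ) :
    F (z + k * Q) = F z := by
  obtain ⟨n, rfl | rfl⟩ := Int.eq_nat_or_neg k
  · exact per_nat_mul F Q hF n z
  · rw [← per_nat_mul F Q hF n (z + -(n : ℤ) * Q)]; congr 1; ring

theorem per_of_dvd (F : ℤ → ℝ) (Q Q' : ℕ) (hF : ∀ z, F (z + Q) = F z) (h : Q ∣ Q') (z : ℤ) :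
    F (z + Q') = F z := by
  obtain ⟨k, rfl⟩ := h
  rw [← per_nat_mul F Q hF k z]; congr 1; push_cast; ring

theorem sum_range_mul (F : ℤ → ℝ) (Q : ℕ) (hF : ∀ z, F (z + Q) = F z) (k : ℕ) :
    ∑ z ∈ range (k * Q), F z = k * ∑ z ∈ range Q, F z := by
  induction k with
  | zero => simp
  | succ k ih =>
    rw [Nat.succ_mul, sum_range_add, ih]
    have : ∑ x ∈ range Q, F ((k * Q + x : ℕ) : ℤ) = ∑ x ∈ range Q, F x := by
      apply sum_congr rfl; intro x _
      rw [← per_nat_mul F Q hF k x]; congr 1; push_cast; ring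
    rw [this]; push_cast; ring

/-- a periodic function is recovered from its values on one period -/
theorem sum_ind_mod (g : ℤ → ℝ) (B : ℕ) (hB : 0 < B) (hg : ∀ z, g (z + B) = g z) (x0 : ℤ) :
    ∑ x ∈ range B, (if (B : ℤ) ∣ x0 - x then g x else 0) = g x0 := by
  have hB' : (0 : ℤ) < B := by exact_mod_cast hB
  have h1 := Int.emod_nonneg x0 hB'.ne'
  have h2 := Int.emod_lt_of_pos x0 hB'
  rw [sum_eq_single (x0 % B).toNat]
  · have e : (((x0 % B).toNat : ℕ) : ℤ) = x0 % B := by omega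
    rw [e, if_pos]
    · rw [← per_int_mul g B hg (x0 / B) (x0 % B)]; congr 1
      have := Int.emod_add_mul_ediv x0 B
      linarith [mul_comm (x0 / B) (B : ℤ)]
    · exact ⟨x0 / B, by have := Int.emod_add_mul_ediv x0 B; linarith⟩
  · intro x hx hne
    rw [if_neg]
    intro hd
    apply hne
    simp only [mem_range] at hx
    have : x0 % B = (x : ℤ) % B := (Int.modEq_iff_dvd.2 hd).symm
    rw [Int.emod_eq_of_lt (a := (x : ℤ)) (by omega) (by exact_mod_cast hx)] at this
    omega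
  · intro h; exfalso; apply h; simp only [mem_range]; omega

theorem count_one (Q : ℕ) (hQ : 0 < Q) (D e : ℤ) (h : IsCoprime D Q) :
    ∑ z ∈ range Q, (if (Q : ℤ) ∣ D * z - e then (1 : ℝ) else 0) = 1 := by
  obtain ⟨u, v, huv⟩ := h
  have := sum_ind_mod (fun _ => (1 : ℝ)) Q hQ (fun _ => rfl) (u * e)
  refine Eq.trans ?_ this
  apply sum_congr rfl; intro z _
  have : ((Q : ℤ) ∣ D * z - e) ↔ ((Q : ℤ) ∣ u * e - z) := by
    constructor
    · rintro ⟨k, hk⟩
      exact ⟨-(u * k) - v * z, by linear_combination (-u) * hk + z * huv⟩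
    · rintro ⟨k, hk⟩
      exact ⟨-(D * k) - v * e, by linear_combination (-D) * hk + e * huv⟩
  simp only [this]

theorem count_dvd (Q' Q : ℕ) (hQ : 0 < Q') (hd : Q' ∣ Q) (D e : ℤ) (h : IsCoprime D Q') :
    ∑ z ∈ range Q, (if (Q' : ℤ) ∣ D * z - e then (1 : ℝ) else 0) = (Q : ℝ) / Q' := by
  obtain ⟨k, rfl⟩ := hd
  have := sum_range_mul (fun z => if (Q' : ℤ) ∣ D * z - e then (1 : ℝ) else 0) Q' (by
    intro z
    have : ((Q' : ℤ) ∣ D * (z + Q') - e) ↔ ((Q' : ℤ) ∣ D * z - e) := by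
      have : D * (z + Q') - e = (D * z - e) + Q' * D := by ring
      rw [this]; exact (Int.dvd_add_left (Dvd.intro _ rfl))
    simp only [this]) k
  rw [mul_comm Q' k, this, count_one Q' hQ D e h]
  have : (Q' : ℝ) ≠ 0 := by positivity
  push_cast; field_simp

/-- average of a pulled back periodic function -/
theorem sum_pull (g : ℤ → ℝ) (B : ℕ) (hB : 0 < B) (hg : ∀ z, g (z + B) = g z) (M : ℤ) (hM : M ≠ 0)
    (D c : ℤ) (hD : IsCoprime D (M * B)) (Q : ℕ) (hQ : M.natAbs * B ∣ Q) :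
    ∑ z ∈ range Q, (if M ∣ D * z - c then |(M : ℝ)| * g ((D * z - c) / M) else 0)
      = (Q : ℝ) / B * ∑ x ∈ range B, g x := by
  have hM' : 0 < M.natAbs := Int.natAbs_pos.2 hM
  have key : ∀ y : ℤ, (if M ∣ y then |(M : ℝ)| * g (y / M) else 0)
      = ∑ x ∈ range B, |(M : ℝ)| * g x *
        (if ((M.natAbs * B : ℕ) : ℤ) ∣ y - M * x then (1 : ℝ) else 0) := by
    intro y
    have hiff : ∀ w : ℤ, (((M.natAbs * B : ℕ) : ℤ) ∣ w) ↔ (M * B ∣ w) := by
      intro w; push_cast
      rcases abs_choice M with h | h <;> rw [h]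
      rw [neg_mul, neg_dvd]
    split_ifs with h
    · obtain ⟨x0, rfl⟩ := h
      rw [Int.mul_ediv_cancel_left _ hM, ← sum_ind_mod g B hB hg x0, mul_sum]
      apply sum_congr rfl; intro x _
      have : (((M.natAbs * B : ℕ) : ℤ) ∣ M * x0 - M * x) ↔ ((B : ℤ) ∣ x0 - x) := by
        rw [hiff, ← mul_sub, mul_dvd_mul_iff_left hM]
      simp only [this]; split_ifs <;> simp
    · symm; apply sum_eq_zero; intro x _
      rw [if_neg, mul_zero]
      rw [hiff]; intro hd; apply h
      have : M ∣ y - M * x := Dvd.dvd.trans (Dvd.intro _ rfl) hd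
      have := Dvd.dvd.add this (Dvd.intro (x : ℤ) rfl)
      simpa using this
  simp only [key]
  rw [sum_comm, mul_sum]
  apply sum_congr rfl; intro x _
  rw [← mul_sum]
  have hc : IsCoprime D ((M.natAbs * B : ℕ) : ℤ) := by
    push_cast
    rcases abs_choice M with h | h <;> rw [h]
    · exact hD
    · rw [neg_mul]; exact hD.neg_right
  have := count_dvd (M.natAbs * B) Q (by positivity) hQ D (c + M * x) hc
  simp only [← sub_sub] at this
  rw [this]
  have h1 : (B : ℝ) ≠ 0 := by positivity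
  have h2 : |(M : ℝ)| ≠ 0 := by simpa using hM
  push_cast
  rw [Nat.cast_natAbs]; push_cast
  field_simp

theorem win_pos (F : ℤ → ℝ) (Q : ℕ) (hQ : 0 < Q) (hF : ∀ z, F (z + Q) = F z) (h0 : ∀ z, 0 ≤ F z)
    (μ : ℝ) (hμ : ∑ z ∈ range Q, F z ≤ μ * Q) (A : ℤ) (hA : (Q : ℤ) ≤ A) (J : ℕ) :
    ∑ z ∈ Ico A (A + (J + 1 : ℕ) * Q), F z / z ≤ μ * (1 + Real.log ((A + J * Q) / A)) := by
  have hQ' : (0 : ℝ) < Q := by exact_mod_cast hQ
  have hA' : (Q : ℝ) ≤ A := by exact_mod_cast hA
  have hμ0 : 0 ≤ μ := by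
    have : 0 ≤ μ * Q := le_trans (sum_nonneg fun (z : ℕ) _ => h0 z) hμ
    exact nonneg_of_mul_nonneg_left this hQ'
  have block : ∀ A' : ℤ, (0 : ℤ) < A' → ∑ z ∈ Ico A' (A' + Q), F z / z ≤ μ * (Q / A') := by
    intro A' hA'
    have hA'' : (0 : ℝ) < A' := by exact_mod_cast hA'
    calc ∑ z ∈ Ico A' (A' + Q), F z / z ≤ ∑ z ∈ Ico A' (A' + Q), F z / A' := by
          apply sum_le_sum; intro z hz
          have : (A' : ℝ) ≤ z := by exact_mod_cast (mem_Ico.1 hz).1
          exact div_le_div_of_nonneg_left (h0 z) hA'' this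
      _ = (∑ z ∈ range Q, F z) / A' := by rw [← sum_div, blk F Q hF]
      _ ≤ μ * Q / A' := by gcongr
      _ = _ := by ring
  induction J with
  | zero =>
    have := block A (by omega)
    have h1 : (Q : ℝ) / A ≤ 1 := by rw [div_le_one (by linarith)]; exact hA'
    simp only [zero_add, Nat.cast_one, one_mul, Nat.cast_zero, zero_mul, add_zero]
    rw [div_self (by linarith), Real.log_one, add_zero]
    nlinarith
  | succ J ih =>
    have hs : Ico A (A + (J + 1 + 1 : ℕ) * Q)
        = Ico A (A + (J + 1 : ℕ) * Q) ∪ Ico (A + (J + 1 : ℕ) * Q) (A + (J + 1 : ℕ) * Q + Q) := by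
      rw [Ico_union_Ico_eq_Ico]
      · congr 1; push_cast; ring
      · have : (0 : ℤ) ≤ ((J + 1 : ℕ) : ℤ) * Q := by positivity
        omega
      · omega
    rw [hs, sum_union (Ico_disjoint_Ico_consecutive _ _ _)]
    have hpos : (0 : ℤ) < A + (J + 1 : ℕ) * Q := by
      have : (0 : ℤ) ≤ ((J + 1 : ℕ) : ℤ) * Q := by positivity
      omega
    have hb := block _ hpos
    have hA0 : (0 : ℝ) < A := by linarith
    have h1 : (0 : ℝ) < A + J * Q := by positivity
    have h2 : (0 : ℝ) < A + (J + 1) * Q := by positivity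
    have hl : (Q : ℝ) / (A + (J + 1) * Q)
        ≤ Real.log ((A + (J + 1) * Q) / A) - Real.log ((A + J * Q) / A) := by
      rw [← Real.log_div (by positivity) (by positivity)]
      have := Real.one_sub_inv_le_log_of_pos
        (x := (A + (J + 1) * Q) / A / ((A + J * Q) / A)) (by positivity)
      refine le_trans (le_of_eq ?_) this
      field_simp; ring
    push_cast at hb ih ⊢
    nlinarith [mul_le_mul_of_nonneg_left hl hμ0]

/-- the integers with `a ≤ |z| < b` -/
noncomputable def win (a b : ℝ) : Finset ℤ :=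
  (Icc (-⌈b⌉) ⌈b⌉).filter (fun z => a ≤ |(z : ℝ)| ∧ |(z : ℝ)| < b)

theorem mem_win {a b : ℝ} {z : ℤ} : z ∈ win a b ↔ a ≤ |(z : ℝ)| ∧ |(z : ℝ)| < b := by
  unfold win
  simp only [mem_filter, mem_Icc, and_iff_right_iff_imp]
  rintro ⟨_, h⟩
  have h1 := Int.le_ceil b
  rw [abs_lt] at h
  constructor
  · have : (-(⌈b⌉ : ℝ)) ≤ z := by linarith
    exact_mod_cast this
  · have : (z : ℝ) ≤ ⌈b⌉ := by linarith
    exact_mod_cast this

theorem win_half (F : ℤ → ℝ) (Q : ℕ) (hQ : 0 < Q) (hF : ∀ z, F (z + Q) = F z) (h0 : ∀ z, 0 ≤ F z)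
    (μ : ℝ) (hμ : ∑ z ∈ range Q, F z ≤ μ * Q) (a b : ℝ) (ha : (Q : ℝ) ≤ a) (hab : a ≤ b) :
    ∑ z ∈ (win a b).filter (fun z => 0 < z), F z / |(z : ℝ)| ≤ μ * (1 + Real.log (b / a)) := by
  have hQ' : (0 : ℝ) < Q := by exact_mod_cast hQ
  have hμ0 : 0 ≤ μ := by
    have : 0 ≤ μ * Q := le_trans (sum_nonneg fun (z : ℕ) _ => h0 z) hμ
    exact nonneg_of_mul_nonneg_left this hQ'
  set A := ⌈a⌉ with hA
  have hA1 : a ≤ A := Int.le_ceil a
  have hAQ : (Q : ℤ) ≤ A := by
    have : (Q : ℝ) ≤ A := by linarith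
    exact_mod_cast this
  set J := ⌊(b - A) / Q⌋₊ with hJ
  have hJ1 : (b - A) / Q < J + 1 := Nat.lt_floor_add_one _
  have ha0 : 0 < a := by linarith
  calc ∑ z ∈ (win a b).filter (fun z => 0 < z), F z / |(z : ℝ)|
      = ∑ z ∈ (win a b).filter (fun z => 0 < z), F z / z := by
        apply sum_congr rfl; intro z hz
        have : (0 : ℝ) < z := by exact_mod_cast (mem_filter.1 hz).2
        rw [abs_of_pos this]
    _ ≤ ∑ z ∈ Ico A (A + (J + 1 : ℕ) * Q), F z / z := by
        apply sum_le_sum_of_subset_of_nonneg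
        · intro z hz
          obtain ⟨hz, hz0⟩ := mem_filter.1 hz
          have hz0' : (0 : ℝ) < z := by exact_mod_cast hz0
          rw [mem_win, abs_of_pos hz0'] at hz
          rw [mem_Ico]; constructor
          · exact Int.ceil_le.2 hz.1
          · rw [div_lt_iff₀ hQ'] at hJ1
            have : (z : ℝ) < A + (J + 1 : ℕ) * Q := by push_cast; linarith
            exact_mod_cast this
        · intro z hz _
          have : (0 : ℝ) ≤ z := by
            have := (mem_Ico.1 hz).1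
            have : (0 : ℤ) ≤ z := by omega
            exact_mod_cast this
          exact div_nonneg (h0 z) this
    _ ≤ μ * (1 + Real.log ((A + J * Q) / A)) := win_pos F Q hQ hF h0 μ hμ A hAQ J
    _ ≤ μ * (1 + Real.log (b / a)) := by
        have hA0 : (0 : ℝ) < A := by linarith
        have hpos : (0 : ℝ) < (A + J * Q) / A := by positivity
        refine mul_le_mul_of_nonneg_left (add_le_add_right (Real.log_le_log hpos ?_) _) hμ0
        by_cases hb : (A : ℝ) ≤ b
        · have : (J : ℝ) ≤ (b - A) / Q := Nat.floor_le (by apply div_nonneg <;> linarith)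
          rw [le_div_iff₀ hQ'] at this
          calc (A + J * Q) / A ≤ b / A := by gcongr; linarith
            _ ≤ b / a := by gcongr; linarith
        · have : J = 0 := by
            rw [hJ, Nat.floor_eq_zero]
            have : (b - A) / Q ≤ 0 := div_nonpos_of_nonpos_of_nonneg (by linarith) hQ'.le
            linarith
          rw [this]; simp only [Nat.cast_zero, zero_mul, add_zero]
          rw [div_self hA0.ne', one_le_div ha0]; exact hab

theorem win_sum (F : ℤ → ℝ) (Q : ℕ) (hQ : 0 < Q) (hF : ∀ z, F (z + Q) = F z) (h0 : ∀ z, 0 ≤ F z)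
    (μ : ℝ) (hμ : ∑ z ∈ range Q, F z ≤ μ * Q) (a b : ℝ) (ha : (Q : ℝ) ≤ a) (hab : a ≤ b) :
    ∑ z ∈ win a b, F z / |(z : ℝ)| ≤ 2 * μ * (1 + Real.log (b / a)) := by
  have h1 := win_half F Q hQ hF h0 μ hμ a b ha hab
  have h2 := win_half (fun z => F (-z)) Q hQ (by
      intro z; rw [← hF (-(z + Q))]; congr 1; ring) (fun z => h0 _) μ (by
      rw [← blk F Q hF (1 - Q)] at hμ
      refine le_trans (le_of_eq ?_) hμ
      apply sum_bij (fun (z : ℕ) _ => -(z : ℤ))
      · intro a ha; simp only [mem_range] at ha; simp only [mem_Ico]; omega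
      · intro a _ b _ h; omega
      · intro b hb; simp only [mem_Ico] at hb
        exact ⟨(-b).toNat, by simp only [mem_range]; omega, by omega⟩
      · intro a _; rfl) a b ha hab
  rw [← sum_filter_add_sum_filter_not (win a b) (fun z => 0 < z)]
  have h3 : ∑ z ∈ (win a b).filter (fun z => ¬ 0 < z), F z / |(z : ℝ)|
      = ∑ z ∈ (win a b).filter (fun z => 0 < z), F (-z) / |(z : ℝ)| := by
    have hQ' : (0 : ℝ) < Q := by exact_mod_cast hQ
    apply sum_bij (fun z _ => -z)
    · intro z hz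
      obtain ⟨hz, hz0⟩ := mem_filter.1 hz
      rw [mem_win] at hz
      rw [mem_filter, mem_win]; push_cast; rw [abs_neg]
      refine ⟨hz, ?_⟩
      have : z ≠ 0 := by
        rintro rfl
        simp at hz; linarith [hz.1]
      omega
    · intro a _ b _ h; omega
    · intro z hz
      obtain ⟨hz, hz0⟩ := mem_filter.1 hz
      rw [mem_win] at hz
      refine ⟨-z, ?_, by ring⟩
      rw [mem_filter, mem_win]; push_cast; rw [abs_neg]
      exact ⟨hz, by omega⟩
    · intro z _; simp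
  rw [h3]; linarith

end Pool.Agent.Lib.MP_39d40e_nt
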