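import Pool.Agent.Lib.MP_39d40e_nt.Sys
import Pool.Agent.Lib.MP_39d40e_nt.Win

/-! The dynamics on `S × ℤ` attached to a system. -/

namespace Pool.Agent.Lib.MP_39d40e_nt

open Finset

namespace Sys

variable {S E : Type*} [Fintype S] [Fintype E] [DecidableEq S] [DecidableEq E] (X : Sys S E)

noncomputable def lab (x : S × ℤ) : E := Classical.choose (X.exu x.1 x.2).exists

omit [DecidableEq E] in
theorem lab_src (x : S × ℤ) : X.src (X.lab x) = x.1 :=
  (Classical.choose_spec (X.exu x.1 x.2).exists).1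

omit [DecidableEq E] in
theorem lab_dvd (x : S × ℤ) : (X.D (X.lab x) : ℤ) ∣ X.b (X.lab x) * x.2 + X.c (X.lab x) :=
  (Classical.choose_spec (X.exu x.1 x.2).exists).2

omit [DecidableEq E] in
theorem lab_eq (x : S × ℤ) (e : E) (h1 : X.src e = x.1) (h2 : (X.D e : ℤ) ∣ X.b e * x.2 + X.c e) :
    X.lab x = e :=
  (X.exu x.1 x.2).unique ⟨X.lab_src x, X.lab_dvd x⟩ ⟨h1, h2⟩

noncomputable def step (x : S × ℤ) : S × ℤ :=
  (X.tgt (X.lab x), (X.b (X.lab x) * x.2 + X.c (X.lab x)) / X.D (X.lab x))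

omit [DecidableEq E] in
theorem step_mul (x : S × ℤ) :
    (X.D (X.lab x) : ℤ) * (X.step x).2 = X.b (X.lab x) * x.2 + X.c (X.lab x) :=
  Int.mul_ediv_cancel' (X.lab_dvd x)

/-- the orbit stays above `y` in absolute value -/
def Esc (y : ℝ) (x : S × ℤ) : Prop := ∀ n : ℕ, y < |(((X.step^[n] x).2 : ℤ) : ℝ)|

omit [DecidableEq E] in
theorem Esc.iter {X : Sys S E} {y : ℝ} {x : S × ℤ} (h : X.Esc y x) (k : ℕ) :
    X.Esc y (X.step^[k] x) := by
  intro n; rw [← Function.iterate_add_apply]; exact h _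

def Irred : Prop :=
  ∀ s t, Relation.ReflTransGen (fun s t => ∃ e, X.src e = s ∧ X.tgt e = t) s t

open Classical in
/-- the counting conclusion -/
def Concl : Prop :=
  ∃ C : ℝ, ∀ y : ℝ, 2 ≤ y → ∀ (s : S) (N : ℕ),
    (((Icc (-(N : ℤ)) N).filter fun u => X.Esc y (s, u)).card : ℝ)
      ≤ C * N / Real.log y ^ (1 / 3 : ℝ)

omit [DecidableEq E] in
theorem D_pos' (e : E) : 0 < X.D e := Nat.pos_of_dvd_of_pos (X.D_dvd e) X.d_pos

omit [DecidableEq E] in
theorem cop_D' (e e' : E) : IsCoprime (X.b e) (X.D e' : ℤ) :=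
  (X.cop e).of_isCoprime_of_dvd_right (by exact_mod_cast X.D_dvd e')

omit [DecidableEq E] in
theorem out_sum (s : S) : ∑ e with X.src e = s, (1 : ℝ) / X.D e = 1 := by
  classical
  have hd : (X.d : ℝ) ≠ 0 := by exact_mod_cast X.d_pos.ne'
  have h1 : ∀ u : ℤ, ∑ e with X.src e = s,
      (if (X.D e : ℤ) ∣ X.b e * u - (-X.c e) then (1 : ℝ) else 0) = 1 := by
    intro u
    rw [sum_eq_single (X.lab (s, u))]
    · rw [if_pos]; simpa using X.lab_dvd (s, u)
    · intro e he hne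
      rw [if_neg]; intro h; apply hne
      exact (X.lab_eq (s, u) e (mem_filter.1 he).2 (by simpa using h)).symm
    · intro h; exfalso; apply h; simp [X.lab_src]
  have h2 : ∑ u ∈ range X.d, ∑ e with X.src e = s,
      (if (X.D e : ℤ) ∣ X.b e * (u : ℤ) - (-X.c e) then (1 : ℝ) else 0) = X.d := by
    simp only [h1]; simp
  rw [sum_comm] at h2
  have h3 : ∀ e, ∑ u ∈ range X.d,
      (if (X.D e : ℤ) ∣ X.b e * (u : ℤ) - (-X.c e) then (1 : ℝ) else 0) = X.d * (1 / X.D e) := by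
    intro e
    rw [count_dvd (X.D e) X.d (X.D_pos' e) (X.D_dvd e) _ _ (X.cop_D' e e)]; ring
  simp only [h3] at h2
  rw [← mul_sum] at h2
  exact mul_left_cancel₀ hd (by rw [h2, mul_one])

omit [DecidableEq E] in
theorem mean_src (F : S → ℝ) : X.mean (fun e => F (X.src e)) = ∑ s, X.π s * F s := by
  unfold mean
  rw [← sum_fiberwise_of_maps_to (s := univ) (t := univ) (g := X.src) (by simp)]
  apply sum_congr rfl; intro s _
  conv_rhs => rw [← mul_one (X.π s * F s), ← X.out_sum s, mul_sum]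
  apply sum_congr rfl; intro e he
  simp only [(mem_filter.1 he).2]; ring

omit [DecidableEq E] in
theorem mean_tgt (F : S → ℝ) : X.mean (fun e => F (X.tgt e)) = ∑ s, X.π s * F s := by
  unfold mean
  rw [← sum_fiberwise_of_maps_to (s := univ) (t := univ) (g := X.tgt) (by simp)]
  apply sum_congr rfl; intro s _
  rw [← X.stat s, sum_mul]
  apply sum_congr rfl; intro e he
  simp only [(mem_filter.1 he).2]

end Sys

end Pool.Agent.Lib.MP_39d40e_nt
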