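import Pool.Agent.Lib.MP_39d40e_nt.Defs
import Pool.Agent.Lib.MP_39d40e_nt.Dyn

/-! A closed communicating class of Leigh's chain as a system. -/

namespace Pool.Agent.Lib.MP_39d40e_nt

open Finset

structure LData where
  d : ℕ
  hd : 2 ≤ d
  m : ZMod d → ℤ
  r : ZMod d → ℤ
  b : ZMod d → ℤ
  a : ZMod d → ℕ
  hm : ∀ i, m i ≠ 0
  hr : ∀ i, (r i : ZMod d) = i * m i
  hfac : ∀ i, m i = b i * a i
  hb : ∀ i, IsCoprime (b i) d
  C : Finset (ℕ × ℕ)
  hC : ∀ s ∈ C, s.1 < d * s.2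
  closed : ∀ s ∈ C, ∀ s', 0 < P d m r a s s' → s' ∈ C
  comm : ∀ s ∈ C, ∀ s' ∈ C, Relation.ReflTransGen (fun t t' => 0 < P d m r a t t') s s'
  ρ : ℕ × ℕ → ℝ
  ρ_nonneg : ∀ s ∈ C, 0 ≤ ρ s
  ρ_sum : ∑ s ∈ C, ρ s = 1
  ρ_stat : ∀ s' ∈ C, ∑ s ∈ C, ρ s * P d m r a s s' = ρ s'

namespace LData

variable (L : LData)

def K (s : ℕ × ℕ) : ℕ := s.2 * L.a s.1
def g (s : ℕ × ℕ) : ℕ := Nat.gcd (L.K s) L.d
def Tr (s s' : ℕ × ℕ) : Prop :=
  s'.1 < L.d * s'.2 ∧ s'.2 = L.K s / L.g s ∧ T L.d L.m L.r s.1 ≡ s'.1 [ZMOD (L.K s : ℕ)]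

theorem d_pos : 0 < L.d := by have := L.hd; omega
theorem g_pos (s) : 0 < L.g s := Nat.gcd_pos_of_pos_right _ L.d_pos
theorem g_dvd (s) : L.g s ∣ L.d := Nat.gcd_dvd_right _ _
theorem g_dvdK (s) : L.g s ∣ L.K s := Nat.gcd_dvd_left _ _

theorem P_of (s s') (h : L.Tr s s') : P L.d L.m L.r L.a s s' = (L.g s : ℝ) / L.d := by
  unfold P; exact if_pos h

theorem P_not (s s') (h : ¬ L.Tr s s') : P L.d L.m L.r L.a s s' = 0 := by
  unfold P; exact if_neg h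

theorem P_pos (s s') : 0 < P L.d L.m L.r L.a s s' ↔ L.Tr s s' := by
  by_cases h : L.Tr s s'
  · rw [L.P_of s s' h]
    have h1 : (0 : ℝ) < L.g s := by exact_mod_cast L.g_pos s
    have h2 : (0 : ℝ) < L.d := by exact_mod_cast L.d_pos
    simp only [h, iff_true]; positivity
  · rw [L.P_not s s' h]; simp [h]

theorem P_nonneg (s s') : 0 ≤ P L.d L.m L.r L.a s s' := by
  by_cases h : L.Tr s s'
  · exact ((L.P_pos s s').2 h).le
  · rw [L.P_not s s' h]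

theorem a_pos (i) : 0 < L.a i := by
  rcases Nat.eq_zero_or_pos (L.a i) with h | h
  · exfalso; apply L.hm i; rw [L.hfac i, h]; simp
  · exact h

theorem k_pos {s} (hs : s ∈ L.C) : 0 < s.2 := by
  have := L.hC s hs
  rcases Nat.eq_zero_or_pos s.2 with h | h
  · rw [h] at this; omega
  · exact h

theorem K_pos {s} (hs : s ∈ L.C) : 0 < L.K s := Nat.mul_pos (L.k_pos hs) (L.a_pos _)

theorem ρ_pos {s} (hs : s ∈ L.C) : 0 < L.ρ s := by
  obtain ⟨s0, hs0, h0⟩ : ∃ s0 ∈ L.C, 0 < L.ρ s0 := by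
    by_contra h
    push Not at h
    have : ∑ s ∈ L.C, L.ρ s ≤ 0 := sum_nonpos h
    rw [L.ρ_sum] at this; linarith
  have key : ∀ t, Relation.ReflTransGen (fun t t' => 0 < P L.d L.m L.r L.a t t') s0 t →
      t ∈ L.C ∧ 0 < L.ρ t := by
    intro t ht
    induction ht with
    | refl => exact ⟨hs0, h0⟩
    | @tail u v _ huv ih =>
      have hv := L.closed u ih.1 v huv
      refine ⟨hv, ?_⟩
      rw [← L.ρ_stat v hv]
      exact lt_of_lt_of_le (mul_pos ih.2 huv) (single_le_sum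
        (f := fun s => L.ρ s * P L.d L.m L.r L.a s v)
        (fun s hs => mul_nonneg (L.ρ_nonneg s hs) (L.P_nonneg s v)) ih.1)
  exact (key s (L.comm s0 hs0 s hs)).2

abbrev St := {s // s ∈ L.C}
abbrev Ed := {e : L.St × L.St // L.Tr e.1.1 e.2.1}

noncomputable instance : Fintype L.Ed := by classical exact inferInstance

noncomputable instance : DecidableEq L.Ed := Classical.decEq _

theorem T_shift (s : ℕ × ℕ) (u : ℤ) :
    T L.d L.m L.r (s.1 + L.d * s.2 * u) = T L.d L.m L.r s.1 + L.b s.1 * L.K s * u := by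
  have hd : (L.d : ℤ) ≠ 0 := by exact_mod_cast L.d_pos.ne'
  have h1 : (((s.1 : ℤ) + L.d * s.2 * u : ℤ) : ZMod L.d) = ((s.1 : ℤ) : ZMod L.d) := by
    push_cast; simp
  unfold T K
  rw [h1]
  have h2 : L.m ((s.1 : ℤ) : ZMod L.d) * (s.1 + L.d * s.2 * u) - L.r ((s.1 : ℤ) : ZMod L.d)
      = (L.m ((s.1 : ℤ) : ZMod L.d) * s.1 - L.r ((s.1 : ℤ) : ZMod L.d))
        + L.d * (L.m ((s.1 : ℤ) : ZMod L.d) * s.2 * u) := by ring
  rw [h2, Int.add_mul_ediv_left _ _ hd, L.hfac]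
  push_cast; ring

theorem KD {s s'} (h : L.Tr s s') : L.K s * (L.d / L.g s) = L.d * s'.2 := by
  rw [h.2.1]
  obtain ⟨u, hu⟩ := L.g_dvd s
  obtain ⟨v, hv⟩ := L.g_dvdK s
  have h1 : L.d / L.g s = u := Nat.div_eq_of_eq_mul_right (L.g_pos s) hu
  have h2 : L.K s / L.g s = v := Nat.div_eq_of_eq_mul_right (L.g_pos s) hv
  rw [h1, h2]
  calc L.K s * u = L.g s * v * u := by rw [← hv]
    _ = L.g s * u * v := by ring
    _ = _ := by rw [← hu]

/-- the additive constant of an edge -/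
def cc (s s' : ℕ × ℕ) : ℤ := (T L.d L.m L.r s.1 - s'.1) / L.K s

theorem K_cc {s s'} (h : L.Tr s s') : (L.K s : ℤ) * L.cc s s' = T L.d L.m L.r s.1 - s'.1 :=
  Int.mul_ediv_cancel' h.2.2.symm.dvd

theorem dvd_iff {s s'} (hs : s ∈ L.C) (h : L.Tr s s') (u : ℤ) :
    (((L.d / L.g s : ℕ) : ℤ) ∣ L.b s.1 * u + L.cc s s') ↔
      ((L.d * s'.2 : ℕ) : ℤ) ∣ T L.d L.m L.r (s.1 + L.d * s.2 * u) - s'.1 := by
  have hK : (L.K s : ℤ) ≠ 0 := by exact_mod_cast (L.K_pos hs).ne'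
  rw [← mul_dvd_mul_iff_left hK, ← L.KD h, L.T_shift, mul_add, L.K_cc h]
  have e : (L.K s : ℤ) * (L.b s.1 * u) + (T L.d L.m L.r s.1 - s'.1)
      = T L.d L.m L.r s.1 + L.b s.1 * L.K s * u - s'.1 := by ring
  rw [e, Nat.cast_mul (L.K s)]

theorem exu' (s : L.St) (u : ℤ) : ∃! e : L.Ed, e.1.1 = s ∧
    ((L.d / L.g e.1.1.1 : ℕ) : ℤ) ∣ L.b e.1.1.1.1 * u + L.cc e.1.1.1 e.1.2.1 := by
  obtain ⟨s, hs⟩ := s
  set k' := L.K s / L.g s with hk'
  have hk0 : 0 < k' := Nat.div_pos (Nat.le_of_dvd (L.K_pos hs) (L.g_dvdK s)) (L.g_pos s)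
  have hM : (0 : ℤ) < ((L.d * k' : ℕ) : ℤ) := by exact_mod_cast Nat.mul_pos L.d_pos hk0
  set x := T L.d L.m L.r (s.1 + L.d * s.2 * u) with hx
  have h1 := Int.emod_nonneg x hM.ne'
  have h2 := Int.emod_lt_of_pos x hM
  have e0 : (((x % ((L.d * k' : ℕ) : ℤ)).toNat : ℕ) : ℤ) = x % ((L.d * k' : ℕ) : ℤ) := by omega
  have hKd : (L.K s : ℤ) ∣ ((L.d * k' : ℕ) : ℤ) := by
    obtain ⟨w, hw⟩ := L.g_dvd s
    have : L.d * k' = L.K s * w := by
      conv_rhs => rw [← Nat.mul_div_cancel' (L.g_dvdK s), ← hk']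
      rw [hw]; ring
    rw [this]; push_cast; exact Dvd.intro _ rfl
  have htr : L.Tr s ((x % ((L.d * k' : ℕ) : ℤ)).toNat, k') := by
    refine ⟨by simp only; omega, rfl, ?_⟩
    simp only
    rw [e0]
    have a1 : x % ((L.d * k' : ℕ) : ℤ) ≡ x [ZMOD (L.K s : ℕ)] :=
      (Int.mod_modEq x _).of_dvd hKd
    have a2 : T L.d L.m L.r s.1 ≡ x [ZMOD (L.K s : ℕ)] := by
      rw [hx, L.T_shift, Int.modEq_iff_dvd]
      exact ⟨L.b s.1 * u, by ring⟩
    exact a2.trans a1.symm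
  have hmem := L.closed s hs _ ((L.P_pos _ _).2 htr)
  refine ⟨⟨(⟨s, hs⟩, ⟨_, hmem⟩), htr⟩, ⟨rfl, ?_⟩, ?_⟩
  · simp only
    rw [L.dvd_iff hs htr, ← hx]
    simp only
    rw [e0]
    exact (Int.mod_modEq x _).dvd
  · rintro ⟨⟨⟨s1, hs1⟩, ⟨⟨j, k⟩, hs2⟩⟩, he⟩ ⟨h3, h4⟩
    simp only [Subtype.mk.injEq] at h3
    subst h3
    simp only at he h4
    rw [L.dvd_iff hs he, ← hx] at h4
    have hk : k = k' := he.2.1
    subst hk
    have hj : j < L.d * k' := he.1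
    have : x % ((L.d * k' : ℕ) : ℤ) = (j : ℤ) % ((L.d * k' : ℕ) : ℤ) :=
      (Int.modEq_iff_dvd.2 h4).symm
    rw [Int.emod_eq_of_lt (a := (j : ℤ)) (by omega) (by exact_mod_cast hj)] at this
    have hj' : j = (x % ((L.d * k' : ℕ) : ℤ)).toNat := by omega
    subst hj'
    rfl

theorem inv_D (s : ℕ × ℕ) : (1 : ℝ) / ((L.d / L.g s : ℕ) : ℝ) = (L.g s : ℝ) / L.d := by
  obtain ⟨w, hw⟩ := L.g_dvd s
  have h1 : L.d / L.g s = w := Nat.div_eq_of_eq_mul_right (L.g_pos s) hw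
  have h2 : (0 : ℝ) < L.g s := by exact_mod_cast L.g_pos s
  have h3 : (L.d : ℝ) = L.g s * w := by exact_mod_cast hw
  have h4 : (0 : ℝ) < L.d := by exact_mod_cast L.d_pos
  have h5 : (w : ℝ) ≠ 0 := by rintro h; rw [h] at h3; linarith
  rw [h1, h3]; field_simp

noncomputable def sys : Sys L.St L.Ed where
  d := L.d
  src e := e.1.1
  tgt e := e.1.2
  b e := L.b e.1.1.1.1
  D e := L.d / L.g e.1.1.1
  c e := L.cc e.1.1.1 e.1.2.1
  π s := L.ρ s.1
  d_pos := L.d_pos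
  b_ne e := by
    intro h; apply L.hm e.1.1.1.1; rw [L.hfac, h, zero_mul]
  cop e := L.hb _
  D_dvd e := Nat.div_dvd_of_dvd (L.g_dvd _)
  exu := L.exu'
  π_pos s := L.ρ_pos s.2
  π_sum := by rw [← L.ρ_sum]; exact (sum_subtype L.C (fun _ => Iff.rfl) L.ρ).symm
  stat s' := by
    classical
    rw [← L.ρ_stat s'.1 s'.2,
      sum_subtype L.C (p := fun s => s ∈ L.C) (fun _ => Iff.rfl)
        (fun s => L.ρ s * P L.d L.m L.r L.a s s'.1),
      ← sum_filter_add_sum_filter_not univ (fun s : L.St => L.Tr s.1 s'.1)]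
    rw [sum_eq_zero (s := univ.filter fun s : L.St => ¬ L.Tr s.1 s'.1)
      (fun s hs => by rw [L.P_not _ _ (mem_filter.1 hs).2, mul_zero]), add_zero]
    apply sum_bij (fun e _ => e.1.1)
    · intro e he
      have := (mem_filter.1 he).2
      simp only [mem_filter, mem_univ, true_and]
      rw [← this]; exact e.2
    · intro e he e' he' h
      have h1 := (mem_filter.1 he).2
      have h2 := (mem_filter.1 he').2
      exact Subtype.ext (Prod.ext h (h1.trans h2.symm))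
    · intro s hs
      exact ⟨⟨(s, s'), (mem_filter.1 hs).2⟩, by simp, rfl⟩
    · intro e he
      have h1 := (mem_filter.1 he).2
      rw [← h1, L.P_of _ _ e.2, ← L.inv_D]; ring

theorem irred : L.sys.Irred := by
  intro s t
  have key : ∀ t', Relation.ReflTransGen (fun t t' => 0 < P L.d L.m L.r L.a t t') s.1 t' →
      ∃ h : t' ∈ L.C, Relation.ReflTransGen
        (fun s t => ∃ e, L.sys.src e = s ∧ L.sys.tgt e = t) s ⟨t', h⟩ := by
    intro t' ht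
    induction ht with
    | refl => exact ⟨s.2, Relation.ReflTransGen.refl⟩
    | @tail u v _ huv ih =>
      obtain ⟨hu, ih⟩ := ih
      have hv := L.closed u hu v huv
      exact ⟨hv, ih.tail ⟨⟨(⟨u, hu⟩, ⟨v, hv⟩), (L.P_pos _ _).1 huv⟩, rfl, rfl⟩⟩
  obtain ⟨_, h⟩ := key t.1 (L.comm s.1 s.2 t.1 t.2)
  exact h

/-- the integer attached to a point of the system -/
def val (x : L.St × ℤ) : ℤ := x.1.1.1 + L.d * x.1.1.2 * x.2

theorem val_step (x : L.St × ℤ) : L.val (L.sys.step x) = T L.d L.m L.r (L.val x) := by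
  have h1 := L.sys.step_mul x
  have h2 := L.sys.lab_src x
  set e := L.sys.lab x with he
  have h3 : (L.sys.step x).1 = e.1.2 := rfl
  change e.1.1 = x.1 at h2
  change ((L.d / L.g e.1.1.1 : ℕ) : ℤ) * (L.sys.step x).2
    = L.b e.1.1.1.1 * x.2 + L.cc e.1.1.1 e.1.2.1 at h1
  have h4 := L.K_cc e.2
  have h5 : (L.K e.1.1.1 : ℤ) * ((L.d / L.g e.1.1.1 : ℕ) : ℤ) = L.d * e.1.2.1.2 := by
    exact_mod_cast L.KD e.2
  unfold val
  rw [h3, ← h2, L.T_shift, ← h5, mul_assoc, h1]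
  linear_combination h4

theorem val_iter (n : ℕ) (x : L.St × ℤ) :
    L.val (L.sys.step^[n] x) = (T L.d L.m L.r)^[n] (L.val x) := by
  induction n with
  | zero => rfl
  | succ n ih => rw [Function.iterate_succ_apply', Function.iterate_succ_apply', val_step, ih]

theorem drift [NeZero L.d]
    (h : ∏ i : ZMod L.d, |(L.m i : ℝ) / L.d| ^ (∑ s ∈ L.C with (s.1 : ZMod L.d) = i, L.ρ s) < 1) :
    L.sys.mean (fun e => Real.log (|(L.sys.b e : ℝ)| / L.sys.D e)) < 0 := by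
  have hd : (0 : ℝ) < L.d := by exact_mod_cast L.d_pos
  have hm : ∀ i, 0 < |(L.m i : ℝ) / L.d| := fun i => by
    have : (L.m i : ℝ) ≠ 0 := by exact_mod_cast L.hm i
    positivity
  have h1 : ∑ i : ZMod L.d, (∑ s ∈ L.C with (s.1 : ZMod L.d) = i, L.ρ s) *
      Real.log |(L.m i : ℝ) / L.d| < 0 := by
    have := Real.log_neg (prod_pos fun i _ => Real.rpow_pos_of_pos (hm i) _) h
    rw [Real.log_prod (fun i _ => (Real.rpow_pos_of_pos (hm i) _).ne')] at this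
    simpa only [Real.log_rpow (hm _)] using this
  have h2 : ∑ i : ZMod L.d, (∑ s ∈ L.C with (s.1 : ZMod L.d) = i, L.ρ s) *
      Real.log |(L.m i : ℝ) / L.d| = ∑ s ∈ L.C, L.ρ s * Real.log |(L.m s.1 : ℝ) / L.d| := by
    rw [← sum_fiberwise_of_maps_to (s := L.C) (t := univ) (g := fun s => (s.1 : ZMod L.d))
      (by simp)]
    apply sum_congr rfl; intro i _
    rw [sum_mul]
    apply sum_congr rfl; intro s hs
    rw [(mem_filter.1 hs).2]
  have h3 : ∀ e : L.Ed, Real.log (|(L.sys.b e : ℝ)| / L.sys.D e)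
      = (Real.log |(L.m (L.sys.src e).1.1 : ℝ) / L.d| + Real.log ((L.sys.src e).1.2))
        - Real.log ((L.sys.tgt e).1.2) := by
    intro e
    have k1 : (0 : ℝ) < (e.1.1.1.2 : ℕ) := by exact_mod_cast L.k_pos e.1.1.2
    have k2 : (0 : ℝ) < (e.1.2.1.2 : ℕ) := by exact_mod_cast L.k_pos e.1.2.2
    have k3 : (0 : ℝ) < L.sys.D e := by exact_mod_cast L.sys.D_pos' e
    have k4 : ((e.1.1.1.2 : ℕ) : ℝ) * L.a e.1.1.1.1 * L.sys.D e = L.d * (e.1.2.1.2 : ℕ) := by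
      exact_mod_cast L.KD e.2
    have k5 : (0 : ℝ) < L.a e.1.1.1.1 := by exact_mod_cast L.a_pos _
    change Real.log (|(L.b e.1.1.1.1 : ℝ)| / L.sys.D e)
      = (Real.log |(L.m e.1.1.1.1 : ℝ) / L.d| + Real.log (e.1.1.1.2 : ℕ))
        - Real.log (e.1.2.1.2 : ℕ)
    rw [← Real.log_mul (hm _).ne' k1.ne', ← Real.log_div (mul_pos (hm _) k1).ne' k2.ne']
    congr 1
    rw [L.hfac]; push_cast
    rw [abs_div, abs_mul, abs_of_pos k5, abs_of_pos hd]
    field_simp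
    linear_combination (-|(L.b e.1.1.1.1 : ℝ)|) * k4
  simp only [h3]
  have h4 : L.sys.mean (fun e => (Real.log |(L.m (L.sys.src e).1.1 : ℝ) / L.d|
        + Real.log ((L.sys.src e).1.2)) - Real.log ((L.sys.tgt e).1.2))
      = L.sys.mean (fun e => Real.log |(L.m (L.sys.src e).1.1 : ℝ) / L.d|)
        + L.sys.mean (fun e => Real.log ((L.sys.src e).1.2))
        - L.sys.mean (fun e => Real.log ((L.sys.tgt e).1.2)) := by
    unfold Sys.mean
    rw [← sum_add_distrib, ← sum_sub_distrib]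
    apply sum_congr rfl; intro e _; ring
  rw [h4, L.sys.mean_src (fun s => Real.log |(L.m s.1.1 : ℝ) / L.d|),
    L.sys.mean_src (fun s => Real.log (s.1.2)), L.sys.mean_tgt (fun s => Real.log (s.1.2))]
  rw [h2, sum_subtype L.C (p := fun s => s ∈ L.C) (fun _ => Iff.rfl)] at h1
  have h5 : ∀ s, L.sys.π s = L.ρ s.1 := fun _ => rfl
  simp only [h5]
  linarith

end LData

end Pool.Agent.Lib.MP_39d40e_nt
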