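import Pool.Agent.Lib.MP_39d40e_nt.Key

namespace Pool.Agent.Lib.MP_39d40e_nt

open Finset

theorem card_divisors_pow {b : ℕ} (hb : b ≠ 0) (n : ℕ) :
    #(b ^ n).divisors ≤ (n * b + 1) ^ b := by
  rw [Nat.card_divisors (pow_ne_zero _ hb)]
  have h1 : (b ^ n).primeFactors ⊆ Icc 1 b := fun p hp => by
    have hpp := Nat.prime_of_mem_primeFactors hp
    exact mem_Icc.2 ⟨hpp.one_le, Nat.le_of_dvd (Nat.pos_of_ne_zero hb)
      (hpp.dvd_of_dvd_pow (Nat.dvd_of_mem_primeFactors hp))⟩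
  calc _ ≤ (n * b + 1) ^ #(b ^ n).primeFactors := by
        refine Finset.prod_le_pow_card _ _ _ fun p _ => ?_
        simp only [Nat.factorization_pow, Finsupp.smul_apply, smul_eq_mul]
        exact Nat.succ_le_succ (Nat.mul_le_mul_left _ (Nat.factorization_lt p hb).le)
    _ ≤ _ := Nat.pow_le_pow_right (Nat.succ_pos _) (by simpa using card_le_card h1)

/-- integer divisors -/
def idiv (N : ℕ) : Finset ℤ := N.divisors.image (fun x : ℕ => (x : ℤ)) ∪
  N.divisors.image fun x : ℕ => -(x : ℤ)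

theorem mem_idiv {N : ℕ} (hN : N ≠ 0) {M : ℤ} (h : M ∣ N) : M ∈ idiv N := by
  have h1 : M.natAbs ∈ N.divisors := Nat.mem_divisors.2 ⟨Int.natAbs_dvd_natAbs.2 h, hN⟩
  rcases Int.natAbs_eq M with h2 | h2
  · exact mem_union_left _ (mem_image.2 ⟨_, h1, h2.symm⟩)
  · exact mem_union_right _ (mem_image.2 ⟨_, h1, h2.symm⟩)

theorem of_mem_idiv {N : ℕ} {M : ℤ} (h : M ∈ idiv N) : M ≠ 0 ∧ M.natAbs ∣ N := by
  rcases mem_union.1 h with h | h <;> obtain ⟨x, hx, rfl⟩ := mem_image.1 h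
  · exact ⟨by exact_mod_cast (Nat.pos_of_mem_divisors hx).ne', Nat.dvd_of_mem_divisors hx⟩
  · exact ⟨neg_ne_zero.2 (by exact_mod_cast (Nat.pos_of_mem_divisors hx).ne'),
      by simpa using Nat.dvd_of_mem_divisors hx⟩

theorem card_idiv (N : ℕ) : #(idiv N) ≤ 2 * #N.divisors := by
  refine (card_union_le _ _).trans ?_
  rw [two_mul]; exact add_le_add card_image_le card_image_le

theorem sum_ite_unique {ι : Type*} (I : Finset ι) (P : ι → Prop) {inst : ∀ i, Decidable (P i)}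
    {inst' : Decidable (∃ i ∈ I, P i)} (h : ∀ i ∈ I, ∀ j ∈ I, P i → P j → i = j) (x : ℝ) :
    x = (∑ i ∈ I, if P i then x else 0) + if ∃ i ∈ I, P i then 0 else x := by
  split_ifs with hx
  · obtain ⟨i, hi, hP⟩ := hx
    rw [Finset.sum_eq_single i (fun j hj hne => if_neg fun hj' => hne (h j hj i hi hj' hP))
      (fun h => absurd hi h), if_pos hP, add_zero]
  · rw [Finset.sum_eq_zero fun i hi => if_neg fun hP => hx ⟨i, hi, hP⟩, zero_add]

namespace Sys

variable {S E : Type*} [Fintype S] [Fintype E] [DecidableEq S] [DecidableEq E] {X : Sys S E}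

theorem Small.poly {P : ℕ → List E → Prop} (h : X.Small P) (A : ℕ) {ν : ℝ} (hν : 0 < ν) :
    ∃ C : ℝ, 0 ≤ C ∧ ∀ n m : ℕ, 1 ≤ n → ν * n ≤ m → ∀ s, X.Pr m s (P m) ≤ C / (n : ℝ) ^ A := by
  obtain ⟨C, c, hC, hc, h⟩ := h
  obtain ⟨C₂, hC₂, h2⟩ := poly_exp_bdd A (mul_pos hc hν)
  refine ⟨C * C₂, by positivity, fun n m hn hm s => (h m s).trans ?_⟩
  have hn' : (0 : ℝ) < n := by exact_mod_cast hn
  rw [le_div_iff₀ (by positivity), mul_assoc]
  refine mul_le_mul_of_nonneg_left (le_trans ?_ (h2 n)) hC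
  rw [mul_comm]
  refine mul_le_mul (pow_le_pow_left₀ hn'.le (by linarith) A) (Real.exp_le_exp.2 ?_)
    (Real.exp_pos _).le (by positivity)
  rw [mul_assoc]; exact neg_le_neg (mul_le_mul_of_nonneg_left hm hc.le)

theorem Pr_drop {m n : ℕ} {s : S} {P : List E → Prop} {x : ℝ} (h : ∀ t, X.Pr n t P ≤ x) :
    X.Pr (m + n) s (fun l => P (l.drop m)) ≤ x := by
  rw [Pr, Ex_append]
  refine X.Ex_le_const fun o ho => le_trans (le_of_eq ?_) (h (X.endp s o))
  rw [Pr]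
  refine X.Ex_congr fun i _ => ?_
  rw [List.drop_left' (X.length_of_mem_Paths ho)]

theorem Good.big_ratio (h : X.Good) (A : ℕ) : ∃ (K : ℕ) (C : ℝ), 0 ≤ C ∧ ∀ n : ℕ, 1 ≤ n → ∀ s,
    X.Pr n s (fun l => ∃ t ∈ range (n + 1),
      (n : ℤ) ^ K * X.DP (l.take t) < |X.bP (l.take t)|) ≤ C / (n : ℝ) ^ A := by
  obtain ⟨C, hC, ht⟩ := X.tail (h.poisson _ addi_logr)
  have hd := h.drift
  set μ := X.mean fun e => Real.log (|(X.b e : ℝ)| / X.D e) with hμ
  set θ : ℝ := min 1 (-μ / C) with hθ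
  have hθ0 : 0 < θ := lt_min one_pos (div_pos (by linarith) (by linarith))
  have hθ1 : θ ≤ 1 := min_le_left _ _
  have hθ2 : C * θ ≤ -μ := by
    have : θ ≤ -μ / C := min_le_right _ _
    rwa [le_div_iff₀ (by linarith), mul_comm] at this
  obtain ⟨K, hK⟩ := exists_nat_ge (((A : ℝ) + 1) / θ)
  rw [div_le_iff₀ hθ0] at hK
  refine ⟨K, 2 * C, by linarith, fun n hn s => (X.Pr_exists _ _ _ _).trans ?_⟩
  have hn' : (1 : ℝ) ≤ n := by exact_mod_cast hn
  have hlog := Real.log_nonneg hn'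
  calc _ ≤ ∑ t ∈ range (n + 1), C / (n : ℝ) ^ (A + 1) := by
        refine Finset.sum_le_sum fun t htn => ?_
        rw [X.Pr_take' (Nat.lt_succ_iff.1 (mem_range.1 htn)) s
          fun l => (n : ℤ) ^ K * X.DP l < |X.bP l|]
        refine le_trans (X.Pr_mono fun l _ hl => ?_)
          ((ht θ hθ0.le hθ1 t s (K * Real.log n - t * μ)).1.trans ?_)
        · rw [Addi.sum_map X addi_logr, sub_le_sub_iff_right, ← Real.log_pow]
          refine Real.log_le_log (by positivity) ?_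
          rw [le_div_iff₀ (by exact_mod_cast X.DP_pos l)]
          exact_mod_cast hl.le
        · rw [div_eq_mul_inv]
          refine mul_le_mul_of_nonneg_left ?_ (by linarith)
          rw [← Real.exp_log (by positivity : (0 : ℝ) < (n : ℝ) ^ (A + 1)), ← Real.exp_neg,
            Real.exp_le_exp, Real.log_pow]
          have h1 := mul_le_mul_of_nonneg_right hθ2 (by positivity : 0 ≤ θ * t)
          have h2 := mul_le_mul_of_nonneg_right hK hlog
          push_cast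
          linarith
    _ ≤ _ := by
        rw [Finset.sum_const, card_range, nsmul_eq_mul, pow_succ, ← mul_div_assoc,
          div_le_div_iff₀ (by positivity) (by positivity)]
        push_cast
        have : 0 ≤ C * (n : ℝ) ^ A := by positivity
        nlinarith

variable (X) in
def cm : ℕ := ∑ e, (X.c e).natAbs

omit [DecidableEq E] in
theorem cP_bound {Y : ℤ} (hY : 0 ≤ Y) (l : List E)
    (h : ∀ t, |X.bP (l.take t)| ≤ Y * X.DP (l.take t)) :
    |X.cP l| ≤ X.cm * l.length * Y * X.DP l := by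
  induction l using List.reverseRecOn with
  | nil => simp
  | append_singleton l e ih =>
    have h1 := ih fun t => by
      rcases le_total t l.length with ht | ht
      · simpa [List.take_append_of_le_length ht] using h t
      · simpa [List.take_of_length_le ht] using h l.length
    have h2 : |X.bP l| ≤ Y * X.DP l := by simpa using h l.length
    have h3 : |X.c e| ≤ X.cm := by
      rw [Int.abs_eq_natAbs]
      exact_mod_cast Finset.single_le_sum (f := fun e => (X.c e).natAbs)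
        (fun _ _ => Nat.zero_le _) (mem_univ e)
    have h4 : (1 : ℤ) ≤ X.D e := by exact_mod_cast X.D_pos e
    rw [cP_append, DP_append]
    simp only [cP_cons, cP_nil, DP_cons, DP_nil, mul_zero, Nat.cast_one, mul_one, zero_add,
      List.length_append, List.length_singleton, Nat.cast_add, Nat.cast_mul]
    refine (abs_add_le _ _).trans ?_
    rw [abs_mul, abs_mul, Nat.abs_cast]
    have h5 := mul_le_mul h2 h3 (abs_nonneg _) (by positivity)
    have h6 := mul_le_mul_of_nonneg_right h1 (by linarith : (0 : ℤ) ≤ X.D e)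
    have h7 := mul_le_mul_of_nonneg_left h4 (by positivity : (0 : ℤ) ≤ Y * X.DP l * X.cm)
    linarith

variable (X) in
/-- the cut condition -/
def Cut (Z : ℕ) (s : S) (κ : ℕ × ℤ × ℤ × ℕ × S) (o : List E) : Prop :=
  κ.2.1.natAbs * X.B0 < X.DP o * Z ∧ (∀ t < κ.1, X.DP (o.take t) * Z ≤ κ.2.1.natAbs * X.B0) ∧
    2 * |X.cP o| < (κ.2.1.natAbs * X.B0 : ℕ) ∧ X.bP o = κ.2.2.1 ∧ X.DP o = κ.2.2.2.1 ∧
    X.endp s o = κ.2.2.2.2

omit [DecidableEq E] in
theorem cut_unique {Z : ℕ} {s : S} {κ κ' : ℕ × ℤ × ℤ × ℕ × S} {l : List E}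
    (h : X.Cut Z s κ (l.take κ.1) ∧ X.bP l = κ.2.1)
    (h' : X.Cut Z s κ' (l.take κ'.1) ∧ X.bP l = κ'.2.1) : κ = κ' := by
  obtain ⟨k, M, M₁, D₁, t⟩ := κ
  obtain ⟨k', M', M₁', D₁', t'⟩ := κ'
  obtain ⟨⟨h1, h2, -, h4, h5, h6⟩, h7⟩ := h
  obtain ⟨⟨h1', h2', -, h4', h5', h6'⟩, h7'⟩ := h'
  simp only at *
  obtain rfl : M = M' := h7.symm.trans h7'
  obtain rfl : k = k' := by
    rcases lt_trichotomy k k' with hk | hk | hk
    · have := h2' k hk
      rw [List.take_take, min_eq_left hk.le] at this; omega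
    · exact hk
    · have := h2 k' hk
      rw [List.take_take, min_eq_left hk.le] at this; omega
  rw [← h4, ← h4', ← h5, ← h5', ← h6, ← h6']

omit [DecidableEq E] in
theorem exists_cut {n n₁ : ℕ} (hn₁ : n₁ ≤ n) {Y : ℕ} (s : S) {l : List E} (hl : l.length = n)
    (h1 : (X.bP l).natAbs * X.B0 < X.DP (l.take n₁))
    (h2 : ∀ t ∈ range (n + 1), |X.bP (l.take t)| ≤ Y * X.DP (l.take t)) :
    ∃ k ≤ n₁, X.Cut (2 * X.cm * n * Y * X.d + 1) s
      (k, X.bP l, X.bP (l.take k), X.DP (l.take k), X.endp s (l.take k)) (l.take k) := by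
  classical
  set Z := 2 * X.cm * n * Y * X.d + 1 with hZ
  set Q := (X.bP l).natAbs * X.B0 with hQ
  have hQ0 : 0 < Q := Nat.mul_pos (Int.natAbs_pos.2 (X.bP_ne l)) X.B0_pos
  have h3 : Q < X.DP (l.take n₁) * Z := h1.trans_le (Nat.le_mul_of_pos_right _ (Nat.succ_pos _))
  have hex : ∃ k, Q < X.DP (l.take k) * Z := ⟨n₁, h3⟩
  have hk := Nat.find_min' hex h3
  refine ⟨Nat.find hex, hk, Nat.find_spec hex, fun t ht => ?_, ?_, rfl, rfl, rfl⟩
  · rw [List.take_take, min_eq_left ht.le]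
    exact not_lt.1 (Nat.find_min hex ht)
  · simp only
    rw [← hQ]
    rcases Nat.eq_zero_or_pos (Nat.find hex) with h0 | h0
    · rw [h0]; simpa using hQ0
    obtain ⟨j, hj⟩ : ∃ j, Nat.find hex = j + 1 := ⟨Nat.find hex - 1, by omega⟩
    have h4 : X.DP (l.take j) * Z ≤ Q := not_lt.1 (Nat.find_min hex (by omega))
    rw [hj] at hk ⊢
    have hjl : j < l.length := by omega
    have h5 : X.DP (l.take (j + 1)) ≤ X.DP (l.take j) * X.d := by
      rw [← List.take_append_getElem hjl, DP_append]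
      exact Nat.mul_le_mul_left _ (by simpa using Nat.le_of_dvd X.d_pos (X.D_dvd _))
    have h6 := cP_bound (X := X) (Nat.cast_nonneg Y) (l.take (j + 1)) fun t => by
      rw [List.take_take]
      exact h2 _ (mem_range.2 (by omega))
    have h7 : ((l.take (j + 1)).length : ℤ) ≤ n := by
      rw [List.length_take]; exact_mod_cast (by omega)
    have h8 : |X.cP (l.take (j + 1))| ≤ X.cm * n * Y * (X.DP (l.take j) * X.d) :=
      h6.trans (mul_le_mul (mul_le_mul_of_nonneg_right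
        (mul_le_mul_of_nonneg_left h7 (by positivity)) (by positivity)) (by exact_mod_cast h5)
        (by positivity) (by positivity))
    have h9 : (X.DP (l.take j) : ℤ) * (2 * X.cm * n * Y * X.d + 1) ≤ Q := by exact_mod_cast h4
    have h10 : (0 : ℤ) < X.DP (l.take j) := by exact_mod_cast X.DP_pos _
    linarith

theorem Good.mix (h : X.Good) : X.Mix := by
  classical
  intro A
  obtain ⟨B, ρ₁, ρ₂, hB, hρ₁, hρ, hBp, hup, hdn⟩ := h.exists_B
  obtain ⟨ρ₀, hρ₀, hlow⟩ := h.low_b hB fun p hp => (hBp p hp).1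
  have hρ₂ : 0 < ρ₂ := hρ₁.trans hρ
  set ν : ℝ := (1 - ρ₁ / ρ₂) / 2 with hν
  have hν0 : 0 < ν := by
    have : ρ₁ / ρ₂ < 1 := (div_lt_one hρ₂).2 hρ
    rw [hν]; linarith
  obtain ⟨K, C₁, hC₁, hE1⟩ := h.big_ratio A
  obtain ⟨C₂, hC₂, hE2⟩ := hup.poly A one_pos
  obtain ⟨C₃, hC₃, hE3⟩ := hdn.poly A (div_pos hρ₁ hρ₂)
  obtain ⟨C₄, hC₄, hE4⟩ := hlow.poly A hν0
  set A' := A + (1 + X.B0 + X.B0 + X.d + (K + 1)) with hA'
  obtain ⟨C₅, hC₅, hΦ⟩ := phi_decay h hB hρ₁ hρ (fun p hp => (hBp p hp).2) hup hdn A'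
  obtain ⟨n₀, hn₀⟩ := exists_nat_ge ((((X.B0 : ℝ) + 1) / ρ₂ + 1) / ν)
  set P : ℝ := ∑ s, (X.π s)⁻¹ with hP
  have hP0 : 0 ≤ P := Finset.sum_nonneg fun s _ => (inv_pos.2 (X.π_pos s)).le
  set C₆ : ℝ := 2 * (2 * (X.B0 + 1) ^ X.B0) * (2 * (X.B0 + 1) ^ X.B0) * (X.d + 1) ^ X.d *
    Fintype.card S * (C₅ / (ρ₀ * ν) ^ A' * ((2 * X.cm * X.d + 1) * P)) with hC₆
  have hC₆0 : 0 ≤ C₆ := by positivity
  refine ⟨(n₀ : ℝ) ^ A + (C₁ + C₂ + C₃ + C₄ + C₆), fun n hn s g hper hmean hg1 => ?_⟩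
  have hn' : (1 : ℝ) ≤ n := by exact_mod_cast hn
  have hBn : (0 : ℝ) < (X.B0 : ℝ) ^ (n + 1) := by have := X.B0_pos; positivity
  change ∑ z ∈ range (X.B0 ^ (n + 1)),
    |X.Ex n s fun l => X.HZ (g (X.endp s l) (X.bP l) (X.DP l)) l (z : ℕ)| ≤ _
  have hbad : ∀ (Bad : List E → Prop) {inst : ∀ l, Decidable (Bad l)},
      ∑ z ∈ range (X.B0 ^ (n + 1)), |X.Ex n s fun l =>
        if Bad l then 0 else X.HZ (g (X.endp s l) (X.bP l) (X.DP l)) l (z : ℕ)| ≤
        X.Pr n s (fun l => ¬ Bad l) * (X.B0 : ℝ) ^ (n + 1) := by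
    intro Bad _
    refine (Finset.sum_le_sum fun z _ => X.abs_Ex_le _ _ _).trans ?_
    rw [← Ex_sum, Pr, ← Ex_mul_const]
    refine X.Ex_mono fun l hl => ?_
    by_cases hb : Bad l
    · simp [hb]
    · simp only [hb, if_false, not_false_eq_true, if_true, one_mul]
      have := sum_abs_HZ_le (hper (X.endp s l) (X.bP l) (X.DP l)) (hg1 _ _ _) l
      rwa [X.length_of_mem_Paths hl] at this
  rcases le_or_gt n n₀ with hnn | hnn
  · have h1 := hbad (fun _ => False) (inst := fun _ => inferInstance)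
    simp only [if_false] at h1
    refine h1.trans (mul_le_mul_of_nonneg_right ((X.Pr_le_one _ _ _).trans ?_) hBn.le)
    rw [le_div_iff₀ (by positivity), one_mul]
    have : (n : ℝ) ^ A ≤ (n₀ : ℝ) ^ A := pow_le_pow_left₀ (by positivity) (by exact_mod_cast hnn) A
    linarith
  have hnn' : (n₀ : ℝ) ≤ n := by exact_mod_cast hnn.le
  set j₁ := ⌈ρ₁ * n⌉₊ with hj₁
  set n₁ := ⌈((j₁ : ℝ) + X.B0) / ρ₂⌉₊ with hn₁
  have hj1 : ρ₁ * n ≤ j₁ := Nat.le_ceil _
  have hj2 : (j₁ : ℝ) ≤ ρ₁ * n + 1 := (Nat.ceil_lt_add_one (by positivity)).le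
  have hn1 : ((j₁ : ℝ) + X.B0) / ρ₂ ≤ n₁ := Nat.le_ceil _
  have hn2 : (n₁ : ℝ) + ν * n ≤ n := by
    have h1 : (n₁ : ℝ) ≤ ((j₁ : ℝ) + X.B0) / ρ₂ + 1 := (Nat.ceil_lt_add_one (by positivity)).le
    have h2 : ((j₁ : ℝ) + X.B0) / ρ₂ ≤ (ρ₁ * n + (X.B0 + 1)) / ρ₂ :=
      div_le_div_of_nonneg_right (by linarith) hρ₂.le
    have h3 : (ρ₁ * n + (X.B0 + 1)) / ρ₂ = n - 2 * (ν * n) + (X.B0 + 1) / ρ₂ := by
      rw [hν]; field_simp; ring
    have h4 := hn₀.trans hnn'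
    rw [div_le_iff₀ hν0, mul_comm (n : ℝ)] at h4
    linarith
  have hn3 : n₁ ≤ n := by
    have : (n₁ : ℝ) ≤ n := by linarith [mul_nonneg hν0.le (Nat.cast_nonneg n : (0 : ℝ) ≤ n)]
    exact_mod_cast this
  obtain ⟨n₂, hn₂⟩ := Nat.exists_eq_add_of_le hn3
  have hn4 : ν * n ≤ n₂ := by
    have : (n : ℝ) = n₁ + n₂ := by exact_mod_cast hn₂
    linarith
  set j₂ := ⌊ρ₀ * n₂⌋₊ with hj₂
  set Z := 2 * X.cm * n * n ^ K * X.d + 1 with hZ
  set 𝒦 : Finset (ℕ × ℤ × ℤ × ℕ × S) := (range (n + 1) ×ˢ idiv (X.B0 ^ n) ×ˢ idiv (X.B0 ^ n) ×ˢ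
    (X.d ^ n).divisors ×ˢ univ).filter fun κ => (B : ℤ) ^ j₂ * κ.2.2.1 ∣ κ.2.1 with h𝒦
  set I : ℕ × ℤ × ℤ × ℕ × S → List E → Prop := fun κ l =>
    X.Cut Z s κ (l.take κ.1) ∧ X.bP l = κ.2.1 with hI
  have hsplit : ∀ z : ℕ, (X.Ex n s fun l => X.HZ (g (X.endp s l) (X.bP l) (X.DP l)) l z) =
      (∑ κ ∈ 𝒦, X.Ex n s fun l =>
        if I κ l then X.HZ (g (X.endp s l) (X.bP l) (X.DP l)) l z else 0) +
      X.Ex n s fun l => if ∃ κ ∈ 𝒦, I κ l then 0 else
        X.HZ (g (X.endp s l) (X.bP l) (X.DP l)) l z := by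
    intro z
    rw [← Ex_sum, ← Ex_add]
    exact X.Ex_congr fun l _ => sum_ite_unique 𝒦 (I · l) (fun _ _ _ _ => cut_unique) _
  have hPr : X.Pr n s (fun l => ¬ ∃ κ ∈ 𝒦, I κ l) ≤ (C₁ + C₂ + C₃ + C₄) / (n : ℝ) ^ A := by
    have e1 := hE1 n hn s
    have e2 := hE2 n n hn (by rw [one_mul]) s
    have e3 := hE3 n n₁ hn (le_trans (by
      rw [div_mul_eq_mul_div]
      exact div_le_div_of_nonneg_right (by linarith [(Nat.cast_nonneg X.B0 : (0 : ℝ) ≤ _)]) hρ₂.le)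
      hn1) s
    rw [← X.Pr_take' hn3] at e3
    have e4 := Pr_drop (m := n₁) (s := s) (hE4 n n₂ hn hn4)
    rw [← hn₂] at e4
    refine le_trans (X.Pr_mono ?_) (((X.Pr_or _ _ _ _).trans (add_le_add e1
      ((X.Pr_or _ _ _ _).trans (add_le_add e2 ((X.Pr_or _ _ _ _).trans
        (add_le_add e3 e4)))))).trans (le_of_eq (by ring)))
    intro l hl hno
    have hlen := X.length_of_mem_Paths hl
    by_contra hcon
    push Not at hcon
    obtain ⟨c1, c2, c3, c4⟩ := hcon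
    apply hno
    have d2 := c2 j₁ hj1
    have d3 := c3 (j₁ + X.B0) (by
      rw [div_le_iff₀ hρ₂, mul_comm] at hn1; push_cast; exact hn1)
    have d4 := c4 j₂ (Nat.floor_le (by positivity))
    have d5 : (X.bP l).natAbs * X.B0 ≤ B ^ (j₁ + X.B0) := by
      refine Nat.le_of_dvd (pow_pos (Nat.pos_of_ne_zero hB) _) ?_
      rw [pow_add]
      exact Nat.mul_dvd_mul (by exact_mod_cast Int.natAbs_dvd.2 d2)
        (dvd_pow_of_primes X.B0_pos.ne' hB (fun p hp => (hBp p hp).2) le_rfl)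
    obtain ⟨k, hk, hcut⟩ := exists_cut hn3 (Y := n ^ K) s hlen (d5.trans_lt d3)
      (fun t ht => by exact_mod_cast c1 t ht)
    refine ⟨_, mem_filter.2 ⟨?_, ?_⟩, hcut, rfl⟩
    · have hB0 := pow_ne_zero n X.B0_pos.ne'
      have hkl : (l.take k).length ≤ n := (List.length_take_le _ _).trans (by omega)
      simp only [mem_product, mem_range, mem_univ, and_true]
      refine ⟨by omega, mem_idiv hB0 ?_, mem_idiv hB0 ?_, Nat.mem_divisors.2 ⟨?_, ?_⟩⟩
      · have := X.bP_dvd l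
        rw [hlen] at this; exact_mod_cast this
      · exact_mod_cast (X.bP_dvd _).trans (pow_dvd_pow _ hkl)
      · exact (X.DP_dvd _).trans (pow_dvd_pow _ hkl)
      · exact pow_ne_zero _ X.d_pos.ne'
    · simp only
      obtain ⟨r, hr⟩ := Nat.exists_eq_add_of_le hk
      conv_rhs => rw [← List.take_append_drop k l, ← List.take_append_drop r (l.drop k),
        bP_append, bP_append, List.drop_drop, ← hr, mul_comm]
      exact mul_dvd_mul_right (d4.mul_left _) _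
  have hkey : ∀ κ ∈ 𝒦, ∑ z ∈ range (X.B0 ^ (n + 1)), |X.Ex n s fun l =>
      if I κ l then X.HZ (g (X.endp s l) (X.bP l) (X.DP l)) l (z : ℕ) else 0| ≤
      (X.B0 : ℝ) ^ (n + 1) * (C₅ / ((j₂ : ℝ) + 1) ^ A' * (Z * P)) := by
    rintro ⟨k, M, M₁, D₁, t⟩ hκ
    obtain ⟨hκ, hdv⟩ := mem_filter.1 hκ
    simp only [mem_product, mem_range] at hκ hdv
    obtain ⟨hk, hM, -⟩ := hκ
    obtain ⟨hM0, hMd⟩ := of_mem_idiv hM
    set Q := M.natAbs * X.B0 with hQ
    have : NeZero Q := ⟨mul_ne_zero (Int.natAbs_ne_zero.2 hM0) X.B0_pos.ne'⟩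
    have hQd : Q ∣ X.B0 ^ (n + 1) := by rw [pow_succ]; exact Nat.mul_dvd_mul_right hMd _
    have hc : X.d.Coprime Q := Nat.Coprime.coprime_dvd_right hQd
      ((Nat.isCoprime_iff_coprime.1 X.B0_cop).symm.pow_right _)
    have hQB : Q ∣ B ^ (X.B0 * (n + 1)) := by
      rw [pow_mul]
      exact hQd.trans (pow_dvd_pow_of_dvd
        (dvd_pow_of_primes X.B0_pos.ne' hB (fun p hp => (hBp p hp).2) le_rfl) _)
    obtain ⟨r, hr⟩ := hQd
    obtain ⟨n', rfl⟩ := Nat.exists_eq_add_of_le (Nat.lt_succ_iff.1 hk)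
    have hPs : (X.π s)⁻¹ ≤ P :=
      Finset.single_le_sum (f := fun s => (X.π s)⁻¹) (fun s _ => (inv_pos.2 (X.π_pos s)).le)
        (mem_univ s)
    have hπ1 : ∀ t, X.π t ≤ 1 := fun t => X.π_sum ▸
      Finset.single_le_sum (f := X.π) (fun s _ => (X.π_pos s).le) (mem_univ t)
    have hZ1 : (1 : ℝ) ≤ Z := by exact_mod_cast Nat.succ_pos _
    have hb := key_bound (k := k) (n := n') (s := s) (t := t) (M₁ := M₁) (D₁ := D₁) hc hQ hmean hg1
      (X.Cut Z s (k, M, M₁, D₁, t)) (inst := fun l => Classical.propDecidable _) (W := Z * P)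
      (ε := C₅ / ((j₂ : ℝ) + 1) ^ A')
      (one_le_mul_of_one_le_of_one_le hZ1 (((one_le_inv₀ (X.π_pos s)).2 (hπ1 s)).trans hPs))
      (by positivity) (fun o ho hCo => ⟨hCo.2.2.2.1, hCo.2.2.2.2.1, hCo.2.2.2.2.2, hCo.2.2.1, by
        have h1 : (Q : ℝ) ≤ X.DP o * Z := by exact_mod_cast hCo.1.le
        have h2 : (0 : ℝ) < X.DP o := by exact_mod_cast X.DP_pos o
        have h3 := X.π_pos s
        calc Q * X.wt o ≤ (X.DP o * Z) * (1 / (X.DP o * X.π s)) := by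
              rw [X.wt_eq ho]
              exact mul_le_mul h1 (div_le_div_of_nonneg_right (hπ1 _) (by positivity))
                (div_pos (X.π_pos _) (by positivity)).le (by positivity)
          _ = Z * (X.π s)⁻¹ := by field_simp
          _ ≤ _ := mul_le_mul_of_nonneg_left hPs (by linarith)⟩) hdv hM0
      (fun a G h1 h2 h3 => hΦ Q hc ⟨_, hQB⟩ n' t a G h1 h2 j₂ (by exact_mod_cast h3))
    rw [← Nat.cast_pow, hr]
    refine le_trans (le_of_eq ?_) ((mul_le_mul_of_nonneg_left hb (Nat.cast_nonneg r)).trans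
      (le_of_eq (by push_cast; ring)))
    rw [← sum_range_zmod]
    refine Finset.sum_congr rfl fun z _ => congrArg _ (X.Ex_congr fun l _ => ?_)
    by_cases hIl : I (k, M, M₁, D₁, t) l
    · rw [if_pos hIl, if_pos hIl, HZ_eq (hper _ _ _) (Q := Q) (by rw [hQ, hIl.2]),
        Int.cast_natCast]
    · rw [if_neg hIl, if_neg hIl]
  have hcard : (#𝒦 : ℝ) ≤ 2 * (2 * (X.B0 + 1) ^ X.B0) * (2 * (X.B0 + 1) ^ X.B0) *
      (X.d + 1) ^ X.d * Fintype.card S * (n : ℝ) ^ (1 + X.B0 + X.B0 + X.d) := by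
    have h1 : ∀ b : ℕ, b ≠ 0 → #(b ^ n).divisors ≤ (b + 1) ^ b * n ^ b := fun b hb => by
      rw [← mul_pow]
      exact (card_divisors_pow hb n).trans (Nat.pow_le_pow_left (by nlinarith) _)
    have h2 := (card_idiv _).trans (Nat.mul_le_mul_left 2 (h1 X.B0 X.B0_pos.ne'))
    have h3 : #𝒦 ≤ (2 * n) * ((2 * ((X.B0 + 1) ^ X.B0 * n ^ X.B0)) *
        ((2 * ((X.B0 + 1) ^ X.B0 * n ^ X.B0)) * (((X.d + 1) ^ X.d * n ^ X.d) * Fintype.card S))) := by
      refine (card_filter_le _ _).trans ?_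
      simp only [card_product, card_range, card_univ]
      exact Nat.mul_le_mul (by omega) (Nat.mul_le_mul h2 (Nat.mul_le_mul h2
        (Nat.mul_le_mul_right _ (h1 X.d X.d_pos.ne'))))
    refine le_trans (Nat.cast_le.2 h3) (le_of_eq ?_)
    push_cast; ring
  have hZ2 : (Z : ℝ) ≤ (2 * X.cm * X.d + 1) * (n : ℝ) ^ (K + 1) := by
    have := one_le_pow₀ hn' (n := K + 1)
    rw [hZ]; push_cast; rw [add_mul, one_mul]
    exact add_le_add (le_of_eq (by ring)) this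
  have hj3 : C₅ / ((j₂ : ℝ) + 1) ^ A' ≤ C₅ / (ρ₀ * ν) ^ A' / (n : ℝ) ^ A' := by
    rw [div_div, ← mul_pow]
    refine div_le_div_of_nonneg_left hC₅ (by positivity) (pow_le_pow_left₀ (by positivity) ?_ _)
    have := (Nat.lt_floor_add_one (ρ₀ * n₂)).le
    rw [mul_assoc]
    exact (mul_le_mul_of_nonneg_left hn4 hρ₀.le).trans this
  have hgood : (#𝒦 : ℝ) * (C₅ / ((j₂ : ℝ) + 1) ^ A' * (Z * P)) ≤ C₆ / (n : ℝ) ^ A := by
    refine (mul_le_mul hcard (mul_le_mul hj3 (mul_le_mul_of_nonneg_right hZ2 hP0) (by positivity)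
      (by positivity)) (by positivity) (by positivity)).trans (le_of_eq ?_)
    rw [hC₆, hA']; field_simp; ring
  simp only [hsplit]
  refine (Finset.sum_le_sum fun z _ => (abs_add_le _ _).trans
    (add_le_add (Finset.abs_sum_le_sum_abs _ _) le_rfl)).trans ?_
  rw [Finset.sum_add_distrib, Finset.sum_comm]
  refine (add_le_add (Finset.sum_le_sum hkey) (hbad _)).trans ?_
  rw [Finset.sum_const, nsmul_eq_mul, mul_left_comm, mul_comm ((X.B0 : ℝ) ^ (n + 1)), ← add_mul]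
  refine mul_le_mul_of_nonneg_right ((add_le_add hgood hPr).trans ?_) hBn.le
  rw [← add_div]
  exact div_le_div_of_nonneg_right (by linarith [(by positivity : (0 : ℝ) ≤ (n₀ : ℝ) ^ A)])
    (by positivity)

end Sys

end Pool.Agent.Lib.MP_39d40e_nt
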