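import Pool.Agent.Lib.MP_39d40e_nt.Power
import Pool.Agent.Lib.MP_39d40e_nt.Leigh
import Pool.Agent.Lib.MP_39d40e_nt.Mix

/-! Assembly for Leigh's chain. -/

namespace Pool.Agent.Lib.MP_39d40e_nt

open Finset Filter Topology

theorem ext_small (cnt : ℝ → ℕ → ℝ) (h3 : ∀ y, 2 ≤ y → ∀ N, cnt y N ≤ 3 * N) (C y0 : ℝ)
    (hC : 0 ≤ C)
    (h : ∀ y : ℝ, 2 ≤ y → y0 ≤ y → ∀ N : ℕ, cnt y N ≤ C * N / Real.log y ^ (1 / 3 : ℝ)) :
    ∃ K : ℝ, 0 ≤ K ∧ ∀ y : ℝ, 2 ≤ y → ∀ N : ℕ, cnt y N ≤ K * N / Real.log y ^ (1 / 3 : ℝ) := by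
  set K := Real.log (max y0 2) ^ (1 / 3 : ℝ) with hK
  have K0 : 0 ≤ K := Real.rpow_nonneg (Real.log_nonneg (by linarith [le_max_right y0 2])) _
  refine ⟨C + 3 * K, by positivity, fun y hy N => ?_⟩
  have l0 : 0 < Real.log y := Real.log_pos (by linarith)
  have ℓ0 : 0 < Real.log y ^ (1 / 3 : ℝ) := Real.rpow_pos_of_pos l0 _
  by_cases hy0 : y0 ≤ y
  · refine (h y hy hy0 N).trans ?_
    gcongr; linarith
  have i1 := h3 y hy N
  have i2 : Real.log y ^ (1 / 3 : ℝ) ≤ K := by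
    refine Real.rpow_le_rpow l0.le (Real.log_le_log (by linarith) ?_) (by norm_num)
    linarith [le_max_left y0 2]
  rw [le_div_iff₀ ℓ0]
  calc _ ≤ 3 * N * K := by gcongr
    _ = 3 * K * N := by ring
    _ ≤ _ := by gcongr; linarith

namespace LData

variable (L : LData)

def SC (x : ℤ) : Prop := ∃ s ∈ L.C, x ≡ s.1 [ZMOD (L.d * s.2 : ℕ)]

def Md : ℕ := L.d * ∑ s ∈ L.C, s.2

theorem le_Md {s} (hs : s ∈ L.C) : L.d * s.2 ≤ L.Md :=
  Nat.mul_le_mul_left _ (single_le_sum (f := fun s : ℕ × ℕ => s.2) (fun _ _ => Nat.zero_le _) hs)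

theorem C_ne : ∃ s, s ∈ L.C := by
  by_contra h
  push Not at h
  have := L.ρ_sum
  rw [sum_eq_zero fun s hs => absurd hs (h s)] at this
  exact zero_ne_one this

theorem Md_pos : 0 < L.Md := by
  obtain ⟨s, hs⟩ := L.C_ne
  exact lt_of_lt_of_le (Nat.mul_pos L.d_pos (L.k_pos hs)) (L.le_Md hs)

theorem abs_val (x : L.St × ℤ) : |(L.val x : ℝ)| ≤ L.Md * (|(x.2 : ℝ)| + 1) := by
  have h1 : ((x.1.1.1 : ℕ) : ℝ) ≤ L.d * x.1.1.2 := by exact_mod_cast (L.hC _ x.1.2).le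
  have h2 : (L.d : ℝ) * x.1.1.2 ≤ L.Md := by exact_mod_cast L.le_Md x.1.2
  unfold val; push_cast
  refine (abs_add_le _ _).trans ?_
  rw [abs_mul, Nat.abs_cast, abs_of_nonneg (by positivity : (0 : ℝ) ≤ L.d * x.1.1.2)]
  nlinarith [mul_le_mul_of_nonneg_right h2 (abs_nonneg (x.2 : ℝ))]

theorem quant (h : L.sys.Concl) : ∃ K : ℝ, 0 ≤ K ∧ ∀ y : ℝ, 2 ≤ y → ∀ N : ℕ,
    (Set.ncard {x : ℤ | |x| ≤ N ∧ L.SC x ∧
      ∀ n : ℕ, y < |(((T L.d L.m L.r)^[n] x : ℤ) : ℝ)|} : ℝ)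
      ≤ K * N / Real.log y ^ (1 / 3 : ℝ) := by
  classical
  obtain ⟨K, hK⟩ := h
  have M0 : (1 : ℝ) ≤ L.Md := by exact_mod_cast L.Md_pos
  refine ext_small _ (fun y hy N => ?_) (2 * (L.C.card * max K 0)) ((2 * L.Md) ^ 2)
    (by positivity) fun y hy hy0 N => ?_
  · have : {x : ℤ | |x| ≤ N ∧ L.SC x ∧ ∀ n : ℕ, y < |(((T L.d L.m L.r)^[n] x : ℤ) : ℝ)|}
        ⊆ ↑((Icc (-(N : ℤ)) N).erase 0) := by
      rintro x ⟨h1, -, h2⟩
      simp only [coe_erase, coe_Icc, Set.mem_sdiff, Set.mem_Icc, Set.mem_singleton_iff]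
      refine ⟨abs_le.1 h1, ?_⟩
      rintro rfl
      have := h2 0
      simp at this; linarith
    have h2 := Set.ncard_le_ncard this (finite_toSet _)
    rw [Set.ncard_coe_finset, card_erase_of_mem (by simp), Int.card_Icc] at h2
    have h3 : _ ≤ 3 * N := h2.trans (by omega)
    exact_mod_cast h3
  · have s0 : 2 * (L.Md : ℝ) ≤ Real.sqrt y := Real.le_sqrt_of_sq_le hy0
    have s1 : Real.sqrt y * Real.sqrt y = y := Real.mul_self_sqrt (by linarith)
    have sub : {x : ℤ | |x| ≤ N ∧ L.SC x ∧ ∀ n : ℕ, y < |(((T L.d L.m L.r)^[n] x : ℤ) : ℝ)|}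
        ⊆ ↑((univ : Finset L.St).biUnion fun s => ((Icc (-(N : ℤ)) N).filter
          fun u => L.sys.Esc (Real.sqrt y) (s, u)).image fun u => L.val (s, u)) := by
      rintro x ⟨h1, ⟨s, hs, h2⟩, h3⟩
      obtain ⟨u, hu⟩ := h2.symm.dvd
      have hv : L.val (⟨s, hs⟩, u) = x := by
        unfold val; push_cast at hu ⊢; linarith
      simp only [coe_biUnion, coe_univ, Set.mem_univ, Set.iUnion_true, Set.mem_iUnion, coe_image,
        Set.mem_image, mem_coe, mem_filter, mem_Icc]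
      refine ⟨⟨s, hs⟩, u, ⟨?_, fun n => ?_⟩, hv⟩
      · have a1 : (2 : ℝ) < |(x : ℝ)| := lt_of_le_of_lt hy (h3 0)
        have a2 : (2 : ℤ) < |x| := by exact_mod_cast a1
        have a3 : ((s.1 : ℕ) : ℤ) < ((L.d * s.2 : ℕ) : ℤ) := by exact_mod_cast L.hC s hs
        have a4 : (2 : ℤ) ≤ ((L.d * s.2 : ℕ) : ℤ) := by
          have := Nat.mul_le_mul L.hd (L.k_pos hs)
          exact_mod_cast this
        have a5 := abs_le.1 h1
        have a6 : (0 : ℤ) ≤ (s.1 : ℕ) := Int.natCast_nonneg _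
        generalize ((L.d * s.2 : ℕ) : ℤ) = M at *
        constructor
        · by_contra hn
          nlinarith
        · by_contra hn
          nlinarith
      · have a1 := h3 n
        rw [← hv, ← L.val_iter] at a1
        have a2 := L.abs_val (L.sys.step^[n] (⟨s, hs⟩, u))
        by_contra hn
        have a3 := mul_le_mul_of_nonneg_left (not_lt.1 hn) (by linarith : (0 : ℝ) ≤ L.Md)
        nlinarith
    have h2 := Set.ncard_le_ncard sub (finite_toSet _)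
    rw [Set.ncard_coe_finset] at h2
    have h3 := h2.trans (card_biUnion_le.trans (sum_le_sum fun s _ => card_image_le))
    have l0 : 0 < Real.log y := Real.log_pos (by linarith)
    have ℓ0 : 0 < Real.log y ^ (1 / 3 : ℝ) := Real.rpow_pos_of_pos l0 _
    have l1 : Real.log y ^ (1 / 3 : ℝ) / 2 ≤ Real.log (Real.sqrt y) ^ (1 / 3 : ℝ) := by
      rw [Real.log_sqrt (by linarith), Real.div_rpow l0.le (by norm_num)]
      gcongr
      calc (2 : ℝ) ^ (1 / 3 : ℝ) ≤ 2 ^ (1 : ℝ) := by gcongr <;> norm_num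
        _ = 2 := by simp
    have h4 : ∀ s : L.St, (((Icc (-(N : ℤ)) N).filter
        fun u => L.sys.Esc (Real.sqrt y) (s, u)).card : ℝ)
        ≤ max K 0 * N / (Real.log y ^ (1 / 3 : ℝ) / 2) := by
      intro s
      refine (hK _ (by linarith) s N).trans ?_
      calc _ ≤ max K 0 * N / Real.log (Real.sqrt y) ^ (1 / 3 : ℝ) := by
            gcongr
            · linarith
            · exact le_max_left _ _
        _ ≤ _ := by gcongr
    calc _ ≤ ∑ s : L.St, (((Icc (-(N : ℤ)) N).filter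
          fun u => L.sys.Esc (Real.sqrt y) (s, u)).card : ℝ) := by exact_mod_cast h3
      _ ≤ ∑ _s : L.St, max K 0 * N / (Real.log y ^ (1 / 3 : ℝ) / 2) := sum_le_sum fun s _ => h4 s
      _ = _ := by
          rw [sum_const, card_univ, Fintype.card_coe, nsmul_eq_mul]; field_simp

theorem denom (N : ℕ) :
    (N : ℝ) / L.Md - 1 ≤ (Set.ncard {x : ℤ | |x| ≤ N ∧ L.SC x} : ℝ) := by
  obtain ⟨s, hs⟩ := L.C_ne
  have k0 : 0 < L.d * s.2 := Nat.mul_pos L.d_pos (L.k_pos hs)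
  have a3 := L.hC s hs
  have a4 := L.le_Md hs
  set M := L.d * s.2 with hM
  have sub : (↑((range (N / M)).image fun u : ℕ => (s.1 : ℤ) - M * (u + 1)) : Set ℤ)
      ⊆ {x : ℤ | |x| ≤ N ∧ L.SC x} := by
    intro x hx
    simp only [coe_image, coe_range, Set.mem_image, Set.mem_Iio] at hx
    obtain ⟨u, hu, rfl⟩ := hx
    have b1 : M * (u + 1) ≤ N := (Nat.mul_le_mul_left _ hu).trans (Nat.mul_div_le N M)
    have b2 : M ≤ M * (u + 1) := Nat.le_mul_of_pos_right _ (by omega)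
    refine ⟨?_, s, hs, ?_⟩
    · have b3 : ((M * (u + 1) : ℕ) : ℤ) = M * (u + 1) := by push_cast; ring
      rw [← b3, abs_le]; omega
    · rw [Int.modEq_iff_dvd, ← hM]; exact ⟨u + 1, by ring⟩
  have fin : {x : ℤ | |x| ≤ N ∧ L.SC x}.Finite :=
    (Set.finite_Icc (-(N : ℤ)) N).subset fun x hx => abs_le.1 hx.1
  have h2 := Set.ncard_le_ncard sub fin
  rw [Set.ncard_coe_finset, card_image_of_injective _ (fun u v h => by
    have h0 : (M : ℤ) ≠ 0 := by exact_mod_cast k0.ne'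
    have := mul_left_cancel₀ h0 (sub_right_injective h)
    omega), card_range] at h2
  have h3 : ((N / M : ℕ) : ℝ) ≤ _ := Nat.cast_le.2 h2
  have h4 : (N : ℝ) / M < (N / M : ℕ) + 1 := by
    have := Nat.lt_floor_add_one ((N : ℝ) / M)
    rwa [Nat.floor_div_eq_div] at this
  have h5 : (N : ℝ) / L.Md ≤ N / M := by gcongr
  linarith

theorem dens (h : L.sys.Concl) (f : ℤ → ℝ) (hf : Tendsto f cofinite atTop) :
    Tendsto (fun N : ℕ => (Set.ncard {x : ℤ | |x| ≤ N ∧ L.SC x ∧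
      ∀ n : ℕ, f x ≤ |(((T L.d L.m L.r)^[n] x : ℤ) : ℝ)|} : ℝ)
      / (Set.ncard {x : ℤ | |x| ≤ N ∧ L.SC x} : ℝ)) atTop (𝓝 0) := by
  obtain ⟨K, K0, hK⟩ := L.quant h
  have M0 : (1 : ℝ) ≤ L.Md := by exact_mod_cast L.Md_pos
  rw [Metric.tendsto_atTop]
  intro ε hε
  set z := 1 + 4 * L.Md * K / ε with hz
  have z1 : 1 ≤ z := by have : 0 ≤ 4 * L.Md * K / ε := by positivity
                        linarith
  set y := Real.exp (z ^ 3) with hy
  have y2 : 2 ≤ y := by linarith [Real.add_one_le_exp (z ^ 3), one_le_pow₀ (n := 3) z1]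
  have ly : Real.log y ^ (1 / 3 : ℝ) = z := by
    rw [hy, Real.log_exp, show (1 / 3 : ℝ) = ((3 : ℕ) : ℝ)⁻¹ by norm_num,
      Real.pow_rpow_inv_natCast (by linarith) (by norm_num)]
  have fin : {x | ¬ y < f x}.Finite := by
    have := hf.eventually (eventually_gt_atTop y)
    rwa [eventually_cofinite] at this
  set F := {x | ¬ y < f x}.ncard with hF
  obtain ⟨N0, hN0⟩ := exists_nat_gt (2 * L.Md + 4 * L.Md * F / ε)
  refine ⟨N0, fun N hN => ?_⟩
  have N1 : (N0 : ℝ) ≤ N := by exact_mod_cast hN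
  have p0 : 0 ≤ 4 * L.Md * F / ε := by positivity
  have N2 : 2 * (L.Md : ℝ) < N := by linarith
  have N3 : 4 * L.Md * F / ε < N := by linarith
  rw [div_lt_iff₀ hε] at N3
  have d1 := L.denom N
  have d2 : (N : ℝ) / (2 * L.Md) ≤ (Set.ncard {x : ℤ | |x| ≤ N ∧ L.SC x} : ℝ) := by
    have e : (N : ℝ) / L.Md = 2 * (N / (2 * L.Md)) := by field_simp
    have : 1 ≤ (N : ℝ) / (2 * L.Md) := by rw [le_div_iff₀ (by linarith)]; linarith
    linarith
  have n1 : {x : ℤ | |x| ≤ N ∧ L.SC x ∧ ∀ n : ℕ, f x ≤ |(((T L.d L.m L.r)^[n] x : ℤ) : ℝ)|}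
      ⊆ {x | ¬ y < f x} ∪ {x : ℤ | |x| ≤ N ∧ L.SC x ∧
        ∀ n : ℕ, y < |(((T L.d L.m L.r)^[n] x : ℤ) : ℝ)|} := by
    intro x hx
    by_cases h' : y < f x
    · exact Or.inr ⟨hx.1, hx.2.1, fun n => h'.trans_le (hx.2.2 n)⟩
    · exact Or.inl h'
  have n2 := (Set.ncard_le_ncard n1 (fin.union
    ((Set.finite_Icc (-(N : ℤ)) N).subset fun x hx => abs_le.1 hx.1))).trans (Set.ncard_union_le _ _)
  have n3 := hK y y2 N
  rw [ly] at n3
  have n4 : (Set.ncard {x : ℤ | |x| ≤ N ∧ L.SC x ∧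
      ∀ n : ℕ, f x ≤ |(((T L.d L.m L.r)^[n] x : ℤ) : ℝ)|} : ℝ) ≤ F + K * N / z :=
    le_trans (by exact_mod_cast n2) (add_le_add_right n3 _)
  have Np : (0 : ℝ) < N := by linarith
  have dp : 0 < (N : ℝ) / (2 * L.Md) := by positivity
  rw [Real.dist_eq, sub_zero, abs_of_nonneg (by positivity), div_lt_iff₀ (by linarith)]
  have q1 : K * N / z ≤ ε / 2 * (N / (2 * L.Md)) := by
    rw [div_le_iff₀ (by linarith), hz]
    have : ε / 2 * (N / (2 * L.Md)) * (1 + 4 * L.Md * K / ε)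
        = ε / 2 * (N / (2 * L.Md)) + K * N := by field_simp; ring
    rw [this]
    have : 0 ≤ ε / 2 * (N / (2 * L.Md)) := by positivity
    linarith
  have q2 : (F : ℝ) < ε / 2 * (N / (2 * L.Md)) := by
    rw [← mul_div_assoc, lt_div_iff₀ (by linarith)]; linarith
  nlinarith [mul_le_mul_of_nonneg_left d2 hε.le]

theorem concl [NeZero L.d]
    (h : ∏ i : ZMod L.d, |(L.m i : ℝ) / L.d| ^ (∑ s ∈ L.C with (s.1 : ZMod L.d) = i, L.ρ s) < 1) :
    L.sys.Concl :=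
  L.sys.concl_main (fun _ hG => hG.mix) L.irred (L.drift h)

end LData

end Pool.Agent.Lib.MP_39d40e_nt
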