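import Pool.Agent.Lib.MP_39d40e_nt.Decay

namespace Pool.Agent.Lib.MP_39d40e_nt

open Finset ZMod

section fourier

variable {Q : ℕ} [NeZero Q]

theorem norm_psi (x : ZMod Q) : ‖(stdAddChar x : ℂ)‖ = 1 := by
  rw [stdAddChar_apply]; exact Circle.norm_coe _

theorem conj_psi (x : ZMod Q) : (starRingEnd ℂ) (stdAddChar x) = stdAddChar (-x) := by
  rw [AddChar.map_neg_eq_conj]

theorem parseval {ι : Type*} (I : Finset ι) (x : ι → ZMod Q) (hx : Set.InjOn x I) (f : ι → ℂ) :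
    ∑ ξ : ZMod Q, ‖∑ i ∈ I, f i * stdAddChar (ξ * x i)‖ ^ 2 = Q * ∑ i ∈ I, ‖f i‖ ^ 2 := by
  classical
  have h1 : ∀ z : ℂ, ((‖z‖ ^ 2 : ℝ) : ℂ) = z * (starRingEnd ℂ) z := fun z => by
    rw [Complex.mul_conj, Complex.normSq_eq_norm_sq]
  have h2 : ((∑ ξ : ZMod Q, ‖∑ i ∈ I, f i * stdAddChar (ξ * x i)‖ ^ 2 : ℝ) : ℂ) =
      ((Q * ∑ i ∈ I, ‖f i‖ ^ 2 : ℝ) : ℂ) := by
    rw [Complex.ofReal_sum, Complex.ofReal_mul, Complex.ofReal_sum]
    simp only [h1, map_sum, map_mul, conj_psi, Finset.sum_mul_sum]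
    rw [Finset.sum_comm, Finset.mul_sum]
    refine Finset.sum_congr rfl fun i hi => ?_
    rw [Finset.sum_comm]
    have h3 : ∀ j ∈ I, ∑ ξ : ZMod Q, f i * stdAddChar (ξ * x i) *
        ((starRingEnd ℂ) (f j) * stdAddChar (-(ξ * x j))) =
        if j = i then (Q : ℂ) * (f i * (starRingEnd ℂ) (f i)) else 0 := by
      intro j hj
      have h4 : ∀ ξ : ZMod Q, f i * stdAddChar (ξ * x i) *
          ((starRingEnd ℂ) (f j) * stdAddChar (-(ξ * x j))) =
          f i * (starRingEnd ℂ) (f j) * stdAddChar (ξ * (x i - x j)) := fun ξ => by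
        rw [mul_sub, sub_eq_add_neg, AddChar.map_add_eq_mul]; ring
      simp only [h4]
      rw [← Finset.mul_sum, AddChar.sum_mulShift _ (isPrimitive_stdAddChar Q)]
      by_cases hji : j = i
      · subst hji; simp [mul_comm]
      · have : x i - x j ≠ 0 := fun h => hji (hx hj hi (sub_eq_zero.1 h).symm)
        simp [this, hji]
    rw [Finset.sum_congr rfl h3, Finset.sum_ite_eq' I i, if_pos hi]; simp
  exact_mod_cast h2

theorem gain_bound {K : ℕ} (hK : 2 ≤ K) (u v : ZMod Q) (h : (Q : ℤ) ≤ K * |(u - v).valMinAbs|) :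
    ‖(stdAddChar u : ℂ) + stdAddChar v‖ / 2 ≤ 1 - 2 / (K : ℝ) ^ 2 := by
  set y := (u - v).valMinAbs with hy
  have hQ : (0 : ℝ) < Q := by exact_mod_cast Nat.pos_of_ne_zero (NeZero.ne Q)
  have hK' : (2 : ℝ) ≤ K := by exact_mod_cast hK
  have h1 : (stdAddChar u : ℂ) + stdAddChar v =
      stdAddChar v * (Complex.exp ((2 * Real.pi * y / Q : ℝ) * Complex.I) + 1) := by
    have : u = v + (y : ZMod Q) := by rw [hy, coe_valMinAbs]; ring
    rw [this, AddChar.map_add_eq_mul, stdAddChar_coe, mul_add, mul_one]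
    congr 3; push_cast; ring
  set φ : ℝ := 2 * Real.pi * y / Q with hφ
  have h2 : ‖Complex.exp (φ * Complex.I) + 1‖ ^ 2 = 2 + 2 * Real.cos φ := by
    rw [Complex.sq_norm, Complex.normSq_apply]
    simp only [Complex.add_re, Complex.add_im, Complex.exp_ofReal_mul_I_re,
      Complex.exp_ofReal_mul_I_im, Complex.one_re, Complex.one_im]
    nlinarith [Real.sin_sq_add_cos_sq φ]
  have hy2 : 2 * |(y : ℝ)| ≤ Q := by
    have := valMinAbs_mem_Ioc (u - v)
    rw [← hy] at this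
    have h3 : 2 * |y| ≤ Q := by
      rcases abs_cases y with h | h <;> linarith [this.1, this.2, h.1]
    exact_mod_cast h3
  have hy3 : (Q : ℝ) ≤ K * |(y : ℝ)| := by exact_mod_cast h
  have hpi := Real.pi_pos
  have h4 : |φ| ≤ Real.pi := by
    rw [hφ, abs_div, abs_mul, abs_of_pos hQ, abs_of_pos (by positivity : 0 < 2 * Real.pi),
      div_le_iff₀ hQ]
    nlinarith
  have h5 := Real.cos_le_one_sub_mul_cos_sq h4
  have h6 : 8 / (K : ℝ) ^ 2 ≤ 2 / Real.pi ^ 2 * φ ^ 2 := by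
    have : 2 / Real.pi ^ 2 * φ ^ 2 = 8 * (y : ℝ) ^ 2 / Q ^ 2 := by rw [hφ]; field_simp; ring
    rw [this, div_le_div_iff₀ (by positivity) (by positivity)]
    have h7 := pow_le_pow_left₀ hQ.le hy3 2
    rw [mul_pow, sq_abs] at h7
    linarith
  rw [h1, norm_mul, norm_psi, one_mul, div_le_iff₀ two_pos]
  have h8 : 2 / (K : ℝ) ^ 2 ≤ 1 := by rw [div_le_one (by positivity)]; nlinarith
  refine le_of_sq_le_sq ?_ (by linarith)
  have h9 : 8 / (K : ℝ) ^ 2 = 4 * (2 / (K : ℝ) ^ 2) := by ring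
  rw [h2]; nlinarith [sq_nonneg (2 / (K : ℝ) ^ 2)]

end fourier

namespace Sys

variable {S E : Type*} [Fintype S] [Fintype E] [DecidableEq S] [DecidableEq E] {X : Sys S E}
  {Q : ℕ}

variable (X) in
/-- offset of a path modulo `Q` -/
def off (Q : ℕ) (l : List E) : ZMod Q := (X.cP l : ZMod Q) * X.iD Q l

omit [DecidableEq E] in
theorem off_append (hQ : X.d.Coprime Q) (o i : List E) :
    X.off Q (o ++ i) = X.act o (X.off Q i) + X.off Q o := by
  have h := DP_mul_iD hQ i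
  simp only [off, act, iD_append hQ, cP_append]; push_cast
  linear_combination (X.cP o * X.iD Q o) * h

omit [DecidableEq E] in
theorem mul_act (l : List E) (a x : ZMod Q) : a * X.act l x = X.act l a * x := by
  simp only [act]; ring

variable (X) in
/-- weighted characteristic function of the offset -/
noncomputable def Phi [NeZero Q] (n : ℕ) (s : S) (a : ZMod Q) (G : S → ℤ → ℕ → ℂ) : ℂ :=
  ∑ l ∈ X.Paths n s, (X.wt l : ℂ) *
    (stdAddChar (a * X.off Q l) * G (X.endp s l) (X.bP l) (X.DP l))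

theorem Phi_succ [NeZero Q] (hQ : X.d.Coprime Q) (n : ℕ) (s : S) (a : ZMod Q)
    (G : S → ℤ → ℕ → ℂ) : X.Phi (n + 1) s a G = ∑ e ∈ X.into s, (X.q e : ℂ) *
      (stdAddChar (a * X.off Q [e]) * X.Phi n (X.src e) (X.act [e] a)
        fun t M D => G t (X.b e * M) (X.D e * D)) := by
  simp only [Phi, sum_Paths_succ, Finset.mul_sum]
  refine Finset.sum_congr rfl fun e _ => Finset.sum_congr rfl fun l _ => ?_
  have := off_append hQ [e] l
  rw [List.singleton_append] at this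
  rw [this, mul_add, mul_act, AddChar.map_add_eq_mul, wt_cons, endp_cons, bP_cons, DP_cons]
  push_cast; ring

theorem norm_Phi_le [NeZero Q] (n : ℕ) (s : S) (a : ZMod Q) {G : S → ℤ → ℕ → ℂ}
    (hG : ∀ t M D, ‖G t M D‖ ≤ 1) : ‖X.Phi n s a G‖ ≤ 1 := by
  refine (norm_sum_le _ _).trans ?_
  refine le_trans (Finset.sum_le_sum fun l _ => ?_) (X.Ex_const n s 1).le
  rw [norm_mul, norm_mul, norm_psi, one_mul, Complex.norm_real, Real.norm_of_nonneg (X.wt_pos l).le]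
  exact mul_le_mul_of_nonneg_left (hG _ _ _) (X.wt_pos l).le

/-- super-polynomial decay of the characteristic function -/
theorem phi_decay (h : X.Good) {B : ℕ} {ρ₁ ρ₂ : ℝ} (hB : B ≠ 0) (hρ₁ : 0 < ρ₁) (hρ : ρ₁ < ρ₂)
    (hBp : ∀ p : ℕ, p.Prime → p ∣ X.B0 → p ∣ B)
    (hup : X.Small fun n l => ∃ j : ℕ, ρ₁ * n ≤ j ∧ ¬ X.bP l ∣ (B : ℤ) ^ j)
    (hdn : X.Small fun n l => ∃ j : ℕ, (j : ℝ) ≤ ρ₂ * n ∧ X.DP l ≤ B ^ j) (A : ℕ) :
    ∃ C : ℝ, 0 ≤ C ∧ ∀ (Q : ℕ) [NeZero Q], X.d.Coprime Q → (∃ N, Q ∣ B ^ N) →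
    ∀ (n : ℕ) (s : S) (a : ZMod Q) (G : S → ℤ → ℕ → ℂ), (∀ t M D, ‖G t M D‖ ≤ 1) →
    (∀ t M D, G t M D ≠ 0 → (X.B0 : ZMod Q) * (M : ℤ) * a = 0) →
    ∀ m : ℕ, (B : ZMod Q) ^ m * a ≠ 0 → ‖X.Phi n s a G‖ ≤ C / ((m : ℝ) + 1) ^ A := by
  classical
  choose e₁ e₂ hne ht₁ ht₂ hsrc hb hD using h.para
  set Δ : ℤ := ∏ s, (X.c (e₁ s) - X.c (e₂ s)) with hΔ
  have hΔ0 : Δ ≠ 0 := Finset.prod_ne_zero_iff.2 fun s _ h0 => by
    have := X.path_eq_of_cP (n := 1) (s := s) (l := [e₁ s]) (l' := [e₂ s])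
      (X.cons_mem_Paths.2 ⟨ht₁ s, by simp⟩) (X.cons_mem_Paths.2 ⟨ht₂ s, by simp⟩)
      (by simp [hsrc s]) (by simp [hb s]) (by simp [hD s]) (by simpa using sub_eq_zero.1 h0)
    exact hne s (List.cons.inj this).1
  set j₀ := Δ.natAbs + X.B0 with hj₀
  set K : ℕ := X.kap * Δ.natAbs * X.d with hK
  have hK2 : 2 ≤ K := by
    have h1 : 2 ≤ X.kap := by have := X.d_pos; have := X.B0_pos; simp only [kap]; omega
    have h2 := Int.natAbs_pos.2 hΔ0
    have h3 := X.d_pos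
    calc 2 = 2 * 1 * 1 := rfl
      _ ≤ _ := Nat.mul_le_mul (Nat.mul_le_mul h1 h2) h3
  have hK' : (2 : ℝ) ≤ K := by exact_mod_cast hK2
  set q₀ : ℝ := ∏ e, X.q e with hq₀
  have hq1 : ∀ e, X.q e ≤ 1 := fun e => (Finset.single_le_sum (fun e _ => (X.q_pos e).le)
    (X.mem_into.2 rfl)).trans (X.sum_q (X.tgt e)).le
  have hq₀0 : 0 < q₀ := Finset.prod_pos fun e _ => X.q_pos e
  have hq₀1 : ∀ e, q₀ ≤ X.q e := fun e => by
    rw [hq₀, ← Finset.mul_prod_erase _ _ (mem_univ e)]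
    exact mul_le_of_le_one_right (X.q_pos e).le
      (Finset.prod_le_one (fun e _ => (X.q_pos e).le) fun e _ => hq1 e)
  have hq₀2 : q₀ ≤ 1 := Finset.prod_le_one (fun e _ => (X.q_pos e).le) fun e _ => hq1 e
  have hc0 : 0 < 2 / (K : ℝ) ^ 2 := by positivity
  have hc1 : 2 / (K : ℝ) ^ 2 < 1 := by rw [div_lt_one (by positivity)]; nlinarith
  obtain ⟨C, hC, hdec⟩ := decay h hB hρ₁ hρ hup hdn j₀ (θ := 1 - q₀ * (2 / (K : ℝ) ^ 2))
    (by nlinarith) (by nlinarith) A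
  refine ⟨C, hC, ?_⟩
  intro Q _ hQ ⟨N, hN⟩
  set adm : ZMod Q → (S → ℤ → ℕ → ℂ) → Prop := fun a G => (∀ t M D, ‖G t M D‖ ≤ 1) ∧
    ∀ t M D, G t M D ≠ 0 → (X.B0 : ZMod Q) * (M : ℤ) * a = 0 with hadm
  have hne' : ∀ a, Nonempty (ℕ × {G // adm a G}) := fun a => ⟨(0, ⟨0, by simp [hadm]⟩)⟩
  set F : S → ZMod Q → ℝ := fun s a => if (B : ZMod Q) ^ j₀ * a = 0 then 1 else
    ⨆ x : ℕ × {G // adm a G}, ‖X.Phi x.1 s a x.2‖ with hF
  have hbdd : ∀ s a, BddAbove (Set.range fun x : ℕ × {G // adm a G} => ‖X.Phi x.1 s a x.2‖) :=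
    fun s a => ⟨1, by rintro _ ⟨x, rfl⟩; exact norm_Phi_le _ _ _ x.2.2.1⟩
  have hΦF : ∀ n s a G, adm a G → ‖X.Phi n s a G‖ ≤ F s a := by
    intro n s a G hG
    simp only [hF]
    split_ifs
    · exact norm_Phi_le _ _ _ hG.1
    · exact le_ciSup (hbdd s a) (n, ⟨G, hG⟩)
  have hF0 : ∀ s a, 0 ≤ F s a := fun s a =>
    (norm_nonneg _).trans (hΦF 0 s a 0 (by simp [hadm]))
  have hF1 : ∀ s a, F s a ≤ 1 := by
    intro s a
    simp only [hF]
    split_ifs
    · exact le_rfl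
    · have := hne' a
      exact ciSup_le fun x => norm_Phi_le _ _ _ x.2.2.1
  set w₀ : S → ZMod Q → ℝ := fun s a =>
    ‖(stdAddChar (a * X.off Q [e₁ s]) : ℂ) + stdAddChar (a * X.off Q [e₂ s])‖ / 2 with hw₀
  have hw₀1 : ∀ s a, w₀ s a ≤ 1 := fun s a => by
    have := norm_add_le (stdAddChar (a * X.off Q [e₁ s]) : ℂ) (stdAddChar (a * X.off Q [e₂ s]))
    rw [norm_psi, norm_psi] at this
    simp only [hw₀]; linarith
  set w : E → ZMod Q → ℝ := fun e a => if (B : ZMod Q) ^ j₀ * a = 0 then 1 else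
    if e = e₁ (X.tgt e) ∨ e = e₂ (X.tgt e) then w₀ (X.tgt e) a else 1 with hw
  have hw0 : ∀ e a, 0 ≤ w e a := fun e a => by
    simp only [hw, hw₀]; split_ifs <;> positivity
  have hw1 : ∀ e a, w e a ≤ 1 := fun e a => by
    simp only [hw]; split_ifs
    exacts [le_rfl, hw₀1 _ _, le_rfl]
  have hkill : ∀ (g : ℕ) (a : ZMod Q), g ≠ 0 → g ≤ j₀ → (∀ p : ℕ, p.Prime → p ∣ g → p ∣ B) →
      (g : ZMod Q) * a = 0 → (B : ZMod Q) ^ j₀ * a = 0 := by
    intro g a hg hgj hp h0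
    obtain ⟨t, ht⟩ := dvd_pow_of_primes hg hB hp hgj
    rw [← Nat.cast_pow, ht, Nat.cast_mul, mul_right_comm, h0, zero_mul]
  intro n s a G hG1 hG2 m hm
  refine (hΦF n s a G ⟨hG1, hG2⟩).trans (hdec Q hQ ⟨N, ?_⟩ (Δ : ZMod Q) ?_ F w hF0 hF1 hw0 hw1
    ?_ ?_ s a m hm)
  · rw [← Nat.cast_pow, ZMod.natCast_eq_zero_iff]; exact hN
  · intro a ha
    refine hkill (Int.gcd Δ Q) a (Int.gcd_pos_of_ne_zero_left _ hΔ0).ne' ?_ ?_ ?_
    · exact (Nat.le_of_dvd (Int.natAbs_pos.2 hΔ0) (Nat.gcd_dvd_left _ _)).trans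
        (Nat.le_add_right _ _)
    · intro p hp hd
      exact hp.dvd_of_dvd_pow ((hd.trans (Nat.gcd_dvd_right _ _)).trans hN)
    · have := congrArg (Int.cast : ℤ → ZMod Q) (Int.gcd_eq_gcd_ab Δ Q)
      push_cast at this
      rw [this, ZMod.natCast_self]
      linear_combination (Int.gcdA Δ Q : ZMod Q) * ha
  · intro s a
    by_cases h0 : (B : ZMod Q) ^ j₀ * a = 0
    · have h1 : ∀ e, (B : ZMod Q) ^ j₀ * X.act [e] a = 0 := fun e => by
        rw [← act_mul, h0]; simp [act]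
      simp only [hF, hw, h0, h1, if_true, mul_one, sum_q, le_refl]
    · have := hne' a
      conv_lhs => simp only [hF, if_neg h0]
      refine ciSup_le ?_
      rintro ⟨n, G, hG⟩
      cases n with
      | zero =>
        have h1 : G s 1 1 = 0 := by
          by_contra h1
          exact h0 (hkill X.B0 a X.B0_pos.ne' (Nat.le_add_left _ _) hBp
            (by simpa using hG.2 s 1 1 h1))
        refine le_trans (le_of_eq (by simp [Phi, h1])) (Finset.sum_nonneg fun e _ => ?_)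
        exact mul_nonneg (X.q_pos e).le (mul_nonneg (hw0 _ _) (hF0 _ _))
      | succ n =>
        have hadm' : ∀ e, adm (X.act [e] a) fun t M D => G t (X.b e * M) (X.D e * D) := by
          intro e
          refine ⟨fun t M D => hG.1 _ _ _, fun t M D hne => ?_⟩
          have := hG.2 _ _ _ hne
          simp only [act, bP_cons, bP_nil, mul_one]
          push_cast at this
          linear_combination X.iD Q [e] * this
        have hsub : {e₁ s, e₂ s} ⊆ X.into s := by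
          intro e he
          rcases mem_insert.1 he with rfl | he
          · exact X.mem_into.2 (ht₁ s)
          · rw [mem_singleton.1 he]; exact X.mem_into.2 (ht₂ s)
        simp only
        rw [Phi_succ hQ, ← Finset.sum_sdiff hsub, ← Finset.sum_sdiff hsub,
          Finset.sum_pair (hne s), Finset.sum_pair (hne s)]
        refine (norm_add_le _ _).trans (add_le_add ?_ ?_)
        · refine (norm_sum_le _ _).trans (Finset.sum_le_sum fun e he => ?_)
          have h1 : w e a = 1 := by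
            obtain ⟨h2, h3⟩ := mem_sdiff.1 he
            simp only [hw, X.mem_into.1 h2]
            rw [if_neg h0, if_neg (by simpa using h3)]
          rw [h1, one_mul, norm_mul, norm_mul, norm_psi, one_mul, Complex.norm_real,
            Real.norm_of_nonneg (X.q_pos e).le]
          exact mul_le_mul_of_nonneg_left (hΦF _ _ _ _ (hadm' e)) (X.q_pos e).le
        · have hq : X.q (e₂ s) = X.q (e₁ s) := by simp only [q, hsrc s, hD s, ht₁ s, ht₂ s]
          have ha : X.act [e₂ s] a = X.act [e₁ s] a := by simp [act, iD, hb s, hD s]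
          have h1 : w (e₁ s) a = w₀ s a := by simp [hw, h0, ht₁ s]
          have h2 : w (e₂ s) a = w₀ s a := by simp [hw, h0, ht₂ s]
          have h3 := hΦF n (X.src (e₁ s)) _ _ (hadm' (e₁ s))
          rw [h1, h2, hq, ha, ← hsrc s, ← hb s, ← hD s, ← mul_add, ← add_mul, norm_mul, norm_mul,
            Complex.norm_real, Real.norm_of_nonneg (X.q_pos _).le, ← mul_add]
          refine mul_le_mul_of_nonneg_left ?_ (X.q_pos _).le
          simp only [hw₀]
          have := mul_le_mul_of_nonneg_left h3 (norm_nonneg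
            ((stdAddChar (a * X.off Q [e₁ s]) : ℂ) + stdAddChar (a * X.off Q [e₂ s])))
          linarith
  · rintro s a ⟨hw', h0⟩
    have h1 : w (e₁ s) a = w₀ s a := by simp [hw, h0, ht₁ s]
    have h2 : w₀ s a ≤ 1 - 2 / (K : ℝ) ^ 2 := by
      refine gain_bound hK2 _ _ ?_
      by_contra hlt
      apply hw'
      obtain ⟨J, hJ⟩ : X.c (e₁ s) - X.c (e₂ s) ∣ Δ :=
        Finset.dvd_prod_of_mem (fun s => X.c (e₁ s) - X.c (e₂ s)) (mem_univ s)
      set y := (a * X.off Q [e₁ s] - a * X.off Q [e₂ s]).valMinAbs with hy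
      refine ⟨J * X.D (e₁ s) * y, ?_, lt_of_le_of_lt ?_ (not_le.1 hlt)⟩
      · have h3 := DP_mul_iD hQ [e₁ s]
        have h4 : X.iD Q [e₂ s] = X.iD Q [e₁ s] := by simp [iD, hD s]
        simp only [DP_cons, DP_nil, mul_one] at h3
        rw [hJ]; push_cast; rw [hy, coe_valMinAbs]
        simp only [off, h4, cP_cons, cP_nil, DP_nil]; push_cast
        linear_combination (J * a * (X.c (e₁ s) - X.c (e₂ s) : ZMod Q)) * h3
      · have h3 : |J| ≤ |Δ| := Int.le_of_dvd (abs_pos.2 hΔ0)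
          ((abs_dvd_abs _ _).2 ⟨_, by rw [hJ, mul_comm]⟩)
        have h4 : (X.D (e₁ s) : ℤ) ≤ X.d := by exact_mod_cast Nat.le_of_dvd X.d_pos (X.D_dvd _)
        rw [hK, abs_mul, abs_mul, Nat.abs_cast]; push_cast
        rw [← mul_assoc, mul_assoc (X.kap : ℤ) |Δ|]
        refine mul_le_mul_of_nonneg_right (mul_le_mul_of_nonneg_left ?_ (by positivity))
          (abs_nonneg _)
        exact mul_le_mul h3 h4 (by positivity) (abs_nonneg _)
    have h3 : X.q (e₁ s) * (1 - w (e₁ s) a) ≤ ∑ e ∈ X.into s, X.q e * (1 - w e a) :=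
      Finset.single_le_sum (f := fun e => X.q e * (1 - w e a))
        (fun e _ => mul_nonneg (X.q_pos e).le (sub_nonneg.2 (hw1 _ _))) (X.mem_into.2 (ht₁ s))
    simp only [mul_sub, mul_one, Finset.sum_sub_distrib, sum_q] at h3
    have h4 := mul_le_mul (hq₀1 (e₁ s)) (by linarith : 2 / (K : ℝ) ^ 2 ≤ 1 - w (e₁ s) a) hc0.le
      (X.q_pos _).le
    linarith

end Sys

end Pool.Agent.Lib.MP_39d40e_nt
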