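import Pool.Agent.Lib.MP_39d40e_nt.Shift

/-! Consequences of irreducibility. -/

namespace Pool.Agent.Lib.MP_39d40e_nt

open Finset

namespace Sys

variable {S E : Type*} [Fintype S] [Fintype E] [DecidableEq S] [DecidableEq E] (X : Sys S E)

/-- `l` is a backward path from `s` to `t` -/
def Pa (s : S) (l : List E) (t : S) : Prop := l ∈ X.Paths l.length s ∧ X.endp s l = t

variable {X}

theorem Pa.nil (s : S) : X.Pa s [] s := ⟨by simp, rfl⟩

theorem Pa.append {s t u : S} {l l' : List E} (h : X.Pa s l t) (h' : X.Pa t l' u) :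
    X.Pa s (l ++ l') u := by
  refine ⟨?_, by rw [endp_append, h.2, h'.2]⟩
  rw [List.length_append]
  exact X.append_mem_Paths h.1 (by rw [h.2]; exact h'.1)

theorem Pa.single (e : E) : X.Pa (X.tgt e) [e] (X.src e) :=
  ⟨X.cons_mem_Paths.2 ⟨rfl, by simp⟩, rfl⟩

theorem Pa.of_mem {n : ℕ} {s : S} {l : List E} (h : l ∈ X.Paths n s) : X.Pa s l (X.endp s l) :=
  ⟨by rw [X.length_of_mem_Paths h]; exact h, rfl⟩

theorem mem_Paths_add {m n : ℕ} : ∀ {s : S} {l : List E}, l ∈ X.Paths (m + n) s →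
    ∃ o i, l = o ++ i ∧ o ∈ X.Paths m s ∧ i ∈ X.Paths n (X.endp s o) := by
  induction m with
  | zero => intro s l h; exact ⟨[], l, rfl, by simp, by simpa using h⟩
  | succ m ih =>
    intro s l h
    rw [Nat.succ_add] at h
    obtain ⟨e, l', rfl, he, hl⟩ := X.mem_Paths_succ.1 h
    obtain ⟨o, i, rfl, ho, hi⟩ := ih hl
    exact ⟨e :: o, i, rfl, X.cons_mem_Paths.2 ⟨he, ho⟩, hi⟩

theorem exists_path (n : ℕ) (s : S) : ∃ l, l ∈ X.Paths n s := by
  by_contra h
  push Not at h
  have := X.Ex_const n s 1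
  rw [Ex, sum_eq_zero fun l hl => absurd hl (h l)] at this
  exact zero_ne_one this

def rep (g : List E) : ℕ → List E
  | 0 => []
  | k + 1 => g ++ rep g k

theorem Pa.rep {s : S} {g : List E} (h : X.Pa s g s) (k : ℕ) : X.Pa s (rep g k) s := by
  induction k with
  | zero => exact Pa.nil s
  | succ k ih => exact h.append ih

omit [Fintype E] [DecidableEq E] in
theorem length_rep (g : List E) (k : ℕ) : (rep g k).length = k * g.length := by
  induction k with
  | zero => simp [rep]
  | succ k ih => rw [rep, List.length_append, ih]; ring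

omit [DecidableEq E] in
theorem rr_rep (g : List E) (k : ℕ) : X.rr (rep g k) = X.rr g ^ k := by
  induction k with
  | zero => simp [rep, rr]
  | succ k ih => rw [rep, rr_append, ih]; ring

omit [DecidableEq E] in
theorem DP_rep (g : List E) (k : ℕ) : X.DP (rep g k) = X.DP g ^ k := by
  induction k with
  | zero => simp [rep]
  | succ k ih => rw [rep, DP_append, ih]; ring

theorem Irred.conn (h : X.Irred) (s t : S) : ∃ l, X.Pa s l t := by
  have := h t s
  induction this with
  | refl => exact ⟨[], Pa.nil t⟩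
  | tail _ huv ih =>
    obtain ⟨e, rfl, rfl⟩ := huv
    obtain ⟨l, hl⟩ := ih
    exact ⟨[e] ++ l, (Pa.single e).append hl⟩

omit [DecidableEq E] in
theorem mean_eq (f : E → ℝ) : X.mean f = ∑ s, X.π s * ∑ e ∈ X.into s, X.q e * f e := by
  unfold mean
  rw [← sum_fiberwise_of_maps_to (s := univ) (t := univ) (g := X.tgt) (by simp)]
  refine sum_congr rfl fun s _ => ?_
  rw [mul_sum]
  refine sum_congr rfl fun e he => ?_
  have h1 := (mem_filter.1 he).2
  have h2 := X.π_pos s
  rw [q, h1]; field_simp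

omit [DecidableEq E] in
theorem Irred.poisson (hI : X.Irred) (f : E → ℝ) : X.Poisson f := by
  let T : (S → ℝ) →ₗ[ℝ] (S → ℝ) :=
    { toFun := fun h s => h s - ∑ e ∈ X.into s, X.q e * h (X.src e) + ∑ t, X.π t * h t
      map_add' := fun h h' => by
        funext s; simp only [Pi.add_apply, mul_add, sum_add_distrib]; ring
      map_smul' := fun a h => by
        funext s
        simp only [Pi.smul_apply, smul_eq_mul, RingHom.id_apply, mul_add, mul_sub, mul_sum]
        congr 1
        · congr 1; exact sum_congr rfl fun _ _ => by ring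
        · exact sum_congr rfl fun _ _ => by ring }
  have pair : ∀ h : S → ℝ, ∑ s, X.π s * T h s = ∑ t, X.π t * h t := by
    intro h
    have h1 := X.mean_src h
    rw [mean_eq] at h1
    change ∑ s, X.π s * (h s - ∑ e ∈ X.into s, X.q e * h (X.src e) + ∑ t, X.π t * h t) = _
    simp only [mul_add, mul_sub, sum_add_distrib, sum_sub_distrib]
    rw [h1, ← sum_mul, X.π_sum]; ring
  have inj : Function.Injective T := by
    rw [← LinearMap.ker_eq_bot, LinearMap.ker_eq_bot']
    intro h hh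
    have h0 : ∑ t, X.π t * h t = 0 := by rw [← pair, hh]; simp
    have h1 : ∀ s, h s = ∑ e ∈ X.into s, X.q e * h (X.src e) := by
      intro s
      have : h s - ∑ e ∈ X.into s, X.q e * h (X.src e) + ∑ t, X.π t * h t = 0 := congrFun hh s
      linarith
    have hne : (univ : Finset S).Nonempty := by
      by_contra hn
      have := X.π_sum
      rw [not_nonempty_iff_eq_empty.1 hn] at this
      simp at this
    obtain ⟨s0, -, hs0⟩ := exists_max_image univ h hne
    have h2 : ∀ e, h (X.tgt e) = h s0 → h (X.src e) = h s0 := by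
      intro e he
      have a1 : ∑ e' ∈ X.into (X.tgt e), X.q e' * (h s0 - h (X.src e')) = 0 := by
        simp only [mul_sub, sum_sub_distrib]
        rw [← sum_mul, sum_q, ← h1, he]; ring
      have a2 := (sum_eq_zero_iff_of_nonneg fun e' _ => mul_nonneg (X.q_pos e').le
        (sub_nonneg.2 (hs0 _ (mem_univ _)))).1 a1 e (by simp [into])
      rcases mul_eq_zero.1 a2 with a | a
      · exact absurd a (X.q_pos e).ne'
      · linarith
    have h3 : ∀ t, h t = h s0 := by
      intro t
      have := hI t s0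
      induction this using Relation.ReflTransGen.head_induction_on with
      | refl => rfl
      | head huv _ ih =>
        obtain ⟨e, rfl, rfl⟩ := huv
        exact h2 e ih
    have h4 : h s0 = 0 := by
      simp only [h3] at h0
      rw [← sum_mul, X.π_sum] at h0
      linarith [h3 s0]
    funext t; rw [h3, h4]; rfl
  obtain ⟨h, hh⟩ := (LinearMap.injective_iff_surjective.1 inj)
    (fun s => ∑ e ∈ X.into s, X.q e * f e - X.mean f)
  have h0 : ∑ t, X.π t * h t = 0 := by
    rw [← pair, hh]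
    simp only [mul_sub, sum_sub_distrib]
    rw [← mean_eq, ← sum_mul, X.π_sum]; ring
  refine ⟨h, fun s => ?_⟩
  have : h s - ∑ e ∈ X.into s, X.q e * h (X.src e) + ∑ t, X.π t * h t
      = ∑ e ∈ X.into s, X.q e * f e - X.mean f := congrFun hh s
  simp only [mul_add, sum_add_distrib]
  linarith

/-- the drift condition -/
def Neg (X : Sys S E) : Prop := X.mean (fun e => Real.log (|(X.b e : ℝ)| / X.D e)) < 0

omit [DecidableEq E] in
theorem Neg.exists_two (h : X.Neg) : ∃ e, 2 ≤ X.D e := by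
  by_contra hn
  push Not at hn
  refine absurd h (not_lt.2 (sum_nonneg fun e _ => mul_nonneg ?_ (Real.log_nonneg ?_)))
  · have := X.π_pos (X.src e); positivity
  · have h1 : X.D e = 1 := by have := hn e; have := X.D_pos e; omega
    have h2 := Int.one_le_abs (X.b_ne e)
    rw [h1]; simp only [Nat.cast_one, div_one]; exact_mod_cast h2

omit [DecidableEq E] in
theorem exists_branch {e : E} (he : 2 ≤ X.D e) : ∃ e', e' ≠ e ∧ X.src e' = X.src e := by
  by_contra hn
  push Not at hn
  have h1 := X.out_sum (X.src e)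
  rw [sum_eq_single e (fun e' he' hne => absurd (mem_filter.1 he').2 (hn e' hne))
    (fun h => absurd (by simp) h)] at h1
  have : (2 : ℝ) ≤ X.D e := by exact_mod_cast he
  rw [div_eq_one_iff_eq (by linarith)] at h1
  linarith

theorem exists_n0 (hI : X.Irred) (h : X.Neg) :
    ∃ n0, 1 ≤ n0 ∧ ∀ n s l, n0 ≤ n → l ∈ X.Paths n s → 2 ≤ X.DP l := by
  obtain ⟨e, he⟩ := h.exists_two
  choose a ha using fun t => hI.conn (X.src e) t
  refine ⟨∑ t, (a t).length + 1, by omega, fun n s l hn hl => ?_⟩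
  set t := X.endp s l with ht
  have h1 : (a t).length ≤ ∑ t, (a t).length :=
    single_le_sum (f := fun t => (a t).length) (fun _ _ => Nat.zero_le _) (mem_univ t)
  obtain ⟨k, rfl⟩ : ∃ k, n = k + ((a t).length + 1) := ⟨n - ((a t).length + 1), by omega⟩
  obtain ⟨o, i, rfl, ho, hi⟩ := mem_Paths_add hl
  by_contra h2
  have h3 : X.DP i = 1 := by
    rw [DP_append] at h2
    have := X.DP_pos o
    have := X.DP_pos i
    by_contra h4
    have : 1 * 2 ≤ X.DP o * X.DP i := Nat.mul_le_mul (by omega) (by omega)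
    omega
  have h5 : e :: a t ∈ X.Paths ((a t).length + 1) (X.tgt e) :=
    X.cons_mem_Paths.2 ⟨rfl, (ha t).1⟩
  obtain ⟨x, y, hxy⟩ := X.bP_cop_DP (e :: a t) (e :: a t)
  have hd : (X.DP (e :: a t) : ℤ) ∣ X.bP (e :: a t) * (-x * X.cP (e :: a t)) + X.cP (e :: a t) :=
    ⟨y * X.cP (e :: a t), by linear_combination (-X.cP (e :: a t)) * hxy⟩
  have h6 := (X.path_unique hi h5 (by
    rw [← endp_append, ← ht]; exact (ha t).2.symm) (by rw [h3]; simp) hd).1
  rw [h6, DP_cons] at h3
  have := Nat.eq_one_of_mul_eq_one_right h3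
  omega

theorem exists_para (hI : X.Irred) (h : X.Neg) (s : S) : ∃ l l' : List E, X.Pa s l s ∧ X.Pa s l' s ∧
    l ≠ l' ∧ l.length = l'.length ∧ X.bP l = X.bP l' ∧ X.DP l = X.DP l' := by
  obtain ⟨e, he⟩ := h.exists_two
  obtain ⟨e', hne, hs⟩ := exists_branch he
  obtain ⟨k, hk⟩ := hI.conn s (X.tgt e)
  obtain ⟨k', hk'⟩ := hI.conn s (X.tgt e')
  obtain ⟨w, hw⟩ := hI.conn (X.src e) s
  have g1 : X.Pa s (k ++ ([e] ++ w)) s := hk.append ((Pa.single e).append hw)
  have g2 : X.Pa s (k' ++ ([e'] ++ w)) s := hk'.append ((Pa.single e').append (hs ▸ hw))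
  refine ⟨_, _, g1.append g2, g2.append g1, fun heq => hne ?_, ?_, ?_, ?_⟩
  · rw [← List.append_assoc _ k', ← List.append_assoc _ k] at heq
    have := List.append_inj_right' heq (by simp)
    simpa using this
  · simp only [List.length_append]; ring
  · simp only [bP_append]; ring
  · simp only [DP_append]; ring

theorem exists_neg_cycle (hI : X.Irred) (h : X.Neg) (s : S) :
    ∃ g, X.Pa s g s ∧ X.rr g < 1 := by
  set μ := X.mean (fun e => Real.log (|(X.b e : ℝ)| / X.D e)) with hμ
  have hμ0 : μ < 0 := h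
  obtain ⟨C, c, hC, hc, ht⟩ := X.tail_lin (hI.poisson
    (fun e => Real.log (|(X.b e : ℝ)| / X.D e))) (ε := -μ / 2) (by linarith)
  have hsum : ∀ l : List E, (l.map fun e => Real.log (|(X.b e : ℝ)| / X.D e)).sum
      = Real.log (X.rr l) := fun l => Addi.sum_map X addi_log l
  simp only [hsum, ← hμ] at ht
  choose a ha using fun t => hI.conn t s
  set K := ∑ t, |Real.log (X.rr (a t))| with hK
  obtain ⟨n, hn⟩ := exists_nat_gt (max (C / c) (K / (-μ / 2)))
  have n1 : C / c < n := lt_of_le_of_lt (le_max_left _ _) hn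
  have n2 : K / (-μ / 2) < n := lt_of_le_of_lt (le_max_right _ _) hn
  rw [div_lt_iff₀ hc] at n1
  rw [div_lt_iff₀ (by linarith)] at n2
  have h1 : C * Real.exp (-(c * n)) < 1 := by
    rw [Real.exp_neg, ← div_eq_mul_inv, div_lt_one (Real.exp_pos _)]
    linarith [Real.add_one_le_exp (c * n)]
  obtain ⟨l, hl, hl2⟩ : ∃ l ∈ X.Paths n s, Real.log (X.rr l) < n * (μ + -μ / 2) := by
    by_contra hn
    push Not at hn
    have h2 : X.Pr n s (fun _ => True) ≤ _ := (X.Pr_mono fun l hl _ => hn l hl).trans (ht n s).1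
    have h3 : X.Pr n s (fun _ => True) = 1 := by simp [Pr, Ex_const]
    linarith
  refine ⟨_, (Pa.of_mem hl).append (ha _), ?_⟩
  rw [← Real.log_neg_iff (X.rr_pos _), rr_append, Real.log_mul (X.rr_pos _).ne' (X.rr_pos _).ne']
  have h4 : |Real.log (X.rr (a (X.endp s l)))| ≤ K :=
    single_le_sum (f := fun t => |Real.log (X.rr (a t))|) (fun _ _ => abs_nonneg _) (mem_univ _)
  nlinarith [le_abs_self (Real.log (X.rr (a (X.endp s l))))]

theorem cyc_in {n0 n : ℕ} {s : S} {l : List E} (hl : l ∈ X.Paths n s)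
    (hn : Fintype.card S * n0 ≤ n) : ∃ x g y t, l = x ++ (g ++ y) ∧ X.Pa s x t ∧ X.Pa t g t ∧
      X.Pa t y (X.endp s l) ∧ n0 ≤ g.length ∧ g.length ≤ Fintype.card S * n0 := by
  have key : ∀ i j, i < j → j ≤ Fintype.card S →
      X.endp s (l.take (i * n0)) = X.endp s (l.take (j * n0)) →
      ∃ x g y t, l = x ++ (g ++ y) ∧ X.Pa s x t ∧ X.Pa t g t ∧
      X.Pa t y (X.endp s l) ∧ n0 ≤ g.length ∧ g.length ≤ Fintype.card S * n0 := by
    intro i j hij hj he
    obtain ⟨k, rfl⟩ : ∃ k, j = i + (k + 1) := ⟨j - i - 1, by omega⟩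
    have h1 : (i + (k + 1)) * n0 ≤ Fintype.card S * n0 := Nat.mul_le_mul_right _ hj
    obtain ⟨r, rfl⟩ : ∃ r, n = i * n0 + ((k + 1) * n0 + r) :=
      ⟨n - (i + (k + 1)) * n0, by rw [add_mul i] at h1 ⊢; omega⟩
    obtain ⟨x, w, rfl, hx, hw⟩ := mem_Paths_add hl
    obtain ⟨g, y, rfl, hg, hy⟩ := mem_Paths_add hw
    have lx := X.length_of_mem_Paths hx
    have lg := X.length_of_mem_Paths hg
    rw [List.take_left' lx, ← List.append_assoc,
      List.take_left' (by rw [List.length_append, lx, lg]; ring), endp_append] at he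
    refine ⟨x, g, y, _, rfl, Pa.of_mem hx, ⟨(Pa.of_mem hg).1, he.symm⟩, ?_, ?_, ?_⟩
    · have := Pa.of_mem hy
      rw [endp_append, endp_append]
      rw [← he] at this ⊢
      exact this
    · rw [lg]; nlinarith
    · rw [lg]; rw [add_mul] at h1; omega
  obtain ⟨i, hi, j, hj, hne, he⟩ := exists_ne_map_eq_of_card_lt_of_maps_to
    (s := range (Fintype.card S + 1)) (t := univ) (by simp)
    (f := fun i => X.endp s (l.take (i * n0))) (fun _ _ => by simp)
  rw [mem_range] at hi hj
  rcases lt_or_gt_of_ne hne with h | h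
  · exact key i j h (by omega) he
  · exact key j i h (by omega) he.symm

theorem contract (hI : X.Irred) (h : X.Neg) (s0 : S) (hA : ∀ g, X.Pa s0 g s0 → X.rr g ≤ 1) :
    ∃ n1, ∀ s l, l ∈ X.Paths n1 s → X.rr l ≤ 1 / 2 := by
  obtain ⟨n0, -, hn0⟩ := exists_n0 hI h
  choose a ha using fun t => hI.conn s0 t
  choose c hc using fun t => hI.conn t s0
  set K := ∑ t, ∑ t', 1 / (X.rr (a t) * X.rr (c t')) with hK
  have hpos : ∀ t t', 0 < X.rr (a t) * X.rr (c t') := fun t t' =>
    mul_pos (X.rr_pos _) (X.rr_pos _)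
  have b0 : ∀ s l t, X.Pa s l t → X.rr l ≤ K := by
    intro s l t hl
    have h1 := hA _ ((ha s).append (hl.append (hc t)))
    rw [rr_append, rr_append] at h1
    have h2 : X.rr l ≤ 1 / (X.rr (a s) * X.rr (c t)) := by
      rw [le_div_iff₀ (hpos _ _)]; linarith
    refine h2.trans (le_trans (single_le_sum (f := fun t' => 1 / (X.rr (a s) * X.rr (c t')))
      (fun _ _ => (one_div_pos.2 (hpos _ _)).le) (mem_univ t)) ?_)
    exact single_le_sum (f := fun t => ∑ t', 1 / (X.rr (a t) * X.rr (c t')))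
      (fun _ _ => sum_nonneg fun _ _ => (one_div_pos.2 (hpos _ _)).le) (mem_univ s)
  have hd : (1 : ℝ) ≤ X.d := by exact_mod_cast X.d_pos
  set N := Fintype.card S * n0 with hN
  set ρ : ℝ := 1 - 1 / (X.d : ℝ) ^ N with hρ
  have dN : (1 : ℝ) ≤ (X.d : ℝ) ^ N := one_le_pow₀ hd
  have ρ0 : 0 ≤ ρ := by
    have : 1 / (X.d : ℝ) ^ N ≤ 1 := by rw [div_le_one (by linarith)]; exact dN
    linarith
  have ρ1 : ρ < 1 := by
    have : 0 < 1 / (X.d : ℝ) ^ N := by positivity
    linarith
  have b1 : ∀ t g, X.Pa t g t → n0 ≤ g.length → g.length ≤ N → X.rr g ≤ ρ := by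
    intro t g hg h1 h2
    have c1 : X.rr g ≤ 1 := by
      by_contra hn
      obtain ⟨k, hk⟩ := pow_unbounded_of_one_lt K (not_le.1 hn)
      have := b0 _ _ _ (hg.rep k)
      rw [rr_rep] at this; linarith
    have c2 := hn0 _ _ _ h1 hg.1
    have c3 : (0 : ℝ) < X.DP g := by exact_mod_cast X.DP_pos g
    rw [rr, div_le_one c3] at c1
    have c4 : |X.bP g| ≤ X.DP g := by exact_mod_cast c1
    have c5 : |X.bP g| ≠ X.DP g := by
      intro he
      have h3 : (X.DP g : ℤ) ∣ X.bP g := by rw [← he]; exact abs_dvd_self _ |>.trans dvd_rfl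
      have := (X.bP_cop_DP g g).isUnit_of_dvd' h3 dvd_rfl
      rw [Int.isUnit_iff] at this; omega
    have c6 : |X.bP g| ≤ X.DP g - 1 := by omega
    have c7 : |(X.bP g : ℝ)| ≤ X.DP g - 1 := by exact_mod_cast c6
    have c8 : (X.DP g : ℝ) ≤ (X.d : ℝ) ^ N := (X.DP_le_pow g).trans (pow_le_pow_right₀ hd h2)
    calc X.rr g ≤ (X.DP g - 1) / X.DP g := by rw [rr]; gcongr
      _ = 1 - 1 / X.DP g := by field_simp
      _ ≤ ρ := by rw [hρ]; gcongr
  have b2 : ∀ j n s l, l ∈ X.Paths n s → j * N ≤ n → X.rr l ≤ K * ρ ^ j := by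
    intro j
    induction j with
    | zero => intro n s l hl _; simpa using b0 _ _ _ (Pa.of_mem hl)
    | succ j ih =>
      intro n s l hl hn
      obtain ⟨x, g, y, t, rfl, hx, hg, hy, g1, g2⟩ := cyc_in (n0 := n0) hl (by nlinarith)
      have ll := X.length_of_mem_Paths hl
      simp only [List.length_append] at ll
      have i1 := ih _ _ _ (hx.append hy).1 (by rw [List.length_append]; nlinarith)
      have i2 := b1 t g hg g1 g2
      rw [rr_append] at i1
      rw [rr_append, rr_append, pow_succ]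
      calc X.rr x * (X.rr g * X.rr y) = X.rr x * X.rr y * X.rr g := by ring
        _ ≤ K * ρ ^ j * ρ := mul_le_mul i1 i2 (X.rr_pos _).le
            (le_trans (mul_pos (X.rr_pos _) (X.rr_pos _)).le i1)
        _ = _ := by ring
  have K0 : 0 < K := lt_of_lt_of_le (X.rr_pos _) (b0 _ _ _ (Pa.nil s0))
  obtain ⟨j, hj⟩ := exists_pow_lt_of_lt_one (show 0 < 1 / (2 * K) by positivity) ρ1
  refine ⟨j * N, fun s l hl => (b2 j _ s l hl le_rfl).trans ?_⟩
  rw [lt_div_iff₀ (by positivity)] at hj
  linarith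

end Sys

end Pool.Agent.Lib.MP_39d40e_nt
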