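import Mathlib

/-! An Erdos-Kahane count in a determining window. -/

namespace Pool.Agent.Lib.MP_39d40e_nt.Hz

open Finset Real

/-- a pure run of the frequency `q` seen at three consecutive block ends -/
def Run (ψ : ℕ → ℝ) (l β : ℕ) (q : ℤ) (μ : ℝ) : Prop :=
  ∀ i ≤ 2, (∃ n : ℤ, (q - μ) * ψ ((β + i) * l) = n) ∧ |μ * ψ ((β + i) * l)| ≤ 1

def Det (ψ : ℕ → ℝ) (l β Q0 : ℕ) : Prop :=
  ∀ q : ℤ, q ≠ 0 → |q| ≤ Q0 → ∀ μ, ¬ Run ψ l β q μ

theorem det_window (ψ : ℕ → ℝ) (l Q0 R NB : ℕ) (Γ : ℝ) (hQ : 1 ≤ Q0) (hΓ : 2 * Q0 < Γ)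
    (hψ : ∀ β ≤ NB, ψ (β * l) ≠ 0)
    (grow : ∀ β < NB, Γ * |ψ (β * l)| ≤ |ψ ((β + 1) * l)|)
    (den : ∀ β ≤ NB, ∀ q n : ℤ, q ≠ 0 → |q| ≤ Q0 → 1 ≤ Γ ^ (R * β + 1) * |q * ψ (β * l) - n|)
    (β0 : ℕ) (h0 : (R + 1) * β0 + 4 ≤ NB) :
    ∃ β, β0 ≤ β ∧ β ≤ (R + 1) * β0 + 2 ∧ Det ψ l β Q0 := by
  by_contra hn
  have hn' : ∀ β, ∃ (q : ℤ) (μ : ℝ), β0 ≤ β → β ≤ (R + 1) * β0 + 2 →
      q ≠ 0 ∧ |q| ≤ Q0 ∧ Run ψ l β q μ := by
    intro β
    by_cases h : β0 ≤ β ∧ β ≤ (R + 1) * β0 + 2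
    · by_contra h2
      push Not at h2
      exact hn ⟨β, h.1, h.2, fun q hq hq' μ => (h2 q μ).2.2 hq hq'⟩
    · exact ⟨0, 0, fun h1 h2 => absurd ⟨h1, h2⟩ h⟩
  choose q μ hq using hn'
  have Q1 : (1 : ℝ) ≤ Q0 := by exact_mod_cast hQ
  have Γ0 : 0 < Γ := by linarith
  have small : ∀ (β : ℕ) (m : ℝ), β < NB → |m * ψ ((β + 1) * l)| ≤ 1 →
      Γ * |m * ψ (β * l)| ≤ 1 := by
    intro β m hβ h
    rw [abs_mul] at h ⊢
    nlinarith [grow β hβ, abs_nonneg m]
  have step : ∀ β, β0 ≤ β → β + 1 ≤ (R + 1) * β0 + 2 → q β * μ (β + 1) = q (β + 1) * μ β := by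
    intro β h1 h2
    obtain ⟨a1, a2, a3⟩ := hq β h1 (by omega)
    obtain ⟨b1, b2, b3⟩ := hq (β + 1) (by omega) h2
    obtain ⟨n, hn⟩ := (a3 1 (by norm_num)).1
    obtain ⟨n', hn'⟩ := (b3 0 (by norm_num)).1
    have c1 := small (β + 1) (μ β) (by omega) (a3 2 (by norm_num)).2
    have c2 := small (β + 1) (μ (β + 1)) (by omega) (b3 1 (by norm_num)).2
    rw [add_zero] at hn'
    set x := ψ ((β + 1) * l) with hx
    have e : ((q (β + 1) * n - q β * n' : ℤ) : ℝ)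
        = q β * (μ (β + 1) * x) - q (β + 1) * (μ β * x) := by
      push_cast; rw [← hn, ← hn']; ring
    have a2' : |(q β : ℝ)| ≤ Q0 := by exact_mod_cast a2
    have b2' : |(q (β + 1) : ℝ)| ≤ Q0 := by exact_mod_cast b2
    have lt : |((q (β + 1) * n - q β * n' : ℤ) : ℝ)| < 1 := by
      rw [e]
      refine lt_of_le_of_lt (abs_sub _ _) ?_
      rw [abs_mul (q β : ℝ), abs_mul (q (β + 1) : ℝ)]
      have d1 := mul_le_mul_of_nonneg_right a2' (abs_nonneg (μ (β + 1) * x))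
      have d2 := mul_le_mul_of_nonneg_right b2' (abs_nonneg (μ β * x))
      by_contra hc
      push Not at hc
      have d3 : Γ * 1 ≤ Γ * (Q0 * |μ (β + 1) * x| + Q0 * |μ β * x|) :=
        mul_le_mul_of_nonneg_left (by linarith) Γ0.le
      nlinarith
    have z : q (β + 1) * n - q β * n' = 0 := by
      rw [← Int.abs_lt_one_iff]; exact_mod_cast lt
    rw [z] at e
    have hx0 : x ≠ 0 := hψ (β + 1) (by omega)
    apply mul_right_cancel₀ hx0
    push_cast at e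
    linarith
  have all : ∀ i, β0 + i ≤ (R + 1) * β0 + 2 →
      q β0 * μ (β0 + i) = q (β0 + i) * μ β0 ∧ Γ ^ i * |ψ (β0 * l)| ≤ |ψ ((β0 + i) * l)| := by
    intro i
    induction i with
    | zero => intro _; simp
    | succ i ih =>
      intro h
      obtain ⟨i1, i2⟩ := ih (by omega)
      have s1 := step (β0 + i) (by omega) (by omega)
      have a1 : (q (β0 + i) : ℝ) ≠ 0 := by exact_mod_cast (hq (β0 + i) (by omega) (by omega)).1
      rw [← add_assoc]
      refine ⟨mul_left_cancel₀ a1 ?_, ?_⟩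
      · linear_combination (q β0 : ℝ) * s1 + (q (β0 + i + 1) : ℝ) * i1
      · refine le_trans ?_ (grow (β0 + i) (by omega))
        rw [pow_succ', mul_assoc]
        exact mul_le_mul_of_nonneg_left i2 Γ0.le
  have e1 : β0 + (R * β0 + 2) = (R + 1) * β0 + 2 := by ring
  obtain ⟨f1, f2⟩ := all (R * β0 + 2) e1.le
  obtain ⟨a1, a2, a3⟩ := hq β0 le_rfl (by nlinarith)
  obtain ⟨b1, b2, b3⟩ := hq (β0 + (R * β0 + 2)) (by omega) e1.le
  obtain ⟨n, hn⟩ := (a3 0 (by norm_num)).1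
  have g1 := den β0 (by nlinarith) (q β0) n a1 a2
  have g2 := (b3 0 (by norm_num)).2
  rw [add_zero] at hn g2
  have g3 : q β0 * ψ (β0 * l) - n = μ β0 * ψ (β0 * l) := by rw [← hn]; ring
  rw [g3, abs_mul] at g1
  rw [abs_mul] at g2
  set m1 := μ (β0 + (R * β0 + 2))
  have g4 : |μ β0| ≤ Q0 * |m1| := by
    have t1 : (1 : ℝ) ≤ |(q (β0 + (R * β0 + 2)) : ℝ)| := by exact_mod_cast Int.one_le_abs b1
    have t2 : |(q β0 : ℝ)| ≤ Q0 := by exact_mod_cast a2
    have t3 := congrArg abs f1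
    rw [abs_mul, abs_mul] at t3
    nlinarith [abs_nonneg (μ β0), abs_nonneg m1]
  have p0 : 0 < Γ ^ (R * β0 + 1) := pow_pos Γ0 _
  rw [show R * β0 + 2 = R * β0 + 1 + 1 by ring, pow_succ] at f2
  set P := Γ ^ (R * β0 + 1)
  set y := |ψ (β0 * l)|
  have y0 : 0 ≤ y := abs_nonneg _
  have g5 : |m1| * (P * Γ * y) ≤ 1 :=
    le_trans (mul_le_mul_of_nonneg_left f2 (abs_nonneg _)) g2
  have g6 : 1 ≤ P * (Q0 * |m1| * y) :=
    g1.trans (mul_le_mul_of_nonneg_left (mul_le_mul_of_nonneg_right g4 y0) p0.le)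
  have g7 : Γ * 1 ≤ Γ * (P * (Q0 * |m1| * y)) := mul_le_mul_of_nonneg_left g6 Γ0.le
  have g8 : Q0 * (|m1| * (P * Γ * y)) ≤ Q0 * 1 := mul_le_mul_of_nonneg_left g5 (by linarith)
  nlinarith

theorem abs_cos_le {x ε : ℝ} (h0 : 0 ≤ ε) (h : ε ≤ |x - round x|) :
    |cos (π * x)| ≤ cos (π * ε) := by
  have h1 := abs_sub_round x
  have e : π * x = π * (x - round x) + (round x : ℤ) * π := by ring
  rw [e, cos_add_int_mul_pi, abs_mul, abs_zpow, abs_neg, abs_one, one_zpow, one_mul,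
    ← cos_abs, abs_mul, abs_of_pos pi_pos]
  have h2 : π * |x - round x| ≤ π / 2 := by nlinarith [pi_pos]
  have h3 : 0 ≤ π * |x - round x| := by positivity
  rw [abs_of_nonneg (cos_nonneg_of_neg_pi_div_two_le_of_le (by linarith [pi_pos]) h2)]
  exact cos_le_cos_of_nonneg_of_le_pi (by positivity) (by linarith [pi_pos])
    (mul_le_mul_of_nonneg_left h pi_pos.le)

theorem prod_sq_le (g : ℕ → ℝ) (h0 : ∀ r, 0 ≤ g r) (h1 : ∀ r, g r ≤ 1) (n : ℕ) :
    ∏ r ∈ range (n + 1), g r ^ 2 ≤ ∏ r ∈ range n, g r * g (r + 1) := by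
  rw [prod_mul_distrib, prod_pow, sq]
  refine mul_le_mul ?_ ?_ (prod_nonneg fun r _ => h0 r) (prod_nonneg fun r _ => h0 r)
  · rw [prod_range_succ]
    exact mul_le_of_le_one_right (prod_nonneg fun r _ => h0 r) (h1 n)
  · rw [prod_range_succ']
    exact mul_le_of_le_one_right (prod_nonneg fun r _ => h0 _) (h1 0)

open Classical in
theorem window_sum (ψ : ℕ → ℝ) (U V : ℕ → ℤ) (vis : ℕ → Prop) (l Q0 K M β : ℕ) (hK : 1 ≤ K)
    (hU : ∀ r, |U r| ≤ K) (hV : ∀ r, |V r| ≤ K) (hV0 : ∀ r, V r ≠ 0)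
    (hrec : ∀ r < (β + 2) * l, V r * ψ (r + 1) = U r * ψ r) (hψ : ψ (β * l) ≠ 0)
    (hd : Det ψ l β Q0) (H : Finset ℤ) (hH : ∀ h ∈ H, ∀ h' ∈ H, |h - h'| ≤ Q0) :
    ∑ h ∈ H, ∏ r ∈ range (2 * l + 1),
        (if vis (β * l + r) then cos (π * (h * ψ (β * l + r))) ^ 2 else 1) ^ M
      ≤ ∏ r ∈ range (2 * l), (1 + 2 * K *
        if vis (β * l + r) ∧ vis (β * l + r + 1) then cos (π * (1 / (2 * K))) ^ M else 1) := by
  set a := β * l with ha
  set ϱ := cos (π * (1 / (2 * K))) with hϱ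
  have K1 : (1 : ℝ) ≤ K := by exact_mod_cast hK
  have ϱ0 : 0 ≤ ϱ := by
    refine cos_nonneg_of_neg_pi_div_two_le_of_le (by have := pi_pos; linarith [show 0 ≤ π * (1 / (2 * (K : ℝ))) by positivity]) ?_
    have : 1 / (2 * (K : ℝ)) ≤ 1 / 2 := by gcongr; linarith
    nlinarith [pi_pos]
  set δ : ℤ → ℕ → ℝ := fun h r => h * ψ r - round (h * ψ r) with hδ
  set c : ℤ → ℕ → ℤ := fun h r => V r * round (h * ψ (r + 1)) - U r * round (h * ψ r) with hc
  have c_eq : ∀ h, ∀ r < (β + 2) * l, (c h r : ℝ) = U r * δ h r - V r * δ h (r + 1) := by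
    intro h r hr
    simp only [hc, hδ]; push_cast
    linear_combination (h : ℝ) * hrec r hr
  have c_le : ∀ h, ∀ r < (β + 2) * l, |(c h r : ℝ)| ≤ K * |δ h r| + K * |δ h (r + 1)| := by
    intro h r hr
    rw [c_eq h r hr]
    refine (abs_sub _ _).trans ?_
    rw [abs_mul, abs_mul]
    have u1 : |(U r : ℝ)| ≤ K := by exact_mod_cast hU r
    have u2 : |(V r : ℝ)| ≤ K := by exact_mod_cast hV r
    gcongr
  have δ_le : ∀ h r, |δ h r| ≤ 1 / 2 := fun h r => abs_sub_round _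
  have lt : ∀ i < 2 * l, a + i < (β + 2) * l := fun i hi => by rw [ha]; nlinarith
  set w : ℕ → ℝ := fun r => if vis (a + r) ∧ vis (a + r + 1) then ϱ ^ M else 1 with hw
  have w0 : ∀ r, 0 ≤ w r := fun r => by simp only [hw]; split_ifs <;> positivity
  set ω : ℕ → ℤ → ℝ := fun r x => if x = 0 then 1 else w r with hω
  have ω0 : ∀ r x, 0 ≤ ω r x := fun r x => by simp only [hω]; split_ifs; exacts [zero_le_one, w0 r]
  have pt : ∀ h : ℤ, ∏ r ∈ range (2 * l + 1),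
      (if vis (a + r) then cos (π * (h * ψ (a + r))) ^ 2 else 1) ^ M
      ≤ ∏ i : Fin (2 * l), ω i (c h (a + i)) := by
    intro h
    set g : ℕ → ℝ := fun r => if vis (a + r) then |cos (π * (h * ψ (a + r)))| ^ M else 1 with hg
    have g0 : ∀ r, 0 ≤ g r := fun r => by simp only [hg]; split_ifs <;> positivity
    have g1 : ∀ r, g r ≤ 1 := fun r => by
      simp only [hg]; split_ifs
      exacts [pow_le_one₀ (abs_nonneg _) (abs_cos_le_one _), le_rfl]
    have e : ∀ r, (if vis (a + r) then cos (π * (h * ψ (a + r))) ^ 2 else 1) ^ M = g r ^ 2 := by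
      intro r
      simp only [hg]; split_ifs
      · rw [← sq_abs, ← pow_mul, ← pow_mul, mul_comm 2 M]
      · simp
    simp only [e]
    refine (prod_sq_le g g0 g1 _).trans ?_
    rw [Fin.prod_univ_eq_prod_range (fun i => ω i (c h (a + i)))]
    refine prod_le_prod (fun r _ => mul_nonneg (g0 _) (g0 _)) fun r hr => ?_
    have gg : g r * g (r + 1) ≤ 1 := mul_le_one₀ (g1 _) (g0 _) (g1 _)
    simp only [hω, hw]
    split_ifs with h1 h2
    · exact gg
    · have i1 : (1 : ℝ) ≤ |(c h (a + r) : ℝ)| := by exact_mod_cast Int.one_le_abs h1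
      have i2 := c_le h (a + r) (lt r (mem_range.1 hr))
      have e0 : (0 : ℝ) ≤ 1 / (2 * K) := by positivity
      by_cases h3 : 1 / (2 * (K : ℝ)) ≤ |δ h (a + r)|
      · have : g r ≤ ϱ ^ M := by
          simp only [hg, if_pos h2.1]
          exact pow_le_pow_left₀ (abs_nonneg _) (abs_cos_le e0 h3) _
        exact (mul_le_of_le_one_right (g0 _) (g1 _)).trans this
      · have h4 : 1 / (2 * (K : ℝ)) ≤ |δ h (a + r + 1)| := by
          rw [not_le, lt_div_iff₀ (by positivity)] at h3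
          rw [div_le_iff₀ (by positivity)]; linarith
        have : g (r + 1) ≤ ϱ ^ M := by
          simp only [hg, ← add_assoc, if_pos h2.2]
          exact pow_le_pow_left₀ (abs_nonneg _) (abs_cos_le e0 h4) _
        exact (mul_le_of_le_one_left (g0 _) (g1 _)).trans this
    · exact gg
  refine (sum_le_sum fun h _ => pt h).trans ?_
  have inj : Set.InjOn (fun (h : ℤ) (i : Fin (2 * l)) => c h (a + i)) H := by
    intro h hh h' hh' e
    by_contra hne
    set μ := (δ h a - δ h' a) / ψ a with hμ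
    have all : ∀ i ≤ 2 * l, δ h (a + i) - δ h' (a + i) = μ * ψ (a + i) := by
      intro i
      induction i with
      | zero => intro _; rw [hμ, add_zero]; field_simp
      | succ i ih =>
        intro hi
        have i1 := ih (by omega)
        have i2 : c h (a + i) = c h' (a + i) := congrFun e ⟨i, by omega⟩
        have i3 := c_eq h (a + i) (lt i (by omega))
        have i4 := c_eq h' (a + i) (lt i (by omega))
        have i5 := hrec (a + i) (lt i (by omega))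
        have v0 : (V (a + i) : ℝ) ≠ 0 := by exact_mod_cast hV0 _
        rw [i2, i4] at i3
        rw [← add_assoc]
        apply mul_left_cancel₀ v0
        linear_combination i3 + (U (a + i) : ℝ) * i1 - μ * i5
    refine hd (h - h') (sub_ne_zero.2 hne) (hH h hh h' hh') μ fun i hi => ?_
    have j1 := all (i * l) (Nat.mul_le_mul_right _ hi)
    rw [show (β + i) * l = a + i * l by rw [ha]; ring]
    refine ⟨⟨round (h * ψ (a + i * l)) - round (h' * ψ (a + i * l)), ?_⟩, ?_⟩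
    · simp only [hδ] at j1
      push_cast; linear_combination j1
    · rw [← j1]
      exact (abs_sub _ _).trans (by linarith [δ_le h (a + i * l), δ_le h' (a + i * l)])
  rw [← sum_image (f := fun p : Fin (2 * l) → ℤ => ∏ i : Fin (2 * l), ω i (p i)) inj]
  have sub : H.image (fun (h : ℤ) (i : Fin (2 * l)) => c h (a + i))
      ⊆ Fintype.piFinset fun _ : Fin (2 * l) => Icc (-(K : ℤ)) K := by
    intro p hp
    obtain ⟨h, -, rfl⟩ := mem_image.1 hp
    rw [Fintype.mem_piFinset]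
    intro i
    rw [mem_Icc, ← abs_le]
    have i2 := c_le h (a + i) (lt i i.2)
    have : |(c h (a + i) : ℝ)| ≤ K := by nlinarith [δ_le h (a + i), δ_le h (a + i + 1)]
    exact_mod_cast this
  refine (sum_le_sum_of_subset_of_nonneg sub fun p _ _ => prod_nonneg fun i _ => ω0 _ _).trans ?_
  rw [← prod_univ_sum, Fin.prod_univ_eq_prod_range (fun i => ∑ x ∈ Icc (-(K : ℤ)) K, ω i x)]
  refine le_of_eq (prod_congr rfl fun r _ => ?_)
  rw [← add_sum_erase _ _ (show (0 : ℤ) ∈ Icc (-(K : ℤ)) K by simp),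
    sum_congr rfl (g := fun _ => w r) (fun x hx => by simp only [hω, if_neg (ne_of_mem_erase hx)]),
    sum_const, card_erase_of_mem (by simp), Int.card_Icc]
  have : ((K : ℤ) + 1 - -(K : ℤ)).toNat - 1 = 2 * K := by omega
  rw [this]; simp [hω, hw]

/-- starting points of the ranges of blocks -/
def BB (R : ℕ) : ℕ → ℕ
  | 0 => 0
  | m + 1 => (R + 1) * BB R m + 5

theorem BB_mono (R : ℕ) : Monotone (BB R) :=
  monotone_nat_of_le_succ fun m => by rw [BB]; nlinarith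

theorem prod_le_sum_pow (P : ℕ → ℝ) (h0 : ∀ m, 0 ≤ P m) (M : ℕ) (hM : 1 ≤ M) :
    ∏ m ∈ range M, P m ≤ ∑ m ∈ range M, P m ^ M := by
  obtain ⟨m, hm, h⟩ := exists_max_image (range M) P ⟨0, mem_range.2 hM⟩
  calc _ ≤ ∏ _m ∈ range M, P m := prod_le_prod (fun i _ => h0 i) h
    _ = P m ^ M := by simp
    _ ≤ _ := single_le_sum (f := fun m => P m ^ M) (fun i _ => pow_nonneg (h0 i) _) hm

open Classical in
theorem ek (ψ : ℕ → ℝ) (U V : ℕ → ℤ) (vis : ℕ → Prop) (k l Q0 K M R : ℕ) (Γ W : ℝ)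
    (hK : 1 ≤ K) (hl : 1 ≤ l) (hM : 1 ≤ M) (hk : BB R M * l ≤ k) (hQ : 1 ≤ Q0) (hΓ : 2 * Q0 < Γ)
    (hU : ∀ r, |U r| ≤ K) (hV : ∀ r, |V r| ≤ K) (hV0 : ∀ r, V r ≠ 0)
    (hrec : ∀ r, V r * ψ (r + 1) = U r * ψ r) (hψ : ∀ r, ψ r ≠ 0)
    (grow : ∀ β < BB R M, Γ * |ψ (β * l)| ≤ |ψ ((β + 1) * l)|)
    (den : ∀ β, ∀ q n : ℤ, q ≠ 0 → |q| ≤ Q0 → 1 ≤ Γ ^ (R * β + 1) * |q * ψ (β * l) - n|)
    (hW : ∀ β, β + 3 ≤ BB R M → ∏ r ∈ range (2 * l), (1 + 2 * K *
        if vis (β * l + r) ∧ vis (β * l + r + 1) then cos (π * (1 / (2 * K))) ^ M else 1) ≤ W)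
    (H : Finset ℤ) (hH : ∀ h ∈ H, ∀ h' ∈ H, |h - h'| ≤ Q0) :
    ∑ h ∈ H, ∏ r ∈ range k, (if vis r then cos (π * (h * ψ r)) ^ 2 else 1) ≤ M * W := by
  have ex : ∀ m, ∃ β, m < M → BB R m ≤ β ∧ β ≤ (R + 1) * BB R m + 2 ∧ Det ψ l β Q0 := by
    intro m
    by_cases hm : m < M
    · have : BB R (m + 1) ≤ BB R M := BB_mono R hm
      rw [BB] at this
      obtain ⟨β, h⟩ := det_window ψ l Q0 R (BB R M) Γ hQ hΓ (fun β _ => hψ _) grow
        (fun β _ => den β) (BB R m) (by omega)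
      exact ⟨β, fun _ => h⟩
    · exact ⟨0, fun h => absurd h hm⟩
  choose β hβ using ex
  set f : ℤ → ℕ → ℝ := fun h r => if vis r then cos (π * (h * ψ r)) ^ 2 else 1 with hf
  have f0 : ∀ h r, 0 ≤ f h r := fun h r => by simp only [hf]; split_ifs <;> positivity
  have f1 : ∀ h r, f h r ≤ 1 := fun h r => by
    simp only [hf]; split_ifs
    exacts [cos_sq_le_one _, le_rfl]
  set P : ℤ → ℕ → ℝ := fun h m => ∏ r ∈ range (2 * l + 1), f h (β m * l + r) with hP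
  have P0 : ∀ h m, 0 ≤ P h m := fun h m => prod_nonneg fun r _ => f0 _ _
  have sub : ∀ h (s t : Finset ℕ), s ⊆ t → ∏ r ∈ t, f h r ≤ ∏ r ∈ s, f h r := fun h s t hst =>
    prod_le_prod_of_subset_of_le_one hst (fun r _ => f0 h r) fun r _ _ => f1 h r
  have ind : ∀ h, ∀ m ≤ M, ∏ r ∈ range (BB R m * l), f h r ≤ ∏ i ∈ range m, P h i := by
    intro h m
    induction m with
    | zero => intro _; simp [BB]
    | succ m ih =>
      intro hm
      obtain ⟨b1, b2, -⟩ := hβ m hm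
      rw [prod_range_succ, ← prod_range_mul_prod_Ico _
        (Nat.mul_le_mul_right l (BB_mono R (Nat.le_succ m)))]
      refine mul_le_mul (ih (by omega)) ?_ (prod_nonneg fun r _ => f0 _ _)
        (prod_nonneg fun r _ => P0 _ _)
      have e : P h m = ∏ r ∈ Ico (β m * l) (β m * l + (2 * l + 1)), f h r := by
        rw [prod_Ico_eq_prod_range]; simp [hP]
      rw [e]
      refine sub h _ _ (Ico_subset_Ico (Nat.mul_le_mul_right l b1) ?_)
      have : (β m + 3) * l ≤ BB R (m + 1) * l := Nat.mul_le_mul_right l (by rw [BB]; omega)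
      nlinarith
  calc _ ≤ ∑ h ∈ H, ∑ m ∈ range M, P h m ^ M := sum_le_sum fun h _ =>
        ((sub h _ _ (range_subset_range.2 hk)).trans (ind h M le_rfl)).trans
          (prod_le_sum_pow _ (P0 h) M hM)
    _ = ∑ m ∈ range M, ∑ h ∈ H, P h m ^ M := sum_comm
    _ ≤ ∑ _m ∈ range M, W := by
        refine sum_le_sum fun m hm => ?_
        obtain ⟨b1, b2, b3⟩ := hβ m (mem_range.1 hm)
        have : BB R (m + 1) ≤ BB R M := BB_mono R (mem_range.1 hm)
        rw [BB] at this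
        refine le_trans ?_ (hW (β m) (by omega))
        refine le_trans (le_of_eq ?_) (window_sum ψ U V vis l Q0 K M (β m) hK hU hV hV0
          (fun r _ => hrec r) (hψ _) b3 H hH)
        simp only [hP, hf, prod_pow]
    _ = _ := by simp

end Pool.Agent.Lib.MP_39d40e_nt.Hz
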