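import Mathlib

/-! From collisions modulo `Q` to a short sum of squared Fourier coefficients. -/

namespace Pool.Agent.Lib.MP_39d40e_nt.Hz

open Finset Real

noncomputable def ee (x : ℝ) : ℂ := Complex.exp ((2 * π * x : ℝ) * Complex.I)

theorem ee_add (x y : ℝ) : ee (x + y) = ee x * ee y := by
  unfold ee; rw [← Complex.exp_add]; congr 1; push_cast; ring

theorem norm_ee (x : ℝ) : ‖ee x‖ = 1 := Complex.norm_exp_ofReal_mul_I _

theorem ee_int (n : ℤ) : ee n = 1 := by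
  unfold ee
  rw [← Complex.exp_int_mul_two_pi_mul_I n]; congr 1; push_cast; ring

theorem ee_re (x : ℝ) : (ee x).re = cos (2 * π * x) := Complex.exp_ofReal_mul_I_re _

theorem conj_ee (x : ℝ) : (starRingEnd ℂ) (ee x) = ee (-x) := by
  unfold ee
  rw [← Complex.exp_conj]; congr 1
  simp only [map_mul, Complex.conj_ofReal, Complex.conj_I]; push_cast; ring

theorem norm_one_add_ee (x : ℝ) : ‖1 + ee x‖ ^ 2 = 4 * cos (π * x) ^ 2 := by
  rw [Complex.sq_norm, Complex.normSq_add, Complex.normSq_one, ← Complex.sq_norm, norm_ee, one_mul,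
    conj_ee, ee_re, cos_sq, show 2 * π * -x = -(2 * (π * x)) by ring, cos_neg]
  ring

theorem fejer_low {t : ℝ} {n : ℤ} {Q K : ℕ} (hK : 6 * K ≤ Q) (hQ : 0 < Q) (h : |t - n| ≤ 1 / Q) :
    (K : ℝ) ^ 2 / 4 ≤ ‖∑ a ∈ range K, ee (a * t)‖ ^ 2 := by
  have Q0 : (0 : ℝ) < Q := by exact_mod_cast hQ
  have h1 : ∀ a ∈ range K, (1 : ℝ) / 2 ≤ (ee (a * t)).re := by
    intro a ha
    have e : (a : ℝ) * t = a * (t - n) + ((a * n : ℤ) : ℝ) := by push_cast; ring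
    rw [e, ee_add, ee_int, mul_one, ee_re, ← cos_abs, ← cos_pi_div_three]
    have a1 : (6 : ℝ) * a ≤ Q := by exact_mod_cast (by have := mem_range.1 ha; omega : 6 * a ≤ Q)
    refine cos_le_cos_of_nonneg_of_le_pi (abs_nonneg _) (by linarith [pi_pos]) ?_
    rw [abs_mul, abs_mul (a : ℝ), abs_of_pos (by positivity : 0 < 2 * π), Nat.abs_cast]
    have a2 : (a : ℝ) * |t - n| ≤ 1 / 6 := by
      refine (mul_le_mul_of_nonneg_left h (Nat.cast_nonneg a)).trans ?_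
      rw [mul_one_div, div_le_iff₀ Q0]; linarith
    nlinarith [pi_pos]
  have h2 : (K : ℝ) / 2 ≤ ‖∑ a ∈ range K, ee (a * t)‖ := by
    refine le_trans ?_ (Complex.re_le_norm _)
    rw [Complex.re_sum]
    refine le_trans (le_of_eq ?_) (sum_le_sum h1)
    simp; ring
  calc _ = ((K : ℝ) / 2) ^ 2 := by ring
    _ ≤ _ := by gcongr

theorem sq_sum {ι : Type*} (s : Finset ι) (x : ι → ℝ) :
    ((‖∑ i ∈ s, ee (x i)‖ ^ 2 : ℝ) : ℂ) = ∑ i ∈ s, ∑ j ∈ s, ee (x i - x j) := by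
  rw [Complex.sq_norm, Complex.normSq_eq_conj_mul_self, map_sum, mul_comm, sum_mul_sum]
  refine sum_congr rfl fun i _ => sum_congr rfl fun j _ => ?_
  rw [conj_ee, ← ee_add, sub_eq_add_neg]

theorem fejer_sum {ι : Type*} (s : Finset ι) (θ : ι → ℝ) (K : ℕ) :
    ∑ i ∈ s, ∑ j ∈ s, ‖∑ a ∈ range K, ee (a * (θ i - θ j))‖ ^ 2
      ≤ K * ∑ h ∈ Ioo (-(K : ℤ)) K, ‖∑ i ∈ s, ee (h * θ i)‖ ^ 2 := by
  have e : ∑ i ∈ s, ∑ j ∈ s, ‖∑ a ∈ range K, ee (a * (θ i - θ j))‖ ^ 2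
      = ∑ a ∈ range K, ∑ b ∈ range K, ‖∑ i ∈ s, ee ((((a : ℤ) - b : ℤ) : ℝ) * θ i)‖ ^ 2 := by
    apply Complex.ofReal_injective
    simp only [Complex.ofReal_sum, sq_sum]
    rw [sum_congr rfl fun i _ => sum_comm, sum_comm]
    refine sum_congr rfl fun a _ => ?_
    rw [sum_congr rfl fun i _ => sum_comm, sum_comm]
    refine sum_congr rfl fun b _ => sum_congr rfl fun i _ => sum_congr rfl fun j _ => ?_
    congr 1; push_cast; ring
  rw [e]
  refine le_trans (sum_le_sum (g := fun _ => ∑ h ∈ Ioo (-(K : ℤ)) K, ‖∑ i ∈ s, ee (h * θ i)‖ ^ 2)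
    fun a ha => ?_) (by simp)
  rw [← sum_image (s := range K) (g := fun b : ℕ => (a : ℤ) - b)
    (f := fun h : ℤ => ‖∑ i ∈ s, ee (h * θ i)‖ ^ 2) (fun b _ c _ h => by simpa using h)]
  refine sum_le_sum_of_subset_of_nonneg (fun h hh => ?_) fun _ _ _ => by positivity
  obtain ⟨b, hb, rfl⟩ := mem_image.1 hh
  rw [mem_range] at ha hb
  rw [mem_Ioo]; omega

open Classical in
theorem hit_sq {ι : Type*} (s : Finset ι) (θ : ι → ℝ) (y : ι → ℤ) {Q K : ℕ} (hK0 : 0 < K)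
    (hK : 6 * K ≤ Q)
    (hc : ∀ i ∈ s, ∀ j ∈ s, (Q : ℤ) ∣ y i - y j → ∃ n : ℤ, |θ i - θ j - n| ≤ 1 / Q)
    (Bad : ℤ → Prop) (per : ∀ z z', (Q : ℤ) ∣ z - z' → Bad z → Bad z') (t : ℤ) :
    (#{i ∈ s | Bad (y i + t)} : ℝ) ^ 2 ≤ #((range Q).filter fun z : ℕ => Bad z) *
      (4 / K * ∑ h ∈ Ioo (-(K : ℤ)) K, ‖∑ i ∈ s, ee (h * θ i)‖ ^ 2) := by
  have hQ : 0 < Q := by omega
  have Q0 : (0 : ℤ) < Q := by exact_mod_cast hQ
  have K0 : (0 : ℝ) < K := by exact_mod_cast hK0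
  set r : ι → ℕ := fun i => ((y i + t) % Q).toNat with hr
  have r1 : ∀ i, (r i : ℤ) = (y i + t) % Q := fun i => Int.toNat_of_nonneg (Int.emod_nonneg _ Q0.ne')
  set B := (range Q).filter fun z : ℕ => Bad z with hB
  have h1 : (#{i ∈ s | Bad (y i + t)} : ℝ) ≤ ∑ z ∈ B, (#{i ∈ s | r i = z} : ℝ) := by
    have : {i ∈ s | Bad (y i + t)} ⊆ B.biUnion fun z => {i ∈ s | r i = z} := by
      intro i hi
      rw [mem_filter] at hi
      refine mem_biUnion.2 ⟨r i, mem_filter.2 ⟨mem_range.2 ?_, ?_⟩, mem_filter.2 ⟨hi.1, rfl⟩⟩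
      · have := Int.emod_lt_of_pos (y i + t) Q0
        have := r1 i
        omega
      · refine per _ _ ?_ hi.2
        rw [r1]; exact (Int.mod_modEq _ _).dvd
    exact_mod_cast (card_le_card this).trans card_biUnion_le
  have h2 : ∑ z ∈ B, (#{i ∈ s | r i = z} : ℝ) ^ 2
      ≤ ∑ i ∈ s, ∑ j ∈ s, if r i = r j then (1 : ℝ) else 0 := by
    simp only [card_filter, Nat.cast_sum, sq, sum_mul_sum]
    rw [sum_comm]
    refine sum_le_sum fun i _ => ?_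
    rw [sum_comm]
    refine sum_le_sum fun j _ => ?_
    by_cases h : r i = r j
    · rw [if_pos h, ← h]
      simp only [Nat.cast_ite, Nat.cast_one, Nat.cast_zero, mul_ite, mul_one, mul_zero]
      rw [sum_ite_eq]; split_ifs <;> simp_all
    · rw [if_neg h]
      refine le_of_eq (sum_eq_zero fun z _ => ?_)
      by_cases h1 : r i = z
      · rw [if_neg (fun h2 : r j = z => h (h1.trans h2.symm))]; simp
      · rw [if_neg h1]; simp
  have h3 : ∑ i ∈ s, ∑ j ∈ s, (if r i = r j then (1 : ℝ) else 0)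
      ≤ 4 / K ^ 2 * ∑ i ∈ s, ∑ j ∈ s, ‖∑ a ∈ range K, ee (a * (θ i - θ j))‖ ^ 2 := by
    simp only [mul_sum]
    refine sum_le_sum fun i hi => sum_le_sum fun j hj => ?_
    split_ifs with h
    · have e : (y i + t) % Q = (y j + t) % Q := by rw [← r1, ← r1, h]
      obtain ⟨n, hn⟩ := hc i hi j hj (by
        have := (Int.emod_emod_of_dvd (y i + t) (dvd_refl (Q : ℤ)))
        simpa using (Int.ModEq.dvd e.symm))
      have := fejer_low hK hQ hn
      rw [div_mul_eq_mul_div, le_div_iff₀ (by positivity)]; linarith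
    · positivity
  have h4 := fejer_sum s θ K
  calc _ ≤ (∑ z ∈ B, (#{i ∈ s | r i = z} : ℝ)) ^ 2 := by gcongr
    _ ≤ #B * ∑ z ∈ B, (#{i ∈ s | r i = z} : ℝ) ^ 2 := sq_sum_le_card_mul_sum_sq
    _ ≤ #B * (4 / K ^ 2 * (K * ∑ h ∈ Ioo (-(K : ℤ)) K, ‖∑ i ∈ s, ee (h * θ i)‖ ^ 2)) := by
        gcongr
        exact h2.trans (h3.trans (by gcongr))
    _ = _ := by field_simp

end Pool.Agent.Lib.MP_39d40e_nt.Hz
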