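import Pool.Agent.Lib.MP_39d40e_nt.Power
import Pool.Agent.Lib.MP_39d40e_nt.HzA
import Pool.Agent.Lib.MP_39d40e_nt.HzB

/-! Swapping parallel edges; the Fourier coefficients of a swap class. -/

namespace Pool.Agent.Lib.MP_39d40e_nt

open Finset Real Hz

namespace Hz

def BL : ℕ → Finset (List Bool)
  | 0 => {[]}
  | n + 1 => (BL n).image (List.cons true) ∪ (BL n).image (List.cons false)

theorem sum_BL_succ {M : Type*} [AddCommMonoid M] (n : ℕ) (F : List Bool → M) :
    ∑ x ∈ BL (n + 1), F x = ∑ x ∈ BL n, F (true :: x) + ∑ x ∈ BL n, F (false :: x) := by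
  rw [BL, sum_union, sum_image fun _ _ _ _ h => (List.cons.inj h).2,
    sum_image fun _ _ _ _ h => (List.cons.inj h).2]
  rw [disjoint_left]
  intro x h1 h2
  obtain ⟨a, -, rfl⟩ := mem_image.1 h1
  obtain ⟨b, -, h⟩ := mem_image.1 h2
  simp at h

theorem card_BL (n : ℕ) : (#(BL n) : ℝ) = 2 ^ n := by
  induction n with
  | zero => simp [BL]
  | succ n ih =>
    have := sum_BL_succ n (fun _ => (1 : ℝ))
    simp only [sum_const, nsmul_eq_mul, mul_one] at this
    rw [this, ih]; ring

theorem sum_getD {E : Type*} (g : E → ℝ) (m : ℕ) : ∀ (l : List E) (a : ℕ),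
    ∑ r ∈ range m, (l.map g).getD (a + r) 0 = (((l.drop a).take m).map g).sum := by
  induction m with
  | zero => intro l a; simp
  | succ m ih =>
    intro l a
    rw [sum_range_succ, ih, List.take_add_one, List.map_append, List.sum_append]
    congr 1
    simp only [List.getD_eq_getElem?_getD, List.getElem?_map, List.getElem?_drop]
    cases l[a + m]? <;> simp

end Hz

namespace Sys

variable {S E : Type*} [Fintype S] [Fintype E] [DecidableEq S] [DecidableEq E] (X : Sys S E)

/-- an involution exchanging parallel edges -/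
structure Sw where
  σ : E → E
  inv : ∀ e, σ (σ e) = e
  src : ∀ e, X.src (σ e) = X.src e
  tgt : ∀ e, X.tgt (σ e) = X.tgt e
  b : ∀ e, X.b (σ e) = X.b e
  D : ∀ e, X.D (σ e) = X.D e

variable {X}

namespace Sw

variable (w : X.Sw)

def tw : List E → List Bool → List E
  | e :: l, x :: t => (if x then w.σ e else e) :: tw l t
  | l, _ => l

omit [DecidableEq E] in
theorem tw_inv : ∀ (l : List E) (t : List Bool),
    X.bP (w.tw l t) = X.bP l ∧ X.DP (w.tw l t) = X.DP l
  | [], _ => by simp [tw]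
  | _ :: _, [] => by simp [tw]
  | e :: l, x :: t => by
    obtain ⟨h1, h2⟩ := tw_inv l t
    cases x <;> simp [tw, h1, h2, w.b, w.D]

omit [DecidableEq E] in
theorem q_σ (e : E) : X.q (w.σ e) = X.q e := by simp [Sys.q, w.src, w.tgt, w.D]

theorem Ex_tw (n : ℕ) : ∀ (s : S) (f : List E → ℝ),
    X.Ex n s f = X.Ex n s fun l => (∑ t ∈ BL n, f (w.tw l t)) / 2 ^ n := by
  induction n with
  | zero => intro s f; simp [BL, tw]
  | succ n ih =>
    intro s f
    have h1 : ∑ e ∈ X.into s, X.q e * X.Ex n (X.src e) (fun l => f (w.σ e :: l))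
        = ∑ e ∈ X.into s, X.q e * X.Ex n (X.src e) fun l => f (e :: l) :=
      sum_nbij' w.σ w.σ (fun e he => by simpa [w.tgt] using he) (fun e he => by simpa [w.tgt] using he)
        (fun e _ => w.inv e) (fun e _ => w.inv e) fun e _ => by rw [w.q_σ, w.src]
    have h2 : ∀ e, X.Ex n (X.src e) (fun l => (∑ t ∈ BL (n + 1), f (w.tw (e :: l) t)) / 2 ^ (n + 1))
        = 1 / 2 * (X.Ex n (X.src e) (fun l => f (w.σ e :: l))
          + X.Ex n (X.src e) fun l => f (e :: l)) := by
      intro e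
      rw [ih _ fun l => f (w.σ e :: l), ih _ fun l => f (e :: l), ← Ex_add, ← Ex_const_mul]
      congr 1; funext l
      rw [sum_BL_succ]; simp only [tw, if_true, Bool.false_eq_true, if_false]; ring
    rw [Ex_succ, Ex_succ]
    simp only [h2, mul_left_comm (X.q _), mul_add (X.q _)]
    rw [← mul_sum, sum_add_distrib, h1]; ring

/-- the offset difference of a swap (one for a fixed edge) -/
def Δ (e : E) : ℤ := if w.σ e = e then 1 else X.c (w.σ e) - X.c e

theorem Δ_ne (e : E) : w.Δ e ≠ 0 := by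
  unfold Δ
  split_ifs with h
  · exact one_ne_zero
  · intro h0
    obtain ⟨x, y, hxy⟩ := X.cop_D' e e
    have hd : (X.D e : ℤ) ∣ X.b e * (-x * X.c e) + X.c e :=
      ⟨y * X.c e, by linear_combination (-X.c e) * hxy⟩
    refine h ((X.exu (X.src e) (-x * X.c e)).unique ⟨w.src e, ?_⟩ ⟨rfl, hd⟩)
    rw [w.D, w.b, sub_eq_zero.1 h0]; exact hd

def nth (g : E → ℤ) (l : List E) (r : ℕ) : ℤ := (l.map g).getD r 1

omit [Fintype E] [DecidableEq E] in
theorem nth_prop {g : E → ℤ} (p : ℤ → Prop) (h1 : p 1) (h : ∀ e, p (g e)) (l : List E) (r : ℕ) :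
    p (nth g l r) := by
  simp only [nth, List.getD_eq_getElem?_getD, List.getElem?_map]
  cases l[r]? <;> simp [h1, h]

omit [DecidableEq E] in
theorem bP_take (l : List E) (r : ℕ) : X.bP (l.take (r + 1)) = X.bP (l.take r) * nth X.b l r := by
  rw [List.take_add_one, bP_append]
  simp only [nth, List.getD_eq_getElem?_getD, List.getElem?_map]
  cases l[r]? <;> simp

omit [DecidableEq E] in
theorem DP_take (l : List E) (r : ℕ) :
    (X.DP (l.take (r + 1)) : ℤ) = X.DP (l.take r) * nth (fun e => (X.D e : ℤ)) l r := by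
  rw [List.take_add_one, DP_append]
  simp only [nth, List.getD_eq_getElem?_getD, List.getElem?_map]
  cases l[r]? <;> simp

noncomputable def ps (l : List E) (r : ℕ) : ℝ :=
  X.bP (l.take r) * nth w.Δ l r / X.DP (l.take (r + 1))

noncomputable def iv (l : List E) (r : ℕ) : ℝ :=
  (l.map fun e => if w.σ e = e then (1 : ℝ) else 0).getD r 0

theorem ps_rec (l : List E) (r : ℕ) :
    ((nth w.Δ l r * nth (fun e => (X.D e : ℤ)) l (r + 1) : ℤ) : ℝ) * w.ps l (r + 1)
      = ((nth w.Δ l (r + 1) * nth X.b l r : ℤ) : ℝ) * w.ps l r := by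
  have h1 : (X.DP (l.take (r + 1 + 1)) : ℝ)
      = X.DP (l.take (r + 1)) * nth (fun e => (X.D e : ℤ)) l (r + 1) := by
    exact_mod_cast DP_take (X := X) l (r + 1)
  have h2 : (X.DP (l.take (r + 1)) : ℝ) ≠ 0 := by exact_mod_cast (X.DP_pos _).ne'
  have h3 : (nth (fun e => (X.D e : ℤ)) l (r + 1) : ℝ) ≠ 0 := by
    exact_mod_cast nth_prop (· ≠ 0) one_ne_zero (fun e => by exact_mod_cast (X.D_pos e).ne') l _
  unfold ps
  rw [h1, bP_take]; push_cast; field_simp

theorem ps_ne (l : List E) (r : ℕ) : w.ps l r ≠ 0 := by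
  have h2 : (X.DP (l.take (r + 1)) : ℝ) ≠ 0 := by exact_mod_cast (X.DP_pos _).ne'
  have h3 : (nth w.Δ l r : ℝ) ≠ 0 := by exact_mod_cast nth_prop (· ≠ 0) one_ne_zero w.Δ_ne l _
  have h4 : (X.bP (l.take r) : ℝ) ≠ 0 := by exact_mod_cast X.bP_ne _
  unfold ps; positivity

open Classical in
theorem four : ∀ (l : List E) (A : ℝ),
    ‖∑ t ∈ BL l.length, ee (A * (X.cP (w.tw l t) / X.DP l))‖ ^ 2 = 4 ^ l.length *
      ∏ r ∈ range l.length, if w.iv l r = 0 then cos (π * (A * w.ps l r)) ^ 2 else 1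
  | [], A => by simp [BL, norm_ee]
  | e :: l, A => by
    have h2 : (X.DP l : ℝ) ≠ 0 := by exact_mod_cast (X.DP_pos _).ne'
    have h3 : (X.D e : ℝ) ≠ 0 := by exact_mod_cast (X.D_pos _).ne'
    have key : ∀ e', X.b e' = X.b e → ∑ t ∈ BL l.length,
        ee (A * (X.cP (e' :: w.tw l t) / X.DP (e :: l))) = ee (A * (X.c e' / X.D e)) *
          ∑ t ∈ BL l.length, ee (A * (X.b e / X.D e) * (X.cP (w.tw l t) / X.DP l)) := by
      intro e' he
      rw [mul_sum]
      refine sum_congr rfl fun t _ => ?_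
      rw [← ee_add, cP_cons, DP_cons, (w.tw_inv l t).2, he]
      congr 1; push_cast; field_simp; ring
    rw [List.length_cons, sum_BL_succ]
    simp only [tw, if_true, Bool.false_eq_true, if_false]
    rw [key _ (w.b e), key e rfl, ← add_mul, norm_mul, mul_pow, four l, prod_range_succ']
    have e1 : ∀ r, w.iv (e :: l) (r + 1) = w.iv l r := fun r => rfl
    have e2 : ∀ r, A * w.ps (e :: l) (r + 1) = A * (X.b e / X.D e) * w.ps l r := by
      intro r
      have : nth w.Δ (e :: l) (r + 1) = nth w.Δ l r := rfl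
      simp only [ps, List.take_succ_cons, bP_cons, DP_cons, this]
      push_cast; ring
    have e3 : ‖ee (A * (X.c (w.σ e) / X.D e)) + ee (A * (X.c e / X.D e))‖ ^ 2
        = 4 * if w.iv (e :: l) 0 = 0 then cos (π * (A * w.ps (e :: l) 0)) ^ 2 else 1 := by
      have : ee (A * (X.c (w.σ e) / X.D e)) + ee (A * (X.c e / X.D e))
          = ee (A * (X.c e / X.D e)) * (1 + ee (A * ((X.c (w.σ e) - X.c e) / X.D e))) := by
        rw [mul_add, ← ee_add, mul_one, add_comm]; congr 2; ring
      rw [this, norm_mul, norm_ee, one_mul, norm_one_add_ee]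
      by_cases h : w.σ e = e
      · simp [iv, h]
      · simp [iv, h, ps, nth, Δ]
    simp only [e1, e2, e3]; ring

end Sw

end Sys

end Pool.Agent.Lib.MP_39d40e_nt
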