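import Pool.Agent.Lib.MP_39d40e_nt.HzC

/-! The estimate for one swap class and its average over paths. -/

namespace Pool.Agent.Lib.MP_39d40e_nt

open Finset Real Hz

namespace Hz

def bloc {E : Type*} (l : List E) (m β : ℕ) : List E := (l.drop (β * m)).take m

open Classical in
theorem cnt_le (B C G D N : ℤ) (hD : 0 < D) (hG : D ∣ G * B - 1) (Bad : ℤ → Prop) :
    #{u ∈ Icc (-N) N | D ∣ B * u + C ∧ Bad ((B * u + C) / D)}
      ≤ #{n ∈ Icc (-(N / D) - 1) (N / D) | Bad ((B * (-G * C % D) + C) / D + B * n)} := by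
  set x := -G * C % D with hx
  have x0 : 0 ≤ x := Int.emod_nonneg _ hD.ne'
  have x1 : x < D := Int.emod_lt_of_pos _ hD
  obtain ⟨v, hv⟩ := hG
  have x2 : D * (-G * C / D) + x = -G * C := Int.mul_ediv_add_emod _ _
  have x3 : B * x + C = D * (-v * C - B * (-G * C / D)) := by
    linear_combination B * x2 - C * hv
  have key : ∀ u, D ∣ B * u + C → u = x + D * ((u - x) / D) := by
    rintro u ⟨z, hz⟩
    rw [Int.mul_ediv_cancel' ⟨G * z - G * (-v * C - B * (-G * C / D)) - v * (u - x), by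
      linear_combination G * hz - G * x3 - (u - x) * hv⟩]
    ring
  refine card_le_card_of_injOn (fun u => (u - x) / D) (fun u hu => ?_) fun u hu u' hu' h => ?_
  · simp only [coe_filter, mem_Icc, Set.mem_ofPred_eq] at hu ⊢
    obtain ⟨⟨h1, h2⟩, h3, h4⟩ := hu
    have k := key u h3
    set n := (u - x) / D
    refine ⟨⟨?_, Int.le_ediv_of_mul_le hD (by nlinarith)⟩, ?_⟩
    · have : -n - 1 ≤ N / D := Int.le_ediv_of_mul_le hD (by nlinarith)
      omega
    · have e : B * u + C = D * ((-v * C - B * (-G * C / D)) + B * n) := by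
        rw [k]; linear_combination x3
      rw [e, Int.mul_ediv_cancel_left _ hD.ne'] at h4
      rwa [x3, Int.mul_ediv_cancel_left _ hD.ne']
  · simp only [coe_filter, Set.mem_ofPred_eq] at hu hu' h
    rw [key u hu.2.1, key u' hu'.2.1, h]

theorem card_I (D N : ℕ) (hD : 0 < D) (h : D ≤ N) :
    (D : ℝ) * #(Icc (-((N : ℤ) / D) - 1) (N / D)) ≤ 4 * N := by
  have h1 : 1 ≤ N / D := Nat.div_pos h hD
  have h2 : D * (N / D) ≤ N := Nat.mul_div_le N D
  have h3 : #(Icc (-((N : ℤ) / D) - 1) (N / D)) = 2 * (N / D) + 2 := by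
    rw [Int.card_Icc, ← Int.natCast_div]; omega
  rw [h3]
  have : D * (2 * (N / D) + 2) ≤ 4 * N := by nlinarith
  exact_mod_cast this

end Hz

namespace Sys

variable {S E : Type*} [Fintype S] [Fintype E] [DecidableEq S] [DecidableEq E] {X : Sys S E}

omit [DecidableEq E] in
theorem DP_le_K {K : ℕ} (hD : ∀ e, X.D e ≤ K) (l : List E) : X.DP l ≤ K ^ l.length := by
  induction l with
  | nil => simp
  | cons e l ih => rw [DP_cons, List.length_cons, pow_succ']; exact Nat.mul_le_mul (hD e) ih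

open Classical in
noncomputable def cnt (X : Sys S E) (N : ℕ) (Bad : ℤ → Prop) (l : List E) : ℝ :=
  #{u ∈ Icc (-(N : ℤ)) N | (X.DP l : ℤ) ∣ X.bP l * u + X.cP l ∧
    Bad ((X.bP l * u + X.cP l) / X.DP l)}

omit [DecidableEq E] in
theorem exists_inv (l : List E) {Q j : ℕ} (hQ : Q ∣ X.d ^ j) :
    ∃ G : ℤ, ((X.DP l * Q : ℕ) : ℤ) ∣ G * X.bP l - 1 := by
  have h1 : IsCoprime (X.bP l) ((X.DP l * Q : ℕ) : ℤ) := by
    push_cast
    exact (X.bP_cop_DP l l).mul_right (((X.bP_cop l).pow_right (n := j)).of_isCoprime_of_dvd_right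
      (by exact_mod_cast hQ))
  obtain ⟨x, y, h⟩ := h1
  exact ⟨x, -y, by linear_combination h⟩

omit [DecidableEq E] in
theorem cnt_triv (N : ℕ) (Bad : ℤ → Prop) (l : List E) (h : X.DP l ≤ N) :
    X.DP l * X.cnt N Bad l ≤ 4 * N := by
  classical
  obtain ⟨G, hG⟩ := exists_inv (X := X) l (one_dvd (X.d ^ 0))
  rw [mul_one] at hG
  refine le_trans ?_ (card_I _ N (X.DP_pos l) h)
  have := (cnt_le (X.bP l) (X.cP l) G (X.DP l) N (by exact_mod_cast X.DP_pos l) hG Bad).trans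
    (card_filter_le _ _)
  exact mul_le_mul_of_nonneg_left (by unfold cnt; exact_mod_cast this) (Nat.cast_nonneg _)

noncomputable def Cp (X : Sys S E) : ℝ := ∑ s, 1 / X.π s

omit [DecidableEq E] in
theorem Cp_nonneg : 0 ≤ X.Cp := sum_nonneg fun s _ => by have := X.π_pos s; positivity

open Classical in
theorem count_Ex (n N : ℕ) (s0 : S) (A : S → List E → ℤ → Prop) :
    (#{u ∈ Icc (-(N : ℤ)) N | X.DP (X.orb n (s0, u)) ≤ N ∧
      A (X.step^[n] (s0, u)).1 (X.orb n (s0, u)) (X.step^[n] (s0, u)).2} : ℝ)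
      ≤ X.Cp * ∑ s, X.Ex n s fun l => if X.DP l ≤ N then X.DP l * X.cnt N (A s l) l else 0 := by
  have h1 : {u ∈ Icc (-(N : ℤ)) N | X.DP (X.orb n (s0, u)) ≤ N ∧
      A (X.step^[n] (s0, u)).1 (X.orb n (s0, u)) (X.step^[n] (s0, u)).2}
      ⊆ univ.biUnion fun s => {l ∈ X.Paths n s | X.DP l ≤ N}.biUnion fun l =>
        {u ∈ Icc (-(N : ℤ)) N | (X.DP l : ℤ) ∣ X.bP l * u + X.cP l ∧
          A s l ((X.bP l * u + X.cP l) / X.DP l)} := by
    intro u hu
    obtain ⟨h1, h2, h3⟩ := mem_filter.1 hu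
    have h4 := X.orb_mul n (s0, u)
    refine mem_biUnion.2 ⟨_, mem_univ _, mem_biUnion.2 ⟨_, mem_filter.2 ⟨X.orb_mem n _, h2⟩,
      mem_filter.2 ⟨h1, Dvd.intro _ h4, ?_⟩⟩⟩
    rwa [← h4, Int.mul_ediv_cancel_left _ (by exact_mod_cast (X.DP_pos _).ne')]
  have h2 := (card_le_card h1).trans (card_biUnion_le.trans (sum_le_sum fun s _ => card_biUnion_le))
  refine le_trans (by unfold cnt; exact_mod_cast h2 : _ ≤ ∑ s, ∑ l ∈ X.Paths n s with X.DP l ≤ N,
    X.cnt N (A s l) l) ?_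
  rw [mul_sum]
  refine sum_le_sum fun s _ => ?_
  rw [sum_filter, Ex, mul_sum]
  refine sum_le_sum fun l hl => ?_
  split_ifs with h
  · have c0 : 0 ≤ X.cnt N (A s l) l := Nat.cast_nonneg _
    have p1 := X.π_pos s
    have p2 := X.π_pos (X.endp s l)
    have p3 : X.π s ≤ 1 := X.π_sum ▸ single_le_sum (fun t _ => (X.π_pos t).le) (mem_univ s)
    have p4 : 1 / X.π (X.endp s l) ≤ X.Cp := single_le_sum (f := fun s => 1 / X.π s)
      (fun t _ => by have := X.π_pos t; positivity) (mem_univ _)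
    have d0 : (0 : ℝ) < X.DP l := by exact_mod_cast X.DP_pos l
    rw [X.wt_eq hl, show X.Cp * (X.π (X.endp s l) / (X.DP l * X.π s) * (X.DP l * X.cnt N (A s l) l))
      = X.Cp * X.π (X.endp s l) / X.π s * X.cnt N (A s l) l by field_simp]
    refine le_mul_of_one_le_left c0 ?_
    rw [div_le_iff₀ p2] at p4
    rw [le_div_iff₀ p1]; linarith
  · simp

open Classical in
theorem terras (n N : ℕ) (s0 : S) (P : List E → Prop) {p : ℝ} (hp : ∀ s, X.Pr n s P ≤ p) :
    (#{u ∈ Icc (-(N : ℤ)) N | X.DP (X.orb n (s0, u)) ≤ N ∧ P (X.orb n (s0, u))} : ℝ)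
      ≤ X.Cp * Fintype.card S * 4 * N * p := by
  refine (count_Ex n N s0 fun _ l _ => P l).trans ?_
  have : ∀ s, X.Ex n s (fun l => if X.DP l ≤ N then X.DP l * X.cnt N (fun _ => P l) l else 0)
      ≤ 4 * N * p := by
    intro s
    refine le_trans ?_ (mul_le_mul_of_nonneg_left (hp s) (by positivity))
    rw [Pr, ← Ex_const_mul]
    refine X.Ex_mono fun l _ => ?_
    split_ifs with h1 h2 h2
    · simpa using cnt_triv N _ l h1
    · simp [cnt, h2]
    · positivity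
    · simp
  refine (mul_le_mul_of_nonneg_left (sum_le_sum fun s _ => this s) Cp_nonneg).trans (le_of_eq ?_)
  simp; ring

theorem Pr_blk {k m β : ℕ} (h : (β + 1) * m ≤ k) (P : List E → Prop) {p : ℝ}
    (hp : ∀ s, X.Pr m s P ≤ p) (s : S) : X.Pr k s (fun l => P (bloc l m β)) ≤ p := by
  obtain ⟨r, rfl⟩ : ∃ r, k = β * m + (m + r) := ⟨k - (β + 1) * m, by
    rw [← add_assoc, ← add_one_mul]; omega⟩
  rw [Pr, Ex_append]
  refine X.Ex_le_const fun o ho => ?_
  refine le_trans (le_of_eq ?_) ((X.Pr_take m r (X.endp s o) P).le.trans (hp _))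
  refine X.Ex_congr fun i _ => ?_
  rw [bloc, List.drop_left' (X.length_of_mem_Paths ho)]

namespace Sw

variable (w : X.Sw)

noncomputable def ivs (o : List E) : ℝ := (o.map fun e => if w.σ e = e then (1 : ℝ) else 0).sum

theorem iv_01 (l : List E) (r : ℕ) : w.iv l r = 0 ∨ w.iv l r = 1 := by
  simp only [iv, List.getD_eq_getElem?_getD, List.getElem?_map]
  cases l[r]? with
  | none => simp
  | some e => by_cases h : w.σ e = e <;> simp [h]

theorem abs_ps {K : ℕ} (hK : 1 ≤ K) (hD : ∀ e, X.D e ≤ K) (hΔ : ∀ e, |w.Δ e| ≤ K) (l : List E)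
    (r : ℕ) : X.rr (l.take r) ≤ K * |w.ps l r| ∧ |w.ps l r| ≤ K * X.rr (l.take r) := by
  have h1 : (X.DP (l.take (r + 1)) : ℝ)
      = X.DP (l.take r) * nth (fun e => (X.D e : ℤ)) l r := by
    exact_mod_cast DP_take (X := X) l r
  have h2 : (0 : ℝ) < X.DP (l.take r) := by exact_mod_cast X.DP_pos _
  have K1 : (1 : ℤ) ≤ K := by exact_mod_cast hK
  obtain ⟨a1, a2⟩ := nth_prop (g := fun e => (X.D e : ℤ)) (fun x => 1 ≤ x ∧ x ≤ K) ⟨le_rfl, K1⟩
    (fun e => ⟨by exact_mod_cast X.D_pos e, by exact_mod_cast hD e⟩) l r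
  obtain ⟨b1, b2⟩ := nth_prop (fun x => 1 ≤ |x| ∧ |x| ≤ K) ⟨le_rfl, K1⟩
    (fun e => ⟨Int.one_le_abs (w.Δ_ne e), hΔ e⟩) l r
  have a1' : (1 : ℝ) ≤ nth (fun e => (X.D e : ℤ)) l r := by exact_mod_cast a1
  have a2' : (nth (fun e => (X.D e : ℤ)) l r : ℝ) ≤ K := by exact_mod_cast a2
  have b1' : (1 : ℝ) ≤ |(nth w.Δ l r : ℝ)| := by exact_mod_cast b1
  have b2' : |(nth w.Δ l r : ℝ)| ≤ K := by exact_mod_cast b2
  have e : |w.ps l r| = X.rr (l.take r) * (|(nth w.Δ l r : ℝ)| / nth (fun e => (X.D e : ℤ)) l r) := by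
    unfold ps rr
    rw [abs_div, abs_mul, Nat.abs_cast, h1]; field_simp
  have r0 := X.rr_pos (l.take r)
  rw [e, mul_left_comm, mul_comm (K : ℝ) (X.rr _)]
  constructor
  · refine le_mul_of_one_le_right r0.le ?_
    rw [← mul_div_assoc, le_div_iff₀ (by linarith)]; nlinarith
  · refine mul_le_mul_of_nonneg_left ?_ r0.le
    rw [div_le_iff₀ (by linarith)]; nlinarith

open Classical in
theorem ek_list {K m M R Q K0 j : ℕ} {Γ I : ℝ} (hK : 1 ≤ K) (hb : ∀ e, |X.b e| ≤ K)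
    (hD : ∀ e, X.D e ≤ K) (hΔ : ∀ e, |w.Δ e| ≤ K) (hm : 1 ≤ m) (hM : 1 ≤ M) (hK0 : 1 ≤ K0)
    (hQ : 6 * K0 * K ≤ Q) (hQj : Q ∣ X.d ^ j) (hΓ : (Q * K : ℝ) ≤ Γ) (hR : (K : ℝ) ^ m ≤ Γ ^ R)
    (l : List E) (hk : BB R M * m ≤ l.length) (G : ℤ) (hG : IsCoprime G Q)
    (typ : ∀ β < BB R M, Γ * K ^ 2 ≤ X.rr (bloc l m β) ∧ w.ivs (bloc l m β) ≤ I) :
    ∑ h ∈ Ioo (-(K0 : ℤ)) K0, ∏ r ∈ range l.length,
        (if w.iv l r = 0 then cos (π * (h * (G / Q * w.ps l r))) ^ 2 else 1)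
      ≤ M * exp (4 * m * K ^ 2 * cos (π * (1 / (2 * K ^ 2))) ^ M + 6 * log (1 + 2 * K ^ 2) * I) := by
  have K1 : (1 : ℝ) ≤ K := by exact_mod_cast hK
  have K1' : (1 : ℤ) ≤ K := by exact_mod_cast hK
  have Q6 : 6 * K0 ≤ Q := le_trans (by nlinarith) hQ
  have Q0 : (0 : ℝ) < Q := by exact_mod_cast (by omega : 0 < Q)
  have G0 : G ≠ 0 := by
    rintro rfl
    have := Int.isUnit_iff.1 (isCoprime_zero_left.1 hG)
    omega
  have G1 : (G : ℝ) / Q ≠ 0 := by positivity
  have nb := nth_prop (fun x => |x| ≤ K) K1' hb l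
  have nΔ := nth_prop (fun x => |x| ≤ K) K1' hΔ l
  have nD := nth_prop (g := fun e => (X.D e : ℤ)) (fun x => |x| ≤ K) K1'
    (fun e => by rw [Nat.abs_cast]; exact_mod_cast hD e) l
  have mulK : ∀ x y : ℤ, |x| ≤ K → |y| ≤ K → |x * y| ≤ (K ^ 2 : ℕ) := fun x y hx hy => by
    rw [abs_mul]; push_cast; rw [sq]; gcongr
  have Γ0 : 0 < Γ := lt_of_lt_of_le (by positivity) hΓ
  refine ek (fun r => G / Q * w.ps l r) (fun r => nth w.Δ l (r + 1) * nth X.b l r)
    (fun r => nth w.Δ l r * nth (fun e => (X.D e : ℤ)) l (r + 1)) (fun r => w.iv l r = 0)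
    l.length m (2 * K0) (K ^ 2) M R Γ _ (Nat.one_le_pow _ _ hK) hm hM hk (by omega) ?_
    (fun r => mulK _ _ (nΔ _) (nb _)) (fun r => mulK _ _ (nΔ _) (nD _))
    (fun r => mul_ne_zero (nth_prop (· ≠ 0) one_ne_zero w.Δ_ne l _)
      (nth_prop (· ≠ 0) one_ne_zero (fun e => by exact_mod_cast (X.D_pos e).ne') l _))
    (fun r => by linear_combination (G : ℝ) / Q * w.ps_rec l r)
    (fun r => mul_ne_zero G1 (w.ps_ne l r)) (fun β hβ => ?_) (fun β q n hq hq' => ?_)
    (fun β hβ => ?_) _ fun h hh h' hh' => ?_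
  · have : (6 : ℝ) * K0 ≤ Q := by exact_mod_cast Q6
    have : (1 : ℝ) ≤ K0 := by exact_mod_cast hK0
    push_cast; nlinarith
  · have a1 := (w.abs_ps hK hD hΔ l (β * m)).2
    have a2 := (w.abs_ps hK hD hΔ l ((β + 1) * m)).1
    rw [add_one_mul, List.take_add, rr_append] at a2
    have a3 := (typ β hβ).1
    have r0 := X.rr_pos (l.take (β * m))
    simp only [abs_mul]
    rw [mul_left_comm, add_one_mul]
    refine mul_le_mul_of_nonneg_left (le_of_mul_le_mul_left (le_trans ?_ a2) (by linarith))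
      (abs_nonneg _)
    calc _ ≤ K * (Γ * (K * X.rr (l.take (β * m)))) := by gcongr
      _ = X.rr (l.take (β * m)) * (Γ * K ^ 2) := by ring
      _ ≤ _ := mul_le_mul_of_nonneg_left a3 r0.le
  · set r := β * m with hr
    set P := X.DP (l.take (r + 1)) with hP
    have P0 : (0 : ℝ) < P := by exact_mod_cast X.DP_pos _
    set z : ℤ := q * nth w.Δ l r * (G * X.bP (l.take r)) - Q * (P * n) with hz
    have e : q * (G / Q * w.ps l r) - n = z / (Q * P) := by
      rw [hz]; unfold ps; rw [← hP]; push_cast; field_simp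
    have z0 : z ≠ 0 := by
      intro h0
      have c1 : IsCoprime (Q : ℤ) (G * X.bP (l.take r)) := (hG.mul_left
        (((X.bP_cop _).pow_right (n := j)).of_isCoprime_of_dvd_right (by exact_mod_cast hQj))).symm
      have c2 := c1.dvd_of_dvd_mul_right (Dvd.intro _ (sub_eq_zero.1 h0).symm)
      have c3 := Int.le_abs_of_dvd (mul_ne_zero hq (nth_prop (· ≠ 0) one_ne_zero w.Δ_ne l r)) c2
      have c4 : |q * nth w.Δ l r| ≤ (2 * K0 : ℕ) * K := by
        rw [abs_mul]; exact mul_le_mul hq' (nΔ r) (abs_nonneg _) (by positivity)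
      have c5 : (6 * K0 * K : ℤ) ≤ Q := by exact_mod_cast hQ
      have c6 : (1 : ℤ) ≤ K0 := by exact_mod_cast hK0
      push_cast at c4; nlinarith
    have z1 : (1 : ℝ) ≤ |(z : ℝ)| := by exact_mod_cast Int.one_le_abs z0
    have P1 : (P : ℝ) ≤ K ^ (r + 1) := by
      have := (DP_le_K hD (l.take (r + 1))).trans
        (Nat.pow_le_pow_right hK (List.length_take_le (r + 1) l))
      exact_mod_cast this
    have P2 : (K : ℝ) ^ r ≤ Γ ^ (R * β) := by
      rw [hr, mul_comm β, pow_mul, pow_mul]; gcongr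
    rw [e, abs_div, abs_of_pos (mul_pos Q0 P0), ← mul_div_assoc, le_div_iff₀ (mul_pos Q0 P0)]
    calc _ ≤ 1 * (Q * K ^ (r + 1) : ℝ) := by gcongr
      _ = K ^ r * (Q * K) * 1 := by ring
      _ ≤ Γ ^ (R * β) * Γ * |(z : ℝ)| := by gcongr
      _ = _ := by rw [pow_succ]
  · set κ := log (1 + 2 * (K : ℝ) ^ 2) with hκ
    set ϱ := cos (π * (1 / (2 * (K : ℝ) ^ 2))) ^ M with hϱ
    have κ0 : 0 ≤ κ := log_nonneg (by nlinarith)
    have ϱ0 : 0 ≤ ϱ := by
      refine pow_nonneg (cos_nonneg_of_neg_pi_div_two_le_of_le (by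
        linarith [pi_pos, show 0 ≤ π * (1 / (2 * (K : ℝ) ^ 2)) by positivity]) ?_) _
      have : 1 / (2 * (K : ℝ) ^ 2) ≤ 1 / 2 := by gcongr; nlinarith
      nlinarith [pi_pos]
    have i0 : ∀ r, 0 ≤ w.iv l r := fun r => by rcases w.iv_01 l r with h | h <;> simp [h]
    have pt : ∀ r ∈ range (2 * m), (1 + 2 * ((K ^ 2 : ℕ) : ℝ) *
        if w.iv l (β * m + r) = 0 ∧ w.iv l (β * m + r + 1) = 0 then
          cos (π * (1 / (2 * ((K ^ 2 : ℕ) : ℝ)))) ^ M else 1)
        ≤ exp (2 * K ^ 2 * ϱ + κ * (w.iv l (β * m + r) + w.iv l (β * m + r + 1))) := by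
      intro r _
      push_cast
      split_ifs with h
      · rw [h.1, h.2, add_zero, mul_zero, add_zero, add_comm]; exact add_one_le_exp _
      · have : 1 ≤ w.iv l (β * m + r) + w.iv l (β * m + r + 1) := by
          rcases w.iv_01 l (β * m + r) with h1 | h1 <;>
            rcases w.iv_01 l (β * m + r + 1) with h2 | h2 <;> simp_all
        rw [mul_one, ← exp_log (show 0 < 1 + 2 * (K : ℝ) ^ 2 by positivity), ← hκ, exp_le_exp]
        nlinarith [show 0 ≤ 2 * (K : ℝ) ^ 2 * ϱ by positivity]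
    refine (prod_le_prod (fun r _ => by split_ifs <;> push_cast <;> positivity) pt).trans ?_
    rw [← exp_sum, exp_le_exp, sum_add_distrib, ← mul_sum, ← mul_sum, sum_add_distrib]
    have s3 : ∑ r ∈ range (m + (m + m)), w.iv l (β * m + r) ≤ 3 * I := by
      have t : ∀ i < 3, ∑ r ∈ range m, w.iv l ((β + i) * m + r) ≤ I := fun i hi =>
        (sum_getD _ m l _).le.trans (typ (β + i) (by omega)).2
      have t0 := t 0 (by norm_num)
      have t1 := t 1 (by norm_num)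
      have t2 := t 2 (by norm_num)
      rw [sum_range_add, sum_range_add]
      simp only [add_mul, add_assoc, one_mul, two_mul, add_zero] at t0 t1 t2 ⊢
      linarith
    have s1 : ∑ r ∈ range (2 * m), w.iv l (β * m + r) ≤ 3 * I :=
      (sum_le_sum_of_subset_of_nonneg (range_subset_range.2 (by omega)) fun r _ _ => i0 _).trans s3
    have s2 : ∑ r ∈ range (2 * m), w.iv l (β * m + r + 1) ≤ 3 * I := by
      refine le_trans ?_ ((sum_le_sum_of_subset_of_nonneg (s := range (2 * m + 1))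
        (range_subset_range.2 (by omega)) fun r _ _ => i0 _).trans s3)
      rw [sum_range_succ']
      simp only [add_assoc]
      linarith [i0 (β * m + 0)]
    simp only [sum_const, card_range, nsmul_eq_mul]
    push_cast
    nlinarith
  · rw [mem_Ioo] at hh hh'
    rw [abs_le]; push_cast; omega

end Sw

end Sys

end Pool.Agent.Lib.MP_39d40e_nt
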