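import Pool.Agent.Lib.MP_39d40e_nt.HzD

/-! The averaged estimate; swaps in power systems. -/

namespace Pool.Agent.Lib.MP_39d40e_nt

open Finset Real Hz

namespace Sys

variable {S E : Type*} [Fintype S] [Fintype E] [DecidableEq S] [DecidableEq E] {X : Sys S E}

namespace Sw

variable (w : X.Sw)

open Classical in
theorem class_le {Q K0 j N : ℕ} {δ W : ℝ} (hK0 : 1 ≤ K0) (hQ : 6 * K0 ≤ Q) (hQj : Q ∣ X.d ^ j)
    (l : List E) (hN : X.DP l ≤ N) (Bad : ℤ → Prop)
    (per : ∀ z z', (Q : ℤ) ∣ z - z' → Bad z → Bad z')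
    (dens : (#((range Q).filter fun z : ℕ => Bad z) : ℝ) ≤ δ * Q)
    (hW : ∀ G : ℤ, IsCoprime G Q → ∑ h ∈ Ioo (-(K0 : ℤ)) K0, ∏ r ∈ range l.length,
        (if w.iv l r = 0 then cos (π * (h * (G / Q * w.ps l r))) ^ 2 else 1) ≤ W) :
    (∑ t ∈ BL l.length, X.DP l * X.cnt N Bad (w.tw l t)) / 2 ^ l.length
      ≤ 4 * N * √(δ * Q * (4 / K0 * W)) := by
  obtain ⟨G, v, hv⟩ := exists_inv (X := X) l hQj
  set D : ℤ := (X.DP l : ℤ) with hD
  set B := X.bP l with hB
  have D0 : 0 < D := by rw [hD]; exact_mod_cast X.DP_pos l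
  have D0' : (0 : ℝ) < X.DP l := by exact_mod_cast X.DP_pos l
  have Q0 : (0 : ℝ) < Q := by exact_mod_cast (by omega : 0 < Q)
  push_cast at hv
  rw [← hD] at hv
  have hG : D ∣ G * B - 1 := ⟨Q * v, by rw [hv]; ring⟩
  set C := fun t => X.cP (w.tw l t) with hC
  set x := fun t => -G * C t % D with hx
  set y := fun t => (B * x t + C t) / D with hy
  have sol : ∀ t, D * y t = B * x t + C t := fun t => by
    refine Int.mul_ediv_cancel' ⟨-(Q * v) * C t - B * (-G * C t / D), ?_⟩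
    linear_combination B * Int.mul_ediv_add_emod (-G * C t) D - C t * hv
  set I := Icc (-((N : ℤ) / D) - 1) (N / D) with hI
  have h1 : ∀ t, X.cnt N Bad (w.tw l t) ≤ ∑ n ∈ I, if Bad (y t + B * n) then (1 : ℝ) else 0 := by
    intro t
    have := cnt_le B (C t) G D N D0 hG Bad
    rw [sum_boole, cnt, (w.tw_inv l t).1, (w.tw_inv l t).2]
    exact_mod_cast this
  have h2 : ∀ n, ∑ t ∈ BL l.length, (if Bad (y t + B * n) then (1 : ℝ) else 0)
      ≤ 2 ^ l.length * √(δ * Q * (4 / K0 * W)) := by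
    intro n
    have a1 := hit_sq (BL l.length) (fun t => (G : ℝ) / Q * (C t / X.DP l)) y hK0 hQ
      (fun t _ t' _ h => ?_) Bad per (B * n)
    · have a2 : ∑ h ∈ Ioo (-(K0 : ℤ)) K0, ‖∑ t ∈ BL l.length, ee (h * (G / Q * (C t / X.DP l)))‖ ^ 2
          ≤ 4 ^ l.length * W := by
        refine le_trans (le_of_eq ?_) (mul_le_mul_of_nonneg_left
          (hW G ⟨B, -(D * v), by linear_combination hv⟩) (by positivity))
        rw [mul_sum]
        refine sum_congr rfl fun h _ => ?_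
        simp only [← mul_assoc (h : ℝ)]
        exact w.four l _
      have δ0 : 0 ≤ δ * Q := le_trans (Nat.cast_nonneg _) dens
      rw [sum_boole, ← sqrt_sq (show (0 : ℝ) ≤ 2 ^ l.length by positivity),
        ← sqrt_mul (by positivity)]
      refine le_sqrt_of_sq_le (a1.trans ?_)
      calc _ ≤ δ * Q * (4 / K0 * (4 ^ l.length * W)) := by gcongr
        _ = _ := by rw [← pow_mul, mul_comm l.length 2, pow_mul]; ring
    · obtain ⟨z, hz⟩ := h
      refine ⟨G * z - v * (x t - x t'), ?_⟩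
      have e1 : G * (C t - C t') = D * Q * (G * z - v * (x t - x t')) - (x t - x t') := by
        linear_combination G * D * hz - G * sol t + G * sol t' - (x t - x t') * hv
      have e2 : (G : ℝ) / Q * (C t / X.DP l) - G / Q * (C t' / X.DP l)
          - (G * z - v * (x t - x t') : ℤ) = -((x t - x t' : ℤ) / (X.DP l * Q)) := by
        have := congrArg (fun a : ℤ => (a : ℝ)) e1
        simp only [hD] at this
        push_cast at this ⊢
        field_simp
        linear_combination this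
      have b1 : 0 ≤ x t := Int.emod_nonneg _ D0.ne'
      have b2 : x t < D := Int.emod_lt_of_pos _ D0
      have b3 : 0 ≤ x t' := Int.emod_nonneg _ D0.ne'
      have b4 : x t' < D := Int.emod_lt_of_pos _ D0
      have b5 : |((x t - x t' : ℤ) : ℝ)| ≤ X.DP l := by
        have : |x t - x t'| ≤ (X.DP l : ℤ) := by rw [abs_le]; omega
        exact_mod_cast this
      rw [e2, abs_neg, abs_div, abs_of_pos (mul_pos D0' Q0), div_le_div_iff₀ (mul_pos D0' Q0) Q0]
      nlinarith
  rw [div_le_iff₀ (by positivity), ← mul_sum]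
  calc _ ≤ X.DP l * ∑ n ∈ I, ∑ t ∈ BL l.length, if Bad (y t + B * n) then (1 : ℝ) else 0 := by
        rw [sum_comm]; gcongr with t; exact h1 t
    _ ≤ X.DP l * ∑ _n ∈ I, 2 ^ l.length * √(δ * Q * (4 / K0 * W)) := by
        gcongr with n; exact h2 n
    _ = X.DP l * #I * (2 ^ l.length * √(δ * Q * (4 / K0 * W))) := by simp [mul_assoc]
    _ ≤ 4 * N * (2 ^ l.length * √(δ * Q * (4 / K0 * W))) :=
        mul_le_mul_of_nonneg_right (card_I _ N (X.DP_pos l) hN) (by positivity)
    _ = _ := by ring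

open Classical in
theorem core {K m M R Q K0 j k N : ℕ} {Γ I δ p : ℝ} (hK : 1 ≤ K) (hb : ∀ e, |X.b e| ≤ K)
    (hD : ∀ e, X.D e ≤ K) (hΔ : ∀ e, |w.Δ e| ≤ K) (hm : 1 ≤ m) (hM : 1 ≤ M) (hK0 : 1 ≤ K0)
    (hQ : 6 * K0 * K ≤ Q) (hQj : Q ∣ X.d ^ j) (hΓ : (Q * K : ℝ) ≤ Γ) (hR : (K : ℝ) ^ m ≤ Γ ^ R)
    (hk : BB R M * m ≤ k)
    (hp : ∀ s, X.Pr m s (fun o => X.rr o < Γ * K ^ 2 ∨ I < w.ivs o) ≤ p)
    (Bad : S → ℤ → Prop) (per : ∀ s z z', (Q : ℤ) ∣ z - z' → Bad s z → Bad s z')
    (dens : ∀ s, (#((range Q).filter fun z : ℕ => Bad s z) : ℝ) ≤ δ * Q) (s0 : S) :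
    (#{u ∈ Icc (-(N : ℤ)) N | X.DP (X.orb k (s0, u)) ≤ N ∧
      Bad (X.step^[k] (s0, u)).1 (X.step^[k] (s0, u)).2} : ℝ)
      ≤ X.Cp * Fintype.card S * 4 * N * (BB R M * p + √(δ * Q * (4 / K0 * (M *
        exp (4 * m * K ^ 2 * cos (π * (1 / (2 * K ^ 2))) ^ M + 6 * log (1 + 2 * K ^ 2) * I))))) := by
  refine (count_Ex k N s0 fun s _ z => Bad s z).trans ?_
  set Z := √(δ * Q * (4 / K0 * (M *
    exp (4 * m * K ^ 2 * cos (π * (1 / (2 * K ^ 2))) ^ M + 6 * log (1 + 2 * K ^ 2) * I))))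
  have Z0 : 0 ≤ Z := sqrt_nonneg _
  have : ∀ s, X.Ex k s (fun l => if X.DP l ≤ N then X.DP l * X.cnt N (Bad s) l else 0)
      ≤ 4 * N * (BB R M * p + Z) := by
    intro s
    set A := fun l => ∃ β ∈ range (BB R M), X.rr (bloc l m β) < Γ * K ^ 2 ∨ I < w.ivs (bloc l m β)
    have a1 : X.Pr k s A ≤ BB R M * p := by
      refine (X.Pr_exists k s _ _).trans ((sum_le_sum fun β hβ => Pr_blk
        ((Nat.mul_le_mul_right m (mem_range.1 hβ)).trans hk) _ hp s).trans ?_)
      simp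
    refine le_trans ?_ (mul_le_mul_of_nonneg_left (add_le_add_left a1 Z) (by positivity))
    rw [w.Ex_tw, Pr, ← X.Ex_const k s Z, ← Ex_add, ← Ex_const_mul]
    refine X.Ex_mono fun l hl => ?_
    have len := X.length_of_mem_Paths hl
    simp only [(w.tw_inv l _).2]
    by_cases h1 : X.DP l ≤ N
    · simp only [if_pos h1]
      split_ifs with h2
      · rw [div_le_iff₀ (by positivity)]
        calc _ ≤ ∑ _t ∈ BL k, 4 * (N : ℝ) := sum_le_sum fun t _ => by
              have := cnt_triv (X := X) N (Bad s) (w.tw l t) (by rwa [(w.tw_inv l t).2])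
              rwa [(w.tw_inv l t).2] at this
          _ = 4 * N * 1 * 2 ^ k := by rw [sum_const, nsmul_eq_mul, card_BL]; ring
          _ ≤ _ := by gcongr; linarith
      · rw [zero_add, ← len]
        refine w.class_le hK0 (le_trans (by nlinarith) hQ) hQj l h1 _ (per s) (dens s)
          fun G hG => w.ek_list hK hb hD hΔ hm hM hK0 hQ hQj hΓ hR l (len ▸ hk) G hG fun β hβ => ?_
        exact ⟨not_lt.1 fun h => h2 ⟨β, mem_range.2 hβ, .inl h⟩,
          not_lt.1 fun h => h2 ⟨β, mem_range.2 hβ, .inr h⟩⟩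
    · simp only [if_neg h1, sum_const_zero, zero_div]
      split_ifs <;> positivity
  refine (mul_le_mul_of_nonneg_left (sum_le_sum fun s _ => this s) Cp_nonneg).trans (le_of_eq ?_)
  simp; ring

/-- the fixed edges have mass at most `a` -/
def Fix (a : ℝ) : Prop := ∀ s, ∑ e ∈ X.into s, X.q e * (if w.σ e = e then 1 else 0) ≤ a

theorem ivs_tail {a : ℝ} (h : w.Fix a) (n : ℕ) (s : S) :
    X.Pr n s (fun o => 3 * a * n < w.ivs o) ≤ exp (-(a * n)) := by
  have h1 : ∀ (n : ℕ) (s : S), X.Ex n s (fun o => exp (w.ivs o)) ≤ exp (2 * a * n) := by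
    intro n
    induction n with
    | zero => intro s; simp [ivs]
    | succ n ih =>
      intro s
      rw [Ex_succ]
      calc _ ≤ ∑ e ∈ X.into s, X.q e * ((1 + 2 * if w.σ e = e then 1 else 0) * exp (2 * a * n)) := by
            refine sum_le_sum fun e _ => mul_le_mul_of_nonneg_left ?_ (X.q_pos e).le
            simp only [ivs, List.map_cons, List.sum_cons, exp_add]
            rw [Ex_const_mul]
            refine mul_le_mul ?_ (ih _) (X.Ex_nonneg fun _ _ => (exp_pos _).le) (by positivity)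
            split_ifs
            · linarith [exp_one_lt_d9]
            · simp
        _ = (1 + 2 * ∑ e ∈ X.into s, X.q e * (if w.σ e = e then 1 else 0)) * exp (2 * a * n) := by
            rw [← X.sum_q s, mul_sum, ← sum_add_distrib, sum_mul, X.sum_q]
            exact sum_congr rfl fun e _ => by ring
        _ ≤ exp (2 * a) * exp (2 * a * n) := by
            gcongr; linarith [h s, add_one_le_exp (2 * a)]
        _ = _ := by rw [← exp_add]; push_cast; ring_nf
  calc _ ≤ X.Ex n s (fun o => exp (w.ivs o) * exp (-(3 * a * n))) :=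
        X.Pr_le_Ex (fun l _ => by positivity) fun l _ hl => by
          rw [← exp_add]; exact one_le_exp (by linarith)
    _ ≤ exp (2 * a * n) * exp (-(3 * a * n)) := by rw [Ex_mul_const]; gcongr; exact h1 n s
    _ = _ := by rw [← exp_add]; ring_nf

def σl : List E → List E
  | [] => []
  | e :: l => if w.σ e = e then e :: σl l else w.σ e :: l

theorem σl_inv : ∀ l, w.σl (w.σl l) = l
  | [] => rfl
  | e :: l => by
    by_cases h : w.σ e = e
    · simp [σl, h, σl_inv l]
    · simp [σl, h, w.inv, Ne.symm h]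

theorem σl_keep : ∀ l, X.bP (w.σl l) = X.bP l ∧ X.DP (w.σl l) = X.DP l ∧
    ∀ s, X.endp s (w.σl l) = X.endp s l
  | [] => ⟨rfl, rfl, fun _ => rfl⟩
  | e :: l => by
    obtain ⟨h1, h2, h3⟩ := σl_keep l
    by_cases h : w.σ e = e <;> simp [σl, h, h1, h2, h3, w.b, w.D, w.src]

theorem σl_mem {n : ℕ} : ∀ {s : S} {l : List E}, l ∈ X.Paths n s → w.σl l ∈ X.Paths n s := by
  induction n with
  | zero => intro s l h; simp at h; subst h; simp [σl]
  | succ n ih =>
    intro s l h
    obtain ⟨e, l', rfl, he, hl⟩ := X.mem_Paths_succ.1 h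
    by_cases h : w.σ e = e <;> simp [σl, h, cons_mem_Paths, he, ih hl, hl, w.src, w.tgt]

def pw (g : ℕ) : (X.pow g).Sw where
  σ e := ⟨(e.1.1, w.σl e.1.2), X.mem_PF.2 (w.σl_mem (X.mem_PF.1 e.2))⟩
  inv _ := Subtype.ext (Prod.ext rfl (w.σl_inv _))
  src _ := (w.σl_keep _).2.2 _
  tgt _ := rfl
  b _ := (w.σl_keep _).1
  D _ := (w.σl_keep _).2.1

theorem fix_pw {a : ℝ} (h : w.Fix a) (a0 : 0 ≤ a) (g : ℕ) : (w.pw g).Fix (a ^ g) := by
  have h1 : ∀ (n : ℕ) (s : S), X.Ex n s (fun l => if w.σl l = l then 1 else 0) ≤ a ^ n := by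
    intro n
    induction n with
    | zero => intro s; simp [σl]
    | succ n ih =>
      intro s
      rw [Ex_succ, pow_succ']
      refine le_trans (sum_le_sum fun e _ => ?_) ((sum_mul _ _ _).symm.le.trans
        (mul_le_mul_of_nonneg_right (h s) (pow_nonneg a0 n)))
      rw [mul_assoc]
      refine mul_le_mul_of_nonneg_left ?_ (X.q_pos e).le
      by_cases he : w.σ e = e
      · simpa [σl, he] using ih _
      · simp [σl, he, Ex_const]
  intro s
  refine le_trans (le_of_eq ?_) (h1 g s)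
  rw [← X.pow_into g s fun l _ => if w.σl l = l then 1 else 0]
  refine sum_congr rfl fun e _ => ?_
  congr 2
  exact propext ⟨fun h => congrArg (fun x => x.1.2) h, fun h => Subtype.ext (Prod.ext rfl h)⟩

end Sw

end Sys

end Pool.Agent.Lib.MP_39d40e_nt
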