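import Pool.Agent.Lib.MP_39d40e_nt.Chain

namespace Pool.Agent.Lib.MP_39d40e_nt

open Finset

namespace Sys

variable {S E : Type*} [Fintype S] [Fintype E] [DecidableEq S] [DecidableEq E] (X : Sys S E)

/-- a family of events of exponentially small probability -/
def Small (P : ℕ → List E → Prop) : Prop :=
  ∃ C c : ℝ, 0 ≤ C ∧ 0 < c ∧ ∀ n s, X.Pr n s (P n) ≤ C * Real.exp (-(c * n))

variable {X}

theorem Small.mono {P P' : ℕ → List E → Prop} (h : X.Small P')
    (hP : ∀ n l, l.length = n → P n l → P' n l) : X.Small P := by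
  obtain ⟨C, c, hC, hc, h⟩ := h
  exact ⟨C, c, hC, hc, fun n s =>
    (X.Pr_mono fun l hl => hP n l (X.length_of_mem_Paths hl)).trans (h n s)⟩

theorem Small.or {P P' : ℕ → List E → Prop} (h : X.Small P) (h' : X.Small P') :
    X.Small fun n l => P n l ∨ P' n l := by
  obtain ⟨C, c, hC, hc, h⟩ := h
  obtain ⟨C', c', hC', hc', h'⟩ := h'
  refine ⟨C + C', min c c', by positivity, lt_min hc hc', fun n s => (X.Pr_or _ _ _ _).trans ?_⟩
  have h1 : Real.exp (-(c * n)) ≤ Real.exp (-(min c c' * n)) :=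
    Real.exp_le_exp.2 (neg_le_neg (mul_le_mul_of_nonneg_right (min_le_left _ _) n.cast_nonneg))
  have h2 : Real.exp (-(c' * n)) ≤ Real.exp (-(min c c' * n)) :=
    Real.exp_le_exp.2 (neg_le_neg (mul_le_mul_of_nonneg_right (min_le_right _ _) n.cast_nonneg))
  nlinarith [h n s, h' n s, mul_le_mul_of_nonneg_left h1 hC, mul_le_mul_of_nonneg_left h2 hC']

theorem Small.false : X.Small fun _ _ => False :=
  ⟨0, 1, le_rfl, one_pos, fun n s => by simp [Pr, Ex_const]⟩

theorem Small.exists {ι : Type*} (I : Finset ι) {P : ι → ℕ → List E → Prop}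
    (h : ∀ i ∈ I, X.Small (P i)) : X.Small fun n l => ∃ i ∈ I, P i n l := by
  classical
  induction I using Finset.induction_on with
  | empty => exact Small.false.mono fun n l _ h => by simp at h
  | insert a I _ ih =>
    refine ((h a (mem_insert_self _ _)).or (ih fun i hi => h i (mem_insert_of_mem hi))).mono ?_
    rintro n l - ⟨i, hi, hP⟩
    rcases mem_insert.1 hi with rfl | hi
    · exact Or.inl hP
    · exact Or.inr ⟨i, hi, hP⟩

theorem Small.eventually {P : ℕ → List E → Prop} (h : X.Small P) {η : ℝ} (hη : 0 < η) :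
    ∃ n₀ : ℕ, ∀ n, n₀ ≤ n → ∀ s, X.Pr n s (P n) ≤ η := by
  obtain ⟨C, c, hC, hc, h⟩ := h
  have ht : Filter.Tendsto (fun n : ℕ => C * Real.exp (-(c * n))) Filter.atTop (nhds (C * 0)) := by
    refine Filter.Tendsto.const_mul _ (Real.tendsto_exp_neg_atTop_nhds_zero.comp ?_)
    exact tendsto_natCast_atTop_atTop.const_mul_atTop hc
  rw [mul_zero] at ht
  obtain ⟨n₀, hn⟩ := Filter.eventually_atTop.1 (ht.eventually (gt_mem_nhds hη))
  exact ⟨n₀, fun n h0 s => (h n s).trans (hn n h0).le⟩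

theorem small_ge {f : E → ℝ} (hf : X.Poisson f) {x : ℝ} (hx : X.mean f < x) :
    X.Small fun n l => n * x ≤ (l.map f).sum := by
  obtain ⟨C, c, hC, hc, h⟩ := X.tail_lin hf (sub_pos.2 hx)
  exact ⟨C, c, by linarith, hc, fun n s => by simpa using (h n s).1⟩

theorem small_le {f : E → ℝ} (hf : X.Poisson f) {x : ℝ} (hx : x < X.mean f) :
    X.Small fun n l => (l.map f).sum ≤ n * x := by
  obtain ⟨C, c, hC, hc, h⟩ := X.tail_lin hf (sub_pos.2 hx)
  exact ⟨C, c, by linarith, hc, fun n s => by simpa using (h n s).2⟩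

theorem addi_vb (p : ℕ) : Addi fun M _ => (M.natAbs.factorization p : ℝ) := by
  intro M M' D D' h h' _ _
  simp only
  rw [Int.natAbs_mul, Nat.factorization_mul (Int.natAbs_ne_zero.2 h) (Int.natAbs_ne_zero.2 h')]
  simp

theorem addi_vD (p : ℕ) : Addi fun _ D => (D.factorization p : ℝ) := by
  intro M M' D D' _ _ h h'
  simp only
  rw [Nat.factorization_mul h h']
  simp

theorem addi_logb : Addi fun M _ => Real.log |(M : ℝ)| := by
  intro M M' D D' h h' _ _
  push_cast
  rw [abs_mul, Real.log_mul (by simpa using h) (by simpa using h')]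

theorem addi_logD : Addi fun _ D => Real.log (D : ℝ) := by
  intro M M' D D' _ _ h h'
  push_cast
  rw [Real.log_mul (by simpa using h) (by simpa using h')]

theorem addi_logr : Addi fun M D => Real.log (|(M : ℝ)| / D) := by
  intro M M' D D' h h' hD hD'
  have h1 := addi_logb M M' D D' h h' hD hD'
  have h2 := addi_logD M M' D D' h h' hD hD'
  simp only at h1 h2 ⊢
  rw [Real.log_div (by simp [h, h']) (by simp [hD, hD']),
    Real.log_div (by simpa using h) (by simpa using hD),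
    Real.log_div (by simpa using h') (by simpa using hD'), h1, h2]
  ring

omit [DecidableEq E] in
theorem mean_nonneg {f : E → ℝ} (h : ∀ e, 0 ≤ f e) : 0 ≤ X.mean f :=
  Finset.sum_nonneg fun e _ => mul_nonneg (div_nonneg (X.π_pos _).le (Nat.cast_nonneg _)) (h e)

omit [DecidableEq E] in
theorem mean_pos {f : E → ℝ} (h : ∀ e, 0 ≤ f e) {e₀ : E} (h0 : 0 < f e₀) : 0 < X.mean f := by
  refine Finset.sum_pos' (fun e _ =>
    mul_nonneg (div_nonneg (X.π_pos _).le (Nat.cast_nonneg _)) (h e)) ⟨e₀, mem_univ _, ?_⟩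
  exact mul_pos (div_pos (X.π_pos _) (by exact_mod_cast X.D_pos e₀)) h0

/-- abstract form: high powers of `Z` divide a typical product -/
theorem low_dvd (g : E → ℕ) (hg0 : ∀ e, g e ≠ 0)
    (hg : ∀ p : ℕ, X.Poisson fun e => ((g e).factorization p : ℝ)) {Z : ℕ} (hZ : Z ≠ 0)
    (hp : ∀ p : ℕ, p.Prime → p ∣ Z → ∃ e, p ∣ g e) :
    ∃ ρ : ℝ, 0 < ρ ∧ X.Small fun n l => ∃ j : ℕ, (j : ℝ) ≤ ρ * n ∧ ¬ Z ^ j ∣ (l.map g).prod := by
  have hfac : ∀ (p : ℕ) (l : List E), (l.map g).prod ≠ 0 ∧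
      (l.map fun e => ((g e).factorization p : ℝ)).sum = ((l.map g).prod.factorization p : ℝ) := by
    intro p l
    induction l with
    | nil => simp
    | cons e l ih =>
      rw [List.map_cons, List.map_cons, List.prod_cons, List.sum_cons, ih.2,
        Nat.factorization_mul (hg0 e) ih.1]
      exact ⟨mul_ne_zero (hg0 e) ih.1, by simp⟩
  set μ : ℕ → ℝ := fun p => X.mean fun e => ((g e).factorization p : ℝ) with hμ
  have hμp : ∀ p ∈ Z.primeFactors, 0 < μ p := by
    intro p h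
    obtain ⟨e, he⟩ := hp p (Nat.prime_of_mem_primeFactors h) (Nat.dvd_of_mem_primeFactors h)
    refine mean_pos (fun _ => Nat.cast_nonneg _) (e₀ := e) ?_
    exact_mod_cast (Nat.prime_of_mem_primeFactors h).factorization_pos_of_dvd (hg0 e) he
  obtain ⟨m, hm0, hm⟩ : ∃ m : ℝ, 0 < m ∧ ∀ p ∈ Z.primeFactors, m < μ p := by
    rcases Z.primeFactors.eq_empty_or_nonempty with h | h
    · exact ⟨1, one_pos, by simp [h]⟩
    · obtain ⟨p, hp, hmin⟩ := Z.primeFactors.exists_min_image μ h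
      exact ⟨μ p / 2, half_pos (hμp p hp), fun p' hp' =>
        (half_lt_self (hμp p hp)).trans_le (hmin p' hp')⟩
  have hZ' : (0 : ℝ) < Z := by exact_mod_cast Nat.pos_of_ne_zero hZ
  refine ⟨m / Z, div_pos hm0 hZ', (Small.exists Z.primeFactors fun p hp =>
    small_le (hg p) (hm p hp)).mono ?_⟩
  rintro n l - ⟨j, hj, hnd⟩
  by_contra hcon
  push Not at hcon
  apply hnd
  rw [← Nat.factorization_le_iff_dvd (pow_ne_zero _ hZ) (hfac 0 l).1]
  intro p
  by_cases hpZ : p ∈ Z.primeFactors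
  · have h1 := hcon p hpZ
    rw [(hfac p l).2] at h1
    have h2 : (Z.factorization p : ℝ) ≤ Z := by exact_mod_cast (Nat.factorization_lt p hZ).le
    have h3 : (j : ℝ) * Z ≤ m * n := by
      rw [div_mul_eq_mul_div, le_div_iff₀ hZ'] at hj; exact hj
    have h4 : ((j * Z.factorization p : ℕ) : ℝ) ≤ ((l.map g).prod.factorization p : ℝ) := by
      push_cast
      nlinarith [mul_le_mul_of_nonneg_left h2 (Nat.cast_nonneg j)]
    simpa using (show j * Z.factorization p ≤ _ by exact_mod_cast h4)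
  · have : Z.factorization p = 0 := by simpa [← Nat.support_factorization] using hpZ
    simp [this]

variable (X) in
/-- product of all divisors -/
def D0 : ℕ := ∏ e, X.D e

omit [DecidableEq E] in
theorem D0_pos : 0 < X.D0 := Finset.prod_pos fun e _ => X.D_pos e

omit [DecidableEq E] in
theorem DP_dvd_D0 (l : List E) : X.DP l ∣ X.D0 ^ l.length := by
  induction l with
  | nil => simp
  | cons e l ih =>
    rw [DP_cons, List.length_cons, pow_succ']
    exact Nat.mul_dvd_mul (Finset.dvd_prod_of_mem _ (mem_univ e)) ih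

omit [DecidableEq E] in
theorem prime_dvd_D0 {p : ℕ} (hp : p.Prime) (h : p ∣ X.D0) : ∃ e, p ∣ X.D e := by
  simpa using (hp.prime.dvd_finsetProd_iff _).1 h

omit [DecidableEq E] in
theorem prime_dvd_B0 {p : ℕ} (hp : p.Prime) (h : p ∣ X.B0) : ∃ e, p ∣ (X.b e).natAbs := by
  simpa using (hp.prime.dvd_finsetProd_iff _).1 h

omit [DecidableEq E] in
theorem natAbs_bP (l : List E) : (X.bP l).natAbs = (l.map fun e => (X.b e).natAbs).prod := by
  induction l with
  | nil => simp
  | cons e l ih => simp [Int.natAbs_mul, ih]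

theorem Good.low_D (h : X.Good) :
    ∃ ρ : ℝ, 0 < ρ ∧ X.Small fun n l => ∃ j : ℕ, (j : ℝ) ≤ ρ * n ∧ ¬ X.D0 ^ j ∣ X.DP l :=
  low_dvd X.D (fun e => (X.D_pos e).ne') (fun p => h.poisson _ (addi_vD p)) D0_pos.ne'
    fun _ hp h => prime_dvd_D0 hp h

theorem Good.low_b (h : X.Good) {Z : ℕ} (hZ : Z ≠ 0) (hp : ∀ p : ℕ, p.Prime → p ∣ Z → p ∣ X.B0) :
    ∃ ρ : ℝ, 0 < ρ ∧
      X.Small fun n l => ∃ j : ℕ, (j : ℝ) ≤ ρ * n ∧ ¬ (Z : ℤ) ^ j ∣ X.bP l := by
  obtain ⟨ρ, hρ, hs⟩ := low_dvd (fun e => (X.b e).natAbs)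
    (fun e => Int.natAbs_ne_zero.2 (X.b_ne e)) (fun p => h.poisson _ (addi_vb p)) hZ
    fun p hp' h => prime_dvd_B0 hp' (hp p hp' h)
  refine ⟨ρ, hρ, hs.mono ?_⟩
  rintro n l - ⟨j, hj, hnd⟩
  refine ⟨j, hj, fun hd => hnd ?_⟩
  rw [← natAbs_bP] at hd
  exact_mod_cast Int.natCast_dvd.2 hd

theorem log_eq_sum {m : ℕ} {I : Finset ℕ} (hI : m.primeFactors ⊆ I) :
    Real.log m = ∑ p ∈ I, (m.factorization p : ℝ) * Real.log p := by
  rw [Real.log_nat_eq_sum_factorization, Finsupp.sum_of_support_subset _ (by simpa using hI)]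
  simp

theorem Good.mean_lt (h : X.Good) :
    X.mean (fun e => Real.log |(X.b e : ℝ)|) < X.mean fun e => Real.log (X.D e) := by
  have h1 := h.drift
  have h2 : X.mean (fun e => Real.log (|(X.b e : ℝ)| / X.D e)) =
      X.mean (fun e => Real.log |(X.b e : ℝ)|) - X.mean fun e => Real.log (X.D e) := by
    simp only [mean, ← Finset.sum_sub_distrib]
    refine Finset.sum_congr rfl fun e _ => ?_
    rw [Real.log_div (by simpa using X.b_ne e) (by simpa using (X.D_pos e).ne')]; ring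
  linarith

/-- the base `B` of the level filtration -/
theorem Good.exists_B (h : X.Good) : ∃ (B : ℕ) (ρ₁ ρ₂ : ℝ), B ≠ 0 ∧ 0 < ρ₁ ∧ ρ₁ < ρ₂ ∧
    (∀ p : ℕ, p.Prime → (p ∣ B ↔ p ∣ X.B0)) ∧
    (X.Small fun n l => ∃ j : ℕ, ρ₁ * n ≤ j ∧ ¬ X.bP l ∣ (B : ℤ) ^ j) ∧
    (X.Small fun n l => ∃ j : ℕ, (j : ℝ) ≤ ρ₂ * n ∧ X.DP l ≤ B ^ j) := by
  set I := X.B0.primeFactors with hI
  set lam : ℕ → ℝ := fun p => X.mean fun e => ((X.b e).natAbs.factorization p : ℝ) with hlam
  set βM := X.mean (fun e => Real.log |(X.b e : ℝ)|) with hβM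
  set βD := X.mean fun e => Real.log (X.D e) with hβD
  have hlt : βM < βD := h.mean_lt
  have hlam0 : ∀ p ∈ I, 0 < lam p := by
    intro p hp
    obtain ⟨e, he⟩ := prime_dvd_B0 (Nat.prime_of_mem_primeFactors hp)
      (Nat.dvd_of_mem_primeFactors hp)
    refine mean_pos (fun _ => Nat.cast_nonneg _) (e₀ := e) ?_
    exact_mod_cast (Nat.prime_of_mem_primeFactors hp).factorization_pos_of_dvd
      (Int.natAbs_ne_zero.2 (X.b_ne e)) he
  have hsub : ∀ e, (X.b e).natAbs.primeFactors ⊆ I := fun e =>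
    Nat.primeFactors_mono (Finset.dvd_prod_of_mem (fun e => (X.b e).natAbs) (mem_univ e))
      X.B0_pos.ne'
  have hβ : βM = ∑ p ∈ I, lam p * Real.log p := by
    simp only [hβM, hlam, mean, Finset.sum_mul]
    rw [Finset.sum_comm]
    refine Finset.sum_congr rfl fun e _ => ?_
    have : |(X.b e : ℝ)| = ((X.b e).natAbs : ℝ) := by simp
    rw [this, log_eq_sum (hsub e), Finset.mul_sum]
    exact Finset.sum_congr rfl fun p _ => by ring
  obtain ⟨N, hN⟩ := exists_nat_gt ((∑ p ∈ I, Real.log p) / (βD - βM))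
  have hL0 : 0 ≤ ∑ p ∈ I, Real.log p := Finset.sum_nonneg fun p _ => Real.log_natCast_nonneg p
  have hN0 : (0 : ℝ) < N := lt_of_le_of_lt (div_nonneg hL0 (by linarith)) hN
  rw [div_lt_iff₀ (by linarith)] at hN
  set B : ℕ := ∏ p ∈ I, p ^ ⌈N * lam p⌉₊ with hB
  have hB0 : B ≠ 0 := Finset.prod_ne_zero_iff.2 fun p hp =>
    pow_ne_zero _ (Nat.prime_of_mem_primeFactors hp).ne_zero
  have hlogB : Real.log B < N * βD := by
    have : Real.log B ≤ N * βM + ∑ p ∈ I, Real.log p := by
      rw [hB, Nat.cast_prod, Real.log_prod (fun p hp => by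
        have := (Nat.prime_of_mem_primeFactors hp).ne_zero
        positivity), hβ, Finset.mul_sum, ← Finset.sum_add_distrib]
      refine Finset.sum_le_sum fun p hp => ?_
      rw [Nat.cast_pow, Real.log_pow]
      have := (Nat.ceil_lt_add_one (mul_pos hN0 (hlam0 p hp)).le).le
      nlinarith [Real.log_natCast_nonneg p]
    linarith
  have hlogB0 : 0 ≤ Real.log B := Real.log_natCast_nonneg B
  obtain ⟨ε, hε, hε'⟩ : ∃ ε : ℝ, 0 < ε ∧ (1 + 2 * ε) * Real.log B < N * βD := by
    refine ⟨(N * βD - Real.log B) / (2 * (Real.log B + 1)), by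
      apply div_pos <;> linarith, ?_⟩
    have : (N * βD - Real.log B) / (2 * (Real.log B + 1)) * (2 * (Real.log B + 1)) =
      N * βD - Real.log B := div_mul_cancel₀ _ (by positivity)
    have h2 : 0 < (N * βD - Real.log B) / (2 * (Real.log B + 1)) := by apply div_pos <;> linarith
    nlinarith
  have hfacB : ∀ p ∈ I, ⌈N * lam p⌉₊ ≤ B.factorization p := by
    intro p hp
    rw [← (Nat.prime_of_mem_primeFactors hp).pow_dvd_iff_le_factorization hB0]
    exact Finset.dvd_prod_of_mem (fun p => p ^ ⌈N * lam p⌉₊) hp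
  refine ⟨B, (1 + ε) / N, (1 + 2 * ε) / N, hB0, by positivity,
    div_lt_div_of_pos_right (by linarith) hN0, fun p hp => ⟨fun hd => ?_, fun hd => ?_⟩, ?_, ?_⟩
  · obtain ⟨p', hp', hd⟩ := (hp.prime.dvd_finsetProd_iff _).1 hd
    have := (Nat.prime_dvd_prime_iff_eq hp (Nat.prime_of_mem_primeFactors hp')).1
      (hp.dvd_of_dvd_pow hd)
    exact this ▸ Nat.dvd_of_mem_primeFactors hp'
  · have hpI : p ∈ I := Nat.mem_primeFactors.2 ⟨hp, hd, X.B0_pos.ne'⟩
    have : 0 < ⌈N * lam p⌉₊ := Nat.ceil_pos.2 (mul_pos hN0 (hlam0 p hpI))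
    exact Nat.dvd_of_factorization_pos (lt_of_lt_of_le this (hfacB p hpI)).ne'
  · refine (Small.exists I fun p hp => small_ge (h.poisson _ (addi_vb p))
      (x := (1 + ε) * lam p) (by have := hlam0 p hp; simp only [hlam] at this ⊢; nlinarith)).mono ?_
    rintro n l hl ⟨j, hj, hnd⟩
    by_contra hcon
    push Not at hcon
    apply hnd
    rw [← Int.natAbs_dvd]
    have hM : (X.bP l).natAbs ≠ 0 := Int.natAbs_ne_zero.2 (X.bP_ne l)
    suffices (X.bP l).natAbs ∣ B ^ j by exact_mod_cast this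
    rw [← Nat.factorization_le_iff_dvd hM (pow_ne_zero _ hB0)]
    intro p
    by_cases hpI : p ∈ I
    · have h1 := hcon p hpI
      rw [Addi.sum_map X (addi_vb p)] at h1
      have h2 : N * lam p ≤ (B.factorization p : ℝ) :=
        (Nat.le_ceil _).trans (by exact_mod_cast hfacB p hpI)
      have h3 : (1 + ε) * n ≤ j * N := by
        rw [div_mul_eq_mul_div, div_le_iff₀ hN0] at hj; exact hj
      have h4 : ((X.bP l).natAbs.factorization p : ℝ) ≤ ((j * B.factorization p : ℕ) : ℝ) := by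
        push_cast
        nlinarith [mul_le_mul_of_nonneg_left h2 (Nat.cast_nonneg j),
          mul_le_mul_of_nonneg_right h3 (hlam0 p hpI).le]
      simpa using (show _ ≤ j * B.factorization p by exact_mod_cast h4)
    · have : (X.bP l).natAbs.factorization p = 0 := by
        by_contra hne
        have hp : p ∈ (X.bP l).natAbs.primeFactors := by
          rw [← Nat.support_factorization]; exact Finsupp.mem_support_iff.2 hne
        have hpp := Nat.prime_of_mem_primeFactors hp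
        have h5 : (X.bP l).natAbs ∣ X.B0 ^ l.length := by
          have := X.bP_dvd l
          rw [← Int.natAbs_dvd] at this
          exact_mod_cast this
        exact hpI (Nat.mem_primeFactors.2 ⟨hpp,
          hpp.dvd_of_dvd_pow ((Nat.dvd_of_mem_primeFactors hp).trans h5), X.B0_pos.ne'⟩)
      simp [this]
  · refine (small_le (h.poisson _ addi_logD) (x := (1 + 2 * ε) / N * Real.log B) ?_).mono ?_
    · rw [div_mul_eq_mul_div, div_lt_iff₀ hN0]; linarith
    · rintro n l - ⟨j, hj, hle⟩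
      rw [Addi.sum_map X addi_logD]
      have h1 : Real.log (X.DP l) ≤ j * Real.log B := by
        rw [← Real.log_pow]
        exact Real.log_le_log (by exact_mod_cast X.DP_pos l) (by exact_mod_cast hle)
      nlinarith [mul_le_mul_of_nonneg_right hj hlogB0]

/-- after a long time the ratio stays at most one -/
theorem Good.ratio_le (h : X.Good) {η : ℝ} (hη : 0 < η) : ∃ r₀ : ℕ, ∀ (H : ℕ) (s : S),
    X.Pr H s (fun l => ∃ t ∈ Ico r₀ (H + 1),
      (X.DP (l.take t) : ℤ) < |X.bP (l.take t)|) ≤ η := by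
  obtain ⟨C, c, hC, hc, hs⟩ := small_ge (h.poisson _ addi_logr) h.drift
  have hq : Real.exp (-c) < 1 := by simpa using hc
  have hq0 : 0 < Real.exp (-c) := Real.exp_pos _
  have ht : Filter.Tendsto (fun n : ℕ => C * (Real.exp (-c) ^ n / (1 - Real.exp (-c))))
      Filter.atTop (nhds (C * (0 / (1 - Real.exp (-c))))) :=
    ((tendsto_pow_atTop_nhds_zero_of_lt_one hq0.le hq).div_const _).const_mul _
  rw [zero_div, mul_zero] at ht
  obtain ⟨r₀, hr⟩ := (ht.eventually (gt_mem_nhds hη)).exists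
  refine ⟨r₀, fun H s => (X.Pr_exists _ _ _ _).trans (le_trans ?_ hr.le)⟩
  calc _ ≤ ∑ t ∈ Ico r₀ (H + 1), C * Real.exp (-c) ^ t := by
        refine Finset.sum_le_sum fun t ht => ?_
        rw [X.Pr_take' (Nat.lt_succ_iff.1 (mem_Ico.1 ht).2) s
          fun l => (X.DP l : ℤ) < |X.bP l|, ← Real.exp_nat_mul, mul_neg, mul_comm (t : ℝ)]
        refine le_trans (X.Pr_mono fun l _ hl => ?_) (hs t s)
        simp only
        rw [Addi.sum_map X addi_logr, mul_zero]
        refine Real.log_nonneg ?_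
        rw [le_div_iff₀ (by exact_mod_cast X.DP_pos l), one_mul]
        exact_mod_cast hl.le
    _ ≤ _ := by
        rw [← Finset.mul_sum]
        exact mul_le_mul_of_nonneg_left (geom_sum_Ico_le_of_lt_one hq0.le hq) hC

end Sys

end Pool.Agent.Lib.MP_39d40e_nt
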