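import Pool.Agent.Lib.MP_39d40e_nt.HzE
import Pool.Agent.Lib.MP_39d40e_nt.Typ

/-! Upper equidistribution of the orbit at the Terras horizon modulo `d ^ j`. -/

namespace Pool.Agent.Lib.MP_39d40e_nt

open Finset Real Hz Filter Topology

namespace Sys

variable {S E : Type*} [Fintype S] [Fintype E] [DecidableEq S] [DecidableEq E] {X : Sys S E}

omit [DecidableEq E] in
theorem orb_add (m n : ℕ) (x : S × ℤ) :
    X.orb (m + n) x = X.orb m (X.step^[n] x) ++ X.orb n x := by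
  induction m with
  | zero => simp [orb]
  | succ m ih => rw [Nat.add_right_comm, orb, orb, ih, Function.iterate_add_apply]; rfl

theorem pow_iter (L n : ℕ) (x : S × ℤ) : (X.pow L).step^[n] x = X.step^[L * n] x := by
  rw [show (X.pow L).step = X.step^[L] from funext (X.pow_step L), ← Function.iterate_mul]

theorem pow_DP (L n : ℕ) (x : S × ℤ) :
    (X.pow L).DP ((X.pow L).orb n x) = X.DP (X.orb (L * n) x) := by
  induction n with
  | zero => simp [orb]
  | succ n ih =>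
    have h := fun y => (X.pow L).lab_eq y
      ⟨((X.step^[L] y).1, X.orb L y), X.mem_PF.2 (X.orb_mem L _)⟩
      (X.orb_endp L y) (Dvd.intro _ (X.orb_mul L y))
    rw [orb, DP_cons, ih, h, pow_iter, mul_add_one, add_comm, orb_add, DP_append]; rfl

theorem Ex_pow (L n : ℕ) : ∀ (s : S) (F : ℝ → ℝ),
    (X.pow L).Ex n s (fun l => F ((X.pow L).rr l)) = X.Ex (L * n) s fun l => F (X.rr l) := by
  induction n with
  | zero => intro s F; simp [rr]
  | succ n ih =>
    intro s F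
    rw [Ex_succ, mul_add_one, add_comm, Ex_append,
      ← X.pow_into L s fun o t => X.Ex (L * n) t fun i => F (X.rr (o ++ i))]
    refine sum_congr rfl fun e _ => ?_
    simp only [rr_append]
    rw [← ih _ fun x => F (X.rr e.1.2 * x)]
    congr 2; funext l
    rw [← List.singleton_append, rr_append]
    simp only [rr, bP_cons, DP_cons, bP_nil, DP_nil, mul_one]; rfl

/-- slow growth along a path is exponentially unlikely -/
def Grow (X : Sys S E) : Prop := ∃ lam C c : ℝ, 0 < lam ∧ 0 ≤ C ∧ 0 < c ∧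
  ∀ n s, X.Pr n s (fun l => X.rr l < exp (lam * n)) ≤ C * exp (-(c * n))

theorem Pr_pow (L n : ℕ) (s : S) (a : ℝ) :
    (X.pow L).Pr n s (fun l => (X.pow L).rr l < a) = X.Pr (L * n) s fun l => X.rr l < a := by
  classical
  have := Ex_pow (X := X) L n s fun x => if x < a then 1 else 0
  unfold Pr
  exact (Ex_congr _ fun l _ => by congr).trans (this.trans (Ex_congr _ fun l _ => by congr))

theorem Grow.pow (h : X.Grow) {L : ℕ} (hL : 1 ≤ L) : (X.pow L).Grow := by
  obtain ⟨lam, C, c, h1, h2, h3, h⟩ := h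
  have L1 : (1 : ℝ) ≤ L := by exact_mod_cast hL
  refine ⟨lam * L, C, c * L, by positivity, h2, by positivity, fun n s => ?_⟩
  rw [Pr_pow]
  simpa only [Nat.cast_mul, mul_assoc] using h (L * n) s

theorem Irred.grow (hI : X.Irred) (h : 0 < X.mean fun e => log (|(X.b e : ℝ)| / X.D e)) :
    X.Grow := by
  obtain ⟨C, c, hC, hc, h1⟩ := X.tail_lin (hI.poisson fun e => log (|(X.b e : ℝ)| / X.D e))
    (half_pos h)
  refine ⟨_, C, c, half_pos h, by linarith, hc, fun n s => le_trans (X.Pr_mono fun l _ hl => ?_)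
    (h1 n s).2⟩
  rw [Addi.sum_map X addi_logr l]
  have := log_lt_log (X.rr_pos l) hl
  rw [log_exp, rr] at this
  linarith

open Classical in
/-- upper equidistribution with a small exponential loss -/
def Eqd (X : Sys S E) (d0 : ℕ) : Prop := ∀ η : ℝ, 0 < η → ∃ (L J j0 : ℕ) (C c : ℝ),
  1 ≤ L ∧ 0 < c ∧ 0 ≤ C ∧ ∀ (j k N : ℕ) (s0 : S) (Bad : S → ℤ → Prop) (δ : ℝ), j0 ≤ j → J * j ≤ k →
    (∀ s z z', ((d0 ^ j : ℕ) : ℤ) ∣ z - z' → Bad s z → Bad s z') →
    (∀ s, (#((range (d0 ^ j)).filter fun z : ℕ => Bad s z) : ℝ) ≤ δ * (d0 ^ j : ℕ)) →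
    (#{u ∈ Icc (-(N : ℤ)) N | X.DP (X.orb (L * k) (s0, u)) ≤ N ∧
      Bad (X.step^[L * k] (s0, u)).1 (X.step^[L * k] (s0, u)).2} : ℝ)
      ≤ C * N * (√δ * exp (η * j) + exp (-(c * j)))

theorem Eqd.of_pow {L0 d0 : ℕ} (hL : 1 ≤ L0) (h : (X.pow L0).Eqd d0) : X.Eqd d0 := by
  intro η hη
  obtain ⟨L, J, j0, C, c, h1, h2, h3, h⟩ := h η hη
  refine ⟨L0 * L, J, j0, C, c, Nat.mul_pos hL h1, h2, h3, fun j k N s0 Bad δ a1 a2 a3 a4 => ?_⟩
  exact le_trans (Nat.cast_le.2 (card_le_card fun u hu => by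
    simpa only [mem_filter, pow_DP, pow_iter, mul_assoc] using hu)) (h j k N s0 Bad δ a1 a2 a3 a4)

omit [DecidableEq E] in
theorem list_bd {K : ℕ} (hb : ∀ e, |X.b e| ≤ K) (hD : ∀ e, X.D e ≤ K) (hc : ∀ e, |X.c e| ≤ K)
    (l : List E) : |X.bP l| ≤ K ^ l.length ∧ |X.cP l| ≤ (2 * K) ^ l.length := by
  induction l with
  | nil => simp
  | cons e l ih =>
    have h1 : (X.DP l : ℤ) ≤ (2 * K) ^ l.length := by
      exact_mod_cast (DP_le_K hD l).trans (Nat.pow_le_pow_left (by omega : K ≤ 2 * K) _)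
    rw [bP_cons, cP_cons, List.length_cons, pow_succ', pow_succ', abs_mul]
    refine ⟨mul_le_mul (hb e) ih.1 (abs_nonneg _) (by positivity), (abs_add_le _ _).trans ?_⟩
    rw [abs_mul, abs_mul, Nat.abs_cast]
    have h2 := mul_le_mul (hb e) ih.2 (abs_nonneg _) (by positivity)
    have h3 := mul_le_mul (hc e) h1 (by positivity) (by positivity)
    linarith

omit [DecidableEq E] in
theorem exists_K (X : Sys S E) :
    ∃ K : ℕ, 1 ≤ K ∧ (∀ e, |X.b e| ≤ K) ∧ (∀ e, X.D e ≤ K) ∧ ∀ e, |X.c e| ≤ K := by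
  set f : E → ℕ := fun e => (X.b e).natAbs + X.D e + (X.c e).natAbs
  have h : ∀ e, f e ≤ ∑ e, f e := fun e => single_le_sum (fun _ _ => Nat.zero_le _) (mem_univ e)
  refine ⟨∑ e, f e + 1, by omega, fun e => ?_, fun e => ?_, fun e => ?_⟩ <;>
    have := h e <;> simp only [f, Int.abs_eq_natAbs] at this ⊢ <;> omega

theorem Sw.eqd (w : X.Sw) {a : ℝ} (ha : w.Fix a) (a0 : 0 < a) (a1 : a < 1) (hg : X.Grow) {d0 : ℕ}
    (d2 : 2 ≤ d0) (hd : d0 ∣ X.d) : X.Eqd d0 := by
  intro η hη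
  obtain ⟨lam, C1, c1, l0, C0, c0, hg⟩ := hg
  obtain ⟨K1, K11, kb, kD, kc⟩ := X.exists_K
  have K11' : (1 : ℝ) ≤ K1 := by exact_mod_cast K11
  have d2' : (2 : ℝ) ≤ d0 := by exact_mod_cast d2
  obtain ⟨r, r1, hr⟩ : ∃ r : ℕ, 1 ≤ r ∧ 3 * d0 * (4 * K1) ^ 2 ≤ exp (lam * r) := by
    obtain ⟨r, hr⟩ := exists_nat_ge (3 * d0 * (4 * K1) ^ 2 / lam)
    rw [div_le_iff₀ l0] at hr
    refine ⟨r + 1, by omega, ?_⟩
    push_cast; nlinarith [add_one_le_exp (lam * (r + 1))]
  have r1' : (1 : ℝ) ≤ r := by exact_mod_cast r1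
  have lg : 0 < log (4 * K1 : ℝ) := log_pos (by linarith)
  obtain ⟨g, g1, hg1⟩ : ∃ g : ℕ, 1 ≤ g ∧ g * a ^ g * (54 * log (4 * K1) * r) ≤ η := by
    have := (tendsto_self_mul_const_pow_of_lt_one a0.le a1).mul_const (54 * log (4 * K1) * r)
    rw [zero_mul] at this
    obtain ⟨g, h1, h2⟩ := ((eventually_ge_atTop 1).and (this.eventually (ge_mem_nhds hη))).exists
    exact ⟨g, h1, h2⟩
  set K := (4 * K1) ^ g with hK
  have K4 : 4 ≤ K := le_trans (by omega) (Nat.le_self_pow (by omega) _)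
  have K4' : (4 : ℝ) ≤ K := by exact_mod_cast K4
  have KR : (K : ℝ) = (4 * K1) ^ g := by rw [hK]; push_cast; rfl
  set ϱ := cos (π * (1 / (2 * (K : ℝ) ^ 2))) with hϱ
  have x0 : 0 < π * (1 / (2 * (K : ℝ) ^ 2)) := by positivity
  have x1 : π * (1 / (2 * (K : ℝ) ^ 2)) ≤ π / 2 := by
    have : 1 / (2 * (K : ℝ) ^ 2) ≤ 1 / 2 := by gcongr; nlinarith
    nlinarith [pi_pos]
  have ϱ0 : 0 ≤ ϱ := cos_nonneg_of_neg_pi_div_two_le_of_le (by linarith [pi_pos]) x1
  have ϱ1 : ϱ < 1 := cos_zero ▸ cos_lt_cos_of_nonneg_of_le_pi le_rfl (by linarith [pi_pos]) x0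
  obtain ⟨M, M1, hM⟩ : ∃ M : ℕ, 1 ≤ M ∧ ϱ ^ M * (4 * r * K ^ 2) ≤ η := by
    have := (tendsto_pow_atTop_nhds_zero_of_lt_one ϱ0 ϱ1).mul_const (4 * r * K ^ 2 : ℝ)
    rw [zero_mul] at this
    obtain ⟨g, h1, h2⟩ := ((eventually_ge_atTop 1).and (this.eventually (ge_mem_nhds hη))).exists
    exact ⟨g, h1, h2⟩
  set R := K ^ r
  have ag : 0 < a ^ g := pow_pos a0 g
  have cp : 0 ≤ X.Cp := Cp_nonneg
  refine ⟨g, BB R M * r, 6 * K, X.Cp * Fintype.card S * 4 * (BB R M * (C1 + 1) + √(48 * K * M)),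
    min c1 (a ^ g), g1, lt_min c0 ag, by positivity, fun j k N s0 Bad δ a1 a2 a3 a4 => ?_⟩
  have len : ∀ e : X.PE g, e.1.2.length = g := fun e => X.length_of_mem_Paths (X.mem_PF.1 e.2)
  have pw1 : (K1 : ℤ) ^ g ≤ K := by
    exact_mod_cast Nat.pow_le_pow_left (by omega : K1 ≤ 4 * K1) g
  have pw2 : 2 * (2 * K1 : ℤ) ^ g ≤ K := by
    have : 2 * (2 * K1) ^ g ≤ K := by
      rw [hK, show 4 * K1 = 2 * (2 * K1) by ring, mul_pow 2 (2 * K1)]
      exact Nat.mul_le_mul_right _ (Nat.le_self_pow (by omega) 2)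
    exact_mod_cast this
  set Q := d0 ^ j with hQ
  have Q1 : 6 * K ≤ Q := a1.trans ((Nat.lt_two_pow_self.le).trans (Nat.pow_le_pow_left d2 j))
  have j1 : 1 ≤ j := by omega
  have j1' : (1 : ℝ) ≤ j := by exact_mod_cast j1
  have k0 : 1 ≤ Q / (6 * K) := Nat.div_pos Q1 (by omega)
  have QR : (Q : ℝ) = d0 ^ j := by rw [hQ]; push_cast; rfl
  have hp : ∀ s, (X.pow g).Pr (r * j) s (fun o => (X.pow g).rr o < (3 * d0) ^ j * K ^ 2 ∨
      3 * a ^ g * (r * j : ℕ) < (w.pw g).ivs o) ≤ (C1 + 1) * exp (-(min c1 (a ^ g) * j)) := by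
    intro s
    refine ((X.pow g).Pr_or _ _ _ _).trans ?_
    rw [add_mul, one_mul, Pr_pow]
    have rj : (j : ℝ) ≤ (r * j : ℕ) := by exact_mod_cast Nat.le_mul_of_pos_left j r1
    have grj : (j : ℝ) ≤ (g * (r * j) : ℕ) := by
      exact_mod_cast Nat.le_mul_of_pos_left j r1 |>.trans (Nat.le_mul_of_pos_left _ g1)
    refine add_le_add ((X.Pr_mono fun l _ hl => hl.trans_le ?g1).trans ((hg _ s).trans ?g2))
      (((w.pw g).ivs_tail (w.fix_pw ha a0.le g) _ s).trans ?g3)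
    case g2 => gcongr; exact min_le_left _ _
    case g3 => gcongr; exact min_le_right _ _
    · have e : exp (lam * (g * (r * j) : ℕ)) = (exp (lam * r) ^ g) ^ j := by
        rw [← exp_nat_mul, ← exp_nat_mul]; congr 1; push_cast; ring
      rw [e]
      calc _ ≤ (3 * d0 : ℝ) ^ j * (K ^ 2) ^ j := by
            gcongr; exact le_self_pow₀ (by nlinarith) (by omega)
        _ = (3 * d0 * K ^ 2) ^ j := (mul_pow _ _ _).symm
        _ ≤ ((3 * d0) ^ g * K ^ 2) ^ j := by
            gcongr; exact le_self_pow₀ (by linarith) (by omega)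
        _ = ((3 * d0 * (4 * K1) ^ 2) ^ g) ^ j := by
            rw [KR, mul_pow (3 * d0 : ℝ) (_ ^ 2) g, pow_right_comm]
        _ ≤ _ := by gcongr
  have main := (w.pw g).core (K := K) (m := r * j) (M := M) (R := R) (Q := Q) (K0 := Q / (6 * K))
    (j := j) (k := k) (N := N) (Γ := (3 * d0) ^ j) (δ := δ) (by omega)
    (fun e => (list_bd kb kD kc _).1.trans (by rw [len e]; exact pw1))
    (fun e => (DP_le_K kD _).trans (by rw [len e]; exact_mod_cast pw1))
    (fun e => ?_) (Nat.mul_pos r1 j1) M1 k0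
    (by rw [mul_right_comm]; exact Nat.mul_div_le _ _)
    (pow_dvd_pow_of_dvd (hd.trans (dvd_pow_self _ (by omega))) j) ?_ ?_
    (by rwa [← mul_assoc]) hp Bad a3 a4 s0
  · refine le_trans (Nat.cast_le.2 (card_le_card fun u hu => by
      simpa only [mem_filter, pow_DP, pow_iter] using hu)) (main.trans ?_)
    change X.Cp * _ * _ * _ * _ ≤ _
    have δ0 : 0 ≤ δ := by
      have := le_trans (Nat.cast_nonneg _) (a4 s0)
      exact nonneg_of_mul_nonneg_left this (by exact_mod_cast (by omega : 0 < Q))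
    have e1 : 4 * (r * j : ℕ) * K ^ 2 * ϱ ^ M + 6 * log (1 + 2 * K ^ 2) * (3 * a ^ g * (r * j : ℕ))
        ≤ η * j + η * j := by
      have t1 : log (1 + 2 * (K : ℝ) ^ 2) ≤ 3 * (g * log (4 * K1)) := by
        rw [← log_pow, ← KR, show (3 : ℝ) = (3 : ℕ) by norm_num, ← log_pow]
        exact log_le_log (by positivity) (by nlinarith)
      have t2 := mul_le_mul_of_nonneg_right hM (Nat.cast_nonneg (α := ℝ) j)
      have t3 := mul_le_mul_of_nonneg_right hg1 (Nat.cast_nonneg (α := ℝ) j)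
      have t4 := mul_le_mul_of_nonneg_right t1 (show 0 ≤ 18 * a ^ g * (r * j) by positivity)
      push_cast; nlinarith
    have e2 : (Q : ℝ) * (4 / (Q / (6 * K) : ℕ)) ≤ 48 * K := by
      have t1 := Nat.lt_mul_div_succ Q (show 0 < 6 * K by omega)
      have t2 : Q * 4 ≤ 48 * K * (Q / (6 * K)) := by
        have := Nat.mul_le_mul_left K k0
        generalize Q / (6 * K) = q at *
        linarith
      rw [← mul_div_assoc, div_le_iff₀ (by exact_mod_cast k0)]
      exact_mod_cast t2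
    have e3 : √(δ * Q * (4 / (Q / (6 * K) : ℕ) * (M * exp (4 * (r * j : ℕ) * K ^ 2 * ϱ ^ M +
        6 * log (1 + 2 * K ^ 2) * (3 * a ^ g * (r * j : ℕ))))))
        ≤ √(48 * K * M) * (√δ * exp (η * j)) := by
      rw [← sqrt_mul_self (exp_pos (η * j)).le, ← sqrt_mul δ0, ← sqrt_mul (by positivity),
        ← exp_add]
      refine sqrt_le_sqrt ?_
      calc _ = Q * (4 / (Q / (6 * K) : ℕ)) * M * (δ * exp (4 * (r * j : ℕ) * K ^ 2 * ϱ ^ M +
            6 * log (1 + 2 * K ^ 2) * (3 * a ^ g * (r * j : ℕ)))) := by ring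
        _ ≤ _ := by gcongr
    have p1 : 0 ≤ √δ * exp (η * j) := by positivity
    have p2 : 0 ≤ exp (-(min c1 (a ^ g) * j)) := by positivity
    have p3 : 0 ≤ √(48 * K * M : ℝ) := sqrt_nonneg _
    have p4 : 0 ≤ (BB R M : ℝ) * (C1 + 1) := by positivity
    rw [mul_right_comm _ (_ + _) (N : ℝ), mul_assoc _ (_ + _)]
    refine mul_le_mul_of_nonneg_left ((add_le_add_right e3 _).trans ?_) (by positivity)
    linarith [mul_nonneg p4 p1, mul_nonneg p3 p2]
  · unfold Sw.Δ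
    split_ifs
    · simp; omega
    · refine (abs_sub _ _).trans (le_trans ?_ pw2)
      have t1 := (list_bd kb kD kc ((w.pw g).σ e).1.2).2
      have t2 := (list_bd kb kD kc e.1.2).2
      rw [len] at t1 t2
      exact (add_le_add t1 t2).trans (two_mul _).ge
  · rw [QR, mul_pow, mul_comm]
    gcongr
    exact_mod_cast (by omega : K ≤ j).trans
      ((Nat.lt_two_pow_self.le).trans (Nat.pow_le_pow_left (by norm_num : 2 ≤ 3) j))
  · rw [pow_mul, ← pow_mul _ j, mul_comm j, pow_mul]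
    gcongr
    exact_mod_cast (Nat.lt_two_pow_self.le).trans (Nat.pow_le_pow_left (by omega : 2 ≤ 3 * d0) R)

theorem Irred.eqd (hI : X.Irred) (hg : X.Grow) {e : E} (he : 2 ≤ X.D e) : X.Eqd X.d := by
  have para : ∀ s, ∃ l l' : List E, X.Pa s l s ∧ X.Pa s l' s ∧
      l ≠ l' ∧ l.length = l'.length ∧ X.bP l = X.bP l' ∧ X.DP l = X.DP l' := by
    intro s
    obtain ⟨e', hne, hs⟩ := exists_branch he
    obtain ⟨k, hk⟩ := hI.conn s (X.tgt e)
    obtain ⟨k', hk'⟩ := hI.conn s (X.tgt e')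
    obtain ⟨w, hw⟩ := hI.conn (X.src e) s
    have g1 : X.Pa s (k ++ ([e] ++ w)) s := hk.append ((Pa.single e).append hw)
    have g2 : X.Pa s (k' ++ ([e'] ++ w)) s := hk'.append ((Pa.single e').append (hs ▸ hw))
    refine ⟨_, _, g1.append g2, g2.append g1, fun heq => hne ?_, ?_, ?_, ?_⟩
    · rw [← List.append_assoc _ k', ← List.append_assoc _ k] at heq
      have := List.append_inj_right' heq (by simp)
      simpa using this
    · simp only [List.length_append]; ring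
    · simp only [bP_append]; ring
    · simp only [DP_append]; ring
  choose l l' h1 h2 h3 h4 h5 h6 using para
  set L := ∑ s, (l s).length + 1 with hL
  have hl : ∀ s, (l s).length + (L - (l s).length) = L := fun s => by
    have := single_le_sum (f := fun s => (l s).length) (fun _ _ => Nat.zero_le _) (mem_univ s)
    omega
  choose p hp using fun s => exists_path (X := X) (L - (l s).length) s
  have m1 : ∀ s, l s ++ p s ∈ X.Paths L s := fun s =>
    hl s ▸ X.append_mem_Paths (h1 s).1 ((h1 s).2.symm ▸ hp s)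
  have m2 : ∀ s, l' s ++ p s ∈ X.Paths L s := fun s =>
    hl s ▸ X.append_mem_Paths (h4 s ▸ (h2 s).1) ((h2 s).2.symm ▸ hp s)
  set e1 : S → X.PE L := fun s => ⟨(s, l s ++ p s), X.mem_PF.2 (m1 s)⟩
  set e2 : S → X.PE L := fun s => ⟨(s, l' s ++ p s), X.mem_PF.2 (m2 s)⟩
  have ne : ∀ s, e1 s ≠ e2 s := fun s h =>
    h3 s (List.append_cancel_right (congrArg (fun x => x.1.2) h))
  have tg : ∀ e : X.PE L, (Equiv.swap (e1 e.1.1) (e2 e.1.1) e).1.1 = e.1.1 := fun e =>
    Equiv.apply_swap_eq_self (v := fun e : X.PE L => e.1.1) (i := e1 e.1.1) (j := e2 e.1.1) rfl e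
  let w : (X.pow L).Sw :=
    { σ := fun e => Equiv.swap (e1 e.1.1) (e2 e.1.1) e
      inv := fun e => by rw [tg]; simp
      src := fun e => Equiv.apply_swap_eq_self (v := (X.pow L).src) (by
        change X.endp _ (_ ++ _) = X.endp _ (_ ++ _)
        rw [endp_append, endp_append, (h1 _).2, (h2 _).2]) e
      tgt := tg
      b := fun e => Equiv.apply_swap_eq_self (v := (X.pow L).b) (by
        change X.bP (_ ++ _) = X.bP (_ ++ _)
        rw [bP_append, bP_append, h5]) e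
      D := fun e => Equiv.apply_swap_eq_self (v := (X.pow L).D) (by
        change X.DP (_ ++ _) = X.DP (_ ++ _)
        rw [DP_append, DP_append, h6]) e }
  obtain ⟨s0, -, h0⟩ := exists_min_image univ (fun s => (X.pow L).q (e1 s)) ⟨X.src e, mem_univ _⟩
  have q0 := (X.pow L).q_pos (e1 s0)
  refine Eqd.of_pow (L0 := L) (by omega) (w.eqd (a := max (1 / 2) (1 - (X.pow L).q (e1 s0)))
    (fun s => le_trans ?_ (le_max_right _ _)) (lt_max_of_lt_left (by norm_num))
    (max_lt (by norm_num) (by linarith)) (hg.pow (by omega))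
    (he.trans (Nat.le_of_dvd X.d_pos (X.D_dvd e))) (dvd_pow_self _ (by omega)))
  have mem : e1 s ∈ (X.pow L).into s := (X.pow L).mem_into.2 rfl
  have := (X.pow L).sum_q s
  rw [← add_sum_erase _ _ mem] at this ⊢
  have a1 : w.σ (e1 s) ≠ e1 s := by
    change Equiv.swap (e1 s) (e2 s) (e1 s) ≠ _
    rw [Equiv.swap_apply_left]; exact (ne s).symm
  have a2 : ∑ e ∈ ((X.pow L).into s).erase (e1 s), (X.pow L).q e * (if w.σ e = e then 1 else 0)
      ≤ ∑ e ∈ ((X.pow L).into s).erase (e1 s), (X.pow L).q e := sum_le_sum fun e _ =>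
    mul_le_of_le_one_right ((X.pow L).q_pos e).le (by split_ifs <;> norm_num)
  rw [if_neg a1]
  linarith [h0 s (mem_univ s)]

end Sys

end Pool.Agent.Lib.MP_39d40e_nt
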