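import Pool.Agent.Lib.MP_39d40e_nt.HzF

/-! Additive functionals along the orbit stay typical beyond the Terras horizon. -/

namespace Pool.Agent.Lib.MP_39d40e_nt

open Finset Real Hz Filter Topology

namespace Hz

theorem flt {α : Type*} {s : Finset α} {p q : α → Prop} {_ : DecidablePred p} {_ : DecidablePred q}
    (h : ∀ u, p u → q u) : (#(s.filter p) : ℝ) ≤ #(s.filter q) :=
  Nat.cast_le.2 (card_le_card fun u hu => mem_filter.2 ⟨(mem_filter.1 hu).1, h u (mem_filter.1 hu).2⟩)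

open Classical in
/-- a family of sets with a power saving -/
def PS (A : ℕ → ℤ → Prop) : Prop := ∃ c K : ℝ, 0 < c ∧ 0 ≤ K ∧
  ∀ᶠ N : ℕ in atTop, (#{u ∈ Icc (-(N : ℤ)) N | A N u} : ℝ) ≤ K * N * exp (-(c * log N))

theorem PS.mono {A B : ℕ → ℤ → Prop} (h : PS B) (hAB : ∀ᶠ N in atTop, ∀ u, A N u → B N u) :
    PS A := by
  classical
  obtain ⟨c, K, h1, h2, h⟩ := h
  exact ⟨c, K, h1, h2, (h.and hAB).mono fun N hN => (flt hN.2).trans hN.1⟩

theorem PS.or {A B : ℕ → ℤ → Prop} (h : PS A) (h' : PS B) : PS fun N u => A N u ∨ B N u := by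
  classical
  obtain ⟨c, K, h1, h2, h⟩ := h
  obtain ⟨c', K', h1', h2', h'⟩ := h'
  refine ⟨min c c', K + K', lt_min h1 h1', by positivity, (h.and h').mono fun N hN => ?_⟩
  have l0 := log_natCast_nonneg N
  have a1 : exp (-(c * log N)) ≤ exp (-(min c c' * log N)) := by gcongr; exact min_le_left _ _
  have a2 : exp (-(c' * log N)) ≤ exp (-(min c c' * log N)) := by gcongr; exact min_le_right _ _
  have a3 : #{u ∈ Icc (-(N : ℤ)) N | A N u ∨ B N u} ≤ _ :=
    (card_le_card fun u hu => by simpa only [mem_filter, mem_union, and_or_left] using hu).trans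
      (card_union_le {u ∈ Icc (-(N : ℤ)) N | A N u} {u ∈ Icc (-(N : ℤ)) N | B N u})
  refine ((flt fun _ h => h).trans (Nat.cast_le.2 a3)).trans ?_
  push_cast
  refine (add_le_add hN.1 hN.2).trans ?_
  rw [add_mul, add_mul]; gcongr

theorem PS.exists {ι : Type*} (I : Finset ι) {A : ι → ℕ → ℤ → Prop} (h : ∀ i ∈ I, PS (A i)) :
    PS fun N u => ∃ i ∈ I, A i N u := by
  classical
  induction I using Finset.induction_on with
  | empty => exact ⟨1, 0, one_pos, le_rfl, .of_forall fun N => by simp⟩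
  | insert i I hi ih =>
    exact ((h i (mem_insert_self _ _)).or (ih fun j hj => h j (mem_insert_of_mem hj))).mono
      (.of_forall fun N u => by simp)

theorem lin_le {c x : ℝ} (hc : 0 < c) : x + 1 ≤ (1 / c + 1) * exp (c * x) ∨ x < 0 := by
  by_cases hx : x < 0
  · exact .inr hx
  · left
    have h1 := add_one_le_exp (c * x)
    have h2 : 0 ≤ c * x := mul_nonneg hc.le (not_lt.1 hx)
    have h3 : x ≤ 1 / c * exp (c * x) := by
      rw [one_div, ← div_eq_inv_mul, le_div_iff₀ hc]; linarith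
    linarith

open Classical in
theorem PS.of_lin {A : ℕ → ℤ → Prop} {c K : ℝ} (hc : 0 < c) (hK : 0 ≤ K)
    (h : ∀ᶠ N : ℕ in atTop, (#{u ∈ Icc (-(N : ℤ)) N | A N u} : ℝ)
      ≤ K * N * ((log N + 1) * exp (-(c * log N)))) : PS A := by
  refine ⟨c / 2, K * (1 / (c / 2) + 1), half_pos hc, by positivity, h.mono fun N hN => hN.trans ?_⟩
  have h1 := (lin_le (x := log N) (half_pos hc)).resolve_right (not_lt.2 (log_natCast_nonneg N))
  calc _ ≤ K * N * ((1 / (c / 2) + 1) * exp (c / 2 * log N) * exp (-(c * log N))) := by gcongr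
    _ = _ := by rw [mul_assoc _ (exp _), ← exp_add]; ring_nf

theorem ev_log (a : ℝ) : ∀ᶠ N : ℕ in atTop, a ≤ log N :=
  (tendsto_log_atTop.comp tendsto_natCast_atTop_atTop).eventually (eventually_ge_atTop a)

end Hz

namespace Sys

variable {S E : Type*} [Fintype S] [Fintype E] [DecidableEq S] [DecidableEq E] {X : Sys S E}

/-- deviation of an additive functional -/
noncomputable def dev (X : Sys S E) (f : E → ℝ) (l : List E) : ℝ :=
  (l.map f).sum - l.length * X.mean f

theorem tail_unif {f : E → ℝ} (hf : X.Poisson f) {ε : ℝ} (hε : 0 < ε) : ∃ C c : ℝ, 0 ≤ C ∧ 0 < c ∧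
    ∀ (n : ℕ) (s : S) (x : ℝ), ε * n ≤ x →
      X.Pr n s (fun l => x ≤ |X.dev f l|) ≤ C * exp (-(c * x)) := by
  obtain ⟨C, hC, h⟩ := X.tail hf
  set t : ℝ := min 1 (ε / (2 * C)) with ht
  have ht0 : 0 < t := lt_min one_pos (by positivity)
  have ht2 : C * t ≤ ε / 2 := by
    have : t ≤ ε / (2 * C) := min_le_right _ _
    rw [le_div_iff₀ (by positivity)] at this; linarith
  refine ⟨2 * C, t / 2, by linarith, by positivity, fun n s x hx => ?_⟩
  obtain ⟨h1, h2⟩ := h t ht0.le (min_le_left _ _) n s x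
  have hb : C * exp (C * t ^ 2 * n - t * x) ≤ C * exp (-(t / 2 * x)) := by
    refine mul_le_mul_of_nonneg_left (exp_le_exp.2 ?_) (by linarith)
    have : 0 ≤ t * n := by positivity
    nlinarith
  refine le_trans (X.Pr_mono fun l hl h => ?_) ((X.Pr_or n s _ _).trans
    ((add_le_add (h1.trans hb) (h2.trans hb)).trans (by linarith)))
  rw [dev, X.length_of_mem_Paths hl, le_abs] at h
  exact h.imp_right fun h => by linarith

open Classical in
theorem terras_ex (k N : ℕ) (s0 : S) (P : List E → Prop) {p : ℝ} (hp : ∀ t ≤ k, ∀ s, X.Pr t s P ≤ p) :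
    (#{u ∈ Icc (-(N : ℤ)) N | ∃ t ≤ k, X.DP (X.orb t (s0, u)) ≤ N ∧ P (X.orb t (s0, u))} : ℝ)
      ≤ X.Cp * Fintype.card S * 4 * N * ((k + 1) * p) := by
  have h1 : {u ∈ Icc (-(N : ℤ)) N | ∃ t ≤ k, X.DP (X.orb t (s0, u)) ≤ N ∧ P (X.orb t (s0, u))}
      ⊆ (range (k + 1)).biUnion fun t =>
        {u ∈ Icc (-(N : ℤ)) N | X.DP (X.orb t (s0, u)) ≤ N ∧ P (X.orb t (s0, u))} := by
    intro u hu
    obtain ⟨a, t, b, c⟩ := mem_filter.1 hu
    exact mem_biUnion.2 ⟨t, mem_range.2 (by omega), mem_filter.2 ⟨a, c⟩⟩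
  refine le_trans (by exact_mod_cast (card_le_card h1).trans card_biUnion_le)
    ((sum_le_sum fun t ht => terras t N s0 P (hp t (Nat.lt_succ_iff.1 (mem_range.1 ht)))).trans ?_)
  simp; ring_nf; rfl

theorem orb_len (n : ℕ) (x : S × ℤ) : (X.orb n x).length = n :=
  X.length_of_mem_Paths (X.orb_mem n x)

theorem orb_congr {t j : ℕ} (h : t ≤ j) (s : S) {z z' : ℤ} (hz : ((X.d ^ j : ℕ) : ℤ) ∣ z - z') :
    X.orb t (s, z) = X.orb t (s, z') := by
  refine (X.path_unique (u := z') (X.orb_mem t (s, z)) (X.orb_mem t _)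
    ((X.orb_endp t _).trans (X.orb_endp t (s, z')).symm) ?_ (Dvd.intro _ (X.orb_mul t _))).1
  have h1 : (X.DP (X.orb t (s, z)) : ℤ) ∣ z - z' := by
    refine Dvd.dvd.trans ?_ hz
    have := X.DP_dvd (X.orb t (s, z))
    rw [orb_len] at this
    exact_mod_cast this.trans (pow_dvd_pow _ h)
  have h2 := (Dvd.intro _ (X.orb_mul t (s, z))).sub (h1.mul_left (X.bP (X.orb t (s, z))))
  rwa [show ∀ a b c d : ℤ, a * b + c - a * (b - d) = a * d + c from fun _ _ _ _ => by ring] at h2

theorem ps_terras {f : E → ℝ} (hf : X.Poisson f) {a H : ℝ} (ha : 0 < a) (hH : 0 < H) (s0 : S) :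
    PS fun N u => ∃ t ≤ ⌊log N / H⌋₊, X.DP (X.orb t (s0, u)) ≤ N ∧
      a * log N ≤ |X.dev f (X.orb t (s0, u))| := by
  obtain ⟨C, c, h1, h2, h⟩ := tail_unif hf (mul_pos ha hH)
  have cp : 0 ≤ X.Cp := Cp_nonneg
  refine PS.of_lin (mul_pos h2 ha) (K := X.Cp * Fintype.card S * 4 * ((1 / H + 1) * C))
    (by positivity) (.of_forall fun N => ?_)
  have l0 := log_natCast_nonneg N
  have k1 : (⌊log N / H⌋₊ : ℝ) ≤ log N / H := Nat.floor_le (by positivity)
  refine (flt fun _ h => h).trans ((terras_ex ⌊log N / H⌋₊ N s0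
    (fun l => a * log N ≤ |X.dev f l|) fun t ht s => h t s _ ?_).trans ?_)
  · have : (t : ℝ) ≤ log N / H := le_trans (by exact_mod_cast ht) k1
    rw [le_div_iff₀ hH] at this; nlinarith
  · have : (⌊log N / H⌋₊ : ℝ) + 1 ≤ (1 / H + 1) * (log N + 1) := by
      have : log N / H = 1 / H * log N := by ring
      nlinarith [one_div_pos.2 hH]
    calc _ ≤ X.Cp * Fintype.card S * 4 * N * ((1 / H + 1) * (log N + 1) *
          (C * exp (-(c * (a * log N))))) := by gcongr
      _ = _ := by ring_nf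

theorem track (hI : X.Irred) (hp : 0 < X.mean fun e => log (|(X.b e : ℝ)| / X.D e)) {H : ℝ}
    (hH : X.mean (fun e => log (X.D e)) = H) (H0 : 0 < H) (f : E → ℝ) {η : ℝ} (hη : 0 < η) :
    ∀ᶠ θ in 𝓝[>] (0 : ℝ), ∀ s0, PS fun N u => ∃ t : ℕ, t ≤ (1 + θ) * log N / H ∧
      η * θ * log N ≤ |X.dev f (X.orb t (s0, u))| := by
  classical
  obtain ⟨e, he⟩ : ∃ e, 2 ≤ X.D e := by
    by_contra hn
    push Not at hn
    have : ∀ e, X.D e = 1 := fun e => by have := hn e; have := X.D_pos e; omega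
    simp [mean, this] at hH
    linarith
  have d1 : (1 : ℝ) ≤ X.d := by exact_mod_cast X.d_pos
  have cp : 0 ≤ X.Cp := Cp_nonneg
  obtain ⟨C1, c1, C10, c10, h1⟩ := tail_unif (hI.poisson f) (show 0 < η * H / 8 by positivity)
  set κ := c1 * (η * H / 8) with hκ
  have κ0 : 0 < κ := by positivity
  obtain ⟨L, J, j0, C, c, L1, c0, C0, h⟩ := hI.eqd (hI.grow hp) he (κ / 4) (by positivity)
  have L1' : (1 : ℝ) ≤ L := by exact_mod_cast L1
  filter_upwards [Ioc_mem_nhdsGT (show (0 : ℝ) < 1 / (16 * (J + 1) * L) by positivity)] with θ hθ s0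
  obtain ⟨θ0, θ1⟩ := hθ
  rw [le_div_iff₀ (by positivity)] at θ1
  have J0 : (0 : ℝ) ≤ J := Nat.cast_nonneg J
  have θ2 : θ * (16 * J * L) ≤ 1 := by nlinarith [mul_pos θ0 (show (0 : ℝ) < L by linarith)]
  have θ3 : θ ≤ 1 / 16 := by nlinarith [mul_nonneg θ0.le (mul_nonneg J0 (show (0 : ℝ) ≤ L by linarith))]
  set k : ℕ → ℕ := fun N => ⌊(1 - θ) * (log N / H) / L⌋₊ with hk
  set j : ℕ → ℕ := fun N => ⌈3 * θ * (log N / H)⌉₊ with hj
  set C2 := X.Cp * Fintype.card S * 4 * C1 with hC2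
  have y0 : ∀ N : ℕ, 0 ≤ log N / H := fun N => div_nonneg (log_natCast_nonneg N) H0.le
  have k1 : ∀ N, ((L * k N : ℕ) : ℝ) ≤ (1 - θ) * (log N / H) := fun N => by
    have : (k N : ℝ) ≤ _ := Nat.floor_le (div_nonneg (mul_nonneg (by linarith) (y0 N)) (by linarith))
    rw [le_div_iff₀ (by linarith)] at this
    push_cast; linarith
  have k2 : ∀ N : ℕ, (1 - θ) * (log N / H) ≤ L * k N + L := fun N => by
    have := (Nat.lt_floor_add_one ((1 - θ) * (log N / H) / L)).le
    rw [div_le_iff₀ (by linarith)] at this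
    simp only [hk]; linarith
  have k3 : ∀ N, L * k N ≤ ⌊log N / H⌋₊ := fun N => Nat.le_floor ((k1 N).trans (by
    nlinarith [y0 N]))
  have j1 : ∀ N : ℕ, 3 * θ * (log N / H) ≤ j N := fun N => Nat.le_ceil _
  have j2 : ∀ N, (j N : ℝ) ≤ 3 * θ * (log N / H) + 1 := fun N =>
    (Nat.ceil_lt_add_one (mul_nonneg (by linarith) (y0 N))).le
  have big : ∀ a : ℝ, ∀ᶠ N : ℕ in atTop, a ≤ θ * (log N / H) := fun a =>
    (ev_log (a * H / θ)).mono fun N hN => by
      rw [div_le_iff₀ θ0] at hN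
      rw [← mul_div_assoc, le_div_iff₀ H0]; linarith
  set Bad : ℕ → S → ℤ → Prop := fun N s z =>
    ∃ t ≤ j N, η * θ / 2 * log N ≤ |X.dev f (X.orb t (s, z))| with hBad
  have p3 : PS fun N u => X.DP (X.orb (L * k N) (s0, u)) ≤ N ∧
      Bad N (X.step^[L * k N] (s0, u)).1 (X.step^[L * k N] (s0, u)).2 := by
    set c' := min (κ / 4) c with hc'
    have c'0 : 0 < c' := lt_min (by positivity) c0
    refine PS.of_lin (c := c' * (3 * θ / H)) (K := C * ((√C2 + 1) * (1 / H + 2))) (by positivity)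
      (by positivity) ?_
    filter_upwards [big 1, big j0, big (2 * L)] with N b1 b2 b3
    have l0 := log_natCast_nonneg N
    have yN := y0 N
    have j3 : (j N : ℝ) ≤ 4 * θ * (log N / H) := by linarith [j2 N]
    refine (flt fun _ h => h).trans ((h (j N) (k N) N s0 (Bad N)
      (C2 * ((j N + 1) * exp (-(κ * j N)))) ?_ ?_
      (fun s z z' hz ⟨t, ht, hb⟩ => ⟨t, ht, orb_congr ht s hz ▸ hb⟩) fun s => ?_).trans ?_)
    · exact_mod_cast (by linarith [j1 N] : (j0 : ℝ) ≤ j N)
    · have : (L : ℝ) * (J * j N) ≤ L * k N := by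
        have t1 := mul_le_mul_of_nonneg_left j3 (show (0 : ℝ) ≤ L * J by positivity)
        nlinarith [k2 N, mul_le_mul_of_nonneg_right θ2 yN, mul_le_mul_of_nonneg_right θ3 yN]
      exact_mod_cast le_of_mul_le_mul_left this (by linarith)
    · have t1 := terras_ex (j N) (X.d ^ j N) s (fun l => η * θ / 2 * log N ≤ |X.dev f l|)
        (p := C1 * exp (-(κ * j N))) fun t ht s' => (h1 t s' _ ?_).trans ?_
      · refine le_trans (Nat.cast_le.2 (card_le_card_of_injOn (fun z : ℕ => (z : ℤ)) (fun z hz => ?_)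
          fun _ _ _ _ h => Nat.cast_injective h)) (t1.trans (le_of_eq (by rw [hC2]; ring)))
        simp only [coe_filter, mem_range, Set.mem_ofPred_eq, mem_Icc] at hz ⊢
        obtain ⟨a1, t, a2, a3⟩ := hz
        refine ⟨⟨by omega, by omega⟩, t, a2, ?_, a3⟩
        have := X.DP_dvd (X.orb t (s, z))
        rw [orb_len] at this
        exact Nat.le_of_dvd (pow_pos X.d_pos _) (this.trans (pow_dvd_pow _ a2))
      · have t2 : (t : ℝ) ≤ 4 * θ * (log N / H) := le_trans (by exact_mod_cast ht) j3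
        rw [← mul_div_assoc, le_div_iff₀ H0] at t2
        nlinarith
      · rw [← mul_div_assoc, le_div_iff₀ H0] at j3
        refine mul_le_mul_of_nonneg_left (exp_le_exp.2 (neg_le_neg ?_)) C10
        rw [hκ, mul_assoc]
        exact mul_le_mul_of_nonneg_left (by nlinarith) c10.le
    · have jn : (0 : ℝ) ≤ j N := Nat.cast_nonneg _
      have t1 : √(C2 * ((j N + 1) * exp (-(κ * j N)))) * exp (κ / 4 * j N)
          ≤ √C2 * ((j N + 1) * exp (-(κ / 4 * j N))) := by
        rw [sqrt_mul (x := C2) (by positivity), sqrt_mul (x := j N + 1) (by positivity), ← exp_half,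
          mul_assoc √C2, mul_assoc,
          ← exp_add, show -(κ * j N) / 2 + κ / 4 * j N = -(κ / 4 * j N) by ring]
        gcongr
        exact sqrt_le_self_iff.2 (.inr (by linarith))
      have t2 : c' * (3 * θ / H) * log N ≤ c' * j N := by
        rw [mul_assoc]; gcongr
        calc _ = 3 * θ * (log N / H) := by ring
          _ ≤ _ := j1 N
      have t3 : exp (-(κ / 4 * j N)) ≤ exp (-(c' * (3 * θ / H) * log N)) :=
        exp_le_exp.2 (neg_le_neg (t2.trans (mul_le_mul_of_nonneg_right (min_le_left _ _) jn)))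
      have t4 : exp (-(c * j N)) ≤ exp (-(c' * (3 * θ / H) * log N)) :=
        exp_le_exp.2 (neg_le_neg (t2.trans (mul_le_mul_of_nonneg_right (min_le_right _ _) jn)))
      have t5 : (j N : ℝ) + 1 ≤ (1 / H + 2) * (log N + 1) := by
        have := j2 N
        have : log N / H = 1 / H * log N := by ring
        nlinarith [one_div_pos.2 H0, mul_le_mul_of_nonneg_right θ3 yN]
      set Z := exp (-(c' * (3 * θ / H) * log N))
      have Z0 : 0 ≤ Z := (exp_pos _).le
      calc _ ≤ C * N * (√C2 * ((j N + 1) * Z) + (j N + 1) * Z) :=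
            mul_le_mul_of_nonneg_left (add_le_add (t1.trans (by gcongr))
              (t4.trans (le_mul_of_one_le_left Z0 (by linarith)))) (by positivity)
        _ = C * N * ((√C2 + 1) * ((j N + 1) * Z)) := by ring
        _ ≤ C * N * ((√C2 + 1) * ((1 / H + 2) * (log N + 1) * Z)) := by gcongr
        _ = _ := by ring
  refine (((ps_terras (hI.poisson fun e => log (X.D e)) (half_pos θ0) H0 s0).or
    (ps_terras (hI.poisson f) (show 0 < η * θ / 2 by positivity) H0 s0)).or p3).mono ?_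
  filter_upwards [big L, ev_log (2 * log X.d / θ), eventually_ge_atTop 1] with N b1 b2 N1 u hu
  obtain ⟨t, ht, hu⟩ := hu
  have l0 := log_natCast_nonneg N
  by_cases hD : X.DP (X.orb (L * k N) (s0, u)) ≤ N
  · have mono : ∀ t ≤ L * k N, X.DP (X.orb t (s0, u)) ≤ N := by
      intro t ht
      obtain ⟨r, hr⟩ := Nat.exists_eq_add_of_le' ht
      rw [hr, orb_add, DP_append] at hD
      exact (Nat.le_mul_of_pos_left _ (X.DP_pos _)).trans hD
    have x0 : 0 ≤ η * θ * log N := by positivity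
    by_cases h2 : t ≤ L * k N
    · exact .inl (.inr ⟨t, h2.trans (k3 N), mono t h2, by linarith⟩)
    · obtain ⟨r, rfl⟩ := Nat.exists_eq_add_of_le' (not_le.1 h2).le
      have e1 : X.dev f (X.orb (r + L * k N) (s0, u)) = X.dev f (X.orb r (X.step^[L * k N] (s0, u)))
          + X.dev f (X.orb (L * k N) (s0, u)) := by
        rw [orb_add]; simp only [dev, List.map_append, List.sum_append, List.length_append]
        push_cast; ring
      by_cases h3 : η * θ / 2 * log N ≤ |X.dev f (X.orb (L * k N) (s0, u))|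
      · exact .inl (.inr ⟨_, k3 N, hD, h3⟩)
      · refine .inr ⟨hD, r, ?_, ?_⟩
        · rw [mul_div_assoc] at ht
          push_cast at ht
          exact_mod_cast (by linarith [k2 N, j1 N] : (r : ℝ) ≤ j N)
        · rw [e1] at hu
          linarith [abs_add_le (X.dev f (X.orb r (X.step^[L * k N] (s0, u))))
            (X.dev f (X.orb (L * k N) (s0, u)))]
  · have ex : ∃ m, ¬ X.DP (X.orb m (s0, u)) ≤ N := ⟨_, hD⟩
    have m1 := Nat.find_spec ex
    have m2 := Nat.find_min' ex hD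
    obtain ⟨m, hm⟩ : ∃ m, Nat.find ex = m + 1 := Nat.exists_eq_succ_of_ne_zero fun h0 => by
      rw [h0] at m1; exact m1 (by simpa [orb] using N1)
    have m3 := not_not.1 (Nat.find_min ex (by omega : m < Nat.find ex))
    refine .inl (.inl ⟨m, (by omega : m ≤ L * k N).trans (k3 N), m3, le_trans ?_ (le_abs_self _)⟩)
    rw [hm, orb, DP_cons, not_le] at m1
    have m4 : (N : ℝ) ≤ X.d * X.DP (X.orb m (s0, u)) := by
      exact_mod_cast m1.le.trans (Nat.mul_le_mul_right _ (Nat.le_of_dvd X.d_pos (X.D_dvd _)))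
    have D0 : (0 : ℝ) < X.DP (X.orb m (s0, u)) := by exact_mod_cast X.DP_pos _
    have m5 := log_le_log (by exact_mod_cast N1) m4
    rw [log_mul (by linarith) D0.ne'] at m5
    have m6 : (m : ℝ) ≤ (1 - θ) * (log N / H) :=
      le_trans (by exact_mod_cast (by omega : m ≤ L * k N)) (k1 N)
    rw [← mul_div_assoc, le_div_iff₀ H0] at m6
    rw [div_le_iff₀ θ0] at b2
    rw [dev, Addi.sum_map X addi_logD, orb_len, hH]
    linarith

end Sys

end Pool.Agent.Lib.MP_39d40e_nt
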