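import Pool.Agent.Lib.MP_39d40e_nt.HzG
import Pool.Agent.Lib.MP_39d40e_nt.Leigh

/-! Assembly for Leigh's chain. -/

namespace Pool.Agent.Lib.MP_39d40e_nt

open Finset Real Hz Filter Topology

namespace Hz

theorem PS.all {A : ℕ → ℤ → Prop} (h : PS A) : ∃ c K : ℝ, 0 < c ∧ ∀ N : ℕ, 1 ≤ N →
    (Set.ncard {x : ℤ | |x| ≤ N ∧ A N x} : ℝ) ≤ K * (N : ℝ) ^ (1 - c) := by
  classical
  obtain ⟨c, K, c0, K0, h⟩ := h
  obtain ⟨N0, h⟩ := eventually_atTop.1 h
  refine ⟨c, K + 3 * exp (c * log N0), c0, fun N N1 => ?_⟩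
  have N1' : (1 : ℝ) ≤ N := by exact_mod_cast N1
  have e1 : {x : ℤ | |x| ≤ N ∧ A N x} = ↑{u ∈ Icc (-(N : ℤ)) N | A N u} := by
    ext x; simp [abs_le]
  have e2 : (N : ℝ) ^ (1 - c) = N * exp (-(c * log N)) := by
    rw [rpow_def_of_pos (by linarith), mul_sub, mul_one, sub_eq_add_neg, exp_add,
      exp_log (by linarith), mul_comm c]
  rw [e1, Set.ncard_coe_finset, e2]
  by_cases hN : N0 ≤ N
  · refine (h N hN).trans ?_
    rw [mul_assoc]; gcongr; linarith [exp_pos (c * log N0)]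
  · have a1 : #{u ∈ Icc (-(N : ℤ)) N | A N u} ≤ 3 * N :=
      (card_filter_le _ _).trans (by rw [Int.card_Icc]; omega)
    have a2 : 1 ≤ exp (c * log N0) * exp (-(c * log N)) := by
      rw [← exp_add]
      have : log N ≤ log N0 := log_le_log (by linarith) (by exact_mod_cast (not_le.1 hN).le)
      exact one_le_exp (by nlinarith)
    have a3 : 0 ≤ K * (N * exp (-(c * log N))) := by positivity
    refine le_trans (by exact_mod_cast a1 : _ ≤ 3 * (N : ℝ)) ?_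
    nlinarith

theorem PS.image {B : ℕ → ℤ → Prop} (h : PS B) (v : ℤ → ℤ) :
    PS fun N x => ∃ u : ℤ, |u| ≤ N ∧ v u = x ∧ B N u := by
  classical
  obtain ⟨c, K, c0, K0, h⟩ := h
  refine ⟨c, K, c0, K0, h.mono fun N hN => le_trans (Nat.cast_le.2 ?_) hN⟩
  refine (card_le_card fun x hx => ?_).trans (card_image_le (f := v))
  obtain ⟨-, u, h1, h2, h3⟩ := mem_filter.1 hx
  exact mem_image.2 ⟨u, mem_filter.2 ⟨mem_Icc.2 (abs_le.1 h1), h3⟩, h2⟩

theorem ps_small {a : ℝ} (a0 : 0 < a) (a1 : a ≤ 1) :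
    PS fun N x => log |(x : ℝ)| ≤ (1 - a) * log N := by
  classical
  refine ⟨a, 3, a0, by norm_num, (eventually_ge_atTop 1).mono fun N N1 => ?_⟩
  have N1' : (1 : ℝ) ≤ N := by exact_mod_cast N1
  set Y := exp ((1 - a) * log N) with hY
  have Y1 : 1 ≤ Y := one_le_exp (mul_nonneg (by linarith) (log_natCast_nonneg N))
  have h1 : ((Icc (-(N : ℤ)) N).filter fun u : ℤ => log |(u : ℝ)| ≤ (1 - a) * log N)
      ⊆ Icc (-(⌊Y⌋₊ : ℤ)) ⌊Y⌋₊ := by
    intro u hu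
    have : |(u : ℝ)| ≤ Y := le_exp_of_log_le (mem_filter.1 hu).2
    have h2 : u.natAbs ≤ ⌊Y⌋₊ := Nat.le_floor (by rwa [Nat.cast_natAbs, Int.cast_abs])
    rw [mem_Icc]; omega
  have h2 := card_le_card h1
  rw [Int.card_Icc, show ((⌊Y⌋₊ : ℤ) + 1 - -(⌊Y⌋₊ : ℤ)).toNat = 2 * ⌊Y⌋₊ + 1 by omega] at h2
  have h3 : (⌊Y⌋₊ : ℝ) ≤ Y := Nat.floor_le (by linarith)
  have e : Y = N * exp (-(a * log N)) := by
    rw [hY, sub_mul, one_mul, sub_eq_add_neg, exp_add, exp_log (by linarith)]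
  refine ((flt fun _ h => h).trans (Nat.cast_le.2 h2)).trans ?_
  rw [mul_assoc, ← e]; push_cast; linarith

theorem abs_log_le {z : ℝ} (h : |z| ≤ 1 / 2) : |(log |1 - z|)| ≤ 2 * |z| := by
  have h1 := abs_le.1 h
  have h2 : 0 < 1 - z := by linarith
  rw [abs_of_pos h2, abs_le]
  have h3 := log_le_sub_one_of_pos h2
  have h4 := one_sub_inv_le_log_of_pos h2
  have h5 : (1 - z)⁻¹ ≤ 1 + 2 * |z| := by
    rw [inv_le_iff_one_le_mul₀ h2]
    nlinarith [le_abs_self z, abs_nonneg z]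
  constructor <;> linarith [neg_abs_le z, abs_nonneg z]

end Hz

namespace Sys

variable {S E : Type*} [Fintype S] [Fintype E] [DecidableEq S] [DecidableEq E] {X : Sys S E}

theorem dev_src (F : S → ℝ) (t : ℕ) (x : S × ℤ) : X.dev (fun e => F (X.src e)) (X.orb t x)
    = ∑ n ∈ range t, F (X.step^[n] x).1 - t * ∑ s, X.π s * F s := by
  rw [dev, orb_len, mean_src]
  congr 1
  induction t with
  | zero => simp [orb]
  | succ t ih => rw [orb, List.map_cons, List.sum_cons, ih, sum_range_succ, lab_src, add_comm]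

end Sys

namespace LData

variable (L : LData)

theorem sum_St (F : ℕ × ℕ → ℝ) : ∑ s : L.St, L.sys.π s * F s.1 = ∑ s ∈ L.C, L.ρ s * F s :=
  (sum_subtype L.C (p := fun s => s ∈ L.C) (fun _ => Iff.rfl) fun s => L.ρ s * F s).symm

theorem abs_m_pos (i) : 0 < |(L.m i : ℝ) / L.d| := by
  have hd : (0 : ℝ) < L.d := by exact_mod_cast L.d_pos
  have : (L.m i : ℝ) ≠ 0 := by exact_mod_cast L.hm i
  positivity

theorem log_Λ [NeZero L.d] :
    log (∏ i : ZMod L.d, |(L.m i : ℝ) / L.d| ^ (∑ s ∈ L.C with (s.1 : ZMod L.d) = i, L.ρ s))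
      = ∑ s ∈ L.C, L.ρ s * log |(L.m s.1 : ℝ) / L.d| := by
  rw [log_prod (fun i _ => (rpow_pos_of_pos (L.abs_m_pos i) _).ne'),
    ← sum_fiberwise_of_maps_to (s := L.C) (t := univ) (g := fun s => (s.1 : ZMod L.d)) (by simp)]
  refine sum_congr rfl fun i _ => ?_
  rw [log_rpow (L.abs_m_pos _), sum_mul]
  exact sum_congr rfl fun s hs => by rw [(mem_filter.1 hs).2]

theorem mean_r : L.sys.mean (fun e => log (|(L.sys.b e : ℝ)| / L.sys.D e))
    = ∑ s ∈ L.C, L.ρ s * log |(L.m s.1 : ℝ) / L.d| := by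
  have hd : (0 : ℝ) < L.d := by exact_mod_cast L.d_pos
  have h3 : ∀ e : L.Ed, log (|(L.sys.b e : ℝ)| / L.sys.D e)
      = (log |(L.m (L.sys.src e).1.1 : ℝ) / L.d| + log ((L.sys.src e).1.2))
        - log ((L.sys.tgt e).1.2) := by
    intro e
    have k1 : (0 : ℝ) < (e.1.1.1.2 : ℕ) := by exact_mod_cast L.k_pos e.1.1.2
    have k2 : (0 : ℝ) < (e.1.2.1.2 : ℕ) := by exact_mod_cast L.k_pos e.1.2.2
    have k3 : (0 : ℝ) < L.sys.D e := by exact_mod_cast L.sys.D_pos' e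
    have k4 : ((e.1.1.1.2 : ℕ) : ℝ) * L.a e.1.1.1.1 * L.sys.D e = L.d * (e.1.2.1.2 : ℕ) := by
      exact_mod_cast L.KD e.2
    have k5 : (0 : ℝ) < L.a e.1.1.1.1 := by exact_mod_cast L.a_pos _
    change log (|(L.b e.1.1.1.1 : ℝ)| / L.sys.D e)
      = (log |(L.m e.1.1.1.1 : ℝ) / L.d| + log (e.1.1.1.2 : ℕ)) - log (e.1.2.1.2 : ℕ)
    rw [← log_mul (L.abs_m_pos _).ne' k1.ne', ← log_div (mul_pos (L.abs_m_pos _) k1).ne' k2.ne']
    congr 1
    rw [L.hfac]; push_cast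
    rw [abs_div, abs_mul, abs_of_pos k5, abs_of_pos hd]
    field_simp
    linear_combination (-|(L.b e.1.1.1.1 : ℝ)|) * k4
  simp only [h3]
  have h4 : L.sys.mean (fun e => (log |(L.m (L.sys.src e).1.1 : ℝ) / L.d|
        + log ((L.sys.src e).1.2)) - log ((L.sys.tgt e).1.2))
      = L.sys.mean (fun e => log |(L.m (L.sys.src e).1.1 : ℝ) / L.d|)
        + L.sys.mean (fun e => log ((L.sys.src e).1.2))
        - L.sys.mean (fun e => log ((L.sys.tgt e).1.2)) := by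
    unfold Sys.mean
    rw [← sum_add_distrib, ← sum_sub_distrib]
    exact sum_congr rfl fun e _ => by ring
  rw [h4, L.sys.mean_src (fun s => log |(L.m s.1.1 : ℝ) / L.d|),
    L.sys.mean_src (fun s => log (s.1.2)), L.sys.mean_tgt (fun s => log (s.1.2)),
    L.sum_St fun s => log |(L.m s.1 : ℝ) / L.d|]
  ring

theorem mean_D : L.sys.mean (fun e => log (L.sys.D e))
    = ∑ s ∈ L.C, L.ρ s * log (L.d / Nat.gcd (s.2 * L.a s.1) L.d) := by
  rw [← L.sum_St, ← L.sys.mean_src fun s => log (L.d / Nat.gcd (s.1.2 * L.a s.1.1) L.d)]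
  congr 1; funext e
  exact congrArg log (Nat.cast_div (L.g_dvd _) (by exact_mod_cast (L.g_pos _).ne'))

theorem val_mod (x : L.St × ℤ) : ((L.val x : ℤ) : ZMod L.d) = x.1.1.1 := by
  unfold val; push_cast; simp

theorem T_mul (x : ℤ) : (L.d : ℝ) * T L.d L.m L.r x = L.m x * x - L.r x := by
  have : (L.d : ℤ) ∣ L.m x * x - L.r x := by
    rw [← ZMod.intCast_zmod_eq_zero_iff_dvd]; push_cast; rw [L.hr]; ring
  exact_mod_cast Int.mul_ediv_cancel' this

theorem size {R Y a lam : ℝ} (hR : ∀ i, |(L.r i : ℝ)| ≤ R) (l0 : 0 ≤ lam) (x : ℤ) (T0 : ℝ)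
    (hY : 2 * R ≤ exp Y) (Y0 : 0 < Y) (hT : T0 * (2 * R / exp Y) ≤ 1)
    (hx : Y + a + 1 ≤ log |(x : ℝ)|)
    (h : ∀ t : ℕ, t ≤ T0 → |∑ n ∈ range t,
      log |(L.m ((T L.d L.m L.r)^[n] x : ℤ) : ℝ) / L.d| - t * lam| ≤ a) (t : ℕ) (ht : t ≤ T0) :
    |log |(((T L.d L.m L.r)^[t] x : ℤ) : ℝ)| - log |(x : ℝ)| - (∑ n ∈ range t,
      log |(L.m ((T L.d L.m L.r)^[n] x : ℤ) : ℝ) / L.d|)| ≤ t * (2 * R / exp Y) := by
  induction t with
  | zero => simp
  | succ t ih =>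
    have R0 : 0 ≤ R := (abs_nonneg _).trans (hR 0)
    have e0 : 0 ≤ 2 * R / exp Y := by positivity
    have t1 : (t : ℝ) ≤ T0 := by push_cast at ht; linarith
    have i1 := abs_le.1 (ih t1)
    have i2 := abs_le.1 (h t t1)
    set y := (T L.d L.m L.r)^[t] x with hy
    have i3 : Y ≤ log |(y : ℝ)| := by
      nlinarith [mul_le_mul_of_nonneg_right t1 e0, mul_nonneg (Nat.cast_nonneg (α := ℝ) t) l0]
    have y0 : (y : ℝ) ≠ 0 := by rintro h0; rw [h0] at i3; simp at i3; linarith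
    have i4 : exp Y ≤ |(y : ℝ)| := (le_log_iff_exp_le (abs_pos.2 y0)).1 i3
    have hd : (0 : ℝ) < L.d := by exact_mod_cast L.d_pos
    have m0 : (L.m y : ℝ) ≠ 0 := by exact_mod_cast L.hm _
    have m1 : (1 : ℝ) ≤ |(L.m y : ℝ)| := by exact_mod_cast Int.one_le_abs (L.hm _)
    set z : ℝ := L.r y / (L.m y * y) with hz
    have z1 : |z| ≤ R / exp Y := by
      rw [hz, abs_div, abs_mul]
      gcongr
      · exact hR _
      · nlinarith [exp_pos Y]
    have z2 : |z| ≤ 1 / 2 := z1.trans (by rw [div_le_iff₀ (exp_pos Y)]; linarith)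
    have e : ((T L.d L.m L.r y : ℤ) : ℝ) = L.m y / L.d * y * (1 - z) := by
      have := L.T_mul y
      rw [hz]; field_simp; linarith
    have z3 : |1 - z| ≠ 0 := abs_ne_zero.2 (by linarith [(abs_le.1 z2).2])
    have i5 := abs_le.1 (abs_log_le z2)
    rw [Function.iterate_succ_apply', ← hy, e, abs_mul, abs_mul,
      log_mul (mul_ne_zero (L.abs_m_pos _).ne' (abs_ne_zero.2 y0)) z3,
      log_mul (L.abs_m_pos _).ne' (abs_ne_zero.2 y0), sum_range_succ, ← hy, abs_le]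
    rw [mul_div_assoc] at i1 ⊢
    push_cast
    constructor <;> linarith

theorem small_u {x : ℤ} {N : ℕ} (h1 : |x| ≤ N) (h2 : 2 < |x|) {s : ℕ × ℕ} (hs : s ∈ L.C)
    (h : x ≡ s.1 [ZMOD (L.d * s.2 : ℕ)]) : ∃ u : ℤ, |u| ≤ N ∧ L.val (⟨s, hs⟩, u) = x := by
  obtain ⟨u, hu⟩ := h.symm.dvd
  refine ⟨u, ?_, by unfold val; push_cast at hu ⊢; linarith⟩
  have a3 : ((s.1 : ℕ) : ℤ) < ((L.d * s.2 : ℕ) : ℤ) := by exact_mod_cast L.hC s hs
  have a4 : (2 : ℤ) ≤ ((L.d * s.2 : ℕ) : ℤ) := by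
    exact_mod_cast Nat.mul_le_mul L.hd (L.k_pos hs)
  have a5 := abs_le.1 h1
  have a6 : (0 : ℤ) ≤ (s.1 : ℕ) := Int.natCast_nonneg _
  generalize ((L.d * s.2 : ℕ) : ℤ) = M at *
  rw [abs_le]
  constructor <;> by_contra hn <;> nlinarith

theorem horizon [NeZero L.d] {p : ZMod L.d → ℝ} {lam H : ℝ}
    (hp : ∀ i, p i = ∑ s ∈ L.C with (s.1 : ZMod L.d) = i, L.ρ s)
    (hl : lam = ∑ s ∈ L.C, L.ρ s * log |(L.m s.1 : ℝ) / L.d|) (l0 : 0 < lam)
    (hH : H = ∑ s ∈ L.C, L.ρ s * log (L.d / Nat.gcd (s.2 * L.a s.1) L.d)) (H0 : 0 < H)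
    {η : ℝ} (hη : 0 < η) : ∀ᶠ θ in 𝓝[>] (0 : ℝ), PS fun N x => |x| ≤ N ∧
      (∃ s ∈ L.C, x ≡ s.1 [ZMOD (L.d * s.2 : ℕ)]) ∧ ¬ ∀ t : ℕ, t ≤ (1 + θ) * log N / H →
        |log |(((T L.d L.m L.r)^[t] x : ℤ) : ℝ)| - (log N + t * lam)| ≤ η * θ * log N ∧
        ∀ i, |(#{n ∈ range t | (((T L.d L.m L.r)^[n] x : ℤ) : ZMod L.d) = i} : ℝ) - p i * t|
          ≤ η * θ * log N := by
  classical
  have tr := fun (F : ZMod L.d → ℝ) => Sys.track L.irred (by rw [mean_r, ← hl]; exact l0)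
    (L.mean_D.trans hH.symm) H0 (fun e => F (L.sys.src e).1.1) (show 0 < η / 3 by positivity)
  have dv : ∀ (F : ZMod L.d → ℝ) t y, L.sys.dev (fun e => F (L.sys.src e).1.1) (L.sys.orb t y)
      = ∑ n ∈ range t, F ((T L.d L.m L.r)^[n] (L.val y) : ℤ) - t * ∑ s ∈ L.C, L.ρ s * F s.1 := by
    intro F t y
    rw [Sys.dev_src (fun s : L.St => F s.1.1), L.sum_St fun s => F s.1]
    simp only [← val_iter, val_mod]
  set R := ∑ i, |(L.r i : ℝ)| with hR
  have R1 : ∀ i, |(L.r i : ℝ)| ≤ R := fun i =>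
    single_le_sum (f := fun i => |(L.r i : ℝ)|) (fun _ _ => abs_nonneg _) (mem_univ i)
  have R0 : 0 ≤ R := (abs_nonneg _).trans (R1 0)
  filter_upwards [tr fun i => log |(L.m i : ℝ) / L.d|,
    eventually_all.2 fun i => tr fun j => if j = i then 1 else 0,
    Ioc_mem_nhdsGT (show (0 : ℝ) < min 1 (3 / (8 * η)) by positivity)] with θ h1 h2 ⟨θ0, θ1⟩
  have θ2 : θ ≤ 1 := θ1.trans (min_le_left _ _)
  have θ3 := θ1.trans (min_le_right _ _)
  rw [le_div_iff₀ (by positivity)] at θ3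
  have a0 : 0 < η / 3 * θ := by positivity
  refine ((ps_small a0 (by linarith)).or (PS.exists univ fun s _ => ((h1 s).or
    (PS.exists univ fun i _ => h2 i s)).image fun u => L.val (s, u))).mono ?_
  filter_upwards [ev_log 4, ev_log (1 / (η / 3 * θ)), ev_log (64 * R / H), ev_log (4 * R)]
    with N b1 b2 b3 b4 x hx
  obtain ⟨x1, ⟨s, hs, x2⟩, x3⟩ := hx
  rw [div_le_iff₀ a0] at b2
  rw [div_le_iff₀ H0] at b3
  by_contra hn
  rw [not_or, not_le] at hn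
  obtain ⟨n1, n2⟩ := hn
  have x4 : 2 < |x| := by
    by_contra h
    have h' : |(x : ℝ)| ≤ 2 := by exact_mod_cast not_lt.1 h
    have : log |(x : ℝ)| ≤ 2 := (log_le_self (abs_nonneg _)).trans h'
    nlinarith
  obtain ⟨u, u1, rfl⟩ := L.small_u x1 x4 hs x2
  simp only [not_exists, not_and, not_or, not_le] at n2
  obtain ⟨n3, n4⟩ := n2 ⟨s, hs⟩ (mem_univ _) u u1 rfl
  simp only [dv fun i => log |(L.m i : ℝ) / L.d|, ← hl] at n3
  set x := L.val (⟨s, hs⟩, u)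
  have x5 : log |(x : ℝ)| ≤ log N :=
    log_le_log (by exact_mod_cast (by omega : 0 < |x|)) (by exact_mod_cast x1)
  have ex : (log N / 4) ^ 2 ≤ exp (log N / 2) := by
    rw [show log N / 2 = log N / 4 + log N / 4 by ring, exp_add, sq]
    have := add_one_le_exp (log N / 4)
    gcongr <;> linarith
  have hT : (1 + θ) * log N / H * (2 * R / exp (log N / 2)) ≤ 1 := by
    rw [div_mul_div_comm, div_le_one (by positivity)]
    have t1 := mul_le_mul_of_nonneg_left ex H0.le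
    have t2 := mul_le_mul_of_nonneg_right b3 (show 0 ≤ log N / 16 by linarith)
    have t3 := mul_le_mul_of_nonneg_right θ2 (show 0 ≤ log N * (2 * R) by positivity)
    nlinarith
  refine x3 fun t ht => ⟨?_, fun i => ?_⟩
  · have s1 := abs_le.1 (L.size (a := η / 3 * θ * log N) R1 l0.le x _
      (Y := log N / 2) (by linarith [add_one_le_exp (log N / 2)]) (by linarith) hT (by nlinarith)
      (fun t ht => (n3 t ht).le) t ht)
    have s2 := abs_le.1 (n3 t ht).le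
    have s3 := mul_le_mul_of_nonneg_right ht (show 0 ≤ 2 * R / exp (log N / 2) by positivity)
    rw [abs_le]
    constructor <;> nlinarith
  · have s1 := (n4 i (mem_univ _) t ht).le
    rw [dv fun j => if j = i then 1 else 0, sum_boole] at s1
    simp only [mul_ite, mul_one, mul_zero] at s1
    rw [← sum_filter, ← hp, mul_comm (t : ℝ)] at s1
    refine s1.trans ?_
    nlinarith

end LData

end Pool.Agent.Lib.MP_39d40e_nt
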