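import Mathlib

/-! A chain with an atom and finite mean return time has a stationary law (countable state space). -/

namespace Pool.Agent.Lib.MP_39d40e_nt.Inf

open scoped ENNReal

variable {S : Type} (p : S → S → ℝ≥0∞) (A : S → Prop) (a0 : S)

open Classical in
/-- the kernel killed on the atom -/
noncomputable def kil (c b : S) : ℝ≥0∞ := if A c then 0 else p c b

/-- survival probabilities -/
noncomputable def sur : ℕ → S → ℝ≥0∞
  | 0, _ => 1
  | n + 1, c => ∑' b, kil p A c b * sur n b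

/-- taboo laws -/
noncomputable def mu : ℕ → S → ℝ≥0∞
  | 0, b => p a0 b
  | n + 1, b => ∑' c, mu n c * kil p A c b

theorem kil_ne {c b : S} (h : kil p A c b ≠ 0) : p c b ≠ 0 := by
  unfold kil at h
  split_ifs at h with h1
  · exact absurd rfl h
  · exact h

theorem mu_dual (n : ℕ) (f : S → ℝ≥0∞) :
    ∑' b, mu p A a0 (n + 1) b * f b = ∑' c, mu p A a0 n c * ∑' b, kil p A c b * f b := by
  simp only [mu, ← ENNReal.tsum_mul_right, ← ENNReal.tsum_mul_left, mul_assoc]
  exact ENNReal.tsum_comm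

theorem mu_mass (m n : ℕ) :
    ∑' b, mu p A a0 (n + m) b = ∑' b, mu p A a0 n b * sur p A m b := by
  induction m generalizing n with
  | zero => simp [sur]
  | succ m ih =>
    rw [show n + (m + 1) = (n + 1) + m by ring, ih (n + 1), mu_dual]
    rfl

theorem mu_path (n : ℕ) (b : S) (h : mu p A a0 n b ≠ 0) :
    ∃ c, p a0 c ≠ 0 ∧ Relation.ReflTransGen (fun s t => p s t ≠ 0) c b := by
  induction n generalizing b with
  | zero => exact ⟨b, h, Relation.ReflTransGen.refl⟩
  | succ n ih =>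
    simp only [mu, ne_eq, ENNReal.tsum_eq_zero, not_forall, mul_eq_zero, not_or] at h
    obtain ⟨c, h1, h2⟩ := h
    obtain ⟨e, he, hp⟩ := ih c h1
    exact ⟨e, he, hp.tail (kil_ne p A h2)⟩

theorem mu_last (n : ℕ) (b : S) (h : mu p A a0 n b ≠ 0) : ∃ c, p c b ≠ 0 := by
  cases n with
  | zero => exact ⟨a0, h⟩
  | succ n =>
    simp only [mu, ne_eq, ENNReal.tsum_eq_zero, not_forall, mul_eq_zero, not_or] at h
    obtain ⟨c, -, h2⟩ := h
    exact ⟨c, kil_ne p A h2⟩

theorem sur_path (hst : ∀ c b, p c b ≠ 0 → ∑' t, p b t = 1) (n : ℕ) (b : S)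
    (hb : ∑' t, p b t = 1) (h : sur p A n b < 1) :
    ∃ c, A c ∧ Relation.ReflTransGen (fun s t => p s t ≠ 0) b c := by
  induction n generalizing b with
  | zero => simp [sur] at h
  | succ n ih =>
    by_cases hA : A b
    · exact ⟨b, hA, Relation.ReflTransGen.refl⟩
    · by_contra hc
      have : ∀ t, p b t ≤ kil p A b t * sur p A n t := by
        intro t
        by_cases ht : p b t = 0
        · simp [ht]
        · have h1 : 1 ≤ sur p A n t := by
            by_contra h2
            obtain ⟨c, hc1, hc2⟩ := ih t (hst b t ht) (not_le.1 h2)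
            exact hc ⟨c, hc1, Relation.ReflTransGen.head ht hc2⟩
          have : kil p A b t = p b t := by simp [kil, hA]
          rw [this]
          exact le_mul_of_one_le_right' h1
      have h3 := ENNReal.tsum_le_tsum this
      rw [hb] at h3
      exact absurd h (not_lt.2 h3)

open Classical in
theorem exists_stat (hst : ∀ c b, p c b ≠ 0 → ∑' t, p b t = 1) (h0 : ∑' t, p a0 t = 1)
    (hat : ∀ c, A c → p c = p a0)
    (hfin : ∑' n, ∑' b, p a0 b * sur p A n b ≠ ∞) :
    ∃ ρ : S → ℝ≥0∞, ∑' b, ρ b = ∑' n, ∑' b, p a0 b * sur p A n b ∧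
      (∀ b, ∑' c, ρ c * p c b = ρ b) ∧ (∑' c, (if A c then ρ c else 0)) = 1 ∧
      (∀ b, p a0 b ≤ ρ b) ∧
      (∀ b, ρ b ≠ 0 → ∃ c, p a0 c ≠ 0 ∧ Relation.ReflTransGen (fun s t => p s t ≠ 0) c b) ∧
      (∀ b, ρ b ≠ 0 → ∃ c, A c ∧ Relation.ReflTransGen (fun s t => p s t ≠ 0) b c) := by
  set ρ : S → ℝ≥0∞ := fun b => ∑' n, mu p A a0 n b with hρ
  have hm : ∀ n, ∑' b, mu p A a0 n b = ∑' b, p a0 b * sur p A n b := by
    intro n
    have := mu_mass p A a0 n 0
    rw [zero_add] at this
    exact this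
  have hmass : ∑' b, ρ b = ∑' n, ∑' b, p a0 b * sur p A n b := by
    simp only [hρ]
    rw [ENNReal.tsum_comm]
    exact tsum_congr hm
  have hne : ∀ b, ρ b ≠ 0 → ∃ n, mu p A a0 n b ≠ 0 := by
    intro b hb
    simpa [hρ, ENNReal.tsum_eq_zero] using hb
  have hval : ∀ b, ρ b ≠ 0 → ∑' t, p b t = 1 := by
    intro b hb
    obtain ⟨n, hn⟩ := hne b hb
    obtain ⟨c, hc⟩ := mu_last p A a0 n b hn
    exact hst c b hc
  set α : ℝ≥0∞ := ∑' c, (if A c then ρ c else 0) with hα
  have hsplit : ∀ b, ∑' c, ρ c * p c b = ∑' n, mu p A a0 (n + 1) b + α * p a0 b := by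
    intro b
    have e1 : ∀ c, ρ c * p c b = ρ c * kil p A c b + (if A c then ρ c else 0) * p a0 b := by
      intro c
      by_cases hc : A c
      · simp [kil, hc, hat c hc]
      · simp [kil, hc]
    simp only [e1]
    rw [ENNReal.tsum_add, ENNReal.tsum_mul_right]
    congr 1
    simp only [hρ, mu, ← ENNReal.tsum_mul_right]
    exact ENNReal.tsum_comm
  have hhead : ∀ b, ρ b = p a0 b + ∑' n, mu p A a0 (n + 1) b := by
    intro b
    simp only [hρ]
    rw [tsum_eq_zero_add' ENNReal.summable]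
    rfl
  have hα1 : α = 1 := by
    have e1 : ∑' b, ∑' c, ρ c * p c b = ∑' b, ρ b := by
      rw [ENNReal.tsum_comm]
      refine tsum_congr fun c => ?_
      rw [ENNReal.tsum_mul_left]
      by_cases hc : ρ c = 0
      · simp [hc]
      · rw [hval c hc, mul_one]
    have e2 : ∑' b, ρ b = 1 + ∑' b, ∑' n, mu p A a0 (n + 1) b := by
      rw [tsum_congr hhead, ENNReal.tsum_add, h0]
    have e3 : ∑' b, ∑' n, mu p A a0 (n + 1) b ≠ ∞ := by
      intro h
      rw [h, hmass] at e2
      exact hfin (by rw [e2]; simp)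
    rw [tsum_congr hsplit, ENNReal.tsum_add, ENNReal.tsum_mul_left, h0, mul_one, e2,
      add_comm] at e1
    exact (ENNReal.add_left_inj e3).1 e1
  refine ⟨ρ, hmass, fun b => ?_, hα1, fun b => ?_, fun b hb => ?_, fun b hb => ?_⟩
  · rw [hsplit, hα1, one_mul, add_comm, ← hhead]
  · rw [hhead]; exact le_self_add
  · obtain ⟨n, hn⟩ := hne b hb
    exact mu_path p A a0 n b hn
  · obtain ⟨n, hn⟩ := hne b hb
    by_contra hc
    have h1 : ∀ m, 1 ≤ sur p A m b := by
      intro m
      by_contra h2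
      exact hc (sur_path p A hst m b (hval b hb) (not_le.1 h2))
    have h2 : ∀ m, mu p A a0 n b ≤ ∑' t, p a0 t * sur p A (n + m) t := by
      intro m
      rw [← hm, mu_mass]
      exact (le_mul_of_one_le_right' (h1 m)).trans
        (ENNReal.le_tsum (f := fun t => mu p A a0 n t * sur p A m t) b)
    have h3 : ∑' _ : ℕ, mu p A a0 n b ≤ ∑' m, ∑' t, p a0 t * sur p A m t :=
      (ENNReal.tsum_le_tsum h2).trans
        (ENNReal.tsum_comp_le_tsum_of_injective (f := fun m => n + m) (add_right_injective n)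
          (fun m => ∑' t, p a0 t * sur p A m t))
    rw [ENNReal.tsum_const_eq_top_of_ne_zero hn] at h3
    exact hfin (top_le_iff.1 h3)

end Pool.Agent.Lib.MP_39d40e_nt.Inf
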