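import Pool.Agent.Lib.MP_39d40e_nt.Defs
import Pool.Agent.Lib.MP_39d40e_nt.InfA

/-! Leigh's chain when all `b_i = 1`: successors, survival bounded by counting integers. -/

namespace Pool.Agent.Lib.MP_39d40e_nt.Inf

open scoped ENNReal
open Finset

variable (d : ℕ) (r : ZMod d → ℤ) (a : ZMod d → ℕ)

/-- the map with `m_i = a_i` -/
def TT (x : ℤ) : ℤ := T d (fun i => (a i : ℤ)) r x

/-- the transition probabilities, in the extended nonnegative reals -/
noncomputable def pp (s t : ℕ × ℕ) : ℝ≥0∞ := ENNReal.ofReal (P d (fun i => (a i : ℤ)) r a s t)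

/-- the next modulus -/
def nk (k : ℕ) (i : ZMod d) : ℕ := k * a i / Nat.gcd (k * a i) d

/-- the number of successors -/
def nq (k : ℕ) (i : ZMod d) : ℕ := d / Nat.gcd (k * a i) d

/-- the map on pairs (integer, modulus) -/
def Phi (z : ℤ × ℕ) : ℤ × ℕ := (TT d r a z.1, nk d a z.2 z.1)

variable {d a}

theorem nq_pos (hd : 0 < d) (k : ℕ) (i : ZMod d) : 0 < nq d a k i :=
  Nat.div_pos (Nat.le_of_dvd hd (Nat.gcd_dvd_right _ _)) (Nat.gcd_pos_of_pos_right _ hd)

theorem nq_mul (k : ℕ) (i : ZMod d) : nq d a k i * Nat.gcd (k * a i) d = d :=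
  Nat.div_mul_cancel (Nat.gcd_dvd_right _ _)

theorem nk_mul (hd : 0 < d) (k : ℕ) (i : ZMod d) : k * a i * nq d a k i = d * nk d a k i := by
  have hg : 0 < Nat.gcd (k * a i) d := Nat.gcd_pos_of_pos_right _ hd
  have h1 := nq_mul (a := a) k i
  have h2 : nk d a k i * Nat.gcd (k * a i) d = k * a i := Nat.div_mul_cancel (Nat.gcd_dvd_left _ _)
  apply Nat.eq_of_mul_eq_mul_right hg
  rw [mul_assoc (k * a i), h1, mul_assoc d, h2, mul_comm]

theorem nk_pos (hd : 0 < d) (ha : ∀ i, 0 < a i) {k : ℕ} (hk : 0 < k) (i : ZMod d) :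
    0 < nk d a k i :=
  Nat.div_pos (Nat.le_of_dvd (Nat.mul_pos hk (ha i)) (Nat.gcd_dvd_left _ _))
    (Nat.gcd_pos_of_pos_right _ hd)

theorem cast_shift (x u : ℤ) (k : ℕ) : ((x + d * k * u : ℤ) : ZMod d) = (x : ZMod d) := by
  push_cast; simp

theorem TT_shift (hd : 0 < d) (x u : ℤ) (k : ℕ) :
    TT d r a (x + d * k * u) = TT d r a x + (k * a x : ℕ) * u := by
  have hd' : (d : ℤ) ≠ 0 := by exact_mod_cast hd.ne'
  unfold TT T
  rw [cast_shift]
  have h2 : (a (x : ZMod d) : ℤ) * (x + d * k * u) - r (x : ZMod d)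
      = ((a (x : ZMod d) : ℤ) * x - r (x : ZMod d)) + d * ((a (x : ZMod d) : ℤ) * k * u) := by ring
  rw [h2, Int.add_mul_ediv_left _ _ hd']
  push_cast; ring

theorem pp_eq (hd : 0 < d) (j k : ℕ) (t : ℕ × ℕ) :
    pp d r a (j, k) t = if t.1 < d * t.2 ∧ t.2 = nk d a k j ∧
      TT d r a j ≡ t.1 [ZMOD (k * a j : ℕ)] then ((nq d a k j : ℕ) : ℝ≥0∞)⁻¹ else 0 := by
  unfold pp P
  by_cases h : t.1 < d * t.2 ∧ t.2 = nk d a k j ∧ TT d r a j ≡ t.1 [ZMOD (k * a j : ℕ)]
  · rw [if_pos h, if_pos (by exact h)]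
    have h1 := nq_mul (a := a) k (j : ZMod d)
    have h2 := nq_pos (a := a) hd k (j : ZMod d)
    have h3 : (0 : ℝ) < nq d a k j := by exact_mod_cast h2
    have h4 : (0 : ℝ) < d := by exact_mod_cast hd
    have h5 : ((Nat.gcd (k * a j) d : ℕ) : ℝ) / d = ((nq d a k j : ℕ) : ℝ)⁻¹ := by
      have : ((nq d a k j : ℕ) : ℝ) * (Nat.gcd (k * a j) d : ℕ) = d := by exact_mod_cast h1
      field_simp
      linarith
    simp only
    rw [h5, ENNReal.ofReal_inv_of_pos h3, ENNReal.ofReal_natCast]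
  · rw [if_neg h, if_neg (by exact h)]; simp

theorem pp_ne (hd : 0 < d) (j k : ℕ) (t : ℕ × ℕ) :
    pp d r a (j, k) t ≠ 0 ↔ t.1 < d * t.2 ∧ t.2 = nk d a k j ∧
      TT d r a j ≡ t.1 [ZMOD (k * a j : ℕ)] := by
  rw [pp_eq r hd]
  split_ifs with h
  · exact iff_of_true (by simp) h
  · exact iff_of_false (by simp) h

/-- the successor number `u`, seen from the representative `x` -/
def suc (x : ℤ) (k u : ℕ) : ℕ × ℕ :=
  (((TT d r a x + (k * a x : ℕ) * u) % (d * nk d a k x : ℕ)).toNat, nk d a k x)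

theorem suc_cast (hd : 0 < d) (ha : ∀ i, 0 < a i) (x : ℤ) {k : ℕ} (hk : 0 < k) (u : ℕ) :
    (((suc r (a := a) x k u).1 : ℕ) : ℤ) =
      (TT d r a x + (k * a x : ℕ) * u) % (d * nk d a k x : ℕ) := by
  have : (0 : ℤ) < (d * nk d a k x : ℕ) := by exact_mod_cast Nat.mul_pos hd (nk_pos hd ha hk _)
  exact Int.toNat_of_nonneg (Int.emod_nonneg _ this.ne')

theorem tsum_pp (hd : 0 < d) (ha : ∀ i, 0 < a i) (j : ℕ) {k : ℕ} (hk : 0 < k) (z : ℤ)
    (f : ℕ × ℕ → ℝ≥0∞) :
    ∑' t, pp d r a (j, k) t * f t = ∑ u ∈ range (nq d a k j),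
      ((nq d a k j : ℕ) : ℝ≥0∞)⁻¹ * f (suc r (a := a) (j + d * k * z) k u) := by
  classical
  set x : ℤ := j + d * k * z with hx
  have hxj : (x : ZMod d) = (j : ZMod d) := by rw [hx, cast_shift]; simp
  have hT : TT d r a x = TT d r a j + (k * a j : ℕ) * z := by
    rw [hx, TT_shift r hd]; simp
  have hM : (0 : ℤ) < (d * nk d a k j : ℕ) := by exact_mod_cast Nat.mul_pos hd (nk_pos hd ha hk _)
  have hK : (0 : ℤ) < (k * a j : ℕ) := by exact_mod_cast Nat.mul_pos hk (ha _)
  have hMK : ((d * nk d a k j : ℕ) : ℤ) = (k * a j : ℕ) * (nq d a k j : ℕ) := by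
    exact_mod_cast (nk_mul hd k (j : ZMod d)).symm
  have hs : ∀ u : ℕ, (((suc r (a := a) x k u).1 : ℕ) : ℤ) =
      (TT d r a x + (k * a j : ℕ) * u) % (d * nk d a k j : ℕ) := by
    intro u; rw [suc_cast r hd ha x hk, hxj]
  have hs2 : ∀ u : ℕ, (suc r (a := a) x k u).2 = nk d a k j := by
    intro u; simp only [suc, hxj]
  have hinj : Set.InjOn (fun u => suc r (a := a) x k u) (range (nq d a k j) : Set ℕ) := by
    intro u hu v hv h
    have h1 : (((suc r (a := a) x k u).1 : ℕ) : ℤ) = (suc r (a := a) x k v).1 := by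
      simp only at h; rw [h]
    rw [hs, hs] at h1
    have h3 : ((d * nk d a k j : ℕ) : ℤ) ∣ (k * a j : ℕ) * ((v : ℤ) - u) := by
      have h4 := Int.ModEq.dvd (show _ ≡ _ [ZMOD _] from h1)
      convert h4 using 1; ring
    rw [hMK, mul_dvd_mul_iff_left hK.ne'] at h3
    simp only [coe_range, Set.mem_Iio] at hu hv
    have := Int.eq_zero_of_abs_lt_dvd h3 (by rw [abs_lt]; constructor <;> omega)
    omega
  have hmem : ∀ t : ℕ × ℕ, t ∈ (range (nq d a k j)).image (fun u => suc r (a := a) x k u) ↔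
      (t.1 < d * t.2 ∧ t.2 = nk d a k j ∧ TT d r a j ≡ t.1 [ZMOD (k * a j : ℕ)]) := by
    intro t
    simp only [mem_image, mem_range]
    constructor
    · rintro ⟨u, -, rfl⟩
      refine ⟨?_, hs2 u, ?_⟩
      · rw [hs2]
        have := Int.emod_lt_of_pos (TT d r a x + (k * a j : ℕ) * u) hM
        rw [← hs] at this
        exact_mod_cast this
      · rw [hs]
        have h1 : (TT d r a x + (k * a j : ℕ) * u) % (d * nk d a k j : ℕ) ≡
            TT d r a x + (k * a j : ℕ) * u [ZMOD (k * a j : ℕ)] :=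
          (Int.mod_modEq _ _).of_dvd ⟨_, hMK⟩
        refine Int.ModEq.symm (h1.trans ?_)
        rw [hT]
        exact Int.modEq_iff_dvd.2 ⟨-z - u, by ring⟩
    · rintro ⟨h1, h2, h3⟩
      obtain ⟨w, hw⟩ := h3.dvd
      have hq : (0 : ℤ) < (nq d a k j : ℕ) := by exact_mod_cast nq_pos hd k _
      have hu0 := Int.emod_nonneg (w - z) hq.ne'
      have hu1 := Int.emod_lt_of_pos (w - z) hq
      refine ⟨((w - z) % (nq d a k j : ℕ)).toNat, by omega, ?_⟩
      refine Prod.ext ?_ ((hs2 _).trans h2.symm)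
      have h4 : (((suc r (a := a) x k ((w - z) % (nq d a k j : ℕ)).toNat).1 : ℕ) : ℤ) = t.1 := by
        rw [hs, Int.toNat_of_nonneg hu0]
        have h5 : ((t.1 : ℕ) : ℤ) < (d * nk d a k j : ℕ) := by rw [← h2]; exact_mod_cast h1
        rw [← Int.emod_eq_of_lt (Int.natCast_nonneg t.1) h5]
        apply Int.modEq_iff_dvd.2
        refine ⟨(w - z) / (nq d a k j : ℕ), ?_⟩
        have h6 := Int.emod_add_mul_ediv (w - z) (nq d a k j : ℕ)
        rw [hMK, hT]
        linear_combination hw - ((k * a j : ℕ) : ℤ) * h6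
      exact_mod_cast h4
  rw [tsum_eq_sum (s := (range (nq d a k j)).image (fun u => suc r (a := a) x k u)),
    sum_image hinj]
  · refine sum_congr rfl fun u hu => ?_
    rw [pp_eq r hd, if_pos ((hmem _).1 (mem_image_of_mem _ hu))]
  · intro t ht
    rw [pp_eq r hd, if_neg (fun h => ht ((hmem t).2 h)), zero_mul]

theorem pp_sum (hd : 0 < d) (ha : ∀ i, 0 < a i) (j : ℕ) {k : ℕ} (hk : 0 < k) :
    ∑' t, pp d r a (j, k) t = 1 := by
  have := tsum_pp r hd ha j hk 0 (fun _ => 1)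
  simp only [mul_one, sum_const, card_range, nsmul_eq_mul] at this
  rw [this]
  exact ENNReal.mul_inv_cancel (by exact_mod_cast (nq_pos hd k _).ne') (by simp)

theorem sum_split (q N : ℕ) (f : ℕ → ℝ≥0∞) :
    ∑ y ∈ range (q * N), f y = ∑ u ∈ range q, ∑ v ∈ range N, f (u + q * v) := by
  induction N with
  | zero => simp
  | succ N ih =>
    rw [mul_add, mul_one, sum_range_add, ih, ← sum_add_distrib]
    refine sum_congr rfl fun u _ => ?_
    rw [sum_range_succ, add_comm u (q * N)]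

variable (A0 : ZMod d → Prop)

/-- the atom, on pairs (integer, modulus) -/
def AtZ (z : ℤ × ℕ) : Prop := z.2 = 1 ∧ A0 z.1

/-- the atom, on states -/
def AtS (s : ℕ × ℕ) : Prop := s.2 = 1 ∧ A0 s.1

/-- no visit to the atom before time `n` -/
def Surv (n : ℕ) (z : ℤ × ℕ) : Prop := ∀ t < n, ¬ AtZ A0 ((Phi d r a)^[t] z)

open Classical in
theorem sur_le (hd : 0 < d) (ha : ∀ i, 0 < a i) (n : ℕ) : ∀ (N j k : ℕ) (z : ℤ), d ^ n ∣ N →
    0 < k → sur (pp d r a) (AtS A0) n (j, k) * N ≤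
      ∑ y ∈ range N, if Surv r (a := a) A0 n (j + d * k * z + d * k * y, k) then 1 else 0 := by
  induction n with
  | zero => intro N j k z _ _; simp [sur, Surv]
  | succ n ih =>
    intro N j k z hN hk
    by_cases hA : AtS A0 (j, k)
    · simp [sur, kil, hA]
    have hq := nq_pos (a := a) hd k (j : ZMod d)
    obtain ⟨N', hN', rfl⟩ : ∃ N', d ^ n ∣ N' ∧ N = nq d a k j * N' := by
      obtain ⟨c, rfl⟩ := hN
      refine ⟨d ^ n * (Nat.gcd (k * a j) d * c), Dvd.intro _ rfl, ?_⟩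
      have := nq_mul (a := a) k (j : ZMod d)
      calc d ^ (n + 1) * c = d ^ n * (nq d a k j * Nat.gcd (k * a j) d) * c := by
            rw [this, pow_succ]
        _ = _ := by ring
    have e1 : sur (pp d r a) (AtS A0) (n + 1) (j, k) =
        ∑' t, pp d r a (j, k) t * sur (pp d r a) (AtS A0) n t := by
      simp [sur, kil, hA]
    rw [e1, tsum_pp r hd ha j hk z, sum_split, sum_mul]
    refine sum_le_sum fun u _ => ?_
    set x : ℤ := j + d * k * z with hx
    have hxj : (x : ZMod d) = (j : ZMod d) := by rw [hx, cast_shift]; simp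
    have hc := suc_cast r hd ha x hk u
    have hk' := nk_pos hd ha hk (x : ZMod d)
    have h1 := ih N' (suc r (a := a) x k u).1 (nk d a k x)
      ((TT d r a x + (k * a x : ℕ) * u) / (d * nk d a k x : ℕ)) hN' hk'
    have e2 : ((nq d a k j : ℕ) : ℝ≥0∞)⁻¹ * sur (pp d r a) (AtS A0) n (suc r (a := a) x k u) *
        ((nq d a k j * N' : ℕ) : ℝ≥0∞) =
        sur (pp d r a) (AtS A0) n ((suc r (a := a) x k u).1, nk d a k x) * N' := by
      have : ((nq d a k j : ℕ) : ℝ≥0∞)⁻¹ * (nq d a k j : ℕ) = 1 :=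
        ENNReal.inv_mul_cancel (by exact_mod_cast hq.ne') (by simp)
      push_cast
      calc _ = (((nq d a k j : ℕ) : ℝ≥0∞)⁻¹ * (nq d a k j : ℕ)) *
          (sur (pp d r a) (AtS A0) n (suc r (a := a) x k u) * N') := by ring
        _ = _ := by rw [this, one_mul]; rfl
    rw [e2]
    refine h1.trans (sum_le_sum fun v _ => ?_)
    have e3 : Phi d r a (x + d * k * ((u + nq d a k j * v : ℕ) : ℤ), k) =
        (((suc r (a := a) x k u).1 : ℕ) + d * (nk d a k x : ℕ) *
          ((TT d r a x + (k * a x : ℕ) * u) / (d * nk d a k x : ℕ)) + d * (nk d a k x : ℕ) * v,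
          nk d a k x) := by
      unfold Phi
      simp only
      rw [cast_shift, TT_shift r hd, hc]
      refine Prod.ext ?_ rfl
      have h6 := Int.emod_add_mul_ediv (TT d r a x + (k * a x : ℕ) * u) (d * nk d a k x : ℕ)
      have h7 : ((k * a x : ℕ) : ℤ) * (nq d a k j : ℕ) = d * (nk d a k x : ℕ) := by
        rw [← hxj]; exact_mod_cast nk_mul hd k (x : ZMod d)
      simp only
      push_cast at h6 h7 ⊢
      linear_combination (v : ℤ) * h7 - h6
    split_ifs with h2 h3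
    · exact le_rfl
    · exfalso
      apply h3
      intro t ht
      cases t with
      | zero =>
        intro h4
        apply hA
        refine ⟨h4.1, ?_⟩
        have h5 := h4.2
        simp only [Function.iterate_zero, id] at h5
        rwa [cast_shift, hxj] at h5
      | succ t =>
        rw [Function.iterate_succ_apply, e3]
        exact h2 t (by omega)
    · exact zero_le_one
    · exact le_rfl

/-- if all survivors in the class of `j` mod `d` have index divisible by `L`, survival is `≤ 1/L` -/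
theorem sur_le_inv (hd : 0 < d) (ha : ∀ i, 0 < a i) (n j L : ℕ) (hL : 0 < L)
    (h : ∀ y : ℕ, Surv r (a := a) A0 n (j + d * y, 1) → L ∣ y) :
    sur (pp d r a) (AtS A0) n (j, 1) ≤ (L : ℝ≥0∞)⁻¹ := by
  classical
  have h1 := sur_le r A0 hd ha n (L * d ^ n) j 1 0 (Dvd.intro_left _ rfl) one_pos
  have h2 : (∑ y ∈ range (L * d ^ n),
      if Surv r (a := a) A0 n (j + d * (1 : ℕ) * 0 + d * (1 : ℕ) * y, 1) then (1 : ℝ≥0∞) else 0)
      ≤ (d ^ n : ℕ) := by
    calc _ ≤ ∑ y ∈ range (L * d ^ n), if L ∣ y then (1 : ℝ≥0∞) else 0 := by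
          refine sum_le_sum fun y _ => ?_
          split_ifs with h3 h4
          · exact le_rfl
          · exact absurd (h y (by simpa using h3)) h4
          · exact zero_le_one
          · exact le_rfl
      _ = ∑ u ∈ range L, if u = 0 then ((d ^ n : ℕ) : ℝ≥0∞) else 0 := by
          rw [sum_split]
          refine sum_congr rfl fun u hu => ?_
          have : ∀ v, L ∣ u + L * v ↔ u = 0 := by
            intro v
            rw [Nat.dvd_add_left (Dvd.intro _ rfl)]
            exact ⟨fun h => Nat.eq_zero_of_dvd_of_lt h (mem_range.1 hu), fun h => by simp [h]⟩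
          simp only [this]
          split_ifs <;> simp
      _ = _ := by rw [sum_ite_eq']; simp [hL]
  have h3 := h1.trans h2
  have hp : ((d ^ n : ℕ) : ℝ≥0∞) ≠ 0 := by exact_mod_cast (pow_pos hd n).ne'
  rw [Nat.cast_mul, ← mul_assoc] at h3
  have h4 : sur (pp d r a) (AtS A0) n (j, 1) * L ≤ 1 := by
    refine (ENNReal.mul_le_mul_iff_left hp (by simp)).1 ?_
    rwa [one_mul]
  rw [ENNReal.le_inv_iff_mul_le]
  exact h4

end Pool.Agent.Lib.MP_39d40e_nt.Inf
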