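import Pool.Agent.Lib.MP_39d40e_nt.InfB

/-! A counter machine coded as a generalized Collatz map with modulus `13 * 27 * 55 * 109`. -/

namespace Pool.Agent.Lib.MP_39d40e_nt.Inf

/-- an instruction: `y ↦ (u y + c) / w`, go to state `s` -/
structure Ins where
  u : ℕ
  w : ℕ
  c : ℤ
  s : ℕ

/-- a loop: while `p` divides `y`, replace a factor `p` by `u`; otherwise do `e` -/
def lp (p u s ρ : ℕ) (e : Ins) : Ins := if ρ % p = 0 then ⟨u, p, 0, s⟩ else e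

/-- the refresh: divide by `161865`, rounding to the nearest integer -/
def rf (ρ : ℕ) : Ins := ⟨1, 161865, if 2 * ρ ≤ 161865 then -(ρ : ℤ) else 161865 - ρ, 0⟩

/-- the program; `ρ` is the residue of `y` modulo `161865 = 27 * 55 * 109` -/
def del (s ρ : ℕ) : Ins :=
  match s with
  | 0 => if ρ = 0 then ⟨8829, 1, 109, 10⟩ else rf ρ
  | 1 => lp 3 55 1 ρ ⟨1, 1, 0, if ρ % 3 = 2 then 2 else if ρ % 27 = 16 then 3 else 4⟩
  | 2 => lp 55 3 2 ρ ⟨1, 1, -1, 5⟩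
  | 3 => lp 55 3 3 ρ ⟨1, 1, -1, 7⟩
  | 4 => lp 55 3 4 ρ ⟨1, 1, -1, 8⟩
  | 5 => lp 109 55 5 ρ ⟨1, 1, 0, 6⟩
  | 6 => lp 55 1295029 6 ρ ⟨1, 1, 1, 1⟩
  | 7 => lp 109 1 7 ρ ⟨1, 1, 2, 9⟩
  | 8 => lp 109 1 8 ρ ⟨1, 1, 2, 11⟩
  | 9 => lp 109 55 9 ρ ⟨1, 1, 0, 10⟩
  | 10 => lp 55 1295029 10 ρ ⟨109, 1, -217, 1⟩
  | 11 => lp 109 1 11 ρ ⟨1, 1, -1, 12⟩
  | _ => lp 3 1 12 ρ (rf ρ)

/-- what every instruction satisfies -/
def Ok (I : Ins) (ρ : ℕ) : Prop :=
  I.w ∣ 161865 ∧ (I.w : ℤ) ∣ I.u * ρ + I.c ∧ 0 < I.u ∧ I.u ∣ 161865 ^ 3 ∧ I.u ≤ 30000 * I.w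

theorem ok_one (u s ρ : ℕ) (c : ℤ) (h1 : 0 < u) (h2 : u ∣ 161865 ^ 3) (h3 : u ≤ 30000) :
    Ok ⟨u, 1, c, s⟩ ρ := ⟨one_dvd _, by simp, h1, h2, by simpa using h3⟩

theorem ok_rf (ρ : ℕ) : Ok (rf ρ) ρ := by
  refine ⟨dvd_refl _, ?_, one_pos, one_dvd _, by simp [rf]⟩
  simp only [rf]
  split_ifs
  · simp
  · exact ⟨1, by push_cast; ring⟩

theorem ok_lp (p u s ρ : ℕ) (e : Ins) (hp : p ∣ 161865) (h1 : 0 < u) (h2 : u ∣ 161865 ^ 3)
    (h3 : u ≤ 30000 * p) (he : Ok e ρ) : Ok (lp p u s ρ e) ρ := by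
  unfold lp
  split_ifs with h
  · refine ⟨hp, ?_, h1, h2, h3⟩
    simp only [add_zero]
    exact Dvd.dvd.mul_left (Int.natCast_dvd_natCast.2 (Nat.dvd_of_mod_eq_zero h)) _
  · exact he

theorem ok_del (s ρ : ℕ) : Ok (del s ρ) ρ := by
  unfold del
  split
  · split_ifs
    · exact ok_one _ _ _ _ (by norm_num) (by norm_num) (by norm_num)
    · exact ok_rf ρ
  all_goals first
    | exact ok_lp _ _ _ _ _ (by norm_num) (by norm_num) (by norm_num) (by norm_num)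
        (ok_one _ _ _ _ (by norm_num) (by norm_num) (by norm_num))
    | exact ok_lp _ _ _ _ _ (by norm_num) (by norm_num) (by norm_num) (by norm_num) (ok_rf ρ)

/-- the modulus -/
def dd : ℕ := 2104245

theorem dd_pos : 0 < dd := by unfold dd; norm_num

instance : NeZero dd := ⟨dd_pos.ne'⟩

/-- the instruction at a residue -/
def ins (i : ZMod dd) : Ins := del (i.val % 13) (i.val / 13)

/-- the multipliers -/
def aa (i : ZMod dd) : ℕ := 13 * (161865 / (ins i).w) * (ins i).u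

/-- the shifts -/
def rr (i : ZMod dd) : ℤ :=
  aa i * (i.val % 13 : ℕ) - 169 * (161865 / (ins i).w : ℕ) * (ins i).c - dd * (ins i).s

theorem ok_ins (i : ZMod dd) : Ok (ins i) (i.val / 13) := ok_del _ _

theorem w_mul (i : ZMod dd) : (ins i).w * (161865 / (ins i).w) = 161865 :=
  Nat.mul_div_cancel' (ok_ins i).1

theorem aa_pos (i : ZMod dd) : 0 < aa i := by
  have h := w_mul i
  have h2 := (ok_ins i).2.2.1
  have : 0 < 161865 / (ins i).w := by
    rcases Nat.eq_zero_or_pos (161865 / (ins i).w) with h0 | h0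
    · rw [h0] at h; omega
    · exact h0
  unfold aa; positivity

theorem aa_dvd (i : ZMod dd) : aa i ∣ dd ^ 4 := by
  have h1 : 161865 / (ins i).w ∣ 161865 := Dvd.intro_left _ (w_mul i)
  have h2 := (ok_ins i).2.2.2.1
  have h3 : aa i ∣ 13 * 161865 * 161865 ^ 3 := mul_dvd_mul (mul_dvd_mul_left _ h1) h2
  exact h3.trans (by unfold dd; norm_num)

theorem aa_le (i : ZMod dd) : aa i ≤ 30000 * dd := by
  have h1 := w_mul i
  have h2 := (ok_ins i).2.2.2.2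
  calc aa i ≤ 13 * (161865 / (ins i).w) * (30000 * (ins i).w) := Nat.mul_le_mul_left _ h2
    _ = 30000 * (13 * ((ins i).w * (161865 / (ins i).w))) := by ring
    _ = _ := by rw [h1]; rfl

theorem val_eq (y : ℤ) (s : ℕ) (hs : s < 13) :
    ((13 * y + s : ℤ) : ZMod dd).val % 13 = s ∧
      ((13 * y + s : ℤ) : ZMod dd).val / 13 = (y % 161865).toNat := by
  have h := ZMod.val_intCast (n := dd) (13 * y + s)
  have h2 : ((dd : ℕ) : ℤ) = 2104245 := rfl
  rw [h2] at h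
  omega

theorem ins_eq (y : ℤ) (s : ℕ) (hs : s < 13) :
    ins ((13 * y + s : ℤ) : ZMod dd) = del s (y % 161865).toNat := by
  unfold ins; rw [(val_eq y s hs).1, (val_eq y s hs).2]

theorem mul_sub (y y' : ℤ) (s : ℕ) (i : ZMod dd) (hs : i.val % 13 = s)
    (h : (ins i).u * y + (ins i).c = (ins i).w * y') :
    (aa i : ℤ) * (13 * y + s) - rr i = dd * (13 * y' + (ins i).s) := by
  have h1 : ((ins i).w : ℤ) * (161865 / (ins i).w : ℕ) = 161865 := by exact_mod_cast w_mul i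
  have h2 : ((dd : ℕ) : ℤ) = 2104245 := rfl
  have h3 : (aa i : ℤ) = 13 * (161865 / (ins i).w : ℕ) * (ins i).u := by
    unfold aa; rw [Nat.cast_mul, Nat.cast_mul]; rfl
  unfold rr
  rw [hs, h2, h3]
  linear_combination 169 * ((161865 / (ins i).w : ℕ) : ℤ) * h + 169 * y' * h1

theorem rr_ok (i : ZMod dd) : (rr i : ZMod dd) = i * (aa i : ℤ) := by
  obtain ⟨y', hy'⟩ := (ok_ins i).2.1
  have h := mul_sub (i.val / 13 : ℕ) y' _ i rfl hy'
  have h1 : (13 * ((i.val / 13 : ℕ) : ℤ) + (i.val % 13 : ℕ)) = i.val := by omega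
  rw [h1] at h
  have h2 := congrArg (fun z : ℤ => (z : ZMod dd)) h
  simp only [Int.cast_sub, Int.cast_mul] at h2
  rw [Int.cast_natCast, Int.cast_natCast, Int.cast_natCast, ZMod.natCast_self, zero_mul,
    ZMod.natCast_zmod_val] at h2
  simp only [Int.cast_natCast]
  linear_combination -h2

theorem step (y y' : ℤ) (s : ℕ) (hs : s < 13) (I : Ins) (hI : del s (y % 161865).toNat = I)
    (h : I.u * y + I.c = I.w * y') : TT dd rr aa (13 * y + s) = 13 * y' + I.s := by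
  have h1 := ins_eq y s hs
  rw [hI] at h1
  have h2 := mul_sub y y' s _ (val_eq y s hs).1 (by rw [h1]; exact h)
  rw [h1] at h2
  unfold TT T
  rw [h2]
  exact Int.mul_ediv_cancel_left _ (by exact_mod_cast dd_pos.ne')

theorem div_gcd_dvd (X d K : ℕ) (hd : 0 < d) (h : X ∣ d * K) : X / Nat.gcd X d ∣ K := by
  have hg : 0 < Nat.gcd X d := Nat.gcd_pos_of_pos_right _ hd
  have hc := Nat.coprime_div_gcd_div_gcd hg
  apply hc.dvd_of_dvd_mul_left
  apply Nat.dvd_of_mul_dvd_mul_left hg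
  rw [← mul_assoc, Nat.mul_div_cancel' (Nat.gcd_dvd_left _ _),
    Nat.mul_div_cancel' (Nat.gcd_dvd_right _ _)]
  exact h

/-- `n` steps of the machine, with a bound `K` for the modulus in the divisibility order -/
def Go (n s : ℕ) (y : ℤ) (K s' : ℕ) (y' : ℤ) (K' : ℕ) : Prop :=
  ∀ k, k ∣ K → ∃ k', k' ∣ K' ∧ (Phi dd rr aa)^[n] (13 * y + s, k) = (13 * y' + s', k')

theorem Go.refl (s : ℕ) (y : ℤ) (K : ℕ) : Go 0 s y K s y K := fun k hk => ⟨k, hk, rfl⟩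

theorem Go.trans {n m s s' s'' K K' K'' : ℕ} {y y' y'' : ℤ} (h1 : Go n s y K s' y' K')
    (h2 : Go m s' y' K' s'' y'' K'') : Go (n + m) s y K s'' y'' K'' := by
  intro k hk
  obtain ⟨k', hk', e1⟩ := h1 k hk
  obtain ⟨k'', hk'', e2⟩ := h2 k' hk'
  exact ⟨k'', hk'', by rw [add_comm, Function.iterate_add_apply, e1, e2]⟩

theorem Go.one (y y' : ℤ) (s K K' : ℕ) (hs : s < 13) (I : Ins)
    (hI : del s (y % 161865).toNat = I) (h : I.u * y + I.c = I.w * y') (hK : K * I.u = I.w * K') :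
    Go 1 s y K I.s y' K' := by
  intro k hk
  refine ⟨nk dd aa k ((13 * y + s : ℤ) : ZMod dd), ?_, ?_⟩
  · apply div_gcd_dvd _ _ _ dd_pos
    have h1 := ins_eq y s hs
    rw [hI] at h1
    have h2 := w_mul ((13 * y + s : ℤ) : ZMod dd)
    unfold aa
    rw [h1] at h2 ⊢
    obtain ⟨c, rfl⟩ := hk
    refine ⟨c, ?_⟩
    calc dd * K' = 13 * (I.w * (161865 / I.w)) * K' := by rw [h2]; rfl
      _ = 13 * (161865 / I.w) * (I.w * K') := by ring
      _ = _ := by rw [← hK]; ring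
  · simp only [Function.iterate_one, Phi]
    rw [step y y' s hs I hI h]

theorem Go.exit (y : ℤ) (s K u s' : ℕ) (c : ℤ) (hs : s < 13)
    (hI : del s (y % 161865).toNat = ⟨u, 1, c, s'⟩) : Go 1 s y K s' (u * y + c) (K * u) :=
  Go.one y _ s K _ hs _ hI (by simp) (by simp)

theorem Go.loop (p u s : ℕ) (hs : s < 13) (hp : p ∣ 161865)
    (hdel : ∀ ρ, ρ % p = 0 → del s ρ = ⟨u, p, 0, s⟩) (e : ℕ) :
    ∀ (z : ℤ) (K : ℕ), Go e s (p ^ e * z) (p ^ e * K) s (u ^ e * z) (u ^ e * K) := by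
  induction e with
  | zero => intro z K; simpa using Go.refl s z K
  | succ e ih =>
    intro z K
    have h0 : (((p : ℤ) ^ (e + 1) * z) % 161865).toNat % p = 0 := by
      have h1 : (p : ℤ) ∣ ((p : ℤ) ^ (e + 1) * z) % 161865 :=
        (EuclideanDomain.dvd_mod_iff (by exact_mod_cast hp)).2 (Dvd.dvd.mul_right (dvd_pow_self _ (by omega)) _)
      have h2 : 0 ≤ ((p : ℤ) ^ (e + 1) * z) % 161865 := Int.emod_nonneg _ (by norm_num)
      rw [← Int.toNat_of_nonneg h2] at h1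
      exact Nat.mod_eq_zero_of_dvd (Int.natCast_dvd_natCast.1 h1)
    have h1 := Go.one ((p : ℤ) ^ (e + 1) * z) (p ^ e * (u * z)) s (p ^ (e + 1) * K)
      (p ^ e * (u * K)) hs _ (hdel _ h0) (by simp only; ring) (by simp only; ring)
    have h2 := h1.trans (ih (u * z) (u * K))
    rw [add_comm 1 e] at h2
    convert h2 using 1 <;> ring

end Pool.Agent.Lib.MP_39d40e_nt.Inf
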