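import Pool.Agent.Lib.MP_39d40e_nt.InfC

/-! Simulation of the counter machine. -/

namespace Pool.Agent.Lib.MP_39d40e_nt.Inf

theorem pw27 (i : ℕ) : ∃ t : ℤ, (109 : ℤ) ^ 3 ^ i = 1 + 3 ^ (i + 3) * (4 + 27 * t) := by
  induction i with
  | zero => exact ⟨0, by norm_num⟩
  | succ i ih =>
    obtain ⟨t, ht⟩ := ih
    refine ⟨t + 3 ^ i * (4 + 27 * t) ^ 2 + 3 ^ (2 * i + 2) * (4 + 27 * t) ^ 3, ?_⟩
    rw [pow_succ 3 i, pow_mul, ht]; ring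

theorem pw55 (i : ℕ) : ∃ t : ℤ, (109 : ℤ) ^ 3 ^ i = -1 + 55 * t := by
  induction i with
  | zero => exact ⟨2, by norm_num⟩
  | succ i ih =>
    obtain ⟨t, ht⟩ := ih
    refine ⟨3 * t - 3 * 55 * t ^ 2 + 55 ^ 2 * t ^ 3, ?_⟩
    rw [pow_succ 3 i, pow_mul, ht]; ring

theorem p55 (e : ℕ) : ∃ t : ℤ, (55 : ℤ) ^ e = 1 + 27 * t := by
  induction e with
  | zero => exact ⟨0, by norm_num⟩
  | succ e ih =>
    obtain ⟨t, ht⟩ := ih
    exact ⟨2 + 55 * t, by rw [pow_succ, ht]; ring⟩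

theorem res_ne (p : ℕ) (y : ℤ) (hp : p ∣ 161865) (h : ¬ (p : ℤ) ∣ y) :
    (y % 161865).toNat % p ≠ 0 := by
  intro h0
  apply h
  have h1 := Int.natCast_dvd_natCast.2 (Nat.dvd_of_mod_eq_zero h0)
  rw [Int.toNat_of_nonneg (Int.emod_nonneg _ (by norm_num))] at h1
  exact (EuclideanDomain.dvd_mod_iff (by exact_mod_cast hp)).1 h1

theorem probe (e : ℕ) (z : ℤ) (K f nx : ℕ) (hf13 : f < 13)
    (hf : ∀ ρ : ℕ, (ρ : ℤ) % 27 = z % 27 → del 1 ρ = ⟨1, 1, 0, f⟩)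
    (hloop : ∀ ρ, ρ % 55 = 0 → del f ρ = ⟨3, 55, 0, f⟩)
    (hex : ∀ ρ, ρ % 55 ≠ 0 → del f ρ = ⟨1, 1, -1, nx⟩) (h55 : ¬ (55 : ℤ) ∣ 3 ^ e * z) :
    Go (2 * e + 2) 1 (3 ^ e * z) (3 ^ e * K) nx (3 ^ e * z - 1) (3 ^ e * K) := by
  have h1 := Go.loop 3 55 1 (by norm_num) (by norm_num) (fun ρ h => by simp [del, lp, h]) e z K
  have h2 := Go.exit ((55 : ℕ) ^ e * z) 1 (55 ^ e * K) 1 f 0 (by norm_num) (hf _ (by
    obtain ⟨t, ht⟩ := p55 e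
    have : ((55 : ℕ) : ℤ) ^ e * z = z + 27 * (t * z) := by push_cast; rw [ht]; ring
    rw [this]; omega))
  simp only [Nat.cast_one, one_mul, add_zero, mul_one] at h2
  have h3 := Go.loop 55 3 f hf13 (by norm_num) hloop e z K
  have h4 := Go.exit ((3 : ℕ) ^ e * z) f (3 ^ e * K) 1 nx (-1) hf13
    (hex _ (res_ne 55 _ (by norm_num) h55))
  have h5 := ((h1.trans h2).trans h3).trans h4
  convert h5 using 1 <;> ring

theorem not109 (k : ℕ) (w : ℤ) (h : ¬ (109 : ℤ) ∣ w) : ¬ (109 : ℤ) ∣ 55 ^ k * w := fun h1 =>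
  h ((IsCoprime.pow_right (⟨-1, 2, by norm_num⟩ : IsCoprime (109 : ℤ) 55)).dvd_of_dvd_mul_left h1)

theorem not55 (k : ℕ) (w : ℤ) (h : ¬ (55 : ℤ) ∣ w) : ¬ (55 : ℤ) ∣ 109 ^ k * w := fun h1 =>
  h ((IsCoprime.pow_right (⟨2, -1, by norm_num⟩ : IsCoprime (55 : ℤ) 109)).dvd_of_dvd_mul_left h1)

theorem triple (s t k K : ℕ) (w : ℤ) (hs : s < 13) (ht : t < 13)
    (h1 : ∀ ρ, ρ % 109 = 0 → del s ρ = ⟨55, 109, 0, s⟩)
    (h2 : ∀ ρ, ρ % 109 ≠ 0 → del s ρ = ⟨1, 1, 0, t⟩)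
    (h3 : ∀ ρ, ρ % 55 = 0 → del t ρ = ⟨1295029, 55, 0, t⟩) (hw : ¬ (109 : ℤ) ∣ w) :
    Go (2 * k + 1) s (109 ^ k * w) (109 ^ k * K) t (109 ^ (k * 3) * w) (109 ^ (k * 3) * K) := by
  have g1 := Go.loop 109 55 s hs (by norm_num) h1 k w K
  have g2 := Go.exit ((55 : ℕ) ^ k * w) s (55 ^ k * K) 1 t 0 hs
    (h2 _ (res_ne 109 _ (by norm_num) (not109 k w hw)))
  simp only [Nat.cast_one, one_mul, add_zero, mul_one] at g2
  have g3 := Go.loop 55 1295029 t ht (by norm_num) h3 k w K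
  have g4 := (g1.trans g2).trans g3
  convert g4 using 1
  · ring
  · rfl
  · rw [mul_comm k 3, pow_mul]; norm_num
  · rw [mul_comm k 3, pow_mul]; norm_num

theorem strip (s t k K : ℕ) (w c : ℤ) (hs : s < 13)
    (h1 : ∀ ρ, ρ % 109 = 0 → del s ρ = ⟨1, 109, 0, s⟩)
    (h2 : ∀ ρ, ρ % 109 ≠ 0 → del s ρ = ⟨1, 1, c, t⟩) (hw : ¬ (109 : ℤ) ∣ w) :
    Go (k + 1) s (109 ^ k * w) (109 ^ k * K) t (w + c) K := by
  have g1 := Go.loop 109 1 s hs (by norm_num) h1 k w K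
  simp only [Nat.cast_one, one_pow, one_mul] at g1
  have g2 := Go.exit w s K 1 t c hs (h2 _ (res_ne 109 _ (by norm_num) hw))
  simp only [Nat.cast_one, one_mul, mul_one] at g2
  exact g1.trans g2

/-- at most `B` steps -/
def Gob (B s : ℕ) (y : ℤ) (K s' : ℕ) (y' : ℤ) (K' : ℕ) : Prop := ∃ n ≤ B, Go n s y K s' y' K'

theorem Gob.trans {n m s s' s'' K K' K'' : ℕ} {y y' y'' : ℤ} (h1 : Gob n s y K s' y' K')
    (h2 : Gob m s' y' K' s'' y'' K'') {B : ℕ} (hB : n + m ≤ B) : Gob B s y K s'' y'' K'' := by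
  obtain ⟨a, ha, g1⟩ := h1
  obtain ⟨b, hb, g2⟩ := h2
  exact ⟨a + b, by omega, g1.trans g2⟩

theorem lin_le (j : ℕ) : 2 * j + 1 ≤ 3 ^ j := by
  induction j with
  | zero => simp
  | succ j ih => rw [pow_succ]; omega

theorem inner (j K : ℕ) (w β γ : ℤ) (hw : w = -1 + 3 ^ (j + 4) * β) (h55 : w = -3 + 55 * γ)
    (h109 : ¬ (109 : ℤ) ∣ w) (hK : 3 ^ (j + 3) ∣ K) :
    Gob (12 * 3 ^ j) 1 (109 ^ 3 ^ j * w + 1) (109 ^ 3 ^ j * K) 1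
      (109 ^ 3 ^ (j + 1) * w + 1) (109 ^ 3 ^ (j + 1) * K) := by
  obtain ⟨t, ht⟩ := pw27 j
  obtain ⟨t', ht'⟩ := pw55 j
  obtain ⟨K0, rfl⟩ := hK
  set z : ℤ := -4 - 27 * t + 3 * (β * (1 + 3 ^ (j + 3) * (4 + 27 * t))) with hz
  have e1 : (109 : ℤ) ^ 3 ^ j * w + 1 = 3 ^ (j + 3) * z := by rw [ht, hw, hz]; ring
  have e2 : ¬ (55 : ℤ) ∣ 3 ^ (j + 3) * z := by
    have : (109 : ℤ) ^ 3 ^ j * w + 1 = 4 + 55 * (-γ - 3 * t' + 55 * (t' * γ)) := by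
      rw [ht', h55]; ring
    rw [← e1, this]; omega
  have g1 := probe (j + 3) z (109 ^ 3 ^ j * K0) 2 5 (by norm_num)
    (fun ρ h => by
      have h1 : ρ % 3 = 2 := by omega
      simp [del, lp, h1])
    (fun ρ h => by simp [del, lp, h]) (fun ρ h => by simp [del, lp, h]) e2
  rw [← e1, add_sub_cancel_right, mul_left_comm] at g1
  have g2 := triple 5 6 (3 ^ j) (3 ^ (j + 3) * K0) w (by norm_num) (by norm_num)
    (fun ρ h => by simp [del, lp, h]) (fun ρ h => by simp [del, lp, h])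
    (fun ρ h => by simp [del, lp, h]) h109
  have g3 := Go.exit (109 ^ (3 ^ j * 3) * w) 6 (109 ^ (3 ^ j * 3) * (3 ^ (j + 3) * K0)) 1 1 1
    (by norm_num) (by
      have := res_ne 55 _ (by norm_num) (not55 (3 ^ j * 3) w (by omega))
      simp [del, lp, this])
  simp only [Nat.cast_one, one_mul, mul_one] at g3
  refine ⟨_, ?_, (g1.trans g2).trans g3⟩
  have := lin_le j
  omega

theorem head (i v : ℕ) (c e g : ℤ) (hc : c = 1 + 3 ^ (2 * i + 7) * e) (hg : c = 1 + 5995 * g)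
    (hv : 2 * i + 6 ≤ v) (j : ℕ) (hj : j ≤ i) :
    Gob (6 * 3 ^ j) 10 (109 ^ 3 ^ i * c) (109 ^ 3 ^ i * 3 ^ v) 1
      (109 ^ 3 ^ j * (109 ^ 3 ^ i * c - 2) + 1) (109 ^ 3 ^ j * (109 ^ 3 ^ i * 3 ^ v)) := by
  induction j with
  | zero =>
    have g := Go.exit (109 ^ 3 ^ i * c) 10 (109 ^ 3 ^ i * 3 ^ v) 109 1 (-217) (by norm_num) (by
      have := res_ne 55 _ (by norm_num) (not55 (3 ^ i) c (by omega))
      simp [del, lp, this])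
    refine ⟨1, by norm_num, ?_⟩
    convert g using 1 <;> ring
  | succ j ih =>
    obtain ⟨t, ht⟩ := pw27 i
    obtain ⟨t', ht'⟩ := pw55 i
    obtain ⟨l, rfl⟩ : ∃ l, i = j + 1 + l := ⟨i - (j + 1), by omega⟩
    refine (ih (by omega)).trans (inner j _ _
      (3 ^ l * (4 + 27 * t) + 3 ^ (j + 2 * l + 5) * e * (1 + 3 ^ (j + 1 + l + 3) * (4 + 27 * t)))
      (t' - 109 * g + 5995 * (t' * g)) ?_ ?_ ?_ ?_) ?_
    · rw [ht, hc]; ring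
    · rw [ht', hg]; ring
    · have : (109 : ℤ) ∣ 109 ^ 3 ^ (j + 1 + l) * c :=
        Dvd.dvd.mul_right (dvd_pow_self _ (by positivity)) _
      omega
    · exact Dvd.dvd.mul_left (pow_dvd_pow _ (by omega)) _
    · rw [pow_succ]; omega

theorem top (i v : ℕ) (c e g : ℤ) (hc : c = 1 + 3 ^ (2 * i + 7) * e) (hg : c = 1 + 5995 * g)
    (hv : 2 * i + 6 ≤ v) (f nx nn : ℕ) (hf13 : f < 13) (hnx : nx < 13)
    (hf : ∀ ρ : ℕ, (ρ : ℤ) % 27 = (16 + 3 * e) % 27 → del 1 ρ = ⟨1, 1, 0, f⟩)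
    (hloop : ∀ ρ, ρ % 55 = 0 → del f ρ = ⟨3, 55, 0, f⟩)
    (hex : ∀ ρ, ρ % 55 ≠ 0 → del f ρ = ⟨1, 1, -1, nx⟩)
    (h1 : ∀ ρ, ρ % 109 = 0 → del nx ρ = ⟨1, 109, 0, nx⟩)
    (h2 : ∀ ρ, ρ % 109 ≠ 0 → del nx ρ = ⟨1, 1, 2, nn⟩) :
    Gob (7 * 3 ^ i + 4 * i + 15) 10 (109 ^ 3 ^ i * c) (109 ^ 3 ^ i * 3 ^ v) nn
      (109 ^ 3 ^ i * c) (109 ^ 3 ^ i * 3 ^ v) := by
  have g0 := head i v c e g hc hg hv i le_rfl
  obtain ⟨t, ht⟩ := pw27 i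
  obtain ⟨t', ht'⟩ := pw55 i
  obtain ⟨l, rfl⟩ : ∃ l, v = 2 * i + 6 + l := ⟨v - (2 * i + 6), by omega⟩
  set q : ℤ := 8 * t + 27 * t ^ 2 +
    e * (6 * (3 ^ i * (4 + 27 * t)) + 81 * (3 ^ i * (4 + 27 * t)) ^ 2) with hq
  have e1 : (109 : ℤ) ^ 3 ^ i * (109 ^ 3 ^ i * c - 2) + 1 =
      3 ^ (2 * i + 6) * (16 + 3 * e + 27 * q) := by rw [ht, hc, hq]; ring
  have e2 : ¬ (55 : ℤ) ∣ 3 ^ (2 * i + 6) * (16 + 3 * e + 27 * q) := by
    have : (109 : ℤ) ^ 3 ^ i * (109 ^ 3 ^ i * c - 2) + 1 =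
        4 + 55 * (-4 * t' + 55 * t' ^ 2 + 109 * (g * (-1 + 55 * t') ^ 2)) := by
      rw [ht', hg]; ring
    rw [← e1, this]; omega
  have g1 := probe (2 * i + 6) (16 + 3 * e + 27 * q) (109 ^ 3 ^ i * (109 ^ 3 ^ i * 3 ^ l)) f nx hf13
    (fun ρ h => hf ρ (by omega)) hloop hex e2
  have e3 : 3 ^ (2 * i + 6) * (109 ^ 3 ^ i * (109 ^ 3 ^ i * 3 ^ l)) =
      109 ^ 3 ^ i * (109 ^ 3 ^ i * 3 ^ (2 * i + 6 + l)) := by ring
  rw [← e1, add_sub_cancel_right, e3] at g1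
  have g2 := strip nx nn (3 ^ i) (109 ^ 3 ^ i * 3 ^ (2 * i + 6 + l)) (109 ^ 3 ^ i * c - 2) 2 hnx
    h1 h2 (by
      have : (109 : ℤ) ∣ 109 ^ 3 ^ i * c := Dvd.dvd.mul_right (dvd_pow_self _ (by positivity)) _
      omega)
  rw [sub_add_cancel] at g2
  exact g0.trans ⟨_, le_rfl, g1.trans g2⟩ (by omega)

theorem pass (i v : ℕ) (c e g : ℤ) (hc : c = 1 + 3 ^ (2 * (i + 1) + 7) * e)
    (hg : c = 1 + 5995 * g) (hv : 2 * i + 6 ≤ v) :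
    Gob (26 * 3 ^ i) 10 (109 ^ 3 ^ i * c) (109 ^ 3 ^ i * 3 ^ v) 10
      (109 ^ 3 ^ (i + 1) * c) (109 ^ 3 ^ (i + 1) * 3 ^ v) := by
  have g0 := top i v c (9 * e) g (by rw [hc]; ring) hg hv 3 7 9 (by norm_num) (by norm_num)
    (fun ρ h => by
      have h1 : ρ % 3 = 1 := by omega
      have h2 : ρ % 27 = 16 := by omega
      simp [del, lp, h1, h2])
    (fun ρ h => by simp [del, lp, h]) (fun ρ h => by simp [del, lp, h])
    (fun ρ h => by simp [del, lp, h]) (fun ρ h => by simp [del, lp, h])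
  have g1 := triple 9 10 (3 ^ i) (3 ^ v) c (by norm_num) (by norm_num)
    (fun ρ h => by simp [del, lp, h]) (fun ρ h => by simp [del, lp, h])
    (fun ρ h => by simp [del, lp, h]) (by omega)
  refine g0.trans ⟨_, le_rfl, g1⟩ ?_
  have := lin_le i
  omega

theorem fail (i v : ℕ) (c e g w : ℤ) (hc : c = 1 + 3 ^ (2 * i + 7) * e) (he : ¬ 9 ∣ e)
    (hg : c = 1 + 5995 * g) (hv : 2 * i + 6 ≤ v) (hv' : v ≤ 2 * i + 8) (hw : c = 1 + 3 ^ v * w) :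
    Gob (32 * 3 ^ i) 10 (109 ^ 3 ^ i * c) (109 ^ 3 ^ i * 3 ^ v) 12 w 1 := by
  have g0 := top i v c e g hc hg hv 4 8 11 (by norm_num) (by norm_num)
    (fun ρ h => by
      have h1 : ρ % 3 = 1 := by omega
      have h2 : ρ % 27 ≠ 16 := by omega
      simp [del, lp, h1, h2])
    (fun ρ h => by simp [del, lp, h]) (fun ρ h => by simp [del, lp, h])
    (fun ρ h => by simp [del, lp, h]) (fun ρ h => by simp [del, lp, h])
  have g1 := strip 11 12 (3 ^ i) (3 ^ v) c (-1) (by norm_num)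
    (fun ρ h => by simp [del, lp, h]) (fun ρ h => by simp [del, lp, h]) (by omega)
  have g2 := Go.loop 3 1 12 (by norm_num) (by norm_num) (fun ρ h => by simp [del, lp, h]) v w 1
  simp only [Nat.cast_one, one_pow, mul_one, one_mul] at g2
  have e1 : c + -1 = ((3 : ℕ) : ℤ) ^ v * w := by rw [hw]; push_cast; ring
  rw [e1] at g1
  refine g0.trans ⟨_, le_rfl, g1.trans g2⟩ ?_
  have := lin_le i
  omega

theorem reach (v : ℕ) (c1 : ℤ) (i : ℕ) (hv : 2 * i + 3 ≤ v) (h : (9 : ℤ) ^ i ∣ c1) :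
    Gob (13 * 3 ^ i) 0 (161865 * c1) (3 ^ v) 10 (109 ^ 3 ^ i * (1 + 81 * (161865 * c1)))
      (109 ^ 3 ^ i * 3 ^ (v + 4)) := by
  induction i with
  | zero =>
    have g := Go.exit (161865 * c1) 0 (3 ^ v) 8829 10 109 (by norm_num) (by simp [del])
    refine ⟨1, by norm_num, ?_⟩
    convert g using 1 <;> ring
  | succ i ih =>
    obtain ⟨e, he⟩ := h
    refine (ih (by omega) ⟨9 * e, by rw [he]; ring⟩).trans
      (pass i (v + 4) _ (5995 * e) (2187 * c1) ?_ (by ring) (by omega)) (by rw [pow_succ]; omega)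
    rw [he, show (9 : ℤ) = 3 ^ 2 by norm_num, ← pow_mul]; ring

/-- the orbit of `0` is unbounded -/
theorem zero_orbit (i : ℕ) : ∃ n, (TT dd rr aa)^[n] 0 = 13 * 109 ^ 3 ^ i + 10 := by
  obtain ⟨n, -, g⟩ := reach (2 * i + 3) 0 i le_rfl (dvd_zero _)
  obtain ⟨k, -, e⟩ := g 1 (one_dvd _)
  refine ⟨n, ?_⟩
  have := congrArg Prod.fst e
  rw [Function.Semiconj.iterate_right (f := Prod.fst) (ga := Phi dd rr aa) (gb := TT dd rr aa)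
    (fun _ => rfl) n] at this
  simpa using this

/-- every other start comes back -/
theorem excursion (c1 : ℤ) (h : c1 ≠ 0) : ∃ (i n : ℕ) (w : ℤ), n ≤ 45 * 3 ^ i ∧ (9 : ℤ) ^ i ∣ c1 ∧
    ¬ 3 ∣ w ∧ |w| < |161865 * c1| ∧
    (Phi dd rr aa)^[n] (13 * (161865 * c1), 1) = (13 * w + 12, 1) := by
  obtain ⟨v, w, hw, rfl⟩ := WfDvdMonoid.max_power_factor h Int.prime_three.irreducible
  have h9 : (9 : ℤ) ^ (v / 2) * (3 ^ (v % 2) * w) = 3 ^ v * w := by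
    rw [show (9 : ℤ) = 3 ^ 2 by norm_num, ← pow_mul, ← mul_assoc, ← pow_add, Nat.div_add_mod]
  have g1 := reach (v + 3) (3 ^ v * w) (v / 2) (by omega) ⟨_, h9.symm⟩
  have g2 := fail (v / 2) (v + 3 + 4) (1 + 81 * (161865 * (3 ^ v * w))) (5995 * (3 ^ (v % 2) * w))
    (2187 * (3 ^ v * w)) (5995 * w)
    (by rw [← h9, show (9 : ℤ) = 3 ^ 2 by norm_num, ← pow_mul]; ring)
    (by rcases Nat.mod_two_eq_zero_or_one v with h0 | h0 <;> rw [h0] <;> omega)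
    (by ring) (by omega) (by omega) (by ring)
  obtain ⟨n, hn, g⟩ := g1.trans g2 (B := 45 * 3 ^ (v / 2)) (by omega)
  obtain ⟨k, hk, e⟩ := g 1 (one_dvd _)
  rw [Nat.dvd_one.1 hk] at e
  refine ⟨v / 2, n, 5995 * w, hn, ⟨_, h9.symm⟩, by omega, ?_, by simpa using e⟩
  have h1 : (1 : ℤ) ≤ 3 ^ v := one_le_pow₀ (by norm_num)
  have h2 : 0 < |w| := abs_pos.2 (fun h0 => hw (by simp [h0]))
  rw [abs_mul, abs_mul, abs_mul, abs_of_pos (by positivity : (0 : ℤ) < 3 ^ v)]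
  norm_num
  nlinarith

end Pool.Agent.Lib.MP_39d40e_nt.Inf
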