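import Pool.Agent.Lib.MP_39d40e_nt.InfD

/-! Divergence of all integers in the base classes, and the finite mean return time. -/

namespace Pool.Agent.Lib.MP_39d40e_nt.Inf

open scoped ENNReal
open Finset

/-- refresh residues -/
def A0 (i : ZMod dd) : Prop := aa i = 13 ∧ (ins i).s = 0

theorem A0_of (y : ℤ) (s ρ : ℕ) (hs : s < 13) (h : del s (y % 161865).toNat = rf ρ) :
    A0 ((13 * y + s : ℤ) : ZMod dd) := by
  unfold A0 aa
  rw [ins_eq y s hs, h]
  simp [rf]

theorem del0 (y : ℤ) (h : ¬ 161865 ∣ y) : del 0 (y % 161865).toNat = rf (y % 161865).toNat := by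
  have : (y % 161865).toNat ≠ 0 := by omega
  simp only [del, this, if_false]

theorem del12 (y : ℤ) (h : ¬ 3 ∣ y) : del 12 (y % 161865).toNat = rf (y % 161865).toNat := by
  have := res_ne 3 y (by norm_num) h
  simp only [del, lp, this, if_false]

theorem refresh (y : ℤ) (s : ℕ) (hs : s < 13) (hy : y ≠ 0)
    (h : del s (y % 161865).toNat = rf (y % 161865).toNat) :
    ∃ y' : ℤ, |y'| < |y| ∧ TT dd rr aa (13 * y + s) = 13 * y' := by
  by_cases h1 : 2 * (y % 161865).toNat ≤ 161865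
  · refine ⟨y / 161865, ?_, ?_⟩
    · rw [abs_lt]; rcases abs_cases y with h2 | h2 <;> constructor <;> omega
    · have := step y (y / 161865) s hs _ h (by simp only [rf, h1, if_true]; omega)
      simpa [rf] using this
  · refine ⟨y / 161865 + 1, ?_, ?_⟩
    · rw [abs_lt]; rcases abs_cases y with h2 | h2 <;> constructor <;> omega
    · have := step y (y / 161865 + 1) s hs _ h (by simp only [rf, h1, if_false]; omega)
      simpa [rf] using this

/-- unbounded orbit -/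
def Unb (f : ℤ → ℤ) (x : ℤ) : Prop := ∀ M : ℤ, ∃ n, M < |f^[n] x|

theorem Unb.back {f : ℤ → ℤ} {x : ℤ} (m : ℕ) (h : Unb f (f^[m] x)) : Unb f x := fun M => by
  obtain ⟨n, hn⟩ := h M
  exact ⟨n + m, by rwa [Function.iterate_add_apply]⟩

theorem Unb.fwd {f : ℤ → ℤ} {x : ℤ} (h : Unb f x) : Unb f (f x) := fun M => by
  obtain ⟨n, hn⟩ := h (max M |x|)
  cases n with
  | zero => exact absurd (lt_of_le_of_lt (le_max_right _ _) hn) (lt_irrefl _)
  | succ n => exact ⟨n, lt_of_le_of_lt (le_max_left _ _) hn⟩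

theorem Unb.inj {f : ℤ → ℤ} {x : ℤ} (h : Unb f x) : Function.Injective fun n => f^[n] x := by
  have key : ∀ m n, m < n → f^[m] x ≠ f^[n] x := by
    intro m n hmn e
    have hb : ∀ t, ∃ t' < n, f^[t] x = f^[t'] x := by
      intro t
      induction t with
      | zero => exact ⟨0, by omega, rfl⟩
      | succ t ih =>
        obtain ⟨t', ht', e'⟩ := ih
        rw [Function.iterate_succ_apply', e', ← Function.iterate_succ_apply' f]
        by_cases h1 : t' + 1 < n
        · exact ⟨t' + 1, h1, rfl⟩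
        · exact ⟨m, hmn, by rw [e]; congr 1; omega⟩
    obtain ⟨t, ht⟩ := h (∑ u ∈ range n, |f^[u] x|)
    obtain ⟨t', ht', e'⟩ := hb t
    rw [e'] at ht
    exact absurd (single_le_sum (f := fun u => |f^[u] x|) (fun _ _ => abs_nonneg _)
      (mem_range.2 ht')) (not_le.2 ht)
  intro m n e
  rcases lt_trichotomy m n with h1 | h1 | h1
  · exact absurd e (key m n h1)
  · exact h1
  · exact absurd e.symm (key n m h1)

theorem Unb.tendsto {f : ℤ → ℤ} {x : ℤ} (h : Unb f x) :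
    Filter.Tendsto (fun n => |f^[n] x|) Filter.atTop Filter.atTop := by
  have h1 := h.inj.tendsto_cofinite
  rw [Nat.cofinite_eq_atTop, Int.cofinite_eq] at h1
  exact (Filter.tendsto_sup.2 ⟨Filter.tendsto_abs_atBot_atTop, Filter.tendsto_abs_atTop_atTop⟩).comp h1

theorem fst_iter (n : ℕ) (z : ℤ × ℕ) : ((Phi dd rr aa)^[n] z).1 = (TT dd rr aa)^[n] z.1 :=
  Function.Semiconj.iterate_right (f := Prod.fst) (ga := Phi dd rr aa) (gb := TT dd rr aa)
    (fun _ => rfl) n z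

theorem base_unb (y : ℤ) : Unb (TT dd rr aa) (13 * y) := by
  induction h : y.natAbs using Nat.strong_induction_on generalizing y with
  | _ N ih =>
    by_cases h0 : y = 0
    · subst h0
      intro M
      obtain ⟨n, hn⟩ := zero_orbit M.toNat
      refine ⟨n, ?_⟩
      rw [mul_zero, hn]
      have h1 := lin_le M.toNat
      have h2 : 3 ^ M.toNat < 109 ^ 3 ^ M.toNat := Nat.lt_pow_self (by norm_num)
      have h3 : ((3 ^ M.toNat : ℕ) : ℤ) < 109 ^ 3 ^ M.toNat := by exact_mod_cast h2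
      rw [abs_of_pos (by positivity)]
      omega
    by_cases h1 : 161865 ∣ y
    · obtain ⟨c1, rfl⟩ := h1
      obtain ⟨i, n, w, -, -, hw, hlt, e⟩ := excursion c1 (by rintro rfl; simp at h0)
      obtain ⟨y', hy', e'⟩ := refresh w 12 (by norm_num) (by rintro rfl; simp at hw) (del12 w hw)
      refine Unb.back (n + 1) ?_
      have e2 := fst_iter n (13 * (161865 * c1), 1)
      rw [e] at e2
      rw [Function.iterate_succ_apply', ← e2]
      simp only [Nat.cast_ofNat] at e'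
      rw [e']
      refine ih y'.natAbs ?_ y' rfl
      rw [← h]
      have := hy'.trans hlt
      rw [Int.abs_eq_natAbs, Int.abs_eq_natAbs] at this
      exact_mod_cast this
    · obtain ⟨y', hy', e'⟩ := refresh y 0 (by norm_num) h0 (del0 y h1)
      refine Unb.back 1 ?_
      simp only [Nat.cast_zero, add_zero] at e'
      rw [Function.iterate_one, e']
      refine ih y'.natAbs ?_ y' rfl
      rw [← h]
      rw [Int.abs_eq_natAbs, Int.abs_eq_natAbs] at hy'
      exact_mod_cast hy'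

theorem sur_pow (n m : ℕ) (h : m = 0 ∨ 15 * 3 ^ m < n) :
    sur (pp dd rr aa) (AtS A0) n (0, 1) ≤ ((9 ^ m : ℕ) : ℝ≥0∞)⁻¹ := by
  refine sur_le_inv rr A0 dd_pos aa_pos n 0 (9 ^ m) (by positivity) fun y hy => ?_
  rcases h with rfl | h
  · simp
  by_cases h0 : y = 0
  · simp [h0]
  obtain ⟨i, t, w, ht, h9, hw, -, e⟩ := excursion y (by exact_mod_cast h0)
  have e1 : (((0 : ℕ) : ℤ) + (dd : ℕ) * (y : ℤ)) = 13 * (161865 * y) := by
    rw [show ((dd : ℕ) : ℤ) = 2104245 from rfl]; ring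
  rw [e1] at hy
  have h1 : n ≤ t := by
    by_contra h2
    apply hy t (by omega)
    rw [e]
    exact ⟨rfl, A0_of w 12 _ (by norm_num) (del12 w hw)⟩
  have h2 : 3 ^ m < 3 ^ (i + 1) := by rw [pow_succ]; omega
  have h3 := (Nat.pow_lt_pow_iff_right (by norm_num)).1 h2
  have h4 : 9 ^ i ∣ y := by exact_mod_cast h9
  exact (pow_dvd_pow 9 (by omega)).trans h4

theorem exists_scale (n : ℕ) : ∃ m, (m = 0 ∨ 15 * 3 ^ m < n) ∧ n ≤ 45 * 3 ^ m := by
  induction n with
  | zero => exact ⟨0, Or.inl rfl, by omega⟩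
  | succ n ih =>
    obtain ⟨m, h1, h2⟩ := ih
    by_cases h : n + 1 ≤ 45 * 3 ^ m
    · exact ⟨m, by omega, h⟩
    · have : 0 < 3 ^ m := by positivity
      exact ⟨m + 1, Or.inr (by rw [pow_succ]; omega), by rw [pow_succ]; omega⟩

theorem sur_sq (n : ℕ) :
    sur (pp dd rr aa) (AtS A0) (n + 1) (0, 1) ≤ ENNReal.ofReal (2025 / ((n : ℝ) + 1) ^ 2) := by
  obtain ⟨m, h1, h2⟩ := exists_scale (n + 1)
  refine (sur_pow _ m h1).trans ?_
  have hp : (0 : ℝ) < (9 ^ m : ℕ) := by positivity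
  rw [← ENNReal.ofReal_natCast, ← ENNReal.ofReal_inv_of_pos hp]
  apply ENNReal.ofReal_le_ofReal
  have h3 : ((n : ℝ) + 1) ≤ 45 * 3 ^ m := by exact_mod_cast h2
  have h4 : ((9 ^ m : ℕ) : ℝ) = 3 ^ m * 3 ^ m := by push_cast; rw [← mul_pow]; norm_num
  rw [inv_eq_one_div, div_le_div_iff₀ hp (by positivity), h4]
  have h5 : (0 : ℝ) ≤ (n : ℝ) + 1 := by positivity
  nlinarith

theorem sum_sq (N : ℕ) : ∑ n ∈ range N, 2025 / ((n : ℝ) + 1) ^ 2 ≤ 4050 - 4050 / ((N : ℝ) + 1) := by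
  induction N with
  | zero => simp
  | succ N ih =>
    rw [sum_range_succ]
    have h : 2025 / ((N : ℝ) + 1) ^ 2 ≤ 4050 / ((N : ℝ) + 1) - 4050 / ((N : ℝ) + 1 + 1) := by
      rw [div_sub_div _ _ (by positivity) (by positivity), div_le_div_iff₀ (by positivity)
        (by positivity)]
      have : (0 : ℝ) ≤ N := by positivity
      nlinarith
    push_cast
    linarith

theorem tsum_sur : ∑' n, sur (pp dd rr aa) (AtS A0) (n + 1) (0, 1) ≤ 4050 := by
  refine ENNReal.tsum_le_of_sum_range_le fun N => ?_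
  refine (sum_le_sum fun n _ => sur_sq n).trans ?_
  rw [← ENNReal.ofReal_sum_of_nonneg (fun _ _ => by positivity)]
  have h := sum_sq N
  have : (0 : ℝ) ≤ 4050 / ((N : ℝ) + 1) := by positivity
  calc _ ≤ ENNReal.ofReal 4050 := ENNReal.ofReal_le_ofReal (by linarith)
    _ = 4050 := by simp

theorem T_state (j : ℕ) : ∃ y : ℤ, TT dd rr aa j = 13 * y + (ins (j : ZMod dd)).s := by
  have e : (j : ℤ) = 13 * (j / 13 : ℕ) + (j % 13 : ℕ) := by omega
  have hs : j % 13 < 13 := Nat.mod_lt _ (by norm_num)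
  have h1 := ins_eq (j / 13 : ℕ) (j % 13) hs
  rw [← e, Int.cast_natCast] at h1
  obtain ⟨hw, hd, -⟩ := ok_del (j % 13) (((j / 13 : ℕ) : ℤ) % 161865).toNat
  rw [← h1, Int.toNat_of_nonneg (Int.emod_nonneg _ (by norm_num))] at hd
  rw [← h1] at hw
  have h2 : ((ins (j : ZMod dd)).w : ℤ) ∣ (ins (j : ZMod dd)).u * (j / 13 : ℕ) +
      (ins (j : ZMod dd)).c := by
    have h3 : ((ins (j : ZMod dd)).w : ℤ) ∣ 161865 := by exact_mod_cast hw
    have h4 := hd.add ((h3.mul_right (((j / 13 : ℕ) : ℤ) / 161865)).mul_left (ins (j : ZMod dd)).u)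
    have h5 := Int.emod_add_mul_ediv ((j / 13 : ℕ) : ℤ) 161865
    have h6 : ((ins (j : ZMod dd)).u : ℤ) * (j / 13 : ℕ) + (ins (j : ZMod dd)).c =
        (ins (j : ZMod dd)).u * (((j / 13 : ℕ) : ℤ) % 161865) + (ins (j : ZMod dd)).c +
        (ins (j : ZMod dd)).u * (161865 * (((j / 13 : ℕ) : ℤ) / 161865)) := by
      linear_combination (-((ins (j : ZMod dd)).u : ℤ)) * h5
    rw [h6]; exact h4
  obtain ⟨y, hy⟩ := h2
  refine ⟨y, ?_⟩
  have := step (j / 13 : ℕ) y (j % 13) hs _ h1.symm hy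
  rwa [← e] at this

theorem pp_atom (s : ℕ × ℕ) (h : AtS A0 s) (t : ℕ × ℕ) : pp dd rr aa s t =
    if t.1 < dd ∧ t.2 = 1 ∧ t.1 % 13 = 0 then (161865 : ℝ≥0∞)⁻¹ else 0 := by
  obtain ⟨j, k⟩ := s
  obtain ⟨h1, h2, h3⟩ := h
  simp only at h1 h2 h3
  subst h1
  obtain ⟨y, hy⟩ := T_state j
  have e1 : nk dd aa 1 j = 1 := by unfold nk; rw [h2]; unfold dd; norm_num
  have e2 : nq dd aa 1 j = 161865 := by unfold nq; rw [h2]; unfold dd; norm_num
  rw [pp_eq rr dd_pos, e1, e2, hy, h2, h3]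
  refine if_congr ?_ (by norm_num) rfl
  unfold Int.ModEq
  constructor
  · rintro ⟨a, b, c⟩
    rw [b] at a
    exact ⟨by omega, b, by omega⟩
  · rintro ⟨a, b, c⟩
    exact ⟨by rw [b]; omega, b, by omega⟩

theorem at_base (ρ : ℕ) (h0 : 0 < ρ) (h1 : ρ < 161865) : AtS A0 (13 * ρ, 1) := by
  refine ⟨rfl, ?_⟩
  have := A0_of ρ 0 _ (by norm_num) (del0 ρ (by omega))
  simpa using this

theorem at13 : AtS A0 (13, 1) := at_base 1 one_pos (by norm_num)

theorem mass_le : ∑' n, ∑' b, pp dd rr aa (13, 1) b * sur (pp dd rr aa) (AtS A0) n b ≤ 2 := by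
  rw [tsum_eq_zero_add' ENNReal.summable]
  have e0 : ∑' b, pp dd rr aa (13, 1) b * sur (pp dd rr aa) (AtS A0) 0 b = 1 := by
    simp only [sur, mul_one]
    exact pp_sum rr dd_pos aa_pos 13 one_pos
  have e1 : ∀ n, ∑' b, pp dd rr aa (13, 1) b * sur (pp dd rr aa) (AtS A0) (n + 1) b =
      (161865 : ℝ≥0∞)⁻¹ * sur (pp dd rr aa) (AtS A0) (n + 1) (0, 1) := by
    intro n
    rw [tsum_eq_single (0, 1), pp_atom _ at13, if_pos ⟨dd_pos, rfl, rfl⟩]
    rintro ⟨j, k⟩ hb
    rw [pp_atom _ at13]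
    split_ifs with h
    · obtain ⟨h1, h2, h3⟩ := h
      simp only at h1 h2 h3
      subst h2
      have hj : j ≠ 0 := fun h => hb (by rw [h])
      have : AtS A0 (j, 1) := by
        have h4 := at_base (j / 13) (by omega) (by unfold dd at h1; omega)
        rwa [show 13 * (j / 13) = j by omega] at h4
      simp [sur, kil, this]
    · simp
  rw [e0, tsum_congr e1, ENNReal.tsum_mul_left]
  have h : (161865 : ℝ≥0∞)⁻¹ * ∑' n, sur (pp dd rr aa) (AtS A0) (n + 1) (0, 1) ≤ 1 :=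
    calc _ ≤ (161865 : ℝ≥0∞)⁻¹ * 161865 := by
          gcongr; exact tsum_sur.trans (by norm_num)
      _ = 1 := ENNReal.inv_mul_cancel (by norm_num) (by norm_num)
  calc _ ≤ (1 : ℝ≥0∞) + 1 := by gcongr
    _ = 2 := by norm_num

end Pool.Agent.Lib.MP_39d40e_nt.Inf
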