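import Pool.Agent.Lib.MP_39d40e_nt.InfE

/-! The stationary law of the class, its growth constant, and divergence on all its classes. -/

namespace Pool.Agent.Lib.MP_39d40e_nt.Inf

open scoped ENNReal
open Finset

theorem P_nonneg' (s t : ℕ × ℕ) : 0 ≤ P dd (fun i => (aa i : ℤ)) rr aa s t := by
  unfold P; split_ifs <;> positivity

theorem pp_ne_iff (s t : ℕ × ℕ) :
    pp dd rr aa s t ≠ 0 ↔ 0 < P dd (fun i => (aa i : ℤ)) rr aa s t := by
  unfold pp; rw [ne_eq, ENNReal.ofReal_eq_zero, not_le]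

theorem pp_stoch (c b : ℕ × ℕ) (h : pp dd rr aa c b ≠ 0) : ∑' t, pp dd rr aa b t = 1 := by
  have h1 := ((pp_ne rr dd_pos c.1 c.2 b).1 h).1
  exact pp_sum rr dd_pos aa_pos b.1 (Nat.pos_of_mul_pos_left (lt_of_le_of_lt (Nat.zero_le _) h1))

/-- what passes along transitions -/
def Nice (s : ℕ × ℕ) : Prop := s.1 < dd * s.2 ∧ (∃ n, s.2 ∣ dd ^ n) ∧
  ∀ x : ℤ, x ≡ s.1 [ZMOD (dd * s.2 : ℕ)] → Unb (TT dd rr aa) x

theorem Nice.step {s t : ℕ × ℕ} (hs : Nice s) (h : pp dd rr aa s t ≠ 0) : Nice t := by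
  obtain ⟨j, k⟩ := s
  obtain ⟨h1, h2, h3⟩ := (pp_ne rr dd_pos j k t).1 h
  obtain ⟨-, ⟨n, hn⟩, hu⟩ := hs
  refine ⟨h1, ⟨n + 4, ?_⟩, fun x hx => ?_⟩
  · rw [h2, pow_add]
    exact (Nat.div_dvd_of_dvd (Nat.gcd_dvd_left _ _)).trans (mul_dvd_mul hn (aa_dvd _))
  · have h4 : ((k * aa j : ℕ) : ℤ) ∣ (dd * t.2 : ℕ) := by
      rw [h2, ← nk_mul dd_pos]; exact_mod_cast Dvd.intro _ rfl
    obtain ⟨u, hu'⟩ := (h3.trans (hx.of_dvd h4).symm).dvd
    have h5 := TT_shift rr (a := aa) dd_pos j u k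
    rw [Int.cast_natCast, ← hu', add_sub_cancel] at h5
    rw [← h5]
    refine (hu _ ?_).fwd
    exact Int.modEq_iff_dvd.2 ⟨-u, by push_cast; ring⟩

theorem base_of {c : ℕ × ℕ} (h : pp dd rr aa (13, 1) c ≠ 0) :
    c.1 < dd ∧ c.2 = 1 ∧ c.1 % 13 = 0 := by
  rw [pp_atom _ at13] at h
  by_contra h1
  exact h (if_neg h1)

theorem nice_base {c : ℕ × ℕ} (h : pp dd rr aa (13, 1) c ≠ 0) : Nice c := by
  obtain ⟨h1, h2, h3⟩ := base_of h
  refine ⟨by rw [h2]; omega, ⟨0, by simp [h2]⟩, fun x hx => ?_⟩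
  rw [h2, mul_one, show ((dd : ℕ) : ℤ) = 2104245 from rfl] at hx
  unfold Int.ModEq at hx
  rw [show x = 13 * (x / 13) by omega]
  exact base_unb _

theorem lam_lt (q : ZMod dd → ℝ) (hq : ∀ i, 0 ≤ q i) (h1 : ∑ i, q i = 1)
    (h2 : 1 / 2 ≤ ∑ i, if aa i = 13 then q i else 0) :
    ∏ i : ZMod dd, |((aa i : ℤ) : ℝ) / dd| ^ q i < 1 := by
  have hd : ((dd : ℕ) : ℝ) = 2104245 := by unfold dd; norm_num
  have hpos : ∀ i, (0 : ℝ) < ((aa i : ℤ) : ℝ) / dd := fun i => by
    have : (0 : ℝ) < aa i := by exact_mod_cast aa_pos i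
    rw [hd, Int.cast_natCast]; exact div_pos this (by norm_num)
  have e : ∀ i, |((aa i : ℤ) : ℝ) / dd| ^ q i = Real.exp (Real.log (((aa i : ℤ) : ℝ) / dd) * q i) :=
    fun i => by rw [abs_of_pos (hpos i), Real.rpow_def_of_pos (hpos i)]
  simp only [e]
  rw [← Real.exp_sum, Real.exp_lt_one_iff]
  have hR : 0 < Real.log 30000 := Real.log_pos (by norm_num)
  have hD : Real.log 30000 < Real.log 161865 := Real.log_lt_log (by norm_num) (by norm_num)
  have hb : ∀ i, Real.log (((aa i : ℤ) : ℝ) / dd) * q i ≤ Real.log 30000 * q i -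
      (Real.log 30000 + Real.log 161865) * (if aa i = 13 then q i else 0) := by
    intro i
    split_ifs with h
    · have : ((aa i : ℤ) : ℝ) / dd = 161865⁻¹ := by rw [h, hd]; norm_num
      rw [this, Real.log_inv]; linarith
    · have h3 : ((aa i : ℤ) : ℝ) / dd ≤ 30000 := by
        have : (aa i : ℝ) ≤ 30000 * dd := by exact_mod_cast aa_le i
        rw [Int.cast_natCast, div_le_iff₀ (by rw [hd]; norm_num)]; exact this
      have := mul_le_mul_of_nonneg_right (Real.log_le_log (hpos i) h3) (hq i)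
      linarith
  have h4 := sum_le_sum (s := univ) fun i _ => hb i
  rw [sum_sub_distrib, ← mul_sum, ← mul_sum, h1] at h4
  nlinarith

theorem orbit_state (C : Set (ℕ × ℕ)) (h0 : (0, 1) ∈ C)
    (hcl : ∀ s ∈ C, ∀ s', 0 < P dd (fun i => (aa i : ℤ)) rr aa s s' → s' ∈ C) (R : ℤ)
    (hR : ∀ i, |rr i| ≤ R) (n : ℕ) :
    ∃ s ∈ C, 0 < s.2 ∧ (TT dd rr aa)^[n] 0 ≡ s.1 [ZMOD (dd * s.2 : ℕ)] ∧
      |(TT dd rr aa)^[n] 0| ≤ s.2 * (R * n) := by
  induction n with
  | zero => exact ⟨(0, 1), h0, one_pos, rfl, by simp⟩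
  | succ n ih =>
    obtain ⟨⟨j, k⟩, hs, hk, hx, hb⟩ := ih
    simp only at hk hx hb
    rw [Function.iterate_succ_apply']
    generalize (TT dd rr aa)^[n] 0 = x at hx hb ⊢
    obtain ⟨z, hz⟩ := hx.symm.dvd
    have ex : x = j + dd * k * z := by push_cast at hz; linear_combination hz
    have hxj : (x : ZMod dd) = (j : ZMod dd) := by rw [ex, cast_shift]; simp
    have hk' := nk_pos dd_pos aa_pos hk (x : ZMod dd)
    have hc := suc_cast rr dd_pos aa_pos x hk 0
    simp only [Nat.cast_zero, mul_zero, add_zero] at hc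
    have hM : (0 : ℤ) < (dd * nk dd aa k x : ℕ) := by exact_mod_cast Nat.mul_pos dd_pos hk'
    have hmod : TT dd rr aa x ≡ (suc rr (a := aa) x k 0).1 [ZMOD (dd * nk dd aa k x : ℕ)] := by
      rw [hc]; exact (Int.mod_modEq _ _).symm
    refine ⟨suc rr (a := aa) x k 0, hcl _ hs _ ((pp_ne_iff _ _).1
      ((pp_ne rr dd_pos j k _).2 ⟨?_, by simp only [suc, hxj], ?_⟩)), hk', hmod, ?_⟩
    · have := Int.emod_lt_of_pos (TT dd rr aa x) hM
      rw [← hc] at this
      exact_mod_cast this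
    · have h4 : ((k * aa j : ℕ) : ℤ) ∣ (dd * nk dd aa k x : ℕ) := by
        rw [hxj, ← nk_mul dd_pos]; exact_mod_cast Dvd.intro _ rfl
      refine Int.ModEq.trans ?_ (hmod.of_dvd h4)
      rw [ex, TT_shift rr dd_pos, Int.cast_natCast]
      exact Int.modEq_iff_dvd.2 ⟨z, by ring⟩
    · have hd : (0 : ℤ) < dd := by exact_mod_cast dd_pos
      have e1 : (dd : ℤ) * TT dd rr aa x = aa x * x - rr x := by
        unfold TT T
        apply Int.mul_ediv_cancel'
        rw [← ZMod.intCast_zmod_eq_zero_iff_dvd]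
        push_cast
        rw [rr_ok]; push_cast; ring
      have e2 : ((k : ℤ) * aa x) ≤ dd * (nk dd aa k x : ℕ) := by
        have h1 := nk_mul (a := aa) dd_pos k (x : ZMod dd)
        have h2 := nq_pos (a := aa) dd_pos k (x : ZMod dd)
        have h3 : k * aa x ≤ dd * nk dd aa k x := by rw [← h1]; exact Nat.le_mul_of_pos_right _ h2
        exact_mod_cast h3
      have hR0 : 0 ≤ R := (abs_nonneg _).trans (hR 0)
      have e3 : (dd : ℤ) * |TT dd rr aa x| ≤ aa x * |x| + R := by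
        calc _ = |(dd : ℤ) * TT dd rr aa x| := by rw [abs_mul, abs_of_pos hd]
          _ ≤ |(aa x : ℤ) * x| + |rr x| := by rw [e1]; exact abs_sub _ _
          _ ≤ _ := by rw [abs_mul, Nat.abs_cast]; linarith [hR x]
      have e4 : (1 : ℤ) ≤ dd * (nk dd aa k x : ℕ) := by exact_mod_cast hM
      refine le_of_mul_le_mul_left ?_ hd
      show _ ≤ (dd : ℤ) * ((nk dd aa k x : ℕ) * (R * (n + 1 : ℕ)))
      have e5 := mul_le_mul_of_nonneg_left hb (Int.natCast_nonneg (aa x))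
      have e6 := mul_le_mul_of_nonneg_right e2 (mul_nonneg hR0 (Int.natCast_nonneg n))
      have e7 := mul_le_mul_of_nonneg_right e4 hR0
      push_cast
      nlinarith

theorem infinite_of (C : Set (ℕ × ℕ)) (h0 : (0, 1) ∈ C)
    (hcl : ∀ s ∈ C, ∀ s', 0 < P dd (fun i => (aa i : ℤ)) rr aa s s' → s' ∈ C) : C.Infinite := by
  intro hfin
  obtain ⟨B, hB⟩ := (hfin.image Prod.snd).bddAbove
  obtain ⟨R, hR⟩ := (Set.finite_range fun i => (rr i).natAbs).bddAbove
  obtain ⟨n, hn, g⟩ := reach (2 * (B * R) + 3) 0 (B * R) le_rfl (dvd_zero _)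
  obtain ⟨k, -, e⟩ := g 1 (one_dvd _)
  have e2 := fst_iter n (13 * (161865 * 0) + (0 : ℕ), 1)
  rw [e] at e2
  obtain ⟨s, hs, -, -, hb⟩ := orbit_state C h0 hcl R
    (fun i => by rw [Int.abs_eq_natAbs]; exact_mod_cast hR ⟨i, rfl⟩) n
  simp only [mul_zero, add_zero, mul_one, Nat.cast_zero, Nat.cast_ofNat] at e2
  rw [← e2, abs_of_pos (by positivity)] at hb
  have h1 : s.2 ≤ B := hB ⟨s, hs, rfl⟩
  have h2 : 13 * 109 ^ 3 ^ (B * R) + 10 ≤ s.2 * (R * n) := by exact_mod_cast hb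
  have h3 : s.2 * (R * n) ≤ B * (R * (13 * 3 ^ (B * R))) := by gcongr
  have h4 := lin_le (B * R)
  generalize 3 ^ (B * R) = m at h2 h3 h4
  have h5 : m < 2 ^ m := Nat.lt_two_pow_self
  have h6 : 2 ^ m * 2 ^ m ≤ 109 ^ m := by rw [← mul_pow]; exact Nat.pow_le_pow_left (by norm_num) _
  have h7 : B * R * m ≤ 2 ^ m * 2 ^ m := Nat.mul_le_mul (by omega) h5.le
  nlinarith

theorem main : ∃ (C : Set (ℕ × ℕ)) (ρ : ℕ × ℕ → ℝ), (0, 1) ∈ C ∧
    (∀ s ∈ C, Nice s ∧ ∃ j < dd, Relation.ReflTransGen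
      (fun t t' => 0 < P dd (fun i => (aa i : ℤ)) rr aa t t') (j, 1) s) ∧
    (∀ s ∈ C, ∀ s', 0 < P dd (fun i => (aa i : ℤ)) rr aa s s' → s' ∈ C) ∧
    (∀ s ∈ C, ∀ s' ∈ C, Relation.ReflTransGen
      (fun t t' => 0 < P dd (fun i => (aa i : ℤ)) rr aa t t') s s') ∧
    (∀ s ∈ C, 0 < ρ s) ∧ (∀ s ∉ C, ρ s = 0) ∧ HasSum ρ 1 ∧
    (∀ s', HasSum (fun s => ρ s * P dd (fun i => (aa i : ℤ)) rr aa s s') (ρ s')) ∧
    ∏ i : ZMod dd, |((aa i : ℤ) : ℝ) / dd| ^
      (∑' s : {s : ℕ × ℕ // s ∈ C ∧ (s.1 : ZMod dd) = i}, ρ s) < 1 := by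
  classical
  have hfin : ∑' n, ∑' b, pp dd rr aa (13, 1) b * sur (pp dd rr aa) (AtS A0) n b ≠ ∞ :=
    ne_top_of_le_ne_top (by norm_num) mass_le
  obtain ⟨σ, hM, hst, hA, hle, hfrom, hto⟩ := exists_stat (pp dd rr aa) (AtS A0) (13, 1) pp_stoch
    (pp_sum rr dd_pos aa_pos 13 one_pos)
    (fun c hc => funext fun t => by rw [pp_atom c hc, pp_atom _ at13]) hfin
  have hM2 : ∑' b, σ b ≤ 2 := hM ▸ mass_le
  have hMt : ∑' b, σ b ≠ ∞ := hM ▸ hfin
  have hM1 : 1 ≤ ∑' b, σ b := by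
    rw [← pp_sum rr dd_pos aa_pos 13 one_pos]; exact ENNReal.tsum_le_tsum hle
  have hσt : ∀ b, σ b ≠ ∞ := ENNReal.ne_top_of_tsum_ne_top hMt
  set M : ℝ := (∑' b, σ b).toReal with hMdef
  have hMpos : 0 < M := ENNReal.toReal_pos (lt_of_lt_of_le zero_lt_one hM1).ne' hMt
  have hMle : M ≤ 2 := by
    have := ENNReal.toReal_mono (by norm_num) hM2
    simpa using this
  have hsum : HasSum (fun b => (σ b).toReal) M := by
    rw [hMdef, ENNReal.tsum_toReal_eq hσt]; exact ENNReal.hasSum_toReal hMt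
  have hrel : (fun s t => pp dd rr aa s t ≠ 0) =
      fun t t' => 0 < P dd (fun i => (aa i : ℤ)) rr aa t t' := by
    funext s t; exact propext (pp_ne_iff s t)
  have hρsum : HasSum (fun b => (σ b).toReal / M) 1 := by
    have := hsum.div_const M
    rwa [div_self hMpos.ne'] at this
  refine ⟨{s | σ s ≠ 0}, fun b => (σ b).toReal / M, ?_, fun s hs => ?_, fun s hs s' h => ?_,
    fun s hs s' hs' => ?_, fun s hs => ?_, fun s hs => ?_, hρsum, fun s' => ?_, ?_⟩
  · intro h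
    have h1 := hle (0, 1)
    rw [h, pp_atom _ at13, if_pos ⟨dd_pos, rfl, rfl⟩] at h1
    simp at h1
  · obtain ⟨c, hc, hp⟩ := hfrom s hs
    refine ⟨?_, c.1, (base_of hc).1, ?_⟩
    · clear hs
      induction hp with
      | refl => exact nice_base hc
      | tail _ h ih => exact ih.step h
    · rw [← (base_of hc).2.1, ← hrel]; exact hp
  · have h1 : σ s * pp dd rr aa s s' ≤ σ s' := by
      rw [← hst s']; exact ENNReal.le_tsum (f := fun c => σ c * pp dd rr aa c s') s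
    intro h0
    rw [h0, nonpos_iff_eq_zero, mul_eq_zero] at h1
    exact h1.elim hs ((pp_ne_iff s s').2 h)
  · obtain ⟨c, hc, hp⟩ := hto s hs
    obtain ⟨c', hc', hp'⟩ := hfrom s' hs'
    rw [← hrel]
    refine hp.trans (Relation.ReflTransGen.head ?_ hp')
    rwa [pp_atom c hc, ← pp_atom _ at13]
  · exact div_pos (ENNReal.toReal_pos hs (hσt s)) hMpos
  · have : σ s = 0 := by simpa using hs
    simp [this]
  · have h1 : ∑' c, σ c * pp dd rr aa c s' ≠ ∞ := by rw [hst]; exact hσt s'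
    have h2 := ENNReal.hasSum_toReal h1
    rw [← ENNReal.tsum_toReal_eq (ENNReal.ne_top_of_tsum_ne_top h1), hst] at h2
    have e : (fun c => (σ c).toReal / M * P dd (fun i => (aa i : ℤ)) rr aa c s') =
        fun c => (σ c * pp dd rr aa c s').toReal / M := by
      funext c
      rw [ENNReal.toReal_mul, pp, ENNReal.toReal_ofReal (P_nonneg' c s')]; ring
    rw [e]; exact h2.div_const M
  · set ρ : ℕ × ℕ → ℝ := fun b => (σ b).toReal / M with hρ
    have hρ0 : ∀ b, 0 ≤ ρ b := fun b => div_nonneg ENNReal.toReal_nonneg hMpos.le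
    have hq : ∀ i : ZMod dd, (∑' s : {s : ℕ × ℕ // s ∈ {s | σ s ≠ 0} ∧ (s.1 : ZMod dd) = i}, ρ s) =
        ∑' s : ℕ × ℕ, if (s.1 : ZMod dd) = i then ρ s else 0 := by
      intro i
      refine (tsum_subtype {s : ℕ × ℕ | s ∈ {s | σ s ≠ 0} ∧ (s.1 : ZMod dd) = i} ρ).trans
        (tsum_congr fun s => ?_)
      by_cases h : (s.1 : ZMod dd) = i <;> by_cases h0 : σ s = 0 <;>
        simp [Set.indicator, h, h0, hρ]
    have hs : ∀ (Q : ℕ × ℕ → Prop) [DecidablePred Q],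
        Summable fun s : ℕ × ℕ => if Q s then ρ s else 0 := by
      intro Q _
      refine Summable.of_nonneg_of_le (fun s => ?_) (fun s => ?_) hρsum.summable
      · split_ifs; exacts [hρ0 s, le_rfl]
      · split_ifs; exacts [le_rfl, hρ0 s]
    simp only [hq]
    apply lam_lt
    · intro i
      exact tsum_nonneg fun s => by split_ifs; exacts [hρ0 s, le_rfl]
    · rw [← Summable.tsum_finsetSum fun i _ => hs _, ← hρsum.tsum_eq]
      exact tsum_congr fun s => by simp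
    · have e1 : ∀ i : ZMod dd, (if aa i = 13 then
          ∑' s : ℕ × ℕ, (if (s.1 : ZMod dd) = i then ρ s else 0) else 0) =
          ∑' s : ℕ × ℕ, if (s.1 : ZMod dd) = i ∧ aa i = 13 then ρ s else 0 := by
        intro i
        by_cases h : aa i = 13 <;> simp [h]
      simp only [e1]
      rw [← Summable.tsum_finsetSum fun i _ => hs _]
      have e2 : HasSum (fun s => if AtS A0 s then ρ s else 0) (1 / M) := by
        have h1 : ∑' c, (if AtS A0 c then σ c else 0) ≠ ∞ := by rw [hA]; norm_num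
        have h2 := ENNReal.hasSum_toReal h1
        rw [← ENNReal.tsum_toReal_eq (ENNReal.ne_top_of_tsum_ne_top h1), hA] at h2
        have e : (fun s => if AtS A0 s then ρ s else 0) =
            fun c => (if AtS A0 c then σ c else 0).toReal / M := by
          funext c
          split_ifs <;> simp [hρ]
        rw [e]; exact h2.div_const M
      have e3 : ∀ s : ℕ × ℕ, (∑ i : ZMod dd, if (s.1 : ZMod dd) = i ∧ aa i = 13 then ρ s else 0) =
          if aa s.1 = 13 then ρ s else 0 := by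
        intro s
        rw [sum_eq_single (s.1 : ZMod dd)]
        · simp
        · intro i _ hi; simp [hi.symm]
        · simp
      simp only [e3]
      calc (1 : ℝ) / 2 ≤ 1 / M := one_div_le_one_div_of_le hMpos hMle
        _ ≤ _ := by
          refine hasSum_le (fun s => ?_) e2 (hs _).hasSum
          by_cases h : AtS A0 s
          · rw [if_pos h, if_pos h.2.1]
          · rw [if_neg h]; split_ifs; exacts [hρ0 s, le_rfl]

end Pool.Agent.Lib.MP_39d40e_nt.Inf
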