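import Pool.Agent.Lib.MP_39d40e_nt.Four

namespace Pool.Agent.Lib.MP_39d40e_nt

open Finset ZMod

theorem sum_range_zmod {Q : ℕ} [NeZero Q] (F : ZMod Q → ℝ) (r : ℕ) :
    ∑ z ∈ range (Q * r), F (z : ZMod Q) = r * ∑ ζ, F ζ := by
  induction r with
  | zero => simp
  | succ r ih =>
    rw [mul_add, mul_one, Finset.sum_range_add, ih]
    have : ∑ x ∈ range Q, F ((Q * r + x : ℕ) : ZMod Q) = ∑ ζ, F ζ := by
      refine Finset.sum_bij' (fun z _ => (z : ZMod Q)) (fun ζ _ => ζ.val) (fun _ _ => mem_univ _)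
        (fun ζ _ => mem_range.2 (ZMod.val_lt ζ)) (fun z hz => ZMod.val_cast_of_lt (mem_range.1 hz))
        (fun ζ _ => ZMod.natCast_zmod_val ζ) fun z _ => by simp
    rw [this]; push_cast; ring

namespace Sys

variable {S E : Type*} [Fintype S] [Fintype E] [DecidableEq S] [DecidableEq E] {X : Sys S E}
  {Q : ℕ}

variable (X) in
/-- the pulled-back weight as a function on the integers -/
noncomputable def HZ (g : ℤ → ℝ) (l : List E) (z : ℤ) : ℝ :=
  if X.bP l ∣ X.DP l * z - X.cP l then |(X.bP l : ℝ)| * g ((X.DP l * z - X.cP l) / X.bP l) else 0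

variable (X) in
/-- the pulled-back weight as a function on residues -/
noncomputable def HQ (g : ℤ → ℝ) (l : List E) (ζ : ZMod Q) : ℝ :=
  |(X.bP l : ℝ)| * ∑ x ∈ range X.B0, if X.act l (x : ZMod Q) + X.off Q l = ζ then g x else 0

omit [DecidableEq E] in
theorem cop_Q (l : List E) : X.d.Coprime ((X.bP l).natAbs * X.B0) := by
  refine Nat.Coprime.mul_right ?_ (Nat.isCoprime_iff_coprime.1 X.B0_cop).symm
  have := Int.isCoprime_iff_gcd_eq_one.1 (X.bP_cop l)
  exact Nat.Coprime.symm this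

omit [DecidableEq E] in
theorem HZ_eq {g : ℤ → ℝ} (hg : Function.Periodic g (X.B0 : ℤ)) {l : List E}
    (hQ : Q = (X.bP l).natAbs * X.B0) (z : ℤ) : X.HZ g l z = X.HQ g l (z : ZMod Q) := by
  have hc : X.d.Coprime Q := hQ ▸ cop_Q l
  have hB : (0 : ℤ) < X.B0 := by exact_mod_cast X.B0_pos
  have hiff : ∀ x : ℕ, X.act l (x : ZMod Q) + X.off Q l = z ↔
      X.bP l * X.B0 ∣ X.DP l * z - X.cP l - X.bP l * x := by
    intro x
    have h1 := DP_mul_iD hc l
    have h2 : X.bP l * X.B0 ∣ X.DP l * z - X.cP l - X.bP l * x ↔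
        (Q : ℤ) ∣ X.DP l * z - X.cP l - X.bP l * x := by
      rw [← Int.natAbs_dvd, Int.natAbs_mul, Int.natAbs_natCast, hQ]
    rw [h2, ← ZMod.intCast_zmod_eq_zero_iff_dvd]
    push_cast
    simp only [act, off]
    constructor
    · intro h; linear_combination (-(X.DP l : ZMod Q)) * h + (X.bP l * x + X.cP l) * h1
    · intro h; linear_combination (-X.iD Q l) * h + (z : ZMod Q) * h1
  simp only [HZ, HQ, hiff]
  split_ifs with h
  · obtain ⟨y, hy⟩ := h
    rw [hy, Int.mul_ediv_cancel_left _ (X.bP_ne l)]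
    congr 1
    have h3 : ((y % X.B0).toNat : ℤ) = y % X.B0 := Int.toNat_of_nonneg (Int.emod_nonneg _ hB.ne')
    rw [Finset.sum_eq_single (y % X.B0).toNat]
    · rw [if_pos, h3, Int.emod_def, mul_comm]
      · exact (hg.sub_int_mul_eq (y / X.B0)).symm
      rw [h3, ← mul_sub]
      exact mul_dvd_mul_left _ ⟨y / X.B0, by rw [Int.emod_def]; ring⟩
    · intro x hx hne
      rw [if_neg]
      intro hd
      rw [← mul_sub] at hd
      have h4 := Int.dvd_of_mul_dvd_mul_left (X.bP_ne l) hd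
      have h5 : y % X.B0 = x := by
        rw [Int.emod_eq_emod_iff_emod_sub_eq_zero.2 (Int.emod_eq_zero_of_dvd h4)]
        exact Int.emod_eq_of_lt (Nat.cast_nonneg x) (by exact_mod_cast mem_range.1 hx)
      exact hne (by rw [h5]; simp)
    · intro hx
      exact absurd (mem_range.2 (by
        have := Int.emod_lt_of_pos y hB
        omega)) hx
  · rw [Finset.sum_eq_zero, mul_zero]
    intro x _
    rw [if_neg]
    intro hd
    have := (dvd_mul_right _ _).trans hd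
    exact h (by simpa using dvd_add this (dvd_mul_right (X.bP l) x))

omit [DecidableEq E] in
theorem sum_abs_HZ_le {g : ℤ → ℝ} (hg : Function.Periodic g (X.B0 : ℤ)) (hg1 : ∀ x, |g x| ≤ 1)
    (l : List E) :
    ∑ z ∈ range (X.B0 ^ (l.length + 1)), |X.HZ g l z| ≤ (X.B0 : ℝ) ^ (l.length + 1) := by
  set Q := (X.bP l).natAbs * X.B0 with hQ
  have : NeZero Q := ⟨mul_ne_zero (Int.natAbs_ne_zero.2 (X.bP_ne l)) X.B0_pos.ne'⟩
  obtain ⟨r, hr⟩ : Q ∣ X.B0 ^ (l.length + 1) := by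
    rw [pow_succ]
    exact Nat.mul_dvd_mul_right (by exact_mod_cast Int.natAbs_dvd.2 (X.bP_dvd l)) _
  have h1 : ∑ ζ : ZMod Q, |X.HQ g l ζ| ≤ Q := by
    calc _ ≤ ∑ ζ : ZMod Q, |(X.bP l : ℝ)| * ∑ x ∈ range X.B0,
          if X.act l (x : ZMod Q) + X.off Q l = ζ then 1 else 0 := by
          refine Finset.sum_le_sum fun ζ _ => ?_
          rw [HQ, abs_mul, abs_abs]
          refine mul_le_mul_of_nonneg_left ((Finset.abs_sum_le_sum_abs _ _).trans
            (Finset.sum_le_sum fun x _ => ?_)) (abs_nonneg _)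
          split_ifs
          · exact hg1 _
          · simp
      _ = Q := by rw [← Finset.mul_sum, Finset.sum_comm]; simp [hQ]
  simp only [HZ_eq hg hQ, Int.cast_natCast]
  rw [← Nat.cast_pow, hr, sum_range_zmod fun ζ => |X.HQ g l ζ|]
  push_cast
  rw [mul_comm]
  exact mul_le_mul_of_nonneg_right h1 (Nat.cast_nonneg _)

theorem key_bound [NeZero Q] (hc : X.d.Coprime Q) {M M₁ : ℤ} {D₁ : ℕ} (hQ : Q = M.natAbs * X.B0)
    {g : S → ℤ → ℕ → ℤ → ℝ} (hg0 : ∀ t M D, ∑ x ∈ range X.B0, g t M D x = 0)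
    (hg1 : ∀ t M D x, |g t M D x| ≤ 1) {k n : ℕ} {s t : S} (C : List E → Prop)
    {inst : ∀ l, Decidable (C (l.take k) ∧ X.bP l = M)} {W ε : ℝ} (hW : 1 ≤ W) (hε : 0 ≤ ε)
    (hC : ∀ o ∈ X.Paths k s, C o → X.bP o = M₁ ∧ X.DP o = D₁ ∧ X.endp s o = t ∧
      2 * |X.cP o| < Q ∧ Q * X.wt o ≤ W) {Z : ℤ} (hZ : Z * M₁ ∣ M) (hM : M ≠ 0)
    (hΦ : ∀ (a : ZMod Q) (G : S → ℤ → ℕ → ℂ), (∀ t M D, ‖G t M D‖ ≤ 1) →
      (∀ t M D, G t M D ≠ 0 → (X.B0 : ZMod Q) * (M : ℤ) * a = 0) → (Z : ZMod Q) * a ≠ 0 →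
      ‖X.Phi n t a G‖ ≤ ε) :
    ∑ ζ : ZMod Q, |X.Ex (k + n) s fun l => if C (l.take k) ∧ X.bP l = M then
      X.HQ (g (X.endp s l) (X.bP l) (X.DP l)) l ζ else 0| ≤ Q * ε * W := by
  classical
  set T : ZMod Q → ℝ := fun ζ => X.Ex (k + n) s fun l => if C (l.take k) ∧ X.bP l = M then
      X.HQ (g (X.endp s l) (X.bP l) (X.DP l)) l ζ else 0 with hT
  set O := (X.Paths k s).filter C with hO
  have hQ0 : (0 : ℝ) < Q := by exact_mod_cast Nat.pos_of_ne_zero (NeZero.ne Q)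
  have hB0 : (0 : ℝ) < X.B0 := by exact_mod_cast X.B0_pos
  set G : ZMod Q → S → ℤ → ℕ → ℂ := fun a t' M' D' => if M₁ * M' = M then
    (X.B0 : ℂ)⁻¹ * ∑ x ∈ range X.B0, (g t' M (D₁ * D') x : ℂ) *
      stdAddChar ((M' : ZMod Q) * (D' : ZMod Q)⁻¹ * a * (x : ZMod Q)) else 0 with hG
  have hG1 : ∀ a t' M' D', ‖G a t' M' D'‖ ≤ 1 := by
    intro a t' M' D'
    simp only [hG]
    split_ifs
    · rw [norm_mul, norm_inv, Complex.norm_natCast, inv_mul_le_iff₀ hB0, mul_one]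
      refine (norm_sum_le _ _).trans ?_
      refine (Finset.sum_le_sum fun x _ => (?_ : _ ≤ (1 : ℝ))).trans (by simp)
      rw [norm_mul, norm_psi, mul_one, Complex.norm_real]; exact hg1 _ _ _ _
    · simp
  have hQz : (X.B0 : ZMod Q) * (M : ℤ) = 0 := by
    have : ((X.B0 * M : ℤ) : ZMod Q) = 0 := by
      rw [ZMod.intCast_zmod_eq_zero_iff_dvd, hQ, Int.natCast_dvd, Int.natAbs_mul, mul_comm]; simp
    exact_mod_cast this
  have hhat : ∀ ξ : ZMod Q, ∑ ζ, (T ζ : ℂ) * stdAddChar (ξ * ζ) =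
      Q * ((∑ o ∈ O, (X.wt o : ℂ) * stdAddChar (ξ * X.off Q o)) *
        X.Phi n t ((M₁ : ZMod Q) * (D₁ : ZMod Q)⁻¹ * ξ) (G ((M₁ : ZMod Q) * (D₁ : ZMod Q)⁻¹ * ξ))) := by
    intro ξ
    simp only [hT, Ex, Complex.ofReal_sum, Finset.sum_mul]
    rw [Finset.sum_comm, sum_Paths_add, hO, Finset.sum_filter, Finset.mul_sum]
    refine Finset.sum_congr rfl fun o ho => ?_
    have hlen := X.length_of_mem_Paths ho
    simp only [List.take_left' hlen]
    split_ifs with hCo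
    · obtain ⟨h1, h2, h3, -, -⟩ := hC o ho hCo
      rw [Phi, Finset.mul_sum, Finset.mul_sum, h3]
      refine Finset.sum_congr rfl fun i _ => ?_
      have ha : (M₁ : ZMod Q) * (D₁ : ZMod Q)⁻¹ * ξ = X.act o ξ := by rw [act, iD, h1, h2]
      simp only [hCo, true_and, hG, bP_append, h1, DP_append, h2, endp_append, h3, ha]
      split_ifs with hM'
      · simp only [HQ, bP_append, h1, hM', wt_append]
        push_cast
        simp only [Finset.mul_sum, Finset.sum_mul]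
        rw [Finset.sum_comm]
        refine Finset.sum_congr rfl fun x _ => ?_
        rw [Finset.sum_eq_single (X.act (o ++ i) (x : ZMod Q) + X.off Q (o ++ i))
          (fun ζ _ hne => by rw [if_neg hne.symm]; simp) (fun h => absurd (mem_univ _) h),
          if_pos rfl, off_append hc, mul_add, mul_add, mul_act, mul_act, act_append hc,
          AddChar.map_add_eq_mul, AddChar.map_add_eq_mul]
        have h4 : ((|(M : ℝ)| : ℝ) : ℂ) = Q * (X.B0 : ℂ)⁻¹ := by
          have : (X.B0 : ℂ) ≠ 0 := by exact_mod_cast X.B0_pos.ne'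
          have h5 : |(M : ℝ)| = (M.natAbs : ℝ) := by simp
          rw [hQ, h5, Nat.cast_mul, Complex.ofReal_natCast]; field_simp
        rw [h4]
        simp only [act, iD]
        ring
      · simp
    · simp [hCo]
  have hbd : ∀ ξ : ZMod Q,
      ‖X.Phi n t ((M₁ : ZMod Q) * (D₁ : ZMod Q)⁻¹ * ξ) (G ((M₁ : ZMod Q) * (D₁ : ZMod Q)⁻¹ * ξ))‖ ≤ ε := by
    intro ξ
    by_cases h0 : (Z : ZMod Q) * ((M₁ : ZMod Q) * (D₁ : ZMod Q)⁻¹ * ξ) = 0
    · have : G ((M₁ : ZMod Q) * (D₁ : ZMod Q)⁻¹ * ξ) = 0 := by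
        funext t' M' D'
        simp only [hG, Pi.zero_apply]
        split_ifs with hM'
        · have hM₁ : M₁ ≠ 0 := by rintro rfl; exact hM (by simpa using hM'.symm)
          obtain ⟨u, hu⟩ : Z ∣ M' := by
            rw [← hM', mul_comm Z] at hZ
            exact Int.dvd_of_mul_dvd_mul_left hM₁ hZ
          have h1 : (M' : ZMod Q) * (D' : ZMod Q)⁻¹ * ((M₁ : ZMod Q) * (D₁ : ZMod Q)⁻¹ * ξ) = 0 := by
            rw [hu]; push_cast; linear_combination (u * (D' : ZMod Q)⁻¹) * h0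
          simp only [h1, zero_mul, AddChar.map_zero_eq_one, mul_one]
          rw [← Complex.ofReal_sum, hg0]; simp
        · rfl
      rw [this]; simpa [Phi] using hε
    · refine hΦ _ _ (hG1 _) (fun t' M' D' hne => ?_) h0
      have hM' : M₁ * M' = M := by
        by_contra hn; exact hne (by simp only [hG]; rw [if_neg hn])
      rw [← hM'] at hQz
      push_cast at hQz
      linear_combination ((D₁ : ZMod Q)⁻¹ * ξ) * hQz
  have hinj : Set.InjOn (X.off Q) O := by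
    intro o ho o' ho' h
    obtain ⟨ho, hCo⟩ := mem_filter.1 ho
    obtain ⟨ho', hCo'⟩ := mem_filter.1 ho'
    obtain ⟨h1, h2, h3, h4, -⟩ := hC o ho hCo
    obtain ⟨h1', h2', h3', h4', -⟩ := hC o' ho' hCo'
    refine X.path_eq_of_cP ho ho' (h3.trans h3'.symm) (h1.trans h1'.symm) (h2.trans h2'.symm) ?_
    have h5 : (Q : ℤ) ∣ X.cP o - X.cP o' := by
      rw [← ZMod.intCast_zmod_eq_zero_iff_dvd]
      have h6 := DP_mul_iD hc o
      have h7 : X.iD Q o' = X.iD Q o := by rw [iD, iD, h2, h2']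
      simp only [off, h7] at h
      push_cast
      linear_combination (X.DP o : ZMod Q) * h - (X.cP o - X.cP o' : ZMod Q) * h6
    refine sub_eq_zero.1 (Int.eq_zero_of_abs_lt_dvd h5 ?_)
    linarith [abs_sub (X.cP o) (X.cP o')]
  have hO2 : (Q : ℝ) * ∑ o ∈ O, ‖(X.wt o : ℂ)‖ ^ 2 ≤ W := by
    rw [Finset.mul_sum]
    calc _ ≤ ∑ o ∈ O, X.wt o * W := by
          refine Finset.sum_le_sum fun o ho => ?_
          obtain ⟨ho, hCo⟩ := mem_filter.1 ho
          rw [Complex.norm_real, Real.norm_of_nonneg (X.wt_pos o).le, sq, mul_left_comm]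
          exact mul_le_mul_of_nonneg_left (hC o ho hCo).2.2.2.2 (X.wt_pos o).le
      _ ≤ ∑ o ∈ X.Paths k s, X.wt o * W :=
          Finset.sum_le_sum_of_subset_of_nonneg (filter_subset _ _) fun o _ _ =>
            mul_nonneg (X.wt_pos o).le (by linarith)
      _ = W := X.Ex_const k s W
  have hP1 := parseval (univ : Finset (ZMod Q)) id (Set.injOn_id _) fun ζ => (T ζ : ℂ)
  have hP2 := parseval O (X.off Q) hinj fun o => (X.wt o : ℂ)
  simp only [id, hhat, Complex.norm_real, Real.norm_eq_abs] at hP1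
  have h1 : (Q : ℝ) * ∑ ζ, |T ζ| ^ 2 ≤ (Q * ε) ^ 2 * W := by
    rw [← hP1]
    refine le_trans ?_ (mul_le_mul_of_nonneg_left (hP2.le.trans hO2) (sq_nonneg _))
    rw [Finset.mul_sum]
    refine Finset.sum_le_sum fun ξ _ => ?_
    rw [← mul_pow]
    refine pow_le_pow_left₀ (norm_nonneg _) ?_ 2
    rw [norm_mul, norm_mul, Complex.norm_natCast, mul_assoc (Q : ℝ), mul_comm ε]
    exact mul_le_mul_of_nonneg_left (mul_le_mul_of_nonneg_left (hbd ξ) (norm_nonneg _)) hQ0.le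
  have h2 := sq_sum_le_card_mul_sum_sq (s := (univ : Finset (ZMod Q))) (f := fun ζ => |T ζ|)
  rw [card_univ, ZMod.card] at h2
  refine le_of_sq_le_sq ((h2.trans h1).trans ?_) (by positivity)
  rw [mul_pow (Q * ε)]
  exact mul_le_mul_of_nonneg_left (by nlinarith) (sq_nonneg _)

end Sys

end Pool.Agent.Lib.MP_39d40e_nt
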