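import Pool.Agent.Lib.MP_39d40e_nt.Scales

/-! From logarithmic windows to natural density. -/

namespace Pool.Agent.Lib.MP_39d40e_nt

open Finset

namespace Sys

variable {S E : Type*} [Fintype S] [Fintype E] [DecidableEq S] [DecidableEq E] {X : Sys S E}

omit [DecidableEq E] in
theorem SW_join (y : ℝ) {g : S → ℤ → ℝ} (hg : ∀ s z, 0 ≤ g s z) {a b c : ℝ} (h1 : a ≤ b)
    (h2 : b ≤ c) : X.SW y g a b + X.SW y g b c ≤ X.SW y g a c := by
  classical
  unfold SW
  rw [← sum_add_distrib]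
  refine sum_le_sum fun s _ => ?_
  rw [← mul_add]
  refine mul_le_mul_of_nonneg_left ?_ (X.π_pos s).le
  rw [← sum_union]
  · refine sum_le_sum_of_subset_of_nonneg (fun z hz => ?_)
      fun z _ _ => X.term_nonneg y s z (hg s z)
    rw [mem_union, mem_win, mem_win] at hz
    rw [mem_win]
    rcases hz with hz | hz
    · exact ⟨hz.1, hz.2.trans_le h2⟩
    · exact ⟨h1.trans hz.1, hz.2⟩
  · rw [disjoint_left]
    intro z hz hz'
    rw [mem_win] at hz hz'
    linarith [hz.2, hz'.1]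

theorem SL_join (y : ℝ) (m : ℕ) (t : ℝ) (K : ℕ) :
    ∑ k ∈ range K, X.SL y m (t + k) 1 ≤ X.SL y m t K := by
  induction K with
  | zero => rw [range_zero, sum_empty]; exact X.SW_nonneg y (X.rho_nonneg m) _ _
  | succ K ih =>
    rw [sum_range_succ]
    have := SW_join (X := X) y (X.rho_nonneg m) (a := Real.exp t) (b := Real.exp (t + K))
      (c := Real.exp (t + K + 1)) (Real.exp_le_exp.2 (by simp)) (Real.exp_le_exp.2 (by simp))
    unfold SL at ih ⊢
    push_cast; rw [← add_assoc]; linarith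

open Classical in
noncomputable def gk (x : ℝ) (M : ℤ) (D : ℕ) : ℝ :=
  if x ≤ |(M : ℝ)| / D ∧ |(M : ℝ)| / D ≤ 32 * x then 1 else 0

theorem gk_nonneg (x M D) : 0 ≤ gk x M D := by unfold gk; split_ifs <;> norm_num
theorem gk_le (x M D) : gk x M D ≤ 1 := by unfold gk; split_ifs <;> norm_num

theorem cover (F : ℤ → ℝ) (hF : ∀ z, 0 ≤ F z) (t Y : ℝ) (hY : 0 < Y) (K : ℕ) (M : ℤ) (D : ℕ)
    (h1 : Real.exp t ≤ |(M : ℝ)| / D * Y / 2)
    (h2 : 2 * (|(M : ℝ)| / D) * (2 * Y) ≤ Real.exp (t + K)) :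
    ∑ z ∈ win (|(M : ℝ)| / D * Y / 2) (2 * (|(M : ℝ)| / D) * (2 * Y)), F z
      ≤ ∑ k ∈ range K, ∑ z ∈ win (Real.exp (t + k)) (Real.exp (t + k + 1)),
        F z * gk (Real.exp (t + k) / (4 * Y)) M D := by
  classical
  set r := |(M : ℝ)| / D with hr
  calc _ ≤ ∑ z ∈ win (r * Y / 2) (2 * r * (2 * Y)), ∑ k ∈ range K,
        (if z ∈ win (Real.exp (t + k)) (Real.exp (t + k + 1)) then
          F z * gk (Real.exp (t + k) / (4 * Y)) M D else 0) := by
        refine sum_le_sum fun z hz => ?_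
        rw [mem_win] at hz
        have z0 : 0 < |(z : ℝ)| := lt_of_lt_of_le (Real.exp_pos t) (h1.trans hz.1)
        have z1 : t ≤ Real.log |(z : ℝ)| := (Real.le_log_iff_exp_le z0).2 (h1.trans hz.1)
        have z2 : Real.log |(z : ℝ)| < t + K := (Real.log_lt_iff_lt_exp z0).2 (hz.2.trans_le h2)
        set k := ⌊Real.log |(z : ℝ)| - t⌋₊ with hk
        have k1 : (k : ℝ) ≤ Real.log |(z : ℝ)| - t := Nat.floor_le (by linarith)
        have k2 : Real.log |(z : ℝ)| - t < k + 1 := Nat.lt_floor_add_one _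
        have k3 : k ∈ range K := by
          rw [mem_range]
          have : (k : ℝ) < K := by linarith
          exact_mod_cast this
        have k4 : Real.exp (t + k) ≤ |(z : ℝ)| := (Real.le_log_iff_exp_le z0).1 (by linarith)
        have k5 : |(z : ℝ)| < Real.exp (t + k + 1) := (Real.log_lt_iff_lt_exp z0).1 (by linarith)
        refine le_trans (le_of_eq ?_) (single_le_sum (f := fun k : ℕ =>
          if z ∈ win (Real.exp (t + k)) (Real.exp (t + k + 1)) then
            F z * gk (Real.exp (t + k) / (4 * Y)) M D else 0) (fun i _ => ?_) k3)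
        · rw [if_pos (mem_win.2 ⟨k4, k5⟩), gk, if_pos, mul_one]
          rw [← hr]
          constructor
          · rw [div_le_iff₀ (by positivity)]; linarith [hz.2]
          · rw [← mul_div_assoc, le_div_iff₀ (by positivity)]
            rw [Real.exp_add] at k5
            have := Real.exp_one_lt_d9
            have := Real.exp_pos (t + k)
            nlinarith [hz.1]
        · split_ifs
          · exact mul_nonneg (hF z) (gk_nonneg _ _ _)
          · exact le_rfl
    _ ≤ _ := by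
        rw [sum_comm]
        refine sum_le_sum fun k _ => ?_
        rw [← sum_filter]
        refine sum_le_sum_of_subset_of_nonneg (fun z hz => (mem_filter.1 hz).2) fun z _ _ =>
          mul_nonneg (hF z) (gk_nonneg _ _ _)

namespace Par

variable (P : X.Par)

theorem W_sum (m : ℕ) (x : ℝ) (hx : 0 < x) (s : S) (z : ℤ) :
    ∑ r ∈ range m, X.W m r (gk x) s z ≤ P.C * X.rho m s z := by
  classical
  unfold W rho
  rw [sum_Ex, ← Ex_const_mul]
  refine X.Ex_mono fun o _ => ?_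
  have e : ∀ r, (X.pull o z fun _ => X.Ex r (X.endp s o) fun i =>
      gk x (X.bP o * X.bP i) (X.DP o * X.DP i)) = (X.pull o z fun _ => 1) *
      X.Pr r (X.endp s o) (fun l => x / X.rr o ≤ X.rr l ∧ X.rr l ≤ 32 * (x / X.rr o)) := by
    intro r
    rw [pull_const]; congr 1
    unfold Pr
    refine X.Ex_congr fun i _ => ?_
    have hr := X.rr_pos o
    have e1 : |((X.bP o * X.bP i : ℤ) : ℝ)| / ((X.DP o * X.DP i : ℕ) : ℝ) = X.rr o * X.rr i := by
      rw [← rr_append, rr, bP_append, DP_append]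
    have h' : (x ≤ X.rr o * X.rr i ∧ X.rr o * X.rr i ≤ 32 * x) ↔
        (x / X.rr o ≤ X.rr i ∧ X.rr i ≤ 32 * (x / X.rr o)) := by
      rw [div_le_iff₀ hr, ← mul_div_assoc, le_div_iff₀ hr, mul_comm (X.rr i)]
    rw [gk, e1]
    split_ifs with p1 p2 p2
    · rfl
    · exact absurd (h'.1 p1) p2
    · exact absurd (h'.2 p2) p1
    · rfl
  simp only [e]
  rw [← mul_sum, mul_comm]
  exact mul_le_mul_of_nonneg_right (P.hren m _ _ (div_pos hx (X.rr_pos o)))
    (X.pull_nonneg o z fun _ => zero_le_one)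

theorem nat1 (y : ℝ) {v : ℝ} (hv : P.V ≤ v) {r : ℕ} (hr : r < P.mm v) :
    X.SW y (X.rho 0) (Real.exp (3 * v ^ 3 / 2)) (2 * Real.exp (3 * v ^ 3 / 2))
      ≤ 2 * ((∑ k ∈ range ⌈v ^ 3⌉₊, (X.SW y (X.W (P.mm v) r
          (gk (Real.exp (v ^ 3 + k) / (4 * Real.exp (3 * v ^ 3 / 2)))))
          (Real.exp (v ^ 3 + k)) (Real.exp (v ^ 3 + k + 1)) + 4 * P.C / (P.mm v : ℝ) ^ 2))
        + 8 * (P.C / v)) := by
  classical
  have h1 := P.v8 hv
  have hm := P.mm_le hv
  have hm3 := P.mm_ge' hv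
  have hc := P.c0_pos
  have hC := P.C_ge
  have hβ := P.β_pos
  have v3 : 0 < v ^ 3 := by positivity
  have v23 : 8 * v ^ 2 ≤ v ^ 3 := by nlinarith [sq_nonneg v]
  have v2 : 64 ≤ v ^ 2 := by nlinarith
  set m := P.mm v
  set Y := Real.exp (3 * v ^ 3 / 2) with hY
  have Y0 : 0 < Y := Real.exp_pos _
  have hr' : (r : ℝ) ≤ m := by exact_mod_cast hr.le
  have hn : ((m + r : ℕ) : ℝ) ≤ 2 * P.c0 * v ^ 3 := by push_cast; linarith
  have ha : Real.exp (v ^ 3) ≤ Y := Real.exp_le_exp.2 (by linarith)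
  have key := X.push2 y 0 (m + r) Y (2 * Y) (1 / v) (P.C / v)
    (fun l => |Real.log (X.rr l) + (m + r : ℕ) * P.β| < v ^ 2) Y0 (by linarith) (by positivity)
    (by rw [div_le_div_iff₀ (by linarith) (by norm_num)]; linarith) (P.cond1 hv hn ha)
    (P.cond2 hv hn hn ha) (P.htail v (by linarith) _ hn)
  refine key.trans (mul_le_mul ?_ (add_le_add ?_ ?_) ?_ (by norm_num))
  · have : 1 / v ≤ 1 := by rw [div_le_one (by linarith)]; linarith
    linarith
  · have step : ∀ k ∈ range ⌈v ^ 3⌉₊,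
        X.SW y (X.W (m + r) 0 (gk (Real.exp (v ^ 3 + k) / (4 * Y))))
          (Real.exp (v ^ 3 + k)) (Real.exp (v ^ 3 + k + 1))
        ≤ X.SW y (X.W m r (gk (Real.exp (v ^ 3 + k) / (4 * Y))))
          (Real.exp (v ^ 3 + k)) (Real.exp (v ^ 3 + k + 1)) + 4 * P.C / (m : ℝ) ^ 2 := by
      intro k _
      set G := gk (Real.exp (v ^ 3 + k) / (4 * Y))
      refine (X.SW_swap y _ (X.W m r G) (fun s z => |X.W (m + r) 0 G s z - X.W m r G s z|)
        (fun s z => by linarith [le_abs_self (X.W (m + r) 0 G s z - X.W m r G s z)]) _ _).trans ?_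
      refine add_le_add_right ((X.SW_le y _ (X.B0 ^ (m + r)) (pow_pos X.B0_pos _) ?_
        (fun _ _ => abs_nonneg _) _ (P.hmix r m (P.mm_one hv) G (gk_nonneg _) (gk_le _)) _ _ ?_
        (Real.exp_le_exp.2 (by linarith))).trans ?_) _
      · intro s z
        rw [X.W_per, per_of_dvd (X.W m r G s) _ _ (X.W_per m r G s)
          (pow_dvd_pow _ (Nat.le_add_right m r))]
      · push_cast
        exact P.powB hv hn (by have : (0 : ℝ) ≤ k := Nat.cast_nonneg _; linarith)
      · rw [← Real.exp_sub, Real.log_exp, add_sub_cancel_left]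
        have m0 : (0 : ℝ) < m := by linarith
        calc 2 * (r * P.C / (m : ℝ) ^ 3) * (1 + 1) ≤ 2 * (m * P.C / (m : ℝ) ^ 3) * (1 + 1) := by
              gcongr
          _ = _ := by field_simp; ring
    refine le_trans ?_ (sum_le_sum step)
    unfold SW
    rw [sum_comm]
    refine sum_le_sum fun s _ => ?_
    rw [← mul_sum]
    refine mul_le_mul_of_nonneg_left ?_ (X.π_pos s).le
    have e : ∀ (k : ℕ) (z : ℤ), X.ind y s z * X.W (m + r) 0
        (gk (Real.exp (v ^ 3 + k) / (4 * Y))) s z / |(z : ℝ)|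
        = X.Ex (m + r) s fun l => X.ind y s z * X.pull l z (fun _ => 1) / |(z : ℝ)| *
          gk (Real.exp (v ^ 3 + k) / (4 * Y)) (X.bP l) (X.DP l) := by
      intro k z
      rw [W_zero, ← Ex_const_mul, div_eq_mul_inv, ← Ex_mul_const]
      refine X.Ex_congr fun l _ => ?_
      rw [pull_const]; ring
    simp only [e, sum_Ex]
    refine X.Ex_mono fun l _ => ?_
    have hn' : ∀ z : ℤ, 0 ≤ X.ind y s z * X.pull l z (fun _ => 1) / |(z : ℝ)| :=
      fun z => X.term_nonneg y s z (X.pull_nonneg l z fun _ => zero_le_one)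
    split_ifs with ht
    · have e0 : X.rho 0 (X.endp s l) = fun _ => 1 := funext fun z => X.rho_zero _ z
      rw [e0]
      rw [abs_lt] at ht
      have hr0 := X.rr_pos l
      have nβ0 : 0 ≤ ((m + r : ℕ) : ℝ) * P.β := by positivity
      have nβ1 : ((m + r : ℕ) : ℝ) * P.β ≤ v ^ 3 / 4 := by
        have := P.c0β
        calc _ ≤ 2 * P.c0 * v ^ 3 * P.β := by gcongr
          _ = 2 * v ^ 3 * (P.c0 * P.β) := by ring
          _ ≤ 2 * v ^ 3 * (1 / 8) := by gcongr
          _ = _ := by ring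
      have k1 : Real.exp (-(v ^ 3 / 4) - v ^ 2) ≤ X.rr l := by
        rw [← Real.exp_log hr0]; exact Real.exp_le_exp.2 (by linarith)
      have k2 : X.rr l ≤ Real.exp (v ^ 2) := by
        rw [← Real.exp_log hr0]; exact Real.exp_le_exp.2 (by linarith)
      refine cover _ hn' (v ^ 3) Y Y0 _ (X.bP l) (X.DP l) ?_ ?_
      · change _ ≤ X.rr l * Y / 2
        have e1 : Real.exp (-(v ^ 3 / 4) - v ^ 2) * Y
            = Real.exp (v ^ 3 / 4 - v ^ 2) * Real.exp (v ^ 3) := by
          rw [hY, ← Real.exp_add, ← Real.exp_add]; congr 1; ring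
        have e2 := Real.add_one_le_exp (v ^ 3 / 4 - v ^ 2)
        have e3 := Real.exp_pos (v ^ 3)
        have e4 := mul_le_mul_of_nonneg_right k1 Y0.le
        nlinarith
      · change 2 * X.rr l * (2 * Y) ≤ _
        have e1 : Real.exp (v ^ 3 / 2 - v ^ 2) * (Real.exp (v ^ 2) * Y)
            = Real.exp (v ^ 3 + v ^ 3) := by
          rw [hY, ← Real.exp_add, ← Real.exp_add]; congr 1; ring
        have e2 := Real.add_one_le_exp (v ^ 3 / 2 - v ^ 2)
        have e3 : 0 < Real.exp (v ^ 2) * Y := by positivity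
        have e4 := mul_le_mul_of_nonneg_right k2 Y0.le
        have e5 : Real.exp (v ^ 3 + v ^ 3) ≤ Real.exp (v ^ 3 + ⌈v ^ 3⌉₊) :=
          Real.exp_le_exp.2 (by linarith [Nat.le_ceil (v ^ 3)])
        nlinarith
    · exact sum_nonneg fun k _ => sum_nonneg fun z _ => mul_nonneg (hn' z) (gk_nonneg _ _ _)
  · refine mul_le_mul_of_nonneg_right ?_ (by positivity)
    have e : 4 * (2 * Y) / Y = 2 ^ 3 := by field_simp; norm_num
    rw [e, Real.log_pow]
    have := Real.log_two_lt_d9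
    push_cast; linarith
  · refine add_nonneg (sum_nonneg fun s _ => mul_nonneg (X.π_pos s).le (X.Ex_nonneg fun l _ => ?_))
      (mul_nonneg ?_ (by positivity))
    · split_ifs
      · exact sum_nonneg fun z _ => X.term_nonneg y s z (X.pull_nonneg l z (X.rho_nonneg _ _))
      · exact le_rfl
    · have : 0 ≤ Real.log (4 * (2 * Y) / Y) :=
        Real.log_nonneg (by rw [le_div_iff₀ Y0]; linarith)
      linarith

noncomputable def C4 : ℝ := 2 * (4 * P.C * P.C3 / P.c0 + 4 * P.C + 16 * P.C / P.c0 + 8 * P.C)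

theorem C4_nonneg : 0 ≤ P.C4 := by
  have := P.C_ge
  have := P.C3_nonneg
  have := P.c0_pos
  unfold C4; positivity

theorem nat2 (y : ℝ) {v0 : ℝ} (hv0 : P.V ≤ v0) (hy : Real.exp (16 * v0 ^ 3) ≤ y) {v : ℝ}
    (hv' : v0 ≤ v) :
    X.SW y (X.rho 0) (Real.exp (3 * v ^ 3 / 2)) (2 * Real.exp (3 * v ^ 3 / 2)) ≤ P.C4 / v0 := by
  have hv := hv0.trans hv'
  have h0 := P.v8 hv0
  have h1 := P.v8 hv
  have hm := P.mm_le hv
  have hm2 := P.mm_ge hv
  have hm3 := P.mm_ge' hv
  have hc := P.c0_pos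
  have hC := P.C_ge
  have hC3 := P.C3_nonneg
  have v3 : 0 < v ^ 3 := by positivity
  have v23 : 8 * v ^ 2 ≤ v ^ 3 := by nlinarith [sq_nonneg v]
  have v2 : 64 ≤ v ^ 2 := by nlinarith
  have cv : 0 ≤ P.c0 * v ^ 3 := by positivity
  have k1 := sum_le_sum (s := range (P.mm v)) fun r hr => P.nat1 y hv (mem_range.1 hr)
  have k2 := P.allscales' y hv0 hy hv'
  set m := P.mm v
  set Y := Real.exp (3 * v ^ 3 / 2) with hY
  have Y0 : 0 < Y := Real.exp_pos _
  set K := ⌈v ^ 3⌉₊ with hK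
  have K1 : (K : ℝ) < v ^ 3 + 1 := Nat.ceil_lt_add_one v3.le
  have m0 : (0 : ℝ) < m := by linarith
  have mv : v0 ≤ m := by nlinarith
  rw [sum_const, card_range, nsmul_eq_mul, ← mul_sum, sum_add_distrib, sum_comm, sum_const,
    card_range, nsmul_eq_mul] at k1
  have k3 : ∀ k ∈ range K, ∑ r ∈ range m, (X.SW y (X.W m r (gk (Real.exp (v ^ 3 + k) / (4 * Y))))
          (Real.exp (v ^ 3 + k)) (Real.exp (v ^ 3 + k + 1)) + 4 * P.C / (m : ℝ) ^ 2)
      ≤ P.C * X.SL y m (v ^ 3 + k) 1 + 4 * P.C / m := by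
    intro k _
    rw [sum_add_distrib, sum_const, card_range, nsmul_eq_mul]
    refine add_le_add ?_ (le_of_eq (by field_simp))
    unfold SL SW
    rw [sum_comm, mul_sum]
    refine sum_le_sum fun s _ => ?_
    rw [← mul_sum, mul_left_comm]
    refine mul_le_mul_of_nonneg_left ?_ (X.π_pos s).le
    rw [sum_comm, mul_sum]
    refine sum_le_sum fun z _ => ?_
    rw [← sum_div, ← mul_sum, ← mul_div_assoc, mul_left_comm]
    exact div_le_div_of_nonneg_right (mul_le_mul_of_nonneg_left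
      (P.W_sum m _ (by positivity) s z) (X.ind_nonneg y s z)) (abs_nonneg _)
  have k4 := sum_le_sum k3
  rw [sum_add_distrib (f := fun k : ℕ => P.C * X.SL y m (v ^ 3 + k) 1), ← mul_sum, sum_const,
    card_range, nsmul_eq_mul] at k4
  have k5 := SL_join (X := X) y m (v ^ 3) K
  have k6 : X.SL y m (v ^ 3) K ≤ X.SL y m (v ^ 3) (v ^ 3 + 1) :=
    X.SW_mono_win y (X.rho_nonneg _) le_rfl (Real.exp_le_exp.2 (by linarith))
  have k7 := X.SL_split y m (v ^ 3) (v ^ 3) 1
  have k8 := X.SL_le y m (v ^ 3 + v ^ 3) 1 (P.powB hv (by linarith) (by linarith)) zero_le_one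
  have t1 : v ^ 3 ≤ 2 * m / P.c0 := by rw [le_div_iff₀ hc]; linarith
  have b1 : v ^ 3 * (2 * P.C3 / v0) ≤ m * (4 * P.C3 / P.c0 / v0) := by
    calc _ ≤ 2 * m / P.c0 * (2 * P.C3 / v0) := by gcongr
      _ = _ := by field_simp; ring
  have b2 : (4 : ℝ) ≤ m * (4 / v0) := by
    rw [← mul_div_assoc, le_div_iff₀ (by linarith)]; linarith
  have b3 : K * (4 * P.C / m) ≤ m * (16 * P.C / P.c0 / v0) := by
    calc K * (4 * P.C / m) ≤ (2 * (2 * m / P.c0)) * (4 * P.C / v0) := by gcongr; linarith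
      _ = _ := by field_simp; ring
  have b4 : P.C / v ≤ P.C / v0 := by gcongr
  have b5 : ∑ k ∈ range K, X.SL y m (v ^ 3 + k) 1
      ≤ m * (4 * P.C3 / P.c0 / v0) + m * (4 / v0) := by linarith
  have b6 := mul_le_mul_of_nonneg_left b5 (by linarith : 0 ≤ P.C)
  have b7 := mul_le_mul_of_nonneg_left b4 m0.le
  refine le_of_mul_le_mul_left (k1.trans ?_) m0
  have e : m * (P.C4 / v0) = 2 * (P.C * (m * (4 * P.C3 / P.c0 / v0) + m * (4 / v0))
      + m * (16 * P.C / P.c0 / v0) + 8 * (m * (P.C / v0))) := by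
    unfold C4; field_simp
  rw [e]; nlinarith

open Classical in
theorem piece (y : ℝ) {v0 : ℝ} (hv0 : P.V ≤ v0) (hy : Real.exp (16 * v0 ^ 3) ≤ y) (s : S)
    {Y : ℝ} (hY : 0 < Y) :
    (((win Y (2 * Y)).filter fun u => X.Esc y (s, u)).card : ℝ)
      ≤ 2 * (P.C4 / v0 / X.π s) * Y := by
  have h0 := P.v8 hv0
  have hπ := X.π_pos s
  have hC := P.C4_nonneg
  by_cases h : 2 * Y ≤ y
  · rw [filter_eq_empty_iff.2]
    · simp only [card_empty, Nat.cast_zero]; positivity
    · intro u hu hb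
      have h1 := hb 0
      have h2 := (mem_win.1 hu).2
      simp only [Function.iterate_zero, id] at h1
      linarith
  · have h3 : (8 : ℝ) ^ 3 ≤ v0 ^ 3 := by gcongr
    have h4 : 16 * v0 ^ 3 ≤ Real.log (2 * Y) :=
      (Real.le_log_iff_exp_le (by positivity)).2 (by linarith)
    rw [Real.log_mul (by norm_num) hY.ne'] at h4
    have l2 := Real.log_two_lt_d9
    have h5 : 0 ≤ 2 * Real.log Y / 3 := by linarith
    set v := (2 * Real.log Y / 3) ^ ((3 : ℕ) : ℝ)⁻¹ with hv
    have h6 : v ^ 3 = 2 * Real.log Y / 3 := Real.rpow_inv_natCast_pow h5 (by norm_num)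
    have h7 : v0 ≤ v :=
      le_of_pow_le_pow_left₀ (n := 3) (by norm_num) (Real.rpow_nonneg h5 _) (by linarith)
    have h8 := P.nat2 y hv0 hy h7
    have h9 : Real.exp (3 * v ^ 3 / 2) = Y := by
      rw [h6, ← Real.exp_log hY]; congr 1; rw [Real.log_exp]; ring
    rw [h9] at h8
    have h10 : X.π s * ∑ z ∈ win Y (2 * Y), X.ind y s z * X.rho 0 s z / |(z : ℝ)|
        ≤ X.SW y (X.rho 0) Y (2 * Y) :=
      single_le_sum (f := fun s => X.π s * ∑ z ∈ win Y (2 * Y),
        X.ind y s z * X.rho 0 s z / |(z : ℝ)|) (fun s _ => mul_nonneg (X.π_pos s).le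
        (sum_nonneg fun z _ => X.term_nonneg y s z (X.rho_nonneg _ _ _))) (mem_univ s)
    have h11 : (((win Y (2 * Y)).filter fun u => X.Esc y (s, u)).card : ℝ)
        ≤ 2 * Y * ∑ z ∈ win Y (2 * Y), X.ind y s z * X.rho 0 s z / |(z : ℝ)| := by
      rw [card_filter, mul_sum]; push_cast
      refine sum_le_sum fun z hz => ?_
      rw [mem_win] at hz
      have z0 : 0 < |(z : ℝ)| := by linarith [hz.1]
      rw [rho_zero, mul_one, ind]
      split_ifs
      · rw [← mul_div_assoc, le_div_iff₀ z0]; linarith [hz.2]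
      · simp
    have h12 : ∑ z ∈ win Y (2 * Y), X.ind y s z * X.rho 0 s z / |(z : ℝ)| ≤ P.C4 / v0 / X.π s := by
      rw [le_div_iff₀ hπ]; linarith
    calc _ ≤ 2 * Y * (P.C4 / v0 / X.π s) := h11.trans (by gcongr)
      _ = _ := by ring

open Classical in
theorem dyadic (y : ℝ) {v0 : ℝ} (hv0 : P.V ≤ v0) (hy : Real.exp (16 * v0 ^ 3) ≤ y) (s : S)
    (k : ℕ) : ∀ Z : ℝ, 0 < Z → Z ≤ 2 ^ k →
    (((win 0 Z).filter fun u => X.Esc y (s, u)).card : ℝ) ≤ 2 * (P.C4 / v0 / X.π s) * Z := by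
  have h0 := P.v8 hv0
  have hπ := X.π_pos s
  have hC := P.C4_nonneg
  induction k with
  | zero =>
    intro Z hZ h
    rw [filter_eq_empty_iff.2]
    · simp only [card_empty, Nat.cast_zero]; positivity
    · intro u hu hb
      have h1 := hb 0
      have h2 := (mem_win.1 hu).2
      simp only [Function.iterate_zero, id] at h1
      have := Real.add_one_le_exp (16 * v0 ^ 3)
      have : 0 ≤ v0 ^ 3 := by positivity
      rw [pow_zero] at h
      linarith
  | succ k ih =>
    intro Z hZ h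
    have i1 := ih (Z / 2) (by positivity) (by rw [pow_succ] at h; linarith)
    have i2 := P.piece y hv0 hy s (Y := Z / 2) (by positivity)
    have i3 : ((win 0 Z).filter fun u => X.Esc y (s, u)).card
        ≤ ((win 0 (Z / 2)).filter fun u => X.Esc y (s, u)).card
          + ((win (Z / 2) (2 * (Z / 2))).filter fun u => X.Esc y (s, u)).card := by
      refine le_trans (card_le_card fun u hu => ?_) (card_union_le _ _)
      simp only [mem_union, mem_filter, mem_win] at hu ⊢
      by_cases h' : |(u : ℝ)| < Z / 2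
      · exact Or.inl ⟨⟨hu.1.1, h'⟩, hu.2⟩
      · exact Or.inr ⟨⟨not_lt.1 h', by linarith [hu.1.2]⟩, hu.2⟩
    have i4 : (((win 0 Z).filter fun u => X.Esc y (s, u)).card : ℝ)
        ≤ ((win 0 (Z / 2)).filter fun u => X.Esc y (s, u)).card
          + ((win (Z / 2) (2 * (Z / 2))).filter fun u => X.Esc y (s, u)).card := by
      exact_mod_cast i3
    linarith

include P in
theorem concl : X.Concl := by
  classical
  have hC := P.C4_nonneg
  have hV := P.V8
  set Pi := ∑ s, 1 / X.π s with hPi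
  have Pi0 : 0 ≤ Pi := sum_nonneg fun s _ => by have := X.π_pos s; positivity
  refine ⟨12 * (P.C4 * Pi) + 9 * P.V, fun y hy s N => ?_⟩
  have hπ := X.π_pos s
  have l0 : 0 < Real.log y := Real.log_pos (by linarith)
  set ℓ := Real.log y ^ (1 / 3 : ℝ) with hℓ
  have ℓ0 : 0 < ℓ := Real.rpow_pos_of_pos l0 _
  have ℓ3 : ℓ ^ 3 = Real.log y := by
    have := Real.rpow_inv_natCast_pow (n := 3) l0.le (by norm_num)
    rw [← this, hℓ]; norm_num
  rcases Nat.eq_zero_or_pos N with rfl | hN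
  · rw [filter_eq_empty_iff.2]
    · simp
    · intro u hu hb
      have h1 := hb 0
      have h2 : u = 0 := by simpa using hu
      simp only [Function.iterate_zero, id, h2] at h1
      simp at h1; linarith
  have N1 : (1 : ℝ) ≤ N := by exact_mod_cast hN
  rw [le_div_iff₀ ℓ0]
  by_cases h : P.V ≤ ℓ / 3
  · have hy' : Real.exp (16 * (ℓ / 3) ^ 3) ≤ y := by
      rw [← Real.le_log_iff_exp_le (by linarith), div_pow, ℓ3]; linarith
    obtain ⟨k, hk⟩ := pow_unbounded_of_one_lt ((N : ℝ) + 1) (show (1 : ℝ) < 2 by norm_num)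
    have i1 := P.dyadic y h hy' s k (N + 1) (by positivity) hk.le
    have i2 : ((Icc (-(N : ℤ)) N).filter fun u => X.Esc y (s, u)).card
        ≤ ((win 0 (N + 1)).filter fun u => X.Esc y (s, u)).card := by
      refine card_le_card fun u hu => ?_
      simp only [mem_filter, mem_win, mem_Icc] at hu ⊢
      refine ⟨⟨abs_nonneg _, ?_⟩, hu.2⟩
      have : |u| ≤ N := abs_le.2 hu.1
      have : |(u : ℝ)| ≤ N := by exact_mod_cast this
      linarith
    have i3 : (((Icc (-(N : ℤ)) N).filter fun u => X.Esc y (s, u)).card : ℝ)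
        ≤ 2 * (P.C4 / (ℓ / 3) / X.π s) * (N + 1) := le_trans (by exact_mod_cast i2) i1
    have i4 : 1 / X.π s ≤ Pi := single_le_sum (f := fun s => 1 / X.π s)
      (fun s _ => by have := X.π_pos s; positivity) (mem_univ s)
    calc _ ≤ 2 * (P.C4 / (ℓ / 3) / X.π s) * (2 * N) * ℓ := by
          gcongr; refine i3.trans ?_; gcongr; linarith
      _ = 12 * (P.C4 * (1 / X.π s)) * N := by field_simp; ring
      _ ≤ 12 * (P.C4 * Pi) * N := by gcongr
      _ ≤ _ := by gcongr; linarith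
  · have i1 : (((Icc (-(N : ℤ)) N).filter fun u => X.Esc y (s, u)).card : ℝ) ≤ 3 * N := by
      have : ((Icc (-(N : ℤ)) N).filter fun u => X.Esc y (s, u)).card ≤ 3 * N := by
        refine (card_filter_le _ _).trans ?_
        rw [Int.card_Icc]; omega
      exact_mod_cast this
    calc _ ≤ 3 * N * (3 * P.V) := by gcongr; linarith
      _ = 9 * P.V * N := by ring
      _ ≤ _ := by gcongr; have := mul_nonneg hC Pi0; linarith

end Par

theorem concl_of_mix (hG : X.Good) (hM : X.Mix) : X.Concl := by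
  obtain ⟨P⟩ := X.exists_par hG hM
  exact P.concl

end Sys

end Pool.Agent.Lib.MP_39d40e_nt
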