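import Pool.Agent.Lib.MP_39d40e_nt.HzH

/-! Record lows: the first passage below a level has few ancestors. -/

namespace Pool.Agent.Lib.MP_39d40e_nt

open Finset Real

theorem prod_map_count {E M : Type*} [Fintype E] [DecidableEq E] [CommMonoid M] (f : E → M)
    (l : List E) : (l.map f).prod = ∏ e, f e ^ l.count e := by
  induction l with
  | nil => simp
  | cons a l ih =>
    simp only [List.map_cons, List.prod_cons, ih, List.count_cons, pow_add, prod_mul_distrib,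
      beq_iff_eq, pow_ite, pow_one, pow_zero, prod_ite_eq, mem_univ, if_true]
    exact mul_comm _ _

theorem card_win (a W : ℝ) (hW : 0 ≤ W) : (#(Icc ⌈a - W⌉ ⌊a + W⌋) : ℝ) ≤ 2 * W + 1 := by
  rw [Int.card_Icc]
  have h1 := Int.floor_le (a + W)
  have h2 := Int.le_ceil (a - W)
  rcases le_total 0 (⌊a + W⌋ + 1 - ⌈a - W⌉) with h | h
  · have : ((⌊a + W⌋ + 1 - ⌈a - W⌉).toNat : ℝ) = ((⌊a + W⌋ + 1 - ⌈a - W⌉ : ℤ) : ℝ) := by
      exact_mod_cast Int.toNat_of_nonneg h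
    rw [this]; push_cast; linarith
  · rw [Int.toNat_of_nonpos h]; push_cast; linarith

namespace Sys

variable {S E : Type*} [Fintype S] [Fintype E] [DecidableEq S] [DecidableEq E] {X : Sys S E}

/-- absolute value of the orbit at time `t` -/
noncomputable def ht (X : Sys S E) (x : S × ℤ) (t : ℕ) : ℝ := |(((X.step^[t] x).2 : ℤ) : ℝ)|

theorem low_ratio (hI : X.Irred) (h : 0 < X.mean fun e => log (|(X.b e : ℝ)| / X.D e)) :
    ∃ C θ : ℝ, 1 ≤ C ∧ 0 < θ ∧ θ ≤ 1 ∧ ∀ (n : ℕ) (s : S) (v : ℝ), 0 < v →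
      X.Pr n s (fun l => X.rr l ≤ v) ≤ C * v ^ θ := by
  obtain ⟨C, hC, h1⟩ := X.tail (hI.poisson fun e => log (|(X.b e : ℝ)| / X.D e))
  set μ := X.mean fun e => log (|(X.b e : ℝ)| / X.D e)
  set θ := min 1 (μ / C) with hθ
  have θ0 : 0 < θ := lt_min one_pos (by positivity)
  have θ1 : θ ≤ 1 := min_le_left _ _
  have θ2 : θ * C ≤ μ := (le_div_iff₀ (by linarith)).1 (min_le_right _ _)
  refine ⟨C, θ, hC, θ0, θ1, fun n s v hv => ?_⟩
  refine le_trans (X.Pr_mono fun l _ hl => ?_) ((h1 θ θ0.le θ1 n s (n * μ - log v)).2.trans ?_)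
  · rw [Addi.sum_map X addi_logr l]
    have := log_le_log (X.rr_pos l) hl
    rw [rr] at this
    linarith
  · rw [rpow_def_of_pos hv]
    refine mul_le_mul_of_nonneg_left (exp_le_exp.2 ?_) (by linarith)
    have := mul_le_mul_of_nonneg_left θ2 (mul_nonneg θ0.le (Nat.cast_nonneg (α := ℝ) n))
    nlinarith

omit [DecidableEq E] in
theorem orb_real (t : ℕ) (x : S × ℤ) : (X.DP (X.orb t x) : ℝ) * ((X.step^[t] x).2 : ℤ)
    = X.bP (X.orb t x) * (x.2 : ℤ) + X.cP (X.orb t x) := by exact_mod_cast X.orb_mul t x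

open Classical in
/-- few points descend by a factor `V` inside the residue counting horizon -/
theorem bad_card {K : ℕ} (hb : ∀ e, |X.b e| ≤ K) (hD : ∀ e, X.D e ≤ K) (hc : ∀ e, |X.c e| ≤ K)
    (hK : 1 ≤ K) {C θ : ℝ}
    (h : ∀ (n : ℕ) (s : S) (v : ℝ), 0 < v → X.Pr n s (fun l => X.rr l ≤ v) ≤ C * v ^ θ)
    (n : ℕ) {lam V : ℝ} (hV : 1 ≤ V) (h1 : (2 * K : ℝ) ^ n ≤ lam / V) (L : ℕ) (hL : lam ≤ L)
    (s : S) :
    (#{y ∈ Icc (-(L : ℤ)) L | lam < |((y : ℤ) : ℝ)| ∧ ∃ t ≤ n, X.ht (s, y) t ≤ lam / V} : ℝ)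
      ≤ X.Cp * Fintype.card S * 4 * L * ((n + 1) * (C * (2 / V) ^ θ)) := by
  have K1 : (1 : ℝ) ≤ K := by exact_mod_cast hK
  have l0 : 0 < lam / V := lt_of_lt_of_le (by positivity) h1
  have l1 : 0 < lam := by
    by_contra hn
    have := div_nonpos_of_nonpos_of_nonneg (not_lt.1 hn) (by linarith : 0 ≤ V)
    linarith
  have l2 : lam / V ≤ lam := div_le_self l1.le hV
  refine le_trans (Nat.cast_le.2 (card_le_card fun y hy => ?_))
    (terras_ex n L s (fun l => X.rr l ≤ 2 / V) fun t _ s => h t s _ (by positivity))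
  obtain ⟨y1, y2, t, tn, y3⟩ := mem_filter.1 hy
  have p1 : (2 * K : ℝ) ^ t ≤ lam / V := (pow_le_pow_right₀ (by linarith) tn).trans h1
  have d1 : (X.DP (X.orb t (s, y)) : ℝ) ≤ (2 * K : ℝ) ^ t := by
    have := DP_le_K hD (X.orb t (s, y))
    rw [orb_len] at this
    exact_mod_cast this.trans (Nat.pow_le_pow_left (by omega : K ≤ 2 * K) _)
  have c1 : |(X.cP (X.orb t (s, y)) : ℝ)| ≤ (2 * K : ℝ) ^ t := by
    have := (list_bd hb hD hc (X.orb t (s, y))).2
    rw [orb_len] at this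
    exact_mod_cast this
  refine mem_filter.2 ⟨y1, t, tn, by exact_mod_cast d1.trans (p1.trans (l2.trans hL)), ?_⟩
  have d0 : (1 : ℝ) ≤ X.DP (X.orb t (s, y)) := by exact_mod_cast X.DP_pos _
  have e := orb_real (X := X) t (s, y)
  unfold ht at y3
  unfold rr
  generalize (X.DP (X.orb t (s, y)) : ℝ) = D at *
  generalize (X.bP (X.orb t (s, y)) : ℝ) = B at *
  generalize (X.cP (X.orb t (s, y)) : ℝ) = c at *
  generalize (((X.step^[t] (s, y)).2 : ℤ) : ℝ) = z at *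
  have a1 : |B| * |(y : ℝ)| ≤ D * |z| + |c| := by
    rw [← abs_mul, show B * (y : ℝ) = D * z - c by linarith]
    refine (abs_sub _ _).trans ?_
    rw [abs_mul, abs_of_nonneg (by linarith : 0 ≤ D)]
  have a2 : |B| * lam ≤ |B| * |(y : ℝ)| := mul_le_mul_of_nonneg_left y2.le (abs_nonneg _)
  have a3 : D * |z| ≤ D * (lam / V) := mul_le_mul_of_nonneg_left y3 (by linarith)
  have a4 : lam / V ≤ D * (lam / V) := le_mul_of_one_le_left l0.le d0
  rw [div_le_iff₀ (by linarith)]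
  refine le_of_mul_le_mul_right ?_ l1
  rw [show 2 / V * D * lam = 2 * (D * (lam / V)) by ring]
  linarith

omit [DecidableEq E] in
/-- the offset is small as long as the orbit stays above `lam` -/
theorem window {K : ℕ} (hc : ∀ e, |X.c e| ≤ K) (x : S × ℤ) {N lam : ℝ} (hl : 0 < lam)
    (hx : |(x.2 : ℝ)| ≤ N) : ∀ t : ℕ, 2 * K * t ≤ lam → (∀ j < t, lam < X.ht x j) →
      |(X.cP (X.orb t x) : ℝ)| ≤ 2 * K * t * N / lam * |(X.bP (X.orb t x) : ℝ)| := by
  intro t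
  induction t with
  | zero => intro _ _; simp [orb]
  | succ t ih =>
    intro h1 h2
    have K0 : (0 : ℝ) ≤ K := Nat.cast_nonneg _
    have N0 : 0 ≤ N := (abs_nonneg _).trans hx
    push_cast at h1
    have h1' : 2 * (K : ℝ) * t ≤ lam := by nlinarith
    have i1 := ih h1' fun j hj => h2 j (by omega)
    have i2 := h2 t (by omega)
    have e := orb_real (X := X) t x
    have d0 : (0 : ℝ) ≤ X.DP (X.orb t x) := Nat.cast_nonneg _
    have b1 : (1 : ℝ) ≤ |(X.b (X.lab (X.step^[t] x)) : ℝ)| := by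
      exact_mod_cast Int.one_le_abs (X.b_ne _)
    have c1 : |(X.c (X.lab (X.step^[t] x)) : ℝ)| ≤ K := by exact_mod_cast hc _
    rw [orb, bP_cons, cP_cons]
    push_cast
    unfold ht at i2
    generalize (X.DP (X.orb t x) : ℝ) = D at *
    generalize (X.bP (X.orb t x) : ℝ) = B at *
    generalize (X.cP (X.orb t x) : ℝ) = c at *
    generalize (((X.step^[t] x).2 : ℤ) : ℝ) = z at *
    generalize (X.b (X.lab (X.step^[t] x)) : ℝ) = b at *
    generalize (X.c (X.lab (X.step^[t] x)) : ℝ) = g at *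
    have B0 := abs_nonneg B
    have w1 : 2 * (K : ℝ) * t * N / lam ≤ N := by
      rw [div_le_iff₀ hl]; nlinarith
    have a1 : D * |z| ≤ |B| * N + |c| := by
      rw [← abs_of_nonneg d0, ← abs_mul, e]
      refine (abs_add_le _ _).trans ?_
      rw [abs_mul]
      linarith [mul_le_mul_of_nonneg_left hx B0]
    have a2 : D * lam ≤ 2 * N * |B| := by
      nlinarith [mul_le_mul_of_nonneg_left i2.le d0, mul_le_mul_of_nonneg_right w1 B0]
    have a3 : D ≤ 2 * N / lam * |B| := by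
      rw [div_mul_eq_mul_div, le_div_iff₀ hl]; exact a2
    have a4 : |g| * D ≤ K * (2 * N / lam * |B|) := mul_le_mul c1 a3 d0 K0
    have a5 : K * (2 * N / lam * |B|) ≤ |b| * (K * (2 * N / lam * |B|)) :=
      le_mul_of_one_le_left (by positivity) b1
    refine (abs_add_le _ _).trans ?_
    rw [abs_mul, abs_mul, abs_mul, abs_of_nonneg d0,
      show 2 * (K : ℝ) * (t + 1) * N / lam * (|b| * |B|) = |b| * (2 * K * t * N / lam * |B|)
        + |b| * (K * (2 * N / lam * |B|)) by ring]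
    linarith [mul_le_mul_of_nonneg_left i1 (abs_nonneg b)]

open Classical in
/-- a point has few ancestors whose path stays above `lam` -/
theorem fibre {K : ℕ} (hc : ∀ e, |X.c e| ≤ K) (s : S) (N T : ℕ) {lam : ℝ} (hl : 0 < lam)
    (hT : 2 * K * T ≤ lam) (y : ℤ) :
    (#{u ∈ Icc (-(N : ℤ)) N | ∃ t ≤ T, (∀ j < t, lam < X.ht (s, u) j) ∧
      (X.step^[t] (s, u)).2 = y} : ℝ)
      ≤ (T + 1) ^ Fintype.card E * (2 * (2 * K * T * N / lam) + 1) := by
  set W : ℝ := 2 * K * T * N / lam with hW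
  have W0 : 0 ≤ W := by positivity
  set cen : (E → Fin (T + 1)) → ℝ := fun v =>
    (∏ e, (X.D e : ℝ) ^ (v e : ℕ)) * y / ∏ e, (X.b e : ℝ) ^ (v e : ℕ) with hcen
  have h1 : {u ∈ Icc (-(N : ℤ)) N | ∃ t ≤ T, (∀ j < t, lam < X.ht (s, u) j) ∧
      (X.step^[t] (s, u)).2 = y} ⊆ univ.biUnion fun v => Icc ⌈cen v - W⌉ ⌊cen v + W⌋ := by
    intro u hu
    obtain ⟨u1, t, tT, u2, u3⟩ := mem_filter.1 hu
    have tT' : (t : ℝ) ≤ T := by exact_mod_cast tT
    have u4 : |(u : ℝ)| ≤ N := by exact_mod_cast abs_le.2 (mem_Icc.1 u1)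
    have w1 := window hc (s, u) hl u4 t (le_trans (by gcongr) hT) u2
    have w2 : 2 * (K : ℝ) * t * N / lam ≤ W := by rw [hW]; gcongr
    have e := orb_real (X := X) t (s, u)
    rw [u3] at e
    refine mem_biUnion.2 ⟨fun e => ⟨(X.orb t (s, u)).count e, Nat.lt_succ_of_le
      (List.count_le_length.trans ((orb_len t _).le.trans tT))⟩, mem_univ _, ?_⟩
    have e1 : (X.DP (X.orb t (s, u)) : ℝ) = ∏ e, (X.D e : ℝ) ^ (X.orb t (s, u)).count e := by
      rw [DP, prod_map_count]; push_cast; rfl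
    have e2 : (X.bP (X.orb t (s, u)) : ℝ) = ∏ e, (X.b e : ℝ) ^ (X.orb t (s, u)).count e := by
      rw [bP, prod_map_count]; push_cast; rfl
    have b0 : (X.bP (X.orb t (s, u)) : ℝ) ≠ 0 := by exact_mod_cast X.bP_ne _
    simp only [hcen, ← e1, ← e2, e, mem_Icc, Int.ceil_le, Int.le_floor]
    have : |(X.cP (X.orb t (s, u)) : ℝ) / X.bP (X.orb t (s, u))| ≤ W := by
      rw [abs_div, div_le_iff₀ (abs_pos.2 b0)]
      exact w1.trans (mul_le_mul_of_nonneg_right w2 (abs_nonneg _))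
    rw [add_div, mul_div_cancel_left₀ _ b0]
    obtain ⟨a1, a2⟩ := abs_le.1 this
    constructor <;> linarith
  refine le_trans (by exact_mod_cast (card_le_card h1).trans card_biUnion_le)
    ((sum_le_sum fun v _ => card_win (cen v) W W0).trans (le_of_eq ?_))
  simp [mul_add]

omit [DecidableEq E] in
/-- pigeonhole on the running minimum -/
theorem record {K : ℕ} (hD : ∀ e, X.D e ≤ K) (hc : ∀ e, |X.c e| ≤ K) (x : S × ℤ) (n m : ℕ)
    (lam : ℕ → ℝ) (h1 : ∀ k < m, 1 ≤ lam k) (h2 : ∀ k, lam (k + 1) ≤ lam k)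
    (h0 : lam 0 < X.ht x 0) (hm : ∃ t ≤ m * n, X.ht x t ≤ lam m) :
    ∃ k < m, ∃ t ≤ m * n, (∀ j ≤ t, lam k < X.ht x j) ∧ X.ht x t ≤ 2 * K * lam k ∧
      ∃ i ≤ n, X.ht (X.step^[t] x) i ≤ lam (k + 1) := by
  classical
  have ex : ∃ k, ∃ t ≤ k * n, X.ht x t ≤ lam k := ⟨m, hm⟩
  obtain ⟨k, hk⟩ : ∃ k, Nat.find ex = k + 1 := by
    refine Nat.exists_eq_succ_of_ne_zero fun h => ?_
    obtain ⟨t, t0, t1⟩ := h ▸ Nat.find_spec ex
    obtain rfl : t = 0 := by omega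
    linarith
  have k1 : k < m := by have := Nat.find_min' ex hm; omega
  have k2 := Nat.find_min ex (show k < Nat.find ex by omega)
  obtain ⟨t', t1, t2⟩ := hk ▸ Nat.find_spec ex
  have ex2 : ∃ t, X.ht x t ≤ lam k := ⟨t', t2.trans (h2 k)⟩
  have s1 : Nat.find ex2 ≤ t' := Nat.find_min' ex2 (t2.trans (h2 k))
  have s2 : k * n < Nat.find ex2 := not_le.1 fun h => k2 ⟨_, h, Nat.find_spec ex2⟩
  obtain ⟨t, ht'⟩ : ∃ t, Nat.find ex2 = t + 1 := Nat.exists_eq_succ_of_ne_zero (by omega)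
  have s3 : X.ht x (t + 1) ≤ lam k := ht' ▸ Nat.find_spec ex2
  have s4 : (k + 1) * n ≤ m * n := Nat.mul_le_mul_right _ k1
  rw [add_mul, one_mul] at t1 s4
  refine ⟨k, k1, t, by omega, fun j hj => not_le.1 (Nat.find_min ex2 (by omega)), ?_,
    t' - t, by omega, ?_⟩
  · unfold ht at s3 ⊢
    rw [Function.iterate_succ_apply'] at s3
    set z := X.step^[t] x
    have e : (X.D (X.lab z) : ℝ) * ((X.step z).2 : ℤ) = X.b (X.lab z) * (z.2 : ℤ) + X.c (X.lab z) := by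
      exact_mod_cast X.step_mul z
    have b1 : (1 : ℝ) ≤ |(X.b (X.lab z) : ℝ)| := by exact_mod_cast Int.one_le_abs (X.b_ne _)
    have c1 : |(X.c (X.lab z) : ℝ)| ≤ K := by exact_mod_cast hc _
    have d1 : (X.D (X.lab z) : ℝ) ≤ K := by exact_mod_cast hD _
    have a1 : |(X.b (X.lab z) : ℝ)| * |((z.2 : ℤ) : ℝ)|
        ≤ X.D (X.lab z) * |(((X.step z).2 : ℤ) : ℝ)| + |(X.c (X.lab z) : ℝ)| := by
      rw [← abs_mul, eq_sub_of_add_eq e.symm]
      refine (abs_sub _ _).trans ?_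
      rw [abs_mul, Nat.abs_cast]
    have a2 := mul_le_mul d1 s3 (abs_nonneg _) (Nat.cast_nonneg K)
    have a3 := le_mul_of_one_le_left (abs_nonneg ((z.2 : ℤ) : ℝ)) b1
    have a4 := le_mul_of_one_le_right (Nat.cast_nonneg (α := ℝ) K) (h1 k k1)
    linarith
  · unfold ht at t2 ⊢
    rwa [← Function.iterate_add_apply, Nat.sub_add_cancel (by omega)]

end Sys

end Pool.Agent.Lib.MP_39d40e_nt
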