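import Pool.Agent.Lib.MP_39d40e_nt.NdA

/-! Non-descent far past the residue counting horizon. -/

namespace Pool.Agent.Lib.MP_39d40e_nt

open Finset Real

namespace Sys

variable {S E : Type*} [Fintype S] [Fintype E] [DecidableEq S] [DecidableEq E] {X : Sys S E}

open Classical in
theorem descent_card {K : ℕ} (hb : ∀ e, |X.b e| ≤ K) (hD : ∀ e, X.D e ≤ K)
    (hc : ∀ e, |X.c e| ≤ K) (hK : 1 ≤ K) {C θ : ℝ} (hC : 0 ≤ C)
    (h : ∀ (n : ℕ) (s : S) (v : ℝ), 0 < v → X.Pr n s (fun l => X.rr l ≤ v) ≤ C * v ^ θ)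
    (s : S) (N n m : ℕ) {lam V : ℝ} (hV : 1 ≤ V) (hN : lam ≤ N)
    (h1 : (2 * K : ℝ) ^ n ≤ lam / V ^ m) (h2 : 2 * K * (m * n : ℕ) ≤ lam / V ^ m) :
    (#{u ∈ Icc (-(N : ℤ)) N | lam < |((u : ℤ) : ℝ)| ∧ ∃ t ≤ m * n, X.ht (s, u) t ≤ lam / V ^ m} : ℝ)
      ≤ m * (Fintype.card S * (X.Cp * Fintype.card S * 4 * ((n + 1) * (C * (2 / V) ^ θ))
        * (((m * n : ℕ) + 1) ^ Fintype.card E * (3 * K * (4 * K * (m * n : ℕ) + 1) * N)))) := by
  have K1 : (1 : ℝ) ≤ K := by exact_mod_cast hK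
  have l0 : 1 ≤ lam / V ^ m := (one_le_pow₀ (by linarith)).trans h1
  have l1 : 0 < lam := by
    by_contra hn
    have := div_nonpos_of_nonpos_of_nonneg (not_lt.1 hn) (by positivity : 0 ≤ V ^ m)
    linarith
  have mono : ∀ {j k : ℕ}, j ≤ k → lam / V ^ k ≤ lam / V ^ j := fun hjk =>
    div_le_div_of_nonneg_left l1.le (by positivity) (pow_le_pow_right₀ hV hjk)
  set Bad : ℕ → S → Finset ℤ := fun k s' => {y ∈ Icc (-(⌈2 * K * (lam / V ^ k)⌉₊ : ℤ))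
    ⌈2 * K * (lam / V ^ k)⌉₊ | lam / V ^ k < |((y : ℤ) : ℝ)| ∧
      ∃ t ≤ n, X.ht (s', y) t ≤ lam / V ^ k / V} with hBad
  have sub : {u ∈ Icc (-(N : ℤ)) N | lam < |((u : ℤ) : ℝ)| ∧
      ∃ t ≤ m * n, X.ht (s, u) t ≤ lam / V ^ m} ⊆ (range m).biUnion fun k => univ.biUnion fun s' =>
        (Bad k s').biUnion fun y => {u ∈ Icc (-(N : ℤ)) N | ∃ t ≤ m * n,
          (∀ j < t, lam / V ^ k < X.ht (s, u) j) ∧ (X.step^[t] (s, u)).2 = y} := by
    intro u hu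
    obtain ⟨u1, u2, u3⟩ := mem_filter.1 hu
    obtain ⟨k, k1, t, t1, t2, t3, i, i1, i2⟩ := record hD hc (s, u) n m (fun k => lam / V ^ k)
      (fun k hk => l0.trans (mono hk.le)) (fun k => mono (Nat.le_succ k))
      (by simpa [ht] using u2) u3
    refine mem_biUnion.2 ⟨k, mem_range.2 k1, mem_biUnion.2 ⟨(X.step^[t] (s, u)).1, mem_univ _,
      mem_biUnion.2 ⟨(X.step^[t] (s, u)).2, mem_filter.2 ⟨mem_Icc.2 (abs_le.1 ?_), t2 t le_rfl,
        i, i1, by rwa [div_div, ← pow_succ]⟩,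
      mem_filter.2 ⟨u1, t, t1, fun j hj => t2 j hj.le, rfl⟩⟩⟩⟩
    have t4 := t3.trans (Nat.le_ceil _)
    unfold ht at t4
    exact_mod_cast t4
  refine le_trans (by exact_mod_cast (card_le_card sub).trans (card_biUnion_le.trans
    (sum_le_sum fun k _ => card_biUnion_le.trans (sum_le_sum fun s' _ => card_biUnion_le))) :
      _ ≤ ∑ k ∈ range m, ∑ s', ∑ y ∈ Bad k s', (#{u ∈ Icc (-(N : ℤ)) N | ∃ t ≤ m * n,
          (∀ j < t, lam / V ^ k < X.ht (s, u) j) ∧ (X.step^[t] (s, u)).2 = y} : ℝ)) ?_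
  refine (sum_le_card_nsmul _ _ _ fun k hk => sum_le_card_nsmul _ _ (X.Cp * Fintype.card S * 4 *
    ((n + 1) * (C * (2 / V) ^ θ)) * (((m * n : ℕ) + 1) ^ Fintype.card E *
      (3 * K * (4 * K * (m * n : ℕ) + 1) * N))) fun s' _ => ?_).trans (by simp)
  have k1 := mem_range.1 hk
  have l2 : 1 ≤ lam / V ^ k := l0.trans (mono k1.le)
  have l3 : lam / V ^ k ≤ N := (div_le_self l1.le (one_le_pow₀ hV)).trans hN
  have c1 : (⌈2 * K * (lam / V ^ k)⌉₊ : ℝ) ≤ 3 * K * (lam / V ^ k) := by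
    have := Nat.ceil_lt_add_one (show 0 ≤ 2 * K * (lam / V ^ k) by positivity)
    linarith [one_le_mul_of_one_le_of_one_le K1 l2]
  have b1 := bad_card hb hD hc hK h n (lam := lam / V ^ k) hV
    (by rw [div_div, ← pow_succ]; exact h1.trans (mono k1)) ⌈2 * K * (lam / V ^ k)⌉₊
    (le_trans (le_mul_of_one_le_left (by linarith) (by linarith)) (Nat.le_ceil _)) s'
  refine (sum_le_card_nsmul _ _ _ fun y _ => fibre hc s N (m * n) (by linarith)
    (h2.trans (mono k1.le)) y).trans ?_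
  rw [nsmul_eq_mul]
  refine (mul_le_mul_of_nonneg_right b1 (by positivity)).trans ?_
  have p0 : 0 ≤ X.Cp := Cp_nonneg
  have f1 : (⌈2 * K * (lam / V ^ k)⌉₊ : ℝ) * (2 * (2 * K * (m * n : ℕ) * N / (lam / V ^ k)) + 1)
      ≤ 3 * K * (4 * K * (m * n : ℕ) + 1) * N := by
    refine (mul_le_mul_of_nonneg_right c1 (by positivity)).trans ?_
    generalize lam / V ^ k = w at *
    rw [show 3 * K * w * (2 * (2 * K * (m * n : ℕ) * N / w) + 1)
      = 3 * K * (4 * K * (m * n : ℕ) * N + w) by field_simp; ring, mul_assoc (3 * (K : ℝ))]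
    exact mul_le_mul_of_nonneg_left (by linarith) (by positivity)
  calc _ = X.Cp * Fintype.card S * 4 * ((n + 1) * (C * (2 / V) ^ θ)) *
        (((m * n : ℕ) + 1) ^ Fintype.card E * ((⌈2 * K * (lam / V ^ k)⌉₊ : ℝ) *
          (2 * (2 * K * (m * n : ℕ) * N / (lam / V ^ k)) + 1))) := by ring
    _ ≤ _ := by gcongr

open Classical in
theorem descent (hI : X.Irred) (h : 0 < X.mean fun e => log (|(X.b e : ℝ)| / X.D e)) :
    ∃ (c K : ℝ) (A : ℕ), 0 < c ∧ 0 ≤ K ∧ ∀ (s : S) (N T : ℕ) (Q : ℝ), 2 ≤ N → log N ≤ T → 1 ≤ Q →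
      Q ^ 4 ≤ N → (#{u ∈ Icc (-(N : ℤ)) N | ∃ t ≤ T, X.ht (s, u) t ≤ N / Q ^ 2} : ℝ)
        ≤ K * N * T ^ A * Q ^ (-(c * log N / T)) := by
  obtain ⟨C, θ, C1, θ0, θ1, hP⟩ := low_ratio hI h
  obtain ⟨K, hK, hb, hD, hc⟩ := X.exists_K
  have K1 : (1 : ℝ) ≤ K := by exact_mod_cast hK
  have p0 : 0 ≤ X.Cp := Cp_nonneg
  have κ1 : 1 / 2 < log (2 * K) := lt_of_lt_of_le (by linarith [log_two_gt_d9])
    (log_le_log two_pos (by linarith))
  set κ := log (2 * (K : ℝ)) with hκ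
  set G : ℝ := 2 * (Fintype.card S * (X.Cp * Fintype.card S * 4 * (2 * (C * 2))
    * (3 ^ Fintype.card E * (3 * K * (9 * K))))) with hG
  have G0 : 0 ≤ G := by positivity
  refine ⟨θ / (8 * κ), G + 12 * K ^ 2, Fintype.card E + 3, by positivity, by positivity,
    fun s N T Q N2 hT Q1 Q4 => ?_⟩
  have N2' : (2 : ℝ) ≤ N := by exact_mod_cast N2
  have lN : 0 < log N := log_pos (by linarith)
  have T0 : (0 : ℝ) < T := lN.trans_le hT
  have T1 : 1 ≤ T := by exact_mod_cast T0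
  have T1' : (1 : ℝ) ≤ T := by exact_mod_cast T1
  set x := θ / (8 * κ) * log N / T with hx
  have x0 : 0 ≤ x := by positivity
  have x1 : x ≤ 1 := by
    rw [hx, div_le_one T0]
    have : θ / (8 * κ) ≤ 1 := by rw [div_le_one (by positivity)]; linarith
    exact (mul_le_of_le_one_left lN.le this).trans hT
  have q1 : Q⁻¹ ≤ Q ^ (-x) := by
    rw [← rpow_neg_one]; exact rpow_le_rpow_of_exponent_le Q1 (by linarith)
  have q0 : 0 < Q ^ (-x) := rpow_pos_of_pos (by linarith) _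
  have TA : (T : ℝ) ≤ T ^ (Fintype.card E + 3) := le_self_pow₀ T1' (by omega)
  have s0 : 0 < √(N : ℝ) := sqrt_pos.2 (by linarith)
  have s1 : √(N : ℝ) * √(N : ℝ) = N := mul_self_sqrt (by linarith)
  have s2 : Q ^ 2 ≤ √(N : ℝ) := le_sqrt_of_sq_le (by linarith [show (Q ^ 2) ^ 2 = Q ^ 4 by ring])
  have s3 : √(N : ℝ) ≤ N / Q ^ 2 := by
    rw [le_div_iff₀ (by positivity)]; exact (mul_le_mul_of_nonneg_left s2 s0.le).trans s1.le
  have q2 : Q ≤ Q ^ 2 := le_self_pow₀ Q1 two_ne_zero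
  have q3 : 1 ≤ Q * Q ^ (-x) := by
    have := mul_le_mul_of_nonneg_left q1 (by linarith : 0 ≤ Q)
    rwa [mul_inv_cancel₀ (by linarith)] at this
  have NT : 0 ≤ (N : ℝ) * T ^ (Fintype.card E + 3) * Q ^ (-x) := by positivity
  by_cases hbig : √(N : ℝ) ≤ 4 * K ^ 2 * T
  · have a1 : (#{u ∈ Icc (-(N : ℤ)) N | ∃ t ≤ T, X.ht (s, u) t ≤ N / Q ^ 2} : ℝ) ≤ 3 * N := by
      have : #{u ∈ Icc (-(N : ℤ)) N | ∃ t ≤ T, X.ht (s, u) t ≤ N / Q ^ 2} ≤ 3 * N :=
        (card_filter_le _ _).trans (by rw [Int.card_Icc]; omega)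
      exact_mod_cast this
    have a2 : Q ≤ 4 * K ^ 2 * T ^ (Fintype.card E + 3) :=
      q2.trans (s2.trans (hbig.trans (by gcongr)))
    have a3 := mul_le_mul_of_nonneg_right a2 q0.le
    have a4 := mul_le_mul_of_nonneg_left (q3.trans a3) (by positivity : (0 : ℝ) ≤ 3 * N)
    have a5 := mul_nonneg G0 NT
    linarith
  rw [not_le] at hbig
  have l4 : 4 * κ ≤ log N := by
    have a1 : (2 * (K : ℝ)) ^ 2 ≤ √(N : ℝ) := by
      linarith [mul_le_mul_of_nonneg_left T1' (sq_nonneg (K : ℝ))]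
    have a2 : (2 * (K : ℝ)) ^ 4 ≤ N := by
      rw [← s1, show (2 * (K : ℝ)) ^ 4 = (2 * K) ^ 2 * (2 * K) ^ 2 by ring]; gcongr
    have := log_le_log (by positivity) a2
    rw [log_pow, Nat.cast_ofNat] at this
    exact this
  set n := ⌊log N / (2 * κ)⌋₊ with hn
  have n1 : (n : ℝ) ≤ log N / (2 * κ) := Nat.floor_le (by positivity)
  have n2 : log N / (2 * κ) < n + 1 := Nat.lt_floor_add_one _
  rw [le_div_iff₀ (by positivity)] at n1
  rw [div_lt_iff₀ (by positivity)] at n2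
  have κ0 : 0 ≤ κ := by linarith
  have n3 : (1 : ℝ) < n :=
    lt_of_mul_lt_mul_right (show 1 * (2 * κ) < n * (2 * κ) by linarith) (by linarith)
  have n4 : 0 < n := by exact_mod_cast (zero_lt_one.trans n3)
  have n5 : (n : ℝ) ≤ T :=
    (le_mul_of_one_le_right (Nat.cast_nonneg n) (by linarith)).trans (n1.trans hT)
  set m := T / n + 1 with hm
  have m1 : T ≤ m * n := by
    have := Nat.lt_div_mul_add (a := T) n4
    rw [hm, add_mul, one_mul]; omega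
  have m2 : ((m * n : ℕ) : ℝ) ≤ 2 * T := by
    have a1 : T / n * n ≤ T := Nat.div_mul_le_self _ _
    have a2 : n ≤ T := by exact_mod_cast n5
    have : m * n ≤ 2 * T := by rw [hm, add_mul, one_mul]; omega
    exact_mod_cast this
  have m0 : (0 : ℝ) < m := by positivity
  have m3 : (m : ℝ) ≤ 2 * T := by
    push_cast at m2; exact (le_mul_of_one_le_right m0.le n3.le).trans m2
  set V := Q ^ ((m : ℝ)⁻¹) with hV
  have V1 : 1 ≤ V := one_le_rpow Q1 (by positivity)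
  have V2 : V ^ m = Q := rpow_inv_natCast_pow (by linarith) (Nat.add_one_ne_zero _)
  have e1 : N / Q / V ^ m = N / Q ^ 2 := by rw [V2, div_div, sq]
  have d1 := descent_card hb hD hc hK (by linarith) hP s N n m (lam := N / Q) V1
    (div_le_self (by linarith) Q1) (by
      rw [e1]
      refine le_trans (le_sqrt_of_sq_le ?_) s3
      rw [← pow_mul, ← exp_log (show 0 < 2 * (K : ℝ) by positivity), ← exp_nat_mul,
        ← exp_log (show (0 : ℝ) < N by linarith), exp_le_exp]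
      push_cast; linarith) (by
      rw [e1]
      linarith [mul_le_mul_of_nonneg_left m2 (Nat.cast_nonneg (α := ℝ) K),
        mul_le_mul_of_nonneg_right (le_self_pow₀ K1 two_ne_zero) T0.le])
  rw [e1] at d1
  have v1 : (2 / V) ^ θ ≤ 2 * Q ^ (-x) := by
    rw [div_rpow zero_le_two (by linarith), div_eq_mul_inv, hV, ← rpow_mul (by linarith),
      ← rpow_neg (by linarith)]
    refine mul_le_mul ((rpow_le_rpow_of_exponent_le one_le_two θ1).trans (rpow_one 2).le)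
      (rpow_le_rpow_of_exponent_le Q1 (neg_le_neg ?_)) (by positivity) zero_le_two
    rw [hx, div_le_iff₀ T0, div_mul_eq_mul_div, div_le_iff₀ (by positivity),
      show (m : ℝ)⁻¹ * θ * T * (8 * κ) = θ * (T * (8 * κ) / m) by field_simp]
    refine mul_le_mul_of_nonneg_left ?_ θ0.le
    rw [le_div_iff₀ m0]
    push_cast at m2
    linarith [mul_le_mul_of_nonneg_right (show log N ≤ n * (4 * κ) by
      linarith [mul_le_mul_of_nonneg_right n3.le κ0]) m0.le, mul_le_mul_of_nonneg_right m2 κ0]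
  have sub : {u ∈ Icc (-(N : ℤ)) N | ∃ t ≤ T, X.ht (s, u) t ≤ N / Q ^ 2}
      ⊆ Icc ⌈0 - N / Q⌉ ⌊0 + N / Q⌋ ∪ {u ∈ Icc (-(N : ℤ)) N | N / Q < |((u : ℤ) : ℝ)| ∧
        ∃ t ≤ m * n, X.ht (s, u) t ≤ N / Q ^ 2} := by
    intro u hu
    obtain ⟨u1, t, t1, t2⟩ := mem_filter.1 hu
    rcases le_or_gt |(u : ℝ)| (N / Q) with h | h
    · obtain ⟨a1, a2⟩ := abs_le.1 h
      exact mem_union_left _ (mem_Icc.2 ⟨Int.ceil_le.2 (by linarith), Int.le_floor.2 (by linarith)⟩)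
    · exact mem_union_right _ (mem_filter.2 ⟨u1, h, t, t1.trans m1, t2⟩)
  refine le_trans (by exact_mod_cast (card_le_card sub).trans (card_union_le _ _))
    ((add_le_add (card_win 0 (N / Q) (by positivity)) d1).trans ?_)
  have w1 : 1 ≤ N / Q := (one_le_div (by linarith)).2 ((le_self_pow₀ Q1 four_ne_zero).trans Q4)
  have w2 : N / Q ≤ N * T ^ (Fintype.card E + 3) * Q ^ (-x) := by
    rw [div_eq_mul_inv]
    exact mul_le_mul (le_mul_of_one_le_right (by linarith) (T1'.trans TA)) q1 (by positivity)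
      (by positivity)
  have w3 : m * (Fintype.card S * (X.Cp * Fintype.card S * 4 * ((n + 1) * (C * (2 / V) ^ θ))
        * (((m * n : ℕ) + 1) ^ Fintype.card E * (3 * K * (4 * K * (m * n : ℕ) + 1) * N))))
      ≤ 2 * T * (Fintype.card S * (X.Cp * Fintype.card S * 4 * ((2 * T) * (C * (2 * Q ^ (-x))))
        * ((3 * T) ^ Fintype.card E * (3 * K * (9 * K * T) * N)))) := by
    gcongr
    · linarith
    · linarith
    · linarith [mul_le_mul_of_nonneg_left m2 (Nat.cast_nonneg (α := ℝ) K),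
        one_le_mul_of_one_le_of_one_le K1 T1']
  have w4 : 3 ≤ 12 * (K : ℝ) ^ 2 := by linarith [one_le_pow₀ (n := 2) K1]
  have w5 := mul_le_mul_of_nonneg_right w4 NT
  refine le_trans (add_le_add (show _ ≤ 12 * K ^ 2 * (N * T ^ (Fintype.card E + 3) * Q ^ (-x)) by
    linarith) w3) (le_of_eq ?_)
  rw [hG, mul_pow]; ring

end Sys

namespace LData

variable (L : LData)

theorem abs_u_le (x : L.St × ℤ) {y : ℝ} (hy : 1 ≤ y) (h : |(L.val x : ℝ)| ≤ y) :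
    |(x.2 : ℝ)| ≤ y := by
  have a3 : ((x.1.1.1 : ℕ) : ℝ) + 1 ≤ L.d * (x.1.1.2 : ℕ) := by exact_mod_cast L.hC _ x.1.2
  have a4 : (2 : ℝ) ≤ L.d * (x.1.1.2 : ℕ) := by
    exact_mod_cast Nat.mul_le_mul L.hd (L.k_pos x.1.2)
  have a6 : (0 : ℝ) ≤ (x.1.1.1 : ℕ) := Nat.cast_nonneg _
  unfold val at h
  push_cast at h
  obtain ⟨h1, h2⟩ := abs_le.1 h
  generalize (L.d : ℝ) * (x.1.1.2 : ℕ) = M at *
  rw [abs_le]
  rcases le_or_gt 0 x.2 with h0 | h0
  · have h0' : (0 : ℝ) ≤ x.2 := by exact_mod_cast h0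
    constructor <;> nlinarith
  · have h0' : (x.2 : ℝ) + 1 ≤ 0 := by exact_mod_cast h0
    constructor <;> nlinarith

theorem descent [NeZero L.d]
    (h : 1 < ∏ i : ZMod L.d, |(L.m i : ℝ) / L.d| ^ (∑ s ∈ L.C with (s.1 : ZMod L.d) = i, L.ρ s)) :
    ∃ (c K : ℝ) (A : ℕ), 0 < c ∧ ∀ (N t₀ : ℕ) (R : ℝ), 2 ≤ N → log N ≤ t₀ → 1 ≤ R → R ≤ N →
      (Set.ncard {x : ℤ | |x| ≤ N ∧ (∃ s ∈ L.C, x ≡ s.1 [ZMOD (L.d * s.2 : ℕ)]) ∧
        ∃ t ≤ t₀, |(((T L.d L.m L.r)^[t] x : ℤ) : ℝ)| ≤ N / R} : ℝ)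
        ≤ K * N * t₀ ^ A * R ^ (-(c * log N / t₀)) := by
  classical
  obtain ⟨c, K, A, c0, K0, h⟩ := Sys.descent L.irred (by rw [mean_r, ← log_Λ]; exact log_pos h)
  refine ⟨c / 4, Fintype.card L.St * K, A, by positivity, fun N t₀ R N2 hT R1 RN => ?_⟩
  have N2' : (2 : ℝ) ≤ N := by exact_mod_cast N2
  set Q := R ^ (((4 : ℕ) : ℝ)⁻¹) with hQ
  have Q1 : 1 ≤ Q := one_le_rpow R1 (by positivity)
  have Q4 : Q ^ 4 = R := rpow_inv_natCast_pow (by linarith) (by norm_num)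
  have Q2 : Q ^ 2 ≤ R := Q4 ▸ pow_le_pow_right₀ Q1 (by norm_num)
  have sub : {x : ℤ | |x| ≤ N ∧ (∃ s ∈ L.C, x ≡ s.1 [ZMOD (L.d * s.2 : ℕ)]) ∧
      ∃ t ≤ t₀, |(((T L.d L.m L.r)^[t] x : ℤ) : ℝ)| ≤ N / R} ⊆ ↑(univ.biUnion fun s : L.St =>
        ({u ∈ Icc (-(N : ℤ)) N | ∃ t ≤ t₀, L.sys.ht (s, u) t ≤ N / Q ^ 2}).image
          fun u => L.val (s, u)) := by
    rintro x ⟨x1, ⟨s, hs, x2⟩, t, t1, t2⟩
    obtain ⟨u, hu⟩ := x2.symm.dvd
    obtain rfl : L.val (⟨s, hs⟩, u) = x := by unfold val; push_cast at hu ⊢; linarith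
    have u1 := L.abs_u_le (⟨s, hs⟩, u) (y := N) (by linarith) (by exact_mod_cast x1)
    rw [← val_iter] at t2
    have u2 := L.abs_u_le _ ((one_le_div (by linarith)).2 RN) t2
    refine mem_coe.2 (mem_biUnion.2 ⟨⟨s, hs⟩, mem_univ _, mem_image.2 ⟨u, mem_filter.2
      ⟨mem_Icc.2 (abs_le.1 (by exact_mod_cast u1)), t, t1, u2.trans ?_⟩, rfl⟩⟩)
    exact div_le_div_of_nonneg_left (by linarith) (by positivity) Q2
  have c1 := (Set.ncard_le_ncard sub (finite_toSet _)).trans (Set.ncard_coe_finset _).le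
  refine le_trans (by exact_mod_cast c1.trans (card_biUnion_le.trans
    (sum_le_sum fun s _ => card_image_le))) ((sum_le_sum fun s _ =>
      h s N t₀ Q N2 hT Q1 (Q4.le.trans RN)).trans (le_of_eq ?_))
  rw [sum_const, nsmul_eq_mul, card_univ, hQ, ← rpow_mul (by linarith)]
  push_cast
  rw [show (4 : ℝ)⁻¹ * -(c * log N / t₀) = -(c / 4 * log N / t₀) by ring]
  ring

end LData

end Pool.Agent.Lib.MP_39d40e_nt
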