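import Pool.Agent.Lib.MP_39d40e_nt.Final

/-! Positive density of basins, part A: averages control suprema. -/

namespace Pool.Agent.Lib.MP_39d40e_nt

open Finset

theorem win_per (F : ℤ → ℝ) (q : ℕ) (hq : 0 < q) (hF : ∀ z, F (z + q) = F z) (h0 : ∀ z, 0 ≤ F z)
    (μ : ℝ) (hμ : ∑ z ∈ range q, F z ≤ μ * q) (I : Finset ℤ) (a Λ : ℝ) (hΛ : 0 ≤ Λ)
    (hI : ∀ y ∈ I, |(y : ℝ) - a| ≤ Λ) : ∑ y ∈ I, F y ≤ μ * (2 * Λ + q) := by
  have hq' : (0 : ℝ) < q := by exact_mod_cast hq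
  have hμ0 : 0 ≤ μ := by
    have : 0 ≤ μ * q := (sum_nonneg fun (z : ℕ) _ => h0 z).trans hμ
    exact nonneg_of_mul_nonneg_left this hq'
  set k := ⌊2 * Λ / q⌋₊ + 1 with hk
  have k1 : 2 * Λ < k * q := by
    have := Nat.lt_floor_add_one (2 * Λ / q)
    rw [div_lt_iff₀ hq'] at this
    rw [hk]; push_cast; exact this
  have k2 : (k : ℝ) * q ≤ 2 * Λ + q := by
    have := Nat.floor_le (show 0 ≤ 2 * Λ / q by positivity)
    rw [le_div_iff₀ hq'] at this
    rw [hk]; push_cast; linarith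
  have sub : I ⊆ Ico ⌈a - Λ⌉ (⌈a - Λ⌉ + (k * q : ℕ)) := by
    intro y hy
    obtain ⟨h1, h2⟩ := abs_le.1 (hI y hy)
    refine mem_Ico.2 ⟨Int.ceil_le.2 (by linarith), ?_⟩
    have h3 := Int.le_ceil (a - Λ)
    have : (y : ℝ) < ⌈a - Λ⌉ + (k * q : ℕ) := by push_cast; linarith
    exact_mod_cast this
  calc ∑ y ∈ I, F y ≤ ∑ y ∈ Ico ⌈a - Λ⌉ (⌈a - Λ⌉ + (k * q : ℕ)), F y :=
        sum_le_sum_of_subset_of_nonneg sub fun y _ _ => h0 y
    _ = k * ∑ z ∈ range q, F z := by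
        rw [blk F (k * q) (per_of_dvd F q _ hF (Dvd.intro_left _ rfl)), sum_range_mul F q hF]
    _ ≤ k * (μ * q) := by gcongr
    _ = μ * (k * q) := by ring
    _ ≤ _ := by gcongr

namespace Sys

variable {S E : Type*} [Fintype S] [Fintype E] [DecidableEq S] [DecidableEq E] (X : Sys S E)

omit [DecidableEq E] in
theorem π_le (s : S) : X.π s ≤ 1 := by
  rw [← X.π_sum]
  exact single_le_sum (f := X.π) (fun t _ => (X.π_pos t).le) (mem_univ s)

/-- the predecessor along a path -/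
def yv (l : List E) (z : ℤ) : ℤ := (X.DP l * z - X.cP l) / X.bP l

def Val (l : List E) (z : ℤ) : Prop := X.bP l ∣ X.DP l * z - X.cP l

instance (l : List E) (z : ℤ) : Decidable (X.Val l z) := by unfold Val; infer_instance

omit [DecidableEq E] in
theorem yv_mul {l : List E} {z : ℤ} (h : X.Val l z) :
    X.bP l * X.yv l z = X.DP l * z - X.cP l := Int.mul_ediv_cancel' h

omit [DecidableEq E] in
theorem pull_eq (l : List E) (z : ℤ) (g : ℤ → ℝ) :
    X.pull l z g = if X.Val l z then |(X.bP l : ℝ)| * g (X.yv l z) else 0 := rfl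

theorem step_pred {n : ℕ} {s : S} {l : List E} (hl : l ∈ X.Paths n s) {y z : ℤ}
    (h : X.bP l * y = X.DP l * z - X.cP l) : X.step^[n] (X.endp s l, y) = (s, z) := by
  have h1 := X.orb_mem n (X.endp s l, y)
  have h2 := X.orb_endp n (X.endp s l, y)
  have h3 := X.orb_mul n (X.endp s l, y)
  obtain ⟨h4, h5⟩ := X.path_unique (u := y) hl h1 h2.symm ⟨z, by linarith⟩ (Dvd.intro _ h3)
  refine Prod.ext h5.symm ?_
  rw [← h4] at h3
  have h6 : (X.DP l : ℤ) ≠ 0 := by exact_mod_cast (X.DP_pos l).ne'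
  exact mul_left_cancel₀ h6 (by simp only at h3 ⊢; linarith)

theorem wt_le {n : ℕ} {s : S} {l : List E} (hl : l ∈ X.Paths n s) :
    X.wt l * |(X.bP l : ℝ)| ≤ X.rr l / X.π s := by
  have h1 := X.π_pos s
  have h2 := X.π_le (X.endp s l)
  have h3 : (0 : ℝ) < X.DP l := by exact_mod_cast X.DP_pos l
  have h4 := X.one_le_abs_bP l
  rw [X.wt_eq hl, rr]
  calc _ ≤ 1 / (X.DP l * X.π s) * |(X.bP l : ℝ)| := by gcongr
    _ = _ := by field_simp

omit [DecidableEq E] in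
theorem yv_near {l : List E} {z : ℤ} (h : X.Val l z) {W : ℝ} (hW : |(X.cP l : ℝ)| ≤ W * X.DP l) :
    |(X.yv l z : ℝ) - X.DP l * z / X.bP l| ≤ W / X.rr l := by
  have h1 : (X.bP l : ℝ) * X.yv l z = X.DP l * z - X.cP l := by exact_mod_cast X.yv_mul h
  have h4 := X.one_le_abs_bP l
  have h5 : (X.bP l : ℝ) ≠ 0 := by exact_mod_cast X.bP_ne l
  have h3 : (0 : ℝ) < X.DP l := by exact_mod_cast X.DP_pos l
  have e : (X.yv l z : ℝ) - X.DP l * z / X.bP l = -X.cP l / X.bP l := by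
    field_simp; linarith
  rw [e, abs_div, abs_neg, rr, div_div_eq_mul_div]
  gcongr

/-- number of groups -/
def ng (n : ℕ) : ℕ := #(idiv (X.B0 ^ n)) * (#(X.d ^ n).divisors * Fintype.card S)

theorem key_sup (n : ℕ) (s : S) (z : ℤ) (F : S → ℤ → ℝ) (q : ℕ) (hq : 0 < q)
    (hF : ∀ t y, F t (y + q) = F t y) (h0 : ∀ t y, 0 ≤ F t y) (μ : ℝ)
    (hμ : ∀ t, ∑ y ∈ range q, F t y ≤ μ * q) (W : ℝ) (hW : 0 ≤ W) (A : List E → Prop)
    [DecidablePred A]
    (hA : ∀ l ∈ X.Paths n s, A l → |(X.cP l : ℝ)| ≤ W * X.DP l ∧ q * X.rr l ≤ 1) :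
    X.Ex n s (fun l => if A l then X.pull l z (F (X.endp s l)) else 0)
      ≤ X.ng n * ((2 * W + 1) * μ / X.π s) := by
  classical
  have hq' : (0 : ℝ) < q := by exact_mod_cast hq
  have hμ0 : 0 ≤ μ := by
    have : 0 ≤ μ * q := (sum_nonneg fun (z : ℕ) _ => h0 s z).trans (hμ s)
    exact nonneg_of_mul_nonneg_left this hq'
  have hπ := X.π_pos s
  set G : Finset (ℤ × ℕ × S) := idiv (X.B0 ^ n) ×ˢ (X.d ^ n).divisors ×ˢ univ with hG
  have hc : (#G : ℝ) = X.ng n := by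
    rw [hG, card_product, card_product, card_univ, ng]
  unfold Ex
  rw [← sum_fiberwise_of_maps_to (t := G) (g := fun l => (X.bP l, X.DP l, X.endp s l))]
  swap
  · intro l hl
    have h1 := X.bP_dvd l
    have h2 := X.DP_dvd l
    rw [X.length_of_mem_Paths hl] at h1 h2
    simp only [hG, mem_product, mem_univ, and_true]
    exact ⟨mem_idiv (pow_pos X.B0_pos _).ne' (by exact_mod_cast h1),
      Nat.mem_divisors.2 ⟨h2, (pow_pos X.d_pos _).ne'⟩⟩
  rw [← hc, ← nsmul_eq_mul]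
  refine sum_le_card_nsmul _ _ _ fun κ _ => ?_
  set L := (X.Paths n s).filter fun l =>
    (X.bP l, X.DP l, X.endp s l) = κ ∧ A l ∧ X.Val l z with hL
  have e1 : ∑ l ∈ X.Paths n s with (X.bP l, X.DP l, X.endp s l) = κ,
      X.wt l * (if A l then X.pull l z (F (X.endp s l)) else 0)
      = ∑ l ∈ L, X.wt l * |(X.bP l : ℝ)| * F (X.endp s l) (X.yv l z) := by
    rw [hL, sum_filter, sum_filter]
    refine sum_congr rfl fun l _ => ?_
    rw [pull_eq]
    by_cases h1 : (X.bP l, X.DP l, X.endp s l) = κ <;> by_cases h2 : A l <;>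
      by_cases h3 : X.Val l z <;> simp [h1, h2, h3, mul_assoc]
  rw [e1]
  rcases L.eq_empty_or_nonempty with h | ⟨l0, hl0⟩
  · rw [h, sum_empty]; positivity
  have mem : ∀ l ∈ L, l ∈ X.Paths n s ∧ X.bP l = X.bP l0 ∧ X.DP l = X.DP l0 ∧
      X.endp s l = X.endp s l0 ∧ A l ∧ X.Val l z := by
    intro l hl
    obtain ⟨h1, h2, h3⟩ := mem_filter.1 hl
    have := h2.trans (mem_filter.1 hl0).2.1.symm
    simp only [Prod.mk.injEq] at this
    exact ⟨h1, this.1, this.2.1, this.2.2, h3⟩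
  have hr : ∀ l ∈ L, X.rr l = X.rr l0 := fun l hl => by
    rw [rr, rr, (mem l hl).2.1, (mem l hl).2.2.1]
  have inj : Set.InjOn (fun l => X.yv l z) L := by
    intro l hl l' hl' h
    obtain ⟨a1, a2, a3, a4, -, a6⟩ := mem l hl
    obtain ⟨b1, b2, b3, b4, -, b6⟩ := mem l' hl'
    have c1 := X.yv_mul a6
    have c2 := X.yv_mul b6
    simp only at h
    rw [h] at c1
    exact (X.path_unique (u := X.yv l' z) a1 b1 (a4.trans b4.symm) ⟨z, by linarith⟩
      ⟨z, by linarith⟩).1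
  have r0 := X.rr_pos l0
  have hw := win_per (F (X.endp s l0)) q hq (hF _) (h0 _) μ (hμ _) (L.image fun l => X.yv l z)
    (X.DP l0 * z / X.bP l0) (W / X.rr l0) (by positivity) (by
      intro y hy
      obtain ⟨l, hl, rfl⟩ := mem_image.1 hy
      obtain ⟨a1, a2, a3, -, a5, a6⟩ := mem l hl
      have := X.yv_near a6 (hA l a1 a5).1
      rwa [hr l hl, a2, a3] at this)
  rw [sum_image inj] at hw
  have h1 := (hA l0 (mem l0 hl0).1 (mem l0 hl0).2.2.2.2.1).2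
  calc _ ≤ ∑ l ∈ L, X.rr l0 / X.π s * F (X.endp s l0) (X.yv l z) := by
        refine sum_le_sum fun l hl => ?_
        rw [(mem l hl).2.2.2.1, ← hr l hl]
        exact mul_le_mul_of_nonneg_right (X.wt_le (mem l hl).1) (h0 _ _)
    _ ≤ X.rr l0 / X.π s * (μ * (2 * (W / X.rr l0) + q)) := by
        rw [← mul_sum]; gcongr
    _ = (2 * W + q * X.rr l0) * μ / X.π s := by field_simp
    _ ≤ _ := by gcongr

omit [DecidableEq E] in
theorem ng_le : ∃ (a : ℕ) (C : ℝ), 0 ≤ C ∧ ∀ n : ℕ, (X.ng n : ℝ) ≤ C * ((n : ℝ) + 1) ^ a := by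
  refine ⟨X.B0 + X.d, 2 * (X.B0 : ℝ) ^ X.B0 * X.d ^ X.d * Fintype.card S, by positivity,
    fun n => ?_⟩
  have h1 := (card_idiv (X.B0 ^ n)).trans
    (Nat.mul_le_mul_left 2 (card_divisors_pow X.B0_pos.ne' n))
  have h2 := card_divisors_pow X.d_pos.ne' n
  have h3 : n * X.B0 + 1 ≤ X.B0 * (n + 1) := by have := X.B0_pos; nlinarith
  have h4 : n * X.d + 1 ≤ X.d * (n + 1) := by have := X.d_pos; nlinarith
  have h5 : X.ng n ≤ 2 * (X.B0 * (n + 1)) ^ X.B0 * ((X.d * (n + 1)) ^ X.d * Fintype.card S) :=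
    Nat.mul_le_mul (h1.trans (Nat.mul_le_mul_left 2 (Nat.pow_le_pow_left h3 _)))
      (Nat.mul_le_mul_right _ (h2.trans (Nat.pow_le_pow_left h4 _)))
  calc (X.ng n : ℝ) ≤ ((2 * (X.B0 * (n + 1)) ^ X.B0 * ((X.d * (n + 1)) ^ X.d * Fintype.card S) : ℕ)
        : ℝ) := by exact_mod_cast h5
    _ = _ := by push_cast; rw [mul_pow, mul_pow, pow_add]; ring

/-- all initial segments contract geometrically -/
def Pre (Y θ : ℝ) (l : List E) : Prop := ∀ t ≤ l.length, X.rr (l.take t) ≤ Y * θ ^ t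

omit [DecidableEq E] in
theorem Pre.cP_le {X : Sys S E} {Y θ : ℝ} (h0 : 0 ≤ θ) (h1 : θ < 1) (hY : 0 ≤ Y) {l : List E}
    (h : X.Pre Y θ l) : |(X.cP l : ℝ)| ≤ X.cmx * Y * (1 - θ)⁻¹ * X.DP l := by
  have hc := X.cmx_nonneg
  have key : |(X.cP l : ℝ)| ≤ X.cmx * Y * (∑ t ∈ range l.length, θ ^ t) * X.DP l := by
    induction l using List.reverseRecOn with
    | nil => simp
    | append_singleton l e ih =>
      have a1 := ih fun t ht => by
        simpa [List.take_append_of_le_length ht] using h t (by simp; omega)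
      have a2 : X.rr l ≤ Y * θ ^ l.length := by simpa using h l.length (by simp)
      have a3 : |(X.c e : ℝ)| ≤ X.cmx :=
        single_le_sum (f := fun e => |(X.c e : ℝ)|) (fun _ _ => abs_nonneg _) (mem_univ e)
      have a4 : (1 : ℝ) ≤ X.D e := by exact_mod_cast X.D_pos e
      have a5 : (0 : ℝ) < X.DP l := by exact_mod_cast X.DP_pos l
      rw [rr, div_le_iff₀ a5] at a2
      rw [cP_append, DP_append]
      simp only [cP_cons, cP_nil, DP_cons, DP_nil, mul_zero, Nat.cast_one, mul_one, zero_add,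
        List.length_append, List.length_singleton, sum_range_succ]
      push_cast
      refine (abs_add_le _ _).trans ?_
      rw [abs_mul, abs_mul, Nat.abs_cast]
      have a6 := mul_le_mul a2 a3 (abs_nonneg _) (by positivity)
      have a7 := mul_le_mul_of_nonneg_right a1 (by linarith : (0 : ℝ) ≤ X.D e)
      have a8 := mul_le_mul_of_nonneg_left a4
        (by positivity : (0 : ℝ) ≤ Y * θ ^ l.length * X.DP l * X.cmx)
      linarith
  refine key.trans ?_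
  have := sum_le_hasSum (range l.length) (fun i _ => pow_nonneg h0 i)
    (hasSum_geometric_of_lt_one h0 h1)
  gcongr

omit [DecidableEq E] in
theorem abs_bP_le2 (l : List E) : |(X.bP l : ℝ)| ≤ (X.B0 : ℝ) ^ l.length := by
  have := Nat.le_of_dvd (pow_pos X.B0_pos _) (X.natAbs_bP_dvd l)
  have h3 : (((X.bP l).natAbs : ℕ) : ℝ) ≤ (X.B0 : ℝ) ^ l.length := by exact_mod_cast this
  rwa [Nat.cast_natAbs, Int.cast_abs] at h3

omit [DecidableEq E] in
theorem rr_le (l : List E) : X.rr l ≤ (X.B0 : ℝ) ^ l.length := by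
  have h : (1 : ℝ) ≤ X.DP l := by exact_mod_cast X.DP_pos l
  exact (div_le_self (abs_nonneg _) h).trans (X.abs_bP_le2 l)

theorem rho_le (n : ℕ) (s : S) (z : ℤ) : X.rho n s z ≤ (X.B0 : ℝ) ^ n := by
  refine X.Ex_le_const fun l hl => ?_
  rw [pull_eq, ← X.length_of_mem_Paths hl]
  split_ifs
  · rw [mul_one]; exact X.abs_bP_le2 l
  · positivity

/-- total variation of the densities between two levels -/
noncomputable def Var (a b : ℕ) (s : S) (z : ℤ) : ℝ :=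
  ∑ h ∈ Ico a b, |X.rho (h + 1) s z - X.rho h s z|

theorem Var_nonneg (a b s z) : 0 ≤ X.Var a b s z := sum_nonneg fun _ _ => abs_nonneg _

theorem abs_rho_sub {a H b : ℕ} (h1 : a ≤ H) (h2 : H ≤ b) (s z) :
    |X.rho H s z - X.rho a s z| ≤ X.Var a b s z := by
  rw [← sum_Ico_sub (fun h => X.rho h s z) h1]
  exact (abs_sum_le_sum_abs _ _).trans (sum_le_sum_of_subset_of_nonneg
    (Ico_subset_Ico_right h2) fun _ _ _ => abs_nonneg _)

theorem rho_per' {m b : ℕ} (h : m ≤ b) (s z) : X.rho m s (z + (X.B0 ^ b : ℕ)) = X.rho m s z :=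
  per_of_dvd (X.rho m s) _ _ (X.rho_per m s) (pow_dvd_pow _ h) z

theorem Var_per (a b s z) : X.Var a b s (z + (X.B0 ^ b : ℕ)) = X.Var a b s z :=
  sum_congr rfl fun h hh => by
    have := (mem_Ico.1 hh).2
    rw [X.rho_per' (show h + 1 ≤ b by omega), X.rho_per' this.le]

theorem Var_avg (hM : X.Mix) (A : ℕ) : ∃ C : ℝ, 0 ≤ C ∧ ∀ a b : ℕ, 1 ≤ a → ∀ s,
    ∑ z ∈ range (X.B0 ^ b), X.Var a b s z ≤ C / (a : ℝ) ^ A * (X.B0 ^ b : ℕ) := by
  obtain ⟨C, hC, h⟩ := X.mixW hM (A + 2)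
  refine ⟨2 * C, by positivity, fun a b ha s => ?_⟩
  have ha' : (0 : ℝ) < a := by exact_mod_cast ha
  unfold Var
  rw [sum_comm]
  have one : ∀ m ∈ Ico a b, ∑ z ∈ range (X.B0 ^ b), |X.rho (m + 1) s z - X.rho m s z|
      ≤ C / (a : ℝ) ^ A * (X.B0 ^ b : ℕ) * ((m : ℝ) ^ 2)⁻¹ := by
    intro m hm
    obtain ⟨h1, h2⟩ := mem_Ico.1 hm
    have h3 := h 1 m (ha.trans h1) (fun _ _ => 1) (fun _ _ => zero_le_one) (fun _ _ => le_rfl) s
    simp only [W_one] at h3
    obtain ⟨k, rfl⟩ : ∃ k, b = k + (m + 1) := ⟨b - (m + 1), by omega⟩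
    rw [pow_add, sum_range_mul (fun z => |X.rho (m + 1) s z - X.rho m s z|) _ (fun z => by
      rw [X.rho_per, X.rho_per' (Nat.le_succ m)])]
    have h4 : (a : ℝ) ≤ m := by exact_mod_cast h1
    have h5 : (0 : ℝ) < m := by linarith
    calc _ ≤ (X.B0 ^ k : ℕ) * (((1 : ℕ) : ℝ) * C / (m : ℝ) ^ (A + 2) * (X.B0 ^ (m + 1) : ℕ)) := by
          gcongr
      _ = C / (m : ℝ) ^ A * (X.B0 ^ k * X.B0 ^ (m + 1) : ℕ) * ((m : ℝ) ^ 2)⁻¹ := by
          push_cast; field_simp; ring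
      _ ≤ _ := by gcongr
  refine (sum_le_sum one).trans ?_
  rw [← mul_sum]
  have h6 : ∑ m ∈ Ico a b, ((m : ℝ) ^ 2)⁻¹ ≤ 2 := by
    have := sum_Ioo_inv_sq_le (α := ℝ) 0 b
    refine le_trans (sum_le_sum_of_subset_of_nonneg (fun m hm => ?_) fun _ _ _ => by positivity)
      (this.trans (by norm_num))
    obtain ⟨h1, h2⟩ := mem_Ico.1 hm
    exact mem_Ioo.2 ⟨by omega, h2⟩
  calc _ ≤ C / (a : ℝ) ^ A * (X.B0 ^ b : ℕ) * 2 := by gcongr
    _ = _ := by ring

end Sys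

end Pool.Agent.Lib.MP_39d40e_nt
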