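import Pool.Agent.Lib.MP_39d40e_nt.PdA

/-! Positive density of basins, part B: one stage of the backward exploration. -/

namespace Pool.Agent.Lib.MP_39d40e_nt

open Finset

namespace Sys

variable {S E : Type*} [Fintype S] [Fintype E] [DecidableEq S] [DecidableEq E] (X : Sys S E)

theorem small_tail (hP : X.Poisson fun e => Real.log (|(X.b e : ℝ)| / X.D e)) (hN : X.Neg) :
    ∃ θ : ℝ, 0 < θ ∧ θ < 1 ∧ X.Small fun n l => θ ^ (2 * n) < X.rr l := by
  set μ := X.mean (fun e => Real.log (|(X.b e : ℝ)| / X.D e)) with hμ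
  have hμ0 : μ < 0 := hN
  obtain ⟨C, c, hC, hc, ht⟩ := X.tail_lin hP (ε := -μ / 2) (by linarith)
  refine ⟨Real.exp (μ / 4), Real.exp_pos _, Real.exp_lt_one_iff.2 (by linarith), C, c, by linarith, hc,
    fun n s => le_trans (X.Pr_mono fun l _ hl => ?_) (ht n s).1⟩
  have hsum : (l.map fun e => Real.log (|(X.b e : ℝ)| / X.D e)).sum = Real.log (X.rr l) :=
    Addi.sum_map X addi_log l
  rw [hsum, ← hμ, Real.le_log_iff_exp_le (X.rr_pos l)]
  simp only at hl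
  rw [← Real.exp_nat_mul] at hl
  refine le_trans (le_of_eq ?_) hl.le
  congr 1; push_cast; ring

theorem pre_prob {θ : ℝ} (h0 : 0 < θ) (h1 : θ < 1) (h : X.Small fun n l => θ ^ (2 * n) < X.rr l)
    {η : ℝ} (hη : 0 < η) : ∃ Y : ℝ, 1 ≤ Y ∧ ∀ n s, X.Pr n s (fun l => ¬ X.Pre Y θ l) ≤ η := by
  obtain ⟨C, c, hC, hc, h⟩ := h
  set ρ := Real.exp (-c) with hρ
  have ρ0 : 0 < ρ := Real.exp_pos _
  have ρ1 : ρ < 1 := Real.exp_lt_one_iff.2 (by linarith)
  obtain ⟨t0, ht0⟩ := exists_pow_lt_of_lt_one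
    (show 0 < η * (1 - ρ) / (C + 1) by have := sub_pos.2 ρ1; positivity) ρ1
  have hB : (1 : ℝ) ≤ X.B0 := by exact_mod_cast X.B0_pos
  have p0 : 0 < θ ^ t0 := pow_pos h0 _
  have hY : 1 ≤ (X.B0 : ℝ) ^ t0 / θ ^ t0 := by
    rw [le_div_iff₀ p0, one_mul]
    exact (pow_le_one₀ h0.le h1.le).trans (one_le_pow₀ hB)
  refine ⟨_, hY, fun n s => ?_⟩
  calc _ ≤ X.Pr n s (fun l => ∃ t ∈ Ico t0 (n + 1), θ ^ (2 * t) < X.rr (l.take t)) := by
        refine X.Pr_mono fun l hl hp => ?_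
        simp only [Pre, not_forall, not_le] at hp
        obtain ⟨t, ht, hp⟩ := hp
        rw [X.length_of_mem_Paths hl] at ht
        refine ⟨t, mem_Ico.2 ⟨?_, by omega⟩, lt_of_le_of_lt ?_ hp⟩
        · by_contra hn
          have a1 := X.rr_le (l.take t)
          have a2 : (X.B0 : ℝ) ^ (l.take t).length ≤ (X.B0 : ℝ) ^ t0 :=
            pow_le_pow_right₀ hB (by rw [List.length_take]; omega)
          have a3 : θ ^ t0 ≤ θ ^ t := pow_le_pow_of_le_one h0.le h1.le (by omega)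
          have a4 : (X.B0 : ℝ) ^ t0 ≤ (X.B0 : ℝ) ^ t0 / θ ^ t0 * θ ^ t := by
            rw [div_mul_eq_mul_div, le_div_iff₀ p0]; gcongr
          linarith
        · exact (pow_le_pow_of_le_one h0.le h1.le (by omega)).trans
            (le_mul_of_one_le_left (by positivity) hY)
    _ ≤ ∑ t ∈ Ico t0 (n + 1), C * ρ ^ t := by
        refine (X.Pr_exists _ _ _ _).trans (sum_le_sum fun t ht => ?_)
        rw [X.Pr_take' (Nat.lt_succ_iff.1 (mem_Ico.1 ht).2) s fun l => θ ^ (2 * t) < X.rr l,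
          hρ, ← Real.exp_nat_mul]
        refine (h t s).trans (le_of_eq ?_)
        congr 2; ring
    _ ≤ C * (ρ ^ t0 / (1 - ρ)) := by
        rw [← mul_sum]
        exact mul_le_mul_of_nonneg_left (geom_sum_Ico_le_of_lt_one ρ0.le ρ1) hC
    _ ≤ η := by
        have := sub_pos.2 ρ1
        rw [lt_div_iff₀ (by linarith)] at ht0
        rw [← mul_div_assoc, div_le_iff₀ this]
        nlinarith [pow_pos ρ0 t0]

/-- alive at depth `n` -/
def Alive (Y θ x : ℝ) (n : ℕ) (l : List E) : Prop :=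
  X.Pre Y θ l ∧ 1 / x < X.rr l ∧ X.rr l ≤ θ ^ (2 * n)

/-- at scale `x` -/
def Band (Y θ x : ℝ) (l : List E) : Prop :=
  X.Pre Y θ l ∧ 1 / (X.d * x) < X.rr l ∧ X.rr l ≤ 1 / x

omit [DecidableEq E] in
theorem pre_ext {Y θ : ℝ} (h0 : 0 < θ) (h1 : θ < 1) (hY : 1 ≤ Y) {R k : ℕ}
    (hR : θ ^ R * (X.B0 : ℝ) ^ 2 ≤ 1) {o i : List E} (ho : X.Pre Y θ o)
    (hr : X.rr o ≤ θ ^ (2 * o.length)) (hk : (R + 1) * k ≤ o.length) (hi : i.length ≤ k) :
    X.Pre Y θ (o ++ i) := by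
  intro t ht
  rcases le_total t o.length with h | h
  · rw [List.take_append_of_le_length h]; exact ho t h
  obtain ⟨j, rfl⟩ := Nat.exists_eq_add_of_le h
  rw [List.length_append] at ht
  have hB : (1 : ℝ) ≤ X.B0 := by exact_mod_cast X.B0_pos
  rw [List.take_length_add_append, rr_append]
  have a1 := X.rr_le (i.take j)
  have a2 : (X.B0 : ℝ) ^ (i.take j).length ≤ (X.B0 : ℝ) ^ (2 * k) :=
    pow_le_pow_right₀ hB (by rw [List.length_take]; omega)
  have a3 : θ ^ (2 * o.length) ≤ θ ^ (o.length + j + R * k) :=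
    pow_le_pow_of_le_one h0.le h1.le (by rw [add_mul] at hk; omega)
  have a4 : θ ^ (R * k) * (X.B0 : ℝ) ^ (2 * k) ≤ 1 := by
    rw [pow_mul, pow_mul, ← mul_pow]; exact pow_le_one₀ (by positivity) hR
  have a5 := X.rr_pos (i.take j)
  calc _ ≤ θ ^ (o.length + j + R * k) * (X.B0 : ℝ) ^ (2 * k) :=
        mul_le_mul (hr.trans a3) (a1.trans a2) a5.le (by positivity)
    _ = θ ^ (o.length + j) * (θ ^ (R * k) * (X.B0 : ℝ) ^ (2 * k)) := by rw [pow_add]; ring
    _ ≤ θ ^ (o.length + j) := mul_le_of_le_one_right (by positivity) a4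
    _ ≤ _ := le_mul_of_one_le_left (by positivity) hY

omit [DecidableEq E] in
theorem tricho {Y θ x : ℝ} (h0 : 0 < θ) (h1 : θ < 1) (hY : 1 ≤ Y) (hx : 0 < x) {R k n : ℕ}
    (hR : θ ^ R * (X.B0 : ℝ) ^ 2 ≤ 1) {o i : List E} (hn : o.length = n)
    (ho : X.Alive Y θ x n o) (hk : (R + 1) * k ≤ n) (hi : i.length = k) :
    (∃ j ∈ Ioc 0 k, X.Band Y θ x (o ++ i.take j)) ∨ X.Alive Y θ x (n + k) (o ++ i) ∨
      θ ^ (2 * k) < X.rr i := by
  classical
  subst hn
  obtain ⟨p1, p2, p3⟩ := ho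
  by_cases hc : θ ^ (2 * k) < X.rr i
  · exact Or.inr (Or.inr hc)
  by_cases hu : 1 / x < X.rr (o ++ i)
  · refine Or.inr (Or.inl ⟨X.pre_ext h0 h1 hY hR p1 p3 hk hi.le, hu, ?_⟩)
    rw [rr_append, mul_add, pow_add]
    exact mul_le_mul p3 (not_lt.1 hc) (X.rr_pos _).le (by positivity)
  left
  have hex : ∃ j, X.rr (o ++ i.take j) ≤ 1 / x := ⟨k, by rw [← hi, List.take_length]; linarith⟩
  have hj : Nat.find hex ≤ k := Nat.find_min' hex (by rw [← hi, List.take_length]; linarith)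
  have hs := Nat.find_spec hex
  obtain ⟨j, hj'⟩ : ∃ j, Nat.find hex = j + 1 := by
    refine Nat.exists_eq_succ_of_ne_zero fun h => ?_
    rw [h] at hs; simp only [List.take_zero, List.append_nil] at hs; linarith
  have hm : 1 / x < X.rr (o ++ i.take j) := not_le.1 (Nat.find_min hex (by omega))
  rw [hj'] at hj hs
  refine ⟨j + 1, mem_Ioc.2 ⟨by omega, hj⟩, X.pre_ext h0 h1 hY hR p1 p3 hk
    (by rw [List.length_take]; omega), ?_, hs⟩
  have hjl : j < i.length := by omega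
  rw [← List.take_append_getElem hjl, ← List.append_assoc, rr_append]
  have a1 := X.rr_ge [i[j]]
  have hd : (0 : ℝ) < X.d := by exact_mod_cast X.d_pos
  simp only [List.length_singleton, pow_one] at a1
  calc 1 / (X.d * x) = 1 / x * (1 / X.d) := by field_simp
    _ < X.rr (o ++ i.take j) * (1 / X.d) := by gcongr
    _ ≤ _ := mul_le_mul_of_nonneg_left a1 (X.rr_pos _).le

omit [DecidableEq E] in
theorem pull_add (l : List E) (z : ℤ) (g g' : ℤ → ℝ) :
    X.pull l z (fun x => g x + g' x) = X.pull l z g + X.pull l z g' := by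
  unfold pull; split_ifs <;> ring

omit [DecidableEq E] in
theorem pull_fsum {ι : Type*} (I : Finset ι) (l : List E) (z : ℤ) (g : ι → ℤ → ℝ) :
    X.pull l z (fun x => ∑ i ∈ I, g i x) = ∑ i ∈ I, X.pull l z (g i) := by
  unfold pull; split_ifs
  · rw [mul_sum]
  · simp

omit [DecidableEq E] in
theorem pull_ite (l : List E) (z : ℤ) (p : Prop) [Decidable p] (g : ℤ → ℝ) :
    X.pull l z (fun x => if p then g x else 0) = if p then X.pull l z g else 0 := by
  unfold pull; split_ifs <;> simp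

open Classical in
/-- weighted sum over the predecessors along paths with property `A` -/
noncomputable def Sm (n : ℕ) (s : S) (z : ℤ) (A : List E → Prop) (F : S → ℤ → ℝ) : ℝ :=
  X.Ex n s fun l => if A l then X.pull l z (F (X.endp s l)) else 0

theorem Sm_nonneg {n s z A} {F : S → ℤ → ℝ} (h : ∀ t y, 0 ≤ F t y) : 0 ≤ X.Sm n s z A F :=
  X.Ex_nonneg fun l _ => by
    split_ifs
    · exact X.pull_nonneg _ _ (h _)
    · exact le_rfl

theorem Sm_add (m n : ℕ) (s : S) (z : ℤ) (A : List E → Prop) (F : S → ℤ → ℝ) :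
    X.Sm (m + n) s z A F = X.Ex m s fun o => X.pull o z fun y =>
      X.Sm n (X.endp s o) y (fun i => A (o ++ i)) F := by
  unfold Sm
  rw [Ex_append]
  refine X.Ex_congr fun o _ => ?_
  rw [pull_Ex]
  refine X.Ex_congr fun i _ => ?_
  rw [pull_ite, pull_append, endp_append]

theorem Sm_per (n h : ℕ) (s : S) (z : ℤ) (A : List E → Prop) :
    X.Sm n s (z + (X.B0 ^ (n + h) : ℕ)) A (X.rho h) = X.Sm n s z A (X.rho h) := by
  refine X.Ex_congr fun l hl => ?_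
  have := X.pull_per l h (X.rho_per h (X.endp s l)) z
  rw [X.length_of_mem_Paths hl] at this
  rw [this]

theorem Sm_avg (n h : ℕ) (s : S) (A : List E → Prop) :
    ∑ z ∈ range (X.B0 ^ (n + h)), X.Sm n s z A (X.rho h)
      = X.Pr n s A * (X.B0 ^ (n + h) : ℕ) := by
  unfold Sm
  rw [sum_Ex, Pr, ← Ex_mul_const]
  refine X.Ex_congr fun l hl => ?_
  split_ifs
  · have := X.pull_sum l h (X.rho_per h (X.endp s l))
    rw [X.length_of_mem_Paths hl, rho_sum] at this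
    rw [this]; push_cast; ring
  · simp

theorem Sm_take {j k : ℕ} (hj : j ≤ k) (h : ℕ) (s : S) (z : ℤ) (A : List E → Prop) :
    X.Sm k s z (fun l => A (l.take j)) (X.rho h) = X.Sm j s z A (X.rho (k - j + h)) := by
  obtain ⟨r, rfl⟩ := Nat.exists_eq_add_of_le hj
  rw [Sm_add, Nat.add_sub_cancel_left]
  refine X.Ex_congr fun o ho => ?_
  simp only [List.take_left' (X.length_of_mem_Paths ho)]
  split_ifs with ha
  · congr 1; funext y
    rw [rho_add]
    exact X.Ex_congr fun i _ => if_pos ha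
  · rw [← X.pull_ite o z False (fun _ => 0) |>.trans (if_neg not_false)]
    congr 1; funext y
    rw [if_neg not_false]
    exact (X.Ex_congr fun i _ => if_neg ha).trans (X.Ex_const _ _ _)

theorem Sm_mono {n s z A} {F F' : S → ℤ → ℝ} (h : ∀ t y, F t y ≤ F' t y) :
    X.Sm n s z A F ≤ X.Sm n s z A F' :=
  X.Ex_mono fun l _ => by
    split_ifs
    · exact X.pull_mono _ _ (h _)
    · exact le_rfl

theorem point {Y θ x : ℝ} (h0 : 0 < θ) (h1 : θ < 1) (hY : 1 ≤ Y) (hx : 0 < x) {R k n h : ℕ}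
    (hR : θ ^ R * (X.B0 : ℝ) ^ 2 ≤ 1) {o : List E} (hn : o.length = n)
    (ho : X.Alive Y θ x n o) (hk : (R + 1) * k ≤ n) {Ψ : S → ℤ → ℝ}
    (hΨ : ∀ H ≤ k + h, ∀ t y, X.rho H t y ≤ Ψ t y) (t : S) (y : ℤ) :
    X.rho k t y ≤ ∑ j ∈ Ioc 0 k, X.Sm j t y (fun i => X.Band Y θ x (o ++ i)) Ψ
      + X.Sm k t y (fun i => X.Alive Y θ x (n + k) (o ++ i)) (X.rho h)
      + (X.Var k (k + h) t y + X.Sm k t y (fun i => θ ^ (2 * k) < X.rr i) (X.rho h)) := by
  classical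
  have a1 := (abs_le.1 (X.abs_rho_sub (Nat.le_add_right k h) le_rfl t y)).1
  have a2 : X.rho (k + h) t y ≤
      ∑ j ∈ Ioc 0 k, X.Sm k t y (fun i => X.Band Y θ x (o ++ i.take j)) (X.rho h)
      + X.Sm k t y (fun i => X.Alive Y θ x (n + k) (o ++ i)) (X.rho h)
      + X.Sm k t y (fun i => θ ^ (2 * k) < X.rr i) (X.rho h) := by
    rw [rho_add]
    unfold Sm
    rw [sum_Ex, ← Ex_add, ← Ex_add]
    refine X.Ex_mono fun i hi => ?_
    set p := X.pull i y (X.rho h (X.endp t i)) with hp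
    have p0 : 0 ≤ p := X.pull_nonneg _ _ (X.rho_nonneg _ _)
    have nn : ∀ (Q : Prop) (inst : Decidable Q), 0 ≤ @ite _ Q inst p 0 := fun Q _ => by
      split_ifs
      · exact p0
      · exact le_rfl
    have b1 := sum_nonneg (s := Ioc 0 k) fun j _ =>
      nn (X.Band Y θ x (o ++ i.take j)) (Classical.propDecidable _)
    have b2 := nn (X.Alive Y θ x (n + k) (o ++ i)) (Classical.propDecidable _)
    have b3 := nn (θ ^ (2 * k) < X.rr i) (Classical.propDecidable _)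
    rcases X.tricho h0 h1 hY hx hR hn ho hk (X.length_of_mem_Paths hi) with ⟨j, hj, c⟩ | c | c
    · have := single_le_sum (fun j _ =>
        nn (X.Band Y θ x (o ++ i.take j)) (Classical.propDecidable _)) hj
      rw [if_pos c] at this
      linarith
    · rw [if_pos c]; linarith
    · rw [if_pos c]; linarith
  have a3 : ∑ j ∈ Ioc 0 k, X.Sm k t y (fun i => X.Band Y θ x (o ++ i.take j)) (X.rho h)
      ≤ ∑ j ∈ Ioc 0 k, X.Sm j t y (fun i => X.Band Y θ x (o ++ i)) Ψ := by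
    refine sum_le_sum fun j hj => ?_
    rw [X.Sm_take (mem_Ioc.1 hj).2 h t y fun i => X.Band Y θ x (o ++ i)]
    exact X.Sm_mono (hΨ _ (by omega))
  linarith

theorem stage {Y θ x : ℝ} (h0 : 0 < θ) (h1 : θ < 1) (hY : 1 ≤ Y) (hx : 0 < x) {R k n h : ℕ}
    (hR : θ ^ R * (X.B0 : ℝ) ^ 2 ≤ 1) (hk : (R + 1) * k ≤ n) (hh : h ≤ 2 * k) {Ψ : S → ℤ → ℝ}
    (hΨ : ∀ H ≤ k + h, ∀ t y, X.rho H t y ≤ Ψ t y) {μ₁ μ₂ : ℝ}
    (m1 : ∀ t, ∑ z ∈ range (X.B0 ^ (k + h)), X.Var k (k + h) t z ≤ μ₁ * (X.B0 ^ (k + h) : ℕ))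
    (m2 : ∀ t, X.Pr k t (fun i => θ ^ (2 * k) < X.rr i) ≤ μ₂) (s : S) (z : ℤ) :
    X.Sm n s z (X.Alive Y θ x n) (X.rho k) ≤
      ∑ m ∈ Ioc n (n + k), X.Sm m s z (X.Band Y θ x) Ψ
      + X.Sm (n + k) s z (X.Alive Y θ x (n + k)) (X.rho h)
      + X.ng n * ((2 * (X.cmx * Y * (1 - θ)⁻¹) + 1) * (μ₁ + μ₂) / X.π s) := by
  classical
  have hΨ0 : ∀ t y, 0 ≤ Ψ t y := fun t y => (X.rho_nonneg 0 t y).trans (hΨ 0 (Nat.zero_le _) t y)
  have hB : (1 : ℝ) ≤ X.B0 := by exact_mod_cast X.B0_pos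
  set F : S → ℤ → ℝ := fun t y =>
    X.Var k (k + h) t y + X.Sm k t y (fun i => θ ^ (2 * k) < X.rr i) (X.rho h) with hF
  have key := X.key_sup n s z F (X.B0 ^ (k + h)) (pow_pos X.B0_pos _)
    (fun t y => by simp only [hF]; rw [Var_per, Sm_per])
    (fun t y => add_nonneg (X.Var_nonneg _ _ _ _) (X.Sm_nonneg (X.rho_nonneg _))) (μ₁ + μ₂)
    (fun t => by
      simp only [hF]
      rw [sum_add_distrib, Sm_avg, add_mul]
      exact add_le_add (m1 t) (mul_le_mul_of_nonneg_right (m2 t) (by positivity)))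
    (X.cmx * Y * (1 - θ)⁻¹) (by
      have := X.cmx_nonneg
      have := sub_pos.2 h1
      positivity) (X.Alive Y θ x n) (fun l hl hA => by
      refine ⟨hA.1.cP_le h0.le h1 (by linarith), ?_⟩
      have a2 : (X.B0 : ℝ) ^ (k + h) ≤ (X.B0 : ℝ) ^ (2 * (2 * k)) :=
        pow_le_pow_right₀ hB (by omega)
      have a3 : θ ^ (2 * n) ≤ θ ^ (R * (2 * k)) :=
        pow_le_pow_of_le_one h0.le h1.le (by nlinarith)
      have a4 : θ ^ (R * (2 * k)) * (X.B0 : ℝ) ^ (2 * (2 * k)) ≤ 1 := by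
        rw [pow_mul θ R, pow_mul _ 2 (2 * k), ← mul_pow]; exact pow_le_one₀ (by positivity) hR
      push_cast
      calc _ ≤ (X.B0 : ℝ) ^ (2 * (2 * k)) * θ ^ (R * (2 * k)) :=
            mul_le_mul a2 (hA.2.2.trans a3) (X.rr_pos _).le (by positivity)
        _ ≤ 1 := by linarith)
  refine le_trans ?_ (add_le_add le_rfl key)
  have e1 : ∑ m ∈ Ioc n (n + k), X.Sm m s z (X.Band Y θ x) Ψ
      = ∑ j ∈ Ioc 0 k, X.Sm (n + j) s z (X.Band Y θ x) Ψ := by
    rw [← map_add_left_Ioc 0 k n |>.trans (by simp : Ioc (n + 0) (n + k) = Ioc n (n + k)), sum_map]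
    rfl
  rw [e1]
  simp only [Sm_add]
  rw [sum_Ex, ← Ex_add, ← Ex_add]
  refine X.Ex_mono fun o ho => ?_
  rw [← pull_fsum, ← pull_add]
  split_ifs with ha
  · rw [← pull_add]
    exact X.pull_mono _ _ fun y => X.point h0 h1 hY hx hR (X.length_of_mem_Paths ho) ha hk hΨ _ y
  · rw [add_zero]
    exact X.pull_nonneg _ _ fun y => add_nonneg (sum_nonneg fun _ _ => X.Sm_nonneg hΨ0)
      (X.Sm_nonneg (X.rho_nonneg _))

end Sys

end Pool.Agent.Lib.MP_39d40e_nt
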