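import Pool.Agent.Lib.MP_39d40e_nt.PdB

/-! Positive density of basins, part C: all stages, and counting at the first passage. -/

namespace Pool.Agent.Lib.MP_39d40e_nt

open Finset

namespace Sys

variable {S E : Type*} [Fintype S] [Fintype E] [DecidableEq S] [DecidableEq E] (X : Sys S E)

theorem stage' (hM : X.Mix) {Y θ : ℝ} (h0 : 0 < θ) (h1 : θ < 1) (hY : 1 ≤ Y) {R : ℕ}
    (hR : θ ^ R * (X.B0 : ℝ) ^ 2 ≤ 1) (hT : X.Small fun n l => θ ^ (2 * n) < X.rr l) (s : S) :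
    ∃ Ce : ℝ, 0 ≤ Ce ∧ ∀ x : ℝ, 0 < x → ∀ n : ℕ, R + 1 ≤ n → ∀ Ψ : S → ℤ → ℝ,
      (∀ H ≤ 3 * (n / (R + 1)), ∀ t y, X.rho H t y ≤ Ψ t y) → ∀ z : ℤ,
      X.Sm n s z (X.Alive Y θ x n) (X.rho (n / (R + 1))) ≤
        ∑ m ∈ Ioc n (n + n / (R + 1)), X.Sm m s z (X.Band Y θ x) Ψ
        + X.Sm (n + n / (R + 1)) s z (X.Alive Y θ x (n + n / (R + 1)))
          (X.rho ((n + n / (R + 1)) / (R + 1))) + Ce / (n : ℝ) ^ 2 := by
  obtain ⟨a, Cg, hCg, hg⟩ := X.ng_le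
  obtain ⟨C1, hC1, hv⟩ := X.Var_avg hM (a + 2)
  obtain ⟨C2, c, hC2, hc, ht⟩ := hT
  obtain ⟨C3, hC3, he⟩ := poly_exp_bdd (a + 2) hc
  set W := X.cmx * Y * (1 - θ)⁻¹ with hW
  have W0 : 0 ≤ W := by
    have := X.cmx_nonneg
    have := sub_pos.2 h1
    positivity
  have hπ := X.π_pos s
  refine ⟨Cg * (2 * ((R : ℝ) + 1)) ^ (a + 2) * ((2 * W + 1) * (C1 + C2 * C3) / X.π s),
    by positivity, fun x hx n hn Ψ hΨ z => ?_⟩
  set k := n / (R + 1) with hk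
  have k1 : 1 ≤ k := (Nat.one_le_div_iff (by omega)).2 hn
  have k2 : (R + 1) * k ≤ n := Nat.mul_div_le n (R + 1)
  have k3 : n < (R + 1) * (k + 1) := Nat.lt_mul_div_succ n (by omega)
  have k4 : (n + k) / (R + 1) ≤ 2 * k := by
    refine Nat.lt_succ_iff.1 ((Nat.div_lt_iff_lt_mul (by omega)).2 ?_)
    nlinarith
  have k5 : (0 : ℝ) < k := by exact_mod_cast k1
  have n0 : (0 : ℝ) < n := by exact_mod_cast (by omega : 0 < n)
  refine (X.stage h0 h1 hY hx hR k2 k4 (fun H hH => hΨ H (by omega))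
    (μ₁ := C1 / (k : ℝ) ^ (a + 2)) (μ₂ := C2 * C3 / (k : ℝ) ^ (a + 2))
    (fun t => hv k _ k1 t) (fun t => (ht k t).trans ?_) s z).trans (add_le_add le_rfl ?_)
  · rw [mul_div_assoc]
    refine mul_le_mul_of_nonneg_left ?_ hC2
    rw [le_div_iff₀ (by positivity), mul_comm]
    refine le_trans ?_ (he k)
    gcongr; linarith
  · have b1 : ((n : ℝ) + 1) ≤ 2 * ((R : ℝ) + 1) * k := by
      have : n + 1 ≤ 2 * (R + 1) * k := by nlinarith
      exact_mod_cast this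
    have b2 : ((n : ℝ) + 1) ^ a * (n : ℝ) ^ 2 ≤ (2 * ((R : ℝ) + 1)) ^ (a + 2) * (k : ℝ) ^ (a + 2) := by
      rw [← mul_pow]
      calc _ ≤ ((n : ℝ) + 1) ^ a * ((n : ℝ) + 1) ^ 2 := by gcongr; linarith
        _ = ((n : ℝ) + 1) ^ (a + 2) := by ring
        _ ≤ _ := by gcongr
    rw [← hW, ← add_div, le_div_iff₀ (by positivity)]
    calc _ ≤ Cg * ((n : ℝ) + 1) ^ a * ((2 * W + 1) * ((C1 + C2 * C3) / (k : ℝ) ^ (a + 2)) / X.π s)
          * (n : ℝ) ^ 2 := by gcongr; exact hg n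
      _ = Cg * (((n : ℝ) + 1) ^ a * (n : ℝ) ^ 2) *
          ((2 * W + 1) * (C1 + C2 * C3) / X.π s) / (k : ℝ) ^ (a + 2) := by ring
      _ ≤ Cg * ((2 * ((R : ℝ) + 1)) ^ (a + 2) * (k : ℝ) ^ (a + 2)) *
          ((2 * W + 1) * (C1 + C2 * C3) / X.π s) / (k : ℝ) ^ (a + 2) := by gcongr
      _ = _ := by field_simp

theorem all_stages (hM : X.Mix) {Y θ : ℝ} (h0 : 0 < θ) (h1 : θ < 1) (hY : 1 ≤ Y) {R : ℕ}
    (hR : θ ^ R * (X.B0 : ℝ) ^ 2 ≤ 1) (hT : X.Small fun n l => θ ^ (2 * n) < X.rr l) (s : S) :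
    ∃ Ce : ℝ, 0 ≤ Ce ∧ ∀ x : ℝ, 0 < x → ∀ N : ℕ, θ ^ (2 * N) ≤ 1 / x → ∀ Ψ : S → ℤ → ℝ,
      (∀ H ≤ 3 * N, (X.B0 : ℝ) ^ H ≤ x → ∀ t y, X.rho H t y ≤ Ψ t y) → (∀ t y, 0 ≤ Ψ t y) →
      ∀ (z : ℤ) (n : ℕ), R + 1 ≤ n →
      X.Sm n s z (X.Alive Y θ x n) (X.rho (n / (R + 1))) ≤
        2 * Ce / n + ∑ m ∈ Ioc n (2 * N), X.Sm m s z (X.Band Y θ x) Ψ := by
  obtain ⟨Ce, hCe, hs⟩ := X.stage' hM h0 h1 hY hR hT s
  refine ⟨Ce, hCe, fun x hx N hN Ψ hΨ hΨ0 z => ?_⟩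
  have hB : (1 : ℝ) ≤ X.B0 := by exact_mod_cast X.B0_pos
  have dead : ∀ n : ℕ, θ ^ (2 * n) ≤ 1 / x →
      X.Sm n s z (X.Alive Y θ x n) (X.rho (n / (R + 1))) ≤
        2 * Ce / n + ∑ m ∈ Ioc n (2 * N), X.Sm m s z (X.Band Y θ x) Ψ := by
    intro n hn
    refine le_trans (X.Ex_le_const (a := 0) fun l _ => ?_)
      (add_nonneg (by positivity) (sum_nonneg fun _ _ => X.Sm_nonneg hΨ0))
    rw [if_neg]
    rintro ⟨-, a1, a2⟩
    linarith
  have main : ∀ f n : ℕ, N ≤ n + f → R + 1 ≤ n →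
      X.Sm n s z (X.Alive Y θ x n) (X.rho (n / (R + 1))) ≤
        2 * Ce / n + ∑ m ∈ Ioc n (2 * N), X.Sm m s z (X.Band Y θ x) Ψ := by
    intro f
    induction f with
    | zero =>
      intro n hn _
      exact dead n ((pow_le_pow_of_le_one h0.le h1.le (by omega)).trans hN)
    | succ f ih =>
      intro n hn hRn
      by_cases hd : θ ^ (2 * n) ≤ 1 / x
      · exact dead n hd
      have nN : n < N := by
        by_contra hc
        exact hd ((pow_le_pow_of_le_one h0.le h1.le (by omega)).trans hN)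
      set k := n / (R + 1) with hk
      have k1 : 1 ≤ k := (Nat.one_le_div_iff (by omega)).2 hRn
      have k2 : (R + 1) * k ≤ n := Nat.mul_div_le n (R + 1)
      have k3 : k ≤ n := Nat.div_le_self _ _
      have a1 := hs x hx n hRn Ψ (fun H hH => hΨ H (by omega) (by
        have a2 : (X.B0 : ℝ) ^ H ≤ (X.B0 : ℝ) ^ (2 * (2 * k)) := pow_le_pow_right₀ hB (by omega)
        have a3 : θ ^ (2 * n) ≤ θ ^ (R * (2 * k)) :=
          pow_le_pow_of_le_one h0.le h1.le (by nlinarith)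
        have a4 : θ ^ (R * (2 * k)) * (X.B0 : ℝ) ^ (2 * (2 * k)) ≤ 1 := by
          rw [pow_mul θ R, pow_mul _ 2 (2 * k), ← mul_pow]; exact pow_le_one₀ (by positivity) hR
        have a5 := mul_le_mul ((not_le.1 hd).le.trans a3) a2 (by positivity) (by positivity)
        have a6 := a5.trans a4
        rwa [one_div, inv_mul_le_iff₀ hx, mul_one] at a6)) z
      have a2 := ih (n + k) (by omega) (by omega)
      rw [← hk] at a1
      rw [← sum_Ioc_consecutive _ (Nat.le_add_right n k) (show n + k ≤ 2 * N by omega)]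
      have n0 : (1 : ℝ) ≤ n := by exact_mod_cast (by omega : 1 ≤ n)
      have k5 : (1 : ℝ) ≤ k := by exact_mod_cast k1
      have a3 : Ce / (n : ℝ) ^ 2 + 2 * Ce / ((n + k : ℕ) : ℝ) ≤ 2 * Ce / n := by
        have b1 : 2 * Ce / ((n + k : ℕ) : ℝ) ≤ 2 * Ce / (n + 1) := by
          push_cast; gcongr
        have b2 : Ce / (n : ℝ) ^ 2 ≤ 2 * Ce / (n * (n + 1)) := by
          rw [div_le_div_iff₀ (by positivity) (by positivity)]
          nlinarith [mul_nonneg hCe (mul_nonneg (by linarith : (0 : ℝ) ≤ n)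
            (by linarith : (0 : ℝ) ≤ n - 1))]
        have b3 : 2 * Ce / (n * (n + 1)) + 2 * Ce / (n + 1) = 2 * Ce / n := by
          field_simp; ring
        linarith
      linarith
  exact fun n hn => main N n (by omega) hn

open Classical in
/-- the points of size at most `N` whose orbit passes through `w` -/
noncomputable def Bas (w : S × ℤ) (N : ℕ) : Finset (S × ℤ) :=
  (univ ×ˢ Icc (-(N : ℤ)) N).filter fun v => ∃ n, X.step^[n] v = w

/-- `w` is not periodic -/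
def NP (w : S × ℤ) : Prop := ∀ p, 0 < p → X.step^[p] w ≠ w

theorem count {Y θ x : ℝ} (h0 : 0 < θ) (h1 : θ < 1) (hY : 1 ≤ Y) (hx : 0 < x) {s : S} {z : ℤ}
    (hw : X.NP (s, z)) {Ψ : S → ℤ → ℝ} (hΨ0 : ∀ t y, 0 ≤ Ψ t y) (I : Finset ℕ) {N : ℕ}
    (hN : (|(z : ℝ)| + X.cmx * Y * (1 - θ)⁻¹) * (X.d * x) ≤ N) :
    ∑ m ∈ I, X.Sm m s z (X.Band Y θ x) Ψ ≤
      1 / (x * X.π s) * ∑ v ∈ X.Bas (s, z) N, Ψ v.1 v.2 := by
  classical
  have hπ := X.π_pos s
  set W := X.cmx * Y * (1 - θ)⁻¹ with hW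
  have W0 : 0 ≤ W := by
    have := X.cmx_nonneg
    have := sub_pos.2 h1
    positivity
  set L : Finset (Σ _ : ℕ, List E) :=
    I.sigma fun m => (X.Paths m s).filter fun l => X.Band Y θ x l ∧ X.Val l z with hL
  set φ : (Σ _ : ℕ, List E) → S × ℤ := fun p => (X.endp s p.2, X.yv p.2 z) with hφ
  have mem : ∀ p ∈ L, p.2 ∈ X.Paths p.1 s ∧ X.Band Y θ x p.2 ∧ X.Val p.2 z := fun p hp =>
    mem_filter.1 (mem_sigma.1 hp).2
  have st : ∀ p ∈ L, X.step^[p.1] (φ p) = (s, z) := fun p hp =>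
    X.step_pred (mem p hp).1 (X.yv_mul (mem p hp).2.2)
  have inj : Set.InjOn φ L := by
    have lt : ∀ p ∈ L, ∀ p' ∈ L, φ p = φ p' → ¬ p.1 < p'.1 := by
      intro p hp p' hp' h hlt
      obtain ⟨j, hj⟩ := Nat.exists_eq_add_of_lt hlt
      have a1 := st p' hp'
      rw [hj, add_assoc, add_comm, Function.iterate_add_apply, ← h, st p hp] at a1
      exact hw _ (Nat.succ_pos j) a1
    rintro ⟨m, l⟩ hp ⟨m', l'⟩ hp' h
    obtain rfl : m = m' := le_antisymm (not_lt.1 (lt _ hp' _ hp h.symm)) (not_lt.1 (lt _ hp _ hp' h))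
    obtain ⟨a1, -, a3⟩ := mem _ hp
    obtain ⟨b1, -, b3⟩ := mem _ hp'
    have c1 := X.yv_mul a3
    have c2 := X.yv_mul b3
    simp only [hφ, Prod.mk.injEq] at h c1 c2 a1 b1
    rw [h.2] at c1
    rw [(X.path_unique (u := X.yv l' z) a1 b1 h.1 ⟨z, by linarith⟩ ⟨z, by linarith⟩).1]
  have sub : L.image φ ⊆ X.Bas (s, z) N := by
    intro v hv
    obtain ⟨p, hp, rfl⟩ := mem_image.1 hv
    obtain ⟨a1, ⟨a2, a3, -⟩, a4⟩ := mem p hp
    refine mem_filter.2 ⟨mem_product.2 ⟨mem_univ _, mem_Icc.2 (abs_le.1 ?_)⟩, _, st p hp⟩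
    have b1 := X.yv_near a4 (a2.cP_le h0.le h1 (by linarith))
    have r0 := X.rr_pos p.2
    have hd : (0 : ℝ) < X.d := by exact_mod_cast X.d_pos
    have b2 : |(X.DP p.2 : ℝ) * z / X.bP p.2| = |(z : ℝ)| / X.rr p.2 := by
      rw [abs_div, abs_mul, Nat.abs_cast, rr, div_div_eq_mul_div, mul_comm]
    have b3 : |(X.yv p.2 z : ℝ)| ≤ (|(z : ℝ)| + W) / X.rr p.2 := by
      have := abs_sub_abs_le_abs_sub (X.yv p.2 z : ℝ) (X.DP p.2 * z / X.bP p.2)
      rw [add_div, ← b2]; linarith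
    have b4 : (|(z : ℝ)| + W) / X.rr p.2 ≤ (|(z : ℝ)| + W) * (X.d * x) := by
      rw [div_eq_mul_one_div]
      refine mul_le_mul_of_nonneg_left ?_ (by positivity)
      rw [div_lt_iff₀ (by positivity)] at a3
      rw [div_le_iff₀ r0]; linarith
    have b5 := b3.trans (b4.trans hN)
    exact_mod_cast b5
  calc _ = ∑ p ∈ L, X.wt p.2 * |(X.bP p.2 : ℝ)| * Ψ (φ p).1 (φ p).2 := by
        rw [hL, sum_sigma]
        refine sum_congr rfl fun m _ => ?_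
        rw [Sm, Ex, sum_filter]
        refine sum_congr rfl fun l _ => ?_
        rw [pull_eq]
        by_cases h2 : X.Band Y θ x l <;> by_cases h3 : X.Val l z <;> simp [h2, h3, hφ, mul_assoc]
    _ ≤ ∑ p ∈ L, 1 / (x * X.π s) * Ψ (φ p).1 (φ p).2 := by
        refine sum_le_sum fun p hp => mul_le_mul_of_nonneg_right
          ((X.wt_le (mem p hp).1).trans ?_) (hΨ0 _ _)
        rw [← div_div]
        gcongr
        exact (mem p hp).2.1.2.2
    _ = 1 / (x * X.π s) * ∑ v ∈ L.image φ, Ψ v.1 v.2 := by rw [← mul_sum, sum_image inj]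
    _ ≤ _ := mul_le_mul_of_nonneg_left
        (sum_le_sum_of_subset_of_nonneg sub fun _ _ _ => hΨ0 _ _) (by positivity)

/-- the basin of `w` has positive lower density -/
def PosD (w : S × ℤ) : Prop := ∃ c : ℝ, 0 < c ∧ ∃ N0 : ℕ, ∀ N ≥ N0, c * N ≤ #(X.Bas w N)

theorem core (hM : X.Mix) (hP : X.Poisson fun e => Real.log (|(X.b e : ℝ)| / X.D e)) (hN : X.Neg)
    (s : S) : ∃ (K : ℕ) (r : ℤ), ∀ z : ℤ, (X.B0 : ℤ) ^ K ∣ z - r → X.NP (s, z) → X.PosD (s, z) := by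
  classical
  obtain ⟨θ, h0, h1, hT⟩ := X.small_tail hP hN
  obtain ⟨Y, hY, hPre⟩ := X.pre_prob h0 h1 hT (η := 1 / 4) (by norm_num)
  have hB : (1 : ℝ) ≤ X.B0 := by exact_mod_cast X.B0_pos
  have hd : (1 : ℝ) ≤ X.d := by exact_mod_cast X.d_pos
  have hπ := X.π_pos s
  obtain ⟨R, hR'⟩ := exists_pow_lt_of_lt_one (show 0 < 1 / (X.B0 : ℝ) ^ 2 by positivity) h1
  have hR : θ ^ R * (X.B0 : ℝ) ^ 2 ≤ 1 := by
    rw [lt_div_iff₀ (by positivity)] at hR'; exact hR'.le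
  obtain ⟨Ce, hCe, hs⟩ := X.all_stages hM h0 h1 hY hR hT s
  obtain ⟨C2, c, hC2, hc, ht⟩ := hT
  obtain ⟨n0, hn0⟩ := exists_nat_ge (max ((R : ℝ) + 1) (max (16 * Ce) (4 * C2 / c)))
  have n1 : R + 1 ≤ n0 := by exact_mod_cast (le_max_left _ _).trans hn0
  have n2 : 16 * Ce ≤ n0 := ((le_max_left _ _).trans (le_max_right _ _)).trans hn0
  have n3 : 4 * C2 / c ≤ n0 := ((le_max_right _ _).trans (le_max_right _ _)).trans hn0
  have n4 : (0 : ℝ) < n0 := by exact_mod_cast (by omega : 0 < n0)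
  set A0 : List E → Prop := fun l => X.Pre Y θ l ∧ X.rr l ≤ θ ^ (2 * n0) with hA0
  have pr : 1 / 2 ≤ X.Pr n0 s A0 := by
    have a1 : X.Pr n0 s (fun _ => True) = 1 := by simp [Pr, Ex_const]
    have a2 : X.Pr n0 s (fun _ => True) ≤ X.Pr n0 s
        (fun l => A0 l ∨ (¬ X.Pre Y θ l ∨ θ ^ (2 * n0) < X.rr l)) :=
      X.Pr_mono fun l _ _ => by simp only [hA0, ← not_le]; tauto
    have a3 := a2.trans ((X.Pr_or _ _ _ _).trans (add_le_add le_rfl ((X.Pr_or _ _ _ _).trans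
      (add_le_add (hPre n0 s) (ht n0 s)))))
    have a4 : C2 * Real.exp (-(c * n0)) ≤ 1 / 4 := by
      rw [Real.exp_neg, ← div_eq_mul_inv, div_le_iff₀ (Real.exp_pos _)]
      rw [div_le_iff₀ hc] at n3
      linarith [Real.add_one_le_exp (c * n0)]
    linarith
  set h := n0 / (R + 1) with hh
  obtain ⟨r, -, hr⟩ := exists_le_of_sum_le (s := range (X.B0 ^ (n0 + h)))
    (f := fun _ => (1 / 2 : ℝ)) (g := fun z : ℕ => X.Sm n0 s z A0 (X.rho h))
    (nonempty_range_iff.2 (pow_pos X.B0_pos _).ne') (by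
      rw [Sm_avg, sum_const, card_range, nsmul_eq_mul, mul_comm]
      gcongr)
  refine ⟨n0 + h, r, fun z hz hw => ?_⟩
  have hV : 1 / 2 ≤ X.Sm n0 s z A0 (X.rho h) := by
    obtain ⟨k, hk⟩ := hz
    have := per_int_mul (fun z => X.Sm n0 s z A0 (X.rho h)) _ (fun z => X.Sm_per n0 h s z A0) k r
    rw [show z = r + k * (X.B0 ^ (n0 + h) : ℕ) by push_cast; linarith, this]
    exact hr
  obtain ⟨C1, hC1, hv⟩ := X.Var_avg hM 1
  set W := X.cmx * Y * (1 - θ)⁻¹ with hW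
  have W0 : 0 ≤ W := by
    have := X.cmx_nonneg
    have := sub_pos.2 h1
    positivity
  set κ := (|(z : ℝ)| + W + 1) * X.d with hκ
  have κ0 : 0 < κ := by positivity
  obtain ⟨g, hg⟩ := exists_nat_ge (1 + 8 * (Fintype.card S * C1 * (2 * κ + 1) / X.π s))
  have g0 : 0 ≤ Fintype.card S * C1 * (2 * κ + 1) / X.π s := by positivity
  have g1 : 1 ≤ g := by exact_mod_cast (by linarith : (1 : ℝ) ≤ g)
  obtain ⟨N0, hN0⟩ := exists_nat_gt ((X.d : ℝ) ^ n0 * κ)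
  refine ⟨X.π s / (4 * κ * (X.B0 : ℝ) ^ g), by positivity, N0, fun N hNN => ?_⟩
  set x := N / κ with hx
  have x1 : (X.d : ℝ) ^ n0 < x := by
    rw [hx, lt_div_iff₀ κ0]; exact hN0.trans_le (by exact_mod_cast hNN)
  have x2 : 1 ≤ x := (one_le_pow₀ hd).trans x1.le
  have x0 : 0 < x := by linarith
  have x3 : (N : ℝ) = κ * x := by rw [hx]; field_simp
  obtain ⟨N1, hN1⟩ := exists_pow_lt_of_lt_one (show 0 < 1 / x by positivity) h1
  have hN2 : θ ^ (2 * N1) ≤ 1 / x := (pow_le_pow_of_le_one h0.le h1.le (by omega)).trans hN1.le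
  set Hm := Nat.findGreatest (fun H => (X.B0 : ℝ) ^ H ≤ x) (3 * N1) with hHm
  have m1 : (X.B0 : ℝ) ^ Hm ≤ x :=
    Nat.findGreatest_spec (P := fun H => (X.B0 : ℝ) ^ H ≤ x) (Nat.zero_le _) (by simpa using x2)
  set Ψ : S → ℤ → ℝ := fun t y => (X.B0 : ℝ) ^ g + X.Var g Hm t y with hΨ
  have Ψ0 : ∀ t y, 0 ≤ Ψ t y := fun t y => add_nonneg (by positivity) (X.Var_nonneg _ _ _ _)
  have a1 := hs x x0 N1 hN2 Ψ (fun H hH hB' t y => by
    rcases le_total H g with c1 | c1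
    · exact ((X.rho_le H t y).trans (pow_le_pow_right₀ hB c1)).trans
        (le_add_of_nonneg_right (X.Var_nonneg _ _ _ _))
    · have c2 := (abs_le.1 (X.abs_rho_sub c1 (Nat.le_findGreatest
        (P := fun H => (X.B0 : ℝ) ^ H ≤ x) hH hB') t y)).2
      have c3 := X.rho_le g t y
      simp only [hΨ]; linarith) Ψ0 z n0 n1
  have a2 := X.count h0 h1 hY x0 hw Ψ0 (Ioc n0 (2 * N1)) (N := N) (by
    rw [x3, hκ, ← hW, mul_assoc]
    exact mul_le_mul_of_nonneg_right (by linarith) (by positivity))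
  have a3 : X.Sm n0 s z A0 (X.rho h) = X.Sm n0 s z (X.Alive Y θ x n0) (X.rho h) := by
    refine X.Ex_congr fun l hl => ?_
    have := X.rr_ge l
    rw [X.length_of_mem_Paths hl] at this
    have e : A0 l = X.Alive Y θ x n0 l := propext ⟨fun a => ⟨a.1, lt_of_lt_of_le
      (one_div_lt_one_div_of_lt (by positivity) x1) this, a.2⟩, fun a => ⟨a.1, a.2.2⟩⟩
    rw [e]
  have a4 : ∑ v ∈ X.Bas (s, z) N, X.Var g Hm v.1 v.2
      ≤ Fintype.card S * (C1 / g * ((2 * κ + 1) * x)) := by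
    calc _ ≤ ∑ v ∈ univ ×ˢ Icc (-(N : ℤ)) N, X.Var g Hm v.1 v.2 :=
          sum_le_sum_of_subset_of_nonneg (filter_subset _ _) fun _ _ _ => X.Var_nonneg _ _ _ _
      _ ≤ ∑ _t : S, C1 / g * ((2 * κ + 1) * x) := by
          rw [sum_product]
          refine sum_le_sum fun t _ => ?_
          refine (win_per (X.Var g Hm t) _ (pow_pos X.B0_pos Hm) (X.Var_per _ _ _)
            (X.Var_nonneg _ _ _) _ (hv g Hm g1 t) _ 0 N (by positivity) fun y hy => ?_).trans ?_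
          · rw [sub_zero]; exact_mod_cast abs_le.2 (mem_Icc.1 hy)
          · rw [pow_one]
            refine mul_le_mul_of_nonneg_left ?_ (by positivity)
            push_cast; linarith
      _ = _ := by rw [sum_const, card_univ, nsmul_eq_mul]
  have a5 : ∑ v ∈ X.Bas (s, z) N, Ψ v.1 v.2 ≤ #(X.Bas (s, z) N) * (X.B0 : ℝ) ^ g
      + Fintype.card S * (C1 / g * ((2 * κ + 1) * x)) := by
    simp only [hΨ]
    rw [sum_add_distrib, sum_const, nsmul_eq_mul]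
    linarith
  have a6 : 2 * Ce / n0 ≤ 1 / 8 := by rw [div_le_iff₀ n4]; linarith
  have a7 : 1 / (x * X.π s) * (Fintype.card S * (C1 / g * ((2 * κ + 1) * x))) ≤ 1 / 8 := by
    have g2 : (0 : ℝ) < g := by exact_mod_cast g1
    have e : 1 / (x * X.π s) * (Fintype.card S * (C1 / g * ((2 * κ + 1) * x)))
        = Fintype.card S * C1 * (2 * κ + 1) / X.π s / g := by field_simp
    rw [e, div_le_iff₀ g2]; linarith
  have a8 := mul_le_mul_of_nonneg_left a5 (show 0 ≤ 1 / (x * X.π s) by positivity)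
  rw [mul_add] at a8
  have a9 : 1 / 4 ≤ 1 / (x * X.π s) * (#(X.Bas (s, z) N) * (X.B0 : ℝ) ^ g) := by linarith
  rw [one_div (x * _), ← div_eq_inv_mul, le_div_iff₀ (by positivity)] at a9
  rw [x3, div_mul_eq_mul_div, div_le_iff₀ (by positivity)]
  nlinarith

end Sys

end Pool.Agent.Lib.MP_39d40e_nt
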