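import Pool.Agent.Lib.MP_39d40e_nt.PdC

/-! Positive density of basins, part D: orbits of an affine map fill residue classes. -/

namespace Pool.Agent.Lib.MP_39d40e_nt

open Finset

theorem geo_mul (a : ℤ) (P i : ℕ) :
    ∑ j ∈ range (P * i), a ^ j = (∑ j ∈ range P, a ^ j) * ∑ j ∈ range i, (a ^ P) ^ j := by
  induction i with
  | zero => simp
  | succ i ih =>
    rw [Nat.mul_succ, sum_range_add, ih, sum_range_succ, mul_add, sum_mul, sum_mul]
    congr 1
    exact sum_congr rfl fun j _ => by rw [pow_add, pow_mul]; ring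

theorem geo_cong {M c : ℤ} (h : M ∣ c - 1) (i : ℕ) : M ∣ ∑ j ∈ range i, c ^ j - i := by
  induction i with
  | zero => simp
  | succ i ih =>
    have := ih.add (h.trans (sub_one_dvd_pow_sub_one c i))
    rw [sum_range_succ]; push_cast
    rwa [show ∑ j ∈ range i, c ^ j + c ^ i - ((i : ℤ) + 1)
      = ∑ j ∈ range i, c ^ j - i + (c ^ i - 1) by ring]

theorem geo_pow {B : ℕ} {a : ℤ} (ha : (B : ℤ) ^ 2 ∣ a - 1) (m : ℕ) :
    ∃ v : ℤ, ∑ j ∈ range (B ^ m), a ^ j = (B : ℤ) ^ m * (1 + B * v) := by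
  induction m with
  | zero => exact ⟨0, by simp⟩
  | succ m ih =>
    obtain ⟨v, hv⟩ := ih
    obtain ⟨w, hw⟩ := geo_cong (ha.trans (sub_one_dvd_pow_sub_one a (B ^ m))) B
    refine ⟨v + w + B * v * w, ?_⟩
    rw [pow_succ, geo_mul, hv, eq_add_of_sub_eq hw]; ring

theorem geo_onto {B : ℕ} (hB : 0 < B) {a : ℤ} (ha : (B : ℤ) ^ 2 ∣ a - 1) (t : ℤ) (j0 K : ℕ) :
    ∃ j ≥ j0, (B : ℤ) ^ K ∣ ∑ i ∈ range j, a ^ i - t := by
  induction K with
  | zero => exact ⟨j0, le_rfl, by simp⟩
  | succ K ih =>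
    obtain ⟨j, hj, e, he⟩ := ih
    obtain ⟨v, hv⟩ := geo_pow ha K
    have hB' : (0 : ℤ) < B := by exact_mod_cast hB
    have h1 : (B : ℤ) ∣ a - 1 := (dvd_pow_self _ two_ne_zero).trans ha
    obtain ⟨i, hi⟩ := Int.eq_ofNat_of_zero_le (Int.emod_nonneg (-e) hB'.ne')
    obtain ⟨p, hp⟩ := geo_cong (h1.trans (sub_one_dvd_pow_sub_one a (B ^ K))) i
    obtain ⟨r, hr⟩ := h1.trans (sub_one_dvd_pow_sub_one a j)
    have h2 := Int.emod_add_mul_ediv (-e) B
    refine ⟨j + B ^ K * i, by omega, ?_⟩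
    rw [sum_range_add]
    simp only [pow_add]
    rw [← mul_sum, geo_mul, hv, eq_add_of_sub_eq hp, eq_add_of_sub_eq hr, eq_add_of_sub_eq he]
    refine ⟨-(-e / B) + p + (r + v + B * r * v) * (B * p + i), ?_⟩
    rw [hi] at h2
    linear_combination ((B : ℤ) ^ K) * h2

theorem aff_iter (a c z : ℤ) (j : ℕ) :
    (fun y => a * y - c)^[j] z - z = (∑ i ∈ range j, a ^ i) * (a * z - c - z) := by
  induction j with
  | zero => simp
  | succ j ih => rw [Function.iterate_succ_apply', geom_sum_succ]; linear_combination a * ih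

theorem aff_inj {a c z : ℤ} (h2 : 1 < a.natAbs) (hz : a * z - c ≠ z) :
    Function.Injective fun j => (fun y => a * y - c)^[j] z := by
  intro i j h
  have h1 := aff_iter a c z i
  have h3 := aff_iter a c z j
  simp only at h
  rw [h, h3] at h1
  have h4 := mul_right_cancel₀ (sub_ne_zero.2 hz) h1
  have h5 := geom_sum_mul a i
  rw [← h4, geom_sum_mul] at h5
  exact (Int.pow_right_injective h2 (sub_left_injective h5)).symm

theorem aff_dense {B : ℕ} (hB : 0 < B) {a c z : ℤ} (ha : IsCoprime (B : ℤ) a) (h2 : 1 < a.natAbs)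
    (hz : a * z - c ≠ z) : ∃ k : ℕ, ∀ (K j0 : ℕ) (r : ℤ), (B : ℤ) ^ k ∣ r - z →
      ∃ j ≥ j0, (B : ℤ) ^ K ∣ (fun y => a * y - c)^[j] z - r := by
  obtain ⟨N, hN, hN2⟩ : ∃ N : ℕ, 0 < N ∧ (B : ℤ) ^ 2 ∣ a ^ N - 1 := by
    have hu : IsUnit (a : ZMod (B ^ 2)) :=
      (ZMod.coe_int_isUnit_iff_isCoprime a (B ^ 2)).2 (by push_cast; exact ha.pow_left)
    refine ⟨Nat.totient (B ^ 2), Nat.totient_pos.2 (by positivity), ?_⟩
    have h1 := congrArg Units.val (ZMod.pow_totient hu.unit)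
    have h3 := (ZMod.intCast_zmod_eq_zero_iff_dvd (a ^ Nat.totient (B ^ 2) - 1) (B ^ 2)).1 (by
      rw [Units.val_pow_eq_pow_val, IsUnit.unit_spec, Units.val_one] at h1
      push_cast; rw [h1, sub_self])
    exact_mod_cast h3
  set w := (∑ i ∈ range N, a ^ i) * (a * z - c - z) with hw
  have w0 : w ≠ 0 := by
    intro h
    have h1 := aff_iter a c z N
    rw [← hw, h, sub_eq_zero] at h1
    exact hN.ne' (aff_inj h2 hz (a₁ := N) (a₂ := 0) h1)
  refine ⟨w.natAbs, fun K j0 r hr => ?_⟩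
  have g0 : Int.gcd w (B ^ K) ≠ 0 := fun h => w0 (Int.gcd_eq_zero_iff.1 h).1
  have g1 : Int.gcd w (B ^ K) ∣ B ^ w.natAbs := dvd_pow_of_primes g0 hB.ne' (fun p hp h => by
      have h1 : (p : ℤ) ∣ (B : ℤ) ^ K := (Int.natCast_dvd_natCast.2 h).trans (Int.gcd_dvd_right ..)
      exact hp.dvd_of_dvd_pow (n := K) (by exact_mod_cast h1))
    (Nat.le_of_dvd (Int.natAbs_pos.2 w0) (Int.natCast_dvd.1 (Int.gcd_dvd_left ..)))
  obtain ⟨e, he⟩ : (Int.gcd w (B ^ K) : ℤ) ∣ r - z :=
    (by exact_mod_cast g1 : (Int.gcd w (B ^ K) : ℤ) ∣ (B : ℤ) ^ w.natAbs).trans hr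
  obtain ⟨j, hj, f, hf⟩ := geo_onto hB hN2 (Int.gcdA w (B ^ K) * e) j0 K
  refine ⟨N * j, hj.trans (Nat.le_mul_of_pos_left _ hN), w * f - Int.gcdB w (B ^ K) * e, ?_⟩
  have h1 := aff_iter a c z (N * j)
  rw [geo_mul] at h1
  rw [Int.gcd_eq_gcd_ab] at he
  linear_combination h1 - he + w * hf - (∑ j ∈ range j, (a ^ N) ^ j) * hw

namespace Sys

variable {S E : Type*} [Fintype S] [Fintype E] [DecidableEq S] [DecidableEq E] (X : Sys S E)

theorem exists_good2 (hI : X.Irred) (h : X.Neg) (s0 : S) (g g' : List E) (hg : X.Pa s0 g s0)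
    (hg' : X.Pa s0 g' s0) (hind : ∀ x y : ℕ, 0 < x + y → X.rr g ^ y ≠ X.rr g' ^ x) :
    ∃ L, 0 < L ∧ (X.pow L).Good := by
  obtain ⟨n0, hn1, hn0⟩ := exists_n0 hI h
  choose p p' hp hp' hne hlen hb hD using fun s => exists_para hI h s
  set L := ∑ s, (p s).length + n0 with hL
  refine ⟨L, by omega, ?_, fun φ hφ => (X.pow_poisson hI L hφ).2, ?_, ?_, ?_⟩
  · intro e; exact hn0 L _ _ (by omega) (X.mem_PF.1 e.2)
  · rw [(X.pow_poisson hI L addi_log).1]
    exact mul_neg_of_pos_of_neg (by exact_mod_cast (by omega : 0 < L)) h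
  · intro s
    have h1 : (p s).length ≤ ∑ s, (p s).length :=
      single_le_sum (f := fun s => (p s).length) (fun _ _ => Nat.zero_le _) (mem_univ s)
    obtain ⟨w, hw⟩ := exists_path (X := X) (L - (p s).length) s
    have lw := X.length_of_mem_Paths hw
    have a1 := (hp s).append (Pa.of_mem hw)
    have a2 := (hp' s).append (Pa.of_mem hw)
    have l1 : (p s ++ w).length = L := by rw [List.length_append, lw]; omega
    have l2 : (p' s ++ w).length = L := by rw [List.length_append, lw, ← hlen]; omega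
    refine ⟨⟨(s, p s ++ w), X.mem_PF.2 (l1 ▸ a1.1)⟩, ⟨(s, p' s ++ w), X.mem_PF.2 (l2 ▸ a2.1)⟩,
      fun he => hne s ?_, rfl, rfl, a1.2.trans a2.2.symm, ?_, ?_⟩
    · have : p s ++ w = p' s ++ w := congrArg (fun e => e.1.2) he
      exact List.append_cancel_right this
    · change X.bP (p s ++ w) = X.bP (p' s ++ w)
      rw [bP_append, bP_append, hb]
    · change X.DP (p s ++ w) = X.DP (p' s ++ w)
      rw [DP_append, DP_append, hD]
  · intro q _ _
    obtain ⟨x, y, hxy, hv⟩ : ∃ x y : ℕ, 0 < x + y ∧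
        y * (X.DP g).factorization q = x * (X.DP g').factorization q := by
      by_cases h0 : 0 < (X.DP g).factorization q + (X.DP g').factorization q
      · exact ⟨_, _, h0, mul_comm _ _⟩
      · exact ⟨1, 1, by norm_num, by omega⟩
    have hL0 : 0 < L := by omega
    set G := rep g (y * L) with hG
    set G' := rep g' (x * L) with hG'
    have r0 : X.rP G' ≠ 0 := by
      intro h0
      have := X.abs_rP G'
      rw [h0] at this
      have := X.rr_pos G'
      simp_all
    refine ⟨X.rP G / X.rP G', ?_, fun s => ?_⟩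
    · intro h1
      rw [abs_div, div_eq_one_iff_eq (abs_ne_zero.2 r0)] at h1
      have h2 : X.rr G = X.rr G' := by rw [← abs_rP, ← abs_rP, h1]
      rw [hG, hG', rr_rep, rr_rep] at h2
      exact hind _ _ (by rw [← add_mul]; positivity) h2
    · obtain ⟨a, ha⟩ := hI.conn s s0
      obtain ⟨w, hw⟩ := exists_path (X := X) (a.length * (L - 1)) s0
      have lw := X.length_of_mem_Paths hw
      have a1 := ha.append ((hg.rep (y * L)).append (Pa.of_mem hw))
      have a2 := ha.append ((hg'.rep (x * L)).append (Pa.of_mem hw))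
      obtain ⟨L', hL'⟩ : ∃ L', L = L' + 1 := ⟨L - 1, by omega⟩
      have l1 : (a ++ (G ++ w)).length = (a.length + y * g.length) * L := by
        simp only [List.length_append, hG, length_rep, lw]
        rw [hL', Nat.add_sub_cancel]; ring
      have l2 : (a ++ (G' ++ w)).length = (a.length + x * g'.length) * L := by
        simp only [List.length_append, hG', length_rep, lw]
        rw [hL', Nat.add_sub_cancel]; ring
      obtain ⟨H, c1, c2, c3, c4⟩ := X.chunk L _ s _ (l1 ▸ a1.1)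
      obtain ⟨H', d1, d2, d3, d4⟩ := X.chunk L _ s _ (l2 ▸ a2.1)
      refine ⟨H, H', c1, d1, by rw [c2, d2, a1.2, a2.2], ?_, ?_⟩
      · rw [c4, d4]
        simp only [DP_append, DP_rep]
        have p1 := (X.DP_pos a).ne'
        have p2 := (X.DP_pos w).ne'
        have p3 := (X.DP_pos g).ne'
        have p4 := (X.DP_pos g').ne'
        rw [Nat.factorization_mul p1 (by positivity), Nat.factorization_mul p1 (by positivity),
          Nat.factorization_mul (by positivity) p2, Nat.factorization_mul (by positivity) p2,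
          Nat.factorization_pow, Nat.factorization_pow]
        simp only [Finsupp.add_apply, Finsupp.smul_apply, smul_eq_mul]
        congr 2
        rw [mul_right_comm, hv, mul_right_comm]
      · have e1 : (X.pow L).rP H = X.rP (a ++ (G ++ w)) := by rw [rP, c3, c4]; rfl
        have e2 : (X.pow L).rP H' = X.rP (a ++ (G' ++ w)) := by rw [rP, d3, d4]; rfl
        rw [e1, e2]
        simp only [rP_append]
        field_simp

/-- some class modulo a power of `B0` consists of points with large basins -/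
def Open : Prop :=
  ∀ s, ∃ (K : ℕ) (r : ℤ), ∀ z : ℤ, (X.B0 : ℤ) ^ K ∣ z - r → X.NP (s, z) → X.PosD (s, z)

theorem open_of_good {L : ℕ} (hL : 0 < L) (h : (X.pow L).Good) : X.Open := by
  classical
  intro s
  obtain ⟨K, r, hK⟩ := (X.pow L).core h.mix (h.poisson _ addi_log) h.drift s
  have e : (X.pow L).step = X.step^[L] := funext (X.pow_step L)
  have hd : (X.pow L).B0 ∣ X.B0 ^ (L * Fintype.card (X.PE L)) := by
    rw [pow_mul, ← card_univ, ← prod_const]
    refine prod_dvd_prod_of_dvd _ _ fun e _ => ?_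
    have := X.natAbs_bP_dvd e.1.2
    rwa [X.length_of_mem_Paths (X.mem_PF.1 e.2)] at this
  refine ⟨L * Fintype.card (X.PE L) * K, r, fun z hz hw => ?_⟩
  obtain ⟨c, hc, N0, hN⟩ := hK z (Dvd.dvd.trans (by
    rw [pow_mul]; exact pow_dvd_pow_of_dvd (by exact_mod_cast hd) K) hz) (fun p hp => by
    rw [e, ← Function.iterate_mul]; exact hw _ (Nat.mul_pos hL hp))
  refine ⟨c, hc, N0, fun N hN' => (hN N hN').trans (Nat.cast_le.2 (card_le_card fun v hv => ?_))⟩
  obtain ⟨h1, n, h2⟩ := mem_filter.1 hv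
  rw [e, ← Function.iterate_mul] at h2
  exact mem_filter.2 ⟨h1, _, h2⟩

theorem mix_of_one (h : X.B0 = 1) : X.Mix := by
  intro A
  refine ⟨0, fun n _ s g hp h0 _ => ?_⟩
  have : ∀ t M D x, g t M D x = 0 := by
    intro t M D x
    have a1 := h0 t M D
    have a2 := (hp t M D).int_mul x 0
    rw [h] at a1 a2
    simp at a1 a2
    rw [a2, a1]
  simp [this, Ex_const]

theorem open_of_unit (hI : X.Irred) (hN : X.Neg) {s0 : S} {u : List E} (hu : X.Pa s0 u s0)
    (hb : |X.bP u| = 1) (hD : 2 ≤ X.DP u) : X.Open := by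
  by_cases h : X.B0 = 1
  · exact X.core (X.mix_of_one h) (hI.poisson _) hN
  obtain ⟨e, he⟩ : ∃ e, (X.b e).natAbs ≠ 1 := by
    by_contra hn
    push Not at hn
    exact h (prod_eq_one fun e _ => hn e)
  obtain ⟨k, hk⟩ := hI.conn s0 (X.tgt e)
  obtain ⟨w, hw⟩ := hI.conn (X.src e) s0
  obtain ⟨L, hL, hG⟩ := X.exists_good2 hI hN s0 _ u (hk.append ((Pa.single e).append hw)) hu (by
    intro x y hxy h1
    set g := k ++ ([e] ++ w) with hg
    have p1 : (0 : ℝ) < X.DP g := by exact_mod_cast X.DP_pos g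
    have p2 : (2 : ℝ) ≤ X.DP u := by exact_mod_cast hD
    have p3 : |(X.bP u : ℝ)| = 1 := by exact_mod_cast hb
    rw [rr, rr, p3, div_pow, div_pow, one_pow, div_eq_div_iff (by positivity) (by positivity),
      one_mul] at h1
    have h2 : |X.bP g| ^ y * (X.DP u : ℤ) ^ x = (X.DP g : ℤ) ^ y := by exact_mod_cast h1
    rcases Nat.eq_zero_or_pos y with rfl | hy
    · have : (1 : ℝ) < (X.DP u : ℝ) ^ x := one_lt_pow₀ (by linarith) (by omega)
      simp only [pow_zero, one_mul] at h1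
      linarith
    · have h3 : X.b e ∣ X.bP g := by
        rw [hg, bP_append, bP_append]
        exact Dvd.dvd.mul_left (Dvd.dvd.mul_right (by simp) _) _
      have h4 : X.b e ∣ (X.DP g : ℤ) ^ y := by
        rw [← h2]
        exact ((h3.trans (self_dvd_abs _)).trans (dvd_pow_self _ hy.ne')).mul_right _
      have h5 : IsCoprime (X.b e) ((X.DP g : ℤ) ^ y) := by
        simpa using (X.bP_cop_DP [e] g).pow_right
      exact he (Int.isUnit_iff_natAbs_eq.1 (h5.isUnit_of_dvd' dvd_rfl h4)))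
  exact X.open_of_good hL hG

omit [DecidableEq E] in
theorem PosD.iter {X : Sys S E} {v : S × ℤ} (h : X.PosD v) (n : ℕ) : X.PosD (X.step^[n] v) := by
  classical
  obtain ⟨c, hc, N0, hN⟩ := h
  refine ⟨c, hc, N0, fun N hN' => (hN N hN').trans (Nat.cast_le.2 (card_le_card fun w hw => ?_))⟩
  obtain ⟨h1, m, h2⟩ := mem_filter.1 hw
  exact mem_filter.2 ⟨h1, n + m, by rw [Function.iterate_add_apply, h2]⟩

omit [DecidableEq E] in
theorem NP.pred {X : Sys S E} {v : S × ℤ} {n : ℕ} (h : X.NP (X.step^[n] v)) : X.NP v := by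
  intro p hp e
  refine h p hp ?_
  rw [← Function.iterate_add_apply, add_comm, Function.iterate_add_apply, e]

theorem Open.push {X : Sys S E} (h : X.Open) {s : S} {l : List E} (hl : l ∈ X.Paths l.length s) :
    ∃ (K : ℕ) (r : ℤ), X.Val l r ∧
      ∀ z : ℤ, (X.B0 : ℤ) ^ K ∣ z - r → X.NP (s, z) → X.PosD (s, z) := by
  obtain ⟨K, r, hK⟩ := h (X.endp s l)
  have hc : IsCoprime (X.bP l * (X.B0 : ℤ) ^ K) (X.DP l) := (X.bP_cop_DP l l).mul_left
    ((X.B0_cop.pow (m := K) (n := l.length)).of_isCoprime_of_dvd_right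
      (by exact_mod_cast X.DP_dvd l))
  obtain ⟨a, b, hab⟩ := hc
  obtain ⟨w, hw⟩ := X.bP_dvd l
  set t := X.bP l * r + X.cP l with ht
  refine ⟨l.length + K, b * t, ⟨r - a * t * X.B0 ^ K, by linear_combination t * hab + ht⟩,
    fun z hz hz' => ?_⟩
  obtain ⟨m, hm⟩ := hz
  have st := X.step_pred hl (y := r + X.B0 ^ K * (X.DP l * w * m - a * t)) (z := z) (by
    rw [pow_add, hw] at hm
    linear_combination -t * hab - ht - X.DP l * hm)
  rw [← st] at hz' ⊢
  exact (hK _ ⟨X.DP l * w * m - a * t, by ring⟩ hz'.pred).iter _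

theorem unit_main (hI : X.Irred) (hN : X.Neg) {s0 : S} {u : List E} (hu : X.Pa s0 u s0)
    (hu0 : 0 < u.length) (hb : |X.bP u| = 1) (z : ℤ) (hz : X.bP u * z ≠ X.DP u * z - X.cP u)
    (hdeep : ∀ k : ℕ, ∃ l, l ∈ X.Paths l.length s0 ∧ (X.B0 : ℤ) ^ k ∣ X.bP l ∧
      (X.B0 : ℤ) ^ k ∣ X.DP l * z - X.cP l) : X.PosD (s0, z) := by
  classical
  have hD : 2 ≤ X.DP u := by
    obtain ⟨n0, -, hn0⟩ := exists_n0 hI hN
    have h1 := hn0 _ _ _ (by rw [length_rep]; exact Nat.le_mul_of_pos_right _ hu0) (hu.rep n0).1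
    rw [DP_rep] at h1
    by_contra h2
    have h3 : X.DP u = 1 := by have := X.DP_pos u; omega
    rw [h3, one_pow] at h1; omega
  have hO := X.open_of_unit hI hN hu hb hD
  have bb : X.bP u * X.bP u = 1 := by rw [← abs_mul_abs_self, hb, one_mul]
  set a := X.bP u * X.DP u with ha
  set c := X.bP u * X.cP u with hc
  have a1 : 1 < a.natAbs := by
    have : (X.bP u).natAbs = 1 := by rw [Int.abs_eq_natAbs] at hb; exact_mod_cast hb
    rw [ha, Int.natAbs_mul, this, one_mul, Int.natAbs_natCast]; omega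
  have a2 : a * z - c ≠ z := fun h => hz (by
    linear_combination (-X.bP u) * h + X.bP u * z * ha - X.bP u * hc + (X.DP u * z - X.cP u) * bb)
  have a3 : IsCoprime (X.B0 : ℤ) a := by
    refine IsCoprime.mul_right ⟨0, X.bP u, by linear_combination bb⟩ ?_
    exact (X.B0_cop.pow_right (n := u.length)).of_isCoprime_of_dvd_right
      (by exact_mod_cast X.DP_dvd u)
  set v : ℕ → S × ℤ := fun j => (s0, (fun y => a * y - c)^[j] z) with hv
  have st : ∀ j, X.step^[u.length * j] (v j) = (s0, z) := by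
    intro j
    induction j with
    | zero => rfl
    | succ j ih =>
      rw [Nat.mul_succ, Function.iterate_add_apply, ← ih]
      congr 1
      have := X.step_pred hu.1 (y := a * (v j).2 - c) (z := (v j).2) (by
        linear_combination X.bP u * (v j).2 * ha - X.bP u * hc + (X.DP u * (v j).2 - X.cP u) * bb)
      rw [hu.2] at this
      simp only [hv, Function.iterate_succ_apply'] at this ⊢
      exact this
  obtain ⟨j0, hj0⟩ : ∃ j0, ∀ j ≥ j0, X.NP (v j) := by
    by_cases h : X.NP (s0, z)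
    · exact ⟨0, fun j _ => NP.pred (n := u.length * j) (by rw [st]; exact h)⟩
    simp only [NP, not_forall, not_not] at h
    obtain ⟨p, hp, e⟩ := h
    have fin : {j | ¬ X.NP (v j)}.Finite := by
      refine Set.Finite.of_injOn (f := v) (t := ↑((range p).image fun i => X.step^[i] (s0, z)))
        (fun j hj => ?_) (fun i _ j _ h => aff_inj a1 a2 (congrArg Prod.snd h)) (finite_toSet _)
      simp only [NP, not_forall, not_not, Set.mem_ofPred_eq] at hj
      obtain ⟨q, hq, e'⟩ := hj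
      obtain ⟨q, rfl⟩ := Nat.exists_eq_succ_of_ne_zero hq.ne'
      have b1 : X.step^[(q + 1) * (u.length * j)] (v j) = v j :=
        Function.IsPeriodicPt.mul_const e' _
      rw [add_mul, one_mul, Function.iterate_add_apply, st] at b1
      simp only [coe_image, coe_range, Set.mem_image, Set.mem_Iio]
      exact ⟨_, Nat.mod_lt _ hp, (Function.IsPeriodicPt.iterate_mod_apply e _).trans b1⟩
    obtain ⟨m, hm⟩ := fin.bddAbove
    exact ⟨m + 1, fun j hj => by_contra fun h => by have := hm h; omega⟩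
  obtain ⟨k, hk⟩ := aff_dense X.B0_pos a3 a1 a2
  obtain ⟨l, hl, d1, d2⟩ := hdeep k
  obtain ⟨K, r, hr, hK⟩ := hO.push hl
  obtain ⟨j, hj, hj'⟩ := hk K j0 r (by
    have b1 : (X.B0 : ℤ) ^ k ∣ X.DP l * (r - z) := by
      have := (d1.trans hr).sub d2
      rwa [show X.DP l * (r - z) = X.DP l * r - X.cP l - (X.DP l * z - X.cP l) by ring]
    exact ((X.B0_cop.pow (m := k) (n := l.length)).of_isCoprime_of_dvd_right
      (by exact_mod_cast X.DP_dvd l)).dvd_of_dvd_mul_left b1)
  rw [← st j]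
  exact (hK _ hj' (hj0 j hj)).iter _

end Sys

end Pool.Agent.Lib.MP_39d40e_nt
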