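import Pool.Agent.Lib.MP_39d40e_nt.PdD

/-! Positive density of basins, part E: transfer to Leigh's chain. -/

namespace Pool.Agent.Lib.MP_39d40e_nt

open Finset Filter

namespace LData

variable (L : LData)

theorem exists_val {s : ℕ × ℕ} (hs : s ∈ L.C) {x : ℤ} (h : x ≡ s.1 [ZMOD (L.d * s.2 : ℕ)]) :
    ∃ u, L.val (⟨s, hs⟩, u) = x := by
  obtain ⟨u, hu⟩ := h.symm.dvd
  exact ⟨u, by unfold val; push_cast at hu ⊢; linarith⟩

theorem val_mod (x : L.St × ℤ) : L.val x ≡ x.1.1.1 [ZMOD (L.d * x.1.1.2 : ℕ)] :=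
  (Int.modEq_iff_dvd.2 ⟨x.2, by unfold val; push_cast; ring⟩).symm

theorem val_cast (x : L.St × ℤ) : (L.val x : ZMod L.d) = (x.1.1.1 : ZMod L.d) := by
  unfold val; push_cast; simp

theorem follow (x : L.St × ℤ) (τ : ℕ → ℕ × ℕ) (N : ℕ) (h0 : τ 0 = x.1.1)
    (h1 : ∀ t < N, 0 < P L.d L.m L.r L.a (τ t) (τ (t + 1)))
    (h2 : ∀ t ≤ N, (T L.d L.m L.r)^[t] (L.val x) ≡ (τ t).1 [ZMOD (L.d * (τ t).2 : ℕ)]) :
    ∀ t ≤ N, (L.sys.step^[t] x).1.1 = τ t := by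
  intro t
  induction t with
  | zero => intro _; exact h0.symm
  | succ t ih =>
    intro ht
    have a0 := ih (by omega)
    have a1 := (L.P_pos _ _).1 (h1 t (by omega))
    have a2 := h2 (t + 1) ht
    rw [← L.val_iter] at a2
    have a3 := L.val_mod (L.sys.step^[t + 1] x)
    have a4 : L.Tr (τ t) (L.sys.step^[t + 1] x).1.1 := by
      rw [Function.iterate_succ_apply', ← a0, ← L.sys.lab_src (L.sys.step^[t] x)]
      exact (L.sys.lab (L.sys.step^[t] x)).2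
    generalize L.val (L.sys.step^[t + 1] x) = y at a2 a3
    generalize (L.sys.step^[t + 1] x).1.1 = s at a3 a4
    generalize τ (t + 1) = s' at a1 a2
    have a5 : s.2 = s'.2 := a4.2.1.trans a1.2.1.symm
    have a6 := a4.1
    have a7 := a1.1
    rw [a5] at a3 a6
    refine Prod.ext ?_ a5
    exact Nat.ModEq.eq_of_lt_of_lt (Int.natCast_modEq_iff.1 (a3.symm.trans a2)) a6 a7

theorem bP_orb (x : L.St × ℤ) (N : ℕ) :
    L.sys.bP (L.sys.orb N x) = ∏ t ∈ range N, L.b ((T L.d L.m L.r)^[t] (L.val x) : ℤ) := by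
  induction N with
  | zero => rfl
  | succ N ih =>
    rw [Sys.orb, Sys.bP_cons, ih, prod_range_succ, mul_comm, ← L.val_iter, val_cast,
      ← L.sys.lab_src (L.sys.step^[N] x)]
    rfl

theorem walk (σ : ℕ → ℕ × ℕ) (h0 : σ 0 ∈ L.C) (n : ℕ)
    (h : ∀ t < n, 0 < P L.d L.m L.r L.a (σ t) (σ (t + 1)) ∧ |L.b (σ t).1| = 1) :
    ∃ (hn : σ n ∈ L.C) (u : List L.Ed), u ∈ L.sys.Paths n ⟨σ n, hn⟩ ∧
      L.sys.endp ⟨σ n, hn⟩ u = ⟨σ 0, h0⟩ ∧ |L.sys.bP u| = 1 ∧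
      ∀ y : ℤ, L.sys.orb n (⟨σ 0, h0⟩, y) = u →
        ∀ t < n, (L.sys.step^[t] (⟨σ 0, h0⟩, y)).1.1 = σ t := by
  induction n with
  | zero => exact ⟨h0, [], by simp, rfl, by simp, fun _ _ t ht => absurd ht (by omega)⟩
  | succ n ih =>
    obtain ⟨hn, u, a1, a2, a3, a4⟩ := ih fun t ht => h t (by omega)
    obtain ⟨b1, b2⟩ := h n (by omega)
    have hn' := L.closed _ hn _ b1
    refine ⟨hn', ⟨(⟨σ n, hn⟩, ⟨σ (n + 1), hn'⟩), (L.P_pos _ _).1 b1⟩ :: u,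
      L.sys.cons_mem_Paths.2 ⟨rfl, a1⟩, a2, ?_, fun y hy t ht => ?_⟩
    · rw [Sys.bP_cons, abs_mul, a3, mul_one]; exact b2
    · rw [Sys.orb] at hy
      obtain ⟨c1, c2⟩ := List.cons.inj hy
      rcases Nat.lt_succ_iff_lt_or_eq.1 ht with c | rfl
      · exact a4 y c2 t c
      · rw [← L.sys.lab_src (L.sys.step^[t] _), c1]; rfl

theorem dens_of_posD {w : L.St × ℤ} (h : L.sys.PosD w) : ∃ c : ℝ, 0 < c ∧ ∀ᶠ N : ℕ in atTop,
    c * N ≤ (Set.ncard {x : ℤ | |x| ≤ N ∧ L.SC x ∧ ∃ j, (T L.d L.m L.r)^[j] x = L.val w} : ℝ) := by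
  classical
  obtain ⟨c, hc, N0, hN⟩ := h
  have M0 := L.Md_pos
  have M1 : (0 : ℝ) < L.Md := by exact_mod_cast M0
  have c0 : 0 < Fintype.card L.St := Fintype.card_pos_iff.2 ⟨w.1⟩
  have c1 : (0 : ℝ) < Fintype.card L.St := by exact_mod_cast c0
  refine ⟨c / (2 * L.Md * Fintype.card L.St), by positivity,
    eventually_atTop.2 ⟨L.Md * (N0 + 4), fun N hN' => ?_⟩⟩
  obtain ⟨N', h1⟩ : ∃ N', N / L.Md = N' + 1 := by
    refine Nat.exists_eq_succ_of_ne_zero (Nat.pos_iff_ne_zero.1 (Nat.div_pos ?_ M0))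
    exact (Nat.le_mul_of_pos_right _ (by omega)).trans hN'
  have h2 : N0 + 4 ≤ N' + 1 := by
    rw [← h1, Nat.le_div_iff_mul_le M0, mul_comm]; exact hN'
  have h3 : L.Md * (N' + 1) ≤ N := h1 ▸ Nat.mul_div_le N L.Md
  have h4 : N < L.Md * (N' + 1 + 1) := h1 ▸ Nat.lt_mul_div_succ N M0
  have h5 : (N : ℝ) ≤ 2 * L.Md * N' := by
    have : N ≤ 2 * L.Md * N' := by nlinarith
    exact_mod_cast this
  have sub : (↑((L.sys.Bas w N').image L.val) : Set ℤ) ⊆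
      {x : ℤ | |x| ≤ N ∧ L.SC x ∧ ∃ j, (T L.d L.m L.r)^[j] x = L.val w} := by
    intro x hx
    obtain ⟨v, hv, rfl⟩ := mem_image.1 (mem_coe.1 hx)
    obtain ⟨a1, j, a2⟩ := mem_filter.1 hv
    refine ⟨?_, ⟨_, v.1.2, L.val_mod v⟩, j, by rw [← L.val_iter, a2]⟩
    have a3 : |(v.2 : ℝ)| ≤ N' := by exact_mod_cast abs_le.2 (mem_Icc.1 (mem_product.1 a1).2)
    have a4 : (L.Md : ℝ) * (N' + 1) ≤ N := by exact_mod_cast h3
    have a5 : |(L.val v : ℝ)| ≤ N := (L.abs_val v).trans (le_trans (by gcongr) a4)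
    exact_mod_cast a5
  have b1 := Set.ncard_le_ncard sub
    ((Set.finite_Icc (-(N : ℤ)) N).subset fun x hx => abs_le.1 hx.1)
  rw [Set.ncard_coe_finset] at b1
  have b2 : #(L.sys.Bas w N') ≤ Fintype.card L.St * #((L.sys.Bas w N').image L.val) := by
    refine card_le_mul_card_image _ _ fun x _ => ?_
    rw [← card_univ]
    refine card_le_card_of_injOn Prod.fst (fun _ _ => by simp) fun v hv v' hv' e => ?_
    have e1 := (mem_filter.1 (mem_coe.1 hv)).2.trans (mem_filter.1 (mem_coe.1 hv')).2.symm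
    refine Prod.ext e ?_
    unfold val at e1
    rw [e] at e1
    have k0 : (L.d * v'.1.1.2 : ℤ) ≠ 0 := by
      exact_mod_cast (Nat.mul_pos L.d_pos (L.k_pos v'.1.2)).ne'
    exact mul_left_cancel₀ k0 (add_left_cancel e1)
  have b3 : (#(L.sys.Bas w N') : ℝ) ≤ Fintype.card L.St * _ :=
    Nat.cast_le.2 (b2.trans (Nat.mul_le_mul_left _ b1)) |>.trans_eq (Nat.cast_mul _ _)
  have b4 := (hN N' (by omega)).trans b3
  rw [div_mul_eq_mul_div, div_le_iff₀ (by positivity)]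
  nlinarith [mul_le_mul_of_nonneg_left h5 hc.le, mul_le_mul_of_nonneg_left b4 M1.le]

theorem B0_dvd : (L.sys.B0 : ℤ) ∣ (∏ s ∈ L.C, L.b s.1) ^ Fintype.card L.Ed := by
  rw [Sys.B0, ← card_univ, ← prod_const]; push_cast
  exact prod_dvd_prod_of_dvd _ _ fun e _ =>
    (abs_dvd _ _).2 (dvd_prod_of_mem (fun s : ℕ × ℕ => L.b s.1) e.1.1.2)

theorem unit_dens [NeZero L.d]
    (hΛ : ∏ i : ZMod L.d, |(L.m i : ℝ) / L.d| ^ (∑ s ∈ L.C with (s.1 : ZMod L.d) = i, L.ρ s) < 1)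
    (hk : ∀ s ∈ L.C, ∃ n, s.2 ∣ L.d ^ n)
    (n : ℕ) (hn : 0 < n) (σ : ℕ → ℕ × ℕ) (h0 : σ 0 ∈ L.C) (hσn : σ n = σ 0)
    (hσ : ∀ t < n, 0 < P L.d L.m L.r L.a (σ t) (σ (t + 1)) ∧ |L.b (σ t).1| = 1)
    (z : ℤ) (hz : z ≡ (σ 0).1 [ZMOD (L.d * (σ 0).2 : ℕ)])
    (hfix : ¬ ((T L.d L.m L.r)^[n] z = z ∧
      ∀ t < n, (T L.d L.m L.r)^[t] z ≡ (σ t).1 [ZMOD (L.d * (σ t).2 : ℕ)]))
    (hdeep : ∀ k : ℕ, ∃ (N : ℕ) (x : ℤ) (τ : ℕ → ℕ × ℕ), τ 0 ∈ L.C ∧ τ N = σ 0 ∧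
      (∀ t < N, 0 < P L.d L.m L.r L.a (τ t) (τ (t + 1))) ∧
      (∀ t ≤ N, (T L.d L.m L.r)^[t] x ≡ (τ t).1 [ZMOD (L.d * (τ t).2 : ℕ)]) ∧
      (∏ s ∈ L.C, L.b s.1) ^ k ∣ ∏ t ∈ range N, L.b ((T L.d L.m L.r)^[t] x : ℤ) ∧
      (∏ s ∈ L.C, L.b s.1) ^ k ∣ (T L.d L.m L.r)^[N] x - z) :
    ∃ c : ℝ, 0 < c ∧ ∀ᶠ N : ℕ in atTop,
      c * N ≤ (Set.ncard {x : ℤ | |x| ≤ N ∧ L.SC x ∧ ∃ j, (T L.d L.m L.r)^[j] x = z} : ℝ) := by
  obtain ⟨y, rfl⟩ := L.exists_val h0 hz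
  obtain ⟨hn', u, a1, a2, a3, a4⟩ := L.walk σ h0 n hσ
  have e : (⟨σ n, hn'⟩ : L.St) = ⟨σ 0, h0⟩ := Subtype.ext hσn
  rw [e] at a1 a2
  have lu := L.sys.length_of_mem_Paths a1
  refine L.dens_of_posD (L.sys.unit_main L.irred (L.drift hΛ) (u := u) ⟨lu ▸ a1, a2⟩ (lu ▸ hn) a3
    y (fun h => hfix ?_) fun k => ?_)
  · have b1 := L.sys.step_pred a1 h
    rw [a2] at b1
    have b2 := (L.sys.path_unique (u := y) (L.sys.orb_mem n (⟨σ 0, h0⟩, y)) a1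
      ((L.sys.orb_endp n _).trans a2.symm) (Dvd.intro _ (L.sys.orb_mul n _)) ⟨y, by linarith⟩).1
    refine ⟨by rw [← L.val_iter, b1], fun t ht => ?_⟩
    rw [← L.val_iter, ← a4 y b2 t ht]
    exact L.val_mod _
  · obtain ⟨N, x, τ, c1, c2, c3, c4, c5, c6⟩ := hdeep (Fintype.card L.Ed * k)
    obtain ⟨v, rfl⟩ := L.exists_val c1 (c4 0 (Nat.zero_le _))
    have d0 : (L.sys.B0 : ℤ) ^ k ∣ (∏ s ∈ L.C, L.b s.1) ^ (Fintype.card L.Ed * k) := by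
      rw [pow_mul]; exact pow_dvd_pow_of_dvd L.B0_dvd k
    have d1 : (L.sys.step^[N] (⟨τ 0, c1⟩, v)).1 = ⟨σ 0, h0⟩ :=
      Subtype.ext ((L.follow _ τ N rfl c3 c4 N le_rfl).trans c2)
    have d2 := L.sys.orb_mem N (⟨τ 0, c1⟩, v)
    have d3 := L.sys.orb_mul N (⟨τ 0, c1⟩, v)
    rw [← L.bP_orb] at c5
    rw [← L.val_iter] at c6
    rw [d1] at d2
    refine ⟨_, by rwa [L.sys.length_of_mem_Paths d2], d0.trans c5, ?_⟩
    have d4 : (L.sys.B0 : ℤ) ^ k ∣ (L.sys.step^[N] (⟨τ 0, c1⟩, v)).2 - y := by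
      obtain ⟨j, hj⟩ := hk _ h0
      have f1 : IsCoprime ((L.sys.B0 : ℤ) ^ k) (L.d * (σ 0).2) :=
        (L.sys.B0_cop.pow (m := k) (n := j + 1)).of_isCoprime_of_dvd_right (by
          rw [pow_succ']; exact mul_dvd_mul dvd_rfl (by exact_mod_cast hj))
      refine f1.dvd_of_dvd_mul_left ?_
      have f2 := d0.trans c6
      unfold val at f2
      rw [d1] at f2
      rwa [add_sub_add_left_eq_sub, ← mul_sub] at f2
    have d5 := ((d0.trans c5).mul_right v).sub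
      (d4.mul_left (L.sys.DP (L.sys.orb N (⟨τ 0, c1⟩, v))))
    rwa [show ∀ p q : ℤ, p = q → ((L.sys.B0 : ℤ) ^ k ∣ p) = ((L.sys.B0 : ℤ) ^ k ∣ q) from
      fun p q h => by rw [h]] at d5
    linear_combination -d3

end LData

end Pool.Agent.Lib.MP_39d40e_nt
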