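import Pool.Agent.Lib.MP_39d40e_nt.Old.PositiveBasin

/-! Sanity check: the case of the map `x/2`, `(3x+1)/2`. -/

namespace Pool.Agent.Lib.MP_39d40e_nt

open Finset Filter

def cm (i : ZMod 2) : ℤ := if i = 0 then 1 else 3
def cr (i : ZMod 2) : ℤ := if i = 0 then 0 else -1

theorem cT (x : ℤ) : T 2 cm cr x = if x % 2 = 0 then x / 2 else (3 * x + 1) / 2 := by
  have h : ((x : ZMod 2) = 0) ↔ x % 2 = 0 := by
    rw [ZMod.intCast_zmod_eq_zero_iff_dvd]; omega
  unfold T cm cr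
  by_cases h0 : x % 2 = 0 <;> simp [h, h0]

theorem cb (x : ℤ) : cm x = if x % 2 = 0 then 1 else 3 := by
  have h : ((x : ZMod 2) = 0) ↔ x % 2 = 0 := by
    rw [ZMod.intCast_zmod_eq_zero_iff_dvd]; omega
  unfold cm
  simp only [h]

theorem cP_eq (s s' : ℕ × ℕ) (h : s.2 = 1) :
    P 2 cm cr (fun _ => 1) s s' = if s'.1 < 2 ∧ s'.2 = 1 then 1 / 2 else 0 := by
  unfold P
  by_cases h1 : s'.2 = 1 <;> simp [h, h1, Int.modEq_one]

theorem c_dbl (e : ℕ) (y : ℤ) : (T 2 cm cr)^[e] (2 ^ e * y) = y := by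
  induction e with
  | zero => simp
  | succ e ih =>
    rw [Function.iterate_succ_apply, cT, pow_succ', mul_assoc, if_pos (by omega),
      Int.mul_ediv_cancel_left _ two_ne_zero, ih]

theorem c_old (z : ℤ) (hz : ¬ 3 ∣ z) (k : ℕ) : ∃ (N : ℕ) (x : ℤ), ¬ 3 ∣ x ∧
    (T 2 cm cr)^[N] x = z ∧ (3 : ℤ) ^ k ∣ ∏ t ∈ range N, cm ((T 2 cm cr)^[t] x : ℤ) := by
  induction k with
  | zero => exact ⟨0, z, hz, rfl, by simp⟩
  | succ k ih =>
    obtain ⟨N, y, h1, h2, h3⟩ := ih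
    obtain ⟨e, he⟩ : ∃ e : ℕ, (2 ^ e * y) % 9 = 2 := by
      have : y % 9 = 1 ∨ y % 9 = 2 ∨ y % 9 = 4 ∨ y % 9 = 5 ∨ y % 9 = 7 ∨ y % 9 = 8 := by omega
      rcases this with h | h | h | h | h | h
      exacts [⟨1, by omega⟩, ⟨0, by omega⟩, ⟨5, by omega⟩, ⟨2, by omega⟩, ⟨3, by omega⟩,
        ⟨4, by omega⟩]
    have hd := c_dbl e y
    generalize 2 ^ e * y = w at he hd
    have hT : T 2 cm cr ((2 * w - 1) / 3) = w := by rw [cT, if_neg (by omega)]; omega
    refine ⟨e + N + 1, (2 * w - 1) / 3, by omega, ?_, ?_⟩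
    · rw [Function.iterate_succ_apply, hT, add_comm, Function.iterate_add_apply, hd, h2]
    · rw [prod_range_succ', prod_range_add, pow_succ]
      refine mul_dvd_mul (Dvd.dvd.mul_left ?_ _) ?_
      · simp only [Function.iterate_succ_apply, hT, add_comm e, Function.iterate_add_apply, hd]
        exact h3
      · rw [Function.iterate_zero, id, cb, if_neg (by omega)]

theorem collatz_basin (a : ℤ) (ha : ¬ 3 ∣ a) : ∃ c : ℝ, 0 < c ∧ ∀ᶠ N : ℕ in atTop,
    c * N ≤ (Set.ncard {x : ℤ | |x| ≤ N ∧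
      ∃ j : ℕ, (fun x : ℤ => if x % 2 = 0 then x / 2 else (3 * x + 1) / 2)^[j] x = a} : ℝ) := by
  have hf : (fun x : ℤ => if x % 2 = 0 then x / 2 else (3 * x + 1) / 2) = T 2 cm cr :=
    funext fun x => (cT x).symm
  have mem : ∀ s : ℕ × ℕ, s ∈ ({(0, 1), (1, 1)} : Finset (ℕ × ℕ)) ↔ s.1 < 2 ∧ s.2 = 1 := by
    rintro ⟨i, j⟩; simp; omega
  have pos : ∀ s s' : ℕ × ℕ, s.2 = 1 → (0 < P 2 cm cr (fun _ => 1) s s' ↔ s'.1 < 2 ∧ s'.2 = 1) := by
    intro s s' h; rw [cP_eq _ _ h]; split_ifs with h1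
    · exact iff_of_true (by norm_num) h1
    · exact iff_of_false (lt_irrefl _) h1
  have hB : ∏ s ∈ ({(0, 1), (1, 1)} : Finset (ℕ × ℕ)), cm s.1 = 3 := by decide
  obtain ⟨c, hc, h⟩ := Pool.Agent.Lib.MP_39d40e_nt.Old.PositiveBasin.result 2 le_rfl cm cr cm
    (fun _ => 1) (by decide) (by decide) (by simp)
    (by
      intro i; unfold cm; split_ifs
      · exact isCoprime_one_left
      · exact ⟨1, -1, by norm_num⟩)
    (fun _ => ⟨0, dvd_rfl⟩) {(0, 1), (1, 1)}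
    (fun s hs => by have := (mem s).1 hs; exact ⟨by omega, 0, by simp [this.2]⟩)
    (fun s hs s' h => (mem s').2 ((pos s s' ((mem s).1 hs).2).1 h))
    (fun s hs s' hs' => Relation.ReflTransGen.single ((pos s s' ((mem s).1 hs).2).2 ((mem s').1 hs')))
    (fun _ => 1 / 2) (fun _ _ => by norm_num) (by norm_num)
    (fun s' hs' => by
      rw [sum_pair (by decide), cP_eq _ _ rfl, cP_eq _ _ rfl, if_pos ((mem s').1 hs')]; norm_num)
    (by
      have e : (univ : Finset (ZMod 2)) = {0, 1} := by decide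
      have f0 : ({(0, 1), (1, 1)} : Finset (ℕ × ℕ)).filter (fun s => (s.1 : ZMod 2) = 0)
        = {(0, 1)} := by decide
      have f1 : ({(0, 1), (1, 1)} : Finset (ℕ × ℕ)).filter (fun s => (s.1 : ZMod 2) = 1)
        = {(1, 1)} := by decide
      rw [e, prod_pair (by decide), f0, f1, sum_singleton, sum_singleton,
        ← Real.mul_rpow (abs_nonneg _) (abs_nonneg _)]
      refine Real.rpow_lt_one (by positivity) ?_ (by norm_num)
      have g0 : cm 0 = 1 := by decide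
      have g1 : cm 1 = 3 := by decide
      rw [g0, g1]; norm_num)
    1 one_pos (fun _ => (0, 1)) (by decide) rfl
    (fun _ _ => ⟨(pos _ _ rfl).2 (by decide), by decide⟩) (2 * a)
    (Int.modEq_iff_dvd.2 ⟨-a, by simp⟩)
    (fun h => by
      have := h.1
      rw [Function.iterate_one, cT, if_pos (by omega)] at this
      omega)
    (fun k => by
      obtain ⟨N, x, -, h2, h3⟩ := c_old (2 * a) (by omega) k
      refine ⟨N, x, fun t => ((((T 2 cm cr)^[t] x) % 2).toNat, 1), (mem _).2 ⟨by simp only; omega, rfl⟩, ?_,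
        fun t _ => (pos _ _ rfl).2 ⟨by simp only; omega, rfl⟩, fun t _ => ?_, hB ▸ h3, by rw [h2]; simp⟩
      · simp only [h2]; congr 1; omega
      · unfold Int.ModEq; simp only; omega)
  refine ⟨c, hc, h.mono fun N hN => hN.trans (Nat.cast_le.2 (Set.ncard_le_ncard ?_
    ((Set.finite_Icc (-(N : ℤ)) N).subset fun x hx => abs_le.1 hx.1)))⟩
  rintro x ⟨h1, -, j, h2⟩
  refine ⟨h1, j + 1, ?_⟩
  rw [hf, Function.iterate_succ_apply', h2, cT, if_pos (by omega)]; omega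

end Pool.Agent.Lib.MP_39d40e_nt
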