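import Pool.Agent.Lib.MP_39d40e_nt.Graph
import Pool.Agent.Lib.MP_39d40e_nt.Natural

/-! Power systems and the dichotomy. -/

namespace Pool.Agent.Lib.MP_39d40e_nt

open Finset

namespace Sys

variable {S E : Type*} [Fintype S] [Fintype E] [DecidableEq S] [DecidableEq E] (X : Sys S E)

def PF (L : ℕ) : Finset (S × List E) :=
  univ.biUnion fun s => (X.Paths L s).image fun l => (s, l)

theorem mem_PF {L : ℕ} {p : S × List E} : p ∈ X.PF L ↔ p.2 ∈ X.Paths L p.1 := by
  simp only [PF, mem_biUnion, mem_univ, true_and, mem_image]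
  constructor
  · rintro ⟨s, l, hl, rfl⟩; exact hl
  · intro h; exact ⟨p.1, p.2, h, rfl⟩

abbrev PE (L : ℕ) := {p // p ∈ X.PF L}

theorem sum_PE (L : ℕ) (s : S) (F : List E → ℝ) :
    ∑ e : X.PE L with e.1.1 = s, F e.1.2 = ∑ l ∈ X.Paths L s, F l := by
  apply sum_bij (fun e _ => e.1.2)
  · intro e he
    rw [← (mem_filter.1 he).2]; exact X.mem_PF.1 e.2
  · intro e he e' he' h
    exact Subtype.ext (Prod.ext ((mem_filter.1 he).2.trans (mem_filter.1 he').2.symm) h)
  · intro l hl
    exact ⟨⟨(s, l), X.mem_PF.2 hl⟩, by simp, rfl⟩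
  · intro e _; rfl

noncomputable def pow (L : ℕ) : Sys S (X.PE L) where
  d := X.d ^ L
  src e := X.endp e.1.1 e.1.2
  tgt e := e.1.1
  b e := X.bP e.1.2
  D e := X.DP e.1.2
  c e := X.cP e.1.2
  π := X.π
  d_pos := pow_pos X.d_pos _
  b_ne e := X.bP_ne _
  cop e := by push_cast; exact (X.bP_cop _).pow_right
  D_dvd e := by
    have := X.DP_dvd e.1.2
    rwa [X.length_of_mem_Paths (X.mem_PF.1 e.2)] at this
  exu s u := by
    refine ⟨⟨((X.step^[L] (s, u)).1, X.orb L (s, u)), X.mem_PF.2 (X.orb_mem L _)⟩,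
      ⟨X.orb_endp L (s, u), Dvd.intro _ (X.orb_mul L (s, u))⟩, ?_⟩
    rintro ⟨⟨s', l⟩, he⟩ ⟨h1, h2⟩
    have := X.path_unique (X.mem_PF.1 he) (X.orb_mem L (s, u))
      (h1.trans (X.orb_endp L (s, u)).symm) h2 (Dvd.intro _ (X.orb_mul L (s, u)))
    exact Subtype.ext (Prod.ext this.2 this.1)
  π_pos := X.π_pos
  π_sum := X.π_sum
  stat s := by
    have h1 : ∑ e : X.PE L with e.1.1 = s, X.π (X.endp e.1.1 e.1.2) / (X.DP e.1.2 : ℝ)
        = ∑ e : X.PE L with e.1.1 = s, X.π (X.endp s e.1.2) / (X.DP e.1.2 : ℝ) :=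
      sum_congr rfl fun e he => by rw [(mem_filter.1 he).2]
    rw [h1, X.sum_PE L s fun l => X.π (X.endp s l) / (X.DP l : ℝ)]
    have h2 := X.Ex_const L s (X.π s)
    rw [← h2, Ex]
    refine sum_congr rfl fun l hl => ?_
    have := X.π_pos s
    rw [X.wt_eq hl]; field_simp

theorem pow_step (L : ℕ) (x : S × ℤ) : (X.pow L).step x = X.step^[L] x := by
  have h := (X.pow L).lab_eq x ⟨((X.step^[L] x).1, X.orb L x), X.mem_PF.2 (X.orb_mem L _)⟩
    (X.orb_endp L x) (Dvd.intro _ (X.orb_mul L x))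
  have h2 := (X.pow L).step_mul x
  refine Prod.ext ?_ ?_
  · rw [step, h]; rfl
  · rw [h] at h2
    have h3 := X.orb_mul L x
    have h4 : (X.DP (X.orb L x) : ℤ) ≠ 0 := by exact_mod_cast (X.DP_pos _).ne'
    exact mul_left_cancel₀ h4 (h2.trans h3.symm)

theorem concl_of_pow (L : ℕ) (h : (X.pow L).Concl) : X.Concl := by
  classical
  obtain ⟨C, hC⟩ := h
  refine ⟨C, fun y hy s N => le_trans ?_ (hC y hy s N)⟩
  refine Nat.cast_le.2 (card_le_card fun u hu => ?_)
  rw [mem_filter] at hu ⊢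
  refine ⟨hu.1, fun n => ?_⟩
  have : (X.pow L).step = X.step^[L] := funext (X.pow_step L)
  rw [this, ← Function.iterate_mul]
  exact hu.2 _

theorem pow_into (L : ℕ) (s : S) (F : List E → S → ℝ) :
    ∑ e ∈ (X.pow L).into s, (X.pow L).q e * F e.1.2 ((X.pow L).src e)
      = X.Ex L s fun l => F l (X.endp s l) := by
  rw [Ex, ← X.sum_PE L s]
  refine sum_congr rfl fun e he => ?_
  have h1 : e.1.1 = s := (mem_filter.1 he).2
  have h2 := X.wt_eq (X.mem_PF.1 e.2)
  rw [h2, ← h1]; rfl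

theorem Ex_poisson {f : E → ℝ} {h : S → ℝ}
    (hh : ∀ s, ∑ e ∈ X.into s, X.q e * (f e + h (X.src e)) = X.mean f + h s) (n : ℕ) :
    ∀ s, X.Ex n s (fun l => (l.map f).sum + h (X.endp s l)) = n * X.mean f + h s := by
  induction n with
  | zero => intro s; simp
  | succ n ih =>
    intro s
    rw [Ex_succ]
    have : ∀ e, X.Ex n (X.src e) (fun l => ((e :: l).map f).sum + h (X.endp s (e :: l)))
        = (f e + h (X.src e)) + n * X.mean f := by
      intro e
      have e1 : (fun l => ((e :: l).map f).sum + h (X.endp s (e :: l)))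
          = fun l => f e + ((l.map f).sum + h (X.endp (X.src e) l)) := by
        funext l; simp [endp, add_assoc]
      rw [e1, Ex_add, Ex_const, ih]; ring
    simp only [this, mul_add (X.q _) (_ + _), sum_add_distrib]
    rw [hh, ← sum_mul, sum_q]; push_cast; ring

theorem pow_poisson (hI : X.Irred) (L : ℕ) {φ : ℤ → ℕ → ℝ} (hφ : Addi φ) :
    (X.pow L).mean (fun e => φ ((X.pow L).b e) ((X.pow L).D e))
      = L * X.mean (fun e => φ (X.b e) (X.D e)) ∧
    (X.pow L).Poisson fun e => φ ((X.pow L).b e) ((X.pow L).D e) := by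
  obtain ⟨h, hh⟩ := hI.poisson (fun e => φ (X.b e) (X.D e))
  have h1 : ∀ s, ∑ e ∈ (X.pow L).into s, (X.pow L).q e *
      (φ ((X.pow L).b e) ((X.pow L).D e) + h ((X.pow L).src e))
      = L * X.mean (fun e => φ (X.b e) (X.D e)) + h s := by
    intro s
    rw [← X.Ex_poisson hh L s]
    simp only [Addi.sum_map X hφ]
    exact X.pow_into L s fun l t => φ (X.bP l) (X.DP l) + h t
  have h2 : (X.pow L).mean (fun e => φ ((X.pow L).b e) ((X.pow L).D e))
      = L * X.mean (fun e => φ (X.b e) (X.D e)) := by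
    have a1 := (X.pow L).mean_src h
    rw [mean_eq] at a1 ⊢
    have a2 : ∑ s, (X.pow L).π s * ∑ e ∈ (X.pow L).into s, (X.pow L).q e *
        (φ ((X.pow L).b e) ((X.pow L).D e) + h ((X.pow L).src e))
        = ∑ s, (X.pow L).π s * (L * X.mean (fun e => φ (X.b e) (X.D e)) + h s) := by
      simp only [h1]
    simp only [mul_add, sum_add_distrib] at a2
    rw [a1, ← sum_mul, (X.pow L).π_sum] at a2
    linarith
  exact ⟨h2, h, fun s => by rw [h1, h2]⟩

theorem chunk (L k : ℕ) : ∀ (s : S) (l : List E), l ∈ X.Paths (k * L) s →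
    ∃ l' : List (X.PE L), l' ∈ (X.pow L).Paths l'.length s ∧ (X.pow L).endp s l' = X.endp s l ∧
      (X.pow L).bP l' = X.bP l ∧ (X.pow L).DP l' = X.DP l := by
  induction k with
  | zero =>
    intro s l hl
    rw [zero_mul] at hl
    simp at hl; subst hl
    exact ⟨[], by simp, rfl, rfl, rfl⟩
  | succ k ih =>
    intro s l hl
    rw [Nat.succ_mul, add_comm] at hl
    obtain ⟨o, i, rfl, ho, hi⟩ := mem_Paths_add hl
    obtain ⟨l', h1, h2, h3, h4⟩ := ih _ _ hi
    refine ⟨⟨(s, o), X.mem_PF.2 ho⟩ :: l', (X.pow L).cons_mem_Paths.2 ⟨rfl, h1⟩, ?_, ?_, ?_⟩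
    · rw [endp_append, ← h2]; rfl
    · rw [bP_cons, bP_append, h3]; rfl
    · rw [DP_cons, DP_append, h4]; rfl

omit [DecidableEq E] in
theorem abs_rP (l : List E) : ((|X.rP l| : ℚ) : ℝ) = X.rr l := by
  simp [rP, rr, abs_div]

theorem exists_good (hI : X.Irred) (h : X.Neg) (s0 : S) (g : List E) (hg : X.Pa s0 g s0)
    (hg1 : 1 < X.rr g) : ∃ L, (X.pow L).Good := by
  obtain ⟨n0, hn1, hn0⟩ := exists_n0 hI h
  choose p p' hp hp' hne hlen hb hD using fun s => exists_para hI h s
  obtain ⟨g', hg', hg1'⟩ := exists_neg_cycle hI h s0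
  set L := ∑ s, (p s).length + n0 with hL
  refine ⟨L, ?_, fun φ hφ => (X.pow_poisson hI L hφ).2, ?_, ?_, ?_⟩
  · intro e; exact hn0 L _ _ (by omega) (X.mem_PF.1 e.2)
  · rw [(X.pow_poisson hI L addi_log).1]
    exact mul_neg_of_pos_of_neg (by exact_mod_cast (by omega : 0 < L)) h
  · intro s
    have h1 : (p s).length ≤ ∑ s, (p s).length :=
      single_le_sum (f := fun s => (p s).length) (fun _ _ => Nat.zero_le _) (mem_univ s)
    obtain ⟨w, hw⟩ := exists_path (X := X) (L - (p s).length) s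
    have lw := X.length_of_mem_Paths hw
    have a1 := (hp s).append (Pa.of_mem hw)
    have a2 := (hp' s).append (Pa.of_mem hw)
    have l1 : (p s ++ w).length = L := by rw [List.length_append, lw]; omega
    have l2 : (p' s ++ w).length = L := by rw [List.length_append, lw, ← hlen]; omega
    refine ⟨⟨(s, p s ++ w), X.mem_PF.2 (l1 ▸ a1.1)⟩, ⟨(s, p' s ++ w), X.mem_PF.2 (l2 ▸ a2.1)⟩,
      fun he => hne s ?_, rfl, rfl, a1.2.trans a2.2.symm, ?_, ?_⟩
    · have : p s ++ w = p' s ++ w := congrArg (fun e => e.1.2) he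
      exact List.append_cancel_right this
    · change X.bP (p s ++ w) = X.bP (p' s ++ w)
      rw [bP_append, bP_append, hb]
    · change X.DP (p s ++ w) = X.DP (p' s ++ w)
      rw [DP_append, DP_append, hD]
  · intro q _ _
    obtain ⟨x, y, hxy, hv⟩ : ∃ x y : ℕ, 0 < x + y ∧
        y * (X.DP g).factorization q = x * (X.DP g').factorization q := by
      by_cases h0 : 0 < (X.DP g).factorization q + (X.DP g').factorization q
      · exact ⟨_, _, h0, mul_comm _ _⟩
      · exact ⟨1, 1, by norm_num, by omega⟩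
    have hL0 : 0 < L := by omega
    set G := rep g (y * L) with hG
    set G' := rep g' (x * L) with hG'
    have r0 : X.rP G' ≠ 0 := by
      intro h0
      have := X.abs_rP G'
      rw [h0] at this
      have := X.rr_pos G'
      simp_all
    refine ⟨X.rP G / X.rP G', ?_, fun s => ?_⟩
    · intro h1
      rw [abs_div, div_eq_one_iff_eq (abs_ne_zero.2 r0)] at h1
      have h2 : X.rr G = X.rr G' := by rw [← abs_rP, ← abs_rP, h1]
      rw [hG, hG', rr_rep, rr_rep] at h2
      have b1 : 1 ≤ X.rr g ^ (y * L) := one_le_pow₀ hg1.le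
      have b2 : X.rr g' ^ (x * L) ≤ 1 := pow_le_one₀ (X.rr_pos _).le hg1'.le
      rcases Nat.eq_zero_or_pos x with rfl | hx
      · have : 1 < X.rr g ^ (y * L) := one_lt_pow₀ hg1 (Nat.mul_pos (by omega) hL0).ne'
        linarith
      · have : X.rr g' ^ (x * L) < 1 :=
          pow_lt_one₀ (X.rr_pos _).le hg1' (Nat.mul_pos hx hL0).ne'
        linarith
    · obtain ⟨a, ha⟩ := hI.conn s s0
      obtain ⟨w, hw⟩ := exists_path (X := X) (a.length * (L - 1)) s0
      have lw := X.length_of_mem_Paths hw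
      have a1 := ha.append ((hg.rep (y * L)).append (Pa.of_mem hw))
      have a2 := ha.append ((hg'.rep (x * L)).append (Pa.of_mem hw))
      obtain ⟨L', hL'⟩ : ∃ L', L = L' + 1 := ⟨L - 1, by omega⟩
      have l1 : (a ++ (G ++ w)).length = (a.length + y * g.length) * L := by
        simp only [List.length_append, hG, length_rep, lw]
        rw [hL', Nat.add_sub_cancel]; ring
      have l2 : (a ++ (G' ++ w)).length = (a.length + x * g'.length) * L := by
        simp only [List.length_append, hG', length_rep, lw]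
        rw [hL', Nat.add_sub_cancel]; ring
      obtain ⟨H, c1, c2, c3, c4⟩ := X.chunk L _ s _ (l1 ▸ a1.1)
      obtain ⟨H', d1, d2, d3, d4⟩ := X.chunk L _ s _ (l2 ▸ a2.1)
      refine ⟨H, H', c1, d1, by rw [c2, d2, a1.2, a2.2], ?_, ?_⟩
      · rw [c4, d4]
        simp only [DP_append, hG, hG', DP_rep]
        have p1 := (X.DP_pos a).ne'
        have p2 := (X.DP_pos w).ne'
        have p3 := (X.DP_pos g).ne'
        have p4 := (X.DP_pos g').ne'
        rw [Nat.factorization_mul p1 (by positivity), Nat.factorization_mul p1 (by positivity),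
          Nat.factorization_mul (by positivity) p2, Nat.factorization_mul (by positivity) p2,
          Nat.factorization_pow, Nat.factorization_pow]
        simp only [Finsupp.add_apply, Finsupp.smul_apply, smul_eq_mul]
        congr 2
        rw [mul_right_comm, hv, mul_right_comm]
      · have e1 : (X.pow L).rP H = X.rP (a ++ (G ++ w)) := by rw [rP, c3, c4]; rfl
        have e2 : (X.pow L).rP H' = X.rP (a ++ (G' ++ w)) := by rw [rP, d3, d4]; rfl
        rw [e1, e2]
        simp only [rP_append]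
        field_simp

omit [DecidableEq E] in
open Classical in
theorem concl_of_large (C y0 : ℝ) (hC : 0 ≤ C)
    (h : ∀ y : ℝ, 2 ≤ y → y0 ≤ y → ∀ (s : S) (N : ℕ),
    (((Icc (-(N : ℤ)) N).filter fun u => X.Esc y (s, u)).card : ℝ)
      ≤ C * N / Real.log y ^ (1 / 3 : ℝ)) : X.Concl := by
  set K := Real.log (max y0 2) ^ (1 / 3 : ℝ) with hK
  have K0 : 0 ≤ K := Real.rpow_nonneg (Real.log_nonneg (by linarith [le_max_right y0 2])) _
  refine ⟨C + 3 * K, fun y hy s N => ?_⟩
  have l0 : 0 < Real.log y := Real.log_pos (by linarith)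
  have ℓ0 : 0 < Real.log y ^ (1 / 3 : ℝ) := Real.rpow_pos_of_pos l0 _
  by_cases hy0 : y0 ≤ y
  · refine (h y hy hy0 s N).trans ?_
    gcongr; linarith
  rcases Nat.eq_zero_or_pos N with rfl | hN
  · rw [filter_eq_empty_iff.2]
    · simp
    · intro u hu hb
      have h1 := hb 0
      have h2 : u = 0 := by simpa using hu
      simp only [Function.iterate_zero, id, h2] at h1
      simp at h1; linarith
  have i1 : (((Icc (-(N : ℤ)) N).filter fun u => X.Esc y (s, u)).card : ℝ) ≤ 3 * N := by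
    have : ((Icc (-(N : ℤ)) N).filter fun u => X.Esc y (s, u)).card ≤ 3 * N := by
      refine (card_filter_le _ _).trans ?_
      rw [Int.card_Icc]; omega
    exact_mod_cast this
  have i2 : Real.log y ^ (1 / 3 : ℝ) ≤ K := by
    refine Real.rpow_le_rpow l0.le (Real.log_le_log (by linarith) ?_) (by norm_num)
    linarith [le_max_left y0 2]
  rw [le_div_iff₀ ℓ0]
  calc _ ≤ 3 * N * K := by gcongr
    _ = 3 * K * N := by ring
    _ ≤ _ := by gcongr; linarith

theorem concl_of_contract (n1 : ℕ) (h : ∀ s l, l ∈ X.Paths n1 s → X.rr l ≤ 1 / 2) : X.Concl := by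
  classical
  set K := n1 * X.cmx * (X.d : ℝ) ^ n1 with hK
  have K0 : 0 ≤ K := by have := X.cmx_nonneg; positivity
  have one : ∀ x : S × ℤ, |(((X.step^[n1] x).2 : ℤ) : ℝ)| ≤ |(x.2 : ℝ)| / 2 + K / 2 := by
    intro x
    have hm := X.orb_mem n1 x
    have h1 := h _ _ hm
    have h2 := X.abs_cP_le (X.orb n1 x)
    rw [X.length_of_mem_Paths hm] at h2
    have h3 : (X.DP (X.orb n1 x) : ℝ) * (X.step^[n1] x).2
        = X.bP (X.orb n1 x) * x.2 + X.cP (X.orb n1 x) := by exact_mod_cast X.orb_mul n1 x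
    have hD : (0 : ℝ) < X.DP (X.orb n1 x) := by exact_mod_cast X.DP_pos _
    rw [rr, div_le_iff₀ hD] at h1
    refine le_of_mul_le_mul_left ?_ hD
    rw [← abs_of_pos hD, ← abs_mul, h3, abs_of_pos hD]
    have h4 := abs_add_le ((X.bP (X.orb n1 x) : ℝ) * x.2) (X.cP (X.orb n1 x))
    rw [abs_mul] at h4
    nlinarith [mul_le_mul_of_nonneg_right h1 (abs_nonneg (x.2 : ℝ)),
      mul_le_mul_of_nonneg_right h1 K0]
  have many : ∀ (k : ℕ) (x : S × ℤ),
      |(((X.step^[n1 * k] x).2 : ℤ) : ℝ)| ≤ |(x.2 : ℝ)| / 2 ^ k + K := by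
    intro k x
    induction k with
    | zero => simpa using K0
    | succ k ih =>
      rw [Nat.mul_succ, add_comm, Function.iterate_add_apply]
      refine (one _).trans ?_
      rw [pow_succ, ← div_div]; linarith
  refine X.concl_of_large 0 (K + 1) le_rfl fun y _ hy s N => ?_
  rw [filter_eq_empty_iff.2]
  · simp
  · intro u _ hb
    obtain ⟨k, hk⟩ := pow_unbounded_of_one_lt |(u : ℝ)| (show (1 : ℝ) < 2 by norm_num)
    have h1 := hb (n1 * k)
    have h2 := many k (s, u)
    have h3 : |(u : ℝ)| / 2 ^ k ≤ 1 := by rw [div_le_one (by positivity)]; exact hk.le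
    linarith

theorem concl_main (hmix : ∀ L, (X.pow L).Good → (X.pow L).Mix) (hI : X.Irred) (h : X.Neg) :
    X.Concl := by
  obtain ⟨e, -⟩ := h.exists_two
  by_cases hA : ∀ g, X.Pa (X.src e) g (X.src e) → X.rr g ≤ 1
  · obtain ⟨n1, h1⟩ := contract hI h _ hA
    exact X.concl_of_contract n1 h1
  · push Not at hA
    obtain ⟨g, hg, hg1⟩ := hA
    obtain ⟨L, hL⟩ := X.exists_good hI h _ g hg hg1
    exact X.concl_of_pow L (concl_of_mix hL (hmix L hL))

end Sys

end Pool.Agent.Lib.MP_39d40e_nt
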