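import Pool.Agent.Lib.MP_39d40e_nt.PdC

/-! Descent below a level with a power saving: definitions and statements of the parts. -/

namespace Pool.Agent.Lib.MP_39d40e_nt

open Finset Filter

namespace Sys

variable {S E : Type} [Fintype S] [Fintype E] [DecidableEq S] [DecidableEq E] (X : Sys S E)

/-- tail bound with a rate below `θ` -/
def Tl (θ : ℝ) : Prop := ∃ C ρ : ℝ, 0 ≤ C ∧ 0 < ρ ∧ ρ < θ ∧
  ∀ n s, X.Pr n s (fun l => θ ^ (2 * n) < X.rr l) ≤ C * ρ ^ n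

/-- all initial segments of length at least `n1` contract -/
def Ty (θ : ℝ) (n1 : ℕ) (l : List E) : Prop :=
  ∀ t, n1 ≤ t → t ≤ l.length → X.rr (l.take t) ≤ θ ^ t

/-- all long segments contract -/
def Ty2 (θ : ℝ) (n1 g : ℕ) (l : List E) : Prop :=
  ∀ t j, t + j ≤ l.length → n1 + t / g ≤ j → X.rr ((l.drop t).take j) ≤ θ ^ j

omit [DecidableEq E] in
theorem Ty2.ty {X : Sys S E} {θ : ℝ} {n1 g : ℕ} {l : List E} (h : X.Ty2 θ n1 g l) :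
    X.Ty θ n1 l := fun t h1 h2 => by simpa using h 0 t (by omega) (by simpa using h1)

/-- first passage of the level `1 / x` -/
def FP (x : ℝ) (l : List E) : Prop :=
  (∀ t < l.length, 1 / x < X.rr (l.take t)) ∧ X.rr l ≤ 1 / x

/-- a non-negative function of period `q` and mean at most `μ` -/
def PM (q : ℕ) (μ : ℝ) (F : ℤ → ℝ) : Prop :=
  (∀ z, 0 ≤ F z) ∧ (∀ z, F (z + q) = F z) ∧ ∑ z ∈ range q, F z ≤ μ * q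

/-- the scale of a point -/
def Lv (Q : ℕ) (p : S × ℤ) : ℕ := Nat.log Q p.2.natAbs

/-- the next `Lv Q p` steps do not contract -/
def Bad3 (θ : ℝ) (Q : ℕ) (p : S × ℤ) : Prop := θ ^ (2 * Lv Q p) < X.rr (X.orb (Lv Q p) p)

open Classical in
/-- the counting conclusion for large levels -/
def Concl3 : Prop := ∃ K c y0 : ℝ, 0 ≤ K ∧ 0 < c ∧ ∀ y : ℝ, 2 ≤ y → y0 ≤ y → ∀ (s : S) (N : ℕ),
  (((Icc (-(N : ℤ)) N).filter fun u => ∀ n : ℕ, (n : ℝ) ≤ K * Real.log N →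
    y < |(((X.step^[n] (s, u)).2 : ℤ) : ℝ)|).card : ℝ) ≤ K * N / y ^ c

end Sys

namespace Ps

/-- bounded expected number of visits to a band -/
def VisitSt : Prop := ∀ (S E : Type) [Fintype S] [Fintype E] [DecidableEq S] [DecidableEq E]
  (X : Sys S E) (θ : ℝ), 0 < θ → θ < 1 → X.Tl θ → ∀ lam : ℝ, 1 ≤ lam →
  ∃ Cv : ℝ, 0 ≤ Cv ∧ ∀ β : ℝ, 0 < β → ∀ (s : S) (I : Finset ℕ),
    ∑ j ∈ I, X.Pr j s (fun l => β < X.rr l ∧ X.rr l ≤ lam * β) ≤ Cv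

/-- a count is dominated by the density at level `a`, up to an error small on average -/
def InnerSt : Prop := ∀ (S E : Type) [Fintype S] [Fintype E] [DecidableEq S] [DecidableEq E]
  (X : Sys S E), X.Mix → ∀ θ : ℝ, 0 < θ → θ < 1 → X.Tl θ → ∀ lam : ℝ, 1 ≤ lam →
  ∃ Cv : ℝ, 0 ≤ Cv ∧ ∀ κ A : ℕ, ∃ C : ℝ, 0 ≤ C ∧ ∀ a : ℕ, 1 ≤ a → ∀ β : ℝ, 0 < β →
    ∃ Err : S → ℤ → ℝ, (∀ t, Sys.PM (X.B0 ^ (κ * a)) (C / (a : ℝ) ^ A) (Err t)) ∧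
    ∀ t y, ∑ j ∈ Icc a (κ * a), X.Sm j t y (fun l => β < X.rr l ∧ X.rr l ≤ lam * β)
      (fun _ _ => 1) ≤ Cv * X.rho a t y + Err t y

/-- all stages, upper bound -/
def StageSt : Prop := ∀ (S E : Type) [Fintype S] [Fintype E] [DecidableEq S] [DecidableEq E]
  (X : Sys S E), X.Mix → ∀ (θ : ℝ) (R : ℕ), 0 < θ → θ < 1 → θ ^ R * (X.B0 : ℝ) ^ 3 ≤ 1 →
  ∀ s : S, ∃ Ce : ℝ, 0 ≤ Ce ∧ ∀ Y x : ℝ, 1 ≤ Y → 0 < x → ∀ N : ℕ, θ ^ N ≤ 1 / x → ∀ a : ℕ,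
    (X.d : ℝ) ^ ((R + 1) * a) < x → ∀ Φ : S → ℤ → ℝ, (∀ t y, 0 ≤ Φ t y) →
    (∀ H, a ≤ H → H ≤ 3 * N → (X.B0 : ℝ) ^ H ≤ x → ∀ t y, Φ t y ≤ X.rho H t y) →
    ∀ (z : ℤ) (n1 : ℕ), R + 1 ≤ n1 → ∀ N' : ℕ,
    ∑ m ∈ Ioc n1 N', X.Sm m s z (fun l => X.Pre Y θ l ∧ X.Ty θ n1 l ∧ X.FP x l) Φ ≤
      X.rho (n1 + n1 / (R + 1)) s z + Ce * Y

/-- the maximal function -/
def MaxSt : Prop := ∀ (S E : Type) [Fintype S] [Fintype E] [DecidableEq S] [DecidableEq E]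
  (X : Sys S E) (θ : ℝ), 0 < θ → θ < 1 → X.Tl θ → ∃ C : ℝ, 0 ≤ C ∧ ∀ (n1 : ℕ) (s : S),
    ∃ Ys : ℤ → ℝ, (∀ z, 1 ≤ Ys z) ∧ Sys.PM (X.B0 ^ n1) C Ys ∧
    ∀ (z : ℤ) (l : List E), l ∈ X.Paths l.length s → X.Val l z → X.Ty θ n1 l → X.Pre (Ys z) θ l

/-- the core estimate: one band -/
def CoreSt : Prop := ∀ (S E : Type) [Fintype S] [Fintype E] [DecidableEq S] [DecidableEq E]
  (X : Sys S E), X.Mix → ∀ θ : ℝ, 0 < θ → θ < 1 → X.Tl θ →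
  ∃ (g G n0 : ℕ) (C : ℝ), 1 ≤ g ∧ 0 ≤ C ∧ ∀ n1 : ℕ, n0 ≤ n1 → ∀ x : ℝ, 0 < x → ∀ s : S,
    ∃ Ψ : ℤ → ℝ, Sys.PM (X.B0 ^ (G * n1)) C Ψ ∧ ∀ (z : ℤ) (I : Finset ℕ),
    ∑ m ∈ I, X.Sm m s z (fun l => X.Ty2 θ n1 g l ∧ 1 / (2 * x) < X.rr l ∧ X.rr l ≤ 1 / x)
      (fun _ _ => 1) ≤ Ψ z

open Classical in
/-- the number of typical predecessors -/
def CntSt : Prop := ∀ (S E : Type) [Fintype S] [Fintype E] [DecidableEq S] [DecidableEq E]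
  (X : Sys S E), X.Mix → ∀ θ : ℝ, 0 < θ → θ < 1 → X.Tl θ →
  ∃ (g G n0 : ℕ) (C : ℝ), 1 ≤ g ∧ 0 ≤ C ∧ ∀ n1 : ℕ, n0 ≤ n1 → ∀ x : ℝ, 0 < x → ∀ s : S,
    ∃ Ψ : ℤ → ℝ, Sys.PM (X.B0 ^ (G * n1)) C Ψ ∧ ∀ (z : ℤ) (I : Finset ℕ),
    ∑ m ∈ I, (((X.Paths m s).filter fun l =>
      X.Ty2 θ n1 g l ∧ X.Val l z ∧ 1 / x < X.rr l).card : ℝ) ≤ x * Ψ z

open Classical in
/-- the future of a point is independent of its class modulo a power of `B0` -/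
def CrtSt : Prop := ∀ (S E : Type) [Fintype S] [Fintype E] [DecidableEq S] [DecidableEq E]
  (X : Sys S E), ∃ C : ℝ, 0 ≤ C ∧ ∀ (k H M : ℕ) (A : List E → Prop) (η μ : ℝ) (Ψ : ℤ → ℝ) (t : S),
    (∀ s, X.Pr k s A ≤ η) → Sys.PM (X.B0 ^ H) μ Ψ → X.d ^ k * X.B0 ^ H ≤ M →
    ∑ z ∈ (Icc (-(M : ℤ)) M).filter (fun z => A (X.orb k (t, z))), Ψ z ≤ C * η * μ * M

/-- a stretch of good points is typical -/
def SegSt : Prop := ∀ (S E : Type) [Fintype S] [Fintype E] [DecidableEq S] [DecidableEq E]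
  (X : Sys S E) (θ : ℝ), 0 < θ → θ < 1 → ∃ Q0 : ℕ, ∀ Q : ℕ, Q0 ≤ Q → ∀ (t : ℕ) (p : S × ℤ),
    (∀ i ≤ t, (Q : ℝ) ≤ |(((X.step^[i] p).2 : ℤ) : ℝ)|) →
    (∀ i < t, ¬ X.Bad3 θ Q (X.step^[i] p)) →
    X.rr (X.orb t p) ≤ θ ^ (2 * t) * ((X.B0 : ℝ) / θ ^ 2) ^ (3 * Sys.Lv Q (X.step^[t] p))

/-- an escaping orbit has a first bad point -/
def FirstSt : Prop := ∀ (S E : Type) [Fintype S] [Fintype E] [DecidableEq S] [DecidableEq E]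
  (X : Sys S E) (θ : ℝ), 0 < θ → θ < 1 → ∃ (R : ℕ) (K : ℝ), 1 ≤ R ∧ 0 ≤ K ∧
    ∀ g : ℕ, 1 ≤ g → ∃ Q0 : ℕ, ∀ Q : ℕ, Q0 ≤ Q → ∀ (v : S × ℤ) (N : ℕ) (y : ℝ), (Q : ℝ) ≤ y → |v.2| ≤ N →
    (∀ n : ℕ, (n : ℝ) ≤ K * Real.log N → y < |(((X.step^[n] v).2 : ℤ) : ℝ)|) →
    ∃ m : ℕ, (m : ℝ) ≤ K * Real.log N ∧ X.Bad3 θ Q (X.step^[m] v) ∧
      X.Ty2 θ (R * Sys.Lv Q (X.step^[m] v)) g (X.orb m v) ∧
      |(((X.step^[m] v).2 : ℤ) : ℝ)| < 3 * N * X.rr (X.orb m v)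

/-- the theorem for mixing systems -/
def SumSt : Prop := ∀ (S E : Type) [Fintype S] [Fintype E] [DecidableEq S] [DecidableEq E]
  (X : Sys S E), X.Mix → (X.Poisson fun e => Real.log (|(X.b e : ℝ)| / X.D e)) → X.Neg → X.Concl3

/-- all systems -/
def SysSt : Prop := ∀ (S E : Type) [Fintype S] [Fintype E] [DecidableEq S] [DecidableEq E]
  (X : Sys S E), X.Irred → X.Neg → X.Concl3

/-- the theorem for Leigh's chain -/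
def LeighSt : Prop := ∀ (L : LData) [NeZero L.d],
  ∏ i : ZMod L.d, |(L.m i : ℝ) / L.d| ^ (∑ s ∈ L.C with (s.1 : ZMod L.d) = i, L.ρ s) < 1 →
  ∃ c : ℝ, 0 < c ∧ ∃ K : ℝ, ∀ y : ℝ, 2 ≤ y → ∀ N : ℕ,
    (Set.ncard {x : ℤ | |x| ≤ N ∧ (∃ s ∈ L.C, x ≡ s.1 [ZMOD (L.d * s.2 : ℕ)]) ∧
      ∀ n : ℕ, (n : ℝ) ≤ K * Real.log N → y < |(((T L.d L.m L.r)^[n] x : ℤ) : ℝ)|} : ℝ)
      ≤ K * N / y ^ c

end Ps

end Pool.Agent.Lib.MP_39d40e_nt
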