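import Pool.Agent.Lib.MP_39d40e_nt.Ps0

/-! The number of typical predecessors, from the estimate for one band. -/

namespace Pool.Agent.Lib.MP_39d40e_nt.Ps

open Finset Filter

namespace Cntx

variable {S E : Type} [Fintype S] [Fintype E] [DecidableEq S] [DecidableEq E] (X : Sys S E)

omit [DecidableEq E] in
theorem inv_le : ∃ K : ℝ, 0 ≤ K ∧ ∀ t, 1 ≤ K * X.π t := by
  refine ⟨∑ t, (X.π t)⁻¹, sum_nonneg fun t _ => (inv_pos.2 (X.π_pos t)).le, fun t => ?_⟩
  have h := single_le_sum (f := fun t => (X.π t)⁻¹) (fun t _ => (inv_pos.2 (X.π_pos t)).le)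
    (mem_univ t)
  have := mul_le_mul_of_nonneg_right h (X.π_pos t).le
  rwa [inv_mul_cancel₀ (X.π_pos t).ne'] at this

theorem wt_ge {K : ℝ} (_hK0 : 0 ≤ K) (hK : ∀ t, 1 ≤ K * X.π t) {n : ℕ} {s : S} {l : List E}
    (hl : l ∈ X.Paths n s) : X.rr l ≤ K * (X.wt l * |(X.bP l : ℝ)|) := by
  have h1 := X.π_pos s
  have h2 := X.π_le s
  have h4 := X.rr_pos l
  have h5 := X.π_pos (X.endp s l)
  have h3 : (0 : ℝ) < X.DP l := by exact_mod_cast X.DP_pos l
  have e : K * (X.wt l * |(X.bP l : ℝ)|) = K * X.π (X.endp s l) * X.rr l / X.π s := by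
    rw [X.wt_eq hl, Sys.rr]; field_simp
  rw [e, le_div_iff₀ h1]
  have a1 := mul_le_mul_of_nonneg_right (hK (X.endp s l)) h4.le
  have a2 := mul_le_mul_of_nonneg_left h2 h4.le
  linarith

omit [DecidableEq E] in
theorem rr_top {θ : ℝ} (h0 : 0 < θ) (h1 : θ < 1) {n1 : ℕ} {l : List E} (h : X.Ty θ n1 l) :
    X.rr l ≤ (X.B0 : ℝ) ^ n1 := by
  have hB : (1 : ℝ) ≤ X.B0 := by exact_mod_cast X.B0_pos
  rcases le_total n1 l.length with c | c
  · have := h l.length c le_rfl
    rw [List.take_length] at this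
    exact this.trans ((pow_le_one₀ h0.le h1.le).trans (one_le_pow₀ hB))
  · exact (X.rr_le l).trans (pow_le_pow_right₀ hB c)

theorem band {r x : ℝ} (hx : 0 < x) (h : 1 / x < r) : ∀ J : ℕ, r ≤ 2 ^ J / x →
    ∃ j ∈ range J, 1 / (2 * (x / 2 ^ (j + 1))) < r ∧ r ≤ 1 / (x / 2 ^ (j + 1)) := by
  intro J
  induction J with
  | zero => intro h2; rw [pow_zero] at h2; linarith
  | succ J ih =>
    intro h2
    by_cases c : r ≤ 2 ^ J / x
    · obtain ⟨j, hj, a⟩ := ih c
      exact ⟨j, mem_range.2 ((mem_range.1 hj).trans (Nat.lt_succ_self J)), a⟩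
    · refine ⟨J, mem_range.2 (Nat.lt_succ_self J), ?_, ?_⟩
      · refine lt_of_eq_of_lt ?_ (not_le.1 c)
        field_simp
        ring
      · rwa [one_div_div]

end Cntx

open Cntx in
theorem cnt_st (h : CoreSt) : CntSt := by
  classical
  intro S E _ _ _ _ X hM θ h0 h1 hT
  obtain ⟨g, G, n0, C, hg, hC, hc⟩ := h S E X hM θ h0 h1 hT
  obtain ⟨K, K0, hK⟩ := inv_le X
  refine ⟨g, G, n0, 2 * K * C, hg, by positivity, fun n1 hn x hx s => ?_⟩
  choose Ψ hΨ hS using fun j : ℕ => hc n1 hn (x / 2 ^ (j + 1)) (by positivity) s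
  obtain ⟨J, hJ⟩ := pow_unbounded_of_one_lt (x * (X.B0 : ℝ) ^ n1) (one_lt_two (α := ℝ))
  refine ⟨fun z => ∑ j ∈ range J, K * (1 / 2) ^ j * Ψ j z, ⟨fun z => sum_nonneg fun j _ =>
    mul_nonneg (by positivity) ((hΨ j).1 z), fun z => sum_congr rfl fun j _ => by
      rw [(hΨ j).2.1], ?_⟩, fun z I => ?_⟩
  · rw [sum_comm]
    calc _ ≤ ∑ j ∈ range J, (1 / 2 : ℝ) ^ j * (K * (C * (X.B0 ^ (G * n1) : ℕ))) := by
          refine sum_le_sum fun j _ => ?_
          rw [← mul_sum]
          calc _ ≤ K * (1 / 2) ^ j * (C * (X.B0 ^ (G * n1) : ℕ)) :=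
                mul_le_mul_of_nonneg_left (hΨ j).2.2 (by positivity)
            _ = _ := by ring
      _ ≤ 2 * (K * (C * (X.B0 ^ (G * n1) : ℕ))) := by
          rw [← sum_mul]
          exact mul_le_mul_of_nonneg_right (sum_geometric_two_le J) (by positivity)
      _ = _ := by ring
  · calc _ ≤ ∑ m ∈ I, ∑ j ∈ range J, x * (K * (1 / 2) ^ j * X.Sm m s z
            (fun l => X.Ty2 θ n1 g l ∧
            1 / (2 * (x / 2 ^ (j + 1))) < X.rr l ∧ X.rr l ≤ 1 / (x / 2 ^ (j + 1))) fun _ _ => 1) := by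
          refine sum_le_sum fun m _ => ?_
          simp only [Sys.Sm, Sys.Ex, mul_sum]
          rw [sum_comm, card_filter]
          push_cast
          refine sum_le_sum fun l hl => ?_
          have nn : ∀ j ∈ range J, 0 ≤ x * (K * (1 / 2) ^ j * (X.wt l * if (X.Ty2 θ n1 g l ∧
              1 / (2 * (x / 2 ^ (j + 1))) < X.rr l ∧ X.rr l ≤ 1 / (x / 2 ^ (j + 1))) then
              X.pull l z (fun _ => (1 : ℝ)) else 0)) := by
            intro j _
            have := X.wt_pos l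
            have := X.pull_nonneg l z (g := fun _ => (1 : ℝ)) fun _ => zero_le_one
            split_ifs <;> positivity
          by_cases c : X.Ty2 θ n1 g l ∧ X.Val l z ∧ 1 / x < X.rr l
          · rw [if_pos c]
            obtain ⟨j, hj, a1, a2⟩ := band hx c.2.2 J ((rr_top X h0 h1 c.1.ty).trans (by
              rw [le_div_iff₀ hx]; linarith))
            refine le_trans ?_ (single_le_sum nn hj)
            rw [if_pos ⟨c.1, a1, a2⟩, Sys.pull_eq, if_pos c.2.1, mul_one]
            have a3 := wt_ge X K0 hK hl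
            have e : 1 / (2 * (x / 2 ^ (j + 1))) = 1 / (x * (1 / 2) ^ j) := by
              rw [one_div_pow]; field_simp; ring
            rw [e, div_lt_iff₀ (by positivity)] at a1
            have a4 := mul_le_mul_of_nonneg_right a3 (show 0 ≤ x * (1 / 2) ^ j by positivity)
            linarith
          · rw [if_neg c]
            exact sum_nonneg nn
      _ ≤ _ := by
          rw [sum_comm, mul_sum]
          refine sum_le_sum fun j _ => ?_
          rw [← mul_sum, ← mul_sum]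
          exact mul_le_mul_of_nonneg_left (mul_le_mul_of_nonneg_left (hS j z I) (by positivity))
            hx.le

end Pool.Agent.Lib.MP_39d40e_nt.Ps
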