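import Pool.Agent.Lib.MP_39d40e_nt.Ps0

/-! Descent below a level with a power saving: the core estimate. -/

namespace Pool.Agent.Lib.MP_39d40e_nt

open Finset Filter

namespace Ps

namespace Corex

theorem pm_dvd {q q' : ℕ} {μ : ℝ} {F : ℤ → ℝ} (h : Sys.PM q μ F) (hq : q ∣ q') :
    Sys.PM q' μ F := by
  refine ⟨h.1, per_of_dvd F q q' h.2.1 hq, ?_⟩
  obtain ⟨k, rfl⟩ := hq
  rw [mul_comm q k, sum_range_mul F q h.2.1]
  calc (k : ℝ) * ∑ z ∈ range q, F z ≤ k * (μ * q) := by gcongr; exact h.2.2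
    _ = _ := by push_cast; ring

theorem pm_comb {q : ℕ} {μ μ' a b : ℝ} {F F' : ℤ → ℝ} (h : Sys.PM q μ F) (h' : Sys.PM q μ' F')
    (ha : 0 ≤ a) (hb : 0 ≤ b) : Sys.PM q (a * μ + b * μ') fun z => a * F z + b * F' z := by
  refine ⟨fun z => add_nonneg (mul_nonneg ha (h.1 z)) (mul_nonneg hb (h'.1 z)),
    fun z => by simp only [h.2.1, h'.2.1], ?_⟩
  rw [sum_add_distrib, ← mul_sum, ← mul_sum]
  have a1 := mul_le_mul_of_nonneg_left h.2.2 ha
  have a2 := mul_le_mul_of_nonneg_left h'.2.2 hb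
  linarith

theorem pm_mono {q : ℕ} {μ μ' : ℝ} {F : ℤ → ℝ} (h : Sys.PM q μ F) (hμ : μ ≤ μ') :
    Sys.PM q μ' F :=
  ⟨h.1, h.2.1, h.2.2.trans (mul_le_mul_of_nonneg_right hμ (Nat.cast_nonneg q))⟩

variable {S E : Type} [Fintype S] [Fintype E] [DecidableEq S] [DecidableEq E] (X : Sys S E)

theorem Sm_three (n : ℕ) (s : S) (z : ℤ) (A : List E → Prop) (a : ℝ) (f g h : S → ℤ → ℝ) :
    X.Sm n s z A (fun t y => a * f t y + a * g t y + h t y)
      = a * X.Sm n s z A f + (a * X.Sm n s z A g + X.Sm n s z A h) := by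
  unfold Sys.Sm
  rw [← X.Ex_const_mul, ← X.Ex_const_mul, ← X.Ex_add, ← X.Ex_add]
  refine X.Ex_congr fun l _ => ?_
  simp only [Sys.pull_eq]
  split_ifs <;> ring

theorem err_le {Y θ x : ℝ} (h0 : 0 < θ) (h1 : θ < 1) (hY : 1 ≤ Y) (hx : 0 < x) (n n1 : ℕ) (s : S)
    (z : ℤ) (F : S → ℤ → ℝ) (q : ℕ) (hq : 0 < q) (hqx : (q : ℝ) ≤ x) (μ : ℝ) (hμ : 0 ≤ μ)
    (hF : ∀ t, Sys.PM q μ (F t)) :
    X.Sm n s z (fun l => X.Pre Y θ l ∧ X.Ty θ n1 l ∧ X.FP x l) F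
      ≤ X.ng n * ((2 * (X.cmx * (1 - θ)⁻¹) + 1) * Y * μ / X.π s) := by
  classical
  have c0 := X.cmx_nonneg
  have c1 := sub_pos.2 h1
  have hπ := X.π_pos s
  refine le_trans (@Sys.key_sup _ _ _ _ _ _ X n s z F q hq (fun t => (hF t).2.1)
    (fun t => (hF t).1) μ (fun t => (hF t).2.2) (X.cmx * Y * (1 - θ)⁻¹) (by positivity)
    (fun l => X.Pre Y θ l ∧ X.Ty θ n1 l ∧ X.FP x l) (fun _ => Classical.propDecidable _)
    (fun l _ hA => ⟨hA.1.cP_le h0.le h1 (by linarith), ?_⟩)) ?_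
  · calc (q : ℝ) * X.rr l ≤ x * (1 / x) := mul_le_mul hqx hA.2.2.2 (X.rr_pos l).le hx.le
      _ = 1 := by field_simp
  · gcongr
    linarith

theorem err_sum {Cg K : ℝ} (hCg : 0 ≤ Cg) (hK : 0 ≤ K) (g G a n0 : ℕ) (ha : 1 ≤ a) (f : ℕ → ℝ)
    (hf : ∀ m, f m ≤ Cg * ((m : ℝ) + 1) ^ g * (K / (a : ℝ) ^ (g + 1))) :
    ∑ m ∈ Ioc n0 (G * (a + 1)), f m ≤ Cg * (2 * (G : ℝ) + 1) ^ (g + 1) * K := by
  have a1 : (1 : ℝ) ≤ a := by exact_mod_cast ha
  have G0 : (0 : ℝ) ≤ G := Nat.cast_nonneg G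
  have b1 : ((G * (a + 1) : ℕ) : ℝ) + 1 ≤ (2 * (G : ℝ) + 1) * a := by
    push_cast; nlinarith
  calc _ ≤ ∑ _m ∈ Ioc n0 (G * (a + 1)),
        Cg * ((2 * (G : ℝ) + 1) * a) ^ g * (K / (a : ℝ) ^ (g + 1)) := by
        refine sum_le_sum fun m hm => (hf m).trans ?_
        have : (m : ℝ) ≤ ((G * (a + 1) : ℕ) : ℝ) := by exact_mod_cast (mem_Ioc.1 hm).2
        gcongr; linarith
    _ ≤ ((2 * (G : ℝ) + 1) * a) *
        (Cg * ((2 * (G : ℝ) + 1) * a) ^ g * (K / (a : ℝ) ^ (g + 1))) := by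
        rw [sum_const, Nat.card_Ioc, nsmul_eq_mul]
        refine mul_le_mul_of_nonneg_right ?_ (by positivity)
        have : ((G * (a + 1) - n0 : ℕ) : ℝ) ≤ ((G * (a + 1) : ℕ) : ℝ) := by
          exact_mod_cast Nat.sub_le _ _
        linarith
    _ = _ := by rw [mul_pow]; field_simp; ring

theorem Sm_pair (m j : ℕ) (s : S) (z : ℤ) (B C : List E → Prop) :
    X.Sm (m + j) s z (fun l => B (l.take m) ∧ C (l.drop m)) (fun _ _ => 1)
      = X.Sm m s z B fun t y => X.Sm j t y C fun _ _ => 1 := by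
  rw [Sys.Sm_add]
  refine X.Ex_congr fun o ho => ?_
  simp only [List.take_left' (X.length_of_mem_Paths ho), List.drop_left' (X.length_of_mem_Paths ho)]
  split_ifs with hb
  · simp only [hb, true_and]
  · simp only [hb, false_and]
    have : ∀ y, X.Sm j (X.endp s o) y (fun _ => False) (fun _ _ => 1) = 0 := fun y =>
      (X.Ex_congr fun i _ => if_neg not_false).trans (X.Ex_const _ _ _)
    simp only [this, Sys.pull_eq, mul_zero, ite_self]

theorem Sm_fsum (m : ℕ) (s : S) (z : ℤ) (B : List E → Prop) (J : Finset ℕ) (F : ℕ → S → ℤ → ℝ) :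
    X.Sm m s z B (fun t y => ∑ j ∈ J, F j t y) = ∑ j ∈ J, X.Sm m s z B (F j) := by
  unfold Sys.Sm
  rw [Sys.sum_Ex]
  refine X.Ex_congr fun l _ => ?_
  split_ifs
  · exact X.pull_fsum J l z fun j => F j (X.endp s l)
  · simp

theorem split (s : S) (z : ℤ) (A B C : List E → Prop) (I U J : Finset ℕ)
    (h : ∀ l, l ∈ X.Paths l.length s → X.Val l z → A l →
      ∃ m ∈ U, ∃ j ∈ J, m + j = l.length ∧ B (l.take m) ∧ C (l.drop m)) :
    ∑ m ∈ I, X.Sm m s z A (fun _ _ => 1)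
      ≤ ∑ m ∈ U, X.Sm m s z B fun t y => ∑ j ∈ J, X.Sm j t y C fun _ _ => 1 := by
  classical
  set T : ℕ × ℕ → ℝ := fun p =>
    X.Sm (p.1 + p.2) s z (fun l => B (l.take p.1) ∧ C (l.drop p.1)) (fun _ _ => 1) with hT
  have T0 : ∀ p, 0 ≤ T p := fun p => X.Sm_nonneg fun _ _ => zero_le_one
  have e : ∑ m ∈ U, X.Sm m s z B (fun t y => ∑ j ∈ J, X.Sm j t y C fun _ _ => 1)
      = ∑ p ∈ U ×ˢ J, T p := by
    rw [sum_product]
    refine sum_congr rfl fun m _ => ?_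
    rw [Sm_fsum]
    exact sum_congr rfl fun j _ => (Sm_pair X m j s z B C).symm
  rw [e]
  refine le_trans (sum_le_sum fun m _ => ?_)
    (sum_fiberwise_le_sum_of_sum_fiber_nonneg (t := I) (g := fun p : ℕ × ℕ => p.1 + p.2)
      fun _ _ => sum_nonneg fun p _ => T0 p)
  have e2 : ∑ p ∈ U ×ˢ J with p.1 + p.2 = m, T p = ∑ p ∈ U ×ˢ J with p.1 + p.2 = m,
      X.Sm m s z (fun l => B (l.take p.1) ∧ C (l.drop p.1)) (fun _ _ => 1) :=
    sum_congr rfl fun p hp => by rw [← (mem_filter.1 hp).2]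
  rw [e2]
  unfold Sys.Sm
  rw [Sys.sum_Ex]
  refine X.Ex_mono fun l hl => ?_
  have p0 : 0 ≤ X.pull l z fun _ => 1 := X.pull_nonneg _ _ fun _ => zero_le_one
  have nn : ∀ (Q : Prop) (inst : Decidable Q), 0 ≤ @ite _ Q inst (X.pull l z fun _ => 1) 0 :=
    fun Q _ => by
      split_ifs
      · exact p0
      · exact le_rfl
  split_ifs with ha
  · by_cases hv : X.Val l z
    · have hl' := X.length_of_mem_Paths hl
      obtain ⟨m1, h1, j, h2, h3, h4⟩ := h l (hl' ▸ hl) hv ha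
      have := single_le_sum (s := (U ×ˢ J).filter fun p => p.1 + p.2 = m)
        (fun p _ => nn (B (l.take p.1) ∧ C (l.drop p.1)) (Classical.propDecidable _))
        (a := (m1, j)) (mem_filter.2 ⟨mem_product.2 ⟨h1, h2⟩, h3.trans hl'⟩)
      rwa [if_pos h4] at this
    · refine le_trans (le_of_eq ?_) (sum_nonneg fun p _ => nn _ _)
      rw [Sys.pull_eq, if_neg hv]
  · exact sum_nonneg fun p _ => nn _ _

omit [DecidableEq E] in
theorem fp_split {x1 : ℝ} (hx : 1 < x1) {l : List E} (hl : X.rr l ≤ 1 / x1) :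
    ∃ m ≤ l.length, X.FP x1 (l.take m) ∧ 1 / (X.d * x1) < X.rr (l.take m) := by
  classical
  have hex : ∃ t, X.rr (l.take t) ≤ 1 / x1 := ⟨l.length, by rwa [List.take_length]⟩
  have h1 : Nat.find hex ≤ l.length := Nat.find_min' hex (by rwa [List.take_length])
  have hs := Nat.find_spec hex
  refine ⟨Nat.find hex, h1, ⟨fun t ht => ?_, hs⟩, ?_⟩
  · rw [List.length_take, min_eq_left h1] at ht
    rw [List.take_take, min_eq_left ht.le]
    exact not_le.1 (Nat.find_min hex ht)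
  · obtain ⟨j, hj⟩ : ∃ j, Nat.find hex = j + 1 := by
      refine Nat.exists_eq_succ_of_ne_zero fun h => ?_
      rw [h] at hs
      have := (div_lt_one (by linarith : 0 < x1)).2 hx
      simp only [List.take_zero, Sys.rr, Sys.bP_nil, Sys.DP_nil] at hs
      norm_num at hs this
      linarith
    have hm : 1 / x1 < X.rr (l.take j) := not_le.1 (Nat.find_min hex (by omega))
    have hjl : j < l.length := by omega
    rw [hj, ← List.take_append_getElem hjl, Sys.rr_append]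
    have a1 := X.rr_ge [l[j]]
    have hd : (0 : ℝ) < X.d := by exact_mod_cast X.d_pos
    simp only [List.length_singleton, pow_one] at a1
    calc 1 / (X.d * x1) = 1 / x1 * (1 / X.d) := by field_simp
      _ < X.rr (l.take j) * (1 / X.d) := by gcongr
      _ ≤ _ := mul_le_mul_of_nonneg_left a1 (X.rr_pos _).le

theorem len_lt {θ M x r : ℝ} (h0 : 0 < θ) (h1 : θ < 1) (hM : 0 < M) (hx : 0 < x) {G k m : ℕ}
    (hG : θ ^ G ≤ 1 / (2 * M)) (hk : 1 ≤ k) (hxM : x ≤ M ^ k) (r1 : 1 / (2 * x) < r)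
    (r2 : r ≤ θ ^ m) : m < G * k := by
  by_contra hn
  have a1 : θ ^ m ≤ θ ^ (G * k) := pow_le_pow_of_le_one h0.le h1.le (not_lt.1 hn)
  have a2 : θ ^ (G * k) ≤ (1 / (2 * M)) ^ k := by
    rw [pow_mul]; exact pow_le_pow_left₀ (by positivity) hG _
  have a3 : (1 / (2 * M)) ^ k ≤ 1 / (2 * x) := by
    rw [one_div_pow, mul_pow]
    refine one_div_le_one_div_of_le (by positivity) ?_
    exact mul_le_mul (le_self_pow₀ (by norm_num) (by omega)) hxM hx.le (by positivity)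
  linarith

omit [DecidableEq E] in
theorem cut {θ M x x1 Y : ℝ} (h0 : 0 < θ) (h1 : θ < 1) (hM : 0 < M) {G0 G1 a n1 : ℕ}
    (hG0 : θ ^ G0 ≤ 1 / (2 * M)) (hG1 : θ ^ G1 ≤ 1 / (2 * X.d)) (g1 : 1 ≤ G0)
    (ha : n1 ≤ a) (hxM : x ≤ M ^ (a + 1)) (hx : x = x1 * (X.d : ℝ) ^ (a + 1))
    (hx1 : (X.d : ℝ) ^ n1 < x1) (a1 : 1 ≤ a) {l : List E} (hP : X.Pre Y θ l)
    (hT : X.Ty2 θ n1 G0 l) (r1 : 1 / (2 * x) < X.rr l) (r2 : X.rr l ≤ 1 / x) :
    ∃ m ∈ Ioc n1 (G0 * (a + 1)), ∃ j ∈ Icc a (2 * (G1 + 2) * a), m + j = l.length ∧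
      (X.Pre Y θ (l.take m) ∧ X.Ty θ n1 (l.take m) ∧ X.FP x1 (l.take m)) ∧
      (1 / (2 * (X.d : ℝ) ^ (a + 1)) < X.rr (l.drop m) ∧
        X.rr (l.drop m) ≤ 2 * X.d * (1 / (2 * (X.d : ℝ) ^ (a + 1)))) := by
  have hd : (1 : ℝ) ≤ X.d := by exact_mod_cast X.d_pos
  have x11 : 1 < x1 := (one_le_pow₀ hd).trans_lt hx1
  have x10 : 0 < x1 := by linarith
  have p1 : (1 : ℝ) ≤ (X.d : ℝ) ^ (a + 1) := one_le_pow₀ hd
  have x0 : 0 < x := by rw [hx]; positivity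
  obtain ⟨m, hm, hF, hlo⟩ := fp_split X x11 (r2.trans (one_div_le_one_div_of_le x10 (by
    rw [hx]; exact le_mul_of_one_le_right x10.le p1)))
  have lm : (l.take m).length = m := by rw [List.length_take, min_eq_left hm]
  have m1 : n1 < m := by
    by_contra hn
    have b1 := X.rr_ge (l.take m)
    rw [lm] at b1
    have b2 : 1 / x1 < 1 / (X.d : ℝ) ^ m := one_div_lt_one_div_of_lt (by positivity)
      ((pow_le_pow_right₀ hd (not_lt.1 hn)).trans_lt hx1)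
    linarith [hF.2]
  have L1 : l.length < G0 * (a + 1) := len_lt h0 h1 hM x0 hG0 (by omega) hxM r1 (by
    simpa using hT.ty l.length (by omega) le_rfl)
  have e : X.rr l = X.rr (l.take m) * X.rr (l.drop m) := by
    rw [← Sys.rr_append, List.take_append_drop]
  have o0 := X.rr_pos (l.take m)
  have i0 := X.rr_pos (l.drop m)
  have i1 : 1 / (2 * (X.d : ℝ) ^ (a + 1)) < X.rr (l.drop m) := by
    have b1 : X.rr l ≤ 1 / x1 * X.rr (l.drop m) := by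
      rw [e]; exact mul_le_mul_of_nonneg_right hF.2 i0.le
    have b2 : 1 / (2 * x) = 1 / x1 * (1 / (2 * (X.d : ℝ) ^ (a + 1))) := by rw [hx]; field_simp
    exact lt_of_mul_lt_mul_left (a := 1 / x1) (by linarith) (by positivity)
  have i2 : X.rr (l.drop m) < 1 / (X.d : ℝ) ^ a := by
    have b1 : 1 / (X.d * x1) * X.rr (l.drop m) < X.rr l := by
      rw [e]; exact mul_lt_mul_of_pos_right hlo i0
    have b2 : 1 / x = 1 / (X.d * x1) * (1 / (X.d : ℝ) ^ a) := by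
      rw [hx, pow_succ]; field_simp
    exact lt_of_mul_lt_mul_left (a := 1 / (X.d * x1)) (by linarith) (by positivity)
  have ld : (l.drop m).length = l.length - m := List.length_drop
  refine ⟨m, mem_Ioc.2 ⟨m1, by omega⟩, l.length - m, mem_Icc.2 ⟨?_, ?_⟩, by omega,
    ⟨fun t ht => ?_, fun t h2 ht => ?_, hF⟩, i1, i2.le.trans (le_of_eq (by
      rw [pow_succ]; field_simp))⟩
  · by_contra hn
    have b1 := X.rr_ge (l.drop m)
    rw [ld] at b1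
    have b2 : 1 / (X.d : ℝ) ^ a ≤ 1 / (X.d : ℝ) ^ (l.length - m) :=
      one_div_le_one_div_of_le (by positivity) (pow_le_pow_right₀ hd (by omega))
    linarith
  · by_contra hn
    have b0 : m / G0 ≤ a + 1 := Nat.div_le_of_le_mul (by omega)
    have b3 : (G1 + 2) * (a + 1) ≤ 2 * (G1 + 2) * a := by nlinarith
    have b4 : (G1 + 2) * (a + 1) = G1 * (a + 1) + 2 * a + 2 := by ring
    have b1 := hT m (l.length - m) (by omega) (by omega)
    rw [← ld, List.take_length, ld] at b1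
    have b2 := len_lt h0 h1 (M := X.d) (x := (X.d : ℝ) ^ (a + 1)) (by linarith) (by linarith) hG1
      (k := a + 1) (by omega) le_rfl i1 b1
    omega
  · rw [lm] at ht
    rw [List.take_take, min_eq_left ht]
    exact hP t (by omega)
  · rw [lm] at ht
    rw [List.take_take, min_eq_left ht]
    exact hT.ty t h2 (by omega)

theorem small {θ M x Cv : ℝ} (h0 : 0 < θ) (h1 : θ < 1) (hM : 0 < M) (hx : 0 < x) {G0 n1 : ℕ}
    (hG0 : θ ^ G0 ≤ 1 / (2 * M)) (hn : 1 ≤ n1) (hxM : x ≤ M ^ n1) (s : S)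
    (hv : ∀ I : Finset ℕ,
      ∑ j ∈ I, X.Pr j s (fun l => 1 / (2 * x) < X.rr l ∧ X.rr l ≤ 2 * (1 / (2 * x))) ≤ Cv) :
    ∃ Ψ : ℤ → ℝ, Sys.PM (X.B0 ^ ((G0 + 2) * n1)) Cv Ψ ∧ ∀ (z : ℤ) (I : Finset ℕ),
    ∑ m ∈ I, X.Sm m s z (fun l => X.Ty2 θ n1 G0 l ∧ 1 / (2 * x) < X.rr l ∧ X.rr l ≤ 1 / x)
      (fun _ _ => 1) ≤ Ψ z := by
  classical
  set A : List E → Prop := fun l => 1 / (2 * x) < X.rr l ∧ X.rr l ≤ 2 * (1 / (2 * x)) with hA
  have r0 : X.rho 0 = fun _ _ => 1 := by funext t y; exact X.rho_zero t y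
  have nn : ∀ m z (B : List E → Prop), 0 ≤ X.Sm m s z B (fun _ _ => 1) := fun m z B =>
    X.Sm_nonneg fun _ _ => zero_le_one
  have pm : ∀ m ∈ range ((G0 + 2) * n1), Sys.PM (X.B0 ^ ((G0 + 2) * n1)) (X.Pr m s A)
      fun z => X.Sm m s z A fun _ _ => 1 := fun m hm =>
    pm_dvd (q := X.B0 ^ (m + 0)) ⟨fun z => nn m z A, fun z => by rw [← r0]; exact X.Sm_per m 0 s z A,
      by rw [← r0]; exact (X.Sm_avg m 0 s A).le⟩ (pow_dvd_pow _ (mem_range.1 hm).le)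
  refine ⟨fun z => ∑ m ∈ range ((G0 + 2) * n1), X.Sm m s z A fun _ _ => 1,
    ⟨fun z => sum_nonneg fun m _ => nn m z A, fun z => sum_congr rfl fun m hm => (pm m hm).2.1 z,
      ?_⟩, fun z I => ?_⟩
  · rw [sum_comm]
    refine (sum_le_sum fun m hm => (pm m hm).2.2).trans ?_
    rw [← sum_mul]
    exact mul_le_mul_of_nonneg_right (hv _) (Nat.cast_nonneg _)
  · rw [← sum_filter_add_sum_filter_not I (fun m => m < (G0 + 2) * n1)]
    have z2 : ∑ m ∈ I with ¬ m < (G0 + 2) * n1, X.Sm m s z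
        (fun l => X.Ty2 θ n1 G0 l ∧ 1 / (2 * x) < X.rr l ∧ X.rr l ≤ 1 / x) (fun _ _ => 1) = 0 := by
      refine sum_eq_zero fun m hm => (X.Ex_congr fun l hl => if_neg ?_).trans (X.Ex_const _ _ _)
      rintro ⟨b1, b2, -⟩
      have b3 := (mem_filter.1 hm).2
      have b4 := X.length_of_mem_Paths hl
      rw [add_mul] at b3
      have := len_lt h0 h1 hM hx hG0 hn hxM b2 (m := l.length) (by
        simpa using b1.ty l.length (by omega) le_rfl)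
      omega
    rw [z2, add_zero]
    refine le_trans (sum_le_sum fun m _ => ?_) (sum_le_sum_of_subset_of_nonneg
      (s := I.filter fun m => m < (G0 + 2) * n1)
      (fun m hm => mem_range.2 (mem_filter.1 hm).2) fun m _ _ => nn m z A)
    refine X.Ex_mono fun l _ => ?_
    have p0 : 0 ≤ X.pull l z fun _ => 1 := X.pull_nonneg _ _ fun _ => zero_le_one
    split_ifs with c1 c2
    · exact le_rfl
    · exact absurd ⟨c1.2.1, c1.2.2.trans (le_of_eq (by field_simp))⟩ c2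
    · exact p0
    · exact le_rfl

end Corex

theorem core_st (hV : VisitSt) (hI : InnerSt) (hS : StageSt) (hX : MaxSt) : CoreSt := by
  intro S E _ _ _ _ X hM θ h0 h1 hT
  classical
  have hB : (1 : ℝ) ≤ X.B0 := by exact_mod_cast X.B0_pos
  have hd : (1 : ℝ) ≤ X.d := by exact_mod_cast X.d_pos
  obtain ⟨R, hR'⟩ := exists_pow_lt_of_lt_one (show 0 < 1 / (X.B0 : ℝ) ^ 3 by positivity) h1
  have hR : θ ^ R * (X.B0 : ℝ) ^ 3 ≤ 1 := by
    rw [lt_div_iff₀ (by positivity)] at hR'; exact hR'.le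
  choose Ce hCe hs using hS S E X hM θ R h0 h1 hR
  obtain ⟨C1, hC1, hv1⟩ := hV S E X θ h0 h1 hT 2 (by norm_num)
  obtain ⟨Cv, hCv, hin⟩ := hI S E X hM θ h0 h1 hT (2 * X.d) (by linarith)
  obtain ⟨Cm, hCm, hmx⟩ := hX S E X θ h0 h1 hT
  obtain ⟨g, Cg, hCg, hg⟩ := X.ng_le
  obtain ⟨C2, hC2, hv⟩ := X.Var_avg hM (g + 1)
  obtain ⟨G1, hG1⟩ := exists_pow_lt_of_lt_one (show 0 < 1 / (2 * (X.d : ℝ)) by positivity) h1
  obtain ⟨C3, hC3, hin⟩ := hin (2 * (G1 + 2)) (g + 1)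
  obtain ⟨Q, hQ⟩ : ∃ Q : ℝ, Q = (X.d : ℝ) ^ (R + 1) + (X.B0 : ℝ) ^ (2 * (G1 + 2)) := ⟨_, rfl⟩
  have q1 : (1 : ℝ) ≤ (X.d : ℝ) ^ (R + 1) := one_le_pow₀ hd
  have q2 : (1 : ℝ) ≤ (X.B0 : ℝ) ^ (2 * (G1 + 2)) := one_le_pow₀ hB
  have Q1 : 1 < Q := by linarith
  obtain ⟨M, hMd⟩ : ∃ M : ℝ, M = (X.d : ℝ) ^ 2 * Q := ⟨_, rfl⟩
  have M1 : 1 < M := by rw [hMd]; nlinarith [one_le_pow₀ (n := 2) hd]
  obtain ⟨G', hG'⟩ := exists_pow_lt_of_lt_one (show 0 < 1 / (2 * M) by positivity) h1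
  have hG0 : θ ^ (G' + 1) ≤ 1 / (2 * M) :=
    (pow_le_pow_of_le_one h0.le h1.le (by omega)).trans hG'.le
  obtain ⟨W, hW⟩ : ∃ W : ℝ, W = 2 * (X.cmx * (1 - θ)⁻¹) + 1 := ⟨_, rfl⟩
  have W0 : 0 ≤ W := by
    have := X.cmx_nonneg
    have := sub_pos.2 h1
    rw [hW]; positivity
  obtain ⟨K, hK⟩ : ∃ K : S → ℝ, K = fun s => Cv * Ce s +
    Cg * (2 * ((G' + 1 : ℕ) : ℝ) + 1) ^ (g + 1) * (W * (Cv * C2 + C3) / X.π s) := ⟨_, rfl⟩
  have K0 : ∀ s, 0 ≤ K s := fun s => by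
    have := X.π_pos s
    have := hCe s
    rw [hK]; positivity
  have KS : 0 ≤ ∑ s, K s := sum_nonneg fun s _ => K0 s
  refine ⟨G' + 1, G' + 1 + 2, R + 1, C1 + (Cv * 1 + (∑ s, K s) * Cm), by omega, by positivity,
    fun n1 hn x hx s => ?_⟩
  have hπ := X.π_pos s
  rcases le_total x (M ^ n1) with hxM | hxM
  · obtain ⟨Ψ, p1, p2⟩ := Corex.small X h0 h1 (by linarith) hx hG0 (by omega) hxM s
      (hv1 _ (by positivity) s)
    exact ⟨Ψ, Corex.pm_mono p1 (le_add_of_nonneg_right (by positivity)), p2⟩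
  obtain ⟨Ys, Y1, Y2, Y3⟩ := hmx n1 s
  have dv : n1 / (R + 1) ≤ n1 := Nat.div_le_self _ _
  have pr : Sys.PM (X.B0 ^ (n1 + n1 / (R + 1))) 1 (X.rho (n1 + n1 / (R + 1)) s) :=
    ⟨X.rho_nonneg _ _, X.rho_per _ _, by rw [X.rho_sum]; push_cast; linarith⟩
  refine ⟨_, Corex.pm_mono (Corex.pm_comb
    (Corex.pm_dvd pr (pow_dvd_pow _ (by nlinarith : _ ≤ (G' + 1 + 2) * n1)))
    (Corex.pm_dvd Y2 (pow_dvd_pow _ (by nlinarith))) hCv KS) (by linarith), fun z I => ?_⟩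
  obtain ⟨a, ha1, ha2⟩ := exists_nat_pow_near ((one_le_pow₀ M1.le).trans hxM) M1
  have an : n1 ≤ a := Nat.lt_succ_iff.1 ((pow_lt_pow_iff_right₀ M1).1 (hxM.trans_lt ha2))
  have a1 : 1 ≤ a := by omega
  have a0 : (0 : ℝ) < a := by exact_mod_cast a1
  have p1 : (1 : ℝ) ≤ (X.d : ℝ) ^ (a + 1) := one_le_pow₀ hd
  obtain ⟨x1, hx1⟩ : ∃ x1 : ℝ, x1 = x / (X.d : ℝ) ^ (a + 1) := ⟨_, rfl⟩
  have xe : x = x1 * (X.d : ℝ) ^ (a + 1) := by rw [hx1]; field_simp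
  have xQ : Q ^ a ≤ x1 := by
    rw [hx1, le_div_iff₀ (by linarith)]
    refine le_trans ?_ ha1
    rw [hMd, mul_pow, ← pow_mul, mul_comm]
    exact mul_le_mul_of_nonneg_right (pow_le_pow_right₀ hd (by omega)) (by positivity)
  have s1 : (X.d : ℝ) ^ ((R + 1) * a) < x1 := by
    rw [pow_mul]
    exact (pow_lt_pow_left₀ (by linarith) (by linarith) (by omega)).trans_le xQ
  have s2 : (X.B0 : ℝ) ^ (2 * (G1 + 2) * a) ≤ x1 := by
    rw [pow_mul]
    exact (pow_le_pow_left₀ (by linarith) (by linarith) a).trans xQ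
  have x11 : 1 ≤ x1 := (one_le_pow₀ Q1.le).trans xQ
  have x10 : 0 < x1 := by linarith
  have x1x : x1 ≤ x := by rw [xe]; exact le_mul_of_one_le_right x10.le p1
  have hN2 : θ ^ ((G' + 1) * (a + 1)) ≤ 1 / x1 := by
    calc θ ^ ((G' + 1) * (a + 1)) ≤ (1 / M) ^ (a + 1) := by
          rw [pow_mul]
          exact pow_le_pow_left₀ (by positivity)
            (hG0.trans (one_div_le_one_div_of_le (by linarith) (by linarith))) _
      _ ≤ 1 / x1 := by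
          rw [one_div_pow]
          exact one_div_le_one_div_of_le x10 (x1x.trans ha2.le)
  obtain ⟨Hm, m1, m2⟩ : ∃ Hm : ℕ, (X.B0 : ℝ) ^ Hm ≤ x1 ∧
      ∀ H ≤ 3 * ((G' + 1) * (a + 1)), (X.B0 : ℝ) ^ H ≤ x1 → H ≤ Hm :=
    ⟨Nat.findGreatest (fun H => (X.B0 : ℝ) ^ H ≤ x1) (3 * ((G' + 1) * (a + 1))),
      Nat.findGreatest_spec (P := fun H => (X.B0 : ℝ) ^ H ≤ x1) (Nat.zero_le _)
        (by simpa using x11), fun H h2 h3 => Nat.le_findGreatest h2 h3⟩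
  obtain ⟨Err, E1, E2⟩ := hin a a1 (1 / (2 * (X.d : ℝ) ^ (a + 1))) (by positivity)
  have b1 := hs s (Ys z) x1 (Y1 z) x10 _ hN2 a s1
    (fun t y => max 0 (X.rho a t y - X.Var a Hm t y)) (fun t y => le_max_left _ _)
    (fun H aH hH hB' t y => max_le (X.rho_nonneg _ _ _) (by
      have c2 := (abs_le.1 (X.abs_rho_sub aH (m2 H hH hB') t y)).1
      linarith)) z n1 hn ((G' + 1) * (a + 1))
  have Y0 : 0 ≤ Ys z := by linarith [Y1 z]
  have b2 := Corex.err_sum hCg (K := W * (Cv * C2 + C3) / X.π s * Ys z) (by positivity) g (G' + 1)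
    a n1 a1 (fun m =>
      Cv * X.Sm m s z (fun l => X.Pre (Ys z) θ l ∧ X.Ty θ n1 l ∧ X.FP x1 l) (X.Var a Hm)
      + X.Sm m s z (fun l => X.Pre (Ys z) θ l ∧ X.Ty θ n1 l ∧ X.FP x1 l) Err) (fun m => by
    have c1 := Corex.err_le X h0 h1 (Y1 z) x10 m n1 s z Err _ (pow_pos X.B0_pos _)
      (by push_cast; exact s2) _ (by positivity) E1
    have c2 := Corex.err_le X h0 h1 (Y1 z) x10 m n1 s z (X.Var a Hm) _ (pow_pos X.B0_pos Hm)
      (by push_cast; exact m1) (C2 / (a : ℝ) ^ (g + 1)) (by positivity)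
      fun t => ⟨X.Var_nonneg _ _ _, X.Var_per _ _ _, hv a Hm a1 t⟩
    rw [← hW] at c1 c2
    refine (add_le_add (mul_le_mul_of_nonneg_left c2 hCv) c1).trans ?_
    calc _ = X.ng m * (W * (Cv * C2 + C3) / X.π s * Ys z / (a : ℝ) ^ (g + 1)) := by ring
      _ ≤ _ := mul_le_mul_of_nonneg_right (hg m) (by positivity))
  refine (Corex.split X s z _ (fun l => X.Pre (Ys z) θ l ∧ X.Ty θ n1 l ∧ X.FP x1 l)
    (fun l => 1 / (2 * (X.d : ℝ) ^ (a + 1)) < X.rr l ∧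
      X.rr l ≤ 2 * X.d * (1 / (2 * (X.d : ℝ) ^ (a + 1)))) I
    (Ioc n1 ((G' + 1) * (a + 1))) (Icc a (2 * (G1 + 2) * a)) fun l hl hv' hA =>
      Corex.cut X h0 h1 (by linarith) hG0 hG1.le (by omega) an ha2.le xe
        ((pow_le_pow_right₀ hd (by nlinarith)).trans_lt s1) a1 (Y3 z l hl hv' hA.1.ty)
        hA.1 hA.2.1 hA.2.2).trans ?_
  refine (sum_le_sum fun m _ => X.Sm_mono (F' := fun t y =>
    Cv * max 0 (X.rho a t y - X.Var a Hm t y) + Cv * X.Var a Hm t y + Err t y)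
      fun t y => (E2 t y).trans ?_).trans ?_
  · have := mul_le_mul_of_nonneg_left (le_max_right 0 (X.rho a t y - X.Var a Hm t y)) hCv
    linarith
  · simp only [Corex.Sm_three]
    rw [sum_add_distrib, ← mul_sum]
    have b3 := mul_le_mul_of_nonneg_left b1 hCv
    have b4 : K s * Ys z ≤ (∑ s, K s) * Ys z :=
      mul_le_mul_of_nonneg_right (single_le_sum (fun s _ => K0 s) (mem_univ s)) Y0
    rw [hK] at b4
    simp only at b4
    rw [hK]
    linarith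

end Ps

end Pool.Agent.Lib.MP_39d40e_nt
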