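import Pool.Agent.Lib.MP_39d40e_nt.Ps0

/-! The future of a point is independent of its class modulo a power of `B0`. -/

namespace Pool.Agent.Lib.MP_39d40e_nt

open Finset

namespace Ps

namespace Crtx

theorem one {q D M : ℕ} (hq : 0 < q) (hD : 0 < D) (hc : IsCoprime (D : ℤ) (q : ℤ)) {μ : ℝ}
    {Ψ : ℤ → ℝ} (h : Sys.PM q μ Ψ) (b c : ℤ) (hb : IsCoprime b D) (hM : D * q ≤ M) :
    ∑ z ∈ (Icc (-(M : ℤ)) M).filter (fun z => (D : ℤ) ∣ b * z + c), Ψ z ≤ 3 * μ * M / D := by
  obtain ⟨h0, h1, h2⟩ := h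
  have hq' : (0 : ℝ) < q := by exact_mod_cast hq
  have hD' : (0 : ℝ) < D := by exact_mod_cast hD
  have hD0 : (D : ℤ) ≠ 0 := by exact_mod_cast hD.ne'
  have hμ0 : 0 ≤ μ := by
    have : 0 ≤ μ * q := (sum_nonneg fun (z : ℕ) _ => h0 z).trans h2
    exact nonneg_of_mul_nonneg_left this hq'
  set L := (Icc (-(M : ℤ)) M).filter (fun z => (D : ℤ) ∣ b * z + c) with hL
  rcases L.eq_empty_or_nonempty with e | ⟨z0, hz0⟩
  · rw [e, sum_empty]; positivity
  have dv : ∀ z ∈ L, (D : ℤ) * ((z - z0) / D) + z0 = z := by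
    intro z hz
    have a1 := (mem_filter.1 hz).2.sub (mem_filter.1 hz0).2
    rw [show b * z + c - (b * z0 + c) = b * (z - z0) by ring] at a1
    rw [Int.mul_ediv_cancel' (hb.symm.dvd_of_dvd_mul_left a1)]
    ring
  have inj : Set.InjOn (fun z => (z - z0) / D) L := fun z hz z' hz' e => by
    rw [← dv z hz, ← dv z' hz']
    simp only at e
    rw [e]
  have av : ∑ n ∈ range q, Ψ (D * (n : ℤ) + z0) ≤ μ * q := by
    have := sum_pull Ψ q hq h1 1 one_ne_zero D (-z0) (by simpa using hc) q (by simp)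
    simp only [one_dvd, if_true, Int.cast_one, abs_one, one_mul, Int.ediv_one, sub_neg_eq_add,
      div_self hq'.ne'] at this
    rw [this]
    exact h2
  have hw := win_per (fun n => Ψ (D * n + z0)) q hq (fun n => by
      have := per_int_mul Ψ q h1 D (D * n + z0)
      rw [← this]
      congr 1
      ring) (fun n => h0 _) μ av (L.image fun z => (z - z0) / D) (-z0 / D) (M / D)
    (by positivity) (by
      intro y hy
      obtain ⟨z, hz, rfl⟩ := mem_image.1 hy
      have a1 : (D : ℝ) * (((z - z0) / D : ℤ) : ℝ) + z0 = z := by exact_mod_cast dv z hz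
      have a2 : |(z : ℝ)| ≤ M := by exact_mod_cast abs_le.2 (mem_Icc.1 (mem_filter.1 hz).1)
      have a3 : (((z - z0) / D : ℤ) : ℝ) - -z0 / D = z / D := by
        rw [← a1]; field_simp; ring
      rw [a3, abs_div, Nat.abs_cast]
      gcongr)
  rw [sum_image inj, sum_congr rfl fun z hz => by rw [dv z hz]] at hw
  have a4 : (q : ℝ) ≤ M / D := by
    rw [le_div_iff₀ hD', mul_comm]; exact_mod_cast hM
  calc _ ≤ μ * (2 * (M / D) + q) := hw
    _ ≤ μ * (2 * (M / D) + M / D) := by gcongr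
    _ = _ := by ring

end Crtx

theorem crt_st : CrtSt := by
  classical
  intro S E _ _ _ _ X
  refine ⟨3 * ∑ t, 1 / X.π t, mul_nonneg (by norm_num) (sum_nonneg fun t _ =>
    (one_div_pos.2 (X.π_pos t)).le), fun k H M A η μ Ψ t hA hΨ hM => ?_⟩
  have hq : 0 < X.B0 ^ H := pow_pos X.B0_pos H
  have hπ := X.π_pos t
  have hμ0 : 0 ≤ μ := by
    have : 0 ≤ μ * (X.B0 ^ H : ℕ) := (sum_nonneg fun (z : ℕ) _ => hΨ.1 z).trans hΨ.2.2
    exact nonneg_of_mul_nonneg_left this (by exact_mod_cast hq)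
  have hη : 0 ≤ η := le_trans (X.Ex_nonneg fun l _ => by split_ifs <;> norm_num) (hA t)
  set L : Finset (Σ _ : S, List E) :=
    univ.sigma fun s => (X.Paths k s).filter fun l => A l ∧ X.endp s l = t with hL
  have a1 : ∑ z ∈ (Icc (-(M : ℤ)) M).filter (fun z => A (X.orb k (t, z))), Ψ z ≤
      ∑ p ∈ L, ∑ z ∈ (Icc (-(M : ℤ)) M).filter
        (fun z => (X.DP p.2 : ℤ) ∣ X.bP p.2 * z + X.cP p.2), Ψ z := by
    rw [← sum_fiberwise_of_maps_to (t := L)
      (g := fun z => (⟨(X.step^[k] (t, z)).1, X.orb k (t, z)⟩ : Σ _ : S, List E))]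
    · refine sum_le_sum fun p _ => sum_le_sum_of_subset_of_nonneg (fun z hz => ?_)
        fun z _ _ => hΨ.1 z
      obtain ⟨h1, h2⟩ := mem_filter.1 hz
      refine mem_filter.2 ⟨(mem_filter.1 h1).1, ?_⟩
      rw [← h2]
      exact Dvd.intro _ (X.orb_mul k (t, z))
    · intro z hz
      exact mem_sigma.2 ⟨mem_univ _, mem_filter.2 ⟨X.orb_mem k (t, z), (mem_filter.1 hz).2,
        X.orb_endp k (t, z)⟩⟩
  have a2 : ∀ p ∈ L, ∑ z ∈ (Icc (-(M : ℤ)) M).filter
      (fun z => (X.DP p.2 : ℤ) ∣ X.bP p.2 * z + X.cP p.2), Ψ z ≤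
        3 * μ * M / X.π t * (X.π p.1 * X.wt p.2) := by
    intro p hp
    obtain ⟨h1, -, h3⟩ := mem_filter.1 (mem_sigma.1 hp).2
    have d1 := X.DP_dvd p.2
    rw [X.length_of_mem_Paths h1] at d1
    have d2 : (0 : ℝ) < X.DP p.2 := by exact_mod_cast X.DP_pos p.2
    have d3 := X.π_pos p.1
    refine (Crtx.one hq (X.DP_pos p.2) ?_ hΨ _ _ (X.bP_cop_DP p.2 p.2) ((Nat.mul_le_mul_right _
      (Nat.le_of_dvd (pow_pos X.d_pos k) d1)).trans hM)).trans (le_of_eq ?_)
    · push_cast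
      exact ((X.B0_cop.pow (m := H) (n := k)).of_isCoprime_of_dvd_right
        (by exact_mod_cast d1)).symm
    · rw [X.wt_eq h1, h3]
      field_simp
  have a3 : ∑ p ∈ L, X.π p.1 * X.wt p.2 ≤ η := by
    rw [hL, sum_sigma]
    calc _ ≤ ∑ s, X.π s * η := by
          refine sum_le_sum fun s _ => ?_
          simp only
          rw [← mul_sum]
          refine mul_le_mul_of_nonneg_left (le_trans ?_ (hA s)) (X.π_pos s).le
          rw [sum_filter, Sys.Pr, Sys.Ex]
          refine sum_le_sum fun l hl => ?_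
          have w0 : 0 ≤ X.wt l := by
            have d2 : (0 : ℝ) < X.DP l := by exact_mod_cast X.DP_pos l
            have := X.π_pos s
            have := X.π_pos (X.endp s l)
            rw [X.wt_eq hl]; positivity
          by_cases h : A l <;> by_cases h' : X.endp s l = t <;> simp [h, h', w0]
      _ = η := by rw [← sum_mul, X.π_sum, one_mul]
  have a4 : 1 / X.π t ≤ ∑ t, 1 / X.π t :=
    single_le_sum (f := fun t => 1 / X.π t) (fun t _ => (one_div_pos.2 (X.π_pos t)).le) (mem_univ t)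
  calc _ ≤ ∑ p ∈ L, 3 * μ * M / X.π t * (X.π p.1 * X.wt p.2) := a1.trans (sum_le_sum a2)
    _ ≤ 3 * μ * M / X.π t * η := by
        rw [← mul_sum]
        exact mul_le_mul_of_nonneg_left a3 (by positivity)
    _ = 3 * (1 / X.π t) * η * μ * M := by ring
    _ ≤ _ := by gcongr

end Ps

end Pool.Agent.Lib.MP_39d40e_nt
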