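import Pool.Agent.Lib.MP_39d40e_nt.Ps0

/-! Descent with a power saving: an escaping orbit has a first bad point. -/

namespace Pool.Agent.Lib.MP_39d40e_nt

open Finset

namespace Ps

namespace Firstx

variable {S E : Type} [Fintype S] [Fintype E] [DecidableEq S] [DecidableEq E] (X : Sys S E)

omit [DecidableEq E] in
theorem orb_add (m n : ℕ) (x : S × ℤ) :
    X.orb (m + n) x = X.orb m (X.step^[n] x) ++ X.orb n x := by
  induction m with
  | zero => simp [Sys.orb]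
  | succ m ih => rw [Nat.add_right_comm, Sys.orb, Sys.orb, ih, Function.iterate_add_apply]; rfl

theorem len (m : ℕ) (x : S × ℤ) : (X.orb m x).length = m :=
  X.length_of_mem_Paths (X.orb_mem m x)

theorem take_orb (t j : ℕ) (x : S × ℤ) : (X.orb (t + j) x).take t = X.orb t (X.step^[j] x) := by
  rw [orb_add]; exact List.take_left' (len X t _)

omit [DecidableEq E] in
theorem one (x : S × ℤ) :
    |((x.2 : ℤ) : ℝ)| ≤ X.d * |(((X.step x).2 : ℤ) : ℝ)| + X.cmx := by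
  have h1 : (X.D (X.lab x) : ℝ) * (((X.step x).2 : ℤ) : ℝ) =
      (X.b (X.lab x) : ℝ) * ((x.2 : ℤ) : ℝ) + (X.c (X.lab x) : ℝ) := by
    exact_mod_cast X.step_mul x
  have h2 : (X.D (X.lab x) : ℝ) ≤ X.d := by
    exact_mod_cast Nat.le_of_dvd X.d_pos (X.D_dvd _)
  have h3 : (1 : ℝ) ≤ |(X.b (X.lab x) : ℝ)| := by
    exact_mod_cast Int.one_le_abs (X.b_ne (X.lab x))
  have h4 : |(X.c (X.lab x) : ℝ)| ≤ X.cmx :=
    single_le_sum (f := fun e => |(X.c e : ℝ)|) (fun _ _ => abs_nonneg _) (mem_univ _)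
  have h5 : (X.b (X.lab x) : ℝ) * ((x.2 : ℤ) : ℝ) =
      (X.D (X.lab x) : ℝ) * (((X.step x).2 : ℤ) : ℝ) - (X.c (X.lab x) : ℝ) := by linarith
  calc |((x.2 : ℤ) : ℝ)| ≤ |(X.b (X.lab x) : ℝ)| * |((x.2 : ℤ) : ℝ)| :=
        le_mul_of_one_le_left (abs_nonneg _) h3
    _ = |(X.D (X.lab x) : ℝ) * (((X.step x).2 : ℤ) : ℝ) - (X.c (X.lab x) : ℝ)| := by
        rw [← abs_mul, h5]
    _ ≤ |(X.D (X.lab x) : ℝ) * (((X.step x).2 : ℤ) : ℝ)| + |(X.c (X.lab x) : ℝ)| := abs_sub _ _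
    _ ≤ _ := by
        rw [abs_mul, Nat.abs_cast]
        exact add_le_add (mul_le_mul_of_nonneg_right h2 (abs_nonneg _)) h4

omit [DecidableEq E] in
theorem many (t : ℕ) (p : S × ℤ) (h : ∀ i ≤ t, X.cmx ≤ |(((X.step^[i] p).2 : ℤ) : ℝ)|) :
    |((p.2 : ℤ) : ℝ)| ≤ ((X.d : ℝ) + 1) ^ t * |(((X.step^[t] p).2 : ℤ) : ℝ)| := by
  induction t with
  | zero => simp
  | succ t ih =>
    have h1 := ih fun i hi => h i (by omega)
    have h2 := one X (X.step^[t] p)
    have h3 := h (t + 1) le_rfl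
    rw [Function.iterate_succ_apply'] at h3 ⊢
    refine h1.trans ?_
    rw [pow_succ, mul_assoc]
    exact mul_le_mul_of_nonneg_left (by linarith) (by positivity)

theorem seg_orb (t j r : ℕ) (x : S × ℤ) :
    ((X.orb (t + (j + r)) x).drop t).take j = X.orb j (X.step^[r] x) := by
  rw [orb_add, List.drop_left' (len X t _), take_orb]

theorem lv_le {Q D t a b e : ℕ} (hQ2 : 2 ≤ Q) (hD : 0 < D) (he : 0 < e) (hQ : e ^ D ≤ Q)
    (h : a ≤ e ^ t * b) : Nat.log Q a ≤ Nat.log Q b + 1 + t / D := by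
  have h2 : b < Q ^ (Nat.log Q b + 1) := Nat.lt_pow_succ_log_self (by omega) b
  have h3 : e ^ t ≤ Q ^ (t / D + 1) :=
    (Nat.pow_le_pow_right he (Nat.lt_mul_div_succ t hD).le).trans
      (by rw [pow_mul]; exact Nat.pow_le_pow_left hQ _)
  have h4 : a < Q ^ (Nat.log Q b + 1 + t / D + 1) := by
    rw [add_assoc, pow_add, mul_comm]
    exact h.trans_lt (Nat.mul_lt_mul_of_le_of_lt h3 h2 (by positivity))
  exact Nat.lt_succ_iff.1 (Nat.log_lt_of_lt_pow' (Nat.succ_ne_zero _) h4)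

theorem key {θ γ : ℝ} (h0 : 0 < θ) (h1 : θ < 1) (hγ : 1 ≤ γ) {Q : ℕ}
    (hS : ∀ (t : ℕ) (p : S × ℤ), (∀ i ≤ t, (Q : ℝ) ≤ |(((X.step^[i] p).2 : ℤ) : ℝ)|) →
      (∀ i < t, ¬ X.Bad3 θ Q (X.step^[i] p)) →
      X.rr (X.orb t p) ≤ θ ^ (2 * t) * γ ^ (3 * Sys.Lv Q (X.step^[t] p)))
    (hQ2 : 2 ≤ Q) (hQ : 2 * (X.cmx * (1 - θ)⁻¹ + 1) * γ ^ 3 ≤ Q)
    {v : S × ℤ} {N m : ℕ} (hv : |v.2| ≤ N)
    (hb : ∀ i ≤ m, (Q : ℝ) ≤ |(((X.step^[i] v).2 : ℤ) : ℝ)|)
    (hg : ∀ i < m, ¬ X.Bad3 θ Q (X.step^[i] v)) :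
    (∀ t ≤ m, X.rr ((X.orb m v).take t) ≤ θ ^ (2 * t) * γ ^ (3 * Sys.Lv Q (X.step^[m] v))) ∧
      2 * γ ^ (3 * Sys.Lv Q (X.step^[m] v)) ≤ |(((X.step^[m] v).2 : ℤ) : ℝ)| ∧
      |(((X.step^[m] v).2 : ℤ) : ℝ)| ≤ 2 * N * X.rr (X.orb m v) := by
  have a1 : ∀ t ≤ m,
      X.rr ((X.orb m v).take t) ≤ θ ^ (2 * t) * γ ^ (3 * Sys.Lv Q (X.step^[m] v)) := by
    intro t ht
    obtain ⟨j, rfl⟩ := Nat.exists_eq_add_of_le ht
    rw [take_orb]
    have := hS t (X.step^[j] v)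
      (fun i hi => by rw [← Function.iterate_add_apply]; exact hb _ (by omega))
      (fun i hi => by rw [← Function.iterate_add_apply]; exact hg _ (by omega))
    rwa [← Function.iterate_add_apply] at this
  have e0 := X.orb_mul m v
  have b0 := hb m le_rfl
  have pre : X.Pre (γ ^ (3 * Sys.Lv Q (X.step^[m] v))) θ (X.orb m v) := by
    intro t ht
    rw [len] at ht
    refine (a1 t ht).trans ?_
    rw [mul_comm]
    exact mul_le_mul_of_nonneg_left (pow_le_pow_of_le_one h0.le h1.le (by omega)) (by positivity)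
  have a2 := pre.cP_le h0.le h1 (by positivity)
  refine ⟨a1, ?_⟩
  unfold Sys.Lv at a2 ⊢
  generalize (X.step^[m] v).2 = w at e0 b0 a2 ⊢
  generalize X.orb m v = o at e0 a2 ⊢
  have e1 : |(w : ℝ)| = (w.natAbs : ℝ) := by rw [Nat.cast_natAbs, Int.cast_abs]
  have b1 : Q ≤ w.natAbs := by rw [e1] at b0; exact_mod_cast b0
  have b2 : 0 < Nat.log Q w.natAbs := Nat.log_pos (by omega) b1
  have b3 : (Q : ℝ) ^ Nat.log Q w.natAbs ≤ |(w : ℝ)| := by
    rw [e1]; exact_mod_cast Nat.pow_log_le_self Q (by omega : w.natAbs ≠ 0)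
  generalize Nat.log Q w.natAbs = l at a2 b2 b3 ⊢
  have c0 : 0 ≤ X.cmx * (1 - θ)⁻¹ := by
    have := X.cmx_nonneg
    have := sub_pos.2 h1
    positivity
  have b4 : 2 * (X.cmx * (1 - θ)⁻¹ + 1) * γ ^ (3 * l) ≤ |(w : ℝ)| := by
    refine le_trans ?_ ((pow_le_pow_left₀ (by positivity) hQ l).trans b3)
    rw [mul_pow, pow_mul]
    exact mul_le_mul_of_nonneg_right (le_self_pow₀ (by linarith) b2.ne') (by positivity)
  have g0 : 0 < γ ^ (3 * l) := by positivity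
  generalize γ ^ (3 * l) = Y at a2 b4 g0 ⊢
  have c1 := mul_nonneg c0 g0.le
  refine ⟨by linarith, ?_⟩
  have d0 : (0 : ℝ) < X.DP o := by exact_mod_cast X.DP_pos o
  have e2 : (X.DP o : ℝ) * w = X.bP o * v.2 + X.cP o := by exact_mod_cast e0
  have e3 : |(v.2 : ℝ)| ≤ N := by exact_mod_cast hv
  have e4 : (X.DP o : ℝ) * |(w : ℝ)| ≤ |(X.bP o : ℝ)| * N + X.cmx * Y * (1 - θ)⁻¹ * X.DP o := by
    rw [← abs_of_pos d0, ← abs_mul, e2, abs_of_pos d0]
    refine (abs_add_le _ _).trans (add_le_add ?_ a2)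
    rw [abs_mul]
    exact mul_le_mul_of_nonneg_left e3 (abs_nonneg _)
  have e5 := mul_le_mul_of_nonneg_left b4 d0.le
  have e6 := mul_pos d0 g0
  rw [Sys.rr, ← mul_div_assoc, le_div_iff₀ d0]
  linarith

end Firstx

theorem first_st (h : SegSt) : FirstSt := by
  classical
  intro S E _ _ _ _ X θ h0 h1
  obtain ⟨Q1, hS⟩ := h S E X θ h0 h1
  have hB : (1 : ℝ) ≤ X.B0 := by exact_mod_cast X.B0_pos
  set γ : ℝ := (X.B0 : ℝ) / θ ^ 2 with hγ
  have γ1 : 1 ≤ γ := by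
    rw [hγ, le_div_iff₀ (by positivity), one_mul]
    exact (pow_le_one₀ h0.le h1.le).trans hB
  obtain ⟨R1, hR1⟩ := exists_pow_lt_of_lt_one (show 0 < 1 / γ by positivity) h1
  have hR : θ ^ (R1 + 1) * γ ≤ 1 := by
    rw [lt_div_iff₀ (by positivity)] at hR1
    exact (mul_le_mul_of_nonneg_right (pow_le_pow_of_le_one h0.le h1.le (Nat.le_succ _))
      (by positivity)).trans hR1.le
  obtain ⟨Q2, hQ2⟩ := exists_nat_ge (2 * (X.cmx * (1 - θ)⁻¹ + 1) * γ ^ 3)
  have la : 0 < -Real.log θ := neg_pos.2 (Real.log_neg h0 h1)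
  obtain ⟨Q3, hQ3⟩ := exists_nat_ge X.cmx
  refine ⟨6 * (R1 + 1), 1 / (-Real.log θ) + 1, by omega, by positivity, fun g hg =>
    ⟨Q1 + Q2 + Q3 + (X.d + 1) ^ (g * (3 * (R1 + 1))) + 3, fun Q hQ v N y hy hv hesc => ?_⟩⟩
  have hQc : X.cmx ≤ Q := hQ3.trans (by exact_mod_cast (by omega : Q3 ≤ Q))
  have hQ' : 2 * (X.cmx * (1 - θ)⁻¹ + 1) * γ ^ 3 ≤ Q :=
    hQ2.trans (by exact_mod_cast (by omega : Q2 ≤ Q))
  set K : ℝ := 1 / (-Real.log θ) + 1 with hK
  have K0 : 0 ≤ K * Real.log N := mul_nonneg (by positivity) (Real.log_natCast_nonneg N)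
  have N3 : (3 : ℝ) ≤ N := by
    have a1 := hesc 0 (by simpa using K0)
    have a2 : |(v.2 : ℝ)| ≤ N := by exact_mod_cast hv
    have a3 : (3 : ℝ) ≤ Q := by exact_mod_cast (by omega : 3 ≤ Q)
    simp only [Function.iterate_zero, id_eq] at a1
    linarith
  have L1 : 1 ≤ Real.log N := by
    rw [Real.le_log_iff_exp_le (by linarith)]
    linarith [Real.exp_one_lt_d9]
  set T := ⌊K * Real.log N⌋₊ with hT
  have T1 : ∀ i ≤ T, (i : ℝ) ≤ K * Real.log N := fun i hi =>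
    le_trans (by exact_mod_cast hi) (Nat.floor_le K0)
  have big : ∀ i ≤ T, (Q : ℝ) ≤ |(((X.step^[i] v).2 : ℤ) : ℝ)| := fun i hi =>
    hy.trans (hesc i (T1 i hi)).le
  have hex : ∃ m, m ≤ T ∧ X.Bad3 θ Q (X.step^[m] v) := by
    by_contra hn
    obtain ⟨a1, a2, a3⟩ := Firstx.key X h0 h1 γ1 (hS Q (by omega)) (by omega) hQ' hv big
      fun i hi hb => hn ⟨i, hi.le, hb⟩
    have a4 := a1 T le_rfl
    rw [List.take_of_length_le (Firstx.len X T v).le] at a4
    have a5 : θ ^ T < 1 / N := by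
      have b1 := Nat.lt_floor_add_one (K * Real.log N)
      rw [← hT, hK, add_mul, one_mul] at b1
      have b2 : 1 / (-Real.log θ) * Real.log N < T := by linarith
      rw [div_mul_eq_mul_div, one_mul, div_lt_iff₀ la] at b2
      rw [← Real.log_lt_log_iff (by positivity) (by positivity), Real.log_pow, one_div,
        Real.log_inv]
      linarith
    have a6 : θ ^ (2 * T) ≤ θ ^ T := pow_le_pow_of_le_one h0.le h1.le (by omega)
    have a7 : θ ^ (2 * T) * N < 1 := by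
      have := a6.trans_lt a5
      rwa [lt_div_iff₀ (by linarith)] at this
    have g0 : 0 < γ ^ (3 * Sys.Lv Q (X.step^[T] v)) := by positivity
    have a8 := mul_le_mul_of_nonneg_left a4 (show (0 : ℝ) ≤ 2 * N by positivity)
    have a9 := mul_lt_mul_of_pos_right a7 g0
    linarith
  obtain ⟨m1, m2⟩ := Nat.find_spec hex
  have good : ∀ i < Nat.find hex, ¬ X.Bad3 θ Q (X.step^[i] v) := fun i hi hb =>
    Nat.find_min hex hi ⟨by omega, hb⟩
  obtain ⟨-, -, a3⟩ := Firstx.key X h0 h1 γ1 (hS Q (by omega)) (by omega) hQ' hv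
    (fun i hi => big i (hi.trans m1)) good
  refine ⟨Nat.find hex, T1 _ m1, m2, fun t j ht hj => ?_, ?_⟩
  · rw [Firstx.len] at ht
    generalize Nat.find hex = m at m1 good ht hj ⊢
    obtain ⟨r, rfl⟩ : ∃ r, m = t + (j + r) := ⟨m - (t + j), by omega⟩
    rw [Firstx.seg_orb]
    have c1 := hS Q (by omega) j (X.step^[r] v)
      (fun i hi => by rw [← Function.iterate_add_apply]; exact big _ (by omega))
      (fun i hi => by rw [← Function.iterate_add_apply]; exact good _ (by omega))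
    rw [← Function.iterate_add_apply] at c1
    have c2 := Firstx.many X t (X.step^[j + r] v) fun i hi => by
      rw [← Function.iterate_add_apply]; exact hQc.trans (big _ (by omega))
    rw [← Function.iterate_add_apply] at c2
    have c3 := big _ m1
    unfold Sys.Lv at c1 hj
    generalize (X.step^[t + (j + r)] v).2 = w at c2 c3 hj
    generalize (X.step^[j + r] v).2 = p at c1 c2
    have e1 : ∀ z : ℤ, |(z : ℝ)| = (z.natAbs : ℝ) := fun z => by
      rw [Nat.cast_natAbs, Int.cast_abs]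
    rw [e1, e1] at c2
    rw [e1] at c3
    have c4 : 0 < Nat.log Q w.natAbs := Nat.log_pos (by omega) (by exact_mod_cast c3)
    have c5 := Firstx.lv_le (Q := Q) (D := g * (3 * (R1 + 1))) (t := t) (a := p.natAbs)
      (b := w.natAbs) (e := X.d + 1) (by omega) (by positivity) (by omega) (by omega)
      (by exact_mod_cast c2)
    rw [← Nat.div_div_eq_div_mul] at c5
    have c6 := Nat.mul_div_le (t / g) (3 * (R1 + 1))
    generalize Nat.log Q w.natAbs = l at hj c4 c5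
    generalize Nat.log Q p.natAbs = k at c1 c5
    generalize t / g / (3 * (R1 + 1)) = u at c5 c6
    have c7 : (R1 + 1) * (3 * k) ≤ j := by
      have c8 := Nat.mul_le_mul_left (3 * (R1 + 1)) (show k ≤ 2 * l + u by omega)
      nlinarith
    refine c1.trans ?_
    have b1 : θ ^ j ≤ θ ^ ((R1 + 1) * (3 * k)) := pow_le_pow_of_le_one h0.le h1.le c7
    have b2 : θ ^ ((R1 + 1) * (3 * k)) * γ ^ (3 * k) ≤ 1 := by
      rw [pow_mul θ, ← mul_pow]; exact pow_le_one₀ (by positivity) hR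
    have b3 := (mul_le_mul_of_nonneg_right b1 (by positivity : 0 ≤ γ ^ (3 * k))).trans b2
    rw [two_mul, pow_add, mul_assoc]
    exact mul_le_of_le_one_right (by positivity) b3
  · have b1 := mul_pos (show (0 : ℝ) < N by linarith) (X.rr_pos (X.orb (Nat.find hex) v))
    linarith

end Ps

end Pool.Agent.Lib.MP_39d40e_nt
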