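import Pool.Agent.Lib.MP_39d40e_nt.Ps0

/-! Expected number of visits of the ratio to a window, and the upper bound for a count of
predecessors by the density at one level. -/

namespace Pool.Agent.Lib.MP_39d40e_nt

open Finset

namespace Ps

open Sys

namespace Innerx

variable {S E : Type} [Fintype S] [Fintype E] [DecidableEq S] [DecidableEq E] (X : Sys S E)

theorem tail {θ : ℝ} (h0 : 0 < θ) (h1 : θ < 1) (hT : X.Small fun n l => θ ^ (2 * n) < X.rr l)
    {ε : ℝ} (hε : 0 < ε) : ∃ C0 : ℝ, 0 ≤ C0 ∧ ∀ (J : ℕ) (s : S),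
      ∑ j ∈ range J, X.Pr j s (fun l => ε < X.rr l) ≤ C0 := by
  obtain ⟨C, c, hC, hc, h⟩ := hT
  obtain ⟨j0, hj0⟩ := exists_pow_lt_of_lt_one hε h1
  set ρ := Real.exp (-c) with hρ
  have ρ0 : 0 < ρ := Real.exp_pos _
  have ρ1 : ρ < 1 := Real.exp_lt_one_iff.2 (by linarith)
  have ρ2 : 0 < 1 - ρ := by linarith
  refine ⟨j0 + C * (1 - ρ)⁻¹, by positivity, fun J s => ?_⟩
  have a1 : ∀ j ∈ range J, X.Pr j s (fun l => ε < X.rr l) ≤
      (if j < j0 then 1 else 0) + C * ρ ^ j := by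
    intro j _
    split_ifs with hj
    · exact (X.Pr_le_one _ _ _).trans (le_add_of_nonneg_right (by positivity))
    · rw [zero_add, hρ, ← Real.exp_nat_mul, show (j : ℝ) * -c = -(c * j) by ring]
      refine le_trans (X.Pr_mono fun l _ hl => ?_) (h j s)
      exact ((pow_le_pow_of_le_one h0.le h1.le (by omega)).trans hj0.le).trans_lt hl
  refine (sum_le_sum a1).trans ?_
  rw [sum_add_distrib, ← mul_sum]
  refine add_le_add ?_ (mul_le_mul_of_nonneg_left ?_ hC)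
  · rw [sum_boole]
    have : #((range J).filter (· < j0)) ≤ #(range j0) :=
      card_le_card fun j hj => mem_range.2 (mem_filter.1 hj).2
    rw [card_range] at this
    exact_mod_cast this
  · rw [← tsum_geometric_of_lt_one ρ0.le ρ1]
    exact (summable_geometric_of_lt_one ρ0.le ρ1).sum_le_tsum _ fun _ _ => by positivity

theorem Pr_app (m n : ℕ) (s : S) (P : List E → Prop) :
    X.Pr (m + n) s P = X.Ex m s fun o => X.Pr n (X.endp s o) fun i => P (o ++ i) := by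
  unfold Pr; rw [Ex_append]

open Classical in
/-- indicator of the window -/
noncomputable def G (lo hi : ℝ) (M : ℤ) (D : ℕ) : ℝ :=
  if lo < |(M : ℝ)| / D ∧ |(M : ℝ)| / D ≤ hi then 1 else 0

theorem G_nonneg (lo hi : ℝ) (M : ℤ) (D : ℕ) : 0 ≤ G lo hi M D := by
  unfold G; split_ifs <;> norm_num

theorem G_le (lo hi : ℝ) (M : ℤ) (D : ℕ) : G lo hi M D ≤ 1 := by
  unfold G; split_ifs <;> norm_num

theorem W_full (lo hi : ℝ) (m : ℕ) (t : S) (y : ℤ) : X.W m 0 (G lo hi) t y =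
    X.Sm m t y (fun i => lo < X.rr i ∧ X.rr i ≤ hi) (fun _ _ => 1) := by
  rw [W_zero]
  refine X.Ex_congr fun l _ => ?_
  by_cases h : lo < X.rr l ∧ X.rr l ≤ hi
  · rw [if_pos h]
    congr 1; funext _
    exact if_pos h
  · rw [if_neg h, pull_const, show G lo hi (X.bP l) (X.DP l) = 0 from if_neg h, mul_zero]

theorem W_part (lo hi : ℝ) (a r : ℕ) (t : S) (y : ℤ) : X.W a r (G lo hi) t y =
    X.Ex a t fun o => X.pull o y (fun _ => 1) * X.Pr r (X.endp t o)
      fun i => lo < X.rr (o ++ i) ∧ X.rr (o ++ i) ≤ hi := by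
  refine X.Ex_congr fun o _ => ?_
  rw [pull_const]
  congr 1
  refine X.Ex_congr fun i _ => ?_
  rw [← bP_append, ← DP_append]
  by_cases h : lo < X.rr (o ++ i) ∧ X.rr (o ++ i) ≤ hi
  · rw [if_pos h]; exact if_pos h
  · rw [if_neg h]; exact if_neg h


/-- the expected number of visits to a window of bounded width is bounded -/
theorem visits {θ : ℝ} (h0 : 0 < θ) (h1 : θ < 1) (hT : X.Small fun n l => θ ^ (2 * n) < X.rr l)
    {D : ℝ} (hD : 0 < D) : ∃ C0 : ℝ, 0 ≤ C0 ∧ ∀ (u : ℝ) (J : ℕ) (s : S) (o : List E),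
      ∑ j ∈ range J, X.Pr j s (fun i => u / D < X.rr (o ++ i) ∧ X.rr (o ++ i) ≤ u) ≤ C0 := by
  obtain ⟨C0, hC, h⟩ := tail X h0 h1 hT (ε := 1 / D) (by positivity)
  refine ⟨C0, hC, fun u J => ?_⟩
  induction J with
  | zero => intro s o; simpa using hC
  | succ J ih =>
    intro s o
    by_cases hw : X.rr o ≤ u ∧ u / D < X.rr o
    · refine le_trans (sum_le_sum fun j _ => X.Pr_mono fun i _ hi => ?_) (h (J + 1) s)
      have r0 := X.rr_pos o
      have a1 := hi.1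
      rw [rr_append] at a1
      have a2 : X.rr o * (1 / D) ≤ u / D := by
        rw [mul_one_div]; gcongr; exact hw.1
      exact lt_of_mul_lt_mul_left (a2.trans_lt a1) r0.le
    · rw [sum_range_succ']
      have e0 : X.Pr 0 s (fun i => u / D < X.rr (o ++ i) ∧ X.rr (o ++ i) ≤ u) = 0 := by
        unfold Pr
        rw [Ex_zero, if_neg]
        simp only [List.append_nil]
        exact fun hh => hw ⟨hh.2, hh.1⟩
      rw [e0, add_zero, sum_congr rfl fun j _ => by rw [add_comm j 1, Pr_app], sum_Ex]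
      refine X.Ex_le_const fun e _ => ?_
      simp only [← List.append_assoc]
      exact ih _ _

/-- upper bound for the weighted number of predecessors at a given ratio -/
theorem upper (hM : X.Mix) {θ : ℝ} (h0 : 0 < θ) (h1 : θ < 1)
    (hT : X.Small fun n l => θ ^ (2 * n) < X.rr l) {D : ℝ} (hD : 0 < D) :
    ∃ C0 : ℝ, 0 ≤ C0 ∧ ∀ A : ℕ, ∃ C : ℝ, 0 ≤ C ∧ ∀ (u : ℝ) (a J : ℕ), 1 ≤ a → a ≤ J →
      ∃ Err : S → ℤ → ℝ, (∀ t y, 0 ≤ Err t y) ∧ (∀ t y, Err t (y + (X.B0 ^ J : ℕ)) = Err t y) ∧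
        (∀ t, ∑ y ∈ range (X.B0 ^ J), Err t y ≤
          C * ((J : ℝ) + 1) ^ 2 / (a : ℝ) ^ A * (X.B0 ^ J : ℕ)) ∧
        ∀ t y, ∑ j ∈ Icc a J, X.Sm j t y (fun i => u / D < X.rr i ∧ X.rr i ≤ u) (fun _ _ => 1) ≤
          C0 * X.rho a t y + Err t y := by
  obtain ⟨C0, hC0, hv⟩ := visits X h0 h1 hT hD
  refine ⟨C0, hC0, fun A => ?_⟩
  obtain ⟨C, hC, hm⟩ := X.mixW hM A
  refine ⟨C, hC, fun u a J ha haJ => ?_⟩
  obtain ⟨k, rfl⟩ := Nat.exists_eq_add_of_le haJ
  have a1 : (0 : ℝ) < a := by exact_mod_cast (by omega : 0 < a)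
  refine ⟨fun t y => ∑ r ∈ range (k + 1),
      |X.W (a + r) 0 (G (u / D) u) t y - X.W a r (G (u / D) u) t y|,
    fun t y => sum_nonneg fun _ _ => abs_nonneg _, fun t y => ?_, fun t => ?_, fun t y => ?_⟩
  · refine sum_congr rfl fun r hr => ?_
    have := mem_range.1 hr
    rw [per_of_dvd (X.W (a + r) 0 (G (u / D) u) t) _ _ (X.W_per _ _ _ t)
        (pow_dvd_pow _ (by omega)),
      per_of_dvd (X.W a r (G (u / D) u) t) _ _ (X.W_per _ _ _ t) (pow_dvd_pow _ (by omega))]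
  · rw [sum_comm]
    have one : ∀ r ∈ range (k + 1), ∑ y ∈ range (X.B0 ^ (a + k)),
        |X.W (a + r) 0 (G (u / D) u) t y - X.W a r (G (u / D) u) t y|
        ≤ (((a + k : ℕ) : ℝ) + 1) * C / (a : ℝ) ^ A * (X.B0 ^ (a + k) : ℕ) := by
      intro r hr
      have hr' := mem_range.1 hr
      obtain ⟨m, hk⟩ : ∃ m, a + k = m + (a + r) := ⟨k - r, by omega⟩
      have b1 := hm r a ha (G (u / D) u) (G_nonneg _ _) (G_le _ _) t
      have b2 : (r : ℝ) ≤ ((a + k : ℕ) : ℝ) + 1 := by exact_mod_cast (by omega : r ≤ a + k + 1)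
      generalize ((a + k : ℕ) : ℝ) + 1 = Z at b2 ⊢
      rw [hk, pow_add X.B0 m, sum_range_mul
        (fun y => |X.W (a + r) 0 (G (u / D) u) t y - X.W a r (G (u / D) u) t y|) _ (fun z => by
          rw [X.W_per, per_of_dvd (X.W a r (G (u / D) u) t) _ _ (X.W_per _ _ _ t)
            (pow_dvd_pow _ (Nat.le_add_right a r))])]
      calc _ ≤ (X.B0 ^ m : ℕ) * ((r : ℝ) * C / (a : ℝ) ^ A * (X.B0 ^ (a + r) : ℕ)) := by
            gcongr
        _ ≤ (X.B0 ^ m : ℕ) * (Z * C / (a : ℝ) ^ A * (X.B0 ^ (a + r) : ℕ)) := by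
            gcongr
        _ = _ := by push_cast; ring
    have b3 := sum_le_card_nsmul _ _ _ one
    rw [card_range, nsmul_eq_mul] at b3
    refine b3.trans ?_
    have b4 : ((k + 1 : ℕ) : ℝ) ≤ ((a + k : ℕ) : ℝ) + 1 := by
      exact_mod_cast (by omega : k + 1 ≤ a + k + 1)
    calc _ ≤ (((a + k : ℕ) : ℝ) + 1) *
          ((((a + k : ℕ) : ℝ) + 1) * C / (a : ℝ) ^ A * (X.B0 ^ (a + k) : ℕ)) := by gcongr
      _ = _ := by ring
  · have e1 : ∑ j ∈ Icc a (a + k), X.Sm j t y (fun i => u / D < X.rr i ∧ X.rr i ≤ u) (fun _ _ => 1)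
        = ∑ r ∈ range (k + 1), X.W (a + r) 0 (G (u / D) u) t y := by
      rw [← Finset.Ico_add_one_right_eq_Icc, sum_Ico_eq_sum_range,
        show a + k + 1 - a = k + 1 by omega]
      exact sum_congr rfl fun r _ => (W_full X _ _ _ t y).symm
    have e2 : ∑ r ∈ range (k + 1), X.W a r (G (u / D) u) t y ≤ X.rho a t y * C0 := by
      simp only [W_part]
      rw [sum_Ex, rho, ← Ex_mul_const]
      refine X.Ex_mono fun o _ => ?_
      rw [← mul_sum]
      exact mul_le_mul_of_nonneg_left (hv u _ _ o) (X.pull_nonneg _ _ fun _ => zero_le_one)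
    have e3 : ∑ r ∈ range (k + 1), X.W (a + r) 0 (G (u / D) u) t y ≤
        ∑ r ∈ range (k + 1), X.W a r (G (u / D) u) t y +
        ∑ r ∈ range (k + 1), |X.W (a + r) 0 (G (u / D) u) t y - X.W a r (G (u / D) u) t y| := by
      rw [← sum_add_distrib]
      exact sum_le_sum fun r _ => by
        linarith [le_abs_self (X.W (a + r) 0 (G (u / D) u) t y - X.W a r (G (u / D) u) t y)]
    rw [e1]
    linarith

theorem small {θ : ℝ} (h1 : θ < 1) (hT : X.Tl θ) :
    X.Small fun n l => θ ^ (2 * n) < X.rr l := by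
  obtain ⟨C, ρ, hC, r0, r1, h⟩ := hT
  refine ⟨C, -Real.log ρ, hC, neg_pos.2 (Real.log_neg r0 (r1.trans h1)), fun n s => ?_⟩
  rw [show -(-Real.log ρ * n) = n * Real.log ρ by ring, Real.exp_nat_mul, Real.exp_log r0]
  exact h n s

end Innerx

open Innerx in
theorem inner_st (_h : VisitSt) : InnerSt := by
  intro S E _ _ _ _ X hM θ h0 h1 hT lam hl
  have l0 : lam ≠ 0 := by positivity
  obtain ⟨C0, hC0, h⟩ := upper X hM h0 h1 (small X h1 hT) (D := lam) (by positivity)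
  refine ⟨C0, hC0, fun κ A => ?_⟩
  obtain ⟨C, hC, h⟩ := h (A + 2)
  refine ⟨C * ((κ : ℝ) + 1) ^ 2, by positivity, fun a ha β _ => ?_⟩
  have a1 : (1 : ℝ) ≤ a := by exact_mod_cast ha
  rcases Nat.eq_zero_or_pos κ with rfl | hκ
  · refine ⟨fun _ _ => 0, fun t => ⟨fun _ => le_rfl, fun _ => rfl, ?_⟩, fun t y => ?_⟩
    · rw [sum_const_zero]; positivity
    · rw [Icc_eq_empty (by omega), sum_empty, add_zero]
      exact mul_nonneg hC0 (X.rho_nonneg _ _ _)
  obtain ⟨Err, e1, e2, e3, e4⟩ := h (lam * β) a (κ * a) ha (Nat.le_mul_of_pos_left a hκ)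
  refine ⟨Err, fun t => ⟨e1 t, e2 t, (e3 t).trans ?_⟩, fun t y => ?_⟩
  · refine mul_le_mul_of_nonneg_right ?_ (by positivity)
    have b1 : ((κ * a : ℕ) : ℝ) + 1 ≤ ((κ : ℝ) + 1) * a := by push_cast; nlinarith
    calc _ ≤ C * (((κ : ℝ) + 1) * a) ^ 2 / (a : ℝ) ^ (A + 2) := by gcongr
      _ = _ := by rw [pow_add]; field_simp
  · simpa only [mul_div_cancel_left₀ β l0] using e4 t y

end Ps

end Pool.Agent.Lib.MP_39d40e_nt
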