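import Pool.Agent.Lib.MP_39d40e_nt.Ps0

/-! Descent below a level with a power saving: from systems to Leigh's chain. -/

namespace Pool.Agent.Lib.MP_39d40e_nt.Ps

open Finset Filter Topology

namespace Leighx

theorem leigh_small (L : LData) {K y : ℝ} (hK : 0 ≤ K) (hy : 2 ≤ y) (N : ℕ) :
    (Set.ncard {x : ℤ | |x| ≤ N ∧ L.SC x ∧ ∀ n : ℕ, (n : ℝ) ≤ K * Real.log N →
      y < |(((T L.d L.m L.r)^[n] x : ℤ) : ℝ)|} : ℝ) ≤ 3 * N := by
  have lN : 0 ≤ K * Real.log N := mul_nonneg hK (Real.log_natCast_nonneg N)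
  have : {x : ℤ | |x| ≤ N ∧ L.SC x ∧ ∀ n : ℕ, (n : ℝ) ≤ K * Real.log N →
      y < |(((T L.d L.m L.r)^[n] x : ℤ) : ℝ)|} ⊆ ↑((Icc (-(N : ℤ)) N).erase 0) := by
    rintro x ⟨h1, -, h2⟩
    simp only [coe_erase, coe_Icc, Set.mem_sdiff, Set.mem_Icc, Set.mem_singleton_iff]
    refine ⟨abs_le.1 h1, ?_⟩
    rintro rfl
    have := h2 0 (by simpa using lN)
    simp at this; linarith
  have h2 := Set.ncard_le_ncard this (finite_toSet _)
  rw [Set.ncard_coe_finset, card_erase_of_mem (by simp), Int.card_Icc] at h2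
  have h3 : _ ≤ 3 * N := h2.trans (by omega)
  exact_mod_cast h3

open Classical in
theorem leigh_big (L : LData) {c K y : ℝ} (hK0 : 0 ≤ K) (hy : 2 ≤ y)
    (hy0 : (2 * (L.Md : ℝ)) ^ 2 ≤ y) (N : ℕ)
    (hK : ∀ s : L.St, (((Icc (-(N : ℤ)) N).filter fun u => ∀ n : ℕ, (n : ℝ) ≤ K * Real.log N →
      Real.sqrt y < |(((L.sys.step^[n] (s, u)).2 : ℤ) : ℝ)|).card : ℝ)
        ≤ K * N / Real.sqrt y ^ c) :
    (Set.ncard {x : ℤ | |x| ≤ N ∧ L.SC x ∧ ∀ n : ℕ, (n : ℝ) ≤ K * Real.log N →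
      y < |(((T L.d L.m L.r)^[n] x : ℤ) : ℝ)|} : ℝ)
      ≤ L.C.card * K * N / y ^ (c / 2) := by
  have lN : 0 ≤ K * Real.log N := mul_nonneg hK0 (Real.log_natCast_nonneg N)
  have M0 : (1 : ℝ) ≤ L.Md := by exact_mod_cast L.Md_pos
  have s0 : 2 * (L.Md : ℝ) ≤ Real.sqrt y := Real.le_sqrt_of_sq_le hy0
  have s1 : Real.sqrt y * Real.sqrt y = y := Real.mul_self_sqrt (by linarith)
  have sub : {x : ℤ | |x| ≤ N ∧ L.SC x ∧ ∀ n : ℕ, (n : ℝ) ≤ K * Real.log N →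
      y < |(((T L.d L.m L.r)^[n] x : ℤ) : ℝ)|}
      ⊆ ↑((univ : Finset L.St).biUnion fun s => ((Icc (-(N : ℤ)) N).filter
        fun u => ∀ n : ℕ, (n : ℝ) ≤ K * Real.log N →
          Real.sqrt y < |(((L.sys.step^[n] (s, u)).2 : ℤ) : ℝ)|).image fun u => L.val (s, u)) := by
    rintro x ⟨h1, ⟨s, hs, h2⟩, h3⟩
    obtain ⟨u, hu⟩ := h2.symm.dvd
    have hv : L.val (⟨s, hs⟩, u) = x := by
      unfold LData.val; push_cast at hu ⊢; linarith
    simp only [coe_biUnion, coe_univ, Set.mem_univ, Set.iUnion_true, Set.mem_iUnion, coe_image,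
      Set.mem_image, mem_coe, mem_filter, mem_Icc]
    refine ⟨⟨s, hs⟩, u, ⟨?_, fun n hn => ?_⟩, hv⟩
    · have a1 : (2 : ℝ) < |(x : ℝ)| := lt_of_le_of_lt hy (h3 0 (by simpa using lN))
      have a2 : (2 : ℤ) < |x| := by exact_mod_cast a1
      have a3 : ((s.1 : ℕ) : ℤ) < ((L.d * s.2 : ℕ) : ℤ) := by exact_mod_cast L.hC s hs
      have a4 : (2 : ℤ) ≤ ((L.d * s.2 : ℕ) : ℤ) := by
        have := Nat.mul_le_mul L.hd (L.k_pos hs)
        exact_mod_cast this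
      have a5 := abs_le.1 h1
      have a6 : (0 : ℤ) ≤ (s.1 : ℕ) := Int.natCast_nonneg _
      generalize ((L.d * s.2 : ℕ) : ℤ) = M at *
      constructor
      · by_contra hn
        nlinarith
      · by_contra hn
        nlinarith
    · have a1 := h3 n hn
      rw [← hv, ← L.val_iter] at a1
      have a2 := L.abs_val (L.sys.step^[n] (⟨s, hs⟩, u))
      by_contra hn
      have a3 := mul_le_mul_of_nonneg_left (not_lt.1 hn) (by linarith : (0 : ℝ) ≤ L.Md)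
      nlinarith
  have h2 := Set.ncard_le_ncard sub (finite_toSet _)
  rw [Set.ncard_coe_finset] at h2
  have h3 := h2.trans (card_biUnion_le.trans (sum_le_sum fun s _ => card_image_le))
  rw [Real.sqrt_eq_rpow y, ← Real.rpow_mul (by linarith), show 1 / 2 * c = c / 2 by ring,
    ← Real.sqrt_eq_rpow] at hK
  calc _ ≤ ∑ s : L.St, (((Icc (-(N : ℤ)) N).filter
        fun u => ∀ n : ℕ, (n : ℝ) ≤ K * Real.log N →
          Real.sqrt y < |(((L.sys.step^[n] (s, u)).2 : ℤ) : ℝ)|).card : ℝ) := by exact_mod_cast h3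
    _ ≤ ∑ _s : L.St, K * N / y ^ (c / 2) := sum_le_sum fun s _ => hK s
    _ = _ := by
        rw [sum_const, card_univ, Fintype.card_coe, nsmul_eq_mul]; ring

end Leighx

theorem leigh_st (h : SysSt) : LeighSt := by
  intro L _ hΛ
  classical
  obtain ⟨K, c, y0, K0, c0, hK⟩ := h _ _ L.sys L.irred (L.drift hΛ)
  have M0 : (1 : ℝ) ≤ L.Md := by exact_mod_cast L.Md_pos
  set y1 : ℝ := max (max ((2 * (L.Md : ℝ)) ^ 2) (y0 ^ 2)) 2 with hy1
  have y2 : 2 ≤ y1 := le_max_right _ _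
  have W0 : 0 ≤ y1 ^ (c / 2) := by positivity
  have C0 : 0 ≤ L.C.card * K := by positivity
  refine ⟨c / 2, by positivity, K + L.C.card * K + 3 * y1 ^ (c / 2), fun y hy N => ?_⟩
  have ℓ0 : 0 < y ^ (c / 2) := by positivity
  have N0 : (0 : ℝ) ≤ N := Nat.cast_nonneg N
  have sub : {x : ℤ | |x| ≤ N ∧ (∃ s ∈ L.C, x ≡ s.1 [ZMOD (L.d * s.2 : ℕ)]) ∧
      ∀ n : ℕ, (n : ℝ) ≤ (K + L.C.card * K + 3 * y1 ^ (c / 2)) * Real.log N →
        y < |(((T L.d L.m L.r)^[n] x : ℤ) : ℝ)|}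
      ⊆ {x : ℤ | |x| ≤ N ∧ L.SC x ∧ ∀ n : ℕ, (n : ℝ) ≤ K * Real.log N →
        y < |(((T L.d L.m L.r)^[n] x : ℤ) : ℝ)|} := by
    rintro x ⟨h1, h2, h3⟩
    refine ⟨h1, h2, fun n hn => h3 n (hn.trans ?_)⟩
    exact mul_le_mul_of_nonneg_right (by linarith) (Real.log_natCast_nonneg N)
  have h2 := Set.ncard_le_ncard sub
    ((Set.finite_Icc (-(N : ℤ)) N).subset fun x hx => abs_le.1 hx.1)
  refine le_trans (Nat.cast_le.2 h2) ?_
  by_cases hy0 : y1 ≤ y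
  · have b1 : (2 * (L.Md : ℝ)) ^ 2 ≤ y := ((le_max_left _ _).trans (le_max_left _ _)).trans hy0
    have b2 : y0 ^ 2 ≤ y := ((le_max_right _ _).trans (le_max_left _ _)).trans hy0
    have s0 : 2 * (L.Md : ℝ) ≤ Real.sqrt y := Real.le_sqrt_of_sq_le b1
    refine (Leighx.leigh_big L (c := c) K0 hy b1 N fun s => ?_).trans ?_
    · convert hK _ (by linarith) (Real.le_sqrt_of_sq_le b2) s N
    · gcongr; linarith
  · have i2 : y ^ (c / 2) ≤ y1 ^ (c / 2) :=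
      Real.rpow_le_rpow (by linarith) (not_le.1 hy0).le (by positivity)
    rw [le_div_iff₀ ℓ0]
    calc _ ≤ 3 * N * y1 ^ (c / 2) := by
          gcongr
          exact Leighx.leigh_small L K0 hy N
      _ = 3 * y1 ^ (c / 2) * N := by ring
      _ ≤ _ := by gcongr; linarith

end Pool.Agent.Lib.MP_39d40e_nt.Ps
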