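import Pool.Agent.Lib.MP_39d40e_nt.Ps0

/-! Power saving: the maximal function. -/

namespace Pool.Agent.Lib.MP_39d40e_nt

open Finset

namespace Ps

namespace Maxx

variable {S E : Type} [Fintype S] [Fintype E] [DecidableEq S] [DecidableEq E] (X : Sys S E)

theorem take {s : S} {l : List E} (hl : l ∈ X.Paths l.length s) {z : ℤ} (hv : X.Val l z) {t : ℕ}
    (ht : t ≤ l.length) : l.take t ∈ X.Paths t s ∧ X.Val (l.take t) z := by
  obtain ⟨k, hk⟩ := Nat.exists_eq_add_of_le ht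
  rw [hk] at hl
  obtain ⟨o, i, rfl, ho, -⟩ := X.mem_Paths_add hl
  rw [List.take_left' (X.length_of_mem_Paths ho)]
  refine ⟨ho, (X.bP_cop_DP o i).dvd_of_dvd_mul_left ?_⟩
  unfold Sys.Val at hv
  rw [X.bP_append, X.DP_append, X.cP_append] at hv
  have h1 := ((Dvd.intro _ rfl).trans hv).add (Dvd.intro (X.cP i) rfl)
  convert h1 using 1
  push_cast
  ring

theorem low {t : ℕ} {s : S} {o : List E} (ho : o ∈ X.Paths t s) {z : ℤ} (hv : X.Val o z)
    (A : List E → Prop) (hA : A o) :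
    X.rr o ≤ (∑ u, (X.π u)⁻¹) * X.Sm t s z A (X.rho 0) := by
  classical
  have h1 : X.wt o * |(X.bP o : ℝ)| ≤ X.Sm t s z A (X.rho 0) := by
    unfold Sys.Sm Sys.Ex
    refine le_trans (le_of_eq ?_) (single_le_sum (fun l _ => mul_nonneg (X.wt_pos l).le ?_) ho)
    · rw [if_pos hA, X.pull_eq, if_pos hv, X.rho_zero, mul_one]
    · split_ifs
      · exact X.pull_nonneg _ _ (X.rho_nonneg _ _)
      · exact le_rfl
  have h2 : (X.π (X.endp s o))⁻¹ ≤ ∑ u, (X.π u)⁻¹ :=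
    single_le_sum (f := fun u => (X.π u)⁻¹) (fun u _ => (inv_pos.2 (X.π_pos u)).le) (mem_univ _)
  have h3 := X.π_pos s
  have h4 := X.π_le s
  have h5 := X.π_pos (X.endp s o)
  have h6 : (0 : ℝ) < X.DP o := by exact_mod_cast X.DP_pos o
  have h7 := X.rr_pos o
  refine le_trans ?_ (mul_le_mul h2 h1 (mul_nonneg (X.wt_pos o).le (abs_nonneg _))
    ((inv_pos.2 h5).le.trans h2))
  have e : (X.π (X.endp s o))⁻¹ * (X.wt o * |(X.bP o : ℝ)|) = X.rr o / X.π s := by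
    rw [X.wt_eq ho, Sys.rr]
    field_simp
  rw [e, le_div_iff₀ h3]
  exact mul_le_of_le_one_right h7.le h4

end Maxx

open Maxx in
theorem max_st : MaxSt := by
  intro S E _ _ _ _ X θ h0 h1 ⟨C, ρ, hC, r0, r1, hT⟩
  obtain ⟨P, hP⟩ : ∃ P, P = ∑ u, (X.π u)⁻¹ := ⟨_, rfl⟩
  have P0 : 0 ≤ P := hP ▸ sum_nonneg fun u _ => (inv_pos.2 (X.π_pos u)).le
  have q0 : 0 ≤ ρ / θ := by positivity
  have q1 : ρ / θ < 1 := (div_lt_one h0).2 r1
  have q2 : 0 ≤ (1 - ρ / θ)⁻¹ := inv_nonneg.2 (by linarith)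
  refine ⟨1 + P * C * (1 - ρ / θ)⁻¹, by positivity, fun n1 s => ?_⟩
  obtain ⟨F, hF⟩ : ∃ F : ℕ → ℤ → ℝ,
      F = fun t z => X.Sm t s z (fun l => θ ^ t < X.rr l) (X.rho 0) := ⟨_, rfl⟩
  have F0 : ∀ t z, 0 ≤ P / θ ^ t * F t z := fun t z =>
    mul_nonneg (by positivity) (hF ▸ X.Sm_nonneg (X.rho_nonneg 0))
  have Fp : ∀ t z, F t (z + (X.B0 ^ t : ℕ)) = F t z := fun t z => hF ▸ X.Sm_per t 0 s z _
  have Y1 : ∀ z, 1 ≤ 1 + ∑ t ∈ range n1, P / θ ^ t * F t z := fun z =>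
    le_add_of_nonneg_right (sum_nonneg fun t _ => F0 t z)
  refine ⟨fun z => 1 + ∑ t ∈ range n1, P / θ ^ t * F t z, Y1,
    ⟨fun z => zero_le_one.trans (Y1 z), fun z => ?_, ?_⟩, fun z l hl hv hty t ht => ?_⟩
  · refine congrArg _ (sum_congr rfl fun t ht => ?_)
    rw [per_of_dvd (F t) _ _ (Fp t) (pow_dvd_pow _ (mem_range.1 ht).le)]
  · have one : ∀ t ∈ range n1, ∑ z ∈ range (X.B0 ^ n1), P / θ ^ t * F t z ≤
        P * C * (X.B0 ^ n1 : ℕ) * (ρ / θ) ^ t := by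
      intro t ht
      obtain ⟨k, rfl⟩ := Nat.exists_eq_add_of_le' (mem_range.1 ht).le
      have a1 : ∑ z ∈ range (X.B0 ^ t), F t z =
          X.Pr t s (fun l => θ ^ t < X.rr l) * (X.B0 ^ t : ℕ) := hF ▸ X.Sm_avg t 0 s _
      have a2 : X.Pr t s (fun l => θ ^ t < X.rr l) ≤ C * ρ ^ t :=
        (X.Pr_mono fun l _ h =>
          (pow_le_pow_of_le_one h0.le h1.le (by omega)).trans_lt h).trans (hT t s)
      rw [← mul_sum, pow_add, sum_range_mul (F t) _ (Fp t), a1]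
      calc _ ≤ P / θ ^ t * ((X.B0 ^ k : ℕ) * (C * ρ ^ t * (X.B0 ^ t : ℕ))) := by gcongr
        _ = _ := by push_cast; rw [div_pow]; ring
    have g := sum_le_hasSum (range n1) (fun i _ => pow_nonneg q0 i)
      (hasSum_geometric_of_lt_one q0 q1)
    rw [sum_add_distrib, sum_comm, sum_const, card_range, nsmul_eq_mul, add_mul, mul_comm _ (1 : ℝ)]
    refine add_le_add le_rfl ((sum_le_sum one).trans ?_)
    rw [← mul_sum, mul_right_comm (P * C)]
    gcongr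
  · have p0 : 0 < θ ^ t := pow_pos h0 t
    by_cases h : X.rr (l.take t) ≤ θ ^ t
    · exact h.trans (le_mul_of_one_le_left p0.le (Y1 z))
    have tn : t < n1 := not_le.1 fun h' => h (hty t h' ht)
    obtain ⟨a1, a2⟩ := take X hl hv ht
    have a3 := low X a1 a2 (fun l => θ ^ t < X.rr l) (not_le.1 h)
    have a4 := single_le_sum (f := fun t => P / θ ^ t * F t z) (fun t _ => F0 t z) (mem_range.2 tn)
    have a5 : P / θ ^ t * F t z * θ ^ t = P * F t z := by field_simp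
    have a6 : X.rr (l.take t) ≤ P * F t z := by rw [hP, hF]; exact a3
    calc _ ≤ P / θ ^ t * F t z * θ ^ t := a5 ▸ a6
      _ ≤ _ := mul_le_mul_of_nonneg_right (by linarith) p0.le

end Ps

end Pool.Agent.Lib.MP_39d40e_nt
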