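import Pool.Agent.Lib.MP_39d40e_nt.Ps0
import Pool.Agent.Lib.MP_39d40e_nt.AbR

/-! The power saving contains the logarithmic savings (not imported by any hand-in). -/

namespace Pool.Agent.Lib.MP_39d40e_nt.Ps

open Finset

/-- the power saving contains every logarithmic saving -/
theorem old_of_new (h : LeighSt) : Ab.LeighSt := by
  intro L _ hΛ A
  obtain ⟨c, c0, K, hK⟩ := h L hΛ
  set C : ℝ := A.factorial / c ^ A with hC
  have C0 : 0 ≤ C := by positivity
  have k1 : K ≤ |K| * (1 + C) := by nlinarith [le_abs_self K, abs_nonneg K]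
  refine ⟨|K| * (1 + C), fun y hy N => le_trans ?_ ((hK y hy N).trans ?_)⟩
  · refine Nat.cast_le.2 (Set.ncard_le_ncard (fun x hx => ⟨hx.1, hx.2.1, fun n hn =>
      hx.2.2 n (hn.trans (mul_le_mul_of_nonneg_right k1 (Real.log_natCast_nonneg N)))⟩) ?_)
    exact (Set.finite_Icc (-(N : ℤ)) N).subset fun x hx => abs_le.1 hx.1
  · have l0 : 0 < Real.log y := Real.log_pos (by linarith)
    have a0 := Real.pow_div_factorial_le_exp (c * Real.log y) (by positivity) A
    rw [mul_comm c, ← Real.rpow_def_of_pos (by linarith), mul_pow,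
      div_le_iff₀ (by positivity)] at a0
    have a1 : Real.log y ^ A ≤ C * y ^ c := by
      rw [hC, div_mul_eq_mul_div, le_div_iff₀ (by positivity)]; linarith
    have a2 : 0 < y ^ c := by positivity
    have a3 : 0 < Real.log y ^ A := by positivity
    rw [div_le_div_iff₀ a2 a3]
    have a4 : K * N * Real.log y ^ A ≤ |K| * N * Real.log y ^ A := by
      gcongr; exact le_abs_self K
    have a5 : |K| * N * Real.log y ^ A ≤ |K| * N * (C * y ^ c) := by gcongr
    have a6 : 0 ≤ |K| * N * y ^ c := by positivity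
    linarith

/-- the statement of the earlier theorem, every real exponent -/
theorem old_real (h : LeighSt) (L : LData) [NeZero L.d]
    (hΛ : ∏ i : ZMod L.d,
      |(L.m i : ℝ) / L.d| ^ (∑ s ∈ L.C with (s.1 : ZMod L.d) = i, L.ρ s) < 1) (A : ℝ) :
    ∃ K : ℝ, ∀ y : ℝ, 2 ≤ y → ∀ N : ℕ,
      (Set.ncard {x : ℤ | |x| ≤ N ∧ (∃ s ∈ L.C, x ≡ s.1 [ZMOD (L.d * s.2 : ℕ)]) ∧
        ∀ n : ℕ, (n : ℝ) ≤ K * Real.log N → y < |(((T L.d L.m L.r)^[n] x : ℤ) : ℝ)|} : ℝ)
        ≤ K * N / Real.log y ^ A :=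
  Ab.real_exp (old_of_new h) L hΛ A

end Pool.Agent.Lib.MP_39d40e_nt.Ps
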