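import Pool.Agent.Lib.MP_39d40e_nt.Ps0

/-! Descent with a power saving: a stretch of good points is typical. -/

namespace Pool.Agent.Lib.MP_39d40e_nt

open Finset

namespace Ps

namespace Segx

variable {S E : Type} [Fintype S] [Fintype E] [DecidableEq S] [DecidableEq E] (X : Sys S E)

omit [DecidableEq E] in
theorem orb_add (m n : ℕ) (x : S × ℤ) :
    X.orb (m + n) x = X.orb m (X.step^[n] x) ++ X.orb n x := by
  induction m with
  | zero => simp [Sys.orb]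
  | succ m ih => rw [Nat.add_right_comm, Sys.orb, Sys.orb, ih, Function.iterate_add_apply]; rfl

omit [DecidableEq E] in
theorem one (x : S × ℤ) :
    |((x.2 : ℤ) : ℝ)| ≤ X.d * |(((X.step x).2 : ℤ) : ℝ)| + X.cmx := by
  have h1 : (X.D (X.lab x) : ℝ) * (((X.step x).2 : ℤ) : ℝ) =
      (X.b (X.lab x) : ℝ) * ((x.2 : ℤ) : ℝ) + (X.c (X.lab x) : ℝ) := by
    exact_mod_cast X.step_mul x
  have h2 : (X.D (X.lab x) : ℝ) ≤ X.d := by
    exact_mod_cast Nat.le_of_dvd X.d_pos (X.D_dvd _)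
  have h3 : (1 : ℝ) ≤ |(X.b (X.lab x) : ℝ)| := by
    exact_mod_cast Int.one_le_abs (X.b_ne (X.lab x))
  have h4 : |(X.c (X.lab x) : ℝ)| ≤ X.cmx :=
    single_le_sum (f := fun e => |(X.c e : ℝ)|) (fun _ _ => abs_nonneg _) (mem_univ _)
  have h5 : (X.b (X.lab x) : ℝ) * ((x.2 : ℤ) : ℝ) =
      (X.D (X.lab x) : ℝ) * (((X.step x).2 : ℤ) : ℝ) - (X.c (X.lab x) : ℝ) := by linarith
  calc |((x.2 : ℤ) : ℝ)| ≤ |(X.b (X.lab x) : ℝ)| * |((x.2 : ℤ) : ℝ)| :=
        le_mul_of_one_le_left (abs_nonneg _) h3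
    _ = |(X.D (X.lab x) : ℝ) * (((X.step x).2 : ℤ) : ℝ) - (X.c (X.lab x) : ℝ)| := by
        rw [← abs_mul, h5]
    _ ≤ |(X.D (X.lab x) : ℝ) * (((X.step x).2 : ℤ) : ℝ)| + |(X.c (X.lab x) : ℝ)| := abs_sub _ _
    _ ≤ _ := by
        rw [abs_mul, Nat.abs_cast]
        exact add_le_add (mul_le_mul_of_nonneg_right h2 (abs_nonneg _)) h4

omit [DecidableEq E] in
theorem many (t : ℕ) (p : S × ℤ) (h : ∀ i ≤ t, X.cmx ≤ |(((X.step^[i] p).2 : ℤ) : ℝ)|) :
    |((p.2 : ℤ) : ℝ)| ≤ ((X.d : ℝ) + 1) ^ t * |(((X.step^[t] p).2 : ℤ) : ℝ)| := by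
  induction t with
  | zero => simp
  | succ t ih =>
    have h1 := ih fun i hi => h i (by omega)
    have h2 := one X (X.step^[t] p)
    have h3 := h (t + 1) le_rfl
    rw [Function.iterate_succ_apply'] at h3 ⊢
    refine h1.trans ?_
    rw [pow_succ, mul_assoc]
    exact mul_le_mul_of_nonneg_left (by linarith) (by positivity)

theorem cast_abs (z : ℤ) : ((z.natAbs : ℕ) : ℝ) = |(z : ℝ)| := by
  rw [Nat.cast_natAbs, Int.cast_abs]

omit [Fintype S] [DecidableEq S] in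
theorem lv_pos {Q : ℕ} (hQ : 2 ≤ Q) {p : S × ℤ} (h : (Q : ℝ) ≤ |((p.2 : ℤ) : ℝ)|) :
    1 ≤ Sys.Lv Q p := by
  rw [← cast_abs] at h
  exact Nat.log_pos (by omega) (by exact_mod_cast h)

theorem short (d Q t a b : ℕ) (hQ : (d + 1) ^ 2 ≤ Q) (hQ2 : 2 ≤ Q) (ha : Q ≤ a)
    (h : a ≤ (d + 1) ^ t * b) (ht : t < Nat.log Q a) : t ≤ 3 * Nat.log Q b := by
  have h1 : Q ^ Nat.log Q a ≤ a := Nat.pow_log_le_self Q (by omega)
  have h2 : b < Q ^ (Nat.log Q b + 1) := Nat.lt_pow_succ_log_self (by omega) b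
  have h3 : Q ^ (t + 1) ≤ (d + 1) ^ t * Q ^ (Nat.log Q b + 1) :=
    ((Nat.pow_le_pow_right (by omega) ht).trans h1).trans
      (h.trans (Nat.mul_le_mul_left _ h2.le))
  have h4 : ((d + 1) ^ t) ^ 2 ≤ Q ^ t := by
    rw [← pow_mul, mul_comm, pow_mul]
    exact Nat.pow_le_pow_left hQ t
  have h5 : Q ^ ((t + 1) * 2) ≤ Q ^ (t + (Nat.log Q b + 1) * 2) := by
    rw [pow_mul, pow_add Q t ((Nat.log Q b + 1) * 2), pow_mul Q (Nat.log Q b + 1) 2]
    refine (Nat.pow_le_pow_left h3 2).trans ?_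
    rw [mul_pow]
    exact Nat.mul_le_mul_right _ h4
  have h6 := (Nat.pow_le_pow_iff_right (by omega : 1 < Q)).1 h5
  omega

end Segx

open Segx in
theorem seg_st : SegSt := by
  intro S E _ _ _ _ X θ h0 h1
  refine ⟨(X.d + 1) ^ 2 + ⌈X.cmx⌉₊ + 2, fun Q hQ t => ?_⟩
  have hQ2 : 2 ≤ Q := by omega
  have hc : X.cmx ≤ Q :=
    (Nat.le_ceil _).trans (by exact_mod_cast (by omega : ⌈X.cmx⌉₊ ≤ Q))
  have hB : (1 : ℝ) ≤ X.B0 := by exact_mod_cast X.B0_pos
  have hθ : θ ^ 2 ≤ 1 := pow_le_one₀ h0.le h1.le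
  have hr : (1 : ℝ) ≤ (X.B0 : ℝ) / θ ^ 2 := by
    rw [le_div_iff₀ (by positivity)]
    linarith
  induction t using Nat.strong_induction_on with
  | _ t ih =>
    intro p hs hg
    have hL : 1 ≤ Sys.Lv Q p := lv_pos hQ2 (hs 0 (Nat.zero_le _))
    by_cases ht : Sys.Lv Q p ≤ t
    · obtain ⟨m, hm⟩ : ∃ m, t = m + Sys.Lv Q p := ⟨t - Sys.Lv Q p, by omega⟩
      have h2 : X.rr (X.orb (Sys.Lv Q p) p) ≤ θ ^ (2 * Sys.Lv Q p) :=
        not_lt.1 (hg 0 (by omega))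
      have h3 := ih m (by omega) (X.step^[Sys.Lv Q p] p)
        (fun i hi => by
          rw [← Function.iterate_add_apply]
          exact hs _ (by omega))
        (fun i hi => by
          rw [← Function.iterate_add_apply]
          exact hg _ (by omega))
      rw [← Function.iterate_add_apply, ← hm] at h3
      have e : X.orb t p = X.orb m (X.step^[Sys.Lv Q p] p) ++ X.orb (Sys.Lv Q p) p := by
        rw [← orb_add, ← hm]
      have e2 : θ ^ (2 * t) = θ ^ (2 * m) * θ ^ (2 * Sys.Lv Q p) := by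
        rw [← pow_add, ← mul_add, ← hm]
      rw [e, X.rr_append, e2]
      calc _ ≤ θ ^ (2 * m) * ((X.B0 : ℝ) / θ ^ 2) ^ (3 * Sys.Lv Q (X.step^[t] p)) *
            θ ^ (2 * Sys.Lv Q p) := mul_le_mul h3 h2 (X.rr_pos _).le (by positivity)
        _ = _ := by ring
    · have h2 := many X t p fun i hi => hc.trans (hs i hi)
      rw [← cast_abs, ← cast_abs] at h2
      have h3 := hs 0 (Nat.zero_le _)
      rw [Function.iterate_zero_apply, ← cast_abs] at h3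
      have h4 : t ≤ 3 * Sys.Lv Q (X.step^[t] p) :=
        short X.d Q t _ _ (by omega) hQ2 (by exact_mod_cast h3) (by exact_mod_cast h2)
          (not_le.1 ht)
      have h5 := X.rr_le (X.orb t p)
      rw [X.length_of_mem_Paths (X.orb_mem t p)] at h5
      calc _ ≤ (X.B0 : ℝ) ^ t := h5
        _ = θ ^ (2 * t) * ((X.B0 : ℝ) / θ ^ 2) ^ t := by
            rw [pow_mul, ← mul_pow]
            congr 1
            field_simp
        _ ≤ _ := mul_le_mul_of_nonneg_left (pow_le_pow_right₀ hr h4) (by positivity)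

end Ps

end Pool.Agent.Lib.MP_39d40e_nt
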