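import Pool.Agent.Lib.MP_39d40e_nt.Ps0

/-! Descent below a level with a power saving: the stages of the exploration, upper bound. -/

namespace Pool.Agent.Lib.MP_39d40e_nt.Ps

open Finset

namespace Stagex

variable {S E : Type} [Fintype S] [Fintype E] [DecidableEq S] [DecidableEq E] (X : Sys S E)

/-- the counted event -/
def Ev (Y θ x : ℝ) (n1 : ℕ) (l : List E) : Prop := X.Pre Y θ l ∧ X.Ty θ n1 l ∧ X.FP x l

/-- not yet passed -/
def Al (Y θ x : ℝ) (n1 : ℕ) (l : List E) : Prop :=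
  X.Pre Y θ l ∧ X.Ty θ n1 l ∧ ∀ t ≤ l.length, 1 / x < X.rr (l.take t)

theorem pre_left {Y θ : ℝ} {o i : List E} (h : X.Pre Y θ (o ++ i)) : X.Pre Y θ o := fun t ht => by
  have := h t (by rw [List.length_append]; omega)
  rwa [List.take_append_of_le_length ht] at this

theorem ty_left {θ : ℝ} {n1 : ℕ} {o i : List E} (h : X.Ty θ n1 (o ++ i)) : X.Ty θ n1 o :=
  fun t h1 ht => by
    have := h t h1 (by rw [List.length_append]; omega)
    rwa [List.take_append_of_le_length ht] at this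

theorem al_left {Y θ x : ℝ} {n1 : ℕ} {o i : List E} (h : Al X Y θ x n1 (o ++ i)) :
    Al X Y θ x n1 o :=
  ⟨pre_left X h.1, ty_left X h.2.1, fun t ht => by
    have := h.2.2 t (by rw [List.length_append]; omega)
    rwa [List.take_append_of_le_length ht] at this⟩

theorem ev_left {Y θ x : ℝ} {n1 : ℕ} {o i : List E} (hi : 0 < i.length)
    (h : Ev X Y θ x n1 (o ++ i)) : Al X Y θ x n1 o :=
  ⟨pre_left X h.1, ty_left X h.2.1, fun t ht => by
    have := h.2.2.1 t (by rw [List.length_append]; omega)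
    rwa [List.take_append_of_le_length ht] at this⟩

theorem ev_two {Y θ x : ℝ} {n1 : ℕ} {o i : List E} {j j' : ℕ} (hj : j < j') (hj' : j' ≤ i.length)
    (h : Ev X Y θ x n1 (o ++ i.take j)) : ¬ Ev X Y θ x n1 (o ++ i.take j') := fun h' => by
  have a := h'.2.2.1 (o.length + j) (by rw [List.length_append, List.length_take]; omega)
  rw [List.take_length_add_append, List.take_take, min_eq_left hj.le] at a
  have b := h.2.2.2
  linarith

open Classical in
theorem disj {Y θ x : ℝ} {n1 : ℕ} (o i : List E) {p : ℝ} (hp : 0 ≤ p) :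
    ∑ j ∈ Ioc 0 i.length, (if Ev X Y θ x n1 (o ++ i.take j) then p else 0)
      + (if Al X Y θ x n1 (o ++ i) then p else 0) ≤ p := by
  by_cases hex : ∃ j ∈ Ioc 0 i.length, Ev X Y θ x n1 (o ++ i.take j)
  · obtain ⟨j, hj, he⟩ := hex
    have hj2 := (mem_Ioc.1 hj).2
    rw [sum_eq_single_of_mem j hj, if_pos he, if_neg, add_zero]
    · intro ha
      have a := ha.2.2 (o.length + j) (by rw [List.length_append]; omega)
      rw [List.take_length_add_append] at a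
      have b := he.2.2.2
      linarith
    · intro j' hj' hne
      refine if_neg fun he' => ?_
      rcases lt_or_gt_of_ne hne with h | h
      · exact ev_two X h hj2 he' he
      · exact ev_two X h (mem_Ioc.1 hj').2 he he'
  · rw [sum_eq_zero fun j hj => if_neg fun he => hex ⟨j, hj, he⟩, zero_add]
    split_ifs
    · exact le_rfl
    · exact hp

theorem point {Y θ x : ℝ} {n1 k n h : ℕ} {o : List E} (hn : o.length = n) {Φ : S → ℤ → ℝ}
    (hΦ : (∀ H, h ≤ H → H ≤ k + h → ∀ t y, Φ t y ≤ X.rho H t y) ∨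
      ∀ l : List E, l.length ≤ n + k → ¬ Ev X Y θ x n1 l) (t : S) (y : ℤ) :
    ∑ j ∈ Ioc 0 k, X.Sm j t y (fun i => Ev X Y θ x n1 (o ++ i)) Φ
      + X.Sm k t y (fun i => Al X Y θ x n1 (o ++ i)) (X.rho h)
      ≤ X.rho k t y + X.Var k (k + h) t y := by
  classical
  have a1 := (abs_le.1 (X.abs_rho_sub (Nat.le_add_right k h) le_rfl t y)).2
  have a2 : ∑ j ∈ Ioc 0 k, X.Sm k t y (fun i => Ev X Y θ x n1 (o ++ i.take j)) (X.rho h)
      + X.Sm k t y (fun i => Al X Y θ x n1 (o ++ i)) (X.rho h) ≤ X.rho (k + h) t y := by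
    rw [Sys.rho_add]
    unfold Sys.Sm
    rw [Sys.sum_Ex, ← Sys.Ex_add]
    refine X.Ex_mono fun i hi => ?_
    have := disj X (Y := Y) (θ := θ) (x := x) (n1 := n1) o i
      (X.pull_nonneg i y (X.rho_nonneg h (X.endp t i)))
    rwa [X.length_of_mem_Paths hi] at this
  have a3 : ∑ j ∈ Ioc 0 k, X.Sm j t y (fun i => Ev X Y θ x n1 (o ++ i)) Φ ≤
      ∑ j ∈ Ioc 0 k, X.Sm k t y (fun i => Ev X Y θ x n1 (o ++ i.take j)) (X.rho h) := by
    refine sum_le_sum fun j hj => ?_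
    rw [X.Sm_take (mem_Ioc.1 hj).2 h t y fun i => Ev X Y θ x n1 (o ++ i)]
    have hj2 := (mem_Ioc.1 hj).2
    rcases hΦ with hΦ | hΦ
    · exact X.Sm_mono (hΦ _ (by omega) (by omega))
    · refine le_trans (X.Ex_le_const (a := 0) fun l hl => ?_) (X.Sm_nonneg (X.rho_nonneg _))
      rw [if_neg]
      refine hΦ _ ?_
      rw [List.length_append, X.length_of_mem_Paths hl]
      omega
  linarith

theorem stage {Y θ x : ℝ} (h0 : 0 < θ) (h1 : θ < 1) (hY : 1 ≤ Y) {R n1 k n h : ℕ}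
    (hR : θ ^ R * (X.B0 : ℝ) ^ 3 ≤ 1) (hn1 : n1 ≤ n) (hk : (R + 1) * k ≤ n) (hh : h ≤ 2 * k)
    {Φ : S → ℤ → ℝ}
    (hΦ : (∀ H, h ≤ H → H ≤ k + h → ∀ t y, Φ t y ≤ X.rho H t y) ∨
      ∀ l : List E, l.length ≤ n + k → ¬ Ev X Y θ x n1 l) {μ : ℝ}
    (m1 : ∀ t, ∑ z ∈ range (X.B0 ^ (k + h)), X.Var k (k + h) t z ≤ μ * (X.B0 ^ (k + h) : ℕ))
    (s : S) (z : ℤ) :
    ∑ m ∈ Ioc n (n + k), X.Sm m s z (Ev X Y θ x n1) Φ
      + X.Sm (n + k) s z (Al X Y θ x n1) (X.rho h) ≤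
      X.Sm n s z (Al X Y θ x n1) (X.rho k)
      + X.ng n * ((2 * (X.cmx * Y * (1 - θ)⁻¹) + 1) * μ / X.π s) := by
  classical
  have hB : (1 : ℝ) ≤ X.B0 := by exact_mod_cast X.B0_pos
  have key := X.key_sup n s z (X.Var k (k + h)) (X.B0 ^ (k + h)) (pow_pos X.B0_pos _)
    (fun t y => X.Var_per _ _ _ _) (fun t y => X.Var_nonneg _ _ _ _) μ m1
    (X.cmx * Y * (1 - θ)⁻¹) (by
      have := X.cmx_nonneg
      have := sub_pos.2 h1
      positivity) (Al X Y θ x n1) (fun l hl hA => by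
      refine ⟨hA.1.cP_le h0.le h1 (by linarith), ?_⟩
      have a0 := X.length_of_mem_Paths hl
      have a1 := hA.2.1 l.length (by omega) le_rfl
      rw [List.take_length, a0] at a1
      have a2 : (X.B0 : ℝ) ^ (k + h) ≤ (X.B0 : ℝ) ^ (3 * k) :=
        pow_le_pow_right₀ hB (by omega)
      have a3 : θ ^ n ≤ θ ^ (R * k) :=
        pow_le_pow_of_le_one h0.le h1.le (by rw [add_mul] at hk; omega)
      have a4 : θ ^ (R * k) * (X.B0 : ℝ) ^ (3 * k) ≤ 1 := by
        rw [pow_mul θ R, pow_mul _ 3 k, ← mul_pow]; exact pow_le_one₀ (by positivity) hR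
      push_cast
      calc _ ≤ (X.B0 : ℝ) ^ (3 * k) * θ ^ (R * k) :=
            mul_le_mul a2 (a1.trans a3) (X.rr_pos _).le (by positivity)
        _ ≤ 1 := by linarith)
  refine le_trans ?_ (add_le_add le_rfl key)
  have e1 : ∑ m ∈ Ioc n (n + k), X.Sm m s z (Ev X Y θ x n1) Φ
      = ∑ j ∈ Ioc 0 k, X.Sm (n + j) s z (Ev X Y θ x n1) Φ := by
    rw [← map_add_left_Ioc 0 k n |>.trans (by simp : Ioc (n + 0) (n + k) = Ioc n (n + k)), sum_map]
    rfl
  rw [e1]
  simp only [Sys.Sm_add]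
  rw [Sys.sum_Ex, ← Sys.Ex_add]
  conv_rhs => rw [Sys.Sm, ← Sys.Ex_add]
  refine X.Ex_mono fun o ho => ?_
  rw [← Sys.pull_fsum, ← Sys.pull_add]
  split_ifs with ha
  · rw [← Sys.pull_add]
    exact X.pull_mono _ _ fun y => point X (X.length_of_mem_Paths ho) hΦ _ y
  · rw [add_zero]
    refine le_trans (X.pull_mono _ _ (g' := fun _ => 0) fun y => ?_) (le_of_eq ?_)
    · refine add_nonpos (sum_nonpos fun j hj => X.Ex_le_const fun l hl => ?_)
        (X.Ex_le_const fun l _ => ?_)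
      · rw [if_neg fun he => ha (ev_left X
          (by rw [X.length_of_mem_Paths hl]; exact (mem_Ioc.1 hj).1) he)]
      · rw [if_neg fun he => ha (al_left X he)]
    · unfold Sys.pull; simp

theorem stage' (hM : X.Mix) {θ : ℝ} (h0 : 0 < θ) (h1 : θ < 1) {R : ℕ}
    (hR : θ ^ R * (X.B0 : ℝ) ^ 3 ≤ 1) (s : S) :
    ∃ Ce : ℝ, 0 ≤ Ce ∧ ∀ Y x : ℝ, 1 ≤ Y → ∀ n1 n : ℕ, R + 1 ≤ n → n1 ≤ n → ∀ Φ : S → ℤ → ℝ,
      ((∀ H, (n + n / (R + 1)) / (R + 1) ≤ H → H ≤ 3 * (n / (R + 1)) →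
        ∀ t y, Φ t y ≤ X.rho H t y) ∨
        ∀ l : List E, l.length ≤ n + n / (R + 1) → ¬ Ev X Y θ x n1 l) → ∀ z : ℤ,
      ∑ m ∈ Ioc n (n + n / (R + 1)), X.Sm m s z (Ev X Y θ x n1) Φ
        + X.Sm (n + n / (R + 1)) s z (Al X Y θ x n1) (X.rho ((n + n / (R + 1)) / (R + 1))) ≤
        X.Sm n s z (Al X Y θ x n1) (X.rho (n / (R + 1))) + Ce * Y / (n : ℝ) ^ 2 := by
  obtain ⟨a, Cg, hCg, hg⟩ := X.ng_le
  obtain ⟨C1, hC1, hv⟩ := X.Var_avg hM (a + 2)
  set W := X.cmx * (1 - θ)⁻¹ with hW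
  have W0 : 0 ≤ W := by
    have := X.cmx_nonneg
    have := sub_pos.2 h1
    positivity
  have hπ := X.π_pos s
  refine ⟨Cg * (2 * ((R : ℝ) + 1)) ^ (a + 2) * ((2 * W + 1) * C1 / X.π s),
    by positivity, fun Y x hY n1 n hn hn1 Φ hΦ z => ?_⟩
  set k := n / (R + 1) with hk
  have k1 : 1 ≤ k := (Nat.one_le_div_iff (by omega)).2 hn
  have k2 : (R + 1) * k ≤ n := Nat.mul_div_le n (R + 1)
  have k3 : n < (R + 1) * (k + 1) := Nat.lt_mul_div_succ n (by omega)
  have k4 : (n + k) / (R + 1) ≤ 2 * k := by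
    refine Nat.lt_succ_iff.1 ((Nat.div_lt_iff_lt_mul (by omega)).2 ?_)
    nlinarith
  have k5 : (0 : ℝ) < k := by exact_mod_cast k1
  have n0 : (0 : ℝ) < n := by exact_mod_cast (by omega : 0 < n)
  refine (stage X h0 h1 hY hR hn1 k2 k4
    (hΦ.imp_left fun hΦ H hH hH' => hΦ H hH (by omega)) (μ := C1 / (k : ℝ) ^ (a + 2))
    (fun t => hv k _ k1 t) s z).trans (add_le_add le_rfl ?_)
  have b1 : ((n : ℝ) + 1) ≤ 2 * ((R : ℝ) + 1) * k := by
    have : n + 1 ≤ 2 * (R + 1) * k := by nlinarith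
    exact_mod_cast this
  have b2 : ((n : ℝ) + 1) ^ a * (n : ℝ) ^ 2 ≤
      (2 * ((R : ℝ) + 1)) ^ (a + 2) * (k : ℝ) ^ (a + 2) := by
    rw [← mul_pow]
    calc _ ≤ ((n : ℝ) + 1) ^ a * ((n : ℝ) + 1) ^ 2 := by gcongr; linarith
      _ = ((n : ℝ) + 1) ^ (a + 2) := by ring
      _ ≤ _ := by gcongr
  have b3 : 2 * (X.cmx * Y * (1 - θ)⁻¹) + 1 ≤ (2 * W + 1) * Y := by
    rw [hW]; nlinarith
  have Y0 : 0 ≤ Y := by linarith
  rw [le_div_iff₀ (by positivity)]
  calc _ ≤ Cg * ((n : ℝ) + 1) ^ a * ((2 * W + 1) * Y * (C1 / (k : ℝ) ^ (a + 2)) / X.π s)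
        * (n : ℝ) ^ 2 := by
        have b4 : 0 ≤ 2 * (X.cmx * Y * (1 - θ)⁻¹) + 1 := by
          have := X.cmx_nonneg
          have := sub_pos.2 h1
          positivity
        gcongr
        exact hg n
    _ = Cg * (((n : ℝ) + 1) ^ a * (n : ℝ) ^ 2) *
        ((2 * W + 1) * C1 / X.π s) * Y / (k : ℝ) ^ (a + 2) := by ring
    _ ≤ Cg * ((2 * ((R : ℝ) + 1)) ^ (a + 2) * (k : ℝ) ^ (a + 2)) *
        ((2 * W + 1) * C1 / X.π s) * Y / (k : ℝ) ^ (a + 2) := by gcongr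
    _ = _ := by field_simp

end Stagex

open Stagex in
theorem stage_st : StageSt := by
  intro S E _ _ _ _ X hM θ R h0 h1 hR s
  obtain ⟨Ce, hCe, hs⟩ := stage' X hM h0 h1 hR s
  refine ⟨2 * Ce, by positivity, fun Y x hY hx N hN a ha Φ hΦ0 hΦ z n1 hn1 N' => ?_⟩
  have hB : (1 : ℝ) ≤ X.B0 := by exact_mod_cast X.B0_pos
  have hC : 0 ≤ Ce * Y := mul_nonneg hCe (by linarith)
  have dead : ∀ n : ℕ, n1 ≤ n → θ ^ n ≤ 1 / x → ∀ M : ℕ,
      ∑ m ∈ Ioc n M, X.Sm m s z (Ev X Y θ x n1) Φ ≤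
        X.Sm n s z (Al X Y θ x n1) (X.rho (n / (R + 1))) + 2 * (Ce * Y) / n := by
    intro n hn hθ M
    refine le_trans (sum_nonpos fun m hm => X.Ex_le_const fun l hl => ?_)
      (add_nonneg (X.Sm_nonneg (X.rho_nonneg _)) (by positivity))
    rw [if_neg]
    rintro ⟨-, a1, a2, -⟩
    have a0 := X.length_of_mem_Paths hl
    have a3 := (mem_Ioc.1 hm).1
    have a4 := a1 n hn (by omega)
    have a5 := a2 n (by omega)
    linarith
  have main : ∀ f n : ℕ, N ≤ n + f → n1 ≤ n → ∀ M : ℕ,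
      ∑ m ∈ Ioc n M, X.Sm m s z (Ev X Y θ x n1) Φ ≤
        X.Sm n s z (Al X Y θ x n1) (X.rho (n / (R + 1))) + 2 * (Ce * Y) / n := by
    intro f
    induction f with
    | zero =>
      intro n hn hn'
      exact dead n hn' ((pow_le_pow_of_le_one h0.le h1.le (by omega)).trans hN)
    | succ f ih =>
      intro n hn hn' M
      by_cases hd : θ ^ n ≤ 1 / x
      · exact dead n hn' hd M
      have nN : n < N := by
        by_contra hc
        exact hd ((pow_le_pow_of_le_one h0.le h1.le (by omega)).trans hN)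
      have hRn : R + 1 ≤ n := hn1.trans hn'
      set k := n / (R + 1) with hk
      have k1 : 1 ≤ k := (Nat.one_le_div_iff (by omega)).2 hRn
      have k2 : (R + 1) * k ≤ n := Nat.mul_div_le n (R + 1)
      have k3 : k ≤ n := Nat.div_le_self _ _
      have a1 := hs Y x hY n1 n hRn hn' Φ (by
        by_cases hha : a ≤ (n + k) / (R + 1)
        · refine Or.inl fun H hH0 hH => hΦ H (hha.trans hH0) (by omega) ?_
          have a2 : (X.B0 : ℝ) ^ H ≤ (X.B0 : ℝ) ^ (3 * k) := pow_le_pow_right₀ hB (by omega)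
          have a3 : θ ^ n ≤ θ ^ (R * k) :=
            pow_le_pow_of_le_one h0.le h1.le (by rw [add_mul] at k2; omega)
          have a4 : θ ^ (R * k) * (X.B0 : ℝ) ^ (3 * k) ≤ 1 := by
            rw [pow_mul θ R, pow_mul _ 3 k, ← mul_pow]; exact pow_le_one₀ (by positivity) hR
          have a5 := mul_le_mul ((not_le.1 hd).le.trans a3) a2 (by positivity) (by positivity)
          have a6 := a5.trans a4
          rwa [one_div, inv_mul_le_iff₀ hx, mul_one] at a6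
        · refine Or.inr fun l hl hb => ?_
          have c1 : n + k < a * (R + 1) := (Nat.div_lt_iff_lt_mul (by omega)).1 (not_le.1 hha)
          have c2 := (X.rr_ge l).trans hb.2.2.2
          have hd1 : (1 : ℝ) ≤ X.d := by exact_mod_cast X.d_pos
          have c3 : (X.d : ℝ) ^ l.length ≤ (X.d : ℝ) ^ ((R + 1) * a) :=
            pow_le_pow_right₀ hd1 (by rw [mul_comm]; omega)
          have c4 := one_div_lt_one_div_of_lt (by positivity) (c3.trans_lt ha)
          linarith) z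
      have a2 := ih (n + k) (by omega) (by omega) (max M (n + k))
      rw [← hk] at a1
      have a0 : ∑ m ∈ Ioc n M, X.Sm m s z (Ev X Y θ x n1) Φ ≤
          ∑ m ∈ Ioc n (max M (n + k)), X.Sm m s z (Ev X Y θ x n1) Φ :=
        sum_le_sum_of_subset_of_nonneg (Ioc_subset_Ioc_right (le_max_left _ _))
          fun _ _ _ => X.Sm_nonneg hΦ0
      rw [← sum_Ioc_consecutive _ (Nat.le_add_right n k) (le_max_right M (n + k))] at a0
      have n0 : (1 : ℝ) ≤ n := by exact_mod_cast (by omega : 1 ≤ n)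
      have k5 : (1 : ℝ) ≤ k := by exact_mod_cast k1
      have a3 : Ce * Y / (n : ℝ) ^ 2 + 2 * (Ce * Y) / ((n + k : ℕ) : ℝ) ≤ 2 * (Ce * Y) / n := by
        generalize Ce * Y = c at hC
        have b1 : 2 * c / ((n + k : ℕ) : ℝ) ≤ 2 * c / (n + 1) := by
          push_cast; gcongr
        have b2 : c / (n : ℝ) ^ 2 ≤ 2 * c / (n * (n + 1)) := by
          rw [div_le_div_iff₀ (by positivity) (by positivity)]
          nlinarith [mul_nonneg hC (mul_nonneg (by linarith : (0 : ℝ) ≤ n)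
            (by linarith : (0 : ℝ) ≤ n - 1))]
        have b3 : 2 * c / (n * (n + 1)) + 2 * c / (n + 1) = 2 * c / n := by
          field_simp; ring
        linarith
      linarith
  have f1 := main N n1 (by omega) le_rfl N'
  have f2 : X.Sm n1 s z (Al X Y θ x n1) (X.rho (n1 / (R + 1))) ≤
      X.rho (n1 + n1 / (R + 1)) s z := by
    rw [Sys.rho_add]
    refine X.Ex_mono fun l _ => ?_
    split_ifs
    · exact le_rfl
    · exact X.pull_nonneg _ _ (X.rho_nonneg _ _)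
  have n0 : (1 : ℝ) ≤ n1 := by exact_mod_cast (by omega : 1 ≤ n1)
  have f3 : 2 * (Ce * Y) / n1 ≤ 2 * Ce * Y := by
    rw [mul_assoc]; exact div_le_self (by positivity) n0
  exact f1.trans (add_le_add f2 f3)

end Pool.Agent.Lib.MP_39d40e_nt.Ps
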