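import Pool.Agent.Lib.MP_39d40e_nt.Ps0

/-! Power saving: summation over the scale of the first bad point. -/

namespace Pool.Agent.Lib.MP_39d40e_nt

open Finset Filter

namespace Ps

namespace Sumx

theorem geo {ρ Q : ℝ} (h0 : 0 < ρ) (h1 : ρ < 1) (hQ : 1 < Q) : ∃ c C : ℝ, 0 < c ∧ 0 ≤ C ∧
    ∀ y : ℝ, 0 < y → ∀ J : Finset ℕ, (∀ l ∈ J, y ≤ Q ^ (l + 1)) → ∑ l ∈ J, ρ ^ l ≤ C / y ^ c := by
  set σ := √ρ with hσ
  have s0 : 0 < σ := Real.sqrt_pos.2 h0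
  have s1 : σ < 1 := by rw [hσ, Real.sqrt_lt' one_pos, one_pow]; exact h1
  have s2 : σ * σ = ρ := Real.mul_self_sqrt h0.le
  have lQ : 0 < Real.log Q := Real.log_pos hQ
  have ls : Real.log σ < 0 := Real.log_neg s0 s1
  have Q0 : 0 < Q := by linarith
  have u0 : 0 < 1 - σ := by linarith
  refine ⟨-Real.log σ / Real.log Q, σ⁻¹ * (1 - σ)⁻¹, div_pos (by linarith) lQ, by positivity,
    fun y hy J hJ => ?_⟩
  set c := -Real.log σ / Real.log Q with hc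
  have c0 : 0 < c := div_pos (by linarith) lQ
  have e1 : Q ^ c = σ⁻¹ := by
    rw [Real.rpow_def_of_pos Q0, hc, mul_div_cancel₀ _ lQ.ne', Real.exp_neg, Real.exp_log s0]
  have yc : 0 < y ^ c := Real.rpow_pos_of_pos hy c
  have key : ∀ l ∈ J, ρ ^ l ≤ σ⁻¹ / y ^ c * σ ^ l := by
    intro l hl
    have a1 : y ^ c ≤ (Q ^ (l + 1)) ^ c := Real.rpow_le_rpow hy.le (hJ l hl) c0.le
    have a2 : (Q ^ (l + 1)) ^ c = (σ⁻¹) ^ (l + 1) := by
      rw [← e1, ← Real.rpow_natCast, ← Real.rpow_mul Q0.le, mul_comm, Real.rpow_mul Q0.le,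
        Real.rpow_natCast]
    have p0 : 0 < σ ^ l := pow_pos s0 l
    have a3 : σ ^ l ≤ σ⁻¹ / y ^ c := by
      rw [le_div_iff₀ yc]
      calc σ ^ l * y ^ c ≤ σ ^ l * (σ⁻¹) ^ (l + 1) := by rw [← a2]; gcongr
        _ = σ⁻¹ := by rw [pow_succ, inv_pow, ← mul_assoc, mul_inv_cancel₀ p0.ne', one_mul]
    rw [← s2, mul_pow]
    gcongr
  have hs := sum_le_hasSum J (fun i _ => pow_nonneg s0.le i) (hasSum_geometric_of_lt_one s0.le s1)
  calc ∑ l ∈ J, ρ ^ l ≤ ∑ l ∈ J, σ⁻¹ / y ^ c * σ ^ l := sum_le_sum key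
    _ = σ⁻¹ / y ^ c * ∑ l ∈ J, σ ^ l := by rw [mul_sum]
    _ ≤ σ⁻¹ / y ^ c * (1 - σ)⁻¹ := by gcongr
    _ = _ := by ring

variable {S E : Type} [Fintype S] [Fintype E] [DecidableEq S] [DecidableEq E] (X : Sys S E)

theorem tl_ex (hP : X.Poisson fun e => Real.log (|(X.b e : ℝ)| / X.D e)) (hN : X.Neg) :
    ∃ θ : ℝ, 0 < θ ∧ θ < 1 ∧ X.Tl θ := by
  obtain ⟨θ0, h0, h1, C, c, hC, hc, h⟩ := X.small_tail hP hN
  refine ⟨max θ0 (Real.exp (-c / 2)), lt_max_of_lt_left h0,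
    max_lt h1 (Real.exp_lt_one_iff.2 (by linarith)), C, Real.exp (-c), hC, Real.exp_pos _,
    lt_max_of_lt_right (Real.exp_lt_exp.2 (by linarith)), fun n s => ?_⟩
  refine le_trans (X.Pr_mono fun l _ hl => ?_) ((h n s).trans (le_of_eq ?_))
  · exact lt_of_le_of_lt (pow_le_pow_left₀ h0.le (le_max_left _ _) _) hl
  · rw [← Real.exp_nat_mul]
    congr 2; ring

open Classical in
/-- one scale -/
theorem level {θ x C2 η μ : ℝ} {n1 g k H M : ℕ} (hx : 0 ≤ x) (A : List E → Prop)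
    (hC : ∀ (Ψ : ℤ → ℝ) (t : S), Sys.PM (X.B0 ^ H) μ Ψ →
      ∑ z ∈ (Icc (-(M : ℤ)) M).filter (fun z => A (X.orb k (t, z))), Ψ z ≤ C2 * η * μ * M)
    (hΨ : ∀ s : S, ∃ Ψ : ℤ → ℝ, Sys.PM (X.B0 ^ H) μ Ψ ∧ ∀ (z : ℤ) (I : Finset ℕ),
      ∑ m ∈ I, (((X.Paths m s).filter fun l =>
        X.Ty2 θ n1 g l ∧ X.Val l z ∧ 1 / x < X.rr l).card : ℝ) ≤ x * Ψ z)
    (s : S) (T : ℕ) (U : Finset ℤ)
    (hU : ∀ u ∈ U, ∃ m ≤ T, |(X.step^[m] (s, u)).2| ≤ M ∧ A (X.orb k (X.step^[m] (s, u))) ∧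
      X.Ty2 θ n1 g (X.orb m (s, u)) ∧ 1 / x < X.rr (X.orb m (s, u))) :
    (U.card : ℝ) ≤ Fintype.card S * (x * (C2 * η * μ * M)) := by
  set Z : S → Finset ℤ := fun t => (Icc (-(M : ℤ)) M).filter (fun z => A (X.orb k (t, z))) with hZ
  set F : S → ℤ → ℕ → Finset (List E) := fun t z m => (X.Paths m t).filter fun l =>
    X.Ty2 θ n1 g l ∧ X.Val l z ∧ 1 / x < X.rr l with hF
  have sub : U ⊆ univ.biUnion fun t => (Z t).biUnion fun z => (range (T + 1)).biUnion fun m =>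
      (F t z m).image fun l => X.yv l z := by
    intro u hu
    obtain ⟨m, hm, a1, a2, a3, a4⟩ := hU u hu
    have e := X.orb_mul m (s, u)
    have e' : (X.DP (X.orb m (s, u)) : ℤ) * (X.step^[m] (s, u)).2 - X.cP (X.orb m (s, u))
        = X.bP (X.orb m (s, u)) * u := by
      simp only at e ⊢
      linarith
    refine mem_biUnion.2 ⟨(X.step^[m] (s, u)).1, mem_univ _, mem_biUnion.2
      ⟨(X.step^[m] (s, u)).2, mem_filter.2 ⟨mem_Icc.2 (abs_le.1 a1), a2⟩, mem_biUnion.2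
      ⟨m, mem_range.2 (by omega), mem_image.2 ⟨X.orb m (s, u), mem_filter.2
        ⟨X.orb_mem m (s, u), a3, ?_, a4⟩, ?_⟩⟩⟩⟩
    · rw [Sys.Val, e']
      exact Dvd.intro _ rfl
    · rw [Sys.yv, e']
      exact Int.mul_ediv_cancel_left _ (X.bP_ne _)
  have c1 : U.card ≤ ∑ t, ∑ z ∈ Z t, ∑ m ∈ range (T + 1), (F t z m).card :=
    (card_le_card sub).trans (card_biUnion_le.trans (sum_le_sum fun t _ =>
      card_biUnion_le.trans (sum_le_sum fun z _ => card_biUnion_le.trans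
        (sum_le_sum fun m _ => card_image_le))))
  calc (U.card : ℝ) ≤ ∑ t, ∑ z ∈ Z t, ∑ m ∈ range (T + 1), ((F t z m).card : ℝ) := by
        exact_mod_cast c1
    _ ≤ ∑ _t : S, x * (C2 * η * μ * M) := by
        refine sum_le_sum fun t _ => ?_
        obtain ⟨Ψ, p1, p2⟩ := hΨ t
        calc _ ≤ ∑ z ∈ Z t, x * Ψ z := sum_le_sum fun z _ => p2 z _
          _ = x * ∑ z ∈ Z t, Ψ z := by rw [mul_sum]
          _ ≤ _ := mul_le_mul_of_nonneg_left (hC Ψ t p1) hx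
    _ = _ := by rw [sum_const, card_univ, nsmul_eq_mul]

end Sumx

open Sumx in
theorem sum_st (h1 : CntSt) (h2 : CrtSt) (h3 : FirstSt) : SumSt := by
  classical
  intro S E _ _ _ _ X hM hP hN
  obtain ⟨θ, t0, t1, hT⟩ := tl_ex X hP hN
  obtain ⟨g, G, n0, C1, hg, hC1, hcnt⟩ := h1 S E X hM θ t0 t1 hT
  obtain ⟨C2, hC2, hcrt⟩ := h2 S E X
  obtain ⟨R, K, hR, hK, hfirst0⟩ := h3 S E X θ t0 t1
  obtain ⟨Q0, hfirst⟩ := hfirst0 g hg
  obtain ⟨C0, ρ, hC0, r0, r1, htl⟩ := hT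
  obtain ⟨Q, q0, q1, q2⟩ : ∃ Q : ℕ, Q0 ≤ Q ∧ X.d * X.B0 ^ (G * R) ≤ Q ∧ 2 ≤ Q :=
    ⟨Q0 + X.d * X.B0 ^ (G * R) + 2, by omega, by omega, by omega⟩
  have Q1 : (1 : ℝ) < Q := by exact_mod_cast q2
  obtain ⟨c, Cg, c0, hCg, hgeo⟩ := geo r0 (r1.trans t1) Q1
  set Cb : ℝ := Fintype.card S * (3 * Q * (C2 * C0 * C1)) with hCb
  have Cb0 : 0 ≤ Cb := by positivity
  refine ⟨K + Cb * Cg, c, (Q : ℝ) ^ (n0 + 1), by positivity, c0, fun y y2 hy s N => ?_⟩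
  have ypos : 0 < y := by linarith
  have yc : 0 < y ^ c := Real.rpow_pos_of_pos ypos c
  have yQ : (Q : ℝ) ≤ y := le_trans (le_self_pow₀ Q1.le (by omega)) hy
  have lN : 0 ≤ Real.log N := Real.log_natCast_nonneg N
  set U := (Icc (-(N : ℤ)) N).filter fun u => ∀ n : ℕ, (n : ℝ) ≤ (K + Cb * Cg) * Real.log N →
    y < |(((X.step^[n] (s, u)).2 : ℤ) : ℝ)| with hU
  have hesc : ∀ u ∈ U, |u| ≤ N ∧ ∀ n : ℕ, (n : ℝ) ≤ K * Real.log N →
      y < |(((X.step^[n] (s, u)).2 : ℤ) : ℝ)| := by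
    intro u hu
    obtain ⟨a1, a2⟩ := mem_filter.1 hu
    refine ⟨abs_le.2 (mem_Icc.1 a1), fun n hn => a2 n (hn.trans ?_)⟩
    have : 0 ≤ Cb * Cg := by positivity
    gcongr
    linarith
  rcases Nat.eq_zero_or_pos N with hN0 | hN0
  · have : U = ∅ := by
      refine eq_empty_of_forall_notMem fun u hu => ?_
      obtain ⟨a1, a2⟩ := hesc u hu
      have a3 := a2 0 (by simpa using mul_nonneg hK lN)
      have a4 : |(u : ℝ)| ≤ N := by exact_mod_cast a1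
      rw [hN0] at a4
      simp only [Function.iterate_zero, id] at a3
      push_cast at a4
      linarith
    rw [this, card_empty, Nat.cast_zero]
    positivity
  have Npos : (0 : ℝ) < N := by exact_mod_cast hN0
  set T := ⌊K * Real.log N⌋₊ with hTdef
  set Pl : ℕ → ℤ → Prop := fun l u => ∃ m ≤ T,
    |(X.step^[m] (s, u)).2| ≤ (Q ^ (l + 1) : ℕ) ∧
    θ ^ (2 * l) < X.rr (X.orb l (X.step^[m] (s, u))) ∧
    X.Ty2 θ (R * l) g (X.orb m (s, u)) ∧ 1 / (3 * N / (Q : ℝ) ^ l) < X.rr (X.orb m (s, u)) with hPl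
  have hex : ∀ u ∈ U, ∃ l : ℕ, (n0 ≤ l ∧ y ≤ (Q : ℝ) ^ (l + 1)) ∧ Pl l u := by
    intro u hu
    obtain ⟨a1, a2⟩ := hesc u hu
    obtain ⟨m, b1, b2, b3, b4⟩ := hfirst Q q0 (s, u) N y yQ a1 a2
    have b5 := a2 m b1
    set w := X.step^[m] (s, u) with hw
    have e0 : ((w.2.natAbs : ℕ) : ℝ) = |((w.2 : ℤ) : ℝ)| := by
      rw [← Int.cast_natCast, Int.natCast_natAbs, Int.cast_abs]
    have w0 : w.2.natAbs ≠ 0 := by
      intro h
      rw [← e0, h, Nat.cast_zero] at b5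
      linarith
    have u1 : w.2.natAbs < Q ^ (Sys.Lv Q w + 1) := Nat.lt_pow_succ_log_self (by omega) _
    have u2 : Q ^ Sys.Lv Q w ≤ w.2.natAbs := Nat.pow_log_le_self Q w0
    have u3 : |((w.2 : ℤ) : ℝ)| < (Q : ℝ) ^ (Sys.Lv Q w + 1) := by
      rw [← e0]; exact_mod_cast u1
    have u4 : (Q : ℝ) ^ Sys.Lv Q w ≤ |((w.2 : ℤ) : ℝ)| := by
      rw [← e0]; exact_mod_cast u2
    refine ⟨Sys.Lv Q w, ⟨?_, by linarith⟩, m, Nat.le_floor b1, ?_, b2, b3, ?_⟩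
    · have : (Q : ℝ) ^ (n0 + 1) < (Q : ℝ) ^ (Sys.Lv Q w + 1) := by linarith
      have := (pow_lt_pow_iff_right₀ Q1).1 this
      omega
    · rw [← hw, ← Int.natCast_natAbs]
      exact_mod_cast u1.le
    · rw [one_div_div, div_lt_iff₀ (by positivity)]
      linarith
  choose! lv hlv using hex
  set J := U.image lv with hJ
  have hJ1 : ∀ l ∈ J, n0 ≤ l ∧ y ≤ (Q : ℝ) ^ (l + 1) := by
    intro l hl
    obtain ⟨u, hu, rfl⟩ := mem_image.1 hl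
    exact (hlv u hu).1
  have hlev : ∀ l ∈ J, ((U.filter fun u => lv u = l).card : ℝ) ≤ Cb * N * ρ ^ l := by
    intro l hl
    have p0 : (0 : ℝ) < (Q : ℝ) ^ l := by positivity
    have x0 : (0 : ℝ) < 3 * N / (Q : ℝ) ^ l := by positivity
    have hn : n0 ≤ R * l := (hJ1 l hl).1.trans (Nat.le_mul_of_pos_left l hR)
    have hm : X.d ^ l * X.B0 ^ (G * (R * l)) ≤ Q ^ (l + 1) := by
      rw [← mul_assoc, pow_mul, ← mul_pow]
      exact (Nat.pow_le_pow_left q1 l).trans (Nat.pow_le_pow_right (by omega) (by omega))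
    have := level X (θ := θ) (n1 := R * l) (g := g) (k := l) (M := Q ^ (l + 1)) x0.le
      (fun p => θ ^ (2 * l) < X.rr p)
      (fun Ψ t hΨ => hcrt l (G * (R * l)) (Q ^ (l + 1)) (fun p => θ ^ (2 * l) < X.rr p)
        (C0 * ρ ^ l) C1 Ψ t (htl l) hΨ hm)
      (hcnt (R * l) hn _ x0) s T (U.filter fun u => lv u = l) (fun u hu => by
        obtain ⟨a1, a2⟩ := mem_filter.1 hu
        have := (hlv u a1).2
        rw [a2] at this
        exact this)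
    refine this.trans (le_of_eq ?_)
    rw [hCb]
    push_cast
    field_simp
    ring
  have hc : U.card = ∑ l ∈ J, (U.filter fun u => lv u = l).card :=
    card_eq_sum_card_image lv U
  calc (U.card : ℝ) = ∑ l ∈ J, ((U.filter fun u => lv u = l).card : ℝ) := by
        rw [hc]; push_cast; rfl
    _ ≤ ∑ l ∈ J, Cb * N * ρ ^ l := sum_le_sum hlev
    _ = Cb * N * ∑ l ∈ J, ρ ^ l := by rw [mul_sum]
    _ ≤ Cb * N * (Cg / y ^ c) := by
        gcongr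
        exact hgeo y ypos J fun l hl => (hJ1 l hl).2
    _ = Cb * Cg * N / y ^ c := by ring
    _ ≤ _ := by
        gcongr
        linarith

end Ps

end Pool.Agent.Lib.MP_39d40e_nt
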