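import Pool.Agent.Lib.MP_39d40e_nt.Ps0

/-! Descent below a level with a power saving: from mixing systems to all systems. -/

namespace Pool.Agent.Lib.MP_39d40e_nt.Ps

open Finset Filter Topology

namespace Sysx

theorem concl3_of_contract {S E : Type} [Fintype S] [Fintype E] [DecidableEq S] [DecidableEq E]
    (X : Sys S E) (n1 : ℕ) (h : ∀ s l, l ∈ X.Paths n1 s → X.rr l ≤ 1 / 2) :
    X.Concl3 := by
  classical
  set K := n1 * X.cmx * (X.d : ℝ) ^ n1 with hK
  have K0 : 0 ≤ K := by have := X.cmx_nonneg; positivity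
  have one : ∀ x : S × ℤ, |(((X.step^[n1] x).2 : ℤ) : ℝ)| ≤ |(x.2 : ℝ)| / 2 + K / 2 := by
    intro x
    have hm := X.orb_mem n1 x
    have h1 := h _ _ hm
    have h2 := X.abs_cP_le (X.orb n1 x)
    rw [X.length_of_mem_Paths hm] at h2
    have h3 : (X.DP (X.orb n1 x) : ℝ) * (X.step^[n1] x).2
        = X.bP (X.orb n1 x) * x.2 + X.cP (X.orb n1 x) := by exact_mod_cast X.orb_mul n1 x
    have hD : (0 : ℝ) < X.DP (X.orb n1 x) := by exact_mod_cast X.DP_pos _
    rw [Sys.rr, div_le_iff₀ hD] at h1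
    refine le_of_mul_le_mul_left ?_ hD
    rw [← abs_of_pos hD, ← abs_mul, h3, abs_of_pos hD]
    have h4 := abs_add_le ((X.bP (X.orb n1 x) : ℝ) * x.2) (X.cP (X.orb n1 x))
    rw [abs_mul] at h4
    nlinarith [mul_le_mul_of_nonneg_right h1 (abs_nonneg (x.2 : ℝ)),
      mul_le_mul_of_nonneg_right h1 K0]
  have many : ∀ (k : ℕ) (x : S × ℤ),
      |(((X.step^[n1 * k] x).2 : ℤ) : ℝ)| ≤ |(x.2 : ℝ)| / 2 ^ k + K := by
    intro k x
    induction k with
    | zero => simpa using K0
    | succ k ih =>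
      rw [Nat.mul_succ, add_comm, Function.iterate_add_apply]
      refine (one _).trans ?_
      rw [pow_succ, ← div_div]; linarith
  refine ⟨3 * n1, 1, K + 1, by positivity, one_pos, fun y hy2 hy s N => ?_⟩
  rw [filter_eq_empty_iff.2]
  · rw [card_empty, Nat.cast_zero]
    positivity
  · intro u hu hb
    have u1 : |(u : ℝ)| ≤ N := by exact_mod_cast abs_le.2 (mem_Icc.1 hu)
    have l0 := Real.log_natCast_nonneg N
    have h0 := hb 0 (by rw [Nat.cast_zero]; positivity)
    have N2 : (2 : ℝ) ≤ N := by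
      have : y < |(u : ℝ)| := h0
      linarith
    have N0 : N ≠ 0 := by rintro rfl; norm_num at N2
    have k1 : (N : ℝ) < 2 ^ (Nat.log 2 N + 1) := by
      exact_mod_cast Nat.lt_pow_succ_log_self (by norm_num) N
    have k2 : (2 : ℝ) ^ Nat.log 2 N ≤ N := by exact_mod_cast Nat.pow_log_le_self 2 N0
    have k3 := Real.log_le_log (by positivity) k2
    rw [Real.log_pow] at k3
    have k4 := Real.log_le_log (by norm_num) N2
    have k5 := Real.log_two_gt_d9
    have k6 : ((Nat.log 2 N + 1 : ℕ) : ℝ) ≤ 3 * Real.log N := by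
      have := mul_le_mul_of_nonneg_left k5.le (Nat.cast_nonneg (α := ℝ) (Nat.log 2 N))
      have k7 : (0 : ℝ) ≤ (Nat.log 2 N : ℕ) := Nat.cast_nonneg _
      push_cast
      linarith
    have h1 := hb (n1 * (Nat.log 2 N + 1)) (by
      rw [Nat.cast_mul]
      have := mul_le_mul_of_nonneg_left k6 (Nat.cast_nonneg (α := ℝ) n1)
      linarith)
    have h2 := many (Nat.log 2 N + 1) (s, u)
    have h3 : |(u : ℝ)| / 2 ^ (Nat.log 2 N + 1) ≤ 1 := by
      rw [div_le_one (by positivity)]; linarith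
    linarith

theorem exp_st (h : SumSt) {S E : Type} [Fintype S] [Fintype E] [DecidableEq S] [DecidableEq E]
    (X : Sys S E) (hI : X.Irred) (hN : X.Neg) (s0 : S) (g : List E) (hg : X.Pa s0 g s0)
    (hg1 : 1 < X.rr g) : X.Concl3 := by
  classical
  obtain ⟨L, hL⟩ := X.exists_good hI hN s0 g hg hg1
  obtain ⟨K, c, y0, K0, c0, hK⟩ := h _ _ (X.pow L) hL.mix (hL.poisson _ Sys.addi_log) hL.drift
  have e : (X.pow L).step = X.step^[L] := funext (X.pow_step L)
  have L0 : (0 : ℝ) ≤ L := Nat.cast_nonneg L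
  refine ⟨K * (L + 1), c, y0, by positivity, c0, fun y hy hy0 s N => ?_⟩
  refine le_trans (Nat.cast_le.2 (card_le_card fun u hu => ?_)) ((hK y hy hy0 s N).trans ?_)
  · obtain ⟨h1, h2⟩ := mem_filter.1 hu
    refine mem_filter.2 ⟨h1, fun n hn => ?_⟩
    rw [e, ← Function.iterate_mul]
    refine h2 _ ?_
    have := mul_le_mul_of_nonneg_left hn L0
    have := mul_nonneg K0 (Real.log_natCast_nonneg N)
    push_cast
    linarith
  · have : 0 < y ^ c := by positivity
    gcongr
    nlinarith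

end Sysx

theorem sys_st (h : SumSt) : SysSt := by
  intro S E _ _ _ _ X hI hN
  obtain ⟨e, -⟩ := hN.exists_two
  by_cases hA : ∀ g, X.Pa (X.src e) g (X.src e) → X.rr g ≤ 1
  · obtain ⟨n1, h1⟩ := Sys.contract hI hN _ hA
    exact Sysx.concl3_of_contract X n1 h1
  · push Not at hA
    obtain ⟨g, hg, hg1⟩ := hA
    exact Sysx.exp_st h X hI hN _ g hg hg1

end Pool.Agent.Lib.MP_39d40e_nt.Ps
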