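import Pool.Agent.Lib.MP_39d40e_nt.Ps0

/-! The expected number of visits to a band is bounded. -/

namespace Pool.Agent.Lib.MP_39d40e_nt

open Finset Filter

namespace Ps

theorem visit_st : VisitSt := by
  intro S E _ _ _ _ X θ h0 h1 hT lam hl
  classical
  obtain ⟨C, ρ, hC, ρ0, ρ1, ht⟩ := hT
  have ρ2 : ρ < 1 := ρ1.trans h1
  have l0 : 0 < lam := by linarith
  obtain ⟨j0, hj0⟩ := exists_pow_lt_of_lt_one (show 0 < 1 / lam by positivity) h1
  have p0 : 0 < ρ ^ j0 := pow_pos ρ0 _
  have d0 : 0 < 1 - ρ := sub_pos.2 ρ2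
  have one : ∀ j s, X.Pr j s (fun l => 1 / lam < X.rr l) ≤ (C + 1 / ρ ^ j0) * ρ ^ j := by
    intro j s
    have pj : 0 < ρ ^ j := pow_pos ρ0 _
    rw [add_mul]
    rcases le_total j j0 with c | c
    · refine (X.Pr_le_one _ _ _).trans (le_add_of_nonneg_of_le (by positivity) ?_)
      rw [one_div, inv_mul_eq_div, le_div_iff₀ p0, one_mul]
      exact pow_le_pow_of_le_one ρ0.le ρ2.le c
    · refine le_trans (X.Pr_mono fun l _ h => ?_) ((ht j s).trans
        (le_add_of_nonneg_right (by positivity)))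
      exact ((pow_le_pow_of_le_one h0.le h1.le (by omega)).trans hj0.le).trans_lt h
  have tot : ∀ J s, ∑ j ∈ range J, X.Pr j s (fun l => 1 / lam < X.rr l)
      ≤ (C + 1 / ρ ^ j0) * (1 - ρ)⁻¹ := by
    intro J s
    refine (sum_le_sum fun j _ => one j s).trans ?_
    rw [← mul_sum]
    exact mul_le_mul_of_nonneg_left (sum_le_hasSum (range J) (fun i _ => pow_nonneg ρ0.le i)
      (hasSum_geometric_of_lt_one ρ0.le ρ2)) (by positivity)
  have main : ∀ (J : ℕ) (s : S) (β : ℝ), 0 < β →
      ∑ j ∈ range J, X.Pr j s (fun l => β < X.rr l ∧ X.rr l ≤ lam * β)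
        ≤ (C + 1 / ρ ^ j0) * (1 - ρ)⁻¹ := by
    intro J
    induction J with
    | zero => intro s β _; rw [sum_range_zero]; positivity
    | succ J ih =>
      intro s β hβ
      by_cases hb : 1 ≤ lam * β
      · refine le_trans (sum_le_sum fun j _ => X.Pr_mono fun l _ h => ?_) (tot (J + 1) s)
        refine lt_of_le_of_lt ?_ h.1
        rw [div_le_iff₀ l0]; linarith
      have z : X.Pr 0 s (fun l => β < X.rr l ∧ X.rr l ≤ lam * β) ≤ 0 := by
        refine X.Ex_le_const fun l hl => ?_
        obtain rfl : l = [] := List.length_eq_zero_iff.1 (X.length_of_mem_Paths hl)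
        rw [if_neg]
        rintro ⟨-, h⟩
        exact hb (by simpa [Sys.rr] using h)
      rw [sum_range_succ']
      refine le_trans (add_le_add ?_ z) (add_zero _).le
      have e : ∀ j, X.Pr (j + 1) s (fun l => β < X.rr l ∧ X.rr l ≤ lam * β) =
          ∑ e ∈ X.into s, X.q e * X.Pr j (X.src e)
            (fun l => β / X.rr [e] < X.rr l ∧ X.rr l ≤ lam * (β / X.rr [e])) := by
        intro j
        unfold Sys.Pr
        rw [X.Ex_succ]
        refine sum_congr rfl fun e _ => ?_
        congr 1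
        refine X.Ex_congr fun l _ => ?_
        have r0 := X.rr_pos [e]
        have r1 : X.rr (e :: l) = X.rr l * X.rr [e] := by
          rw [mul_comm, ← X.rr_append]; rfl
        have r2 : (β < X.rr (e :: l) ∧ X.rr (e :: l) ≤ lam * β) ↔
            (β / X.rr [e] < X.rr l ∧ X.rr l ≤ lam * (β / X.rr [e])) := by
          rw [r1, div_lt_iff₀ r0, ← mul_div_assoc, le_div_iff₀ r0]
        by_cases c : β < X.rr (e :: l) ∧ X.rr (e :: l) ≤ lam * β
        · rw [if_pos c, if_pos (r2.1 c)]
        · rw [if_neg c, if_neg fun h => c (r2.2 h)]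
      simp only [e]
      rw [sum_comm]
      calc _ ≤ ∑ e ∈ X.into s, X.q e * ((C + 1 / ρ ^ j0) * (1 - ρ)⁻¹) := by
            refine sum_le_sum fun e _ => ?_
            rw [← mul_sum]
            exact mul_le_mul_of_nonneg_left (ih _ _ (div_pos hβ (X.rr_pos _))) (X.q_pos e).le
        _ = _ := by rw [← sum_mul, X.sum_q, one_mul]
  refine ⟨_, by positivity, fun β hβ s I => le_trans ?_ (main (I.sup id + 1) s β hβ)⟩
  exact sum_le_sum_of_subset_of_nonneg
    (fun j hj => mem_range.2 (Nat.lt_succ_of_le (le_sup (f := id) hj)))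
    fun _ _ _ => X.Pr_nonneg _ _ _

end Ps

end Pool.Agent.Lib.MP_39d40e_nt
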