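import Pool.Agent.Lib.MP_39d40e_nt.PsVisit
import Pool.Agent.Lib.MP_39d40e_nt.PsInner
import Pool.Agent.Lib.MP_39d40e_nt.PsStage
import Pool.Agent.Lib.MP_39d40e_nt.PsMax
import Pool.Agent.Lib.MP_39d40e_nt.PsCore
import Pool.Agent.Lib.MP_39d40e_nt.PsCnt
import Pool.Agent.Lib.MP_39d40e_nt.PsCrt
import Pool.Agent.Lib.MP_39d40e_nt.PsSeg
import Pool.Agent.Lib.MP_39d40e_nt.PsFirst
import Pool.Agent.Lib.MP_39d40e_nt.PsSum
import Pool.Agent.Lib.MP_39d40e_nt.PsSys
import Pool.Agent.Lib.MP_39d40e_nt.PsLeigh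

/-! Descent below a level with a power saving: assembly. -/

namespace Pool.Agent.Lib.MP_39d40e_nt.Ps

theorem leigh_all : LeighSt :=
  leigh_st (sys_st (sum_st (cnt_st (core_st visit_st (inner_st visit_st) stage_st max_st)) crt_st
    (first_st seg_st)))

end Pool.Agent.Lib.MP_39d40e_nt.Ps
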