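import Pool.Agent.Lib.MP_39d40e_nt.Rho

/-! Pushing logarithmic sums forward along the dynamics. -/

namespace Pool.Agent.Lib.MP_39d40e_nt

open Finset

namespace Sys

variable {S E : Type*} [Fintype S] [Fintype E] [DecidableEq S] [DecidableEq E] (X : Sys S E)

noncomputable def orb : ℕ → S × ℤ → List E
  | 0, _ => []
  | n + 1, x => X.lab (X.step^[n] x) :: orb n x

theorem orb_mem (n : ℕ) (x : S × ℤ) : X.orb n x ∈ X.Paths n (X.step^[n] x).1 := by
  induction n with
  | zero => simp [orb]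
  | succ n ih =>
    rw [orb, cons_mem_Paths, Function.iterate_succ_apply', lab_src]
    exact ⟨rfl, ih⟩

omit [DecidableEq E] in
theorem orb_endp (n : ℕ) (x : S × ℤ) : X.endp (X.step^[n] x).1 (X.orb n x) = x.1 := by
  induction n with
  | zero => rfl
  | succ n ih => rw [orb, endp, lab_src, ih]

omit [DecidableEq E] in
theorem orb_mul (n : ℕ) (x : S × ℤ) :
    (X.DP (X.orb n x) : ℤ) * (X.step^[n] x).2 = X.bP (X.orb n x) * x.2 + X.cP (X.orb n x) := by
  induction n with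
  | zero => simp [orb]
  | succ n ih =>
    rw [orb, Function.iterate_succ_apply', DP_cons, bP_cons, cP_cons]
    have := X.step_mul (X.step^[n] x)
    push_cast
    linear_combination (X.DP (X.orb n x) : ℤ) * this + X.b (X.lab (X.step^[n] x)) * ih

noncomputable def cmx : ℝ := ∑ e, |(X.c e : ℝ)|

omit [DecidableEq E] in
theorem cmx_nonneg : 0 ≤ X.cmx := sum_nonneg fun _ _ => abs_nonneg _

omit [DecidableEq E] in
theorem one_le_abs_bP (l : List E) : (1 : ℝ) ≤ |(X.bP l : ℝ)| := by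
  have := Int.one_le_abs (X.bP_ne l)
  exact_mod_cast this

omit [DecidableEq E] in
theorem DP_le_pow (l : List E) : (X.DP l : ℝ) ≤ (X.d : ℝ) ^ l.length := by
  have := Nat.le_of_dvd (pow_pos X.d_pos _) (X.DP_dvd l)
  exact_mod_cast this

omit [DecidableEq E] in
theorem abs_cP_le (l : List E) :
    |(X.cP l : ℝ)| ≤ |(X.bP l : ℝ)| * (l.length * X.cmx * (X.d : ℝ) ^ l.length) := by
  have hd : (1 : ℝ) ≤ X.d := by exact_mod_cast X.d_pos
  have hc := X.cmx_nonneg
  induction l with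
  | nil => simp
  | cons e l ih =>
    have h1 : |(X.c e : ℝ)| ≤ X.cmx :=
      single_le_sum (f := fun e => |(X.c e : ℝ)|) (fun _ _ => abs_nonneg _) (mem_univ e)
    have h2 := X.DP_le_pow l
    have h3 := X.one_le_abs_bP (e :: l)
    rw [bP_cons] at h3
    rw [cP_cons, bP_cons, List.length_cons]
    push_cast at h3 ⊢
    have h4 : (X.d : ℝ) ^ l.length ≤ (X.d : ℝ) ^ (l.length + 1) :=
      pow_le_pow_right₀ hd (Nat.le_succ _)
    calc |(X.b e : ℝ) * X.cP l + X.c e * X.DP l|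
        ≤ |(X.b e : ℝ)| * |(X.cP l : ℝ)| + |(X.c e : ℝ)| * X.DP l := by
          refine (abs_add_le _ _).trans (le_of_eq ?_)
          rw [abs_mul, abs_mul, Nat.abs_cast]
      _ ≤ |(X.b e : ℝ)| * (|(X.bP l : ℝ)| * (l.length * X.cmx * (X.d : ℝ) ^ (l.length + 1)))
          + |(X.b e : ℝ) * X.bP l| * (X.cmx * (X.d : ℝ) ^ (l.length + 1)) := by
          refine add_le_add (mul_le_mul_of_nonneg_left (ih.trans (by gcongr)) (abs_nonneg _)) ?_
          calc |(X.c e : ℝ)| * X.DP l ≤ X.cmx * (X.d : ℝ) ^ (l.length + 1) :=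
                mul_le_mul h1 (h2.trans h4) (by positivity) hc
            _ ≤ _ := le_mul_of_one_le_left (by positivity) h3
      _ = _ := by rw [abs_mul]; ring

noncomputable def rr (l : List E) : ℝ := |(X.bP l : ℝ)| / X.DP l

omit [DecidableEq E] in
theorem rr_pos (l : List E) : 0 < X.rr l := by
  have h1 := X.one_le_abs_bP l
  have h2 : (0 : ℝ) < X.DP l := by exact_mod_cast X.DP_pos l
  unfold rr; positivity

omit [DecidableEq E] in
theorem rr_ge (l : List E) : 1 / (X.d : ℝ) ^ l.length ≤ X.rr l := by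
  have h1 := X.one_le_abs_bP l
  have h2 : (0 : ℝ) < X.DP l := by exact_mod_cast X.DP_pos l
  unfold rr; gcongr; exact X.DP_le_pow l

omit [DecidableEq E] in
theorem rr_append (o i : List E) : X.rr (o ++ i) = X.rr o * X.rr i := by
  unfold rr; rw [bP_append, DP_append]; push_cast; rw [abs_mul, div_mul_div_comm]

open Classical in
noncomputable def ind (y : ℝ) (s : S) (z : ℤ) : ℝ := if X.Esc y (s, z) then 1 else 0

omit [DecidableEq E] in
theorem ind_nonneg (y s z) : 0 ≤ X.ind y s z := by unfold ind; split_ifs <;> norm_num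

omit [DecidableEq E] in
theorem ind_le (y s z) : X.ind y s z ≤ 1 := by unfold ind; split_ifs <;> norm_num

noncomputable def SW (y : ℝ) (g : S → ℤ → ℝ) (a b : ℝ) : ℝ :=
  ∑ s, X.π s * ∑ z ∈ win a b, X.ind y s z * g s z / |(z : ℝ)|

theorem push (y : ℝ) (g : S → ℤ → ℝ) (hg : ∀ s z, 0 ≤ g s z) (n : ℕ) (a b θ : ℝ) (ha : 0 < a)
    (hθ0 : 0 ≤ θ) (hθ : θ ≤ 1 / 2) (h : n * X.cmx * (X.d : ℝ) ^ n ≤ θ * a) :
    X.SW y g a b ≤ (1 + θ) * ∑ s, X.π s * X.Ex n s fun l =>
      ∑ z ∈ win (X.rr l * a / 2) (2 * X.rr l * b),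
        X.ind y s z * X.pull l z (g (X.endp s l)) / |(z : ℝ)| := by
  classical
  let F : S × ℤ → ℝ := fun x => X.π x.1 * (X.ind y x.1 x.2 * g x.1 x.2 / |(x.2 : ℝ)|)
  let G : (Σ _ : S, Σ _ : List E, ℤ) → ℝ := fun t => (1 + θ) * (X.π t.1 * (X.wt t.2.1 *
    (X.ind y t.1 t.2.2 * X.pull t.2.1 t.2.2 (g (X.endp t.1 t.2.1)) / |(t.2.2 : ℝ)|)))
  let φ : S × ℤ → (Σ _ : S, Σ _ : List E, ℤ) :=
    fun x => ⟨(X.step^[n] x).1, X.orb n x, (X.step^[n] x).2⟩
  let TT : Finset (Σ _ : S, Σ _ : List E, ℤ) :=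
    univ.sigma fun s => (X.Paths n s).sigma fun l => win (X.rr l * a / 2) (2 * X.rr l * b)
  have e1 : X.SW y g a b = ∑ x ∈ univ ×ˢ win a b, F x := by
    rw [sum_product]; unfold SW
    simp only [F, mul_sum]
  have e2 : (1 + θ) * (∑ s, X.π s * X.Ex n s fun l =>
      ∑ z ∈ win (X.rr l * a / 2) (2 * X.rr l * b),
        X.ind y s z * X.pull l z (g (X.endp s l)) / |(z : ℝ)|) = ∑ t ∈ TT, G t := by
    simp only [TT, sum_sigma, G, Ex, mul_sum]
  have hG : ∀ t, 0 ≤ G t := fun t => by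
    have := X.π_pos t.1
    have := X.wt_pos t.2.1
    have := X.ind_nonneg y t.1 t.2.2
    have := X.pull_nonneg t.2.1 t.2.2 (hg (X.endp t.1 t.2.1))
    simp only [G]; positivity
  have hinj : Set.InjOn φ ↑(univ ×ˢ win a b : Finset (S × ℤ)) := by
    intro x _ x' _ hx
    simp only [φ, Sigma.mk.injEq, heq_eq_eq] at hx
    obtain ⟨h1, h2, h3⟩ := hx
    have k1 := X.orb_endp n x
    have k2 := X.orb_endp n x'
    have k3 := X.orb_mul n x
    have k4 := X.orb_mul n x'
    rw [h1, h2] at k1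
    rw [h2, h3] at k3
    refine Prod.ext (k1.symm.trans k2) ?_
    exact mul_left_cancel₀ (X.bP_ne (X.orb n x')) (by linarith)
  have key : ∀ x ∈ univ ×ˢ win a b, φ x ∈ TT ∧ F x ≤ G (φ x) := by
    intro x hx
    have hw := mem_win.1 (mem_product.1 hx).2
    have hm := X.orb_mem n x
    have hl := X.length_of_mem_Paths hm
    have k3 := X.orb_mul n x
    have k1 := X.orb_endp n x
    have hc := X.abs_cP_le (X.orb n x)
    have hwt := X.wt_eq hm
    rw [hl] at hc
    have hr := X.rr_pos (X.orb n x)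
    have hind : X.ind y x.1 x.2 ≤ X.ind y (X.step^[n] x).1 (X.step^[n] x).2 := by
      unfold ind; split_ifs with h1 h2
      · exact le_rfl
      · exact absurd (h1.iter n) h2
      · norm_num
      · exact le_rfl
    simp only [φ, TT, F, G, mem_sigma, mem_univ, true_and]
    set l := X.orb n x
    set z := (X.step^[n] x).2
    set s' := (X.step^[n] x).1
    have hD : (0 : ℝ) < X.DP l := by exact_mod_cast X.DP_pos l
    have hb := X.one_le_abs_bP l
    have k3' : (X.DP l : ℝ) * z = X.bP l * x.2 + X.cP l := by exact_mod_cast k3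
    have hc' : |(X.cP l : ℝ)| ≤ θ * (|(X.bP l : ℝ)| * |(x.2 : ℝ)|) := by
      calc _ ≤ |(X.bP l : ℝ)| * (θ * |(x.2 : ℝ)|) :=
            hc.trans (mul_le_mul_of_nonneg_left (h.trans (by gcongr; exact hw.1)) (abs_nonneg _))
        _ = _ := by ring
    have u1 : X.DP l * |(z : ℝ)| ≤ (1 + θ) * (|(X.bP l : ℝ)| * |(x.2 : ℝ)|) := by
      rw [← abs_of_pos hD, ← abs_mul, k3']
      have := abs_add_le ((X.bP l : ℝ) * x.2) (X.cP l)
      rw [abs_mul] at this; linarith
    have u2 : (1 - θ) * (|(X.bP l : ℝ)| * |(x.2 : ℝ)|) ≤ X.DP l * |(z : ℝ)| := by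
      rw [← abs_of_pos hD, ← abs_mul (X.DP l : ℝ), k3']
      have := abs_sub ((X.bP l : ℝ) * x.2 + X.cP l) (X.cP l)
      rw [add_sub_cancel_right, abs_mul] at this; linarith
    have hx0 : 0 < |(x.2 : ℝ)| := lt_of_lt_of_le ha hw.1
    have v1 : |(z : ℝ)| ≤ (1 + θ) * X.rr l * |(x.2 : ℝ)| := by
      unfold rr
      rw [mul_div_assoc', div_mul_eq_mul_div, le_div_iff₀ hD]; linarith
    have v2 : (1 - θ) * X.rr l * |(x.2 : ℝ)| ≤ |(z : ℝ)| := by
      unfold rr
      rw [mul_div_assoc', div_mul_eq_mul_div, div_le_iff₀ hD]; linarith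
    have hz0 : 0 < |(z : ℝ)| := lt_of_lt_of_le (by
      have : 0 < 1 - θ := by linarith
      positivity) v2
    refine ⟨⟨hm, mem_win.2 ⟨?_, ?_⟩⟩, ?_⟩
    · nlinarith [mul_le_mul_of_nonneg_left hw.1 hr.le, mul_pos hr hx0]
    · nlinarith [mul_lt_mul_of_pos_left hw.2 hr, mul_pos hr hx0]
    · have e3 : X.pull l z (g (X.endp s' l)) = |(X.bP l : ℝ)| * g x.1 x.2 := by
        have : (X.DP l : ℤ) * z - X.cP l = X.bP l * x.2 := by linarith
        unfold pull
        rw [this, if_pos (Dvd.intro _ rfl), Int.mul_ediv_cancel_left _ (X.bP_ne l), k1]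
      rw [e3, hwt, k1]
      have p1 := X.π_pos x.1
      have p2 := X.π_pos s'
      have p3 := hg x.1 x.2
      have p4 := X.ind_nonneg y x.1 x.2
      have e4 : (1 + θ) * (X.π s' * (X.π x.1 / (X.DP l * X.π s') *
          (X.ind y s' z * (|(X.bP l : ℝ)| * g x.1 x.2) / |(z : ℝ)|)))
          = X.π x.1 * (X.ind y s' z * g x.1 x.2 * ((1 + θ) * X.rr l / |(z : ℝ)|)) := by
        unfold rr; field_simp
      have p5 := X.ind_nonneg y s' z
      have p6 : 1 / |(x.2 : ℝ)| ≤ (1 + θ) * X.rr l / |(z : ℝ)| := by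
        rw [div_le_div_iff₀ hx0 hz0]; linarith
      rw [e4, div_eq_mul_one_div]
      gcongr
  rw [e1, e2]
  calc ∑ x ∈ univ ×ˢ win a b, F x ≤ ∑ x ∈ univ ×ˢ win a b, G (φ x) :=
        sum_le_sum fun x hx => (key x hx).2
    _ = ∑ t ∈ (univ ×ˢ win a b).image φ, G t := (sum_image hinj).symm
    _ ≤ ∑ t ∈ TT, G t := by
        apply sum_le_sum_of_subset_of_nonneg
        · intro t ht
          obtain ⟨x, hx, rfl⟩ := mem_image.1 ht
          exact (key x hx).1
        · intro t _ _; exact hG t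

end Sys

end Pool.Agent.Lib.MP_39d40e_nt
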