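import Pool.Agent.Lib.MP_39d40e_nt.Chain
import Pool.Agent.Lib.MP_39d40e_nt.Dyn

/-! The densities `rho`, their weighted versions and the telescoped mixing estimate. -/

namespace Pool.Agent.Lib.MP_39d40e_nt

open Finset

namespace Sys

variable {S E : Type*} [Fintype S] [Fintype E] [DecidableEq S] [DecidableEq E] (X : Sys S E)

noncomputable def pull (l : List E) (z : ℤ) (g : ℤ → ℝ) : ℝ :=
  if X.bP l ∣ X.DP l * z - X.cP l then |(X.bP l : ℝ)| * g ((X.DP l * z - X.cP l) / X.bP l) else 0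

omit [DecidableEq E] in
theorem pull_append (o i : List E) (z : ℤ) (g : ℤ → ℝ) :
    X.pull (o ++ i) z g = X.pull o z fun x => X.pull i x g := by
  have key : (X.DP (o ++ i) : ℤ) * z - X.cP (o ++ i)
      = X.DP i * (X.DP o * z - X.cP o) - X.bP o * X.cP i := by
    rw [DP_append, cP_append]; push_cast; ring
  unfold pull
  rw [key, bP_append]
  by_cases h : X.bP o ∣ X.DP o * z - X.cP o
  · obtain ⟨x, hx⟩ := h
    rw [hx, if_pos (Dvd.intro _ rfl), Int.mul_ediv_cancel_left _ (X.bP_ne o)]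
    have e : (X.DP i : ℤ) * (X.bP o * x) - X.bP o * X.cP i = X.bP o * (X.DP i * x - X.cP i) := by
      ring
    rw [e]
    simp only [mul_dvd_mul_iff_left (X.bP_ne o)]
    split_ifs with h2
    · obtain ⟨k, hk⟩ := h2
      rw [hk, ← mul_assoc (X.bP o), Int.mul_ediv_cancel_left _ (X.bP_ne i),
        Int.mul_ediv_cancel_left _ (mul_ne_zero (X.bP_ne o) (X.bP_ne i))]
      push_cast; rw [abs_mul]; ring
    · simp
  · rw [if_neg h, if_neg]
    intro h2; apply h
    have h3 : X.bP o ∣ X.DP i * (X.DP o * z - X.cP o) - X.bP o * X.cP i :=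
      Dvd.dvd.trans (Dvd.intro _ rfl) h2
    have h4 : X.bP o ∣ X.DP i * (X.DP o * z - X.cP o) := by
      have := Dvd.dvd.add h3 (Dvd.intro (X.cP i) rfl)
      simpa using this
    exact (X.bP_cop_DP o i).dvd_of_dvd_mul_left h4

omit [DecidableEq E] in
theorem pull_mono (l : List E) (z : ℤ) {g g' : ℤ → ℝ} (h : ∀ x, g x ≤ g' x) :
    X.pull l z g ≤ X.pull l z g' := by
  unfold pull; split_ifs
  · exact mul_le_mul_of_nonneg_left (h _) (abs_nonneg _)
  · exact le_rfl

omit [DecidableEq E] in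
theorem pull_nonneg (l : List E) (z : ℤ) {g : ℤ → ℝ} (h : ∀ x, 0 ≤ g x) : 0 ≤ X.pull l z g := by
  unfold pull; split_ifs
  · exact mul_nonneg (abs_nonneg _) (h _)
  · exact le_rfl

omit [DecidableEq E] in
theorem pull_sub (l : List E) (z : ℤ) (g g' : ℤ → ℝ) :
    X.pull l z (fun x => g x - g' x) = X.pull l z g - X.pull l z g' := by
  unfold pull; split_ifs <;> ring

omit [DecidableEq E] in
theorem pull_mul_const (l : List E) (z : ℤ) (g : ℤ → ℝ) (a : ℝ) :
    X.pull l z (fun x => g x * a) = X.pull l z g * a := by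
  unfold pull; split_ifs <;> ring

omit [DecidableEq E] in
theorem pull_const (l : List E) (z : ℤ) (a : ℝ) :
    X.pull l z (fun _ => a) = X.pull l z (fun _ => 1) * a := by
  unfold pull; split_ifs <;> ring

theorem pull_Ex (l : List E) (z : ℤ) (n : ℕ) (s : S) (f : ℤ → List E → ℝ) :
    X.pull l z (fun x => X.Ex n s (f x)) = X.Ex n s fun i => X.pull l z fun x => f x i := by
  unfold pull; split_ifs
  · rw [Ex_const_mul]
  · rw [Ex_const]

omit [DecidableEq E] in
theorem natAbs_bP_dvd (l : List E) : (X.bP l).natAbs ∣ X.B0 ^ l.length := by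
  have := Int.natAbs_dvd_natAbs.2 (X.bP_dvd l)
  simpa [Int.natAbs_pow] using this

omit [DecidableEq E] in
theorem pull_per (l : List E) (k : ℕ) {g : ℤ → ℝ} (hg : ∀ x, g (x + (X.B0 ^ k : ℕ)) = g x) (z : ℤ) :
    X.pull l (z + (X.B0 ^ (l.length + k) : ℕ)) g = X.pull l z g := by
  obtain ⟨w, hw⟩ := X.bP_dvd l
  have e : (X.DP l : ℤ) * (z + (X.B0 ^ (l.length + k) : ℕ)) - X.cP l
      = (X.DP l * z - X.cP l) + X.bP l * ((X.DP l * w) * (X.B0 ^ k : ℕ)) := by
    push_cast; rw [pow_add, hw]; ring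
  unfold pull
  rw [e]
  simp only [Int.dvd_add_left (Dvd.intro _ rfl : X.bP l ∣ X.bP l * _)]
  split_ifs
  · rw [Int.add_mul_ediv_left _ _ (X.bP_ne l), per_int_mul g _ hg]
  · rfl

omit [DecidableEq E] in
theorem pull_sum (l : List E) (k : ℕ) {g : ℤ → ℝ} (hg : ∀ x, g (x + (X.B0 ^ k : ℕ)) = g x) :
    ∑ z ∈ range (X.B0 ^ (l.length + k)), X.pull l z g
      = (X.B0 : ℝ) ^ l.length * ∑ x ∈ range (X.B0 ^ k), g x := by
  have hB := X.B0_pos
  have hc : IsCoprime (X.DP l : ℤ) (X.bP l * (X.B0 ^ k : ℕ)) := by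
    refine (X.bP_cop_DP l l).symm.mul_right ?_
    have h : IsCoprime ((X.B0 : ℤ) ^ k) ((X.d : ℤ) ^ l.length) := X.B0_cop.pow
    push_cast
    exact (h.of_isCoprime_of_dvd_right (by exact_mod_cast X.DP_dvd l)).symm
  have := sum_pull g (X.B0 ^ k) (by positivity) hg (X.bP l) (X.bP_ne l) (X.DP l) (X.cP l) hc
    (X.B0 ^ (l.length + k)) (by rw [pow_add]; exact Nat.mul_dvd_mul_right (X.natAbs_bP_dvd l) _)
  unfold pull
  rw [this]
  have : (X.B0 : ℝ) ≠ 0 := by positivity
  push_cast; rw [pow_add]; field_simp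

noncomputable def rho (m : ℕ) (s : S) (z : ℤ) : ℝ := X.Ex m s fun l => X.pull l z fun _ => 1

theorem rho_nonneg (m s z) : 0 ≤ X.rho m s z :=
  X.Ex_nonneg fun l _ => X.pull_nonneg l z fun _ => zero_le_one

theorem rho_zero (s z) : X.rho 0 s z = 1 := by
  simp [rho, Ex, Paths, pull]

theorem rho_add (n m : ℕ) (s : S) (z : ℤ) :
    X.rho (n + m) s z = X.Ex n s fun o => X.pull o z (X.rho m (X.endp s o)) := by
  unfold rho
  rw [Ex_append]
  refine X.Ex_congr fun o _ => ?_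
  simp only [pull_append]
  rw [pull_Ex]

theorem sum_Ex {ι : Type*} (n : ℕ) (s : S) (I : Finset ι) (f : ι → List E → ℝ) :
    ∑ i ∈ I, X.Ex n s (f i) = X.Ex n s (fun l => ∑ i ∈ I, f i l) := (X.Ex_sum n s I f).symm

theorem rho_per (m s z) : X.rho m s (z + (X.B0 ^ m : ℕ)) = X.rho m s z := by
  unfold rho
  refine X.Ex_congr fun l hl => ?_
  have := X.pull_per l 0 (g := fun _ => 1) (fun _ => rfl) z
  rwa [X.length_of_mem_Paths hl] at this

theorem rho_sum (m s) : ∑ z ∈ range (X.B0 ^ m), X.rho m s z = (X.B0 : ℝ) ^ m := by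
  unfold rho
  rw [sum_Ex]
  refine (X.Ex_congr fun l hl => ?_).trans (X.Ex_const m s _)
  have := X.pull_sum l 0 (g := fun _ => 1) (fun _ => rfl)
  rw [X.length_of_mem_Paths hl] at this
  simpa using this

noncomputable def W (j r : ℕ) (G : ℤ → ℕ → ℝ) (s : S) (z : ℤ) : ℝ :=
  X.Ex j s fun o => X.pull o z fun _ =>
    X.Ex r (X.endp s o) fun i => G (X.bP o * X.bP i) (X.DP o * X.DP i)

theorem W_zero (n G s z) :
    X.W n 0 G s z = X.Ex n s fun l => X.pull l z fun _ => G (X.bP l) (X.DP l) := by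
  simp [W, Ex, Paths]

theorem W_one (j r s z) : X.W j r (fun _ _ => 1) s z = X.rho j s z := by
  simp only [W, Ex_const, rho]

theorem W_per (j r G s z) : X.W j r G s (z + (X.B0 ^ j : ℕ)) = X.W j r G s z := by
  unfold W
  refine X.Ex_congr fun l hl => ?_
  have := X.pull_per l 0 (g := fun _ => X.Ex r (X.endp s l) fun i =>
    G (X.bP l * X.bP i) (X.DP l * X.DP i)) (fun _ => rfl) z
  rwa [X.length_of_mem_Paths hl] at this

noncomputable def gd (r : ℕ) (G : ℤ → ℕ → ℝ) (t : S) (M : ℤ) (D : ℕ) (x : ℤ) : ℝ :=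
  X.Ex 1 t fun e => (X.pull e x (fun _ => 1) - 1) *
    X.Ex r (X.endp t e) fun i => G (M * X.bP e * X.bP i) (D * X.DP e * X.DP i)

theorem W_diff (j r G s z) : X.W (j + 1) r G s z - X.W j (1 + r) G s z
    = X.Ex j s fun o => X.pull o z (X.gd r G (X.endp s o) (X.bP o) (X.DP o)) := by
  unfold W
  rw [Ex_append, ← Ex_sub]
  refine X.Ex_congr fun o _ => ?_
  simp only [pull_append]
  rw [← pull_Ex, ← pull_sub]
  congr 1; funext x
  rw [Ex_append, ← Ex_sub, gd]
  refine X.Ex_congr fun e _ => ?_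
  rw [pull_const, endp_append, sub_mul, one_mul]
  simp only [bP_append, DP_append, mul_assoc]

theorem mixW (hM : X.Mix) (A : ℕ) : ∃ C : ℝ, 0 ≤ C ∧ ∀ (r m : ℕ), 1 ≤ m → ∀ (G : ℤ → ℕ → ℝ),
    (∀ M D, 0 ≤ G M D) → (∀ M D, G M D ≤ 1) → ∀ s,
    ∑ z ∈ range (X.B0 ^ (m + r)), |X.W (m + r) 0 G s z - X.W m r G s z|
      ≤ r * C / (m : ℝ) ^ A * (X.B0 ^ (m + r) : ℕ) := by
  obtain ⟨C, hC⟩ := hM A
  have hB := X.B0_pos
  have hB' : (0 : ℝ) < X.B0 := by exact_mod_cast hB
  have one : ∀ (r j : ℕ), 1 ≤ j → ∀ (G : ℤ → ℕ → ℝ),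
      (∀ M D, 0 ≤ G M D) → (∀ M D, G M D ≤ 1) → ∀ s,
      ∑ z ∈ range (X.B0 ^ (j + 1)), |X.W (j + 1) r G s z - X.W j (1 + r) G s z|
        ≤ X.B0 * max C 0 / (j : ℝ) ^ A * (X.B0 : ℝ) ^ (j + 1) := by
    intro r j hj G h0 h1 s
    have := hC j hj s (fun t M D x => X.gd r G t M D x * (X.B0 : ℝ)⁻¹) ?_ ?_ ?_
    · have e : ∀ z : ℤ, X.W (j + 1) r G s z - X.W j (1 + r) G s z
          = (X.Ex j s fun l => X.pull l z
            fun x => X.gd r G (X.endp s l) (X.bP l) (X.DP l) x * (X.B0 : ℝ)⁻¹) * X.B0 := by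
        intro z
        rw [W_diff, ← Ex_mul_const]
        refine X.Ex_congr fun l _ => ?_
        rw [pull_mul_const]; field_simp
      simp only [e, abs_mul, abs_of_pos hB']
      rw [← sum_mul]
      have h2 : C / (j : ℝ) ^ A * (X.B0 : ℝ) ^ (j + 1)
          ≤ max C 0 / (j : ℝ) ^ A * (X.B0 : ℝ) ^ (j + 1) := by
        gcongr; exact le_max_left _ _
      calc _ ≤ (max C 0 / (j : ℝ) ^ A * (X.B0 : ℝ) ^ (j + 1)) * X.B0 :=
            mul_le_mul_of_nonneg_right (le_trans this h2) hB'.le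
        _ = _ := by ring
    · intro t M D x
      simp only [gd]
      congr 1
      refine X.Ex_congr fun e he => ?_
      have := X.pull_per e 0 (g := fun _ => 1) (fun _ => rfl) x
      rw [X.length_of_mem_Paths he] at this
      simp only [add_zero, pow_one] at this
      rw [this]
    · intro t M D
      rw [← sum_mul]
      simp only [gd]
      rw [sum_Ex]
      rw [(X.Ex_congr (g := fun _ => 0) fun e he => ?_).trans (X.Ex_const 1 t _), zero_mul]
      have := X.pull_sum e 0 (g := fun _ => 1) (fun _ => rfl)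
      rw [X.length_of_mem_Paths he] at this
      simp only [add_zero, pow_one, pow_zero, range_one, sum_singleton, mul_one] at this
      rw [← sum_mul, sum_sub_distrib, this]; simp
    · intro t M D x
      rw [abs_mul, abs_of_pos (inv_pos.2 hB'), ← div_eq_mul_inv, div_le_one hB']
      refine (X.abs_Ex_le _ _ _).trans (X.Ex_le_const fun e he => ?_)
      rw [abs_mul]
      have a1 : |X.pull e x (fun _ => 1) - 1| ≤ X.B0 := by
        have b1 : (1 : ℝ) ≤ X.B0 := by exact_mod_cast hB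
        have b2 : |(X.bP e : ℝ)| ≤ X.B0 := by
          have := Nat.le_of_dvd (by positivity) (X.natAbs_bP_dvd e)
          rw [X.length_of_mem_Paths he, pow_one] at this
          have h3 : (((X.bP e).natAbs : ℕ) : ℝ) ≤ X.B0 := by exact_mod_cast this
          rwa [Nat.cast_natAbs, Int.cast_abs] at h3
        unfold pull; split_ifs
        · rw [abs_le]; constructor <;> linarith [abs_nonneg (X.bP e : ℝ)]
        · simpa using b1
      have a2 : |X.Ex r (X.endp t e) fun i => G (M * X.bP e * X.bP i) (D * X.DP e * X.DP i)|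
          ≤ 1 := by
        rw [abs_of_nonneg (X.Ex_nonneg fun _ _ => h0 _ _)]
        exact X.Ex_le_const fun _ _ => h1 _ _
      exact (mul_le_mul a1 a2 (abs_nonneg _) hB'.le).trans (le_of_eq (mul_one _))
  refine ⟨X.B0 * max C 0, by positivity, ?_⟩
  intro r
  induction r with
  | zero => intro m _ G _ _ s; simp
  | succ r ih =>
    intro m hm G h0 h1 s
    have e1 : m + (r + 1) = m + 1 + r := by ring
    have i1 := ih (m + 1) (by omega) G h0 h1 s
    have i2 := one r m hm G h0 h1 s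
    have i3 := sum_range_mul (fun z => |X.W (m + 1) r G s z - X.W m (1 + r) G s z|)
      (X.B0 ^ (m + 1)) (fun z => by
        rw [X.W_per, per_of_dvd (X.W m (1 + r) G s) _ _ (X.W_per m (1 + r) G s)
          (pow_dvd_pow _ (Nat.le_succ m))]) (X.B0 ^ r)
    rw [← pow_add, add_comm r (m + 1)] at i3
    rw [e1, add_comm r 1]
    have hm' : (0 : ℝ) < m := by exact_mod_cast hm
    have i4 : (r : ℝ) * (X.B0 * max C 0) / ((m + 1 : ℕ) : ℝ) ^ A
        ≤ r * (X.B0 * max C 0) / (m : ℝ) ^ A := by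
      gcongr; omega
    calc _ ≤ ∑ z ∈ range (X.B0 ^ (m + 1 + r)), (|X.W (m + 1 + r) 0 G s z - X.W (m + 1) r G s z|
          + |X.W (m + 1) r G s z - X.W m (1 + r) G s z|) :=
          sum_le_sum fun z _ => abs_sub_le _ _ _
      _ ≤ r * (X.B0 * max C 0) / (m : ℝ) ^ A * (X.B0 ^ (m + 1 + r) : ℕ)
          + (X.B0 ^ r : ℕ) * (X.B0 * max C 0 / (m : ℝ) ^ A * (X.B0 : ℝ) ^ (m + 1)) := by
          rw [sum_add_distrib, i3]
          gcongr
          exact i1.trans (mul_le_mul_of_nonneg_right i4 (by positivity))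
      _ = _ := by push_cast; ring

end Sys

end Pool.Agent.Lib.MP_39d40e_nt
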