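import Pool.Agent.Lib.MP_39d40e_nt.Shift

/-! Induction on scales for logarithmic windows. -/

namespace Pool.Agent.Lib.MP_39d40e_nt

open Finset

namespace Sys

variable {S E : Type*} [Fintype S] [Fintype E] [DecidableEq S] [DecidableEq E] {X : Sys S E}

namespace Par

variable (P : X.Par)

noncomputable def mm (v : ℝ) : ℕ := ⌊P.c0 * v ^ 3⌋₊

theorem v8 {v : ℝ} (hv : P.V ≤ v) : 8 ≤ v := P.V8.trans hv

theorem mm_le {v : ℝ} (hv : P.V ≤ v) : (P.mm v : ℝ) ≤ P.c0 * v ^ 3 := by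
  have := P.v8 hv
  have := P.c0_pos
  exact Nat.floor_le (by positivity)

theorem c0v {v : ℝ} (hv : P.V ≤ v) : 2 * v ^ 2 ≤ P.c0 * v ^ 3 := by
  have h1 := P.v8 hv
  have h2 : 2 ≤ P.c0 * v := P.Vc0.trans (mul_le_mul_of_nonneg_left hv P.c0_pos.le)
  nlinarith [sq_nonneg v]

theorem mm_ge {v : ℝ} (hv : P.V ≤ v) : P.c0 * v ^ 3 ≤ 2 * P.mm v := by
  have h1 := P.v8 hv
  have h2 := P.c0v hv
  have h3 : P.c0 * v ^ 3 < P.mm v + 1 := Nat.lt_floor_add_one _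
  nlinarith

theorem mm_ge' {v : ℝ} (hv : P.V ≤ v) : v ^ 2 ≤ P.mm v := by
  have h2 := P.c0v hv
  have h3 := P.mm_ge hv
  linarith

theorem mm_one {v : ℝ} (hv : P.V ≤ v) : 1 ≤ P.mm v := by
  have h1 := P.v8 hv
  have h2 := P.mm_ge' hv
  have : (1 : ℝ) ≤ P.mm v := by nlinarith
  exact_mod_cast this

theorem cond1 {v a : ℝ} (hv : P.V ≤ v) {n : ℕ} (hn : (n : ℝ) ≤ 2 * P.c0 * v ^ 3)
    (ha : Real.exp (v ^ 3) ≤ a) : n * X.cmx * (X.d : ℝ) ^ n ≤ 1 / v * a := by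
  have h1 := P.v8 hv
  have h2 := (P.hpow _ n hn).2
  have h3 : X.cmx ≤ v / 8 := by linarith [P.Vcm]
  have h4 : (n : ℝ) ≤ 2 * v ^ 3 := by
    have : P.c0 * v ^ 3 ≤ 1 * v ^ 3 := mul_le_mul_of_nonneg_right P.c0_le (by positivity)
    linarith
  have h5 := X.cmx_nonneg
  have h6 : Real.exp (v ^ 3) = Real.exp (7 * v ^ 3 / 8) * Real.exp (v ^ 3 / 8) := by
    rw [← Real.exp_add]; congr 1; ring
  have h7 := Real.quadratic_le_exp_of_nonneg (x := 7 * v ^ 3 / 8) (by positivity)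
  have h8 : 2 * v ^ 3 * (v / 8) ≤ 1 / v * Real.exp (7 * v ^ 3 / 8) := by
    rw [one_div_mul_eq_div, le_div_iff₀ (by linarith)]
    have : v ^ 5 * 8 ≤ v ^ 5 * v := by gcongr
    have : 0 ≤ v ^ 3 := by positivity
    nlinarith
  calc n * X.cmx * (X.d : ℝ) ^ n ≤ 2 * v ^ 3 * (v / 8) * Real.exp (v ^ 3 / 8) := by gcongr
    _ ≤ 1 / v * Real.exp (7 * v ^ 3 / 8) * Real.exp (v ^ 3 / 8) := by gcongr
    _ = 1 / v * Real.exp (v ^ 3) := by rw [h6]; ring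
    _ ≤ _ := by gcongr

theorem cond2 {v a : ℝ} (hv : P.V ≤ v) {n k : ℕ} (hn : (n : ℝ) ≤ 2 * P.c0 * v ^ 3)
    (hk : (k : ℝ) ≤ 2 * P.c0 * v ^ 3)
    (ha : Real.exp (v ^ 3) ≤ a) : 2 * ((X.B0 : ℝ) ^ k * (X.d : ℝ) ^ n) ≤ a := by
  have h1 := P.v8 hv
  have h2 := (P.hpow _ n hn).2
  have h3 := (P.hpow _ k hk).1
  have h6 : Real.exp (v ^ 3)
      = Real.exp (3 * v ^ 3 / 4) * (Real.exp (v ^ 3 / 8) * Real.exp (v ^ 3 / 8)) := by
    rw [← Real.exp_add, ← Real.exp_add]; congr 1; ring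
  have h7 := Real.add_one_le_exp (3 * v ^ 3 / 4)
  have h8 : (8 : ℝ) ^ 3 ≤ v ^ 3 := by gcongr
  calc 2 * ((X.B0 : ℝ) ^ k * (X.d : ℝ) ^ n)
      ≤ Real.exp (3 * v ^ 3 / 4) * (Real.exp (v ^ 3 / 8) * Real.exp (v ^ 3 / 8)) := by
        gcongr; linarith
    _ ≤ a := by rw [← h6]; exact ha

theorem powB {v t : ℝ} (hv : P.V ≤ v) {k : ℕ} (hk : (k : ℝ) ≤ 2 * P.c0 * v ^ 3)
    (ht : v ^ 3 / 8 ≤ t) : (X.B0 : ℝ) ^ k ≤ Real.exp t :=
  (P.hpow _ k hk).1.trans (Real.exp_le_exp.2 ht)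

theorem swap (y : ℝ) (K r : ℕ) (hK : 1 ≤ K) (a b : ℝ) (ha : (X.B0 : ℝ) ^ (K + r) ≤ a)
    (hab : a ≤ b) : X.SW y (X.rho (K + r)) a b ≤ X.SW y (X.rho K) a b
      + 2 * (r * P.C / (K : ℝ) ^ 3) * (1 + Real.log (b / a)) := by
  refine (X.SW_swap y _ (X.rho K) (fun s z => |X.rho (K + r) s z - X.rho K s z|)
    (fun s z => by linarith [le_abs_self (X.rho (K + r) s z - X.rho K s z)]) a b).trans ?_
  refine add_le_add_right (X.SW_le y _ (X.B0 ^ (K + r)) (pow_pos X.B0_pos _) ?_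
    (fun _ _ => abs_nonneg _) _ ?_ a b (by exact_mod_cast ha) hab) _
  · intro s z
    rw [X.rho_per, per_of_dvd (X.rho K s) _ _ (X.rho_per K s) (pow_dvd_pow _ (Nat.le_add_right K r))]
  · intro s
    have := P.hmix r K hK (fun _ _ => 1) (fun _ _ => zero_le_one) (fun _ _ => le_rfl) s
    simpa only [W_one] using this

end Par

variable (X)

noncomputable def SL (y : ℝ) (m : ℕ) (t w : ℝ) : ℝ :=
  X.SW y (X.rho m) (Real.exp t) (Real.exp (t + w))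

theorem SL_le (y : ℝ) (m : ℕ) (t w : ℝ) (h : (X.B0 : ℝ) ^ m ≤ Real.exp t) (hw : 0 ≤ w) :
    X.SL y m t w ≤ 2 * (1 + w) := by
  have := X.SW_rho_le y m (Real.exp t) (Real.exp (t + w)) h (Real.exp_le_exp.2 (by linarith))
  rwa [← Real.exp_sub, Real.log_exp, add_sub_cancel_left] at this

theorem SL_split (y : ℝ) (m : ℕ) (t w w' : ℝ) :
    X.SL y m t (w + w') ≤ X.SL y m t w + X.SL y m (t + w) w' := by
  have := X.SW_split y (X.rho_nonneg m) (Real.exp t) (Real.exp (t + w)) (Real.exp (t + w + w'))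
  unfold SL; rwa [← add_assoc]

theorem SL_mul (y : ℝ) (m : ℕ) (t w : ℝ) (k : ℕ) :
    X.SL y m t ((k + 1 : ℕ) * w) ≤ ∑ i ∈ range (k + 1), X.SL y m (t + i * w) w := by
  induction k with
  | zero => simp
  | succ k ih =>
    rw [sum_range_succ]
    have := X.SL_split y m t ((k + 1 : ℕ) * w) w
    have e : ((k + 1 + 1 : ℕ) : ℝ) * w = (k + 1 : ℕ) * w + w := by push_cast; ring
    rw [e]; linarith

variable {X}

namespace Par

variable (P : X.Par)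

theorem stepLog (y : ℝ) {v t' : ℝ} (hv : P.V ≤ v) (ht : v ^ 3 ≤ t') {n : ℕ}
    (hn : (n : ℝ) ≤ P.c0 * v ^ 3) :
    X.SL y (P.mm v) (t' + n * P.β) (v ^ 3) ≤ X.SL y (P.mm v) t' (v ^ 3) + 20 * P.C * v ^ 2 := by
  have h1 := P.v8 hv
  have hm := P.mm_le hv
  have hm2 := P.mm_ge hv
  have hm3 := P.mm_ge' hv
  have hc := P.c0_pos
  have hC := P.C_ge
  have hβ := P.β_pos
  have v3 : 0 < v ^ 3 := by positivity
  have cv : 0 ≤ P.c0 * v ^ 3 := by positivity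
  have v23 : 8 * v ^ 2 ≤ v ^ 3 := by nlinarith [sq_nonneg v]
  have v2 : 64 ≤ v ^ 2 := by nlinarith
  set m := P.mm v
  have hn2 : (n : ℝ) ≤ 2 * P.c0 * v ^ 3 := by linarith
  have hnm : ((n + m : ℕ) : ℝ) ≤ 2 * P.c0 * v ^ 3 := by push_cast; linarith
  have hnβ : 0 ≤ n * P.β := by positivity
  have ha : Real.exp (v ^ 3) ≤ Real.exp (t' + n * P.β) := Real.exp_le_exp.2 (by linarith)
  have key := X.shift1 y m n (Real.exp (t' + n * P.β)) (Real.exp (t' + n * P.β + v ^ 3)) (1 / v)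
    (P.C / v) P.β (v ^ 2) (Real.exp_pos _) (Real.exp_le_exp.2 (by linarith)) (by positivity)
    (by rw [div_le_div_iff₀ (by linarith) (by norm_num)]; linarith) (P.cond1 hv hn2 ha)
    (P.cond2 hv hn2 hnm ha) (P.htail v (by linarith) n hn2)
  have l2 : Real.log 2 ≤ 1 := by linarith [Real.log_two_lt_d9]
  have l2' : 0 ≤ Real.log 2 := Real.log_nonneg (by norm_num)
  have e1 : Real.exp (t' + n * P.β) * Real.exp (-(n * P.β) - v ^ 2) / 2
      = Real.exp (t' - (v ^ 2 + Real.log 2)) := by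
    rw [← Real.exp_add, ← sub_sub, Real.exp_sub (t' - v ^ 2), Real.exp_log (by norm_num)]
    congr 2; ring
  have e2 : 2 * Real.exp (t' + n * P.β + v ^ 3) * Real.exp (-(n * P.β) + v ^ 2)
      = Real.exp (t' - (v ^ 2 + Real.log 2)
        + ((v ^ 2 + Real.log 2) + (v ^ 3 + (v ^ 2 + Real.log 2)))) := by
    rw [mul_assoc, ← Real.exp_add]
    nth_rewrite 1 [← Real.exp_log (show (0 : ℝ) < 2 by norm_num)]
    rw [← Real.exp_add]; congr 1; ring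
  have e3 : Real.log (4 * Real.exp (t' + n * P.β + v ^ 3) / Real.exp (t' + n * P.β))
      = 2 * Real.log 2 + v ^ 3 := by
    rw [mul_div_assoc, ← Real.exp_sub, Real.log_mul (by norm_num) (Real.exp_pos _).ne',
      Real.log_exp, show (4 : ℝ) = 2 ^ 2 by norm_num, Real.log_pow]
    push_cast; ring
  rw [e1, e2, e3] at key
  change X.SL y m (t' + n * P.β) (v ^ 3) ≤ (1 + 1 / v) * (X.SL y (n + m) _ _ + _) at key
  have s1 := X.SL_split y (n + m) (t' - (v ^ 2 + Real.log 2)) (v ^ 2 + Real.log 2)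
    (v ^ 3 + (v ^ 2 + Real.log 2))
  rw [sub_add_cancel] at s1
  have s2 := X.SL_split y (n + m) t' (v ^ 3) (v ^ 2 + Real.log 2)
  have s3 := X.SL_le y (n + m) (t' - (v ^ 2 + Real.log 2)) (v ^ 2 + Real.log 2)
    (P.powB hv hnm (by linarith)) (by positivity)
  have s4 := X.SL_le y (n + m) (t' + v ^ 3) (v ^ 2 + Real.log 2)
    (P.powB hv hnm (by linarith)) (by positivity)
  have s5 := P.swap y m n (P.mm_one hv) (Real.exp t') (Real.exp (t' + v ^ 3))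
    (by rw [add_comm]; exact P.powB hv hnm (by linarith)) (Real.exp_le_exp.2 (by linarith))
  rw [← Real.exp_sub, Real.log_exp, add_sub_cancel_left, add_comm m n] at s5
  change X.SL y (n + m) t' (v ^ 3) ≤ X.SL y m t' (v ^ 3) + _ at s5
  have s6 := X.SL_le y m t' (v ^ 3) (P.powB hv (by linarith) (by linarith)) v3.le
  have s0 : 0 ≤ X.SL y m t' (v ^ 3) := X.SW_nonneg y (X.rho_nonneg m) _ _
  have m0 : (0 : ℝ) < m := by linarith
  have b1 : 2 * (n * P.C / (m : ℝ) ^ 3) * (1 + v ^ 3) ≤ P.C := by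
    have c1 : (n : ℝ) * P.C / (m : ℝ) ^ 3 ≤ 2 * P.C / (v ^ 2) ^ 2 := by
      calc (n : ℝ) * P.C / (m : ℝ) ^ 3 ≤ (2 * m) * P.C / (m : ℝ) ^ 3 := by gcongr; linarith
        _ = 2 * P.C / (m : ℝ) ^ 2 := by field_simp
        _ ≤ _ := by gcongr
    calc _ ≤ 2 * (2 * P.C / (v ^ 2) ^ 2) * (2 * v ^ 3) := by gcongr; linarith
      _ = P.C * (8 / v) := by field_simp; ring
      _ ≤ P.C * 1 := by gcongr; rw [div_le_one (by linarith)]; exact h1
      _ = _ := mul_one _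
  have b2 : 2 * (1 + (2 * Real.log 2 + v ^ 3)) * (P.C / v) ≤ 4 * P.C * v ^ 2 := by
    calc _ ≤ 2 * (2 * v ^ 3) * (P.C / v) := by gcongr; linarith
      _ = _ := by field_simp; ring
  have b3 : P.C ≤ P.C * v ^ 2 := by nlinarith
  have b4 : v ^ 2 ≤ P.C * v ^ 2 := by nlinarith
  have b5 : 1 / v * X.SL y m t' (v ^ 3) ≤ 4 * v ^ 2 := by
    calc _ ≤ 1 / v * (4 * v ^ 3) := by gcongr; linarith
      _ = _ := by field_simp
  have b6 : 1 / v * (13 * P.C * v ^ 2) ≤ 1 / 8 * (13 * P.C * v ^ 2) := by gcongr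
  calc _ ≤ _ := key
    _ ≤ (1 + 1 / v) * (X.SL y m t' (v ^ 3) + 13 * P.C * v ^ 2) := by
        refine mul_le_mul_of_nonneg_left ?_ (by positivity)
        linarith
    _ ≤ _ := by nlinarith

theorem multi (y : ℝ) {v t' : ℝ} (hv : P.V ≤ v) (ht : v ^ 3 ≤ t') {n : ℕ}
    (hn : (n : ℝ) ≤ P.c0 * v ^ 3) (j : ℕ) :
    X.SL y (P.mm v) (t' + j * (n * P.β)) (v ^ 3)
      ≤ X.SL y (P.mm v) t' (v ^ 3) + j * (20 * P.C * v ^ 2) := by
  induction j with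
  | zero => simp
  | succ j ih =>
    have hβ := P.β_pos
    have := P.stepLog y hv (t' := t' + j * (n * P.β)) (by
      have : 0 ≤ j * (n * P.β) := by positivity
      linarith) hn
    have e : t' + (j + 1 : ℕ) * (n * P.β) = t' + j * (n * P.β) + n * P.β := by push_cast; ring
    rw [e]; push_cast; linarith

noncomputable def JJ : ℕ := ⌈14 / (P.c0 * P.β)⌉₊

noncomputable def C2 : ℝ := P.JJ * (20 * P.C) + 2 + 2 * (P.JJ * P.β)

theorem C2_nonneg : 0 ≤ P.C2 := by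
  have := P.C_ge
  have := P.β_pos
  unfold C2; positivity

theorem anyshift (y : ℝ) {v σ : ℝ} (hv : P.V ≤ v) (h0 : 0 ≤ σ) (h1 : σ ≤ 14 * v ^ 3) :
    X.SL y (P.mm v) (v ^ 3 + σ) (v ^ 3) ≤ X.SL y (P.mm v) (v ^ 3) (v ^ 3) + P.C2 * v ^ 2 := by
  have hc := P.c0_pos
  have hβ := P.β_pos
  have hv8 := P.v8 hv
  have hm := P.mm_le hv
  have v3 : 0 < v ^ 3 := by positivity
  have cv : 0 ≤ P.c0 * v ^ 3 := by positivity
  have v2 : 64 ≤ v ^ 2 := by nlinarith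
  have hJ : 14 / (P.c0 * P.β) ≤ P.JJ := Nat.le_ceil _
  have hJ0 : (0 : ℝ) < P.JJ := lt_of_lt_of_le (by positivity) hJ
  rw [div_le_iff₀ (by positivity)] at hJ
  set n := ⌊σ / (P.JJ * P.β)⌋₊ with hn
  have n1 : (n : ℝ) ≤ σ / (P.JJ * P.β) := Nat.floor_le (by positivity)
  have n2 : σ / (P.JJ * P.β) < n + 1 := Nat.lt_floor_add_one _
  rw [le_div_iff₀ (by positivity)] at n1
  rw [div_lt_iff₀ (by positivity)] at n2
  have n3 : (n : ℝ) ≤ P.c0 * v ^ 3 := by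
    have : n * (P.JJ * P.β) ≤ P.c0 * v ^ 3 * (P.JJ * P.β) := by nlinarith
    exact le_of_mul_le_mul_right this (by positivity)
  have k1 := P.multi y hv le_rfl n3 P.JJ
  have k2 := X.SL_split y (P.mm v) (v ^ 3 + P.JJ * (n * P.β)) (v ^ 3) (P.JJ * P.β)
  have p0 : 0 ≤ P.JJ * (n * P.β) := by positivity
  have k3 := X.SL_le y (P.mm v) (v ^ 3 + P.JJ * (n * P.β) + v ^ 3) (P.JJ * P.β)
    (P.powB hv (by linarith) (by linarith)) (by positivity)
  have k4 : X.SL y (P.mm v) (v ^ 3 + σ) (v ^ 3)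
      ≤ X.SL y (P.mm v) (v ^ 3 + P.JJ * (n * P.β)) (v ^ 3 + P.JJ * P.β) :=
    X.SW_mono_win y (X.rho_nonneg _) (Real.exp_le_exp.2 (by nlinarith))
      (Real.exp_le_exp.2 (by nlinarith))
  have p1 : 0 ≤ P.JJ * P.β := by positivity
  unfold C2
  nlinarith

noncomputable def C3 : ℝ := P.C2 + 5 * P.C

theorem C3_nonneg : 0 ≤ P.C3 := by
  have := P.C_ge
  have := P.C2_nonneg
  unfold C3; positivity

theorem scale (y : ℝ) {v : ℝ} (hv : P.V ≤ v) :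
    X.SL y (P.mm (2 * v)) ((2 * v) ^ 3) ((2 * v) ^ 3)
      ≤ 8 * X.SL y (P.mm v) (v ^ 3) (v ^ 3) + 8 * P.C3 * v ^ 2 := by
  have hc := P.c0_pos
  have hC := P.C_ge
  have hv8 := P.v8 hv
  have hv2 : P.V ≤ 2 * v := by linarith
  have hm := P.mm_le hv2
  have hm2 := P.mm_ge hv
  have hm3 := P.mm_ge' hv
  have v3 : 0 < v ^ 3 := by positivity
  have cv : 0 ≤ P.c0 * (2 * v) ^ 3 := by positivity
  have v2 : 64 ≤ v ^ 2 := by nlinarith
  have v23 : 8 * v ^ 2 ≤ v ^ 3 := by nlinarith [sq_nonneg v]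
  have hle : P.mm v ≤ P.mm (2 * v) := Nat.floor_le_floor (by gcongr; linarith)
  obtain ⟨r, hr⟩ := Nat.exists_eq_add_of_le hle
  have e8 : (2 * v) ^ 3 = 8 * v ^ 3 := by ring
  have s5 := P.swap y (P.mm v) r (P.mm_one hv) (Real.exp ((2 * v) ^ 3))
    (Real.exp ((2 * v) ^ 3 + (2 * v) ^ 3))
    (by rw [← hr]; exact P.powB hv2 (by linarith) (by linarith)) (Real.exp_le_exp.2 (by linarith))
  rw [← Real.exp_sub, Real.log_exp, add_sub_cancel_left, ← hr] at s5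
  change X.SL y (P.mm (2 * v)) _ _ ≤ X.SL y (P.mm v) _ _ + _ at s5
  have s6 := X.SL_mul y (P.mm v) ((2 * v) ^ 3) (v ^ 3) 7
  have e9 : ((7 + 1 : ℕ) : ℝ) * v ^ 3 = (2 * v) ^ 3 := by push_cast; ring
  rw [e9] at s6
  have s7 : ∑ i ∈ range (7 + 1), X.SL y (P.mm v) ((2 * v) ^ 3 + i * v ^ 3) (v ^ 3)
      ≤ ∑ i ∈ range (7 + 1), (X.SL y (P.mm v) (v ^ 3) (v ^ 3) + P.C2 * v ^ 2) := by
    refine sum_le_sum fun i hi => ?_
    have hi' : (i : ℝ) ≤ 7 := by exact_mod_cast Nat.lt_succ_iff.1 (mem_range.1 hi)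
    have := P.anyshift y hv (σ := (7 + i) * v ^ 3) (by positivity) (by nlinarith)
    have e : v ^ 3 + (7 + i) * v ^ 3 = (2 * v) ^ 3 + i * v ^ 3 := by ring
    rwa [e] at this
  rw [sum_const, card_range, nsmul_eq_mul] at s7
  have m0 : (0 : ℝ) < P.mm v := by linarith
  have r1 : (r : ℝ) ≤ 16 * P.mm v := by
    have : (P.mm (2 * v) : ℝ) = P.mm v + r := by rw [hr]; push_cast; ring
    rw [e8] at hm; nlinarith
  have b1 : 2 * (r * P.C / (P.mm v : ℝ) ^ 3) * (1 + (2 * v) ^ 3) ≤ 40 * P.C := by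
    have c1 : (r : ℝ) * P.C / (P.mm v : ℝ) ^ 3 ≤ 16 * P.C / (v ^ 2) ^ 2 := by
      calc (r : ℝ) * P.C / (P.mm v : ℝ) ^ 3 ≤ (16 * P.mm v) * P.C / (P.mm v : ℝ) ^ 3 := by gcongr
        _ = 16 * P.C / (P.mm v : ℝ) ^ 2 := by field_simp
        _ ≤ _ := by gcongr
    calc _ ≤ 2 * (16 * P.C / (v ^ 2) ^ 2) * (10 * v ^ 3) := by gcongr; linarith
      _ = 40 * P.C * (8 / v) := by field_simp; ring
      _ ≤ 40 * P.C * 1 := by gcongr; rw [div_le_one (by linarith)]; exact hv8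
      _ = _ := mul_one _
  have b3 : P.C ≤ P.C * v ^ 2 := by nlinarith
  unfold C3
  push_cast at s7
  nlinarith

theorem allscales (y : ℝ) {v0 : ℝ} (hv0 : P.V ≤ v0) (hy : Real.exp (16 * v0 ^ 3) ≤ y) (k : ℕ) :
    ∀ v, v0 ≤ v → v ≤ 2 ^ (k + 1) * v0 →
      X.SL y (P.mm v) (v ^ 3) (v ^ 3) ≤ v ^ 3 * (2 * P.C3 / v0 - 2 * P.C3 / v) := by
  have h8 := P.v8 hv0
  have hC := P.C3_nonneg
  have base : ∀ v, v0 ≤ v → v ≤ 2 * v0 →
      X.SL y (P.mm v) (v ^ 3) (v ^ 3) ≤ v ^ 3 * (2 * P.C3 / v0 - 2 * P.C3 / v) := by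
    intro v h1 h2
    have h3 : v ^ 3 ≤ (2 * v0) ^ 3 := by gcongr; linarith
    rw [SL, X.SW_empty y _ _ _ (le_trans (Real.exp_le_exp.2 (by nlinarith)) hy)]
    have : 2 * P.C3 / v ≤ 2 * P.C3 / v0 := by gcongr
    have : 0 ≤ v := by linarith
    exact mul_nonneg (by positivity) (by linarith)
  induction k with
  | zero => intro v h1 h2; exact base v h1 (by simpa using h2)
  | succ k ih =>
    intro v h1 h2
    by_cases h : v ≤ 2 * v0
    · exact base v h1 h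
    · obtain ⟨w, rfl⟩ : ∃ w, v = 2 * w := ⟨v / 2, by ring⟩
      have w1 : v0 ≤ w := by linarith
      have i1 := ih w w1 (by rw [pow_succ] at h2; linarith)
      have i2 := P.scale y (hv0.trans w1)
      have w0 : 0 < w := by linarith
      have e : (2 * w) ^ 3 * (2 * P.C3 / v0 - 2 * P.C3 / (2 * w))
          = 8 * (w ^ 3 * (2 * P.C3 / v0 - 2 * P.C3 / w)) + 8 * P.C3 * w ^ 2 := by
        field_simp; ring
      rw [e]; linarith

theorem allscales' (y : ℝ) {v0 : ℝ} (hv0 : P.V ≤ v0) (hy : Real.exp (16 * v0 ^ 3) ≤ y) {v : ℝ}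
    (hv : v0 ≤ v) : X.SL y (P.mm v) (v ^ 3) (v ^ 3) ≤ v ^ 3 * (2 * P.C3 / v0) := by
  have h8 := P.v8 hv0
  have hC := P.C3_nonneg
  obtain ⟨k, hk⟩ := pow_unbounded_of_one_lt v (show (1 : ℝ) < 2 by norm_num)
  have h1 := P.allscales y hv0 hy k v hv (by
    rw [pow_succ]
    have : (0 : ℝ) < 2 ^ k := by positivity
    nlinarith)
  have : 0 < v := by linarith
  refine h1.trans (mul_le_mul_of_nonneg_left (sub_le_self _ (by positivity)) (by positivity))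

end Par

end Sys

end Pool.Agent.Lib.MP_39d40e_nt
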