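import Pool.Agent.Lib.MP_39d40e_nt.Push

/-! Window sums: elementary bounds and the one step shift. -/

namespace Pool.Agent.Lib.MP_39d40e_nt

open Finset

namespace Sys

variable {S E : Type*} [Fintype S] [Fintype E] [DecidableEq S] [DecidableEq E] (X : Sys S E)

omit [DecidableEq E] in
theorem term_nonneg (y : ℝ) (s : S) (z : ℤ) {a : ℝ} (h : 0 ≤ a) :
    0 ≤ X.ind y s z * a / |(z : ℝ)| :=
  div_nonneg (mul_nonneg (X.ind_nonneg y s z) h) (abs_nonneg _)

omit [DecidableEq E] in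
theorem SW_nonneg (y : ℝ) {g : S → ℤ → ℝ} (hg : ∀ s z, 0 ≤ g s z) (a b : ℝ) : 0 ≤ X.SW y g a b :=
  sum_nonneg fun s _ => mul_nonneg (X.π_pos s).le
    (sum_nonneg fun z _ => X.term_nonneg y s z (hg s z))

omit [DecidableEq E] in
theorem SW_mono_win (y : ℝ) {g : S → ℤ → ℝ} (hg : ∀ s z, 0 ≤ g s z) {a b a' b' : ℝ}
    (ha : a' ≤ a) (hb : b ≤ b') : X.SW y g a b ≤ X.SW y g a' b' := by
  refine sum_le_sum fun s _ => mul_le_mul_of_nonneg_left ?_ (X.π_pos s).le
  refine sum_le_sum_of_subset_of_nonneg (fun z hz => ?_) fun z _ _ => X.term_nonneg y s z (hg s z)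
  rw [mem_win] at hz ⊢
  exact ⟨ha.trans hz.1, hz.2.trans_le hb⟩

omit [DecidableEq E] in
theorem SW_split (y : ℝ) {g : S → ℤ → ℝ} (hg : ∀ s z, 0 ≤ g s z) (a b c : ℝ) :
    X.SW y g a c ≤ X.SW y g a b + X.SW y g b c := by
  classical
  unfold SW
  rw [← sum_add_distrib]
  refine sum_le_sum fun s _ => ?_
  rw [← mul_add]
  refine mul_le_mul_of_nonneg_left ?_ (X.π_pos s).le
  rw [← sum_union_inter]
  refine le_add_of_le_of_nonneg ?_ (sum_nonneg fun z _ => X.term_nonneg y s z (hg s z))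
  refine sum_le_sum_of_subset_of_nonneg (fun z hz => ?_) fun z _ _ => X.term_nonneg y s z (hg s z)
  rw [mem_union, mem_win, mem_win]
  rw [mem_win] at hz
  by_cases h : |(z : ℝ)| < b
  · exact Or.inl ⟨hz.1, h⟩
  · exact Or.inr ⟨not_lt.1 h, hz.2⟩

omit [DecidableEq E] in
theorem sum_ind_le (y : ℝ) (s : S) (F : ℤ → ℝ) (Q : ℕ) (hQ : 0 < Q) (hF : ∀ z, F (z + Q) = F z)
    (h0 : ∀ z, 0 ≤ F z) (μ : ℝ) (hμ : ∑ z ∈ range Q, F z ≤ μ * Q) (a b : ℝ) (ha : (Q : ℝ) ≤ a)
    (hab : a ≤ b) :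
    ∑ z ∈ win a b, X.ind y s z * F z / |(z : ℝ)| ≤ 2 * μ * (1 + Real.log (b / a)) := by
  refine le_trans (sum_le_sum fun z _ => ?_) (win_sum F Q hQ hF h0 μ hμ a b ha hab)
  exact div_le_div_of_nonneg_right (mul_le_of_le_one_left (h0 z) (X.ind_le y s z)) (abs_nonneg _)

omit [DecidableEq E] in
theorem sum_π_le {F : S → ℝ} {a : ℝ} (h : ∀ s, F s ≤ a) : ∑ s, X.π s * F s ≤ a := by
  calc _ ≤ ∑ s, X.π s * a := sum_le_sum fun s _ => mul_le_mul_of_nonneg_left (h s) (X.π_pos s).le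
    _ = a := by rw [← sum_mul, X.π_sum, one_mul]

omit [DecidableEq E] in
theorem SW_le (y : ℝ) (g : S → ℤ → ℝ) (Q : ℕ) (hQ : 0 < Q) (hF : ∀ s z, g s (z + Q) = g s z)
    (h0 : ∀ s z, 0 ≤ g s z) (μ : ℝ) (hμ : ∀ s, ∑ z ∈ range Q, g s z ≤ μ * Q) (a b : ℝ)
    (ha : (Q : ℝ) ≤ a) (hab : a ≤ b) : X.SW y g a b ≤ 2 * μ * (1 + Real.log (b / a)) :=
  X.sum_π_le fun s => X.sum_ind_le y s (g s) Q hQ (hF s) (h0 s) μ (hμ s) a b ha hab

theorem SW_rho_le (y : ℝ) (m : ℕ) (a b : ℝ) (ha : (X.B0 : ℝ) ^ m ≤ a) (hab : a ≤ b) :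
    X.SW y (X.rho m) a b ≤ 2 * (1 + Real.log (b / a)) := by
  have := X.SW_le y (X.rho m) (X.B0 ^ m) (pow_pos X.B0_pos _) (X.rho_per m) (X.rho_nonneg m) 1
    (fun s => by rw [rho_sum]; simp) a b (by exact_mod_cast ha) hab
  simpa using this

omit [DecidableEq E] in
theorem SW_swap (y : ℝ) (g g' h : S → ℤ → ℝ) (hh : ∀ s z, g s z ≤ g' s z + h s z) (a b : ℝ) :
    X.SW y g a b ≤ X.SW y g' a b + X.SW y h a b := by
  unfold SW
  rw [← sum_add_distrib]
  refine sum_le_sum fun s _ => ?_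
  rw [← mul_add, ← sum_add_distrib]
  refine mul_le_mul_of_nonneg_left (sum_le_sum fun z _ => ?_) (X.π_pos s).le
  rw [← add_div, ← mul_add]
  exact div_le_div_of_nonneg_right (mul_le_mul_of_nonneg_left (hh s z) (X.ind_nonneg y s z))
    (abs_nonneg _)

omit [DecidableEq E] in
theorem SW_empty (y : ℝ) (g : S → ℤ → ℝ) (a b : ℝ) (hb : b ≤ y) : X.SW y g a b = 0 := by
  refine sum_eq_zero fun s _ => ?_
  rw [sum_eq_zero, mul_zero]
  intro z hz
  have : X.ind y s z = 0 := by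
    unfold ind; rw [if_neg]
    intro h
    have h1 := h 0
    have h2 := (mem_win.1 hz).2
    simp only [Function.iterate_zero, id] at h1
    linarith
  rw [this]; simp

open Classical in
theorem push2 (y : ℝ) (m n : ℕ) (a b θ ε : ℝ) (Typ : List E → Prop) (ha : 0 < a) (hab : a ≤ b)
    (hθ0 : 0 ≤ θ) (hθ : θ ≤ 1 / 2) (h : n * X.cmx * (X.d : ℝ) ^ n ≤ θ * a)
    (h2 : 2 * ((X.B0 : ℝ) ^ (n + m) * (X.d : ℝ) ^ n) ≤ a)
    (hε : ∀ s, X.Pr n s (fun l => ¬ Typ l) ≤ ε) :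
    X.SW y (X.rho m) a b ≤ (1 + θ) * ((∑ s, X.π s * X.Ex n s fun l =>
      if Typ l then ∑ z ∈ win (X.rr l * a / 2) (2 * X.rr l * b),
        X.ind y s z * X.pull l z (X.rho m (X.endp s l)) / |(z : ℝ)| else 0)
      + 2 * (1 + Real.log (4 * b / a)) * ε) := by
  refine (X.push y (X.rho m) (X.rho_nonneg m) n a b θ ha hθ0 hθ h).trans ?_
  refine mul_le_mul_of_nonneg_left ?_ (by linarith)
  have hL : 0 ≤ 2 * (1 + Real.log (4 * b / a)) := by
    have : 0 ≤ Real.log (4 * b / a) := Real.log_nonneg (by rw [le_div_iff₀ ha]; linarith)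
    linarith
  have e : 2 * (1 + Real.log (4 * b / a)) * ε
      = ∑ s, X.π s * (2 * (1 + Real.log (4 * b / a)) * ε) := by
    rw [← sum_mul, X.π_sum, one_mul]
  rw [e, ← sum_add_distrib]
  refine sum_le_sum fun s _ => ?_
  rw [← mul_add]
  refine mul_le_mul_of_nonneg_left ?_ (X.π_pos s).le
  refine le_trans ?_ (add_le_add_right (mul_le_mul_of_nonneg_left (hε s) hL) _)
  rw [Pr, ← Ex_const_mul, ← Ex_add]
  refine X.Ex_mono fun l hl => ?_
  by_cases ht : Typ l
  · simp [ht]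
  · simp only [ht, if_false, not_false_eq_true, if_true, zero_add, mul_one]
    have hlen := X.length_of_mem_Paths hl
    have hr := X.rr_pos l
    have hr2 := X.rr_ge l
    rw [hlen] at hr2
    have hd : (0 : ℝ) < (X.d : ℝ) ^ n := pow_pos (by exact_mod_cast X.d_pos) _
    have := X.sum_ind_le y s (fun z => X.pull l z (X.rho m (X.endp s l))) (X.B0 ^ (n + m))
      (pow_pos X.B0_pos _) (fun z => by
        have := X.pull_per l m (X.rho_per m (X.endp s l)) z
        rwa [hlen] at this) (fun z => X.pull_nonneg l z (X.rho_nonneg m _)) 1 (by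
        have := X.pull_sum l m (X.rho_per m (X.endp s l))
        rw [hlen, rho_sum] at this
        rw [this]; push_cast; rw [pow_add, one_mul])
      (X.rr l * a / 2) (2 * X.rr l * b) (by
        push_cast
        rw [div_le_iff₀ hd] at hr2
        have hB : (0 : ℝ) ≤ (X.B0 : ℝ) ^ (n + m) := by positivity
        nlinarith [mul_le_mul_of_nonneg_left h2 hr.le, mul_le_mul_of_nonneg_left hr2 hB])
      (by nlinarith [mul_le_mul_of_nonneg_left hab hr.le, mul_pos hr ha])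
    refine this.trans (le_of_eq ?_)
    congr 3
    · ring
    · field_simp; ring

theorem shift1 (y : ℝ) (m n : ℕ) (a b θ ε β Δ : ℝ) (ha : 0 < a) (hab : a ≤ b)
    (hθ0 : 0 ≤ θ) (hθ : θ ≤ 1 / 2) (h : n * X.cmx * (X.d : ℝ) ^ n ≤ θ * a)
    (h2 : 2 * ((X.B0 : ℝ) ^ (n + m) * (X.d : ℝ) ^ n) ≤ a)
    (hε : ∀ s, X.Pr n s (fun l => ¬ |Real.log (X.rr l) + n * β| < Δ) ≤ ε) :
    X.SW y (X.rho m) a b ≤ (1 + θ) *
      (X.SW y (X.rho (n + m)) (a * Real.exp (-(n * β) - Δ) / 2) (2 * b * Real.exp (-(n * β) + Δ))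
      + 2 * (1 + Real.log (4 * b / a)) * ε) := by
  classical
  refine (X.push2 y m n a b θ ε _ ha hab hθ0 hθ h h2 hε).trans ?_
  refine mul_le_mul_of_nonneg_left (add_le_add_left ?_ _) (by linarith)
  refine sum_le_sum fun s _ => mul_le_mul_of_nonneg_left ?_ (X.π_pos s).le
  have e : ∀ z : ℤ, X.ind y s z * X.rho (n + m) s z / |(z : ℝ)|
      = X.Ex n s fun l => X.ind y s z * X.pull l z (X.rho m (X.endp s l)) / |(z : ℝ)| := by
    intro z
    rw [rho_add, ← Ex_const_mul, div_eq_mul_inv, ← Ex_mul_const]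
    simp only [div_eq_mul_inv]
  simp only [e]
  rw [sum_Ex]
  refine X.Ex_mono fun l _ => ?_
  have hn : ∀ z : ℤ, 0 ≤ X.ind y s z * X.pull l z (X.rho m (X.endp s l)) / |(z : ℝ)| :=
    fun z => X.term_nonneg y s z (X.pull_nonneg l z (X.rho_nonneg m _))
  split_ifs with ht
  · refine sum_le_sum_of_subset_of_nonneg (fun z hz => ?_) fun z _ _ => hn z
    rw [mem_win] at hz ⊢
    rw [abs_lt] at ht
    have hr := X.rr_pos l
    have k1 : Real.exp (-(n * β) - Δ) ≤ X.rr l := by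
      rw [← Real.exp_log hr]; exact Real.exp_le_exp.2 (by linarith)
    have k2 : X.rr l ≤ Real.exp (-(n * β) + Δ) := by
      rw [← Real.exp_log hr]; exact Real.exp_le_exp.2 (by linarith)
    constructor
    · nlinarith [mul_le_mul_of_nonneg_left k1 ha.le]
    · nlinarith [mul_le_mul_of_nonneg_left k2 (ha.le.trans hab)]
  · exact sum_nonneg fun z _ => hn z

/-- the constants used in the transport argument -/
structure Par where
  c0 : ℝ
  β : ℝ
  C : ℝ
  V : ℝ
  c0_pos : 0 < c0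
  c0_le : c0 ≤ 1
  β_pos : 0 < β
  C_ge : 1 ≤ C
  c0β : c0 * β ≤ 1 / 8
  V8 : 8 ≤ V
  Vcm : 8 * X.cmx ≤ V
  Vc0 : 2 ≤ c0 * V
  hpow : ∀ (t : ℝ) (k : ℕ), (k : ℝ) ≤ 2 * c0 * t →
    (X.B0 : ℝ) ^ k ≤ Real.exp (t / 8) ∧ (X.d : ℝ) ^ k ≤ Real.exp (t / 8)
  htail : ∀ v : ℝ, 1 ≤ v → ∀ n : ℕ, (n : ℝ) ≤ 2 * c0 * v ^ 3 → ∀ s,
    X.Pr n s (fun l => ¬ |Real.log (X.rr l) + n * β| < v ^ 2) ≤ C / v
  hmix : ∀ (r m : ℕ), 1 ≤ m → ∀ (G : ℤ → ℕ → ℝ), (∀ M D, 0 ≤ G M D) → (∀ M D, G M D ≤ 1) → ∀ s,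
    ∑ z ∈ range (X.B0 ^ (m + r)), |X.W (m + r) 0 G s z - X.W m r G s z|
      ≤ r * C / (m : ℝ) ^ 3 * (X.B0 ^ (m + r) : ℕ)
  hren : ∀ (J : ℕ) (s : S) (x : ℝ), 0 < x →
    ∑ j ∈ range J, X.Pr j s (fun l => x ≤ X.rr l ∧ X.rr l ≤ 32 * x) ≤ C

omit [Fintype S] [Fintype E] [DecidableEq S] [DecidableEq E] in
theorem addi_log : Addi fun M D => Real.log (|(M : ℝ)| / D) := by
  intro M M' D D' h1 h2 h3 h4
  have k1 : (0 : ℝ) < |(M : ℝ)| := abs_pos.2 (by exact_mod_cast h1)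
  have k2 : (0 : ℝ) < |(M' : ℝ)| := abs_pos.2 (by exact_mod_cast h2)
  have k3 : (0 : ℝ) < D := by exact_mod_cast Nat.pos_of_ne_zero h3
  have k4 : (0 : ℝ) < D' := by exact_mod_cast Nat.pos_of_ne_zero h4
  simp only
  rw [← Real.log_mul (by positivity) (by positivity)]
  congr 1; push_cast; rw [abs_mul, div_mul_div_comm]

theorem renewal (a : ℕ → ℝ) (K : ℝ) (hK : ∀ J, ∑ j ∈ range J, a j ≤ K)
    (ha : ∀ j s, X.Pr j s (fun l => 1 / 32 ≤ X.rr l) ≤ a j) (J : ℕ) :
    ∀ (s : S) (x : ℝ), 0 < x →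
      ∑ j ∈ range J, X.Pr j s (fun l => x ≤ X.rr l ∧ X.rr l ≤ 32 * x) ≤ K := by
  classical
  induction J with
  | zero => intro s x _; simpa using hK 0
  | succ J ih =>
    intro s x hx
    by_cases h : x ≤ 1 ∧ 1 ≤ 32 * x
    · refine le_trans (sum_le_sum fun j _ => le_trans (X.Pr_mono fun l _ hl => ?_) (ha j s))
        (hK (J + 1))
      linarith [hl.1, h.2]
    · rw [sum_range_succ']
      have e0 : X.Pr 0 s (fun l => x ≤ X.rr l ∧ X.rr l ≤ 32 * x) = 0 := by
        simp [Pr, Ex, Paths, rr, h]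
      rw [e0, add_zero]
      have e1 : ∀ j, X.Pr (j + 1) s (fun l => x ≤ X.rr l ∧ X.rr l ≤ 32 * x)
          = ∑ e ∈ X.into s, X.q e * X.Pr j (X.src e)
            (fun l => x / X.rr [e] ≤ X.rr l ∧ X.rr l ≤ 32 * (x / X.rr [e])) := by
        intro j
        unfold Pr
        rw [Ex_succ]
        refine sum_congr rfl fun e _ => ?_
        congr 2; funext l
        have hr := X.rr_pos [e]
        have : X.rr (e :: l) = X.rr [e] * X.rr l := X.rr_append [e] l
        have h' : (x ≤ X.rr (e :: l) ∧ X.rr (e :: l) ≤ 32 * x) ↔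
            (x / X.rr [e] ≤ X.rr l ∧ X.rr l ≤ 32 * (x / X.rr [e])) := by
          rw [this, div_le_iff₀ hr, ← mul_div_assoc, le_div_iff₀ hr, mul_comm (X.rr l)]
        split_ifs with p1 p2 p2
        · rfl
        · exact absurd (h'.1 p1) p2
        · exact absurd (h'.2 p2) p1
        · rfl
      simp only [e1]
      rw [sum_comm]
      calc _ ≤ ∑ e ∈ X.into s, X.q e * K := by
            refine sum_le_sum fun e _ => ?_
            rw [← mul_sum]
            exact mul_le_mul_of_nonneg_left (ih _ _ (div_pos hx (X.rr_pos _))) (X.q_pos e).le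
        _ = K := by rw [← sum_mul, sum_q, one_mul]

theorem exists_par (hG : X.Good) (hM : X.Mix) : Nonempty X.Par := by
  obtain ⟨C1, hC1, htail⟩ := X.tail (hG.poisson _ addi_log)
  obtain ⟨C2, hC2, hmix⟩ := X.mixW hM 3
  have hdr := hG.drift
  set β := -X.mean (fun e => Real.log (|(X.b e : ℝ)| / X.D e)) with hβ
  have hβ0 : 0 < β := by linarith
  have hsum : ∀ l : List E, (l.map fun e => Real.log (|(X.b e : ℝ)| / X.D e)).sum
      = Real.log (X.rr l) := fun l => Addi.sum_map X addi_log l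
  have hmean : X.mean (fun e => Real.log (|(X.b e : ℝ)| / X.D e)) = -β := by rw [hβ, neg_neg]
  simp only [hsum, hmean] at htail
  have hB1 : (1 : ℝ) ≤ X.B0 := by exact_mod_cast X.B0_pos
  have hd1 : (1 : ℝ) ≤ X.d := by exact_mod_cast X.d_pos
  have l1 := Real.log_nonneg hB1
  have l2 := Real.log_nonneg hd1
  set L := Real.log X.B0 + Real.log X.d + 1 with hL
  have hL1 : 1 ≤ L := by linarith
  set c0 := min (1 / (16 * L)) (min (1 / (4 * C1)) (1 / (8 * β))) with hc0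
  have c0p : 0 < c0 := by positivity
  have a1 : c0 ≤ 1 / (16 * L) := min_le_left _ _
  have a2 : c0 ≤ 1 / (4 * C1) := (min_le_right _ _).trans (min_le_left _ _)
  have a3 : c0 ≤ 1 / (8 * β) := (min_le_right _ _).trans (min_le_right _ _)
  rw [le_div_iff₀ (by positivity)] at a1 a2 a3
  set τ := min 1 (β / (2 * C1)) with hτ
  have τp : 0 < τ := by positivity
  have τ1 : τ ≤ 1 := min_le_left _ _
  have τ2 : τ ≤ β / (2 * C1) := min_le_right _ _
  rw [le_div_iff₀ (by positivity)] at τ2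
  set ρ := Real.exp (-(τ * β / 2)) with hρ
  have ρ0 : 0 ≤ ρ := (Real.exp_pos _).le
  have ρ1 : ρ < 1 := Real.exp_lt_one_iff.2 (by have := mul_pos τp hβ0; linarith)
  have hcm := X.cmx_nonneg
  have hK : 0 ≤ C1 * Real.exp 4 * (1 - ρ)⁻¹ := by
    have : 0 < 1 - ρ := by linarith
    positivity
  refine ⟨⟨c0, β, 4 * C1 + C2 + C1 * Real.exp 4 * (1 - ρ)⁻¹, 8 + 8 * X.cmx + 2 / c0, c0p,
    by nlinarith, hβ0, by linarith, by linarith, ?_, ?_, ?_, ?_, ?_, ?_, ?_⟩⟩
  · have : 0 < 2 / c0 := by positivity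
    linarith
  · have : 0 < 2 / c0 := by positivity
    linarith
  · have : c0 * (2 / c0) = 2 := by field_simp
    nlinarith
  · intro t k hk
    have key : ∀ x : ℝ, 1 ≤ x → Real.log x ≤ L → x ^ k ≤ Real.exp (t / 8) := by
      intro x hx hxL
      rw [← Real.exp_log (by linarith : 0 < x), ← Real.exp_nat_mul]
      apply Real.exp_le_exp.2
      have k0 : (0 : ℝ) ≤ k := Nat.cast_nonneg _
      have ht : 0 ≤ t := by
        by_contra h
        have : 2 * c0 * t < 0 := mul_neg_of_pos_of_neg (by positivity) (not_le.1 h)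
        linarith
      calc k * Real.log x ≤ (2 * c0 * t) * L :=
            mul_le_mul hk hxL (Real.log_nonneg hx) (by positivity)
        _ ≤ t / 8 := by nlinarith
    exact ⟨key _ hB1 (by linarith), key _ hd1 (by linarith)⟩
  · intro v hv n hn s
    have hv0 : 0 < v := by linarith
    obtain ⟨t1, t2⟩ := htail (1 / v) (by positivity) (by rw [div_le_one hv0]; exact hv) n s (v ^ 2)
    have hexp : Real.exp (C1 * (1 / v) ^ 2 * n - 1 / v * v ^ 2) ≤ 2 / v := by
      have b1 : C1 * (1 / v) ^ 2 * n - 1 / v * v ^ 2 ≤ -(v / 2) := by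
        have b2 : C1 * (1 / v) ^ 2 * n ≤ C1 * (1 / v) ^ 2 * (2 * c0 * v ^ 3) := by gcongr
        have b3 : C1 * (1 / v) ^ 2 * (2 * c0 * v ^ 3) = 2 * (c0 * C1) * v := by field_simp
        have b4 : 1 / v * v ^ 2 = v := by field_simp
        nlinarith
      refine (Real.exp_le_exp.2 b1).trans ?_
      rw [Real.exp_neg, inv_eq_one_div, div_le_div_iff₀ (Real.exp_pos _) hv0]
      have := Real.add_one_le_exp (v / 2)
      linarith
    calc _ ≤ X.Pr n s (fun l => v ^ 2 ≤ Real.log (X.rr l) - n * -β ∨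
            Real.log (X.rr l) - n * -β ≤ -v ^ 2) := by
          refine X.Pr_mono fun l _ hl => ?_
          rw [abs_lt, not_and_or, not_lt, not_lt] at hl
          rcases hl with hl | hl
          · right; linarith
          · left; linarith
      _ ≤ C1 * (2 / v) + C1 * (2 / v) := by
          refine (X.Pr_or _ _ _ _).trans (add_le_add (t1.trans ?_) (t2.trans ?_)) <;> gcongr
      _ = 4 * C1 / v := by ring
      _ ≤ _ := by gcongr; linarith
  · intro r m hm G h0 h1 s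
    refine (hmix r m hm G h0 h1 s).trans ?_
    gcongr; linarith
  · intro J s x hx
    refine (X.renewal (fun j => C1 * Real.exp 4 * ρ ^ j) (C1 * Real.exp 4 * (1 - ρ)⁻¹) ?_ ?_ J s x
      hx).trans (by linarith)
    · intro J
      rw [← mul_sum]
      refine mul_le_mul_of_nonneg_left ?_ (by positivity)
      rw [← tsum_geometric_of_lt_one ρ0 ρ1]
      exact (summable_geometric_of_lt_one ρ0 ρ1).sum_le_tsum _ fun i _ => pow_nonneg ρ0 i
    · intro j s
      have t1 := (htail τ τp.le τ1 j s (j * β - 4)).1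
      refine le_trans (X.Pr_mono fun l _ hl => ?_) (t1.trans ?_)
      · have b1 : Real.log (1 / 32) ≤ Real.log (X.rr l) := Real.log_le_log (by norm_num) hl
        have b2 : -4 ≤ Real.log (1 / 32) := by
          rw [Real.le_log_iff_exp_le (by norm_num), Real.exp_neg, inv_eq_one_div]
          apply one_div_le_one_div_of_le (by norm_num)
          have := Real.add_one_le_exp (1 : ℝ)
          have h4 : Real.exp 4 = Real.exp 1 ^ 4 := by rw [← Real.exp_nat_mul]; norm_num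
          have := Real.exp_one_gt_d9
          rw [h4]
          calc (32 : ℝ) ≤ 2.7 ^ 4 := by norm_num
            _ ≤ _ := by gcongr; linarith
        linarith
      · rw [mul_assoc C1 (Real.exp 4), hρ, ← Real.exp_nat_mul, ← Real.exp_add]
        refine mul_le_mul_of_nonneg_left (Real.exp_le_exp.2 ?_) (by linarith)
        have j0 : (0 : ℝ) ≤ j := Nat.cast_nonneg _
        have : C1 * τ ^ 2 * j ≤ τ * β / 2 * j := by
          refine mul_le_mul_of_nonneg_right ?_ j0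
          nlinarith
        nlinarith

end Sys

end Pool.Agent.Lib.MP_39d40e_nt
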