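import Pool.Agent.Lib.MP_39d40e_nt.Bd1

/-! Normal law of entry times: definitions and the statements of the parts. -/

namespace Pool.Agent.Lib.MP_39d40e_nt

open Finset Filter Topology

namespace Sys

variable {S E : Type} [Fintype S] [Fintype E] [DecidableEq S] [DecidableEq E] (X : Sys S E)
  {ι : Type}

/-- a family of functions with values in the unit interval, carried along by the dynamics away
from a bounded set -/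
def Fam (χ : ι → S × ℤ → ℝ) (nx : ι → ι) (R : ℝ) : Prop :=
  (∀ k x, 0 ≤ χ k x) ∧ (∀ k x, χ k x ≤ 1) ∧
    ∀ k (x : S × ℤ), R < |(x.2 : ℝ)| → χ (nx k) (X.step x) = χ k x

/-- independence of residue classes, uniformly in the family -/
def Eq1 (χ : ι → S × ℤ → ℝ) : Prop := ∀ (h : ℝ → ℝ) (a L : ℝ), Bd.Ker h a L → ∃ C t0 : ℝ,
  ∀ (k : ι) (s : S) (g : ℤ → ℝ), (∀ x, g (x + X.B0) = g x) → ∑ x ∈ range X.B0, g x = 0 →
    (∀ x, |g x| ≤ 1) → ∀ t, t0 ≤ t →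
      |Bd.F h (fun u => χ k (s, u) * g u) (Real.exp t)| ≤ C / t ^ 2

/-- the approximate harmonic equation, uniformly in the family -/
def Harm1 (χ : ι → S × ℤ → ℝ) (nx : ι → ι) : Prop :=
  ∀ (h : ℝ → ℝ) (a L : ℝ), Bd.Ker h a L → ∃ C t0 : ℝ, ∀ (k : ι) (s : S) (t : ℝ), t0 ≤ t →
    |X.π s * Bd.F h (fun u => χ k (s, u)) (Real.exp t) - ∑ e with X.src e = s,
      X.π (X.src e) / X.D e * Bd.F h (fun u => χ (nx k) (X.tgt e, u))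
        (Real.exp (t + Real.log (|(X.b e : ℝ)| / X.D e)))| ≤ C / t ^ 2

/-- logarithmic ratio of an edge -/
noncomputable def lg (e : E) : ℝ := Real.log (|(X.b e : ℝ)| / X.D e)

/-- `τ` counts steps on the support of the invariant function `χ`, away from a bounded set -/
def Clock (χ τ : S × ℤ → ℝ) (R : ℝ) : Prop :=
  (∀ x, 0 ≤ χ x) ∧ (∀ x, χ x ≤ 1) ∧ ∀ x : S × ℤ, R < |(x.2 : ℝ)| →
    χ (X.step x) = χ x ∧ (χ x ≠ 0 → τ x = τ (X.step x) + 1)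

end Sys

namespace St

/-- EQ for families -/
def EqFSt : Prop := ∀ (S E ι : Type) [Fintype S] [Fintype E] [DecidableEq S] [DecidableEq E]
  (X : Sys S E) (χ : ι → S × ℤ → ℝ) (nx : ι → ι) (R : ℝ), X.Fam χ nx R → X.Mix → X.Eq1 χ

/-- H for families -/
def HarmFSt : Prop := ∀ (S E ι : Type) [Fintype S] [Fintype E] [DecidableEq S] [DecidableEq E]
  (X : Sys S E) (χ : ι → S × ℤ → ℝ) (nx : ι → ι) (R : ℝ), X.Fam χ nx R →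
  ∀ L : ℕ, 1 ≤ L → (X.pow L).Eq1 χ → X.Harm1 χ nx

/-- EQ and H together -/
def HarmAll : Prop := ∀ (S E ι : Type) [Fintype S] [Fintype E] [DecidableEq S] [DecidableEq E]
  (X : Sys S E), X.Irred → X.Neg → ∀ (s0 : S) (g : List E), X.Pa s0 g s0 → 1 < X.rr g →
  ∀ (χ : ι → S × ℤ → ℝ) (nx : ι → ι) (R : ℝ), X.Fam χ nx R → X.Harm1 χ nx

/-- the two Poisson equations of the forward chain, with positive variance -/
def ConstSt : Prop := ∀ (S E : Type) [Fintype S] [Fintype E] [DecidableEq S] [DecidableEq E]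
  (X : Sys S E), X.Irred → X.Neg → ∀ (s0 : S) (l : List E), X.Pa s0 l s0 → 1 < X.rr l →
  ∀ β : ℝ, β = -X.mean X.lg → ∃ (g u : S → ℝ) (c : ℝ), 0 < c ∧
    (∀ s, ∑ e with X.src e = s, 1 / (X.D e : ℝ) * (X.lg e + g (X.tgt e)) = g s - β) ∧
    ∀ s, ∑ e with X.src e = s, 1 / (X.D e : ℝ) *
      (u (X.tgt e) - c * X.lg e - (X.lg e + g (X.tgt e) - g (X.src e) + β) ^ 2 / (2 * β ^ 2)) = u s

/-- the comparison argument -/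
def CoreSt : Prop := ∀ (S E : Type) [Fintype S] [Fintype E] [DecidableEq S]
  (src tgt : E → S) (p σ : E → ℝ) (g u : S → ℝ) (β c : ℝ), 0 < β → 0 ≤ c → (∀ e, 0 ≤ p e) →
  (∀ s, ∑ e with src e = s, p e = 1) →
  (∀ s, ∑ e with src e = s, p e * (σ e + g (tgt e)) = g s - β) →
  (∀ s, ∑ e with src e = s, p e *
    (u (tgt e) - c * σ e - (σ e + g (tgt e) - g (src e) + β) ^ 2 / (2 * β ^ 2)) = u s) →
  ∀ (f : ℝ → ℝ → S → ℝ → ℝ) (M C t0 δ : ℝ),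
  (∀ θ k s t, 0 ≤ t → |f θ k s t| ≤ M) →
  (∀ θ k s t, t0 ≤ t →
    |f θ k s t - ∑ e with src e = s, p e * f θ (k + θ) (tgt e) (t + σ e)| ≤ C / t ^ 2) →
  (∀ ε, 0 < ε → ∃ T, ∀ T', ∃ θ0, 0 < θ0 ∧ ∀ θ, |θ| ≤ θ0 → ∀ k s t, T ≤ t → t ≤ T' →
    |f θ k s t - δ * (1 + Real.cos k) / 2| ≤ ε) →
  ∀ ε B : ℝ, 0 < ε → ∃ T, ∀ t, T ≤ t → ∀ θ : ℝ, θ ^ 2 * t ≤ B → ∀ k s,
    |f θ k s t - δ * (1 + Real.exp (-(c * (θ ^ 2 * t))) * Real.cos (k + θ * t / β)) / 2| ≤ ε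

/-- the theorem for systems, in terms of characteristic functions -/
def SysSt : Prop := ∀ (S E : Type) [Fintype S] [Fintype E] [DecidableEq S] [DecidableEq E]
  (X : Sys S E), X.Irred → X.Neg → ∀ (s0 : S) (l : List E), X.Pa s0 l s0 → 1 < X.rr l →
  ∀ β : ℝ, β = -X.mean X.lg → ∃ c : ℝ, 0 < c ∧ ∀ (χ τ : S × ℤ → ℝ) (R : ℝ), X.Clock χ τ R →
    ∃ δ : ℝ, ∀ ε B : ℝ, 0 < ε → ∃ N0 : ℕ, ∀ N : ℕ, N0 ≤ N → ∀ θ : ℝ, θ ^ 2 * Real.log N ≤ B →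
      ∀ (k : ℝ) (s : S),
      |(∑ u ∈ Icc (-(N : ℤ)) N, χ (s, u) * Real.cos (θ * τ (s, u) + k)) / (2 * N)
        - δ * (Real.exp (-(c * (θ ^ 2 * Real.log N))) * Real.cos (k + θ * Real.log N / β))| ≤ ε

/-- the continuity theorem for counts -/
def LevySt : Prop := ∀ (A : ℕ → Finset ℤ) (Y : ℕ → ℤ → ℝ) (δ : ℝ),
  (∀ a k : ℝ, Tendsto (fun N : ℕ => (∑ x ∈ A N, Real.cos (a * Y N x + k)) / N) atTop
    (𝓝 (δ * (Real.exp (-(a ^ 2 / 2)) * Real.cos k)))) →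
  ∀ w : ℝ, Tendsto (fun N : ℕ => ((Set.ncard {x : ℤ | x ∈ A N ∧ Y N x ≤ w} : ℝ)
    - ProbabilityTheory.cdf (ProbabilityTheory.gaussianReal 0 1) w * (A N).card) / N) atTop (𝓝 0)

/-- the theorem for Leigh's chain -/
def LeighSt : Prop := ∀ (L : LData) [NeZero L.d] (Λ : ℝ),
  Λ = ∏ i : ZMod L.d, |(L.m i : ℝ) / L.d| ^ (∑ s ∈ L.C with (s.1 : ZMod L.d) = i, L.ρ s) → Λ < 1 →
  ∀ (n : ℕ) (σ : ℕ → ℕ × ℕ), σ 0 ∈ L.C → σ n = σ 0 →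
  (∀ t < n, 0 < P L.d L.m L.r L.a (σ t) (σ (t + 1))) →
  (L.d : ℤ) ^ n < ∏ t ∈ range n, |L.m (σ t).1| →
  ∃ κ : ℝ, 0 < κ ∧ ∀ (Z : Finset ℤ), ∀ s ∈ L.C, ∀ w : ℝ, Tendsto (fun N : ℕ =>
    ((Set.ncard {x : ℤ | |x| ≤ N ∧ x ≡ s.1 [ZMOD (L.d * s.2 : ℕ)] ∧ ∃ j : ℕ,
        (j : ℝ) ≤ Real.log N / (-Real.log Λ) + w * κ * Real.sqrt (Real.log N) ∧
        (T L.d L.m L.r)^[j] x ∈ Z} : ℝ)
      - ProbabilityTheory.cdf (ProbabilityTheory.gaussianReal 0 1) w *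
        (Set.ncard {x : ℤ | |x| ≤ N ∧ x ≡ s.1 [ZMOD (L.d * s.2 : ℕ)] ∧ ∃ j : ℕ,
          (T L.d L.m L.r)^[j] x ∈ Z} : ℝ)) / N) atTop (𝓝 0)

end St

end Pool.Agent.Lib.MP_39d40e_nt
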