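import Pool.Agent.Lib.MP_39d40e_nt.St0

/-! Normal law of clocks with an arbitrary increment: statements of the parts. -/

namespace Pool.Agent.Lib.MP_39d40e_nt

open Finset Filter Topology

namespace Sys

variable {S E : Type} [Fintype S] [Fintype E] [DecidableEq S] [DecidableEq E] (X : Sys S E)

/-- `τ` drops by `i` at each step on the support of the invariant function `χ`, away from a
bounded set -/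
def Clock2 (χ τ : S × ℤ → ℝ) (i R : ℝ) : Prop :=
  (∀ x, 0 ≤ χ x) ∧ (∀ x, χ x ≤ 1) ∧ ∀ x : S × ℤ, R < |(x.2 : ℝ)| →
    χ (X.step x) = χ x ∧ (χ x ≠ 0 → τ x = τ (X.step x) + i)

end Sys

namespace St

/-- the comparison argument -/
def CoreSt2 : Prop := ∀ (S E : Type) [Fintype S] [Fintype E] [DecidableEq S]
  (src tgt : E → S) (p σ : E → ℝ) (g u : S → ℝ) (β c : ℝ), 0 < β → 0 ≤ c → (∀ e, 0 ≤ p e) →
  (∀ s, ∑ e with src e = s, p e = 1) →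
  (∀ s, ∑ e with src e = s, p e * (σ e + g (tgt e)) = g s - β) →
  (∀ s, ∑ e with src e = s, p e *
    (u (tgt e) - c * σ e - (σ e + g (tgt e) - g (src e) + β) ^ 2 / (2 * β ^ 2)) = u s) →
  ∀ (i : ℝ) (f : ℝ → ℝ → S → ℝ → ℝ) (M C t0 δ : ℝ),
  (∀ θ k s t, 0 ≤ t → |f θ k s t| ≤ M) →
  (∀ θ k s t, t0 ≤ t →
    |f θ k s t - ∑ e with src e = s, p e * f θ (k + θ * i) (tgt e) (t + σ e)| ≤ C / t ^ 2) →
  (∀ ε, 0 < ε → ∃ T, ∀ T', ∃ θ0, 0 < θ0 ∧ ∀ θ, |θ| ≤ θ0 → ∀ k s t, T ≤ t → t ≤ T' →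
    |f θ k s t - δ * (1 + Real.cos k) / 2| ≤ ε) →
  ∀ ε B : ℝ, 0 < ε → ∃ T, ∀ t, T ≤ t → ∀ θ : ℝ, θ ^ 2 * t ≤ B → ∀ k s,
    |f θ k s t - δ * (1 + Real.exp (-(c * ((θ * i) ^ 2 * t)))
      * Real.cos (k + θ * i * t / β)) / 2| ≤ ε

/-- the theorem for systems, in terms of characteristic functions -/
def SysSt2 : Prop := ∀ (S E : Type) [Fintype S] [Fintype E] [DecidableEq S] [DecidableEq E]
  (X : Sys S E), X.Irred → X.Neg → ∀ (s0 : S) (l : List E), X.Pa s0 l s0 → 1 < X.rr l →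
  ∀ β : ℝ, β = -X.mean X.lg → ∃ c : ℝ, 0 < c ∧ ∀ (χ τ : S × ℤ → ℝ) (i R : ℝ), X.Clock2 χ τ i R →
    ∃ δ : ℝ, ∀ ε B : ℝ, 0 < ε → ∃ N0 : ℕ, ∀ N : ℕ, N0 ≤ N → ∀ θ : ℝ, θ ^ 2 * Real.log N ≤ B →
      ∀ (k : ℝ) (s : S),
      |(∑ u ∈ Icc (-(N : ℤ)) N, χ (s, u) * Real.cos (θ * τ (s, u) + k)) / (2 * N)
        - δ * (Real.exp (-(c * ((θ * i) ^ 2 * Real.log N)))
          * Real.cos (k + θ * i * Real.log N / β))| ≤ ε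

/-- the continuity theorem for counts -/
def LevySt2 : Prop := ∀ (A : ℕ → Finset ℤ) (Y : ℕ → ℤ → ℝ) (δ ρ : ℝ),
  (∀ a k : ℝ, Tendsto (fun N : ℕ => (∑ x ∈ A N, Real.cos (a * Y N x + k)) / N) atTop
    (𝓝 (δ * (Real.exp (-((ρ * a) ^ 2 / 2)) * Real.cos k)))) →
  ∀ φ : BoundedContinuousFunction ℝ ℝ, Tendsto (fun N : ℕ => (∑ x ∈ A N, φ (Y N x)) / N) atTop
    (𝓝 (δ * ∫ y, φ (ρ * y) ∂(ProbabilityTheory.gaussianReal 0 1)))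

/-- the theorem for Leigh's chain -/
def LeighSt2 : Prop := ∀ (L : LData) [NeZero L.d] (Λ : ℝ),
  Λ = ∏ i : ZMod L.d, |(L.m i : ℝ) / L.d| ^ (∑ s ∈ L.C with (s.1 : ZMod L.d) = i, L.ρ s) → Λ < 1 →
  ∀ (n : ℕ) (σ : ℕ → ℕ × ℕ), σ 0 ∈ L.C → σ n = σ 0 →
  (∀ t < n, 0 < P L.d L.m L.r L.a (σ t) (σ (t + 1))) →
  (L.d : ℤ) ^ n < ∏ t ∈ range n, |L.m (σ t).1| →
  ∃ κ : ℝ, 0 < κ ∧ ∀ (c : ℝ) (A : Set ℤ) (τ : ℤ → ℝ),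
    {x : ℤ | (∃ s ∈ L.C, x ≡ s.1 [ZMOD (L.d * s.2 : ℕ)]) ∧
      ¬ ((x ∈ A ↔ T L.d L.m L.r x ∈ A) ∧ (x ∈ A → τ x = τ (T L.d L.m L.r x) + c))}.Finite →
    ∃ δ : ℝ, ∀ s ∈ L.C, ∀ φ : BoundedContinuousFunction ℝ ℝ, Tendsto (fun N : ℕ =>
      (∑ x ∈ Icc (-(N : ℤ)) N, Set.indicator {x : ℤ | x ≡ s.1 [ZMOD (L.d * s.2 : ℕ)] ∧ x ∈ A}
        (fun x => φ ((τ x - c * (Real.log N / (-Real.log Λ))) / Real.sqrt (Real.log N))) x)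
        / (Set.ncard {x : ℤ | |x| ≤ N ∧ x ≡ s.1 [ZMOD (L.d * s.2 : ℕ)]} : ℝ)) atTop
      (𝓝 (δ * ∫ y, φ (c * κ * y) ∂(ProbabilityTheory.gaussianReal 0 1)))

end St

end Pool.Agent.Lib.MP_39d40e_nt
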