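import Pool.Agent.Lib.MP_39d40e_nt.St1
import Pool.Agent.Lib.MP_39d40e_nt.BdD

/-! Normal law of clocks: transfer from the system to the classes of the chain. -/

namespace Pool.Agent.Lib.MP_39d40e_nt

open Finset Filter Topology

namespace LData

variable (L : LData)

theorem drift_log [NeZero L.d] :
    L.sys.mean (fun e => Real.log (|(L.sys.b e : ℝ)| / L.sys.D e)) = Real.log (∏ i : ZMod L.d,
      |(L.m i : ℝ) / L.d| ^ (∑ s ∈ L.C with (s.1 : ZMod L.d) = i, L.ρ s)) := by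
  have hd : (0 : ℝ) < L.d := by exact_mod_cast L.d_pos
  have hm : ∀ i, 0 < |(L.m i : ℝ) / L.d| := fun i => by
    have : (L.m i : ℝ) ≠ 0 := by exact_mod_cast L.hm i
    positivity
  have h1 : ∑ i : ZMod L.d, (∑ s ∈ L.C with (s.1 : ZMod L.d) = i, L.ρ s) *
      Real.log |(L.m i : ℝ) / L.d| = Real.log (∏ i : ZMod L.d,
        |(L.m i : ℝ) / L.d| ^ (∑ s ∈ L.C with (s.1 : ZMod L.d) = i, L.ρ s)) := by
    rw [Real.log_prod (fun i _ => (Real.rpow_pos_of_pos (hm i) _).ne')]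
    simp only [Real.log_rpow (hm _)]
  have h2 : ∑ i : ZMod L.d, (∑ s ∈ L.C with (s.1 : ZMod L.d) = i, L.ρ s) *
      Real.log |(L.m i : ℝ) / L.d| = ∑ s ∈ L.C, L.ρ s * Real.log |(L.m s.1 : ℝ) / L.d| := by
    rw [← sum_fiberwise_of_maps_to (s := L.C) (t := univ) (g := fun s => (s.1 : ZMod L.d))
      (by simp)]
    apply sum_congr rfl; intro i _
    rw [sum_mul]
    apply sum_congr rfl; intro s hs
    rw [(mem_filter.1 hs).2]
  have h3 : ∀ e : L.Ed, Real.log (|(L.sys.b e : ℝ)| / L.sys.D e)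
      = (Real.log |(L.m (L.sys.src e).1.1 : ℝ) / L.d| + Real.log ((L.sys.src e).1.2))
        - Real.log ((L.sys.tgt e).1.2) := by
    intro e
    have k1 : (0 : ℝ) < (e.1.1.1.2 : ℕ) := by exact_mod_cast L.k_pos e.1.1.2
    have k2 : (0 : ℝ) < (e.1.2.1.2 : ℕ) := by exact_mod_cast L.k_pos e.1.2.2
    have k3 : (0 : ℝ) < L.sys.D e := by exact_mod_cast L.sys.D_pos' e
    have k4 : ((e.1.1.1.2 : ℕ) : ℝ) * L.a e.1.1.1.1 * L.sys.D e = L.d * (e.1.2.1.2 : ℕ) := by
      exact_mod_cast L.KD e.2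
    have k5 : (0 : ℝ) < L.a e.1.1.1.1 := by exact_mod_cast L.a_pos _
    change Real.log (|(L.b e.1.1.1.1 : ℝ)| / L.sys.D e)
      = (Real.log |(L.m e.1.1.1.1 : ℝ) / L.d| + Real.log (e.1.1.1.2 : ℕ))
        - Real.log (e.1.2.1.2 : ℕ)
    rw [← Real.log_mul (hm _).ne' k1.ne', ← Real.log_div (mul_pos (hm _) k1).ne' k2.ne']
    congr 1
    rw [L.hfac]; push_cast
    rw [abs_div, abs_mul, abs_of_pos k5, abs_of_pos hd]
    field_simp
    linear_combination (-|(L.b e.1.1.1.1 : ℝ)|) * k4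
  simp only [h3]
  have h4 : L.sys.mean (fun e => (Real.log |(L.m (L.sys.src e).1.1 : ℝ) / L.d|
        + Real.log ((L.sys.src e).1.2)) - Real.log ((L.sys.tgt e).1.2))
      = L.sys.mean (fun e => Real.log |(L.m (L.sys.src e).1.1 : ℝ) / L.d|)
        + L.sys.mean (fun e => Real.log ((L.sys.src e).1.2))
        - L.sys.mean (fun e => Real.log ((L.sys.tgt e).1.2)) := by
    unfold Sys.mean
    rw [← sum_add_distrib, ← sum_sub_distrib]
    apply sum_congr rfl; intro e _; ring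
  rw [h4, L.sys.mean_src (fun s => Real.log |(L.m s.1.1 : ℝ) / L.d|),
    L.sys.mean_src (fun s => Real.log (s.1.2)), L.sys.mean_tgt (fun s => Real.log (s.1.2))]
  rw [h2, sum_subtype L.C (p := fun s => s ∈ L.C) (fun _ => Iff.rfl)] at h1
  have h5 : ∀ s, L.sys.π s = L.ρ s.1 := fun _ => rfl
  simp only [h5]
  rw [← h1]
  ring

theorem fin_exc2 (Q : ℤ → Prop)
    (hA : {x : ℤ | (∃ s ∈ L.C, x ≡ s.1 [ZMOD (L.d * s.2 : ℕ)]) ∧ ¬ Q x}.Finite) :
    {x : L.St × ℤ | ¬ Q (L.val x)}.Finite := by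
  refine Set.Finite.of_finite_fibers L.val (hA.subset ?_) ?_
  · rintro _ ⟨x, hx, rfl⟩
    refine ⟨⟨x.1.1, x.1.2, (Int.modEq_iff_dvd.2 ⟨x.2, ?_⟩).symm⟩, hx⟩
    unfold val; push_cast; ring
  · intro y _
    refine Set.Finite.of_finite_image (f := Prod.fst) (Set.toFinite _) ?_
    rintro ⟨s, u⟩ ⟨-, h1⟩ ⟨s', u'⟩ ⟨-, h2⟩ h3
    simp only at h3
    subst h3
    have h4 : L.val (s, u) = L.val (s, u') := h1.trans h2.symm
    have h5 : (L.d : ℤ) * s.1.2 ≠ 0 := by
      exact_mod_cast (Nat.mul_pos L.d_pos (L.k_pos s.2)).ne'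
    unfold val at h4
    have h6 : u = u' := mul_left_cancel₀ h5 (add_left_cancel h4)
    rw [h6]

end LData

namespace St

namespace Leighx

theorem sum_cls (M j N : ℕ) (hj : j < M) (f : ℤ → ℝ) (hf : ∀ x, |f x| ≤ 1) :
    |∑ x ∈ (Icc (-(N : ℤ)) N).filter (fun x => x ≡ j [ZMOD M]), f x
      - ∑ u ∈ Icc (-((N / M : ℕ) : ℤ)) (N / M : ℕ), f (j + M * u)| ≤ 2 := by
  have hM : 0 < M := by omega
  have q1 : (M : ℤ) * (N / M : ℕ) ≤ N := by exact_mod_cast Nat.mul_div_le N M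
  have q2 : (N : ℤ) < M * ((N / M : ℕ) + 1) := by exact_mod_cast Nat.lt_mul_div_succ N hM
  have j1 : (j : ℤ) < M := by exact_mod_cast hj
  have j0 : (0 : ℤ) ≤ j := Int.natCast_nonneg _
  have M0 : (0 : ℤ) < M := by exact_mod_cast hM
  generalize N / M = q at q1 q2
  set U := (Icc (-(q : ℤ) - 1) q).filter (fun u => |(j : ℤ) + M * u| ≤ N) with hU
  have e1 : ∑ x ∈ (Icc (-(N : ℤ)) N).filter (fun x => x ≡ j [ZMOD M]), f x
      = ∑ u ∈ U, f (j + M * u) := by
    symm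
    refine sum_bij (fun u _ => (j : ℤ) + M * u) ?_ ?_ ?_ (fun _ _ => rfl)
    · intro u hu
      exact mem_filter.2 ⟨mem_Icc.2 (abs_le.1 (mem_filter.1 hu).2),
        (Int.modEq_iff_dvd.2 ⟨u, by ring⟩).symm⟩
    · intro u _ v _ h
      exact mul_left_cancel₀ M0.ne' (add_left_cancel h)
    · intro x hx
      obtain ⟨h1, h2⟩ := mem_filter.1 hx
      obtain ⟨u, hu⟩ := h2.symm.dvd
      have h3 : x = j + M * u := by linarith
      subst h3
      obtain ⟨h4, h5⟩ := mem_Icc.1 h1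
      refine ⟨u, mem_filter.2 ⟨mem_Icc.2 ⟨?_, ?_⟩, abs_le.2 ⟨h4, h5⟩⟩, rfl⟩
      · by_contra hn
        have : u ≤ -(q : ℤ) - 2 := by omega
        nlinarith [mul_le_mul_of_nonneg_left this M0.le]
      · by_contra hn
        have : (q : ℤ) + 1 ≤ u := by omega
        nlinarith [mul_le_mul_of_nonneg_left this M0.le]
  have small : ∀ (V : Finset ℤ) (z : ℤ), V ⊆ {z} → |∑ u ∈ V, f (j + M * u)| ≤ 1 := by
    intro V z hV
    rcases subset_singleton_iff.1 hV with rfl | rfl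
    · simp
    · simpa using hf _
  rw [e1, ← sum_sdiff_sub_sum_sdiff]
  refine (abs_sub _ _).trans ?_
  have b1 := small (U \ Icc (-(q : ℤ)) q) (-(q : ℤ) - 1) (by
    intro u hu
    obtain ⟨h1, h2⟩ := mem_sdiff.1 hu
    have h3 := mem_Icc.1 (mem_filter.1 h1).1
    rw [mem_Icc] at h2
    exact mem_singleton.2 (by omega))
  have b2 := small (Icc (-(q : ℤ)) q \ U) q (by
    intro u hu
    obtain ⟨h1, h2⟩ := mem_sdiff.1 hu
    obtain ⟨h3, h4⟩ := mem_Icc.1 h1
    refine mem_singleton.2 ?_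
    by_contra hn
    refine h2 (mem_filter.2 ⟨mem_Icc.2 ⟨by omega, h4⟩, abs_le.2 ⟨?_, ?_⟩⟩)
    · nlinarith [mul_le_mul_of_nonneg_left h3 M0.le]
    · have : u ≤ (q : ℤ) - 1 := by omega
      nlinarith [mul_le_mul_of_nonneg_left this M0.le])
  linarith

theorem ratio (M : ℕ) (hM : 0 < M) :
    Tendsto (fun N : ℕ => ((N / M : ℕ) : ℝ) * M / N) atTop (𝓝 1) := by
  have t0 : Tendsto (fun N : ℕ => (M : ℝ) / N) atTop (𝓝 0) :=
    tendsto_const_div_atTop_nhds_zero_nat _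
  have lo : Tendsto (fun N : ℕ => 1 - (M : ℝ) / N) atTop (𝓝 1) := by
    simpa using t0.const_sub 1
  refine tendsto_of_tendsto_of_tendsto_of_le_of_le' lo tendsto_const_nhds ?_ ?_
  · filter_upwards [eventually_gt_atTop 0] with N hN
    have N0 : (0 : ℝ) < N := by exact_mod_cast hN
    have q2 : (N : ℝ) < M * ((N / M : ℕ) + 1) := by exact_mod_cast Nat.lt_mul_div_succ N hM
    rw [le_div_iff₀ N0, sub_mul, div_mul_cancel₀ _ N0.ne']; linarith
  · filter_upwards [eventually_gt_atTop 0] with N hN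
    have N0 : (0 : ℝ) < N := by exact_mod_cast hN
    have q1 : (M : ℝ) * (N / M : ℕ) ≤ N := by exact_mod_cast Nat.mul_div_le N M
    rw [div_le_one N0]; linarith

theorem sq_top : Tendsto (fun N : ℕ => Real.sqrt (Real.log N)) atTop atTop :=
  Real.tendsto_sqrt_atTop.comp (Real.tendsto_log_atTop.comp tendsto_natCast_atTop_atTop)

theorem gap (M : ℕ) (hM : 0 < M) :
    Tendsto (fun N : ℕ => Real.log N - Real.log (N / M : ℕ)) atTop (𝓝 (Real.log M)) := by
  have M0 : (0 : ℝ) < M := by exact_mod_cast hM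
  have t := ((ratio M hM).log one_ne_zero).const_sub (Real.log M)
  rw [Real.log_one, sub_zero] at t
  refine t.congr' ?_
  filter_upwards [(Nat.tendsto_div_const_atTop hM.ne').eventually (eventually_gt_atTop 0),
    eventually_gt_atTop 0] with N hq hN
  have N0 : (0 : ℝ) < N := by exact_mod_cast hN
  have q0 : (0 : ℝ) < (N / M : ℕ) := by exact_mod_cast hq
  rw [Real.log_div (by positivity) N0.ne', Real.log_mul q0.ne' M0.ne']; ring

/-- characteristic functions on one class -/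
theorem chf (M j : ℕ) (hj : j < M) (χ τ : ℤ → ℝ) (hχ : ∀ x, |χ x| ≤ 1) (δ c i β : ℝ)
    (h : ∀ ε B : ℝ, 0 < ε → ∃ N0 : ℕ, ∀ N : ℕ, N0 ≤ N → ∀ θ : ℝ, θ ^ 2 * Real.log N ≤ B →
      ∀ k : ℝ, |(∑ u ∈ Icc (-(N : ℤ)) N, χ (j + M * u) * Real.cos (θ * τ (j + M * u) + k)) / (2 * N)
        - δ * (Real.exp (-(c * ((θ * i) ^ 2 * Real.log N)))
          * Real.cos (k + θ * i * Real.log N / β))| ≤ ε) (a k : ℝ) :
    Tendsto (fun N : ℕ => (∑ x ∈ (Icc (-(N : ℤ)) N).filter (fun x => x ≡ j [ZMOD M]),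
      χ x * Real.cos (a * ((τ x - i * (Real.log N / β)) / Real.sqrt (Real.log N)) + k)) / N) atTop
      (𝓝 (2 * δ / M * (Real.exp (-(c * (i * a) ^ 2)) * Real.cos k))) := by
  have hM : 0 < M := by omega
  have M0 : (0 : ℝ) < M := by exact_mod_cast hM
  have tq : Tendsto (fun N : ℕ => N / M) atTop atTop := Nat.tendsto_div_const_atTop hM.ne'
  let r : ℕ → ℝ := fun N => Real.sqrt (Real.log N)
  let θ : ℕ → ℝ := fun N => a / r N
  let k' : ℕ → ℝ := fun N => k - θ N * i * Real.log N / β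
  let G : ℕ → ℝ := fun N => Real.log N - Real.log (N / M : ℕ)
  let g : ℕ → ℤ → ℝ := fun N x => χ x * Real.cos (θ N * τ x + k' N)
  let Sq : ℕ → ℝ := fun N => ∑ u ∈ Icc (-((N / M : ℕ) : ℤ)) (N / M : ℕ), g N (j + M * u)
  let Tm : ℕ → ℝ := fun N => δ * (Real.exp (-(c * ((θ N * i) ^ 2 * Real.log (N / M : ℕ))))
    * Real.cos (k' N + θ N * i * Real.log (N / M : ℕ) / β))
  have rp : ∀ᶠ N in atTop, 0 < r N := sq_top.eventually (eventually_gt_atTop 0)
  have tθ : Tendsto θ atTop (𝓝 0) := tendsto_const_nhds.div_atTop sq_top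
  have tG : Tendsto G atTop (𝓝 (Real.log M)) := gap M hM
  have sqr : ∀ N, 0 < r N → θ N ^ 2 * Real.log N = a ^ 2 := by
    intro N hN
    have b1 : r N ^ 2 = Real.log N := Real.sq_sqrt (Real.log_natCast_nonneg N)
    rw [← b1]; simp only [θ]; field_simp
  have t1 : Tendsto Tm atTop (𝓝 (δ * (Real.exp (-(c * (i * a) ^ 2)) * Real.cos k))) := by
    have b1 : Tendsto (fun N => -(c * (i ^ 2 * (a ^ 2 - θ N ^ 2 * G N)))) atTop
        (𝓝 (-(c * (i ^ 2 * (a ^ 2 - 0 ^ 2 * Real.log M))))) :=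
      (((((tθ.pow 2).mul tG).const_sub _).const_mul _).const_mul _).neg
    have b2 : Tendsto (fun N => k - θ N * G N * (i / β)) atTop
        (𝓝 (k - 0 * Real.log M * (i / β))) := ((tθ.mul tG).mul_const _).const_sub _
    have b3 := (b1.rexp.mul ((Real.continuous_cos.tendsto _).comp b2)).const_mul δ
    have e1 : -(c * (i ^ 2 * (a ^ 2 - 0 ^ 2 * Real.log M))) = -(c * (i * a) ^ 2) := by ring
    have e2 : k - 0 * Real.log M * (i / β) = k := by ring
    rw [e1, e2] at b3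
    refine b3.congr' ?_
    filter_upwards [rp] with N hN
    have e3 : i ^ 2 * (a ^ 2 - θ N ^ 2 * G N) = (θ N * i) ^ 2 * Real.log (N / M : ℕ) := by
      rw [← sqr N hN]; simp only [G]; ring
    have e4 : k - θ N * G N * (i / β) = k' N + θ N * i * Real.log (N / M : ℕ) / β := by
      simp only [G, k']; ring
    simp only [Function.comp]
    rw [e3, e4]
  have t2 : Tendsto (fun N => Sq N / (2 * ((N / M : ℕ) : ℝ)) - Tm N) atTop (𝓝 0) := by
    refine Metric.tendsto_nhds.2 fun ε hε => ?_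
    obtain ⟨N0, hN0⟩ := h (ε / 2) (a ^ 2) (by positivity)
    filter_upwards [rp, tq.eventually (eventually_ge_atTop N0),
      tq.eventually (eventually_gt_atTop 0)] with N hN hq hq0
    have q0 : (0 : ℝ) < (N / M : ℕ) := by exact_mod_cast hq0
    have b1 : Real.log (N / M : ℕ) ≤ Real.log N :=
      Real.log_le_log q0 (by exact_mod_cast Nat.div_le_self N M)
    have b2 := hN0 (N / M) hq (θ N)
      ((mul_le_mul_of_nonneg_left b1 (sq_nonneg _)).trans (sqr N hN).le) (k' N)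
    rw [Real.dist_eq, sub_zero]
    exact lt_of_le_of_lt b2 (by linarith)
  have t3 := ((t2.add t1).mul (ratio M hM)).mul_const (2 / (M : ℝ))
  have t4 : Tendsto (fun N : ℕ => (∑ x ∈ (Icc (-(N : ℤ)) N).filter (fun x => x ≡ j [ZMOD M]),
      g N x - Sq N) / N) atTop (𝓝 0) := by
    refine squeeze_zero_norm (fun N => ?_) (tendsto_const_div_atTop_nhds_zero_nat (2 : ℝ))
    rw [Real.norm_eq_abs, abs_div, Nat.abs_cast]
    refine div_le_div_of_nonneg_right (sum_cls M j N hj (g N) fun x => ?_) (Nat.cast_nonneg N)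
    simp only [g]
    rw [abs_mul]
    exact mul_le_one₀ (hχ x) (abs_nonneg _) (Real.abs_cos_le_one _)
  have t5 := t4.add t3
  have e5 : 0 + (0 + δ * (Real.exp (-(c * (i * a) ^ 2)) * Real.cos k)) * 1 * (2 / (M : ℝ))
      = 2 * δ / M * (Real.exp (-(c * (i * a) ^ 2)) * Real.cos k) := by ring
  rw [e5] at t5
  refine t5.congr' ?_
  filter_upwards [tq.eventually (eventually_gt_atTop 0), eventually_gt_atTop 0] with N hq hN
  have N0 : (0 : ℝ) < N := by exact_mod_cast hN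
  have q0 : (0 : ℝ) < (N / M : ℕ) := by exact_mod_cast hq
  have e6 : ∀ x, a * ((τ x - i * (Real.log N / β)) / Real.sqrt (Real.log N)) + k
      = θ N * τ x + k' N := fun x => by simp only [k', θ, r]; ring
  simp only [e6]
  change _ = (∑ x ∈ (Icc (-(N : ℤ)) N).filter (fun x => x ≡ j [ZMOD M]), g N x) / N
  field_simp
  ring

theorem cnt (M j : ℕ) (hj : j < M) :
    Tendsto (fun N : ℕ => (Set.ncard {x : ℤ | |x| ≤ N ∧ x ≡ j [ZMOD M]} : ℝ) / N) atTop
      (𝓝 (2 / M)) := by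
  have hM : 0 < M := by omega
  have M0 : (0 : ℝ) < M := by exact_mod_cast hM
  have t := (Bd.bd_cls M j hj _ 1 Bd.bd_univ).mul_const (2 / (M : ℝ))
  rw [one_mul] at t
  refine t.congr' ?_
  filter_upwards [eventually_gt_atTop 0] with N hN
  have N0 : (0 : ℝ) < N := by exact_mod_cast hN
  have e2 := Bd.bd_img M j N hM Set.univ
  simp only [Set.mem_univ, and_true, Set.ofPred_true] at e2
  simp only [Set.mem_univ, and_true]
  rw [e2]
  field_simp

end Leighx

theorem leigh_st2 (h1 : SysSt2) (h2 : LevySt2) : LeighSt2 := by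
  classical
  intro L _ Λ hΛ0 hΛ n σ h0 hσn hσ hexp
  obtain ⟨s0, g, hg, hg1⟩ := L.exists_cycle n σ h0 hσn hσ hexp
  obtain ⟨c0, hc0, hS⟩ := h1 _ _ L.sys L.irred (L.drift (hΛ0 ▸ hΛ)) s0 g hg hg1 (-Real.log Λ)
    (by rw [hΛ0, ← L.drift_log]; rfl)
  refine ⟨Real.sqrt (2 * c0), Real.sqrt_pos.2 (by positivity), fun i A τ hA => ?_⟩
  obtain ⟨R, hR⟩ := ((L.fin_exc2 _ hA).image fun x => |(x.2 : ℝ)|).bddAbove
  obtain ⟨δ, hδ⟩ := hS (fun x => if L.val x ∈ A then 1 else 0) (fun x => τ (L.val x)) i R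
    ⟨fun x => by dsimp only; split_ifs <;> norm_num,
      fun x => by dsimp only; split_ifs <;> norm_num, fun x hx => by
      have b : (L.val x ∈ A ↔ T L.d L.m L.r (L.val x) ∈ A) ∧
          (L.val x ∈ A → τ (L.val x) = τ (T L.d L.m L.r (L.val x)) + i) := by
        by_contra hn
        exact absurd (hR ⟨x, hn, rfl⟩) (not_le.2 hx)
      simp only [L.val_step]
      refine ⟨by simp only [← b.1], fun hne => b.2 ?_⟩
      by_contra hn
      exact hne (if_neg hn)⟩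
  refine ⟨δ, fun s hs φ => ?_⟩
  have hj := L.hC s hs
  set M := L.d * s.2 with hM
  have M0 : (0 : ℝ) < M := by exact_mod_cast (by omega : 0 < M)
  have ch := Leighx.chf M s.1 hj (fun x => if x ∈ A then 1 else 0) τ
    (fun x => by split_ifs <;> norm_num) δ c0 i (-Real.log Λ) (fun ε B hε => by
      obtain ⟨N0, hN0⟩ := hδ ε B hε
      refine ⟨N0, fun N hN θ hθ k => ?_⟩
      have b := hN0 N hN θ hθ k ⟨s, hs⟩
      have e : ∀ u : ℤ, L.val (⟨s, hs⟩, u) = (s.1 : ℤ) + (M : ℤ) * u := fun u => by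
        rw [hM]; unfold LData.val; push_cast; ring
      simpa only [e] using b)
  have lv := h2 (fun N => (Icc (-(N : ℤ)) N).filter (fun x => x ≡ s.1 [ZMOD M] ∧ x ∈ A))
    (fun N x => (τ x - i * (Real.log N / (-Real.log Λ))) / Real.sqrt (Real.log N))
    (2 * δ / M) (i * Real.sqrt (2 * c0)) (fun a k => by
      have e : (i * Real.sqrt (2 * c0) * a) ^ 2 / 2 = c0 * (i * a) ^ 2 := by
        rw [mul_pow, mul_pow, Real.sq_sqrt (by positivity)]; ring
      rw [e]
      refine (ch a k).congr fun N => ?_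
      congr 1
      rw [sum_filter, sum_filter]
      refine sum_congr rfl fun x _ => ?_
      by_cases b1 : x ≡ s.1 [ZMOD M] <;> by_cases b2 : x ∈ A <;> simp [b1, b2]) φ
  have t := lv.div (Leighx.cnt M s.1 hj) (by positivity)
  have e : 2 * δ / M * (∫ y, φ (i * Real.sqrt (2 * c0) * y) ∂(ProbabilityTheory.gaussianReal 0 1))
      / (2 / M) = δ * ∫ y, φ (i * Real.sqrt (2 * c0) * y)
        ∂(ProbabilityTheory.gaussianReal 0 1) := by field_simp
  rw [e] at t
  refine t.congr' ?_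
  filter_upwards [eventually_gt_atTop 0] with N hN
  have N0 : (0 : ℝ) < N := by exact_mod_cast hN
  simp only [Pi.div_apply]
  rw [div_div_div_cancel_right₀ N0.ne', sum_filter]
  congr 1
  exact sum_congr rfl fun x _ => by simp only [Set.indicator_apply, Set.mem_ofPred_eq]

end St

end Pool.Agent.Lib.MP_39d40e_nt
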