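import Pool.Agent.Lib.MP_39d40e_nt.St0

/-! Normal law of entry times: the approximate harmonic equation for families. -/

namespace Pool.Agent.Lib.MP_39d40e_nt.St

open Finset Filter Topology Bd

namespace Hf

theorem push2 {S E : Type} [Fintype S] [Fintype E] [DecidableEq S] [DecidableEq E]
    (X : Sys S E) (χ χ' : S × ℤ → ℝ) (n : ℕ) (G : S → ℤ → ℝ) (U V : Finset ℤ)
    (hG : ∀ s u, G s u ≠ 0 →
      u ∈ U ∧ (X.step^[n] (s, u)).2 ∈ V ∧ χ' (X.step^[n] (s, u)) = χ (s, u)) :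
    ∑ s, X.π s * ∑ u ∈ U, χ (s, u) * G s u
      = ∑ s, X.π s * ∑ z ∈ V, χ' (s, z) *
        X.Ex n s fun l => X.pull l z (G (X.endp s l)) / X.rr l := by
  classical
  let F : S × ℤ → ℝ := fun x => X.π x.1 * (χ x * G x.1 x.2)
  let H : (Σ _ : S, Σ _ : List E, ℤ) → ℝ := fun t => X.π t.1 * (χ' (t.1, t.2.2) * (X.wt t.2.1 *
    (X.pull t.2.1 t.2.2 (G (X.endp t.1 t.2.1)) / X.rr t.2.1)))
  let TT : Finset (Σ _ : S, Σ _ : List E, ℤ) :=
    univ.sigma fun s => (X.Paths n s).sigma fun _ => V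
  have e1 : ∑ s, X.π s * ∑ u ∈ U, χ (s, u) * G s u = ∑ x ∈ univ ×ˢ U, F x := by
    rw [sum_product]; simp only [F, mul_sum]
  have e2 : (∑ s, X.π s * ∑ z ∈ V, χ' (s, z) *
      X.Ex n s fun l => X.pull l z (G (X.endp s l)) / X.rr l) = ∑ t ∈ TT, H t := by
    simp only [TT, sum_sigma, H, Sys.Ex, mul_sum]
    exact sum_congr rfl fun s _ => sum_comm
  rw [e1, e2]
  refine sum_bij_ne_zero
    (fun x _ _ => (⟨(X.step^[n] x).1, X.orb n x, (X.step^[n] x).2⟩ : Σ _ : S, Σ _ : List E, ℤ))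
    (fun x _ hx => ?_) (fun x _ _ x' _ _ hx => ?_) (fun t ht h0 => ?_) (fun x _ hx => ?_)
  · have := hG x.1 x.2 (right_ne_zero_of_mul (right_ne_zero_of_mul hx))
    simp only [TT, mem_sigma, mem_univ, true_and]
    exact ⟨X.orb_mem n x, this.2.1⟩
  · simp only [Sigma.mk.injEq, heq_eq_eq] at hx
    obtain ⟨h1, h2, h3⟩ := hx
    have k1 := X.orb_endp n x
    have k2 := X.orb_endp n x'
    have k3 := X.orb_mul n x
    have k4 := X.orb_mul n x'
    rw [h1, h2] at k1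
    rw [h2, h3] at k3
    refine Prod.ext (k1.symm.trans k2) ?_
    exact mul_left_cancel₀ (X.bP_ne (X.orb n x')) (by linarith)
  · obtain ⟨s, l, z⟩ := t
    simp only [TT, mem_sigma, mem_univ, true_and] at ht
    have a1 : χ' (s, z) ≠ 0 := left_ne_zero_of_mul (right_ne_zero_of_mul h0)
    have a2 : X.pull l z (G (X.endp s l)) ≠ 0 := fun h => h0 (by simp [H, h])
    unfold Sys.pull at a2
    split_ifs at a2 with hd
    swap
    · exact absurd rfl a2
    obtain ⟨y, hy⟩ := hd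
    rw [hy, Int.mul_ediv_cancel_left _ (X.bP_ne l)] at a2
    have a3 := right_ne_zero_of_mul a2
    have a4 := X.step_pred ht.1 hy.symm
    have a5 := hG _ _ a3
    have a6 := (X.path_unique (u := y) ht.1 (X.orb_mem n (X.endp s l, y))
      (X.orb_endp n (X.endp s l, y)).symm ⟨z, by linarith⟩
      (Dvd.intro _ (X.orb_mul n (X.endp s l, y)))).1
    refine ⟨(X.endp s l, y), mem_product.2 ⟨mem_univ _, a5.1⟩, ?_, ?_⟩
    · refine mul_ne_zero (X.π_pos _).ne' (mul_ne_zero ?_ a3)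
      rw [← a5.2.2, a4]; exact a1
    · rw [a4, ← a6]
  · have a5 := hG x.1 x.2 (right_ne_zero_of_mul (right_ne_zero_of_mul hx))
    have hm := X.orb_mem n x
    have k3 := X.orb_mul n x
    have k1 := X.orb_endp n x
    have hwt := X.wt_eq hm
    simp only [F, H]
    have a6 : χ' ((X.step^[n] x).1, (X.step^[n] x).2) = χ x := a5.2.2
    rw [a6]
    set l := X.orb n x
    set z := (X.step^[n] x).2
    set s' := (X.step^[n] x).1
    have e3 : X.pull l z (G (X.endp s' l)) = |(X.bP l : ℝ)| * G x.1 x.2 := by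
      have : (X.DP l : ℤ) * z - X.cP l = X.bP l * x.2 := by linarith
      unfold Sys.pull
      rw [this, if_pos (Dvd.intro _ rfl), Int.mul_ediv_cancel_left _ (X.bP_ne l), k1]
    have hD : (0 : ℝ) < X.DP l := by exact_mod_cast X.DP_pos l
    have hb := X.one_le_abs_bP l
    have p2 := X.π_pos s'
    rw [e3, hwt, k1]
    unfold Sys.rr
    field_simp

theorem F_eq {h : ℝ → ℝ} {a L : ℝ} (hk : Ker h a L) (φ : ℤ → ℝ) {Y : ℝ} (hY : 0 < Y)
    (V : Finset ℤ) (hV : ∀ z : ℤ, |(z : ℝ)| < 2 * Y → z ∈ V) :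
    F h φ Y = (∑ z ∈ V, φ z * h (|(z : ℝ)| / Y)) / Y := by
  have key : ∀ W W' : Finset ℤ, (∀ z : ℤ, |(z : ℝ)| < 2 * Y → z ∈ W') →
      ∑ z ∈ W ∩ W', φ z * h (|(z : ℝ)| / Y) = ∑ z ∈ W, φ z * h (|(z : ℝ)| / Y) := by
    intro W W' hW
    refine sum_subset inter_subset_left fun z hz hz' => ?_
    have : ¬ |(z : ℝ)| < 2 * Y := fun e => hz' (mem_inter.2 ⟨hz, hW z e⟩)
    rw [hk.high _ (by rw [le_div_iff₀ hY]; linarith), mul_zero]
  have hI : ∀ z : ℤ, |(z : ℝ)| < 2 * Y → z ∈ Icc (-⌈2 * Y⌉) ⌈2 * Y⌉ := fun z hz => by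
    have h1 := Int.le_ceil (2 * Y)
    have h2 : ((|z| : ℤ) : ℝ) ≤ (⌈2 * Y⌉ : ℤ) := by push_cast; linarith
    have h3 : |z| ≤ ⌈2 * Y⌉ := by exact_mod_cast h2
    exact mem_Icc.2 (abs_le.1 h3)
  unfold F
  rw [← key _ V hV, inter_comm, key V _ hI]

/-- the centred indicator of a residue class -/
noncomputable def gg (b c : ℤ) (D : ℕ) (z : ℤ) : ℝ :=
  (if b ∣ D * z - c then 1 else 0) - 1 / |(b : ℝ)|

theorem gg_abs {b : ℤ} (hb : b ≠ 0) (c : ℤ) (D : ℕ) (z : ℤ) : |gg b c D z| ≤ 1 := by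
  have h1 : (1 : ℝ) ≤ |(b : ℝ)| := by exact_mod_cast Int.one_le_abs hb
  have h2 : 1 / |(b : ℝ)| ≤ 1 := by rw [div_le_one (by linarith)]; exact h1
  have h3 : 0 ≤ 1 / |(b : ℝ)| := by positivity
  unfold gg
  split_ifs <;> rw [abs_le] <;> constructor <;> linarith

theorem gg_per {b : ℤ} (c : ℤ) (D B : ℕ) (hB : b ∣ (B : ℤ)) (z : ℤ) :
    gg b c D (z + B) = gg b c D z := by
  have : (b ∣ D * (z + B) - c) ↔ (b ∣ D * z - c) := by
    have e : (D : ℤ) * (z + B) - c = (D * z - c) + D * B := by ring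
    rw [e]
    exact Int.dvd_add_left (Dvd.dvd.mul_left hB _)
  unfold gg
  simp only [this]

theorem gg_sum {b : ℤ} (hb : b ≠ 0) (c : ℤ) (D B : ℕ) (hB : b ∣ (B : ℤ))
    (hc : IsCoprime b (D : ℤ)) : ∑ x ∈ range B, gg b c D x = 0 := by
  have h1 : b.natAbs ∣ B := by
    have : ((b.natAbs : ℕ) : ℤ) ∣ (B : ℤ) := Int.natAbs_dvd.2 hB
    exact_mod_cast this
  have h2 : IsCoprime (D : ℤ) ((b.natAbs : ℕ) : ℤ) :=
    hc.symm.of_isCoprime_of_dvd_right (Int.natAbs_dvd.2 dvd_rfl)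
  have h3 := count_dvd b.natAbs B (Int.natAbs_pos.2 hb) h1 D c h2
  simp only [Int.natAbs_dvd] at h3
  unfold gg
  rw [sum_sub_distrib, h3]
  simp [div_eq_mul_inv]

theorem edge {h : ℝ → ℝ} {a L : ℝ} (hk : Ker h a L) {b : ℤ} (hb : b ≠ 0) (c : ℤ) {D : ℕ}
    (hD : 0 < D) (φ : ℤ → ℝ) (hφ : ∀ z, |φ z| ≤ 1) {Y : ℝ} (hY : 0 < Y) (V : Finset ℤ)
    (hV : ∀ z : ℤ, |(z : ℝ)| < 2 * (Y * (|(b : ℝ)| / D)) → z ∈ V) :
    |∑ z ∈ V, φ z * (if b ∣ D * z - c then h (|(((D * z - c) / b : ℤ) : ℝ)| / Y) / Y else 0) -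
      1 / D * F h φ (Y * (|(b : ℝ)| / D)) -
      |(b : ℝ)| / D * F h (fun z => φ z * gg b c D z) (Y * (|(b : ℝ)| / D))| ≤
      V.card * (L * |(c : ℝ)| / Y ^ 2) := by
  have h1 : (1 : ℝ) ≤ |(b : ℝ)| := by exact_mod_cast Int.one_le_abs hb
  have hD' : (0 : ℝ) < D := by exact_mod_cast hD
  have hL := hk.L_nonneg
  set β := |(b : ℝ)| with hβ
  have hβ0 : 0 < β := by linarith
  have hY' : 0 < Y * (β / D) := by positivity
  rw [F_eq hk _ hY' V hV, F_eq hk _ hY' V hV, sum_div, sum_div, mul_sum, mul_sum,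
    ← sum_sub_distrib, ← sum_sub_distrib]
  refine (abs_sum_le_sum_abs _ _).trans ?_
  rw [← nsmul_eq_mul]
  refine sum_le_card_nsmul _ _ _ fun z _ => ?_
  unfold gg
  rw [← hβ]
  split_ifs with e
  · set y : ℤ := (D * z - c) / b with hy
    have e1 : (b : ℝ) * y = D * z - c := by exact_mod_cast Int.mul_ediv_cancel' e
    have e2 : φ z * (h (|(y : ℝ)| / Y) / Y) -
        1 / D * (φ z * h (|(z : ℝ)| / (Y * (β / D))) / (Y * (β / D))) -
        β / D * (φ z * (1 - 1 / β) * h (|(z : ℝ)| / (Y * (β / D))) / (Y * (β / D))) =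
        φ z * (h (|(y : ℝ)| / Y) - h (|(z : ℝ)| / (Y * (β / D)))) / Y := by
      field_simp
      ring
    have e3 : |(y : ℝ)| / Y - |(z : ℝ)| / (Y * (β / D)) =
        (|(D : ℝ) * z - c| - |(D : ℝ) * z|) / (β * Y) := by
      rw [← e1, abs_mul, abs_mul, ← hβ, abs_of_pos hD']
      field_simp
    have e4 : abs (|(D : ℝ) * z - c| - |(D : ℝ) * z|) ≤ |(c : ℝ)| := by
      refine (abs_abs_sub_abs_le_abs_sub _ _).trans_eq ?_
      rw [sub_sub_cancel_left, abs_neg]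
    have e5 : abs (|(y : ℝ)| / Y - |(z : ℝ)| / (Y * (β / D))) ≤ |(c : ℝ)| / Y := by
      rw [e3, abs_div, abs_of_pos (mul_pos hβ0 hY)]
      have : Y ≤ β * Y := by nlinarith
      gcongr
    have e6 := (hk.lip (|(y : ℝ)| / Y) (|(z : ℝ)| / (Y * (β / D)))).trans
      (mul_le_mul_of_nonneg_left e5 hL)
    rw [e2, abs_div, abs_mul, abs_of_pos hY]
    calc |φ z| * |h (|(y : ℝ)| / Y) - h (|(z : ℝ)| / (Y * (β / D)))| / Y
        ≤ 1 * (L * (|(c : ℝ)| / Y)) / Y := by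
          gcongr
          exact hφ z
      _ = _ := by field_simp
  · have e2 : φ z * 0 - 1 / D * (φ z * h (|(z : ℝ)| / (Y * (β / D))) / (Y * (β / D))) -
        β / D * (φ z * (0 - 1 / β) * h (|(z : ℝ)| / (Y * (β / D))) / (Y * (β / D))) = 0 := by
      field_simp
      ring
    rw [e2, abs_zero]
    positivity

theorem one_step {S E : Type} [Fintype S] [Fintype E] [DecidableEq S] [DecidableEq E]
    (X : Sys S E) (χ : S × ℤ → ℝ) (k : ℤ → ℝ) (V : Finset ℤ) (s : S) :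
    ∑ s', X.π s' * ∑ z ∈ V, χ (s', z) * X.Ex 1 s' (fun l =>
      X.pull l z ((fun s'' u => if s'' = s then k u else 0) (X.endp s' l)) / X.rr l) =
    ∑ e with X.src e = s, X.π s * ∑ z ∈ V, χ (X.tgt e, z) *
      (if X.b e ∣ X.D e * z - X.c e then k ((X.D e * z - X.c e) / X.b e) else 0) := by
  have h1 : ∀ s' z, X.π s' * (χ (s', z) * X.Ex 1 s' (fun l =>
      X.pull l z ((fun s'' u => if s'' = s then k u else 0) (X.endp s' l)) / X.rr l)) =
      ∑ e ∈ X.into s', if X.src e = s then X.π s * (χ (X.tgt e, z) *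
        (if X.b e ∣ X.D e * z - X.c e then k ((X.D e * z - X.c e) / X.b e) else 0)) else 0 := by
    intro s' z
    rw [Sys.Ex, X.sum_Paths_succ 0 s', mul_sum, mul_sum]
    refine sum_congr rfl fun e he => ?_
    have he' : X.tgt e = s' := X.mem_into.1 he
    subst he'
    have p1 := (X.π_pos (X.tgt e)).ne'
    have p2 : (X.D e : ℝ) ≠ 0 := by exact_mod_cast (X.D_pos e).ne'
    have p3 : |(X.b e : ℝ)| ≠ 0 := by
      rw [abs_ne_zero]; exact_mod_cast X.b_ne e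
    simp only [Sys.Paths_zero, sum_singleton, Sys.wt_cons, Sys.wt_nil, mul_one, Sys.endp_cons,
      Sys.endp_nil, Sys.pull, Sys.rr, Sys.bP_cons, Sys.bP_nil, Sys.DP_cons, Sys.DP_nil,
      Sys.cP_cons, Sys.cP_nil, mul_zero, zero_add, Nat.cast_one, Sys.q]
    by_cases e1 : X.src e = s
    · by_cases e2 : X.b e ∣ X.D e * z - X.c e
      · simp only [e1, e2, if_true]
        field_simp
      · simp [e1, e2]
    · simp [e1]
  simp only [mul_sum, h1]
  rw [sum_filter]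
  have h2 : ∀ f : E → ℤ → ℝ, ∑ s', ∑ z ∈ V, ∑ e ∈ X.into s', f e z = ∑ e, ∑ z ∈ V, f e z := by
    intro f
    rw [← sum_fiberwise_of_maps_to (s := univ) (t := univ) (g := X.tgt) (by simp)]
    exact sum_congr rfl fun s' _ => sum_comm
  rw [h2]
  refine sum_congr rfl fun e _ => ?_
  split_ifs <;> simp

end Hf

open Hf in
theorem harmf_st : HarmFSt := by
  intro S E ι _ _ _ _ X χ nx R hI L hL hE h a Lp hk
  obtain ⟨h0, h1, hR⟩ := hI
  obtain ⟨C0, t0, hC⟩ := hE h a Lp hk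
  have hχ : ∀ k x, |χ k x| ≤ 1 := fun k x => by rw [abs_of_nonneg (h0 k x)]; exact h1 k x
  have hB : ∀ e, X.b e ∣ (((X.pow L).B0 : ℕ) : ℤ) := fun e => by
    obtain ⟨n, rfl⟩ : ∃ n, L = n + 1 := ⟨L - 1, by omega⟩
    obtain ⟨l, hl⟩ := Sys.exists_path (X := X) n (X.src e)
    have h2 := (X.pow (n + 1)).b_dvd_B0
      ⟨(X.tgt e, e :: l), X.mem_PF.2 (X.cons_mem_Paths.2 ⟨rfl, hl⟩)⟩
    refine Dvd.dvd.trans ?_ h2
    show X.b e ∣ X.bP (e :: l)
    rw [Sys.bP_cons]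
    exact Dvd.intro _ rfl
  set K : ℝ := ∑ e, (2 * |(X.b e : ℝ)| + |(X.c e : ℝ)|) with hK
  have hKe : ∀ e, 2 * |(X.b e : ℝ)| + |(X.c e : ℝ)| ≤ K := fun e =>
    single_le_sum (f := fun e => 2 * |(X.b e : ℝ)| + |(X.c e : ℝ)|) (fun _ _ => by positivity)
      (mem_univ e)
  have hK0 : 0 ≤ K := sum_nonneg fun _ _ => by positivity
  set M : ℝ := ∑ e, |Real.log (|(X.b e : ℝ)| / X.D e)| with hM
  have hMe : ∀ e, |Real.log (|(X.b e : ℝ)| / X.D e)| ≤ M := fun e =>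
    single_le_sum (f := fun e => |Real.log (|(X.b e : ℝ)| / X.D e)|) (fun _ _ => abs_nonneg _)
      (mem_univ e)
  have hM0 : 0 ≤ M := sum_nonneg fun _ _ => abs_nonneg _
  have ha := hk.a_pos
  have hLp := hk.L_nonneg
  refine ⟨∑ e, ((2 * K + 3) * (Lp * |(X.c e : ℝ)|) * 2 + |(X.b e : ℝ)| / X.D e * (4 * |C0|)),
    |t0| + 2 * M + |R| / a + 1, fun k s t ht => ?_⟩
  have q1 := abs_nonneg t0
  have q2 : 0 ≤ |R| / a := by positivity
  have ht1 : 1 ≤ t := by linarith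
  set Y := Real.exp t with hYd
  have hY1 : t + 1 ≤ Y := Real.add_one_le_exp t
  have hY : 0 < Y := by linarith
  have hY2 : t ^ 2 / 2 ≤ Y := by
    have := Real.quadratic_le_exp_of_nonneg (show 0 ≤ t by linarith)
    linarith
  set V : Finset ℤ := Icc (-⌈K * Y⌉) ⌈K * Y⌉ with hVd
  have hV : ∀ z : ℤ, |(z : ℝ)| ≤ K * Y → z ∈ V := fun z hz => by
    have h1 := Int.le_ceil (K * Y)
    have h2 : ((|z| : ℤ) : ℝ) ≤ (⌈K * Y⌉ : ℤ) := by push_cast; linarith
    have h3 : |z| ≤ ⌈K * Y⌉ := by exact_mod_cast h2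
    exact mem_Icc.2 (abs_le.1 h3)
  have hVc : (V.card : ℝ) ≤ (2 * K + 3) * Y := by
    have k0 : 0 ≤ K * Y := by positivity
    have k1 : 0 ≤ ⌈K * Y⌉ := Int.ceil_nonneg k0
    have k2 : (V.card : ℤ) = ⌈K * Y⌉ + 1 - -⌈K * Y⌉ := Int.card_Icc_of_le _ _ (by omega)
    have k3 : (V.card : ℝ) = (⌈K * Y⌉ : ℤ) + 1 - -((⌈K * Y⌉ : ℤ) : ℝ) := by exact_mod_cast k2
    have k4 := Int.ceil_lt_add_one (K * Y)
    nlinarith
  have push := push2 X (χ k) (χ (nx k)) 1 (fun s'' u => if s'' = s then h (|(u : ℝ)| / Y) / Y else 0)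
    (Icc (-⌈2 * Y⌉) ⌈2 * Y⌉) V (by
      intro s' u hu
      have k1 : h (|(u : ℝ)| / Y) ≠ 0 := by
        intro e
        apply hu
        simp [e]
      have k2 : |(u : ℝ)| < 2 * Y := by
        by_contra e
        exact k1 (hk.high _ (by rw [le_div_iff₀ hY]; linarith))
      have k3 : a * Y < |(u : ℝ)| := by
        by_contra e
        exact k1 (hk.low _ (by rw [div_le_iff₀ hY]; linarith))
      refine ⟨?_, ?_, ?_⟩
      · have h1 := Int.le_ceil (2 * Y)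
        have h2 : ((|u| : ℤ) : ℝ) ≤ (⌈2 * Y⌉ : ℤ) := by push_cast; linarith
        have h3 : |u| ≤ ⌈2 * Y⌉ := by exact_mod_cast h2
        exact mem_Icc.2 (abs_le.1 h3)
      · refine hV _ ?_
        rw [Function.iterate_one]
        have m1 : (X.D (X.lab (s', u)) : ℝ) * ((X.step (s', u)).2 : ℝ) =
            X.b (X.lab (s', u)) * u + X.c (X.lab (s', u)) := by exact_mod_cast X.step_mul (s', u)
        have m2 : (1 : ℝ) ≤ X.D (X.lab (s', u)) := by exact_mod_cast X.D_pos _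
        have m3 := hKe (X.lab (s', u))
        have m4 : (X.D (X.lab (s', u)) : ℝ) * |((X.step (s', u)).2 : ℝ)| ≤
            |(X.b (X.lab (s', u)) : ℝ)| * |(u : ℝ)| + |(X.c (X.lab (s', u)) : ℝ)| := by
          rw [← abs_mul, ← abs_of_nonneg (show (0 : ℝ) ≤ X.D (X.lab (s', u)) by linarith),
            ← abs_mul, m1]
          exact abs_add_le _ _
        have m5 := abs_nonneg ((X.step (s', u)).2 : ℝ)
        have m6 := abs_nonneg (X.b (X.lab (s', u)) : ℝ)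
        have m7 := abs_nonneg (X.c (X.lab (s', u)) : ℝ)
        have m8 := mul_le_mul_of_nonneg_left k2.le m6
        have m9 := mul_le_mul_of_nonneg_right m3 hY.le
        have m10 := mul_le_mul_of_nonneg_left (show 1 ≤ Y by linarith) m7
        have m11 := mul_le_mul_of_nonneg_right m2 m5
        linarith
      · rw [Function.iterate_one]
        refine hR k _ ?_
        have m1 : |R| / a ≤ Y := by linarith
        rw [div_le_iff₀ ha] at m1
        have m2 := le_abs_self R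
        show R < |(u : ℝ)|
        linarith)
  rw [one_step X (χ (nx k)) (fun u => h (|(u : ℝ)| / Y) / Y) V s] at push
  have hleft : ∑ s', X.π s' * ∑ u ∈ Icc (-⌈2 * Y⌉) ⌈2 * Y⌉, χ k (s', u) *
      (if s' = s then h (|(u : ℝ)| / Y) / Y else 0) = X.π s * F h (fun u => χ k (s, u)) Y := by
    rw [sum_eq_single s (fun s' _ e => by simp [e]) (by simp)]
    simp only [if_true, F, sum_div, mul_div_assoc]
  rw [← hleft, push, ← sum_sub_distrib]
  have hπ0 := X.π_pos s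
  have hπ1 : X.π s ≤ 1 := by
    rw [← X.π_sum]
    exact single_le_sum (fun s _ => (X.π_pos s).le) (mem_univ s)
  refine (abs_sum_le_sum_abs _ _).trans ?_
  rw [sum_div]
  refine le_trans (sum_le_sum fun e he => ?_)
    (sum_le_sum_of_subset_of_nonneg (filter_subset _ _) fun e _ _ => by positivity)
  have hb1 : (1 : ℝ) ≤ |(X.b e : ℝ)| := by exact_mod_cast Int.one_le_abs (X.b_ne e)
  have hD1 : (1 : ℝ) ≤ X.D e := by exact_mod_cast X.D_pos e
  have hr : 0 < |(X.b e : ℝ)| / X.D e := by positivity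
  have hexp : Real.exp (t + Real.log (|(X.b e : ℝ)| / X.D e)) = Y * (|(X.b e : ℝ)| / X.D e) := by
    rw [Real.exp_add, Real.exp_log hr]
  have e1 := edge hk (X.b_ne e) (X.c e) (X.D_pos e) (fun z => χ (nx k) (X.tgt e, z)) (fun z => hχ _ _) hY V
    (fun z hz => hV z (by
      have m1 : |(X.b e : ℝ)| / X.D e ≤ |(X.b e : ℝ)| := div_le_self (by linarith) hD1
      have m2 := mul_le_mul_of_nonneg_left m1 hY.le
      have m3 := mul_le_mul_of_nonneg_right (hKe e) hY.le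
      have m4 : 0 ≤ |(X.c e : ℝ)| * Y := by positivity
      linarith))
  have l1 := abs_le.1 (hMe e)
  have e2 := hC (nx k) (X.tgt e) (gg (X.b e) (X.c e) (X.D e)) (gg_per _ _ _ (hB e))
    (gg_sum (X.b_ne e) _ _ _ (hB e) (X.cop_D' e e)) (gg_abs (X.b_ne e) _ _)
    (t + Real.log (|(X.b e : ℝ)| / X.D e)) (by linarith [le_abs_self t0])
  have e3 : C0 / (t + Real.log (|(X.b e : ℝ)| / X.D e)) ^ 2 ≤ 4 * |C0| / t ^ 2 := by
    have m1 : t / 2 ≤ t + Real.log (|(X.b e : ℝ)| / X.D e) := by linarith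
    calc C0 / (t + Real.log (|(X.b e : ℝ)| / X.D e)) ^ 2
        ≤ |C0| / (t + Real.log (|(X.b e : ℝ)| / X.D e)) ^ 2 := by
          gcongr
          exact le_abs_self _
      _ ≤ |C0| / (t / 2) ^ 2 := by gcongr
      _ = 4 * |C0| / t ^ 2 := by field_simp; ring
  have e4 : (V.card : ℝ) * (Lp * |(X.c e : ℝ)| / Y ^ 2) ≤
      (2 * K + 3) * (Lp * |(X.c e : ℝ)|) * 2 / t ^ 2 := by
    calc (V.card : ℝ) * (Lp * |(X.c e : ℝ)| / Y ^ 2)
        ≤ (2 * K + 3) * Y * (Lp * |(X.c e : ℝ)| / Y ^ 2) := by gcongr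
      _ = (2 * K + 3) * (Lp * |(X.c e : ℝ)|) / Y := by field_simp
      _ ≤ (2 * K + 3) * (Lp * |(X.c e : ℝ)|) / (t ^ 2 / 2) := by gcongr
      _ = _ := by field_simp
  rw [hexp] at e2
  rw [hexp, (mem_filter.1 he).2]
  have e5 := mul_le_mul_of_nonneg_left (e2.trans e3) hr.le
  generalize F h (fun u => χ (nx k) (X.tgt e, u) * gg (X.b e) (X.c e) (X.D e) u)
    (Y * (|(X.b e : ℝ)| / X.D e)) = f2 at e1 e5
  generalize F h (fun u => χ (nx k) (X.tgt e, u)) (Y * (|(X.b e : ℝ)| / X.D e)) = f1 at e1 ⊢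
  generalize (∑ z ∈ V, χ (nx k) (X.tgt e, z) * (if X.b e ∣ X.D e * z - X.c e then
    h (|(((X.D e * z - X.c e) / X.b e : ℤ) : ℝ)| / Y) / Y else 0)) = A at e1 ⊢
  have e6 : X.π s * A - X.π s / X.D e * f1 = X.π s *
      ((A - 1 / X.D e * f1 - |(X.b e : ℝ)| / X.D e * f2) + |(X.b e : ℝ)| / X.D e * f2) := by
    ring
  rw [e6, abs_mul, abs_of_pos hπ0]
  refine (mul_le_of_le_one_left (abs_nonneg _) hπ1).trans ((abs_add_le _ _).trans ?_)
  rw [abs_mul, abs_of_pos hr, add_div, mul_div_assoc (|(X.b e : ℝ)| / X.D e)]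
  exact add_le_add (e1.trans e4) e5

end Pool.Agent.Lib.MP_39d40e_nt.St
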