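import Pool.Agent.Lib.MP_39d40e_nt.St1

/-! Normal law of entry times: the comparison argument. -/

namespace Pool.Agent.Lib.MP_39d40e_nt.St

open Finset Filter Topology

theorem tay (φ x y m : ℝ) (hm : m ≤ 1) (hx : |x| ≤ m ^ 2) (hy : |y| ≤ m) :
    |Real.exp x * Real.cos (φ + y) - (Real.cos φ * (1 + x - y ^ 2 / 2) - Real.sin φ * y)|
      ≤ 6 * m ^ 3 := by
  have m0 : 0 ≤ m := (abs_nonneg y).trans hy
  have m2 : m ^ 2 ≤ 1 := pow_le_one₀ m0 hm
  have m4 : m ^ 4 ≤ m ^ 3 := pow_le_pow_of_le_one m0 hm (by norm_num)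
  have m3 : 0 ≤ m ^ 3 := by positivity
  have y4 : |y| ^ 4 ≤ m ^ 4 := pow_le_pow_left₀ (abs_nonneg _) hy 4
  have y3 : |y| ^ 3 ≤ m ^ 3 := pow_le_pow_left₀ (abs_nonneg _) hy 3
  have r1 : |Real.exp x - 1 - x| ≤ m ^ 3 := by
    refine (Real.abs_exp_sub_one_sub_id_le (hx.trans m2)).trans ?_
    rw [← sq_abs]
    calc |x| ^ 2 ≤ (m ^ 2) ^ 2 := pow_le_pow_left₀ (abs_nonneg _) hx 2
      _ = m ^ 4 := by ring
      _ ≤ _ := m4
  have r2 : |Real.cos y - (1 - y ^ 2 / 2)| ≤ m ^ 3 :=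
    (Real.cos_bound (hy.trans hm)).trans (by nlinarith)
  have r3 : |Real.sin y - y| ≤ m ^ 3 := by
    have a1 := Real.sin_bound (hy.trans hm)
    have a2 : |y ^ 3 / 6| ≤ m ^ 3 / 6 := by rw [abs_div, abs_pow, abs_of_pos (by norm_num : (0 : ℝ) < 6)]; linarith
    have a3 := abs_sub (Real.sin y - (y - y ^ 3 / 6)) (y ^ 3 / 6)
    rw [show Real.sin y - (y - y ^ 3 / 6) - y ^ 3 / 6 = Real.sin y - y by ring] at a3
    have y5 : |y| ^ 5 ≤ m ^ 3 := (pow_le_pow_left₀ (abs_nonneg _) hy 5).trans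
      (pow_le_pow_of_le_one m0 hm (by norm_num))
    linarith
  have r4 : |Real.cos (φ + y) - Real.cos φ| ≤ m := by
    have := Real.abs_cos_sub_cos_le (φ + y) φ
    rw [add_sub_cancel_left] at this
    exact this.trans hy
  have e : Real.exp x * Real.cos (φ + y) - (Real.cos φ * (1 + x - y ^ 2 / 2) - Real.sin φ * y)
      = (Real.exp x - 1 - x) * Real.cos (φ + y) + x * (Real.cos (φ + y) - Real.cos φ)
        + (Real.cos φ * (Real.cos y - (1 - y ^ 2 / 2)) - Real.sin φ * (Real.sin y - y)) := by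
    rw [Real.cos_add]; ring
  rw [e]
  have b1 : |(Real.exp x - 1 - x) * Real.cos (φ + y)| ≤ m ^ 3 := by
    rw [abs_mul]; exact (mul_le_of_le_one_right (abs_nonneg _) (Real.abs_cos_le_one _)).trans r1
  have b2 : |x * (Real.cos (φ + y) - Real.cos φ)| ≤ m ^ 3 := by
    rw [abs_mul]
    exact (mul_le_mul hx r4 (abs_nonneg _) (by positivity)).trans (le_of_eq (by ring))
  have b3 : |Real.cos φ * (Real.cos y - (1 - y ^ 2 / 2))| ≤ m ^ 3 := by
    rw [abs_mul]; exact (mul_le_of_le_one_left (abs_nonneg _) (Real.abs_cos_le_one _)).trans r2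
  have b4 : |Real.sin φ * (Real.sin y - y)| ≤ m ^ 3 := by
    rw [abs_mul]; exact (mul_le_of_le_one_left (abs_nonneg _) (Real.abs_sin_le_one _)).trans r3
  rw [abs_le] at b1 b2 b3 b4 ⊢
  constructor <;> linarith [b1.1, b1.2, b2.1, b2.2, b3.1, b3.2, b4.1, b4.2]

theorem near0 (φ x y : ℝ) (hx : |x| ≤ 1) :
    |Real.exp x * Real.cos (φ + y) - Real.cos φ| ≤ 2 * |x| + |y| := by
  have r1 := Real.abs_exp_sub_one_le hx
  have r4 : |Real.cos (φ + y) - Real.cos φ| ≤ |y| := by
    have := Real.abs_cos_sub_cos_le (φ + y) φ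
    rwa [add_sub_cancel_left] at this
  have b1 : |(Real.exp x - 1) * Real.cos (φ + y)| ≤ 2 * |x| := by
    rw [abs_mul]; exact (mul_le_of_le_one_right (abs_nonneg _) (Real.abs_cos_le_one _)).trans r1
  have e : Real.exp x * Real.cos (φ + y) - Real.cos φ
      = (Real.exp x - 1) * Real.cos (φ + y) + (Real.cos (φ + y) - Real.cos φ) := by ring
  rw [e]
  exact (abs_add_le _ _).trans (add_le_add b1 r4)

section

variable {S E : Type} [Fintype S] [Fintype E] [DecidableEq S]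

omit [Fintype S] in
theorem cmp (src tgt : E → S) (p σ : E → ℝ) (hp : ∀ e, 0 ≤ p e)
    (h1 : ∀ s, ∑ e with src e = s, p e = 1) (Q : ℝ → S → ℝ → ℝ) (θ t1 Z Mx η : ℝ) (hη : 0 < η)
    (hZ : ∀ e, |σ e| ≤ Z) (hM : ∀ k s t, t1 - Z ≤ t → Q k s t ≤ Mx)
    (hb : ∀ k s t, t1 - Z ≤ t → t ≤ t1 → Q k s t ≤ 0)
    (hs : ∀ k s t, t1 < t →
      Q k s t ≤ ∑ e with src e = s, p e * Q (k + θ) (tgt e) (t + σ e) - η) :
    ∀ k s t, t1 - Z ≤ t → Q k s t ≤ 0 := by
  have key : ∀ n : ℕ, ∀ k s t, t1 - Z ≤ t → Q k s t ≤ max 0 (Mx - n * η) := by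
    intro n
    induction n with
    | zero => intro k s t ht; simpa using Or.inr (hM k s t ht)
    | succ n ih =>
      intro k s t ht
      rcases le_or_gt t t1 with h | h
      · exact (hb k s t ht h).trans (le_max_left _ _)
      · have a1 : ∑ e with src e = s, p e * Q (k + θ) (tgt e) (t + σ e)
            ≤ ∑ e with src e = s, p e * max 0 (Mx - n * η) :=
          sum_le_sum fun e _ => mul_le_mul_of_nonneg_left
            (ih _ _ _ (by linarith [neg_abs_le (σ e), hZ e])) (hp e)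
        rw [← sum_mul, h1, one_mul] at a1
        have a2 := hs k s t h
        rcases le_total 0 (Mx - n * η) with c | c
        · rw [max_eq_right c] at a1
          refine le_trans ?_ (le_max_right _ _)
          push_cast; linarith
        · rw [max_eq_left c] at a1
          exact le_trans (by linarith) (le_max_left _ _)
  intro k s t ht
  obtain ⟨n, hn⟩ := exists_nat_ge (Mx / η)
  rw [div_le_iff₀ hη] at hn
  have := key n k s t ht
  rwa [max_eq_left (by linarith)] at this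

omit [Fintype S] in
theorem defect (src tgt : E → S) (p σ : E → ℝ) (g u : S → ℝ) (β c : ℝ) (hβ : 0 < β)
    (hp : ∀ e, 0 ≤ p e) (h1 : ∀ s, ∑ e with src e = s, p e = 1)
    (hg : ∀ s, ∑ e with src e = s, p e * (σ e + g (tgt e)) = g s - β)
    (hu : ∀ s, ∑ e with src e = s, p e *
      (u (tgt e) - c * σ e - (σ e + g (tgt e) - g (src e) + β) ^ 2 / (2 * β ^ 2)) = u s) :
    ∃ K : ℝ, 1 ≤ K ∧ ∀ θ : ℝ, K * |θ| ≤ 1 → ∀ (s : S) (φ : ℝ),
      |∑ e with src e = s, p e * (Real.exp (θ ^ 2 * (u (tgt e) - u s - c * σ e))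
        * Real.cos (φ + θ * ((σ e + g (tgt e) - g s + β) / β))) - Real.cos φ|
        ≤ 6 * (K * |θ|) ^ 3 := by
  set a : E → ℝ := fun e => u (tgt e) - u (src e) - c * σ e with ha
  set b : E → ℝ := fun e => (σ e + g (tgt e) - g (src e) + β) / β with hb
  have a0 : 0 ≤ ∑ e, |a e| := sum_nonneg fun _ _ => abs_nonneg _
  have b0 : 0 ≤ ∑ e, |b e| := sum_nonneg fun _ _ => abs_nonneg _
  set K := 1 + ∑ e, |a e| + ∑ e, |b e| with hK
  have K1 : 1 ≤ K := by linarith
  refine ⟨K, K1, fun θ hθ s φ => ?_⟩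
  have s1 : ∑ e with src e = s, p e * b e = 0 := by
    have : ∑ e with src e = s, p e * b e
        = (∑ e with src e = s, p e * (σ e + g (tgt e)) + (∑ e with src e = s, p e) * (β - g s)) / β := by
      rw [sum_mul, ← sum_add_distrib, sum_div]
      exact sum_congr rfl fun e he => by simp only [hb, (mem_filter.1 he).2]; ring
    rw [this, hg, h1]; simp
  have s2 : ∑ e with src e = s, p e * (a e - b e ^ 2 / 2) = 0 := by
    have : ∑ e with src e = s, p e * (a e - b e ^ 2 / 2)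
        = ∑ e with src e = s, p e *
          (u (tgt e) - c * σ e - (σ e + g (tgt e) - g (src e) + β) ^ 2 / (2 * β ^ 2))
          - (∑ e with src e = s, p e) * u s := by
      rw [sum_mul, ← sum_sub_distrib]
      refine sum_congr rfl fun e he => ?_
      simp only [ha, hb, (mem_filter.1 he).2]; field_simp; ring
    rw [this, hu, h1]; simp
  have s3 : Real.cos φ = ∑ e with src e = s, p e *
      (Real.cos φ * (1 + θ ^ 2 * a e - (θ * b e) ^ 2 / 2) - Real.sin φ * (θ * b e)) := by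
    have : ∀ e, p e * (Real.cos φ * (1 + θ ^ 2 * a e - (θ * b e) ^ 2 / 2) - Real.sin φ * (θ * b e))
        = Real.cos φ * p e + Real.cos φ * θ ^ 2 * (p e * (a e - b e ^ 2 / 2))
          - Real.sin φ * θ * (p e * b e) := fun e => by ring
    simp only [this, sum_sub_distrib, sum_add_distrib, ← mul_sum, h1, s1, s2]
    ring
  conv_lhs => rw [s3]
  rw [← sum_sub_distrib]
  refine (abs_sum_le_sum_abs _ _).trans ?_
  calc _ ≤ ∑ e with src e = s, p e * (6 * (K * |θ|) ^ 3) := by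
        refine sum_le_sum fun e he => ?_
        rw [← mul_sub, abs_mul, abs_of_nonneg (hp e), ← (mem_filter.1 he).2]
        refine mul_le_mul_of_nonneg_left (tay φ (θ ^ 2 * a e) (θ * b e) _ hθ ?_ ?_) (hp e)
        · have c1 := single_le_sum (f := fun e => |a e|) (fun _ _ => abs_nonneg _) (mem_univ e)
          rw [abs_mul, abs_pow, mul_pow, mul_comm]
          exact mul_le_mul_of_nonneg_right (by nlinarith) (by positivity)
        · have c1 := single_le_sum (f := fun e => |b e|) (fun _ _ => abs_nonneg _) (mem_univ e)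
          rw [abs_mul, mul_comm]
          exact mul_le_mul_of_nonneg_right (by linarith) (abs_nonneg _)
    _ = _ := by rw [← sum_mul, h1, one_mul]

end

theorem core_st2 : CoreSt2 := by
  intro S E _ _ _ src tgt p σ g u β c hβ hc hp h1 hg hu i f M C t0 δ hM hH hB ε B' hε
  obtain ⟨B, hBB⟩ : ∃ x : ℝ, x = |B'| * i ^ 2 := ⟨_, rfl⟩
  obtain ⟨K1, K11, hK1⟩ := defect src tgt p σ g u β c hβ hp h1 hg hu
  obtain ⟨Z, hZ⟩ : ∃ x : ℝ, x = ∑ e, |σ e| := ⟨_, rfl⟩
  obtain ⟨G, hG⟩ : ∃ x : ℝ, x = ∑ s, |g s| := ⟨_, rfl⟩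
  obtain ⟨U, hU⟩ : ∃ x : ℝ, x = ∑ s, |u s| := ⟨_, rfl⟩
  have Z0 : 0 ≤ Z := hZ ▸ sum_nonneg fun _ _ => abs_nonneg _
  have G0 : 0 ≤ G := hG ▸ sum_nonneg fun _ _ => abs_nonneg _
  have U0 : 0 ≤ U := hU ▸ sum_nonneg fun _ _ => abs_nonneg _
  have Z1 : ∀ e, |σ e| ≤ Z := fun e => hZ ▸
    single_le_sum (f := fun e => |σ e|) (fun _ _ => abs_nonneg _) (mem_univ e)
  have G1 : ∀ s, |g s| ≤ G := fun s => hG ▸
    single_le_sum (f := fun s => |g s|) (fun _ _ => abs_nonneg _) (mem_univ s)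
  have U1 : ∀ s, |u s| ≤ U := fun s => hU ▸
    single_le_sum (f := fun s => |u s|) (fun _ _ => abs_nonneg _) (mem_univ s)
  obtain ⟨ε1, hε1⟩ : ∃ x : ℝ, x = ε / 6 := ⟨_, rfl⟩
  clear hZ hG hU
  have ε0 : 0 < ε1 := by rw [hε1]; positivity
  obtain ⟨T, hT⟩ := hB ε1 ε0
  obtain ⟨K2, hK2⟩ : ∃ x : ℝ, x = 4 * |C| / β := ⟨_, rfl⟩
  have K20 : 0 ≤ K2 := by rw [hK2]; positivity
  obtain ⟨t1, ht1⟩ : ∃ x : ℝ, x = |T| + |t0| + 2 * G + 2 * Z + 1 + K2 / ε1 := ⟨_, rfl⟩
  have p1 : 0 ≤ K2 / ε1 := by positivity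
  have p2 := abs_nonneg T
  have p3 := abs_nonneg t0
  have t10 : 0 < t1 := by linarith
  obtain ⟨θ0, θ00, hθ0⟩ := hT t1
  obtain ⟨Kx, hKx⟩ : ∃ x : ℝ, x = c * (Z + t1) + U := ⟨_, rfl⟩
  obtain ⟨Ky, hKy⟩ : ∃ x : ℝ, x = (Z + G + t1) / β := ⟨_, rfl⟩
  have Kx0 : 0 ≤ Kx := by rw [hKx]; positivity
  have Ky0 : 0 ≤ Ky := by rw [hKy]; positivity
  obtain ⟨K3, hK3⟩ : ∃ x : ℝ, x = |δ| * Real.exp 1 * (6 * K1 ^ 3) := ⟨_, rfl⟩
  have K30 : 0 ≤ K3 := by rw [hK3]; positivity
  obtain ⟨K6, hK6⟩ : ∃ x : ℝ, x = 1 + 1 / θ0 + K1 + Kx + |δ| * (2 * Kx + Ky) / ε1 + K3 * |B| / (β * ε1) := ⟨_, rfl⟩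
  have q1 : 0 ≤ 1 / θ0 := by positivity
  have q2 : 0 ≤ |δ| * (2 * Kx + Ky) / ε1 := by positivity
  have q3 : 0 ≤ K3 * |B| / (β * ε1) := by positivity
  have K60 : 0 < K6 := by linarith
  refine ⟨t1 + |B'| * (K6 * (1 + |i|)) ^ 2, fun t ht θ' hθ' k s => ?_⟩
  have q4 : 0 ≤ |B'| * (K6 * (1 + |i|)) ^ 2 := by positivity
  have tp : 0 < t := by linarith
  have sm0 : K6 * (1 + |i|) * |θ'| ≤ 1 := by
    have a1 : (K6 * (1 + |i|) * |θ'|) ^ 2 * t ≤ 1 * t := by
      rw [mul_pow, sq_abs, mul_assoc]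
      have := mul_le_mul_of_nonneg_left (hθ'.trans (le_abs_self B')) (sq_nonneg (K6 * (1 + |i|)))
      linarith
    have a2 := le_of_mul_le_mul_right a1 tp
    exact (sq_le_one_iff₀ (by positivity)).1 a2
  have hH' := hH θ'
  obtain ⟨θ, hθi⟩ : ∃ x : ℝ, x = θ' * i := ⟨_, rfl⟩
  rw [← hθi]
  simp only [← hθi] at hH'
  have θa := abs_nonneg θ
  have hθ : θ ^ 2 * t ≤ B := by
    have := mul_le_mul_of_nonneg_right (hθ'.trans (le_abs_self B')) (sq_nonneg i)
    rw [hθi, hBB]; linarith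
  have r1 : 0 ≤ K6 * |θ'| := by positivity
  have r2 : 0 ≤ K6 * |θ| := by positivity
  have r3 : K6 * (1 + |i|) * |θ'| = K6 * |θ'| + K6 * |θ| := by rw [hθi, abs_mul]; ring
  have sm : K6 * |θ| ≤ 1 := by linarith
  have s2 : |θ'| ≤ θ0 := by
    have : 1 / θ0 * |θ'| ≤ 1 :=
      (mul_le_mul_of_nonneg_right (by linarith) (abs_nonneg θ')).trans (by linarith : K6 * |θ'| ≤ 1)
    rwa [one_div_mul_eq_div, div_le_one θ00] at this
  have sm' : ∀ x, x ≤ K6 → x * |θ| ≤ 1 := fun x hx =>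
    (mul_le_mul_of_nonneg_right hx θa).trans sm
  have s1 : |θ| ≤ 1 := by simpa using sm' 1 (by linarith)
  have s3 : K1 * |θ| ≤ 1 := sm' _ (by linarith)
  have s4 : Kx * |θ| ≤ 1 := sm' _ (by linarith)
  have s5 : |δ| * ((2 * Kx + Ky) * |θ|) ≤ ε1 := by
    have := sm' (|δ| * (2 * Kx + Ky) / ε1) (by linarith)
    rw [div_mul_eq_mul_div, div_le_one ε0] at this
    linarith
  have s6 : K3 * |B| * |θ| ≤ β * ε1 := by
    have := sm' (K3 * |B| / (β * ε1)) (by linarith)
    rwa [div_mul_eq_mul_div, div_le_one (by positivity)] at this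
  have nr : ∀ φ x y : ℝ, |x| ≤ Kx → |y| ≤ Z + G + t1 →
      |θ ^ 2 * x| ≤ 1 ∧ |δ| * |Real.exp (θ ^ 2 * x) * Real.cos (φ + θ * (y / β)) - Real.cos φ|
        ≤ ε1 := by
    intro φ x y hx hy
    have a1 : |θ ^ 2 * x| ≤ Kx * |θ| := by
      rw [abs_mul, abs_pow, sq, mul_comm Kx]
      exact mul_le_mul (mul_le_of_le_one_left θa s1) hx (abs_nonneg _) θa
    have a2 : |θ * (y / β)| ≤ Ky * |θ| := by
      rw [abs_mul, abs_div, abs_of_pos hβ, mul_comm, hKy]
      exact mul_le_mul_of_nonneg_right (div_le_div_of_nonneg_right hy hβ.le) θa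
    refine ⟨a1.trans s4, le_trans (mul_le_mul_of_nonneg_left
      ((near0 φ _ _ (a1.trans s4)).trans ?_) (abs_nonneg δ)) s5⟩
    linarith
  obtain ⟨A, hA⟩ : ∃ A : S → ℝ → ℝ, ∀ s y, A s y = Real.exp (θ ^ 2 * (u s - c * (y - t1))) :=
    ⟨_, fun _ _ => rfl⟩
  obtain ⟨V, hV⟩ : ∃ V : ℝ → S → ℝ → ℝ, ∀ k s y,
      V k s y = δ * (1 + A s y * Real.cos (k + θ * ((y - t1 + g s) / β))) / 2 :=
    ⟨_, fun _ _ _ => rfl⟩
  obtain ⟨η, hη⟩ : ∃ x : ℝ, x = ε1 * β / t := ⟨_, rfl⟩
  have η0 : 0 < η := by rw [hη]; positivity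
  obtain ⟨γ, hγ⟩ : ∃ x : ℝ, x = (K3 * |θ| ^ 3 + η) / β := ⟨_, rfl⟩
  have γ0 : 0 ≤ γ := by rw [hγ]; positivity
  obtain ⟨W, hW⟩ : ∃ W : S → ℝ → ℝ, ∀ s y, W s y =
      2 * ε1 + K2 * (1 / (t1 - Z - G) - 1 / (y + g s)) + γ * (y - t1 + g s + Z + G) :=
    ⟨_, fun _ _ => rfl⟩
  have cz : 0 ≤ c * Z := mul_nonneg hc Z0
  have ct : 0 ≤ c * t1 := mul_nonneg hc t10.le
  have A0 : ∀ s y, 0 < A s y := fun s y => hA s y ▸ Real.exp_pos _
  have A1 : ∀ s y, t1 - Z ≤ y → A s y ≤ Real.exp 1 := by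
    intro s y hy
    rw [hA]
    refine Real.exp_le_exp.2 ?_
    have a1 : u s - c * (y - t1) ≤ Kx := by
      linarith only [le_abs_self (u s), U1 s, mul_le_mul_of_nonneg_left hy hc, ct, hKx]
    have a2 : θ ^ 2 ≤ |θ| := by rw [← sq_abs, sq]; exact mul_le_of_le_one_left θa s1
    calc θ ^ 2 * (u s - c * (y - t1)) ≤ θ ^ 2 * Kx := by gcongr
      _ ≤ |θ| * Kx := by gcongr
      _ ≤ 1 := by linarith
  have W0 : ∀ s y, t1 - Z ≤ y → 2 * ε1 ≤ W s y := by
    intro s y hy
    have a1 := neg_abs_le (g s)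
    have a2 := G1 s
    have a3 : 1 / (y + g s) ≤ 1 / (t1 - Z - G) :=
      one_div_le_one_div_of_le (by linarith) (by linarith)
    have a4 : 0 ≤ K2 * (1 / (t1 - Z - G) - 1 / (y + g s)) := mul_nonneg K20 (by linarith)
    have a5 : 0 ≤ γ * (y - t1 + g s + Z + G) := mul_nonneg γ0 (by linarith)
    simp only [hW]; linarith
  have main := cmp src tgt p σ hp h1 (fun k s y => |f θ' k s y - V k s y| - W s y) θ t1 Z
    (M + |δ| * (1 + Real.exp 1)) η η0 Z1 ?_ ?_ ?_ k s t (by linarith)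
  · have a1 : W s t ≤ 5 * ε1 := by
      have b1 := neg_abs_le (g s)
      have b2 := le_abs_self (g s)
      have b3 := G1 s
      have b4 : 0 ≤ 1 / (t + g s) := one_div_nonneg.2 (by linarith)
      have b5 : K2 * (1 / (t1 - Z - G)) ≤ ε1 := by
        rw [mul_one_div, div_le_iff₀ (by linarith)]
        have c1 : K2 / ε1 ≤ t1 - Z - G := by linarith
        rwa [div_le_iff₀ ε0, mul_comm] at c1
      have b6 : γ * (t - t1 + g s + Z + G) ≤ γ * t := mul_le_mul_of_nonneg_left (by linarith) γ0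
      have b7 : γ * t ≤ 2 * ε1 := by
        have c1 : γ * t = K3 * |θ| * (θ ^ 2 * t) / β + ε1 := by
          rw [hγ, hη, ← sq_abs θ]; field_simp
        have c2 : K3 * |θ| * (θ ^ 2 * t) ≤ K3 * |θ| * |B| :=
          mul_le_mul_of_nonneg_left (hθ.trans (le_abs_self B)) (by positivity)
        have c3 : K3 * |θ| * (θ ^ 2 * t) / β ≤ ε1 := by rw [div_le_iff₀ hβ]; linarith
        linarith
      have b8 := mul_nonneg K20 b4
      simp only [hW]; linarith
    have a2 : |V k s t - δ * (1 + Real.exp (-(c * (θ ^ 2 * t))) * Real.cos (k + θ * t / β)) / 2|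
        ≤ ε1 := by
      have b1 := (nr (k + θ * t / β) (u s + c * t1) (g s - t1) (by
        refine (abs_add_le _ _).trans ?_
        rw [abs_of_nonneg (mul_nonneg hc t10.le)]
        linarith only [U1 s, cz, hKx]) (by
        refine (abs_sub _ _).trans ?_
        rw [abs_of_pos t10]; linarith [G1 s])).2
      have b2 : V k s t - δ * (1 + Real.exp (-(c * (θ ^ 2 * t))) * Real.cos (k + θ * t / β)) / 2
          = Real.exp (-(c * (θ ^ 2 * t))) / 2 * (δ * (Real.exp (θ ^ 2 * (u s + c * t1))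
            * Real.cos (k + θ * t / β + θ * ((g s - t1) / β)) - Real.cos (k + θ * t / β))) := by
        have c1 : A s t = Real.exp (-(c * (θ ^ 2 * t))) * Real.exp (θ ^ 2 * (u s + c * t1)) := by
          rw [← Real.exp_add]; simp only [hA]; congr 1; ring
        have c2 : k + θ * ((t - t1 + g s) / β) = k + θ * t / β + θ * ((g s - t1) / β) := by ring
        simp only [hV]; rw [c1, c2]; ring
      have b3 : Real.exp (-(c * (θ ^ 2 * t))) ≤ 1 :=
        Real.exp_le_one_iff.2 (neg_nonpos.2 (by positivity))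
      have b4 := Real.exp_pos (-(c * (θ ^ 2 * t)))
      rw [b2, abs_mul, abs_mul, abs_of_pos (half_pos b4)]
      exact (mul_le_of_le_one_left (by positivity) (by linarith)).trans b1
    have a3 := abs_sub_le (f θ' k s t) (V k s t)
      (δ * (1 + Real.exp (-(c * (θ ^ 2 * t))) * Real.cos (k + θ * t / β)) / 2)
    linarith
  · intro k s y hy
    have a1 := hM θ' k s y (by linarith)
    have a2 : |V k s y| ≤ |δ| * (1 + Real.exp 1) := by
      have b1 : |A s y * Real.cos (k + θ * ((y - t1 + g s) / β))| ≤ Real.exp 1 := by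
        rw [abs_mul, abs_of_pos (A0 s y)]
        exact (mul_le_of_le_one_right (A0 s y).le (Real.abs_cos_le_one _)).trans (A1 s y hy)
      have b2 := abs_add_le 1 (A s y * Real.cos (k + θ * ((y - t1 + g s) / β)))
      rw [abs_one] at b2
      simp only [hV]
      rw [abs_div, abs_mul, abs_two]
      have b3 := mul_le_mul_of_nonneg_left (b2.trans (add_le_add_right b1 1)) (abs_nonneg δ)
      have b4 : 0 ≤ |δ| * (1 + Real.exp 1) := by positivity
      linarith
    have a3 := abs_sub (f θ' k s y) (V k s y)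
    have a4 := W0 s y hy
    linarith
  · intro k s y hy hy'
    have a1 := hθ0 θ' s2 k s y (by linarith [le_abs_self T]) hy'
    have a2 := (nr k (u s - c * (y - t1)) (y - t1 + g s) (by
      refine (abs_sub _ _).trans ?_
      rw [abs_mul, abs_of_nonneg hc, abs_of_nonpos (by linarith : y - t1 ≤ 0)]
      linarith only [U1 s, mul_le_mul_of_nonneg_left hy hc, ct, hKx]) (by
      refine (abs_add_le _ _).trans ?_
      rw [abs_of_nonpos (by linarith : y - t1 ≤ 0)]; linarith [G1 s])).2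
    have a3 : |δ * (1 + Real.cos k) / 2 - V k s y| ≤ ε1 := by
      have : δ * (1 + Real.cos k) / 2 - V k s y
          = -(δ * (A s y * Real.cos (k + θ * ((y - t1 + g s) / β)) - Real.cos k)) / 2 := by
        simp only [hV]; ring
      rw [this, abs_div, abs_neg, abs_mul, abs_two]
      simp only [hA]
      linarith
    have a4 := abs_sub_le (f θ' k s y) (δ * (1 + Real.cos k) / 2) (V k s y)
    have a5 := W0 s y hy
    linarith
  · intro k s y hy
    have g1 := neg_abs_le (g s)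
    have g2 := le_abs_self (g s)
    have g3 := G1 s
    have yp : 0 < y := by linarith
    have a1 := hH' k s y (by linarith [le_abs_self t0])
    have a2 : |∑ e with src e = s, p e * V (k + θ) (tgt e) (y + σ e) - V k s y|
        ≤ K3 * |θ| ^ 3 := by
      have b1 := hK1 θ s3 s (k + θ * ((y - t1 + g s) / β))
      have b2 : ∑ e with src e = s, p e * V (k + θ) (tgt e) (y + σ e) - V k s y
          = δ * A s y / 2 * (∑ e with src e = s, p e *
            (Real.exp (θ ^ 2 * (u (tgt e) - u s - c * σ e)) * Real.cos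
              (k + θ * ((y - t1 + g s) / β) + θ * ((σ e + g (tgt e) - g s + β) / β)))
            - Real.cos (k + θ * ((y - t1 + g s) / β))) := by
        have c1 : ∀ e, p e * V (k + θ) (tgt e) (y + σ e) = δ / 2 * p e + δ * A s y / 2 * (p e *
            (Real.exp (θ ^ 2 * (u (tgt e) - u s - c * σ e)) * Real.cos
              (k + θ * ((y - t1 + g s) / β) + θ * ((σ e + g (tgt e) - g s + β) / β)))) := by
          intro e
          have d1 : A (tgt e) (y + σ e)
              = A s y * Real.exp (θ ^ 2 * (u (tgt e) - u s - c * σ e)) := by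
            simp only [hA]; rw [← Real.exp_add]; congr 1; ring
          have d2 : k + θ + θ * ((y + σ e - t1 + g (tgt e)) / β)
              = k + θ * ((y - t1 + g s) / β) + θ * ((σ e + g (tgt e) - g s + β) / β) := by
            field_simp; ring
          simp only [hV]; rw [d1, d2]; ring
        simp only [c1, sum_add_distrib, ← mul_sum, h1]
        simp only [hV]; ring
      rw [b2, abs_mul, abs_div, abs_mul, abs_of_pos (A0 s y), abs_two]
      have b3 := A1 s y (by linarith)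
      have b4 := A0 s y
      calc _ ≤ |δ| * Real.exp 1 * (6 * (K1 * |θ|) ^ 3) := by
            refine mul_le_mul ?_ b1 (abs_nonneg _) (by positivity)
            have := mul_le_mul_of_nonneg_left b3 (abs_nonneg δ)
            have : 0 ≤ |δ| * Real.exp 1 := by positivity
            linarith
        _ = _ := by rw [hK3]; ring
    have a3 : ∑ e with src e = s, p e * W (tgt e) (y + σ e)
        ≤ W s y - (|C| / y ^ 2 + K3 * |θ| ^ 3 + η) := by
      have y0 : 0 < y + g s := by linarith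
      have b1 : ∀ e, p e * W (tgt e) (y + σ e) ≤
          (W s y - K2 * g s / (y + g s) ^ 2 - γ * g s) * p e
            + (K2 / (y + g s) ^ 2 + γ) * (p e * (σ e + g (tgt e))) := by
        intro e
        have c0 : 0 < y + σ e + g (tgt e) := by
          linarith [neg_abs_le (σ e), Z1 e, neg_abs_le (g (tgt e)), G1 (tgt e)]
        have c1 : 1 / (y + g s) - (σ e + g (tgt e) - g s) / (y + g s) ^ 2
            ≤ 1 / (y + σ e + g (tgt e)) := by
          rw [le_div_iff₀ c0, ← sub_nonneg]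
          have : 1 - (1 / (y + g s) - (σ e + g (tgt e) - g s) / (y + g s) ^ 2)
              * (y + σ e + g (tgt e)) = (σ e + g (tgt e) - g s) ^ 2 / (y + g s) ^ 2 := by
            field_simp; ring
          rw [this]; positivity
        have c2 := mul_le_mul_of_nonneg_left c1 K20
        have c3 : W (tgt e) (y + σ e) ≤ (W s y - K2 * g s / (y + g s) ^ 2 - γ * g s)
            + (K2 / (y + g s) ^ 2 + γ) * (σ e + g (tgt e)) := by
          have e1 : K2 * (1 / (y + g s) - (σ e + g (tgt e) - g s) / (y + g s) ^ 2)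
              = K2 * (1 / (y + g s)) - K2 / (y + g s) ^ 2 * (σ e + g (tgt e))
                + K2 * g s / (y + g s) ^ 2 := by ring
          simp only [hW]
          linarith
        have c4 := mul_le_mul_of_nonneg_left c3 (hp e)
        linarith
      refine (sum_le_sum fun e _ => b1 e).trans ?_
      rw [sum_add_distrib, ← mul_sum, ← mul_sum, h1, hg]
      have b2 : |C| / y ^ 2 ≤ K2 / (y + g s) ^ 2 * β := by
        have c1 : K2 / (y + g s) ^ 2 * β = 4 * |C| / (y + g s) ^ 2 := by rw [hK2]; field_simp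
        have c2 : |C| / y ^ 2 = 4 * |C| / (2 * y) ^ 2 := by field_simp; ring
        rw [c1, c2]
        gcongr; linarith
      have b3 : γ * β = K3 * |θ| ^ 3 + η := by rw [hγ]; field_simp
      have b4 : (K2 / (y + g s) ^ 2 + γ) * (g s - β)
          = K2 * g s / (y + g s) ^ 2 + γ * g s - K2 / (y + g s) ^ 2 * β - γ * β := by ring
      linarith
    have a4 : |∑ e with src e = s, p e * f θ' (k + θ) (tgt e) (y + σ e)
        - ∑ e with src e = s, p e * V (k + θ) (tgt e) (y + σ e)|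
        ≤ ∑ e with src e = s, p e * |f θ' (k + θ) (tgt e) (y + σ e) - V (k + θ) (tgt e) (y + σ e)| := by
      rw [← sum_sub_distrib]
      refine (abs_sum_le_sum_abs _ _).trans (le_of_eq (sum_congr rfl fun e _ => ?_))
      rw [← mul_sub, abs_mul, abs_of_nonneg (hp e)]
    have a5 : C / y ^ 2 ≤ |C| / y ^ 2 := by gcongr; exact le_abs_self C
    simp only [mul_sub, sum_sub_distrib]
    have a6 := abs_sub_le (f θ' k s y) (∑ e with src e = s, p e * f θ' (k + θ) (tgt e) (y + σ e))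
      (V k s y)
    have a7 := abs_sub_le (∑ e with src e = s, p e * f θ' (k + θ) (tgt e) (y + σ e))
      (∑ e with src e = s, p e * V (k + θ) (tgt e) (y + σ e)) (V k s y)
    linarith

end Pool.Agent.Lib.MP_39d40e_nt.St
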