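import Pool.Agent.Lib.MP_39d40e_nt.St0

/-! The continuity theorem for counts. -/

namespace Pool.Agent.Lib.MP_39d40e_nt

open Finset Filter Topology MeasureTheory ProbabilityTheory

namespace St

namespace Lx

/-- the empirical measure -/
noncomputable def emp (A : Finset ℤ) (Y : ℤ → ℝ) : Measure ℝ :=
  if A.card = 0 then Measure.dirac 0 else (A.card : ENNReal)⁻¹ • ∑ x ∈ A, Measure.dirac (Y x)

theorem emp_prob (A : Finset ℤ) (Y : ℤ → ℝ) : IsProbabilityMeasure (emp A Y) := by
  unfold emp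
  split_ifs with h
  · infer_instance
  · constructor
    rw [Measure.smul_apply, Measure.finsetSum_apply]
    simp only [measure_univ, sum_const, nsmul_eq_mul, mul_one, smul_eq_mul]
    exact ENNReal.inv_mul_cancel (by exact_mod_cast h) (ENNReal.natCast_ne_top _)

theorem emp_char {A : Finset ℤ} (h : A.card ≠ 0) (Y : ℤ → ℝ) (t : ℝ) :
    charFun (emp A Y) t = (((∑ x ∈ A, Real.cos (t * Y x + 0)) / A.card : ℝ) : ℂ) +
      (((∑ x ∈ A, Real.cos (t * Y x + -(Real.pi / 2))) / A.card : ℝ) : ℂ) * Complex.I := by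
  unfold emp
  rw [if_neg h, charFun_apply_real, integral_smul_measure, integral_finsetSum_measure]
  · simp only [integral_dirac, add_zero, ← sub_eq_add_neg, Real.cos_sub_pi_div_two]
    rw [ENNReal.toReal_inv, ENNReal.toReal_natCast, Complex.real_smul]
    push_cast
    rw [div_mul_eq_mul_div, ← add_div, sum_mul, ← sum_add_distrib, div_eq_inv_mul]
    congr 1
    exact sum_congr rfl fun x _ => Complex.exp_mul_I _
  · intro x _
    exact integrable_dirac (by simp)

theorem ncard_eq (A : Finset ℤ) (Y : ℤ → ℝ) (w : ℝ) :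
    Set.ncard {x : ℤ | x ∈ A ∧ Y x ≤ w} = (A.filter fun x => Y x ≤ w).card := by
  rw [← Set.ncard_coe_finset]
  congr 1
  ext x
  simp

theorem emp_Iic {A : Finset ℤ} (h : A.card ≠ 0) (Y : ℤ → ℝ) (w : ℝ) :
    (emp A Y (Set.Iic w)).toReal = ((A.filter fun x => Y x ≤ w).card : ℝ) / A.card := by
  unfold emp
  rw [if_neg h, Measure.smul_apply, Measure.finsetSum_apply]
  have e : ∑ x ∈ A, Measure.dirac (Y x) (Set.Iic w) = ((A.filter fun x => Y x ≤ w).card : ℕ) := by
    rw [card_filter]
    push_cast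
    refine sum_congr rfl fun x _ => ?_
    rw [Measure.dirac_apply, Set.indicator_apply]
    simp
  rw [e, smul_eq_mul, ENNReal.toReal_mul, ENNReal.toReal_inv, ENNReal.toReal_natCast,
    ENNReal.toReal_natCast, div_eq_inv_mul]

theorem ratio {c s : ℕ → ℝ} {δ l : ℝ} (hδ : δ ≠ 0)
    (hc : Tendsto (fun N : ℕ => c N / N) atTop (𝓝 δ))
    (hs : Tendsto (fun N : ℕ => s N / N) atTop (𝓝 (δ * l))) :
    Tendsto (fun N : ℕ => s N / c N) atTop (𝓝 l) := by
  have h := hs.div hc hδ
  rw [mul_div_cancel_left₀ _ hδ] at h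
  refine h.congr' ?_
  filter_upwards [eventually_gt_atTop 0] with N hN
  have hN' : (N : ℝ) ≠ 0 := by exact_mod_cast hN.ne'
  exact div_div_div_cancel_right₀ hN' _ _

end Lx

theorem levy_st : LevySt := by
  intro A Y δ H w
  have hc : Tendsto (fun N : ℕ => ((A N).card : ℝ) / N) atTop (𝓝 δ) := by
    simpa using H 0 0
  simp only [Lx.ncard_eq]
  have p0 := cdf_nonneg (gaussianReal 0 1) w
  have p1 := cdf_le_one (gaussianReal 0 1) w
  by_cases hδ : δ = 0
  · subst hδ
    refine squeeze_zero_norm (fun N => ?_) hc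
    rw [Real.norm_eq_abs, abs_div, Nat.abs_cast]
    refine div_le_div_of_nonneg_right ?_ (Nat.cast_nonneg _)
    have a0 : (0 : ℝ) ≤ (A N).card := Nat.cast_nonneg _
    have a1 : (((A N).filter fun x => Y N x ≤ w).card : ℝ) ≤ (A N).card := by
      exact_mod_cast card_filter_le _ _
    have a2 : (0 : ℝ) ≤ ((A N).filter fun x => Y N x ≤ w).card := Nat.cast_nonneg _
    have a3 := mul_nonneg p0 a0
    have a4 := mul_le_of_le_one_left a0 p1
    rw [abs_le]
    constructor <;> linarith
  have hne : ∀ᶠ N in atTop, (A N).card ≠ 0 := by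
    filter_upwards [hc.eventually_ne hδ] with N hN h0
    apply hN
    rw [h0]
    simp
  let μ : ℕ → ProbabilityMeasure ℝ := fun N => ⟨Lx.emp (A N) (Y N), Lx.emp_prob _ _⟩
  let ν : ProbabilityMeasure ℝ := ⟨gaussianReal 0 1, inferInstance⟩
  have hlim : Tendsto μ atTop (𝓝 ν) := by
    refine ProbabilityMeasure.tendsto_iff_tendsto_charFun.2 fun t => ?_
    have r1 := (Complex.continuous_ofReal.tendsto _).comp (Lx.ratio hδ hc (H t 0))
    have r2 := (Complex.continuous_ofReal.tendsto _).comp (Lx.ratio hδ hc (H t (-(Real.pi / 2))))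
    have r3 := r1.add (r2.mul_const Complex.I)
    have e : charFun (ν : Measure ℝ) t = ((Real.exp (-(t ^ 2 / 2)) * Real.cos 0 : ℝ) : ℂ) +
        ((Real.exp (-(t ^ 2 / 2)) * Real.cos (-(Real.pi / 2)) : ℝ) : ℂ) * Complex.I := by
      change charFun (gaussianReal 0 1) t = _
      rw [charFun_gaussianReal, Real.cos_neg, Real.cos_pi_div_two, Real.cos_zero]
      simp
    rw [e]
    refine r3.congr' ?_
    filter_upwards [hne] with N hN
    exact (Lx.emp_char hN (Y N) t).symm
  have hfr : (ν : Measure ℝ) (frontier (Set.Iic w)) = 0 := by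
    change gaussianReal 0 1 _ = 0
    have := nullSingletonClass_gaussianReal (μ := 0) (one_ne_zero (α := NNReal))
    rw [frontier_Iic]
    exact measure_singleton w
  have k1 := (ENNReal.tendsto_toReal (measure_ne_top _ _)).comp
    (ProbabilityMeasure.tendsto_measure_of_null_frontier_of_tendsto' hlim hfr)
  have e2 : ((ν : Measure ℝ) (Set.Iic w)).toReal = cdf (gaussianReal 0 1) w :=
    (cdf_eq_real _ w).symm
  rw [e2] at k1
  have k2 := (k1.sub_const (cdf (gaussianReal 0 1) w)).mul hc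
  rw [sub_self, zero_mul] at k2
  refine k2.congr' ?_
  filter_upwards [hne] with N hN
  have hN' : ((A N).card : ℝ) ≠ 0 := by exact_mod_cast hN
  change ((Lx.emp (A N) (Y N) (Set.Iic w)).toReal - _) * _ = _
  rw [Lx.emp_Iic hN, ← mul_div_assoc, sub_mul, div_mul_cancel₀ _ hN']

end St

end Pool.Agent.Lib.MP_39d40e_nt
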