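import Pool.Agent.Lib.MP_39d40e_nt.St1
import Pool.Agent.Lib.MP_39d40e_nt.StL

/-! The continuity theorem for counts, with test functions. -/

namespace Pool.Agent.Lib.MP_39d40e_nt

open Finset Filter Topology MeasureTheory ProbabilityTheory

namespace St

namespace Lx

theorem emp_int {A : Finset ℤ} (h : A.card ≠ 0) (Y : ℤ → ℝ) (φ : ℝ → ℝ) :
    ∫ y, φ y ∂ emp A Y = (∑ x ∈ A, φ (Y x)) / A.card := by
  unfold emp
  rw [if_neg h, integral_smul_measure, integral_finsetSum_measure]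
  · simp only [integral_dirac]
    rw [ENNReal.toReal_inv, ENNReal.toReal_natCast, smul_eq_mul, div_eq_inv_mul]
  · intro x _
    exact integrable_dirac (by simp)

end Lx

/-- limit law `N(0, v)`, where `v = 0` is allowed -/
theorem levy_test (A : ℕ → Finset ℤ) (Y : ℕ → ℤ → ℝ) (δ : ℝ) (v : NNReal)
    (H : ∀ a k : ℝ, Tendsto (fun N : ℕ => (∑ x ∈ A N, Real.cos (a * Y N x + k)) / N) atTop
      (𝓝 (δ * (Real.exp (-(v * a ^ 2 / 2)) * Real.cos k))))
    (φ : BoundedContinuousFunction ℝ ℝ) :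
    Tendsto (fun N : ℕ => (∑ x ∈ A N, φ (Y N x)) / N) atTop
      (𝓝 (δ * ∫ y, φ y ∂ gaussianReal 0 v)) := by
  have hc : Tendsto (fun N : ℕ => ((A N).card : ℝ) / N) atTop (𝓝 δ) := by
    simpa using H 0 0
  by_cases hδ : δ = 0
  · subst hδ
    have h2 := hc.mul_const ‖φ‖
    rw [zero_mul] at h2 ⊢
    refine squeeze_zero_norm (fun N => ?_) h2
    rw [norm_div, Real.norm_natCast, div_mul_eq_mul_div]
    refine div_le_div_of_nonneg_right ((norm_sum_le _ _).trans ?_) (Nat.cast_nonneg _)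
    rw [← nsmul_eq_mul]
    exact sum_le_card_nsmul _ _ _ fun x _ => φ.norm_coe_le_norm _
  have hne : ∀ᶠ N in atTop, (A N).card ≠ 0 := by
    filter_upwards [hc.eventually_ne hδ] with N hN h0
    apply hN
    rw [h0]
    simp
  let μ : ℕ → ProbabilityMeasure ℝ := fun N => ⟨Lx.emp (A N) (Y N), Lx.emp_prob _ _⟩
  let ν : ProbabilityMeasure ℝ := ⟨gaussianReal 0 v, inferInstance⟩
  have hlim : Tendsto μ atTop (𝓝 ν) := by
    refine ProbabilityMeasure.tendsto_iff_tendsto_charFun.2 fun t => ?_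
    have r1 := (Complex.continuous_ofReal.tendsto _).comp (Lx.ratio hδ hc (H t 0))
    have r2 := (Complex.continuous_ofReal.tendsto _).comp (Lx.ratio hδ hc (H t (-(Real.pi / 2))))
    have r3 := r1.add (r2.mul_const Complex.I)
    have e : charFun (ν : Measure ℝ) t = ((Real.exp (-(v * t ^ 2 / 2)) * Real.cos 0 : ℝ) : ℂ) +
        ((Real.exp (-(v * t ^ 2 / 2)) * Real.cos (-(Real.pi / 2)) : ℝ) : ℂ) * Complex.I := by
      change charFun (gaussianReal 0 v) t = _
      rw [charFun_gaussianReal, Real.cos_neg, Real.cos_pi_div_two, Real.cos_zero]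
      simp
    rw [e]
    refine r3.congr' ?_
    filter_upwards [hne] with N hN
    exact (Lx.emp_char hN (Y N) t).symm
  have k1 := (ProbabilityMeasure.tendsto_iff_forall_integral_tendsto.1 hlim φ).mul hc
  rw [mul_comm] at k1
  refine k1.congr' ?_
  filter_upwards [hne] with N hN
  have hN' : ((A N).card : ℝ) ≠ 0 := by exact_mod_cast hN
  change (∫ y, φ y ∂ Lx.emp (A N) (Y N)) * _ = _
  rw [Lx.emp_int hN, ← mul_div_assoc, div_mul_cancel₀ _ hN']

/-- the same with the scaling constant inside the test function -/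
theorem levy_scale (A : ℕ → Finset ℤ) (Y : ℕ → ℤ → ℝ) (δ c : ℝ) (v : NNReal)
    (H : ∀ a k : ℝ, Tendsto (fun N : ℕ => (∑ x ∈ A N, Real.cos (a * Y N x + k)) / N) atTop
      (𝓝 (δ * (Real.exp (-(c ^ 2 * v * a ^ 2 / 2)) * Real.cos k))))
    (φ : BoundedContinuousFunction ℝ ℝ) :
    Tendsto (fun N : ℕ => (∑ x ∈ A N, φ (Y N x)) / N) atTop
      (𝓝 (δ * ∫ y, φ (c * y) ∂ gaussianReal 0 v)) := by
  have h := levy_test A Y δ (NNReal.mk (c ^ 2) (sq_nonneg c) * v) H φ
  have e := gaussianReal_map_const_mul (μ := 0) (v := v) c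
  rw [mul_zero] at e
  have e2 : ∫ y, φ y ∂ gaussianReal 0 (NNReal.mk (c ^ 2) (sq_nonneg c) * v) =
      ∫ y, φ (c * y) ∂ gaussianReal 0 v := by
    rw [← integral_map (f := fun y => φ y) (φ := fun y => c * y) (by fun_prop)
      φ.continuous.aestronglyMeasurable]
    exact congrArg (fun m : Measure ℝ => ∫ y, φ y ∂ m) e.symm
  rwa [e2] at h

theorem levy_st2 : LevySt2 := by
  intro A Y δ ρ H φ
  refine levy_scale A Y δ ρ 1 (fun a k => ?_) φ
  have h := H a k
  rw [mul_pow] at h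
  rw [NNReal.coe_one, mul_one]
  exact h

end St

end Pool.Agent.Lib.MP_39d40e_nt
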