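import Pool.Agent.Lib.MP_39d40e_nt.St1
import Pool.Agent.Lib.MP_39d40e_nt.BdG
import Pool.Agent.Lib.MP_39d40e_nt.BdL

/-! Normal law of entry times: from the comparison argument to characteristic functions. -/

namespace Pool.Agent.Lib.MP_39d40e_nt.St

open Finset Filter Topology Bd

namespace Sx

/-- trapezoid kernel -/
noncomputable def ker (e x : ℝ) : ℝ := max 0 (min 1 (min ((x - e) / e) ((1 + e - x) / e)))

theorem ker_ok {e : ℝ} (h0 : 0 < e) (h1 : e ≤ 1) : Ker (ker e) e (1 / e) where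
  a_pos := h0
  L_nonneg := by positivity
  nonneg x := le_max_left _ _
  le_one x := max_le zero_le_one (min_le_left _ _)
  low x hx := max_eq_left ((min_le_right _ _).trans ((min_le_left _ _).trans
    (div_nonpos_of_nonpos_of_nonneg (by linarith) h0.le)))
  high x hx := max_eq_left ((min_le_right _ _).trans ((min_le_right _ _).trans
    (div_nonpos_of_nonpos_of_nonneg (by linarith) h0.le)))
  lip x y := by
    have h2 : 0 ≤ 1 / e * |x - y| := by positivity
    refine (abs_max_sub_max_le_max _ _ _ _).trans (max_le (by simpa using h2) ?_)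
    refine (abs_min_sub_min_le_max _ _ _ _).trans (max_le (by simpa using h2) ?_)
    refine (abs_min_sub_min_le_max _ _ _ _).trans (max_le (le_of_eq ?_) (le_of_eq ?_))
    · rw [← sub_div, abs_div, abs_of_pos h0, sub_sub_sub_cancel_right]; ring
    · rw [← sub_div, abs_div, abs_of_pos h0, sub_sub_sub_cancel_left, abs_sub_comm]; ring

theorem ker_one {e x : ℝ} (h0 : 0 < e) (h1 : 2 * e ≤ x) (h2 : x ≤ 1) : ker e x = 1 := by
  rw [ker, min_eq_left (le_min ((one_le_div h0).2 (by linarith)) ((one_le_div h0).2 (by linarith))),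
    max_eq_right zero_le_one]

theorem ker_zero {e x : ℝ} (h0 : 0 < e) (h1 : 1 + e ≤ x) : ker e x = 0 :=
  max_eq_left ((min_le_right _ _).trans ((min_le_right _ _).trans
    (div_nonpos_of_nonpos_of_nonneg (by linarith) h0.le)))

theorem close {e : ℝ} (h0 : 0 < e) (h1 : e ≤ 1) {φ : ℤ → ℝ} (hφ0 : ∀ u, 0 ≤ φ u)
    (hφ1 : ∀ u, φ u ≤ 1) {N : ℕ} (hN : 0 < N) :
    |F (ker e) φ N / 2 - (∑ u ∈ Icc (-(N : ℤ)) N, φ u) / (2 * N)| ≤ 4 * e + 4 / N := by
  have hN' : (0 : ℝ) < N := by exact_mod_cast hN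
  have hc : ⌈2 * (N : ℝ)⌉ = 2 * N := by
    rw [show 2 * (N : ℝ) = ((2 * N : ℤ) : ℝ) by push_cast; rfl, Int.ceil_intCast]
  set k : ℕ := ⌈2 * e * N⌉₊ with hk
  have k1 : 2 * e * N ≤ k := Nat.le_ceil _
  have k2 : (k : ℝ) < 2 * e * N + 1 := Nat.ceil_lt_add_one (by positivity)
  set B : Finset ℤ := Icc (-(k : ℤ)) k ∪ (Icc (N : ℤ) (N + k) ∪ Icc (-((N : ℤ) + k)) (-N)) with hB
  have hBc : B.card ≤ 4 * k + 3 := by
    refine (card_union_le _ _).trans ((Nat.add_le_add_left (card_union_le _ _) _).trans ?_)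
    simp only [Int.card_Icc]
    omega
  have e1 : ∑ u ∈ Icc (-(N : ℤ)) N, φ u =
      ∑ u ∈ Icc (-(2 * N : ℤ)) (2 * N), if |u| ≤ N then φ u else 0 := by
    rw [← sum_filter]
    refine sum_congr ?_ fun _ _ => rfl
    ext u
    simp only [mem_filter, mem_Icc, abs_le]
    omega
  have e2 : |∑ u ∈ Icc (-(2 * N : ℤ)) (2 * N), φ u * ker e (|(u : ℝ)| / N) -
      ∑ u ∈ Icc (-(N : ℤ)) N, φ u| ≤ B.card := by
    rw [e1, ← sum_sub_distrib]
    refine (abs_sum_le_sum_abs _ _).trans ((sum_le_sum (g := fun u => if u ∈ B then (1 : ℝ) else 0)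
      fun u _ => ?_).trans ?_)
    · have K := ker_ok h0 h1
      have a1 := mul_nonneg (hφ0 u) (K.nonneg (|(u : ℝ)| / N))
      have a2 := mul_le_one₀ (hφ1 u) (K.nonneg (|(u : ℝ)| / N)) (K.le_one _)
      by_cases hu : u ∈ B
      · rw [if_pos hu, abs_le]
        split_ifs <;> constructor <;> linarith [hφ0 u, hφ1 u]
      · rw [if_neg hu]
        simp only [hB, mem_union, mem_Icc] at hu
        by_cases h2 : |u| ≤ N
        · have h3 : (k : ℤ) ≤ |u| := by rw [le_abs]; omega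
          have h4 : (k : ℝ) ≤ |(u : ℝ)| := by exact_mod_cast h3
          have h5 : |(u : ℝ)| ≤ N := by exact_mod_cast h2
          rw [if_pos h2, ker_one h0 ((le_div_iff₀ hN').2 (by linarith)) ((div_le_one hN').2 h5)]
          simp
        · have h3 : (N : ℤ) + k ≤ |u| := by
            rw [abs_le] at h2
            rw [le_abs]; omega
          have h4 : (N : ℝ) + k ≤ |(u : ℝ)| := by exact_mod_cast h3
          rw [if_neg h2, ker_zero h0 ((le_div_iff₀ hN').2 (by nlinarith))]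
          simp
    · rw [sum_boole]
      exact_mod_cast card_le_card fun u hu => (mem_filter.1 hu).2
  have e3 : (B.card : ℝ) ≤ 4 * k + 3 := by exact_mod_cast hBc
  rw [F, hc, div_div, mul_comm (N : ℝ) 2, ← sub_div, abs_div, abs_of_pos (by positivity : (0 : ℝ) < 2 * N),
    div_le_iff₀ (by positivity)]
  have e4 : (4 * e + 4 / N) * (2 * N) = 8 * e * N + 8 := by field_simp; ring
  rw [e4]
  linarith

variable {S E : Type} [Fintype S] [Fintype E] [DecidableEq S] [DecidableEq E] {X : Sys S E}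

theorem klim (hI : X.Irred) (hN : X.Neg) {s0 : S} {g : List E} (hg : X.Pa s0 g s0)
    (hg1 : 1 < X.rr g) {χ : S × ℤ → ℝ} (c0 : ∀ x, 0 ≤ χ x) (c1 : ∀ x, χ x ≤ 1) (hH : X.Harm χ)
    {h : ℝ → ℝ} {a L : ℝ} (hk : Ker h a L) :
    ∃ δ : ℝ, ∀ s, Tendsto (fun t => F h (fun u => χ (s, u)) (Real.exp t)) atTop (𝓝 δ) := by
  obtain ⟨M, L', hL0, hl⟩ := lip_st h a L hk
  obtain ⟨C, t0, hC⟩ := hH h a L hk
  let σ : E → ℝ := fun e => Real.log (|(X.b e : ℝ)| / X.D e)
  let w : E → ℝ := fun e => X.π (X.src e) / X.D e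
  let f : S → ℝ → ℝ := fun s t => F h (fun u => χ (s, u)) (Real.exp (max t 0))
  have hφ : ∀ s u, |χ (s, u)| ≤ 1 := fun s u => by rw [abs_of_nonneg (c0 _)]; exact c1 _
  have hM : ∀ s y, |f s y| ≤ M := fun s => (hl _ (hφ s)).1
  have hL : ∀ s y y', |f s y - f s y'| ≤ L' * |y - y'| := fun s => (hl _ (hφ s)).2
  have hw : ∀ e, 0 < w e := fun e => by
    have : (0 : ℝ) < X.D e := by exact_mod_cast Nat.pos_of_dvd_of_pos (X.D_dvd e) X.d_pos
    exact div_pos (X.π_pos _) this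
  have ho : ∀ s, ∑ e with X.src e = s, w e = X.π s := fun s => by
    rw [← mul_one (X.π s), ← X.out_sum s, mul_sum]
    exact sum_congr rfl fun e he => by simp only [w, (mem_filter.1 he).2]; ring
  have s0' : 0 ≤ ∑ e, |σ e| := sum_nonneg fun _ _ => abs_nonneg _
  have ht : 0 < max t0 1 + ∑ e, |σ e| := by linarith [le_max_right t0 1]
  have hHf : ∀ s y, max t0 1 + ∑ e, |σ e| ≤ y →
      |X.π s * f s y - ∑ e with X.src e = s, w e * f (X.tgt e) (y + σ e)| ≤ C / y ^ 2 := by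
    intro s y hy
    have a1 : ∀ e, max (y + σ e) 0 = y + σ e := fun e => by
      have := single_le_sum (f := fun e => |σ e|) (fun _ _ => abs_nonneg _) (mem_univ e)
      exact max_eq_left (by linarith [neg_abs_le (σ e), le_max_right t0 1])
    have a2 : max y 0 = y := max_eq_left (by linarith)
    simp only [f, a1, a2]
    exact hC s y (by linarith [le_max_left t0 1])
  have he := edge_rel X.src X.tgt w σ X.π hw ho X.stat f hL0 hM hL ht hHf
  obtain ⟨g', hg', hg2⟩ := Sys.exists_neg_cycle hI hN s0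
  have hall0 := all_rel hL0 s0 (hL s0) (path_rel he _ _ _ hg) (path_rel he _ _ _ hg')
    (incomm hg1 hg2)
  have hall : ∀ s s' τ, R f s s' τ := fun s s' τ => by
    obtain ⟨l, hl⟩ := hI.conn s0 s
    obtain ⟨l', hl'⟩ := hI.conn s' s0
    have := ((path_rel he _ _ _ hl).trans
      (hall0 (τ - Real.log (X.rr l) - Real.log (X.rr l')))).trans (path_rel he _ _ _ hl')
    convert this using 1
    ring
  obtain ⟨δ, hδ⟩ := limit X.src X.tgt w σ X.π ho X.stat f hL0 hM hL ht hHf (ne_of_lt hN) hall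
  refine ⟨δ, fun s => (hδ s).congr' ?_⟩
  filter_upwards [eventually_ge_atTop (0 : ℝ)] with t ht
  simp only [f, max_eq_left ht]

/-- the family of phase functions -/
noncomputable def fam (χ τ : S × ℤ → ℝ) (k : ℝ × ℝ) (x : S × ℤ) : ℝ :=
  χ x * (1 + Real.cos (k.1 * τ x + k.2)) / 2

omit [DecidableEq E] in
theorem fam_ok {χ τ : S × ℤ → ℝ} {i R : ℝ} (h : X.Clock2 χ τ i R) :
    X.Fam (fam χ τ) (fun k => (k.1, k.2 + k.1 * i)) R := by
  obtain ⟨c0, c1, c2⟩ := h
  refine ⟨fun k x => ?_, fun k x => ?_, fun k x hx => ?_⟩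
  · have := mul_nonneg (c0 x) (by linarith [Real.neg_one_le_cos (k.1 * τ x + k.2)] :
      0 ≤ 1 + Real.cos (k.1 * τ x + k.2))
    rw [fam]; linarith
  · have := mul_le_mul (c1 x) (by linarith [Real.cos_le_one (k.1 * τ x + k.2)] :
      1 + Real.cos (k.1 * τ x + k.2) ≤ 2)
      (by linarith [Real.neg_one_le_cos (k.1 * τ x + k.2)]) zero_le_one
    rw [fam]; linarith
  · obtain ⟨a1, a2⟩ := c2 x hx
    simp only [fam, a1]
    by_cases h0 : χ x = 0
    · simp [h0]
    · rw [a2 h0]; congr 4; ring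

omit [Fintype S] [DecidableEq S] in
theorem fam_zero (χ τ : S × ℤ → ℝ) : fam χ τ (0, 0) = χ := by
  funext x; simp only [fam, zero_mul, add_zero, Real.cos_zero]; ring

omit [DecidableEq S] in
theorem strip {χ τ : S × ℤ → ℝ} (c0 : ∀ x, 0 ≤ χ x) (c1 : ∀ x, χ x ≤ 1) {h : ℝ → ℝ} {a L : ℝ}
    (hk : Ker h a L) (T' : ℝ) : ∃ J : ℝ, 0 < J ∧ ∀ (θ k : ℝ) (s : S) (t : ℝ), 0 ≤ t → t ≤ T' →
      |F h (fun u => fam χ τ (θ, k) (s, u)) (Real.exp t) -
        F h (fun u => χ (s, u)) (Real.exp t) * (1 + Real.cos k) / 2| ≤ |θ| * J := by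
  set n := ⌈2 * Real.exp T'⌉ with hn
  set J := ∑ x ∈ (univ : Finset S) ×ˢ Icc (-n) n, |τ x| with hJ
  have J0 : 0 ≤ J := sum_nonneg fun _ _ => abs_nonneg _
  refine ⟨7 * J + 1, by linarith, fun θ k s t h0 h1 => ?_⟩
  have hY : 1 ≤ Real.exp t := Real.one_le_exp h0
  have hc : ⌈2 * Real.exp t⌉ ≤ n := Int.ceil_mono (by linarith [Real.exp_le_exp.2 h1])
  have h2 := Lx.sum_le hY (c := |θ| * J) (by positivity)
    (fun u => χ (s, u) * h (|(u : ℝ)| / Real.exp t) *
      ((Real.cos (θ * τ (s, u) + k) - Real.cos k) / 2)) fun u hu => by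
      have a1 : |τ (s, u)| ≤ J := single_le_sum (f := fun x => |τ x|) (fun _ _ => abs_nonneg _)
        (mem_product.2 ⟨mem_univ s, Icc_subset_Icc (by omega) hc hu⟩)
      have a2 := Real.abs_cos_sub_cos_le (θ * τ (s, u) + k) k
      rw [add_sub_cancel_right, abs_mul] at a2
      have a3 := mul_le_mul_of_nonneg_left a1 (abs_nonneg θ)
      have a4 := mul_nonneg (c0 (s, u)) (hk.nonneg (|(u : ℝ)| / Real.exp t))
      have a5 := mul_le_one₀ (c1 (s, u)) (hk.nonneg (|(u : ℝ)| / Real.exp t)) (hk.le_one _)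
      rw [abs_mul, abs_of_nonneg a4, abs_div, abs_two]
      refine (mul_le_of_le_one_left (by positivity) a5).trans ?_
      linarith [abs_nonneg (Real.cos (θ * τ (s, u) + k) - Real.cos k)]
  have e : F h (fun u => fam χ τ (θ, k) (s, u)) (Real.exp t) -
      F h (fun u => χ (s, u)) (Real.exp t) * (1 + Real.cos k) / 2 =
      (∑ u ∈ Icc (-⌈2 * Real.exp t⌉) ⌈2 * Real.exp t⌉, χ (s, u) * h (|(u : ℝ)| / Real.exp t) *
        ((Real.cos (θ * τ (s, u) + k) - Real.cos k) / 2)) / Real.exp t := by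
    simp only [F, fam, sum_div, sum_mul, ← sum_sub_distrib]
    exact sum_congr rfl fun u _ => by ring
  rw [e, abs_div, abs_of_pos (Real.exp_pos t), div_le_iff₀ (Real.exp_pos t)]
  have := mul_nonneg (abs_nonneg θ) (Real.exp_pos t).le
  linarith

end Sx

theorem sys_st2 (h1 : HarmAll) (h2 : ConstSt) (h3 : CoreSt2) : SysSt2 := by
  intro S E _ _ _ _ X hI hN s0 l hl hl1 β hβ
  obtain ⟨g, u, c, hc, p1, p2⟩ := h2 S E X hI hN s0 l hl hl1 β hβ
  have β0 : 0 < β := by rw [hβ]; exact neg_pos.2 hN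
  refine ⟨c, hc, fun χ τ i R hχ => ?_⟩
  have hF := Sx.fam_ok hχ
  have hH := h1 S E (ℝ × ℝ) X hI hN s0 l hl hl1 _ _ R hF
  have hH0 : X.Harm χ := fun h a L hk => by
    obtain ⟨C, t0, hC⟩ := hH h a L hk
    refine ⟨C, t0, fun s t ht => ?_⟩
    simpa only [zero_mul, add_zero, Sx.fam_zero] using hC (0, 0) s t ht
  have key : ∀ ε : ℝ, 0 < ε → ∃ δ : ℝ, ∀ B : ℝ, ∀ᶠ N : ℕ in atTop, ∀ θ : ℝ,
      θ ^ 2 * Real.log N ≤ B → ∀ (k : ℝ) (s : S),
      |(∑ u ∈ Icc (-(N : ℤ)) N, χ (s, u) * Real.cos (θ * τ (s, u) + k)) / (2 * N)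
        - δ * (Real.exp (-(c * ((θ * i) ^ 2 * Real.log N))) * Real.cos (k + θ * i * Real.log N / β))|
        ≤ ε := by
    intro ε hε
    have e0 : 0 < min (ε / 48) 1 := lt_min (by positivity) one_pos
    have e1 := min_le_left (ε / 48) 1
    have hk := Sx.ker_ok e0 (min_le_right _ _)
    set h := Sx.ker (min (ε / 48) 1) with hh
    obtain ⟨δ, hδ⟩ := Sx.klim hI hN hl hl1 hχ.1 hχ.2.1 hH0 hk
    obtain ⟨C, t0, hC⟩ := hH _ _ _ hk
    have hlim : ∀ η : ℝ, 0 < η → ∀ᶠ t in atTop, ∀ s,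
        |F h (fun u => χ (s, u)) (Real.exp t) - δ| < η := fun η hη =>
      eventually_all.2 fun s => Metric.tendsto_nhds.1 (hδ s) η hη
    have core := h3 S E X.src X.tgt (fun e => 1 / (X.D e : ℝ)) X.lg g u β c β0 hc.le
      (fun e => by positivity) X.out_sum p1 p2 i
      (fun θ k s t => F h (fun u => Sx.fam χ τ (θ, k) (s, u)) (Real.exp t))
      7 (|C| * ∑ s, (X.π s)⁻¹) t0 δ
      (fun θ k s t ht => Lx.bound hk (fun u => by
        rw [abs_of_nonneg (hF.1 _ _)]; exact hF.2.1 _ _) (Real.one_le_exp ht))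
      (fun θ k s t ht => by
        have a1 := hC (θ, k) s t ht
        have a2 := X.π_pos s
        have a3 : (X.π s)⁻¹ ≤ ∑ s, (X.π s)⁻¹ := single_le_sum (f := fun s => (X.π s)⁻¹)
          (fun s _ => (inv_pos.2 (X.π_pos s)).le) (mem_univ s)
        have a4 : ∑ e with X.src e = s, X.π (X.src e) / X.D e *
            F h (fun u => Sx.fam χ τ (θ, k + θ * i) (X.tgt e, u))
              (Real.exp (t + Real.log (|(X.b e : ℝ)| / X.D e))) =
            X.π s * ∑ e with X.src e = s, 1 / (X.D e : ℝ) *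
              F h (fun u => Sx.fam χ τ (θ, k + θ * i) (X.tgt e, u)) (Real.exp (t + X.lg e)) := by
          rw [mul_sum]
          exact sum_congr rfl fun e he => by rw [(mem_filter.1 he).2, Sys.lg]; ring
        simp only at a1
        rw [a4, ← mul_sub, abs_mul, abs_of_pos a2, ← le_inv_mul_iff₀ a2] at a1
        refine a1.trans ?_
        rw [← mul_div_assoc, mul_comm]
        exact div_le_div_of_nonneg_right (mul_le_mul (le_abs_self C) a3 (by positivity)
          (abs_nonneg C)) (sq_nonneg t))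
      (fun η hη => by
        obtain ⟨T, hT⟩ := eventually_atTop.1 (hlim (η / 2) (by positivity))
        refine ⟨max T 0, fun T' => ?_⟩
        obtain ⟨J, J0, hJ⟩ := Sx.strip (τ := τ) hχ.1 hχ.2.1 hk T'
        refine ⟨η / 2 / J, by positivity, fun θ hθ k s t b1 b2 => ?_⟩
        have a1 := hJ θ k s t ((le_max_right _ _).trans b1) b2
        have a2 := hT t ((le_max_left _ _).trans b1) s
        rw [le_div_iff₀ J0] at hθ
        have a3 : |(F h (fun u => χ (s, u)) (Real.exp t) - δ) * ((1 + Real.cos k) / 2)| ≤ η / 2 := by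
          rw [abs_mul]
          refine (mul_le_of_le_one_right (abs_nonneg _) (abs_le.2 ⟨?_, ?_⟩)).trans a2.le <;>
            linarith [Real.neg_one_le_cos k, Real.cos_le_one k]
        rw [abs_le] at a1 a3 ⊢
        constructor <;> linarith [a1.1, a1.2, a3.1, a3.2])
    refine ⟨δ / 2, fun B => ?_⟩
    obtain ⟨T, hT⟩ := core (ε / 4) B (by positivity)
    have l1 := Real.tendsto_log_atTop.comp tendsto_natCast_atTop_atTop
    have l2 : Tendsto (fun N : ℕ => (4 : ℝ) / N) atTop (𝓝 0) :=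
      tendsto_const_div_atTop_nhds_zero_nat 4
    filter_upwards [l1.eventually (eventually_ge_atTop T), l1.eventually (hlim (ε / 4)
      (by positivity)), l2.eventually (gt_mem_nhds (by positivity : 0 < ε / 12)),
      eventually_gt_atTop 0] with N a1 a2 a3 a4 θ hθ k s
    have b1 := hT _ a1 θ hθ k s
    have b2 := a2 s
    have b3 := Sx.close e0 (min_le_right _ _) (φ := fun u => Sx.fam χ τ (θ, k) (s, u))
      (fun u => hF.1 _ _) (fun u => hF.2.1 _ _) a4
    have b4 := Sx.close e0 (min_le_right _ _) (φ := fun u => χ (s, u))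
      (fun u => hχ.1 _) (fun u => hχ.2.1 _) a4
    simp only [Function.comp] at b1 b2
    rw [Real.exp_log (by exact_mod_cast a4)] at b1 b2
    have b5 : (∑ u ∈ Icc (-(N : ℤ)) N, χ (s, u) * Real.cos (θ * τ (s, u) + k)) / (2 * N) =
        2 * ((∑ u ∈ Icc (-(N : ℤ)) N, Sx.fam χ τ (θ, k) (s, u)) / (2 * N)) -
          (∑ u ∈ Icc (-(N : ℤ)) N, χ (s, u)) / (2 * N) := by
      rw [← mul_div_assoc, ← sub_div, mul_sum, ← sum_sub_distrib]
      congr 1
      exact sum_congr rfl fun u _ => by rw [Sx.fam]; ring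
    rw [← hh] at b3 b4
    rw [b5]
    rw [abs_lt] at b2
    rw [abs_le] at b1 b3 b4 ⊢
    constructor <;> linarith [b1.1, b1.2, b2.1, b2.2, b3.1, b3.2, b4.1, b4.2]
  have key0 : ∀ ε : ℝ, 0 < ε → ∃ δ : ℝ, (∀ᶠ N : ℕ in atTop,
      |(∑ u ∈ Icc (-(N : ℤ)) N, χ (s0, u)) / (2 * N) - δ| ≤ ε) ∧ ∀ B : ℝ, ∀ᶠ N : ℕ in atTop,
      ∀ θ : ℝ, θ ^ 2 * Real.log N ≤ B → ∀ (k : ℝ) (s : S),
      |(∑ u ∈ Icc (-(N : ℤ)) N, χ (s, u) * Real.cos (θ * τ (s, u) + k)) / (2 * N)
        - δ * (Real.exp (-(c * ((θ * i) ^ 2 * Real.log N))) * Real.cos (k + θ * i * Real.log N / β))|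
        ≤ ε := by
    intro ε hε
    obtain ⟨δ, hδ⟩ := key ε hε
    refine ⟨δ, (hδ 0).mono fun N hN => ?_, hδ⟩
    simpa using hN 0 (by simp) 0 s0
  have hCs : CauchySeq fun N : ℕ => (∑ u ∈ Icc (-(N : ℤ)) N, χ (s0, u)) / (2 * N) := by
    refine Metric.cauchySeq_iff.2 fun ε hε => ?_
    obtain ⟨δ, hδ, -⟩ := key0 (ε / 3) (by positivity)
    obtain ⟨N0, hN0⟩ := eventually_atTop.1 hδ
    refine ⟨N0, fun m hm n hn => ?_⟩
    have a1 := abs_le.1 (hN0 m hm)
    have a2 := abs_le.1 (hN0 n hn)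
    rw [Real.dist_eq, abs_lt]
    constructor <;> linarith [a1.1, a1.2, a2.1, a2.2]
  obtain ⟨δ, hδ⟩ := cauchySeq_tendsto_of_complete hCs
  refine ⟨δ, fun ε B hε => eventually_atTop.1 ?_⟩
  obtain ⟨δ', a1, a2⟩ := key0 (ε / 3) (by positivity)
  filter_upwards [a1, a2 B, Metric.tendsto_nhds.1 hδ (ε / 3) (by positivity)]
    with N b1 b2 b3 θ hθ k s
  have b4 := b2 θ hθ k s
  have b5 : 0 ≤ c * ((θ * i) ^ 2 * Real.log N) :=
    mul_nonneg hc.le (mul_nonneg (sq_nonneg (θ * i)) (Real.log_natCast_nonneg N))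
  have b6 : |Real.exp (-(c * ((θ * i) ^ 2 * Real.log N))) * Real.cos (k + θ * i * Real.log N / β)| ≤ 1 := by
    rw [abs_mul, Real.abs_exp]
    exact mul_le_one₀ (Real.exp_le_one_iff.2 (by linarith)) (abs_nonneg _) (Real.abs_cos_le_one _)
  have b7 : |δ' - δ| ≤ 2 * (ε / 3) := by
    rw [Real.dist_eq, abs_lt] at b3
    rw [abs_le] at b1 ⊢
    constructor <;> linarith [b1.1, b1.2, b3.1, b3.2]
  generalize Real.exp (-(c * ((θ * i) ^ 2 * Real.log N))) * Real.cos (k + θ * i * Real.log N / β) = Φ at *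
  have b8 : |(δ' - δ) * Φ| ≤ 2 * (ε / 3) := by
    rw [abs_mul]; exact (mul_le_of_le_one_right (abs_nonneg _) b6).trans b7
  rw [abs_le] at b4 b8 ⊢
  constructor <;> linarith [b4.1, b4.2, b8.1, b8.2]

end Pool.Agent.Lib.MP_39d40e_nt.St
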