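import Pool.Agent.Lib.MP_39d40e_nt.StE
import Pool.Agent.Lib.MP_39d40e_nt.StC
import Pool.Agent.Lib.MP_39d40e_nt.StK
import Pool.Agent.Lib.MP_39d40e_nt.StS2
import Pool.Agent.Lib.MP_39d40e_nt.StL2
import Pool.Agent.Lib.MP_39d40e_nt.StD

/-! Normal law of clocks: assembly. -/

namespace Pool.Agent.Lib.MP_39d40e_nt.St

theorem leigh_all : LeighSt2 := leigh_st2 (sys_st2 harm_all const_st core_st2) levy_st2

end Pool.Agent.Lib.MP_39d40e_nt.St
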