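import Mathlib

namespace Pool.Agent.Lib.MP_39d40e_nt

open Finset

/-- A finite graph-directed Collatz system: along the edge `e` the integer `u` at state `src e`
goes to `(b e * u + c e) / D e` at state `tgt e`. -/
structure Sys (S E : Type*) [Fintype S] [Fintype E] [DecidableEq S] where
  d : ℕ
  src : E → S
  tgt : E → S
  b : E → ℤ
  D : E → ℕ
  c : E → ℤ
  π : S → ℝ
  d_pos : 0 < d
  b_ne : ∀ e, b e ≠ 0
  cop : ∀ e, IsCoprime (b e) (d : ℤ)
  D_dvd : ∀ e, D e ∣ d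
  exu : ∀ (s : S) (u : ℤ), ∃! e, src e = s ∧ (D e : ℤ) ∣ b e * u + c e
  π_pos : ∀ s, 0 < π s
  π_sum : ∑ s, π s = 1
  stat : ∀ s, ∑ e with tgt e = s, π (src e) / D e = π s

namespace Sys

variable {S E : Type*} [Fintype S] [Fintype E] [DecidableEq S] [DecidableEq E] (X : Sys S E)

/-- edges ending at `s` -/
def into (s : S) : Finset E := univ.filter fun e => X.tgt e = s

/-- transition probability of the time-reversed chain -/
noncomputable def q (e : E) : ℝ := X.π (X.src e) / (X.D e * X.π (X.tgt e))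

/-- backward paths of length `n` ending (in time) at `s`; the head is the LAST edge in time -/
def Paths : ℕ → S → Finset (List E)
  | 0, _ => {[]}
  | n + 1, s => (X.into s).biUnion fun e => (Paths n (X.src e)).image fun l => e :: l

/-- the state where the backward path stops (its starting state in time) -/
def endp : S → List E → S
  | s, [] => s
  | _, e :: l => endp (X.src e) l

noncomputable def wt (l : List E) : ℝ := (l.map X.q).prod

def bP (l : List E) : ℤ := (l.map X.b).prod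

def DP (l : List E) : ℕ := (l.map X.D).prod

/-- the path `l` maps `u` to `(bP l * u + cP l) / DP l` -/
def cP : List E → ℤ
  | [] => 0
  | e :: l => X.b e * cP l + X.c e * X.DP l

def B0 : ℕ := ∏ e, (X.b e).natAbs

/-- expectation over backward paths -/
noncomputable def Ex (n : ℕ) (s : S) (f : List E → ℝ) : ℝ := ∑ l ∈ X.Paths n s, X.wt l * f l

/-- stationary mean -/
noncomputable def mean (f : E → ℝ) : ℝ := ∑ e, X.π (X.src e) / X.D e * f e

/-- the Poisson equation of the reversed chain is solvable for `f` -/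
def Poisson (f : E → ℝ) : Prop :=
  ∃ h : S → ℝ, ∀ s, ∑ e ∈ X.into s, X.q e * (f e + h (X.src e)) = X.mean f + h s

/-- `φ` is additive on nonzero pairs -/
def Addi (φ : ℤ → ℕ → ℝ) : Prop :=
  ∀ M M' D D', M ≠ 0 → M' ≠ 0 → D ≠ 0 → D' ≠ 0 → φ (M * M') (D * D') = φ M D + φ M' D'

/-- ratio of a path -/
def rP (l : List E) : ℚ := (X.bP l : ℚ) / (X.DP l : ℚ)

/-- the non-degeneracy package under which the mixing estimate is proved -/
structure Good : Prop where
  two_le : ∀ e, 2 ≤ X.D e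
  poisson : ∀ φ : ℤ → ℕ → ℝ, Addi φ → X.Poisson fun e => φ (X.b e) (X.D e)
  drift : X.mean (fun e => Real.log (|(X.b e : ℝ)| / X.D e)) < 0
  para : ∀ s, ∃ e₁ e₂, e₁ ≠ e₂ ∧ X.tgt e₁ = s ∧ X.tgt e₂ = s ∧ X.src e₁ = X.src e₂ ∧
    X.b e₁ = X.b e₂ ∧ X.D e₁ = X.D e₂
  swap : ∀ p : ℕ, p.Prime → (∃ e, p ∣ X.D e) → ∃ γ : ℚ, |γ| ≠ 1 ∧ ∀ s, ∃ G G' : List E,
    G ∈ X.Paths G.length s ∧ G' ∈ X.Paths G'.length s ∧ X.endp s G = X.endp s G' ∧
    (X.DP G).factorization p = (X.DP G').factorization p ∧ X.rP G = γ * X.rP G'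

/-- the mixing estimate (to be proved from `Good`) -/
def Mix : Prop :=
  ∀ A : ℕ, ∃ C : ℝ, ∀ n : ℕ, 1 ≤ n → ∀ (s : S) (g : S → ℤ → ℕ → ℤ → ℝ),
    (∀ t M D, Function.Periodic (g t M D) (X.B0 : ℤ)) →
    (∀ t M D, ∑ x ∈ range X.B0, g t M D x = 0) →
    (∀ t M D x, |g t M D x| ≤ 1) →
    ∑ z ∈ range (X.B0 ^ (n + 1)),
      |X.Ex n s fun l => if X.bP l ∣ X.DP l * (z : ℤ) - X.cP l then
          |(X.bP l : ℝ)| * g (X.endp s l) (X.bP l) (X.DP l) ((X.DP l * (z : ℤ) - X.cP l) / X.bP l)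
        else 0| ≤ C / (n : ℝ) ^ A * (X.B0 : ℝ) ^ (n + 1)

end Sys

end Pool.Agent.Lib.MP_39d40e_nt
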