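import Pool.Agent.Lib.MP_39d40e_nt.Tw0

/-! A good power whose parallel edges are rearrangements of each other. -/

namespace Pool.Agent.Lib.MP_39d40e_nt

open Finset

namespace Sys

variable {S E : Type*} [Fintype S] [Fintype E] [DecidableEq S] [DecidableEq E] (X : Sys S E)

theorem exists_paraW {X : Sys S E} (hI : X.Irred) (h : X.Neg) (s : S) : ∃ l l' : List E, X.Pa s l s ∧ X.Pa s l' s ∧
    l ≠ l' ∧ l.length = l'.length ∧ X.bP l = X.bP l' ∧ X.DP l = X.DP l' ∧
    l.Perm l' := by
  obtain ⟨e, he⟩ := h.exists_two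
  obtain ⟨e', hne, hs⟩ := exists_branch he
  obtain ⟨k, hk⟩ := hI.conn s (X.tgt e)
  obtain ⟨k', hk'⟩ := hI.conn s (X.tgt e')
  obtain ⟨w, hw⟩ := hI.conn (X.src e) s
  have g1 : X.Pa s (k ++ ([e] ++ w)) s := hk.append ((Pa.single e).append hw)
  have g2 : X.Pa s (k' ++ ([e'] ++ w)) s := hk'.append ((Pa.single e').append (hs ▸ hw))
  refine ⟨_, _, g1.append g2, g2.append g1, fun heq => hne ?_, ?_, ?_, ?_,
    List.perm_append_comm⟩
  · rw [← List.append_assoc _ k', ← List.append_assoc _ k] at heq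
    have := List.append_inj_right' heq (by simp)
    simpa using this
  · simp only [List.length_append]; ring
  · simp only [bP_append]; ring
  · simp only [DP_append]; ring

theorem exists_goodW (hI : X.Irred) (h : X.Neg) (s0 : S) (g : List E) (hg : X.Pa s0 g s0)
    (hg1 : 1 < X.rr g) : ∃ L, 1 ≤ L ∧ (X.pow L).Good ∧ ∀ s, ∃ e₁ e₂ : X.PE L, e₁ ≠ e₂ ∧
      (X.pow L).tgt e₁ = s ∧ (X.pow L).tgt e₂ = s ∧ (X.pow L).src e₁ = (X.pow L).src e₂ ∧
      (X.pow L).b e₁ = (X.pow L).b e₂ ∧ (X.pow L).D e₁ = (X.pow L).D e₂ ∧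
      e₁.1.2.Perm e₂.1.2 := by
  obtain ⟨n0, hn1, hn0⟩ := exists_n0 hI h
  choose p p' hp hp' hne hlen hb hD hperm using fun s => exists_paraW hI h s
  obtain ⟨g', hg', hg1'⟩ := exists_neg_cycle hI h s0
  set L := ∑ s, (p s).length + n0 with hL
  have key : ∀ s, ∃ e₁ e₂ : X.PE L, e₁ ≠ e₂ ∧
      (X.pow L).tgt e₁ = s ∧ (X.pow L).tgt e₂ = s ∧ (X.pow L).src e₁ = (X.pow L).src e₂ ∧
      (X.pow L).b e₁ = (X.pow L).b e₂ ∧ (X.pow L).D e₁ = (X.pow L).D e₂ ∧
      e₁.1.2.Perm e₂.1.2 := by
    intro s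
    have h1 : (p s).length ≤ ∑ s, (p s).length :=
      single_le_sum (f := fun s => (p s).length) (fun _ _ => Nat.zero_le _) (mem_univ s)
    obtain ⟨w, hw⟩ := exists_path (X := X) (L - (p s).length) s
    have lw := X.length_of_mem_Paths hw
    have a1 := (hp s).append (Pa.of_mem hw)
    have a2 := (hp' s).append (Pa.of_mem hw)
    have l1 : (p s ++ w).length = L := by rw [List.length_append, lw]; omega
    have l2 : (p' s ++ w).length = L := by rw [List.length_append, lw, ← hlen]; omega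
    refine ⟨⟨(s, p s ++ w), X.mem_PF.2 (l1 ▸ a1.1)⟩, ⟨(s, p' s ++ w), X.mem_PF.2 (l2 ▸ a2.1)⟩,
      fun he => hne s ?_, rfl, rfl, a1.2.trans a2.2.symm, ?_, ?_, (hperm s).append_right w⟩
    · have : p s ++ w = p' s ++ w := congrArg (fun e => e.1.2) he
      exact List.append_cancel_right this
    · change X.bP (p s ++ w) = X.bP (p' s ++ w)
      rw [bP_append, bP_append, hb]
    · change X.DP (p s ++ w) = X.DP (p' s ++ w)
      rw [DP_append, DP_append, hD]
  refine ⟨L, by omega, ⟨?_, fun φ hφ => (X.pow_poisson hI L hφ).2, ?_, ?_, ?_⟩, key⟩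
  · intro e; exact hn0 L _ _ (by omega) (X.mem_PF.1 e.2)
  · rw [(X.pow_poisson hI L addi_log).1]
    exact mul_neg_of_pos_of_neg (by exact_mod_cast (by omega : 0 < L)) h
  · intro s
    obtain ⟨e₁, e₂, k1, k2, k3, k4, k5, k6, -⟩ := key s
    exact ⟨e₁, e₂, k1, k2, k3, k4, k5, k6⟩
  · intro q _ _
    obtain ⟨x, y, hxy, hv⟩ : ∃ x y : ℕ, 0 < x + y ∧
        y * (X.DP g).factorization q = x * (X.DP g').factorization q := by
      by_cases h0 : 0 < (X.DP g).factorization q + (X.DP g').factorization q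
      · exact ⟨_, _, h0, mul_comm _ _⟩
      · exact ⟨1, 1, by norm_num, by omega⟩
    have hL0 : 0 < L := by omega
    set G := rep g (y * L) with hG
    set G' := rep g' (x * L) with hG'
    have r0 : X.rP G' ≠ 0 := by
      intro h0
      have := X.abs_rP G'
      rw [h0] at this
      have := X.rr_pos G'
      simp_all
    refine ⟨X.rP G / X.rP G', ?_, fun s => ?_⟩
    · intro h1
      rw [abs_div, div_eq_one_iff_eq (abs_ne_zero.2 r0)] at h1
      have h2 : X.rr G = X.rr G' := by rw [← abs_rP, ← abs_rP, h1]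
      rw [hG, hG', rr_rep, rr_rep] at h2
      have b1 : 1 ≤ X.rr g ^ (y * L) := one_le_pow₀ hg1.le
      have b2 : X.rr g' ^ (x * L) ≤ 1 := pow_le_one₀ (X.rr_pos _).le hg1'.le
      rcases Nat.eq_zero_or_pos x with rfl | hx
      · have : 1 < X.rr g ^ (y * L) := one_lt_pow₀ hg1 (Nat.mul_pos (by omega) hL0).ne'
        linarith
      · have : X.rr g' ^ (x * L) < 1 :=
          pow_lt_one₀ (X.rr_pos _).le hg1' (Nat.mul_pos hx hL0).ne'
        linarith
    · obtain ⟨a, ha⟩ := hI.conn s s0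
      obtain ⟨w, hw⟩ := exists_path (X := X) (a.length * (L - 1)) s0
      have lw := X.length_of_mem_Paths hw
      have a1 := ha.append ((hg.rep (y * L)).append (Pa.of_mem hw))
      have a2 := ha.append ((hg'.rep (x * L)).append (Pa.of_mem hw))
      obtain ⟨L', hL'⟩ : ∃ L', L = L' + 1 := ⟨L - 1, by omega⟩
      have l1 : (a ++ (G ++ w)).length = (a.length + y * g.length) * L := by
        simp only [List.length_append, hG, length_rep, lw]
        rw [hL', Nat.add_sub_cancel]; ring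
      have l2 : (a ++ (G' ++ w)).length = (a.length + x * g'.length) * L := by
        simp only [List.length_append, hG', length_rep, lw]
        rw [hL', Nat.add_sub_cancel]; ring
      obtain ⟨H, c1, c2, c3, c4⟩ := X.chunk L _ s _ (l1 ▸ a1.1)
      obtain ⟨H', d1, d2, d3, d4⟩ := X.chunk L _ s _ (l2 ▸ a2.1)
      refine ⟨H, H', c1, d1, by rw [c2, d2, a1.2, a2.2], ?_, ?_⟩
      · rw [c4, d4]
        simp only [DP_append, hG, hG', DP_rep]
        have p1 := (X.DP_pos a).ne'
        have p2 := (X.DP_pos w).ne'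
        have p3 := (X.DP_pos g).ne'
        have p4 := (X.DP_pos g').ne'
        rw [Nat.factorization_mul p1 (by positivity), Nat.factorization_mul p1 (by positivity),
          Nat.factorization_mul (by positivity) p2, Nat.factorization_mul (by positivity) p2,
          Nat.factorization_pow, Nat.factorization_pow]
        simp only [Finsupp.add_apply, Finsupp.smul_apply, smul_eq_mul]
        congr 2
        rw [mul_right_comm, hv, mul_right_comm]
      · have e1 : (X.pow L).rP H = X.rP (a ++ (G ++ w)) := by rw [rP, c3, c4]; rfl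
        have e2 : (X.pow L).rP H' = X.rP (a ++ (G' ++ w)) := by rw [rP, d3, d4]; rfl
        rw [e1, e2]
        simp only [rP_append]
        field_simp

end Sys

theorem Tw.good_st : Tw.GoodSt := by
  intro S E _ _ _ _ X ι hI hN s0 g hg hg1
  obtain ⟨L, h1, h2, h3⟩ := X.exists_goodW hI hN s0 g hg hg1
  refine ⟨L, h1, h2, fun s => ?_⟩
  obtain ⟨e₁, e₂, k1, k2, k3, k4, k5, k6, k7⟩ := h3 s
  exact ⟨e₁, e₂, k1, k2, k3, k4, k5, k6, (k7.map ι).sum_eq⟩

end Pool.Agent.Lib.MP_39d40e_nt
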