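import Pool.Agent.Lib.MP_39d40e_nt.Tw0

/-! Clocks with class dependent increments: the approximate harmonic equation. -/

namespace Pool.Agent.Lib.MP_39d40e_nt.Tw

open Finset Filter Topology Bd

namespace Harmx

variable {S E : Type} [Fintype S] [Fintype E] [DecidableEq S] [DecidableEq E] (X : Sys S E)

omit [DecidableEq E] in
theorem fam_abs {χ τ : S × ℤ → ℝ} {ι : E → ℝ} {R : ℝ} (h : X.Clock3 χ τ ι R) (k : ℝ × ℝ)
    (x : S × ℤ) : |St.Sx.fam χ τ k x| ≤ 1 := by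
  obtain ⟨c0, c1, -⟩ := h
  have a1 := mul_nonneg (c0 x) (by linarith [Real.neg_one_le_cos (k.1 * τ x + k.2)] :
    0 ≤ 1 + Real.cos (k.1 * τ x + k.2))
  have a2 := mul_le_mul (c1 x) (by linarith [Real.cos_le_one (k.1 * τ x + k.2)] :
    1 + Real.cos (k.1 * τ x + k.2) ≤ 2)
    (by linarith [Real.neg_one_le_cos (k.1 * τ x + k.2)]) zero_le_one
  rw [St.Sx.fam, abs_le]
  constructor <;> linarith

omit [DecidableEq E] in
theorem fam_step {χ τ : S × ℤ → ℝ} {ι : E → ℝ} {R : ℝ} (h : X.Clock3 χ τ ι R) (θ k : ℝ)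
    (x : S × ℤ) (hx : R < |(x.2 : ℝ)|) :
    St.Sx.fam χ τ (θ, k + θ * ι (X.lab x)) (X.step x) = St.Sx.fam χ τ (θ, k) x := by
  obtain ⟨a1, a2⟩ := h.2.2 x hx
  simp only [St.Sx.fam, a1]
  by_cases h0 : χ x = 0
  · simp [h0]
  · rw [a2 h0]; congr 4; ring

omit [DecidableEq E] in
theorem push1 (s : S) (φ : ℤ → ℝ) (ψ : E → ℤ → ℝ) (k : ℤ → ℝ) (U V : Finset ℤ)
    (hG : ∀ u, k u ≠ 0 → u ∈ U ∧ (X.step (s, u)).2 ∈ V ∧
      ψ (X.lab (s, u)) (X.step (s, u)).2 = φ u) :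
    ∑ u ∈ U, φ u * k u = ∑ e with X.src e = s, ∑ z ∈ V, ψ e z *
      (if X.b e ∣ X.D e * z - X.c e then k ((X.D e * z - X.c e) / X.b e) else 0) := by
  classical
  rw [← sum_product']
  have hq : ∀ u : ℤ, (X.D (X.lab (s, u)) : ℤ) * (X.step (s, u)).2 - X.c (X.lab (s, u))
      = X.b (X.lab (s, u)) * u := fun u => by
    have := X.step_mul (s, u)
    simp only at this
    linarith
  refine sum_bij_ne_zero (fun u _ _ => (X.lab (s, u), (X.step (s, u)).2))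
    (fun u _ hu => ?_) (fun u _ _ u' _ _ hu => ?_) (fun p hp h0 => ?_) (fun u _ hu => ?_)
  · have := hG u (right_ne_zero_of_mul hu)
    exact mem_product.2 ⟨mem_filter.2 ⟨mem_univ _, X.lab_src (s, u)⟩, this.2.1⟩
  · obtain ⟨h1, h2⟩ := Prod.mk.inj hu
    have k1 := hq u
    have k2 := hq u'
    rw [h1, h2] at k1
    exact mul_left_cancel₀ (X.b_ne _) (k1.symm.trans k2)
  · obtain ⟨e, z⟩ := p
    obtain ⟨he, hz⟩ := mem_product.1 hp
    have he' : X.src e = s := (mem_filter.1 he).2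
    simp only at h0
    split_ifs at h0 with hd
    swap
    · simp at h0
    obtain ⟨y, hy⟩ := hd
    rw [hy, Int.mul_ediv_cancel_left _ (X.b_ne e)] at h0
    have a1 := hG y (right_ne_zero_of_mul h0)
    have a2 : X.lab (s, y) = e := X.lab_eq (s, y) e he' ⟨z, by simp only; linarith⟩
    have a3 : (X.step (s, y)).2 = z := by
      have k1 := hq y
      rw [a2] at k1
      have k2 : (X.D e : ℤ) ≠ 0 := by exact_mod_cast (X.D_pos e).ne'
      exact mul_left_cancel₀ k2 (by linarith)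
    refine ⟨y, a1.1, ?_, by rw [a2, a3]⟩
    rw [← a1.2.2, a2, a3]; exact h0
  · have a1 := hG u (right_ne_zero_of_mul hu)
    simp only
    rw [hq u, if_pos (Dvd.intro _ rfl), Int.mul_ediv_cancel_left _ (X.b_ne _), a1.2.2]

theorem pow_lab (L : ℕ) (x : S × ℤ) : ((X.pow L).lab x).1.2 = X.orb L x := by
  have h := (X.pow L).lab_eq x ⟨((X.step^[L] x).1, X.orb L x), X.mem_PF.2 (X.orb_mem L _)⟩
    (X.orb_endp L x) (Dvd.intro _ (X.orb_mul L x))
  rw [h]

theorem clock_pow {χ τ : S × ℤ → ℝ} {ι : E → ℝ} {R : ℝ} (h : X.Clock3 χ τ ι R) (L : ℕ) :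
    (X.pow L).Clock3 χ τ (fun e => (e.1.2.map ι).sum)
      (max ((X.d : ℝ) ^ L) L * |R| + max ((X.d : ℝ) ^ L) L * X.cmx * max ((X.d : ℝ) ^ L) L) := by
  refine ⟨h.1, h.2.1, fun x hx => ?_⟩
  have far := St.Ef.inv_iter X (χ := fun _ : Unit => χ) (nx := id) (R := R)
    (fun _ x hx => (h.2.2 x hx).1) () (le_max_left ((X.d : ℝ) ^ L) L) (le_max_right _ _) x hx
  simp only [X.pow_step, pow_lab]
  refine ⟨(far L le_rfl).2, fun h0 => ?_⟩
  have key : ∀ j ≤ L, τ x = τ (X.step^[j] x) + ((X.orb j x).map ι).sum := by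
    intro j hj
    induction j with
    | zero => simp [Sys.orb]
    | succ j ih =>
      have a1 := far j (by omega)
      have a2 := (h.2.2 _ ((le_abs_self R).trans_lt a1.1)).2 (by rw [a1.2]; exact h0)
      rw [ih (by omega), a2, Function.iterate_succ_apply', Sys.orb, List.map_cons, List.sum_cons]
      ring
  exact key L le_rfl

end Harmx

open St.Hf Harmx in
theorem harm_st : HarmSt := by
  intro S E _ _ _ _ X χ τ ι R hI L hL hE h a Lp hk
  obtain ⟨C0, t0, hC⟩ := hE h a Lp hk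
  have hχ := fam_abs X hI
  have hR := fam_step X hI
  have hB : ∀ e, X.b e ∣ (((X.pow L).B0 : ℕ) : ℤ) := fun e => by
    obtain ⟨n, rfl⟩ : ∃ n, L = n + 1 := ⟨L - 1, by omega⟩
    obtain ⟨l, hl⟩ := Sys.exists_path (X := X) n (X.src e)
    have h2 := (X.pow (n + 1)).b_dvd_B0
      ⟨(X.tgt e, e :: l), X.mem_PF.2 (X.cons_mem_Paths.2 ⟨rfl, hl⟩)⟩
    refine Dvd.dvd.trans ?_ h2
    show X.b e ∣ X.bP (e :: l)
    rw [Sys.bP_cons]
    exact Dvd.intro _ rfl
  set K : ℝ := ∑ e, (2 * |(X.b e : ℝ)| + |(X.c e : ℝ)|) with hK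
  have hKe : ∀ e, 2 * |(X.b e : ℝ)| + |(X.c e : ℝ)| ≤ K := fun e =>
    single_le_sum (f := fun e => 2 * |(X.b e : ℝ)| + |(X.c e : ℝ)|) (fun _ _ => by positivity)
      (mem_univ e)
  have hK0 : 0 ≤ K := sum_nonneg fun _ _ => by positivity
  set M : ℝ := ∑ e, |Real.log (|(X.b e : ℝ)| / X.D e)| with hM
  have hMe : ∀ e, |Real.log (|(X.b e : ℝ)| / X.D e)| ≤ M := fun e =>
    single_le_sum (f := fun e => |Real.log (|(X.b e : ℝ)| / X.D e)|) (fun _ _ => abs_nonneg _)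
      (mem_univ e)
  have hM0 : 0 ≤ M := sum_nonneg fun _ _ => abs_nonneg _
  have ha := hk.a_pos
  have hLp := hk.L_nonneg
  refine ⟨∑ e, ((2 * K + 3) * (Lp * |(X.c e : ℝ)|) * 2 + |(X.b e : ℝ)| / X.D e * (4 * |C0|)),
    |t0| + 2 * M + |R| / a + 1, fun θ k s t ht => ?_⟩
  have q1 := abs_nonneg t0
  have q2 : 0 ≤ |R| / a := by positivity
  have ht1 : 1 ≤ t := by linarith
  set Y := Real.exp t with hYd
  have hY1 : t + 1 ≤ Y := Real.add_one_le_exp t
  have hY : 0 < Y := by linarith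
  have hY2 : t ^ 2 / 2 ≤ Y := by
    have := Real.quadratic_le_exp_of_nonneg (show 0 ≤ t by linarith)
    linarith
  set V : Finset ℤ := Icc (-⌈K * Y⌉) ⌈K * Y⌉ with hVd
  have hV : ∀ z : ℤ, |(z : ℝ)| ≤ K * Y → z ∈ V := fun z hz => by
    have h1 := Int.le_ceil (K * Y)
    have h2 : ((|z| : ℤ) : ℝ) ≤ (⌈K * Y⌉ : ℤ) := by push_cast; linarith
    have h3 : |z| ≤ ⌈K * Y⌉ := by exact_mod_cast h2
    exact mem_Icc.2 (abs_le.1 h3)
  have hVc : (V.card : ℝ) ≤ (2 * K + 3) * Y := by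
    have k0 : 0 ≤ K * Y := by positivity
    have k1 : 0 ≤ ⌈K * Y⌉ := Int.ceil_nonneg k0
    have k2 : (V.card : ℤ) = ⌈K * Y⌉ + 1 - -⌈K * Y⌉ := Int.card_Icc_of_le _ _ (by omega)
    have k3 : (V.card : ℝ) = (⌈K * Y⌉ : ℤ) + 1 - -((⌈K * Y⌉ : ℤ) : ℝ) := by exact_mod_cast k2
    have k4 := Int.ceil_lt_add_one (K * Y)
    nlinarith
  have push := push1 X s (fun u => St.Sx.fam χ τ (θ, k) (s, u))
    (fun e z => St.Sx.fam χ τ (θ, k + θ * ι e) (X.tgt e, z)) (fun u => h (|(u : ℝ)| / Y) / Y)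
    (Icc (-⌈2 * Y⌉) ⌈2 * Y⌉) V (by
      intro u hu
      have k1 : h (|(u : ℝ)| / Y) ≠ 0 := by
        intro e
        apply hu
        simp [e]
      have k2 : |(u : ℝ)| < 2 * Y := by
        by_contra e
        exact k1 (hk.high _ (by rw [le_div_iff₀ hY]; linarith))
      have k3 : a * Y < |(u : ℝ)| := by
        by_contra e
        exact k1 (hk.low _ (by rw [div_le_iff₀ hY]; linarith))
      refine ⟨?_, ?_, ?_⟩
      · have h1 := Int.le_ceil (2 * Y)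
        have h2 : ((|u| : ℤ) : ℝ) ≤ (⌈2 * Y⌉ : ℤ) := by push_cast; linarith
        have h3 : |u| ≤ ⌈2 * Y⌉ := by exact_mod_cast h2
        exact mem_Icc.2 (abs_le.1 h3)
      · refine hV _ ?_
        have m1 : (X.D (X.lab (s, u)) : ℝ) * ((X.step (s, u)).2 : ℝ) =
            X.b (X.lab (s, u)) * u + X.c (X.lab (s, u)) := by exact_mod_cast X.step_mul (s, u)
        have m2 : (1 : ℝ) ≤ X.D (X.lab (s, u)) := by exact_mod_cast X.D_pos _
        have m3 := hKe (X.lab (s, u))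
        have m4 : (X.D (X.lab (s, u)) : ℝ) * |((X.step (s, u)).2 : ℝ)| ≤
            |(X.b (X.lab (s, u)) : ℝ)| * |(u : ℝ)| + |(X.c (X.lab (s, u)) : ℝ)| := by
          rw [← abs_mul, ← abs_of_nonneg (show (0 : ℝ) ≤ X.D (X.lab (s, u)) by linarith),
            ← abs_mul, m1]
          exact abs_add_le _ _
        have m5 := abs_nonneg ((X.step (s, u)).2 : ℝ)
        have m6 := abs_nonneg (X.b (X.lab (s, u)) : ℝ)
        have m7 := abs_nonneg (X.c (X.lab (s, u)) : ℝ)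
        have m8 := mul_le_mul_of_nonneg_left k2.le m6
        have m9 := mul_le_mul_of_nonneg_right m3 hY.le
        have m10 := mul_le_mul_of_nonneg_left (show 1 ≤ Y by linarith) m7
        have m11 := mul_le_mul_of_nonneg_right m2 m5
        linarith
      · refine hR θ k (s, u) ?_
        have m1 : |R| / a ≤ Y := by linarith
        rw [div_le_iff₀ ha] at m1
        have m2 := le_abs_self R
        show R < |(u : ℝ)|
        linarith)
  have hleft : ∑ u ∈ Icc (-⌈2 * Y⌉) ⌈2 * Y⌉, St.Sx.fam χ τ (θ, k) (s, u) *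
      (h (|(u : ℝ)| / Y) / Y) = F h (fun u => St.Sx.fam χ τ (θ, k) (s, u)) Y := by
    simp only [F, sum_div, mul_div_assoc]
  rw [← hleft, push, mul_sum, ← sum_sub_distrib]
  have hπ0 := X.π_pos s
  have hπ1 : X.π s ≤ 1 := by
    rw [← X.π_sum]
    exact single_le_sum (fun s _ => (X.π_pos s).le) (mem_univ s)
  refine (abs_sum_le_sum_abs _ _).trans ?_
  rw [sum_div]
  refine le_trans (sum_le_sum fun e he => ?_)
    (sum_le_sum_of_subset_of_nonneg (filter_subset _ _) fun e _ _ => by positivity)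
  have hb1 : (1 : ℝ) ≤ |(X.b e : ℝ)| := by exact_mod_cast Int.one_le_abs (X.b_ne e)
  have hD1 : (1 : ℝ) ≤ X.D e := by exact_mod_cast X.D_pos e
  have hr : 0 < |(X.b e : ℝ)| / X.D e := by positivity
  have hexp : Real.exp (t + Real.log (|(X.b e : ℝ)| / X.D e)) = Y * (|(X.b e : ℝ)| / X.D e) := by
    rw [Real.exp_add, Real.exp_log hr]
  have e1 := edge hk (X.b_ne e) (X.c e) (X.D_pos e) (fun z => St.Sx.fam χ τ (θ, k + θ * ι e) (X.tgt e, z)) (fun z => hχ _ _) hY V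
    (fun z hz => hV z (by
      have m1 : |(X.b e : ℝ)| / X.D e ≤ |(X.b e : ℝ)| := div_le_self (by linarith) hD1
      have m2 := mul_le_mul_of_nonneg_left m1 hY.le
      have m3 := mul_le_mul_of_nonneg_right (hKe e) hY.le
      have m4 : 0 ≤ |(X.c e : ℝ)| * Y := by positivity
      linarith))
  have l1 := abs_le.1 (hMe e)
  have e2 := hC (θ, k + θ * ι e) (X.tgt e) (gg (X.b e) (X.c e) (X.D e)) (gg_per _ _ _ (hB e))
    (gg_sum (X.b_ne e) _ _ _ (hB e) (X.cop_D' e e)) (gg_abs (X.b_ne e) _ _)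
    (t + Real.log (|(X.b e : ℝ)| / X.D e)) (by linarith [le_abs_self t0])
  have e3 : C0 / (t + Real.log (|(X.b e : ℝ)| / X.D e)) ^ 2 ≤ 4 * |C0| / t ^ 2 := by
    have m1 : t / 2 ≤ t + Real.log (|(X.b e : ℝ)| / X.D e) := by linarith
    calc C0 / (t + Real.log (|(X.b e : ℝ)| / X.D e)) ^ 2
        ≤ |C0| / (t + Real.log (|(X.b e : ℝ)| / X.D e)) ^ 2 := by
          gcongr
          exact le_abs_self _
      _ ≤ |C0| / (t / 2) ^ 2 := by gcongr
      _ = 4 * |C0| / t ^ 2 := by field_simp; ring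
  have e4 : (V.card : ℝ) * (Lp * |(X.c e : ℝ)| / Y ^ 2) ≤
      (2 * K + 3) * (Lp * |(X.c e : ℝ)|) * 2 / t ^ 2 := by
    calc (V.card : ℝ) * (Lp * |(X.c e : ℝ)| / Y ^ 2)
        ≤ (2 * K + 3) * Y * (Lp * |(X.c e : ℝ)| / Y ^ 2) := by gcongr
      _ = (2 * K + 3) * (Lp * |(X.c e : ℝ)|) / Y := by field_simp
      _ ≤ (2 * K + 3) * (Lp * |(X.c e : ℝ)|) / (t ^ 2 / 2) := by gcongr
      _ = _ := by field_simp
  rw [hexp] at e2
  rw [hexp, (mem_filter.1 he).2]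
  have e5 := mul_le_mul_of_nonneg_left (e2.trans e3) hr.le
  generalize F h (fun u => St.Sx.fam χ τ (θ, k + θ * ι e) (X.tgt e, u) * gg (X.b e) (X.c e) (X.D e) u)
    (Y * (|(X.b e : ℝ)| / X.D e)) = f2 at e1 e5
  generalize F h (fun u => St.Sx.fam χ τ (θ, k + θ * ι e) (X.tgt e, u)) (Y * (|(X.b e : ℝ)| / X.D e)) = f1 at e1 ⊢
  generalize (∑ z ∈ V, St.Sx.fam χ τ (θ, k + θ * ι e) (X.tgt e, z) * (if X.b e ∣ X.D e * z - X.c e then
    h (|(((X.D e * z - X.c e) / X.b e : ℤ) : ℝ)| / Y) / Y else 0)) = A at e1 ⊢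
  have e6 : X.π s * A - X.π s / X.D e * f1 = X.π s *
      ((A - 1 / X.D e * f1 - |(X.b e : ℝ)| / X.D e * f2) + |(X.b e : ℝ)| / X.D e * f2) := by
    ring
  rw [e6, abs_mul, abs_of_pos hπ0]
  refine (mul_le_of_le_one_left (abs_nonneg _) hπ1).trans ((abs_add_le _ _).trans ?_)
  rw [abs_mul, abs_of_pos hr, add_div, mul_div_assoc (|(X.b e : ℝ)| / X.D e)]
  exact add_le_add (e1.trans e4) e5

theorem harm_all (hM : MixSt) (hG : GoodSt) (hE : EqSt) : HarmAll := by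
  intro S E _ _ _ _ X hI hN s0 g hg hg1 χ τ ι R hχ
  classical
  obtain ⟨L, L1, hL, hP⟩ := hG S E X ι hI hN s0 g hg hg1
  exact harm_st S E X χ τ ι R hχ L L1
    (hE _ _ (X.pow L) χ τ _ _ (Harmx.clock_pow X hχ L) (hM _ _ (X.pow L) _ hL hP))

end Pool.Agent.Lib.MP_39d40e_nt.Tw
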