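import Pool.Agent.Lib.MP_39d40e_nt.Tw0

/-! Class dependent increments: transfer from the system to the classes of the chain. -/

namespace Pool.Agent.Lib.MP_39d40e_nt.Tw

open Finset Filter Topology

namespace Leighx

variable (L : LData)

theorem walk_sum (c : ZMod L.d → ℝ) (σ : ℕ → ℕ × ℕ) (h0 : σ 0 ∈ L.C) (n : ℕ)
    (h : ∀ t < n, 0 < P L.d L.m L.r L.a (σ t) (σ (t + 1))) :
    ∃ (hn : σ n ∈ L.C) (u : List L.Ed), L.sys.Pa ⟨σ n, hn⟩ u ⟨σ 0, h0⟩ ∧
      Real.log (L.sys.rr u) + Real.log (σ n).2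
        = ∑ t ∈ range n, Real.log |(L.m (σ t).1 : ℝ) / L.d| + Real.log (σ 0).2 ∧
      (u.map fun e : L.Ed => c e.1.1.1.1).sum = ∑ t ∈ range n, c (σ t).1 := by
  induction n with
  | zero => exact ⟨h0, [], Sys.Pa.nil _, by simp [Sys.rr], by simp⟩
  | succ n ih =>
    obtain ⟨hn, u, a1, a2, a3⟩ := ih fun t ht => h t (by omega)
    have b1 := h n (by omega)
    have hn' := L.closed _ hn _ b1
    let e : L.Ed := ⟨(⟨σ n, hn⟩, ⟨σ (n + 1), hn'⟩), (L.P_pos _ _).1 b1⟩
    refine ⟨hn', [e] ++ u, (Sys.Pa.single (X := L.sys) e).append a1, ?_, ?_⟩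
    · have b2 : L.sys.rr [e] * (L.d * ((σ (n + 1)).2 : ℕ))
          = |(L.m (σ n).1 : ℝ)| * ((σ n).2 : ℕ) := L.rr_edge e
      have d0 : (0 : ℝ) < L.d := by exact_mod_cast L.d_pos
      have k0 : (0 : ℝ) < ((σ n).2 : ℕ) := by exact_mod_cast L.k_pos hn
      have k1 : (0 : ℝ) < ((σ (n + 1)).2 : ℕ) := by exact_mod_cast L.k_pos hn'
      have m0 : (L.m (σ n).1 : ℝ) ≠ 0 := by exact_mod_cast L.hm _
      have m1 : 0 < |(L.m (σ n).1 : ℝ)| := abs_pos.2 m0
      have b3 := congrArg Real.log b2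
      rw [Real.log_mul (L.sys.rr_pos _).ne' (by positivity), Real.log_mul d0.ne' k1.ne',
        Real.log_mul m1.ne' k0.ne'] at b3
      rw [Sys.rr_append, Real.log_mul (L.sys.rr_pos _).ne' (L.sys.rr_pos _).ne', sum_range_succ,
        abs_div, abs_of_pos d0, Real.log_div m1.ne' d0.ne']
      linarith
    · rw [List.map_append, List.sum_append, a3, sum_range_succ, add_comm]
      simp [e]

theorem mean_cls [NeZero L.d] (c : ZMod L.d → ℝ) :
    L.sys.mean (fun e : L.Ed => c e.1.1.1.1)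
      = ∑ i : ZMod L.d, (∑ s ∈ L.C with (s.1 : ZMod L.d) = i, L.ρ s) * c i := by
  have h2 : ∑ i : ZMod L.d, (∑ s ∈ L.C with (s.1 : ZMod L.d) = i, L.ρ s) * c i
      = ∑ s ∈ L.C, L.ρ s * c s.1 := by
    rw [← sum_fiberwise_of_maps_to (s := L.C) (t := univ) (g := fun s => (s.1 : ZMod L.d))
      (by simp)]
    apply sum_congr rfl; intro i _
    rw [sum_mul]
    apply sum_congr rfl; intro s hs
    rw [(mem_filter.1 hs).2]
  rw [h2, sum_subtype L.C (p := fun s => s ∈ L.C) (fun _ => Iff.rfl)]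
  exact L.sys.mean_src fun s => c s.1.1

end Leighx

theorem leigh_st (h1 : SysSt) (h2 : St.LevySt2) : LeighSt := by
  classical
  intro L _ Λ hΛ0 hΛ n σ h0 hσn hσ hexp c μ hμ
  obtain ⟨s0, g, hg, hg1⟩ := L.exists_cycle n σ h0 hσn hσ hexp
  obtain ⟨c0, hc0, hpos, hS⟩ := h1 _ _ L.sys L.irred (L.drift (hΛ0 ▸ hΛ)) s0 g hg hg1
    (-Real.log Λ) (by rw [hΛ0, ← L.drift_log]; rfl) (fun e : L.Ed => c e.1.1.1.1)
  rw [Leighx.mean_cls, ← hμ] at hpos hS
  refine ⟨Real.sqrt (2 * c0), Real.sqrt_nonneg _, fun n' σ' h0' hn' hw hne => ?_, fun A τ hA => ?_⟩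
  · obtain ⟨hn, u, a1, a2, a3⟩ := Leighx.walk_sum L c σ' h0' n' hw
    have e : (⟨σ' n', hn⟩ : L.St) = ⟨σ' 0, h0'⟩ := Subtype.ext hn'
    rw [e] at a1
    rw [hn'] at a2
    have := hpos _ u a1 (by
      rw [a3, add_right_cancel a2, mul_sum, ← sum_add_distrib]; exact hne)
    exact Real.sqrt_pos.2 (by positivity)
  obtain ⟨R, hR⟩ := ((L.fin_exc2 _ hA).image fun x => |(x.2 : ℝ)|).bddAbove
  obtain ⟨δ, hδ⟩ := hS (fun x => if L.val x ∈ A then 1 else 0) (fun x => τ (L.val x)) R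
    ⟨fun x => by dsimp only; split_ifs <;> norm_num,
      fun x => by dsimp only; split_ifs <;> norm_num, fun x hx => by
      have b : (L.val x ∈ A ↔ T L.d L.m L.r (L.val x) ∈ A) ∧
          (L.val x ∈ A → τ (L.val x) = τ (T L.d L.m L.r (L.val x)) + c (L.val x)) := by
        by_contra hn
        exact absurd (hR ⟨x, hn, rfl⟩) (not_le.2 hx)
      have b1 : (L.sys.lab x).1.1 = x.1 := L.sys.lab_src x
      have b2 : ((L.val x : ℤ) : ZMod L.d) = (x.1.1.1 : ZMod L.d) := by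
        unfold LData.val; push_cast; simp
      simp only [L.val_step]
      refine ⟨by simp only [← b.1], fun hne => ?_⟩
      rw [b1, ← b2]
      refine b.2 ?_
      by_contra hn
      exact hne (if_neg hn)⟩
  refine ⟨δ, fun s hs φ => ?_⟩
  have hj := L.hC s hs
  set M := L.d * s.2 with hM
  have M0 : (0 : ℝ) < M := by exact_mod_cast (by omega : 0 < M)
  have ch := St.Leighx.chf M s.1 hj (fun x => if x ∈ A then 1 else 0) τ
    (fun x => by split_ifs <;> norm_num) δ c0 1 μ⁻¹ (fun ε B hε => by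
      obtain ⟨N0, hN0⟩ := hδ ε B hε
      refine ⟨N0, fun N hN θ hθ k => ?_⟩
      have b := hN0 N hN θ hθ k ⟨s, hs⟩
      have e : ∀ u : ℤ, L.val (⟨s, hs⟩, u) = (s.1 : ℤ) + (M : ℤ) * u := fun u => by
        rw [hM]; unfold LData.val; push_cast; ring
      have e' : θ * 1 * Real.log N / μ⁻¹ = θ * (μ * Real.log N) := by rw [div_inv_eq_mul]; ring
      rw [e', mul_one]
      simpa only [e] using b)
  have lv := h2 (fun N => (Icc (-(N : ℤ)) N).filter (fun x => x ≡ s.1 [ZMOD M] ∧ x ∈ A))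
    (fun N x => (τ x - μ * Real.log N) / Real.sqrt (Real.log N))
    (2 * δ / M) (Real.sqrt (2 * c0)) (fun a k => by
      have e : (Real.sqrt (2 * c0) * a) ^ 2 / 2 = c0 * (1 * a) ^ 2 := by
        rw [mul_pow, Real.sq_sqrt (by positivity)]; ring
      rw [e]
      refine (ch a k).congr fun N => ?_
      have e' : 1 * (Real.log N / μ⁻¹) = μ * Real.log N := by rw [div_inv_eq_mul]; ring
      rw [e']
      congr 1
      rw [sum_filter, sum_filter]
      refine sum_congr rfl fun x _ => ?_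
      by_cases b1 : x ≡ s.1 [ZMOD M] <;> by_cases b2 : x ∈ A <;> simp [b1, b2]) φ
  have t := lv.div (St.Leighx.cnt M s.1 hj) (by positivity)
  have e : 2 * δ / M * (∫ y, φ (Real.sqrt (2 * c0) * y) ∂(ProbabilityTheory.gaussianReal 0 1))
      / (2 / M) = δ * ∫ y, φ (Real.sqrt (2 * c0) * y)
        ∂(ProbabilityTheory.gaussianReal 0 1) := by field_simp
  rw [e] at t
  refine t.congr' ?_
  filter_upwards [eventually_gt_atTop 0] with N hN
  have N0 : (0 : ℝ) < N := by exact_mod_cast hN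
  simp only [Pi.div_apply]
  rw [div_div_div_cancel_right₀ N0.ne', sum_filter]
  congr 1
  exact sum_congr rfl fun x _ => by simp only [Set.indicator_apply, Set.mem_ofPred_eq]

end Pool.Agent.Lib.MP_39d40e_nt.Tw
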