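import Pool.Agent.Lib.MP_39d40e_nt.PsZ
import Pool.Agent.Lib.MP_39d40e_nt.TwHarm
import Pool.Agent.Lib.MP_39d40e_nt.TwGood
import Pool.Agent.Lib.MP_39d40e_nt.TwLeigh
import Pool.Agent.Lib.MP_39d40e_nt.PdD

/-! Typical descent at all scales: definitions and statements of the parts. -/

namespace Pool.Agent.Lib.MP_39d40e_nt

open Finset Filter

namespace Sys

variable {S E : Type} [Fintype S] [Fintype E] [DecidableEq S] [DecidableEq E] (X : Sys S E)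

/-- the size of the `n`-th point of the orbit -/
noncomputable def sz (v : S × ℤ) (n : ℕ) : ℝ := |(((X.step^[n] v).2 : ℤ) : ℝ)|

/-- the logarithm of the ratio of an edge -/
noncomputable def lr (e : E) : ℝ := Real.log (|(X.b e : ℝ)| / X.D e)

/-- the orbit enters `[-y, y]` in time, and `f` has its mean `a` on every stretch -/
def Desc (f : E → ℝ) (a κ ε y : ℝ) (N : ℕ) (v : S × ℤ) : Prop := ∃ τ : ℕ,
  X.sz v τ ≤ y ∧ (∀ n < τ, y < X.sz v n) ∧ (τ : ℝ) ≤ κ * Real.log N ∧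
  ∀ n n' : ℕ, n ≤ n' → n' ≤ τ →
    |∑ t ∈ Ico n n', f (X.lab (X.step^[t] v)) - ((n' : ℝ) - n) * a| ≤ ε * Real.log (X.sz v n)

/-- deviation of `f` from `a` on a path of length `k` -/
def Dv (f : E → ℝ) (a δ : ℝ) (k : ℕ) (l : List E) : Prop := δ * k < |(l.map f).sum - k * a|

open Classical in
/-- all but a proportion `y ^ (-c)` of the points have property `G y N` -/
def Most (G : ℝ → ℕ → S × ℤ → Prop) : Prop := ∃ K c y0 : ℝ, 0 ≤ K ∧ 0 < c ∧ ∀ y : ℝ, 2 ≤ y →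
  y0 ≤ y → ∀ (s : S) (N : ℕ),
  (((Icc (-(N : ℤ)) N).filter fun u => ¬ G y N (s, u)).card : ℝ) ≤ K * N / y ^ c

open Classical in
/-- the count of typical predecessors -/
def CntOK (θ : ℝ) : Prop := ∃ (g G n0 : ℕ) (C : ℝ), 1 ≤ g ∧ 0 ≤ C ∧ ∀ n1 : ℕ, n0 ≤ n1 →
  ∀ x : ℝ, 0 < x → ∀ s : S, ∃ Ψ : ℤ → ℝ, Sys.PM (X.B0 ^ (G * n1)) C Ψ ∧ ∀ (z : ℤ) (I : Finset ℕ),
    ∑ m ∈ I, (((X.Paths m s).filter fun l =>
      X.Ty2 θ n1 g l ∧ X.Val l z ∧ 1 / x < X.rr l).card : ℝ) ≤ x * Ψ z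

/-- the ratios of paths lie in finitely many geometric progressions -/
def Lat : Prop := ∃ (lam : ℝ) (κ : S → S → ℝ), 0 < lam ∧ lam < 1 ∧ (∀ s t, 0 < κ s t) ∧
  ∀ s l, l ∈ X.Paths l.length s → ∃ j : ℕ, X.rr l = κ s (X.endp s l) * lam ^ j

end Sys

namespace Td

/-- a stretch of good points gives a typical path -/
def StretchSt : Prop := ∀ (S E : Type) [Fintype S] [Fintype E] [DecidableEq S] [DecidableEq E]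
  (X : Sys S E) (θ : ℝ), 0 < θ → θ < 1 → ∃ R : ℕ, 1 ≤ R ∧ ∀ g : ℕ, 1 ≤ g → ∃ Q0 : ℕ, ∀ Q : ℕ,
    Q0 ≤ Q → ∀ (v : S × ℤ) (N m : ℕ), |v.2| ≤ N → (∀ i ≤ m, (Q : ℝ) ≤ X.sz v i) →
    (∀ i < m, ¬ X.Bad3 θ Q (X.step^[i] v)) →
    X.Ty2 θ (R * Sys.Lv Q (X.step^[m] v)) g (X.orb m v) ∧ X.sz v m < 3 * N * X.rr (X.orb m v)

/-- rare events are not met before the level is reached -/
def HitSt : Prop := ∀ (S E : Type) [Fintype S] [Fintype E] [DecidableEq S] [DecidableEq E]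
  (X : Sys S E), (∀ θ : ℝ, 0 < θ → θ < 1 → X.Tl θ → X.CntOK θ) → X.Poisson X.lr → X.Neg → ∀ A : ℕ → List E → Prop, X.Small A →
  ∀ Q1 : ℕ, ∃ Q : ℕ, Q1 ≤ Q ∧ Sys.Most fun y _ (v : S × ℤ) => ∃ τ : ℕ, X.sz v τ ≤ y ∧
    ∀ i < τ, y < X.sz v i ∧
      ¬ A (Sys.Lv Q (X.step^[i] v)) (X.orb (Sys.Lv Q (X.step^[i] v)) (X.step^[i] v))

/-- summation by blocks -/
def BlockSt : Prop := ∀ (F : ℕ → ℝ) (ℓ : ℕ → ℕ) (a δ M : ℝ) (τ Λ : ℕ), 0 ≤ δ →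
  (∀ t, |F t - a| ≤ M) →
  (∀ i < τ, 1 ≤ ℓ i ∧ |∑ t ∈ Ico i (i + ℓ i), F t - ℓ i * a| ≤ δ * ℓ i) →
  ∀ n n' : ℕ, n ≤ n' → n' ≤ τ → (∀ i, n ≤ i → i < n' → ℓ i ≤ Λ) →
    |∑ t ∈ Ico n n', F t - ((n' : ℝ) - n) * a| ≤ δ * ((n' : ℝ) - n) + M * Λ

/-- the deterministic part -/
def DetSt : Prop := ∀ (S E : Type) [Fintype S] [Fintype E] [DecidableEq S] [DecidableEq E]
  (X : Sys S E) (f : E → ℝ) (a μ ε : ℝ), 0 < μ → 0 < ε → ∃ δ : ℝ, 0 < δ ∧ ∃ Q1 : ℕ, ∀ Q : ℕ,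
    Q1 ≤ Q → ∃ y1 : ℝ, ∀ y : ℝ, y1 ≤ y → ∀ (v : S × ℤ) (N τ : ℕ), |v.2| ≤ N → X.sz v τ ≤ y →
    (∀ i < τ, y < X.sz v i ∧
      ¬ (Sys.Dv X.lr (-μ) δ (Sys.Lv Q (X.step^[i] v))
          (X.orb (Sys.Lv Q (X.step^[i] v)) (X.step^[i] v)) ∨
        Sys.Dv f a δ (Sys.Lv Q (X.step^[i] v)) (X.orb (Sys.Lv Q (X.step^[i] v)) (X.step^[i] v)))) →
    X.Desc f a (1 / μ + ε) ε y N v

/-- large deviations in a power system -/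
def TailSt : Prop := ∀ (S E : Type) [Fintype S] [Fintype E] [DecidableEq S] [DecidableEq E]
  (X : Sys S E), X.Irred → ∀ (L : ℕ) (f : E → ℝ) (δ : ℝ), 0 < δ →
  (X.pow L).Small (Sys.Dv (fun e => (e.1.2.map f).sum) (L * X.mean f) δ)

/-- from a power system to the system -/
def PowSt : Prop := ∀ (S E : Type) [Fintype S] [Fintype E] [DecidableEq S] [DecidableEq E]
  (X : Sys S E) (L : ℕ), 1 ≤ L → ∀ (f : E → ℝ) (a κ ε : ℝ), 0 < ε → ∃ y1 : ℝ, ∀ y : ℝ, y1 ≤ y →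
  ∀ (N : ℕ) (v : S × ℤ), (X.pow L).Desc (fun e => (e.1.2.map f).sum) (L * a) κ ε y N v →
    X.Desc f a (L * κ) (3 * ε) y N v

/-- dependent cycles: contraction and discrete ratios -/
def LatASt : Prop := ∀ (S E : Type) [Fintype S] [Fintype E] [DecidableEq S] [DecidableEq E]
  (X : Sys S E), X.Irred → X.Neg → ∀ s0 : S,
  (∀ g g' : List E, X.Pa s0 g s0 → X.Pa s0 g' s0 →
    ∃ x y : ℕ, 0 < x + y ∧ X.rr g ^ y = X.rr g' ^ x) →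
  X.Lat ∧ ∃ n1, ∀ s l, l ∈ X.Paths n1 s → X.rr l ≤ 1 / 2

open Classical in
/-- counting predecessors when the ratios are discrete -/
def LatBSt : Prop := ∀ (S E : Type) [Fintype S] [Fintype E] [DecidableEq S] [DecidableEq E]
  (X : Sys S E), X.Lat → (∃ n1, ∀ s l, l ∈ X.Paths n1 s → X.rr l ≤ 1 / 2) →
  ∃ C : ℝ, 0 ≤ C ∧ ∀ x : ℝ, 0 < x → ∀ (s : S) (z : ℤ) (I : Finset ℕ),
    ∑ m ∈ I, (((X.Paths m s).filter fun l => X.Val l z ∧ 1 / x < X.rr l).card : ℝ) ≤ x * C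

/-- the theorem for systems -/
def SysSt : Prop := ∀ (S E : Type) [Fintype S] [Fintype E] [DecidableEq S] [DecidableEq E]
  (X : Sys S E), X.Irred → X.Neg → ∀ (f : E → ℝ) (μ ε : ℝ), X.mean X.lr = -μ → 0 < ε →
  Sys.Most fun y N (v : S × ℤ) => |v.2| ≤ N → X.Desc f (X.mean f) (1 / μ + ε) ε y N v

/-- the theorem for Leigh's chain -/
def LeighSt : Prop := ∀ (L : LData) [NeZero L.d] (Λ : ℝ),
  Λ = ∏ i : ZMod L.d, |(L.m i : ℝ) / L.d| ^ (∑ s ∈ L.C with (s.1 : ZMod L.d) = i, L.ρ s) →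
  Λ < 1 → ∀ (f : ZMod L.d → ℝ) (ε : ℝ), 0 < ε →
  ∃ c : ℝ, 0 < c ∧ ∃ K : ℝ, ∀ y : ℝ, 2 ≤ y → ∀ N : ℕ,
    (Set.ncard {x : ℤ | |x| ≤ N ∧ (∃ s ∈ L.C, x ≡ s.1 [ZMOD (L.d * s.2 : ℕ)]) ∧ ¬ ∃ τ : ℕ,
      |(((T L.d L.m L.r)^[τ] x : ℤ) : ℝ)| ≤ y ∧
      (∀ k < τ, y < |(((T L.d L.m L.r)^[k] x : ℤ) : ℝ)|) ∧
      (τ : ℝ) ≤ (1 / (-Real.log Λ) + ε) * Real.log N ∧ ∀ k k' : ℕ, k ≤ k' → k' ≤ τ →
        |∑ t ∈ Ico k k', f ((T L.d L.m L.r)^[t] x : ℤ) - ((k' : ℝ) - k) *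
          ∑ i : ZMod L.d, (∑ s ∈ L.C with (s.1 : ZMod L.d) = i, L.ρ s) * f i|
          ≤ ε * Real.log |(((T L.d L.m L.r)^[k] x : ℤ) : ℝ)|} : ℝ) ≤ K * N / y ^ c

end Td

end Pool.Agent.Lib.MP_39d40e_nt
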