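import Pool.Agent.Lib.MP_39d40e_nt.Td0

/-! Typical descent: summation by blocks. -/

namespace Pool.Agent.Lib.MP_39d40e_nt

open Finset

namespace Td

namespace Blockx

theorem short (F : ℕ → ℝ) (a M : ℝ) (hM : ∀ t, |F t - a| ≤ M) (n n' : ℕ) (h : n ≤ n') :
    |∑ t ∈ Ico n n', F t - ((n' : ℝ) - n) * a| ≤ M * ((n' : ℝ) - n) := by
  have e : ∑ t ∈ Ico n n', F t - ((n' : ℝ) - n) * a = ∑ t ∈ Ico n n', (F t - a) := by
    rw [sum_sub_distrib, sum_const, Nat.card_Ico, nsmul_eq_mul, Nat.cast_sub h]
  rw [e]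
  refine (abs_sum_le_sum_abs _ _).trans ?_
  refine (sum_le_sum (fun t _ => hM t)).trans ?_
  rw [sum_const, Nat.card_Ico, nsmul_eq_mul, Nat.cast_sub h, mul_comm]

end Blockx

theorem block_st : BlockSt := by
  intro F ℓ a δ M τ Λ hδ hM hℓ
  have hM0 : 0 ≤ M := (abs_nonneg _).trans (hM 0)
  have key : ∀ d n n' : ℕ, n' - n ≤ d → n ≤ n' → n' ≤ τ → (∀ i, n ≤ i → i < n' → ℓ i ≤ Λ) →
      |∑ t ∈ Ico n n', F t - ((n' : ℝ) - n) * a| ≤ δ * ((n' : ℝ) - n) + M * Λ := by
    intro d
    induction d with
    | zero =>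
      intro n n' hd h _ _
      have : n' = n := by omega
      subst this
      simp only [Ico_self, sum_empty, sub_self, zero_mul, abs_zero, mul_zero, zero_add]
      positivity
    | succ d ih =>
      intro n n' hd h hτ hΛ
      rcases Nat.eq_or_lt_of_le h with he | hlt
      · subst he
        simp only [Ico_self, sum_empty, sub_self, zero_mul, abs_zero, mul_zero, zero_add]
        positivity
      · obtain ⟨h1, h2⟩ := hℓ n (by omega)
        by_cases hc : n + ℓ n ≤ n'
        · have h3 := ih (n + ℓ n) n' (by omega) hc hτ (fun i hi hi' => hΛ i (by omega) hi')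
          rw [← sum_Ico_consecutive F (Nat.le_add_right n (ℓ n)) hc]
          push_cast at h3
          have e : ∑ t ∈ Ico n (n + ℓ n), F t + ∑ t ∈ Ico (n + ℓ n) n', F t - ((n' : ℝ) - n) * a
              = (∑ t ∈ Ico n (n + ℓ n), F t - ℓ n * a)
                + (∑ t ∈ Ico (n + ℓ n) n', F t - ((n' : ℝ) - (n + ℓ n)) * a) := by ring
          rw [e]
          refine (abs_add_le _ _).trans ?_
          have e2 : δ * ((n' : ℝ) - n) = δ * ℓ n + δ * ((n' : ℝ) - (n + ℓ n)) := by ring
          rw [e2]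
          linarith
        · have h4 := Blockx.short F a M hM n n' h
          have h5 : ℓ n ≤ Λ := hΛ n le_rfl hlt
          have h6 : (n' : ℝ) - n ≤ Λ := by
            have : n' ≤ n + Λ := by omega
            have : (n' : ℝ) ≤ n + Λ := by exact_mod_cast this
            linarith
          have h7 : (0 : ℝ) ≤ (n' : ℝ) - n := by
            have : (n : ℝ) ≤ n' := by exact_mod_cast h
            linarith
          have h8 := mul_le_mul_of_nonneg_left h6 hM0
          have h9 := mul_nonneg hδ h7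
          linarith
  intro n n' h hτ hΛ
  exact key _ n n' le_rfl h hτ hΛ

end Td

end Pool.Agent.Lib.MP_39d40e_nt
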