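import Pool.Agent.Lib.MP_39d40e_nt.Td0

/-! Typical descent: the deterministic part. -/

namespace Pool.Agent.Lib.MP_39d40e_nt

open Finset

namespace Td

namespace Detx

variable {S E : Type} [Fintype S] [Fintype E] [DecidableEq S] [DecidableEq E] (X : Sys S E)

omit [DecidableEq E] in
theorem orb_sum (f : E → ℝ) (v : S × ℤ) (i k : ℕ) :
    ((X.orb k (X.step^[i] v)).map f).sum = ∑ t ∈ Ico i (i + k), f (X.lab (X.step^[t] v)) := by
  induction k with
  | zero => simp [Sys.orb]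
  | succ k ih =>
    rw [Sys.orb, List.map_cons, List.sum_cons, ih, ← add_assoc, sum_Ico_succ_top (by omega),
      ← Function.iterate_add_apply, add_comm k i, add_comm]

omit [DecidableEq E] in
theorem one (x : S × ℤ) {y : ℝ} (hy : 0 < y) (hx : y < |((x.2 : ℤ) : ℝ)|)
    (h : 0 < |(((X.step x).2 : ℤ) : ℝ)|) :
    Real.log |(((X.step x).2 : ℤ) : ℝ)| ≤
      Real.log |((x.2 : ℤ) : ℝ)| + X.lr (X.lab x) + X.cmx / y := by
  have h1 : (X.D (X.lab x) : ℝ) * (((X.step x).2 : ℤ) : ℝ) =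
      (X.b (X.lab x) : ℝ) * ((x.2 : ℤ) : ℝ) + (X.c (X.lab x) : ℝ) := by
    exact_mod_cast X.step_mul x
  have h2 : (0 : ℝ) < X.D (X.lab x) := by exact_mod_cast X.D_pos' _
  have h3 : (1 : ℝ) ≤ |(X.b (X.lab x) : ℝ)| := by
    exact_mod_cast Int.one_le_abs (X.b_ne (X.lab x))
  have h4 : |(X.c (X.lab x) : ℝ)| ≤ X.cmx :=
    single_le_sum (f := fun e => |(X.c e : ℝ)|) (fun _ _ => abs_nonneg _) (mem_univ _)
  have hc := X.cmx_nonneg
  have x0 : 0 < |((x.2 : ℤ) : ℝ)| := hy.trans hx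
  have h5 : (X.D (X.lab x) : ℝ) * |(((X.step x).2 : ℤ) : ℝ)| ≤
      |(X.b (X.lab x) : ℝ)| * |((x.2 : ℤ) : ℝ)| + X.cmx := by
    rw [← abs_of_pos h2, ← abs_mul, h1, ← abs_mul]
    exact (abs_add_le _ _).trans (add_le_add le_rfl h4)
  have h6 : X.cmx ≤ |(X.b (X.lab x) : ℝ)| * |((x.2 : ℤ) : ℝ)| * (X.cmx / y) := by
    calc X.cmx = 1 * y * (X.cmx / y) := by field_simp
      _ ≤ _ := by gcongr
  have h7 : |(((X.step x).2 : ℤ) : ℝ)| ≤
      |((x.2 : ℤ) : ℝ)| * (|(X.b (X.lab x) : ℝ)| / X.D (X.lab x)) * (1 + X.cmx / y) := by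
    rw [← mul_div_assoc, div_mul_eq_mul_div, le_div_iff₀ h2]
    linarith
  refine (Real.log_le_log h h7).trans ?_
  rw [Real.log_mul (by positivity) (by positivity), Real.log_mul (by positivity) (by positivity)]
  have := Real.log_le_sub_one_of_pos (show 0 < 1 + X.cmx / y by positivity)
  unfold Sys.lr
  linarith

omit [DecidableEq E] in
theorem many (v : S × ℤ) {y : ℝ} (hy : 0 < y) {τ : ℕ} (h : ∀ i < τ, y < X.sz v i) (n n' : ℕ)
    (h1 : n ≤ n') (h2 : n' < τ) : Real.log (X.sz v n') ≤ Real.log (X.sz v n)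
      + ∑ t ∈ Ico n n', X.lr (X.lab (X.step^[t] v)) + ((n' : ℝ) - n) * (X.cmx / y) := by
  induction n', h1 using Nat.le_induction with
  | base => simp
  | succ k hk ih =>
    have a1 := ih (by omega)
    have a2 := h (k + 1) h2
    unfold Sys.sz at a2 a1 ⊢
    rw [Function.iterate_succ_apply'] at a2 ⊢
    have a3 := one X (X.step^[k] v) hy (h k (by omega)) (hy.trans a2)
    rw [sum_Ico_succ_top hk]
    push_cast
    linarith

end Detx

theorem det_st (hB : BlockSt) : DetSt := by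
  intro S E _ _ _ _ X f a μ ε hμ hε
  obtain ⟨M, hM⟩ : ∃ M : ℝ, M = ∑ e, |X.lr e - -μ| + ∑ e, |f e - a| := ⟨_, rfl⟩
  have s1 : 0 ≤ ∑ e, |X.lr e - -μ| := sum_nonneg fun _ _ => abs_nonneg _
  have s2 : 0 ≤ ∑ e, |f e - a| := sum_nonneg fun _ _ => abs_nonneg _
  have M0 : 0 ≤ M := by linarith
  have M1 : ∀ e, |X.lr e - -μ| ≤ M := fun e => by
    have := single_le_sum (f := fun e => |X.lr e - -μ|) (fun _ _ => abs_nonneg _) (mem_univ e)
    linarith
  have M2 : ∀ e, |f e - a| ≤ M := fun e => by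
    have := single_le_sum (f := fun e => |f e - a|) (fun _ _ => abs_nonneg _) (mem_univ e)
    linarith
  obtain ⟨κ, hκ⟩ : ∃ κ : ℝ, κ = 1 / μ + ε := ⟨_, rfl⟩
  have κ0 : 0 < κ := by rw [hκ]; positivity
  have κ1 : κ * μ = 1 + ε * μ := by rw [hκ]; field_simp
  obtain ⟨η, η0, η1, η2⟩ : ∃ η : ℝ, 0 < η ∧ η ≤ ε * μ / 2 ∧ η ≤ ε / 2 :=
    ⟨min (ε * μ / 2) (ε / 2), by positivity, min_le_left _ _, min_le_right _ _⟩
  obtain ⟨δ, hδ⟩ : ∃ δ : ℝ, δ = η / (2 * κ) := ⟨_, rfl⟩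
  have δ0 : 0 < δ := by rw [hδ]; positivity
  have δ1 : 2 * δ * κ = η := by rw [hδ]; field_simp
  have δ2 : 1 + η ≤ κ * (μ - 2 * δ) := by linarith
  have δ3 : 0 < μ - 2 * δ := by
    by_contra hc
    have := mul_nonpos_of_nonneg_of_nonpos κ0.le (not_lt.1 hc)
    linarith
  obtain ⟨Q1, hQ1⟩ := exists_nat_ge (Real.exp (M + M / η))
  rw [← hκ]
  have hc := X.cmx_nonneg
  refine ⟨δ, δ0, Q1 + 2, fun Q hQ => ⟨Q + Real.exp μ + X.cmx / δ, fun y hy v N τ hv hτ h => ?_⟩⟩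
  have Q2 : (2 : ℝ) ≤ Q := by exact_mod_cast (by omega : 2 ≤ Q)
  have e0 := Real.exp_pos μ
  have c0 : 0 ≤ X.cmx / δ := by positivity
  have y0 : 0 < y := by linarith
  have y1 : μ ≤ Real.log y := (Real.le_log_iff_exp_le y0).2 (by linarith)
  have y2 : X.cmx / y ≤ δ := by
    rw [div_le_iff₀ y0, mul_comm, ← div_le_iff₀ δ0]; linarith
  have q1 : M + M / η ≤ Real.log Q := (Real.le_log_iff_exp_le (by linarith)).2
    (hQ1.trans (by exact_mod_cast (by omega : Q1 ≤ Q)))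
  have e1 : ∀ i, X.sz v i = ((X.step^[i] v).2.natAbs : ℝ) := fun i => by
    rw [Sys.sz, Nat.cast_natAbs, Int.cast_abs]
  have l0 : ∀ i, 0 ≤ Real.log (X.sz v i) := fun i => by
    rw [e1]; exact Real.log_natCast_nonneg _
  have big : ∀ i < τ, Q ≤ (X.step^[i] v).2.natAbs := fun i hi => by
    have := (h i hi).1
    rw [e1] at this
    have h3 : (Q : ℝ) ≤ ((X.step^[i] v).2.natAbs : ℝ) := by linarith
    exact_mod_cast h3
  have l1 : ∀ i < τ, 1 ≤ Sys.Lv Q (X.step^[i] v) := fun i hi =>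
    Nat.log_pos (by omega) (big i hi)
  have l2 : ∀ i < τ, Sys.Lv Q (X.step^[i] v) * Real.log Q ≤ Real.log (X.sz v i) := fun i hi => by
    rw [← Real.log_pow, e1]
    refine Real.log_le_log (by positivity) ?_
    have := big i hi
    exact_mod_cast Nat.pow_log_le_self Q (by omega : (X.step^[i] v).2.natAbs ≠ 0)
  have B1 := fun Λ => hB (fun t => X.lr (X.lab (X.step^[t] v))) (fun i => Sys.Lv Q (X.step^[i] v))
    (-μ) δ M τ Λ δ0.le (fun t => M1 _) fun i hi => ⟨l1 i hi, by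
      have := not_lt.1 fun hh => (h i hi).2 (Or.inl hh)
      rwa [Detx.orb_sum] at this⟩
  have B2 := fun Λ => hB (fun t => f (X.lab (X.step^[t] v))) (fun i => Sys.Lv Q (X.step^[i] v))
    a δ M τ Λ δ0.le (fun t => M2 _) fun i hi => ⟨l1 i hi, by
      have := not_lt.1 fun hh => (h i hi).2 (Or.inr hh)
      rwa [Detx.orb_sum] at this⟩
  have key : ∀ n < τ, ∃ Λ : ℕ, (∀ i, n ≤ i → i < τ → Sys.Lv Q (X.step^[i] v) ≤ Λ) ∧
      M * Λ ≤ η * Real.log (X.sz v n) ∧ (τ : ℝ) - n ≤ κ * Real.log (X.sz v n) := by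
    intro n hn
    obtain ⟨i0, hi0, e⟩ := exists_mem_eq_sup (Ico n τ) (nonempty_Ico.2 hn)
      fun i => Sys.Lv Q (X.step^[i] v)
    have hΛ : ∀ i, n ≤ i → i < τ → Sys.Lv Q (X.step^[i] v) ≤ Sys.Lv Q (X.step^[i0] v) :=
      fun i h1 h2 => e ▸ le_sup (f := fun i => Sys.Lv Q (X.step^[i] v)) (mem_Ico.2 ⟨h1, h2⟩)
    have dec : ∀ i, n ≤ i → i < τ → Real.log (X.sz v i) ≤ Real.log (X.sz v n)
        - (μ - 2 * δ) * ((i : ℝ) - n) + M * Sys.Lv Q (X.step^[i0] v) := by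
      intro i h1 h2
      have a1 := Detx.many X v y0 (fun i hi => (h i hi).1) n i h1 h2
      have a2 := (abs_le.1 (B1 _ n i h1 h2.le fun j j1 j2 => hΛ j j1 (by omega))).2
      have a3 : (0 : ℝ) ≤ (i : ℝ) - n := sub_nonneg.2 (by exact_mod_cast h1)
      have a4 := mul_le_mul_of_nonneg_left y2 a3
      linarith
    obtain ⟨i1, i2⟩ := mem_Ico.1 hi0
    have a1 := (l2 i0 i2).trans (dec i0 i1 i2)
    have a2 : (0 : ℝ) ≤ (μ - 2 * δ) * ((i0 : ℝ) - n) :=
      mul_nonneg δ3.le (sub_nonneg.2 (by exact_mod_cast i1))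
    obtain ⟨k, rfl⟩ : ∃ k, τ = k + 1 := ⟨τ - 1, by omega⟩
    have a6 := dec k (by omega) (by omega)
    have a7 := y1.trans (Real.log_le_log y0 (h k (by omega)).1.le)
    refine ⟨_, hΛ, ?_⟩
    generalize Sys.Lv Q (X.step^[i0] v) = Λ at a1 a6 ⊢
    have a3 := mul_le_mul_of_nonneg_left q1 (Nat.cast_nonneg (α := ℝ) Λ)
    have a4 : Λ * (M / η) ≤ Real.log (X.sz v n) := by linarith
    have a5 : M * Λ ≤ η * Real.log (X.sz v n) := by
      rw [← mul_div_assoc, div_le_iff₀ η0] at a4; linarith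
    refine ⟨a5, le_of_mul_le_mul_left ?_ δ3⟩
    have a8 := mul_le_mul_of_nonneg_right δ2 (l0 n)
    push_cast
    linarith
  refine ⟨τ, hτ, fun n hn => (h n hn).1, ?_, fun n n' h1 h2 => ?_⟩
  · rcases Nat.eq_zero_or_pos τ with rfl | h0
    · rw [Nat.cast_zero]; exact mul_nonneg κ0.le (Real.log_natCast_nonneg N)
    · obtain ⟨Λ, -, -, a⟩ := key 0 h0
      rw [Nat.cast_zero, sub_zero] at a
      refine a.trans (mul_le_mul_of_nonneg_left (Real.log_le_log (y0.trans (h 0 h0).1) ?_) κ0.le)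
      unfold Sys.sz
      exact_mod_cast hv
  · rcases Nat.lt_or_ge n τ with h0 | h0
    · obtain ⟨Λ, a1, a2, a3⟩ := key n h0
      refine (B2 Λ n n' h1 h2 fun j j1 j2 => a1 j j1 (by omega)).trans ?_
      have a4 : (n' : ℝ) ≤ τ := by exact_mod_cast h2
      have a5 := mul_le_mul_of_nonneg_left (show (n' : ℝ) - n ≤ κ * Real.log (X.sz v n) by
        linarith) δ0.le
      have a6 := mul_le_mul_of_nonneg_right η2 (l0 n)
      have a7 : δ * (κ * Real.log (X.sz v n)) = η / 2 * Real.log (X.sz v n) := by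
        rw [← δ1]; ring
      have a8 := mul_nonneg η0.le (l0 n)
      linarith
    · obtain rfl : n = n' := by omega
      simpa using mul_nonneg hε.le (l0 n)

end Td

end Pool.Agent.Lib.MP_39d40e_nt
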