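import Pool.Agent.Lib.MP_39d40e_nt.Td0

/-! Typical descent: rare events are not met before the level is reached. -/

namespace Pool.Agent.Lib.MP_39d40e_nt

open Finset Filter

namespace Td

namespace Hitx

variable {S E : Type} [Fintype S] [Fintype E] [DecidableEq S] [DecidableEq E] (X : Sys S E)

theorem rate {θ : ℝ} (t1 : θ < 1) (hT : X.Tl θ) {A : ℕ → List E → Prop} (hA : X.Small A) :
    ∃ C ρ : ℝ, 0 ≤ C ∧ 0 < ρ ∧ ρ < 1 ∧
      ∀ l s, X.Pr l s (fun p => θ ^ (2 * l) < X.rr p ∨ A l p) ≤ C * ρ ^ l := by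
  obtain ⟨C0, ρ, hC0, r0, r1, htl⟩ := hT
  obtain ⟨C, c, hC, hc, h⟩ := hA
  refine ⟨C0 + C, max ρ (Real.exp (-c)), by positivity, lt_max_of_lt_left r0,
    max_lt (r1.trans t1) (Real.exp_lt_one_iff.2 (by linarith)), fun l s =>
    (X.Pr_or _ _ _ _).trans ?_⟩
  have a1 : ρ ^ l ≤ (max ρ (Real.exp (-c))) ^ l := pow_le_pow_left₀ r0.le (le_max_left _ _) l
  have a2 : Real.exp (-(c * l)) ≤ (max ρ (Real.exp (-c))) ^ l := by
    refine le_trans (le_of_eq ?_) (pow_le_pow_left₀ (Real.exp_pos _).le (le_max_right _ _) l)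
    rw [← Real.exp_nat_mul]
    congr 1; ring
  have a3 := (htl l s).trans (mul_le_mul_of_nonneg_left a1 hC0)
  have a4 := (h l s).trans (mul_le_mul_of_nonneg_left a2 hC)
  rw [add_mul]
  exact add_le_add a3 a4

end Hitx

open Ps.Sumx in
theorem hit_st (h : StretchSt) : HitSt := by
  classical
  intro S E _ _ _ _ X hM hP hN A hA Q1
  obtain ⟨θ, t0, t1, hT⟩ := tl_ex X hP hN
  obtain ⟨g, G, n0, C1, hg, hC1, hcnt⟩ := hM θ t0 t1 hT
  obtain ⟨C2, hC2, hcrt⟩ := Ps.crt_st S E X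
  obtain ⟨R0, K, -, hK, hfirst0⟩ := Ps.first_st Ps.seg_st S E X θ t0 t1
  obtain ⟨Q0, hfirst⟩ := hfirst0 g hg
  obtain ⟨R, hR, hstr0⟩ := h S E X θ t0 t1
  obtain ⟨Q2, hstr⟩ := hstr0 g hg
  obtain ⟨C0, ρ, hC0, r0, r1, htl⟩ := Hitx.rate X t1 hT hA
  obtain ⟨Q, q0, q1, q2, q3, q4⟩ : ∃ Q : ℕ, Q0 ≤ Q ∧ X.d * X.B0 ^ (G * R) ≤ Q ∧ 2 ≤ Q ∧ Q1 ≤ Q ∧
      Q2 ≤ Q := ⟨Q0 + X.d * X.B0 ^ (G * R) + 2 + Q1 + Q2, by omega, by omega, by omega, by omega,
    by omega⟩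
  have Q1' : (1 : ℝ) < Q := by exact_mod_cast q2
  obtain ⟨c, Cg, c0, hCg, hgeo⟩ := geo r0 r1 Q1'
  set Cb : ℝ := Fintype.card S * (3 * Q * (C2 * C0 * C1)) with hCb
  have Cb0 : 0 ≤ Cb := by positivity
  refine ⟨Q, q3, Cb * Cg, c, (Q : ℝ) ^ (n0 + 1), by positivity, c0, fun y y2 hy s N => ?_⟩
  have ypos : 0 < y := by linarith
  have yc : 0 < y ^ c := Real.rpow_pos_of_pos ypos c
  have yQ : (Q : ℝ) ≤ y := le_trans (le_self_pow₀ Q1'.le (by omega)) hy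
  have lN : 0 ≤ Real.log N := Real.log_natCast_nonneg N
  suffices main : ∀ U : Finset ℤ, (∀ u ∈ U, |u| ≤ N ∧ ¬ ∃ τ : ℕ, X.sz (s, u) τ ≤ y ∧
      ∀ i < τ, y < X.sz (s, u) i ∧ ¬ A (Sys.Lv Q (X.step^[i] (s, u)))
        (X.orb (Sys.Lv Q (X.step^[i] (s, u))) (X.step^[i] (s, u)))) →
      (U.card : ℝ) ≤ Cb * Cg * N / y ^ c from
    main _ fun u hu => ⟨abs_le.2 (mem_Icc.1 (mem_filter.1 hu).1), (mem_filter.1 hu).2⟩
  intro U hesc
  rcases Nat.eq_zero_or_pos N with hN0 | hN0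
  · have : U = ∅ := by
      refine eq_empty_of_forall_notMem fun u hu => ?_
      obtain ⟨a1, a2⟩ := hesc u hu
      refine a2 ⟨0, ?_, fun i hi => absurd hi (Nat.not_lt_zero i)⟩
      have a4 : |(u : ℝ)| ≤ N := by exact_mod_cast a1
      rw [hN0] at a4
      simp only [Sys.sz, Function.iterate_zero, id]
      push_cast at a4
      linarith
    rw [this, card_empty, Nat.cast_zero]
    positivity
  have Npos : (0 : ℝ) < N := by exact_mod_cast hN0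
  set T := ⌊K * Real.log N⌋₊ with hTdef
  set Pl : ℕ → ℤ → Prop := fun l u => ∃ m ≤ T,
    |(X.step^[m] (s, u)).2| ≤ (Q ^ (l + 1) : ℕ) ∧
    (θ ^ (2 * l) < X.rr (X.orb l (X.step^[m] (s, u))) ∨ A l (X.orb l (X.step^[m] (s, u)))) ∧
    X.Ty2 θ (R * l) g (X.orb m (s, u)) ∧ 1 / (3 * N / (Q : ℝ) ^ l) < X.rr (X.orb m (s, u)) with hPl
  have hex : ∀ u ∈ U, ∃ l : ℕ, (n0 ≤ l ∧ y ≤ (Q : ℝ) ^ (l + 1)) ∧ Pl l u := by
    intro u hu
    obtain ⟨a1, a2⟩ := hesc u hu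
    have hst : ∃ m, m ≤ T ∧ (X.sz (s, u) m ≤ y ∨ X.Bad3 θ Q (X.step^[m] (s, u)) ∨
        A (Sys.Lv Q (X.step^[m] (s, u)))
          (X.orb (Sys.Lv Q (X.step^[m] (s, u))) (X.step^[m] (s, u)))) := by
      by_cases hc : ∀ n : ℕ, (n : ℝ) ≤ K * Real.log N →
          y < |(((X.step^[n] (s, u)).2 : ℤ) : ℝ)|
      · obtain ⟨m, b1, b2, -⟩ := hfirst Q q0 (s, u) N y yQ a1 hc
        exact ⟨m, Nat.le_floor b1, Or.inr (Or.inl b2)⟩
      · obtain ⟨n, hn⟩ := not_forall.1 hc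
        obtain ⟨b1, b2⟩ := Classical.not_imp.1 hn
        exact ⟨n, Nat.le_floor b1, Or.inl (not_lt.1 b2)⟩
    obtain ⟨m1, m2⟩ := Nat.find_spec hst
    have good := fun i (hi : i < Nat.find hst) => fun hb => Nat.find_min hst hi ⟨by omega, hb⟩
    generalize Nat.find hst = m at m1 m2 good
    have g1 : ∀ i < m, y < X.sz (s, u) i := fun i hi => not_le.1 fun hb => good i hi (Or.inl hb)
    have b5 : y < X.sz (s, u) m := not_le.1 fun hb =>
      a2 ⟨m, hb, fun i hi => ⟨g1 i hi, fun hb => good i hi (Or.inr (Or.inr hb))⟩⟩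
    have b2 := m2.resolve_left (not_le.2 b5)
    obtain ⟨b3, b4⟩ := hstr Q q4 (s, u) N m a1
      (fun i hi => yQ.trans (by
        rcases hi.lt_or_eq with hi | rfl
        exacts [(g1 i hi).le, b5.le]))
      fun i hi hb => good i hi (Or.inr (Or.inl hb))
    rw [Sys.sz] at b4 b5
    set w := X.step^[m] (s, u) with hw
    have e0 : ((w.2.natAbs : ℕ) : ℝ) = |((w.2 : ℤ) : ℝ)| := by
      rw [← Int.cast_natCast, Int.natCast_natAbs, Int.cast_abs]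
    have w0 : w.2.natAbs ≠ 0 := by
      intro h
      rw [← e0, h, Nat.cast_zero] at b5
      linarith
    have u1 : w.2.natAbs < Q ^ (Sys.Lv Q w + 1) := Nat.lt_pow_succ_log_self (by omega) _
    have u2 : Q ^ Sys.Lv Q w ≤ w.2.natAbs := Nat.pow_log_le_self Q w0
    have u3 : |((w.2 : ℤ) : ℝ)| < (Q : ℝ) ^ (Sys.Lv Q w + 1) := by
      rw [← e0]; exact_mod_cast u1
    have u4 : (Q : ℝ) ^ Sys.Lv Q w ≤ |((w.2 : ℤ) : ℝ)| := by
      rw [← e0]; exact_mod_cast u2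
    refine ⟨Sys.Lv Q w, ⟨?_, by linarith⟩, m, m1, ?_, b2, b3, ?_⟩
    · have : (Q : ℝ) ^ (n0 + 1) < (Q : ℝ) ^ (Sys.Lv Q w + 1) := by linarith
      have := (pow_lt_pow_iff_right₀ Q1').1 this
      omega
    · rw [← hw, ← Int.natCast_natAbs]
      exact_mod_cast u1.le
    · rw [one_div_div, div_lt_iff₀ (by positivity)]
      linarith
  choose! lv hlv using hex
  set J := U.image lv with hJ
  have hJ1 : ∀ l ∈ J, n0 ≤ l ∧ y ≤ (Q : ℝ) ^ (l + 1) := by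
    intro l hl
    obtain ⟨u, hu, rfl⟩ := mem_image.1 hl
    exact (hlv u hu).1
  have hlev : ∀ l ∈ J, ((U.filter fun u => lv u = l).card : ℝ) ≤ Cb * N * ρ ^ l := by
    intro l hl
    have p0 : (0 : ℝ) < (Q : ℝ) ^ l := by positivity
    have x0 : (0 : ℝ) < 3 * N / (Q : ℝ) ^ l := by positivity
    have hn : n0 ≤ R * l := (hJ1 l hl).1.trans (Nat.le_mul_of_pos_left l hR)
    have hm : X.d ^ l * X.B0 ^ (G * (R * l)) ≤ Q ^ (l + 1) := by
      rw [← mul_assoc, pow_mul, ← mul_pow]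
      exact (Nat.pow_le_pow_left q1 l).trans (Nat.pow_le_pow_right (by omega) (by omega))
    have := level X (θ := θ) (n1 := R * l) (g := g) (k := l) (M := Q ^ (l + 1)) x0.le
      (fun p => θ ^ (2 * l) < X.rr p ∨ A l p)
      (fun Ψ t hΨ => hcrt l (G * (R * l)) (Q ^ (l + 1)) (fun p => θ ^ (2 * l) < X.rr p ∨ A l p)
        (C0 * ρ ^ l) C1 Ψ t (htl l) hΨ hm)
      (hcnt (R * l) hn _ x0) s T (U.filter fun u => lv u = l) (fun u hu => by
        obtain ⟨a1, a2⟩ := mem_filter.1 hu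
        have := (hlv u a1).2
        rw [a2] at this
        exact this)
    refine this.trans (le_of_eq ?_)
    rw [hCb]
    push_cast
    field_simp
    ring
  have hc : U.card = ∑ l ∈ J, (U.filter fun u => lv u = l).card :=
    card_eq_sum_card_image lv U
  calc (U.card : ℝ) = ∑ l ∈ J, ((U.filter fun u => lv u = l).card : ℝ) := by
        rw [hc]; push_cast; rfl
    _ ≤ ∑ l ∈ J, Cb * N * ρ ^ l := sum_le_sum hlev
    _ = Cb * N * ∑ l ∈ J, ρ ^ l := by rw [mul_sum]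
    _ ≤ Cb * N * (Cg / y ^ c) := by
        gcongr
        exact hgeo y ypos J fun l hl => (hJ1 l hl).2
    _ = Cb * Cg * N / y ^ c := by ring

end Td

end Pool.Agent.Lib.MP_39d40e_nt
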