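import Pool.Agent.Lib.MP_39d40e_nt.Td0

/-! Dependent cycles: contraction and discrete ratios. -/

namespace Pool.Agent.Lib.MP_39d40e_nt.Td

open Finset Filter

namespace LatAx

variable {S E : Type} [Fintype S] [Fintype E] [DecidableEq S] [DecidableEq E] (X : Sys S E)

omit [DecidableEq E] in
theorem dp_dvd {g g' : List E} {x y : ℕ} (h : X.rr g ^ y = X.rr g' ^ x) :
    X.DP g ^ y ∣ X.DP g' ^ x := by
  have h1 : (0 : ℝ) < X.DP g := by exact_mod_cast X.DP_pos g
  have h2 : (0 : ℝ) < X.DP g' := by exact_mod_cast X.DP_pos g'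
  unfold Sys.rr at h
  rw [div_pow, div_pow, div_eq_div_iff (by positivity) (by positivity)] at h
  have h3 : |X.bP g| ^ y * (X.DP g' : ℤ) ^ x = |X.bP g'| ^ x * (X.DP g : ℤ) ^ y := by
    exact_mod_cast h
  have c : IsCoprime ((X.DP g : ℤ) ^ y) (|X.bP g| ^ y) :=
    IsCoprime.pow (IsCoprime.abs_right (X.bP_cop_DP g g).symm)
  have h4 : (X.DP g : ℤ) ^ y ∣ (X.DP g' : ℤ) ^ x :=
    c.dvd_of_dvd_mul_left ⟨|X.bP g'| ^ x, by rw [h3, mul_comm]⟩
  exact_mod_cast h4

omit [DecidableEq E] in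
theorem disc {g1 : List E} (h1 : X.rr g1 < 1) : ∃ lam : ℝ, 0 < lam ∧ lam < 1 ∧
    ∀ (g : List E) (x y : ℕ), 0 < x + y → X.rr g ^ y = X.rr g1 ^ x → ∃ j : ℕ, X.rr g = lam ^ j := by
  have r0 := X.rr_pos g1
  have d1 : X.DP g1 ≠ 1 := by
    intro e
    unfold Sys.rr at h1
    rw [e, Nat.cast_one, div_one] at h1
    linarith [X.one_le_abs_bP g1]
  have hp := Nat.minFac_prime d1
  set p := (X.DP g1).minFac
  have hk : 0 < (X.DP g1).factorization p :=
    hp.factorization_pos_of_dvd (X.DP_pos g1).ne' (Nat.minFac_dvd _)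
  set k := (X.DP g1).factorization p with hkd
  refine ⟨X.rr g1 ^ ((k : ℝ)⁻¹), Real.rpow_pos_of_pos r0 _,
    Real.rpow_lt_one r0.le h1 (by positivity), fun g x y hxy h => ?_⟩
  have hy : y ≠ 0 := by
    rintro rfl
    rw [pow_zero] at h
    exact (pow_lt_one₀ r0.le h1 (by omega)).ne h.symm
  have e := Nat.dvd_antisymm (dp_dvd X h) (dp_dvd X h.symm)
  have e2 : y * (X.DP g).factorization p = x * k := by
    have := congrArg (fun n => Nat.factorization n p) e
    simpa [Nat.factorization_pow] using this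
  refine ⟨(X.DP g).factorization p, ?_⟩
  have r1 := X.rr_pos g
  refine (pow_left_inj₀ r1.le (by positivity) (Nat.mul_pos hk (Nat.pos_of_ne_zero hy)).ne').1 ?_
  rw [mul_comm k y, pow_mul, h, ← pow_mul, ← e2, ← pow_mul, mul_comm y k,
    mul_left_comm, pow_mul _ k, Real.rpow_inv_natCast_pow r0.le hk.ne', mul_comm]

end LatAx

open LatAx in
theorem lata_st : LatASt := by
  intro S E _ _ _ _ X hI hN s0 h
  obtain ⟨g1, hg1, h1⟩ := Sys.exists_neg_cycle hI hN s0
  obtain ⟨lam, l0, l1, hl⟩ := disc X h1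
  have key : ∀ g, X.Pa s0 g s0 → ∃ j : ℕ, X.rr g = lam ^ j := fun g hg => by
    obtain ⟨x, y, a1, a2⟩ := h g g1 hg hg1
    exact hl g x y a1 a2
  refine ⟨?_, Sys.contract hI hN s0 fun g hg => ?_⟩
  · choose a ha using fun t => hI.conn s0 t
    choose c hc using fun t => hI.conn t s0
    refine ⟨lam, fun s t => 1 / (X.rr (a s) * X.rr (c t)), l0, l1, fun s t => ?_, fun s l hs => ?_⟩
    · have := X.rr_pos (a s)
      have := X.rr_pos (c t)
      positivity
    · obtain ⟨j, hj⟩ := key _ (((ha s).append (Sys.Pa.of_mem hs)).append (hc _))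
      refine ⟨j, ?_⟩
      have := X.rr_pos (a s)
      have := X.rr_pos (c (X.endp s l))
      rw [← hj, X.rr_append, X.rr_append]
      field_simp
  · obtain ⟨j, hj⟩ := key g hg
    rw [hj]
    exact pow_le_one₀ l0.le l1.le

end Pool.Agent.Lib.MP_39d40e_nt.Td
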