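import Pool.Agent.Lib.MP_39d40e_nt.Td0

/-! Typical descent: counting predecessors when the ratios are discrete. -/

namespace Pool.Agent.Lib.MP_39d40e_nt

open Finset

namespace Td

namespace LatBx

theorem geo {μ u : ℝ} (h1 : 1 < μ) (hu : 0 ≤ u) (J : Finset ℕ) (h : ∀ j ∈ J, μ ^ j ≤ u) :
    ∑ j ∈ J, μ ^ j ≤ u * (μ / (μ - 1)) := by
  have h2 := sub_pos.2 h1
  rcases J.eq_empty_or_nonempty with rfl | hJ
  · rw [sum_empty]; positivity
  have a1 := h _ (J.max'_mem hJ)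
  refine (sum_le_sum_of_subset_of_nonneg (t := range (J.max' hJ + 1))
    (fun j hj => mem_range.2 (Nat.lt_succ_of_le (J.le_max' j hj))) fun _ _ _ => by
      positivity).trans ?_
  rw [geom_sum_eq h1.ne', ← mul_div_assoc, pow_succ]
  gcongr
  nlinarith

variable {S E : Type} [Fintype S] [Fintype E] [DecidableEq S] [DecidableEq E] (X : Sys S E)

theorem decay {n1 : ℕ} (hn : 0 < n1) (h : ∀ s l, l ∈ X.Paths n1 s → X.rr l ≤ 1 / 2) :
    ∃ Y θ : ℝ, 1 ≤ Y ∧ 0 < θ ∧ θ < 1 ∧ ∀ n s l, l ∈ X.Paths n s → X.rr l ≤ Y * θ ^ n := by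
  have hB : (1 : ℝ) ≤ X.B0 := by exact_mod_cast X.B0_pos
  have n0 : (1 : ℝ) ≤ n1 := by exact_mod_cast hn
  obtain ⟨θ, hθ⟩ : ∃ θ : ℝ, θ = 1 + -(1 / (2 * n1)) := ⟨_, rfl⟩
  have a0 : 0 < 1 / (2 * (n1 : ℝ)) := by positivity
  have a1 : 1 / (2 * (n1 : ℝ)) ≤ 1 / 2 := one_div_le_one_div_of_le two_pos (by linarith)
  have t0 : 0 < θ := by linarith
  have t1 : θ < 1 := by linarith
  have t2 : 1 / 2 ≤ θ ^ n1 := by
    have := one_add_mul_le_pow (a := -(1 / (2 * (n1 : ℝ)))) (by linarith) n1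
    rw [← hθ] at this
    refine le_trans (le_of_eq ?_) this
    field_simp; ring
  have b0 : 1 ≤ (X.B0 : ℝ) ^ n1 := one_le_pow₀ hB
  refine ⟨2 * (X.B0 : ℝ) ^ n1, θ, by linarith, t0, t1, fun n => ?_⟩
  induction n using Nat.strong_induction_on with
  | _ n ih =>
    intro s l hl
    rcases Nat.lt_or_ge n n1 with h1 | h1
    · have c1 := X.rr_le l
      rw [X.length_of_mem_Paths hl] at c1
      have c2 : (X.B0 : ℝ) ^ n ≤ (X.B0 : ℝ) ^ n1 := pow_le_pow_right₀ hB h1.le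
      have c3 : θ ^ n1 ≤ θ ^ n := pow_le_pow_of_le_one t0.le t1.le h1.le
      nlinarith
    · obtain ⟨k, rfl⟩ := Nat.exists_eq_add_of_le h1
      obtain ⟨o, i, rfl, ho, hi⟩ := X.mem_Paths_add hl
      rw [Sys.rr_append, pow_add, mul_left_comm]
      exact mul_le_mul ((h _ _ ho).trans t2) (ih k (by omega) _ _ hi) (X.rr_pos _).le
        (by positivity)

omit [DecidableEq E] in
theorem ctr (l : List E) (z : ℤ) : (X.DP l : ℝ) * z / X.bP l
    = (if 0 < X.bP l then 1 else -1) * z / X.rr l := by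
  have h1 : (X.bP l : ℝ) ≠ 0 := by exact_mod_cast X.bP_ne l
  have h2 : (0 : ℝ) < X.DP l := by exact_mod_cast X.DP_pos l
  unfold Sys.rr
  split_ifs with h
  · rw [abs_of_pos (by exact_mod_cast h)]; field_simp
  · rw [abs_of_nonpos (by exact_mod_cast not_lt.1 h)]; field_simp

theorem eq_orb {m : ℕ} {s : S} {l : List E} {z : ℤ} (hl : l ∈ X.Paths m s) (hv : X.Val l z) :
    l = X.orb m (X.endp s l, X.yv l z) := by
  have c1 := X.yv_mul hv
  exact (X.path_unique (u := X.yv l z) hl (X.orb_mem m _) (X.orb_endp m (X.endp s l, X.yv l z)).symm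
    ⟨z, by linarith⟩ (Dvd.intro _ (X.orb_mul m (X.endp s l, X.yv l z)))).1

end LatBx

open LatBx in
theorem latb_st : LatBSt := by
  intro S E _ _ _ _ X ⟨lam, κ, l0, l1, κ0, hκ⟩ ⟨n1, hn1⟩
  classical
  rcases Nat.eq_zero_or_pos n1 with rfl | hn
  · refine ⟨0, le_rfl, fun x _ s => ?_⟩
    have := hn1 s [] (by simp)
    norm_num [Sys.rr] at this
  obtain ⟨Y, θ, hY, t0, t1, hd⟩ := decay X hn hn1
  obtain ⟨n2', h2⟩ := exists_pow_lt_of_lt_one (show 0 < 1 / Y by positivity) t1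
  obtain ⟨n2, hn2⟩ : ∃ n2, n2 = n2' + 1 := ⟨_, rfl⟩
  have hc := X.cmx_nonneg
  have t2 := sub_pos.2 t1
  obtain ⟨W, hW⟩ : ∃ W, W = X.cmx * Y * (1 - θ)⁻¹ := ⟨_, rfl⟩
  have W0 : 0 ≤ W := by rw [hW]; positivity
  have m1 : 1 < lam⁻¹ := (one_lt_inv₀ l0).2 l1
  have m2 := sub_pos.2 m1
  have k1 : ∀ s, 0 ≤ ∑ t, (2 * W + κ s t) := fun s => sum_nonneg fun t _ => by
    have := κ0 s t; positivity
  have k2 : 0 ≤ ∑ s, ∑ t, (2 * W + κ s t) := sum_nonneg fun s _ => k1 s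
  refine ⟨(∑ s, ∑ t, (2 * W + κ s t)) * (2 * n2 * (lam⁻¹ / (lam⁻¹ - 1))), by positivity,
    fun x hx s z I => ?_⟩
  choose! jf hjf using hκ s
  set L : Finset (Σ _ : ℕ, List E) :=
    I.sigma fun m => (X.Paths m s).filter fun l => X.Val l z ∧ 1 / x < X.rr l with hL
  have mem : ∀ p ∈ L, p.2 ∈ X.Paths p.1 s ∧ X.Val p.2 z ∧ 1 / x < X.rr p.2 := fun p hp =>
    mem_filter.1 (mem_sigma.1 hp).2
  have val : ∀ p ∈ L, X.rr p.2 = κ s (X.endp s p.2) * lam ^ jf p.2 := fun p hp =>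
    hjf p.2 ((X.length_of_mem_Paths (mem p hp).1).symm ▸ (mem p hp).1)
  have off : ∀ p ∈ L, |(X.cP p.2 : ℝ)| ≤ W * X.DP p.2 := fun p hp => by
    rw [hW]
    refine Sys.Pre.cP_le t0.le t1 (by linarith) fun t ht => ?_
    have a1 := (mem p hp).1
    rw [X.length_of_mem_Paths a1] at ht
    obtain ⟨k, hk⟩ := Nat.exists_eq_add_of_le ht
    rw [hk] at a1
    obtain ⟨o, i, e, ho, -⟩ := X.mem_Paths_add a1
    rw [e, List.take_left' (X.length_of_mem_Paths ho)]
    exact hd _ _ _ ho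
  set J : S → Finset ℕ := fun t => (L.image fun p => jf p.2).filter
    fun j => lam⁻¹ ^ j ≤ κ s t * x with hJ
  set φ : (Σ _ : ℕ, List E) → Σ _ : S, ℕ × Bool × ℕ := fun p =>
    ⟨X.endp s p.2, jf p.2, decide (0 < X.bP p.2), p.1 % n2⟩ with hφ
  have e0 : ∑ m ∈ I, (((X.Paths m s).filter fun l => X.Val l z ∧ 1 / x < X.rr l).card : ℝ)
      = (#L : ℝ) := by rw [hL, card_sigma]; push_cast; rfl
  have e1 := card_eq_sum_card_fiberwise (f := φ) (s := L)
    (t := univ.sigma fun t => J t ×ˢ univ ×ˢ range n2) fun p hp => by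
      refine mem_coe.2 (mem_sigma.2 ⟨mem_univ _, mem_product.2 ⟨mem_filter.2
        ⟨mem_image_of_mem _ hp, ?_⟩, mem_product.2 ⟨mem_univ _,
          mem_range.2 (Nat.mod_lt _ (by omega))⟩⟩⟩)
      have a1 := (mem p hp).2.2
      rw [val p hp, div_lt_iff₀ hx] at a1
      simp only [hφ]
      rw [inv_pow, inv_le_iff_one_le_mul₀ (by positivity)]
      linarith
  have fib : ∀ k : Σ _ : S, ℕ × Bool × ℕ, (#{p ∈ L | φ p = k} : ℝ)
      ≤ (2 * W + κ s k.1) / κ s k.1 * lam⁻¹ ^ k.2.1 := by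
    intro k
    have k0 := κ0 s k.1
    rcases (L.filter fun p => φ p = k).eq_empty_or_nonempty with h | ⟨p0, hp0⟩
    · rw [h, card_empty, Nat.cast_zero]; positivity
    have same : ∀ p ∈ L.filter fun p => φ p = k, X.endp s p.2 = k.1 ∧
        X.rr p.2 = κ s k.1 * lam ^ k.2.1 ∧ decide (0 < X.bP p.2) = k.2.2.1 ∧
        p.1 % n2 = k.2.2.2 := by
      intro p hp
      obtain ⟨a1, rfl⟩ := mem_filter.1 hp
      exact ⟨rfl, val p a1, rfl, rfl⟩
    have inj : Set.InjOn (fun p : Σ _ : ℕ, List E => X.yv p.2 z)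
        (L.filter fun p => φ p = k) := by
      have lt : ∀ p ∈ L.filter fun p => φ p = k, ∀ p' ∈ L.filter fun p => φ p = k,
          X.yv p.2 z = X.yv p'.2 z → ¬ p.1 < p'.1 := by
        intro p hp p' hp' h hlt
        obtain ⟨a1, a2, -, a4⟩ := same p hp
        obtain ⟨b1, b2, -, b4⟩ := same p' hp'
        obtain ⟨c1, c2, -⟩ := mem p (mem_filter.1 hp).1
        obtain ⟨d1, d2, -⟩ := mem p' (mem_filter.1 hp').1
        obtain ⟨j, hj⟩ := Nat.exists_eq_add_of_le' hlt.le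
        have f1 := eq_orb X c1 c2
        have f2 := eq_orb X d1 d2
        rw [b1, ← h, ← a1, hj, Ps.Firstx.orb_add, ← f1] at f2
        have f3 := congrArg X.rr f2
        rw [Sys.rr_append, b2, a2] at f3
        have f4 := hd _ _ _ (X.orb_mem j (X.step^[p.1] (X.endp s p.2, X.yv p.2 z)))
        have f5 : n2 ≤ j := by
          have : n2 ∣ p'.1 - p.1 := (Nat.modEq_iff_dvd' hlt.le).1 (a4.trans b4.symm)
          exact Nat.le_of_dvd (by omega) (by rwa [show p'.1 - p.1 = j by omega] at this)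
        have f6 : θ ^ j ≤ θ ^ n2' := pow_le_pow_of_le_one t0.le t1.le (by omega)
        have f7 := f6.trans_lt h2
        rw [lt_div_iff₀ (by linarith)] at f7
        have f8 : 0 < κ s k.1 * lam ^ k.2.1 := by positivity
        nlinarith
      rintro ⟨m, l⟩ hp ⟨m', l'⟩ hp' h
      obtain rfl : m = m' :=
        le_antisymm (not_lt.1 (lt _ hp' _ hp h.symm)) (not_lt.1 (lt _ hp _ hp' h))
      obtain ⟨c1, c2, -⟩ := mem _ (mem_filter.1 hp).1
      obtain ⟨d1, d2, -⟩ := mem _ (mem_filter.1 hp').1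
      have f1 := eq_orb X c1 c2
      have f2 := eq_orb X d1 d2
      have f3 := (same _ hp).1.trans (same _ hp').1.symm
      simp only at f1 f2 f3 h
      rw [f1, f2, f3, h]
    have hw := win_per (fun _ => (1 : ℝ)) 1 one_pos (fun _ => rfl) (fun _ => zero_le_one) 1
      (by simp) ((L.filter fun p => φ p = k).image fun p => X.yv p.2 z)
      ((if k.2.2.1 then 1 else -1) * z / (κ s k.1 * lam ^ k.2.1)) (W / (κ s k.1 * lam ^ k.2.1))
      (by positivity) (by
        intro y hy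
        obtain ⟨p, hp, rfl⟩ := mem_image.1 hy
        obtain ⟨-, a2, a3, -⟩ := same p hp
        have := X.yv_near (mem p (mem_filter.1 hp).1).2.1 (off p (mem_filter.1 hp).1)
        rw [ctr, a2] at this
        rw [← a3]
        simpa using this)
    rw [sum_image inj, sum_const, nsmul_eq_mul, mul_one] at hw
    refine hw.trans ?_
    have g1 : 1 ≤ lam⁻¹ ^ k.2.1 := one_le_pow₀ m1.le
    have g2 : W / (κ s k.1 * lam ^ k.2.1) = W / κ s k.1 * lam⁻¹ ^ k.2.1 := by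
      rw [inv_pow]; field_simp
    rw [g2, add_div, div_self k0.ne', mul_div_assoc]
    push_cast
    linarith
  rw [e0, e1]
  push_cast
  refine (sum_le_sum fun k _ => fib k).trans ?_
  rw [sum_sigma]
  have one : ∀ t, ∑ k ∈ J t ×ˢ (univ : Finset Bool) ×ˢ range n2,
      (2 * W + κ s t) / κ s t * lam⁻¹ ^ k.1
      ≤ (2 * W + κ s t) * (x * (2 * n2 * (lam⁻¹ / (lam⁻¹ - 1)))) := by
    intro t
    have k0 := κ0 s t
    rw [sum_product]
    simp only [sum_const, card_product, card_univ, Fintype.card_bool, card_range, nsmul_eq_mul]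
    rw [← mul_sum, ← mul_sum]
    have := geo m1 (show 0 ≤ κ s t * x by positivity) (J t) fun j hj => (mem_filter.1 hj).2
    refine (mul_le_mul_of_nonneg_left (mul_le_mul_of_nonneg_left this (by positivity))
      (by positivity)).trans (le_of_eq ?_)
    push_cast
    field_simp
  refine (sum_le_sum fun t _ => one t).trans ?_
  rw [← sum_mul, mul_left_comm]
  exact mul_le_mul_of_nonneg_left (mul_le_mul_of_nonneg_right
    (single_le_sum (fun s _ => k1 s) (mem_univ s)) (by positivity)) hx.le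

end Td

end Pool.Agent.Lib.MP_39d40e_nt
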