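import Pool.Agent.Lib.MP_39d40e_nt.Td0

/-! Typical descent at all scales: from systems to Leigh's chain. -/

namespace Pool.Agent.Lib.MP_39d40e_nt.Td

open Finset Filter Topology

namespace Leighx

/-- the property of the integers -/
def Gd (L : LData) (f : ZMod L.d → ℝ) (a κ ε y : ℝ) (N : ℕ) (x : ℤ) : Prop := ∃ τ : ℕ,
  |(((T L.d L.m L.r)^[τ] x : ℤ) : ℝ)| ≤ y ∧
  (∀ k < τ, y < |(((T L.d L.m L.r)^[k] x : ℤ) : ℝ)|) ∧
  (τ : ℝ) ≤ κ * Real.log N ∧ ∀ k k' : ℕ, k ≤ k' → k' ≤ τ →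
    |∑ t ∈ Ico k k', f ((T L.d L.m L.r)^[t] x : ℤ) - ((k' : ℝ) - k) * a|
      ≤ ε * Real.log |(((T L.d L.m L.r)^[k] x : ℤ) : ℝ)|

theorem triv {ε : ℝ} (hε : 0 < ε) (F : ℕ → ℝ) (a : ℝ) (k : ℕ) (z : ℤ) :
    |∑ t ∈ Ico k k, F t - ((k : ℝ) - k) * a| ≤ ε * Real.log |(z : ℝ)| := by
  rw [Real.log_abs]
  simpa using mul_nonneg hε.le (Real.log_intCast_nonneg z)

theorem lt_of_not (L : LData) {f : ZMod L.d → ℝ} {a κ ε y : ℝ} {N : ℕ} {x : ℤ} (hκ : 0 ≤ κ)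
    (hε : 0 < ε) (h : ¬ Gd L f a κ ε y N x) : y < |(x : ℝ)| := by
  by_contra hc
  refine h ⟨0, not_lt.1 hc, fun k hk => absurd hk (Nat.not_lt_zero k), ?_, fun k k' h1 h2 => ?_⟩
  · rw [Nat.cast_zero]
    exact mul_nonneg hκ (Real.log_natCast_nonneg N)
  · obtain rfl : k' = 0 := by omega
    obtain rfl : k = 0 := by omega
    exact triv hε _ _ _ _

theorem abs_le_val (L : LData) (v : L.St × ℤ) : |v.2| ≤ |L.val v| := by
  obtain ⟨⟨s, hs⟩, u⟩ := v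
  have a3 : ((s.1 : ℕ) : ℤ) < ((L.d * s.2 : ℕ) : ℤ) := by exact_mod_cast L.hC s hs
  have a4 : (2 : ℤ) ≤ ((L.d * s.2 : ℕ) : ℤ) := by
    have := Nat.mul_le_mul L.hd (L.k_pos hs)
    exact_mod_cast this
  have a6 : (0 : ℤ) ≤ (s.1 : ℕ) := Int.natCast_nonneg _
  have e : L.val (⟨s, hs⟩, u) = (s.1 : ℕ) + ((L.d * s.2 : ℕ) : ℤ) * u := by
    unfold LData.val; push_cast; ring
  rw [e]
  dsimp only
  generalize ((L.d * s.2 : ℕ) : ℤ) = M at *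
  generalize ((s.1 : ℕ) : ℤ) = j at *
  rcases le_or_gt 0 u with c | c
  · rw [abs_of_nonneg c]
    exact le_abs.2 (Or.inl (by nlinarith))
  · rw [abs_of_neg c]
    exact le_abs.2 (Or.inr (by nlinarith))

theorem gd_of_desc (L : LData) {f : ZMod L.d → ℝ} {a κ ε y : ℝ} {N : ℕ} (hε : 0 < ε)
    (hy0 : (2 * (L.Md : ℝ)) ^ 2 ≤ y) (v : L.St × ℤ)
    (h : L.sys.Desc (fun e : L.Ed => f e.1.1.1.1) a κ ε (Real.sqrt y) N v) :
    Gd L f a κ ε y N (L.val v) := by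
  classical
  obtain ⟨τ, h1, h2, h3, h4⟩ := h
  have M0 : (1 : ℝ) ≤ L.Md := by exact_mod_cast L.Md_pos
  have s0 : 2 * (L.Md : ℝ) ≤ Real.sqrt y := Real.le_sqrt_of_sq_le hy0
  have s1 : Real.sqrt y * Real.sqrt y = y := Real.mul_self_sqrt (by nlinarith)
  have ex : |(((T L.d L.m L.r)^[τ] (L.val v) : ℤ) : ℝ)| ≤ y := by
    rw [← L.val_iter]
    have a2 := L.abs_val (L.sys.step^[τ] v)
    have a3 := mul_le_mul_of_nonneg_left h1 (by linarith : (0 : ℝ) ≤ L.Md)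
    unfold Sys.sz at a3
    nlinarith
  have hx : ∃ k : ℕ, |(((T L.d L.m L.r)^[k] (L.val v) : ℤ) : ℝ)| ≤ y := ⟨τ, ex⟩
  have le : Nat.find hx ≤ τ := Nat.find_min' hx ex
  refine ⟨Nat.find hx, Nat.find_spec hx, fun k hk => not_le.1 (Nat.find_min hx hk),
    (Nat.cast_le.2 le).trans h3, fun k k' b1 b2 => ?_⟩
  rcases b1.eq_or_lt with rfl | b3
  · exact triv hε _ _ _ _
  have c1 := h4 k k' b1 (b2.trans le)
  have c2 := h2 k (by omega)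
  have e : ∀ t, f ((T L.d L.m L.r)^[t] (L.val v) : ℤ)
      = f (L.sys.lab (L.sys.step^[t] v)).1.1.1.1 := fun t => by
    have b1 : (L.sys.lab (L.sys.step^[t] v)).1.1 = (L.sys.step^[t] v).1 := L.sys.lab_src _
    rw [b1, ← L.val_iter]
    congr 1
    unfold LData.val; push_cast; simp
  simp only [e]
  refine c1.trans (mul_le_mul_of_nonneg_left (Real.log_le_log (by linarith) ?_) hε.le)
  rw [← L.val_iter]
  unfold Sys.sz
  exact_mod_cast abs_le_val L _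

open Classical in
theorem big (L : LData) {f : ZMod L.d → ℝ} {a κ ε c K y : ℝ} (hε : 0 < ε)
    (hy : 2 ≤ y) (hy0 : (2 * (L.Md : ℝ)) ^ 2 ≤ y) (N : ℕ)
    (hK : ∀ s : L.St, (((Icc (-(N : ℤ)) N).filter fun u : ℤ => ¬ (|u| ≤ N →
      L.sys.Desc (fun e : L.Ed => f e.1.1.1.1) a κ ε (Real.sqrt y) N (s, u))).card : ℝ)
        ≤ K * N / Real.sqrt y ^ c) :
    (Set.ncard {x : ℤ | |x| ≤ N ∧ L.SC x ∧ ¬ Gd L f a κ ε y N x} : ℝ)
      ≤ L.C.card * K * N / y ^ (c / 2) := by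
  have sub : {x : ℤ | |x| ≤ N ∧ L.SC x ∧ ¬ Gd L f a κ ε y N x}
      ⊆ ↑((univ : Finset L.St).biUnion fun s => ((Icc (-(N : ℤ)) N).filter fun u : ℤ => ¬ (|u| ≤ N →
        L.sys.Desc (fun e : L.Ed => f e.1.1.1.1) a κ ε (Real.sqrt y) N (s, u))).image
          fun u => L.val (s, u)) := by
    rintro x ⟨h1, ⟨s, hs, h2⟩, h3⟩
    obtain ⟨u, hu⟩ := h2.symm.dvd
    have hv : L.val (⟨s, hs⟩, u) = x := by
      unfold LData.val; push_cast at hu ⊢; linarith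
    have a2 : |u| ≤ N := (abs_le_val L (⟨s, hs⟩, u)).trans (hv ▸ h1)
    refine mem_coe.2 (mem_biUnion.2 ⟨⟨s, hs⟩, mem_univ _, mem_image.2 ⟨u,
      mem_filter.2 ⟨mem_Icc.2 (abs_le.1 a2), fun hd => h3 ?_⟩, hv⟩⟩)
    exact hv ▸ gd_of_desc L hε hy0 _ (hd a2)
  have h2 := Set.ncard_le_ncard sub (finite_toSet _)
  rw [Set.ncard_coe_finset] at h2
  have h3 := h2.trans (card_biUnion_le.trans (sum_le_sum fun s _ => card_image_le))
  rw [Real.sqrt_eq_rpow y, ← Real.rpow_mul (by linarith), show 1 / 2 * c = c / 2 by ring,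
    ← Real.sqrt_eq_rpow] at hK
  calc _ ≤ ∑ s : L.St, (((Icc (-(N : ℤ)) N).filter fun u : ℤ => ¬ (|u| ≤ N →
        L.sys.Desc (fun e : L.Ed => f e.1.1.1.1) a κ ε (Real.sqrt y) N (s, u))).card : ℝ) := by
        exact_mod_cast h3
    _ ≤ ∑ _s : L.St, K * N / y ^ (c / 2) := sum_le_sum fun s _ => hK s
    _ = _ := by
        rw [sum_const, card_univ, Fintype.card_coe, nsmul_eq_mul]; ring

theorem small (L : LData) {f : ZMod L.d → ℝ} {a κ ε y : ℝ} (hκ : 0 ≤ κ) (hε : 0 < ε)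
    (hy : 2 ≤ y) (N : ℕ) :
    (Set.ncard {x : ℤ | |x| ≤ N ∧ L.SC x ∧ ¬ Gd L f a κ ε y N x} : ℝ) ≤ 3 * N := by
  refine le_trans (Nat.cast_le.2 (Set.ncard_le_ncard (fun x hx => ?_)
    ((Set.finite_Icc (-(N : ℤ)) N).subset fun x hx => abs_le.1 hx.1)))
    (Ps.Leighx.leigh_small L (K := 0) le_rfl hy N)
  refine ⟨hx.1, hx.2.1, fun n hn => ?_⟩
  rw [zero_mul] at hn
  obtain rfl : n = 0 := by exact_mod_cast le_antisymm hn (Nat.cast_nonneg n)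
  exact lt_of_not L hκ hε hx.2.2

end Leighx

theorem leigh_st (h : SysSt) : LeighSt := by
  classical
  intro L _ Λ hΛ0 hΛ f ε hε
  obtain ⟨K, c, y0, K0, c0, hK⟩ := h _ _ L.sys L.irred (L.drift (hΛ0 ▸ hΛ))
    (fun e : L.Ed => f e.1.1.1.1) (-Real.log Λ) ε (by rw [neg_neg, hΛ0, ← L.drift_log]; rfl) hε
  rw [Tw.Leighx.mean_cls] at hK
  have Λ0 : 0 ≤ Λ := hΛ0 ▸ prod_nonneg fun i _ => Real.rpow_nonneg (abs_nonneg _) _
  have κ0 : 0 ≤ 1 / (-Real.log Λ) + ε := by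
    have := neg_nonneg.2 (Real.log_nonpos Λ0 hΛ.le)
    positivity
  have M0 : (1 : ℝ) ≤ L.Md := by exact_mod_cast L.Md_pos
  set y1 : ℝ := max (max ((2 * (L.Md : ℝ)) ^ 2) (y0 ^ 2)) 2 with hy1
  have y2 : 2 ≤ y1 := le_max_right _ _
  have W0 : 0 ≤ y1 ^ (c / 2) := by positivity
  have C0 : 0 ≤ L.C.card * K := by positivity
  refine ⟨c / 2, by positivity, L.C.card * K + 3 * y1 ^ (c / 2), fun y hy N => ?_⟩
  have ℓ0 : 0 < y ^ (c / 2) := by positivity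
  have N0 : (0 : ℝ) ≤ N := Nat.cast_nonneg N
  by_cases hy0 : y1 ≤ y
  · have b1 : (2 * (L.Md : ℝ)) ^ 2 ≤ y := ((le_max_left _ _).trans (le_max_left _ _)).trans hy0
    have b2 : y0 ^ 2 ≤ y := ((le_max_right _ _).trans (le_max_left _ _)).trans hy0
    have s0 : 2 * (L.Md : ℝ) ≤ Real.sqrt y := Real.le_sqrt_of_sq_le b1
    refine (Leighx.big L (c := c) (K := K) hε hy b1 N fun s => ?_).trans ?_
    · convert hK _ (by linarith) (Real.le_sqrt_of_sq_le b2) s N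
    · gcongr; linarith
  · have i2 : y ^ (c / 2) ≤ y1 ^ (c / 2) :=
      Real.rpow_le_rpow (by linarith) (not_le.1 hy0).le (by positivity)
    rw [le_div_iff₀ ℓ0]
    calc _ ≤ 3 * N * y1 ^ (c / 2) := by
          gcongr
          exact Leighx.small L κ0 hε hy N
      _ = 3 * y1 ^ (c / 2) * N := by ring
      _ ≤ _ := by gcongr; linarith

end Pool.Agent.Lib.MP_39d40e_nt.Td
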