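import Pool.Agent.Lib.MP_39d40e_nt.Td0

/-! Typical descent contains the power saving (not imported by any hand-in). -/

namespace Pool.Agent.Lib.MP_39d40e_nt.Td

open Finset

theorem old_of_new (h : LeighSt) : Ps.LeighSt := by
  intro L _ hΛ
  obtain ⟨c, c0, K, hK⟩ := h L _ rfl hΛ (fun _ => 0) 1 one_pos
  refine ⟨c, c0, max K (1 / (-Real.log (∏ i : ZMod L.d,
    |(L.m i : ℝ) / L.d| ^ (∑ s ∈ L.C with (s.1 : ZMod L.d) = i, L.ρ s))) + 1),
    fun y hy N => le_trans ?_ ((hK y hy N).trans ?_)⟩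
  · refine Nat.cast_le.2 (Set.ncard_le_ncard (fun x hx => ⟨hx.1, hx.2.1, ?_⟩) ?_)
    · rintro ⟨τ, h1, -, h3, -⟩
      exact absurd (hx.2.2 τ (h3.trans (mul_le_mul_of_nonneg_right (le_max_right _ _)
        (Real.log_natCast_nonneg N)))) (not_lt.2 h1)
    · exact (Set.finite_Icc (-(N : ℤ)) N).subset fun x hx => abs_le.1 hx.1
  · have a2 : 0 < y ^ c := by positivity
    exact div_le_div_of_nonneg_right
      (mul_le_mul_of_nonneg_right (le_max_left _ _) (Nat.cast_nonneg N)) a2.le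

end Pool.Agent.Lib.MP_39d40e_nt.Td
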