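import Pool.Agent.Lib.MP_39d40e_nt.Td0

/-! Typical descent: from a power system to the system. -/

namespace Pool.Agent.Lib.MP_39d40e_nt

open Finset

namespace Td

namespace Powx

variable {S E : Type} [Fintype S] [Fintype E] [DecidableEq S] [DecidableEq E] (X : Sys S E)

omit [DecidableEq E] in
theorem orb_sum (f : E → ℝ) (L : ℕ) (x : S × ℤ) :
    ((X.orb L x).map f).sum = ∑ i ∈ range L, f (X.lab (X.step^[i] x)) := by
  induction L with
  | zero => simp [Sys.orb]
  | succ L ih => rw [Sys.orb, List.map_cons, List.sum_cons, ih, sum_range_succ, add_comm]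

theorem iter (L n : ℕ) (x : S × ℤ) : (X.pow L).step^[n] x = X.step^[L * n] x := by
  rw [show (X.pow L).step = X.step^[L] from funext (X.pow_step L), ← Function.iterate_mul]

theorem blocks (f : E → ℝ) (L j : ℕ) (v : S × ℤ) :
    ∑ t ∈ range j, ((((X.pow L).lab ((X.pow L).step^[t] v)).1.2).map f).sum =
      ∑ t ∈ range (L * j), f (X.lab (X.step^[t] v)) := by
  induction j with
  | zero => simp
  | succ j ih =>
    rw [sum_range_succ, ih, Nat.mul_succ, sum_range_add, Tw.Harmx.pow_lab X, orb_sum, iter]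
    congr 1
    refine sum_congr rfl fun i _ => ?_
    rw [add_comm (L * j) i, Function.iterate_add_apply]

theorem edge (F : ℕ → ℝ) (a M : ℝ) (h : ∀ t, |F t - a| ≤ M) (m r : ℕ) :
    |∑ t ∈ range (m + r), F t - ∑ t ∈ range m, F t - r * a| ≤ r * M := by
  rw [sum_range_add, add_sub_cancel_left]
  have e : ∑ x ∈ range r, F (m + x) - r * a = ∑ x ∈ range r, (F (m + x) - a) := by
    rw [sum_sub_distrib, sum_const, card_range, nsmul_eq_mul]
  rw [e]
  refine (abs_sum_le_sum_abs _ _).trans ((sum_le_card_nsmul _ _ M fun x _ => h _).trans ?_)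
  rw [card_range, nsmul_eq_mul]

end Powx

open Powx in
theorem pow_st : PowSt := by
  classical
  intro S E _ _ _ _ X L hL f a κ ε hε
  set M : ℝ := ∑ e, |f e| + |a| with hM
  have hM0 : 0 ≤ M := add_nonneg (sum_nonneg fun _ _ => abs_nonneg _) (abs_nonneg _)
  have hfa : ∀ e, |f e - a| ≤ M := fun e => (abs_sub _ _).trans (add_le_add
    (single_le_sum (f := fun e => |f e|) (fun _ _ => abs_nonneg _) (mem_univ e)) le_rfl)
  have hd0 : (0 : ℝ) ≤ X.d := Nat.cast_nonneg _
  have hlog : 0 ≤ Real.log ((X.d : ℝ) + 1) := Real.log_nonneg (by linarith)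
  have hc := X.cmx_nonneg
  refine ⟨X.cmx + Real.exp (L * Real.log ((X.d : ℝ) + 1) + L * M / ε), fun y hy N v hD => ?_⟩
  obtain ⟨τ1, h1, -, h3, h4⟩ := hD
  have hE := Real.exp_pos (L * Real.log ((X.d : ℝ) + 1) + L * M / ε)
  have hsz : ∀ n, (X.pow L).sz v n = X.sz v (L * n) := fun n => by
    unfold Sys.sz
    rw [iter]
  rw [hsz] at h1
  have hex : ∃ n, X.sz v n ≤ y := ⟨_, h1⟩
  have hτ : Nat.find hex ≤ L * τ1 := Nat.find_min' hex h1
  have hlt : ∀ n < Nat.find hex, y < X.sz v n := fun n hn => not_le.1 (Nat.find_min hex hn)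
  have hL0 : (0 : ℝ) ≤ L := Nat.cast_nonneg _
  refine ⟨Nat.find hex, Nat.find_spec hex, hlt, ?_, fun n n' hn hn' => ?_⟩
  · calc ((Nat.find hex : ℕ) : ℝ) ≤ (L : ℝ) * τ1 := by exact_mod_cast hτ
      _ ≤ L * (κ * Real.log N) := mul_le_mul_of_nonneg_left h3 hL0
      _ = _ := by ring
  rcases (hn.trans hn').eq_or_lt with h | h
  · have e : n' = n := by omega
    rw [e, Ico_self, sum_empty, sub_self, zero_mul, sub_self, abs_zero]
    refine mul_nonneg (by positivity) ?_
    unfold Sys.sz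
    rw [Real.log_abs]
    exact Real.log_intCast_nonneg _
  have hj : n / L ≤ n' / L := Nat.div_le_div_right hn
  have hj' : n' / L ≤ τ1 := Nat.div_le_of_le_mul (hn'.trans hτ)
  have k1 := h4 (n / L) (n' / L) hj hj'
  rw [sum_Ico_eq_sub _ hj, blocks, blocks, hsz] at k1
  rw [sum_Ico_eq_sub _ hn]
  have k2 := edge (fun t => f (X.lab (X.step^[t] v))) a M (fun t => hfa _) (L * (n / L)) (n % L)
  have k3 := edge (fun t => f (X.lab (X.step^[t] v))) a M (fun t => hfa _) (L * (n' / L)) (n' % L)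
  rw [Nat.div_add_mod] at k2 k3
  have r1 : n % L ≤ L := (Nat.mod_lt n hL).le
  have r2 : n' % L ≤ L := (Nat.mod_lt n' hL).le
  have r1' : ((n % L : ℕ) : ℝ) ≤ L := by exact_mod_cast r1
  have r2' : ((n' % L : ℕ) : ℝ) ≤ L := by exact_mod_cast r2
  have e1 : (n : ℝ) = L * ((n / L : ℕ) : ℝ) + ((n % L : ℕ) : ℝ) := by
    exact_mod_cast (Nat.div_add_mod n L).symm
  have e2 : (n' : ℝ) = L * ((n' / L : ℕ) : ℝ) + ((n' % L : ℕ) : ℝ) := by
    exact_mod_cast (Nat.div_add_mod n' L).symm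
  have s1 := Ps.Segx.many X (n % L) (X.step^[L * (n / L)] v) fun i hi => by
    rw [← Function.iterate_add_apply]
    have := Nat.div_add_mod n L
    have h5 := hlt (i + L * (n / L)) (by omega)
    unfold Sys.sz at h5
    linarith
  rw [← Function.iterate_add_apply, add_comm (n % L), Nat.div_add_mod] at s1
  have s2 : y < X.sz v n := hlt n h
  have s3 : y < X.sz v (L * (n / L)) := hlt _ (by have := Nat.div_add_mod n L; omega)
  have s4 : X.sz v (L * (n / L)) ≤ ((X.d : ℝ) + 1) ^ L * X.sz v n :=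
    s1.trans (mul_le_mul_of_nonneg_right (pow_le_pow_right₀ (by linarith) r1) (abs_nonneg _))
  have s5 : Real.log (X.sz v (L * (n / L))) ≤
      L * Real.log ((X.d : ℝ) + 1) + Real.log (X.sz v n) := by
    refine (Real.log_le_log (by linarith) s4).trans ?_
    rw [Real.log_mul (by positivity) (by linarith), Real.log_pow]
  have s6 : L * Real.log ((X.d : ℝ) + 1) + L * M / ε ≤ Real.log (X.sz v n) := by
    rw [Real.le_log_iff_exp_le (by linarith)]
    linarith
  have s7 := mul_le_mul_of_nonneg_left s6 hε.le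
  have s8 : ε * (L * Real.log ((X.d : ℝ) + 1) + L * M / ε) =
      ε * (L * Real.log ((X.d : ℝ) + 1)) + L * M := by field_simp
  have s9 := mul_le_mul_of_nonneg_left s5 hε.le
  have s10 : 0 ≤ ε * (L * Real.log ((X.d : ℝ) + 1)) := by positivity
  have t1 := mul_le_mul_of_nonneg_right r1' hM0
  have t2 := mul_le_mul_of_nonneg_right r2' hM0
  have e3 : ((n' : ℝ) - n) * a = (((n' / L : ℕ) : ℝ) - ((n / L : ℕ) : ℝ)) * (L * a) +
      ((n' % L : ℕ) : ℝ) * a - ((n % L : ℕ) : ℝ) * a := by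
    linear_combination a * e2 - a * e1
  rw [s8] at s7
  rw [mul_add] at s9
  obtain ⟨a1, a2⟩ := abs_le.1 k1
  obtain ⟨b1, b2⟩ := abs_le.1 k2
  obtain ⟨c1, c2⟩ := abs_le.1 k3
  rw [e3]
  exact abs_le.2 ⟨by linarith, by linarith⟩

end Td

end Pool.Agent.Lib.MP_39d40e_nt
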