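import Pool.Agent.Lib.MP_39d40e_nt.Td0

/-! Typical descent: a stretch of good points gives a typical path. -/

namespace Pool.Agent.Lib.MP_39d40e_nt

open Finset

namespace Td

open Ps

theorem stretch_st : StretchSt := by
  classical
  intro S E _ _ _ _ X θ h0 h1
  obtain ⟨Q1, hS⟩ := Ps.seg_st S E X θ h0 h1
  have hB : (1 : ℝ) ≤ X.B0 := by exact_mod_cast X.B0_pos
  set γ : ℝ := (X.B0 : ℝ) / θ ^ 2 with hγ
  have γ1 : 1 ≤ γ := by
    rw [hγ, le_div_iff₀ (by positivity), one_mul]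
    exact (pow_le_one₀ h0.le h1.le).trans hB
  obtain ⟨R1, hR1⟩ := exists_pow_lt_of_lt_one (show 0 < 1 / γ by positivity) h1
  have hR : θ ^ (R1 + 1) * γ ≤ 1 := by
    rw [lt_div_iff₀ (by positivity)] at hR1
    exact (mul_le_mul_of_nonneg_right (pow_le_pow_of_le_one h0.le h1.le (Nat.le_succ _))
      (by positivity)).trans hR1.le
  obtain ⟨Q2, hQ2⟩ := exists_nat_ge (2 * (X.cmx * (1 - θ)⁻¹ + 1) * γ ^ 3)
  obtain ⟨Q3, hQ3⟩ := exists_nat_ge X.cmx
  refine ⟨6 * (R1 + 1), by omega, fun g hg =>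
    ⟨Q1 + Q2 + Q3 + (X.d + 1) ^ (g * (3 * (R1 + 1))) + 3, fun Q hQ v N m hv big good => ?_⟩⟩
  unfold Sys.sz at big ⊢
  have hQc : X.cmx ≤ Q := hQ3.trans (by exact_mod_cast (by omega : Q3 ≤ Q))
  have hQ' : 2 * (X.cmx * (1 - θ)⁻¹ + 1) * γ ^ 3 ≤ Q :=
    hQ2.trans (by exact_mod_cast (by omega : Q2 ≤ Q))
  have N3 : (3 : ℝ) ≤ N := by
    have a1 := big 0 (Nat.zero_le _)
    have a2 : |(v.2 : ℝ)| ≤ N := by exact_mod_cast hv
    have a3 : (3 : ℝ) ≤ Q := by exact_mod_cast (by omega : 3 ≤ Q)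
    simp only [Function.iterate_zero, id_eq] at a1
    linarith
  obtain ⟨-, -, a3⟩ := Firstx.key X h0 h1 γ1 (hS Q (by omega)) (by omega) hQ' hv big good
  refine ⟨fun t j ht hj => ?_, ?_⟩
  · rw [Firstx.len] at ht
    obtain ⟨r, rfl⟩ : ∃ r, m = t + (j + r) := ⟨m - (t + j), by omega⟩
    rw [Firstx.seg_orb]
    have c1 := hS Q (by omega) j (X.step^[r] v)
      (fun i hi => by rw [← Function.iterate_add_apply]; exact big _ (by omega))
      (fun i hi => by rw [← Function.iterate_add_apply]; exact good _ (by omega))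
    rw [← Function.iterate_add_apply] at c1
    have c2 := Firstx.many X t (X.step^[j + r] v) fun i hi => by
      rw [← Function.iterate_add_apply]; exact hQc.trans (big _ (by omega))
    rw [← Function.iterate_add_apply] at c2
    have c3 := big _ le_rfl
    unfold Sys.Lv at c1 hj
    generalize (X.step^[t + (j + r)] v).2 = w at c2 c3 hj
    generalize (X.step^[j + r] v).2 = p at c1 c2
    have e1 : ∀ z : ℤ, |(z : ℝ)| = (z.natAbs : ℝ) := fun z => by
      rw [Nat.cast_natAbs, Int.cast_abs]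
    rw [e1, e1] at c2
    rw [e1] at c3
    have c4 : 0 < Nat.log Q w.natAbs := Nat.log_pos (by omega) (by exact_mod_cast c3)
    have c5 := Firstx.lv_le (Q := Q) (D := g * (3 * (R1 + 1))) (t := t) (a := p.natAbs)
      (b := w.natAbs) (e := X.d + 1) (by omega) (by positivity) (by omega) (by omega)
      (by exact_mod_cast c2)
    rw [← Nat.div_div_eq_div_mul] at c5
    have c6 := Nat.mul_div_le (t / g) (3 * (R1 + 1))
    generalize Nat.log Q w.natAbs = l at hj c4 c5
    generalize Nat.log Q p.natAbs = k at c1 c5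
    generalize t / g / (3 * (R1 + 1)) = u at c5 c6
    have c7 : (R1 + 1) * (3 * k) ≤ j := by
      have c8 := Nat.mul_le_mul_left (3 * (R1 + 1)) (show k ≤ 2 * l + u by omega)
      nlinarith
    refine c1.trans ?_
    have b1 : θ ^ j ≤ θ ^ ((R1 + 1) * (3 * k)) := pow_le_pow_of_le_one h0.le h1.le c7
    have b2 : θ ^ ((R1 + 1) * (3 * k)) * γ ^ (3 * k) ≤ 1 := by
      rw [pow_mul θ, ← mul_pow]; exact pow_le_one₀ (by positivity) hR
    have b3 := (mul_le_mul_of_nonneg_right b1 (by positivity : 0 ≤ γ ^ (3 * k))).trans b2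
    rw [two_mul, pow_add, mul_assoc]
    exact mul_le_of_le_one_right (by positivity) b3
  · have b1 := mul_pos (show (0 : ℝ) < N by linarith) (X.rr_pos (X.orb m v))
    linarith

end Td

end Pool.Agent.Lib.MP_39d40e_nt
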