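import Pool.Agent.Lib.MP_39d40e_nt.Td0

/-! Typical descent at all scales: the theorem for systems. -/

namespace Pool.Agent.Lib.MP_39d40e_nt.Td

open Finset

namespace Sysx

theorem desc_mono {S E : Type} [Fintype S] [Fintype E] [DecidableEq S] [DecidableEq E]
    (X : Sys S E) {f : E → ℝ} {a κ κ' ε ε' y : ℝ} {N : ℕ} {v : S × ℤ} (h1 : κ ≤ κ') (h2 : ε ≤ ε')
    (h : X.Desc f a κ ε y N v) : X.Desc f a κ' ε' y N v := by
  obtain ⟨τ, a1, a2, a3, a4⟩ := h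
  refine ⟨τ, a1, a2, a3.trans (mul_le_mul_of_nonneg_right h1 (Real.log_natCast_nonneg N)),
    fun n n' hn hn' => (a4 n n' hn hn').trans (mul_le_mul_of_nonneg_right h2 ?_)⟩
  rw [Sys.sz, Real.log_abs]
  exact Real.log_intCast_nonneg _

theorem most_mono {S : Type} {G G' : ℝ → ℕ → S × ℤ → Prop} (y1 : ℝ)
    (h : ∀ y, y1 ≤ y → ∀ N v, G y N v → G' y N v) (hG : Sys.Most G) : Sys.Most G' := by
  obtain ⟨K, c, y0, K0, c0, hK⟩ := hG
  refine ⟨K, c, max y0 y1, K0, c0, fun y hy hy0 s N => ?_⟩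
  refine le_trans (Nat.cast_le.2 (card_le_card fun u hu => ?_))
    (hK y hy ((le_max_left _ _).trans hy0) s N)
  simp only [mem_filter] at hu ⊢
  exact ⟨hu.1, fun hg => hu.2 (h y ((le_max_right _ _).trans hy0) N _ hg)⟩

theorem small_dv {S E : Type} [Fintype S] [Fintype E] [DecidableEq S] [DecidableEq E]
    (X : Sys S E) (hI : X.Irred) (f : E → ℝ) {δ : ℝ} (hδ : 0 < δ) :
    X.Small (Sys.Dv f (X.mean f) δ) := by
  have hP := hI.poisson f
  have h1 := Sys.small_ge hP (x := X.mean f + δ) (by linarith)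
  have h2 := Sys.small_le hP (x := X.mean f - δ) (by linarith)
  refine (h1.or h2).mono fun n l _ h => ?_
  unfold Sys.Dv at h
  rcases lt_abs.1 h with h | h
  · left; linarith
  · right; linarith

end Sysx

theorem sys_st (h1 : HitSt) (h2 : DetSt) (h3 : TailSt) (h4 : PowSt) (h5 : LatASt) (h6 : LatBSt) :
    SysSt := by
  intro S E _ _ _ _ X hI hN f μ ε hμ hε
  have μ0 : 0 < μ := by
    have h : X.mean X.lr < 0 := hN
    linarith
  obtain ⟨e0, -⟩ := hN.exists_two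
  by_cases hdep : ∀ g g' : List E, X.Pa (X.src e0) g (X.src e0) → X.Pa (X.src e0) g' (X.src e0) →
      ∃ x y : ℕ, 0 < x + y ∧ X.rr g ^ y = X.rr g' ^ x
  · obtain ⟨hLat, hc⟩ := h5 _ _ X hI hN _ hdep
    obtain ⟨C, C0, hC⟩ := h6 _ _ X hLat hc
    obtain ⟨δ, δ0, Q1, hD⟩ := h2 _ _ X f (X.mean f) μ ε μ0 hε
    have t1 := Sysx.small_dv X hI X.lr δ0
    rw [hμ] at t1
    obtain ⟨Q, hQ, hK⟩ := h1 _ _ X (fun θ _ _ _ => ⟨1, 0, 0, C, le_rfl, C0, fun n1 _ x hx s =>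
      ⟨fun _ => C, ⟨fun _ => C0, fun _ => rfl, by simp [mul_comm]⟩, fun z I => by
        refine le_trans (sum_le_sum fun m _ => Nat.cast_le.2 (card_le_card fun l hl => ?_))
          (hC x hx s z I)
        simp only [mem_filter] at hl ⊢
        exact ⟨hl.1, hl.2.2⟩⟩⟩) (hI.poisson _) hN _ (t1.or (Sysx.small_dv X hI f δ0)) Q1
    obtain ⟨y1, hy1⟩ := hD Q hQ
    exact Sysx.most_mono y1 (fun y hy N v ⟨τ, b1, b2⟩ hv => hy1 y hy _ N τ hv b1 b2) hK
  simp only [not_forall, not_exists, not_and] at hdep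
  obtain ⟨g, g', hg, hg', hind⟩ := hdep
  obtain ⟨L, hL1, hL⟩ := X.exists_good2 hI hN _ g g' hg hg' hind
  have L1 : (1 : ℝ) ≤ L := by exact_mod_cast hL1
  have e1 : 0 < ε / (3 * L) := by positivity
  obtain ⟨δ, δ0, Q1, hD⟩ := h2 _ _ (X.pow L) (fun e => (e.1.2.map f).sum) (L * X.mean f) (L * μ)
    (ε / (3 * L)) (by positivity) e1
  have elr : (fun e : X.PE L => (e.1.2.map X.lr).sum) = (X.pow L).lr :=
    funext fun e => Sys.Addi.sum_map X Sys.addi_log e.1.2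
  have t1 := h3 _ _ X hI L X.lr δ δ0
  rw [elr, hμ, mul_neg] at t1
  obtain ⟨Q, hQ, hK⟩ := h1 _ _ (X.pow L) (Ps.cnt_st (Ps.core_st Ps.visit_st
    (Ps.inner_st Ps.visit_st) Ps.stage_st Ps.max_st) _ _ (X.pow L) hL.mix)
    (hL.poisson _ Sys.addi_log) hL.drift _ (t1.or (h3 _ _ X hI L f δ δ0)) Q1
  obtain ⟨y1, hy1⟩ := hD Q hQ
  obtain ⟨y2, hy2⟩ := h4 _ _ X L hL1 f (X.mean f) (1 / (L * μ) + ε / (3 * L)) _ e1
  refine Sysx.most_mono (max y1 y2) (fun y hy N v ⟨τ, b1, b2⟩ hv => ?_) hK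
  refine Sysx.desc_mono X ?_ ?_ (hy2 y ((le_max_right _ _).trans hy) N _
    (hy1 y ((le_max_left _ _).trans hy) _ N τ hv b1 b2))
  · have : (L : ℝ) * (1 / (L * μ) + ε / (3 * L)) = 1 / μ + ε / 3 := by field_simp
    linarith
  · have : 3 * (ε / (3 * L)) = ε / L := by field_simp
    rw [this]
    exact div_le_self hε.le L1

end Pool.Agent.Lib.MP_39d40e_nt.Td
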