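import Pool.Agent.Lib.MP_39d40e_nt.Td0

/-! Typical descent: large deviations of block sums in a power system. -/

namespace Pool.Agent.Lib.MP_39d40e_nt.Td

open Finset

namespace Tailx

variable {S E : Type} [Fintype S] [Fintype E] [DecidableEq S] [DecidableEq E] (X : Sys S E)

theorem pow_gen (hI : X.Irred) (L : ℕ) (f : E → ℝ) :
    (X.pow L).mean (fun e => (e.1.2.map f).sum) = L * X.mean f ∧
    (X.pow L).Poisson fun e => (e.1.2.map f).sum := by
  obtain ⟨h, hh⟩ := hI.poisson f
  have h1 : ∀ s, ∑ e ∈ (X.pow L).into s, (X.pow L).q e *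
      ((e.1.2.map f).sum + h ((X.pow L).src e)) = L * X.mean f + h s := by
    intro s
    rw [← X.Ex_poisson hh L s]
    exact X.pow_into L s fun l t => (l.map f).sum + h t
  have h2 : (X.pow L).mean (fun e => (e.1.2.map f).sum) = L * X.mean f := by
    have a1 := (X.pow L).mean_src h
    rw [Sys.mean_eq] at a1 ⊢
    have a2 : ∑ s, (X.pow L).π s * ∑ e ∈ (X.pow L).into s, (X.pow L).q e *
        ((e.1.2.map f).sum + h ((X.pow L).src e))
        = ∑ s, (X.pow L).π s * (L * X.mean f + h s) := by
      simp only [h1]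
    simp only [mul_add, sum_add_distrib] at a2
    rw [a1, ← sum_mul, (X.pow L).π_sum] at a2
    linarith
  exact ⟨h2, h, fun s => by rw [h1, h2]⟩

end Tailx

theorem tail_st : TailSt := by
  intro S E _ _ _ _ X hI L f δ hδ
  obtain ⟨hm, hP⟩ := Tailx.pow_gen X hI L f
  have h1 := Sys.small_ge hP (x := L * X.mean f + δ) (by rw [hm]; linarith)
  have h2 := Sys.small_le hP (x := L * X.mean f - δ) (by rw [hm]; linarith)
  refine (h1.or h2).mono fun n l _ h => ?_
  unfold Sys.Dv at h
  rcases lt_abs.1 h with h | h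
  · left; linarith
  · right; linarith

end Pool.Agent.Lib.MP_39d40e_nt.Td
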