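import Pool.Agent.Lib.MP_39d40e_nt.TdStretch
import Pool.Agent.Lib.MP_39d40e_nt.TdHit
import Pool.Agent.Lib.MP_39d40e_nt.TdBlock
import Pool.Agent.Lib.MP_39d40e_nt.TdDet
import Pool.Agent.Lib.MP_39d40e_nt.TdTail
import Pool.Agent.Lib.MP_39d40e_nt.TdPow
import Pool.Agent.Lib.MP_39d40e_nt.TdLatA
import Pool.Agent.Lib.MP_39d40e_nt.TdLatB
import Pool.Agent.Lib.MP_39d40e_nt.TdSys
import Pool.Agent.Lib.MP_39d40e_nt.TdLeigh

/-! Typical descent at all scales: assembly. -/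

namespace Pool.Agent.Lib.MP_39d40e_nt.Td

theorem leigh_all : LeighSt :=
  leigh_st (sys_st (hit_st stretch_st) (det_st block_st) tail_st pow_st lata_st latb_st)

end Pool.Agent.Lib.MP_39d40e_nt.Td
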