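import Pool.Agent.Lib.MP_39d40e_nt.StZ

/-! Normal law of clocks with class dependent increments: statements of the parts. -/

namespace Pool.Agent.Lib.MP_39d40e_nt

open Finset Filter Topology

namespace Sys

variable {S E : Type} [Fintype S] [Fintype E] [DecidableEq S] [DecidableEq E] (X : Sys S E)

/-- parallel edges with equal increments -/
def ParaW (ι : E → ℝ) : Prop := ∀ s, ∃ e₁ e₂, e₁ ≠ e₂ ∧ X.tgt e₁ = s ∧ X.tgt e₂ = s ∧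
  X.src e₁ = X.src e₂ ∧ X.b e₁ = X.b e₂ ∧ X.D e₁ = X.D e₂ ∧ ι e₁ = ι e₂

/-- the twisted mixing estimate -/
def MixW (ι : E → ℝ) : Prop :=
  ∀ A : ℕ, ∃ C : ℝ, ∀ (θ : ℝ) (n : ℕ), 1 ≤ n → ∀ (s : S) (g : S → ℤ → ℕ → ℤ → ℝ),
    (∀ t M D, Function.Periodic (g t M D) (X.B0 : ℤ)) →
    (∀ t M D, ∑ x ∈ range X.B0, g t M D x = 0) →
    (∀ t M D x, |g t M D x| ≤ 1) → ∀ φ : ℕ → ℝ,
    ∑ z ∈ range (X.B0 ^ (n + 1)),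
      |X.Ex n s fun l => Real.cos (φ z + θ * (l.map ι).sum) *
        X.pull l z (g (X.endp s l) (X.bP l) (X.DP l))| ≤ C / (n : ℝ) ^ A * (X.B0 : ℝ) ^ (n + 1)

/-- `τ` drops by the increment of the edge at each step on the support of the invariant function
`χ`, away from a bounded set -/
def Clock3 (χ τ : S × ℤ → ℝ) (ι : E → ℝ) (R : ℝ) : Prop :=
  (∀ x, 0 ≤ χ x) ∧ (∀ x, χ x ≤ 1) ∧ ∀ x : S × ℤ, R < |(x.2 : ℝ)| →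
    χ (X.step x) = χ x ∧ (χ x ≠ 0 → τ x = τ (X.step x) + ι (X.lab x))

/-- independence of residue classes for the phase functions -/
def EqW (χ τ : S × ℤ → ℝ) : Prop := ∀ (h : ℝ → ℝ) (a L : ℝ), Bd.Ker h a L → ∃ C t0 : ℝ,
  ∀ (k : ℝ × ℝ) (s : S) (g : ℤ → ℝ), (∀ x, g (x + X.B0) = g x) → ∑ x ∈ range X.B0, g x = 0 →
    (∀ x, |g x| ≤ 1) → ∀ t, t0 ≤ t →
      |Bd.F h (fun u => St.Sx.fam χ τ k (s, u) * g u) (Real.exp t)| ≤ C / t ^ 2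

/-- the approximate harmonic equation for the phase functions -/
def HarmW (χ τ : S × ℤ → ℝ) (ι : E → ℝ) : Prop :=
  ∀ (h : ℝ → ℝ) (a L : ℝ), Bd.Ker h a L → ∃ C t0 : ℝ, ∀ (θ k : ℝ) (s : S) (t : ℝ), t0 ≤ t →
    |X.π s * Bd.F h (fun u => St.Sx.fam χ τ (θ, k) (s, u)) (Real.exp t) - ∑ e with X.src e = s,
      X.π (X.src e) / X.D e * Bd.F h (fun u => St.Sx.fam χ τ (θ, k + θ * ι e) (X.tgt e, u))
        (Real.exp (t + Real.log (|(X.b e : ℝ)| / X.D e)))| ≤ C / t ^ 2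

end Sys

namespace Tw

/-- twisted mixing -/
def MixSt : Prop := ∀ (S E : Type) [Fintype S] [Fintype E] [DecidableEq S] [DecidableEq E]
  (X : Sys S E) (ι : E → ℝ), X.Good → X.ParaW ι → X.MixW ι

/-- a good power with parallel edges of equal increment -/
def GoodSt : Prop := ∀ (S E : Type) [Fintype S] [Fintype E] [DecidableEq S] [DecidableEq E]
  (X : Sys S E) (ι : E → ℝ), X.Irred → X.Neg → ∀ (s0 : S) (g : List E), X.Pa s0 g s0 →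
  1 < X.rr g → ∃ L, 1 ≤ L ∧ (X.pow L).Good ∧ (X.pow L).ParaW fun e => (e.1.2.map ι).sum

/-- EQ -/
def EqSt : Prop := ∀ (S E : Type) [Fintype S] [Fintype E] [DecidableEq S] [DecidableEq E]
  (X : Sys S E) (χ τ : S × ℤ → ℝ) (ι : E → ℝ) (R : ℝ), X.Clock3 χ τ ι R → X.MixW ι → X.EqW χ τ

/-- H -/
def HarmSt : Prop := ∀ (S E : Type) [Fintype S] [Fintype E] [DecidableEq S] [DecidableEq E]
  (X : Sys S E) (χ τ : S × ℤ → ℝ) (ι : E → ℝ) (R : ℝ), X.Clock3 χ τ ι R →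
  ∀ L : ℕ, 1 ≤ L → (X.pow L).EqW χ τ → X.HarmW χ τ ι

/-- EQ and H together -/
def HarmAll : Prop := ∀ (S E : Type) [Fintype S] [Fintype E] [DecidableEq S] [DecidableEq E]
  (X : Sys S E), X.Irred → X.Neg → ∀ (s0 : S) (g : List E), X.Pa s0 g s0 → 1 < X.rr g →
  ∀ (χ τ : S × ℤ → ℝ) (ι : E → ℝ) (R : ℝ), X.Clock3 χ τ ι R → X.HarmW χ τ ι

/-- the Poisson equations of the forward chain -/
def ConstSt : Prop := ∀ (S E : Type) [Fintype S] [Fintype E] [DecidableEq S] [DecidableEq E]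
  (X : Sys S E), X.Irred → X.Neg → ∀ β : ℝ, β = -X.mean X.lg → ∀ ι : E → ℝ,
  ∃ (g G u : S → ℝ) (c : ℝ), 0 ≤ c ∧
    (∀ s1 l1, X.Pa s1 l1 s1 → (l1.map ι).sum + X.mean ι / β * Real.log (X.rr l1) ≠ 0 → 0 < c) ∧
    (∀ s, ∑ e with X.src e = s, 1 / (X.D e : ℝ) * (X.lg e + g (X.tgt e)) = g s - β) ∧
    (∀ s, ∑ e with X.src e = s, 1 / (X.D e : ℝ) *
      (ι e + X.mean ι / β * X.lg e + G (X.tgt e) - G (X.src e)) = 0) ∧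
    ∀ s, ∑ e with X.src e = s, 1 / (X.D e : ℝ) * (u (X.tgt e) - c * X.lg e
      - (ι e + X.mean ι / β * X.lg e + G (X.tgt e) - G (X.src e)) ^ 2 / 2) = u s

/-- the comparison argument -/
def CoreSt : Prop := ∀ (S E : Type) [Fintype S] [Fintype E] [DecidableEq S]
  (src tgt : E → S) (p σ ι : E → ℝ) (g G u : S → ℝ) (β c m : ℝ), 0 < β → 0 ≤ c → (∀ e, 0 ≤ p e) →
  (∀ s, ∑ e with src e = s, p e = 1) →
  (∀ s, ∑ e with src e = s, p e * (σ e + g (tgt e)) = g s - β) →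
  (∀ s, ∑ e with src e = s, p e * (ι e + m * σ e + G (tgt e) - G (src e)) = 0) →
  (∀ s, ∑ e with src e = s, p e *
    (u (tgt e) - c * σ e - (ι e + m * σ e + G (tgt e) - G (src e)) ^ 2 / 2) = u s) →
  ∀ (f : ℝ → ℝ → S → ℝ → ℝ) (M C t0 δ : ℝ),
  (∀ θ k s t, 0 ≤ t → |f θ k s t| ≤ M) →
  (∀ θ k s t, t0 ≤ t →
    |f θ k s t - ∑ e with src e = s, p e * f θ (k + θ * ι e) (tgt e) (t + σ e)| ≤ C / t ^ 2) →
  (∀ ε, 0 < ε → ∃ T, ∀ T', ∃ θ0, 0 < θ0 ∧ ∀ θ, |θ| ≤ θ0 → ∀ k s t, T ≤ t → t ≤ T' →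
    |f θ k s t - δ * (1 + Real.cos k) / 2| ≤ ε) →
  ∀ ε B : ℝ, 0 < ε → ∃ T, ∀ t, T ≤ t → ∀ θ : ℝ, θ ^ 2 * t ≤ B → ∀ k s,
    |f θ k s t - δ * (1 + Real.exp (-(c * (θ ^ 2 * t))) * Real.cos (k + θ * (m * t))) / 2| ≤ ε

/-- the theorem for systems, in terms of characteristic functions -/
def SysSt : Prop := ∀ (S E : Type) [Fintype S] [Fintype E] [DecidableEq S] [DecidableEq E]
  (X : Sys S E), X.Irred → X.Neg → ∀ (s0 : S) (l : List E), X.Pa s0 l s0 → 1 < X.rr l →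
  ∀ β : ℝ, β = -X.mean X.lg → ∀ ι : E → ℝ, ∃ c : ℝ, 0 ≤ c ∧
    (∀ s1 l1, X.Pa s1 l1 s1 → (l1.map ι).sum + X.mean ι / β * Real.log (X.rr l1) ≠ 0 → 0 < c) ∧
    ∀ (χ τ : S × ℤ → ℝ) (R : ℝ), X.Clock3 χ τ ι R →
    ∃ δ : ℝ, ∀ ε B : ℝ, 0 < ε → ∃ N0 : ℕ, ∀ N : ℕ, N0 ≤ N → ∀ θ : ℝ, θ ^ 2 * Real.log N ≤ B →
      ∀ (k : ℝ) (s : S),
      |(∑ u ∈ Icc (-(N : ℤ)) N, χ (s, u) * Real.cos (θ * τ (s, u) + k)) / (2 * N)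
        - δ * (Real.exp (-(c * (θ ^ 2 * Real.log N)))
          * Real.cos (k + θ * (X.mean ι / β * Real.log N)))| ≤ ε

/-- the theorem for Leigh's chain -/
def LeighSt : Prop := ∀ (L : LData) [NeZero L.d] (Λ : ℝ),
  Λ = ∏ i : ZMod L.d, |(L.m i : ℝ) / L.d| ^ (∑ s ∈ L.C with (s.1 : ZMod L.d) = i, L.ρ s) → Λ < 1 →
  ∀ (n : ℕ) (σ : ℕ → ℕ × ℕ), σ 0 ∈ L.C → σ n = σ 0 →
  (∀ t < n, 0 < P L.d L.m L.r L.a (σ t) (σ (t + 1))) →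
  (L.d : ℤ) ^ n < ∏ t ∈ range n, |L.m (σ t).1| →
  ∀ (c : ZMod L.d → ℝ) (μ : ℝ),
  μ = (∑ i : ZMod L.d, (∑ s ∈ L.C with (s.1 : ZMod L.d) = i, L.ρ s) * c i) / (-Real.log Λ) →
  ∃ κ : ℝ, 0 ≤ κ ∧
    (∀ (n' : ℕ) (σ' : ℕ → ℕ × ℕ), σ' 0 ∈ L.C → σ' n' = σ' 0 →
      (∀ t < n', 0 < P L.d L.m L.r L.a (σ' t) (σ' (t + 1))) →
      ∑ t ∈ range n', (c (σ' t).1 + μ * Real.log |(L.m (σ' t).1 : ℝ) / L.d|) ≠ 0 → 0 < κ) ∧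
    ∀ (A : Set ℤ) (τ : ℤ → ℝ),
    {x : ℤ | (∃ s ∈ L.C, x ≡ s.1 [ZMOD (L.d * s.2 : ℕ)]) ∧
      ¬ ((x ∈ A ↔ T L.d L.m L.r x ∈ A) ∧ (x ∈ A → τ x = τ (T L.d L.m L.r x) + c x))}.Finite →
    ∃ δ : ℝ, ∀ s ∈ L.C, ∀ φ : BoundedContinuousFunction ℝ ℝ, Tendsto (fun N : ℕ =>
      (∑ x ∈ Icc (-(N : ℤ)) N, Set.indicator {x : ℤ | x ≡ s.1 [ZMOD (L.d * s.2 : ℕ)] ∧ x ∈ A}
        (fun x => φ ((τ x - μ * Real.log N) / Real.sqrt (Real.log N))) x)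
        / (Set.ncard {x : ℤ | |x| ≤ N ∧ x ≡ s.1 [ZMOD (L.d * s.2 : ℕ)]} : ℝ)) atTop
      (𝓝 (δ * ∫ y, φ (κ * y) ∂(ProbabilityTheory.gaussianReal 0 1)))

end Tw

end Pool.Agent.Lib.MP_39d40e_nt
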