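import Pool.Agent.Lib.MP_39d40e_nt.Tw0

/-! Normal law of clocks with class dependent increments: the Poisson equations. -/

namespace Pool.Agent.Lib.MP_39d40e_nt.Tw

open Finset Filter Topology

theorem Constx.tele {S E : Type} [Fintype S] [Fintype E] [DecidableEq S] [DecidableEq E]
    {X : Sys S E} {G : S → ℝ} {ι : E → ℝ} {m : ℝ}
    (hz : ∀ e, ι e + m * X.lg e + G (X.tgt e) - G (X.src e) = 0) :
    ∀ (l : List E) (s : S), l ∈ X.Paths l.length s →
      (l.map ι).sum + m * Real.log (X.rr l) = G (X.endp s l) - G s := by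
  intro l
  induction l with
  | nil => intro s _; simp [Sys.rr]
  | cons e l ih =>
    intro s hl
    obtain ⟨rfl, hl'⟩ := X.cons_mem_Paths.1 hl
    have b1 : (X.b e : ℝ) ≠ 0 := by exact_mod_cast X.b_ne e
    have d1 : (0 : ℝ) < X.D e := by exact_mod_cast X.D_pos e
    have e1 : X.rr (e :: l) = |(X.b e : ℝ)| / X.D e * X.rr l := by
      simp only [Sys.rr, Sys.bP_cons, Sys.DP_cons]
      push_cast
      rw [abs_mul, div_mul_div_comm]
    have h1 := ih _ hl'
    have h2 := hz e
    unfold Sys.lg at h2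
    rw [e1, Real.log_mul (by positivity) (X.rr_pos l).ne', Sys.endp_cons, List.map_cons,
      List.sum_cons]
    linarith

theorem const_st : ConstSt := by
  intro S E _ _ _ _ X hI hN β hβ ι
  have β0 : 0 < β := by
    have : X.mean X.lg < 0 := hN
    linarith
  set m := X.mean ι / β with hm
  obtain ⟨g, hg⟩ := St.Cx.poisson hI X.lg
  obtain ⟨G, hG⟩ := St.Cx.poisson hI fun e => ι e + m * X.lg e
  have hG0 : (X.mean fun e => ι e + m * X.lg e) = 0 := by
    have : (X.mean fun e => ι e + m * X.lg e) = X.mean ι + m * X.mean X.lg := by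
      unfold Sys.mean
      rw [mul_sum, ← sum_add_distrib]
      exact sum_congr rfl fun e _ => by ring
    rw [this, ← neg_neg (X.mean X.lg), ← hβ, hm]
    field_simp
    ring
  set ξ : E → ℝ := fun e => ι e + m * X.lg e + G (X.tgt e) - G (X.src e) with hξ
  have hm0 : 0 ≤ X.mean fun e => ξ e ^ 2 := X.mean_nonneg fun _ => sq_nonneg _
  set c : ℝ := (X.mean fun e => ξ e ^ 2) / (2 * β) with hc
  obtain ⟨u, hu⟩ := St.Cx.poisson hI fun e => -(c * X.lg e) - ξ e ^ 2 / 2
  have h0 : (X.mean fun e => -(c * X.lg e) - ξ e ^ 2 / 2) = 0 := by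
    have : (X.mean fun e => -(c * X.lg e) - ξ e ^ 2 / 2) =
        c * -X.mean X.lg - (X.mean fun e => ξ e ^ 2) / 2 := by
      unfold Sys.mean
      rw [mul_neg, mul_sum, sum_div, ← sum_neg_distrib, ← sum_sub_distrib]
      exact sum_congr rfl fun e _ => by ring
    rw [this, ← hβ, hc]
    field_simp
    ring
  refine ⟨g, G, u, c, by positivity, fun s1 l1 hl hne => ?_, fun s => by rw [hg, hβ]; ring,
    fun s => ?_, fun s => ?_⟩
  · have hp : 0 < X.mean fun e => ξ e ^ 2 := by
      by_cases hz : ∀ e, ξ e = 0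
      · have h1 := Constx.tele hz l1 s1 hl.1
        rw [hl.2, sub_self] at h1
        exact absurd h1 hne
      · push Not at hz
        obtain ⟨e, he⟩ := hz
        exact X.mean_pos (fun _ => sq_nonneg _) (e₀ := e) (by positivity)
    positivity
  · have h1 := hG s
    rw [hG0, add_zero] at h1
    have h2 : ∑ e with X.src e = s, 1 / (X.D e : ℝ) *
        (ι e + m * X.lg e + G (X.tgt e) - G (X.src e))
        = ∑ e with X.src e = s, 1 / (X.D e : ℝ) * (ι e + m * X.lg e + G (X.tgt e))
          - (∑ e with X.src e = s, 1 / (X.D e : ℝ)) * G s := by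
      rw [sum_mul, ← sum_sub_distrib]
      exact sum_congr rfl fun e he => by rw [(mem_filter.1 he).2]; ring
    rw [h2, h1, X.out_sum]
    ring
  · rw [← add_zero (u s), ← h0, ← hu]
    exact sum_congr rfl fun e _ => by simp only [hξ]; ring

end Pool.Agent.Lib.MP_39d40e_nt.Tw
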