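import Pool.Agent.Lib.MP_39d40e_nt.Tw0

/-! Normal law of entry times: the comparison argument. -/

namespace Pool.Agent.Lib.MP_39d40e_nt.Tw

open Finset

namespace Corex

theorem near {a : ℝ} (ha : |a| ≤ 1) (φ x : ℝ) :
    |Real.exp a * Real.cos (φ + x) - Real.cos φ| ≤ 2 * |a| + |x| := by
  have h1 := Real.abs_exp_sub_one_le ha
  have h2 := Real.abs_cos_sub_cos_le (φ + x) φ
  have h3 := Real.abs_cos_le_one (φ + x)
  rw [add_sub_cancel_left] at h2
  have e : Real.exp a * Real.cos (φ + x) - Real.cos φ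
      = (Real.exp a - 1) * Real.cos (φ + x) + (Real.cos (φ + x) - Real.cos φ) := by ring
  rw [e]
  refine (abs_add_le _ _).trans (add_le_add ?_ h2)
  rw [abs_mul]
  exact (mul_le_of_le_one_right (abs_nonneg _) h3).trans h1

theorem taylor {a x : ℝ} (ha : |a| ≤ 1) (hx : |x| ≤ 1) (ψ : ℝ) :
    |Real.exp a * Real.cos (ψ + x) - (Real.cos ψ * (1 + a - x ^ 2 / 2) - x * Real.sin ψ)|
      ≤ 2 * |x| ^ 3 + |a| * |x| + a ^ 2 := by
  have h1 := Real.abs_exp_sub_one_sub_id_le ha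
  have h2 := Real.abs_cos_sub_cos_le (ψ + x) ψ
  have h3 := Real.abs_cos_le_one (ψ + x)
  rw [add_sub_cancel_left] at h2
  have x0 := abs_nonneg x
  have x3 : 0 ≤ |x| ^ 3 := by positivity
  have x4 : |x| ^ 4 ≤ |x| ^ 3 := pow_le_pow_of_le_one x0 hx (by norm_num)
  have h4 : |Real.cos x - (1 - x ^ 2 / 2)| ≤ |x| ^ 3 := by
    have := Real.cos_bound hx
    linarith
  have h5 : |Real.sin x - x| ≤ |x| ^ 3 := by
    have b1 := Real.sin_bound hx
    have b2 : Real.sin x - x = (Real.sin x - (x - x ^ 3 / 6)) - x ^ 3 / 6 := by ring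
    have b3 : |x ^ 3 / 6| = |x| ^ 3 / 6 := by rw [abs_div, abs_pow]; norm_num
    rw [b2]
    refine (abs_sub _ _).trans ?_
    have b4 : |x| ^ 5 ≤ |x| ^ 3 := pow_le_pow_of_le_one x0 hx (by norm_num)
    linarith
  have e : Real.exp a * Real.cos (ψ + x) - (Real.cos ψ * (1 + a - x ^ 2 / 2) - x * Real.sin ψ)
      = (Real.cos ψ * (Real.cos x - (1 - x ^ 2 / 2)) - Real.sin ψ * (Real.sin x - x))
        + a * (Real.cos (ψ + x) - Real.cos ψ) + (Real.exp a - 1 - a) * Real.cos (ψ + x) := by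
    rw [Real.cos_add]; ring
  rw [e]
  refine (abs_add_le _ _).trans (add_le_add ((abs_add_le _ _).trans (add_le_add ?_ ?_)) ?_)
  · refine (abs_sub _ _).trans ?_
    rw [abs_mul, abs_mul]
    have c1 := mul_le_of_le_one_left (abs_nonneg (Real.cos x - (1 - x ^ 2 / 2)))
      (Real.abs_cos_le_one ψ)
    have c2 := mul_le_of_le_one_left (abs_nonneg (Real.sin x - x)) (Real.abs_sin_le_one ψ)
    linarith
  · rw [abs_mul]; gcongr
  · rw [abs_mul]
    exact (mul_le_of_le_one_right (abs_nonneg _) h3).trans h1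

variable {S E : Type} [Fintype E] [DecidableEq S] {src tgt : E → S} {p σ : E → ℝ}

/-- maximum principle with a strict gain -/
theorem mp (hp : ∀ e, 0 ≤ p e) (h1 : ∀ s, ∑ e with src e = s, p e = 1) {sg : ℝ}
    (hσ : ∀ e, |σ e| ≤ sg) (w : ℝ → S → ℝ → ℝ) {θ : E → ℝ} {T a γ M : ℝ} (hγ : 0 < γ)
    (hb : ∀ k s t, T - sg ≤ t → t ≤ T → w k s t ≤ a)
    (hs : ∀ k s t, T ≤ t → w k s t + γ ≤ ∑ e with src e = s, p e * w (k + θ e) (tgt e) (t + σ e))
    (hM : ∀ k s t, T - sg ≤ t → w k s t ≤ M) : ∀ k s t, T - sg ≤ t → w k s t ≤ a := by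
  have key : ∀ n : ℕ, ∀ k s t, T - sg ≤ t → w k s t ≤ max a (M - n * γ) := by
    intro n
    induction n with
    | zero => intro k s t ht; simpa using Or.inr (hM k s t ht)
    | succ n ih =>
      intro k s t ht
      rcases le_total t T with c | c
      · exact (hb k s t ht c).trans (le_max_left _ _)
      have b1 : ∑ e with src e = s, p e * w (k + θ e) (tgt e) (t + σ e)
          ≤ ∑ e with src e = s, p e * max a (M - n * γ) :=
        sum_le_sum fun e _ => mul_le_mul_of_nonneg_left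
          (ih _ _ _ (by linarith [(abs_le.1 (hσ e)).1])) (hp e)
      rw [← sum_mul, h1, one_mul] at b1
      have b2 := hs k s t c
      push_cast
      rcases le_total a (M - n * γ) with d | d
      · rw [max_eq_right d] at b1
        exact le_max_of_le_right (by linarith)
      · rw [max_eq_left d] at b1
        exact le_max_of_le_left (by linarith)
  intro k s t ht
  obtain ⟨n, hn⟩ := exists_nat_ge ((M - a) / γ)
  rw [div_le_iff₀ hγ] at hn
  exact (key n k s t ht).trans (max_le le_rfl (by linarith))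

/-- one sided comparison with the two barriers -/
theorem cmp (hp : ∀ e, 0 ≤ p e) (h1 : ∀ s, ∑ e with src e = s, p e = 1) {sg G β : ℝ}
    (hσ : ∀ e, |σ e| ≤ sg) {g : S → ℝ} (hg : ∀ s, |g s| ≤ G) (hβ : 0 < β)
    (h2 : ∀ s, ∑ e with src e = s, p e * (σ e + g (tgt e)) = g s - β)
    (d : ℝ → S → ℝ → ℝ) {θ : E → ℝ} {T a γ M C D Z : ℝ} (hγ : 0 < γ) (hC : 0 ≤ C) (hD : 0 ≤ D)
    (hZ : 0 < Z) (hT : Z + G + sg ≤ T) (hsg : 0 ≤ sg)
    (hb : ∀ k s t, T - sg ≤ t → t ≤ T → d k s t ≤ a)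
    (hs : ∀ k s t, T ≤ t →
      d k s t ≤ ∑ e with src e = s, p e * d (k + θ e) (tgt e) (t + σ e) + C / t ^ 2 + D)
    (hM : ∀ k s t, T - sg ≤ t → d k s t ≤ M) :
    ∀ k s t, T ≤ t → d k s t ≤ a + 4 * C / β / Z + (D + γ) / β * (2 * t) := by
  set K := 4 * C / β with hK
  set η := (D + γ) / β with hη
  have K0 : 0 ≤ K := by positivity
  have η0 : 0 ≤ η := by positivity
  have zpos : ∀ s t, T - sg ≤ t → Z ≤ t + g s := fun s t ht => by
    linarith [(abs_le.1 (hg s)).1]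
  have bd : ∀ s t, T - sg ≤ t → K * (1 / (t + g s)) - η * (t + g s) ≤ K / Z := by
    intro s t ht
    have z1 := zpos s t ht
    have b1 : K * (1 / (t + g s)) ≤ K / Z := by
      rw [mul_one_div]; gcongr
    have b2 : 0 ≤ η * (t + g s) := mul_nonneg η0 (by linarith)
    linarith
  have main := mp (tgt := tgt) hp h1 hσ
    (fun k s t => d k s t + (K * (1 / (t + g s)) - η * (t + g s))) (θ := θ) (T := T)
    (a := a + K / Z) (M := M + K / Z) hγ
    (fun k s t ht ht' => add_le_add (hb k s t ht ht') (bd s t ht)) ?_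
    (fun k s t ht => add_le_add (hM k s t ht) (bd s t ht))
  · intro k s t ht
    have b1 := main k s t (by linarith)
    have z1 := zpos s t (by linarith)
    have b2 : 0 ≤ K * (1 / (t + g s)) := mul_nonneg K0 (one_div_pos.2 (by linarith)).le
    have b3 : η * (t + g s) ≤ η * (2 * t) :=
      mul_le_mul_of_nonneg_left (by linarith [(abs_le.1 (hg s)).2]) η0
    linarith
  intro k s t ht
  have z1 := zpos s t (by linarith)
  set z := t + g s with hz
  have z0 : 0 < z := by linarith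
  have G0 : 0 ≤ G := (abs_nonneg _).trans (hg s)
  have t0 : 0 < t := by linarith
  have e1 : ∑ e with src e = s, p e * (t + σ e + g (tgt e)) = z - β := by
    have : ∀ e, p e * (t + σ e + g (tgt e)) = p e * t + p e * (σ e + g (tgt e)) :=
      fun e => by ring
    simp only [this]
    rw [sum_add_distrib, ← sum_mul, h1, h2, hz]; ring
  have e2 : 1 / z + β / z ^ 2 ≤ ∑ e with src e = s, p e * (1 / (t + σ e + g (tgt e))) := by
    have b1 : ∑ e with src e = s, (p e * (2 / z) - p e * (t + σ e + g (tgt e)) * (1 / z ^ 2))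
        ≤ ∑ e with src e = s, p e * (1 / (t + σ e + g (tgt e))) := by
      refine sum_le_sum fun e _ => ?_
      have y1 := zpos (tgt e) (t + σ e) (by linarith [(abs_le.1 (hσ e)).1])
      set y := t + σ e + g (tgt e)
      have y0 : 0 < y := by linarith
      have c1 : 2 / z - y * (1 / z ^ 2) ≤ 1 / y := by
        have : 1 / y - (2 / z - y * (1 / z ^ 2)) = (z - y) ^ 2 / (y * z ^ 2) := by
          field_simp; ring
        have c2 : 0 ≤ (z - y) ^ 2 / (y * z ^ 2) := by positivity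
        linarith
      have := mul_le_mul_of_nonneg_left c1 (hp e)
      linarith
    rw [sum_sub_distrib, ← sum_mul, ← sum_mul, h1, e1] at b1
    refine le_trans (le_of_eq ?_) b1
    field_simp; ring
  have e3 : C / t ^ 2 ≤ K * (β / z ^ 2) := by
    have b1 : K * (β / z ^ 2) = 4 * C / z ^ 2 := by rw [hK]; field_simp
    have b2 : z ≤ 2 * t := by linarith [(abs_le.1 (hg s)).2]
    have b3 : z ^ 2 ≤ (2 * t) ^ 2 := by gcongr
    rw [b1, div_le_div_iff₀ (by positivity) (by positivity)]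
    nlinarith
  have e4 : η * β = D + γ := by rw [hη]; field_simp
  have e5 : ∑ e with src e = s, p e * (d (k + θ e) (tgt e) (t + σ e)
        + (K * (1 / (t + σ e + g (tgt e))) - η * (t + σ e + g (tgt e))))
      = ∑ e with src e = s, p e * d (k + θ e) (tgt e) (t + σ e)
        + (K * ∑ e with src e = s, p e * (1 / (t + σ e + g (tgt e)))
          - η * ∑ e with src e = s, p e * (t + σ e + g (tgt e))) := by
    rw [mul_sum, mul_sum, ← sum_sub_distrib, ← sum_add_distrib]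
    exact sum_congr rfl fun e _ => by ring
  have e6 := mul_le_mul_of_nonneg_left e2 K0
  have e7 := hs k s t ht
  rw [e5, e1]
  nlinarith

/-- the model solution -/
noncomputable def W (h u : S → ℝ) (m c θ T : ℝ) (k : ℝ) (s : S) (t : ℝ) : ℝ :=
  Real.exp (θ ^ 2 * (u s - c * (t - T))) * Real.cos (k + θ * (m * (t - T) + h s))

theorem W_step (hp : ∀ e, 0 ≤ p e) (h1 : ∀ s, ∑ e with src e = s, p e = 1) {h u : S → ℝ}
    {ι : E → ℝ} {m c : ℝ} (hc : 0 ≤ c)
    (h2 : ∀ s, ∑ e with src e = s, p e * (ι e + m * σ e + h (tgt e)) = h s)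
    (h3 : ∀ s, ∑ e with src e = s, p e *
      (u (tgt e) - c * σ e - (ι e + m * σ e + h (tgt e) - h (src e)) ^ 2 / 2) = u s)
    {H θ T : ℝ} (hu : ∀ s, |u s| ≤ H) (hα : ∀ e, |u (tgt e) - c * σ e - u (src e)| ≤ H)
    (hy : ∀ e, |ι e + m * σ e + h (tgt e) - h (src e)| ≤ H) (hθ : |θ| ≤ 1) (hH : |θ| * H ≤ 1)
    (k : ℝ) (s : S) (t : ℝ) (ht : T ≤ t) :
    |W h u m c θ T k s t
      - ∑ e with src e = s, p e * W h u m c θ T (k + θ * ι e) (tgt e) (t + σ e)|
      ≤ 3 * (2 * H ^ 3 + 2 * H ^ 2) * |θ| ^ 3 := by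
  have θ0 := abs_nonneg θ
  have H0 : 0 ≤ H := (abs_nonneg _).trans (hu s)
  have θ2 : θ ^ 2 * H ≤ 1 := by rw [← sq_abs]; nlinarith
  set ψ := k + θ * (m * (t - T) + h s) with hψ
  set A := Real.exp (θ ^ 2 * (u s - c * (t - T))) with hA
  have A0 : 0 < A := Real.exp_pos _
  have A3 : A ≤ 3 := by
    have b1 : θ ^ 2 * (u s - c * (t - T)) ≤ 1 := by
      have c1 : 0 ≤ c * (t - T) := mul_nonneg hc (by linarith)
      have c2 : θ ^ 2 * (u s - c * (t - T)) ≤ θ ^ 2 * H :=
        mul_le_mul_of_nonneg_left (by linarith [(abs_le.1 (hu s)).2]) (sq_nonneg θ)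
      linarith
    exact (Real.exp_le_exp.2 b1).trans (by linarith [Real.exp_one_lt_d9])
  let α : E → ℝ := fun e => u (tgt e) - c * σ e - u (src e)
  let y : E → ℝ := fun e => ι e + m * σ e + h (tgt e) - h (src e)
  let q : E → ℝ := fun e =>
    Real.cos ψ * (1 + θ ^ 2 * α e - (θ * y e) ^ 2 / 2) - θ * y e * Real.sin ψ
  have e1 : ∑ e with src e = s, p e * q e = Real.cos ψ := by
    have b1 : ∀ e ∈ univ.filter (fun e => src e = s), p e * q e
        = (Real.cos ψ * (1 - θ ^ 2 * u s) + θ * Real.sin ψ * h s) * p e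
          + Real.cos ψ * θ ^ 2 * (p e * (u (tgt e) - c * σ e
            - (ι e + m * σ e + h (tgt e) - h (src e)) ^ 2 / 2))
          - θ * Real.sin ψ * (p e * (ι e + m * σ e + h (tgt e))) := by
      intro e he
      simp only [q, α, y, (mem_filter.1 he).2]
      ring
    rw [sum_congr rfl b1, sum_sub_distrib, sum_add_distrib, ← mul_sum, ← mul_sum, ← mul_sum,
      h1, h2, h3]
    ring
  have e2 : W h u m c θ T k s t
      - ∑ e with src e = s, p e * W h u m c θ T (k + θ * ι e) (tgt e) (t + σ e)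
      = -A * ∑ e with src e = s,
        p e * (Real.exp (θ ^ 2 * α e) * Real.cos (ψ + θ * y e) - q e) := by
    have b0 : W h u m c θ T k s t = A * ∑ e with src e = s, p e * q e := by rw [e1]; rfl
    rw [b0, mul_sum, mul_sum, ← sum_sub_distrib]
    refine sum_congr rfl fun e he => ?_
    have b1 : θ ^ 2 * (u (tgt e) - c * (t + σ e - T))
        = θ ^ 2 * (u s - c * (t - T)) + θ ^ 2 * α e := by
      simp only [α, (mem_filter.1 he).2]; ring
    have b2 : k + θ * ι e + θ * (m * (t + σ e - T) + h (tgt e)) = ψ + θ * y e := by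
      simp only [y, hψ, (mem_filter.1 he).2]; ring
    unfold W
    rw [b1, b2, Real.exp_add, ← hA]; ring
  have e3 : ∀ e, |Real.exp (θ ^ 2 * α e) * Real.cos (ψ + θ * y e) - q e|
      ≤ (2 * H ^ 3 + 2 * H ^ 2) * |θ| ^ 3 := by
    intro e
    have a1 : |θ ^ 2 * α e| ≤ |θ| ^ 2 * H := by
      rw [abs_mul, abs_pow]; exact mul_le_mul_of_nonneg_left (hα e) (by positivity)
    have a2 : |θ * y e| ≤ |θ| * H := by
      rw [abs_mul]; exact mul_le_mul_of_nonneg_left (hy e) θ0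
    refine (taylor (a1.trans (by rwa [sq_abs])) (a2.trans hH) ψ).trans ?_
    have a3 : |θ| ^ 4 ≤ |θ| ^ 3 := pow_le_pow_of_le_one θ0 hθ (by norm_num)
    calc 2 * |θ * y e| ^ 3 + |θ ^ 2 * α e| * |θ * y e| + (θ ^ 2 * α e) ^ 2
        = 2 * |θ * y e| ^ 3 + |θ ^ 2 * α e| * |θ * y e| + |θ ^ 2 * α e| ^ 2 := by rw [sq_abs]
      _ ≤ 2 * (|θ| * H) ^ 3 + |θ| ^ 2 * H * (|θ| * H) + (|θ| ^ 2 * H) ^ 2 := by gcongr
      _ = (2 * H ^ 3 + H ^ 2) * |θ| ^ 3 + H ^ 2 * |θ| ^ 4 := by ring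
      _ ≤ (2 * H ^ 3 + H ^ 2) * |θ| ^ 3 + H ^ 2 * |θ| ^ 3 := by gcongr
      _ = _ := by ring
  rw [e2, abs_mul, abs_neg, abs_of_pos A0, mul_assoc]
  refine mul_le_mul A3 ((abs_sum_le_sum_abs _ _).trans ?_) (abs_nonneg _) (by norm_num)
  calc _ ≤ ∑ e with src e = s, p e * ((2 * H ^ 3 + 2 * H ^ 2) * |θ| ^ 3) := by
        refine sum_le_sum fun e _ => ?_
        rw [abs_mul, abs_of_nonneg (hp e)]
        exact mul_le_mul_of_nonneg_left (e3 e) (hp e)
    _ = _ := by rw [← sum_mul, h1, one_mul]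

end Corex

/-- the comparison argument with an increment on every edge -/
def CoreG : Prop := ∀ (S E : Type) [Fintype S] [Fintype E] [DecidableEq S]
  (src tgt : E → S) (p σ ι : E → ℝ) (g h u : S → ℝ) (β m c : ℝ), 0 < β → 0 ≤ c → (∀ e, 0 ≤ p e) →
  (∀ s, ∑ e with src e = s, p e = 1) →
  (∀ s, ∑ e with src e = s, p e * (σ e + g (tgt e)) = g s - β) →
  (∀ s, ∑ e with src e = s, p e * (ι e + m * σ e + h (tgt e)) = h s) →
  (∀ s, ∑ e with src e = s, p e *
    (u (tgt e) - c * σ e - (ι e + m * σ e + h (tgt e) - h (src e)) ^ 2 / 2) = u s) →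
  ∀ (f : ℝ → ℝ → S → ℝ → ℝ) (M C t0 δ : ℝ),
  (∀ θ k s t, 0 ≤ t → |f θ k s t| ≤ M) →
  (∀ θ k s t, t0 ≤ t →
    |f θ k s t - ∑ e with src e = s, p e * f θ (k + θ * ι e) (tgt e) (t + σ e)| ≤ C / t ^ 2) →
  (∀ ε, 0 < ε → ∃ T, ∀ T', ∃ θ0, 0 < θ0 ∧ ∀ θ, |θ| ≤ θ0 → ∀ k s t, T ≤ t → t ≤ T' →
    |f θ k s t - δ * (1 + Real.cos k) / 2| ≤ ε) →
  ∀ ε B : ℝ, 0 < ε → ∃ T, ∀ t, T ≤ t → ∀ θ : ℝ, θ ^ 2 * t ≤ B → ∀ k s,
    |f θ k s t - δ * (1 + Real.exp (-(c * (θ ^ 2 * t))) * Real.cos (k + θ * (m * t))) / 2| ≤ ε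

open Corex in
theorem core_g : CoreG := by
  intro S E _ _ _ src tgt p σ ι g h u β m c hβ hc hp h1 h2 h4 h3 f M C t0 δ hM hE hI ε B hε
  set sg := ∑ e, |σ e| with hsg
  set G := ∑ s, |g s| with hG
  set H := ∑ s, |u s| + ∑ e, |u (tgt e) - c * σ e - u (src e)|
    + ∑ e, |ι e + m * σ e + h (tgt e) - h (src e)| with hH
  have le1 : ∀ {J : Type} [Fintype J] (v : J → ℝ) (x : J), |v x| ≤ ∑ y, |v y| := fun v x =>
    single_le_sum (f := fun y => |v y|) (fun y _ => abs_nonneg _) (mem_univ x)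
  have nn : ∀ {J : Type} [Fintype J] (v : J → ℝ), 0 ≤ ∑ y, |v y| := fun v =>
    sum_nonneg fun y _ => abs_nonneg _
  have hσ : ∀ e, |σ e| ≤ sg := le1 σ
  have hg : ∀ s, |g s| ≤ G := le1 g
  have n1 := nn u
  have n2 := nn fun e => u (tgt e) - c * σ e - u (src e)
  have n3 := nn fun e => ι e + m * σ e + h (tgt e) - h (src e)
  have hu : ∀ s, |u s| ≤ H := fun s => by linarith [le1 u s]
  have hα : ∀ e, |u (tgt e) - c * σ e - u (src e)| ≤ H := fun e => by
    linarith [le1 (fun e => u (tgt e) - c * σ e - u (src e)) e]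
  have hy : ∀ e, |ι e + m * σ e + h (tgt e) - h (src e)| ≤ H := fun e => by
    linarith [le1 (fun e => ι e + m * σ e + h (tgt e) - h (src e)) e]
  obtain ⟨G2, hh⟩ : ∃ G2, ∀ s, |h s| ≤ G2 := ⟨_, le1 h⟩
  have sg0 : 0 ≤ sg := nn σ
  have G0 : 0 ≤ G := nn g
  have H0 : 0 ≤ H := by linarith
  clear_value sg G H
  obtain ⟨T0, hT0⟩ := hI (ε / 8) (by positivity)
  set Z := 8 * (4 * |C| / β) / ε + 1 with hZ
  have Z0 : 0 < Z := by positivity
  have Z1 : 4 * |C| / β / Z ≤ ε / 8 := by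
    rw [div_le_iff₀ Z0, hZ]
    have : ε / 8 * (8 * (4 * |C| / β) / ε) = 4 * |C| / β := by field_simp
    rw [mul_add, this]; linarith
  clear_value Z
  obtain ⟨T, T1, T2, T3⟩ : ∃ T, t0 ≤ T ∧ T0 + sg ≤ T ∧ Z + G + sg ≤ T :=
    ⟨max t0 (max (T0 + sg) (Z + G + sg)), le_max_left _ _,
      le_max_of_le_right (le_max_left _ _), le_max_of_le_right (le_max_right _ _)⟩
  have Tp : 0 < T := by linarith
  obtain ⟨θ0, θp, hθ0⟩ := hT0 T
  set A1 := H + c * T with hA1
  set Y1 := |m| * T + |G2| with hY1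
  set D0 := |δ| / 2 * (3 * (2 * H ^ 3 + 2 * H ^ 2)) with hD0
  have A0 : 0 ≤ A1 := by positivity
  have Y0 : 0 ≤ Y1 := by positivity
  have D00 : 0 ≤ D0 := by positivity
  set Q := |δ| * (2 * A1 + Y1) + 2 * D0 * |B| / β with hQ
  have Q0 : 0 ≤ Q := by positivity
  set Hh := 1 + A1 + 8 / ε * Q with hHh
  have Hp : 0 < Hh := by positivity
  set θ1 := min θ0 (1 / Hh) with hθ1
  have θ1p : 0 < θ1 := lt_min θp (by positivity)
  refine ⟨max T (|B| / θ1 ^ 2), fun t ht θ hB k s => ?_⟩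
  have tT : T ≤ t := (le_max_left _ _).trans ht
  have tp : 0 < t := by linarith
  have hB' : θ ^ 2 * t ≤ |B| := hB.trans (le_abs_self B)
  have a1 : |θ| ≤ θ1 := by
    have b1 := (le_max_right _ _).trans ht
    rw [div_le_iff₀ (by positivity)] at b1
    have b2 : θ ^ 2 ≤ θ1 ^ 2 := le_of_mul_le_mul_right (by linarith) tp
    exact abs_le_of_sq_le_sq' b2 θ1p.le |> abs_le.2
  have v0 := abs_nonneg θ
  have a2 : |θ| * Hh ≤ 1 := (le_div_iff₀ Hp).1 (a1.trans (min_le_right _ _))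
  have yb : ∀ (x : ℝ) (s : S), |x| ≤ T → |m * x + h s| ≤ Y1 := fun x s hx =>
    (abs_add_le _ _).trans (add_le_add (by rw [abs_mul]; gcongr) ((hh s).trans (le_abs_self _)))
  have a2' : |θ| + |θ| * A1 + 8 / ε * (|θ| * Q) ≤ 1 := by rw [hHh] at a2; linarith
  have m1 : 0 ≤ |θ| * A1 := by positivity
  have m2 : 0 ≤ 8 / ε * (|θ| * Q) := by positivity
  have a3 : |θ| ≤ 1 := by linarith
  have a4 : |θ| * A1 ≤ 1 := by linarith
  have a5 : |θ| * Q ≤ ε / 8 := by
    have b1 : 8 / ε * (|θ| * Q) ≤ 1 := by linarith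
    rw [div_mul_eq_mul_div, div_le_one hε] at b1; linarith
  have a6 : |θ| * H ≤ 1 :=
    (mul_le_mul_of_nonneg_left (le_add_of_nonneg_right (mul_nonneg hc Tp.le)) v0).trans a4
  have nr : ∀ a x φ : ℝ, |a| ≤ A1 → |x| ≤ Y1 → θ ^ 2 * a ≤ 1 ∧
      |Real.exp (θ ^ 2 * a) * Real.cos (φ + θ * x) - Real.cos φ| ≤ |θ| * (2 * A1 + Y1) := by
    intro a x φ ha hx
    have b1 : |θ ^ 2 * a| ≤ |θ| * A1 := by
      rw [abs_mul, abs_pow]
      exact mul_le_mul (pow_le_of_le_one v0 a3 two_ne_zero) ha (abs_nonneg _) v0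
    have b2 : |θ * x| ≤ |θ| * Y1 := by rw [abs_mul]; gcongr
    have b3 := near (b1.trans a4) φ (θ * x)
    exact ⟨(le_abs_self _).trans (b1.trans a4), by linarith⟩
  have key : ∀ r : ℝ, |r| = 1 → r * (f θ k s t - δ * (1 + W h u m c θ T k s t) / 2)
      ≤ ε / 8 + |δ| / 2 * (|θ| * (2 * A1 + Y1)) + 4 * |C| / β / Z
        + (D0 * |θ| ^ 3 + ε * β / (16 * t)) / β * (2 * t) := by
    intro r hr
    have rr : ∀ x : ℝ, r * x ≤ |x| := fun x => by
      have := le_abs_self (r * x)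
      rwa [abs_mul, hr, one_mul] at this
    refine cmp (tgt := tgt) hp h1 hσ hg hβ h2
      (fun k s t => r * (f θ k s t - δ * (1 + W h u m c θ T k s t) / 2)) (θ := fun e => θ * ι e) (T := T)
      (M := M + |δ| * 2) (by positivity) (abs_nonneg C) (by positivity) Z0 T3 sg0 ?_ ?_ ?_ k s t tT
    · intro k s t b1 b2
      have c1 := hθ0 θ (a1.trans (min_le_left _ _)) k s t (by linarith) b2
      have c2 := (nr (u s - c * (t - T)) (m * (t - T) + h s) k
        (by
          have d1 := abs_le.1 (hu s)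
          have d2 : 0 ≤ c * (T - t) := mul_nonneg hc (by linarith)
          have d3 : c * (T - t) ≤ c * T := mul_le_mul_of_nonneg_left (by linarith) hc
          exact abs_le.2 ⟨by linarith [d1.1], by linarith [d1.2]⟩)
        (yb _ s (abs_le.2 ⟨by linarith, by linarith⟩))).2
      refine (rr _).trans ?_
      have e : f θ k s t - δ * (1 + W h u m c θ T k s t) / 2
          = (f θ k s t - δ * (1 + Real.cos k) / 2)
            - δ / 2 * (W h u m c θ T k s t - Real.cos k) := by ring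
      rw [e]
      refine (abs_sub _ _).trans (add_le_add c1 ?_)
      rw [abs_mul, abs_div, abs_two]
      exact mul_le_mul_of_nonneg_left c2 (by positivity)
    · intro k s t b1
      have c1 := hE θ k s t (by linarith)
      have c2 := W_step hp h1 hc h4 h3 hu hα hy a3 a6 k s t b1
      have e : ∑ e with src e = s, p e * (r * (f θ (k + θ * ι e) (tgt e) (t + σ e)
            - δ * (1 + W h u m c θ T (k + θ * ι e) (tgt e) (t + σ e)) / 2))
          = r * (∑ e with src e = s, p e * f θ (k + θ * ι e) (tgt e) (t + σ e)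
            - δ / 2 * (∑ e with src e = s, p e
              + ∑ e with src e = s, p e * W h u m c θ T (k + θ * ι e) (tgt e) (t + σ e))) := by
        rw [← sum_add_distrib, mul_sum, ← sum_sub_distrib, mul_sum]
        exact sum_congr rfl fun e _ => by ring
      rw [e, h1]
      have c3 := rr ((f θ k s t - ∑ e with src e = s, p e * f θ (k + θ * ι e) (tgt e) (t + σ e))
        - δ / 2 * (W h u m c θ T k s t
          - ∑ e with src e = s, p e * W h u m c θ T (k + θ * ι e) (tgt e) (t + σ e)))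
      have c4 := c3.trans (abs_sub _ _)
      rw [abs_mul, abs_div, abs_two] at c4
      have c5 := mul_le_mul_of_nonneg_left c2 (show 0 ≤ |δ| / 2 by positivity)
      have c6 : C / t ^ 2 ≤ |C| / t ^ 2 := div_le_div_of_nonneg_right (le_abs_self C) (sq_nonneg t)
      have c7 : |δ| / 2 * (3 * (2 * H ^ 3 + 2 * H ^ 2) * |θ| ^ 3) = D0 * |θ| ^ 3 := by
        rw [hD0]; ring
      linarith
    · intro k s t b1
      have c1 := hM θ k s t (by linarith)
      have c2 : |W h u m c θ T k s t| ≤ 3 := by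
        have d0 : u s - c * (t - T) ≤ A1 := by
          have d3 : c * (T - t) ≤ c * T := mul_le_mul_of_nonneg_left (by linarith) hc
          linarith [(abs_le.1 (hu s)).2]
        have d1 : θ ^ 2 * (u s - c * (t - T)) ≤ 1 :=
          (mul_le_mul_of_nonneg_left d0 (sq_nonneg θ)).trans
            (nr A1 0 0 (abs_of_nonneg A0).le (by simpa using Y0)).1
        unfold W
        rw [abs_mul, abs_of_pos (Real.exp_pos _)]
        exact (mul_le_of_le_one_right (Real.exp_pos _).le (Real.abs_cos_le_one _)).trans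
          ((Real.exp_le_exp.2 d1).trans (by linarith [Real.exp_one_lt_d9]))
      refine (rr _).trans ((abs_sub _ _).trans (add_le_add c1 ?_))
      rw [abs_div, abs_mul, abs_two]
      have c3 : |1 + W h u m c θ T k s t| ≤ 4 := by
        have := abs_le.1 c2
        exact abs_le.2 ⟨by linarith [this.1], by linarith [this.2]⟩
      have := mul_le_mul_of_nonneg_left c3 (abs_nonneg δ)
      linarith
  have k1 := key 1 abs_one
  have k2 := key (-1) (by simp)
  have f1 : (D0 * |θ| ^ 3 + ε * β / (16 * t)) / β * (2 * t)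
      ≤ |θ| * (2 * D0 * |B| / β) + ε / 8 := by
    have b1 : (D0 * |θ| ^ 3 + ε * β / (16 * t)) / β * (2 * t)
        = |θ| * (2 * D0 * (θ ^ 2 * t) / β) + ε / 8 := by
      have : |θ| ^ 3 = |θ| * θ ^ 2 := by rw [← sq_abs θ]; ring
      rw [this]; field_simp; ring
    rw [b1]; gcongr
  have f2 := (nr (u s + c * T) (m * -T + h s) (k + θ * (m * t))
    (by
      have d1 := abs_le.1 (hu s)
      have d2 : 0 ≤ c * T := mul_nonneg hc Tp.le
      exact abs_le.2 ⟨by linarith [d1.1], by linarith [d1.2]⟩)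
    (yb _ s (abs_le.2 ⟨by linarith, by linarith⟩))).2
  have f3 : |δ / 2 * (W h u m c θ T k s t
      - Real.exp (-(c * (θ ^ 2 * t))) * Real.cos (k + θ * (m * t)))|
      ≤ |δ| / 2 * (|θ| * (2 * A1 + Y1)) := by
    have e1 : θ ^ 2 * (u s - c * (t - T)) = -(c * (θ ^ 2 * t)) + θ ^ 2 * (u s + c * T) := by ring
    have e2 : k + θ * (m * (t - T) + h s) = k + θ * (m * t) + θ * (m * -T + h s) := by ring
    have e3 : Real.exp (-(c * (θ ^ 2 * t))) ≤ 1 :=
      Real.exp_le_one_iff.2 (neg_nonpos.2 (by positivity))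
    unfold W
    rw [e1, e2, Real.exp_add, mul_assoc, ← mul_sub, abs_mul, abs_mul, abs_div, abs_two,
      abs_of_pos (Real.exp_pos _)]
    exact mul_le_mul_of_nonneg_left
      ((mul_le_of_le_one_left (abs_nonneg _) e3).trans f2) (by positivity)
  have f4 := abs_le.1 f3
  have f5 : |θ| * Q = 2 * (|δ| / 2 * (|θ| * (2 * A1 + Y1)))
      + |θ| * (2 * D0 * |B| / β) := by rw [hQ]; ring
  exact abs_le.2 ⟨by linarith [f4.1], by linarith [f4.2]⟩

theorem core_st : CoreSt := by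
  intro S E _ _ _ src tgt p σ ι g G u β c m hβ hc hp h1 h2 h4 h3
  refine core_g S E src tgt p σ ι g G u β m c hβ hc hp h1 h2 (fun s => ?_) h3
  have e : ∑ e with src e = s, p e * (ι e + m * σ e + G (tgt e) - G (src e))
      = ∑ e with src e = s, p e * (ι e + m * σ e + G (tgt e)) - (∑ e with src e = s, p e) * G s := by
    rw [sum_mul, ← sum_sub_distrib]
    exact sum_congr rfl fun e he => by rw [(mem_filter.1 he).2]; ring
  have := h4 s
  rw [e, h1] at this
  linarith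

end Pool.Agent.Lib.MP_39d40e_nt.Tw
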