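import Pool.Agent.Lib.MP_39d40e_nt.TwZ

/-! Normal law of clocks on the fibres of a cocycle with values in a finite abelian group. -/

namespace Pool.Agent.Lib.MP_39d40e_nt

open Finset Filter Topology

namespace Sys

variable {S E G : Type} [Fintype S] [Fintype E] [DecidableEq S] [DecidableEq E]
  [AddCommGroup G] [Fintype G] [DecidableEq G] (X : Sys S E) (w : E → G)

/-- the skew product -/
noncomputable def skew : Sys (S × G) (E × G) where
  d := X.d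
  src e := (X.src e.1, e.2 + w e.1)
  tgt e := (X.tgt e.1, e.2)
  b e := X.b e.1
  D e := X.D e.1
  c e := X.c e.1
  π s := X.π s.1 / Fintype.card G
  d_pos := X.d_pos
  b_ne e := X.b_ne e.1
  cop e := X.cop e.1
  D_dvd e := X.D_dvd e.1
  exu s u := by
    obtain ⟨e, ⟨h1, h2⟩, h3⟩ := X.exu s.1 u
    refine ⟨(e, s.2 - w e), ⟨Prod.ext h1 (sub_add_cancel _ _), h2⟩, ?_⟩
    rintro ⟨e', j⟩ ⟨h4, h5⟩
    obtain rfl : e' = e := h3 e' ⟨congrArg Prod.fst h4, h5⟩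
    exact Prod.ext rfl (eq_sub_of_add_eq (congrArg Prod.snd h4))
  π_pos s := div_pos (X.π_pos _) (by exact_mod_cast Fintype.card_pos)
  π_sum := by
    have h : (Fintype.card G : ℝ) ≠ 0 := by exact_mod_cast Fintype.card_ne_zero
    rw [Fintype.sum_prod_type]
    simp only [sum_const, card_univ, nsmul_eq_mul, mul_div_cancel₀ _ h]
    exact X.π_sum
  stat s := by
    rw [← X.stat s.1, sum_div, sum_filter, sum_filter, Fintype.sum_prod_type]
    refine sum_congr rfl fun e _ => ?_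
    rw [sum_eq_single s.2]
    · simp only [Prod.ext_iff, and_true]
      split_ifs
      · ring
      · rfl
    · intro j _ hj
      exact if_neg fun h => hj (congrArg Prod.snd h)
    · intro h
      exact absurd (mem_univ _) h

omit [DecidableEq E] in
theorem skew_mean (f : E → ℝ) : (X.skew w).mean (fun e => f e.1) = X.mean f := by
  have h : (Fintype.card G : ℝ) ≠ 0 := by exact_mod_cast Fintype.card_ne_zero
  unfold mean
  rw [Fintype.sum_prod_type]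
  refine sum_congr rfl fun e _ => ?_
  show ∑ _j : G, X.π (X.src e) / Fintype.card G / X.D e * f e = _
  rw [sum_const, card_univ, nsmul_eq_mul]
  field_simp

omit [DecidableEq E] in
theorem skew_lab (x : (S × G) × ℤ) :
    (X.skew w).lab x = (X.lab (x.1.1, x.2), x.1.2 - w (X.lab (x.1.1, x.2))) :=
  (X.skew w).lab_eq x _ (Prod.ext (X.lab_src (x.1.1, x.2)) (sub_add_cancel _ _))
    (X.lab_dvd (x.1.1, x.2))

omit [DecidableEq E] in
theorem skew_step (x : (S × G) × ℤ) : (X.skew w).step x =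
    (((X.step (x.1.1, x.2)).1, x.1.2 - w (X.lab (x.1.1, x.2))), (X.step (x.1.1, x.2)).2) := by
  rw [step, skew_lab]
  rfl

omit [DecidableEq E] in
theorem skew_rr (l : List (E × G)) : (X.skew w).rr l = X.rr (l.map Prod.fst) := by
  unfold rr bP DP
  rw [List.map_map, List.map_map]
  rfl

variable {X}

theorem skew_lift : ∀ (l : List E) (s t : S) (j : G), X.Pa s l t →
    ∃ l' : List (E × G), (X.skew w).Pa (s, j) l' (t, j + (l.map w).sum) ∧ l'.map Prod.fst = l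
  | [], s, t, j, h => by
    obtain rfl : s = t := h.2
    exact ⟨[], by simpa using Pa.nil _, rfl⟩
  | e :: l, s, t, j, h => by
    obtain ⟨h1, h2⟩ := X.cons_mem_Paths.1 h.1
    obtain ⟨l', a1, a2⟩ := skew_lift l (X.src e) t (j + w e) ⟨h2, h.2⟩
    refine ⟨[(e, j)] ++ l', ?_, by simp [a2]⟩
    rw [List.map_cons, List.sum_cons, ← add_assoc, ← h1]
    exact (Pa.single (X := X.skew w) (e, j)).append a1

theorem Pa.reach {S E : Type} [Fintype S] [Fintype E] [DecidableEq S] [DecidableEq E]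
    {X : Sys S E} : ∀ (l : List E) (s t : S), X.Pa s l t →
    Relation.ReflTransGen (fun s t => ∃ e, X.src e = s ∧ X.tgt e = t) t s
  | [], s, t, h => by
    obtain rfl : s = t := h.2
    exact Relation.ReflTransGen.refl
  | e :: l, s, t, h => by
    obtain ⟨h1, h2⟩ := X.cons_mem_Paths.1 h.1
    exact (Pa.reach l (X.src e) t ⟨h2, h.2⟩).tail ⟨e, rfl, h1⟩

theorem sum_rep {E M : Type} [AddCommMonoid M] (f : E → M) (g : List E) (k : ℕ) :
    ((rep g k).map f).sum = k • (g.map f).sum := by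
  induction k with
  | zero => simp [rep]
  | succ k ih => rw [rep, List.map_append, List.sum_append, ih, succ_nsmul, add_comm]

theorem skew_irred (hI : X.Irred) (s1 : S)
    (hgen : ∀ j, ∃ l, X.Pa s1 l s1 ∧ (l.map w).sum = j) : (X.skew w).Irred := by
  rintro ⟨s, i⟩ ⟨t, j⟩
  obtain ⟨l1, h1⟩ := hI.conn t s1
  obtain ⟨l2, h2⟩ := hI.conn s1 s
  obtain ⟨l0, h0, e⟩ := hgen (i - j - (l1.map w).sum - (l2.map w).sum)
  obtain ⟨l', a1, -⟩ := skew_lift w _ _ _ j (h1.append (h0.append h2))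
  have e2 : j + ((l1 ++ (l0 ++ l2)).map w).sum = i := by
    simp only [List.map_append, List.sum_append, e]
    abel
  rw [e2] at a1
  exact Pa.reach _ _ _ a1

theorem skew_cycle {s : S} {l : List E} (h : X.Pa s l s) :
    ∃ l' : List (E × G), (X.skew w).Pa (s, 0) l' (s, 0) ∧
      l'.map Prod.fst = rep l (Fintype.card G) := by
  obtain ⟨l', a1, a2⟩ := skew_lift w _ _ _ 0 (h.rep (Fintype.card G))
  rw [sum_rep, card_nsmul_eq_zero, add_zero] at a1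
  exact ⟨l', a1, a2⟩

end Sys

namespace Tw

theorem sysG (h : SysSt) {S E G : Type} [Fintype S] [Fintype E] [DecidableEq S] [DecidableEq E]
    [AddCommGroup G] [Fintype G] [DecidableEq G] (X : Sys S E) (hI : X.Irred) (hN : X.Neg)
    (s0 : S) (l : List E) (hl : X.Pa s0 l s0) (hl1 : 1 < X.rr l) (β : ℝ) (hβ : β = -X.mean X.lg)
    (ι : E → ℝ) (w : E → G) (s1 : S) (hgen : ∀ j, ∃ l, X.Pa s1 l s1 ∧ (l.map w).sum = j) :
    ∃ c : ℝ, 0 ≤ c ∧
    (∀ s1 l1, X.Pa s1 l1 s1 → (l1.map ι).sum + X.mean ι / β * Real.log (X.rr l1) ≠ 0 → 0 < c) ∧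
    ∀ (χ τ : (S × G) × ℤ → ℝ) (R : ℝ), (X.skew w).Clock3 χ τ (fun e => ι e.1) R →
    ∃ δ : ℝ, ∀ ε B : ℝ, 0 < ε → ∃ N0 : ℕ, ∀ N : ℕ, N0 ≤ N → ∀ θ : ℝ, θ ^ 2 * Real.log N ≤ B →
      ∀ (k : ℝ) (s : S × G),
      |(∑ u ∈ Icc (-(N : ℤ)) N, χ (s, u) * Real.cos (θ * τ (s, u) + k)) / (2 * N)
        - δ * (Real.exp (-(c * (θ ^ 2 * Real.log N)))
          * Real.cos (k + θ * (X.mean ι / β * Real.log N)))| ≤ ε := by
  have g0 : Fintype.card G ≠ 0 := Fintype.card_ne_zero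
  obtain ⟨l', a1, a2⟩ := Sys.skew_cycle w hl
  have e : (X.skew w).mean (X.skew w).lg = X.mean X.lg := X.skew_mean w X.lg
  obtain ⟨c, c0, c1, c2⟩ := h _ _ (X.skew w) (Sys.skew_irred w hI s1 hgen)
    (lt_of_eq_of_lt e hN) (s0, 0) l' a1
    (by rw [X.skew_rr, a2, Sys.rr_rep]; exact one_lt_pow₀ hl1 g0) β (by rw [e, hβ])
    fun e => ι e.1
  rw [X.skew_mean] at c1 c2
  refine ⟨c, c0, fun s2 l1 h1 h2 => ?_, c2⟩
  obtain ⟨l2, b1, b2⟩ := Sys.skew_cycle w h1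
  refine c1 _ l2 b1 ?_
  have e1 : (l2.map fun e => ι e.1) = (l2.map Prod.fst).map ι := by rw [List.map_map]; rfl
  rw [X.skew_rr, e1, b2, Sys.sum_rep, Sys.rr_rep, Real.log_pow, nsmul_eq_mul, mul_left_comm,
    ← mul_add]
  exact mul_ne_zero (by exact_mod_cast g0) h2

theorem walkG (L : LData) {G : Type} [AddCommGroup G] (w : ZMod L.d → G) (σ : ℕ → ℕ × ℕ)
    (h0 : σ 0 ∈ L.C) (n : ℕ) (h : ∀ t < n, 0 < P L.d L.m L.r L.a (σ t) (σ (t + 1))) :
    ∃ (hn : σ n ∈ L.C) (u : List L.Ed), L.sys.Pa ⟨σ n, hn⟩ u ⟨σ 0, h0⟩ ∧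
      (u.map fun e : L.Ed => w e.1.1.1.1).sum = ∑ t ∈ range n, w (σ t).1 := by
  induction n with
  | zero => exact ⟨h0, [], Sys.Pa.nil _, by simp⟩
  | succ n ih =>
    obtain ⟨hn, u, a1, a3⟩ := ih fun t ht => h t (by omega)
    have b1 := h n (by omega)
    have hn' := L.closed _ hn _ b1
    let e : L.Ed := ⟨(⟨σ n, hn⟩, ⟨σ (n + 1), hn'⟩), (L.P_pos _ _).1 b1⟩
    refine ⟨hn', [e] ++ u, (Sys.Pa.single (X := L.sys) e).append a1, ?_⟩
    rw [List.map_append, List.sum_append, a3, sum_range_succ, add_comm]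
    simp [e]

theorem leighG (L : LData) [NeZero L.d] (Λ : ℝ)
    (hΛ0 : Λ = ∏ i : ZMod L.d,
      |(L.m i : ℝ) / L.d| ^ (∑ s ∈ L.C with (s.1 : ZMod L.d) = i, L.ρ s)) (hΛ : Λ < 1)
    (n : ℕ) (σ : ℕ → ℕ × ℕ) (h0 : σ 0 ∈ L.C) (hσn : σ n = σ 0)
    (hσ : ∀ t < n, 0 < P L.d L.m L.r L.a (σ t) (σ (t + 1)))
    (hexp : (L.d : ℤ) ^ n < ∏ t ∈ range n, |L.m (σ t).1|)
    (c : ZMod L.d → ℝ) (μ : ℝ)
    (hμ : μ = (∑ i : ZMod L.d, (∑ s ∈ L.C with (s.1 : ZMod L.d) = i, L.ρ s) * c i)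
      / (-Real.log Λ))
    (G : Type) [AddCommGroup G] [Finite G] (w : ZMod L.d → G)
    (hgen : ∀ j : G, ∃ (n' : ℕ) (σ' : ℕ → ℕ × ℕ), σ' 0 = σ 0 ∧ σ' n' = σ 0 ∧
      (∀ t < n', 0 < P L.d L.m L.r L.a (σ' t) (σ' (t + 1))) ∧ ∑ t ∈ range n', w (σ' t).1 = j) :
    ∃ κ : ℝ, 0 ≤ κ ∧
    (∀ (n' : ℕ) (σ' : ℕ → ℕ × ℕ), σ' 0 ∈ L.C → σ' n' = σ' 0 →
      (∀ t < n', 0 < P L.d L.m L.r L.a (σ' t) (σ' (t + 1))) →
      ∑ t ∈ range n', (c (σ' t).1 + μ * Real.log |(L.m (σ' t).1 : ℝ) / L.d|) ≠ 0 → 0 < κ) ∧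
    ∀ (A : Set ℤ) (τ : ℤ → ℝ) (υ : ℤ → G),
    {x : ℤ | (∃ s ∈ L.C, x ≡ s.1 [ZMOD (L.d * s.2 : ℕ)]) ∧
      ¬ ((x ∈ A ↔ T L.d L.m L.r x ∈ A) ∧ (x ∈ A → τ x = τ (T L.d L.m L.r x) + c x ∧
        υ x = υ (T L.d L.m L.r x) + w x))}.Finite →
    ∃ δ : ℝ, ∀ s ∈ L.C, ∀ (j : G) (φ : BoundedContinuousFunction ℝ ℝ), Tendsto (fun N : ℕ =>
      (∑ x ∈ Icc (-(N : ℤ)) N,
        Set.indicator {x : ℤ | x ≡ s.1 [ZMOD (L.d * s.2 : ℕ)] ∧ x ∈ A ∧ υ x = j}
        (fun x => φ ((τ x - μ * Real.log N) / Real.sqrt (Real.log N))) x)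
        / (Set.ncard {x : ℤ | |x| ≤ N ∧ x ≡ s.1 [ZMOD (L.d * s.2 : ℕ)]} : ℝ)) atTop
      (𝓝 (δ * ∫ y, φ (κ * y) ∂(ProbabilityTheory.gaussianReal 0 1))) := by
  classical
  have _ : Fintype G := Fintype.ofFinite G
  have h1 : SysSt := sys_st (harm_all mix_st good_st eq_st) const_st core_st
  have h2 : St.LevySt2 := St.levy_st2
  obtain ⟨s0, g, hg, hg1⟩ := L.exists_cycle n σ h0 hσn hσ hexp
  obtain ⟨c0, hc0, hpos, hS⟩ := sysG h1 L.sys L.irred (L.drift (hΛ0 ▸ hΛ)) s0 g hg hg1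
    (-Real.log Λ) (by rw [hΛ0, ← L.drift_log]; rfl) (fun e : L.Ed => c e.1.1.1.1)
    (fun e : L.Ed => w e.1.1.1.1) ⟨σ 0, h0⟩ (fun j => by
      obtain ⟨n', σ', e0, e1, e2, e3⟩ := hgen j
      obtain ⟨hn, u, a1, a2⟩ := walkG L w σ' (e0 ▸ h0) n' e2
      have f1 : (⟨σ' n', hn⟩ : L.St) = ⟨σ 0, h0⟩ := Subtype.ext e1
      have f2 : (⟨σ' 0, e0 ▸ h0⟩ : L.St) = ⟨σ 0, h0⟩ := Subtype.ext e0
      rw [f1, f2] at a1
      exact ⟨u, a1, a2.trans e3⟩)
  rw [Leighx.mean_cls, ← hμ] at hpos hS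
  refine ⟨Real.sqrt (2 * c0), Real.sqrt_nonneg _, fun n' σ' h0' hn' hw hne => ?_,
    fun A τ υ hA => ?_⟩
  · obtain ⟨hn, u, a1, a2, a3⟩ := Leighx.walk_sum L c σ' h0' n' hw
    have e : (⟨σ' n', hn⟩ : L.St) = ⟨σ' 0, h0'⟩ := Subtype.ext hn'
    rw [e] at a1
    rw [hn'] at a2
    have := hpos _ u a1 (by
      rw [a3, add_right_cancel a2, mul_sum, ← sum_add_distrib]; exact hne)
    exact Real.sqrt_pos.2 (by positivity)
  obtain ⟨R, hR⟩ := ((L.fin_exc2 _ hA).image fun x => |(x.2 : ℝ)|).bddAbove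
  obtain ⟨δ, hδ⟩ := hS
    (fun x => if L.val (x.1.1, x.2) ∈ A ∧ υ (L.val (x.1.1, x.2)) = x.1.2 then 1 else 0)
    (fun x => τ (L.val (x.1.1, x.2))) R
    ⟨fun x => by dsimp only; split_ifs <;> norm_num,
      fun x => by dsimp only; split_ifs <;> norm_num, fun x hx => by
      obtain ⟨y, hy⟩ : ∃ y : L.St × ℤ, y = (x.1.1, x.2) := ⟨_, rfl⟩
      have b : (L.val y ∈ A ↔ T L.d L.m L.r (L.val y) ∈ A) ∧
          (L.val y ∈ A → τ (L.val y) = τ (T L.d L.m L.r (L.val y)) + c (L.val y) ∧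
            υ (L.val y) = υ (T L.d L.m L.r (L.val y)) + w (L.val y)) := by
        by_contra hn
        exact absurd (hR ⟨y, hn, by rw [hy]⟩) (not_le.2 hx)
      have b1 : (L.sys.lab y).1.1 = y.1 := L.sys.lab_src y
      have b2 : ((L.val y : ℤ) : ZMod L.d) = (y.1.1.1 : ZMod L.d) := by
        unfold LData.val; push_cast; simp
      rw [Sys.skew_step, Sys.skew_lab, ← hy]
      simp only [Prod.mk.eta, L.val_step]
      rw [b1, ← b2, ← hy]
      refine ⟨if_congr ?_ rfl rfl, fun hne => ?_⟩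
      · rw [← b.1]
        refine and_congr_right fun hA' => ?_
        rw [(b.2 hA').2, eq_sub_iff_add_eq]
      · refine (b.2 ?_).1
        by_contra hn
        exact hne (if_neg fun h => hn h.1)⟩
  refine ⟨δ, fun s hs j φ => ?_⟩
  have hj := L.hC s hs
  set M := L.d * s.2 with hM
  have M0 : (0 : ℝ) < M := by exact_mod_cast (by omega : 0 < M)
  have ch := St.Leighx.chf M s.1 hj (fun x => if x ∈ A ∧ υ x = j then 1 else 0) τ
    (fun x => by split_ifs <;> norm_num) δ c0 1 μ⁻¹ (fun ε B hε => by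
      obtain ⟨N0, hN0⟩ := hδ ε B hε
      refine ⟨N0, fun N hN θ hθ k => ?_⟩
      have b := hN0 N hN θ hθ k (⟨s, hs⟩, j)
      have e : ∀ u : ℤ, L.val (⟨s, hs⟩, u) = (s.1 : ℤ) + (M : ℤ) * u := fun u => by
        rw [hM]; unfold LData.val; push_cast; ring
      have e' : θ * 1 * Real.log N / μ⁻¹ = θ * (μ * Real.log N) := by rw [div_inv_eq_mul]; ring
      rw [e', mul_one]
      simpa only [e] using b)
  have lv := h2 (fun N => (Icc (-(N : ℤ)) N).filter (fun x => x ≡ s.1 [ZMOD M] ∧ x ∈ A ∧ υ x = j))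
    (fun N x => (τ x - μ * Real.log N) / Real.sqrt (Real.log N))
    (2 * δ / M) (Real.sqrt (2 * c0)) (fun a k => by
      have e : (Real.sqrt (2 * c0) * a) ^ 2 / 2 = c0 * (1 * a) ^ 2 := by
        rw [mul_pow, Real.sq_sqrt (by positivity)]; ring
      rw [e]
      refine (ch a k).congr fun N => ?_
      have e' : 1 * (Real.log N / μ⁻¹) = μ * Real.log N := by rw [div_inv_eq_mul]; ring
      rw [e']
      congr 1
      rw [sum_filter, sum_filter]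
      refine sum_congr rfl fun x _ => ?_
      by_cases b1 : x ≡ s.1 [ZMOD M] <;> by_cases b2 : (x ∈ A ∧ υ x = j) <;> simp [b1, b2]) φ
  have t := lv.div (St.Leighx.cnt M s.1 hj) (by positivity)
  have e : 2 * δ / M * (∫ y, φ (Real.sqrt (2 * c0) * y) ∂(ProbabilityTheory.gaussianReal 0 1))
      / (2 / M) = δ * ∫ y, φ (Real.sqrt (2 * c0) * y)
        ∂(ProbabilityTheory.gaussianReal 0 1) := by field_simp
  rw [e] at t
  refine t.congr' ?_
  filter_upwards [eventually_gt_atTop 0] with N hN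
  have N0 : (0 : ℝ) < N := by exact_mod_cast hN
  simp only [Pi.div_apply]
  rw [div_div_div_cancel_right₀ N0.ne', sum_filter]
  congr 1
  exact sum_congr rfl fun x _ => by simp only [Set.indicator_apply, Set.mem_ofPred_eq]

end Tw

end Pool.Agent.Lib.MP_39d40e_nt
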