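import Pool.Agent.Lib.MP_39d40e_nt.Tw0

/-! Normal law of clocks with class dependent increments: the theorem for systems. -/

namespace Pool.Agent.Lib.MP_39d40e_nt.Tw

open Finset Filter Topology
open Bd (Ker F)

theorem sys_st (h1 : HarmAll) (h2 : ConstSt) (h3 : CoreSt) : SysSt := by
  intro S E _ _ _ _ X hI hN s0 l hl hl1 β hβ ι
  obtain ⟨g, G, u, c, hc, hc2, p1, p2, p3⟩ := h2 S E X hI hN β hβ ι
  have β0 : 0 < β := by rw [hβ]; exact neg_pos.2 hN
  refine ⟨c, hc, hc2, fun χ τ R hχ => ?_⟩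
  have hF : (∀ k x, 0 ≤ St.Sx.fam χ τ k x) ∧ (∀ k x, St.Sx.fam χ τ k x ≤ 1) ∧ True := by
    refine ⟨fun k x => ?_, fun k x => ?_, trivial⟩
    · have := mul_nonneg (hχ.1 x) (by linarith [Real.neg_one_le_cos (k.1 * τ x + k.2)] :
        0 ≤ 1 + Real.cos (k.1 * τ x + k.2))
      rw [St.Sx.fam]; linarith
    · have := mul_le_mul (hχ.2.1 x) (by linarith [Real.cos_le_one (k.1 * τ x + k.2)] :
        1 + Real.cos (k.1 * τ x + k.2) ≤ 2)
        (by linarith [Real.neg_one_le_cos (k.1 * τ x + k.2)]) zero_le_one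
      rw [St.Sx.fam]; linarith
  have hH := h1 S E X hI hN s0 l hl hl1 χ τ ι R hχ
  have hH0 : X.Harm χ := fun h a L hk => by
    obtain ⟨C, t0, hC⟩ := hH h a L hk
    refine ⟨C, t0, fun s t ht => ?_⟩
    simpa only [zero_mul, add_zero, St.Sx.fam_zero] using hC 0 0 s t ht
  have key : ∀ ε : ℝ, 0 < ε → ∃ δ : ℝ, ∀ B : ℝ, ∀ᶠ N : ℕ in atTop, ∀ θ : ℝ,
      θ ^ 2 * Real.log N ≤ B → ∀ (k : ℝ) (s : S),
      |(∑ u ∈ Icc (-(N : ℤ)) N, χ (s, u) * Real.cos (θ * τ (s, u) + k)) / (2 * N)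
        - δ * (Real.exp (-(c * (θ ^ 2 * Real.log N))) * Real.cos (k + θ * (X.mean ι / β * Real.log N)))|
        ≤ ε := by
    intro ε hε
    have e0 : 0 < min (ε / 48) 1 := lt_min (by positivity) one_pos
    have e1 := min_le_left (ε / 48) 1
    have hk := St.Sx.ker_ok e0 (min_le_right _ _)
    set h := St.Sx.ker (min (ε / 48) 1) with hh
    obtain ⟨δ, hδ⟩ := St.Sx.klim hI hN hl hl1 hχ.1 hχ.2.1 hH0 hk
    obtain ⟨C, t0, hC⟩ := hH _ _ _ hk
    have hlim : ∀ η : ℝ, 0 < η → ∀ᶠ t in atTop, ∀ s,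
        |F h (fun u => χ (s, u)) (Real.exp t) - δ| < η := fun η hη =>
      eventually_all.2 fun s => Metric.tendsto_nhds.1 (hδ s) η hη
    have core := h3 S E X.src X.tgt (fun e => 1 / (X.D e : ℝ)) X.lg ι g G u β c (X.mean ι / β) β0 hc
      (fun e => by positivity) X.out_sum p1 p2 p3
      (fun θ k s t => F h (fun u => St.Sx.fam χ τ (θ, k) (s, u)) (Real.exp t))
      7 (|C| * ∑ s, (X.π s)⁻¹) t0 δ
      (fun θ k s t ht => Bd.Lx.bound hk (fun u => by
        rw [abs_of_nonneg (hF.1 _ _)]; exact hF.2.1 _ _) (Real.one_le_exp ht))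
      (fun θ k s t ht => by
        have a1 := hC θ k s t ht
        have a2 := X.π_pos s
        have a3 : (X.π s)⁻¹ ≤ ∑ s, (X.π s)⁻¹ := single_le_sum (f := fun s => (X.π s)⁻¹)
          (fun s _ => (inv_pos.2 (X.π_pos s)).le) (mem_univ s)
        have a4 : ∑ e with X.src e = s, X.π (X.src e) / X.D e *
            F h (fun u => St.Sx.fam χ τ (θ, k + θ * ι e) (X.tgt e, u))
              (Real.exp (t + Real.log (|(X.b e : ℝ)| / X.D e))) =
            X.π s * ∑ e with X.src e = s, 1 / (X.D e : ℝ) *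
              F h (fun u => St.Sx.fam χ τ (θ, k + θ * ι e) (X.tgt e, u)) (Real.exp (t + X.lg e)) := by
          rw [mul_sum]
          exact sum_congr rfl fun e he => by rw [(mem_filter.1 he).2, Sys.lg]; ring
        rw [a4, ← mul_sub, abs_mul, abs_of_pos a2, ← le_inv_mul_iff₀ a2] at a1
        refine a1.trans ?_
        rw [← mul_div_assoc, mul_comm]
        exact div_le_div_of_nonneg_right (mul_le_mul (le_abs_self C) a3 (by positivity)
          (abs_nonneg C)) (sq_nonneg t))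
      (fun η hη => by
        obtain ⟨T, hT⟩ := eventually_atTop.1 (hlim (η / 2) (by positivity))
        refine ⟨max T 0, fun T' => ?_⟩
        obtain ⟨J, J0, hJ⟩ := St.Sx.strip (τ := τ) hχ.1 hχ.2.1 hk T'
        refine ⟨η / 2 / J, by positivity, fun θ hθ k s t b1 b2 => ?_⟩
        have a1 := hJ θ k s t ((le_max_right _ _).trans b1) b2
        have a2 := hT t ((le_max_left _ _).trans b1) s
        rw [le_div_iff₀ J0] at hθ
        have a3 : |(F h (fun u => χ (s, u)) (Real.exp t) - δ) * ((1 + Real.cos k) / 2)| ≤ η / 2 := by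
          rw [abs_mul]
          refine (mul_le_of_le_one_right (abs_nonneg _) (abs_le.2 ⟨?_, ?_⟩)).trans a2.le <;>
            linarith [Real.neg_one_le_cos k, Real.cos_le_one k]
        rw [abs_le] at a1 a3 ⊢
        constructor <;> linarith [a1.1, a1.2, a3.1, a3.2])
    refine ⟨δ / 2, fun B => ?_⟩
    obtain ⟨T, hT⟩ := core (ε / 4) B (by positivity)
    have l1 := Real.tendsto_log_atTop.comp tendsto_natCast_atTop_atTop
    have l2 : Tendsto (fun N : ℕ => (4 : ℝ) / N) atTop (𝓝 0) :=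
      tendsto_const_div_atTop_nhds_zero_nat 4
    filter_upwards [l1.eventually (eventually_ge_atTop T), l1.eventually (hlim (ε / 4)
      (by positivity)), l2.eventually (gt_mem_nhds (by positivity : 0 < ε / 12)),
      eventually_gt_atTop 0] with N a1 a2 a3 a4 θ hθ k s
    have b1 := hT _ a1 θ hθ k s
    have b2 := a2 s
    have b3 := St.Sx.close e0 (min_le_right _ _) (φ := fun u => St.Sx.fam χ τ (θ, k) (s, u))
      (fun u => hF.1 _ _) (fun u => hF.2.1 _ _) a4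
    have b4 := St.Sx.close e0 (min_le_right _ _) (φ := fun u => χ (s, u))
      (fun u => hχ.1 _) (fun u => hχ.2.1 _) a4
    simp only [Function.comp] at b1 b2
    rw [Real.exp_log (by exact_mod_cast a4)] at b1 b2
    have b5 : (∑ u ∈ Icc (-(N : ℤ)) N, χ (s, u) * Real.cos (θ * τ (s, u) + k)) / (2 * N) =
        2 * ((∑ u ∈ Icc (-(N : ℤ)) N, St.Sx.fam χ τ (θ, k) (s, u)) / (2 * N)) -
          (∑ u ∈ Icc (-(N : ℤ)) N, χ (s, u)) / (2 * N) := by
      rw [← mul_div_assoc, ← sub_div, mul_sum, ← sum_sub_distrib]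
      congr 1
      exact sum_congr rfl fun u _ => by rw [St.Sx.fam]; ring
    rw [← hh] at b3 b4
    rw [b5]
    rw [abs_lt] at b2
    rw [abs_le] at b1 b3 b4 ⊢
    constructor <;> linarith [b1.1, b1.2, b2.1, b2.2, b3.1, b3.2, b4.1, b4.2]
  have key0 : ∀ ε : ℝ, 0 < ε → ∃ δ : ℝ, (∀ᶠ N : ℕ in atTop,
      |(∑ u ∈ Icc (-(N : ℤ)) N, χ (s0, u)) / (2 * N) - δ| ≤ ε) ∧ ∀ B : ℝ, ∀ᶠ N : ℕ in atTop,
      ∀ θ : ℝ, θ ^ 2 * Real.log N ≤ B → ∀ (k : ℝ) (s : S),
      |(∑ u ∈ Icc (-(N : ℤ)) N, χ (s, u) * Real.cos (θ * τ (s, u) + k)) / (2 * N)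
        - δ * (Real.exp (-(c * (θ ^ 2 * Real.log N))) * Real.cos (k + θ * (X.mean ι / β * Real.log N)))|
        ≤ ε := by
    intro ε hε
    obtain ⟨δ, hδ⟩ := key ε hε
    refine ⟨δ, (hδ 0).mono fun N hN => ?_, hδ⟩
    simpa using hN 0 (by simp) 0 s0
  have hCs : CauchySeq fun N : ℕ => (∑ u ∈ Icc (-(N : ℤ)) N, χ (s0, u)) / (2 * N) := by
    refine Metric.cauchySeq_iff.2 fun ε hε => ?_
    obtain ⟨δ, hδ, -⟩ := key0 (ε / 3) (by positivity)
    obtain ⟨N0, hN0⟩ := eventually_atTop.1 hδ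
    refine ⟨N0, fun m hm n hn => ?_⟩
    have a1 := abs_le.1 (hN0 m hm)
    have a2 := abs_le.1 (hN0 n hn)
    rw [Real.dist_eq, abs_lt]
    constructor <;> linarith [a1.1, a1.2, a2.1, a2.2]
  obtain ⟨δ, hδ⟩ := cauchySeq_tendsto_of_complete hCs
  refine ⟨δ, fun ε B hε => eventually_atTop.1 ?_⟩
  obtain ⟨δ', a1, a2⟩ := key0 (ε / 3) (by positivity)
  filter_upwards [a1, a2 B, Metric.tendsto_nhds.1 hδ (ε / 3) (by positivity)]
    with N b1 b2 b3 θ hθ k s
  have b4 := b2 θ hθ k s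
  have b5 : 0 ≤ c * (θ ^ 2 * Real.log N) :=
    mul_nonneg hc (mul_nonneg (sq_nonneg θ) (Real.log_natCast_nonneg N))
  have b6 : |Real.exp (-(c * (θ ^ 2 * Real.log N))) * Real.cos (k + θ * (X.mean ι / β * Real.log N))| ≤ 1 := by
    rw [abs_mul, Real.abs_exp]
    exact mul_le_one₀ (Real.exp_le_one_iff.2 (by linarith)) (abs_nonneg _) (Real.abs_cos_le_one _)
  have b7 : |δ' - δ| ≤ 2 * (ε / 3) := by
    rw [Real.dist_eq, abs_lt] at b3
    rw [abs_le] at b1 ⊢
    constructor <;> linarith [b1.1, b1.2, b3.1, b3.2]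
  generalize Real.exp (-(c * (θ ^ 2 * Real.log N))) * Real.cos (k + θ * (X.mean ι / β * Real.log N)) = Φ at *
  have b8 : |(δ' - δ) * Φ| ≤ 2 * (ε / 3) := by
    rw [abs_mul]; exact (mul_le_of_le_one_right (abs_nonneg _) b6).trans b7
  rw [abs_le] at b4 b8 ⊢
  constructor <;> linarith [b4.1, b4.2, b8.1, b8.2]

end Pool.Agent.Lib.MP_39d40e_nt.Tw
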