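import Pool.Agent.Lib.MP_39d40e_nt.TwMix
import Pool.Agent.Lib.MP_39d40e_nt.TwGood
import Pool.Agent.Lib.MP_39d40e_nt.TwEq
import Pool.Agent.Lib.MP_39d40e_nt.TwHarm
import Pool.Agent.Lib.MP_39d40e_nt.TwConst
import Pool.Agent.Lib.MP_39d40e_nt.TwCore
import Pool.Agent.Lib.MP_39d40e_nt.TwSys
import Pool.Agent.Lib.MP_39d40e_nt.TwLeigh

/-! Normal law of clocks with class dependent increments: assembly. -/

namespace Pool.Agent.Lib.MP_39d40e_nt.Tw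

open Finset

theorem leigh_all : LeighSt :=
  leigh_st (sys_st (harm_all mix_st good_st eq_st) const_st core_st) St.levy_st2

theorem const_ne {d : ℕ} [NeZero d] (m : ZMod d → ℤ) (hm : ∀ i, m i ≠ 0) (C : Finset (ℕ × ℕ))
    (ρ : ℕ × ℕ → ℝ) (ρ_sum : ∑ s ∈ C, ρ s = 1) (Λ : ℝ)
    (hΛ : Λ = ∏ i : ZMod d, |(m i : ℝ) / d| ^ (∑ s ∈ C with (s.1 : ZMod d) = i, ρ s))
    (h1 : Λ < 1) (n : ℕ) (σ : ℕ → ℕ × ℕ) (hexp : (d : ℤ) ^ n < ∏ t ∈ range n, |m (σ t).1|)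
    (c : ZMod d → ℝ) (μ : ℝ)
    (hμ : μ = (∑ i : ZMod d, (∑ s ∈ C with (s.1 : ZMod d) = i, ρ s) * c i) / (-Real.log Λ))
    (c0 : ℝ) (h0 : c0 ≠ 0) (hc : ∀ i, c i = c0) :
    ∑ t ∈ range n, (c (σ t).1 + μ * Real.log |(m (σ t).1 : ℝ) / d|) ≠ 0 := by
  have d0 : (0 : ℝ) < d := by exact_mod_cast Nat.pos_of_ne_zero (NeZero.ne d)
  have m0 : ∀ i, 0 < |(m i : ℝ) / d| := fun i =>
    abs_pos.2 (div_ne_zero (by exact_mod_cast hm i) d0.ne')
  have Λ0 : 0 < Λ := hΛ ▸ prod_pos fun i _ => Real.rpow_pos_of_pos (m0 i) _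
  have β0 : 0 < -Real.log Λ := neg_pos.2 (Real.log_neg Λ0 h1)
  have e1 : μ = c0 / (-Real.log Λ) := by
    rw [hμ]
    simp only [hc]
    rw [← sum_mul, sum_fiberwise (s := C) (g := fun s : ℕ × ℕ => (s.1 : ZMod d)), ρ_sum, one_mul]
  have e2 : 0 < ∑ t ∈ range n, Real.log |(m (σ t).1 : ℝ) / d| := by
    rw [← Real.log_prod fun t _ => (m0 _).ne']
    refine Real.log_pos ?_
    simp only [abs_div, abs_of_pos d0]
    rw [prod_div_distrib, prod_const, card_range, one_lt_div (by positivity)]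
    exact_mod_cast hexp
  simp only [hc]
  rw [sum_add_distrib, ← mul_sum, sum_const, card_range, nsmul_eq_mul, e1]
  have e3 : (n : ℝ) * c0 + c0 / -Real.log Λ * ∑ t ∈ range n, Real.log |(m (σ t).1 : ℝ) / d|
      = c0 * (n + (∑ t ∈ range n, Real.log |(m (σ t).1 : ℝ) / d|) / -Real.log Λ) := by ring
  rw [e3]
  exact mul_ne_zero h0 (by positivity)

end Pool.Agent.Lib.MP_39d40e_nt.Tw
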