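import Pool.Agent.Lib.MP_39d40e_nt.PdF
import Pool.Agent.Lib.MP_39d40e_nt.TwZ

/-! The map `x/2`, `(3x+1)/2`: a positive proportion of the integers first reach `1` after more
than `(2 / log (4/3)) log N` steps. -/

namespace Pool.Agent.Lib.MP_39d40e_nt

open Finset Filter Topology

namespace Long

theorem cnt (B : Set ℤ) (N : ℕ) : ∑ x ∈ Icc (-(N : ℤ)) N, B.indicator (fun _ => (1 : ℝ)) x
    = (Set.ncard {x : ℤ | |x| ≤ N ∧ x ∈ B} : ℝ) := by
  classical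
  have e : {x : ℤ | |x| ≤ N ∧ x ∈ B} = ↑((Icc (-(N : ℤ)) N).filter fun x => x ∈ B) := by
    ext x; simp [abs_le]
  rw [e, Set.ncard_coe_finset]
  simp only [Set.indicator_apply]
  rw [sum_boole]

theorem fin (p : ℤ → Prop) (N : ℕ) : {x : ℤ | |x| ≤ N ∧ p x}.Finite :=
  (Set.finite_Icc (-(N : ℤ)) N).subset fun _ hx => abs_le.1 hx.1

/-- the number of even integers up to `N` -/
noncomputable def ev (N : ℕ) : ℝ :=
  (Set.ncard {x : ℤ | |x| ≤ N ∧ x ≡ ((0 : ℕ) : ℤ) [ZMOD ((2 * 1 : ℕ) : ℤ)]} : ℝ)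

theorem ev_le (N : ℕ) : ev N ≤ 2 * N + 1 := by
  have h := Set.ncard_le_ncard (s := {x : ℤ | |x| ≤ N ∧ x ≡ ((0 : ℕ) : ℤ) [ZMOD ((2 * 1 : ℕ) : ℤ)]})
    (t := ↑(Icc (-(N : ℤ)) N)) (fun x hx => by simpa using abs_le.1 hx.1) (finite_toSet _)
  rw [Set.ncard_coe_finset, Int.card_Icc] at h
  have h2 : ((N : ℤ) + 1 - -(N : ℤ)).toNat = 2 * N + 1 := by omega
  rw [h2] at h
  unfold ev
  exact_mod_cast h

theorem ev_ge (N : ℕ) : (N : ℝ) / 2 ≤ ev N := by
  have h := Set.ncard_le_ncard_of_injOn (s := (↑(range (N / 2 + 1)) : Set ℕ))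
    (t := {x : ℤ | |x| ≤ N ∧ x ≡ ((0 : ℕ) : ℤ) [ZMOD ((2 * 1 : ℕ) : ℤ)]}) (fun i => 2 * (i : ℤ))
    (fun i hi => by
      have : i < N / 2 + 1 := by simpa using hi
      exact ⟨abs_le.2 ⟨by omega, by omega⟩, by unfold Int.ModEq; omega⟩)
    (fun i _ j _ h => by simp only at h; omega) (fin _ N)
  rw [Set.ncard_coe_finset, card_range] at h
  have h2 : N ≤ 2 * Set.ncard {x : ℤ | |x| ≤ N ∧ x ≡ ((0 : ℕ) : ℤ) [ZMOD ((2 * 1 : ℕ) : ℤ)]} := by
    omega
  have h3 : (N : ℝ) ≤ 2 * ev N := by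
    unfold ev
    exact_mod_cast h2
  linarith

/-- the cut function -/
noncomputable def cut : BoundedContinuousFunction ℝ ℝ :=
  BoundedContinuousFunction.mkOfBound ⟨fun u => min (max u 0) 1, by fun_prop⟩ 1 fun x y => by
    have a1 : 0 ≤ min (max x 0) 1 := le_min (le_max_right _ _) zero_le_one
    have a2 : 0 ≤ min (max y 0) 1 := le_min (le_max_right _ _) zero_le_one
    have a3 := min_le_right (max x 0) 1
    have a4 := min_le_right (max y 0) 1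
    rw [Real.dist_eq, abs_le]
    constructor <;> simp only [ContinuousMap.coe_mk] <;> linarith

theorem cut_apply (u : ℝ) : cut u = min (max u 0) 1 := rfl

theorem cut_pos {κ : ℝ} (h : 0 < κ) :
    0 < ∫ y, cut (κ * y) ∂(ProbabilityTheory.gaussianReal 0 1) := by
  have : (ProbabilityTheory.gaussianReal 0 1).IsOpenPosMeasure :=
    (ProbabilityTheory.gaussianReal_absolutelyContinuous' 0 one_ne_zero).isOpenPosMeasure
  refine MeasureTheory.integral_pos_of_integrable_nonneg_nonzero (x := 1) (by fun_prop)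
    ((cut.compContinuous ⟨fun y => κ * y, by fun_prop⟩).integrable _)
    (fun y => le_min (le_max_right _ _) zero_le_one) (ne_of_gt ?_)
  rw [cut_apply, mul_one]
  exact lt_min (lt_max_of_lt_left h) one_pos

theorem clt : ∃ κ : ℝ, 0 < κ ∧ ∀ (A : Set ℤ) (τ : ℤ → ℝ),
    {x : ℤ | ¬ ((x ∈ A ↔ T 2 cm cr x ∈ A) ∧ (x ∈ A → τ x = τ (T 2 cm cr x) + 1))}.Finite →
    ∃ δ : ℝ, ∀ φ : BoundedContinuousFunction ℝ ℝ, Tendsto (fun N : ℕ =>
      (∑ x ∈ Icc (-(N : ℤ)) N,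
        Set.indicator {x : ℤ | x ≡ ((0 : ℕ) : ℤ) [ZMOD ((2 * 1 : ℕ) : ℤ)] ∧ x ∈ A}
        (fun x => φ ((τ x - 2 / Real.log (4 / 3) * Real.log N) / Real.sqrt (Real.log N))) x)
        / ev N) atTop
      (𝓝 (δ * ∫ y, φ (κ * y) ∂(ProbabilityTheory.gaussianReal 0 1))) := by
  have mem : ∀ s : ℕ × ℕ, s ∈ ({(0, 1), (1, 1)} : Finset (ℕ × ℕ)) ↔ s.1 < 2 ∧ s.2 = 1 := by
    rintro ⟨i, j⟩; simp; omega
  have pos : ∀ s s' : ℕ × ℕ, s.2 = 1 → (0 < P 2 cm cr (fun _ => 1) s s' ↔ s'.1 < 2 ∧ s'.2 = 1) := by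
    intro s s' h; rw [cP_eq _ _ h]; split_ifs with h1
    · exact iff_of_true (by norm_num) h1
    · exact iff_of_false (lt_irrefl _) h1
  let L : LData := ⟨2, le_rfl, cm, cr, cm, fun _ => 1, by decide, by decide, by simp,
    (by
      intro i; unfold cm; split_ifs
      · exact isCoprime_one_left
      · exact ⟨1, -1, by norm_num⟩), {(0, 1), (1, 1)},
    fun s hs => by have := (mem s).1 hs; omega,
    fun s hs s' h => (mem s').2 ((pos s s' ((mem s).1 hs).2).1 h),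
    fun s hs s' hs' => Relation.ReflTransGen.single ((pos s s' ((mem s).1 hs).2).2 ((mem s').1 hs')),
    fun _ => 1 / 2, fun _ _ => by norm_num, by norm_num,
    fun s' hs' => by
      rw [sum_pair (by decide), cP_eq _ _ rfl, cP_eq _ _ rfl, if_pos ((mem s').1 hs')]; norm_num⟩
  have e : (univ : Finset (ZMod 2)) = {0, 1} := by decide
  have m1 : (1, 1) ∈ ({(0, 1), (1, 1)} : Finset (ℕ × ℕ)) := by decide
  have m0 : (0, 1) ∈ ({(0, 1), (1, 1)} : Finset (ℕ × ℕ)) := by decide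
  have f0 : ({(0, 1), (1, 1)} : Finset (ℕ × ℕ)).filter (fun s => (s.1 : ZMod 2) = 0)
    = {(0, 1)} := by decide
  have f1 : ({(0, 1), (1, 1)} : Finset (ℕ × ℕ)).filter (fun s => (s.1 : ZMod 2) = 1)
    = {(1, 1)} := by decide
  have g0 : cm 0 = 1 := by decide
  have g1 : cm 1 = 3 := by decide
  have hΛ : (3 / 4 : ℝ) ^ (1 / 2 : ℝ) = ∏ i : ZMod 2, |(cm i : ℝ) / (2 : ℕ)| ^
      (∑ _s ∈ ({(0, 1), (1, 1)} : Finset (ℕ × ℕ)) with (_s.1 : ZMod 2) = i, (1 / 2 : ℝ)) := by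
    rw [e, prod_pair (by decide), f0, f1, sum_singleton, sum_singleton,
      ← Real.mul_rpow (abs_nonneg _) (abs_nonneg _), g0, g1]
    norm_num
  have h1 : (3 / 4 : ℝ) ^ (1 / 2 : ℝ) < 1 := Real.rpow_lt_one (by norm_num) (by norm_num) (by norm_num)
  have hμ : 2 / Real.log (4 / 3) = (∑ i : ZMod 2, (∑ _s ∈ ({(0, 1), (1, 1)} : Finset (ℕ × ℕ))
      with (_s.1 : ZMod 2) = i, (1 / 2 : ℝ)) * 1) / (-Real.log ((3 / 4 : ℝ) ^ (1 / 2 : ℝ))) := by
    rw [e, sum_pair (by decide), f0, f1, sum_singleton, sum_singleton,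
      Real.log_rpow (by norm_num), show (3 / 4 : ℝ) = (4 / 3)⁻¹ by norm_num, Real.log_inv]
    have := Real.log_pos (show (1 : ℝ) < 4 / 3 by norm_num)
    field_simp
    norm_num
  have hexp : ((2 : ℕ) : ℤ) ^ 1 < ∏ _t ∈ range 1, |cm ((1 : ℕ) : ZMod 2)| := by decide
  have hw : ∀ t < 1, 0 < P 2 cm cr (fun _ => 1) (1, 1) (1, 1) := fun _ _ =>
    (pos _ _ rfl).2 (by decide)
  obtain ⟨κ, -, k1, k2⟩ := @Tw.leigh_all L (inferInstanceAs (NeZero 2)) _ hΛ h1 1 (fun _ => (1, 1)) m1 rfl hw hexp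
    (fun _ => 1) _ hμ
  refine ⟨κ, k1 1 (fun _ => (1, 1)) m1 rfl hw
    (Tw.const_ne cm (by decide) _ (fun _ => 1 / 2) (by norm_num) _ hΛ h1 1 (fun _ => (1, 1)) hexp
      (fun _ => 1) _ hμ 1 one_ne_zero fun _ => rfl), fun A τ h => ?_⟩
  obtain ⟨δ, hδ⟩ := k2 A τ (h.subset fun x hx => hx.2)
  exact ⟨δ, hδ (0, 1) m0⟩

end Long

open Long in
theorem collatz_long : ∃ c : ℝ, 0 < c ∧ ∀ᶠ N : ℕ in atTop,
    c * N ≤ (Set.ncard {x : ℤ | |x| ≤ N ∧ ∃ j : ℕ,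
      (fun x : ℤ => if x % 2 = 0 then x / 2 else (3 * x + 1) / 2)^[j] x = 1 ∧
      (∀ i < j, (fun x : ℤ => if x % 2 = 0 then x / 2 else (3 * x + 1) / 2)^[i] x ≠ 1) ∧
      2 / Real.log (4 / 3) * Real.log N < j} : ℝ) := by
  classical
  have hf : (fun x : ℤ => if x % 2 = 0 then x / 2 else (3 * x + 1) / 2) = T 2 cm cr :=
    funext fun x => (cT x).symm
  obtain ⟨c, hc, hb⟩ := collatz_basin 1 (by decide)
  rw [hf] at hb ⊢
  obtain ⟨κ, k0, hk⟩ := clt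
  set A : Set ℤ := {x | ∃ j : ℕ, (T 2 cm cr)^[j] x = 1} with hA
  set τ : ℤ → ℝ := fun x => if h : ∃ j : ℕ, (T 2 cm cr)^[j] x = 1 then (Nat.find h : ℝ) else 0
    with hτ
  obtain ⟨δ, hδ⟩ := hk A τ ((Set.finite_singleton (1 : ℤ)).subset fun x hx => by
    by_contra h1
    have h1' : x ≠ 1 := h1
    have up : x ∈ A → T 2 cm cr x ∈ A := by
      rintro ⟨j, hj⟩
      cases j with
      | zero => exact absurd hj h1'
      | succ j => exact ⟨j, hj⟩
    refine hx ⟨⟨up, fun ⟨j, hj⟩ => ⟨j + 1, hj⟩⟩, fun h => ?_⟩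
    have h' : ∃ j : ℕ, (T 2 cm cr)^[j] x = 1 := h
    have h2 : ∃ j : ℕ, (T 2 cm cr)^[j] (T 2 cm cr x) = 1 := up h
    simp only [hτ, dif_pos h', dif_pos h2]
    have := Nat.find_comp_succ h' h2 h1'
    exact_mod_cast this)
  have d0 : c / 5 ≤ δ := by
    have t1 := (hδ 1).comp (tendsto_id.const_mul_atTop' (two_pos : 0 < 2))
    simp only [BoundedContinuousFunction.coe_one, Pi.one_apply, MeasureTheory.integral_const,
      MeasureTheory.probReal_univ, smul_eq_mul, mul_one] at t1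
    refine ge_of_tendsto t1 ((hb.and (eventually_ge_atTop 1)).mono fun N hN => ?_)
    obtain ⟨n1, n2⟩ := hN
    have N1 : (1 : ℝ) ≤ N := by exact_mod_cast n2
    simp only [Function.comp, id]
    rw [cnt]
    have a1 := ev_le (2 * N)
    have a2 := ev_ge (2 * N)
    have a3 := Set.ncard_le_ncard_of_injOn (s := {x : ℤ | |x| ≤ N ∧ ∃ j : ℕ, (T 2 cm cr)^[j] x = 1})
      (t := {x : ℤ | |x| ≤ (2 * N : ℕ) ∧
        x ∈ {x : ℤ | x ≡ ((0 : ℕ) : ℤ) [ZMOD ((2 * 1 : ℕ) : ℤ)] ∧ x ∈ A}}) (fun x => 2 * x)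
      (fun x hx => by
        obtain ⟨b1, j, b2⟩ := hx
        have b3 := abs_le.1 b1
        refine ⟨abs_le.2 ⟨by omega, by omega⟩, by unfold Int.ModEq; omega, j + 1, ?_⟩
        rw [Function.iterate_succ_apply, cT, if_pos (by omega),
          Int.mul_ediv_cancel_left _ two_ne_zero, b2])
      (fun i _ j _ h => by simp only at h; omega) (fin _ _)
    have a4 := n1.trans (Nat.cast_le.2 a3)
    push_cast at a1 a2
    rw [le_div_iff₀ (by push_cast; linarith)]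
    refine le_trans ?_ a4
    push_cast
    nlinarith
  have I0 := cut_pos k0
  set I := ∫ y, cut (κ * y) ∂(ProbabilityTheory.gaussianReal 0 1) with hI
  have p0 : 0 < δ * I := mul_pos (by linarith) I0
  refine ⟨δ * I / 4, by positivity, (((hδ cut).eventually (lt_mem_nhds (half_lt_self p0))).and
    (eventually_ge_atTop 1)).mono fun N hN => ?_⟩
  obtain ⟨n1, n2⟩ := hN
  have N1 : (1 : ℝ) ≤ N := by exact_mod_cast n2
  have a2 := ev_ge N
  rw [lt_div_iff₀ (by linarith)] at n1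
  have a3 := cnt {x : ℤ | ∃ j : ℕ, (T 2 cm cr)^[j] x = 1 ∧ (∀ i < j, (T 2 cm cr)^[i] x ≠ 1) ∧
    2 / Real.log (4 / 3) * Real.log N < j} N
  refine le_trans ?_ (le_of_eq a3)
  have a4 : δ * I / 4 * N ≤ δ * I / 2 * ev N := by nlinarith
  refine le_trans (a4.trans n1.le) (sum_le_sum fun x _ => ?_)
  refine Set.indicator_apply_le' (fun hx => ?_) fun _ => Set.indicator_nonneg (fun _ _ => zero_le_one) _
  have h' : ∃ j : ℕ, (T 2 cm cr)^[j] x = 1 := hx.2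
  by_cases h : 2 / Real.log (4 / 3) * Real.log N < (Nat.find h' : ℝ)
  · rw [Set.indicator_of_mem]
    · exact min_le_right _ _
    · exact ⟨Nat.find h', Nat.find_spec h', fun i hi => Nat.find_min h' hi, h⟩
  · refine le_trans (le_of_eq ?_) (Set.indicator_nonneg (fun _ _ => zero_le_one) _)
    simp only [hτ, dif_pos h']
    rw [cut_apply, max_eq_right (div_nonpos_of_nonpos_of_nonneg (by linarith) (Real.sqrt_nonneg _)),
      min_eq_left zero_le_one]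

end Pool.Agent.Lib.MP_39d40e_nt
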