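import Pool.Agent.Lib.MP_39d40e_nt.Tw0

/-! The mixing estimate with unimodular weights on the paths. -/

namespace Pool.Agent.Lib.MP_39d40e_nt

open Finset ZMod

namespace Sys

variable {S E : Type} [Fintype S] [Fintype E] [DecidableEq S] [DecidableEq E] {X : Sys S E}
  {Q : ℕ}

/-- the unimodular weight of a path -/
noncomputable def tw {E : Type} (v : ℝ) (ι : E → ℝ) (l : List E) : ℂ :=
  Complex.exp ((v * (l.map ι).sum : ℝ) * Complex.I)

theorem norm_tw {E : Type} (v : ℝ) (ι : E → ℝ) (l : List E) : ‖tw v ι l‖ = 1 :=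
  Complex.norm_exp_ofReal_mul_I _

theorem tw_append {E : Type} (v : ℝ) (ι : E → ℝ) (o i : List E) :
    tw v ι (o ++ i) = tw v ι o * tw v ι i := by
  simp only [tw, List.map_append, List.sum_append]
  rw [← Complex.exp_add]
  congr 1
  push_cast
  ring

theorem re_tw {E : Type} (v φ w x : ℝ) (ι : E → ℝ) (l : List E) :
    (Complex.exp ((φ : ℝ) * Complex.I) * ((w : ℂ) * (tw v ι l * (x : ℂ)))).re
      = w * (Real.cos (φ + v * (l.map ι).sum) * x) := by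
  have : Complex.exp ((φ : ℝ) * Complex.I) * ((w : ℂ) * (tw v ι l * (x : ℂ)))
      = ((w * x : ℝ) : ℂ) * Complex.exp (((φ + v * (l.map ι).sum : ℝ) : ℂ) * Complex.I) := by
    rw [tw, Complex.ofReal_add, add_mul, Complex.exp_add, Complex.ofReal_mul w x]
    ring
  rw [this, Complex.re_ofReal_mul, Complex.exp_ofReal_mul_I_re]
  ring

variable (X) in
/-- twisted characteristic function of the offset -/
noncomputable def PhiW [NeZero Q] (v : ℝ) (ι : E → ℝ) (n : ℕ) (s : S) (a : ZMod Q)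
    (G : S → ℤ → ℕ → ℂ) : ℂ :=
  ∑ l ∈ X.Paths n s, (X.wt l : ℂ) * (tw v ι l *
    (stdAddChar (a * X.off Q l) * G (X.endp s l) (X.bP l) (X.DP l)))

theorem PhiW_succ [NeZero Q] (hQ : X.d.Coprime Q) (v : ℝ) (ι : E → ℝ) (n : ℕ) (s : S) (a : ZMod Q)
    (G : S → ℤ → ℕ → ℂ) : X.PhiW v ι (n + 1) s a G = ∑ e ∈ X.into s, (X.q e : ℂ) *
      (tw v ι [e] * (stdAddChar (a * X.off Q [e]) * X.PhiW v ι n (X.src e) (X.act [e] a)
        fun t M D => G t (X.b e * M) (X.D e * D))) := by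
  simp only [PhiW, sum_Paths_succ, Finset.mul_sum]
  refine Finset.sum_congr rfl fun e _ => Finset.sum_congr rfl fun l _ => ?_
  have := off_append hQ [e] l
  have h2 := tw_append v ι [e] l
  rw [List.singleton_append] at this h2
  rw [this, h2, mul_add, mul_act, AddChar.map_add_eq_mul, wt_cons, endp_cons, bP_cons, DP_cons]
  push_cast; ring

theorem norm_PhiW_le [NeZero Q] (v : ℝ) (ι : E → ℝ) (n : ℕ) (s : S) (a : ZMod Q)
    {G : S → ℤ → ℕ → ℂ} (hG : ∀ t M D, ‖G t M D‖ ≤ 1) : ‖X.PhiW v ι n s a G‖ ≤ 1 := by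
  refine (norm_sum_le _ _).trans ?_
  refine le_trans (Finset.sum_le_sum fun l _ => ?_) (X.Ex_const n s 1).le
  rw [norm_mul, norm_mul, norm_tw, one_mul, norm_mul, norm_psi, one_mul, Complex.norm_real,
    Real.norm_of_nonneg (X.wt_pos l).le]
  exact mul_le_mul_of_nonneg_left (hG _ _ _) (X.wt_pos l).le

/-- super-polynomial decay of the characteristic function -/
theorem phi_decayW (h : X.Good) {ι : E → ℝ} (hW : X.ParaW ι) {B : ℕ} {ρ₁ ρ₂ : ℝ} (hB : B ≠ 0) (hρ₁ : 0 < ρ₁) (hρ : ρ₁ < ρ₂)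
    (hBp : ∀ p : ℕ, p.Prime → p ∣ X.B0 → p ∣ B)
    (hup : X.Small fun n l => ∃ j : ℕ, ρ₁ * n ≤ j ∧ ¬ X.bP l ∣ (B : ℤ) ^ j)
    (hdn : X.Small fun n l => ∃ j : ℕ, (j : ℝ) ≤ ρ₂ * n ∧ X.DP l ≤ B ^ j) (A : ℕ) :
    ∃ C : ℝ, 0 ≤ C ∧ ∀ (v : ℝ) (Q : ℕ) [NeZero Q], X.d.Coprime Q → (∃ N, Q ∣ B ^ N) →
    ∀ (n : ℕ) (s : S) (a : ZMod Q) (G : S → ℤ → ℕ → ℂ), (∀ t M D, ‖G t M D‖ ≤ 1) →
    (∀ t M D, G t M D ≠ 0 → (X.B0 : ZMod Q) * (M : ℤ) * a = 0) →
    ∀ m : ℕ, (B : ZMod Q) ^ m * a ≠ 0 → ‖X.PhiW v ι n s a G‖ ≤ C / ((m : ℝ) + 1) ^ A := by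
  classical
  choose e₁ e₂ hne ht₁ ht₂ hsrc hb hD hι using hW
  set Δ : ℤ := ∏ s, (X.c (e₁ s) - X.c (e₂ s)) with hΔ
  have hΔ0 : Δ ≠ 0 := Finset.prod_ne_zero_iff.2 fun s _ h0 => by
    have := X.path_eq_of_cP (n := 1) (s := s) (l := [e₁ s]) (l' := [e₂ s])
      (X.cons_mem_Paths.2 ⟨ht₁ s, by simp⟩) (X.cons_mem_Paths.2 ⟨ht₂ s, by simp⟩)
      (by simp [hsrc s]) (by simp [hb s]) (by simp [hD s]) (by simpa using sub_eq_zero.1 h0)
    exact hne s (List.cons.inj this).1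
  set j₀ := Δ.natAbs + X.B0 with hj₀
  set K : ℕ := X.kap * Δ.natAbs * X.d with hK
  have hK2 : 2 ≤ K := by
    have h1 : 2 ≤ X.kap := by have := X.d_pos; have := X.B0_pos; simp only [kap]; omega
    have h2 := Int.natAbs_pos.2 hΔ0
    have h3 := X.d_pos
    calc 2 = 2 * 1 * 1 := rfl
      _ ≤ _ := Nat.mul_le_mul (Nat.mul_le_mul h1 h2) h3
  have hK' : (2 : ℝ) ≤ K := by exact_mod_cast hK2
  set q₀ : ℝ := ∏ e, X.q e with hq₀
  have hq1 : ∀ e, X.q e ≤ 1 := fun e => (Finset.single_le_sum (fun e _ => (X.q_pos e).le)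
    (X.mem_into.2 rfl)).trans (X.sum_q (X.tgt e)).le
  have hq₀0 : 0 < q₀ := Finset.prod_pos fun e _ => X.q_pos e
  have hq₀1 : ∀ e, q₀ ≤ X.q e := fun e => by
    rw [hq₀, ← Finset.mul_prod_erase _ _ (mem_univ e)]
    exact mul_le_of_le_one_right (X.q_pos e).le
      (Finset.prod_le_one (fun e _ => (X.q_pos e).le) fun e _ => hq1 e)
  have hq₀2 : q₀ ≤ 1 := Finset.prod_le_one (fun e _ => (X.q_pos e).le) fun e _ => hq1 e
  have hc0 : 0 < 2 / (K : ℝ) ^ 2 := by positivity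
  have hc1 : 2 / (K : ℝ) ^ 2 < 1 := by rw [div_lt_one (by positivity)]; nlinarith
  obtain ⟨C, hC, hdec⟩ := decay h hB hρ₁ hρ hup hdn j₀ (θ := 1 - q₀ * (2 / (K : ℝ) ^ 2))
    (by nlinarith) (by nlinarith) A
  refine ⟨C, hC, ?_⟩
  intro v Q _ hQ ⟨N, hN⟩
  set adm : ZMod Q → (S → ℤ → ℕ → ℂ) → Prop := fun a G => (∀ t M D, ‖G t M D‖ ≤ 1) ∧
    ∀ t M D, G t M D ≠ 0 → (X.B0 : ZMod Q) * (M : ℤ) * a = 0 with hadm
  have hne' : ∀ a, Nonempty (ℕ × {G // adm a G}) := fun a => ⟨(0, ⟨0, by simp [hadm]⟩)⟩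
  set F : S → ZMod Q → ℝ := fun s a => if (B : ZMod Q) ^ j₀ * a = 0 then 1 else
    ⨆ x : ℕ × {G // adm a G}, ‖X.PhiW v ι x.1 s a x.2‖ with hF
  have hbdd : ∀ s a, BddAbove (Set.range fun x : ℕ × {G // adm a G} => ‖X.PhiW v ι x.1 s a x.2‖) :=
    fun s a => ⟨1, by rintro _ ⟨x, rfl⟩; exact norm_PhiW_le _ _ _ _ _ x.2.2.1⟩
  have hΦF : ∀ n s a G, adm a G → ‖X.PhiW v ι n s a G‖ ≤ F s a := by
    intro n s a G hG
    simp only [hF]
    split_ifs
    · exact norm_PhiW_le _ _ _ _ _ hG.1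
    · exact le_ciSup (hbdd s a) (n, ⟨G, hG⟩)
  have hF0 : ∀ s a, 0 ≤ F s a := fun s a =>
    (norm_nonneg _).trans (hΦF 0 s a 0 (by simp [hadm]))
  have hF1 : ∀ s a, F s a ≤ 1 := by
    intro s a
    simp only [hF]
    split_ifs
    · exact le_rfl
    · have := hne' a
      exact ciSup_le fun x => norm_PhiW_le _ _ _ _ _ x.2.2.1
  set w₀ : S → ZMod Q → ℝ := fun s a =>
    ‖(stdAddChar (a * X.off Q [e₁ s]) : ℂ) + stdAddChar (a * X.off Q [e₂ s])‖ / 2 with hw₀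
  have hw₀1 : ∀ s a, w₀ s a ≤ 1 := fun s a => by
    have := norm_add_le (stdAddChar (a * X.off Q [e₁ s]) : ℂ) (stdAddChar (a * X.off Q [e₂ s]))
    rw [norm_psi, norm_psi] at this
    simp only [hw₀]; linarith
  set w : E → ZMod Q → ℝ := fun e a => if (B : ZMod Q) ^ j₀ * a = 0 then 1 else
    if e = e₁ (X.tgt e) ∨ e = e₂ (X.tgt e) then w₀ (X.tgt e) a else 1 with hw
  have hw0 : ∀ e a, 0 ≤ w e a := fun e a => by
    simp only [hw, hw₀]; split_ifs <;> positivity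
  have hw1 : ∀ e a, w e a ≤ 1 := fun e a => by
    simp only [hw]; split_ifs
    exacts [le_rfl, hw₀1 _ _, le_rfl]
  have hkill : ∀ (g : ℕ) (a : ZMod Q), g ≠ 0 → g ≤ j₀ → (∀ p : ℕ, p.Prime → p ∣ g → p ∣ B) →
      (g : ZMod Q) * a = 0 → (B : ZMod Q) ^ j₀ * a = 0 := by
    intro g a hg hgj hp h0
    obtain ⟨t, ht⟩ := dvd_pow_of_primes hg hB hp hgj
    rw [← Nat.cast_pow, ht, Nat.cast_mul, mul_right_comm, h0, zero_mul]
  intro n s a G hG1 hG2 m hm
  refine (hΦF n s a G ⟨hG1, hG2⟩).trans (hdec Q hQ ⟨N, ?_⟩ (Δ : ZMod Q) ?_ F w hF0 hF1 hw0 hw1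
    ?_ ?_ s a m hm)
  · rw [← Nat.cast_pow, ZMod.natCast_eq_zero_iff]; exact hN
  · intro a ha
    refine hkill (Int.gcd Δ Q) a (Int.gcd_pos_of_ne_zero_left _ hΔ0).ne' ?_ ?_ ?_
    · exact (Nat.le_of_dvd (Int.natAbs_pos.2 hΔ0) (Nat.gcd_dvd_left _ _)).trans
        (Nat.le_add_right _ _)
    · intro p hp hd
      exact hp.dvd_of_dvd_pow ((hd.trans (Nat.gcd_dvd_right _ _)).trans hN)
    · have := congrArg (Int.cast : ℤ → ZMod Q) (Int.gcd_eq_gcd_ab Δ Q)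
      push_cast at this
      rw [this, ZMod.natCast_self]
      linear_combination (Int.gcdA Δ Q : ZMod Q) * ha
  · intro s a
    by_cases h0 : (B : ZMod Q) ^ j₀ * a = 0
    · have h1 : ∀ e, (B : ZMod Q) ^ j₀ * X.act [e] a = 0 := fun e => by
        rw [← act_mul, h0]; simp [act]
      simp only [hF, hw, h0, h1, if_true, mul_one, sum_q, le_refl]
    · have := hne' a
      conv_lhs => simp only [hF, if_neg h0]
      refine ciSup_le ?_
      rintro ⟨n, G, hG⟩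
      cases n with
      | zero =>
        have h1 : G s 1 1 = 0 := by
          by_contra h1
          exact h0 (hkill X.B0 a X.B0_pos.ne' (Nat.le_add_left _ _) hBp
            (by simpa using hG.2 s 1 1 h1))
        refine le_trans (le_of_eq (by simp [PhiW, h1])) (Finset.sum_nonneg fun e _ => ?_)
        exact mul_nonneg (X.q_pos e).le (mul_nonneg (hw0 _ _) (hF0 _ _))
      | succ n =>
        have hadm' : ∀ e, adm (X.act [e] a) fun t M D => G t (X.b e * M) (X.D e * D) := by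
          intro e
          refine ⟨fun t M D => hG.1 _ _ _, fun t M D hne => ?_⟩
          have := hG.2 _ _ _ hne
          simp only [act, bP_cons, bP_nil, mul_one]
          push_cast at this
          linear_combination X.iD Q [e] * this
        have hsub : {e₁ s, e₂ s} ⊆ X.into s := by
          intro e he
          rcases mem_insert.1 he with rfl | he
          · exact X.mem_into.2 (ht₁ s)
          · rw [mem_singleton.1 he]; exact X.mem_into.2 (ht₂ s)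
        simp only
        rw [PhiW_succ hQ, ← Finset.sum_sdiff hsub, ← Finset.sum_sdiff hsub,
          Finset.sum_pair (hne s), Finset.sum_pair (hne s)]
        refine (norm_add_le _ _).trans (add_le_add ?_ ?_)
        · refine (norm_sum_le _ _).trans (Finset.sum_le_sum fun e he => ?_)
          have h1 : w e a = 1 := by
            obtain ⟨h2, h3⟩ := mem_sdiff.1 he
            simp only [hw, X.mem_into.1 h2]
            rw [if_neg h0, if_neg (by simpa using h3)]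
          rw [h1, one_mul, norm_mul, norm_mul, norm_tw, one_mul, norm_mul, norm_psi, one_mul,
            Complex.norm_real,
            Real.norm_of_nonneg (X.q_pos e).le]
          exact mul_le_mul_of_nonneg_left (hΦF _ _ _ _ (hadm' e)) (X.q_pos e).le
        · have hq : X.q (e₂ s) = X.q (e₁ s) := by simp only [q, hsrc s, hD s, ht₁ s, ht₂ s]
          have ha : X.act [e₂ s] a = X.act [e₁ s] a := by simp [act, iD, hb s, hD s]
          have h1 : w (e₁ s) a = w₀ s a := by simp [hw, h0, ht₁ s]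
          have h2 : w (e₂ s) a = w₀ s a := by simp [hw, h0, ht₂ s]
          have h3 := hΦF n (X.src (e₁ s)) _ _ (hadm' (e₁ s))
          have h4 : tw v ι [e₂ s] = tw v ι [e₁ s] := by simp [tw, hι s]
          rw [h1, h2, hq, ha, h4, ← hsrc s, ← hb s, ← hD s, ← mul_add, ← mul_add, ← add_mul,
            norm_mul, norm_mul, norm_tw, one_mul, norm_mul,
            Complex.norm_real, Real.norm_of_nonneg (X.q_pos _).le, ← mul_add]
          refine mul_le_mul_of_nonneg_left ?_ (X.q_pos _).le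
          simp only [hw₀]
          have := mul_le_mul_of_nonneg_left h3 (norm_nonneg
            ((stdAddChar (a * X.off Q [e₁ s]) : ℂ) + stdAddChar (a * X.off Q [e₂ s])))
          linarith
  · rintro s a ⟨hw', h0⟩
    have h1 : w (e₁ s) a = w₀ s a := by simp [hw, h0, ht₁ s]
    have h2 : w₀ s a ≤ 1 - 2 / (K : ℝ) ^ 2 := by
      refine gain_bound hK2 _ _ ?_
      by_contra hlt
      apply hw'
      obtain ⟨J, hJ⟩ : X.c (e₁ s) - X.c (e₂ s) ∣ Δ :=
        Finset.dvd_prod_of_mem (fun s => X.c (e₁ s) - X.c (e₂ s)) (mem_univ s)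
      set y := (a * X.off Q [e₁ s] - a * X.off Q [e₂ s]).valMinAbs with hy
      refine ⟨J * X.D (e₁ s) * y, ?_, lt_of_le_of_lt ?_ (not_le.1 hlt)⟩
      · have h3 := DP_mul_iD hQ [e₁ s]
        have h4 : X.iD Q [e₂ s] = X.iD Q [e₁ s] := by simp [iD, hD s]
        simp only [DP_cons, DP_nil, mul_one] at h3
        rw [hJ]; push_cast; rw [hy, coe_valMinAbs]
        simp only [off, h4, cP_cons, cP_nil, DP_nil]; push_cast
        linear_combination (J * a * (X.c (e₁ s) - X.c (e₂ s) : ZMod Q)) * h3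
      · have h3 : |J| ≤ |Δ| := Int.le_of_dvd (abs_pos.2 hΔ0)
          ((abs_dvd_abs _ _).2 ⟨_, by rw [hJ, mul_comm]⟩)
        have h4 : (X.D (e₁ s) : ℤ) ≤ X.d := by exact_mod_cast Nat.le_of_dvd X.d_pos (X.D_dvd _)
        rw [hK, abs_mul, abs_mul, Nat.abs_cast]; push_cast
        rw [← mul_assoc, mul_assoc (X.kap : ℤ) |Δ|]
        refine mul_le_mul_of_nonneg_right (mul_le_mul_of_nonneg_left ?_ (by positivity))
          (abs_nonneg _)
        exact mul_le_mul h3 h4 (by positivity) (abs_nonneg _)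
    have h3 : X.q (e₁ s) * (1 - w (e₁ s) a) ≤ ∑ e ∈ X.into s, X.q e * (1 - w e a) :=
      Finset.single_le_sum (f := fun e => X.q e * (1 - w e a))
        (fun e _ => mul_nonneg (X.q_pos e).le (sub_nonneg.2 (hw1 _ _))) (X.mem_into.2 (ht₁ s))
    simp only [mul_sub, mul_one, Finset.sum_sub_distrib, sum_q] at h3
    have h4 := mul_le_mul (hq₀1 (e₁ s)) (by linarith : 2 / (K : ℝ) ^ 2 ≤ 1 - w (e₁ s) a) hc0.le
      (X.q_pos _).le
    linarith

theorem key_boundW [NeZero Q] (v : ℝ) (ι : E → ℝ) (hc : X.d.Coprime Q) {M M₁ : ℤ} {D₁ : ℕ} (hQ : Q = M.natAbs * X.B0)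
    {g : S → ℤ → ℕ → ℤ → ℝ} (hg0 : ∀ t M D, ∑ x ∈ range X.B0, g t M D x = 0)
    (hg1 : ∀ t M D x, |g t M D x| ≤ 1) {k n : ℕ} {s t : S} (C : List E → Prop)
    {inst : ∀ l, Decidable (C (l.take k) ∧ X.bP l = M)} {W ε : ℝ} (hW : 1 ≤ W) (hε : 0 ≤ ε)
    (hC : ∀ o ∈ X.Paths k s, C o → X.bP o = M₁ ∧ X.DP o = D₁ ∧ X.endp s o = t ∧
      2 * |X.cP o| < Q ∧ Q * X.wt o ≤ W) {Z : ℤ} (hZ : Z * M₁ ∣ M) (hM : M ≠ 0)
    (hΦ : ∀ (a : ZMod Q) (G : S → ℤ → ℕ → ℂ), (∀ t M D, ‖G t M D‖ ≤ 1) →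
      (∀ t M D, G t M D ≠ 0 → (X.B0 : ZMod Q) * (M : ℤ) * a = 0) → (Z : ZMod Q) * a ≠ 0 →
      ‖X.PhiW v ι n t a G‖ ≤ ε) :
    ∃ T : ZMod Q → ℝ, (∀ (φ : ℝ) (ζ : ZMod Q), |X.Ex (k + n) s fun l =>
      if C (l.take k) ∧ X.bP l = M then Real.cos (φ + v * (l.map ι).sum) *
        X.HQ (g (X.endp s l) (X.bP l) (X.DP l)) l ζ else 0| ≤ T ζ) ∧
      ∑ ζ : ZMod Q, T ζ ≤ Q * ε * W := by
  classical
  set T : ZMod Q → ℂ := fun ζ => ∑ l ∈ X.Paths (k + n) s, (X.wt l : ℂ) * (tw v ι l *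
    ((if C (l.take k) ∧ X.bP l = M then
      X.HQ (g (X.endp s l) (X.bP l) (X.DP l)) l ζ else 0 : ℝ) : ℂ)) with hT
  refine ⟨fun ζ => ‖T ζ‖, fun φ ζ => ?_, ?_⟩
  · have e1 : (X.Ex (k + n) s fun l =>
        if C (l.take k) ∧ X.bP l = M then Real.cos (φ + v * (l.map ι).sum) *
          X.HQ (g (X.endp s l) (X.bP l) (X.DP l)) l ζ else 0)
        = (Complex.exp ((φ : ℝ) * Complex.I) * T ζ).re := by
      simp only [hT, Ex, Finset.mul_sum, Complex.re_sum]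
      refine Finset.sum_congr rfl fun l _ => ?_
      rw [re_tw]
      split_ifs <;> ring
    rw [e1]
    refine (Complex.abs_re_le_norm _).trans (le_of_eq ?_)
    rw [norm_mul, Complex.norm_exp_ofReal_mul_I, one_mul]
  set O := (X.Paths k s).filter C with hO
  have hQ0 : (0 : ℝ) < Q := by exact_mod_cast Nat.pos_of_ne_zero (NeZero.ne Q)
  have hB0 : (0 : ℝ) < X.B0 := by exact_mod_cast X.B0_pos
  set G : ZMod Q → S → ℤ → ℕ → ℂ := fun a t' M' D' => if M₁ * M' = M then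
    (X.B0 : ℂ)⁻¹ * ∑ x ∈ range X.B0, (g t' M (D₁ * D') x : ℂ) *
      stdAddChar ((M' : ZMod Q) * (D' : ZMod Q)⁻¹ * a * (x : ZMod Q)) else 0 with hG
  have hG1 : ∀ a t' M' D', ‖G a t' M' D'‖ ≤ 1 := by
    intro a t' M' D'
    simp only [hG]
    split_ifs
    · rw [norm_mul, norm_inv, Complex.norm_natCast, inv_mul_le_iff₀ hB0, mul_one]
      refine (norm_sum_le _ _).trans ?_
      refine (Finset.sum_le_sum fun x _ => (?_ : _ ≤ (1 : ℝ))).trans (by simp)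
      rw [norm_mul, norm_psi, mul_one, Complex.norm_real]; exact hg1 _ _ _ _
    · simp
  have hQz : (X.B0 : ZMod Q) * (M : ℤ) = 0 := by
    have : ((X.B0 * M : ℤ) : ZMod Q) = 0 := by
      rw [ZMod.intCast_zmod_eq_zero_iff_dvd, hQ, Int.natCast_dvd, Int.natAbs_mul, mul_comm]; simp
    exact_mod_cast this
  have hhat : ∀ ξ : ZMod Q, ∑ ζ, T ζ * stdAddChar (ξ * ζ) =
      Q * ((∑ o ∈ O, (X.wt o : ℂ) * tw v ι o * stdAddChar (ξ * X.off Q o)) *
        X.PhiW v ι n t ((M₁ : ZMod Q) * (D₁ : ZMod Q)⁻¹ * ξ) (G ((M₁ : ZMod Q) * (D₁ : ZMod Q)⁻¹ * ξ))) := by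
    intro ξ
    simp only [hT, Finset.sum_mul]
    rw [Finset.sum_comm, sum_Paths_add, hO, Finset.sum_filter, Finset.mul_sum]
    refine Finset.sum_congr rfl fun o ho => ?_
    have hlen := X.length_of_mem_Paths ho
    simp only [List.take_left' hlen]
    split_ifs with hCo
    · obtain ⟨h1, h2, h3, -, -⟩ := hC o ho hCo
      rw [PhiW, Finset.mul_sum, Finset.mul_sum, h3]
      refine Finset.sum_congr rfl fun i _ => ?_
      have ha : (M₁ : ZMod Q) * (D₁ : ZMod Q)⁻¹ * ξ = X.act o ξ := by rw [act, iD, h1, h2]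
      simp only [hCo, true_and, hG, bP_append, h1, DP_append, h2, endp_append, h3, ha]
      split_ifs with hM'
      · simp only [HQ, bP_append, h1, hM', wt_append, tw_append]
        push_cast
        simp only [Finset.mul_sum, Finset.sum_mul]
        rw [Finset.sum_comm]
        refine Finset.sum_congr rfl fun x _ => ?_
        rw [Finset.sum_eq_single (X.act (o ++ i) (x : ZMod Q) + X.off Q (o ++ i))
          (fun ζ _ hne => by rw [if_neg hne.symm]; simp) (fun h => absurd (mem_univ _) h),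
          if_pos rfl, off_append hc, mul_add, mul_add, mul_act, mul_act, act_append hc,
          AddChar.map_add_eq_mul, AddChar.map_add_eq_mul]
        have h4 : ((|(M : ℝ)| : ℝ) : ℂ) = Q * (X.B0 : ℂ)⁻¹ := by
          have : (X.B0 : ℂ) ≠ 0 := by exact_mod_cast X.B0_pos.ne'
          have h5 : |(M : ℝ)| = (M.natAbs : ℝ) := by simp
          rw [hQ, h5, Nat.cast_mul, Complex.ofReal_natCast]; field_simp
        rw [h4]
        simp only [act, iD]
        ring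
      · simp
    · simp [hCo]
  have hbd : ∀ ξ : ZMod Q,
      ‖X.PhiW v ι n t ((M₁ : ZMod Q) * (D₁ : ZMod Q)⁻¹ * ξ) (G ((M₁ : ZMod Q) * (D₁ : ZMod Q)⁻¹ * ξ))‖ ≤ ε := by
    intro ξ
    by_cases h0 : (Z : ZMod Q) * ((M₁ : ZMod Q) * (D₁ : ZMod Q)⁻¹ * ξ) = 0
    · have : G ((M₁ : ZMod Q) * (D₁ : ZMod Q)⁻¹ * ξ) = 0 := by
        funext t' M' D'
        simp only [hG, Pi.zero_apply]
        split_ifs with hM'
        · have hM₁ : M₁ ≠ 0 := by rintro rfl; exact hM (by simpa using hM'.symm)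
          obtain ⟨u, hu⟩ : Z ∣ M' := by
            rw [← hM', mul_comm Z] at hZ
            exact Int.dvd_of_mul_dvd_mul_left hM₁ hZ
          have h1 : (M' : ZMod Q) * (D' : ZMod Q)⁻¹ * ((M₁ : ZMod Q) * (D₁ : ZMod Q)⁻¹ * ξ) = 0 := by
            rw [hu]; push_cast; linear_combination (u * (D' : ZMod Q)⁻¹) * h0
          simp only [h1, zero_mul, AddChar.map_zero_eq_one, mul_one]
          rw [← Complex.ofReal_sum, hg0]; simp
        · rfl
      rw [this]; simpa [PhiW] using hε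
    · refine hΦ _ _ (hG1 _) (fun t' M' D' hne => ?_) h0
      have hM' : M₁ * M' = M := by
        by_contra hn; exact hne (by simp only [hG]; rw [if_neg hn])
      rw [← hM'] at hQz
      push_cast at hQz
      linear_combination ((D₁ : ZMod Q)⁻¹ * ξ) * hQz
  have hinj : Set.InjOn (X.off Q) O := by
    intro o ho o' ho' h
    obtain ⟨ho, hCo⟩ := mem_filter.1 ho
    obtain ⟨ho', hCo'⟩ := mem_filter.1 ho'
    obtain ⟨h1, h2, h3, h4, -⟩ := hC o ho hCo
    obtain ⟨h1', h2', h3', h4', -⟩ := hC o' ho' hCo'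
    refine X.path_eq_of_cP ho ho' (h3.trans h3'.symm) (h1.trans h1'.symm) (h2.trans h2'.symm) ?_
    have h5 : (Q : ℤ) ∣ X.cP o - X.cP o' := by
      rw [← ZMod.intCast_zmod_eq_zero_iff_dvd]
      have h6 := DP_mul_iD hc o
      have h7 : X.iD Q o' = X.iD Q o := by rw [iD, iD, h2, h2']
      simp only [off, h7] at h
      push_cast
      linear_combination (X.DP o : ZMod Q) * h - (X.cP o - X.cP o' : ZMod Q) * h6
    refine sub_eq_zero.1 (Int.eq_zero_of_abs_lt_dvd h5 ?_)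
    linarith [abs_sub (X.cP o) (X.cP o')]
  have hO2 : (Q : ℝ) * ∑ o ∈ O, ‖(X.wt o : ℂ) * tw v ι o‖ ^ 2 ≤ W := by
    rw [Finset.mul_sum]
    calc _ ≤ ∑ o ∈ O, X.wt o * W := by
          refine Finset.sum_le_sum fun o ho => ?_
          obtain ⟨ho, hCo⟩ := mem_filter.1 ho
          rw [norm_mul, norm_tw, mul_one, Complex.norm_real, Real.norm_of_nonneg (X.wt_pos o).le, sq,
            mul_left_comm]
          exact mul_le_mul_of_nonneg_left (hC o ho hCo).2.2.2.2 (X.wt_pos o).le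
      _ ≤ ∑ o ∈ X.Paths k s, X.wt o * W :=
          Finset.sum_le_sum_of_subset_of_nonneg (filter_subset _ _) fun o _ _ =>
            mul_nonneg (X.wt_pos o).le (by linarith)
      _ = W := X.Ex_const k s W
  have hP1 := parseval (univ : Finset (ZMod Q)) id (Set.injOn_id _) fun ζ => T ζ
  have hP2 := parseval O (X.off Q) hinj fun o => (X.wt o : ℂ) * tw v ι o
  simp only [id, hhat] at hP1
  have h1 : (Q : ℝ) * ∑ ζ, ‖T ζ‖ ^ 2 ≤ (Q * ε) ^ 2 * W := by
    rw [← hP1]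
    refine le_trans ?_ (mul_le_mul_of_nonneg_left (hP2.le.trans hO2) (sq_nonneg _))
    rw [Finset.mul_sum]
    refine Finset.sum_le_sum fun ξ _ => ?_
    rw [← mul_pow]
    refine pow_le_pow_left₀ (norm_nonneg _) ?_ 2
    rw [norm_mul, norm_mul, Complex.norm_natCast, mul_assoc (Q : ℝ), mul_comm ε]
    exact mul_le_mul_of_nonneg_left (mul_le_mul_of_nonneg_left (hbd ξ) (norm_nonneg _)) hQ0.le
  have h2 := sq_sum_le_card_mul_sum_sq (s := (univ : Finset (ZMod Q))) (f := fun ζ => ‖T ζ‖)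
  rw [card_univ, ZMod.card] at h2
  refine le_of_sq_le_sq ((h2.trans h1).trans ?_) (by positivity)
  rw [mul_pow (Q * ε)]
  exact mul_le_mul_of_nonneg_left (by nlinarith) (sq_nonneg _)

theorem Good.mixW (h : X.Good) {ι : E → ℝ} (hW : X.ParaW ι) : X.MixW ι := by
  classical
  intro A
  obtain ⟨B, ρ₁, ρ₂, hB, hρ₁, hρ, hBp, hup, hdn⟩ := h.exists_B
  obtain ⟨ρ₀, hρ₀, hlow⟩ := h.low_b hB fun p hp => (hBp p hp).1
  have hρ₂ : 0 < ρ₂ := hρ₁.trans hρ
  set ν : ℝ := (1 - ρ₁ / ρ₂) / 2 with hν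
  have hν0 : 0 < ν := by
    have : ρ₁ / ρ₂ < 1 := (div_lt_one hρ₂).2 hρ
    rw [hν]; linarith
  obtain ⟨K, C₁, hC₁, hE1⟩ := h.big_ratio A
  obtain ⟨C₂, hC₂, hE2⟩ := hup.poly A one_pos
  obtain ⟨C₃, hC₃, hE3⟩ := hdn.poly A (div_pos hρ₁ hρ₂)
  obtain ⟨C₄, hC₄, hE4⟩ := hlow.poly A hν0
  set A' := A + (1 + X.B0 + X.B0 + X.d + (K + 1)) with hA'
  obtain ⟨C₅, hC₅, hΦ⟩ := phi_decayW h hW hB hρ₁ hρ (fun p hp => (hBp p hp).2) hup hdn A'
  obtain ⟨n₀, hn₀⟩ := exists_nat_ge ((((X.B0 : ℝ) + 1) / ρ₂ + 1) / ν)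
  set P : ℝ := ∑ s, (X.π s)⁻¹ with hP
  have hP0 : 0 ≤ P := Finset.sum_nonneg fun s _ => (inv_pos.2 (X.π_pos s)).le
  set C₆ : ℝ := 2 * (2 * (X.B0 + 1) ^ X.B0) * (2 * (X.B0 + 1) ^ X.B0) * (X.d + 1) ^ X.d *
    Fintype.card S * (C₅ / (ρ₀ * ν) ^ A' * ((2 * X.cm * X.d + 1) * P)) with hC₆
  have hC₆0 : 0 ≤ C₆ := by positivity
  refine ⟨(n₀ : ℝ) ^ A + (C₁ + C₂ + C₃ + C₄ + C₆), fun v n hn s g hper hmean hg1 φ => ?_⟩
  have hn' : (1 : ℝ) ≤ n := by exact_mod_cast hn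
  have hBn : (0 : ℝ) < (X.B0 : ℝ) ^ (n + 1) := by have := X.B0_pos; positivity
  change ∑ z ∈ range (X.B0 ^ (n + 1)),
    |X.Ex n s fun l => Real.cos (φ z + v * (l.map ι).sum) * X.HZ (g (X.endp s l) (X.bP l) (X.DP l)) l (z : ℕ)| ≤ _
  have hbad : ∀ (Bad : List E → Prop) {inst : ∀ l, Decidable (Bad l)},
      ∑ z ∈ range (X.B0 ^ (n + 1)), |X.Ex n s fun l =>
        if Bad l then 0 else Real.cos (φ z + v * (l.map ι).sum) * X.HZ (g (X.endp s l) (X.bP l) (X.DP l)) l (z : ℕ)| ≤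
        X.Pr n s (fun l => ¬ Bad l) * (X.B0 : ℝ) ^ (n + 1) := by
    intro Bad _
    refine (Finset.sum_le_sum fun z _ => X.abs_Ex_le _ _ _).trans ?_
    rw [← Ex_sum, Pr, ← Ex_mul_const]
    refine X.Ex_mono fun l hl => ?_
    by_cases hb : Bad l
    · simp [hb]
    · simp only [hb, if_false, not_false_eq_true, if_true, one_mul]
      have := sum_abs_HZ_le (hper (X.endp s l) (X.bP l) (X.DP l)) (hg1 _ _ _) l
      rw [X.length_of_mem_Paths hl] at this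
      refine le_trans (Finset.sum_le_sum fun z _ => ?_) this
      rw [abs_mul]
      exact mul_le_of_le_one_left (abs_nonneg _) (Real.abs_cos_le_one _)
  rcases le_or_gt n n₀ with hnn | hnn
  · have h1 := hbad (fun _ => False) (inst := fun _ => inferInstance)
    simp only [if_false] at h1
    refine h1.trans (mul_le_mul_of_nonneg_right ((X.Pr_le_one _ _ _).trans ?_) hBn.le)
    rw [le_div_iff₀ (by positivity), one_mul]
    have : (n : ℝ) ^ A ≤ (n₀ : ℝ) ^ A := pow_le_pow_left₀ (by positivity) (by exact_mod_cast hnn) A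
    linarith
  have hnn' : (n₀ : ℝ) ≤ n := by exact_mod_cast hnn.le
  set j₁ := ⌈ρ₁ * n⌉₊ with hj₁
  set n₁ := ⌈((j₁ : ℝ) + X.B0) / ρ₂⌉₊ with hn₁
  have hj1 : ρ₁ * n ≤ j₁ := Nat.le_ceil _
  have hj2 : (j₁ : ℝ) ≤ ρ₁ * n + 1 := (Nat.ceil_lt_add_one (by positivity)).le
  have hn1 : ((j₁ : ℝ) + X.B0) / ρ₂ ≤ n₁ := Nat.le_ceil _
  have hn2 : (n₁ : ℝ) + ν * n ≤ n := by
    have h1 : (n₁ : ℝ) ≤ ((j₁ : ℝ) + X.B0) / ρ₂ + 1 := (Nat.ceil_lt_add_one (by positivity)).le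
    have h2 : ((j₁ : ℝ) + X.B0) / ρ₂ ≤ (ρ₁ * n + (X.B0 + 1)) / ρ₂ :=
      div_le_div_of_nonneg_right (by linarith) hρ₂.le
    have h3 : (ρ₁ * n + (X.B0 + 1)) / ρ₂ = n - 2 * (ν * n) + (X.B0 + 1) / ρ₂ := by
      rw [hν]; field_simp; ring
    have h4 := hn₀.trans hnn'
    rw [div_le_iff₀ hν0, mul_comm (n : ℝ)] at h4
    linarith
  have hn3 : n₁ ≤ n := by
    have : (n₁ : ℝ) ≤ n := by linarith [mul_nonneg hν0.le (Nat.cast_nonneg n : (0 : ℝ) ≤ n)]
    exact_mod_cast this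
  obtain ⟨n₂, hn₂⟩ := Nat.exists_eq_add_of_le hn3
  have hn4 : ν * n ≤ n₂ := by
    have : (n : ℝ) = n₁ + n₂ := by exact_mod_cast hn₂
    linarith
  set j₂ := ⌊ρ₀ * n₂⌋₊ with hj₂
  set Z := 2 * X.cm * n * n ^ K * X.d + 1 with hZ
  set 𝒦 : Finset (ℕ × ℤ × ℤ × ℕ × S) := (range (n + 1) ×ˢ idiv (X.B0 ^ n) ×ˢ idiv (X.B0 ^ n) ×ˢ
    (X.d ^ n).divisors ×ˢ univ).filter fun κ => (B : ℤ) ^ j₂ * κ.2.2.1 ∣ κ.2.1 with h𝒦
  set I : ℕ × ℤ × ℤ × ℕ × S → List E → Prop := fun κ l =>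
    X.Cut Z s κ (l.take κ.1) ∧ X.bP l = κ.2.1 with hI
  have hsplit : ∀ z : ℕ, (X.Ex n s fun l => Real.cos (φ z + v * (l.map ι).sum) * X.HZ (g (X.endp s l) (X.bP l) (X.DP l)) l z) =
      (∑ κ ∈ 𝒦, X.Ex n s fun l =>
        if I κ l then Real.cos (φ z + v * (l.map ι).sum) * X.HZ (g (X.endp s l) (X.bP l) (X.DP l)) l z else 0) +
      X.Ex n s fun l => if ∃ κ ∈ 𝒦, I κ l then 0 else
        Real.cos (φ z + v * (l.map ι).sum) * X.HZ (g (X.endp s l) (X.bP l) (X.DP l)) l z := by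
    intro z
    rw [← Ex_sum, ← Ex_add]
    exact X.Ex_congr fun l _ => sum_ite_unique 𝒦 (I · l) (fun _ _ _ _ => cut_unique) _
  have hPr : X.Pr n s (fun l => ¬ ∃ κ ∈ 𝒦, I κ l) ≤ (C₁ + C₂ + C₃ + C₄) / (n : ℝ) ^ A := by
    have e1 := hE1 n hn s
    have e2 := hE2 n n hn (by rw [one_mul]) s
    have e3 := hE3 n n₁ hn (le_trans (by
      rw [div_mul_eq_mul_div]
      exact div_le_div_of_nonneg_right (by linarith [(Nat.cast_nonneg X.B0 : (0 : ℝ) ≤ _)]) hρ₂.le)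
      hn1) s
    rw [← X.Pr_take' hn3] at e3
    have e4 := Pr_drop (m := n₁) (s := s) (hE4 n n₂ hn hn4)
    rw [← hn₂] at e4
    refine le_trans (X.Pr_mono ?_) (((X.Pr_or _ _ _ _).trans (add_le_add e1
      ((X.Pr_or _ _ _ _).trans (add_le_add e2 ((X.Pr_or _ _ _ _).trans
        (add_le_add e3 e4)))))).trans (le_of_eq (by ring)))
    intro l hl hno
    have hlen := X.length_of_mem_Paths hl
    by_contra hcon
    push Not at hcon
    obtain ⟨c1, c2, c3, c4⟩ := hcon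
    apply hno
    have d2 := c2 j₁ hj1
    have d3 := c3 (j₁ + X.B0) (by
      rw [div_le_iff₀ hρ₂, mul_comm] at hn1; push_cast; exact hn1)
    have d4 := c4 j₂ (Nat.floor_le (by positivity))
    have d5 : (X.bP l).natAbs * X.B0 ≤ B ^ (j₁ + X.B0) := by
      refine Nat.le_of_dvd (pow_pos (Nat.pos_of_ne_zero hB) _) ?_
      rw [pow_add]
      exact Nat.mul_dvd_mul (by exact_mod_cast Int.natAbs_dvd.2 d2)
        (dvd_pow_of_primes X.B0_pos.ne' hB (fun p hp => (hBp p hp).2) le_rfl)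
    obtain ⟨k, hk, hcut⟩ := exists_cut hn3 (Y := n ^ K) s hlen (d5.trans_lt d3)
      (fun t ht => by exact_mod_cast c1 t ht)
    refine ⟨_, mem_filter.2 ⟨?_, ?_⟩, hcut, rfl⟩
    · have hB0 := pow_ne_zero n X.B0_pos.ne'
      have hkl : (l.take k).length ≤ n := (List.length_take_le _ _).trans (by omega)
      simp only [mem_product, mem_range, mem_univ, and_true]
      refine ⟨by omega, mem_idiv hB0 ?_, mem_idiv hB0 ?_, Nat.mem_divisors.2 ⟨?_, ?_⟩⟩
      · have := X.bP_dvd l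
        rw [hlen] at this; exact_mod_cast this
      · exact_mod_cast (X.bP_dvd _).trans (pow_dvd_pow _ hkl)
      · exact (X.DP_dvd _).trans (pow_dvd_pow _ hkl)
      · exact pow_ne_zero _ X.d_pos.ne'
    · simp only
      obtain ⟨r, hr⟩ := Nat.exists_eq_add_of_le hk
      conv_rhs => rw [← List.take_append_drop k l, ← List.take_append_drop r (l.drop k),
        bP_append, bP_append, List.drop_drop, ← hr, mul_comm]
      exact mul_dvd_mul_right (d4.mul_left _) _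
  have hkey : ∀ κ ∈ 𝒦, ∑ z ∈ range (X.B0 ^ (n + 1)), |X.Ex n s fun l =>
      if I κ l then Real.cos (φ z + v * (l.map ι).sum) * X.HZ (g (X.endp s l) (X.bP l) (X.DP l)) l (z : ℕ) else 0| ≤
      (X.B0 : ℝ) ^ (n + 1) * (C₅ / ((j₂ : ℝ) + 1) ^ A' * (Z * P)) := by
    rintro ⟨k, M, M₁, D₁, t⟩ hκ
    obtain ⟨hκ, hdv⟩ := mem_filter.1 hκ
    simp only [mem_product, mem_range] at hκ hdv
    obtain ⟨hk, hM, -⟩ := hκ
    obtain ⟨hM0, hMd⟩ := of_mem_idiv hM
    set Q := M.natAbs * X.B0 with hQ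
    have : NeZero Q := ⟨mul_ne_zero (Int.natAbs_ne_zero.2 hM0) X.B0_pos.ne'⟩
    have hQd : Q ∣ X.B0 ^ (n + 1) := by rw [pow_succ]; exact Nat.mul_dvd_mul_right hMd _
    have hc : X.d.Coprime Q := Nat.Coprime.coprime_dvd_right hQd
      ((Nat.isCoprime_iff_coprime.1 X.B0_cop).symm.pow_right _)
    have hQB : Q ∣ B ^ (X.B0 * (n + 1)) := by
      rw [pow_mul]
      exact hQd.trans (pow_dvd_pow_of_dvd
        (dvd_pow_of_primes X.B0_pos.ne' hB (fun p hp => (hBp p hp).2) le_rfl) _)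
    obtain ⟨r, hr⟩ := hQd
    obtain ⟨n', rfl⟩ := Nat.exists_eq_add_of_le (Nat.lt_succ_iff.1 hk)
    have hPs : (X.π s)⁻¹ ≤ P :=
      Finset.single_le_sum (f := fun s => (X.π s)⁻¹) (fun s _ => (inv_pos.2 (X.π_pos s)).le)
        (mem_univ s)
    have hπ1 : ∀ t, X.π t ≤ 1 := fun t => X.π_sum ▸
      Finset.single_le_sum (f := X.π) (fun s _ => (X.π_pos s).le) (mem_univ t)
    have hZ1 : (1 : ℝ) ≤ Z := by exact_mod_cast Nat.succ_pos _
    obtain ⟨Tz, hTz, hb⟩ := key_boundW v ι (k := k) (n := n') (s := s) (t := t) (M₁ := M₁) (D₁ := D₁) hc hQ hmean hg1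
      (X.Cut Z s (k, M, M₁, D₁, t)) (inst := fun l => Classical.propDecidable _) (W := Z * P)
      (ε := C₅ / ((j₂ : ℝ) + 1) ^ A')
      (one_le_mul_of_one_le_of_one_le hZ1 (((one_le_inv₀ (X.π_pos s)).2 (hπ1 s)).trans hPs))
      (by positivity) (fun o ho hCo => ⟨hCo.2.2.2.1, hCo.2.2.2.2.1, hCo.2.2.2.2.2, hCo.2.2.1, by
        have h1 : (Q : ℝ) ≤ X.DP o * Z := by exact_mod_cast hCo.1.le
        have h2 : (0 : ℝ) < X.DP o := by exact_mod_cast X.DP_pos o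
        have h3 := X.π_pos s
        calc Q * X.wt o ≤ (X.DP o * Z) * (1 / (X.DP o * X.π s)) := by
              rw [X.wt_eq ho]
              exact mul_le_mul h1 (div_le_div_of_nonneg_right (hπ1 _) (by positivity))
                (div_pos (X.π_pos _) (by positivity)).le (by positivity)
          _ = Z * (X.π s)⁻¹ := by field_simp
          _ ≤ _ := mul_le_mul_of_nonneg_left hPs (by linarith)⟩) hdv hM0
      (fun a G h1 h2 h3 => hΦ v Q hc ⟨_, hQB⟩ n' t a G h1 h2 j₂ (by exact_mod_cast h3))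
    rw [← Nat.cast_pow, hr]
    refine le_trans ?_ ((mul_le_mul_of_nonneg_left hb (Nat.cast_nonneg r)).trans
      (le_of_eq (by push_cast; ring)))
    rw [← sum_range_zmod]
    refine Finset.sum_le_sum fun z _ => le_trans (le_of_eq ?_) (hTz (φ z) z)
    refine congrArg _ (X.Ex_congr fun l _ => ?_)
    by_cases hIl : I (k, M, M₁, D₁, t) l
    · rw [if_pos hIl, if_pos hIl, HZ_eq (hper _ _ _) (Q := Q) (by rw [hQ, hIl.2]),
        Int.cast_natCast]
    · rw [if_neg hIl, if_neg hIl]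
  have hcard : (#𝒦 : ℝ) ≤ 2 * (2 * (X.B0 + 1) ^ X.B0) * (2 * (X.B0 + 1) ^ X.B0) *
      (X.d + 1) ^ X.d * Fintype.card S * (n : ℝ) ^ (1 + X.B0 + X.B0 + X.d) := by
    have h1 : ∀ b : ℕ, b ≠ 0 → #(b ^ n).divisors ≤ (b + 1) ^ b * n ^ b := fun b hb => by
      rw [← mul_pow]
      exact (card_divisors_pow hb n).trans (Nat.pow_le_pow_left (by nlinarith) _)
    have h2 := (card_idiv _).trans (Nat.mul_le_mul_left 2 (h1 X.B0 X.B0_pos.ne'))
    have h3 : #𝒦 ≤ (2 * n) * ((2 * ((X.B0 + 1) ^ X.B0 * n ^ X.B0)) *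
        ((2 * ((X.B0 + 1) ^ X.B0 * n ^ X.B0)) * (((X.d + 1) ^ X.d * n ^ X.d) * Fintype.card S))) := by
      refine (card_filter_le _ _).trans ?_
      simp only [card_product, card_range, card_univ]
      exact Nat.mul_le_mul (by omega) (Nat.mul_le_mul h2 (Nat.mul_le_mul h2
        (Nat.mul_le_mul_right _ (h1 X.d X.d_pos.ne'))))
    refine le_trans (Nat.cast_le.2 h3) (le_of_eq ?_)
    push_cast; ring
  have hZ2 : (Z : ℝ) ≤ (2 * X.cm * X.d + 1) * (n : ℝ) ^ (K + 1) := by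
    have := one_le_pow₀ hn' (n := K + 1)
    rw [hZ]; push_cast; rw [add_mul, one_mul]
    exact add_le_add (le_of_eq (by ring)) this
  have hj3 : C₅ / ((j₂ : ℝ) + 1) ^ A' ≤ C₅ / (ρ₀ * ν) ^ A' / (n : ℝ) ^ A' := by
    rw [div_div, ← mul_pow]
    refine div_le_div_of_nonneg_left hC₅ (by positivity) (pow_le_pow_left₀ (by positivity) ?_ _)
    have := (Nat.lt_floor_add_one (ρ₀ * n₂)).le
    rw [mul_assoc]
    exact (mul_le_mul_of_nonneg_left hn4 hρ₀.le).trans this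
  have hgood : (#𝒦 : ℝ) * (C₅ / ((j₂ : ℝ) + 1) ^ A' * (Z * P)) ≤ C₆ / (n : ℝ) ^ A := by
    refine (mul_le_mul hcard (mul_le_mul hj3 (mul_le_mul_of_nonneg_right hZ2 hP0) (by positivity)
      (by positivity)) (by positivity) (by positivity)).trans (le_of_eq ?_)
    rw [hC₆, hA']; field_simp; ring
  simp only [hsplit]
  refine (Finset.sum_le_sum fun z _ => (abs_add_le _ _).trans
    (add_le_add (Finset.abs_sum_le_sum_abs _ _) le_rfl)).trans ?_
  rw [Finset.sum_add_distrib, Finset.sum_comm]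
  refine (add_le_add (Finset.sum_le_sum hkey) (hbad _)).trans ?_
  rw [Finset.sum_const, nsmul_eq_mul, mul_left_comm, mul_comm ((X.B0 : ℝ) ^ (n + 1)), ← add_mul]
  refine mul_le_mul_of_nonneg_right ((add_le_add hgood hPr).trans ?_) hBn.le
  rw [← add_div]
  exact div_le_div_of_nonneg_right (by linarith [(by positivity : (0 : ℝ) ≤ (n₀ : ℝ) ^ A)])
    (by positivity)

end Sys

theorem Tw.mix_st : Tw.MixSt := fun _ _ _ _ _ _ _ _ h hW => h.mixW hW

end Pool.Agent.Lib.MP_39d40e_nt
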