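import Pool.Agent.Lib.MP_39d40e_nt.PdE

/-! Uniform positive density of predecessor sets: definitions and statements of the parts. -/

namespace Pool.Agent.Lib.MP_39d40e_nt

open Finset Filter

namespace Sys

variable {S E : Type} [Fintype S] [Fintype E] [DecidableEq S] [DecidableEq E] (X : Sys S E)

/-- alive at depth `n`, never below the level -/
def Alive2 (Y θ x : ℝ) (n : ℕ) (l : List E) : Prop :=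
  X.Pre Y θ l ∧ (∀ t ≤ l.length, 1 / x < X.rr (l.take t)) ∧ X.rr l ≤ θ ^ (2 * n)

/-- first passage of the level -/
def Band2 (Y θ x : ℝ) (l : List E) : Prop :=
  X.Pre Y θ l ∧ (∀ t < l.length, 1 / x < X.rr (l.take t)) ∧
    1 / (X.d * x) < X.rr l ∧ X.rr l ≤ 1 / x

/-- ratio at scale `x` -/
def Band3 (x : ℝ) (l : List E) : Prop := 1 / (X.d * x) < X.rr l ∧ X.rr l ≤ 1 / x

/-- weighted number of predecessors at ratio `x` -/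
noncomputable def Cnt (x : ℝ) (a J : ℕ) (t : S) (y : ℤ) : ℝ :=
  ∑ j ∈ Icc a J, X.Sm j t y (X.Band3 x) fun _ _ => 1

/-- uniformly large basins -/
def UD (s : S) (Z : Set ℤ) : Prop := ∃ c : ℝ, 0 < c ∧ ∃ x0 : ℝ, ∀ z ∈ Z, ∀ N : ℕ,
  x0 * (|(z : ℝ)| + 1) ≤ N → c * N ≤ (|(z : ℝ)| + 1) * #(X.Bas (s, z) N)

/-- some class modulo a power of `B0` has uniformly large basins -/
def OpenU : Prop := ∀ s, ∃ (K : ℕ) (r : ℤ) (W0 : ℝ),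
  X.UD s {z | (X.B0 : ℤ) ^ K ∣ z - r ∧ W0 ≤ |(z : ℝ)|}

end Sys

namespace Un

/-- all stages, first passage, high levels only -/
def StageSt : Prop := ∀ (S E : Type) [Fintype S] [Fintype E] [DecidableEq S] [DecidableEq E]
  (X : Sys S E), X.Mix → ∀ (Y θ : ℝ) (R : ℕ), 0 < θ → θ < 1 → 1 ≤ Y →
  θ ^ R * (X.B0 : ℝ) ^ 2 ≤ 1 → (X.Small fun n l => θ ^ (2 * n) < X.rr l) → ∀ s : S,
  ∃ Ce : ℝ, 0 ≤ Ce ∧ ∀ x : ℝ, 0 < x → ∀ N : ℕ, θ ^ (2 * N) ≤ 1 / x → ∀ a : ℕ,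
    (X.d : ℝ) ^ ((R + 1) * a) < x → ∀ Ψ : S → ℤ → ℝ,
    (∀ H, a ≤ H → H ≤ 3 * N → (X.B0 : ℝ) ^ H ≤ x → ∀ t y, X.rho H t y ≤ Ψ t y) →
    (∀ t y, 0 ≤ Ψ t y) → ∀ (z : ℤ) (n : ℕ), R + 1 ≤ n →
    X.Sm n s z (X.Alive2 Y θ x n) (X.rho (n / (R + 1))) ≤
      2 * Ce / n + ∑ m ∈ Ioc n (2 * N), X.Sm m s z (X.Band2 Y θ x) Ψ

/-- the density at level `a` is dominated by a count, up to an error that is small on average -/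
def InnerSt : Prop := ∀ (S E : Type) [Fintype S] [Fintype E] [DecidableEq S] [DecidableEq E]
  (X : Sys S E), X.Mix → ∀ θ : ℝ, 0 < θ → θ < 1 → (X.Small fun n l => θ ^ (2 * n) < X.rr l) →
  ∃ κ : ℕ, 1 ≤ κ ∧ ∀ A : ℕ, ∃ C : ℝ, 0 ≤ C ∧ ∀ a : ℕ, 1 ≤ a → ∃ Err : S → ℤ → ℝ,
    (∀ t y, 0 ≤ Err t y) ∧ (∀ t y, Err t (y + (X.B0 ^ (κ * a) : ℕ)) = Err t y) ∧
    (∀ t, ∑ y ∈ range (X.B0 ^ (κ * a)), Err t y ≤ C / (a : ℝ) ^ A * (X.B0 ^ (κ * a) : ℕ)) ∧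
    ∀ t y, X.rho a t y ≤ 2 * X.Cnt (2 * (X.d : ℝ) ^ a) a (κ * a) t y + Err t y

/-- counting with bounded multiplicity -/
def CountSt : Prop := ∀ (S E : Type) [Fintype S] [Fintype E] [DecidableEq S] [DecidableEq E]
  (X : Sys S E) (Y θ : ℝ), 0 < θ → θ < 1 → 1 ≤ Y → ∃ t0 : ℕ, ∀ (x1 x2 : ℝ), 0 < x1 → 0 < x2 →
  ∀ (s : S) (z : ℤ), 2 * (X.cmx * Y * (1 - θ)⁻¹) + 2 < |(z : ℝ)| → ∀ (a J N : ℕ) (I : Finset ℕ),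
  2 * (X.B0 : ℝ) ^ J ≤ x1 → J * X.cmx * ((X.d : ℝ) * X.B0) ^ J ≤ x1 →
  (|(z : ℝ)| + X.cmx * Y * (1 - θ)⁻¹) * ((X.d : ℝ) ^ 2 * (x1 * x2)) + x1 ≤ N →
  ∑ m ∈ I, X.Sm m s z (X.Band2 Y θ x1) (X.Cnt x2 a J) ≤
    (t0 + 1) / (x1 * x2 * X.π s) * #(X.Bas (s, z) N)

/-- the core estimate -/
def CoreSt : Prop := ∀ (S E : Type) [Fintype S] [Fintype E] [DecidableEq S] [DecidableEq E]
  (X : Sys S E), X.Mix → (X.Poisson fun e => Real.log (|(X.b e : ℝ)| / X.D e)) → X.Neg → X.OpenU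

/-- systems with a unit cycle, and transport along a path -/
def OpenSt : Prop := ∀ (S E : Type) [Fintype S] [Fintype E] [DecidableEq S] [DecidableEq E]
  (X : Sys S E), X.Irred → X.Neg → ∀ (s0 : S) (u : List E), X.Pa s0 u s0 → |X.bP u| = 1 →
  2 ≤ X.DP u → ∀ (s : S) (l : List E), l ∈ X.Paths l.length s →
  ∃ (K : ℕ) (r : ℤ) (W0 : ℝ), X.Val l r ∧
    X.UD s {z | (X.B0 : ℤ) ^ K ∣ z - r ∧ W0 ≤ |(z : ℝ)|}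

/-- orbits of an affine map fill residue classes, uniformly -/
def AffSt : Prop := ∀ (B : ℕ) (a c : ℤ) (v : ℕ), 0 < B → IsCoprime (B : ℤ) a → 1 < a.natAbs →
  ∃ k : ℕ, ∀ (K : ℕ) (W0 : ℝ), ∃ j1 : ℕ, ∀ z r : ℤ, a * z - c ≠ z →
    (∀ p : ℕ, p.Prime → p ∣ B → ¬ (p : ℤ) ^ v ∣ a * z - c - z) → (B : ℤ) ^ k ∣ r - z →
    ∃ j ≤ j1, (B : ℤ) ^ K ∣ (fun y => a * y - c)^[j] z - r ∧
      W0 ≤ |(((fun y => a * y - c)^[j] z : ℤ) : ℝ)|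

/-- the theorem for systems -/
def UnitSt : Prop := ∀ (S E : Type) [Fintype S] [Fintype E] [DecidableEq S] [DecidableEq E]
  (X : Sys S E), X.Irred → X.Neg → ∀ (s0 : S) (u : List E), X.Pa s0 u s0 → 0 < u.length →
  |X.bP u| = 1 → ∀ v : ℕ, X.UD s0 {z | ∃ y : ℤ, X.bP u * y = X.DP u * z - X.cP u ∧ y ≠ z ∧
    (∀ p : ℕ, p.Prime → p ∣ X.B0 → ¬ (p : ℤ) ^ v ∣ y - z) ∧
    ∀ k : ℕ, ∃ l, l ∈ X.Paths l.length s0 ∧ (X.B0 : ℤ) ^ k ∣ X.bP l ∧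
      (X.B0 : ℤ) ^ k ∣ X.DP l * z - X.cP l}

/-- the theorem for Leigh's chain -/
def LeighSt : Prop := ∀ (L : LData) [NeZero L.d],
  ∏ i : ZMod L.d, |(L.m i : ℝ) / L.d| ^ (∑ s ∈ L.C with (s.1 : ZMod L.d) = i, L.ρ s) < 1 →
  (∀ s ∈ L.C, ∃ n, s.2 ∣ L.d ^ n) →
  ∀ (n : ℕ), 0 < n → ∀ σ : ℕ → ℕ × ℕ, σ 0 ∈ L.C → σ n = σ 0 →
  (∀ t < n, 0 < P L.d L.m L.r L.a (σ t) (σ (t + 1)) ∧ |L.b (σ t).1| = 1) → ∀ v : ℕ,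
  ∃ c : ℝ, 0 < c ∧ ∃ x0 : ℝ, ∀ y z : ℤ,
    (∀ t ≤ n, (T L.d L.m L.r)^[t] y ≡ (σ t).1 [ZMOD (L.d * (σ t).2 : ℕ)]) →
    (T L.d L.m L.r)^[n] y = z → y ≠ z →
    (∀ p : ℕ, p.Prime → (p : ℤ) ∣ ∏ s ∈ L.C, L.b s.1 → ¬ (p : ℤ) ^ v ∣ y - z) →
    (∀ k : ℕ, ∃ (N : ℕ) (x : ℤ) (τ : ℕ → ℕ × ℕ), τ 0 ∈ L.C ∧ τ N = σ 0 ∧
      (∀ t < N, 0 < P L.d L.m L.r L.a (τ t) (τ (t + 1))) ∧
      (∀ t ≤ N, (T L.d L.m L.r)^[t] x ≡ (τ t).1 [ZMOD (L.d * (τ t).2 : ℕ)]) ∧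
      (∏ s ∈ L.C, L.b s.1) ^ k ∣ ∏ t ∈ range N, L.b ((T L.d L.m L.r)^[t] x : ℤ) ∧
      (∏ s ∈ L.C, L.b s.1) ^ k ∣ (T L.d L.m L.r)^[N] x - z) →
    ∀ x : ℝ, x0 ≤ x → c * x ≤ (Set.ncard {w : ℤ | |(w : ℝ)| ≤ x * (|(z : ℝ)| + 1) ∧
      (∃ s ∈ L.C, w ≡ s.1 [ZMOD (L.d * s.2 : ℕ)]) ∧ ∃ j : ℕ, (T L.d L.m L.r)^[j] w = z} : ℝ)

end Un

end Pool.Agent.Lib.MP_39d40e_nt
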