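import Pool.Agent.Lib.MP_39d40e_nt.Un0

/-! Uniform positive density of predecessor sets: closure properties. -/

namespace Pool.Agent.Lib.MP_39d40e_nt

open Finset Filter

namespace Sys

variable {S E : Type} [Fintype S] [Fintype E] [DecidableEq S] [DecidableEq E] {X : Sys S E}

omit [DecidableEq E] in
theorem UD.mono {s : S} {Z Z' : Set ℤ} (h : X.UD s Z') (hZ : Z ⊆ Z') : X.UD s Z := by
  obtain ⟨c, hc, x0, h⟩ := h
  exact ⟨c, hc, x0, fun z hz => h z (hZ hz)⟩

omit [DecidableEq E] in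
theorem UD.pred {s s' : S} {Z Z' : Set ℤ} (h : X.UD s' Z') {M : ℝ} (hM : 1 ≤ M)
    (hZ : ∀ z ∈ Z, ∃ y ∈ Z', ∃ n : ℕ, X.step^[n] (s', y) = (s, z) ∧
      |(y : ℝ)| + 1 ≤ M * (|(z : ℝ)| + 1)) : X.UD s Z := by
  classical
  obtain ⟨c, hc, x0, h⟩ := h
  refine ⟨c / M, by positivity, |x0| * M, fun z hz N hN => ?_⟩
  obtain ⟨y, hy, n, h1, h2⟩ := hZ z hz
  have a1 := h y hy N (by
    have b1 := mul_le_mul_of_nonneg_left h2 (abs_nonneg x0)
    have b2 := mul_le_mul_of_nonneg_right (le_abs_self x0)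
      (show 0 ≤ |(y : ℝ)| + 1 by positivity)
    rw [mul_assoc] at hN
    linarith)
  have a2 : (#(X.Bas (s', y) N) : ℝ) ≤ #(X.Bas (s, z) N) := by
    refine Nat.cast_le.2 (card_le_card fun w hw => ?_)
    obtain ⟨b1, m, b2⟩ := mem_filter.1 hw
    exact mem_filter.2 ⟨b1, n + m, by rw [Function.iterate_add_apply, b2, h1]⟩
  rw [div_mul_eq_mul_div, div_le_iff₀ (by linarith)]
  calc _ ≤ _ := a1
    _ ≤ M * (|(z : ℝ)| + 1) * #(X.Bas (s, z) N) := by gcongr
    _ = _ := by ring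

omit [DecidableEq E] in
theorem UD.union {s : S} {Z Z' : Set ℤ} (h : X.UD s Z) (h' : X.UD s Z') : X.UD s (Z ∪ Z') := by
  obtain ⟨c, hc, x0, h⟩ := h
  obtain ⟨c', hc', x0', h'⟩ := h'
  refine ⟨min c c', lt_min hc hc', max x0 x0', fun z hz N hN => ?_⟩
  have z0 : 0 ≤ |(z : ℝ)| + 1 := by positivity
  rcases hz with hz | hz
  · exact (mul_le_mul_of_nonneg_right (min_le_left _ _) (Nat.cast_nonneg N)).trans
      (h z hz N ((mul_le_mul_of_nonneg_right (le_max_left _ _) z0).trans hN))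
  · exact (mul_le_mul_of_nonneg_right (min_le_right _ _) (Nat.cast_nonneg N)).trans
      (h' z hz N ((mul_le_mul_of_nonneg_right (le_max_right _ _) z0).trans hN))

omit [DecidableEq E] in
theorem UD.cover {s : S} {Z : Set ℤ} {Q : ℤ} (hQ : 0 < Q)
    (h : ∀ z0 ∈ Z, X.UD s {z | z ∈ Z ∧ Q ∣ z - z0}) : X.UD s Z := by
  have key : ∀ n : ℕ, X.UD s {z | z ∈ Z ∧ z % Q < n} := by
    intro n
    induction n with
    | zero =>
      refine ⟨1, one_pos, 0, fun z hz => ?_⟩
      have := Int.emod_nonneg z hQ.ne'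
      have h2 := hz.2
      simp only [Nat.cast_zero] at h2
      omega
    | succ n ih =>
      by_cases hn : ∃ z0 ∈ Z, z0 % Q = n
      · obtain ⟨z0, h0, h1⟩ := hn
        refine (ih.union (h z0 h0)).mono fun z hz => ?_
        have h2 := hz.2
        push_cast at h2
        by_cases h3 : z % Q < n
        · exact Or.inl ⟨hz.1, h3⟩
        · refine Or.inr ⟨hz.1, Int.dvd_of_emod_eq_zero ?_⟩
          rw [← Int.emod_eq_emod_iff_emod_sub_eq_zero]
          omega
      · refine ih.mono fun z hz => ⟨hz.1, ?_⟩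
        have h2 := hz.2
        push_cast at h2
        by_contra h3
        exact hn ⟨z, hz.1, by omega⟩
  refine (key Q.toNat).mono fun z hz => ⟨hz, ?_⟩
  have := Int.emod_lt_of_pos z hQ
  omega

end Sys

end Pool.Agent.Lib.MP_39d40e_nt
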