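import Pool.Agent.Lib.MP_39d40e_nt.Un0

/-! Uniform positive density: orbits of an affine map fill residue classes, uniformly. -/

namespace Pool.Agent.Lib.MP_39d40e_nt

open Finset

namespace Un

namespace Affx

theorem solve {x M y : ℤ} (h : (Int.gcd x M : ℤ) ∣ y) : ∃ t : ℤ, M ∣ x * t - y := by
  obtain ⟨e, he⟩ := h
  rw [Int.gcd_eq_gcd_ab] at he
  exact ⟨Int.gcdA x M * e, -(Int.gcdB x M * e), by linear_combination -he⟩

theorem gcd_small {B K v : ℕ} {δ : ℤ}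
    (h : ∀ p : ℕ, p.Prime → p ∣ B → ¬ (p : ℤ) ^ v ∣ δ) :
    (Int.gcd δ ((B : ℤ) ^ K) : ℤ) ∣ (B : ℤ) ^ v := by
  have key : Int.gcd δ ((B : ℤ) ^ K) ∣ B ^ v := by
    rw [Nat.dvd_iff_prime_pow_dvd_dvd]
    intro p j hp hj
    rcases Nat.eq_zero_or_pos j with rfl | j0
    · simp
    have h1 : (p : ℤ) ^ j ∣ δ := by
      have := (Int.natCast_dvd_natCast.2 hj).trans (Int.gcd_dvd_left ..)
      exact_mod_cast this
    have h2 : p ∣ B := by
      have h3 := (Int.natCast_dvd_natCast.2 hj).trans (Int.gcd_dvd_right ..)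
      have h4 : p ^ j ∣ B ^ K := by exact_mod_cast h3
      exact hp.dvd_of_dvd_pow ((dvd_pow_self p j0.ne').trans h4)
    have h3 : j ≤ v := by
      by_contra hc
      exact h p hp h2 ((pow_dvd_pow _ (by omega)).trans h1)
    exact (pow_dvd_pow p h3).trans (pow_dvd_pow_of_dvd h2 v)
  exact_mod_cast key

theorem big {a c z : ℤ} (h2 : 1 < a.natAbs) (hz : a * z - c ≠ z) (n0 j : ℕ)
    (hj : (a - 1).natAbs * n0 + c.natAbs ≤ j) : n0 ≤ ((fun y => a * y - c)^[j] z).natAbs := by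
  have h1 := aff_iter a c z j
  have h3 := geom_sum_mul a j
  generalize (fun y => a * y - c)^[j] z = y at h1 ⊢
  have e : (a - 1) * y - c = a ^ j * (a * z - c - z) := by
    linear_combination (a - 1) * h1 + (a * z - c - z) * h3
  have h4 := Int.natAbs_sub_le ((a - 1) * y) c
  rw [e, Int.natAbs_mul, Int.natAbs_mul, Int.natAbs_pow] at h4
  have h5 : 0 < (a * z - c - z).natAbs := Int.natAbs_pos.2 (sub_ne_zero.2 hz)
  have h6 : j < a.natAbs ^ j := Nat.lt_pow_self h2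
  have h7 := Nat.le_mul_of_pos_right (a.natAbs ^ j) h5
  exact (Nat.lt_of_mul_lt_mul_left (a := (a - 1).natAbs) (by omega)).le

end Affx

theorem aff_st : AffSt := by
  intro B a c v hB ha h2
  obtain ⟨N, hN, hN2⟩ : ∃ N : ℕ, 0 < N ∧ (B : ℤ) ^ 2 ∣ a ^ N - 1 := by
    have hu : IsUnit (a : ZMod (B ^ 2)) :=
      (ZMod.coe_int_isUnit_iff_isCoprime a (B ^ 2)).2 (by push_cast; exact ha.pow_left)
    refine ⟨Nat.totient (B ^ 2), Nat.totient_pos.2 (by positivity), ?_⟩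
    have h1 := congrArg Units.val (ZMod.pow_totient hu.unit)
    have h3 := (ZMod.intCast_zmod_eq_zero_iff_dvd (a ^ Nat.totient (B ^ 2) - 1) (B ^ 2)).1 (by
      rw [Units.val_pow_eq_pow_val, IsUnit.unit_spec, Units.val_one] at h1
      push_cast; rw [h1, sub_self])
    exact_mod_cast h3
  set S := ∑ i ∈ range N, a ^ i with hS
  have S0 : S ≠ 0 := by
    intro h
    have h5 := geom_sum_mul a N
    rw [← hS, h, zero_mul] at h5
    have h6 : a ^ N = a ^ 0 := by rw [pow_zero]; linarith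
    exact hN.ne' (Int.pow_right_injective h2 h6)
  have S1 : ∀ p : ℕ, p.Prime → p ∣ B → ¬ (p : ℤ) ^ S.natAbs ∣ S := by
    intro p hp _ hd
    have h1 : p ^ S.natAbs ∣ S.natAbs := Int.natCast_dvd.1 (by exact_mod_cast hd)
    exact absurd (Nat.le_of_dvd (Int.natAbs_pos.2 S0) h1) (not_le.2 (Nat.lt_pow_self hp.one_lt))
  refine ⟨S.natAbs + v, fun K W0 => ?_⟩
  obtain ⟨n0, hn0⟩ := exists_nat_ge W0
  choose J hJ hJ' using fun t : ℕ =>
    geo_onto hB hN2 (t : ℤ) ((a - 1).natAbs * n0 + c.natAbs) K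
  refine ⟨N * (range (B ^ K)).sup J, fun z r hz hp hr => ?_⟩
  obtain ⟨t1, f1, h1⟩ := Affx.solve (Affx.gcd_small (K := K) S1)
  obtain ⟨t2, f2, h3⟩ := Affx.solve (Affx.gcd_small (K := K) hp)
  obtain ⟨e, he⟩ := hr
  have hM : (0 : ℤ) < (B : ℤ) ^ K := by positivity
  obtain ⟨t, ht⟩ := Int.eq_ofNat_of_zero_le (Int.emod_nonneg (t1 * t2 * e) hM.ne')
  have ht2 : t < B ^ K := by
    have := Int.emod_lt_of_pos (t1 * t2 * e) hM
    rw [ht] at this
    exact_mod_cast this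
  have h4 := Int.emod_add_mul_ediv (t1 * t2 * e) ((B : ℤ) ^ K)
  rw [ht] at h4
  obtain ⟨f, hf⟩ := hJ' t
  refine ⟨N * J t, Nat.mul_le_mul_left _ (le_sup (mem_range.2 ht2)), ?_, ?_⟩
  · have h5 := aff_iter a c z (N * J t)
    rw [geo_mul, ← hS] at h5
    refine ⟨S * (a * z - c - z) * (f - t1 * t2 * e / (B : ℤ) ^ K)
      + (f1 * (B : ℤ) ^ v + (B : ℤ) ^ S.natAbs * f2 + (B : ℤ) ^ K * f1 * f2) * e, ?_⟩
    rw [pow_add] at he
    linear_combination h5 - he + S * (a * z - c - z) * hf + S * (a * z - c - z) * h4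
      + (a * z - c - z) * t2 * e * h1 + ((B : ℤ) ^ S.natAbs + (B : ℤ) ^ K * f1) * e * h3
  · have h5 := Affx.big h2 hz n0 (N * J t) ((hJ t).trans (Nat.le_mul_of_pos_left _ hN))
    have h6 : (n0 : ℝ) ≤ ((((fun y => a * y - c)^[N * J t] z).natAbs : ℕ) : ℝ) := by
      exact_mod_cast h5
    rw [Nat.cast_natAbs, Int.cast_abs] at h6
    exact hn0.trans h6

end Un

end Pool.Agent.Lib.MP_39d40e_nt
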