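import Pool.Agent.Lib.MP_39d40e_nt.Un0

/-! Uniform positive density of predecessor sets: the core estimate. -/

namespace Pool.Agent.Lib.MP_39d40e_nt

open Finset Filter

namespace Un

theorem scale {d B cm θ : ℝ} (hd : 1 ≤ d) (hB : 1 ≤ B) (hc : 0 ≤ cm) (h0 : 0 < θ) (h1 : θ < 1)
    (R κ n0 : ℕ) : ∃ C : ℕ, 1 ≤ C ∧ ∀ a0 : ℕ, ∃ X0 : ℝ, 1 ≤ X0 ∧ ∀ X, X0 ≤ X → ∃ (a : ℕ) (x : ℝ),
      a0 ≤ a ∧ 1 ≤ a ∧ x * (2 * d ^ a) = X ∧ 1 ≤ x ∧ d ^ ((R + 1) * a) < x ∧ 2 * B ^ (κ * a) ≤ x ∧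
      ((κ * a : ℕ) : ℝ) * cm * (d * B) ^ (κ * a) ≤ x ∧ d ^ n0 < x ∧ θ ^ (2 * (C * a)) ≤ 1 / x := by
  have p1 : 0 < d ^ (R + 1) := by positivity
  have p2 : 0 < d ^ n0 := by positivity
  have p3 : 0 < 2 * B ^ κ := by positivity
  have p4 : 0 < 2 ^ κ * (cm + 1) * (d * B) ^ κ := by positivity
  obtain ⟨H, hH⟩ : ∃ H, H = 1 + d ^ (R + 1) + d ^ n0 + 2 * B ^ κ
    + 2 ^ κ * (cm + 1) * (d * B) ^ κ := ⟨_, rfl⟩
  have H1 : 1 < H := by linarith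
  have G1 : 1 < 2 * d * H := by nlinarith
  obtain ⟨C, hC⟩ := exists_pow_lt_of_lt_one (show 0 < 1 / (2 * d * H) by positivity) h1
  refine ⟨C + 1, by omega, fun a0 => ⟨(2 * d * H) ^ (a0 + 1), one_le_pow₀ G1.le, fun X hX => ?_⟩⟩
  obtain ⟨a, a1, a2⟩ := exists_nat_pow_near ((one_le_pow₀ G1.le).trans hX) G1
  have a3 : a0 + 1 ≤ a := Nat.lt_succ_iff.1 ((pow_lt_pow_iff_right₀ G1).1 (hX.trans_lt a2))
  have a4 : (2 : ℝ) ≤ 2 ^ a := le_self_pow₀ (by norm_num) (by omega)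
  have X0 : 0 < X := lt_of_lt_of_le (by positivity) a1
  have dp : 1 ≤ d ^ a := one_le_pow₀ hd
  have key : H ^ a ≤ X / (2 * d ^ a) := by
    rw [le_div_iff₀ (by positivity)]
    refine le_trans ?_ a1
    rw [mul_pow, mul_pow, mul_comm]
    gcongr
  have a5 : H ≤ H ^ a := le_self_pow₀ H1.le (by omega)
  refine ⟨a, X / (2 * d ^ a), by omega, by omega, by field_simp, by linarith, ?_, ?_, ?_,
    by linarith, ?_⟩
  · rw [pow_mul]
    exact (pow_lt_pow_left₀ (by linarith) p1.le (by omega)).trans_le key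
  · calc 2 * B ^ (κ * a) ≤ (2 * B ^ κ) ^ a := by rw [mul_pow, pow_mul]; gcongr
      _ ≤ H ^ a := pow_le_pow_left₀ p3.le (by linarith) _
      _ ≤ _ := key
  · have b1 : ((κ * a : ℕ) : ℝ) ≤ (2 ^ κ) ^ a := by
      rw [← pow_mul]; exact_mod_cast (Nat.lt_two_pow_self (n := κ * a)).le
    have b2 : cm ≤ (cm + 1) ^ a :=
      (by linarith : cm ≤ cm + 1).trans (le_self_pow₀ (by linarith) (by omega))
    calc _ ≤ (2 ^ κ) ^ a * (cm + 1) ^ a * ((d * B) ^ κ) ^ a := by rw [pow_mul]; gcongr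
      _ = (2 ^ κ * (cm + 1) * (d * B) ^ κ) ^ a := by simp only [mul_pow]
      _ ≤ H ^ a := pow_le_pow_left₀ p4.le (by linarith) _
      _ ≤ _ := key
  · have b1 : X / (2 * d ^ a) ≤ (2 * d * H) ^ (2 * a) :=
      (div_le_self X0.le (by linarith)).trans (a2.le.trans (pow_le_pow_right₀ G1.le (by omega)))
    have b2 : θ ^ (2 * ((C + 1) * a)) ≤ (1 / (2 * d * H)) ^ (2 * a) := by
      rw [show 2 * ((C + 1) * a) = (C + 1) * (2 * a) by ring, pow_mul]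
      exact pow_le_pow_left₀ (by positivity)
        ((pow_le_pow_of_le_one h0.le h1.le (by omega)).trans hC.le) _
    refine b2.trans ?_
    rw [one_div_pow]
    exact one_div_le_one_div_of_le (by positivity) b1

end Un

namespace Sys

variable {S E : Type} [Fintype S] [Fintype E] [DecidableEq S] [DecidableEq E] (X : Sys S E)

theorem err_sum {Y θ : ℝ} (h0 : 0 < θ) (h1 : θ < 1) (hY : 1 ≤ Y) (s : S) (C : ℕ) (hC : 1 ≤ C) :
    ∃ (A : ℕ) (K : ℝ), 0 ≤ K ∧ ∀ (a : ℕ), 1 ≤ a → ∀ (x : ℝ), 0 < x → ∀ (F : S → ℤ → ℝ) (q : ℕ),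
      0 < q → (q : ℝ) ≤ x → (∀ t y, F t (y + q) = F t y) → (∀ t y, 0 ≤ F t y) → ∀ μ : ℝ, 0 ≤ μ →
      (∀ t, ∑ y ∈ range q, F t y ≤ μ / (a : ℝ) ^ A * q) → ∀ (z : ℤ) (n : ℕ),
      ∑ m ∈ Ioc n (2 * (C * a)), X.Sm m s z (X.Band2 Y θ x) F ≤ K * μ / a := by
  classical
  obtain ⟨g, Cg, hCg, hg⟩ := X.ng_le
  have hπ := X.π_pos s
  have W0 : 0 ≤ X.cmx * Y * (1 - θ)⁻¹ := by
    have := X.cmx_nonneg
    have := sub_pos.2 h1
    positivity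
  obtain ⟨W, hW⟩ : ∃ W, W = X.cmx * Y * (1 - θ)⁻¹ := ⟨_, rfl⟩
  rw [← hW] at W0
  refine ⟨g + 2, Cg * (3 * (C : ℝ)) ^ (g + 1) * (2 * W + 1) / X.π s, by positivity,
    fun a ha x hx F q hq hqx hF hF0 μ hμ0 hμ z n => ?_⟩
  have a0 : (1 : ℝ) ≤ a := by exact_mod_cast ha
  have c0 : (1 : ℝ) ≤ C := by exact_mod_cast hC
  have ca : (1 : ℝ) ≤ C * a := one_le_mul_of_one_le_of_one_le c0 a0
  have one : ∀ m ∈ Ioc n (2 * (C * a)), X.Sm m s z (X.Band2 Y θ x) F ≤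
      Cg * (3 * (C * a : ℝ)) ^ g * ((2 * W + 1) * (μ / (a : ℝ) ^ (g + 2)) / X.π s) := by
    intro m hm
    have key := X.key_sup m s z F q hq hF hF0 _ hμ W W0 (X.Band2 Y θ x) fun l _ hA => by
      refine ⟨hW ▸ hA.1.cP_le h0.le h1 (by linarith), ?_⟩
      have := hA.2.2.2
      rw [le_div_iff₀ hx] at this
      nlinarith [X.rr_pos l]
    refine le_trans key (mul_le_mul_of_nonneg_right ((hg m).trans ?_) (by positivity))
    have : (m : ℝ) ≤ 2 * (C * a) := by exact_mod_cast (mem_Ioc.1 hm).2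
    gcongr; linarith
  refine (sum_le_card_nsmul _ _ _ one).trans ?_
  rw [nsmul_eq_mul]
  have b1 : (#(Ioc n (2 * (C * a))) : ℝ) ≤ 3 * (C * a) := by
    have : #(Ioc n (2 * (C * a))) ≤ 3 * (C * a) := by rw [Nat.card_Ioc]; omega
    exact_mod_cast this
  refine (mul_le_mul_of_nonneg_right b1 (by positivity)).trans (le_of_eq ?_)
  field_simp
  ring

theorem Sm_split {n s z A} {F F1 F2 F3 : S → ℤ → ℝ}
    (h : ∀ t y, F t y ≤ F1 t y + F1 t y + F2 t y + F3 t y) :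
    X.Sm n s z A F ≤ 2 * X.Sm n s z A F1 + X.Sm n s z A F2 + X.Sm n s z A F3 := by
  refine (X.Sm_mono h).trans (le_of_eq ?_)
  rw [two_mul]
  unfold Sm
  rw [← Ex_add, ← Ex_add, ← Ex_add]
  refine X.Ex_congr fun l _ => ?_
  split_ifs
  · rw [pull_add, pull_add, pull_add]
  · simp

end Sys

namespace Un

theorem core_st (hS : StageSt) (hI : InnerSt) (hCt : CountSt) : CoreSt := by
  intro S E _ _ _ _ X hM hP hN s
  classical
  obtain ⟨θ, h0, h1, hT⟩ := X.small_tail hP hN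
  obtain ⟨Y, hY, hPre⟩ := X.pre_prob h0 h1 hT (η := 1 / 4) (by norm_num)
  have hB : (1 : ℝ) ≤ X.B0 := by exact_mod_cast X.B0_pos
  have hd : (1 : ℝ) ≤ X.d := by exact_mod_cast X.d_pos
  have hπ := X.π_pos s
  obtain ⟨R, hR'⟩ := exists_pow_lt_of_lt_one (show 0 < 1 / (X.B0 : ℝ) ^ 2 by positivity) h1
  have hR : θ ^ R * (X.B0 : ℝ) ^ 2 ≤ 1 := by
    rw [lt_div_iff₀ (by positivity)] at hR'; exact hR'.le
  obtain ⟨Ce, hCe, hs⟩ := hS S E X hM Y θ R h0 h1 hY hR hT s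
  obtain ⟨κ, -, hIn⟩ := hI S E X hM θ h0 h1 hT
  obtain ⟨t0, hcnt⟩ := hCt S E X Y θ h0 h1 hY
  obtain ⟨C2, c, hC2, hc, ht⟩ := hT
  obtain ⟨n0, hn0⟩ := exists_nat_ge (max ((R : ℝ) + 1) (max (16 * Ce) (4 * C2 / c)))
  have n1 : R + 1 ≤ n0 := by exact_mod_cast (le_max_left _ _).trans hn0
  have n2 : 16 * Ce ≤ n0 := ((le_max_left _ _).trans (le_max_right _ _)).trans hn0
  have n3 : 4 * C2 / c ≤ n0 := ((le_max_right _ _).trans (le_max_right _ _)).trans hn0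
  have n4 : (0 : ℝ) < n0 := by exact_mod_cast (by omega : 0 < n0)
  set A0 : List E → Prop := fun l => X.Pre Y θ l ∧ X.rr l ≤ θ ^ (2 * n0) with hA0
  have pr : 1 / 2 ≤ X.Pr n0 s A0 := by
    have a1 : X.Pr n0 s (fun _ => True) = 1 := by simp [Sys.Pr, Sys.Ex_const]
    have a2 : X.Pr n0 s (fun _ => True) ≤ X.Pr n0 s
        (fun l => A0 l ∨ (¬ X.Pre Y θ l ∨ θ ^ (2 * n0) < X.rr l)) :=
      X.Pr_mono fun l _ _ => by simp only [hA0, ← not_le]; tauto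
    have a3 := a2.trans ((X.Pr_or _ _ _ _).trans (add_le_add le_rfl ((X.Pr_or _ _ _ _).trans
      (add_le_add (hPre n0 s) (ht n0 s)))))
    have a4 : C2 * Real.exp (-(c * n0)) ≤ 1 / 4 := by
      rw [Real.exp_neg, ← div_eq_mul_inv, div_le_iff₀ (Real.exp_pos _)]
      rw [div_le_iff₀ hc] at n3
      linarith [Real.add_one_le_exp (c * n0)]
    linarith
  set h := n0 / (R + 1) with hh
  obtain ⟨r, -, hr⟩ := exists_le_of_sum_le (s := range (X.B0 ^ (n0 + h)))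
    (f := fun _ => (1 / 2 : ℝ)) (g := fun z : ℕ => X.Sm n0 s z A0 (X.rho h))
    (nonempty_range_iff.2 (pow_pos X.B0_pos _).ne') (by
      rw [Sys.Sm_avg, sum_const, card_range, nsmul_eq_mul, mul_comm]
      gcongr)
  have W0 : 0 ≤ X.cmx * Y * (1 - θ)⁻¹ := by
    have := X.cmx_nonneg
    have := sub_pos.2 h1
    positivity
  obtain ⟨W, hW⟩ : ∃ W, W = X.cmx * Y * (1 - θ)⁻¹ := ⟨_, rfl⟩
  rw [← hW] at W0 hcnt
  obtain ⟨C, hC, hsc⟩ := scale hd hB X.cmx_nonneg h0 h1 R κ n0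
  obtain ⟨A, K, hK, herr⟩ := X.err_sum h0 h1 hY s C hC
  obtain ⟨C1, hC1, hv⟩ := X.Var_avg hM A
  obtain ⟨C3, hC3, hE⟩ := hIn A
  obtain ⟨a0, ha0⟩ := exists_nat_ge (8 * (K * C3 + K * C1))
  obtain ⟨X0, X1, hX0⟩ := hsc a0
  have t1 : (0 : ℝ) < t0 + 1 := by positivity
  refine ⟨n0 + h, r, 2 * W + 3, X.π s / (8 * (t0 + 1) * ((W + 1) * (X.d : ℝ) ^ 2)), by positivity,
    X0 * ((W + 1) * (X.d : ℝ) ^ 2), fun z hz N hNN => ?_⟩
  obtain ⟨hz, hzW⟩ := hz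
  have hV : 1 / 2 ≤ X.Sm n0 s z A0 (X.rho h) := by
    obtain ⟨k, hk⟩ := hz
    have := per_int_mul (fun z => X.Sm n0 s z A0 (X.rho h)) _ (fun z => X.Sm_per n0 h s z A0) k r
    rw [show z = r + k * (X.B0 ^ (n0 + h) : ℕ) by push_cast; linarith, this]
    exact hr
  have z0 := abs_nonneg (z : ℝ)
  obtain ⟨ρ, hρ⟩ : ∃ ρ, ρ = (W + 1) * (X.d : ℝ) ^ 2 * (|(z : ℝ)| + 1) := ⟨_, rfl⟩
  have ρ0 : 0 < ρ := by rw [hρ]; positivity
  obtain ⟨a, x, a1, a2, x3, x2, b1, b2, b3, x1, b4⟩ := hX0 (N / ρ) (by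
    rw [le_div_iff₀ ρ0, hρ, ← mul_assoc]; exact hNN)
  have x0 : 0 < x := by linarith
  have x4 : (N : ℝ) = ρ * (x * (2 * (X.d : ℝ) ^ a)) := by rw [x3]; field_simp
  obtain ⟨Err, e0, e1, e2, e3⟩ := hE a a2
  set Hm := Nat.findGreatest (fun H => (X.B0 : ℝ) ^ H ≤ x) (3 * (C * a)) with hHm
  have m1 : (X.B0 : ℝ) ^ Hm ≤ x :=
    Nat.findGreatest_spec (P := fun H => (X.B0 : ℝ) ^ H ≤ x) (Nat.zero_le _) (by simpa using x2)
  have c1 := hs x x0 (C * a) b4 a b1 (fun t y => X.rho a t y + X.Var a Hm t y)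
    (fun H ha hH hB' t y => by
      have c2 := (abs_le.1 (X.abs_rho_sub ha (Nat.le_findGreatest
        (P := fun H => (X.B0 : ℝ) ^ H ≤ x) hH hB') t y)).2
      linarith)
    (fun t y => add_nonneg (X.rho_nonneg _ _ _) (X.Var_nonneg _ _ _ _)) z n0 n1
  have c3 : X.Sm n0 s z A0 (X.rho h) = X.Sm n0 s z (X.Alive2 Y θ x n0) (X.rho h) := by
    refine X.Ex_congr fun l hl => ?_
    have e : A0 l = X.Alive2 Y θ x n0 l := propext ⟨fun a => ⟨a.1, fun t ht => by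
      refine lt_of_lt_of_le ?_ (X.rr_ge _)
      refine one_div_lt_one_div_of_lt (by positivity) (lt_of_le_of_lt (pow_le_pow_right₀ hd ?_) x1)
      rw [List.length_take, X.length_of_mem_Paths hl]; omega, a.2⟩, fun a => ⟨a.1, a.2.2⟩⟩
    rw [e]
  have c4 := sum_le_sum (s := Ioc n0 (2 * (C * a))) fun m _ =>
    X.Sm_split (n := m) (s := s) (z := z) (A := X.Band2 Y θ x)
      (F := fun t y => X.rho a t y + X.Var a Hm t y) (F1 := X.Cnt (2 * (X.d : ℝ) ^ a) a (κ * a))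
      (F2 := Err) (F3 := X.Var a Hm) fun t y => by linarith [e3 t y]
  rw [sum_add_distrib, sum_add_distrib, ← mul_sum] at c4
  have c5 := herr a a2 x x0 Err _ (pow_pos X.B0_pos _) (by
    push_cast; linarith [pow_pos (show (0 : ℝ) < X.B0 by linarith) (κ * a)]) e1 e0 C3 hC3 e2 z n0
  have c6 := herr a a2 x x0 (X.Var a Hm) _ (pow_pos X.B0_pos Hm) (by push_cast; exact m1)
    (X.Var_per a Hm) (X.Var_nonneg a Hm) C1 hC1 (hv a Hm a2) z n0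
  have dp : 1 ≤ (X.d : ℝ) ^ a := one_le_pow₀ hd
  have d2 : 1 ≤ (X.d : ℝ) ^ 2 := one_le_pow₀ hd
  have c7 := hcnt x (2 * (X.d : ℝ) ^ a) x0 (by positivity) s z (by linarith) a (κ * a) N
    (Ioc n0 (2 * (C * a))) b2 b3 (by
      have u1 : x ≤ x * (2 * (X.d : ℝ) ^ a) := le_mul_of_one_le_right x0.le (by linarith)
      have u2 : x * (2 * (X.d : ℝ) ^ a) ≤ (X.d : ℝ) ^ 2 * (x * (2 * (X.d : ℝ) ^ a)) :=
        le_mul_of_one_le_left (by positivity) d2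
      have u3 : |(z : ℝ)| + W + 1 ≤ (W + 1) * (|(z : ℝ)| + 1) := by nlinarith
      have u4 := mul_le_mul_of_nonneg_right u3
        (show 0 ≤ (X.d : ℝ) ^ 2 * (x * (2 * (X.d : ℝ) ^ a)) by positivity)
      rw [x4, hρ]; linarith)
  have c8 : 2 * Ce / n0 ≤ 1 / 8 := by rw [div_le_iff₀ n4]; linarith
  have c9 : K * C3 / a + K * C1 / a ≤ 1 / 8 := by
    have : (a0 : ℝ) ≤ a := by exact_mod_cast a1
    rw [← add_div, div_le_iff₀ (by exact_mod_cast a2)]; linarith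
  have f1 : 1 / 8 ≤ (t0 + 1) / (x * (2 * (X.d : ℝ) ^ a) * X.π s) * #(X.Bas (s, z) N) := by
    linarith
  rw [div_mul_eq_mul_div, le_div_iff₀ (by positivity)] at f1
  generalize (#(X.Bas (s, z) N) : ℝ) = b at f1 ⊢
  rw [x4, div_mul_eq_mul_div, div_le_iff₀ (by positivity), hρ]
  have f2 := mul_le_mul_of_nonneg_left f1
    (show 0 ≤ 8 * ((W + 1) * (X.d : ℝ) ^ 2 * (|(z : ℝ)| + 1)) by positivity)
  linarith

end Un

end Pool.Agent.Lib.MP_39d40e_nt
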