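import Pool.Agent.Lib.MP_39d40e_nt.Un0

/-! Counting two-stage predecessors with bounded multiplicity. -/

namespace Pool.Agent.Lib.MP_39d40e_nt.Un

open Finset

namespace Countx

variable {S E : Type} [Fintype S] [Fintype E] [DecidableEq S] [DecidableEq E] (X : Sys S E)

theorem eq_orb {n : ℕ} {s : S} {l : List E} (hl : l ∈ X.Paths n s) {z : ℤ} (hv : X.Val l z) :
    l = X.orb n (X.endp s l, X.yv l z) := by
  have h := X.yv_mul hv
  have h1 := X.orb_mem n (X.endp s l, X.yv l z)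
  have h2 := X.orb_endp n (X.endp s l, X.yv l z)
  have h3 := X.orb_mul n (X.endp s l, X.yv l z)
  exact (X.path_unique (u := X.yv l z) hl h1 h2.symm ⟨z, by linarith⟩ (Dvd.intro _ h3)).1

omit [DecidableEq E] in
theorem orb_add (m n : ℕ) (x : S × ℤ) :
    X.orb (m + n) x = X.orb m (X.step^[n] x) ++ X.orb n x := by
  induction m with
  | zero => simp [Sys.orb]
  | succ m ih =>
    rw [Nat.add_right_comm, Sys.orb, Sys.orb, ih, Function.iterate_add_apply]; rfl

theorem Sm_fsum (m : ℕ) (s : S) (z : ℤ) (A : List E → Prop) (I : Finset ℕ)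
    (f : ℕ → S → ℤ → ℝ) :
    X.Sm m s z A (fun t y => ∑ j ∈ I, f j t y) = ∑ j ∈ I, X.Sm m s z A (f j) := by
  classical
  unfold Sys.Sm
  rw [X.sum_Ex]
  refine X.Ex_congr fun l _ => ?_
  split_ifs
  · exact X.pull_fsum I l z fun j => f j (X.endp s l)
  · simp

theorem Sm_split (m j : ℕ) (s : S) (z : ℤ) (A B : List E → Prop) :
    X.Sm m s z A (fun t y => X.Sm j t y B fun _ _ => 1) =
      X.Sm (m + j) s z (fun l => A (l.take m) ∧ B (l.drop m)) fun _ _ => 1 := by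
  classical
  rw [X.Sm_add]
  refine X.Ex_congr fun o ho => ?_
  have hl := X.length_of_mem_Paths ho
  have e : (fun i => A ((o ++ i).take m) ∧ B ((o ++ i).drop m)) = fun i => A o ∧ B i := by
    funext i; rw [List.take_left' hl, List.drop_left' hl]
  simp only [e]
  split_ifs with h
  · simp only [h, true_and]
  · simp [h, Sys.Sm, Sys.Ex, Sys.pull]

omit [DecidableEq E] in
theorem cP_split {W : ℝ} {J : ℕ} {o i : List E} (ho : |(X.cP o : ℝ)| ≤ W * X.DP o)
    (hi : i.length ≤ J) :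
    |(X.cP (o ++ i) : ℝ)| ≤ (X.rr (o ++ i) * (J * X.cmx * (X.d : ℝ) ^ J) + W) * X.DP (o ++ i) := by
  have hd : (1 : ℝ) ≤ X.d := by exact_mod_cast X.d_pos
  have hc := X.cmx_nonneg
  have h1 : |(X.cP i : ℝ)| ≤ |(X.bP i : ℝ)| * (J * X.cmx * (X.d : ℝ) ^ J) := by
    refine (X.abs_cP_le i).trans (mul_le_mul_of_nonneg_left ?_ (abs_nonneg _))
    have h2 : (i.length : ℝ) ≤ J := by exact_mod_cast hi
    have h3 := pow_le_pow_right₀ hd hi
    gcongr
  have h4 : (0 : ℝ) < X.DP (o ++ i) := by exact_mod_cast X.DP_pos (o ++ i)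
  have h5 : (0 : ℝ) < X.DP i := by exact_mod_cast X.DP_pos i
  have h6 : X.rr (o ++ i) * X.DP (o ++ i) = |(X.bP o : ℝ)| * |(X.bP i : ℝ)| := by
    rw [Sys.rr, div_mul_cancel₀ _ h4.ne', X.bP_append]; push_cast; rw [abs_mul]
  have h7 : |(X.cP (o ++ i) : ℝ)| ≤ |(X.bP o : ℝ)| * |(X.cP i : ℝ)| + |(X.cP o : ℝ)| * X.DP i := by
    rw [X.cP_append]; push_cast
    refine (abs_add_le _ _).trans ?_
    rw [abs_mul, abs_mul, abs_of_pos h5]
  have h8 := mul_le_mul_of_nonneg_left h1 (abs_nonneg (X.bP o : ℝ))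
  have h9 := mul_le_mul_of_nonneg_right ho h5.le
  have h10 : (X.DP (o ++ i) : ℝ) = X.DP o * X.DP i := by rw [X.DP_append]; push_cast; rfl
  calc _ ≤ _ := h7
    _ ≤ |(X.bP o : ℝ)| * (|(X.bP i : ℝ)| * (J * X.cmx * (X.d : ℝ) ^ J)) + W * X.DP o * X.DP i :=
        add_le_add h8 h9
    _ = X.rr (o ++ i) * X.DP (o ++ i) * (J * X.cmx * (X.d : ℝ) ^ J) + W * X.DP (o ++ i) := by
        rw [h6, h10]; ring
    _ = _ := by ring

omit [DecidableEq E] in
theorem loop_le {u : List E} {z : ℤ} {W : ℝ} (h : (X.DP u : ℤ) * z = X.bP u * z + X.cP u)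
    (hr : X.rr u ≤ 1 / 2) (hc : |(X.cP u : ℝ)| ≤ W * X.DP u) : |(z : ℝ)| ≤ 2 * W := by
  have h4 : (0 : ℝ) < X.DP u := by exact_mod_cast X.DP_pos u
  have h1 : (X.DP u : ℝ) * z = X.bP u * z + X.cP u := by exact_mod_cast h
  have h2 : (X.DP u : ℝ) * |(z : ℝ)| ≤ |(X.bP u : ℝ)| * |(z : ℝ)| + |(X.cP u : ℝ)| := by
    rw [← abs_mul, ← abs_of_pos h4, ← abs_mul, h1]
    exact abs_add_le _ _
  rw [Sys.rr, div_le_iff₀ h4] at hr
  have h3 := mul_le_mul_of_nonneg_right hr (abs_nonneg (z : ℝ))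
  have h5 : (X.DP u : ℝ) * |(z : ℝ)| ≤ X.DP u * (2 * W) := by linarith
  exact le_of_mul_le_mul_left h5 h4

omit [DecidableEq E] in
theorem pre_take {Y θ : ℝ} {l : List E} (h : X.Pre Y θ l) (p : ℕ) : X.Pre Y θ (l.take p) := by
  intro t ht
  rw [List.length_take] at ht
  rw [List.take_take, min_eq_left (ht.trans (min_le_left _ _))]
  exact h t (ht.trans (min_le_right _ _))

end Countx

open Countx in
theorem count_st : CountSt := by
  intro S E _ _ _ _ X Y θ h0 h1 hY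
  classical
  obtain ⟨t0, ht0⟩ := exists_pow_lt_of_lt_one (show 0 < 1 / (2 * Y) by positivity) h1
  refine ⟨t0, fun x1 x2 hx1 hx2 s z hz a J N I hB hJ hN => ?_⟩
  have hπ := X.π_pos s
  have hd : (1 : ℝ) ≤ X.d := by exact_mod_cast X.d_pos
  have hB1 : (1 : ℝ) ≤ X.B0 := by exact_mod_cast X.B0_pos
  have hc := X.cmx_nonneg
  set W := X.cmx * Y * (1 - θ)⁻¹ with hW
  have W0 : 0 ≤ W := by
    have := sub_pos.2 h1
    positivity
  set G : ℝ := J * X.cmx * (X.d : ℝ) ^ J with hG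
  have G0 : 0 ≤ G := by positivity
  have hGB : G * (X.B0 : ℝ) ^ J ≤ x1 := by rw [hG, mul_assoc, ← mul_pow]; exact hJ
  have hG1 : G ≤ x1 := (le_mul_of_one_le_right G0 (one_le_pow₀ hB1)).trans hGB
  set L : Finset (Σ _ : ℕ × ℕ, List E) := (I ×ˢ Icc a J).sigma fun q =>
    (X.Paths (q.1 + q.2) s).filter fun l =>
      (X.Band2 Y θ x1 (l.take q.1) ∧ X.Band3 x2 (l.drop q.1)) ∧ X.Val l z with hL
  set φ : (Σ _ : ℕ × ℕ, List E) → S × ℤ := fun p => (X.endp s p.2, X.yv p.2 z) with hφ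
  have mem : ∀ p ∈ L, p.2 ∈ X.Paths (p.1.1 + p.1.2) s ∧
      (X.Band2 Y θ x1 (p.2.take p.1.1) ∧ X.Band3 x2 (p.2.drop p.1.1)) ∧ X.Val p.2 z :=
    fun p hp => mem_filter.1 (mem_sigma.1 hp).2
  have hj : ∀ p ∈ L, p.1.2 ≤ J := fun p hp => (mem_Icc.1 (mem_product.1 (mem_sigma.1 hp).1).2).2
  have len : ∀ p ∈ L, p.2.length = p.1.1 + p.1.2 := fun p hp =>
    X.length_of_mem_Paths (mem p hp).1
  have st : ∀ p ∈ L, X.step^[p.1.1 + p.1.2] (φ p) = (s, z) := fun p hp =>
    X.step_pred (mem p hp).1 (X.yv_mul (mem p hp).2.2)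
  have orbq : ∀ p ∈ L, p.2 = X.orb (p.1.1 + p.1.2) (φ p) := fun p hp =>
    eq_orb X (mem p hp).1 (mem p hp).2.2
  have near : ∀ p ∈ L, ∀ p' ∈ L, φ p = φ p' → p'.1.1 + p'.1.2 ≤ p.1.1 + p.1.2 + t0 := by
    intro p hp p' hp' h
    by_contra hcon
    obtain ⟨P, hP⟩ : ∃ P, p'.1.1 + p'.1.2 = P + (p.1.1 + p.1.2) :=
      ⟨p'.1.1 + p'.1.2 - (p.1.1 + p.1.2), by omega⟩
    have e1 : X.step^[P] (s, z) = (s, z) := by
      have a1 := st p' hp'
      rwa [hP, Function.iterate_add_apply, ← h, st p hp] at a1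
    have e2 : (X.orb P (s, z)).length = P := X.length_of_mem_Paths (X.orb_mem P _)
    have e3 : p'.2.take P = X.orb P (s, z) := by
      rw [orbq p' hp', ← h, hP, orb_add, st p hp, List.take_left' e2]
    have e4 := X.orb_mul P (s, z)
    rw [e1, ← e3] at e4
    obtain ⟨-, ⟨⟨b1, -, -, b4⟩, -⟩, -⟩ := mem p' hp'
    have l1 := len p' hp'
    have l2 := hj p' hp'
    rcases le_total P p'.1.1 with c | c
    · have f1 : p'.2.take P = (p'.2.take p'.1.1).take P := by rw [List.take_take, min_eq_left c]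
      have f2 := b1 P (by rw [List.length_take]; omega)
      have f3 := (pre_take X b1 P).cP_le h0.le h1 (by linarith)
      rw [← f1] at f2 f3
      have f4 : θ ^ P ≤ θ ^ t0 := pow_le_pow_of_le_one h0.le h1.le (by omega)
      have f5 : Y * θ ^ P ≤ 1 / 2 := by
        rw [lt_div_iff₀ (by positivity)] at ht0
        have := mul_le_mul_of_nonneg_left f4 (show 0 ≤ Y by linarith)
        linarith
      have := loop_le X e4 (f2.trans f5) f3
      linarith
    · obtain ⟨k, rfl⟩ := Nat.exists_eq_add_of_le c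
      have f1 : p'.2.take (p'.1.1 + k) = p'.2.take p'.1.1 ++ (p'.2.drop p'.1.1).take k :=
        List.take_add
      have f2 : ((p'.2.drop p'.1.1).take k).length ≤ J := by
        rw [List.length_take]; omega
      have f3 := cP_split X (b1.cP_le h0.le h1 (by linarith)) f2
      have f4 : X.rr (p'.2.take p'.1.1 ++ (p'.2.drop p'.1.1).take k) ≤ 1 / x1 * (X.B0 : ℝ) ^ J := by
        rw [X.rr_append]
        exact mul_le_mul b4 ((X.rr_le _).trans (pow_le_pow_right₀ hB1 f2)) (X.rr_pos _).le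
          (by positivity)
      rw [← f1] at f3 f4
      have f5 : 1 / x1 * (X.B0 : ℝ) ^ J ≤ 1 / 2 := by
        rw [one_div_mul_eq_div, div_le_iff₀ hx1]; linarith
      have f6 : X.rr (p'.2.take (p'.1.1 + k)) * G ≤ 1 := by
        refine (mul_le_mul_of_nonneg_right f4 G0).trans ?_
        rw [mul_assoc, one_div_mul_eq_div, div_le_one hx1]; linarith
      have f7 : (0 : ℝ) ≤ X.DP (p'.2.take (p'.1.1 + k)) := Nat.cast_nonneg _
      have := loop_le X (W := 1 + W) e4 (f4.trans f5)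
        (f3.trans (mul_le_mul_of_nonneg_right (add_le_add f6 le_rfl) f7))
      linarith
  have first : ∀ p ∈ L, ∀ p' ∈ L, p.2 = p'.2 → ¬ p.1.1 < p'.1.1 := by
    intro p hp p' hp' h hlt
    have a1 := (mem p hp).2.1.1.2.2.2
    have l1 := len p' hp'
    have a2 := (mem p' hp').2.1.1.2.1 p.1.1 (by rw [List.length_take]; omega)
    rw [List.take_take, min_eq_left hlt.le, ← h] at a2
    linarith
  have fib : ∀ v, #(L.filter fun p => φ p = v) ≤ t0 + 1 := by
    intro v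
    rcases (L.filter fun p => φ p = v).eq_empty_or_nonempty with h | h
    · rw [h]; simp
    obtain ⟨p0, hp0, hmin⟩ := exists_min_image _ (fun p => p.1.1 + p.1.2) h
    obtain ⟨q1, q2⟩ := mem_filter.1 hp0
    have : #(L.filter fun p => φ p = v) ≤ #(Icc (p0.1.1 + p0.1.2) (p0.1.1 + p0.1.2 + t0)) := by
      refine card_le_card_of_injOn (fun p => p.1.1 + p.1.2) (fun p hp => ?_) ?_
      · have hp' := mem_coe.1 hp
        obtain ⟨r1, r2⟩ := mem_filter.1 hp'
        exact mem_coe.2 (mem_Icc.2 ⟨hmin p hp', near p0 q1 p r1 (q2.trans r2.symm)⟩)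
      · rintro ⟨⟨m, j⟩, l⟩ hp ⟨⟨m', j'⟩, l'⟩ hp' he
        obtain ⟨r1, r2⟩ := mem_filter.1 (mem_coe.1 hp)
        obtain ⟨u1, u2⟩ := mem_filter.1 (mem_coe.1 hp')
        have he' : m + j = m' + j' := he
        have c1 : l = X.orb (m + j) _ := orbq _ r1
        have c2 : l' = X.orb (m' + j') _ := orbq _ u1
        rw [r2] at c1
        rw [u2, ← he'] at c2
        have c3 : l = l' := c1.trans c2.symm
        have c4 : ¬ m < m' := first _ r1 _ u1 c3
        have c5 : ¬ m' < m := first _ u1 _ r1 c3.symm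
        obtain rfl : m = m' := by omega
        obtain rfl : j = j' := by omega
        rw [c3]
    rw [Nat.card_Icc] at this
    omega
  have rrq : ∀ p ∈ L, X.rr p.2 = X.rr (p.2.take p.1.1) * X.rr (p.2.drop p.1.1) := fun p _ => by
    rw [← X.rr_append, List.take_append_drop]
  have sub : ∀ p ∈ L, φ p ∈ X.Bas (s, z) N := by
    intro p hp
    obtain ⟨-, ⟨⟨a1, -, a2, -⟩, a3, -⟩, a4⟩ := mem p hp
    refine mem_filter.2 ⟨mem_product.2 ⟨mem_univ _, mem_Icc.2 (abs_le.1 ?_)⟩, _, st p hp⟩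
    have l1 := len p hp
    have l2 := hj p hp
    have f3 := cP_split X (J := J) (i := p.2.drop p.1.1) (a1.cP_le h0.le h1 (by linarith))
      (by rw [List.length_drop]; omega)
    rw [List.take_append_drop] at f3
    have b1 := X.yv_near a4 f3
    have r0 := X.rr_pos p.2
    have b2 : |(X.DP p.2 : ℝ) * z / X.bP p.2| = |(z : ℝ)| / X.rr p.2 := by
      rw [abs_div, abs_mul, Nat.abs_cast, Sys.rr, div_div_eq_mul_div, mul_comm]
    have b3 : |(X.yv p.2 z : ℝ)| ≤ (|(z : ℝ)| + W) / X.rr p.2 + G := by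
      have := abs_sub_abs_le_abs_sub (X.yv p.2 z : ℝ) (X.DP p.2 * z / X.bP p.2)
      rw [add_div, mul_div_cancel_left₀ _ r0.ne'] at b1
      rw [add_div, ← b2]; linarith
    have b6 : 1 / (X.d * x1) * (1 / (X.d * x2)) ≤ X.rr p.2 := by
      rw [rrq p hp]
      exact mul_le_mul a2.le a3.le (by positivity) (X.rr_pos _).le
    have b4 : (|(z : ℝ)| + W) / X.rr p.2 ≤ (|(z : ℝ)| + W) * ((X.d : ℝ) ^ 2 * (x1 * x2)) := by
      refine (div_le_div_of_nonneg_left (by positivity) (by positivity) b6).trans (le_of_eq ?_)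
      field_simp
    have b5 : |(X.yv p.2 z : ℝ)| ≤ N := by linarith
    exact_mod_cast b5
  calc _ = ∑ p ∈ L, X.wt p.2 * |(X.bP p.2 : ℝ)| := by
        rw [hL, sum_sigma, sum_product]
        refine sum_congr rfl fun m _ => ?_
        rw [show X.Cnt x2 a J = fun t y => ∑ j ∈ Icc a J, X.Sm j t y (X.Band3 x2) fun _ _ => 1
          from rfl, Sm_fsum]
        refine sum_congr rfl fun j _ => ?_
        rw [Sm_split, Sys.Sm, Sys.Ex, sum_filter]
        refine sum_congr rfl fun l _ => ?_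
        rw [X.pull_eq]
        by_cases h2 : X.Band2 Y θ x1 (l.take m) ∧ X.Band3 x2 (l.drop m) <;>
          by_cases h3 : X.Val l z <;> simp [h2, h3]
    _ ≤ ∑ _p ∈ L, 1 / (x1 * x2 * X.π s) := by
        refine sum_le_sum fun p hp => (X.wt_le (mem p hp).1).trans ?_
        rw [← div_div]
        refine div_le_div_of_nonneg_right ?_ hπ.le
        rw [rrq p hp, ← one_div_mul_one_div]
        exact mul_le_mul (mem p hp).2.1.1.2.2.2 (mem p hp).2.1.2.2 (X.rr_pos _).le (by positivity)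
    _ = #L * (1 / (x1 * x2 * X.π s)) := by rw [sum_const, nsmul_eq_mul]
    _ ≤ ((t0 + 1) * #(X.Bas (s, z) N) : ℝ) * (1 / (x1 * x2 * X.π s)) := by
        refine mul_le_mul_of_nonneg_right ?_ (by positivity)
        exact_mod_cast card_le_mul_card_image_of_maps_to sub (t0 + 1) fun v _ => fib v
    _ = _ := by ring

end Pool.Agent.Lib.MP_39d40e_nt.Un
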