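import Pool.Agent.Results.MP_39d40e_nt.UniformBasin
import Pool.Agent.Lib.MP_39d40e_nt.PdF

/-! Sanity check: uniform positive predecessor density for the map `x/2`, `(3x+1)/2`. -/

namespace Pool.Agent.Lib.MP_39d40e_nt

open Finset Filter

theorem collatz_uniform : ∃ c : ℝ, 0 < c ∧ ∃ x0 : ℝ, ∀ a : ℤ, ¬ 3 ∣ a → ∀ X : ℝ, x0 ≤ X →
    c * X ≤ (Set.ncard {x : ℤ | |(x : ℝ)| ≤ X * |(a : ℝ)| ∧
      ∃ j : ℕ, (fun x : ℤ => if x % 2 = 0 then x / 2 else (3 * x + 1) / 2)^[j] x = a} : ℝ) := by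
  have hf : (fun x : ℤ => if x % 2 = 0 then x / 2 else (3 * x + 1) / 2) = T 2 cm cr :=
    funext fun x => (cT x).symm
  have mem : ∀ s : ℕ × ℕ, s ∈ ({(0, 1), (1, 1)} : Finset (ℕ × ℕ)) ↔ s.1 < 2 ∧ s.2 = 1 := by
    rintro ⟨i, j⟩; simp; omega
  have pos : ∀ s s' : ℕ × ℕ, s.2 = 1 → (0 < P 2 cm cr (fun _ => 1) s s' ↔ s'.1 < 2 ∧ s'.2 = 1) := by
    intro s s' h; rw [cP_eq _ _ h]; split_ifs with h1
    · exact iff_of_true (by norm_num) h1
    · exact iff_of_false (lt_irrefl _) h1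
  have hB : ∏ s ∈ ({(0, 1), (1, 1)} : Finset (ℕ × ℕ)), cm s.1 = 3 := by decide
  obtain ⟨c, hc, x0, h⟩ := Pool.Agent.Results.MP_39d40e_nt.UniformBasin.result 2 le_rfl cm cr cm
    (fun _ => 1) (by decide) (by decide) (by simp)
    (by
      intro i; unfold cm; split_ifs
      · exact isCoprime_one_left
      · exact ⟨1, -1, by norm_num⟩)
    (fun _ => ⟨0, dvd_rfl⟩) {(0, 1), (1, 1)}
    (fun s hs => by have := (mem s).1 hs; exact ⟨by omega, 0, by simp [this.2]⟩)
    (fun s hs s' h => (mem s').2 ((pos s s' ((mem s).1 hs).2).1 h))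
    (fun s hs s' hs' => Relation.ReflTransGen.single ((pos s s' ((mem s).1 hs).2).2 ((mem s').1 hs')))
    (fun _ => 1 / 2) (fun _ _ => by norm_num) (by norm_num)
    (fun s' hs' => by
      rw [sum_pair (by decide), cP_eq _ _ rfl, cP_eq _ _ rfl, if_pos ((mem s').1 hs')]; norm_num)
    (by
      have e : (univ : Finset (ZMod 2)) = {0, 1} := by decide
      have f0 : ({(0, 1), (1, 1)} : Finset (ℕ × ℕ)).filter (fun s => (s.1 : ZMod 2) = 0)
        = {(0, 1)} := by decide
      have f1 : ({(0, 1), (1, 1)} : Finset (ℕ × ℕ)).filter (fun s => (s.1 : ZMod 2) = 1)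
        = {(1, 1)} := by decide
      rw [e, prod_pair (by decide), f0, f1, sum_singleton, sum_singleton,
        ← Real.mul_rpow (abs_nonneg _) (abs_nonneg _)]
      refine Real.rpow_lt_one (by positivity) ?_ (by norm_num)
      have g0 : cm 0 = 1 := by decide
      have g1 : cm 1 = 3 := by decide
      rw [g0, g1]; norm_num)
    1 one_pos (fun _ => (0, 1)) (by decide) rfl
    (fun _ _ => ⟨(pos _ _ rfl).2 (by decide), by decide⟩) 1
  refine ⟨c / 3, by positivity, 3 * |x0|, fun a ha X hX => ?_⟩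
  have X0 : 0 ≤ X := le_trans (by positivity) hX
  have e1 : T 2 cm cr (4 * a) = 2 * a := by rw [cT, if_pos (by omega)]; omega
  have key := h (4 * a) (2 * a)
    (fun t ht => by
      rcases (by omega : t = 0 ∨ t = 1) with rfl | rfl
      · exact Int.modEq_iff_dvd.2 ⟨-(2 * a), by simp; ring⟩
      · rw [Function.iterate_one, e1]; exact Int.modEq_iff_dvd.2 ⟨-a, by simp⟩)
    e1 (by omega)
    (fun p hp h3 => by
      rw [hB] at h3
      have : p = 3 := (Nat.prime_dvd_prime_iff_eq hp Nat.prime_three).1 (by exact_mod_cast h3)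
      subst this
      push_cast; omega)
    (fun k => by
      obtain ⟨N, x, -, h2, h3⟩ := c_old (2 * a) (by omega) k
      refine ⟨N, x, fun t => ((((T 2 cm cr)^[t] x) % 2).toNat, 1),
        (mem _).2 ⟨by simp only; omega, rfl⟩, ?_,
        fun t _ => (pos _ _ rfl).2 ⟨by simp only; omega, rfl⟩, fun t _ => ?_, hB ▸ h3,
        by rw [h2]; simp⟩
      · simp only [h2]; congr 1; omega
      · unfold Int.ModEq; simp only; omega)
    (X / 3) (by linarith [le_abs_self x0])
  rw [show c / 3 * X = c * (X / 3) by ring]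
  refine key.trans (Nat.cast_le.2 (Set.ncard_le_ncard ?_
    ((Set.finite_Icc (-⌈X * |(a : ℝ)|⌉) ⌈X * |(a : ℝ)|⌉).subset fun x hx => abs_le.1 ?_)))
  · rintro x ⟨h1, -, j, h2⟩
    refine ⟨h1.trans ?_, j + 1, ?_⟩
    · have a1 : (1 : ℝ) ≤ |(a : ℝ)| := by
        have : 1 ≤ |a| := Int.one_le_abs (by rintro rfl; exact ha (dvd_zero _))
        exact_mod_cast this
      push_cast
      rw [abs_mul, abs_two]
      nlinarith
    · rw [hf, Function.iterate_succ_apply', h2, cT, if_pos (by omega)]; omega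
  · have := hx.1.trans (Int.le_ceil _)
    exact_mod_cast this

end Pool.Agent.Lib.MP_39d40e_nt
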