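import Pool.Agent.Lib.MP_39d40e_nt.Un0

/-! Uniform density of basins: the density at one level against a count of predecessors. -/

namespace Pool.Agent.Lib.MP_39d40e_nt

open Finset

namespace Un

open Sys

namespace Innerx

variable {S E : Type} [Fintype S] [Fintype E] [DecidableEq S] [DecidableEq E] (X : Sys S E)

omit [DecidableEq E] in
theorem cross {x : ℝ} (hx : 0 < x) {o i : List E} (h1 : 1 / x < X.rr o)
    (h2 : X.rr (o ++ i) ≤ 1 / x) : ∃ j ∈ Ioc 0 i.length,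
      1 / (X.d * x) < X.rr (o ++ i.take j) ∧ X.rr (o ++ i.take j) ≤ 1 / x := by
  classical
  have hex : ∃ j, X.rr (o ++ i.take j) ≤ 1 / x := ⟨i.length, by rwa [List.take_length]⟩
  have hj : Nat.find hex ≤ i.length := Nat.find_min' hex (by rwa [List.take_length])
  have hs := Nat.find_spec hex
  obtain ⟨j, hj'⟩ : ∃ j, Nat.find hex = j + 1 := by
    refine Nat.exists_eq_succ_of_ne_zero fun h => ?_
    rw [h] at hs; simp only [List.take_zero, List.append_nil] at hs; linarith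
  have hm : 1 / x < X.rr (o ++ i.take j) := not_le.1 (Nat.find_min hex (by omega))
  rw [hj'] at hj hs
  refine ⟨j + 1, mem_Ioc.2 ⟨by omega, hj⟩, ?_, hs⟩
  have hjl : j < i.length := by omega
  rw [← List.take_append_getElem hjl, ← List.append_assoc, rr_append]
  have a1 := X.rr_ge [i[j]]
  have hd : (0 : ℝ) < X.d := by exact_mod_cast X.d_pos
  simp only [List.length_singleton, pow_one] at a1
  calc 1 / (X.d * x) = 1 / x * (1 / X.d) := by field_simp
    _ < X.rr (o ++ i.take j) * (1 / X.d) := by gcongr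
    _ ≤ _ := mul_le_mul_of_nonneg_left a1 (X.rr_pos _).le

theorem Pr_true (n : ℕ) (s : S) : X.Pr n s (fun _ => True) = 1 := by simp [Pr, Ex_const]

open Classical in
/-- indicator of the band -/
noncomputable def G (x : ℝ) (M : ℤ) (D : ℕ) : ℝ :=
  if 1 / (X.d * x) < |(M : ℝ)| / D ∧ |(M : ℝ)| / D ≤ 1 / x then 1 else 0

omit [DecidableEq E] in
theorem G_nonneg (x : ℝ) (M : ℤ) (D : ℕ) : 0 ≤ G X x M D := by
  unfold G; split_ifs <;> norm_num

omit [DecidableEq E] in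
theorem G_le (x : ℝ) (M : ℤ) (D : ℕ) : G X x M D ≤ 1 := by
  unfold G; split_ifs <;> norm_num

theorem W_full (x : ℝ) (m : ℕ) (t : S) (y : ℤ) : X.W m 0 (G X x) t y =
    X.Sm m t y (fun i => 1 / (X.d * x) < X.rr i ∧ X.rr i ≤ 1 / x) (fun _ _ => 1) := by
  rw [W_zero]
  refine X.Ex_congr fun l _ => ?_
  by_cases h : 1 / (X.d * x) < X.rr l ∧ X.rr l ≤ 1 / x
  · rw [if_pos h]
    congr 1; funext _
    exact if_pos h
  · rw [if_neg h, pull_const, show G X x (X.bP l) (X.DP l) = 0 from if_neg h, mul_zero]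

theorem W_part (x : ℝ) (a r : ℕ) (t : S) (y : ℤ) : X.W a r (G X x) t y =
    X.Ex a t fun o => X.pull o y (fun _ => 1) * X.Pr r (X.endp t o)
      fun i => 1 / (X.d * x) < X.rr (o ++ i) ∧ X.rr (o ++ i) ≤ 1 / x := by
  refine X.Ex_congr fun o _ => ?_
  rw [pull_const]
  congr 1
  refine X.Ex_congr fun i _ => ?_
  rw [← bP_append, ← DP_append]
  by_cases h : 1 / (X.d * x) < X.rr (o ++ i) ∧ X.rr (o ++ i) ≤ 1 / x
  · rw [if_pos h]; exact if_pos h
  · rw [if_neg h]; exact if_neg h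

theorem half {x θ : ℝ} (hx : 0 < x) {o : List E} {k : ℕ} (t : S) (h1 : 1 / x < X.rr o)
    (h2 : X.rr o * θ ^ (2 * k) ≤ 1 / x)
    (h3 : X.Pr k t (fun l => θ ^ (2 * k) < X.rr l) ≤ 1 / 2) :
    1 / 2 ≤ ∑ r ∈ Ioc 0 k, X.Pr r t
      fun i => 1 / (X.d * x) < X.rr (o ++ i) ∧ X.rr (o ++ i) ≤ 1 / x := by
  have a1 : X.Pr k t (fun _ => True) ≤ X.Pr k t (fun i => (∃ r ∈ Ioc 0 k,
      1 / (X.d * x) < X.rr (o ++ i.take r) ∧ X.rr (o ++ i.take r) ≤ 1 / x) ∨
      θ ^ (2 * k) < X.rr i) := X.Pr_mono fun i hi _ => by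
    by_cases hc : θ ^ (2 * k) < X.rr i
    · exact Or.inr hc
    left
    rw [← X.length_of_mem_Paths hi]
    refine cross X hx h1 ?_
    rw [rr_append]
    exact (mul_le_mul_of_nonneg_left (not_lt.1 hc) (X.rr_pos o).le).trans h2
  have a2 := (a1.trans (X.Pr_or _ _ _ _)).trans (add_le_add (X.Pr_exists _ _ _ _) h3)
  rw [Pr_true] at a2
  rw [sum_congr rfl fun r hr => (X.Pr_take' (mem_Ioc.1 hr).2 t fun i =>
    1 / (X.d * x) < X.rr (o ++ i) ∧ X.rr (o ++ i) ≤ 1 / x).symm]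
  linarith

end Innerx

open Innerx in
theorem inner_st : InnerSt := by
  intro S E _ _ _ _ X hM θ h0 h1 hT
  have hd : (1 : ℝ) ≤ X.d := by exact_mod_cast X.d_pos
  have hB : (1 : ℝ) ≤ X.B0 := by exact_mod_cast X.B0_pos
  obtain ⟨n0, hn⟩ := hT.eventually (η := 1 / 2) (by norm_num)
  obtain ⟨R0, hR0⟩ := exists_pow_lt_of_lt_one
    (show 0 < 1 / ((X.B0 : ℝ) * (2 * X.d)) by positivity) h1
  obtain ⟨R, hR⟩ : ∃ R, R = R0 + n0 := ⟨_, rfl⟩
  refine ⟨R + 1, by omega, fun A => ?_⟩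
  obtain ⟨C, hC, hm⟩ := X.mixW hM (A + 2)
  refine ⟨2 * (R : ℝ) ^ 2 * C, by positivity, fun a ha => ?_⟩
  have eK : (R + 1) * a = a + R * a := by ring
  rw [eK]
  set x : ℝ := 2 * (X.d : ℝ) ^ a with hx
  have x0 : 0 < x := by positivity
  have a1 : (0 : ℝ) < a := by exact_mod_cast (by omega : 0 < a)
  refine ⟨fun t y => 2 * ∑ r ∈ Ioc 0 (R * a), |X.W (a + r) 0 (G X x) t y - X.W a r (G X x) t y|,
    fun t y => mul_nonneg zero_le_two (sum_nonneg fun _ _ => abs_nonneg _), fun t y => ?_,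
    fun t => ?_, fun t y => ?_⟩
  · refine congrArg (fun u : ℝ => 2 * u) (sum_congr rfl fun r hr => ?_)
    have := (mem_Ioc.1 hr).2
    rw [per_of_dvd (X.W (a + r) 0 (G X x) t) _ _ (X.W_per _ _ _ t) (pow_dvd_pow _ (by omega)),
      per_of_dvd (X.W a r (G X x) t) _ _ (X.W_per _ _ _ t) (pow_dvd_pow _ (by omega))]
  · rw [← mul_sum, sum_comm]
    have one : ∀ r ∈ Ioc 0 (R * a), ∑ y ∈ range (X.B0 ^ (a + R * a)),
        |X.W (a + r) 0 (G X x) t y - X.W a r (G X x) t y|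
        ≤ (R * a) * C / (a : ℝ) ^ (A + 2) * (X.B0 ^ (a + R * a) : ℕ) := by
      intro r hr
      have hr' := (mem_Ioc.1 hr).2
      obtain ⟨k, hk⟩ : ∃ k, a + R * a = k + (a + r) := ⟨R * a - r, by omega⟩
      have b1 := hm r a (by omega) (G X x) (G_nonneg X x) (G_le X x) t
      have b2 : (r : ℝ) ≤ R * a := by exact_mod_cast hr'
      rw [hk, pow_add X.B0 k, sum_range_mul
        (fun y => |X.W (a + r) 0 (G X x) t y - X.W a r (G X x) t y|) _ (fun z => by
          rw [X.W_per, per_of_dvd (X.W a r (G X x) t) _ _ (X.W_per _ _ _ t)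
            (pow_dvd_pow _ (Nat.le_add_right a r))])]
      calc _ ≤ (X.B0 ^ k : ℕ) * ((r : ℝ) * C / (a : ℝ) ^ (A + 2) * (X.B0 ^ (a + r) : ℕ)) := by
            gcongr
        _ ≤ (X.B0 ^ k : ℕ) * ((R * a : ℝ) * C / (a : ℝ) ^ (A + 2) * (X.B0 ^ (a + r) : ℕ)) := by
            gcongr
        _ = _ := by push_cast; ring
    have b3 := sum_le_card_nsmul _ _ _ one
    rw [Nat.card_Ioc, Nat.sub_zero, nsmul_eq_mul] at b3
    refine (mul_le_mul_of_nonneg_left b3 zero_le_two).trans (le_of_eq ?_)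
    push_cast
    field_simp
    ring
  · have e0 : ∑ m ∈ Ioc a (a + R * a), X.Sm m t y (X.Band3 x) (fun _ _ => 1)
        ≤ X.Cnt x a (a + R * a) t y :=
      sum_le_sum_of_subset_of_nonneg Ioc_subset_Icc_self fun _ _ _ =>
        X.Sm_nonneg fun _ _ => zero_le_one
    have e1 : ∑ m ∈ Ioc a (a + R * a), X.Sm m t y (X.Band3 x) (fun _ _ => 1)
        = ∑ r ∈ Ioc 0 (R * a), X.W (a + r) 0 (G X x) t y := by
      rw [← map_add_left_Ioc 0 (R * a) a |>.trans
        (by simp : Ioc (a + 0) (a + R * a) = Ioc a (a + R * a)), sum_map]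
      exact sum_congr rfl fun r _ => (W_full X x _ t y).symm
    have e2 : X.rho a t y * (1 / 2) ≤ ∑ r ∈ Ioc 0 (R * a), X.W a r (G X x) t y := by
      simp only [W_part]
      rw [sum_Ex, rho, ← Ex_mul_const]
      refine X.Ex_mono fun o ho => ?_
      rw [← mul_sum]
      refine mul_le_mul_of_nonneg_left ?_ (X.pull_nonneg _ _ fun _ => zero_le_one)
      have lo := X.length_of_mem_Paths ho
      have c1 := X.rr_ge o
      have c2 := X.rr_le o
      rw [lo] at c1 c2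
      have c0 : (0 : ℝ) < (X.d : ℝ) ^ a := by positivity
      refine half X x0 _ (lt_of_lt_of_le ?_ c1) ?_ (hn _ (by rw [hR]; nlinarith) _)
      · exact one_div_lt_one_div_of_lt c0 (by linarith)
      · have c3 : θ ^ (2 * (R * a)) ≤ (θ ^ R0) ^ a := by
          rw [← pow_mul]
          exact pow_le_pow_of_le_one h0.le h1.le (by rw [hR]; nlinarith)
        have c4 : (θ ^ R0) ^ a ≤ (1 / ((X.B0 : ℝ) * (2 * X.d))) ^ a :=
          pow_le_pow_left₀ (by positivity) hR0.le a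
        have c5 : (2 : ℝ) ≤ 2 ^ a := le_self_pow₀ one_le_two (by omega)
        calc _ ≤ (X.B0 : ℝ) ^ a * (1 / ((X.B0 : ℝ) * (2 * X.d))) ^ a :=
              mul_le_mul c2 (c3.trans c4) (by positivity) (by positivity)
          _ = 1 / (2 ^ a * (X.d : ℝ) ^ a) := by
              rw [one_div_pow, mul_pow, mul_pow]; field_simp
          _ ≤ _ := one_div_le_one_div_of_le x0 (mul_le_mul_of_nonneg_right c5 c0.le)
    have e3 : ∑ r ∈ Ioc 0 (R * a), X.W a r (G X x) t y ≤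
        ∑ r ∈ Ioc 0 (R * a), X.W (a + r) 0 (G X x) t y +
        ∑ r ∈ Ioc 0 (R * a), |X.W (a + r) 0 (G X x) t y - X.W a r (G X x) t y| := by
      rw [← sum_add_distrib]
      exact sum_le_sum fun r _ => by
        linarith [neg_abs_le (X.W (a + r) 0 (G X x) t y - X.W a r (G X x) t y)]
    rw [e1] at e0
    linarith

end Un

end Pool.Agent.Lib.MP_39d40e_nt
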