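import Pool.Agent.Lib.MP_39d40e_nt.Un0

/-! Uniform positive density of predecessor sets: transfer to Leigh's chain. -/

namespace Pool.Agent.Lib.MP_39d40e_nt.Un

open Finset Filter

namespace Leighx

variable (L : LData)

theorem walk2 (σ : ℕ → ℕ × ℕ) (h0 : σ 0 ∈ L.C) (n : ℕ)
    (h : ∀ t < n, 0 < P L.d L.m L.r L.a (σ t) (σ (t + 1)) ∧ |L.b (σ t).1| = 1) :
    ∃ (hn : σ n ∈ L.C) (u : List L.Ed), u ∈ L.sys.Paths n ⟨σ n, hn⟩ ∧
      L.sys.endp ⟨σ n, hn⟩ u = ⟨σ 0, h0⟩ ∧ |L.sys.bP u| = 1 ∧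
      ∀ y : ℤ, (∀ t ≤ n, (L.sys.step^[t] (⟨σ 0, h0⟩, y)).1.1 = σ t) →
        L.sys.orb n (⟨σ 0, h0⟩, y) = u := by
  induction n with
  | zero => exact ⟨h0, [], by simp, rfl, by simp, fun _ _ => rfl⟩
  | succ n ih =>
    obtain ⟨hn, u, a1, a2, a3, a4⟩ := ih fun t ht => h t (by omega)
    obtain ⟨b1, b2⟩ := h n (by omega)
    have hn' := L.closed _ hn _ b1
    refine ⟨hn', ⟨(⟨σ n, hn⟩, ⟨σ (n + 1), hn'⟩), (L.P_pos _ _).1 b1⟩ :: u,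
      L.sys.cons_mem_Paths.2 ⟨rfl, a1⟩, a2, ?_, fun y hy => ?_⟩
    · rw [Sys.bP_cons, abs_mul, a3, mul_one]; exact b2
    · rw [Sys.orb, a4 y fun t ht => hy t (by omega)]
      congr 1
      refine Subtype.ext (Prod.ext (Subtype.ext ?_) (Subtype.ext ?_))
      · have c1 := hy n (by omega)
        rw [← L.sys.lab_src (L.sys.step^[n] _)] at c1
        exact c1
      · have c1 := hy (n + 1) le_rfl
        rw [Function.iterate_succ_apply'] at c1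
        exact c1

theorem card_le (w : L.St × ℤ) (N' : ℕ) (R : ℝ) (hR : (L.Md : ℝ) * (N' + 1) ≤ R) :
    (#(L.sys.Bas w N') : ℝ) ≤ Fintype.card L.St * (Set.ncard {x : ℤ | |(x : ℝ)| ≤ R ∧
      (∃ s ∈ L.C, x ≡ s.1 [ZMOD (L.d * s.2 : ℕ)]) ∧
      ∃ j : ℕ, (T L.d L.m L.r)^[j] x = L.val w} : ℝ) := by
  classical
  have M1 : (0 : ℝ) < L.Md := by exact_mod_cast L.Md_pos
  have sub : (↑((L.sys.Bas w N').image L.val) : Set ℤ) ⊆ {x : ℤ | |(x : ℝ)| ≤ R ∧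
      (∃ s ∈ L.C, x ≡ s.1 [ZMOD (L.d * s.2 : ℕ)]) ∧
      ∃ j : ℕ, (T L.d L.m L.r)^[j] x = L.val w} := by
    intro x hx
    obtain ⟨v, hv, rfl⟩ := mem_image.1 (mem_coe.1 hx)
    obtain ⟨a1, j, a2⟩ := mem_filter.1 hv
    refine ⟨?_, ⟨_, v.1.2, L.val_mod v⟩, j, by rw [← L.val_iter, a2]⟩
    have a3 : |(v.2 : ℝ)| ≤ N' := by exact_mod_cast abs_le.2 (mem_Icc.1 (mem_product.1 a1).2)
    exact (L.abs_val v).trans (le_trans (by gcongr) hR)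
  have b1 := Set.ncard_le_ncard sub
    ((Set.finite_Icc (-⌈R⌉) ⌈R⌉).subset fun x hx => abs_le.1 (by
      have := hx.1.trans (Int.le_ceil R)
      exact_mod_cast this))
  rw [Set.ncard_coe_finset] at b1
  have b2 : #(L.sys.Bas w N') ≤ Fintype.card L.St * #((L.sys.Bas w N').image L.val) := by
    refine card_le_mul_card_image _ _ fun x _ => ?_
    rw [← card_univ]
    refine card_le_card_of_injOn Prod.fst (fun _ _ => by simp) fun v hv v' hv' e => ?_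
    have e1 := (mem_filter.1 (mem_coe.1 hv)).2.trans (mem_filter.1 (mem_coe.1 hv')).2.symm
    refine Prod.ext e ?_
    unfold LData.val at e1
    rw [e] at e1
    have k0 : (L.d * v'.1.1.2 : ℤ) ≠ 0 := by
      exact_mod_cast (Nat.mul_pos L.d_pos (L.k_pos v'.1.2)).ne'
    exact mul_left_cancel₀ k0 (add_left_cancel e1)
  exact Nat.cast_le.2 (b2.trans (Nat.mul_le_mul_left _ b1)) |>.trans_eq (Nat.cast_mul _ _)

theorem abs_le_val (w : L.St × ℤ) : |(w.2 : ℝ)| + 1 ≤ 2 * (|(L.val w : ℝ)| + 1) := by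
  have h1 : (w.1.1.1 : ℤ) < L.d * w.1.1.2 := by exact_mod_cast L.hC _ w.1.2
  have h2 : (0 : ℤ) ≤ w.1.1.1 := Nat.cast_nonneg _
  have h3 : |w.2| + 1 ≤ 2 * (|L.val w| + 1) := by
    unfold LData.val
    generalize (L.d * w.1.1.2 : ℤ) = q at h1
    generalize (w.1.1.1 : ℤ) = j at h1 h2
    rcases le_total 0 w.2 with h | h
    · rw [abs_of_nonneg h]
      nlinarith [le_abs_self (j + q * w.2), abs_nonneg (j + q * w.2)]
    · rw [abs_of_nonpos h]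
      rcases eq_or_lt_of_le h with h' | h'
      · rw [h']; nlinarith [abs_nonneg (j + q * 0)]
      · nlinarith [neg_abs_le (j + q * w.2), abs_nonneg (j + q * w.2)]
  exact_mod_cast h3

theorem deep (hk : ∀ s ∈ L.C, ∃ n, s.2 ∣ L.d ^ n) {s0 : ℕ × ℕ} (h0 : s0 ∈ L.C) (y : ℤ)
    (hdeep : ∀ k : ℕ, ∃ (N : ℕ) (x : ℤ) (τ : ℕ → ℕ × ℕ), τ 0 ∈ L.C ∧ τ N = s0 ∧
      (∀ t < N, 0 < P L.d L.m L.r L.a (τ t) (τ (t + 1))) ∧
      (∀ t ≤ N, (T L.d L.m L.r)^[t] x ≡ (τ t).1 [ZMOD (L.d * (τ t).2 : ℕ)]) ∧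
      (∏ s ∈ L.C, L.b s.1) ^ k ∣ ∏ t ∈ range N, L.b ((T L.d L.m L.r)^[t] x : ℤ) ∧
      (∏ s ∈ L.C, L.b s.1) ^ k ∣ (T L.d L.m L.r)^[N] x - L.val (⟨s0, h0⟩, y)) (k : ℕ) :
    ∃ l, l ∈ L.sys.Paths l.length ⟨s0, h0⟩ ∧ (L.sys.B0 : ℤ) ^ k ∣ L.sys.bP l ∧
      (L.sys.B0 : ℤ) ^ k ∣ L.sys.DP l * y - L.sys.cP l := by
  obtain ⟨N, x, τ, c1, c2, c3, c4, c5, c6⟩ := hdeep (Fintype.card L.Ed * k)
  obtain ⟨v, rfl⟩ := L.exists_val c1 (c4 0 (Nat.zero_le _))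
  have d0 : (L.sys.B0 : ℤ) ^ k ∣ (∏ s ∈ L.C, L.b s.1) ^ (Fintype.card L.Ed * k) := by
    rw [pow_mul]; exact pow_dvd_pow_of_dvd L.B0_dvd k
  have d1 : (L.sys.step^[N] (⟨τ 0, c1⟩, v)).1 = ⟨s0, h0⟩ :=
    Subtype.ext ((L.follow _ τ N rfl c3 c4 N le_rfl).trans c2)
  have d2 := L.sys.orb_mem N (⟨τ 0, c1⟩, v)
  have d3 := L.sys.orb_mul N (⟨τ 0, c1⟩, v)
  rw [← L.bP_orb] at c5
  rw [← L.val_iter] at c6
  rw [d1] at d2
  refine ⟨_, by rwa [L.sys.length_of_mem_Paths d2], d0.trans c5, ?_⟩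
  have d4 : (L.sys.B0 : ℤ) ^ k ∣ (L.sys.step^[N] (⟨τ 0, c1⟩, v)).2 - y := by
    obtain ⟨j, hj⟩ := hk _ h0
    have f1 : IsCoprime ((L.sys.B0 : ℤ) ^ k) (L.d * s0.2) :=
      (L.sys.B0_cop.pow (m := k) (n := j + 1)).of_isCoprime_of_dvd_right (by
        rw [pow_succ']; exact mul_dvd_mul dvd_rfl (by exact_mod_cast hj))
    refine f1.dvd_of_dvd_mul_left ?_
    have f2 := d0.trans c6
    unfold LData.val at f2
    rw [d1] at f2
    rwa [add_sub_add_left_eq_sub, ← mul_sub] at f2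
  have d5 := ((d0.trans c5).mul_right v).sub
    (d4.mul_left (L.sys.DP (L.sys.orb N (⟨τ 0, c1⟩, v))))
  rwa [show ∀ p q : ℤ, p = q → ((L.sys.B0 : ℤ) ^ k ∣ p) = ((L.sys.B0 : ℤ) ^ k ∣ q) from
    fun p q h => by rw [h]] at d5
  linear_combination -d3

end Leighx

theorem leigh_st (h : UnitSt) : LeighSt := by
  intro L _ hΛ hk n hn σ h0 hσn hσ v
  classical
  obtain ⟨hn', u, a1, a2, a3, a4⟩ := Leighx.walk2 L σ h0 n hσ
  have e : (⟨σ n, hn'⟩ : L.St) = ⟨σ 0, h0⟩ := Subtype.ext hσn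
  rw [e] at a1 a2
  have lu := L.sys.length_of_mem_Paths a1
  obtain ⟨c, hc, x0, H⟩ := h _ _ L.sys L.irred (L.drift hΛ) ⟨σ 0, h0⟩ u ⟨lu ▸ a1, a2⟩ (lu ▸ hn) a3 v
  have M1 : (1 : ℝ) ≤ L.Md := by exact_mod_cast L.Md_pos
  have c0 : 0 < Fintype.card L.St := Fintype.card_pos_iff.2 ⟨⟨σ 0, h0⟩⟩
  have c1 : (0 : ℝ) < Fintype.card L.St := by exact_mod_cast c0
  refine ⟨c / (4 * L.Md * Fintype.card L.St), by positivity, 4 * L.Md * (|x0| + 1),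
    fun y z hy hz hne hp hdeep x hx => ?_⟩
  obtain ⟨y', rfl⟩ := L.exists_val h0 (hy 0 (Nat.zero_le _))
  have b1 := L.follow (⟨σ 0, h0⟩, y') σ n rfl (fun t ht => (hσ t ht).1) hy
  have b2 := a4 y' b1
  have b3 := L.sys.orb_mul n (⟨σ 0, h0⟩, y')
  rw [b2] at b3
  rw [← L.val_iter] at hz
  have b4 : (L.sys.step^[n] (⟨σ 0, h0⟩, y')).1 = ⟨σ 0, h0⟩ :=
    Subtype.ext ((b1 n le_rfl).trans hσn)
  obtain ⟨z', hz'⟩ : ∃ z', L.sys.step^[n] (⟨σ 0, h0⟩, y') = (⟨σ 0, h0⟩, z') :=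
    ⟨_, Prod.ext b4 rfl⟩
  rw [hz'] at hz b3
  subst hz
  have b5 := Leighx.abs_le_val L (⟨σ 0, h0⟩, z')
  simp only at b3 b5
  set r : ℝ := |((L.val (⟨σ 0, h0⟩, z') : ℤ) : ℝ)| + 1 with hr
  have r1 : 1 ≤ r := by rw [hr]; linarith [abs_nonneg ((L.val (⟨σ 0, h0⟩, z') : ℤ) : ℝ)]
  have q0 := abs_nonneg x0
  have x1 : 4 * (|x0| + 1) ≤ x / L.Md := by rw [le_div_iff₀ (by linarith)]; linarith
  have x2 : 4 * (|x0| + 1) * r ≤ x / L.Md * r := by gcongr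
  have x3 : 4 ≤ x / L.Md * r := by nlinarith
  have n1 : (⌊x / L.Md * r - 1⌋₊ : ℝ) ≤ x / L.Md * r - 1 := Nat.floor_le (by linarith)
  have n2 : x / L.Md * r - 1 < (⌊x / L.Md * r - 1⌋₊ : ℝ) + 1 := Nat.lt_floor_add_one _
  generalize ⌊x / L.Md * r - 1⌋₊ = N' at n1 n2
  have b6 := H z' ⟨y', by linarith, fun h => hne (by rw [h]), fun p hp1 hp2 hp3 => ?_,
    Leighx.deep L hk h0 z' hdeep⟩ N' (by
      have := mul_le_mul (le_abs_self x0) b5 (by positivity) q0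
      nlinarith)
  · have b7 := Leighx.card_le L (⟨σ 0, h0⟩, z') N' (x * r) (by
      have : (L.Md : ℝ) * (x / L.Md * r) = x * r := by field_simp
      rw [← this]; gcongr; linarith)
    generalize (Set.ncard _ : ℝ) = m at b7 ⊢
    have b8 : c * (x / L.Md * r / 2) ≤ 2 * r * (Fintype.card L.St * m) :=
      (mul_le_mul_of_nonneg_left (by linarith) hc.le).trans (b6.trans
        (mul_le_mul b5 b7 (by positivity) (by positivity)))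
    have b9 : c * (x / L.Md) ≤ 4 * (Fintype.card L.St * m) :=
      le_of_mul_le_mul_right (by linarith) (show 0 < r by linarith)
    rw [← mul_div_assoc, div_le_iff₀ (by linarith)] at b9
    rw [div_mul_eq_mul_div, div_le_iff₀ (by positivity)]
    linarith
  · refine hp p hp1 ((Nat.prime_iff_prime_int.1 hp1).dvd_of_dvd_pow
      ((Int.natCast_dvd_natCast.2 hp2).trans L.B0_dvd)) ?_
    unfold LData.val
    rw [add_sub_add_left_eq_sub, ← mul_sub]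
    exact hp3.mul_left _

end Pool.Agent.Lib.MP_39d40e_nt.Un
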