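import Pool.Agent.Lib.MP_39d40e_nt.Un0

/-! The uniform statement contains the statement for one point. -/

namespace Pool.Agent.Lib.MP_39d40e_nt.Un

open Finset Filter

/-- every point of the class has a predecessor along a unit walk -/
theorem exists_pred (L : LData) (n : ℕ) (σ : ℕ → ℕ × ℕ) (h0 : σ 0 ∈ L.C) (hσn : σ n = σ 0)
    (hσ : ∀ t < n, 0 < P L.d L.m L.r L.a (σ t) (σ (t + 1)) ∧ |L.b (σ t).1| = 1)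
    (z : ℤ) (hz : z ≡ (σ 0).1 [ZMOD (L.d * (σ 0).2 : ℕ)]) :
    ∃ y : ℤ, (∀ t ≤ n, (T L.d L.m L.r)^[t] y ≡ (σ t).1 [ZMOD (L.d * (σ t).2 : ℕ)]) ∧
      (T L.d L.m L.r)^[n] y = z := by
  obtain ⟨z', rfl⟩ := L.exists_val h0 hz
  obtain ⟨hn', u, a1, a2, a3, a4⟩ := L.walk σ h0 n hσ
  have e : (⟨σ n, hn'⟩ : L.St) = ⟨σ 0, h0⟩ := Subtype.ext hσn
  rw [e] at a1 a2
  have sq : L.sys.bP u * L.sys.bP u = 1 := by rw [← abs_mul_abs_self, a3, one_mul]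
  set y' := L.sys.bP u * (L.sys.DP u * z' - L.sys.cP u) with hy'
  have h : L.sys.bP u * y' = L.sys.DP u * z' - L.sys.cP u := by
    rw [hy', ← mul_assoc, sq, one_mul]
  have b1 := L.sys.step_pred a1 h
  rw [a2] at b1
  have b2 := (L.sys.path_unique (u := y') (L.sys.orb_mem n (⟨σ 0, h0⟩, y')) a1
    ((L.sys.orb_endp n _).trans a2.symm) (Dvd.intro _ (L.sys.orb_mul n _)) ⟨z', by linarith⟩).1
  refine ⟨L.val (⟨σ 0, h0⟩, y'), fun t ht => ?_, by rw [← L.val_iter, b1]⟩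
  rcases ht.lt_or_eq with ht | rfl
  · rw [← L.val_iter, ← a4 y' b2 t ht]
    exact L.val_mod _
  · rw [← L.val_iter, b1, hσn]
    exact L.val_mod _

theorem old_of_leigh (H : LeighSt) (L : LData) [NeZero L.d]
    (hΛ : ∏ i : ZMod L.d, |(L.m i : ℝ) / L.d| ^ (∑ s ∈ L.C with (s.1 : ZMod L.d) = i, L.ρ s) < 1)
    (hk : ∀ s ∈ L.C, ∃ n, s.2 ∣ L.d ^ n)
    (n : ℕ) (hn : 0 < n) (σ : ℕ → ℕ × ℕ) (h0 : σ 0 ∈ L.C) (hσn : σ n = σ 0)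
    (hσ : ∀ t < n, 0 < P L.d L.m L.r L.a (σ t) (σ (t + 1)) ∧ |L.b (σ t).1| = 1)
    (z : ℤ) (hz : z ≡ (σ 0).1 [ZMOD (L.d * (σ 0).2 : ℕ)])
    (hfix : ¬ ((T L.d L.m L.r)^[n] z = z ∧
      ∀ t < n, (T L.d L.m L.r)^[t] z ≡ (σ t).1 [ZMOD (L.d * (σ t).2 : ℕ)]))
    (hdeep : ∀ k : ℕ, ∃ (N : ℕ) (x : ℤ) (τ : ℕ → ℕ × ℕ), τ 0 ∈ L.C ∧ τ N = σ 0 ∧
      (∀ t < N, 0 < P L.d L.m L.r L.a (τ t) (τ (t + 1))) ∧
      (∀ t ≤ N, (T L.d L.m L.r)^[t] x ≡ (τ t).1 [ZMOD (L.d * (τ t).2 : ℕ)]) ∧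
      (∏ s ∈ L.C, L.b s.1) ^ k ∣ ∏ t ∈ range N, L.b ((T L.d L.m L.r)^[t] x : ℤ) ∧
      (∏ s ∈ L.C, L.b s.1) ^ k ∣ (T L.d L.m L.r)^[N] x - z) :
    ∃ c : ℝ, 0 < c ∧ ∀ᶠ N : ℕ in atTop,
      c * N ≤ (Set.ncard {x : ℤ | |x| ≤ N ∧ (∃ s ∈ L.C, x ≡ s.1 [ZMOD (L.d * s.2 : ℕ)]) ∧
        ∃ j : ℕ, (T L.d L.m L.r)^[j] x = z} : ℝ) := by
  obtain ⟨y, h1, h2⟩ := exists_pred L n σ h0 hσn hσ z hz
  have h3 : y ≠ z := by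
    rintro rfl
    exact hfix ⟨h2, fun t ht => h1 t ht.le⟩
  obtain ⟨c, hc, x0, hx⟩ := H L hΛ hk n hn σ h0 hσn hσ (y - z).natAbs
  have r0 : 0 < |(z : ℝ)| + 1 := by positivity
  refine ⟨c / (|(z : ℝ)| + 1), by positivity,
    eventually_atTop.2 ⟨⌈x0 * (|(z : ℝ)| + 1)⌉₊, fun N hN => ?_⟩⟩
  have h4 := hx y z h1 h2 h3 (fun p hp _ hd => by
    have a1 : p ^ (y - z).natAbs ∣ (y - z).natAbs := by
      have := Int.natAbs_dvd_natAbs.2 hd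
      rwa [Int.natAbs_pow, Int.natAbs_natCast] at this
    exact absurd (Nat.le_of_dvd (Int.natAbs_pos.2 (sub_ne_zero.2 h3)) a1)
      (not_le.2 (Nat.lt_pow_self hp.one_lt))) hdeep (N / (|(z : ℝ)| + 1))
    (by rw [le_div_iff₀ r0]; exact Nat.ceil_le.1 hN)
  rw [div_mul_cancel₀ _ r0.ne'] at h4
  have e : {w : ℤ | |(w : ℝ)| ≤ N ∧ (∃ s ∈ L.C, w ≡ s.1 [ZMOD (L.d * s.2 : ℕ)]) ∧
      ∃ j : ℕ, (T L.d L.m L.r)^[j] w = z} = {x : ℤ | |x| ≤ N ∧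
      (∃ s ∈ L.C, x ≡ s.1 [ZMOD (L.d * s.2 : ℕ)]) ∧ ∃ j : ℕ, (T L.d L.m L.r)^[j] x = z} := by
    ext w
    refine and_congr_left fun _ => ?_
    exact_mod_cast Iff.rfl
  rw [e] at h4
  calc _ = c * (N / (|(z : ℝ)| + 1)) := by ring
    _ ≤ _ := h4

end Pool.Agent.Lib.MP_39d40e_nt.Un
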