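import Pool.Agent.Lib.MP_39d40e_nt.Un0

/-! Uniform positive density: systems with a unit cycle, and transport along a path. -/

namespace Pool.Agent.Lib.MP_39d40e_nt

open Finset

namespace Un

namespace Openx

open Sys

variable {S E : Type} [Fintype S] [Fintype E] [DecidableEq S] [DecidableEq E] (X : Sys S E)

omit [DecidableEq E] in
theorem ud_pred {s s2 : S} {Z Z2 : Set ℤ} (h : X.UD s2 Z2) (M : ℝ) (hM : 1 ≤ M)
    (hp : ∀ z ∈ Z, ∃ y ∈ Z2, ∃ n : ℕ, X.step^[n] (s2, y) = (s, z) ∧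
      |(y : ℝ)| + 1 ≤ M * (|(z : ℝ)| + 1)) : X.UD s Z := by
  classical
  obtain ⟨c, hc, x0, hx⟩ := h
  have M0 : 0 < M := by linarith
  refine ⟨c / M, by positivity, |x0| * M, fun z hz N hN => ?_⟩
  obtain ⟨y, hy, n, st, hb⟩ := hp z hz
  have a1 : x0 * (|(y : ℝ)| + 1) ≤ N := by
    calc _ ≤ |x0| * (|(y : ℝ)| + 1) := mul_le_mul_of_nonneg_right (le_abs_self _) (by positivity)
      _ ≤ |x0| * (M * (|(z : ℝ)| + 1)) := mul_le_mul_of_nonneg_left hb (abs_nonneg _)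
      _ ≤ N := by rw [← mul_assoc]; exact hN
  have a2 := hx y hy N a1
  have a3 : (#(X.Bas (s2, y) N) : ℝ) ≤ #(X.Bas (s, z) N) := by
    refine Nat.cast_le.2 (card_le_card fun w hw => ?_)
    obtain ⟨h1, m, h2⟩ := mem_filter.1 hw
    exact mem_filter.2 ⟨h1, n + m, by rw [Function.iterate_add_apply, h2, st]⟩
  rw [div_mul_eq_mul_div, div_le_iff₀ M0]
  calc c * N ≤ (|(y : ℝ)| + 1) * #(X.Bas (s2, y) N) := a2
    _ ≤ (M * (|(z : ℝ)| + 1)) * #(X.Bas (s, z) N) :=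
        mul_le_mul hb a3 (by positivity) (by positivity)
    _ = _ := by ring

theorem of_good (hC : CoreSt) {L : ℕ} (h : (X.pow L).Good) : X.OpenU := by
  classical
  intro s
  obtain ⟨K, r, W0, c, hc, x0, hK⟩ := hC _ _ (X.pow L) h.mix (h.poisson _ addi_log) h.drift s
  have e : (X.pow L).step = X.step^[L] := funext (X.pow_step L)
  have hd : (X.pow L).B0 ∣ X.B0 ^ (L * Fintype.card (X.PE L)) := by
    rw [pow_mul, ← card_univ, ← prod_const]
    refine prod_dvd_prod_of_dvd _ _ fun e _ => ?_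
    have := X.natAbs_bP_dvd e.1.2
    rwa [X.length_of_mem_Paths (X.mem_PF.1 e.2)] at this
  refine ⟨L * Fintype.card (X.PE L) * K, r, W0, c, hc, x0, fun z hz N hN => ?_⟩
  refine (hK z ⟨Dvd.dvd.trans (by
    rw [pow_mul]; exact pow_dvd_pow_of_dvd (by exact_mod_cast hd) K) hz.1, hz.2⟩ N hN).trans ?_
  refine mul_le_mul_of_nonneg_left (Nat.cast_le.2 (card_le_card fun v hv => ?_)) (by positivity)
  obtain ⟨h1, n, h2⟩ := mem_filter.1 hv
  rw [e, ← Function.iterate_mul] at h2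
  exact mem_filter.2 ⟨h1, _, h2⟩

theorem of_unit (hC : CoreSt) (hI : X.Irred) (hN : X.Neg) {s0 : S} {u : List E}
    (hu : X.Pa s0 u s0) (hb : |X.bP u| = 1) (hD : 2 ≤ X.DP u) : X.OpenU := by
  by_cases h : X.B0 = 1
  · exact hC _ _ X (X.mix_of_one h) (hI.poisson _) hN
  obtain ⟨e, he⟩ : ∃ e, (X.b e).natAbs ≠ 1 := by
    by_contra hn
    push Not at hn
    exact h (prod_eq_one fun e _ => hn e)
  obtain ⟨k, hk⟩ := hI.conn s0 (X.tgt e)
  obtain ⟨w, hw⟩ := hI.conn (X.src e) s0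
  obtain ⟨L, hL, hG⟩ := X.exists_good2 hI hN s0 _ u (hk.append ((Pa.single e).append hw)) hu (by
    intro x y hxy h1
    set g := k ++ ([e] ++ w) with hg
    have p1 : (0 : ℝ) < X.DP g := by exact_mod_cast X.DP_pos g
    have p2 : (2 : ℝ) ≤ X.DP u := by exact_mod_cast hD
    have p3 : |(X.bP u : ℝ)| = 1 := by exact_mod_cast hb
    rw [rr, rr, p3, div_pow, div_pow, one_pow, div_eq_div_iff (by positivity) (by positivity),
      one_mul] at h1
    have h2 : |X.bP g| ^ y * (X.DP u : ℤ) ^ x = (X.DP g : ℤ) ^ y := by exact_mod_cast h1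
    rcases Nat.eq_zero_or_pos y with rfl | hy
    · have : (1 : ℝ) < (X.DP u : ℝ) ^ x := one_lt_pow₀ (by linarith) (by omega)
      simp only [pow_zero, one_mul] at h1
      linarith
    · have h3 : X.b e ∣ X.bP g := by
        rw [hg, bP_append, bP_append]
        exact Dvd.dvd.mul_left (Dvd.dvd.mul_right (by simp) _) _
      have h4 : X.b e ∣ (X.DP g : ℤ) ^ y := by
        rw [← h2]
        exact ((h3.trans (self_dvd_abs _)).trans (dvd_pow_self _ hy.ne')).mul_right _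
      have h5 : IsCoprime (X.b e) ((X.DP g : ℤ) ^ y) := by
        simpa using (X.bP_cop_DP [e] g).pow_right
      exact he (Int.isUnit_iff_natAbs_eq.1 (h5.isUnit_of_dvd' dvd_rfl h4)))
  exact of_good X hC hG

theorem push (h : X.OpenU) {s : S} {l : List E} (hl : l ∈ X.Paths l.length s) :
    ∃ (K : ℕ) (r : ℤ) (W0 : ℝ), X.Val l r ∧
      X.UD s {z | (X.B0 : ℤ) ^ K ∣ z - r ∧ W0 ≤ |(z : ℝ)|} := by
  obtain ⟨K, r, W0, hK⟩ := h (X.endp s l)
  have hc : IsCoprime (X.bP l * (X.B0 : ℤ) ^ K) (X.DP l) := (X.bP_cop_DP l l).mul_left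
    ((X.B0_cop.pow (m := K) (n := l.length)).of_isCoprime_of_dvd_right
      (by exact_mod_cast X.DP_dvd l))
  obtain ⟨a, b, hab⟩ := hc
  obtain ⟨w, hw⟩ := X.bP_dvd l
  set t := X.bP l * r + X.cP l with ht
  have D1 : (1 : ℝ) ≤ X.DP l := by exact_mod_cast X.DP_pos l
  have b1 := X.one_le_abs_bP l
  refine ⟨l.length + K, b * t, |W0| * |(X.bP l : ℝ)| + |(X.cP l : ℝ)|,
    ⟨r - a * t * X.B0 ^ K, by linear_combination t * hab + ht⟩,
    ud_pred X hK (X.DP l + |(X.cP l : ℝ)| + 1) (by linarith [abs_nonneg (X.cP l : ℝ)])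
      fun z hz => ?_⟩
  obtain ⟨⟨m, hm⟩, hz'⟩ := hz
  obtain ⟨y, hy⟩ : ∃ y, y = r + X.B0 ^ K * (X.DP l * w * m - a * t) := ⟨_, rfl⟩
  have e : X.bP l * y = X.DP l * z - X.cP l := by
    rw [pow_add, hw] at hm
    rw [hy]
    linear_combination -t * hab - ht - X.DP l * hm
  have e' : (X.bP l : ℝ) * y = X.DP l * z - X.cP l := by exact_mod_cast e
  have e1 : |(X.bP l : ℝ)| * |(y : ℝ)| = |(X.DP l : ℝ) * z - X.cP l| := by rw [← abs_mul, e']
  have e2 : |(X.DP l : ℝ) * z| = X.DP l * |(z : ℝ)| := by rw [abs_mul, Nat.abs_cast]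
  have z0 := abs_nonneg (z : ℝ)
  have y0 := abs_nonneg (y : ℝ)
  have c0 := abs_nonneg (X.cP l : ℝ)
  have u1 : |(X.bP l : ℝ)| * |(y : ℝ)| ≤ X.DP l * |(z : ℝ)| + |(X.cP l : ℝ)| := by
    rw [e1, ← e2]; exact abs_sub _ _
  have u2 : X.DP l * |(z : ℝ)| - |(X.cP l : ℝ)| ≤ |(X.bP l : ℝ)| * |(y : ℝ)| := by
    rw [e1, ← e2]; exact abs_sub_abs_le_abs_sub _ _
  refine ⟨y, ⟨⟨X.DP l * w * m - a * t, by rw [hy]; ring⟩, ?_⟩, l.length, X.step_pred hl e, ?_⟩
  · refine (le_abs_self W0).trans (le_of_mul_le_mul_left (a := |(X.bP l : ℝ)|) ?_ (by linarith))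
    nlinarith
  · nlinarith [mul_nonneg c0 z0]

end Openx

theorem open_st (h : CoreSt) : OpenSt :=
  fun _ _ _ _ _ _ X hI hN _ _ hu hb hD _ _ hl => Openx.push X (Openx.of_unit X h hI hN hu hb hD) hl

end Un

end Pool.Agent.Lib.MP_39d40e_nt
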