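import Pool.Agent.Lib.MP_39d40e_nt.Un0

/-! Uniform density of predecessor sets: the stages of the exploration, with first passage. -/

namespace Pool.Agent.Lib.MP_39d40e_nt.Un

open Finset

namespace Stagex

variable {S E : Type} [Fintype S] [Fintype E] [DecidableEq S] [DecidableEq E] (X : Sys S E)

omit [DecidableEq E] in
theorem tricho {Y θ x : ℝ} (h0 : 0 < θ) (h1 : θ < 1) (hY : 1 ≤ Y) (hx : 0 < x) {R k n : ℕ}
    (hR : θ ^ R * (X.B0 : ℝ) ^ 2 ≤ 1) {o i : List E} (hn : o.length = n)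
    (ho : X.Alive2 Y θ x n o) (hk : (R + 1) * k ≤ n) (hi : i.length = k) :
    (∃ j ∈ Ioc 0 k, X.Band2 Y θ x (o ++ i.take j)) ∨ X.Alive2 Y θ x (n + k) (o ++ i) ∨
      θ ^ (2 * k) < X.rr i := by
  classical
  subst hn
  obtain ⟨p1, p2, p3⟩ := ho
  by_cases hc : θ ^ (2 * k) < X.rr i
  · exact Or.inr (Or.inr hc)
  by_cases hu : ∀ j ≤ k, 1 / x < X.rr (o ++ i.take j)
  · refine Or.inr (Or.inl ⟨X.pre_ext h0 h1 hY hR p1 p3 hk hi.le, fun t ht => ?_, ?_⟩)
    · rcases le_total t o.length with h | h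
      · rw [List.take_append_of_le_length h]; exact p2 t h
      · obtain ⟨j, rfl⟩ := Nat.exists_eq_add_of_le h
        rw [List.length_append] at ht
        rw [List.take_length_add_append]
        exact hu j (by omega)
    · rw [Sys.rr_append, mul_add, pow_add]
      exact mul_le_mul p3 (not_lt.1 hc) (X.rr_pos _).le (by positivity)
  left
  simp only [not_forall, not_lt] at hu
  obtain ⟨j0, hj0, hu⟩ := hu
  have hex : ∃ j, X.rr (o ++ i.take j) ≤ 1 / x := ⟨j0, hu⟩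
  have hj : Nat.find hex ≤ k := (Nat.find_min' hex hu).trans hj0
  have hs := Nat.find_spec hex
  obtain ⟨j, hj'⟩ : ∃ j, Nat.find hex = j + 1 := by
    refine Nat.exists_eq_succ_of_ne_zero fun h => ?_
    have := p2 o.length le_rfl
    rw [List.take_length] at this
    rw [h] at hs; simp only [List.take_zero, List.append_nil] at hs; linarith
  have hm : ∀ t ≤ j, 1 / x < X.rr (o ++ i.take t) := fun t ht =>
    not_le.1 (Nat.find_min hex (by omega))
  rw [hj'] at hj hs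
  refine ⟨j + 1, mem_Ioc.2 ⟨by omega, hj⟩, X.pre_ext h0 h1 hY hR p1 p3 hk
    (by rw [List.length_take]; omega), fun t ht => ?_, ?_, hs⟩
  · rcases le_total t o.length with h | h
    · rw [List.take_append_of_le_length h]; exact p2 t h
    · obtain ⟨j', rfl⟩ := Nat.exists_eq_add_of_le h
      rw [List.length_append, List.length_take] at ht
      rw [List.take_length_add_append, List.take_take, min_eq_left (by omega)]
      exact hm j' (by omega)
  have hjl : j < i.length := by omega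
  have hm' := hm j le_rfl
  rw [← List.take_append_getElem hjl, ← List.append_assoc, Sys.rr_append]
  have a1 := X.rr_ge [i[j]]
  have hd : (0 : ℝ) < X.d := by exact_mod_cast X.d_pos
  simp only [List.length_singleton, pow_one] at a1
  calc 1 / (X.d * x) = 1 / x * (1 / X.d) := by field_simp
    _ < X.rr (o ++ i.take j) * (1 / X.d) := by gcongr
    _ ≤ _ := mul_le_mul_of_nonneg_left a1 (X.rr_pos _).le

theorem point {Y θ x : ℝ} (h0 : 0 < θ) (h1 : θ < 1) (hY : 1 ≤ Y) (hx : 0 < x) {R k n h : ℕ}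
    (hR : θ ^ R * (X.B0 : ℝ) ^ 2 ≤ 1) {o : List E} (hn : o.length = n)
    (ho : X.Alive2 Y θ x n o) (hk : (R + 1) * k ≤ n) {Ψ : S → ℤ → ℝ}
    (hΨ : (∀ H, h ≤ H → H ≤ k + h → ∀ t y, X.rho H t y ≤ Ψ t y) ∨
      ∀ l : List E, l.length ≤ n + k → ¬ X.Band2 Y θ x l) (hΨ0 : ∀ t y, 0 ≤ Ψ t y)
    (t : S) (y : ℤ) :
    X.rho k t y ≤ ∑ j ∈ Ioc 0 k, X.Sm j t y (fun i => X.Band2 Y θ x (o ++ i)) Ψ
      + X.Sm k t y (fun i => X.Alive2 Y θ x (n + k) (o ++ i)) (X.rho h)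
      + (X.Var k (k + h) t y + X.Sm k t y (fun i => θ ^ (2 * k) < X.rr i) (X.rho h)) := by
  classical
  have a1 := (abs_le.1 (X.abs_rho_sub (Nat.le_add_right k h) le_rfl t y)).1
  have a2 : X.rho (k + h) t y ≤
      ∑ j ∈ Ioc 0 k, X.Sm k t y (fun i => X.Band2 Y θ x (o ++ i.take j)) (X.rho h)
      + X.Sm k t y (fun i => X.Alive2 Y θ x (n + k) (o ++ i)) (X.rho h)
      + X.Sm k t y (fun i => θ ^ (2 * k) < X.rr i) (X.rho h) := by
    rw [Sys.rho_add]
    unfold Sys.Sm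
    rw [Sys.sum_Ex, ← Sys.Ex_add, ← Sys.Ex_add]
    refine X.Ex_mono fun i hi => ?_
    set p := X.pull i y (X.rho h (X.endp t i)) with hp
    have p0 : 0 ≤ p := X.pull_nonneg _ _ (X.rho_nonneg _ _)
    have nn : ∀ (Q : Prop) (inst : Decidable Q), 0 ≤ @ite _ Q inst p 0 := fun Q _ => by
      split_ifs
      · exact p0
      · exact le_rfl
    have b1 := sum_nonneg (s := Ioc 0 k) fun j _ =>
      nn (X.Band2 Y θ x (o ++ i.take j)) (Classical.propDecidable _)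
    have b2 := nn (X.Alive2 Y θ x (n + k) (o ++ i)) (Classical.propDecidable _)
    have b3 := nn (θ ^ (2 * k) < X.rr i) (Classical.propDecidable _)
    rcases tricho X h0 h1 hY hx hR hn ho hk (X.length_of_mem_Paths hi) with ⟨j, hj, c⟩ | c | c
    · have := single_le_sum (fun j _ =>
        nn (X.Band2 Y θ x (o ++ i.take j)) (Classical.propDecidable _)) hj
      rw [if_pos c] at this
      linarith
    · rw [if_pos c]; linarith
    · rw [if_pos c]; linarith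
  have a3 : ∑ j ∈ Ioc 0 k, X.Sm k t y (fun i => X.Band2 Y θ x (o ++ i.take j)) (X.rho h)
      ≤ ∑ j ∈ Ioc 0 k, X.Sm j t y (fun i => X.Band2 Y θ x (o ++ i)) Ψ := by
    refine sum_le_sum fun j hj => ?_
    rw [X.Sm_take (mem_Ioc.1 hj).2 h t y fun i => X.Band2 Y θ x (o ++ i)]
    have hj2 := (mem_Ioc.1 hj).2
    rcases hΨ with hΨ | hΨ
    · exact X.Sm_mono (hΨ _ (by omega) (by omega))
    · refine le_trans (X.Ex_le_const (a := 0) fun l hl => ?_) (X.Sm_nonneg hΨ0)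
      rw [if_neg]
      refine hΨ _ ?_
      rw [List.length_append, X.length_of_mem_Paths hl]
      omega
  linarith

theorem stage {Y θ x : ℝ} (h0 : 0 < θ) (h1 : θ < 1) (hY : 1 ≤ Y) (hx : 0 < x) {R k n h : ℕ}
    (hR : θ ^ R * (X.B0 : ℝ) ^ 2 ≤ 1) (hk : (R + 1) * k ≤ n) (hh : h ≤ 2 * k) {Ψ : S → ℤ → ℝ}
    (hΨ : (∀ H, h ≤ H → H ≤ k + h → ∀ t y, X.rho H t y ≤ Ψ t y) ∨
      ∀ l : List E, l.length ≤ n + k → ¬ X.Band2 Y θ x l) (hΨ0 : ∀ t y, 0 ≤ Ψ t y)
    {μ₁ μ₂ : ℝ}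
    (m1 : ∀ t, ∑ z ∈ range (X.B0 ^ (k + h)), X.Var k (k + h) t z ≤ μ₁ * (X.B0 ^ (k + h) : ℕ))
    (m2 : ∀ t, X.Pr k t (fun i => θ ^ (2 * k) < X.rr i) ≤ μ₂) (s : S) (z : ℤ) :
    X.Sm n s z (X.Alive2 Y θ x n) (X.rho k) ≤
      ∑ m ∈ Ioc n (n + k), X.Sm m s z (X.Band2 Y θ x) Ψ
      + X.Sm (n + k) s z (X.Alive2 Y θ x (n + k)) (X.rho h)
      + X.ng n * ((2 * (X.cmx * Y * (1 - θ)⁻¹) + 1) * (μ₁ + μ₂) / X.π s) := by
  classical
  have hB : (1 : ℝ) ≤ X.B0 := by exact_mod_cast X.B0_pos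
  set F : S → ℤ → ℝ := fun t y =>
    X.Var k (k + h) t y + X.Sm k t y (fun i => θ ^ (2 * k) < X.rr i) (X.rho h) with hF
  have key := X.key_sup n s z F (X.B0 ^ (k + h)) (pow_pos X.B0_pos _)
    (fun t y => by simp only [hF]; rw [Sys.Var_per, Sys.Sm_per])
    (fun t y => add_nonneg (X.Var_nonneg _ _ _ _) (X.Sm_nonneg (X.rho_nonneg _))) (μ₁ + μ₂)
    (fun t => by
      simp only [hF]
      rw [sum_add_distrib, Sys.Sm_avg, add_mul]
      exact add_le_add (m1 t) (mul_le_mul_of_nonneg_right (m2 t) (by positivity)))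
    (X.cmx * Y * (1 - θ)⁻¹) (by
      have := X.cmx_nonneg
      have := sub_pos.2 h1
      positivity) (X.Alive2 Y θ x n) (fun l hl hA => by
      refine ⟨hA.1.cP_le h0.le h1 (by linarith), ?_⟩
      have a2 : (X.B0 : ℝ) ^ (k + h) ≤ (X.B0 : ℝ) ^ (2 * (2 * k)) :=
        pow_le_pow_right₀ hB (by omega)
      have a3 : θ ^ (2 * n) ≤ θ ^ (R * (2 * k)) :=
        pow_le_pow_of_le_one h0.le h1.le (by nlinarith)
      have a4 : θ ^ (R * (2 * k)) * (X.B0 : ℝ) ^ (2 * (2 * k)) ≤ 1 := by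
        rw [pow_mul θ R, pow_mul _ 2 (2 * k), ← mul_pow]; exact pow_le_one₀ (by positivity) hR
      push_cast
      calc _ ≤ (X.B0 : ℝ) ^ (2 * (2 * k)) * θ ^ (R * (2 * k)) :=
            mul_le_mul a2 (hA.2.2.trans a3) (X.rr_pos _).le (by positivity)
        _ ≤ 1 := by linarith)
  refine le_trans ?_ (add_le_add le_rfl key)
  have e1 : ∑ m ∈ Ioc n (n + k), X.Sm m s z (X.Band2 Y θ x) Ψ
      = ∑ j ∈ Ioc 0 k, X.Sm (n + j) s z (X.Band2 Y θ x) Ψ := by
    rw [← map_add_left_Ioc 0 k n |>.trans (by simp : Ioc (n + 0) (n + k) = Ioc n (n + k)), sum_map]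
    rfl
  rw [e1]
  simp only [Sys.Sm_add]
  rw [Sys.sum_Ex, ← Sys.Ex_add, ← Sys.Ex_add]
  refine X.Ex_mono fun o ho => ?_
  rw [← Sys.pull_fsum, ← Sys.pull_add]
  split_ifs with ha
  · rw [← Sys.pull_add]
    exact X.pull_mono _ _ fun y =>
      point X h0 h1 hY hx hR (X.length_of_mem_Paths ho) ha hk hΨ hΨ0 _ y
  · rw [add_zero]
    exact X.pull_nonneg _ _ fun y => add_nonneg (sum_nonneg fun _ _ => X.Sm_nonneg hΨ0)
      (X.Sm_nonneg (X.rho_nonneg _))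

theorem stage' (hM : X.Mix) {Y θ : ℝ} (h0 : 0 < θ) (h1 : θ < 1) (hY : 1 ≤ Y) {R : ℕ}
    (hR : θ ^ R * (X.B0 : ℝ) ^ 2 ≤ 1) (hT : X.Small fun n l => θ ^ (2 * n) < X.rr l) (s : S) :
    ∃ Ce : ℝ, 0 ≤ Ce ∧ ∀ x : ℝ, 0 < x → ∀ n : ℕ, R + 1 ≤ n → ∀ Ψ : S → ℤ → ℝ,
      ((∀ H, (n + n / (R + 1)) / (R + 1) ≤ H → H ≤ 3 * (n / (R + 1)) →
        ∀ t y, X.rho H t y ≤ Ψ t y) ∨
        ∀ l : List E, l.length ≤ n + n / (R + 1) → ¬ X.Band2 Y θ x l) → (∀ t y, 0 ≤ Ψ t y) →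
      ∀ z : ℤ,
      X.Sm n s z (X.Alive2 Y θ x n) (X.rho (n / (R + 1))) ≤
        ∑ m ∈ Ioc n (n + n / (R + 1)), X.Sm m s z (X.Band2 Y θ x) Ψ
        + X.Sm (n + n / (R + 1)) s z (X.Alive2 Y θ x (n + n / (R + 1)))
          (X.rho ((n + n / (R + 1)) / (R + 1))) + Ce / (n : ℝ) ^ 2 := by
  obtain ⟨a, Cg, hCg, hg⟩ := X.ng_le
  obtain ⟨C1, hC1, hv⟩ := X.Var_avg hM (a + 2)
  obtain ⟨C2, c, hC2, hc, ht⟩ := hT
  obtain ⟨C3, hC3, he⟩ := poly_exp_bdd (a + 2) hc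
  set W := X.cmx * Y * (1 - θ)⁻¹ with hW
  have W0 : 0 ≤ W := by
    have := X.cmx_nonneg
    have := sub_pos.2 h1
    positivity
  have hπ := X.π_pos s
  refine ⟨Cg * (2 * ((R : ℝ) + 1)) ^ (a + 2) * ((2 * W + 1) * (C1 + C2 * C3) / X.π s),
    by positivity, fun x hx n hn Ψ hΨ hΨ0 z => ?_⟩
  set k := n / (R + 1) with hk
  have k1 : 1 ≤ k := (Nat.one_le_div_iff (by omega)).2 hn
  have k2 : (R + 1) * k ≤ n := Nat.mul_div_le n (R + 1)
  have k3 : n < (R + 1) * (k + 1) := Nat.lt_mul_div_succ n (by omega)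
  have k4 : (n + k) / (R + 1) ≤ 2 * k := by
    refine Nat.lt_succ_iff.1 ((Nat.div_lt_iff_lt_mul (by omega)).2 ?_)
    nlinarith
  have k5 : (0 : ℝ) < k := by exact_mod_cast k1
  have n0 : (0 : ℝ) < n := by exact_mod_cast (by omega : 0 < n)
  refine (stage X h0 h1 hY hx hR k2 k4
    (hΨ.imp_left fun hΨ H hH hH' => hΨ H hH (by omega)) hΨ0
    (μ₁ := C1 / (k : ℝ) ^ (a + 2)) (μ₂ := C2 * C3 / (k : ℝ) ^ (a + 2))
    (fun t => hv k _ k1 t) (fun t => (ht k t).trans ?_) s z).trans (add_le_add le_rfl ?_)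
  · rw [mul_div_assoc]
    refine mul_le_mul_of_nonneg_left ?_ hC2
    rw [le_div_iff₀ (by positivity), mul_comm]
    refine le_trans ?_ (he k)
    gcongr; linarith
  · have b1 : ((n : ℝ) + 1) ≤ 2 * ((R : ℝ) + 1) * k := by
      have : n + 1 ≤ 2 * (R + 1) * k := by nlinarith
      exact_mod_cast this
    have b2 : ((n : ℝ) + 1) ^ a * (n : ℝ) ^ 2 ≤ (2 * ((R : ℝ) + 1)) ^ (a + 2) * (k : ℝ) ^ (a + 2) := by
      rw [← mul_pow]
      calc _ ≤ ((n : ℝ) + 1) ^ a * ((n : ℝ) + 1) ^ 2 := by gcongr; linarith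
        _ = ((n : ℝ) + 1) ^ (a + 2) := by ring
        _ ≤ _ := by gcongr
    rw [← hW, ← add_div, le_div_iff₀ (by positivity)]
    calc _ ≤ Cg * ((n : ℝ) + 1) ^ a * ((2 * W + 1) * ((C1 + C2 * C3) / (k : ℝ) ^ (a + 2)) / X.π s)
          * (n : ℝ) ^ 2 := by gcongr; exact hg n
      _ = Cg * (((n : ℝ) + 1) ^ a * (n : ℝ) ^ 2) *
          ((2 * W + 1) * (C1 + C2 * C3) / X.π s) / (k : ℝ) ^ (a + 2) := by ring
      _ ≤ Cg * ((2 * ((R : ℝ) + 1)) ^ (a + 2) * (k : ℝ) ^ (a + 2)) *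
          ((2 * W + 1) * (C1 + C2 * C3) / X.π s) / (k : ℝ) ^ (a + 2) := by gcongr
      _ = _ := by field_simp

end Stagex

open Stagex in
theorem stage_st : StageSt := by
  intro S E _ _ _ _ X hM Y θ R h0 h1 hY hR hT s
  obtain ⟨Ce, hCe, hs⟩ := stage' X hM h0 h1 hY hR hT s
  refine ⟨Ce, hCe, fun x hx N hN a ha Ψ hΨ hΨ0 z => ?_⟩
  have hB : (1 : ℝ) ≤ X.B0 := by exact_mod_cast X.B0_pos
  have dead : ∀ n : ℕ, θ ^ (2 * n) ≤ 1 / x →
      X.Sm n s z (X.Alive2 Y θ x n) (X.rho (n / (R + 1))) ≤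
        2 * Ce / n + ∑ m ∈ Ioc n (2 * N), X.Sm m s z (X.Band2 Y θ x) Ψ := by
    intro n hn
    refine le_trans (X.Ex_le_const (a := 0) fun l _ => ?_)
      (add_nonneg (by positivity) (sum_nonneg fun _ _ => X.Sm_nonneg hΨ0))
    rw [if_neg]
    rintro ⟨-, a1, a2⟩
    have a3 := a1 l.length le_rfl
    rw [List.take_length] at a3
    linarith
  have main : ∀ f n : ℕ, N ≤ n + f → R + 1 ≤ n →
      X.Sm n s z (X.Alive2 Y θ x n) (X.rho (n / (R + 1))) ≤
        2 * Ce / n + ∑ m ∈ Ioc n (2 * N), X.Sm m s z (X.Band2 Y θ x) Ψ := by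
    intro f
    induction f with
    | zero =>
      intro n hn _
      exact dead n ((pow_le_pow_of_le_one h0.le h1.le (by omega)).trans hN)
    | succ f ih =>
      intro n hn hRn
      by_cases hd : θ ^ (2 * n) ≤ 1 / x
      · exact dead n hd
      have nN : n < N := by
        by_contra hc
        exact hd ((pow_le_pow_of_le_one h0.le h1.le (by omega)).trans hN)
      set k := n / (R + 1) with hk
      have k1 : 1 ≤ k := (Nat.one_le_div_iff (by omega)).2 hRn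
      have k2 : (R + 1) * k ≤ n := Nat.mul_div_le n (R + 1)
      have k3 : k ≤ n := Nat.div_le_self _ _
      have a1 := hs x hx n hRn Ψ (by
        by_cases hha : a ≤ (n + k) / (R + 1)
        · refine Or.inl fun H hH0 hH => hΨ H (hha.trans hH0) (by omega) ?_
          have a2 : (X.B0 : ℝ) ^ H ≤ (X.B0 : ℝ) ^ (2 * (2 * k)) := pow_le_pow_right₀ hB (by omega)
          have a3 : θ ^ (2 * n) ≤ θ ^ (R * (2 * k)) :=
            pow_le_pow_of_le_one h0.le h1.le (by nlinarith)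
          have a4 : θ ^ (R * (2 * k)) * (X.B0 : ℝ) ^ (2 * (2 * k)) ≤ 1 := by
            rw [pow_mul θ R, pow_mul _ 2 (2 * k), ← mul_pow]; exact pow_le_one₀ (by positivity) hR
          have a5 := mul_le_mul ((not_le.1 hd).le.trans a3) a2 (by positivity) (by positivity)
          have a6 := a5.trans a4
          rwa [one_div, inv_mul_le_iff₀ hx, mul_one] at a6
        · refine Or.inr fun l hl hb => ?_
          have c1 : n + k < a * (R + 1) := (Nat.div_lt_iff_lt_mul (by omega)).1 (not_le.1 hha)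
          have c2 := (X.rr_ge l).trans hb.2.2.2
          have hd1 : (1 : ℝ) ≤ X.d := by exact_mod_cast X.d_pos
          have c3 : (X.d : ℝ) ^ l.length ≤ (X.d : ℝ) ^ ((R + 1) * a) :=
            pow_le_pow_right₀ hd1 (by rw [mul_comm]; omega)
          have c4 := one_div_lt_one_div_of_lt (by positivity) (c3.trans_lt ha)
          linarith) hΨ0 z
      have a2 := ih (n + k) (by omega) (by omega)
      rw [← hk] at a1
      rw [← sum_Ioc_consecutive _ (Nat.le_add_right n k) (show n + k ≤ 2 * N by omega)]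
      have n0 : (1 : ℝ) ≤ n := by exact_mod_cast (by omega : 1 ≤ n)
      have k5 : (1 : ℝ) ≤ k := by exact_mod_cast k1
      have a3 : Ce / (n : ℝ) ^ 2 + 2 * Ce / ((n + k : ℕ) : ℝ) ≤ 2 * Ce / n := by
        have b1 : 2 * Ce / ((n + k : ℕ) : ℝ) ≤ 2 * Ce / (n + 1) := by
          push_cast; gcongr
        have b2 : Ce / (n : ℝ) ^ 2 ≤ 2 * Ce / (n * (n + 1)) := by
          rw [div_le_div_iff₀ (by positivity) (by positivity)]
          nlinarith [mul_nonneg hCe (mul_nonneg (by linarith : (0 : ℝ) ≤ n)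
            (by linarith : (0 : ℝ) ≤ n - 1))]
        have b3 : 2 * Ce / (n * (n + 1)) + 2 * Ce / (n + 1) = 2 * Ce / n := by
          field_simp; ring
        linarith
      linarith
  exact fun n hn => main N n (by omega) hn

end Pool.Agent.Lib.MP_39d40e_nt.Un
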