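import Pool.Agent.Lib.MP_39d40e_nt.Un1

/-! Uniform positive density of predecessor sets: systems with a unit cycle. -/

namespace Pool.Agent.Lib.MP_39d40e_nt

open Finset Filter

namespace Un

namespace Unitx

theorem grow (a c z : ℤ) (j : ℕ) :
    |(((fun y => a * y - c)^[j] z : ℤ) : ℝ)| + 1 ≤
      (|(a : ℝ)| + |(c : ℝ)| + 1) ^ j * (|(z : ℝ)| + 1) := by
  induction j with
  | zero => simp
  | succ j ih =>
    rw [Function.iterate_succ_apply', pow_succ', mul_assoc]
    set w : ℤ := (fun y => a * y - c)^[j] z with hw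
    have b1 : |((a * w - c : ℤ) : ℝ)| ≤ |(a : ℝ)| * |(w : ℝ)| + |(c : ℝ)| := by
      push_cast
      rw [← abs_mul]
      exact abs_sub _ _
    have b2 := mul_le_mul_of_nonneg_left ih
      (show 0 ≤ |(a : ℝ)| + |(c : ℝ)| + 1 by positivity)
    have b3 := abs_nonneg (a : ℝ)
    have b4 := abs_nonneg (c : ℝ)
    have b5 := abs_nonneg (w : ℝ)
    have b6 := mul_nonneg b4 b5
    have b7 : (|(a : ℝ)| + |(c : ℝ)| + 1) * (|(w : ℝ)| + 1) =
        |(a : ℝ)| * |(w : ℝ)| + |(c : ℝ)| * |(w : ℝ)| + |(w : ℝ)| +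
          (|(a : ℝ)| + |(c : ℝ)| + 1) := by ring
    linarith

end Unitx

theorem unit_st (h1 : OpenSt) (h2 : AffSt) : UnitSt := by
  intro S E _ _ _ _ X hI hN s0 u hu hu0 hb v
  classical
  have hD : 2 ≤ X.DP u := by
    obtain ⟨n0, -, hn0⟩ := Sys.exists_n0 hI hN
    have h1 := hn0 _ _ _
      (by rw [Sys.length_rep]; exact Nat.le_mul_of_pos_right _ hu0) (hu.rep n0).1
    rw [Sys.DP_rep] at h1
    by_contra h2
    have h3 : X.DP u = 1 := by have := X.DP_pos u; omega
    rw [h3, one_pow] at h1; omega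
  have hO := h1 S E X hI hN s0 u hu hb hD s0
  have bb : X.bP u * X.bP u = 1 := by rw [← abs_mul_abs_self, hb, one_mul]
  set a := X.bP u * X.DP u with ha
  set c := X.bP u * X.cP u with hc
  have a1 : 1 < a.natAbs := by
    have : (X.bP u).natAbs = 1 := by rw [Int.abs_eq_natAbs] at hb; exact_mod_cast hb
    rw [ha, Int.natAbs_mul, this, one_mul, Int.natAbs_natCast]; omega
  have a3 : IsCoprime (X.B0 : ℤ) a := by
    refine IsCoprime.mul_right ⟨0, X.bP u, by linear_combination bb⟩ ?_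
    exact (X.B0_cop.pow_right (n := u.length)).of_isCoprime_of_dvd_right
      (by exact_mod_cast X.DP_dvd u)
  have st : ∀ (z : ℤ) (j : ℕ),
      X.step^[u.length * j] (s0, (fun y => a * y - c)^[j] z) = (s0, z) := by
    intro z j
    induction j with
    | zero => rfl
    | succ j ih =>
      rw [Nat.mul_succ, Function.iterate_add_apply, ← ih]
      congr 1
      set w : ℤ := (fun y => a * y - c)^[j] z with hw
      have := X.step_pred hu.1 (y := a * w - c) (z := w) (by
        linear_combination X.bP u * w * ha - X.bP u * hc + (X.DP u * w - X.cP u) * bb)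
      rw [hu.2] at this
      rw [Function.iterate_succ_apply']
      exact this
  obtain ⟨k, hk⟩ := h2 X.B0 a c v X.B0_pos a3 a1
  refine Sys.UD.cover (Q := (X.B0 : ℤ) ^ k) (pow_pos (by exact_mod_cast X.B0_pos) k) ?_
  rintro z0 ⟨-, -, -, -, hdeep⟩
  obtain ⟨l, hl, d1, d2⟩ := hdeep k
  obtain ⟨K, r, W0, hr, hK⟩ := hO l hl
  obtain ⟨j1, hj1⟩ := hk K W0
  have m1 : (1 : ℝ) ≤ |(a : ℝ)| + |(c : ℝ)| + 1 := by
    have b3 := abs_nonneg (a : ℝ)
    have b4 := abs_nonneg (c : ℝ)
    linarith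
  have r0 : (X.B0 : ℤ) ^ k ∣ r - z0 := by
    have b1 : (X.B0 : ℤ) ^ k ∣ X.DP l * (r - z0) := by
      have := (d1.trans hr).sub d2
      rwa [show X.DP l * (r - z0) = X.DP l * r - X.cP l - (X.DP l * z0 - X.cP l) by ring]
    exact ((X.B0_cop.pow (m := k) (n := l.length)).of_isCoprime_of_dvd_right
      (by exact_mod_cast X.DP_dvd l)).dvd_of_dvd_mul_left b1
  refine hK.pred (M := (|(a : ℝ)| + |(c : ℝ)| + 1) ^ j1) (one_le_pow₀ m1) ?_
  rintro z ⟨⟨y, e1, e2, e3, -⟩, e4⟩
  have e5 : a * z - c = y := by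
    linear_combination z * ha - hc - X.bP u * e1 + y * bb
  obtain ⟨j, hj, g1, g2⟩ := hj1 z r (by rw [e5]; exact e2) (by rw [e5]; exact e3) (by
    have := r0.sub e4
    rwa [show r - z0 - (z - z0) = r - z by ring] at this)
  refine ⟨_, ⟨g1, g2⟩, u.length * j, st z j, (Unitx.grow a c z j).trans ?_⟩
  exact mul_le_mul_of_nonneg_right (pow_le_pow_right₀ m1 hj) (by positivity)

end Un

end Pool.Agent.Lib.MP_39d40e_nt
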