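import Pool.Agent.Lib.MP_39d40e_nt.UnStage
import Pool.Agent.Lib.MP_39d40e_nt.UnInner
import Pool.Agent.Lib.MP_39d40e_nt.UnCount
import Pool.Agent.Lib.MP_39d40e_nt.UnCore
import Pool.Agent.Lib.MP_39d40e_nt.UnOpen
import Pool.Agent.Lib.MP_39d40e_nt.UnAff
import Pool.Agent.Lib.MP_39d40e_nt.UnUnit
import Pool.Agent.Lib.MP_39d40e_nt.UnLeigh

/-! Uniform positive density of predecessor sets: assembly. -/

namespace Pool.Agent.Lib.MP_39d40e_nt

namespace Un

theorem leigh_all : LeighSt :=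
  leigh_st (unit_st (open_st (core_st stage_st inner_st count_st)) aff_st)

end Un

end Pool.Agent.Lib.MP_39d40e_nt
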