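import Pool.Agent.Lib.MP_39d40e_nt.Black

namespace Pool.Agent.Lib.MP_39d40e_nt

open Finset

/-- checkpoints -/
def ck (σ : ℕ → ℕ) : ℕ → ℕ
  | 0 => 0
  | i + 1 => ck σ i + (σ (ck σ i) + 1)

theorem ck_mono (σ : ℕ → ℕ) : Monotone (ck σ) :=
  monotone_nat_of_le_succ fun i => by simp [ck]

namespace Sys

variable {S E : Type*} [Fintype S] [Fintype E] [DecidableEq S] [DecidableEq E] {X : Sys S E}
  {Q : ℕ}

omit [DecidableEq E] in
theorem tower (hQ : X.d.Coprime Q) (P : ZMod Q → Prop) (σ : ℕ → ℕ) (a : ZMod Q) (l : List E)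
    (R : ℕ)
    (h : ∀ i < R, X.cnt P (X.act (l.take (ck σ i)) a) ((l.drop (ck σ i)).take (σ (ck σ i) + 1)) ≠ 0) :
    R ≤ X.cnt P a l := by
  have key : ∀ R' ≤ R, R' ≤ X.cnt P a (l.take (ck σ R')) := by
    intro R' hR
    induction R' with
    | zero => exact Nat.zero_le _
    | succ i ih =>
      have h1 := ih (by omega)
      have h2 := h i (by omega)
      rw [ck, List.take_add, cnt_append hQ]
      omega
  have h1 := key R le_rfl
  have h2 := cnt_append hQ P (l.take (ck σ R)) (l.drop (ck σ R)) a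
  rw [List.take_append_drop] at h2
  omega

theorem two_pow_le_DP (h : X.Good) (l : List E) : 2 ^ l.length ≤ X.DP l := by
  induction l with
  | nil => simp
  | cons e l ih =>
    rw [DP_cons, List.length_cons, pow_succ']; exact Nat.mul_le_mul (h.two_le e) ih

theorem det (h : X.Good) (hQ : X.d.Coprime Q) {σ v : ℕ → ℕ} (hσ : ∀ j, X.D0 ^ v j < 2 ^ σ j)
    {R H₀ r N : ℕ} {l : List E} {y : ℤ} (hb : (X.kap : ℤ) * |y| < Q) (hy0 : y ≠ 0)
    (hbig : (X.D0 : ℤ) ^ r ∣ y) (hN0 : 0 < N) (hN : (N : ZMod Q) * y = 0)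
    (hD : N < X.DP (l.take H₀)) (hl : H₀ + ck σ R ≤ l.length)
    (hr : ∀ t ∈ Ico r (l.length + 1), |X.bP (l.take t)| ≤ X.DP (l.take t))
    (hc : X.cnt (fun a => ¬ X.Black a) (y : ZMod Q) l < R) :
    ∃ p₀ ∈ X.D0.primeFactors, ∃ i ∈ range R, ∃ p₁ ∈ X.D0.primeFactors, ∃ w,
      X.exr p₀ (y.natAbs.factorization p₀) l = some w ∧
      (y : ℚ) * w ∈ {W : ℚ | ∃ y₁ : ℤ, (y₁ : ℚ) = W ∧ X.Bad Q (ck σ i) (v (ck σ i)) p₁ y₁} := by
  classical
  have hk1 : (1 : ℤ) ≤ X.kap := by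
    have := X.d_pos
    simp only [kap, Nat.cast_add]; omega
  have hnd : ¬ (X.DP (l.take H₀) : ℤ) ∣ y := by
    rintro ⟨t, ht⟩
    have h1 : (Q : ℤ) ∣ X.DP (l.take H₀) * (N * t) := by
      rw [← ZMod.intCast_zmod_eq_zero_iff_dvd, ← hN, ht]; push_cast; ring
    have h2 : IsCoprime (Q : ℤ) (X.DP (l.take H₀)) := Nat.isCoprime_iff_coprime.2
      (Nat.Coprime.coprime_dvd_left (X.DP_dvd _) (hQ.pow_left _)).symm
    have ht0 : t ≠ 0 := by rintro rfl; simp at ht; exact hy0 ht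
    have h3 := Int.le_of_dvd (abs_pos.2 (mul_ne_zero (by exact_mod_cast hN0.ne') ht0))
      ((dvd_abs _ _).2 (h2.dvd_of_dvd_mul_left h1))
    rw [ht, abs_mul, Nat.abs_cast] at hb
    rw [abs_mul, Nat.abs_cast] at h3
    have h4 : (N : ℤ) < X.DP (l.take H₀) := by exact_mod_cast hD
    have h5 := abs_pos.2 ht0
    have h6 : (0 : ℤ) < X.DP (l.take H₀) * |t| := mul_pos (by exact_mod_cast X.DP_pos _) h5
    nlinarith
  have hex : ∃ t, ¬ (X.DP (l.take t) : ℤ) ∣ y := ⟨H₀, hnd⟩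
  have hτH : Nat.find hex ≤ H₀ := Nat.find_min' hex hnd
  have hτr : r < Nat.find hex := by
    by_contra hle
    apply Nat.find_spec hex
    refine dvd_trans ?_ hbig
    have h1 := DP_dvd_D0 (X := X) (l.take (Nat.find hex))
    have h2 : (l.take (Nat.find hex)).length ≤ r := (List.length_take_le _ _).trans (by omega)
    exact_mod_cast h1.trans (pow_dvd_pow _ h2)
  obtain ⟨τ, hτ⟩ : ∃ τ, Nat.find hex = τ + 1 := ⟨Nat.find hex - 1, by omega⟩
  have hdv : (X.DP (l.take τ) : ℤ) ∣ y := by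
    by_contra hn
    exact Nat.find_min hex (by omega : τ < Nat.find hex) hn
  have hndv : ¬ (X.DP (l.take (τ + 1)) : ℤ) ∣ y := hτ ▸ Nat.find_spec hex
  have hτl : τ < l.length := by omega
  set o := l.take τ with ho
  set e₀ := l[τ] with he₀
  set m := l.drop (τ + 1) with hm
  have hsplit : l = o ++ e₀ :: m := by
    rw [ho, he₀, hm, ← List.drop_eq_getElem_cons hτl, List.take_append_drop]
  have htake : l.take (τ + 1) = o ++ [e₀] := by
    rw [ho, he₀]; exact (List.take_append_getElem hτl).symm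
  have hml : ck σ R ≤ m.length := by rw [hm, List.length_drop]; omega
  obtain ⟨t, ht⟩ := hdv
  have hDo : (0 : ℤ) < X.DP o := by exact_mod_cast X.DP_pos o
  have hy1 : (X.kap : ℤ) * |X.bP o * t| < Q := by
    refine lt_of_le_of_lt (mul_le_mul_of_nonneg_left ?_ (by linarith)) hb
    rw [ht, abs_mul, abs_mul, Nat.abs_cast]
    exact mul_le_mul_of_nonneg_right (hr τ (mem_Ico.2 ⟨by omega, by omega⟩)) (abs_nonneg _)
  have hrep : ((X.bP o * t : ℤ) : ZMod Q) = X.act o (y : ZMod Q) :=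
    eq_act hQ (by rw [ht]; push_cast; ring)
  have hnd1 : ¬ (X.D e₀ : ℤ) ∣ X.bP o * t := by
    intro hd
    apply hndv
    have hc : IsCoprime (X.D e₀ : ℤ) (X.bP o) := by simpa using (X.bP_cop_DP o [e₀]).symm
    rw [htake, DP_append, ht]
    push_cast
    exact mul_dvd_mul_left _ (by simpa using hc.dvd_of_dvd_mul_left hd)
  have hyn : y.natAbs ≠ 0 := Int.natAbs_ne_zero.2 hy0
  obtain ⟨p₀, hp₀⟩ : ∃ p₀, y.natAbs.factorization p₀ < X.vP p₀ o + X.vP p₀ [e₀] := by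
    by_contra hcon
    push Not at hcon
    apply hndv
    rw [Int.natCast_dvd, ← Nat.factorization_le_iff_dvd (X.DP_pos _).ne' hyn, htake]
    intro p
    exact (vP_append p o [e₀]).le.trans (hcon p)
  have hp₀' : X.vP p₀ o ≤ y.natAbs.factorization p₀ :=
    (Nat.factorization_le_iff_dvd (X.DP_pos _).ne' hyn).2 (Int.natCast_dvd.1 ⟨t, ht⟩) p₀
  have hp₀m : p₀ ∈ X.D0.primeFactors := by
    have h1 : (X.D e₀).factorization p₀ ≠ 0 := by
      have : X.vP p₀ [e₀] ≠ 0 := by omega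
      simpa [vP] using this
    have h2 : p₀ ∈ (X.D e₀).primeFactors := by
      rw [← Nat.support_factorization]; exact Finsupp.mem_support_iff.2 h1
    exact Nat.primeFactors_mono (Finset.dvd_prod_of_mem _ (mem_univ e₀)) D0_pos.ne' h2
  have hcm : X.cnt (fun a => ¬ X.Black a) (X.act [e₀] (X.act o (y : ZMod Q))) m < R := by
    rw [hsplit, cnt_append hQ, cnt] at hc; omega
  obtain ⟨i, hi, hz⟩ : ∃ i < R, X.cnt (fun a => ¬ X.Black a)
      (X.act (m.take (ck σ i)) (X.act [e₀] (X.act o (y : ZMod Q))))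
      ((m.drop (ck σ i)).take (σ (ck σ i) + 1)) = 0 := by
    by_contra hcon
    push Not at hcon
    exact absurd (tower hQ _ σ _ m R hcon) (by omega)
  have hck : ck σ i + (σ (ck σ i) + 1) ≤ m.length := (ck_mono σ (by omega : i + 1 ≤ R)).trans hml
  have hlt : σ (ck σ i) < (m.drop (ck σ i)).length := by rw [List.length_drop]; omega
  rw [← List.take_append_getElem hlt] at hz
  obtain ⟨y', hy', hb', hd'⟩ := black_run' hQ _ _ hz
  set L := (m.drop (ck σ i)).take (σ (ck σ i)) with hL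
  have hLl : L.length = σ (ck σ i) := by rw [hL, List.length_take]; omega
  obtain ⟨p₁, hp₁⟩ : ∃ p₁, (X.D0 ^ v (ck σ i)).factorization p₁ < (X.DP L).factorization p₁ := by
    by_contra hcon
    push Not at hcon
    have h1 : X.DP L ∣ X.D0 ^ v (ck σ i) :=
      (Nat.factorization_le_iff_dvd (X.DP_pos _).ne' (pow_pos D0_pos _).ne').1 hcon
    have h2 := Nat.le_of_dvd (pow_pos D0_pos _) h1
    have h3 := two_pow_le_DP h L
    rw [hLl] at h3
    exact absurd (hσ (ck σ i)) (by omega)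
  have hp₁L : p₁ ∈ (X.DP L).primeFactors := by
    rw [← Nat.support_factorization]; exact Finsupp.mem_support_iff.2 (by omega)
  have hpp := Nat.prime_of_mem_primeFactors hp₁L
  have hp₁d : p₁ ∣ X.D0 :=
    hpp.dvd_of_dvd_pow ((Nat.dvd_of_mem_primeFactors hp₁L).trans (DP_dvd_D0 L))
  have hpv : p₁ ^ v (ck σ i) ∣ X.DP L := by
    rw [hpp.pow_dvd_iff_le_factorization (X.DP_pos _).ne']
    refine le_trans ?_ hp₁.le
    rw [← hpp.pow_dvd_iff_le_factorization (pow_pos D0_pos _).ne']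
    exact pow_dvd_pow_of_dvd hp₁d _
  refine ⟨p₀, hp₀m, i, mem_range.2 hi, p₁, Nat.mem_primeFactors.2 ⟨hpp, hp₁d, D0_pos.ne'⟩,
    X.rP o, ?_, X.bP o * t, ?_, hy1, e₀, m.take (ck σ i), ?_, hnd1, y', hb', ?_, ?_⟩
  · conv_lhs => rw [hsplit]
    exact exr_exit p₀ o e₀ m hp₀' hp₀
  · have : (X.DP o : ℚ) ≠ 0 := by exact_mod_cast (X.DP_pos o).ne'
    rw [ht, rP]; push_cast; field_simp
  · rw [List.length_take]; omega
  · rw [hy', hrep, act_cons hQ e₀ (m.take (ck σ i))]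
  · exact dvd_trans (by exact_mod_cast hpv) hd'

theorem long (h : X.Good) (R : ℕ) {η : ℝ} (hη : 0 < η) : ∃ r T : ℕ, ∀ (Q N H₀ : ℕ),
    X.d.Coprime Q → 0 < N → (∀ s, X.Pr H₀ s (fun l => X.DP l ≤ N) ≤ η) →
    ∀ H, H₀ + T ≤ H → ∀ (s : S) (y : ℤ), (X.kap : ℤ) * |y| < Q → y ≠ 0 → (X.D0 : ℤ) ^ r ∣ y →
      (N : ZMod Q) * y = 0 →
      X.Pr H s (fun l => X.cnt (fun a => ¬ X.Black a) (y : ZMod Q) l < R) ≤ 3 * η := by
  classical
  set I := X.D0.primeFactors with hI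
  have hsw : ∀ p : I, ∃ γ : ℚ, |γ| ≠ 1 ∧ ∀ s, ∃ G G' : List E,
      G ∈ X.Paths G.length s ∧ G' ∈ X.Paths G'.length s ∧ X.endp s G = X.endp s G' ∧
      (X.DP G).factorization p = (X.DP G').factorization p ∧ X.rP G = γ * X.rP G' := fun p =>
    h.swap p (Nat.prime_of_mem_primeFactors p.2) (prime_dvd_D0 (Nat.prime_of_mem_primeFactors p.2)
      (Nat.dvd_of_mem_primeFactors p.2))
  choose γ hγ hsw using hsw
  obtain ⟨J, hJ⟩ := exists_nat_gt (2 * (#I * (R * #I)) / η)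
  have hJ0 : (0 : ℝ) < J := lt_of_le_of_lt (by positivity) hJ
  have hJ0' : 0 < J := by exact_mod_cast hJ0
  set T₀ : ℕ := 1 + ∑ p : I, ((γ p).num.natAbs + (γ p).den) with hT₀
  set u : ℕ → ℕ := fun j => (X.kap ^ (j + 1)) ^ 2 with hu
  set v : ℕ → ℕ := fun j => 2 * (X.kap ^ (j + 1)) ^ 3 * T₀ ^ (J * u j) with hv
  set σ : ℕ → ℕ := fun j => X.D0 ^ v j with hσ
  have hac := fun (p : I) (i : ℕ) => anti (X := X) (hsw p) hJ0' (u (ck σ i)) (one_div_pos.2 hJ0)
  choose r₀ hr₀ using hac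
  obtain ⟨r₁, hr₁⟩ := h.ratio_le hη
  refine ⟨r₁ + ∑ p : I, ∑ i ∈ range R, r₀ p i, ck σ R, ?_⟩
  intro Q N H₀ hQ hN0 hH₀ H hH s y hb hy0 hbig hN
  set A : ℕ → ℕ → Set ℚ := fun i p₁ =>
    {W : ℚ | ∃ y₁ : ℤ, (y₁ : ℚ) = W ∧ X.Bad Q (ck σ i) (v (ck σ i)) p₁ y₁} with hA
  have hE3 : X.Pr H s (fun l => ∃ p₀ ∈ I, ∃ i ∈ range R, ∃ p₁ ∈ I, ∃ w,
      X.exr p₀ (y.natAbs.factorization p₀) l = some w ∧ (y : ℚ) * w ∈ A i p₁) ≤ η := by
    have h1 : ∀ p₀ ∈ I, ∀ i ∈ range R, ∀ p₁ ∈ I,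
        X.psi p₀ (A i p₁) H s (y.natAbs.factorization p₀) y ≤ 2 / J := by
      intro p₀ hp₀ i hi p₁ hp₁
      have hpp := Nat.prime_of_mem_primeFactors hp₁
      have hγ0 : γ ⟨p₀, hp₀⟩ ≠ 0 := by
        obtain ⟨G, G', -, -, -, -, h5⟩ := hsw ⟨p₀, hp₀⟩ s
        intro h0
        rw [h0, zero_mul, rP, div_eq_zero_iff] at h5
        rcases h5 with h5 | h5
        · exact X.bP_ne G (by exact_mod_cast h5)
        · exact (X.DP_pos G).ne' (by exact_mod_cast h5)
      refine (hr₀ ⟨p₀, hp₀⟩ i (A i p₁) ?_ H s _ y ?_).trans (le_of_eq (by ring))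
      · rintro W a a' haa ha' ⟨y₁, hy₁, hb₁⟩ ⟨y₂, hy₂, hb₂⟩
        obtain ⟨k, rfl⟩ := Nat.exists_eq_add_of_lt haa
        obtain ⟨e, he⟩ := prime_dvd_D0 hpp (Nat.dvd_of_mem_primeFactors hp₁)
        refine bad_sep hQ hpp (he.trans (X.D_dvd e)) (hγ _) hγ0 (k := (k + 1) * u (ck σ i)) ?_ ?_
          hb₁ hb₂ (by rw [hy₁, hy₂]; ring)
        · exact lt_of_le_of_lt (Nat.le_mul_of_pos_left _ (Nat.succ_pos k)) Nat.lt_two_pow_self
        · refine lt_of_le_of_lt ?_ Nat.lt_two_pow_self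
          refine Nat.mul_le_mul_left _ ?_
          have h2 : (γ ⟨p₀, hp₀⟩).num.natAbs + (γ ⟨p₀, hp₀⟩).den ≤ T₀ :=
            (Finset.single_le_sum (f := fun p : I => (γ p).num.natAbs + (γ p).den)
              (fun _ _ => Nat.zero_le _) (mem_univ _)).trans (Nat.le_add_left _ _)
          exact (Nat.pow_le_pow_left h2 _).trans (Nat.pow_le_pow_right (by omega)
            (Nat.mul_le_mul_right _ (by omega)))
      · have hp := Nat.prime_of_mem_primeFactors hp₀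
        rw [← hp.pow_dvd_iff_le_factorization (Int.natAbs_ne_zero.2 hy0), ← Int.natCast_dvd]
        refine dvd_trans ?_ hbig
        have h2 : r₀ ⟨p₀, hp₀⟩ i ≤ r₁ + ∑ p : I, ∑ i ∈ range R, r₀ p i :=
          ((Finset.single_le_sum (f := fun i => r₀ ⟨p₀, hp₀⟩ i) (fun _ _ => Nat.zero_le _) hi).trans
            (Finset.single_le_sum (f := fun p : I => ∑ i ∈ range R, r₀ p i)
              (fun _ _ => Nat.zero_le _) (mem_univ _))).trans (Nat.le_add_left _ _)
        exact_mod_cast (pow_dvd_pow_of_dvd (Nat.dvd_of_mem_primeFactors hp₀) _).trans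
          (pow_dvd_pow _ h2)
    calc _ ≤ ∑ p₀ ∈ I, ∑ i ∈ range R, ∑ p₁ ∈ I, (2 / J : ℝ) := by
          refine (X.Pr_exists _ _ _ _).trans (Finset.sum_le_sum fun p₀ hp₀ => ?_)
          refine (X.Pr_exists _ _ _ _).trans (Finset.sum_le_sum fun i hi => ?_)
          exact (X.Pr_exists _ _ _ _).trans (Finset.sum_le_sum fun p₁ hp₁ => h1 p₀ hp₀ i hi p₁ hp₁)
      _ ≤ η := by
          simp only [Finset.sum_const, card_range, nsmul_eq_mul]
          rw [div_lt_iff₀ hη] at hJ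
          have : (#I : ℝ) * (R * (#I * (2 / J))) = 2 * (#I * (R * #I)) / J := by ring
          rw [this, div_le_iff₀ hJ0]; linarith
  have hE1 : X.Pr H s (fun l => X.DP (l.take H₀) ≤ N) ≤ η := by
    rw [X.Pr_take' (by omega : H₀ ≤ H) s fun l => X.DP l ≤ N]; exact hH₀ s
  have hE2 := hr₁ H s
  refine le_trans (X.Pr_mono ?_) (((X.Pr_or _ _ _ _).trans (add_le_add hE1
    ((X.Pr_or _ _ _ _).trans (add_le_add hE2 hE3)))).trans (le_of_eq (by ring)))
  intro l hl hc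
  have hlen := X.length_of_mem_Paths hl
  by_cases h1 : X.DP (l.take H₀) ≤ N
  · exact Or.inl h1
  by_cases h2 : ∃ t ∈ Ico r₁ (H + 1), (X.DP (l.take t) : ℤ) < |X.bP (l.take t)|
  · exact Or.inr (Or.inl h2)
  refine Or.inr (Or.inr ?_)
  push Not at h1 h2
  refine det h hQ (σ := σ) (fun j => Nat.lt_two_pow_self) hb hy0 hbig hN0 hN h1 (by omega) ?_ hc
  intro t ht
  rw [hlen] at ht
  exact h2 t (mem_Ico.2 ⟨by have := (mem_Ico.1 ht).1; omega, (mem_Ico.1 ht).2⟩)

/-- many white points -/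
theorem white (h : X.Good) (R : ℕ) {η : ℝ} (hη : 0 < η) : ∃ T : ℕ, ∀ (Q N H₀ : ℕ),
    X.d.Coprime Q → 0 < N → (∀ s, X.Pr H₀ s (fun l => X.DP l ≤ N) ≤ η) →
    ∀ H, H₀ + T ≤ H → ∀ (s : S) (a : ZMod Q), (N : ZMod Q) * a = 0 →
      X.Pr H s (fun l => X.cnt (fun a => ¬ X.Black a) a l < R ∧ X.act l a ≠ 0) ≤ 3 * R * η := by
  classical
  induction R with
  | zero => exact ⟨0, fun Q N H₀ _ _ _ H _ s a _ => by simp [Pr, Ex_const]⟩
  | succ R ih =>
    obtain ⟨T, hT⟩ := ih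
    obtain ⟨r, T', hlong⟩ := long h (R + 1) hη
    obtain ⟨ρ, hρ, hlow⟩ := h.low_D
    obtain ⟨L₀, hL₀⟩ := hlow.eventually hη
    obtain ⟨L₁, hL₁⟩ := exists_nat_ge (r / ρ)
    set L := L₀ + L₁ with hL
    have hLr : (r : ℝ) ≤ ρ * L := by
      rw [div_le_iff₀ hρ] at hL₁
      rw [hL]; push_cast; nlinarith [mul_nonneg hρ.le (Nat.cast_nonneg L₀)]
    refine ⟨T + T' + (L + 1), fun Q N H₀ hQ hN0 hH₀ H hH s a ha => ?_⟩
    have hR0 : (0 : ℝ) ≤ 3 * R * η := by positivity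
    by_cases hbig : ∃ y : ℤ, (y : ZMod Q) = a ∧ (X.kap : ℤ) * |y| < Q ∧ (X.D0 : ℤ) ^ r ∣ y
    · obtain ⟨y, rfl, hb, hd⟩ := hbig
      by_cases hy0 : y = 0
      · refine le_trans (X.Pr_mono (P' := fun _ => False) fun l _ hl => hl.2 ?_) ?_
        · simp [hy0, act]
        · simp only [Pr, if_false, Ex_const]; positivity
      · refine le_trans (X.Pr_mono fun l _ hl => hl.1)
          ((hlong Q N H₀ hQ hN0 hH₀ H (by omega) s y hb hy0 hd ha).trans ?_)
        push_cast; linarith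
    · obtain ⟨H', rfl⟩ : ∃ H', H = (L + 1) + H' := ⟨H - (L + 1), by omega⟩
      have h1 : X.Pr (L + 1) s (fun o => X.cnt (fun a => ¬ X.Black a) a o = 0) ≤ η := by
        refine le_trans ?_ (hL₀ L (by omega) s)
        rw [← X.Pr_take L 1]
        refine X.Pr_mono fun o ho hc => ⟨r, hLr, fun hd => hbig ?_⟩
        have hlen := X.length_of_mem_Paths ho
        have hlt : L < o.length := by omega
        have : o = o.take L ++ [o[L]] := by
          rw [List.take_append_getElem hlt, List.take_of_length_le (by omega)]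
        rw [this] at hc
        obtain ⟨y, hy, hb, hd'⟩ := black_run' hQ _ _ hc
        exact ⟨y, hy, hb, dvd_trans (by exact_mod_cast hd) hd'⟩
      rw [Pr, Ex_append]
      calc _ ≤ X.Ex (L + 1) s fun o =>
            (if X.cnt (fun a => ¬ X.Black a) a o = 0 then 1 else 0) + 3 * R * η := by
            refine X.Ex_mono fun o _ => ?_
            split_ifs with hc
            · refine le_trans (X.Ex_le_const (a := 1) fun i _ => ?_) (by linarith)
              split_ifs <;> norm_num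
            · rw [zero_add]
              refine le_trans ?_ (hT Q N H₀ hQ hN0 hH₀ H' (by omega) (X.endp s o) (X.act o a)
                (by rw [← act_mul, ha]; simp [act]))
              refine X.Pr_mono (P := fun i => X.cnt (fun a => ¬ X.Black a) a (o ++ i) < R + 1 ∧
                X.act (o ++ i) a ≠ 0) fun i _ hi => ?_
              rw [cnt_append hQ, act_append hQ] at hi
              exact ⟨by omega, hi.2⟩
        _ ≤ η + 3 * R * η := by
            rw [Ex_add, Ex_const]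
            refine add_le_add (le_trans (le_of_eq ?_) h1) le_rfl
            rw [Pr]; exact X.Ex_congr fun l _ => by congr
        _ ≤ _ := by push_cast; linarith

end Sys

end Pool.Agent.Lib.MP_39d40e_nt
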